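import Mathlib

open MeasureTheory ProbabilityTheory Real Set
open scoped RealInnerProductSpace

namespace H92.Gr

/-- sign with `sg 0 = 1` -/
noncomputable def sg (x : ℝ) : ℝ := if 0 ≤ x then 1 else -1

lemma measurable_sg : Measurable sg :=
  Measurable.ite measurableSet_Ici measurable_const measurable_const

lemma abs_sg (x : ℝ) : |sg x| = 1 := by
  unfold sg; split_ifs <;> simp

lemma sg_neg {x : ℝ} (hx : x ≠ 0) : sg (-x) = - sg x := by
  unfold sg
  rcases lt_or_gt_of_ne hx with h | h
  · rw [if_pos (by linarith), if_neg (by linarith)]; simp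
  · rw [if_neg (by linarith), if_pos (by linarith)]

section
variable {E : Type*} [NormedAddCommGroup E] [InnerProductSpace ℝ E] [FiniteDimensional ℝ E]
  [MeasurableSpace E] [BorelSpace E]
  {F : Type*} [NormedAddCommGroup F] [InnerProductSpace ℝ F] [FiniteDimensional ℝ F]
  [MeasurableSpace F] [BorelSpace F]

noncomputable def pr (x y : E) (g : E) : ℂ := ⟨⟪x, g⟫, ⟪y, g⟫⟩

omit [FiniteDimensional ℝ E] [MeasurableSpace E] [BorelSpace E] in
lemma continuous_pr (x y : E) : Continuous (pr x y) := by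
  have : pr x y = fun g => ((⟪x, g⟫ : ℝ) : ℂ) + ((⟪y, g⟫ : ℝ) : ℂ) * Complex.I := by
    ext g; apply Complex.ext <;> simp [pr]
  rw [this]; fun_prop

lemma charFun_pr (x y : E) (t : ℂ) :
    charFun ((stdGaussian E).map (pr x y)) t =
      Complex.exp (- ((t.re ^ 2 * ‖x‖ ^ 2 + 2 * t.re * t.im * ⟪x, y⟫ + t.im ^ 2 * ‖y‖ ^ 2 : ℝ) : ℂ) / 2) := by
  have h1 : charFun ((stdGaussian E).map (pr x y)) t = charFun (stdGaussian E) (t.re • x + t.im • y) := by
    rw [charFun_apply, charFun_apply, integral_map (continuous_pr x y).measurable.aemeasurable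
      (Continuous.aestronglyMeasurable (by fun_prop))]
    congr 1; ext g; congr 3
    rw [Complex.inner]
    simp [pr, inner_add_right, inner_smul_right, real_inner_comm]
  rw [h1, charFun_stdGaussian]
  congr 3
  rw [← Complex.ofReal_pow]
  congr 1
  rw [norm_add_sq_real, norm_smul, norm_smul, inner_smul_left, inner_smul_right]
  simp [mul_pow]; ring

lemma map_pr_eq {x y : E} {x' y' : F} (hx : ‖x‖ = ‖x'‖) (hy : ‖y‖ = ‖y'‖)
    (h : ⟪x, y⟫ = ⟪x', y'⟫) :
    (stdGaussian E).map (pr x y) = (stdGaussian F).map (pr x' y') := by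
  apply Measure.ext_of_charFun
  ext t
  rw [charFun_pr, charFun_pr, hx, hy, h]

noncomputable def J (x y : E) : ℝ := ∫ g, sg ⟪x, g⟫ * sg ⟪y, g⟫ ∂(stdGaussian E)

lemma J_eq (x y : E) : J x y = ∫ z, sg z.re * sg z.im ∂((stdGaussian E).map (pr x y)) := by
  rw [integral_map (continuous_pr x y).measurable.aemeasurable]
  · rfl
  · exact ((measurable_sg.comp Complex.measurable_re).mul
      (measurable_sg.comp Complex.measurable_im)).aestronglyMeasurable

lemma J_congr {x y : E} {x' y' : F} (hx : ‖x‖ = ‖x'‖) (hy : ‖y‖ = ‖y'‖)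
    (h : ⟪x, y⟫ = ⟪x', y'⟫) : J x y = J x' y' := by
  rw [J_eq, J_eq, map_pr_eq hx hy h]

lemma ae_ne_zero {x : E} (hx : ‖x‖ = 1) : ∀ᵐ g ∂(stdGaussian E), ⟪x, g⟫ ≠ 0 := by
  have h := IsGaussian.map_eq_gaussianReal (μ := stdGaussian E) (innerSL ℝ x)
  rw [variance_dual_stdGaussian, innerSL_apply_norm, hx] at h
  have hv : (((1:ℝ) ^ 2).toNNReal) ≠ 0 := by simp
  have := nullSingletonClass_gaussianReal (μ := (stdGaussian E)[innerSL ℝ x]) hv
  have h0 : (stdGaussian E).map (innerSL ℝ x) {0} = 0 := by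
    rw [h]; exact measure_singleton _
  rw [Measure.map_apply (by fun_prop) (measurableSet_singleton _)] at h0
  rw [ae_iff]
  convert h0 using 2
  ext g; simp

lemma integrable_sgsg (x y : E) :
    Integrable (fun g => sg ⟪x, g⟫ * sg ⟪y, g⟫) (stdGaussian E) := by
  refine Integrable.of_bound (C := 1) ?_ (ae_of_all _ fun g => ?_)
  · exact ((measurable_sg.comp (by fun_prop)).mul
      (measurable_sg.comp (by fun_prop))).aestronglyMeasurable
  · rw [Real.norm_eq_abs, abs_mul, abs_sg, abs_sg, mul_one]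

lemma J_neg {x : E} (hx : ‖x‖ = 1) (y : E) : J (-x) y = - J x y := by
  unfold J
  rw [← integral_neg]
  refine integral_congr_ae ?_
  filter_upwards [ae_ne_zero hx] with g hg
  rw [inner_neg_left, sg_neg hg]; ring

lemma J_le (x y : E) : J x y ≤ 1 := by
  have : J x y ≤ ∫ _g, (1:ℝ) ∂(stdGaussian E) := by
    refine integral_mono (integrable_sgsg x y) (integrable_const _) fun g => ?_
    have : |sg ⟪x, g⟫ * sg ⟪y, g⟫| = 1 := by rw [abs_mul, abs_sg, abs_sg, mul_one]
    exact le_of_abs_le this.le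
  simpa using this

end

lemma sg_add {a b c l m s : ℝ} (hl : 0 ≤ l) (hm : 0 ≤ m) (hs : 0 < s) (hlm : 0 < l + m)
    (h : s * b = l * a + m * c) : 1 + sg a * sg c = sg a * sg b + sg b * sg c := by
  unfold sg
  by_cases ha : 0 ≤ a <;> by_cases hc : 0 ≤ c <;> by_cases hb : 0 ≤ b <;> simp [ha, hb, hc]
  · exfalso; push Not at hb
    nlinarith [mul_nonneg hl ha, mul_nonneg hm hc, mul_pos hs (neg_pos.2 hb)]
  · exfalso; push Not at ha hc
    have h1 := mul_nonneg hs.le hb
    have h2 : l * a ≤ 0 := mul_nonpos_of_nonneg_of_nonpos hl ha.le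
    have h3 : m * c ≤ 0 := mul_nonpos_of_nonneg_of_nonpos hm hc.le
    rcases hl.eq_or_lt with h0 | h0
    · have : 0 < m := by linarith
      nlinarith [mul_pos this (neg_pos.2 hc)]
    · nlinarith [mul_pos h0 (neg_pos.2 ha)]

noncomputable def w (θ : ℝ) : ℂ := ⟨cos θ, sin θ⟩

lemma norm_w (θ : ℝ) : ‖w θ‖ = 1 := by
  rw [Complex.norm_eq_sqrt_sq_add_sq]; simp [w]

lemma inner_w (a b : ℝ) : ⟪w a, w b⟫ = cos (b - a) := by
  rw [Complex.inner]; simp [w, cos_sub]

lemma inner_w' (a : ℝ) (g : ℂ) : ⟪w a, g⟫ = cos a * g.re + sin a * g.im := by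
  rw [Complex.inner]; simp [w]; ring

noncomputable def D (a : ℝ) : ℝ := 1 - J (w 0) (w a)

lemma D_nonneg (a : ℝ) : 0 ≤ D a := sub_nonneg.2 (J_le _ _)

lemma D_add {a b : ℝ} (ha : 0 ≤ a) (hb : 0 ≤ b) (hab : a + b < π) (h0 : 0 < a + b) :
    D (a + b) = D a + D b := by
  have h1 : J (w a) (w (a + b)) = J (w 0) (w b) :=
    J_congr (by rw [norm_w, norm_w]) (by rw [norm_w, norm_w]) (by rw [inner_w, inner_w]; simp)
  have h2 : 1 + J (w 0) (w (a + b)) = J (w 0) (w a) + J (w a) (w (a + b)) := by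
    unfold J
    rw [← integral_add (integrable_sgsg _ _) (integrable_sgsg _ _)]
    have : (1:ℝ) = ∫ _g, (1:ℝ) ∂(stdGaussian ℂ) := by simp
    conv_lhs => rw [this]
    rw [← integral_add (integrable_const _) (integrable_sgsg _ _)]
    congr 1; ext g
    have hsa : 0 ≤ sin a := sin_nonneg_of_nonneg_of_le_pi ha (by linarith)
    have hsb : 0 ≤ sin b := sin_nonneg_of_nonneg_of_le_pi hb (by linarith)
    refine sg_add (l := sin b) (m := sin a) (s := sin (a + b)) hsb hsa
      (sin_pos_of_pos_of_lt_pi h0 hab) ?_ ?_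
    · rcases ha.eq_or_lt with h | h
      · have := sin_pos_of_pos_of_lt_pi (x := b) (by linarith) (by linarith); linarith
      · have := sin_pos_of_pos_of_lt_pi (x := a) h (by linarith); linarith
    · rw [inner_w', inner_w', inner_w', sin_add, cos_add]
      simp only [cos_zero, sin_zero]
      linear_combination (sin b * g.re) * (sin_sq_add_cos_sq a)
  unfold D; linarith

lemma D_half : D (π / 2) = 1 := by
  have h1 : J (-(w 0)) (w (π / 2)) = J (w 0) (w (π / 2)) :=
    J_congr (by simp) rfl (by rw [inner_neg_left, inner_w]; simp)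
  rw [J_neg (norm_w 0)] at h1
  unfold D; linarith

lemma D_zero : D 0 = 0 := by
  have := D_add (a := 0) (b := 1) le_rfl zero_le_one (by linarith [pi_gt_three]) (by norm_num)
  simp at this; exact this

lemma D_mul {d : ℝ} (hd : 0 < d) (j : ℕ) (hj : j * d < π) : D (j * d) = j * D d := by
  induction j with
  | zero => simp [D_zero]
  | succ j ih =>
    push_cast at hj ⊢
    have h0 : (0:ℝ) ≤ j * d := by positivity
    rw [add_mul, one_mul] at hj ⊢
    rw [D_add h0 hd.le hj (by linarith), ih (by linarith)]; ring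

lemma D_eq {a : ℝ} (ha : 0 ≤ a) (ha' : a < π) : D a = 2 / π * a := by
  have key : ∀ n : ℕ, |D a - 2 / π * a| ≤ 1 / ((n:ℝ) + 1) := by
    intro n
    set d : ℝ := π / 2 / ((n:ℝ) + 1) with hd
    have hn : (0:ℝ) < (n:ℝ) + 1 := by positivity
    have hd0 : 0 < d := by positivity
    have hdn : ((n + 1 : ℕ) : ℝ) * d = π / 2 := by rw [hd]; push_cast; field_simp
    have hDd : D d = 1 / ((n:ℝ) + 1) := by
      have := D_mul hd0 (n + 1) (by rw [hdn]; linarith [pi_pos])
      rw [hdn, D_half] at this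
      push_cast at this
      field_simp; linarith
    have hdpi : d < π := by
      have : d ≤ π / 2 := div_le_self (by positivity) (by linarith [n.cast_nonneg (α := ℝ)])
      linarith [pi_pos]
    set j := ⌊a / d⌋₊
    have hj1 : (j:ℝ) * d ≤ a := by
      have := Nat.floor_le (a := a / d) (by positivity)
      rwa [le_div_iff₀ hd0] at this
    have hj2 : a < (j + 1) * d := by
      have := Nat.lt_floor_add_one (a / d)
      rwa [div_lt_iff₀ hd0] at this
    have hr : D (a - j * d) ≤ D d := by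
      have := D_add (a := a - j * d) (b := d - (a - j * d)) (by linarith) (by linarith)
        (by linarith) (by linarith)
      rw [add_sub_cancel] at this
      linarith [D_nonneg (d - (a - j * d))]
    have hs : D a = j * D d + D (a - j * d) := by
      rcases ha.eq_or_lt with h | h
      · have hj : j = 0 := by simp [j, ← h]
        simp [hj]
      · have := D_add (a := j * d) (b := a - j * d) (by positivity) (by linarith)
          (by linarith) (by linarith)
        rw [add_sub_cancel, D_mul hd0 j (by linarith)] at this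
        exact this
    have hk : 2 / π * d = 1 / ((n:ℝ) + 1) := by rw [hd]; field_simp
    have h2 : 0 < 2 / π := by positivity
    have e1 : 2 / π * (j * d) ≤ 2 / π * a := by gcongr
    have e2 : 2 / π * a ≤ 2 / π * ((j + 1) * d) := by gcongr
    have e3 : 2 / π * (j * d) = j * D d := by rw [hDd, ← hk]; ring
    have e4 : 2 / π * ((j + 1) * d) = j * D d + D d := by rw [hDd, ← hk]; ring
    rw [← hDd, abs_le]
    constructor <;> linarith [D_nonneg (a - j * d)]
  have : |D a - 2 / π * a| ≤ 0 :=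
    ge_of_tendsto' tendsto_one_div_add_atTop_nhds_zero_nat key
  linarith [abs_nonneg (D a - 2 / π * a), abs_eq_zero.1 (le_antisymm this (abs_nonneg _))]

/-- Grothendieck's identity. -/
theorem J_arcsin {E : Type*} [NormedAddCommGroup E] [InnerProductSpace ℝ E]
    [FiniteDimensional ℝ E] [MeasurableSpace E] [BorelSpace E] {x y : E}
    (hx : ‖x‖ = 1) (hy : ‖y‖ = 1) (h : |⟪x, y⟫| < 1) : J x y = 2 / π * arcsin ⟪x, y⟫ := by
  rw [abs_lt] at h
  have h1 : J x y = J (w 0) (w (arccos ⟪x, y⟫)) :=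
    J_congr (by rw [hx, norm_w]) (by rw [hy, norm_w])
      (by rw [inner_w, sub_zero, cos_arccos h.1.le h.2.le])
  have h2 := D_eq (arccos_nonneg ⟪x, y⟫) (arccos_lt_pi.2 h.1)
  unfold D at h2
  rw [h1, arcsin_eq_pi_div_two_sub_arccos]
  have : 2 / π * (π / 2) = 1 := by field_simp
  rw [mul_sub, this]; linarith

end H92.Gr
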