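import Mathlib

open scoped InnerProductSpace ComplexOrder Matrix

namespace H92.Gr

universe u

variable (𝕜 : Type) [RCLike 𝕜]

/-- `sup |∑ a_ij p_i q_j|` over unimodular scalars `p_i`, `q_j`. -/
noncomputable def bil {m n : ℕ} (A : Matrix (Fin m) (Fin n) 𝕜) : ℝ :=
  sSup {s | ∃ (p : Fin m → 𝕜) (q : Fin n → 𝕜), (∀ i, ‖p i‖ = 1) ∧ (∀ j, ‖q j‖ = 1) ∧
    s = ‖∑ i, ∑ j, A i j * p i * q j‖}

/-- `K` is admissible in Grothendieck's inequality over `𝕜`. -/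
def IsGr (K : ℝ) : Prop :=
  ∀ (m n : ℕ) (A : Matrix (Fin m) (Fin n) 𝕜) (H : Type u) [NormedAddCommGroup H]
    [InnerProductSpace 𝕜 H] [CompleteSpace H] (x : Fin m → H) (y : Fin n → H),
    (∀ i, ‖x i‖ = 1) → (∀ j, ‖y j‖ = 1) →
      ‖∑ i, ∑ j, A i j * ⟪x i, y j⟫_𝕜‖ ≤ K * bil 𝕜 A

/-- The Grothendieck constant of `𝕜`. -/
noncomputable def KG : ℝ := sInf {K | 0 < K ∧ IsGr.{u} 𝕜 K}

/-- Correlation matrices. -/
def IsCorr {k : ℕ} (S : Matrix (Fin k) (Fin k) 𝕜) : Prop := S.PosSemidef ∧ ∀ i, S i i = 1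

/-- `max |tr (B* Θ)|` over rank-one correlation matrices `Θ = x x*`, `|x_i| = 1`. -/
noncomputable def quad {k : ℕ} (B : Matrix (Fin k) (Fin k) 𝕜) : ℝ :=
  sSup {s | ∃ x : Fin k → 𝕜, (∀ i, ‖x i‖ = 1) ∧
    s = ‖(Bᴴ * Matrix.vecMulVec x (star x)).trace‖}

end H92.Gr
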