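import Mathlib
import Pool.Agent.H92.GrDefs

open scoped InnerProductSpace ComplexConjugate

namespace H92.Gr

universe u

variable {𝕜 : Type} [RCLike 𝕜] {α β : Type}

/-- factorisation through a finite-dimensional Hilbert space with squared norms `≤ r` -/
def Cor (r : ℝ) (X : α → β → 𝕜) : Prop :=
  ∃ (ι : Type) (_ : Fintype ι) (u : α → ι → 𝕜) (v : β → ι → 𝕜),
    (∀ a, ∑ l, ‖u a l‖ ^ 2 ≤ r) ∧ (∀ b, ∑ l, ‖v b l‖ ^ 2 ≤ r) ∧
      ∀ a b, X a b = ∑ l, conj (u a l) * v b l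

lemma Cor.mono {r s : ℝ} {X : α → β → 𝕜} (h : Cor r X) (hrs : r ≤ s) : Cor s X := by
  obtain ⟨ι, _, u, v, hu, hv, h⟩ := h
  exact ⟨ι, _, u, v, fun a => (hu a).trans hrs, fun b => (hv b).trans hrs, h⟩

lemma Cor.congr {r : ℝ} {X Y : α → β → 𝕜} (h : Cor r X) (e : ∀ a b, Y a b = X a b) :
    Cor r Y := by
  have : Y = X := by ext a b; exact e a b
  rwa [this]

lemma Cor.zero : Cor 0 (fun (_ : α) (_ : β) => (0 : 𝕜)) :=
  ⟨Empty, inferInstance, fun _ _ => 0, fun _ _ => 0, by simp, by simp, by simp⟩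

lemma Cor.one : Cor 1 (fun (_ : α) (_ : β) => (1 : 𝕜)) :=
  ⟨Unit, inferInstance, fun _ _ => 1, fun _ _ => 1, by simp, by simp, by simp⟩

lemma Cor.add {r s : ℝ} {X Y : α → β → 𝕜} (h : Cor r X) (h' : Cor s Y) :
    Cor (r + s) (fun a b => X a b + Y a b) := by
  obtain ⟨ι, _, u, v, hu, hv, h⟩ := h
  obtain ⟨ι', _, u', v', hu', hv', h'⟩ := h'
  refine ⟨ι ⊕ ι', inferInstance, fun a => Sum.elim (u a) (u' a), fun b => Sum.elim (v b) (v' b),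
    fun a => ?_, fun b => ?_, fun a b => ?_⟩
  · simpa [Fintype.sum_sum_type] using add_le_add (hu a) (hu' a)
  · simpa [Fintype.sum_sum_type] using add_le_add (hv b) (hv' b)
  · simp [Fintype.sum_sum_type, h, h']

lemma Cor.mul {r s : ℝ} {X Y : α → β → 𝕜} (h : Cor r X) (h' : Cor s Y) :
    Cor (r * s) (fun a b => X a b * Y a b) := by
  obtain ⟨ι, _, u, v, hu, hv, h⟩ := h
  obtain ⟨ι', _, u', v', hu', hv', h'⟩ := h'
  have key : ∀ (f : ι → 𝕜) (g : ι' → 𝕜), ∑ l, ‖f l‖ ^ 2 ≤ r → ∑ l, ‖g l‖ ^ 2 ≤ s →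
      ∑ l : ι × ι', ‖f l.1 * g l.2‖ ^ 2 ≤ r * s := by
    intro f g hf hg
    have : ∑ l : ι × ι', ‖f l.1 * g l.2‖ ^ 2 = (∑ l, ‖f l‖ ^ 2) * ∑ l, ‖g l‖ ^ 2 := by
      rw [Finset.sum_mul_sum, Fintype.sum_prod_type]; simp [mul_pow]
    rw [this]
    have h1 : 0 ≤ ∑ l, ‖f l‖ ^ 2 := by positivity
    have h2 : 0 ≤ ∑ l, ‖g l‖ ^ 2 := by positivity
    exact mul_le_mul hf hg h2 (h1.trans hf)
  refine ⟨ι × ι', inferInstance, fun a l => u a l.1 * u' a l.2, fun b l => v b l.1 * v' b l.2,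
    fun a => key _ _ (hu a) (hu' a), fun b => key _ _ (hv b) (hv' b), fun a b => ?_⟩
  simp only [h, h', Finset.sum_mul_sum, Fintype.sum_prod_type, map_mul]
  refine Finset.sum_congr rfl fun _ _ => Finset.sum_congr rfl fun _ _ => by ring

lemma Cor.conj {r : ℝ} {X : α → β → 𝕜} (h : Cor r X) : Cor r (fun a b => conj (X a b)) := by
  obtain ⟨ι, _, u, v, hu, hv, h⟩ := h
  refine ⟨ι, inferInstance, fun a l => conj (u a l), fun b l => conj (v b l),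
    fun a => by simpa using hu a, fun b => by simpa using hv b, fun a b => ?_⟩
  simp [h]

lemma Cor.const (c : 𝕜) : Cor ‖c‖ (fun (_ : α) (_ : β) => c) := by
  obtain ⟨ω, hω, hc⟩ := RCLike.exists_norm_mul_eq_self c
  refine ⟨Unit, inferInstance, fun _ _ => (√‖c‖ : ℝ), fun _ _ => ω * (√‖c‖ : ℝ),
    fun a => by simp [Real.sq_sqrt], fun b => by simp [hω, Real.sq_sqrt], fun a b => ?_⟩
  simp only [Finset.univ_unique, RCLike.conj_ofReal, Finset.sum_const, Finset.card_singleton,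
    one_smul]
  rw [mul_left_comm, ← RCLike.ofReal_mul, Real.mul_self_sqrt (norm_nonneg _), hc]

lemma Cor.smul {r : ℝ} {X : α → β → 𝕜} (h : Cor r X) (c : 𝕜) :
    Cor (‖c‖ * r) (fun a b => c * X a b) := (Cor.const c).mul h

lemma Cor.pow {r : ℝ} {X : α → β → 𝕜} (h : Cor r X) (k : ℕ) :
    Cor (r ^ k) (fun a b => X a b ^ k) := by
  induction k with
  | zero => simpa using Cor.one
  | succ k ih => simpa [pow_succ] using ih.mul h

lemma Cor.sum {κ : Type*} (s : Finset κ) {r : κ → ℝ} {X : κ → α → β → 𝕜}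
    (h : ∀ k ∈ s, Cor (r k) (X k)) : Cor (∑ k ∈ s, r k) (fun a b => ∑ k ∈ s, X k a b) := by
  classical
  induction s using Finset.induction_on with
  | empty => simpa using Cor.zero
  | insert k s hk ih =>
    simp only [Finset.sum_insert hk]
    exact (h k (by simp)).add (ih fun j hj => h j (by simp [hj]))

lemma Cor.norm_le {r : ℝ} {X : α → β → 𝕜} (h : Cor r X) (a : α) (b : β) : ‖X a b‖ ≤ r := by
  obtain ⟨ι, _, u, v, hu, hv, h⟩ := h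
  rw [h]
  refine (norm_sum_le _ _).trans ?_
  have : ∑ l, ‖conj (u a l) * v b l‖ ≤ ∑ l, (‖u a l‖ ^ 2 + ‖v b l‖ ^ 2) / 2 := by
    refine Finset.sum_le_sum fun l _ => ?_
    rw [norm_mul, RCLike.norm_conj]
    nlinarith [sq_nonneg (‖u a l‖ - ‖v b l‖)]
  rw [← Finset.sum_div, Finset.sum_add_distrib] at this
  linarith [hu a, hv b]

lemma Cor.unit {X : α → β → 𝕜} (h : Cor 1 X) :
    ∃ (ι : Type) (_ : Fintype ι) (u : α → ι → 𝕜) (v : β → ι → 𝕜),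
    (∀ a, ∑ l, ‖u a l‖ ^ 2 = 1) ∧ (∀ b, ∑ l, ‖v b l‖ ^ 2 = 1) ∧
      ∀ a b, X a b = ∑ l, conj (u a l) * v b l := by
  obtain ⟨ι, _, u, v, hu, hv, h⟩ := h
  refine ⟨ι ⊕ Bool, inferInstance,
    fun a => Sum.elim (u a) fun t => if t then ((√(1 - ∑ l, ‖u a l‖ ^ 2) : ℝ) : 𝕜) else 0,
    fun b => Sum.elim (v b) fun t => if t then 0 else ((√(1 - ∑ l, ‖v b l‖ ^ 2) : ℝ) : 𝕜),
    fun a => ?_, fun b => ?_, fun a b => ?_⟩
  · simp [Fintype.sum_sum_type, Real.sq_sqrt (sub_nonneg.2 (hu a))]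
  · simp [Fintype.sum_sum_type, Real.sq_sqrt (sub_nonneg.2 (hv b))]
  · simp [Fintype.sum_sum_type, h]

lemma cor_inner [Finite α] [Finite β] {H : Type*} [NormedAddCommGroup H] [InnerProductSpace 𝕜 H]
    (x : α → H) (y : β → H) (hx : ∀ i, ‖x i‖ = 1) (hy : ∀ j, ‖y j‖ = 1) :
    Cor 1 (fun a b => ⟪x a, y b⟫_𝕜) := by
  let S : Submodule 𝕜 H := Submodule.span 𝕜 (Set.range x ∪ Set.range y)
  have : FiniteDimensional 𝕜 S :=
    FiniteDimensional.span_of_finite 𝕜 ((Set.finite_range x).union (Set.finite_range y))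
  let b := stdOrthonormalBasis 𝕜 S
  let x' : α → S := fun a => ⟨x a, Submodule.subset_span (by simp)⟩
  let y' : β → S := fun a => ⟨y a, Submodule.subset_span (by simp)⟩
  refine ⟨Fin (Module.finrank 𝕜 S), inferInstance, fun a l => ⟪b l, x' a⟫_𝕜,
    fun c l => ⟪b l, y' c⟫_𝕜, fun a => ?_, fun c => ?_, fun a c => ?_⟩
  · rw [b.sum_sq_norm_inner_right]; simp [x', hx]
  · rw [b.sum_sq_norm_inner_right]; simp [y', hy]
  · simp only [inner_conj_symm]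
    rw [b.sum_inner_mul_inner]; rfl

variable {m n : ℕ}

lemma bdd_bil (A : Matrix (Fin m) (Fin n) 𝕜) : BddAbove {s | ∃ (p : Fin m → 𝕜) (q : Fin n → 𝕜),
    (∀ i, ‖p i‖ = 1) ∧ (∀ j, ‖q j‖ = 1) ∧ s = ‖∑ i, ∑ j, A i j * p i * q j‖} := by
  refine ⟨∑ i, ∑ j, ‖A i j‖, ?_⟩
  rintro s ⟨p, q, hp, hq, rfl⟩
  refine (norm_sum_le _ _).trans (Finset.sum_le_sum fun i _ => (norm_sum_le _ _).trans
    (Finset.sum_le_sum fun j _ => ?_))
  simp [hp, hq]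

lemma exists_unimod {ι : Type*} [Fintype ι] (c p : ι → 𝕜) (hp : ∀ i, ‖p i‖ ≤ 1) :
    ∃ p' : ι → 𝕜, (∀ i, ‖p' i‖ = 1) ∧ ‖∑ i, p i * c i‖ ≤ ‖∑ i, p' i * c i‖ := by
  choose ω hω hc using fun i => RCLike.exists_norm_eq_mul_self (c i)
  refine ⟨ω, hω, ?_⟩
  simp_rw [← hc]
  rw [← RCLike.ofReal_sum, RCLike.norm_ofReal, abs_of_nonneg (by positivity)]
  refine (norm_sum_le _ _).trans (Finset.sum_le_sum fun i _ => ?_)
  rw [norm_mul]
  exact mul_le_of_le_one_left (norm_nonneg _) (hp i)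

lemma le_bil (A : Matrix (Fin m) (Fin n) 𝕜) (p : Fin m → 𝕜) (q : Fin n → 𝕜)
    (hp : ∀ i, ‖p i‖ ≤ 1) (hq : ∀ j, ‖q j‖ ≤ 1) :
    ‖∑ i, ∑ j, A i j * p i * q j‖ ≤ bil 𝕜 A := by
  obtain ⟨p', hp', h1⟩ := exists_unimod (fun i => ∑ j, A i j * q j) p hp
  obtain ⟨q', hq', h2⟩ := exists_unimod (fun j => ∑ i, A i j * p' i) q hq
  have e1 : ∀ p : Fin m → 𝕜, ∑ i, ∑ j, A i j * p i * q j = ∑ i, p i * ∑ j, A i j * q j := by
    intro p
    refine Finset.sum_congr rfl fun i _ => ?_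
    rw [Finset.mul_sum]; exact Finset.sum_congr rfl fun j _ => by ring
  have e2 : ∀ q : Fin n → 𝕜, ∑ i, ∑ j, A i j * p' i * q j = ∑ j, q j * ∑ i, A i j * p' i := by
    intro q
    rw [Finset.sum_comm]
    refine Finset.sum_congr rfl fun i _ => ?_
    rw [Finset.mul_sum]; exact Finset.sum_congr rfl fun j _ => by ring
  rw [← e1, ← e1] at h1
  rw [← e2, ← e2] at h2
  exact (h1.trans h2).trans (le_csSup (bdd_bil A) ⟨p', q', hp', hq', rfl⟩)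

lemma bil_nonneg (A : Matrix (Fin m) (Fin n) 𝕜) : 0 ≤ bil 𝕜 A :=
  (norm_nonneg _).trans (le_bil A (fun _ => 1) (fun _ => 1) (by simp) (by simp))

/-- the semidefinite value -/
noncomputable def gam (A : Matrix (Fin m) (Fin n) 𝕜) : ℝ :=
  sSup {s | ∃ X : Fin m → Fin n → 𝕜, Cor 1 X ∧ s = ‖∑ i, ∑ j, A i j * X i j‖}

lemma le_gam (A : Matrix (Fin m) (Fin n) 𝕜) {X : Fin m → Fin n → 𝕜} (h : Cor 1 X) :
    ‖∑ i, ∑ j, A i j * X i j‖ ≤ gam A := by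
  refine le_csSup ⟨∑ i, ∑ j, ‖A i j‖, ?_⟩ ⟨X, h, rfl⟩
  rintro s ⟨X, hX, rfl⟩
  refine (norm_sum_le _ _).trans (Finset.sum_le_sum fun i _ => (norm_sum_le _ _).trans
    (Finset.sum_le_sum fun j _ => ?_))
  rw [norm_mul]
  exact mul_le_of_le_one_right (norm_nonneg _) (hX.norm_le i j)

lemma gam_le (A : Matrix (Fin m) (Fin n) 𝕜) {C : ℝ}
    (h : ∀ X : Fin m → Fin n → 𝕜, Cor 1 X → ‖∑ i, ∑ j, A i j * X i j‖ ≤ C) : gam A ≤ C := by
  refine csSup_le ⟨_, _, Cor.zero.mono zero_le_one, rfl⟩ ?_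
  rintro s ⟨X, hX, rfl⟩
  exact h X hX

lemma gam_nonneg (A : Matrix (Fin m) (Fin n) 𝕜) : 0 ≤ gam A :=
  (norm_nonneg _).trans (le_gam A (Cor.zero.mono zero_le_one))

lemma le_mul_gam (A : Matrix (Fin m) (Fin n) 𝕜) {X : Fin m → Fin n → 𝕜} {r : ℝ} (hr : 0 ≤ r)
    (h : Cor r X) : ‖∑ i, ∑ j, A i j * X i j‖ ≤ r * gam A := by
  rcases hr.eq_or_lt with h0 | h0
  · have : ∀ i j, X i j = 0 := fun i j =>
      norm_le_zero_iff.1 (h0 ▸ h.norm_le i j)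
    simp [this, ← h0]
  · have h1 := le_gam A ((h.smul ((r⁻¹ : ℝ) : 𝕜)).mono (s := 1) (by
      rw [RCLike.norm_ofReal, abs_of_pos (inv_pos.2 h0), inv_mul_cancel₀ h0.ne']))
    have e : ∑ i, ∑ j, A i j * (((r⁻¹ : ℝ) : 𝕜) * X i j) =
        ((r⁻¹ : ℝ) : 𝕜) * ∑ i, ∑ j, A i j * X i j := by
      simp only [Finset.mul_sum]
      exact Finset.sum_congr rfl fun _ _ => Finset.sum_congr rfl fun _ _ => by ring
    rw [e, norm_mul, RCLike.norm_ofReal, abs_of_pos (inv_pos.2 h0), inv_mul_le_iff₀ h0] at h1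
    exact h1

lemma KG_le {K : ℝ} (hK : 0 < K)
    (h : ∀ (m n : ℕ) (A : Matrix (Fin m) (Fin n) 𝕜), gam A ≤ K * bil 𝕜 A) : KG.{u} 𝕜 ≤ K := by
  refine csInf_le ⟨0, fun K hK => hK.1.le⟩ ⟨hK, ?_⟩
  intro m n A H _ _ _ x y hx hy
  exact (le_gam A (cor_inner x y hx hy)).trans (h m n A)

end H92.Gr
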