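import Mathlib
import Pool.Agent.H92.Gr1
import Pool.Agent.H92.Gr2

open MeasureTheory ProbabilityTheory Real Filter Topology
open scoped RealInnerProductSpace Nat

namespace H92.Gr

universe u

variable {m n : ℕ}

lemma round_real (A : Matrix (Fin m) (Fin n) ℝ) {X : Fin m → Fin n → ℝ} (h : Cor 1 X)
    (hX : ∀ i j, |X i j| < 1) : |∑ i, ∑ j, A i j * (2 / π * arcsin (X i j))| ≤ bil ℝ A := by
  obtain ⟨ι, _, u, v, hu, hv, h⟩ := h.unit
  let U : Fin m → EuclideanSpace ℝ ι := fun i => WithLp.toLp 2 (u i)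
  let V : Fin n → EuclideanSpace ℝ ι := fun j => WithLp.toLp 2 (v j)
  have hU : ∀ i, ‖U i‖ = 1 := fun i => by
    rw [EuclideanSpace.norm_eq]; simp only [U]; rw [hu i]; simp
  have hV : ∀ j, ‖V j‖ = 1 := fun j => by
    rw [EuclideanSpace.norm_eq]; simp only [V]; rw [hv j]; simp
  have hUV : ∀ i j, ⟪U i, V j⟫ = X i j := fun i j => by
    rw [h, PiLp.inner_apply]; simp [U, V, mul_comm]
  have e : ∑ i, ∑ j, A i j * (2 / π * arcsin (X i j)) =
      ∫ g, ∑ i, ∑ j, A i j * sg ⟪U i, g⟫ * sg ⟪V j, g⟫ ∂(stdGaussian (EuclideanSpace ℝ ι)) := by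
    have hi : ∀ i j, Integrable (fun g => A i j * sg ⟪U i, g⟫ * sg ⟪V j, g⟫)
        (stdGaussian (EuclideanSpace ℝ ι)) := fun i j => by
      simpa [mul_assoc] using (integrable_sgsg (U i) (V j)).const_mul (A i j)
    rw [integral_finsetSum _ fun i _ => integrable_finsetSum _ fun j _ => hi i j]
    refine Finset.sum_congr rfl fun i _ => ?_
    rw [integral_finsetSum _ fun j _ => hi i j]
    refine Finset.sum_congr rfl fun j _ => ?_
    rw [← hUV, ← J_arcsin (hU i) (hV j) (by rw [hUV]; exact hX i j), J, ← integral_const_mul]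
    simp [mul_assoc]
  rw [e, ← Real.norm_eq_abs]
  have := norm_integral_le_of_norm_le_const (μ := stdGaussian (EuclideanSpace ℝ ι))
    (f := fun g => ∑ i, ∑ j, A i j * sg ⟪U i, g⟫ * sg ⟪V j, g⟫) (C := bil ℝ A)
    (ae_of_all _ fun g => le_bil A _ _ (fun i => (abs_sg _).le) (fun j => (abs_sg _).le))
  simpa using this

lemma sinh_lt : sinh (17 / 20) < 1 := by
  have h1 : exp (17 / 20) * (1 + 3 / 20) ≤ exp 1 := by
    have := add_one_le_exp (3 / 20)
    calc exp (17 / 20) * (1 + 3 / 20) ≤ exp (17 / 20) * exp (3 / 20) := by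
          gcongr; linarith
      _ = exp 1 := by rw [← exp_add]; norm_num
  have h2 := exp_one_lt_d9
  have h3 : exp (17 / 20) * exp (-(17 / 20)) = 1 := by rw [← exp_add]; simp
  have h4 := exp_pos (17 / 20)
  have h5 := exp_pos (-(17 / 20))
  rw [sinh_eq]
  nlinarith

lemma gam_real (A : Matrix (Fin m) (Fin n) ℝ) : gam A ≤ 10 * π / 17 * bil ℝ A := by
  refine gam_le A fun X hX => ?_
  set c : ℝ := 17 / 20 with hc
  let P : ℕ → Fin m → Fin n → ℝ := fun N i j =>
    ∑ k ∈ Finset.range N, ((-1) ^ k * c ^ (2 * k + 1) / ((2 * k + 1)! : ℝ)) * X i j ^ (2 * k + 1)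
  have hP : ∀ N, Cor (sinh c) (P N) := by
    intro N
    refine (Cor.sum (Finset.range N) fun k _ => (hX.pow (2 * k + 1)).smul _).mono ?_
    refine le_of_eq_of_le ?_ (sum_le_hasSum (Finset.range N) (fun k _ => by positivity)
      (Real.hasSum_sinh c))
    refine Finset.sum_congr rfl fun k _ => ?_
    have : 0 < c := by positivity
    simp [abs_of_pos this]
  have hlim : ∀ i j, Tendsto (fun N => P N i j) atTop (𝓝 (sin (c * X i j))) := by
    intro i j
    convert (Real.hasSum_sin (c * X i j)).tendsto_sum_nat using 2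
    refine Finset.sum_congr rfl fun k _ => ?_
    rw [mul_pow]; ring
  have h1 : Tendsto (fun N => |∑ i, ∑ j, A i j * (2 / π * arcsin (P N i j))|) atTop
      (𝓝 |∑ i, ∑ j, A i j * (2 / π * arcsin (sin (c * X i j)))|) := by
    refine Tendsto.abs (tendsto_finsetSum _ fun i _ => tendsto_finsetSum _ fun j _ => ?_)
    exact (((continuous_arcsin.tendsto _).comp (hlim i j)).const_mul _).const_mul _
  have h2 := le_of_tendsto' h1 fun N => round_real A ((hP N).mono sinh_lt.le)
    fun i j => ((hP N).norm_le i j).trans_lt sinh_lt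
  have h3 : ∑ i, ∑ j, A i j * (2 / π * arcsin (sin (c * X i j))) =
      (2 / π * c) * ∑ i, ∑ j, A i j * X i j := by
    simp only [Finset.mul_sum]
    refine Finset.sum_congr rfl fun i _ => Finset.sum_congr rfl fun j _ => ?_
    have := abs_le.1 (hX.norm_le i j)
    rw [arcsin_sin (by nlinarith [pi_gt_three]) (by nlinarith [pi_gt_three])]; ring
  rw [h3, abs_mul, abs_of_pos (by positivity)] at h2
  have : 10 * π / 17 * (2 / π * c) = 1 := by rw [hc]; field_simp; norm_num
  calc _ = 10 * π / 17 * (2 / π * c * |∑ i, ∑ j, A i j * X i j|) := by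
        rw [← mul_assoc, this, one_mul]; rfl
    _ ≤ _ := by gcongr

theorem KG_real : KG.{u} ℝ ≤ 10 * π / 17 := KG_le (by positivity) fun _ _ A => gam_real A

end H92.Gr
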