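import Mathlib

set_option autoImplicit false
open MeasureTheory Set Real Complex ComplexConjugate UnitAddTorus
open scoped InnerProductSpace

namespace Pool.Agent.H92.CellGabor

variable {d : ℕ}

abbrev V (d : ℕ) := EuclideanSpace ℝ (Fin d)

noncomputable def ee (x b : V d) : ℂ := Complex.exp (-2 * (π : ℂ) * I * ((inner ℝ x b : ℝ) : ℂ))

lemma ee_addl (x y b : V d) : ee (x + y) b = ee x b * ee y b := by
  simp only [ee, inner_add_left, ← Complex.exp_add]; congr 1; push_cast; ring

lemma ee_addr (x b c : V d) : ee x (b + c) = ee x b * ee x c := by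
  simp only [ee, inner_add_right, ← Complex.exp_add]; congr 1; push_cast; ring

lemma ee_conj (x b : V d) : conj (ee x b) = ee x (-b) := by
  simp only [ee, ← Complex.exp_conj, inner_neg_right, map_mul, map_neg, conj_ofReal, conj_I, map_ofNat]
  congr 1; push_cast; ring

lemma ee_norm (x b : V d) : ‖ee x b‖ = 1 := by
  rw [ee, show -2 * (π : ℂ) * I * ((inner ℝ x b : ℝ) : ℂ) = ((-2 * π * inner ℝ x b : ℝ) : ℂ) * I by push_cast; ring,
    norm_exp_ofReal_mul_I]

lemma ee_ne (x b : V d) : ee x b ≠ 0 := Complex.exp_ne_zero _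

lemma ee_zero (x : V d) : ee x 0 = 1 := by simp [ee]

@[fun_prop] lemma ee_cont (b : V d) : Continuous fun x => ee x b := by unfold ee; fun_prop

def ι (n : Fin d → ℤ) : V d := WithLp.toLp 2 fun i => (n i : ℝ)

lemma ι_add (n m : Fin d → ℤ) : ι (n + m) = ι n + ι m := by ext; simp [ι]
lemma ι_neg (n : Fin d → ℤ) : ι (-n) = -ι n := by ext; simp [ι]
lemma ι_sub (n m : Fin d → ℤ) : ι (n - m) = ι n - ι m := by ext; simp [ι]

lemma ee_int (n k : Fin d → ℤ) : ee (ι n) (ι k) = 1 := by
  rw [ee, ← exp_int_mul_two_pi_mul_I (-∑ i, k i * n i)]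
  congr 1
  simp [ι, PiLp.inner_apply]; ring

def Q (d : ℕ) : Set (V d) := {x | ∀ i, x i ∈ Ioc (0:ℝ) (0 + 1)}

noncomputable def cl (x : V d) : Fin d → ℤ := fun i => ⌈x i⌉ - 1

lemma cl_add (x : V d) (n : Fin d → ℤ) : cl (x + ι n) = cl x + n := by
  ext i; simp [cl, ι]; ring

lemma cl_sub (x : V d) (n : Fin d → ℤ) : cl (x - ι n) = cl x - n := by
  rw [sub_eq_add_neg, ← ι_neg, cl_add, sub_eq_add_neg]

lemma mem_Q (x : V d) : x ∈ Q d ↔ cl x = 0 := by
  simp only [Q, mem_ofPred_eq, funext_iff, cl, Pi.zero_apply, sub_eq_zero, Int.ceil_eq_iff]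
  simp

lemma meas_cl : Measurable (cl (d := d)) := by unfold cl; fun_prop

lemma meas_Q : MeasurableSet (Q d) := by
  rw [show Q d = cl ⁻¹' {0} from Set.ext mem_Q]; exact meas_cl (measurableSet_singleton _)

section torus
noncomputable local instance : MeasureSpace UnitAddCircle := ⟨AddCircle.haarAddCircle⟩

noncomputable def σ (z : UnitAddTorus (Fin d)) : V d := WithLp.toLp 2 (measurableEquivPiIoc (fun _ => 0) z).1

lemma σ_emb : MeasurableEmbedding (σ (d := d)) :=
  (MeasurableEquiv.toLp 2 _).measurableEmbedding.comp ((MeasurableEmbedding.subtype_coe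
    (MeasurableSet.univ_pi' fun _ => measurableSet_Ioc)).comp (measurableEquivPiIoc _).measurableEmbedding)

lemma σ_mp : MeasurePreserving (σ (d := d)) volume (volume.restrict (Q d)) :=
  ((PiLp.volume_preserving_toLp (Fin d)).restrict_preimage meas_Q).comp
    ((measurePreserving_subtype_coe (MeasurableSet.univ_pi' fun _ => measurableSet_Ioc)).comp
      (measurePreserving_equivPiIoc _))

lemma ee_σ (z : UnitAddTorus (Fin d)) (k : Fin d → ℤ) : ee (σ z) (ι k) = mFourier (-k) z := by
  have : z = fun i => ((σ z i : ℝ) : UnitAddCircle) := ((measurableEquivPiIoc fun _ => 0).symm_apply_apply z).symm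
  conv_rhs => rw [this]
  simp only [mFourier, ContinuousMap.coe_mk, fourier_coe_apply, ← Complex.exp_sum, ee]
  congr 1
  simp [ι, PiLp.inner_apply, Finset.mul_sum]
  exact Finset.sum_congr rfl fun i _ => by ring

lemma int_Q (k : Fin d → ℤ) : ∫ x in Q d, ee x (ι k) = if k = 0 then 1 else 0 := by
  rw [← σ_mp.integral_comp σ_emb]
  have := orthonormal_iff_ite.mp (orthonormal_mFourier (d := Fin d)) k 0
  rw [ContinuousMap.inner_toLp] at this
  simp only [ee_σ, mFourier_neg]
  simpa [mFourier_zero] using this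

lemma uniq {h : V d → ℂ} (hh : MemLp h 2 (volume.restrict (Q d))) (H : ∀ k, ∫ x in Q d, h x * ee x (ι k) = 0) :
    ∀ᵐ x ∂volume.restrict (Q d), h x = 0 := by
  have m := hh.comp_measurePreserving σ_mp
  have : m.toLp = 0 := by
    refine mFourierBasis.repr.map_eq_zero_iff.mp (lp.ext (funext fun k => ?_))
    rw [mFourierBasis_repr, mFourierCoeff]
    refine Eq.trans ?_ (H k)
    rw [← σ_mp.integral_comp σ_emb]
    refine integral_congr_ae ?_
    filter_upwards [m.coeFn_toLp] with z hz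
    rw [hz, ee_σ, smul_eq_mul, mul_comm]; rfl
  rw [← σ_mp.map_eq, σ_emb.ae_map_iff]
  filter_upwards [m.coeFn_toLp, Lp.coeFn_zero ℂ 2 (volume : Measure (UnitAddTorus (Fin d)))] with z h1 h2
  rw [this, h2] at h1
  exact h1.symm

instance fin_Q : IsFiniteMeasure (volume.restrict (Q d)) := by
  have : IsFiniteMeasure (volume : Measure (UnitAddTorus (Fin d))) :=
    inferInstanceAs (IsFiniteMeasure (Measure.pi fun _ => AddCircle.haarAddCircle))
  exact σ_mp.map_eq ▸ inferInstance

end torus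

lemma dec (F : V d → ℂ) (B : Finset (Fin d → ℤ)) (hF : ∀ n ∈ B, IntegrableOn (fun x => F (x + ι n)) (Q d)) :
    Integrable ({x | cl x ∈ B}.indicator F) ∧
    ∫ x, {x | cl x ∈ B}.indicator F x = ∑ n ∈ B, ∫ x in Q d, F (x + ι n) := by
  have e : {x | cl x ∈ B}.indicator F = fun x => ∑ n ∈ B, (Q d).indicator (fun y => F (y + ι n)) (x - ι n) := by
    ext x
    simp [indicator, mem_Q, cl_sub, sub_eq_zero]
  have i : ∀ n ∈ B, Integrable fun x => (Q d).indicator (fun y => F (y + ι n)) (x - ι n) := fun n hn =>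
    ((integrable_indicator_iff meas_Q).mpr (hF n hn)).comp_sub_right _
  rw [e]
  refine ⟨integrable_finsetSum _ i, ?_⟩
  rw [integral_finsetSum _ i]
  exact Finset.sum_congr rfl fun n _ => by rw [integral_sub_right_eq_self, integral_indicator meas_Q]

lemma bd {F : V d → ℂ} {μ : Measure (V d)} [IsFiniteMeasure μ] (h1 : AEStronglyMeasurable F μ) (h2 : ∀ x, ‖F x‖ ≤ 1)
    (p : ENNReal) : MemLp F p μ := MemLp.of_bound h1 1 (.of_forall h2)

lemma int_ee (b y : V d) : IntegrableOn (fun x => ee (x + y) b) (Q d) :=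
  memLp_one_iff_integrable.mp (bd (by fun_prop) (fun _ => (ee_norm _ _).le) 1)

lemma parseval {μ : Measure (V d)} [IsFiniteMeasure μ] (h0 : 0 < μ.real univ) {B : Set (V d)}
    (h1 : ∀ b ∈ B, ∀ b' ∈ B, b ≠ b' → ∫ x, ee x b * conj (ee x b') ∂μ = 0)
    (h2 : ∀ f : V d → ℂ, MemLp f 2 μ → (∀ b ∈ B, ∫ x, f x * conj (ee x b) ∂μ = 0) → f =ᵐ[μ] 0)
    {f g : V d → ℂ} (hf : MemLp f 2 μ) (hg : MemLp g 2 μ) (hfg : ∀ x, g x * conj (f x) = 0) :
    HasSum (fun b : B => (∫ x, ee x b * conj (f x) ∂μ) * ∫ x, g x * conj (ee x b) ∂μ) 0 := by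
  classical
  have inn : ∀ {f g : V d → ℂ} (hf : MemLp f 2 μ) (hg : MemLp g 2 μ),
      ⟪hf.toLp f, hg.toLp g⟫_ℂ = ∫ x, g x * conj (f x) ∂μ := fun hf hg => by
    rw [L2.inner_def]
    refine integral_congr_ae ?_
    filter_upwards [hf.coeFn_toLp, hg.coeFn_toLp] with x a1 a2
    rw [a1, a2]; rfl
  have me : ∀ b, MemLp (fun x => ee x b) 2 μ := fun b => bd (by fun_prop) (fun _ => (ee_norm _ _).le) 2
  set c : ℝ := (√(μ.real univ))⁻¹
  have c0 : (c:ℂ) ≠ 0 := by exact_mod_cast (show c ≠ 0 by positivity)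
  let v : B → Lp ℂ 2 μ := fun b => (c:ℂ) • (me b).toLp _
  have ho : Orthonormal ℂ v := orthonormal_iff_ite.mpr fun b b' => by
    rw [inner_smul_left, inner_smul_right, inn]
    split_ifs with h
    · subst h
      simp only [ee_conj, ← ee_addr, add_neg_cancel, ee_zero, integral_const, real_smul, mul_one, conj_ofReal]
      norm_cast
      rw [← mul_assoc, ← mul_inv, mul_self_sqrt h0.le, inv_mul_cancel₀ h0.ne']
    · rw [h1 _ b'.2 _ b.2 fun e => h (Subtype.ext e.symm)]; simp
  let H := HilbertBasis.mkOfOrthogonalEqBot ho (by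
    refine (Submodule.eq_bot_iff _).mpr fun u hu => Lp.eq_zero_iff_ae_eq_zero.mpr (h2 u (Lp.memLp u) fun b hb => ?_)
    have := Submodule.inner_right_of_mem_orthogonal (Submodule.subset_span (mem_range_self (f := v) ⟨b, hb⟩)) hu
    rw [inner_smul_left, ← Lp.toLp_coeFn u (Lp.memLp u), inn] at this
    simpa [c0] using this)
  have := (H.hasSum_inner_mul_inner (hf.toLp f) (hg.toLp g)).mul_left (c * c : ℂ)⁻¹
  simp only [H, HilbertBasis.coe_mkOfOrthogonalEqBot, v, inner_smul_left, inner_smul_right, inn, hfg,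
    integral_zero, mul_zero, conj_ofReal] at this
  refine (funext fun b => ?_ : _ = fun b : B => (∫ x, ee x b * conj (f x) ∂μ) * ∫ x, g x * conj (ee x b) ∂μ) ▸ this
  field_simp

lemma meas_E (A : Finset (Fin d → ℤ)) : MeasurableSet {x : V d | cl x ∈ A} := meas_cl A.measurableSet

lemma fin_E (A : Finset (Fin d → ℤ)) : volume {x : V d | cl x ∈ A} < ⊤ := by
  have := (dec (fun _ => (1:ℂ)) A fun n _ => integrable_const _).1
  rw [integrable_indicator_iff (meas_E A), integrableOn_const_iff] at this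
  simpa using this

lemma int_E (A : Finset (Fin d → ℤ)) (F : V d → ℂ) (hF : ∀ n ∈ A, IntegrableOn (fun x => F (x + ι n)) (Q d)) :
    ∫ x in {x | cl x ∈ A}, F x = ∑ n ∈ A, ∫ x in Q d, F (x + ι n) := by
  rw [← integral_indicator (meas_E A), (dec F A hF).2]

lemma int_cell {A : Finset (Fin d → ℤ)} {y : Fin d → ℤ} (hy : y ∈ A) (F : V d → ℂ) :
    ∫ x in {x | cl x ∈ A}, (if cl x = y then F x else 0) = ∫ x in Q d, F (x + ι y) := by
  rw [setIntegral_eq_integral_of_forall_compl_eq_zero fun x hx => if_neg fun h => hx (by simpa [h] using hy),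
    ← integral_add_right_eq_self _ (ι y), ← integral_indicator meas_Q]
  congr 1; ext x; simp [indicator, mem_Q, cl_add]

theorem nonspec {A : Finset (Fin d → ℤ)} {y0 t : Fin d → ℤ} (h0 : y0 ∈ A)
    (ht : ∀ y ∈ A, ∃ y1 ∈ A, ∃ y2 ∈ A, y1 ≠ y2 ∧ t - y = y1 - y2) :
    ¬ ∃ B : Set (V d), (∀ b ∈ B, ∀ b' ∈ B, b ≠ b' → ∫ x in {x | cl x ∈ A}, ee x b * conj (ee x b') = 0) ∧
      ∀ f : V d → ℂ, MemLp f 2 (volume.restrict {x | cl x ∈ A}) →
        (∀ b ∈ B, ∫ x in {x | cl x ∈ A}, f x * conj (ee x b) = 0) → f =ᵐ[volume.restrict {x | cl x ∈ A}] 0 := by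
  rintro ⟨B, h1, h2⟩
  have : IsFiniteMeasure (volume.restrict {x : V d | cl x ∈ A}) := ⟨by simpa using fin_E A⟩
  have q1 : ∫ x in Q d, (1:ℂ) = 1 := by
    have := int_Q (d := d) 0
    simpa only [show ι (0 : Fin d → ℤ) = 0 by ext; simp [ι], ee_zero, if_true] using this
  have e1 : ((volume.restrict {x : V d | cl x ∈ A}).real univ : ℂ) = A.card := by
    have := int_E A (fun _ => 1) fun n _ => integrable_const _
    rw [Finset.sum_congr rfl fun _ _ => q1] at this
    simpa using this
  have c0 : 0 < A.card := Finset.card_pos.mpr ⟨_, h0⟩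
  have p0 : 0 < (volume.restrict {x : V d | cl x ∈ A}).real univ := by
    rw [show (volume.restrict {x : V d | cl x ∈ A}).real univ = A.card by exact_mod_cast e1]; exact_mod_cast c0
  have mm : ∀ y l, MemLp (fun x : V d => if cl x = y then ee (x - ι y) l else 0) 2 (volume.restrict {x | cl x ∈ A}) :=
    fun y l => bd (Measurable.ite (meas_cl (measurableSet_singleton y)) (by fun_prop) measurable_const).aestronglyMeasurable
      (fun x => by split_ifs <;> simp [ee_norm]) 2
  have J0 : ∀ l ∈ B, ∫ x in Q d, ee x (-l) = 0 := by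
    intro l hl
    have s1 : ∀ y ∈ A, HasSum (fun b : B => (ee (-ι t) b * ∫ x in Q d, ee x (-b)) *
        ∫ x in Q d, ee (x + ι y) (b - l)) 0 := by
      intro y hy
      obtain ⟨y1, a1, y2, a2, a3, a4⟩ := ht y hy
      have := (parseval p0 h1 h2 (mm y2 l) (mm y1 0) fun x => by
        by_cases b1 : cl x = y1
        · rw [if_neg (show ¬ cl x = y2 from fun b2 => a3 (b1.symm.trans b2)), map_zero, mul_zero]
        · rw [if_neg b1, zero_mul]).mul_left (ee (ι y) (-l))
      simp only [apply_ite conj, map_zero, mul_ite, ite_mul, mul_zero, zero_mul, int_cell a1, int_cell a2,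
        add_sub_cancel_right, ee_zero, one_mul, ee_conj] at this
      refine (funext fun b => ?_ : _ = fun b : B => (ee (-ι t) b * ∫ x in Q d, ee x (-b)) *
        ∫ x in Q d, ee (x + ι y) (b - l)) ▸ this
      have e : ee (ι y2) b * ee (ι y1) (-b) = ee (-ι t) b * ee (ι y) b := by
        rw [show ee (ι y1) (-b) = ee (-ι y1) b by simp [ee], ← ee_addl, ← ee_addl, ← ι_neg, ← ι_neg, ← ι_add,
          ← ι_add]
        congr 2; linear_combination a4
      simp only [ee_addl, integral_mul_const, mul_right_comm (ee _ _) (ee (ι y2) _)]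
      simp only [sub_eq_add_neg, ee_addr]
      linear_combination (ee (ι y) (-l) * (∫ x in Q d, ee x b * ee x (-l)) * ∫ x in Q d, ee x (-b)) * e
    have s2 := hasSum_sum s1
    simp only [← Finset.mul_sum, Finset.sum_const_zero, ← int_E A (fun x => ee x _) fun n _ => int_ee _ _] at s2
    have s3 := s2.unique (hasSum_single ⟨l, hl⟩ fun b hb => by
      have := h1 b b.2 l hl fun e => hb (Subtype.ext e)
      simp only [ee_conj, ← ee_addr, ← sub_eq_add_neg] at this
      rw [this, mul_zero])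
    simp only [sub_self, ee_zero, integral_const, real_smul, mul_one, e1] at s3
    simpa [ee_ne, c0.ne'] using s3
  have := h2 _ (mm y0 0) fun b hb => by
    simp only [ite_mul, zero_mul, int_cell h0, ee_zero, one_mul, ee_conj, ee_addl, integral_mul_const, J0 b hb]
  have := integral_congr_ae this
  simp only [int_cell h0, ee_zero, q1] at this
  simp at this

theorem orth (A : Finset (Fin d → ℤ)) (a a' k : Fin d → ℤ) (γ : V d) :
    ∫ x, ({x | cl x ∈ A}.indicator (fun _ => (1:ℂ)) (x - ι a) * {x | cl x ∈ A}.indicator (fun _ => (1:ℂ)) (x - ι a')) *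
      ee x (γ + ι k) = (∑ n ∈ A with n + (a - a') ∈ A, ee (ι (n + a)) γ) * ∫ x in Q d, ee x (γ + ι k) := by
  rw [← integral_add_right_eq_self _ (ι a), Finset.sum_mul]
  have := (dec (fun x => ee (x + ι a) (γ + ι k)) {n ∈ A | n + (a - a') ∈ A} fun n _ => by
    simpa only [add_assoc] using int_ee _ _).2
  refine Eq.trans ?_ (this.trans (Finset.sum_congr rfl fun n _ => ?_))
  · congr 1; ext x
    simp only [indicator, mem_ofPred_eq, cl_sub, cl_add, Finset.mem_filter, add_sub_cancel_right]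
    rw [add_sub_assoc]
    by_cases h1 : cl x ∈ A <;> by_cases h2 : cl x + (a - a') ∈ A <;> simp [h1, h2]
  · simp only [add_assoc, ← ι_add, ee_addl _ (ι _), integral_mul_const, ee_addr (ι _), ee_int]
    ring

theorem complete {J : Type} [Countable J] (A : Finset (Fin d → ℤ)) (a : J → Fin d → ℤ) (β : J → V d)
    (hC : ∀ F : (Fin d → ℤ) → ℂ, (∀ j, ∑ n ∈ A, F (n + a j) * ee (ι (n + a j)) (-β j) = 0) → ∀ m, F m = 0)
    {f : V d → ℂ} (hf : MemLp f 2 volume)
    (H : ∀ j k, ∫ x, f x * conj ({x | cl x ∈ A}.indicator (fun _ => (1:ℂ)) (x - ι (a j)) * ee x (β j + ι k)) = 0) :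
    f =ᵐ[volume] 0 := by
  have m1 : ∀ y : V d, MemLp (fun x => f (x + y)) 2 (volume.restrict (Q d)) := fun y =>
    (hf.comp_measurePreserving (measurePreserving_add_right volume y)).restrict _
  have i1 : ∀ (y z b : V d), IntegrableOn (fun x => f (x + y) * ee (x + z) b) (Q d) := fun y z b =>
    ((m1 y).integrable one_le_two).mul_bdd (c := 1) (by fun_prop) (.of_forall fun _ => (ee_norm _ _).le)
  have s1 : ∀ j, ∀ᵐ x ∂volume.restrict (Q d), ∑ n ∈ A, f (x + ι (n + a j)) * ee (ι (n + a j)) (-β j) = 0 := by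
    intro j
    have := uniq (h := fun x => ee x (-β j) * ∑ n ∈ A, f (x + ι (n + a j)) * ee (ι (n + a j)) (-β j))
      ((memLp_finsetSum A fun n _ => (m1 _).mul_const _).mul' (bd (by fun_prop) (fun _ => (ee_norm _ _).le) ⊤))
      fun k => by
        have h := H j (-k)
        rw [← integral_add_right_eq_self _ (ι (a j))] at h
        have e := (dec (fun x => f (x + ι (a j)) * ee (x + ι (a j)) (-β j + ι k)) A fun n _ => by
          simpa only [add_assoc] using i1 _ _ _).2
        rw [← integral_finsetSum _ fun n _ => by simp only [add_assoc]; exact i1 _ _ _] at e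
        refine Eq.trans ?_ (e.symm.trans (Eq.trans ?_ h))
        · congr 1; ext x
          simp only [Finset.mul_sum, Finset.sum_mul, add_assoc, ← ι_add, ee_addl _ (ι _), ee_addr, ee_int]
          exact Finset.sum_congr rfl fun n _ => by ring
        · congr 1; ext x
          simp only [indicator, mem_ofPred_eq, add_sub_cancel_right, ι_neg]
          split_ifs <;> simp [ee_conj, add_comm]
    filter_upwards [this] with x hx using (mul_eq_zero.mp hx).resolve_left (ee_ne _ _)
  have s2 : ∀ m, ∀ᵐ x, x - ι m ∈ Q d → f x = 0 := fun m => by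
    have : ∀ᵐ x, x ∈ Q d → f (x + ι m) = 0 := (ae_restrict_iff' meas_Q).mp (by
      filter_upwards [ae_all_iff.mpr s1] with x hx using hC (fun m => f (x + ι m)) hx m)
    filter_upwards [(measurePreserving_sub_right volume (ι m)).quasiMeasurePreserving.ae this] with x hx
    simpa using hx
  filter_upwards [ae_all_iff.mpr s2] with x hx
  exact hx (cl x) (by rw [mem_Q, cl_sub, sub_self])

end Pool.Agent.H92.CellGabor
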