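import Mathlib

set_option autoImplicit false
open Finset

namespace Pool.Agent.H92.Sidon

lemma dft_sq (N : ℕ) [NeZero N] (v : ZMod N → ℂ) (hv : ∀ j, ‖v j‖ = 1) :
    ∑ i : ZMod N, ‖∑ j : ZMod N, ZMod.stdAddChar (i * j) * v j‖ ^ 2 = (N : ℝ) ^ 2 := by
  have key : ∑ i : ZMod N, (∑ j : ZMod N, ZMod.stdAddChar (i * j) * v j) *
      (starRingEnd ℂ) (∑ j : ZMod N, ZMod.stdAddChar (i * j) * v j) = (N : ℂ) ^ 2 := by
    have e : ∀ i : ZMod N, (∑ j : ZMod N, ZMod.stdAddChar (i * j) * v j) *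
        (starRingEnd ℂ) (∑ j : ZMod N, ZMod.stdAddChar (i * j) * v j) =
        ∑ j : ZMod N, ∑ k : ZMod N, v j * (starRingEnd ℂ) (v k) * ZMod.stdAddChar (i * (j - k)) := by
      intro i
      rw [map_sum, sum_mul_sum]
      refine sum_congr rfl fun j _ => sum_congr rfl fun k _ => ?_
      rw [map_mul (starRingEnd ℂ), ← AddChar.map_neg_eq_conj, mul_sub, sub_eq_add_neg, AddChar.map_add_eq_mul]
      ring
    simp only [e]
    rw [sum_comm]
    have e2 : ∀ j : ZMod N, ∑ i : ZMod N, ∑ k : ZMod N,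
        v j * (starRingEnd ℂ) (v k) * ZMod.stdAddChar (i * (j - k)) = N := by
      intro j
      rw [sum_comm]
      simp only [← mul_sum, AddChar.sum_mulShift _ (ZMod.isPrimitive_stdAddChar N), sub_eq_zero]
      rw [sum_eq_single j (fun k _ hk => by simp [Ne.symm hk]) (by simp)]
      simp [Complex.mul_conj, Complex.normSq_eq_norm_sq, hv]
    simp [e2, sq]
  simp only [Complex.mul_conj, Complex.normSq_eq_norm_sq] at key
  exact_mod_cast key

lemma dft_bil (N : ℕ) [NeZero N] (u v : ZMod N → ℂ) (hu : ∀ j, ‖u j‖ = 1) (hv : ∀ j, ‖v j‖ = 1) :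
    ‖∑ i : ZMod N, ∑ j : ZMod N, ZMod.stdAddChar (i * j) * (u i * v j)‖ ^ 2 ≤ (N : ℝ) ^ 3 := by
  have h1 : ‖∑ i : ZMod N, ∑ j : ZMod N, ZMod.stdAddChar (i * j) * (u i * v j)‖ ≤
      ∑ i : ZMod N, ‖∑ j : ZMod N, ZMod.stdAddChar (i * j) * v j‖ := by
    refine (norm_sum_le _ _).trans (le_of_eq (sum_congr rfl fun i _ => ?_))
    have : ∑ j : ZMod N, ZMod.stdAddChar (i * j) * (u i * v j) =
        u i * ∑ j : ZMod N, ZMod.stdAddChar (i * j) * v j := by
      rw [mul_sum]; exact sum_congr rfl fun j _ => by ring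
    rw [this, norm_mul, hu, one_mul]
  refine (pow_le_pow_left₀ (norm_nonneg _) h1 2).trans ?_
  refine sq_sum_le_card_mul_sum_sq.trans (le_of_eq ?_)
  rw [dft_sq N v hv]; simp; ring

/-- a set containing arbitrarily large direct sums `U + V` is not a Sidon set -/
theorem not_sidon {T : ℝ} (Q : Set ℤ)
    (h : ∀ N : ℕ, ∃ u v : ℕ → ℤ, (∀ i < N, ∀ j < N, u i + v j ∈ Q) ∧
      ∀ i < N, ∀ j < N, ∀ k < N, ∀ l < N, u i + v j = u k + v l → i = k ∧ j = l) (C : ℝ) :
    ∃ (s : Finset ℤ) (c : ℤ → ℂ) (M : ℝ), ↑s ⊆ Q ∧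
      (∀ x : AddCircle T, ‖∑ n ∈ s, c n * fourier n x‖ ≤ M) ∧ C * M < ∑ n ∈ s, ‖c n‖ := by
  classical
  obtain ⟨K, hK⟩ := exists_nat_gt (max C 0)
  have hK0 : 0 < K := by exact_mod_cast (le_max_right C 0).trans_lt hK
  have hCK : C < K := (le_max_left C 0).trans_lt hK
  have : NeZero (K ^ 2) := ⟨by positivity⟩
  obtain ⟨u, v, hQ, hinj⟩ := h (K ^ 2)
  let φ : ZMod (K ^ 2) × ZMod (K ^ 2) → ℤ := fun p => u p.1.val + v p.2.val
  have hφ : Function.Injective φ := fun p q hpq => by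
    have := hinj _ (ZMod.val_lt p.1) _ (ZMod.val_lt p.2) _ (ZMod.val_lt q.1) _ (ZMod.val_lt q.2) hpq
    exact Prod.ext (ZMod.val_injective _ this.1) (ZMod.val_injective _ this.2)
  let c : ℤ → ℂ := Function.extend φ (fun p => ZMod.stdAddChar (p.1 * p.2)) 0
  have hc : ∀ p, c (φ p) = ZMod.stdAddChar (p.1 * p.2) := fun p => hφ.extend_apply _ _ p
  refine ⟨univ.image φ, c, (K : ℝ) ^ 3, ?_, fun x => ?_, ?_⟩
  · intro n hn
    obtain ⟨p, -, rfl⟩ := mem_image.mp (mem_coe.mp hn)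
    exact hQ _ (ZMod.val_lt p.1) _ (ZMod.val_lt p.2)
  · rw [sum_image (fun p _ q _ hpq => hφ hpq), Fintype.sum_prod_type]
    have := dft_bil (K ^ 2) (fun i => fourier (u i.val) x) (fun j => fourier (v j.val) x)
      (fun _ => by simp [fourier_apply]) (fun _ => by simp [fourier_apply])
    refine (pow_le_pow_iff_left₀ (norm_nonneg _) (by positivity) two_ne_zero).mp ?_
    simp only [hc]
    simp only [φ, fourier_add]
    refine this.trans (le_of_eq ?_)
    push_cast; ring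
  · rw [sum_image (fun p _ q _ hpq => hφ hpq)]
    simp only [hc, AddChar.norm_apply, sum_const, card_univ, Fintype.card_prod, ZMod.card,
      nsmul_eq_mul, mul_one]
    push_cast
    have : (0:ℝ) < (K:ℝ) ^ 3 := by positivity
    nlinarith

end Pool.Agent.H92.Sidon
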