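import Mathlib

namespace H92.AF

open Set

/-- The space `H(ℂⁿ)` of entire functions. -/
def Ent (n : ℕ) : Submodule ℂ ((Fin n → ℂ) → ℂ) where
  carrier := {f | Differentiable ℂ f}
  add_mem' hf hg := Differentiable.add hf hg
  zero_mem' := differentiable_const 0
  smul_mem' c _ hf := Differentiable.const_smul hf c

variable {n : ℕ}

/-- `|T f| ≤ C sup_L |f|` for all entire `f`, for some constant `C`. -/
def BoundedBy (T : Ent n →ₗ[ℂ] ℂ) (L : Set (Fin n → ℂ)) : Prop :=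
  ∃ C : ℝ, ∀ (f : Ent n) (M : ℝ), 0 ≤ M → (∀ z ∈ L, ‖f.1 z‖ ≤ M) → ‖T f‖ ≤ C * M

/-- `T` is an analytic functional: continuous for uniform convergence on compact sets. -/
def IsAF (T : Ent n →ₗ[ℂ] ℂ) : Prop := ∃ L, IsCompact L ∧ BoundedBy T L

/-- `T` is continuous for the topology of `H(ω)` for every open `ω ⊇ K`. -/
def Carrier (T : Ent n →ₗ[ℂ] ℂ) (K : Set (Fin n → ℂ)) : Prop :=
  IsCompact K ∧ ∀ ω, IsOpen ω → K ⊆ ω → ∃ L, IsCompact L ∧ L ⊆ ω ∧ BoundedBy T L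

/-- convex support: a minimal convex compact carrier -/
def CSupport (T : Ent n →ₗ[ℂ] ℂ) (K : Set (Fin n → ℂ)) : Prop :=
  Minimal (fun K' => Convex ℝ K' ∧ Carrier T K') K

def UniqueCSupport (K : Set (Fin n → ℂ)) : Prop :=
  ∀ T : Ent n →ₗ[ℂ] ℂ, IsAF T → CSupport T K → ∀ K', CSupport T K' → K' = K

/-- `𝒮(K)`: real supporting hyperplanes of `K`. -/
def Supp (K : Set (Fin n → ℂ)) : Set (Set (Fin n → ℂ)) :=
  {h | ∃ (l : (Fin n → ℂ) →L[ℝ] ℝ) (c : ℝ), l ≠ 0 ∧ h = {z | l z = c} ∧ (h ∩ K).Nonempty ∧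
    ∀ z ∈ K, l z ≤ c}

/-- interior of `K` relative to its complex affine span `V(K)` -/
def relInt (K : Set (Fin n → ℂ)) : Set (Fin n → ℂ) :=
  {x ∈ K | ∃ ε > 0, Metric.ball x ε ∩ affineSpan ℂ K ⊆ K}

/-- complex affine hyperplanes of `V(K)` that meet `K` but not `I` -/
def CSH (K I : Set (Fin n → ℂ)) (P : AffineSubspace ℂ (Fin n → ℂ)) : Prop :=
  P ≤ affineSpan ℂ K ∧
    Module.finrank ℂ P.direction + 1 = Module.finrank ℂ (affineSpan ℂ K).direction ∧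
    ((P : Set (Fin n → ℂ)) ∩ K).Nonempty ∧ Disjoint (P : Set (Fin n → ℂ)) I

/-- `𝒮₀(K)`, with `I` the relative interior of `K` -/
def Supp0 (K I : Set (Fin n → ℂ)) : Set (Set (Fin n → ℂ)) :=
  {h ∈ Supp K | ∃ x ∈ K.extremePoints ℝ ∩ h, ∃! P, CSH K I P ∧ x ∈ P}

end H92.AF
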