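import Mathlib
import Pool.Agent.H92.AFDefs

open Set MeasureTheory Metric Complex
open scoped ComplexConjugate

namespace H92.AF

variable {n : ℕ}

abbrev E (n : ℕ) := Fin n → ℂ

def Bd (S : (E n → ℂ) →ₗ[ℂ] ℂ) (A : Set (E n)) (C : ℝ) : Prop :=
  ∀ (f : E n → ℂ) (M : ℝ), Differentiable ℂ f → 0 ≤ M → (∀ z ∈ A, ‖f z‖ ≤ M) → ‖S f‖ ≤ C * M

def res (L : Set (E n)) (f : E n → ℂ) (hf : Continuous f) : C(L, ℂ) :=
  ⟨fun x => f x, hf.comp continuous_subtype_val⟩

lemma exists_rep {S : (E n → ℂ) →ₗ[ℂ] ℂ} {L : Set (E n)} [CompactSpace L] {C : ℝ}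
    (h : Bd S L C) : ∃ S' : C(L, ℂ) →L[ℂ] ℂ, ∀ f (hf : Differentiable ℂ f),
      S f = S' (res L f hf.continuous) := by
  let r : Ent n →ₗ[ℂ] C(L, ℂ) :=
    { toFun := fun f => res L f.1 (Differentiable.continuous f.2)
      map_add' := fun f g => rfl
      map_smul' := fun c f => rfl }
  let T : Ent n →ₗ[ℂ] ℂ := S.comp (Ent n).subtype
  have hb : ∀ f : Ent n, ‖T f‖ ≤ C * ‖r f‖ := fun f =>
    h f.1 _ f.2 (norm_nonneg _) fun z hz => (r f).norm_coe_le_norm ⟨z, hz⟩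
  have hk : LinearMap.ker r ≤ LinearMap.ker T := fun f hf => by
    have := hb f
    rw [LinearMap.mem_ker.1 hf] at this
    simpa using this
  let φ : LinearMap.range r →ₗ[ℂ] ℂ :=
    ((LinearMap.ker r).liftQ T hk).comp (LinearMap.quotKerEquivRange r).symm.toLinearMap
  have hφ : ∀ f : Ent n, φ ⟨r f, f, rfl⟩ = T f := fun f => by
    simp [φ, LinearMap.quotKerEquivRange_symm_apply_image]
  obtain ⟨g, hg, -⟩ := exists_extension_norm_eq (LinearMap.range r) (φ.mkContinuous C (by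
    rintro ⟨_, f, rfl⟩
    rw [hφ]; exact hb f))
  refine ⟨g, fun f hf => ?_⟩
  have := hg ⟨r ⟨f, hf⟩, _, rfl⟩
  rw [LinearMap.mkContinuous_apply, hφ] at this
  exact this.symm

lemma norm_int_le {S : (E n → ℂ) →ₗ[ℂ] ℂ} {L : Set (E n)} (hL : IsCompact L) {C : ℝ}
    (h : Bd S L C) {ω : Set (E n)} (hm : MeasurableSet ω) (hω : Bornology.IsBounded ω)
    (Φ : E n → E n → ℂ)
    (hΦ : Continuous fun p : E n × E n => Φ p.1 p.2) (hd : ∀ ζ, Differentiable ℂ (Φ ζ))
    (hg : Differentiable ℂ fun s => ∫ ζ in ω, Φ ζ s) {B : ℝ} (hB : ∀ ζ ∈ ω, ‖S (Φ ζ)‖ ≤ B) :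
    ‖S fun s => ∫ ζ in ω, Φ ζ s‖ ≤ B * volume.real ω := by
  have := isCompact_iff_compactSpace.1 hL
  obtain ⟨S', hS⟩ := exists_rep h
  let Ψ : E n → C(L, ℂ) := fun ζ => res L (Φ ζ) (hd ζ).continuous
  have hΨ : Continuous Ψ := ContinuousMap.continuous_of_continuous_uncurry _
    (hΦ.comp (f := fun p : E n × L => (p.1, (p.2 : E n))) (by fun_prop))
  have hi : IntegrableOn Ψ ω :=
    (hΨ.continuousOn.integrableOn_compact hω.isCompact_closure).mono_set subset_closure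
  have e : res L _ hg.continuous = ∫ ζ in ω, Ψ ζ := by
    ext x
    rw [ContinuousMap.integral_apply hi]; rfl
  rw [hS _ hg, e, ← S'.integral_comp_comm hi]
  refine norm_setIntegral_le_of_norm_le_const hω.measure_lt_top fun ζ hζ => ?_
  rw [← hS _ (hd ζ)]; exact hB ζ hζ

lemma holo {S : (E n → ℂ) →ₗ[ℂ] ℂ} {L : Set (E n)} (hL : IsCompact L) {C : ℝ}
    (h : Bd S L C) {a b : E n → ℂ} (ha : Differentiable ℂ a) (hb : Differentiable ℂ b) :
    Differentiable ℂ fun l : ℂ => S fun s => exp (a s + l * b s) := by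
  have := isCompact_iff_compactSpace.1 hL
  obtain ⟨S', hS⟩ := exists_rep h
  have e : (fun l : ℂ => S fun s => exp (a s + l * b s)) = fun l =>
      S' (res L (fun s => exp (a s)) ha.cexp.continuous *
        NormedSpace.exp (l • res L b hb.continuous)) := by
    ext l
    rw [hS _ (by fun_prop)]
    congr 1
    ext x
    have := NormedSpace.map_exp (ContinuousMap.evalAlgHom ℂ ℂ x) (continuous_eval_const x)
      (l • res L b hb.continuous)
    simp only [ContinuousMap.evalAlgHom_apply] at this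
    simp only [ContinuousMap.mul_apply, this, ← Complex.exp_eq_exp_ℂ]
    simp [res, exp_add]
  rw [e]
  exact S'.differentiable.comp ((differentiable_exp_smul_const ℂ _).const_mul _)

lemma strip_bound {f : ℂ → ℂ} (hf : Differentiable ℂ f) {a b C B : ℝ} (hab : a < b)
    (hB : ∀ z : ℂ, a ≤ z.re → z.re ≤ b → ‖f z‖ ≤ B) (ha : ∀ z : ℂ, z.re = a → ‖f z‖ ≤ C)
    (hb : ∀ z : ℂ, z.re = b → ‖f z‖ ≤ C) {z : ℂ} (h1 : a ≤ z.re) (h2 : z.re ≤ b) : ‖f z‖ ≤ C := by
  refine PhragmenLindelof.vertical_strip hf.diffContOnCl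
    ⟨0, div_pos Real.pi_pos (by linarith), 0, ?_⟩ ha hb h1 h2
  refine Asymptotics.IsBigO.of_bound B ?_
  refine Filter.Eventually.filter_mono inf_le_right (Filter.eventually_principal.2 fun z hz => ?_)
  simpa using hB z hz.1.le hz.2.le

/-- three circles -/
lemma three_circles {g : ℂ → ℂ} (hg : Differentiable ℂ g) {σ R ν C : ℝ} (hσ : 0 < σ) (hR : σ < R)
    (hν : 0 ≤ ν) (h1 : ∀ z : ℂ, ‖z‖ ≤ R → ‖g z‖ ≤ C)
    (h2 : ∀ z : ℂ, ‖z‖ = σ → ‖g z‖ * Real.exp (ν * (Real.log R - Real.log σ)) ≤ C)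
    {z : ℂ} (hz1 : σ ≤ ‖z‖) (hz2 : ‖z‖ ≤ R / 2) : ‖g z‖ * Real.exp (ν * Real.log 2) ≤ C := by
  have hR0 : 0 < R := hσ.trans hR
  have hz0 : 0 < ‖z‖ := hσ.trans_le hz1
  have key := strip_bound (f := fun l => g (exp l) * exp (ν * (Real.log R - l))) (by fun_prop)
    (Real.log_lt_log hσ hR) (C := C) (B := C * Real.exp (ν * (Real.log R - Real.log σ)))
    (fun l hl1 hl2 => ?_) (fun l hl => ?_) (fun l hl => ?_) (z := log z)
    (by rw [log_re]; exact Real.log_le_log hσ hz1)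
    (by rw [log_re]; exact Real.log_le_log hz0 (by linarith))
  · refine le_trans ?_ key
    rw [exp_log (norm_pos_iff.1 hz0), norm_mul, norm_exp]
    gcongr
    simp only [mul_re, ofReal_re, sub_re, log_re, ofReal_im, zero_mul, sub_zero]
    gcongr
    have := Real.log_le_log hz0 hz2
    rw [Real.log_div hR0.ne' two_ne_zero] at this
    linarith
  · have := h1 (exp l) (by rw [norm_exp, ← Real.le_log_iff_exp_le hR0]; exact hl2)
    rw [norm_mul, norm_exp]
    gcongr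
    · exact (norm_nonneg _).trans this
    · simp only [mul_re, ofReal_re, sub_re, ofReal_im, zero_mul, sub_zero]
      gcongr
  · have := h2 (exp l) (by rw [norm_exp, hl, Real.exp_log hσ])
    rw [norm_mul, norm_exp]
    simpa [hl] using this
  · have := h1 (exp l) (by rw [norm_exp, hl, Real.exp_log hR0])
    rw [norm_mul, norm_exp]
    simpa [hl] using this

end H92.AF
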