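import Mathlib
import Pool.Agent.H92.AF1

open Set MeasureTheory Metric Complex
open scoped ComplexConjugate

namespace H92.AF

variable {n : ℕ}

noncomputable def q (s ζ : E n) : ℂ := ∑ j, (s j - ζ j) * (s j - conj (ζ j))

lemma re_q (s ζ : E n) : (q s ζ).re =
    ∑ j, (((s j).re - (ζ j).re) ^ 2 + (ζ j).im ^ 2 - (s j).im ^ 2) := by
  simp only [q, re_sum]
  refine Finset.sum_congr rfl fun j _ => ?_
  simp; ring

lemma sum_im_le {s : E n} {σ : ℝ} (hs : ∀ j, |(s j).im| ≤ σ) : ∑ j, (s j).im ^ 2 ≤ n * σ ^ 2 := by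
  have := Finset.sum_le_sum (s := Finset.univ) (g := fun _ => σ ^ 2)
    fun j _ => sq_le_sq' (abs_le.1 (hs j)).1 (abs_le.1 (hs j)).2
  simpa using this

lemma re_q_ge0 {s : E n} {σ : ℝ} (hs : ∀ j, |(s j).im| ≤ σ) (ζ : E n) :
    -(n * σ ^ 2) ≤ (q s ζ).re := by
  rw [re_q, Finset.sum_sub_distrib]
  have : 0 ≤ ∑ j, (((s j).re - (ζ j).re) ^ 2 + (ζ j).im ^ 2) := by positivity
  linarith [sum_im_le hs]

lemma re_q_ge {s ζ : E n} {σ r : ℝ} (hs : ∀ j, |(s j).im| ≤ σ) (hσ : σ ≤ r) (hr0 : 0 < r)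
    (hr : r ≤ dist ζ s) : (r - σ) ^ 2 - n * σ ^ 2 ≤ (q s ζ).re := by
  rw [re_q, Finset.sum_sub_distrib]
  obtain ⟨j, hj⟩ : ∃ j, r ≤ dist (ζ j) (s j) := by
    by_contra h
    push Not at h
    exact absurd ((dist_pi_lt_iff hr0).2 h) (not_lt.2 hr)
  have h1 : ((s j).re - (ζ j).re) ^ 2 + (ζ j).im ^ 2 ≤
      ∑ j, (((s j).re - (ζ j).re) ^ 2 + (ζ j).im ^ 2) :=
    Finset.single_le_sum (f := fun j => ((s j).re - (ζ j).re) ^ 2 + (ζ j).im ^ 2)
      (fun j _ => by positivity) (Finset.mem_univ j)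
  have h2 : dist (ζ j) (s j) ≤ ‖ζ j - (s j).re‖ + σ := by
    refine (dist_triangle _ ((s j).re : ℂ) _).trans ?_
    rw [dist_eq_norm, dist_eq_norm]
    gcongr
    have : ((s j).re : ℂ) - s j = -((s j).im * I) := by
      apply Complex.ext <;> simp
    rw [this]; simpa using hs j
  have h3 : ‖ζ j - (s j).re‖ ^ 2 = ((s j).re - (ζ j).re) ^ 2 + (ζ j).im ^ 2 := by
    rw [Complex.sq_norm, normSq_apply]; simp; ring
  have h4 : (r - σ) ^ 2 ≤ ‖ζ j - (s j).re‖ ^ 2 := by gcongr <;> linarith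
  linarith [sum_im_le hs]

noncomputable def ker (τ : ℝ) (ζ s : E n) : ℂ := exp (-(τ * q s ζ))

lemma norm_ker (τ : ℝ) (ζ s : E n) : ‖ker τ ζ s‖ = Real.exp (-(τ * (q s ζ).re)) := by
  simp [ker, norm_exp]

lemma continuous_q : Continuous fun p : E n × E n => q p.2 p.1 := by
  unfold q; fun_prop

lemma continuous_ker (τ : ℝ) : Continuous fun p : E n × E n => ker τ p.1 p.2 := by
  have := continuous_q (n := n)
  unfold ker; fun_prop

lemma diff_q (ζ : E n) : Differentiable ℂ fun s => q s ζ := by unfold q; fun_prop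

lemma diff_ker (τ : ℝ) (ζ : E n) : Differentiable ℂ (ker τ ζ) := by
  have := diff_q ζ
  unfold ker; fun_prop

noncomputable def A (τ : ℝ) (ω : Set (E n)) (f : E n → ℂ) (s : E n) : ℂ :=
  ∫ ζ in ω, ker τ ζ s * f ζ

lemma intOn {F : Type*} [NormedAddCommGroup F] {g : E n → F} (hg : Continuous g) {ω : Set (E n)}
    (hω : Bornology.IsBounded ω) : IntegrableOn g ω :=
  (hg.continuousOn.integrableOn_compact hω.isCompact_closure).mono_set subset_closure

lemma diff_A (τ : ℝ) {ω : Set (E n)} (hm : MeasurableSet ω) (hω : Bornology.IsBounded ω)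
    {f : E n → ℂ} (hf : Continuous f) : Differentiable ℂ (A τ ω f) := by
  intro s₀
  let D : E n → E n → E n →L[ℂ] ℂ := fun s ζ => (ker τ ζ s * f ζ * (-τ)) •
    ∑ j, ((s j - ζ j) + (s j - conj (ζ j))) • ContinuousLinearMap.proj j
  have hk := continuous_ker (n := n) τ
  have hD : Continuous fun p : E n × E n => D p.2 p.1 := by
    simp only [D]; fun_prop
  obtain ⟨B, hB⟩ := (hω.isCompact_closure.prod (isCompact_closedBall s₀ 1)).exists_bound_of_continuousOn
    hD.continuousOn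
  have hc : ∀ s, Continuous fun ζ => ker τ ζ s * f ζ := fun s =>
    (hk.comp (f := fun ζ => (ζ, s)) (by fun_prop)).mul hf
  have : IsFiniteMeasure (volume.restrict ω) := ⟨by simpa using hω.measure_lt_top⟩
  refine (hasFDerivAt_integral_of_dominated_of_fderiv_le (F' := D) (bound := fun _ => B)
    (closedBall_mem_nhds s₀ one_pos) (.of_forall fun s => (hc s).aestronglyMeasurable)
    (intOn (hc s₀) hω) (hD.comp (f := fun ζ => (ζ, s₀)) (by fun_prop)).aestronglyMeasurable
    ((ae_restrict_mem hm).mono fun ζ hζ s hs => hB (ζ, s) ⟨subset_closure hζ, hs⟩)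
    (integrable_const _) (.of_forall fun ζ s _ => ?_)).differentiableAt
  have h1 : HasFDerivAt (fun s => q s ζ)
      (∑ j, ((s j - ζ j) + (s j - conj (ζ j))) • ContinuousLinearMap.proj (R := ℂ)
        (φ := fun _ : Fin n => ℂ) j) s := by
    unfold q
    refine HasFDerivAt.fun_sum fun j _ => ?_
    have h := hasFDerivAt_apply (𝕜 := ℂ) j s
    exact ((h.sub_const (ζ j)).fun_mul (h.sub_const (conj (ζ j)))).congr_fderiv
      (by ext v; simp; ring)
  refine (((h1.const_mul (τ : ℂ)).fun_neg.cexp).mul_const (f ζ)).congr_fderiv ?_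
  simp only [D, ker]
  ext v; simp; ring

lemma mean_value {h : E n → ℂ} (hh : Differentiable ℂ h) {w : E n → ℂ} (hw : Continuous w)
    (hr : ∀ (c : ℂ) u, ‖c‖ = 1 → w (c • u) = w u) (r : ℝ) :
    ∫ u in ball (0 : E n) r, w u * h u = (∫ u in ball (0 : E n) r, w u) * h 0 := by
  have hc := hh.continuous
  have h1 : ∀ θ : ℝ, ∫ u in ball (0 : E n) r, w u * h u =
      ∫ u in ball (0 : E n) r, w u * h (circleMap 0 1 θ • u) := by
    intro θ
    have hn : ‖circleMap 0 1 θ‖ = 1 := by simp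
    let a : Circle := ⟨circleMap 0 1 θ, by simp [Submonoid.unitSphere]⟩
    have mp : MeasurePreserving (fun u : E n => circleMap 0 1 θ • u) := by
      have := volume_preserving_pi fun _ : Fin n => (rotation a).measurePreserving
      exact this
    have me : MeasurableEmbedding (fun u : E n => circleMap 0 1 θ • u) :=
      measurableEmbedding_const_smul₀ (norm_ne_zero_iff.1 (by rw [hn]; exact one_ne_zero))
    rw [← mp.setIntegral_preimage_emb me]
    have : (fun u : E n => circleMap 0 1 θ • u) ⁻¹' ball 0 r = ball 0 r := by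
      ext u; simp [norm_smul]
    rw [this]
    simp only [hr _ _ hn]
  have h2 : ∀ u : E n, ∫ θ in Ioc (0:ℝ) (2 * Real.pi), h (circleMap 0 1 θ • u) =
      (2 * Real.pi) * h 0 := by
    intro u
    have := DiffContOnCl.circleAverage (f := fun l : ℂ => h (l • u)) (c := 0) (R := 1)
      (Differentiable.diffContOnCl (by fun_prop))
    rw [Real.circleAverage_def, intervalIntegral.integral_of_le (by positivity)] at this
    simp only [zero_smul] at this
    rw [← this]
    have : (Real.pi : ℂ) ≠ 0 := by exact_mod_cast Real.pi_pos.ne'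
    simp; field_simp
  have h3 : (2 * Real.pi : ℂ) * ∫ u in ball (0 : E n) r, w u * h u =
      ∫ θ in Ioc (0:ℝ) (2 * Real.pi), ∫ u in ball (0 : E n) r, w u * h (circleMap 0 1 θ • u) := by
    simp_rw [← h1]
    simp [Real.pi_pos.le]
  rw [integral_integral_swap] at h3
  · simp_rw [integral_const_mul, h2] at h3
    rw [integral_mul_const] at h3
    have : (2 * Real.pi : ℂ) ≠ 0 := by exact_mod_cast (by positivity : 2 * Real.pi ≠ 0)
    apply mul_left_cancel₀ this
    rw [h3]; ring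
  · rw [Measure.prod_restrict]
    refine (ContinuousOn.integrableOn_compact (K := Icc 0 (2 * Real.pi) ×ˢ closedBall 0 r)
      (isCompact_Icc.prod (isCompact_closedBall _ _)) (Continuous.continuousOn ?_)).mono_set
      (prod_mono Ioc_subset_Icc_self ball_subset_closedBall)
    have := continuous_circleMap 0 1
    unfold Function.uncurry; fun_prop

noncomputable def gam (n : ℕ) (r τ : ℝ) : ℝ :=
  ∫ u in ball (0 : E n) r, Real.exp (-(τ * ∑ j, ‖u j‖ ^ 2))

lemma gam_inv_le {r a : ℝ} (hr : 0 < r) (ha : 0 < a) : ∃ C, 0 ≤ C ∧ ∀ τ, 0 ≤ τ →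
    0 < gam n r τ ∧ (gam n r τ)⁻¹ ≤ C * Real.exp (a * τ) := by
  obtain ⟨ρ, hρ, hρr, hρa⟩ : ∃ ρ, 0 < ρ ∧ ρ ≤ r ∧ n * ρ ^ 2 ≤ a := by
    have c1 : ContinuousAt (fun ρ : ℝ => n * ρ ^ 2) 0 := by fun_prop
    have a1 := c1.eventually_lt continuousAt_const (by simpa using ha)
    have a2 : ∀ᶠ ε in nhds (0:ℝ), ε < r := eventually_lt_nhds hr
    obtain ⟨ε, h, h'⟩ := (((a1.and a2).filter_mono nhdsWithin_le_nhds).and
      (self_mem_nhdsWithin (s := Set.Ioi (0:ℝ)))).exists
    exact ⟨ε, h', h.2.le, h.1.le⟩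
  have hv : 0 < volume.real (ball (0 : E n) ρ) :=
    ENNReal.toReal_pos (measure_ball_pos _ _ hρ).ne' measure_ball_lt_top.ne
  refine ⟨(volume.real (ball (0 : E n) ρ))⁻¹, by positivity, fun τ hτ => ?_⟩
  have h1 : Real.exp (-(a * τ)) * volume.real (ball (0 : E n) ρ) ≤ gam n r τ := by
    refine le_trans (setIntegral_ge_of_const_le_real measurableSet_ball measure_ball_lt_top.ne
      (fun u hu => ?_) (intOn (by fun_prop) isBounded_ball))
      (setIntegral_mono_set (intOn (by fun_prop) isBounded_ball)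
        (.of_forall fun u => (Real.exp_pos _).le) (ball_subset_ball hρr).eventuallyLE)
    have : ∑ j, ‖u j‖ ^ 2 ≤ n * ρ ^ 2 := by
      have := Finset.sum_le_sum (s := Finset.univ) (g := fun _ => ρ ^ 2)
        (f := fun j => ‖u j‖ ^ 2) fun j _ => by
          gcongr; exact (norm_le_pi_norm u j).trans (mem_ball_zero_iff.1 hu).le
      simpa using this
    refine Real.exp_le_exp.2 ?_
    nlinarith
  have h0 : 0 < Real.exp (-(a * τ)) * volume.real (ball (0 : E n) ρ) := by positivity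
  refine ⟨h0.trans_le h1, (inv_anti₀ h0 h1).trans_eq ?_⟩
  rw [mul_inv, Real.exp_neg, inv_inv, mul_comm]

lemma approx {f : E n → ℂ} (hf : Differentiable ℂ f) {ω : Set (E n)} (hm : MeasurableSet ω)
    (hω : Bornology.IsBounded ω) {M τ r σ : ℝ} (hM : ∀ ζ ∈ ω, ‖f ζ‖ ≤ M) (hτ : 0 ≤ τ) {s : E n}
    (hs : ∀ j, |(s j).im| ≤ σ) (hσ : σ ≤ r) (hr : 0 < r) (hb : ball s r ⊆ ω) :
    ‖A τ ω f s - gam n r τ * f s‖ ≤
      volume.real ω * M * Real.exp (-(τ * ((r - σ) ^ 2 - n * σ ^ 2))) := by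
  have hc : Continuous fun ζ => ker τ ζ s * f ζ :=
    ((continuous_ker τ).comp (f := fun ζ => (ζ, s)) (by fun_prop)).mul hf.continuous
  have h1 : ∫ ζ in ball s r, ker τ ζ s * f ζ = gam n r τ * f s := by
    rw [← (measurePreserving_add_left volume s).setIntegral_preimage_emb
      (measurableEmbedding_addLeft s)]
    have : (fun u => s + u) ⁻¹' ball s r = ball 0 r := by ext u; simp
    rw [this]
    have := mean_value (h := fun u : E n => exp (τ * ∑ j, u j * (s j - conj (s j))) * f (s + u))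
      (by fun_prop) (w := fun u => (Real.exp (-(τ * ∑ j, ‖u j‖ ^ 2)) : ℝ)) (by fun_prop)
      (fun c u hc => by simp [hc]) r
    rw [integral_complex_ofReal] at this
    simp only [Pi.zero_apply, zero_mul, Finset.sum_const_zero, mul_zero, exp_zero, add_zero,
      one_mul] at this
    rw [gam, ← this]
    congr 1; ext u
    rw [← mul_assoc, ofReal_exp, ← exp_add, ker, q]
    congr 2
    push_cast
    simp only [Finset.mul_sum, ← Finset.sum_neg_distrib, ← Finset.sum_add_distrib]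
    refine Finset.sum_congr rfl fun j _ => ?_
    rw [← mul_conj']; simp; ring
  have h2 : A τ ω f s - gam n r τ * f s = ∫ ζ in ω \ ball s r, ker τ ζ s * f ζ := by
    rw [setIntegral_sdiff measurableSet_ball (intOn hc hω) hb, h1, A]
  have hM0 : 0 ≤ M := (norm_nonneg _).trans (hM s (hb (mem_ball_self hr)))
  rw [h2]
  refine (norm_setIntegral_le_of_norm_le_const (C := M * Real.exp (-(τ * ((r - σ) ^ 2 - n * σ ^ 2))))
    (hω.subset sdiff_subset).measure_lt_top fun ζ hζ => ?_).trans ?_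
  · rw [norm_mul, norm_ker, mul_comm]
    have := re_q_ge hs hσ hr (not_lt.1 hζ.2)
    gcongr
    exact hM ζ hζ.1
  · rw [mul_comm, ← mul_assoc]
    gcongr
    · exact hω.measure_lt_top.ne
    · exact sdiff_subset

lemma norm_A_le {f : E n → ℂ} {ω : Set (E n)}
    (hω : Bornology.IsBounded ω) {M τ σ : ℝ} (hM0 : 0 ≤ M) (hM : ∀ ζ ∈ ω, ‖f ζ‖ ≤ M) (hτ : 0 ≤ τ)
    {s : E n} (hs : ∀ j, |(s j).im| ≤ σ) :
    ‖A τ ω f s‖ ≤ volume.real ω * M * Real.exp (τ * (n * σ ^ 2)) := by
  refine (norm_setIntegral_le_of_norm_le_const (C := M * Real.exp (τ * (n * σ ^ 2)))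
    hω.measure_lt_top fun ζ hζ => ?_).trans_eq (by ring)
  rw [norm_mul, norm_ker, mul_comm]
  have := re_q_ge0 hs ζ
  gcongr
  · exact hM ζ hζ
  · nlinarith

end H92.AF
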