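import Mathlib
import Pool.Agent.H92.AF2

open Set MeasureTheory Metric Complex Filter Topology
open scoped ComplexConjugate

namespace H92.AF

variable {n : ℕ}

def IsReal (K : Set (E n)) : Prop := ∀ k ∈ K, ∀ j, (k j).im = 0

def Car (S : (E n → ℂ) →ₗ[ℂ] ℂ) (K : Set (E n)) : Prop :=
  ∀ δ > 0, ∃ C, 0 ≤ C ∧ Bd S (thickening δ K) C

lemma im_le {K : Set (E n)} (hK : IsReal K) {δ : ℝ} {s : E n} (hs : s ∈ thickening δ K) (j : Fin n) :
    |(s j).im| ≤ δ := by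
  obtain ⟨k, hk, h⟩ := mem_thickening_iff.1 hs
  have h1 := (dist_le_pi_dist s k j).trans h.le
  have h2 := abs_im_le_norm (s j - k j)
  rw [sub_im, hK k hk, sub_zero] at h2
  rw [dist_eq_norm] at h1
  linarith

lemma small (P : ℝ → Prop) (h : ∀ᶠ ε in 𝓝 (0:ℝ), P ε) : ∃ ε, 0 < ε ∧ P ε := by
  obtain ⟨ε, h, h'⟩ := ((h.filter_mono nhdsWithin_le_nhds).and
      (self_mem_nhdsWithin (s := Set.Ioi (0:ℝ)))).exists
  exact ⟨ε, h', h⟩

lemma ev_lt {f : ℝ → ℝ} (hf : Continuous f) {a : ℝ} (h : f 0 < a) : ∀ᶠ ε in 𝓝 (0:ℝ), f ε < a :=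
  hf.continuousAt.eventually_lt continuousAt_const h

lemma ev_gt {f : ℝ → ℝ} (hf : Continuous f) {a : ℝ} (h : a < f 0) : ∀ᶠ ε in 𝓝 (0:ℝ), a < f ε :=
  continuousAt_const.eventually_lt hf.continuousAt h

lemma Car.compact {S : (E n → ℂ) →ₗ[ℂ] ℂ} {K : Set (E n)} (h : Car S K) (hK : IsCompact K) :
    ∃ L C, IsCompact L ∧ Bd S L C := by
  obtain ⟨C, -, hC⟩ := h 1 one_pos
  exact ⟨cthickening 1 K, C, hK.cthickening, fun f M hf hM h =>
    hC f M hf hM fun z hz => h z (thickening_subset_cthickening _ _ hz)⟩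

lemma norm_SA {S : (E n → ℂ) →ₗ[ℂ] ℂ} {K : Set (E n)} (h : Car S K) (hK : IsCompact K)
    {ω : Set (E n)} (hm : MeasurableSet ω) (hω : Bornology.IsBounded ω) {g : E n → ℂ}
    (hg : Continuous g) {τ B M : ℝ} (hB : ∀ ζ ∈ ω, ‖S (ker τ ζ)‖ ≤ B) (hM : ∀ ζ ∈ ω, ‖g ζ‖ ≤ M) :
    ‖S (A τ ω g)‖ ≤ B * M * volume.real ω := by
  obtain ⟨L, C, hL, hC⟩ := h.compact hK
  refine norm_int_le hL hC hm hω (fun ζ s => ker τ ζ s * g ζ)
    ((continuous_ker τ).mul (by fun_prop)) (fun ζ => (diff_ker τ ζ).mul_const _)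
    (diff_A τ hm hω hg) fun ζ hζ => ?_
  have : (fun s => ker τ ζ s * g ζ) = g ζ • ker τ ζ := by ext s; simp [mul_comm]
  rw [this, map_smul, norm_smul, mul_comm]
  exact mul_le_mul (hB ζ hζ) (hM ζ hζ) (norm_nonneg _) ((norm_nonneg _).trans (hB ζ hζ))

lemma ker_small {S : (E n → ℂ) →ₗ[ℂ] ℂ} {K : Set (E n)} (h : Car S K) (hK : IsReal K) {a : ℝ}
    (ha : 0 < a) : ∃ C, 0 ≤ C ∧ ∀ τ, 0 ≤ τ → ∀ ζ, ‖S (ker τ ζ)‖ ≤ C * Real.exp (a * τ) := by
  obtain ⟨δ, hδ, h1⟩ := small _ (ev_lt (f := fun δ => n * δ ^ 2) (by fun_prop) (by simpa using ha))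
  obtain ⟨C, hC, hb⟩ := h δ hδ
  refine ⟨C, hC, fun τ hτ ζ => hb _ _ (diff_ker τ ζ) (Real.exp_pos _).le fun s hs => ?_⟩
  rw [norm_ker]
  have := re_q_ge0 (im_le hK hs) ζ
  refine Real.exp_le_exp.2 ?_
  nlinarith

lemma ker_far {S : (E n → ℂ) →ₗ[ℂ] ℂ} {K : Set (E n)} (h : Car S K) (hK : IsReal K) {ρ : ℝ}
    (hρ : 0 < ρ) : ∃ b > 0, ∃ C, 0 ≤ C ∧ ∀ τ, 0 ≤ τ → ∀ ζ ∉ thickening ρ K,
      ‖S (ker τ ζ)‖ ≤ C * Real.exp (-(b * τ)) := by
  obtain ⟨δ, hδ, h1, h2⟩ := small _ ((ev_gt (f := fun δ => (ρ - δ - δ) ^ 2 - n * δ ^ 2) (a := 0)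
    (by fun_prop) (by simpa using pow_pos hρ 2)).and (ev_lt (f := fun δ => 2 * δ) (by fun_prop)
      (by simpa using hρ)))
  obtain ⟨C, hC, hb⟩ := h δ hδ
  refine ⟨_, h1, C, hC, fun τ hτ ζ hζ => hb _ _ (diff_ker τ ζ) (Real.exp_pos _).le fun s hs => ?_⟩
  rw [norm_ker]
  obtain ⟨k, hk, hsk⟩ := mem_thickening_iff.1 hs
  have h3 : ρ ≤ dist ζ k := not_lt.1 fun h => hζ (mem_thickening_iff.2 ⟨k, hk, h⟩)
  have := re_q_ge (ζ := ζ) (r := ρ - δ) (im_le hK hs) (by linarith) (by linarith)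
    (by linarith [dist_triangle ζ s k])
  refine Real.exp_le_exp.2 ?_
  nlinarith

def Hyp (S : (E n → ℂ) →ₗ[ℂ] ℂ) (K K0 : Set (E n)) : Prop :=
  ∃ ρ > 0, ∃ b > 0, ∃ C, 0 ≤ C ∧ ∀ τ, 0 ≤ τ → ∀ ζ, (∃ k ∈ K, k ∉ K0 ∧ dist ζ k < ρ) →
    ‖S (ker τ ζ)‖ ≤ C * Real.exp (-(b * τ))

lemma interp {S : (E n → ℂ) →ₗ[ℂ] ℂ} {K K0 : Set (E n)} (h : Car S K) (hc : IsCompact K)
    (hK : IsReal K) (h0 : K0 ⊆ K) (hyp : Hyp S K K0) {σ : ℝ} (hσ : 0 < σ) (hσ2 : σ ≤ 2) :
    ∃ b > 0, ∀ a > 0, ∃ C, 0 ≤ C ∧ ∀ (g : E n → ℂ) (M1 M2 τ : ℝ), Differentiable ℂ g → 0 ≤ M1 →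
      0 ≤ M2 → 0 ≤ τ → (∀ z ∈ thickening σ K0, ‖g z‖ ≤ M1) → (∀ z ∈ thickening 2 K, ‖g z‖ ≤ M2) →
      ‖S g‖ ≤ C * (Real.exp (a * τ) * M1 + Real.exp (-(b * τ)) * M2) := by
  obtain ⟨ρ, hρ, b1, hb1, C1, hC1, H1⟩ := hyp
  obtain ⟨b2, hb2, C2, hC2, H2⟩ := ker_far h hK (lt_min hρ hσ)
  obtain ⟨δ, hδ, hb3, hδ1⟩ := small _ ((ev_gt (f := fun δ => (1 - δ) ^ 2 - n * δ ^ 2) (a := 0)
    (by fun_prop) (by simp)).and (ev_lt (f := fun δ => δ) (a := 1) (by fun_prop) (by simp)))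
  obtain ⟨C3, hC3, H3⟩ := h δ hδ
  set b3 := (1 - δ) ^ 2 - n * δ ^ 2
  set b := min (min b1 b2) b3 with hb
  have hb0 : 0 < b := by positivity
  refine ⟨b / 2, by positivity, fun a ha => ?_⟩
  obtain ⟨C4, hC4, H4⟩ := ker_small h hK (half_pos ha)
  obtain ⟨C5, hC5, H5⟩ := gam_inv_le (n := n) one_pos (lt_min (half_pos ha) (half_pos hb0))
  set Ω := thickening 2 K
  set ω := thickening σ K0
  have hΩ : Bornology.IsBounded Ω := hc.isBounded.thickening
  have hωΩ : ω ⊆ Ω := (thickening_subset_of_subset _ h0).trans (thickening_mono hσ2 _)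
  have mΩ : MeasurableSet Ω := isOpen_thickening.measurableSet
  have mω : MeasurableSet ω := isOpen_thickening.measurableSet
  set v := volume.real Ω
  have hv : 0 ≤ v := measureReal_nonneg
  refine ⟨C5 * (v * (C1 + C2 + C3 + C4)), by positivity, fun g M1 M2 τ hg hM1 hM2 hτ g1 g2 => ?_⟩
  obtain ⟨hγ, hγ'⟩ := H5 τ hτ
  have dA := diff_A τ mΩ hΩ hg.continuous
  have e1 : ‖S (A τ Ω g - (gam n 1 τ : ℂ) • g)‖ ≤ C3 * (v * M2 * Real.exp (-(b * τ))) := by
    refine H3 _ _ (dA.sub (hg.const_smul _)) (by positivity) fun s hs => ?_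
    refine (approx hg mΩ hΩ g2 hτ (im_le hK hs) hδ1.le one_pos fun x hx => ?_).trans ?_
    · obtain ⟨k, hk, hsk⟩ := mem_thickening_iff.1 hs
      exact mem_thickening_iff.2 ⟨k, hk, by linarith [dist_triangle x s k, mem_ball.1 hx]⟩
    · have : b ≤ b3 := min_le_right _ _
      gcongr ?_ * Real.exp ?_
      nlinarith
  have e2 : ‖S (A τ ω g)‖ ≤ C4 * Real.exp (a / 2 * τ) * M1 * v :=
    (norm_SA h hc mω (hΩ.subset hωΩ) hg.continuous (fun ζ _ => H4 τ hτ ζ) g1).trans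
      (mul_le_mul_of_nonneg_left (measureReal_mono hωΩ hΩ.measure_lt_top.ne) (by positivity))
  have e3 : ‖S (A τ (Ω \ ω) g)‖ ≤ (C1 + C2) * Real.exp (-(b * τ)) * M2 * v := by
    refine (norm_SA h hc (mΩ.diff mω) (hΩ.subset sdiff_subset) hg.continuous (fun ζ hζ => ?_)
      fun ζ hζ => g2 ζ hζ.1).trans (mul_le_mul_of_nonneg_left
        (measureReal_mono sdiff_subset hΩ.measure_lt_top.ne) (by positivity))
    have q1 : b ≤ b1 := (min_le_left _ _).trans (min_le_left _ _)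
    have q2 : b ≤ b2 := (min_le_left _ _).trans (min_le_right _ _)
    by_cases hz : ζ ∈ thickening (min ρ σ) K
    · obtain ⟨k, hk, hd⟩ := mem_thickening_iff.1 hz
      refine (H1 τ hτ ζ ⟨k, hk, fun hk0 => hζ.2 (mem_thickening_iff.2
        ⟨k, hk0, hd.trans_le (min_le_right _ _)⟩), hd.trans_le (min_le_left _ _)⟩).trans ?_
      gcongr; linarith
    · refine (H2 τ hτ ζ hz).trans ?_
      gcongr; linarith
  have e4 : (gam n 1 τ : ℂ) * S g = S (A τ ω g) + S (A τ (Ω \ ω) g) -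
      S (A τ Ω g - (gam n 1 τ : ℂ) • g) := by
    have : A τ Ω g = A τ ω g + A τ (Ω \ ω) g := by
      ext s
      have hc : Continuous fun ζ => ker τ ζ s * g ζ :=
        ((continuous_ker τ).comp (f := fun ζ => (ζ, s)) (by fun_prop)).mul hg.continuous
      simp only [A, Pi.add_apply]
      rw [setIntegral_sdiff mω (intOn hc hΩ) hωΩ]; ring
    rw [map_sub, this, map_add, map_smul, smul_eq_mul]; ring
  have e5 : gam n 1 τ * ‖S g‖ ≤ v * (C1 + C2 + C3 + C4) *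
      (Real.exp (a / 2 * τ) * M1 + Real.exp (-(b * τ)) * M2) := by
    have := congrArg norm e4
    rw [norm_mul, norm_real, Real.norm_of_nonneg hγ.le] at this
    rw [this]
    refine (norm_sub_le _ _).trans ((add_le_add_left (norm_add_le _ _) _).trans ?_)
    have p1 : 0 ≤ v * (Real.exp (a / 2 * τ) * M1) := by positivity
    have p2 : 0 ≤ v * (Real.exp (-(b * τ)) * M2) := by positivity
    nlinarith [mul_nonneg hC1 p1, mul_nonneg hC2 p1, mul_nonneg hC3 p1, mul_nonneg hC4 p2]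
  rw [← le_inv_mul_iff₀ hγ] at e5
  refine e5.trans ((mul_le_mul_of_nonneg_right hγ' (by positivity)).trans ?_)
  have x1 : Real.exp (min (a / 2) (b / 2) * τ) * Real.exp (a / 2 * τ) ≤ Real.exp (a * τ) := by
    rw [← Real.exp_add]; refine Real.exp_le_exp.2 ?_
    nlinarith [min_le_left (a / 2) (b / 2)]
  have x2 : Real.exp (min (a / 2) (b / 2) * τ) * Real.exp (-(b * τ)) ≤ Real.exp (-(b / 2 * τ)) := by
    rw [← Real.exp_add]; refine Real.exp_le_exp.2 ?_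
    nlinarith [min_le_right (a / 2) (b / 2)]
  calc _ = C5 * (v * (C1 + C2 + C3 + C4)) *
        (Real.exp (min (a / 2) (b / 2) * τ) * Real.exp (a / 2 * τ) * M1 +
          Real.exp (min (a / 2) (b / 2) * τ) * Real.exp (-(b * τ)) * M2) := by ring
    _ ≤ _ := by gcongr

theorem pem {S : (E n → ℂ) →ₗ[ℂ] ℂ} {K K0 : Set (E n)} (h : Car S K) (hc : IsCompact K)
    (hK : IsReal K) (h0 : K0 ⊆ K) (hyp : Hyp S K K0) : Car S K0 := by
  intro r2 hr2
  obtain ⟨r, rfl⟩ : ∃ r, r2 = 2 * r := ⟨r2 / 2, by ring⟩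
  have hr : 0 < r := by linarith
  obtain ⟨σ, hσ, hc0, hσr, hσ2⟩ := small _ ((ev_gt (f := fun σ => (r - σ) ^ 2 - n * σ ^ 2) (a := 0)
    (by fun_prop) (by simpa using pow_pos hr 2)).and ((ev_lt (f := fun δ => δ) (a := r) (by fun_prop)
      hr).and (ev_lt (f := fun δ => δ) (a := 2) (by fun_prop) (by simp))))
  set c := (r - σ) ^ 2 - n * σ ^ 2
  obtain ⟨b, hb, H⟩ := interp h hc hK h0 hyp hσ hσ2.le
  set a0 : ℝ := c / 2 + n * 2 ^ 2 with ha0
  have ha0' : 0 < a0 := by positivity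
  set N : ℝ := (a0 + c / 4) / b with hN
  have hN0 : 0 < N := by positivity
  obtain ⟨C, hC, H⟩ := H (c / 4 / N) (by positivity)
  obtain ⟨C1, hC1, H1⟩ := gam_inv_le (n := n) hr (half_pos hc0)
  obtain ⟨C2, hC2, H2⟩ := h 2 two_pos
  set ω := thickening (2 * r) K0
  have hω : Bornology.IsBounded ω := (hc.isBounded.subset h0).thickening
  have mω : MeasurableSet ω := isOpen_thickening.measurableSet
  set v := volume.real ω
  have hv : 0 ≤ v := measureReal_nonneg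
  set x := Real.exp (-(c / 4)) with hx
  have hx1 : x < 1 := Real.exp_lt_one_iff.2 (by linarith)
  have hx0 : 0 < x := Real.exp_pos _
  have H' : ∀ (g : E n → ℂ) (M1 M2 : ℝ) (k : ℕ), Differentiable ℂ g → 0 ≤ M1 → 0 ≤ M2 →
      (∀ z ∈ thickening σ K0, ‖g z‖ ≤ M1 * Real.exp (-(c / 2 * k))) →
      (∀ z ∈ thickening 2 K, ‖g z‖ ≤ M2 * Real.exp (a0 * k)) → ‖S g‖ ≤ C * (M1 + M2) * x ^ k := by
    intro g M1 M2 k hg hM1 hM2 g1 g2
    refine (H g _ _ (N * k) hg (by positivity) (by positivity) (by positivity) g1 g2).trans_eq ?_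
    have x1 : Real.exp (c / 4 / N * (N * k)) * Real.exp (-(c / 2 * k)) = x ^ k := by
      rw [← Real.exp_add, hx, ← Real.exp_nat_mul]; congr 1; field_simp; ring
    have x2 : Real.exp (-(b * (N * k))) * Real.exp (a0 * k) = x ^ k := by
      rw [← Real.exp_add, hx, ← Real.exp_nat_mul, hN]; congr 1; field_simp; ring
    calc _ = C * (Real.exp (c / 4 / N * (N * k)) * Real.exp (-(c / 2 * k)) * M1 +
          Real.exp (-(b * (N * k))) * Real.exp (a0 * k) * M2) := by ring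
      _ = _ := by rw [x1, x2]; ring
  refine ⟨C2 * (C1 * v) + C * (2 * (C1 * v) + 2 * (C1 * v * Real.exp a0)) / (1 - x),
    by have := sub_pos.2 hx1; positivity, fun f M hf hM hfM => ?_⟩
  let F : ℕ → E n → ℂ := fun k => ((gam n r k)⁻¹ : ℝ) • A k ω f
  have dF : ∀ k, Differentiable ℂ (F k) := fun k => (diff_A _ mω hω hf.continuous).const_smul _
  have F1 : ∀ k : ℕ, ∀ z ∈ thickening σ K0, ‖F k z - f z‖ ≤ C1 * v * M * Real.exp (-(c / 2 * k)) := by
    intro k z hz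
    obtain ⟨p1, p2⟩ := H1 k k.cast_nonneg
    have := approx hf mω hω hfM k.cast_nonneg (im_le (fun k hk => hK k (h0 hk)) hz) hσr.le hr
      (fun x hx => by
        obtain ⟨k, hk, hsk⟩ := mem_thickening_iff.1 hz
        exact mem_thickening_iff.2 ⟨k, hk, by linarith [dist_triangle x z k, mem_ball.1 hx]⟩)
    have e : F k z - f z = ((gam n r k)⁻¹ : ℝ) * (A k ω f z - gam n r k * f z) := by
      have : (gam n r k : ℂ) ≠ 0 := by exact_mod_cast p1.ne'
      simp [F]; field_simp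
    rw [e, norm_mul, norm_real, Real.norm_of_nonneg (by positivity)]
    refine (mul_le_mul p2 this (norm_nonneg _) (by positivity)).trans_eq ?_
    have : Real.exp (c / 2 * k) * Real.exp (-(k * c)) = Real.exp (-(c / 2 * k)) := by
      rw [← Real.exp_add]; congr 1; ring
    rw [← this]; ring
  have F2 : ∀ k : ℕ, ∀ z ∈ thickening 2 K, ‖F k z‖ ≤ C1 * v * M * Real.exp (a0 * k) := by
    intro k z hz
    obtain ⟨p1, p2⟩ := H1 k k.cast_nonneg
    have := norm_A_le hω hM hfM k.cast_nonneg (im_le hK hz)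
    simp only [F, Pi.smul_apply]
    rw [norm_smul, Real.norm_of_nonneg (by positivity)]
    refine (mul_le_mul p2 this (norm_nonneg _) (by positivity)).trans_eq ?_
    have : Real.exp (c / 2 * k) * Real.exp (k * (n * 2 ^ 2)) = Real.exp (a0 * k) := by
      rw [← Real.exp_add]; congr 1; ring
    rw [← this]; ring
  have step : ∀ k, dist (S (F k)) (S (F (k + 1))) ≤
      C * (2 * (C1 * v * M) + 2 * (C1 * v * M * Real.exp a0)) * x ^ k := by
    intro k
    rw [dist_eq_norm, ← map_sub]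
    refine H' _ _ _ k ((dF k).sub (dF _)) (by positivity) (by positivity) (fun z hz => ?_)
      fun z hz => ?_
    · have a1 := F1 k z hz
      have a2 := F1 (k + 1) z hz
      have a3 : Real.exp (-(c / 2 * (k + 1 : ℕ))) ≤ Real.exp (-(c / 2 * k)) := by
        gcongr; omega
      have a4 := norm_sub_le (F k z - f z) (F (k + 1) z - f z)
      rw [sub_sub_sub_cancel_right] at a4
      have := mul_le_mul_of_nonneg_left a3 (by positivity : 0 ≤ C1 * v * M)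
      simp only [Pi.sub_apply]; linarith
    · have a1 := F2 k z hz
      have a2 := F2 (k + 1) z hz
      have a3 : Real.exp (a0 * k) ≤ Real.exp (a0 * (k + 1 : ℕ)) := by gcongr; omega
      have a5 : Real.exp (a0 * (k + 1 : ℕ)) = Real.exp a0 * Real.exp (a0 * k) := by
        rw [← Real.exp_add]; congr 1; push_cast; ring
      have := mul_le_mul_of_nonneg_left a3 (by positivity : 0 ≤ C1 * v * M)
      have a4 := norm_sub_le (F k z) (F (k + 1) z)
      rw [a5] at this a2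
      simp only [Pi.sub_apply]; linarith
  obtain ⟨M', hM'⟩ := (hc.cthickening (r := 2)).exists_bound_of_continuousOn
    hf.continuous.continuousOn
  have lim : Tendsto (fun k => S (F k)) atTop (𝓝 (S f)) := by
    rw [tendsto_iff_norm_sub_tendsto_zero]
    have t := (tendsto_pow_atTop_nhds_zero_of_lt_one hx0.le hx1).const_mul
      (C * (C1 * v * M + (C1 * v * M + |M'|)))
    rw [mul_zero] at t
    refine squeeze_zero (fun _ => norm_nonneg _) (fun k => ?_) t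
    rw [← map_sub]
    refine H' _ _ _ k ((dF k).sub hf) (by positivity) (by positivity) (F1 k) fun z hz => ?_
    have a1 := F2 k z hz
    have a2 := (hM' z (thickening_subset_cthickening _ _ hz)).trans (le_abs_self _)
    have a3 : 1 ≤ Real.exp (a0 * k) := Real.one_le_exp (by positivity)
    have a4 := norm_sub_le (F k z) (f z)
    simp only [Pi.sub_apply]
    nlinarith [abs_nonneg M']
  have fin := dist_le_of_le_geometric_of_tendsto₀ x _ hx1 step lim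
  have z0 : ‖S (F 0)‖ ≤ C2 * (C1 * v * M) :=
    H2 _ _ (dF 0) (by positivity) fun z hz => by simpa using F2 0 z hz
  rw [dist_eq_norm] at fin
  have a4 := norm_sub_le (S (F 0)) (S (F 0) - S f)
  rw [sub_sub_cancel] at a4
  calc _ ≤ C2 * (C1 * v * M) + C * (2 * (C1 * v * M) + 2 * (C1 * v * M * Real.exp a0)) / (1 - x) := by
        linarith
    _ = _ := by ring

end H92.AF
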