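import Mathlib
import Pool.Agent.H92.AF3

open Set MeasureTheory Metric Complex Filter Topology
open scoped ComplexConjugate

namespace H92.AF

variable {n : ℕ}

noncomputable def Bl (s z : E n) : ℂ := ∑ j, s j * z j

lemma norm_Bl_le (s z : E n) : ‖Bl s z‖ ≤ n * (‖s‖ * ‖z‖) := by
  refine (norm_sum_le _ _).trans ?_
  have := Finset.sum_le_sum (s := Finset.univ) (g := fun _ => ‖s‖ * ‖z‖)
    (f := fun j => ‖s j * z j‖) fun j _ => by
      rw [norm_mul]; gcongr <;> exact norm_le_pi_norm _ _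
  simpa using this

lemma Bl_add_right (s z z' : E n) : Bl s (z + z') = Bl s z + Bl s z' := by
  simp [Bl, mul_add, Finset.sum_add_distrib]

lemma Bl_smul_right (s z : E n) (c : ℂ) : Bl s (c • z) = c * Bl s z := by
  simp [Bl, Finset.mul_sum, mul_left_comm]

lemma Bl_sub_left (s s' z : E n) : Bl (s - s') z = Bl s z - Bl s' z := by
  simp [Bl, sub_mul]

lemma diff_Bl (p z : E n) : Differentiable ℂ fun s => Bl (s - p) z := by
  unfold Bl; simp only [Pi.sub_apply]; fun_prop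

variable (S : (E n → ℂ) →ₗ[ℂ] ℂ) (p : E n)

noncomputable def VV (τ : ℝ) (ζ z : E n) : ℂ := S fun s => exp (τ * (Bl (s - p) z - q s ζ))

variable {S p}

lemma VV_zero (τ : ℝ) (ζ : E n) : VV S p τ ζ 0 = S (ker τ ζ) := by
  unfold VV ker; simp [Bl]

lemma VV_holo {K : Set (E n)} (h : Car S K) (hc : IsCompact K) (τ : ℝ) (ζ z0 z1 : E n) :
    Differentiable ℂ fun l : ℂ => VV S p τ ζ (z0 + l • z1) := by
  obtain ⟨L, C, hL, hC⟩ := h.compact hc
  have := holo hL hC (a := fun s => τ * (Bl (s - p) z0 - q s ζ)) (b := fun s => τ * Bl (s - p) z1)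
    (((diff_Bl p z0).sub (diff_q ζ)).const_mul _) ((diff_Bl p z1).const_mul _)
  convert this using 2 with l
  unfold VV
  congr 1; ext s; congr 1
  rw [Bl_add_right, Bl_smul_right]; ring

lemma VV_le {B : Set (E n)} {C β τ : ℝ} (h : Bd S B C) (hτ : 0 ≤ τ) {ζ z : E n}
    (hβ : ∀ s ∈ B, (Bl (s - p) z).re - (q s ζ).re ≤ β) :
    ‖VV S p τ ζ z‖ ≤ C * Real.exp (τ * β) := by
  refine h _ _ (((diff_Bl p z).sub (diff_q ζ)).const_mul _).cexp (Real.exp_pos _).le fun s hs => ?_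
  rw [norm_exp, re_ofReal_mul, sub_re]
  gcongr
  exact hβ s hs

lemma U1 {K : Set (E n)} (h : Car S K) (hK : IsReal K) {a : ℝ} (ha : 0 < a) :
    ∃ C, 0 ≤ C ∧ ∀ τ, 0 ≤ τ → ∀ ζ z, (∀ k ∈ K, (Bl (k - p) z).re ≤ 0) →
      ‖VV S p τ ζ z‖ ≤ C * Real.exp (τ * (a * (1 + ‖z‖))) := by
  obtain ⟨δ, hδ, h1, h2⟩ := small _ ((ev_lt (f := fun δ => n * δ ^ 2) (by fun_prop)
    (by simpa using ha)).and (ev_lt (f := fun δ => n * δ) (by fun_prop) (by simpa using ha)))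
  obtain ⟨C, hC, hb⟩ := h δ hδ
  refine ⟨C, hC, fun τ hτ ζ z hz => VV_le hb hτ fun s hs => ?_⟩
  obtain ⟨k, hk, hsk⟩ := mem_thickening_iff.1 hs
  have e : Bl (s - p) z = Bl (k - p) z + Bl (s - k) z := by simp only [Bl_sub_left]; ring
  have a1 := (re_le_norm _).trans (norm_Bl_le (s - k) z)
  rw [dist_eq_norm] at hsk
  have a2 : n * (‖s - k‖ * ‖z‖) ≤ a * ‖z‖ := by
    rw [← mul_assoc]; gcongr
    exact le_trans (by gcongr) h2.le
  have := re_q_ge0 (im_le hK hs) ζ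
  rw [e, add_re]
  linarith [hz k hk]

variable (S p) in
def Sm (Ξ Q : Set (E n)) : Prop := ∃ m > 0, ∃ C, 0 ≤ C ∧ ∀ τ, 0 ≤ τ → ∀ ζ ∈ Ξ, ∀ z ∈ Q,
  ‖VV S p τ ζ z‖ ≤ C * Real.exp (-(m * τ))

variable (S p) in
def Good (Ξ : Set (E n)) (a : E n) : Prop := ∃ σ > 0, Sm S p Ξ (ball a σ)

lemma Good.prop {K Ξ : Set (E n)} (h : Car S K) (hc : IsCompact K) (hK : IsReal K) {a a' : E n}
    {ρ : ℝ} (hρ : 0 < ρ) (hU : ∀ z ∈ closedBall a (4 * ρ), ∀ k ∈ K, (Bl (k - p) z).re ≤ 0)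
    (ha : Good S p Ξ a) (ha' : a' ∈ ball a ρ) : Good S p Ξ a' := by
  obtain ⟨σ0, hσ0, m, hm, C, hC, H⟩ := ha
  set σ := min (σ0 / 2) ρ
  have hσ : 0 < σ := by positivity
  have hσ1 : σ < σ0 := (min_le_left _ _).trans_lt (by linarith)
  have hσ2 : σ < 4 * ρ := (min_le_right _ _).trans_lt (by linarith)
  have hL : 0 < Real.log (4 * ρ) - Real.log σ := sub_pos.2 (Real.log_lt_log hσ hσ2)
  set ν := m / (Real.log (4 * ρ) - Real.log σ) with hν
  have hν0 : 0 < ν := by positivity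
  have l2 : 0 < Real.log 2 := Real.log_pos one_lt_two
  set e := ν * Real.log 2 / 2 with he
  have he0 : 0 < e := by positivity
  have hR : 0 < 1 + (‖a‖ + 4 * ρ) := by positivity
  obtain ⟨C', hC', H'⟩ := U1 (p := p) h hK (div_pos he0 hR)
  refine ⟨ρ, hρ, min m e, by positivity, C + C', by positivity, fun τ hτ ζ hζ z hz => ?_⟩
  by_cases hd : ‖z - a‖ < σ
  · refine (H τ hτ ζ hζ z (mem_ball_iff_norm.2 (hd.trans hσ1))).trans ?_
    have := min_le_left m e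
    gcongr; linarith
  push Not at hd
  have hd0 : 0 < ‖z - a‖ := hσ.trans_le hd
  set u : E n := ((‖z - a‖⁻¹ : ℝ) : ℂ) • (z - a) with hu
  have hu1 : ‖u‖ = 1 := by rw [hu, norm_smul]; simp [hd0.ne']
  have key := three_circles (VV_holo (p := p) h hc τ ζ a u) hσ hσ2 (ν := τ * ν) (by positivity)
    (C := (C + C') * Real.exp (τ * e)) (fun l hl => ?_) (fun l hl => ?_) (z := (‖z - a‖ : ℝ))
    (by simpa using hd) (by
      have := dist_triangle z a' a
      rw [dist_eq_norm z a] at this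
      simp only [norm_real, norm_norm]
      linarith [mem_ball.1 hz, mem_ball.1 ha'])
  · have e1 : a + ((‖z - a‖ : ℝ) : ℂ) • u = z := by
      rw [hu, smul_smul, ← ofReal_mul, mul_inv_cancel₀ hd0.ne']; simp
    simp only [e1] at key
    rw [← le_div_iff₀ (Real.exp_pos _), mul_div_assoc, ← Real.exp_sub] at key
    refine key.trans ?_
    gcongr
    have := min_le_right m e
    nlinarith
  · refine (H' τ hτ ζ _ (hU _ (by simpa [norm_smul, hu1] using hl))).trans ?_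
    have : ‖a + l • u‖ ≤ ‖a‖ + 4 * ρ := (norm_add_le _ _).trans (by simpa [norm_smul, hu1] using hl)
    gcongr
    · linarith
    · rw [div_mul_eq_mul_div, div_le_iff₀ hR]; gcongr
  · have := H τ hτ ζ hζ (a + l • u) (by simpa [norm_smul, hu1, hl] using hσ1)
    have e2 : τ * ν * (Real.log (4 * ρ) - Real.log σ) = m * τ := by rw [hν]; field_simp
    rw [e2]
    calc _ ≤ C * Real.exp (-(m * τ)) * Real.exp (m * τ) := by gcongr
      _ = C * 1 := by rw [mul_assoc, ← Real.exp_add]; simp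
      _ ≤ _ := by gcongr; linarith; exact Real.one_le_exp (by positivity)

lemma all_good {K Ξ U Q : Set (E n)} (h : Car S K) (hc : IsCompact K) (hK : IsReal K)
    (hU : IsOpen U) (hU' : IsPreconnected U) (hUK : ∀ z ∈ U, ∀ k ∈ K, (Bl (k - p) z).re ≤ 0)
    {a : E n} (ha : a ∈ U) (hg : Good S p Ξ a) (hQ : IsCompact Q) (hQU : Q ⊆ U) : Sm S p Ξ Q := by
  have h1 : U ⊆ {a | Good S p Ξ a} := by
    refine hU'.subset_of_closure_inter_subset ?_ ⟨a, ha, hg⟩ ?_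
    · rw [Metric.isOpen_iff]
      rintro b ⟨σ, hσ, m, hm, C, hC, H⟩
      refine ⟨σ / 2, by positivity, fun b' hb' => ⟨σ / 2, by positivity, m, hm, C, hC,
        fun τ hτ ζ hζ z hz => H τ hτ ζ hζ z ?_⟩⟩
      rw [mem_ball] at *
      linarith [dist_triangle z b' b]
    · rintro b ⟨hb1, hb2⟩
      obtain ⟨ε, hε, hb⟩ := Metric.isOpen_iff.1 hU b hb2
      obtain ⟨b', hb', hd⟩ := Metric.mem_closure_iff.1 hb1 (ε / 5) (by positivity)
      refine Good.prop h hc hK (ρ := ε / 5) (by positivity) (fun z hz => hUK z (hb ?_)) hb' hd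
      rw [mem_ball]; rw [mem_closedBall] at hz
      linarith [dist_triangle z b' b, dist_comm b b']
  refine hQ.induction_on (p := Sm S p Ξ) ⟨1, one_pos, 0, le_rfl, by simp⟩ ?_ ?_ ?_
  · rintro s t hst ⟨m, hm, C, hC, H⟩
    exact ⟨m, hm, C, hC, fun τ hτ ζ hζ z hz => H τ hτ ζ hζ z (hst hz)⟩
  · rintro s t ⟨m, hm, C, hC, H⟩ ⟨m', hm', C', hC', H'⟩
    refine ⟨min m m', by positivity, C + C', by positivity, fun τ hτ ζ hζ z hz => ?_⟩
    have := min_le_left m m'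
    have := min_le_right m m'
    rcases hz with hz | hz
    · refine (H τ hτ ζ hζ z hz).trans ?_; gcongr; linarith
    · refine (H' τ hτ ζ hζ z hz).trans ?_; gcongr; linarith
  · intro x hx
    obtain ⟨σ, hσ, H⟩ := h1 (hQU hx)
    exact ⟨_, mem_nhdsWithin_of_mem_nhds (ball_mem_nhds x hσ), H⟩

lemma U2 {K : Set (E n)} (h : Car S K) (hK : IsReal K) {w : E n} (hw : ∀ j, (w j).im = 0)
    (hp : ∀ j, (p j).im = 0) {a : ℝ} (ha : 0 < a) :
    ∃ C, 0 ≤ C ∧ ∀ τ, 0 ≤ τ → ∀ ζ (l : ℂ), ‖VV S p τ ζ (l • w)‖ ≤ C * Real.exp (τ *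
      (-l.re * (Bl (p - ζ) w).re + l.re ^ 2 * ∑ j, (w j).re ^ 2 + a * (1 + |l.im|))) := by
  obtain ⟨δ, hδ, h1, h2⟩ := small _ ((ev_lt (f := fun δ => n * δ ^ 2) (by fun_prop)
    (by simpa using ha)).and (ev_lt (f := fun δ => δ * ∑ j, |(w j).re|) (by fun_prop)
      (by simpa using ha)))
  obtain ⟨C, hC, hb⟩ := h δ hδ
  refine ⟨C, hC, fun τ hτ ζ l => VV_le hb hτ fun s hs => ?_⟩
  have a1 := sum_im_le (im_le hK hs)
  have a2 : (Bl (s - p) (l • w)).re - (q s ζ).re ≤ ∑ j, (-l.re * ((p j - ζ j) * w j).re +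
      l.re ^ 2 * (w j).re ^ 2 + (s j).im ^ 2 + |l.im| * (δ * |(w j).re|)) := by
    rw [re_q, Bl, re_sum, ← Finset.sum_sub_distrib]
    refine Finset.sum_le_sum fun j _ => ?_
    have b1 : -(l.im * ((s j).im * (w j).re)) ≤ |l.im| * (δ * |(w j).re|) := by
      refine (neg_le_abs _).trans ?_
      rw [abs_mul, abs_mul]; gcongr; exact im_le hK hs j
    simp [hw j, hp j]
    nlinarith [sq_nonneg (l.re * (w j).re - ((s j).re - (ζ j).re) / 2), sq_nonneg (ζ j).im,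
      sq_nonneg ((s j).re - (ζ j).re)]
  simp only [Finset.sum_add_distrib, ← Finset.mul_sum, ← re_sum] at a2
  have a3 : |l.im| * (δ * ∑ j, |(w j).re|) ≤ |l.im| * a := by gcongr
  have : Bl (p - ζ) w = ∑ j, (p j - ζ j) * w j := rfl
  rw [this]
  linarith

lemma hopf {K Ξ : Set (E n)} (h : Car S K) (hc : IsCompact K) (hK : IsReal K) {w : E n}
    (hw : ∀ j, (w j).im = 0) (hp : ∀ j, (p j).im = 0) (hwK : ∀ k ∈ K, (Bl (k - p) w).re ≤ 0)
    (hQ : Sm S p Ξ ((fun l : ℂ => l • w) '' {l | l.re = 1 ∧ |l.im| ≤ 2})) :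
    ∃ d > 0, ∃ b > 0, ∃ C, 0 ≤ C ∧ ∀ τ, 0 ≤ τ → ∀ ζ ∈ Ξ, (Bl (p - ζ) w).re ≤ d →
      ‖S (ker τ ζ)‖ ≤ C * Real.exp (-(b * τ)) := by
  obtain ⟨m, hm, C, hC, H⟩ := hQ
  set κ := m / 2 with hκ
  have hκ0 : 0 < κ := by positivity
  set W := ∑ j, (w j).re ^ 2
  have hW : 0 ≤ W := by positivity
  obtain ⟨μ, hμ, h1, h2⟩ := small _ ((ev_lt (f := fun μ => μ * (W + κ)) (a := κ / 8) (by fun_prop)
    (by simpa using hκ0)).and (ev_lt (f := fun δ => δ) (a := 1) (by fun_prop) (by simp)))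
  obtain ⟨C1, hC1, H1⟩ := U2 h hK hw hp (a := μ * κ / 32) (by positivity)
  obtain ⟨C2, hC2, H2⟩ := U1 (p := p) h hK (a := κ / 4 / (1 + ‖w‖)) (by positivity)
  refine ⟨κ / 8, by positivity, μ * κ / 8, by positivity, C + C1 + C2, by positivity,
    fun τ hτ ζ hζ hd => ?_⟩
  set d := (Bl (p - ζ) w).re
  have hn : ∀ l : ℂ, ‖VV S p τ ζ (0 + l • w) * exp (τ * (κ * l ^ 2 + κ / 2 * l))‖ =
      ‖VV S p τ ζ (l • w)‖ * Real.exp (τ * (κ * (l.re ^ 2 - l.im ^ 2) + κ / 2 * l.re)) := by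
    intro l
    rw [norm_mul, norm_exp, zero_add]
    congr 2
    have : (κ / 2 : ℂ) = ((κ / 2 : ℝ) : ℂ) := by push_cast; rfl
    rw [this, re_ofReal_mul, add_re, re_ofReal_mul, re_ofReal_mul]
    simp [sq]
  have y1 : ∀ y : ℝ, μ * κ / 32 * (1 + |y|) - κ * y ^ 2 ≤ μ * κ / 8 := by
    intro y
    have t1 : 0 ≤ μ * κ := by positivity
    have t2 : μ * κ * y ^ 2 ≤ κ * y ^ 2 := by
      rw [mul_assoc]; exact mul_le_of_le_one_left (by positivity) h2.le
    rw [← sq_abs y] at *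
    nlinarith [mul_nonneg t1 (sq_nonneg (|y| - 1)), mul_nonneg hκ0.le (sq_nonneg |y|)]
  have key := strip_bound (f := fun l => VV S p τ ζ (0 + l • w) * exp (τ * (κ * l ^ 2 + κ / 2 * l)))
    ((VV_holo h hc τ ζ 0 w).mul (by fun_prop)) (a := -μ) (b := 1) (by linarith)
    (C := (C + C1 + C2) * Real.exp (-(μ * κ / 8 * τ)))
    (B := C1 * Real.exp (τ * (|d| + W + 2 * κ))) (fun l l1 l2 => ?_) (fun l hl => ?_)
    (fun l hl => ?_) (z := 0) (by simpa using hμ.le) (by simp)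
  · simpa [VV_zero] using key
  · rw [hn]
    refine (mul_le_mul_of_nonneg_right (H1 τ hτ ζ l) (Real.exp_pos _).le).trans ?_
    rw [mul_assoc, ← Real.exp_add, ← mul_add]
    gcongr C1 * Real.exp (τ * ?_)
    have t1 : |l.re| ≤ 1 := abs_le.2 ⟨by linarith, l2⟩
    have t2 : l.re ^ 2 ≤ 1 := by rw [← sq_abs]; nlinarith [abs_nonneg l.re]
    have t3 : -l.re * d ≤ |d| := by
      refine (le_abs_self _).trans ?_
      rw [abs_mul, abs_neg]; exact mul_le_of_le_one_left (abs_nonneg _) t1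
    have t0 : μ * κ ≤ κ := mul_le_of_le_one_left hκ0.le h2.le
    nlinarith [y1 l.im, mul_le_mul_of_nonneg_right t2 hW, mul_le_mul_of_nonneg_right t2 hκ0.le,
      mul_le_mul_of_nonneg_right l2 hκ0.le]
  · rw [hn]
    refine (mul_le_mul_of_nonneg_right (H1 τ hτ ζ l) (Real.exp_pos _).le).trans ?_
    rw [mul_assoc, ← Real.exp_add, ← mul_add, mul_comm _ τ, ← mul_neg]
    gcongr
    · linarith
    · rw [hl]
      nlinarith [y1 l.im, mul_le_mul_of_nonneg_left hd hμ.le, mul_le_mul_of_nonneg_left h1.le hμ.le]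
  · rw [hn, hl]
    have t0 : μ * κ ≤ κ := mul_le_of_le_one_left hκ0.le h2.le
    by_cases hy : |l.im| ≤ 2
    · refine (mul_le_mul_of_nonneg_right (H τ hτ ζ hζ _ ⟨l, ⟨hl, hy⟩, rfl⟩)
        (Real.exp_pos _).le).trans ?_
      rw [mul_assoc, ← Real.exp_add]
      gcongr
      · linarith
      · nlinarith [mul_nonneg hτ (mul_nonneg hκ0.le (sq_nonneg l.im)),
          mul_le_mul_of_nonneg_left t0 hτ, mul_nonneg hτ hκ0.le]
    · push Not at hy
      refine (mul_le_mul_of_nonneg_right (H2 τ hτ ζ (l • w) fun k hk => ?_)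
        (Real.exp_pos _).le).trans ?_
      · have : (Bl (k - p) w).im = 0 := by simp [Bl, hw, hp, hK k hk]
        rw [Bl_smul_right, mul_re, this, hl]; simpa using hwK k hk
      rw [mul_assoc, ← Real.exp_add, ← mul_add, mul_comm _ τ, ← mul_neg]
      gcongr
      · linarith
      · have t1 : ‖l‖ ≤ 1 + |l.im| := by simpa [hl] using norm_le_abs_re_add_abs_im l
        have t2 : κ / 4 / (1 + ‖w‖) * (1 + ‖l • w‖) ≤ κ / 4 * (1 + |l.im|) := by
          rw [div_mul_eq_mul_div, mul_div_assoc]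
          gcongr
          rw [div_le_iff₀ (by positivity), norm_smul]
          nlinarith [norm_nonneg w, abs_nonneg l.im, mul_le_mul_of_nonneg_right t1 (norm_nonneg w)]
        rw [← sq_abs l.im]
        nlinarith [mul_nonneg hκ0.le (mul_nonneg (sub_nonneg.2 hy.le) (abs_nonneg l.im)),
          mul_nonneg hκ0.le (sub_nonneg.2 hy.le)]

end H92.AF
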