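import Mathlib
import Pool.Agent.H92.AF4

open Set MeasureTheory Metric Complex Filter Topology
open scoped ComplexConjugate

namespace H92.AF

variable {n : ℕ}

lemma car_of {T : Ent n →ₗ[ℂ] ℂ} {S : (E n → ℂ) →ₗ[ℂ] ℂ} (e : S.comp (Ent n).subtype = T)
    {K : Set (E n)} (h : Carrier T K) : Car S K := by
  intro δ hδ
  obtain ⟨L, -, hL, C, hC⟩ := h.2 _ isOpen_thickening (self_subset_thickening hδ K)
  refine ⟨|C|, abs_nonneg _, fun f M hf hM h => ?_⟩
  have := hC ⟨f, hf⟩ M hM fun z hz => h z (hL hz)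
  rw [← e] at this
  exact this.trans (mul_le_mul_of_nonneg_right (le_abs_self _) hM)

lemma of_car {T : Ent n →ₗ[ℂ] ℂ} {S : (E n → ℂ) →ₗ[ℂ] ℂ} (e : S.comp (Ent n).subtype = T)
    {K : Set (E n)} (hK : IsCompact K) (h : Car S K) : Carrier T K := by
  refine ⟨hK, fun ω hω hKω => ?_⟩
  obtain ⟨δ, hδ, h1⟩ := hK.exists_cthickening_subset_open hω hKω
  obtain ⟨C, -, hC⟩ := h δ hδ
  refine ⟨_, hK.cthickening, h1, C, fun f M hM h => ?_⟩
  rw [← e]
  exact hC f.1 M f.2 hM fun z hz => h z (thickening_subset_cthickening _ _ hz)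

lemma exists_Bl (f : E n →L[ℝ] ℝ) : ∃ z : E n, ∀ s, f s = (Bl s z).re := by
  refine ⟨fun j => f (Pi.single j 1) - I * f (Pi.single j I), fun s => ?_⟩
  conv_lhs => rw [← Finset.univ_sum_single s, map_sum]
  rw [Bl, re_sum]
  refine Finset.sum_congr rfl fun j _ => ?_
  have : (Pi.single j (s j) : E n) =
      (s j).re • (Pi.single j 1 : E n) + (s j).im • (Pi.single j I : E n) := by
    ext i
    by_cases h : i = j
    · subst h; simp
    · simp [h]
  rw [this, map_add, map_smul, map_smul]; simp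

lemma convex_Bl_le (p z : E n) (c : ℝ) : Convex ℝ {k | (Bl (k - p) z).re ≤ c} := by
  have : {k | (Bl (k - p) z).re ≤ c} = {k | (Bl k z).re ≤ c + (Bl p z).re} := by
    ext k; simp [Bl_sub_left]
  rw [this]
  refine convex_halfSpace_le (f := fun k => (Bl k z).re) ⟨fun a b => ?_, fun c a => ?_⟩ _
  · simp [Bl, add_mul, Finset.sum_add_distrib]
  · simp [Bl, Finset.mul_sum, mul_assoc, mul_sub]

lemma isReal_hull {V : Set (E n)} (hV : IsReal V) : IsReal (convexHull ℝ V) := by
  refine fun k hk => convexHull_min (𝕜 := ℝ) (t := {k : E n | ∀ j, (k j).im = 0}) hV ?_ hk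
  intro a ha b hb s t _ _ _ j
  simp [ha j, hb j]

lemma norm_q_le {s ζ : E n} {D : ℝ} (hs : ‖s‖ ≤ D) (hζ : ‖ζ‖ ≤ D) : ‖q s ζ‖ ≤ n * (2 * D * (2 * D)) := by
  have : q s ζ = Bl (s - ζ) (s - star ζ) := rfl
  rw [this]
  refine (norm_Bl_le _ _).trans ?_
  have h1 := norm_sub_le s ζ
  have h2 := norm_sub_le s (star ζ)
  rw [norm_star] at h2
  have := (norm_nonneg _).trans hs
  gcongr <;> linarith

theorem unique_hull {V : Set (E n)} (hVf : V.Finite) (hV : IsReal V) :
    UniqueCSupport (convexHull ℝ V) := by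
  intro T _ hT K' hT'
  set K := convexHull ℝ V with hKdef
  suffices h : K ⊆ K' from hT'.eq_of_ge hT.prop h
  by_contra hne
  obtain ⟨S, hS⟩ := LinearMap.exists_extend T
  have cK := car_of hS hT.prop.2
  have cK' := car_of hS hT'.prop.2
  have hc : IsCompact K := hT.prop.2.1
  have hc' : IsCompact K' := hT'.prop.2.1
  have hK : IsReal K := isReal_hull hV
  have hVK : V ⊆ K := subset_convexHull ℝ V
  obtain ⟨v0, hv0, hv0'⟩ : ∃ v ∈ V, v ∉ K' := by
    by_contra h; push Not at h
    exact hne (convexHull_min h hT'.prop.1)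
  obtain ⟨f, u, hf1, hf2⟩ := geometric_hahn_banach_closed_point hT'.prop.1 hc'.isClosed hv0'
  obtain ⟨z0, hz0⟩ := exists_Bl f
  obtain ⟨D, hD0, hD⟩ := ((hc.isBounded.thickening (δ := 1)).union
    (hc'.isBounded.thickening (δ := 1))).exists_pos_norm_le
  have hDV : ∀ v ∈ V, ‖v‖ ≤ D := fun v hv =>
    hD v (Or.inl (self_subset_thickening one_pos K (hVK hv)))
  set g := f v0 - u with hg
  have hg0 : 0 < g := by linarith
  obtain ⟨ε, hε, h1, h2⟩ := small _ ((ev_lt (f := fun ε => n * (ε * ‖z0‖) + ε * (3 * (n * (D * D))))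
    (a := g / 2) (by fun_prop) (by simpa using hg0)).and
      (ev_lt (f := fun δ => δ) (a := 1) (by fun_prop) (by simp)))
  obtain ⟨p, hp, hmax⟩ := exists_max_image V (fun v => f v + ε * (Bl v v).re / 2) hVf ⟨v0, hv0⟩
  have hDp := hDV p hp
  set z1 := z0 + (ε : ℂ) • p with hz1
  have e1 : ∀ s, (Bl (s - p) z1).re = f s - f p + ε * (Bl (s - p) p).re := fun s => by
    rw [hz1, Bl_add_right, Bl_smul_right, add_re, re_ofReal_mul, ← hz0, map_sub]
  have nn : ∀ v : E n, (∀ j, (v j).im = 0) → (Bl v v).re = ∑ j, (v j).re ^ 2 := fun v hv => by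
    simp [Bl, hv, sq]
  let U : Set (E n) := ⋂ v ∈ V \ {p}, {z | (Bl (v - p) z).re < 0}
  have hUo : IsOpen U := (hVf.subset sdiff_subset).isOpen_biInter fun v _ =>
    isOpen_lt (by unfold Bl; fun_prop) continuous_const
  have hUc : Convex ℝ U := convex_iInter₂ fun v _ =>
    convex_halfSpace_lt (f := fun z => (Bl (v - p) z).re)
      ⟨fun a b => by simp [Bl_add_right], fun c a => by
        rw [← Complex.coe_smul, Bl_smul_right]; simp⟩ _
  have hUK : ∀ z ∈ U, ∀ k ∈ K, (Bl (k - p) z).re ≤ 0 := fun z hz k hk => by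
    refine convexHull_min (fun v hv => ?_) (convex_Bl_le p z 0) hk
    by_cases h : v = p
    · simp [h, Bl]
    · have : (Bl (v - p) z).re < 0 := mem_iInter₂.1 hz v ⟨hv, h⟩
      exact this.le
  have hz1U : ∀ v ∈ V \ {p}, (Bl (v - p) z1).re < 0 := by
    intro v hv
    have a1 := hmax v hv.1
    have a2 : 0 < (Bl (v - p) (v - p)).re := by
      rw [nn _ fun j => by simp [hV v hv.1 j, hV p hp j]]
      obtain ⟨j, hj⟩ := Function.ne_iff.1 hv.2
      refine Finset.sum_pos' (fun j _ => by positivity) ⟨j, Finset.mem_univ _, ?_⟩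
      refine sq_pos_iff.2 ?_
      intro h
      exact hj (Complex.ext (by simpa [sub_eq_zero] using h) (by rw [hV v hv.1, hV p hp]))
    have a3 : Bl (v - p) (v - p) = Bl v v - Bl p p - 2 * Bl (v - p) p := by
      simp only [Bl, Finset.mul_sum, ← Finset.sum_sub_distrib, Pi.sub_apply]
      exact Finset.sum_congr rfl fun j _ => by ring
    rw [a3] at a2
    simp only [sub_re, mul_re, re_ofNat, im_ofNat, zero_mul, sub_zero] at a2
    rw [e1]
    nlinarith
  have hsep : ∀ s ∈ thickening ε K', (Bl (s - p) z1).re ≤ -(g / 2) := by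
    intro s hs
    obtain ⟨k, hk, hsk⟩ := mem_thickening_iff.1 hs
    have hDs := hD s (Or.inr (thickening_mono h2.le _ hs))
    have a1 := hmax v0 hv0
    have a2 : 0 ≤ (Bl v0 v0).re := by rw [nn _ (hV v0 hv0)]; positivity
    have a3 : (Bl p p).re ≤ n * (D * D) :=
      (re_le_norm _).trans ((norm_Bl_le _ _).trans (by gcongr))
    have a4 : (Bl (s - p) p).re ≤ n * (2 * D * D) := by
      have := norm_sub_le s p
      exact (re_le_norm _).trans ((norm_Bl_le _ _).trans (by gcongr; linarith))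
    have a5 : f (s - k) ≤ n * (ε * ‖z0‖) := by
      rw [hz0]; rw [dist_eq_norm] at hsk
      exact (re_le_norm _).trans ((norm_Bl_le _ _).trans (by gcongr))
    rw [map_sub] at a5
    have a6 : 0 ≤ ε * (n * (D * D)) := by positivity
    rw [e1]
    nlinarith [hf1 k hk, mul_le_mul_of_nonneg_left a3 hε.le, mul_le_mul_of_nonneg_left a4 hε.le,
      mul_nonneg hε.le a2]
  set B := n * (2 * D) + n * (2 * D * (2 * D)) + 1 with hB
  set R := B / (g / 2) with hR
  have hR0 : 0 < R := by positivity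
  have hgood : Good S p (thickening 1 K) ((R : ℂ) • z1) := by
    obtain ⟨C, hC, hb⟩ := cK' ε hε
    refine ⟨1, one_pos, 1, one_pos, C, hC, fun τ hτ ζ hζ z hz => ?_⟩
    refine (VV_le (β := -1) hb hτ fun s hs => ?_).trans_eq (by simp)
    have hDs := hD s (Or.inr (thickening_mono h2.le _ hs))
    have a1 := (abs_le.1 ((abs_re_le_norm _).trans (norm_q_le hDs (hD ζ (Or.inl hζ))))).1
    have a2 : z = (R : ℂ) • z1 + (z - (R : ℂ) • z1) := by abel
    have a3 : (Bl (s - p) (z - (R : ℂ) • z1)).re ≤ n * (2 * D * 1) := by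
      have := norm_sub_le s p
      have := (mem_ball_iff_norm.1 hz).le
      exact (re_le_norm _).trans ((norm_Bl_le _ _).trans (by gcongr; linarith))
    have a4 := mul_le_mul_of_nonneg_left (hsep s hs) hR0.le
    have a5 : R * -(g / 2) = -B := by rw [hR]; field_simp
    rw [a2, Bl_add_right, Bl_smul_right, add_re, re_ofReal_mul]
    linarith
  let w : E n := fun j => (z1 j).re
  have hw : ∀ j, (w j).im = 0 := fun j => by simp [w]
  have hlw : ∀ l : ℂ, l.re = 1 → l • w ∈ U := fun l hl => mem_iInter₂.2 fun v hv => by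
    have := hz1U v hv
    simpa [Bl, w, hl, hV v hv.1, hV p hp] using this
  have hQ := all_good cK hc hK hUo hUc.isPreconnected hUK
    (mem_iInter₂.2 fun v hv => by
      have := mul_neg_of_pos_of_neg hR0 (hz1U v hv)
      rw [mem_ofPred_eq, Bl_smul_right, re_ofReal_mul]; exact this) hgood
    (Q := (fun l : ℂ => l • w) '' {l | l.re = 1 ∧ |l.im| ≤ 2})
    (IsCompact.image (isCompact_of_isClosed_isBounded
      ((isClosed_eq continuous_re continuous_const).inter
        (isClosed_le continuous_im.abs continuous_const))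
      (isBounded_iff_forall_norm_le.2 ⟨3, fun l hl => by
        have := norm_le_abs_re_add_abs_im l
        rw [hl.1, abs_one] at this; linarith [hl.2]⟩)) (by fun_prop))
    (by rintro _ ⟨l, hl, rfl⟩; exact hlw l hl.1)
  obtain ⟨d, hd, b, hb, C, hC, H⟩ := hopf cK hc hK hw (hV p hp)
    (by simpa using hUK _ (hlw 1 rfl)) hQ
  obtain ⟨ρ, hρ, h3, h4⟩ := small _ ((ev_lt (f := fun ε => n * (ε * ‖w‖))
    (a := d / 2) (by fun_prop) (by simpa using hd)).and
      (ev_lt (f := fun δ => δ) (a := 1) (by fun_prop) (by simp)))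
  let K0 := K ∩ {k | (Bl (k - p) w).re ≤ -(d / 2)}
  have hK0 := pem cK hc hK (K0 := K0) inter_subset_left ⟨ρ, hρ, b, hb, C, hC, by
    rintro τ hτ ζ ⟨k, hk, hk0, hd⟩
    refine H τ hτ ζ (mem_thickening_iff.2 ⟨k, hk, hd.trans h4⟩) ?_
    have a1 : -(d / 2) < (Bl (k - p) w).re := not_le.1 fun h => hk0 ⟨hk, h⟩
    have a2 : (Bl (k - ζ) w).re ≤ n * (ρ * ‖w‖) := by
      rw [dist_comm, dist_eq_norm] at hd
      exact (re_le_norm _).trans ((norm_Bl_le _ _).trans (by gcongr))
    simp only [Bl_sub_left, sub_re] at *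
    linarith⟩
  have := hT.le_of_le (y := K0) ⟨hT.prop.1.inter (convex_Bl_le p w _), of_car hS
    (hc.inter_right (isClosed_le (by unfold Bl; simp only [Pi.sub_apply]; fun_prop)
      continuous_const)) hK0⟩ inter_subset_left
  have := (this (hVK hp)).2
  simp [Bl] at this
  linarith

end H92.AF
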