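import Mathlib

namespace Pool.Agent.H92.PH

open Set Filter Topology Real
open scoped NNReal

theorem loc (F : ℝ → ℝ → ℝ) (K L : ℝ≥0) (hK : ∀ t, LipschitzWith K (F t))
    (hc : ∀ x, Continuous (fun t => F t x)) (hL : ∀ t x, ‖F t x‖ ≤ L) (x0 : ℝ) (N : ℕ) :
    ∃ ψ : ℝ → ℝ, ψ 0 = x0 ∧ ∀ t ∈ Ioo (-(N : ℝ)) N, HasDerivAt ψ (F t (ψ t)) t := by
  have hN : (0 : ℝ) ≤ N := Nat.cast_nonneg N
  have h : IsPicardLindelof F (tmin := -(N : ℝ)) (tmax := N) ⟨0, by simp⟩ x0 (L * N) 0 L K :=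
    ⟨fun t _ => (hK t).lipschitzOnWith, fun x _ => (hc x).continuousOn, fun t _ x _ => hL t x,
      by simp⟩
  obtain ⟨α, h1, h2⟩ := h.exists_eq_forall_mem_Icc_hasDerivWithinAt₀
  exact ⟨α, h1, fun t ht => (h2 t (Ioo_subset_Icc_self ht)).hasDerivAt (Icc_mem_nhds ht.1 ht.2)⟩

theorem glob (F : ℝ → ℝ → ℝ) (K L : ℝ≥0) (hK : ∀ t, LipschitzWith K (F t))
    (hc : ∀ x, Continuous (fun t => F t x)) (hL : ∀ t x, ‖F t x‖ ≤ L) (x0 : ℝ) :
    ∃ ψ : ℝ → ℝ, ψ 0 = x0 ∧ ∀ t, HasDerivAt ψ (F t (ψ t)) t := by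
  choose α h0 h1 using loc F K L hK hc hL x0
  have hu : ∀ N M : ℕ, 0 < N → N ≤ M → EqOn (α N) (α M) (Ioo (-(N : ℝ)) N) := by
    intro N M hN hNM
    have hN' : (0 : ℝ) < N := by exact_mod_cast hN
    have hNM' : (N : ℝ) ≤ M := by exact_mod_cast hNM
    refine ODE_solution_unique_of_mem_Ioo (v := F) (K := K) (s := fun _ => univ) (t₀ := 0)
      (fun t _ => (hK t).lipschitzOnWith) ⟨by linarith, hN'⟩
      (fun t ht => ⟨h1 N t ht, trivial⟩)
      (fun t ht => ⟨h1 M t ⟨by linarith [ht.1], by linarith [ht.2]⟩, trivial⟩) (by rw [h0, h0])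
  have hm : ∀ t : ℝ, t ∈ Ioo (-((⌈|t|⌉₊ + 1 : ℕ) : ℝ)) ((⌈|t|⌉₊ + 1 : ℕ) : ℝ) := by
    intro t
    have := Nat.le_ceil |t|
    push_cast
    constructor <;> linarith [le_abs_self t, neg_abs_le t]
  have he : ∀ (N : ℕ), ∀ t ∈ Ioo (-(N : ℝ)) N, α (⌈|t|⌉₊ + 1) t = α N t := by
    intro N t ht
    have hN : 0 < N := by
      have : (0 : ℝ) < N := by linarith [ht.1, ht.2]
      exact_mod_cast this
    rcases le_total N (⌈|t|⌉₊ + 1) with h | h
    · exact (hu N _ hN h ht).symm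
    · exact hu _ N (Nat.succ_pos _) h (hm t)
  refine ⟨fun t => α (⌈|t|⌉₊ + 1) t, h0 _, fun t => ?_⟩
  refine (h1 _ t (hm t)).congr_of_eventuallyEq ?_
  filter_upwards [Ioo_mem_nhds (hm t).1 (hm t).2] with s hs using he _ s hs

/-- comparison -/
theorem cmp (F : ℝ → ℝ → ℝ) (K : ℝ≥0) (hK : ∀ t, LipschitzWith K (F t)) (f g f' g' : ℝ → ℝ)
    (a : ℝ) (hf : ∀ t, HasDerivAt f (f' t) t) (hg : ∀ t, HasDerivAt g (g' t) t)
    (h1 : ∀ t, a ≤ t → f' t ≤ F t (f t)) (h2 : ∀ t, a ≤ t → F t (g t) ≤ g' t) (h0 : f a ≤ g a) :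
    ∀ t, a ≤ t → f t ≤ g t := by
  intro b hb
  have key : ∀ η : ℝ, 0 < η → f b - g b ≤ η * exp ((K + 1) * (b - a)) := by
    intro η hη
    have hB : ∀ x, HasDerivAt (fun x => η * exp ((K + 1) * (x - a)))
        (η * (exp ((K + 1) * (x - a)) * (K + 1))) x := by
      intro x
      have := (((hasDerivAt_id x).sub_const a).const_mul ((K : ℝ) + 1)).exp.const_mul η
      simpa using this
    refine image_le_of_deriv_right_lt_deriv_boundary (f := fun t => f t - g t)
      (f' := fun t => f' t - g' t) (a := a) (b := b)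
      (fun x _ => ((hf x).sub (hg x)).continuousAt.continuousWithinAt)
      (fun x _ => ((hf x).sub (hg x)).hasDerivWithinAt) (by simp; linarith) hB ?_ ⟨hb, le_rfl⟩
    intro x hx he
    have hp : 0 < η * exp ((K + 1) * (x - a)) := by positivity
    have h3 := (hK x).dist_le_mul (f x) (g x)
    rw [Real.dist_eq, Real.dist_eq, he, abs_of_pos hp] at h3
    have := le_abs_self (F x (f x) - F x (g x))
    have := h1 x hx.1
    have := h2 x hx.1
    nlinarith
  by_contra hne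
  push Not at hne
  have hE : 0 < exp (((K : ℝ) + 1) * (b - a)) := exp_pos _
  have := key ((f b - g b) / (2 * exp (((K : ℝ) + 1) * (b - a)))) (by
    have : 0 < f b - g b := by linarith
    positivity)
  rw [div_mul_eq_mul_div, le_div_iff₀ (by positivity)] at this
  nlinarith

theorem per (G : ℝ → ℝ) (hG : ContDiff ℝ 1 G) (hp : Function.Periodic G (2 * π)) :
    ∃ K : ℝ≥0, LipschitzWith K G ∧ ∀ x, |G x| ≤ K := by
  have hp' : Function.Periodic (deriv G) (2 * π) := by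
    intro x
    have : (fun y => G (y + 2 * π)) = G := funext hp
    rw [← deriv_comp_add_const, this]
  have hne : (2 * π) ≠ 0 := by positivity
  obtain ⟨C1, h1⟩ := (hp.isBounded_of_continuous hne hG.continuous).exists_norm_le
  obtain ⟨C2, h2⟩ := (hp'.isBounded_of_continuous hne (hG.continuous_deriv le_rfl)).exists_norm_le
  refine ⟨⟨|C1| + |C2|, by positivity⟩, ?_, fun x => ?_⟩
  · refine lipschitzWith_of_nnnorm_deriv_le (hG.differentiable one_ne_zero) fun x => ?_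
    have := h2 _ ⟨x, rfl⟩
    change ‖deriv G x‖ ≤ |C1| + |C2|
    linarith [le_abs_self C2, abs_nonneg C1]
  · have := h1 _ ⟨x, rfl⟩
    change |G x| ≤ |C1| + |C2|
    rw [Real.norm_eq_abs] at this
    linarith [le_abs_self C1, abs_nonneg C2]

noncomputable def D (e x : ℝ) : ℝ := sin x ^ 2 + e * cos x ^ 2

noncomputable def F (e k a x : ℝ) : ℝ :=
  (e * k + (7 - e) * sin x ^ 2 - 6 * sinh a * (sin x * cos x)) / (2 * cosh a * D e x)

theorem D_ge {e : ℝ} (h1 : e ≤ 1) (x : ℝ) : e ≤ D e x := by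
  unfold D
  nlinarith [sin_sq_add_cos_sq x, sq_nonneg (sin x)]

theorem abs_sinh_le (a : ℝ) : |sinh a| ≤ cosh a := by
  refine abs_le_of_sq_le_sq' ?_ (cosh_pos a).le |> abs_le.2
  nlinarith [cosh_sq a]

theorem F_lip {e : ℝ} (h0 : 0 < e) (h1 : e ≤ 1) (k : ℝ) :
    ∃ K : ℝ≥0, (∀ a, LipschitzWith K (F e k a)) ∧ ∀ a x, ‖F e k a x‖ ≤ K := by
  have hD : ∀ x, D e x ≠ 0 := fun x => (h0.trans_le (D_ge h1 x)).ne'
  have hDc : ContDiff ℝ 1 (D e) := by unfold D; fun_prop
  obtain ⟨K1, l1, b1⟩ := per (fun x => (e * k + (7 - e) * sin x ^ 2) / D e x)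
    (ContDiff.div (by fun_prop) hDc hD) (fun x => by simp [D])
  obtain ⟨K2, l2, b2⟩ := per (fun x => (sin x * cos x) / D e x)
    (ContDiff.div (by fun_prop) hDc hD) (fun x => by simp [D])
  have hF : ∀ a x, F e k a x = (1 / (2 * cosh a)) * ((e * k + (7 - e) * sin x ^ 2) / D e x)
      - (3 * sinh a / cosh a) * ((sin x * cos x) / D e x) := by
    intro a x
    have := hD x
    have := (cosh_pos a).ne'
    unfold F
    field_simp
    ring
  have c1 : ∀ a, |1 / (2 * cosh a)| ≤ 1 := by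
    intro a
    have := one_le_cosh a
    rw [abs_of_pos (by positivity), div_le_one (by positivity)]
    linarith
  have c2 : ∀ a, |3 * sinh a / cosh a| ≤ 3 := by
    intro a
    rw [abs_div, abs_of_pos (cosh_pos a), div_le_iff₀ (cosh_pos a), abs_mul]
    have := abs_sinh_le a
    norm_num
    linarith
  refine ⟨K1 + 3 * K2, fun a => LipschitzWith.of_dist_le_mul fun x y => ?_, fun a x => ?_⟩
  · have e1 := l1.dist_le_mul x y
    have e2 := l2.dist_le_mul x y
    rw [Real.dist_eq] at e1 e2 ⊢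
    rw [hF, hF]
    set u := (e * k + (7 - e) * sin x ^ 2) / D e x
    set u' := (e * k + (7 - e) * sin y ^ 2) / D e y
    set v := (sin x * cos x) / D e x
    set v' := (sin y * cos y) / D e y
    have : 1 / (2 * cosh a) * u - 3 * sinh a / cosh a * v -
      (1 / (2 * cosh a) * u' - 3 * sinh a / cosh a * v') =
      1 / (2 * cosh a) * (u - u') - 3 * sinh a / cosh a * (v - v') := by ring
    rw [this]
    refine (abs_sub _ _).trans ?_
    rw [abs_mul, abs_mul]
    have := mul_le_mul (c1 a) e1 (abs_nonneg _) zero_le_one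
    have := mul_le_mul (c2 a) e2 (abs_nonneg _) (by norm_num)
    push_cast
    linarith
  · rw [hF, Real.norm_eq_abs]
    refine (abs_sub _ _).trans ?_
    rw [abs_mul, abs_mul]
    have := mul_le_mul (c1 a) (b1 x) (abs_nonneg _) zero_le_one
    have := mul_le_mul (c2 a) (b2 x) (abs_nonneg _) (by norm_num)
    push_cast
    linarith

theorem F_cont {e : ℝ} (h0 : 0 < e) (h1 : e ≤ 1) (k : ℝ) (ψ : ℝ → ℝ) (hψ : Continuous ψ) :
    Continuous fun a => F e k a (ψ a) := by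
  unfold F
  refine Continuous.div (by fun_prop) (by unfold D; fun_prop) fun a => ?_
  have := h0.trans_le (D_ge h1 (ψ a))
  have := cosh_pos a
  positivity

theorem F_arctan {e : ℝ} (h0 : 0 < e) (k a y : ℝ) : F e k a (arctan y) =
    (e * k * (1 + y ^ 2) + (7 - e) * y ^ 2 - 6 * sinh a * y) / (2 * cosh a * (y ^ 2 + e)) := by
  have hs : sin (arctan y) = y * cos (arctan y) := by rw [sin_arctan, cos_arctan]; ring
  have hc := cos_sq_arctan y
  have := cosh_pos a
  unfold F D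
  rw [hs]
  have e1 : (y * cos (arctan y)) ^ 2 = y ^ 2 * (1 / (1 + y ^ 2)) := by rw [mul_pow, hc]
  have e2 : y * cos (arctan y) * cos (arctan y) = y * (1 / (1 + y ^ 2)) := by rw [← hc]; ring
  rw [e1, e2, hc]
  field_simp

theorem F_sub {e : ℝ} (h0 : 0 < e) (h1 : e ≤ 1) (k k' a x : ℝ) :
    dist (F e k' a x) (F e k a x) ≤ |k' - k| := by
  have hD := D_ge h1 x
  have hD0 := h0.trans_le hD
  have hc := one_le_cosh a
  have : F e k' a x - F e k a x = (k' - k) * (e / (2 * cosh a * D e x)) := by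
    unfold F; field_simp; ring
  rw [Real.dist_eq, this, abs_mul]
  refine mul_le_of_le_one_right (abs_nonneg _) ?_
  rw [abs_of_pos (by positivity), div_le_one (by positivity)]
  nlinarith

end Pool.Agent.H92.PH
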