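import Mathlib
import Pool.Agent.H92.PH1

namespace Pool.Agent.H92.AM

open Set Filter Topology Real Pool.Agent.H92.PH
open scoped NNReal

theorem cmpI (F : ℝ → ℝ → ℝ) (K : ℝ≥0) (hK : ∀ t, LipschitzWith K (F t)) (f g f' g' : ℝ → ℝ)
    (a b : ℝ) (hb : a ≤ b) (hf : ∀ t, HasDerivAt f (f' t) t) (hg : ∀ t, HasDerivAt g (g' t) t)
    (h1 : ∀ t, a ≤ t → t ≤ b → f' t ≤ F t (f t)) (h2 : ∀ t, a ≤ t → t ≤ b → F t (g t) ≤ g' t)
    (h0 : f a ≤ g a) : f b ≤ g b := by
  have key : ∀ η : ℝ, 0 < η → f b - g b ≤ η * exp ((K + 1) * (b - a)) := by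
    intro η hη
    have hB : ∀ x, HasDerivAt (fun x => η * exp ((K + 1) * (x - a)))
        (η * (exp ((K + 1) * (x - a)) * (K + 1))) x := by
      intro x
      have := (((hasDerivAt_id x).sub_const a).const_mul ((K : ℝ) + 1)).exp.const_mul η
      simpa using this
    refine image_le_of_deriv_right_lt_deriv_boundary (f := fun t => f t - g t)
      (f' := fun t => f' t - g' t) (a := a) (b := b)
      (fun x _ => ((hf x).sub (hg x)).continuousAt.continuousWithinAt)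
      (fun x _ => ((hf x).sub (hg x)).hasDerivWithinAt) (by simp; linarith) hB ?_ ⟨hb, le_rfl⟩
    intro x hx he
    have hp : 0 < η * exp ((K + 1) * (x - a)) := by positivity
    have h3 := (hK x).dist_le_mul (f x) (g x)
    rw [Real.dist_eq, Real.dist_eq, he, abs_of_pos hp] at h3
    have := le_abs_self (F x (f x) - F x (g x))
    have := h1 x hx.1 hx.2.le
    have := h2 x hx.1 hx.2.le
    nlinarith
  by_contra hne
  push Not at hne
  have hE : 0 < exp (((K : ℝ) + 1) * (b - a)) := exp_pos _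
  have := key ((f b - g b) / (2 * exp (((K : ℝ) + 1) * (b - a)))) (by
    have : 0 < f b - g b := by linarith
    positivity)
  rw [div_mul_eq_mul_div, le_div_iff₀ (by positivity)] at this
  nlinarith

noncomputable def DD (x : ℝ) : ℝ := cos x ^ 2 + 3 * sin x ^ 2

noncomputable def FF (k a x : ℝ) : ℝ :=
  (3 * k + 99996 * cos x ^ 2 + 99998 * sinh a * (sin x * cos x)) / (cosh a * DD x)

theorem DD_ge (x : ℝ) : 1 ≤ DD x := by
  unfold DD
  nlinarith [sin_sq_add_cos_sq x, sq_nonneg (sin x)]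

theorem DD_pos (x : ℝ) : 0 < DD x := zero_lt_one.trans_le (DD_ge x)

theorem FF_lip (k : ℝ) :
    ∃ K : ℝ≥0, (∀ a, LipschitzWith K (FF k a)) ∧ ∀ a x, ‖FF k a x‖ ≤ K := by
  have hD : ∀ x, DD x ≠ 0 := fun x => (DD_pos x).ne'
  have hDc : ContDiff ℝ 1 DD := by unfold DD; fun_prop
  obtain ⟨K1, l1, b1⟩ := per (fun x => (3 * k + 99996 * cos x ^ 2) / DD x)
    (ContDiff.div (by fun_prop) hDc hD) (fun x => by simp [DD])
  obtain ⟨K2, l2, b2⟩ := per (fun x => 99998 * (sin x * cos x) / DD x)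
    (ContDiff.div (by fun_prop) hDc hD) (fun x => by simp [DD])
  have hF : ∀ a x, FF k a x = (1 / cosh a) * ((3 * k + 99996 * cos x ^ 2) / DD x)
      + (sinh a / cosh a) * (99998 * (sin x * cos x) / DD x) := by
    intro a x
    have := hD x
    have := (cosh_pos a).ne'
    unfold FF
    field_simp
  have c1 : ∀ a, |1 / cosh a| ≤ 1 := by
    intro a
    have := one_le_cosh a
    rw [abs_of_pos (by positivity), div_le_one (by positivity)]
    linarith
  have c2 : ∀ a, |sinh a / cosh a| ≤ 1 := by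
    intro a
    rw [abs_div, abs_of_pos (cosh_pos a), div_le_one (cosh_pos a)]
    exact abs_sinh_le a
  refine ⟨K1 + K2, fun a => LipschitzWith.of_dist_le_mul fun x y => ?_, fun a x => ?_⟩
  · have e1 := l1.dist_le_mul x y
    have e2 := l2.dist_le_mul x y
    rw [Real.dist_eq] at e1 e2 ⊢
    rw [hF, hF]
    set u := (3 * k + 99996 * cos x ^ 2) / DD x
    set u' := (3 * k + 99996 * cos y ^ 2) / DD y
    set v := 99998 * (sin x * cos x) / DD x
    set v' := 99998 * (sin y * cos y) / DD y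
    have : 1 / cosh a * u + sinh a / cosh a * v - (1 / cosh a * u' + sinh a / cosh a * v') =
      1 / cosh a * (u - u') + sinh a / cosh a * (v - v') := by ring
    rw [this]
    refine (abs_add_le _ _).trans ?_
    rw [abs_mul, abs_mul]
    have := mul_le_mul (c1 a) e1 (abs_nonneg _) zero_le_one
    have := mul_le_mul (c2 a) e2 (abs_nonneg _) zero_le_one
    push_cast
    linarith
  · rw [hF, Real.norm_eq_abs]
    refine (abs_add_le _ _).trans ?_
    rw [abs_mul, abs_mul]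
    have := mul_le_mul (c1 a) (b1 x) (abs_nonneg _) zero_le_one
    have := mul_le_mul (c2 a) (b2 x) (abs_nonneg _) zero_le_one
    push_cast
    linarith

theorem FF_cont (k : ℝ) (ψ : ℝ → ℝ) (hψ : Continuous ψ) : Continuous fun a => FF k a (ψ a) := by
  unfold FF
  refine Continuous.div (by fun_prop) (by unfold DD; fun_prop) fun a => ?_
  have := DD_pos (ψ a)
  have := cosh_pos a
  positivity

theorem FF_sub (k k' a x : ℝ) : dist (FF k' a x) (FF k a x) ≤ 3 * |k' - k| := by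
  have hD := DD_ge x
  have hc := one_le_cosh a
  have : FF k' a x - FF k a x = (k' - k) * (3 / (cosh a * DD x)) := by
    unfold FF; field_simp; ring
  rw [Real.dist_eq, this, abs_mul, mul_comm]
  refine mul_le_mul_of_nonneg_right ?_ (abs_nonneg _)
  rw [abs_of_pos (by positivity), div_le_iff₀ (by positivity)]
  nlinarith

theorem cos_gd (a : ℝ) : cos (arctan (sinh a)) = 1 / cosh a := by
  rw [cos_arctan, add_comm, ← cosh_sq, sqrt_sq (cosh_pos a).le]

/-- trigonometric values at `arctan T + arctan (sinh a)` -/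
theorem trig (T a : ℝ) : ∃ g : ℝ, 0 < g ∧ g ^ 2 * (1 + T ^ 2) = 1 ∧ g = cos (arctan T) ∧
    cos (arctan T + arctan (sinh a)) = g * (1 - sinh a * T) / cosh a ∧
    sin (arctan T + arctan (sinh a)) = g * (T + sinh a) / cosh a := by
  have hs : ∀ y, sin (arctan y) = y * cos (arctan y) := fun y => by
    rw [sin_arctan, cos_arctan]; ring
  refine ⟨cos (arctan T), cos_arctan_pos T, ?_, rfl, ?_, ?_⟩
  · rw [cos_sq_arctan]; field_simp
  · rw [cos_add, hs, hs, cos_gd]; ring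
  · rw [sin_add, hs, hs, cos_gd]; ring

def Den (S T : ℝ) : ℝ := (1 + T ^ 2) * (1 + S ^ 2) + 2 * (T + S) ^ 2

def Ep (κ ν S T : ℝ) : ℝ :=
  ((1 + T ^ 2) * (κ * S * T + κ + 99998) + 2 * κ * (2 * T ^ 2 + S * T + 1)) * (1 - S * T) +
    (κ * T ^ 2 - ν) * Den S T

theorem Den_pos (S T : ℝ) : 0 < Den S T := by unfold Den; positivity

noncomputable def bar (ν τ a : ℝ) : ℝ := arctan (ν * sinh a + τ) + arctan (sinh a)

noncomputable def dbar (ν τ a : ℝ) : ℝ :=
  1 / (1 + (ν * sinh a + τ) ^ 2) * (ν * cosh a) + 1 / (1 + sinh a ^ 2) * cosh a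

theorem bar_d (ν τ a : ℝ) : HasDerivAt (bar ν τ) (dbar ν τ a) a :=
  (((hasDerivAt_sinh a).const_mul ν).add_const τ).arctan.add (hasDerivAt_sinh a).arctan

theorem DD_eq (T a g : ℝ) (x : ℝ) (h1 : cos x = g * (1 - sinh a * T) / cosh a)
    (h2 : sin x = g * (T + sinh a) / cosh a) :
    DD x = g ^ 2 * Den (sinh a) T / cosh a ^ 2 := by
  have := (cosh_pos a).ne'
  rw [DD, h1, h2, Den]
  field_simp
  ring

theorem bar_key (k ν τ a : ℝ) : FF k a (bar ν τ a) - dbar ν τ a =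
    cosh a * Ep (k - 1) ν (sinh a) (ν * sinh a + τ) /
      ((1 + (ν * sinh a + τ) ^ 2) * Den (sinh a) (ν * sinh a + τ)) := by
  obtain ⟨g, g0, g1, -, g2, g3⟩ := trig (ν * sinh a + τ) a
  have hc := (cosh_pos a).ne'
  have h2 := cosh_sq a
  rw [FF, bar, DD_eq _ a g _ g2 g3, g2, g3, dbar]
  set T := ν * sinh a + τ
  have hd := (Den_pos (sinh a) T).ne'
  have e1 : g ^ 2 = 1 / (1 + T ^ 2) := by rw [eq_div_iff (by positivity)]; exact g1
  have e2 : (g * (1 - sinh a * T) / cosh a) ^ 2 = g ^ 2 * (1 - sinh a * T) ^ 2 / cosh a ^ 2 := by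
    ring
  have e3 : g * (T + sinh a) / cosh a * (g * (1 - sinh a * T) / cosh a) =
      g ^ 2 * ((T + sinh a) * (1 - sinh a * T)) / cosh a ^ 2 := by ring
  rw [e2, e3, e1, h2]
  field_simp
  rw [h2]
  unfold Ep Den
  ring

theorem bar_sub {k ν τ a : ℝ} (h : 0 ≤ Ep (k - 1) ν (sinh a) (ν * sinh a + τ)) :
    dbar ν τ a ≤ FF k a (bar ν τ a) := by
  have := Den_pos (sinh a) (ν * sinh a + τ)
  have := cosh_pos a
  rw [← sub_nonneg, bar_key]
  positivity

theorem bar_super {k ν τ a : ℝ} (h : Ep (k - 1) ν (sinh a) (ν * sinh a + τ) ≤ 0) :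
    FF k a (bar ν τ a) ≤ dbar ν τ a := by
  have := Den_pos (sinh a) (ν * sinh a + τ)
  rw [← sub_nonpos, bar_key]
  exact div_nonpos_of_nonpos_of_nonneg (mul_nonpos_of_nonneg_of_nonpos (cosh_pos a).le h)
    (by positivity)

theorem bar_mono {ν ν' τ τ' a : ℝ} (ha : 0 ≤ a) (h1 : ν ≤ ν') (h2 : τ ≤ τ') :
    bar ν τ a ≤ bar ν' τ' a := by
  have := sinh_nonneg_iff.2 ha
  exact add_le_add_left (arctan_mono (by nlinarith)) _

theorem quart {c0 c1 c2 c3 c4 S S' : ℝ} (h0 : 0 ≤ c0) (h1 : 0 ≤ c1) (h3 : 0 ≤ c3)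
    (h4 : 0 ≤ c4) (hS : 0 ≤ S) (h : S ≤ S')
    (H : -c0 - c1 * S' - c2 * S' ^ 2 + c3 * S' ^ 3 + c4 * S' ^ 4 ≤ 0) :
    -c0 - c1 * S - c2 * S ^ 2 + c3 * S ^ 3 + c4 * S ^ 4 ≤ 0 := by
  rcases (hS.trans h).eq_or_lt with h' | h'
  · have : S = 0 := by linarith
    simp [this, h0]
  obtain ⟨l, rfl⟩ : ∃ l, S = l * S' := ⟨S / S', by field_simp⟩
  have l0 : 0 ≤ l := nonneg_of_mul_nonneg_left hS h'
  have l1 : l ≤ 1 := by nlinarith
  have a2 : l ^ 2 ≤ l := by nlinarith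
  have a3 : l ^ 3 ≤ l ^ 2 := by nlinarith
  have a4 : l ^ 4 ≤ l ^ 2 := by nlinarith
  have b0 := mul_le_mul_of_nonneg_left (a2.trans l1) h0
  have b1 := mul_le_mul_of_nonneg_left a2 (mul_nonneg h1 h'.le)
  have b3 := mul_le_mul_of_nonneg_left a3 (mul_nonneg h3 (pow_nonneg h'.le 3))
  have b4 := mul_le_mul_of_nonneg_left a4 (mul_nonneg h4 (pow_nonneg h'.le 4))
  have b5 := mul_nonpos_of_nonneg_of_nonpos (sq_nonneg l) H
  nlinarith

theorem Pup {κ S S' : ℝ} (k1 : 9 / 10 ≤ κ) (k2 : κ ≤ 1) (hS : 0 ≤ S) (h : S ≤ S')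
    (H : Ep κ 38000 S' (38000 * S' + 4) ≤ 0) : Ep κ 38000 S (38000 * S + 4) ≤ 0 := by
  have e : ∀ S, Ep κ 38000 S (38000 * S + 4) = -(162034 - 867 * κ) - (4264015864 - 31008000 * κ) * S
      - (20410860998000 - 424536000000 * κ) * S ^ 2 +
      (2633856000000000 * κ - 1732776896000000) * S ^ 3 +
      (6255408000000000000 * κ - 5487145128000000000) * S ^ 4 := fun S => by
    unfold Ep Den; ring
  rw [e] at H ⊢
  exact quart (by linarith) (by linarith) (by linarith) (by linarith) hS h H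

theorem Plow {κ ν S S' : ℝ} (k2 : κ ≤ 1) (hν : κ * ν = 33333) (n1 : 33333 ≤ ν) (n2 : ν ≤ 38000)
    (hS : 0 ≤ S) (h : S ≤ S') (H : 0 ≤ Ep κ ν S' (ν * S' + 0)) : 0 ≤ Ep κ ν S (ν * S + 0) := by
  have e : ∀ S, Ep κ ν S (ν * S + 0) = 99998 + 3 * κ - ν -
      ν * (100001 - ν * (99994 + 6 * κ - 3 * ν)) * S ^ 2 := fun S => by
    unfold Ep Den
    linear_combination (3 * ν ^ 3 * S ^ 4) * hν
  rw [e] at H ⊢
  have a1 : 0 ≤ 100001 - ν * (99994 + 6 * κ - 3 * ν) := by nlinarith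
  have a2 : 0 ≤ ν * (100001 - ν * (99994 + 6 * κ - 3 * ν)) := by positivity
  have := mul_le_mul_of_nonneg_left (pow_le_pow_left₀ hS h 2) a2
  linarith

noncomputable def nu (k : ℝ) : ℝ := 33333 / max (k - 1) (1 / 2)

theorem nu_spec {k : ℝ} (hk : k ∈ Icc (19 / 10 : ℝ) 2) :
    (k - 1) * nu k = 33333 ∧ 33333 ≤ nu k ∧ nu k ≤ 38000 := by
  have h : 0 < k - 1 := by linarith [hk.1]
  rw [nu, max_eq_left (by linarith [hk.1])]
  refine ⟨by field_simp, ?_, ?_⟩
  · rw [le_div_iff₀ h]; linarith [hk.2]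
  · rw [div_le_iff₀ h]; linarith [hk.1]

theorem shoot : ∃ (k : ℝ) (ψ : ℝ → ℝ), k ∈ Icc (19 / 10 : ℝ) 2 ∧
    ψ 0 = 0 ∧ (∀ a, HasDerivAt ψ (FF k a (ψ a)) a) ∧
    ∀ a, 0 ≤ a → bar (nu k) 0 a ≤ ψ a ∧ ψ a ≤ bar 38000 4 a := by
  choose K hK hL using FF_lip
  have hex : ∀ k, ∃ ψ : ℝ → ℝ, ψ 0 = 0 ∧ ∀ t, HasDerivAt ψ (FF k t (ψ t)) t := fun k =>
    glob (FF k) (K k) (K k) (hK k) (fun x => FF_cont k (fun _ => x) continuous_const) (hL k) 0
  choose ψ hψ0 hψ using hex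
  have hcont : ∀ a, 0 ≤ a → Continuous fun k => ψ k a := by
    intro a ha
    rw [continuous_iff_continuousAt]
    intro k
    have hb : ∀ k', dist (ψ k' a) (ψ k a) ≤ gronwallBound 0 (K k) (3 * |k' - k| + 0) (a - 0) := by
      intro k'
      refine dist_le_of_approx_trajectories_ODE (v := FF k) (hK k)
        (fun x _ => (hψ k' x).continuousAt.continuousWithinAt)
        (fun x _ => (hψ k' x).hasDerivWithinAt) (fun t _ => FF_sub k k' t _)
        (fun x _ => (hψ k x).continuousAt.continuousWithinAt)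
        (fun x _ => (hψ k x).hasDerivWithinAt) (fun t _ => by simp) (by simp [hψ0]) a ⟨ha, le_rfl⟩
    rw [ContinuousAt, tendsto_iff_dist_tendsto_zero]
    refine squeeze_zero (fun _ => dist_nonneg) hb ?_
    have hc : Continuous fun k' : ℝ => gronwallBound 0 (K k) (3 * |k' - k| + 0) (a - 0) :=
      (gronwallBound_continuous_ε 0 (K k) (a - 0)).comp (by fun_prop)
    have := hc.tendsto k
    simpa [gronwallBound_ε0_δ0] using this
  have low : ∀ k ν τ a b, a ≤ b → (∀ t, a ≤ t → t ≤ b → 0 ≤ Ep (k - 1) ν (sinh t) (ν * sinh t + τ)) →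
      bar ν τ a ≤ ψ k a → bar ν τ b ≤ ψ k b := fun k ν τ a b hab h h0 =>
    cmpI (FF k) (K k) (hK k) _ _ _ _ a b hab (bar_d ν τ) (hψ k)
      (fun t h1 h2 => bar_sub (h t h1 h2)) (fun _ _ _ => le_rfl) h0
  have up : ∀ k ν τ a b, a ≤ b → (∀ t, a ≤ t → t ≤ b → Ep (k - 1) ν (sinh t) (ν * sinh t + τ) ≤ 0) →
      ψ k a ≤ bar ν τ a → ψ k b ≤ bar ν τ b := fun k ν τ a b hab h h0 =>
    cmpI (FF k) (K k) (hK k) _ _ _ _ a b hab (hψ k) (bar_d ν τ)
      (fun _ _ _ => le_rfl) (fun t h1 h2 => bar_super (h t h1 h2)) h0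
  have b0 : ∀ ν, bar ν 0 0 = 0 := fun ν => by simp [bar]
  have b4 : ∀ ν, 0 ≤ bar ν 4 0 := fun ν => by simp [bar]
  have pA : ∀ k ∈ Icc (19 / 10 : ℝ) 2, ∀ a, 0 ≤ a → ψ k a < bar (nu k) 0 a →
      ∀ t, a ≤ t → ψ k t ≤ bar (nu k) 0 t := by
    intro k hk a ha h t ht
    obtain ⟨n0, n1, n2⟩ := nu_spec hk
    have P := fun S S' => @Plow (k - 1) (nu k) S S' (by linarith [hk.2]) n0 n1 n2
    by_cases hE : 0 ≤ Ep (k - 1) (nu k) (sinh a) (nu k * sinh a + 0)
    · exact absurd (low k _ 0 0 a ha (fun s h1 h2 => P _ _ (sinh_nonneg_iff.2 h1)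
        (sinh_le_sinh.2 h2) hE) (by rw [b0, hψ0])) (not_le.2 h)
    · refine up k _ 0 a t ht (fun s h1 _ => ?_) h.le
      by_contra h3
      exact hE (P _ _ (sinh_nonneg_iff.2 ha) (sinh_le_sinh.2 h1) (not_le.1 h3).le)
  have pB : ∀ k ∈ Icc (19 / 10 : ℝ) 2, ∀ a, 0 ≤ a → bar 38000 4 a < ψ k a →
      ∀ t, a ≤ t → bar 38000 4 t ≤ ψ k t := by
    intro k hk a ha h t ht
    have P := fun S S' => @Pup (k - 1) S S' (by linarith [hk.1]) (by linarith [hk.2])
    by_cases hE : Ep (k - 1) 38000 (sinh a) (38000 * sinh a + 4) ≤ 0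
    · exact absurd (up k _ 4 0 a ha (fun s h1 h2 => P _ _ (sinh_nonneg_iff.2 h1)
        (sinh_le_sinh.2 h2) hE) (by rw [hψ0]; exact b4 _)) (not_le.2 h)
    · refine low k _ 4 a t ht (fun s h1 _ => ?_) h.le
      by_contra h3
      exact hE (P _ _ (sinh_nonneg_iff.2 ha) (sinh_le_sinh.2 h1) (not_le.1 h3).le)
  have p2 : ∀ t, 0 ≤ t → bar (nu 2) 0 t ≤ ψ 2 t := by
    intro t ht
    refine (bar_mono ht (ν' := 100001 / 3) (by norm_num [nu]) le_rfl).trans
      (low 2 _ 0 0 t ht (fun s _ _ => ?_) (by rw [b0, hψ0]))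
    have : Ep (2 - 1) (100001 / 3) (sinh s) (100001 / 3 * sinh s + 0) =
        2 * (100001 / 3) * (1 - 100001 / 3 * sinh s ^ 2) ^ 2 := by unfold Ep Den; ring
    rw [this]; positivity
  have p1 : ∀ t, 0 ≤ t → ψ (19 / 10) t ≤ bar 38000 4 t := by
    intro t ht
    refine (up (19 / 10) 36000 4 0 t ht (fun s h1 _ => ?_) (by rw [hψ0]; exact b4 _)).trans
      (bar_mono ht (by norm_num) le_rfl)
    have h2 := sinh_nonneg_iff.2 h1
    set S := sinh s
    have : Ep (19 / 10 - 1) 36000 S (36000 * S + 4) = -632537 / 10 - 2285513464 * S -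
        10209251556000 * S ^ 2 + 460359936000000 * S ^ 3 - 130590144000000000 * S ^ 4 := by
      unfold Ep Den; ring
    rw [this]
    nlinarith [sq_nonneg (S - 100 * S ^ 2), sq_nonneg S, sq_nonneg (S ^ 2)]
  set A : Set ℝ := ⋃ a ∈ Ici (0 : ℝ), {k | ψ k a < bar (nu k) 0 a} with hA
  set B : Set ℝ := ⋃ a ∈ Ici (0 : ℝ), {k | bar 38000 4 a < ψ k a} with hB
  have cn : Continuous nu := continuous_const.div (by fun_prop) fun k =>
    (lt_max_of_lt_right (by norm_num)).ne'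
  have oA : IsOpen A := isOpen_biUnion fun a ha =>
    isOpen_lt (hcont a ha) (by unfold bar; fun_prop)
  have oB : IsOpen B := isOpen_biUnion fun a ha => isOpen_lt continuous_const (hcont a ha)
  by_contra hno
  push Not at hno
  have hcov : Icc (19 / 10 : ℝ) 2 ⊆ A ∪ B := by
    intro k hk
    obtain ⟨a, ha, hh⟩ := hno k (ψ k) hk (hψ0 k) (hψ k)
    by_cases h5 : bar (nu k) 0 a ≤ ψ k a
    · exact Or.inr (mem_biUnion (mem_Ici.2 ha) (hh h5))
    · exact Or.inl (mem_biUnion (mem_Ici.2 ha) (not_le.1 h5))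
  have m2 : (2 : ℝ) ∈ B := by
    rcases hcov ⟨by norm_num, le_rfl⟩ with h | h
    · simp only [hA, mem_iUnion, mem_ofPred_eq, mem_Ici] at h
      obtain ⟨a, ha, h⟩ := h
      exact absurd (p2 a ha) (not_le.2 h)
    · exact h
  have m1 : (19 / 10 : ℝ) ∈ A := by
    rcases hcov ⟨le_rfl, by norm_num⟩ with h | h
    · exact h
    · simp only [hB, mem_iUnion, mem_ofPred_eq, mem_Ici] at h
      obtain ⟨a, ha, h⟩ := h
      exact absurd (p1 a ha) (not_le.2 h)
  obtain ⟨k, hk, hkA, hkB⟩ := isPreconnected_Icc A B oA oB hcov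
    ⟨19 / 10, ⟨le_rfl, by norm_num⟩, m1⟩ ⟨2, ⟨by norm_num, le_rfl⟩, m2⟩
  simp only [hA, hB, mem_iUnion, mem_ofPred_eq, mem_Ici] at hkA hkB
  obtain ⟨a, ha, h2⟩ := hkA
  obtain ⟨b, hb, h3⟩ := hkB
  have hm : ∀ t, 0 ≤ t → bar (nu k) 0 t ≤ bar 38000 4 t := fun t ht =>
    bar_mono ht (nu_spec hk).2.2 (by norm_num)
  rcases le_total a b with h | h
  · linarith [pA k hk a ha h2 b h, hm b hb]
  · linarith [pB k hk b hb h3 a h, hm a ha]

end Pool.Agent.H92.AM
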