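import Mathlib
import Pool.Agent.H92.PH1

namespace Pool.Agent.H92.PH

open Set Filter Topology Real
open scoped NNReal

theorem gd_deriv (c a : ℝ) : HasDerivAt (fun a => arctan (c * sinh a))
    (1 / (1 + (c * sinh a) ^ 2) * (c * cosh a)) a :=
  ((hasDerivAt_sinh a).const_mul c).arctan

theorem super {e k a : ℝ} (h0 : 0 < e) (h : e * k * (1 + sinh a ^ 2) + (1 - e) * sinh a ^ 2 ≤
    2 * (sinh a ^ 2 + e)) :
    F e k a (arctan (1 * sinh a)) ≤ 1 / (1 + (1 * sinh a) ^ 2) * (1 * cosh a) := by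
  rw [F_arctan h0]
  have hc := cosh_pos a
  have h2 := cosh_sq a
  simp only [one_mul]
  rw [div_le_iff₀ (by positivity)]
  have : 1 / (1 + sinh a ^ 2) * cosh a * (2 * cosh a * (sinh a ^ 2 + e)) =
      2 * (sinh a ^ 2 + e) := by
    field_simp
    rw [h2]; ring
  rw [this]
  nlinarith

theorem super_ne {e a : ℝ} (h0 : 0 < e) (ha : 1 ≤ sinh a) (h1 : e < 1) :
    F e 2 a (arctan (1 * sinh a)) ≠ 1 / (1 + (1 * sinh a) ^ 2) * (1 * cosh a) := by
  rw [F_arctan h0]
  have hc := cosh_pos a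
  have h2 := cosh_sq a
  simp only [one_mul]
  rw [Ne, div_eq_iff (by positivity)]
  have : 1 / (1 + sinh a ^ 2) * cosh a * (2 * cosh a * (sinh a ^ 2 + e)) =
      2 * (sinh a ^ 2 + e) := by
    field_simp
    rw [h2]; ring
  rw [this]
  intro h
  have : 0 < (1 - e) * sinh a ^ 2 := mul_pos (by linarith) (by positivity)
  nlinarith

theorem sub3 {e a : ℝ} (h0 : 0 < e) :
    1 / (1 + (3 / 2 * sinh a) ^ 2) * (3 / 2 * cosh a) ≤ F e 3 a (arctan (3 / 2 * sinh a)) := by
  rw [F_arctan h0]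
  have hc := cosh_pos a
  have h2 := cosh_sq a
  rw [le_div_iff₀ (by positivity)]
  have : 1 / (1 + (3 / 2 * sinh a) ^ 2) * (3 / 2 * cosh a) *
      (2 * cosh a * ((3 / 2 * sinh a) ^ 2 + e)) =
      3 * (sinh a ^ 2 + 1) * ((3 / 2 * sinh a) ^ 2 + e) / (1 + (3 / 2 * sinh a) ^ 2) := by
    rw [← h2]
    field_simp
  rw [this, div_le_iff₀ (by positivity)]
  set S := sinh a
  have := sq_nonneg S
  have := sq_nonneg (S ^ 2)
  have := mul_nonneg h0.le (sq_nonneg S)
  have := mul_nonneg h0.le (sq_nonneg (S ^ 2))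
  nlinarith

theorem shoot {e : ℝ} (h0 : 0 < e) (h1 : e ≤ 1 / 3) : ∃ (k : ℝ) (ψ : ℝ → ℝ), 2 < k ∧ k ≤ 3 ∧
    ψ 0 = 0 ∧ (∀ a, HasDerivAt ψ (F e k a (ψ a)) a) ∧
    ∀ a, 1 ≤ a → arctan (1 * sinh a) ≤ ψ a ∧ ψ a ≤ π / 2 := by
  have h1' : e ≤ 1 := by linarith
  choose K hK hL using F_lip h0 h1'
  have hex : ∀ k, ∃ ψ : ℝ → ℝ, ψ 0 = 0 ∧ ∀ t, HasDerivAt ψ (F e k t (ψ t)) t := fun k =>
    glob (F e k) (K k) (K k) (hK k) (fun x => F_cont h0 h1' k (fun _ => x) continuous_const)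
      (hL k) 0
  choose ψ hψ0 hψ using hex
  have hcont : ∀ a, 0 ≤ a → Continuous fun k => ψ k a := by
    intro a ha
    rw [continuous_iff_continuousAt]
    intro k
    have hb : ∀ k', dist (ψ k' a) (ψ k a) ≤ gronwallBound 0 (K k) (|k' - k| + 0) (a - 0) := by
      intro k'
      refine dist_le_of_approx_trajectories_ODE (v := F e k) (hK k)
        (fun x _ => (hψ k' x).continuousAt.continuousWithinAt)
        (fun x _ => (hψ k' x).hasDerivWithinAt) (fun t _ => F_sub h0 h1' k k' t _)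
        (fun x _ => (hψ k x).continuousAt.continuousWithinAt)
        (fun x _ => (hψ k x).hasDerivWithinAt) (fun t _ => by simp) (by simp [hψ0]) a ⟨ha, le_rfl⟩
    rw [ContinuousAt, tendsto_iff_dist_tendsto_zero]
    refine squeeze_zero (fun _ => dist_nonneg) hb ?_
    have hc : Continuous fun k' : ℝ => gronwallBound 0 (K k) (|k' - k| + 0) (a - 0) :=
      (gronwallBound_continuous_ε 0 (K k) (a - 0)).comp (by fun_prop)
    have := hc.tendsto k
    simpa [gronwallBound_ε0_δ0] using this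
  have hS : ∀ a, 1 ≤ a → 1 ≤ sinh a := fun a ha =>
    ha.trans (self_le_sinh_iff.2 (by linarith))
  -- persistence
  have pA : ∀ k ∈ Icc (2 : ℝ) 3, ∀ a, 1 ≤ a → ψ k a ≤ arctan (1 * sinh a) →
      ∀ t, a ≤ t → ψ k t ≤ arctan (1 * sinh t) := by
    intro k hk a ha h
    refine cmp (F e k) (K k) (hK k) _ _ _ _ a (hψ k) (gd_deriv 1) (fun _ _ => le_rfl)
      (fun t ht => super h0 ?_) h
    have h3 := hS t (ha.trans ht)
    have h4 : 1 ≤ sinh t ^ 2 := by nlinarith
    have h5 : e * k ≤ e * 3 := mul_le_mul_of_nonneg_left hk.2 h0.le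
    have h6 : e * k * (1 + sinh t ^ 2) ≤ e * 3 * (1 + sinh t ^ 2) :=
      mul_le_mul_of_nonneg_right h5 (by positivity)
    nlinarith
  have pB : ∀ k ∈ Icc (2 : ℝ) 3, ∀ a, π / 2 ≤ ψ k a → ∀ t, a ≤ t → π / 2 ≤ ψ k t := by
    intro k hk a h
    refine cmp (F e k) (K k) (hK k) (fun _ => π / 2) _ (fun _ => 0) _ a
      (fun t => hasDerivAt_const t _) (hψ k) (fun t _ => ?_) (fun _ _ => le_rfl) h
    have := cosh_pos t
    have : 0 ≤ e * k := mul_nonneg h0.le (by linarith [hk.1])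
    simp only [F, D, sin_pi_div_two, cos_pi_div_two]
    refine div_nonneg (by linarith) (by positivity)
  have p2 : ∀ t, 0 ≤ t → ψ 2 t ≤ arctan (1 * sinh t) := by
    refine cmp (F e 2) (K 2) (hK 2) _ _ _ _ 0 (hψ 2) (gd_deriv 1) (fun _ _ => le_rfl)
      (fun t _ => super h0 ?_) (by simp [hψ0])
    nlinarith [mul_nonneg (sub_nonneg.2 h1') (sq_nonneg (sinh t))]
  have p3 : ∀ t, 0 ≤ t → arctan (1 * sinh t) ≤ ψ 3 t := by
    intro t ht
    refine le_trans (arctan_mono ?_) (cmp (F e 3) (K 3) (hK 3) _ _ _ _ 0 (gd_deriv (3 / 2)) (hψ 3)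
      (fun t _ => sub3 h0) (fun _ _ => le_rfl) (by simp [hψ0]) t ht)
    have := sinh_nonneg_iff.2 ht
    linarith
  set A : Set ℝ := ⋃ a ∈ Ici (1 : ℝ), {k | ψ k a < arctan (1 * sinh a)} with hA
  set B : Set ℝ := ⋃ a ∈ Ici (1 : ℝ), {k | π / 2 < ψ k a} with hB
  have oA : IsOpen A := isOpen_biUnion fun a ha =>
    isOpen_lt (hcont a (by linarith [mem_Ici.1 ha])) continuous_const
  have oB : IsOpen B := isOpen_biUnion fun a ha =>
    isOpen_lt continuous_const (hcont a (by linarith [mem_Ici.1 ha]))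
  have m2 : (2 : ℝ) ∈ A := by
    by_contra hn
    simp only [hA, mem_iUnion, mem_ofPred_eq, not_exists, not_lt, mem_Ici] at hn
    have hev : ψ 2 =ᶠ[𝓝 2] fun a => arctan (1 * sinh a) := by
      filter_upwards [Ioi_mem_nhds (show (1 : ℝ) < 2 by norm_num)] with a ha
      exact le_antisymm (p2 a (by linarith [mem_Ioi.1 ha])) (hn a (le_of_lt ha))
    have := (hψ 2 2).unique ((gd_deriv 1 2).congr_of_eventuallyEq hev)
    rw [hev.eq_of_nhds] at this
    exact super_ne h0 (hS 2 (by norm_num)) (by linarith) this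
  by_contra hno
  push Not at hno
  have hcov : Icc (2 : ℝ) 3 ⊆ A ∪ B := by
    intro k hk
    rcases hk.1.eq_or_lt with h | h
    · exact Or.inl (h ▸ m2)
    obtain ⟨a, ha, hh⟩ := hno k (ψ k) h hk.2 (hψ0 k) (hψ k)
    by_cases h5 : arctan (1 * sinh a) ≤ ψ k a
    · exact Or.inr (mem_biUnion (mem_Ici.2 ha) (hh h5))
    · exact Or.inl (mem_biUnion (mem_Ici.2 ha) (not_le.1 h5))
  have m3 : (3 : ℝ) ∈ B := by
    rcases hcov ⟨by norm_num, le_rfl⟩ with h | h
    · simp only [hA, mem_iUnion, mem_ofPred_eq, mem_Ici] at h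
      obtain ⟨a, ha, h⟩ := h
      exact absurd (p3 a (by linarith)) (not_le.2 h)
    · exact h
  obtain ⟨k, hk, hkA, hkB⟩ := isPreconnected_Icc A B oA oB hcov
    ⟨2, ⟨le_rfl, by norm_num⟩, m2⟩ ⟨3, ⟨by norm_num, le_rfl⟩, m3⟩
  simp only [hA, hB, mem_iUnion, mem_ofPred_eq, mem_Ici] at hkA hkB
  obtain ⟨a, ha, h2⟩ := hkA
  obtain ⟨b, hb, h3⟩ := hkB
  rcases le_total a b with h | h
  · have := pA k hk a ha h2.le b h
    linarith [arctan_lt_pi_div_two (1 * sinh b)]
  · have := pB k hk b h3.le a h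
    linarith [arctan_lt_pi_div_two (1 * sinh a)]

noncomputable def Lf (e k a x : ℝ) : ℝ :=
  ((k - (7 + (k - 1) * e)) * (sin x * cos x) + 6 * sinh a * cos x ^ 2) / (2 * cosh a * D e x)

/-- the ODE data -/
structure Data (e : ℝ) where
  k : ℝ
  ψ : ℝ → ℝ
  R : ℝ → ℝ
  dψ : ℝ → ℝ
  L : ℝ → ℝ
  M : ℝ
  k2 : 2 < k
  k3 : k ≤ 3
  hψ : ∀ a, HasDerivAt ψ (dψ a) a
  hR : ∀ a, HasDerivAt R (L a) a
  cψ : Continuous dψ
  cL : Continuous L
  e1 : ∀ a, 2 * cosh a * (L a * sin (ψ a) + cos (ψ a) * dψ a) = k * cos (ψ a)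
  e2 : ∀ a, (7 + (k - 1) * e) * sin (ψ a) - 6 * sinh a * cos (ψ a) -
    2 * cosh a * sin (ψ a) * dψ a + 2 * e * cosh a * cos (ψ a) * L a = 0
  bd : ∀ a, R a ≤ M
  ne : sin (ψ 1) ≠ 0

theorem data {e : ℝ} (h0 : 0 < e) (h1 : e ≤ 1 / 3) : Nonempty (Data e) := by
  have h1' : e ≤ 1 := by linarith
  obtain ⟨k, ψ, k2, k3, h00, hψ, htr⟩ := shoot h0 h1
  obtain ⟨K, hK, -⟩ := F_lip h0 h1' k
  have cψ : Continuous ψ := continuous_iff_continuousAt.2 fun a => (hψ a).continuousAt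
  have hD : ∀ x, 0 < D e x := fun x => h0.trans_le (D_ge h1' x)
  have odd : ∀ a, ψ (-a) = -ψ a := by
    have : ψ = fun a => -ψ (-a) := by
      refine ODE_solution_unique_univ (v := F e k) (K := K) (s := fun _ => univ) (t₀ := 0)
        (fun t => (hK t).lipschitzOnWith) (fun t => ⟨hψ t, trivial⟩) (fun t => ⟨?_, trivial⟩)
        (by simp [h00])
      have h2 := ((hψ (-t)).comp t (hasDerivAt_neg t)).neg
      refine HasDerivAt.congr_deriv h2 ?_
      simp [F, D]
    intro a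
    have h3 := congrFun this (-a)
    simpa using h3
  have hcos1 : ∀ a, 1 ≤ a → |cos (ψ a)| * cosh a ≤ 1 := by
    intro a ha
    obtain ⟨h2, h3⟩ := htr a ha
    have h4 : 0 ≤ arctan (1 * sinh a) := by
      rw [arctan_nonneg]; have := sinh_nonneg_iff.2 (show 0 ≤ a by linarith); linarith
    have h5 : cos (ψ a) ≤ cos (arctan (1 * sinh a)) :=
      cos_le_cos_of_nonneg_of_le_pi h4 (by linarith [pi_pos]) h2
    have h6 : 0 ≤ cos (ψ a) := cos_nonneg_of_mem_Icc ⟨by linarith [pi_pos], h3⟩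
    rw [cos_arctan, one_mul, add_comm, ← cosh_sq, sqrt_sq (cosh_pos a).le,
      le_div_iff₀ (cosh_pos a)] at h5
    rwa [abs_of_nonneg h6]
  have hcos : ∀ a, |cos (ψ a)| * cosh a ≤ cosh 1 := by
    intro a
    by_cases ha : |a| ≤ 1
    · have : cosh a ≤ cosh 1 := cosh_le_cosh.2 (by simpa using ha)
      nlinarith [abs_cos_le_one (ψ a), abs_nonneg (cos (ψ a)), cosh_pos a]
    · refine le_trans ?_ (one_le_cosh 1)
      rcases le_total 0 a with h | h
      · exact hcos1 a (by rw [abs_of_nonneg h] at ha; linarith)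
      · have := hcos1 (-a) (by rw [abs_of_nonpos h] at ha; linarith)
        rwa [odd, cos_neg, cosh_neg] at this
  have cL : Continuous fun a => Lf e k a (ψ a) := by
    unfold Lf
    refine Continuous.div (by fun_prop) (by unfold D; fun_prop) fun a => ?_
    have := hD (ψ a)
    have := cosh_pos a
    positivity
  obtain ⟨M, hM⟩ : ∃ M : ℝ, ∀ a, |Lf e k a (ψ a)| ≤ M * (1 / (1 + (1 * sinh a) ^ 2) * (1 * cosh a)) := by
    refine ⟨(|k - (7 + (k - 1) * e)| + 6 * cosh 1 ^ 2) / (2 * e), fun a => ?_⟩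
    have hc := cosh_pos a
    have e3 : 1 / (1 + (1 * sinh a) ^ 2) * (1 * cosh a) = 1 / cosh a := by
      rw [one_mul, add_comm, ← cosh_sq]; field_simp
    rw [e3, Lf, abs_div, abs_of_pos (by have := hD (ψ a); positivity : 0 < 2 * cosh a * D e (ψ a)),
      div_mul_div_comm, mul_one]
    have h7 : |(k - (7 + (k - 1) * e)) * (sin (ψ a) * cos (ψ a)) + 6 * sinh a * cos (ψ a) ^ 2| ≤
        |k - (7 + (k - 1) * e)| + 6 * cosh 1 ^ 2 := by
      refine (abs_add_le _ _).trans (add_le_add ?_ ?_)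
      · rw [abs_mul, abs_mul]
        exact mul_le_of_le_one_right (abs_nonneg _)
          (mul_le_one₀ (abs_sin_le_one _) (abs_nonneg _) (abs_cos_le_one _))
      · rw [abs_mul, abs_mul, abs_pow]
        have h8 := abs_sinh_le a
        have h9 := hcos a
        have h10 := one_le_cosh a
        have h11 : (|cos (ψ a)| * cosh a) ^ 2 ≤ cosh 1 ^ 2 :=
          pow_le_pow_left₀ (by positivity) h9 2
        have h12 : |sinh a| ≤ cosh a ^ 2 := by nlinarith
        have h13 := mul_le_mul_of_nonneg_right h12 (sq_nonneg |cos (ψ a)|)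
        norm_num
        rw [← sq_abs (cos (ψ a))]
        nlinarith
    refine div_le_div₀ (by positivity) h7 (by positivity) ?_
    have := D_ge h1' (ψ a)
    nlinarith
  have hR : ∀ a, HasDerivAt (fun x => ∫ t in (0 : ℝ)..x, Lf e k t (ψ t)) (Lf e k a (ψ a)) a :=
    fun a => (cL.deriv_integral _ 0 a) ▸
      (intervalIntegral.integral_hasDerivAt_right (cL.intervalIntegrable _ _)
        (cL.stronglyMeasurableAtFilter _ _) cL.continuousAt).differentiableAt.hasDerivAt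
  refine ⟨⟨k, ψ, _, fun a => F e k a (ψ a), _, |M| * (π / 2), k2, k3, hψ, hR,
    F_cont h0 h1' k ψ cψ, cL, fun a => ?_, fun a => ?_, fun a => ?_, ?_⟩⟩
  · have := (hD (ψ a)).ne'
    have := (cosh_pos a).ne'
    have h3 := sin_sq_add_cos_sq (ψ a)
    unfold F Lf
    field_simp
    unfold D
    linear_combination (-(cos (ψ a)) * e * k) * h3
  · have := (hD (ψ a)).ne'
    have := (cosh_pos a).ne'
    have h3 := sin_sq_add_cos_sq (ψ a)
    unfold F Lf
    field_simp
    unfold D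
    linear_combination (sin (ψ a) * e * k) * h3
  · have hg : |arctan (1 * sinh a)| ≤ π / 2 :=
      abs_le.2 ⟨(neg_pi_div_two_lt_arctan _).le, (arctan_lt_pi_div_two _).le⟩
    have hg' : |M * arctan (1 * sinh a)| ≤ |M| * (π / 2) := by
      rw [abs_mul]; exact mul_le_mul_of_nonneg_left hg (abs_nonneg _)
    rcases le_total 0 a with h | h
    · have := antitone_of_hasDerivAt_nonpos (fun a => (hR a).sub ((gd_deriv 1 a).const_mul M))
        (fun a => sub_nonpos.2 ((le_abs_self _).trans (hM a))) h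
      simp at this
      have := le_abs_self (M * arctan (1 * sinh a))
      simp at *
      linarith
    · have := monotone_of_hasDerivAt_nonneg (fun a => (hR a).add ((gd_deriv 1 a).const_mul M))
        (fun a => by have := hM a; have := neg_abs_le (Lf e k a (ψ a)); simp at *; linarith) h
      simp at this
      have := neg_abs_le (M * arctan (1 * sinh a))
      simp at *
      linarith
  · obtain ⟨h2, h3⟩ := htr 1 le_rfl
    have h4 : 0 < arctan (1 * sinh 1) := by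
      rw [arctan_pos]; have := sinh_pos_iff.2 (show (0 : ℝ) < 1 by norm_num); linarith
    exact (sin_pos_of_pos_of_lt_pi (by linarith) (by linarith [pi_pos])).ne'

end Pool.Agent.H92.PH
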