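import Mathlib
import Pool.Agent.H92.AM1
import Pool.Agent.H92.PH2

namespace Pool.Agent.H92.AM

open Set Filter Topology Real Pool.Agent.H92.PH
open scoped NNReal

theorem ineq {κ S T : ℝ} (k1 : 9 / 10 ≤ κ) (k2 : κ ≤ 1) (hS : 0 ≤ S) (hT : 33333 * S ≤ κ * T) :
    ((1 + T ^ 2) * (99998 + κ) * S + 2 * κ * S - κ * T - 3 * κ * T ^ 3) / Den S T +
      (1 - κ) * S / (1 + S ^ 2) ≤ 1 / (1 + 50 * S) ^ 2 + 22 / 100 * S / (1 + S ^ 2) ^ 2 := by
  have hT0 : 0 ≤ T := by
    by_contra h
    nlinarith
  have hT1 : 33333 * S ≤ T := by nlinarith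
  have hD := Den_pos S T
  have a1 : (1 + T ^ 2) * (99998 + κ) * S + 2 * κ * S - κ * T - 3 * κ * T ^ 3 ≤
      66668 * S - (1 - κ) * S * T ^ 2 := by
    have := mul_le_mul_of_nonneg_left hT (sq_nonneg T)
    nlinarith
  have a2 : (66668 * S - (1 - κ) * S * T ^ 2) / Den S T + (1 - κ) * S / (1 + S ^ 2) =
      (66668 + (1 - κ)) * S / Den S T +
        (1 - κ) * S * (2 * (T + S) ^ 2) / ((1 + S ^ 2) * Den S T) := by
    field_simp
    unfold Den
    ring
  have hT2 : (33333 * S) ^ 2 ≤ T ^ 2 := pow_le_pow_left₀ (by positivity) hT1 2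
  have a3 : (66668 + (1 - κ)) * S / Den S T ≤ 1 / (1 + 50 * S) ^ 2 := by
    rw [div_le_div_iff₀ hD (by positivity)]
    have b1 : (66668 + (1 - κ)) * S * (1 + 50 * S) ^ 2 ≤ 66669 * S * (1 + 50 * S) ^ 2 := by
      gcongr; linarith
    have b2 : 1 + (33333 * S) ^ 2 * (3 + S ^ 2) ≤ Den S T := by
      have := mul_le_mul_of_nonneg_right hT2 (show 0 ≤ 3 + S ^ 2 by positivity)
      unfold Den
      nlinarith [mul_nonneg hS hT0]
    nlinarith [sq_nonneg (1 - 33335 * S), sq_nonneg (S - 10 * S ^ 2), sq_nonneg S,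
      sq_nonneg (S ^ 2)]
  have a4 : (1 - κ) * S * (2 * (T + S) ^ 2) / ((1 + S ^ 2) * Den S T) ≤
      22 / 100 * S / (1 + S ^ 2) ^ 2 := by
    rw [div_le_div_iff₀ (by positivity) (by positivity)]
    have b1 : (T + S) ^ 2 ≤ 11 / 10 * T ^ 2 := by nlinarith
    have b2 : T ^ 2 * (1 + S ^ 2) ≤ Den S T := by
      unfold Den; nlinarith [sq_nonneg (T + S), sq_nonneg S]
    have b3 : (1 - κ) * (2 * (T + S) ^ 2) ≤ 1 / 10 * (2 * (11 / 10 * T ^ 2)) :=
      mul_le_mul (by linarith) (by linarith) (by positivity) (by norm_num)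
    have b4 := mul_le_mul_of_nonneg_right b3 (show 0 ≤ 1 + S ^ 2 by positivity)
    have b5 : (1 - κ) * (2 * (T + S) ^ 2) * (1 + S ^ 2) ≤ 22 / 100 * Den S T := by nlinarith
    have := mul_le_mul_of_nonneg_left b5 (show 0 ≤ S * (1 + S ^ 2) by positivity)
    nlinarith
  have := div_le_div_of_nonneg_right a1 hD.le
  linarith

noncomputable def LL (k a x : ℝ) : ℝ :=
  ((99996 + 2 * k) * (sin x * cos x) + 99998 * sinh a * sin x ^ 2) / (cosh a * DD x)

structure Data where
  k : ℝ
  ψ : ℝ → ℝ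
  R : ℝ → ℝ
  dψ : ℝ → ℝ
  L : ℝ → ℝ
  M : ℝ
  Ri : ℝ
  k1 : 19 / 10 ≤ k
  k2 : k ≤ 2
  hψ : ∀ a, HasDerivAt ψ (dψ a) a
  hR : ∀ a, HasDerivAt R (L a) a
  cψ : Continuous dψ
  cL : Continuous L
  e1 : ∀ a, cosh a * (sin (ψ a) * dψ a - L a * cos (ψ a)) = k * sin (ψ a)
  e2 : ∀ a, cosh a * (3 * L a * sin (ψ a) + cos (ψ a) * dψ a) =
    (99996 + 3 * k) * cos (ψ a) + 99998 * sinh a * sin (ψ a)
  odd : ∀ a, ψ (-a) = -ψ a
  even : ∀ a, R (-a) = R a
  ψ0 : ψ 0 = 0
  R0 : R 0 = 0
  bd : ∀ a, R a ≤ M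
  lim : Tendsto (fun a => exp (R a) * ((sin (ψ a) - sinh a * cos (ψ a)) / cosh a)) atTop
    (𝓝 (exp Ri))
  bβ : ∀ a, |exp (R a) * (cos (ψ a) + sinh a * sin (ψ a))| ≤ 2
  bf : ∀ a, -(exp (R a) * cos (ψ a)) / k ≤ 22400 * (sinh a / cosh a) ^ 2 - 49 / 100

theorem data : Nonempty Data := by
  obtain ⟨k, ψ, hk, h00, hψ, htr⟩ := shoot
  obtain ⟨n0, n1, -⟩ := nu_spec hk
  obtain ⟨K, hK, -⟩ := FF_lip k
  have cψ : Continuous ψ := continuous_iff_continuousAt.2 fun a => (hψ a).continuousAt
  have odd : ∀ a, ψ (-a) = -ψ a := by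
    have : ψ = fun a => -ψ (-a) := by
      refine ODE_solution_unique_univ (v := FF k) (K := K) (s := fun _ => univ) (t₀ := 0)
        (fun t => (hK t).lipschitzOnWith) (fun t => ⟨hψ t, trivial⟩) (fun t => ⟨?_, trivial⟩)
        (by simp [h00])
      have h2 := ((hψ (-t)).comp t (hasDerivAt_neg t)).neg
      refine HasDerivAt.congr_deriv h2 ?_
      simp [FF, DD]
    intro a
    have h3 := congrFun this (-a)
    simpa using h3
  have rep : ∀ a, 0 ≤ a → ∃ T g : ℝ, nu k * sinh a ≤ T ∧ T ≤ 38000 * sinh a + 4 ∧ 0 < g ∧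
      g ^ 2 * (1 + T ^ 2) = 1 ∧ g = cos (arctan T) ∧
      cos (ψ a) = g * (1 - sinh a * T) / cosh a ∧ sin (ψ a) = g * (T + sinh a) / cosh a := by
    intro a ha
    obtain ⟨h1, h2⟩ := htr a ha
    unfold bar at h1 h2
    have h3 : arctan (tan (ψ a - arctan (sinh a))) = ψ a - arctan (sinh a) :=
      arctan_tan (by linarith [neg_pi_div_two_lt_arctan (nu k * sinh a + 0)])
        (by linarith [arctan_lt_pi_div_two (38000 * sinh a + 4)])
    obtain ⟨g, g0, g1, g2, g3, g4⟩ := trig (tan (ψ a - arctan (sinh a))) a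
    rw [h3, sub_add_cancel] at g3 g4
    refine ⟨_, g, ?_, ?_, g0, g1, g2, g3, g4⟩
    · rw [← arctan_strictMono.le_iff_le, h3]; rw [add_zero] at h1; linarith
    · rw [← arctan_strictMono.le_iff_le, h3]; linarith
  have hsin : ∀ a, |sin (ψ a)| * cosh a ≤ 2 := by
    have h : ∀ a, 0 ≤ a → |sin (ψ a)| * cosh a ≤ 2 := by
      intro a ha
      obtain ⟨T, g, t1, -, g0, g1, -, -, g4⟩ := rep a ha
      have hS := sinh_nonneg_iff.2 ha
      have t2 : sinh a ≤ T := by nlinarith
      have t3 : 0 ≤ T := hS.trans t2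
      have t4 : g * T ≤ 1 := by nlinarith [sq_nonneg (g * T - 1), sq_nonneg g]
      have := cosh_pos a
      rw [g4, abs_of_nonneg (by positivity), div_mul_cancel₀ _ this.ne']
      nlinarith
    intro a
    rcases le_total 0 a with ha | ha
    · exact h a ha
    · have := h (-a) (by linarith)
      rwa [odd, sin_neg, abs_neg, cosh_neg] at this
  have cL : Continuous fun a => LL k a (ψ a) := by
    unfold LL
    refine Continuous.div (by fun_prop) (by unfold DD; fun_prop) fun a => ?_
    have := DD_pos (ψ a)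
    have := cosh_pos a
    positivity
  have hM : ∀ a, |LL k a (ψ a)| ≤ 500000 * (1 / (1 + (1 * sinh a) ^ 2) * (1 * cosh a)) := by
    intro a
    have hc := cosh_pos a
    have e3 : 1 / (1 + (1 * sinh a) ^ 2) * (1 * cosh a) = 1 / cosh a := by
      rw [one_mul, add_comm, ← cosh_sq]; field_simp
    rw [e3, LL, abs_div, abs_of_pos (mul_pos hc (DD_pos _)), mul_one_div]
    have h7 : |(99996 + 2 * k) * (sin (ψ a) * cos (ψ a)) + 99998 * sinh a * sin (ψ a) ^ 2| ≤
        500000 := by
      refine (abs_add_le _ _).trans ?_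
      rw [abs_mul, abs_mul, abs_mul, abs_mul, abs_pow,
        abs_of_pos (by linarith [hk.1] : 0 < 99996 + 2 * k), abs_of_pos (by norm_num : (0 : ℝ) < 99998)]
      have h8 := abs_sinh_le a
      have h10 := one_le_cosh a
      have h11 : (|sin (ψ a)| * cosh a) ^ 2 ≤ 2 ^ 2 :=
        pow_le_pow_left₀ (by positivity) (hsin a) 2
      have h12 : |sinh a| ≤ cosh a ^ 2 := by nlinarith
      have h13 := mul_le_mul_of_nonneg_right h12 (sq_nonneg |sin (ψ a)|)
      have h14 : |sin (ψ a)| * |cos (ψ a)| ≤ 1 :=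
        mul_le_one₀ (abs_sin_le_one _) (abs_nonneg _) (abs_cos_le_one _)
      have h15 := mul_le_mul_of_nonneg_left h14 (by linarith [hk.1] : 0 ≤ 99996 + 2 * k)
      nlinarith [hk.2]
    refine div_le_div₀ (by positivity) h7 hc ?_
    have := DD_ge (ψ a)
    nlinarith
  set R : ℝ → ℝ := fun x => ∫ t in (0 : ℝ)..x, LL k t (ψ t) with hRd
  have hR : ∀ a, HasDerivAt R (LL k a (ψ a)) a := fun a =>
    intervalIntegral.integral_hasDerivAt_right (cL.intervalIntegrable _ _)
      (cL.stronglyMeasurableAtFilter _ _) cL.continuousAt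
  have R0 : R 0 = 0 := by simp [hRd]
  have even : ∀ a, R (-a) = R a := by
    have hd : ∀ a, HasDerivAt (fun a => R (-a) - R a) 0 a := fun a =>
      (((hR (-a)).comp a (hasDerivAt_neg a)).sub (hR a)).congr_deriv (by
        simp [LL, DD, odd]; ring)
    intro a
    have := is_const_of_deriv_eq_zero (fun a => (hd a).differentiableAt) (fun a => (hd a).deriv) a 0
    simp at this
    linarith
  have hanti := antitone_of_hasDerivAt_nonpos
    (fun a => (hR a).sub ((gd_deriv 1 a).const_mul 500000))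
    (fun a => sub_nonpos.2 ((le_abs_self _).trans (hM a)))
  have hmono := monotone_of_hasDerivAt_nonneg
    (fun a => (hR a).add ((gd_deriv 1 a).const_mul 500000))
    (fun a => by have := hM a; have := neg_abs_le (LL k a (ψ a)); simp at *; linarith)
  have bd : ∀ a, R a ≤ 500000 * (π / 2) := by
    have h : ∀ a, 0 ≤ a → R a ≤ 500000 * (π / 2) := by
      intro a ha
      have := hanti ha
      simp [R0] at this
      linarith [arctan_lt_pi_div_two (sinh a)]
    intro a
    rcases le_total 0 a with ha | ha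
    · exact h a ha
    · rw [← even]; exact h _ (by linarith)
  have tS : Tendsto sinh atTop atTop := tendsto_atTop_mono' _
    ((eventually_ge_atTop 0).mono fun a ha => self_le_sinh_iff.2 ha) tendsto_id
  have tg : Tendsto (fun a => arctan (sinh a)) atTop (𝓝 (π / 2)) :=
    (tendsto_nhds_of_tendsto_nhdsWithin tendsto_arctan_atTop).comp tS
  obtain ⟨Ri, hRi⟩ : ∃ Ri, Tendsto R atTop (𝓝 Ri) := by
    have h1 := tendsto_atTop_ciSup hmono ⟨500000 * (π / 2) + 500000 * (π / 2), by
      rintro _ ⟨a, rfl⟩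
      have := bd a
      have := arctan_lt_pi_div_two (1 * sinh a)
      simp only [Pi.add_apply]
      linarith⟩
    refine ⟨_, (h1.sub (tg.const_mul 500000)).congr fun a => ?_⟩
    simp
  have e1 : ∀ a, cosh a * (sin (ψ a) * FF k a (ψ a) - LL k a (ψ a) * cos (ψ a)) =
      k * sin (ψ a) := by
    intro a
    have := (DD_pos (ψ a)).ne'
    have := (cosh_pos a).ne'
    have h3 := sin_sq_add_cos_sq (ψ a)
    unfold FF LL
    field_simp
    unfold DD
    linear_combination (-(3 * sin (ψ a) * k)) * h3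
  have hk0 : 0 < k := by linarith [hk.1]
  have hβ : ∀ a, 0 ≤ a → 0 ≤ exp (R a) * (cos (ψ a) + sinh a * sin (ψ a)) ∧
      exp (R a) * (cos (ψ a) + sinh a * sin (ψ a)) ≤ 115 / 100 := by
    have hb : ∀ a, 0 ≤ a → 0 ≤ exp (R a) * (cos (ψ a) + sinh a * sin (ψ a)) := by
      intro a ha
      obtain ⟨T, g, -, -, g0, -, -, g3, g4⟩ := rep a ha
      have hc := cosh_pos a
      have : cos (ψ a) + sinh a * sin (ψ a) = g * (1 + sinh a ^ 2) / cosh a := by
        rw [g3, g4]; ring
      rw [this]; positivity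
    have hd : ∀ a, 0 ≤ a → ∃ w, w ≤ 0 ∧ HasDerivAt (fun a => exp (R a) * (cos (ψ a) + sinh a * sin (ψ a)) *
        (87 / 100 + 2 / 100 * (1 + 50 * sinh a)⁻¹ + 11 / 100 * (1 + sinh a ^ 2)⁻¹)) w a := by
      intro a ha
      have hS := sinh_nonneg_iff.2 ha
      have d1 := (hR a).exp.mul ((hψ a).cos.add ((hasDerivAt_sinh a).mul (hψ a).sin))
      have d2 := (((((hasDerivAt_sinh a).const_mul 50).const_add 1).inv
        (by positivity)).const_mul (2 / 100)).const_add (87 / 100) |>.add
        (((((hasDerivAt_sinh a).pow 2).const_add 1).inv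
          (show 1 + sinh a ^ 2 ≠ 0 by positivity)).const_mul (11 / 100))
      refine ⟨_, ?_, d1.mul d2⟩
      obtain ⟨T, g, t1, -, g0, g1, -, g3, g4⟩ := rep a ha
      have hc := cosh_pos a
      have h2 := cosh_sq a
      have hd := Den_pos (sinh a) T
      have i1 := ineq (κ := k - 1) (by linarith [hk.1]) (by linarith [hk.2]) hS (T := T) (by
        rw [← n0, mul_assoc]; exact mul_le_mul_of_nonneg_left t1 (by linarith [hk.1]))
      set X := ((1 + T ^ 2) * (99998 + (k - 1)) * sinh a + 2 * (k - 1) * sinh a - (k - 1) * T -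
        3 * (k - 1) * T ^ 3) / Den (sinh a) T + (1 - (k - 1)) * sinh a / (1 + sinh a ^ 2) with hX
      set Y := 1 / (1 + 50 * sinh a) ^ 2 + 22 / 100 * sinh a / (1 + sinh a ^ 2) ^ 2 with hY
      set Z := 87 / 100 + 2 / 100 * (1 + 50 * sinh a)⁻¹ + 11 / 100 * (1 + sinh a ^ 2)⁻¹ with hZ
      have eg : 1 = g ^ 2 * (1 + T ^ 2) := g1.symm
      have f1 : FF k a (ψ a) = (3 * k * (1 + T ^ 2) * (1 + sinh a ^ 2) + 99996 * (1 - sinh a * T) ^ 2
          + 99998 * sinh a * ((T + sinh a) * (1 - sinh a * T))) / (cosh a * Den (sinh a) T) := by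
        rw [FF, DD_eq T a g _ g3 g4, g3, g4, add_comm 1 (sinh a ^ 2), ← h2]
        field_simp
        linear_combination (-(3 * k * cosh a ^ 2)) * g1
      have f2 : LL k a (ψ a) = ((99996 + 2 * k) * ((T + sinh a) * (1 - sinh a * T)) +
          99998 * sinh a * (T + sinh a) ^ 2) / (cosh a * Den (sinh a) T) := by
        rw [LL, DD_eq T a g _ g3 g4, g3, g4]
        field_simp
      have f3 : LL k a (ψ a) - T * FF k a (ψ a) + (T + sinh a) / cosh a = cosh a * X := by
        rw [f1, f2, hX]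
        field_simp
        rw [h2]
        unfold Den
        ring
      have Z0 : 0 ≤ Z := by positivity
      have Z1 : Z ≤ 1 := by
        have a1 : (1 + 50 * sinh a)⁻¹ ≤ 1 := inv_le_one_of_one_le₀ (by linarith)
        have a2 : (1 + sinh a ^ 2)⁻¹ ≤ 1 := inv_le_one_of_one_le₀ (by nlinarith)
        linarith
      have Y0 : 0 ≤ Y := by positivity
      have XZ : X * Z ≤ Y := (mul_le_mul_of_nonneg_right i1 Z0).trans (mul_le_of_le_one_right Y0 Z1)
      refine le_of_eq_of_le (b := exp (R a) * g * cosh a ^ 2 * (X * Z - Y)) ?_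
        (mul_nonpos_of_nonneg_of_nonpos (by positivity) (by linarith))
      have f4 : LL k a (ψ a) = cosh a * X + T * FF k a (ψ a) - (T + sinh a) / cosh a := by linarith
      simp only [Pi.add_apply, Pi.mul_apply, Pi.inv_apply, Pi.pow_apply]
      have p1 : cos (ψ a) + sinh a * sin (ψ a) = g * cosh a := by
        rw [g3, g4]; field_simp; rw [h2]; ring
      have p2 : -sin (ψ a) + sinh a * cos (ψ a) = -(g * T * cosh a) := by
        rw [g3, g4]; field_simp; rw [h2]; ring
      have p3 : cosh a * sin (ψ a) = g * (T + sinh a) := by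
        rw [g4]; field_simp
      have p4 : -sin (ψ a) * FF k a (ψ a) + (cosh a * sin (ψ a) + sinh a * (cos (ψ a) * FF k a (ψ a))) =
          -(g * T * cosh a) * FF k a (ψ a) + g * (T + sinh a) := by
        linear_combination FF k a (ψ a) * p2 + p3
      rw [p4, p1, f4, hY]
      clear_value X Z
      generalize FF k a (ψ a) = w
      field_simp
      ring
    intro a ha
    refine ⟨hb a ha, ?_⟩
    choose! w w0 hw using hd
    have := antitoneOn_of_hasDerivWithinAt_nonpos (convex_Ici (0 : ℝ))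
      (fun x hx => (hw x hx).continuousAt.continuousWithinAt) (f' := w)
      (fun x hx => (hw x (interior_subset hx)).hasDerivWithinAt)
      (fun x hx => w0 x (interior_subset hx)) self_mem_Ici ha ha
    simp only [R0, h00, exp_zero, cos_zero, sinh_zero, sin_zero] at this
    have hS := sinh_nonneg_iff.2 ha
    have a1 : 0 ≤ (1 + 50 * sinh a)⁻¹ := by positivity
    have a2 : 0 ≤ (1 + sinh a ^ 2)⁻¹ := by positivity
    have h5 := hb a ha
    set β := exp (R a) * (cos (ψ a) + sinh a * sin (ψ a))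
    have h6 := mul_nonneg h5 a1
    have h7 := mul_nonneg h5 a2
    norm_num at this
    nlinarith
  refine ⟨⟨k, ψ, R, fun a => FF k a (ψ a), _, _, Ri, hk.1, hk.2, hψ, hR, FF_cont k ψ cψ, cL, e1,
    fun a => ?_, odd, even, h00, R0, bd, ?_, fun a => ?_, ?_⟩⟩
  · have := (DD_pos (ψ a)).ne'
    have := (cosh_pos a).ne'
    have h3 := sin_sq_add_cos_sq (ψ a)
    unfold FF LL
    field_simp
    unfold DD
    linear_combination (-(3 * cos (ψ a) * k)) * h3
  · have h1 : Tendsto (fun a => (sin (ψ a) - sinh a * cos (ψ a)) / cosh a) atTop (𝓝 1) := by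
      have h2 := (continuous_sin.tendsto _).comp tg
      rw [sin_pi_div_two] at h2
      have key : ∀ a, 0 ≤ a → ∃ T, sinh a ≤ T ∧
          (sin (ψ a) - sinh a * cos (ψ a)) / cosh a = sin (arctan T) := by
        intro a ha
        obtain ⟨T, g, t1, -, g0, -, g2, g3, g4⟩ := rep a ha
        have hS := sinh_nonneg_iff.2 ha
        have hc := (cosh_pos a).ne'
        refine ⟨T, by nlinarith, ?_⟩
        rw [g3, g4, sin_arctan, g2, cos_arctan]
        field_simp
        rw [cosh_sq]; ring
      refine tendsto_of_tendsto_of_tendsto_of_le_of_le' h2 tendsto_const_nhds ?_ ?_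
      · filter_upwards [eventually_ge_atTop 0] with a ha
        obtain ⟨T, t1, t2⟩ := key a ha
        rw [t2]
        exact sin_arctan_strictMono.monotone t1
      · filter_upwards [eventually_ge_atTop 0] with a ha
        obtain ⟨T, t1, t2⟩ := key a ha
        rw [t2]
        exact sin_le_one _
    simpa using ((continuous_exp.tendsto _).comp hRi).mul h1
  · rcases le_total 0 a with ha | ha
    · rw [abs_of_nonneg (hβ a ha).1]; linarith [(hβ a ha).2]
    · have := hβ (-a) (by linarith)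
      simp only [even, odd, cos_neg, sin_neg, sinh_neg, mul_neg, neg_mul, neg_neg] at this
      rw [abs_of_nonneg this.1]; linarith [this.2]
  · have h : ∀ a, 0 ≤ a → -(exp (R a) * cos (ψ a)) / k ≤
        22400 * (sinh a / cosh a) ^ 2 - 49 / 100 := by
      have hd : ∀ a, 0 ≤ a → ∃ w, w ≤ 0 ∧ HasDerivAt (fun a => -(exp (R a) * cos (ψ a)) / k -
          21851 * (sinh a / cosh a) ^ 2 - 46 / 10 * (sinh a / cosh a)) w a := by
        intro a ha
        have hc := cosh_pos a
        have d1 := ((hR a).exp.mul (hψ a).cos).neg.div_const k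
        have d2 := (hasDerivAt_sinh a).div (hasDerivAt_cosh a) hc.ne'
        refine ⟨_, ?_, (d1.sub ((d2.pow 2).const_mul 21851)).sub (d2.const_mul (46 / 10))⟩
        obtain ⟨T, g, t1, t2, g0, -, -, g3, g4⟩ := rep a ha
        have hS := sinh_nonneg_iff.2 ha
        have t3 : 0 ≤ T := le_trans (by positivity) t1
        have h2 := cosh_sq a
        have b1 := (hβ a ha).2
        have b2 : cos (ψ a) + sinh a * sin (ψ a) = g * cosh a := by
          rw [g3, g4]; field_simp; rw [h2]; ring
        rw [b2] at b1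
        have b3 : -(exp (R a) * LL k a (ψ a) * cos (ψ a) + exp (R a) * (-sin (ψ a) * FF k a (ψ a))) / k
            = exp (R a) * (g * cosh a) * (T + sinh a) / cosh a ^ 3 := by
          have := e1 a
          rw [g4] at this ⊢
          field_simp
          field_simp at this
          linear_combination this
        have b4 : exp (R a) * (g * cosh a) * (T + sinh a) ≤ 115 / 100 * (38001 * sinh a + 4) :=
          mul_le_mul b1 (by linarith) (by positivity) (by norm_num)
        have b5 := one_le_cosh a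
        simp only [Pi.div_apply]
        rw [b3]
        have b6 : cosh a * cosh a - sinh a * sinh a = 1 := by nlinarith
        rw [b6, sub_nonpos, sub_le_iff_le_add, div_le_iff₀ (by positivity)]
        have : (46 / 10 * (1 / cosh a ^ 2) + 21851 * (((2 : ℕ) : ℝ) * (sinh a / cosh a) ^ (2 - 1) *
          (1 / cosh a ^ 2))) * cosh a ^ 3 = 46 / 10 * cosh a + 43702 * sinh a := by
          norm_num
          field_simp
          ring
        rw [this]
        linarith
      intro a ha
      choose! w w0 hw using hd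
      have := antitoneOn_of_hasDerivWithinAt_nonpos (convex_Ici (0 : ℝ))
        (fun x hx => (hw x hx).continuousAt.continuousWithinAt) (f' := w)
        (fun x hx => (hw x (interior_subset hx)).hasDerivWithinAt)
        (fun x hx => w0 x (interior_subset hx)) self_mem_Ici ha ha
      simp only [R0, h00, exp_zero, cos_zero, sinh_zero] at this
      have a1 : -(1 * 1) / k ≤ -(1 / 2) := by
        rw [div_le_iff₀ hk0]; linarith [hk.2]
      norm_num at this a1
      nlinarith [sq_nonneg (sinh a / cosh a - 1 / 230)]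
    intro a
    rcases le_total 0 a with ha | ha
    · exact h a ha
    · have := h (-a) (by linarith)
      simpa [even, odd, neg_div] using this

end Pool.Agent.H92.AM
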