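import Mathlib

namespace Pool.Agent.H92.PH

open Set Filter Topology Real MeasureTheory

abbrev E (n : ℕ) := EuclideanSpace ℝ (Fin n)

variable {n : ℕ}

noncomputable def bb (i : Fin n) : E n := EuclideanSpace.single i 1

noncomputable def q (c : Fin n → ℝ) (z : E n) : ℝ := ∑ i, c i * z i ^ 2

noncomputable def dq (c : Fin n → ℝ) (z : E n) : E n →L[ℝ] ℝ :=
  ∑ i, (2 * c i * z i) • (EuclideanSpace.proj i : E n →L[ℝ] ℝ)

theorem q_deriv (c : Fin n → ℝ) (z : E n) : HasFDerivAt (q c) (dq c z) z := by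
  unfold q dq
  refine HasFDerivAt.fun_sum fun i _ => ?_
  have h : HasFDerivAt (fun z : E n => z i) (EuclideanSpace.proj i : E n →L[ℝ] ℝ) z :=
    (EuclideanSpace.proj i : E n →L[ℝ] ℝ).hasFDerivAt
  refine ((h.pow 2).const_mul (c i)).congr_fderiv (ContinuousLinearMap.ext fun e => ?_)
  simp
  ring

theorem dq_bb (c : Fin n → ℝ) (z : E n) (i : Fin n) : dq c z (bb i) = 2 * c i * z i := by
  simp [dq, bb, PiLp.single_apply]

theorem q_smooth (c : Fin n → ℝ) : ContDiff ℝ 1 (q c) := by
  unfold q
  fun_prop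

/-- a block of coordinates -/
structure Blk (c : Fin n → ℝ) : Prop where
  h01 : ∀ i, c i = 0 ∨ c i = 1
  two : ∃ i j, i ≠ j ∧ c i = 1 ∧ c j = 1

theorem Blk.term {c : Fin n → ℝ} (h : Blk c) (z : E n) (i : Fin n) : 0 ≤ c i * z i ^ 2 := by
  rcases h.h01 i with h | h <;> rw [h] <;> positivity

theorem Blk.le {c : Fin n → ℝ} (h : Blk c) (z : E n) (i : Fin n) : (c i * z i) ^ 2 ≤ q c z := by
  have := Finset.single_le_sum (f := fun i => c i * z i ^ 2) (fun i _ => h.term z i)
    (Finset.mem_univ i)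
  refine le_trans (le_of_eq ?_) this
  rcases h.h01 i with h | h <;> simp [h]

theorem ae_ne (i : Fin n) : ∀ᵐ z : E n, z i ≠ 0 :=
  (PiLp.volume_preserving_ofLp (Fin n)).quasiMeasurePreserving.ae
    (Measure.ae_eval_ne (fun _ : Fin n => (volume : Measure ℝ)) i 0)

theorem Blk.ae_pos {c : Fin n → ℝ} (h : Blk c) : ∀ᵐ z : E n, 0 < q c z := by
  obtain ⟨i, -, -, hi, -⟩ := h.two
  filter_upwards [ae_ne i] with z hz
  have := h.le z i
  rw [hi, one_mul] at this
  exact lt_of_lt_of_le (by positivity) this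

theorem abs_int (R : ℝ) (hR : 0 ≤ R) :
    IntegrableOn (fun x : ℝ => |x| ^ (-(1 / 2) : ℝ)) (Icc (-R) R) := by
  have h1 : IntervalIntegrable (fun x : ℝ => |x| ^ (-(1 / 2) : ℝ)) volume 0 R := by
    refine (intervalIntegral.intervalIntegrable_rpow' (a := 0) (b := R) (r := -(1 / 2))
      (by norm_num)).congr fun x hx => ?_
    rw [uIoc_of_le hR] at hx
    simp only [abs_of_pos hx.1]
  have h2 := ((IntervalIntegrable.iff_comp_neg (by simp)).1 h1).symm
  simp only [abs_neg, neg_zero] at h2
  exact (intervalIntegrable_iff_integrableOn_Icc_of_le (by linarith)).1 (h2.trans h1)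

theorem Blk.int {c : Fin n → ℝ} (h : Blk c) (R : ℝ) (hR : 0 ≤ R) :
    IntegrableOn (fun z : E n => 1 / √(q c z)) (Metric.closedBall 0 R) := by
  obtain ⟨i, j, hij, hi, hj⟩ := h.two
  set g : Fin n → ℝ → ℝ := fun l => (Icc (-R) R).indicator
    (fun x => if l = i ∨ l = j then |x| ^ (-(1 / 2) : ℝ) else 1) with hg
  have h1 : ∀ l, Integrable (g l) := by
    intro l
    rw [hg, integrable_indicator_iff measurableSet_Icc]
    split_ifs
    · exact abs_int R hR
    · exact integrableOn_const (by simp)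
  have h2 := (PiLp.volume_preserving_ofLp (Fin n)).integrable_comp_of_integrable
    (Integrable.fintype_prod (μ := fun _ => volume) h1)
  refine h2.integrableOn.mono' ?_ ?_
  · exact (measurable_const.div (q_smooth c).continuous.measurable.sqrt).aestronglyMeasurable
  · filter_upwards [ae_restrict_mem measurableSet_closedBall, ae_restrict_of_ae (ae_ne i),
      ae_restrict_of_ae (ae_ne j)] with z hz hzi hzj
    have hm : ∀ l, z l ∈ Icc (-R) R := fun l => by
      have := PiLp.norm_apply_le z l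
      rw [mem_closedBall_zero_iff] at hz
      exact abs_le.1 (this.trans hz)
    have e : ∏ l, g l (z l) = |z i| ^ (-(1 / 2) : ℝ) * |z j| ^ (-(1 / 2) : ℝ) := by
      rw [Finset.prod_eq_mul_of_mem i j (Finset.mem_univ _) (Finset.mem_univ _) hij]
      · simp [hg, indicator_of_mem (hm _)]
      · intro l _ hl
        simp [hg, indicator_of_mem (hm _), hl.1, hl.2]
    simp only [Function.comp]
    rw [e, ← mul_rpow (abs_nonneg _) (abs_nonneg _), rpow_neg (by positivity), ← sqrt_eq_rpow,
      Real.norm_eq_abs, abs_of_nonneg (by positivity), one_div]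
    refine inv_anti₀ (sqrt_pos.2 (by positivity)) (sqrt_le_sqrt ?_)
    have a1 := h.le z i
    have a2 := h.le z j
    rw [hi, one_mul, ← sq_abs] at a1
    rw [hj, one_mul, ← sq_abs] at a2
    nlinarith [sq_nonneg (|z i| - |z j|)]

noncomputable def η (x : ℝ) : ℝ := smoothTransition (x - 1)

theorem η_smooth : ContDiff ℝ 1 η := by
  unfold η
  exact smoothTransition.contDiff.comp (by fun_prop)

theorem η_big {x : ℝ} (hx : 2 < x) : η x = 1 ∧ deriv η x = 0 := by
  have h : η =ᶠ[𝓝 x] fun _ => 1 := by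
    filter_upwards [Ioi_mem_nhds hx] with y hy
    exact smoothTransition.one_of_one_le (by linarith [mem_Ioi.1 hy])
  exact ⟨h.eq_of_nhds, by rw [h.deriv_eq]; simp⟩

theorem η_bd : ∃ M, ∀ x, 0 ≤ x → |deriv η x * x| ≤ M := by
  have hc : Continuous fun x => deriv η x * x := (η_smooth.continuous_deriv le_rfl).mul continuous_id
  obtain ⟨C, hC⟩ := (isCompact_Icc (a := (0 : ℝ)) (b := 2)).exists_bound_of_continuousOn
    hc.continuousOn
  refine ⟨|C|, fun x hx => ?_⟩
  by_cases h : x ≤ 2
  · exact (hC x ⟨hx, h⟩).trans (le_abs_self C)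
  · simp [(η_big (not_le.1 h)).2]

noncomputable def cut (c : Fin n → ℝ) (j : ℕ) (z : E n) : ℝ := η (j * q c z)

theorem cut_smooth (c : Fin n → ℝ) (j : ℕ) : ContDiff ℝ 1 (cut c j) :=
  η_smooth.comp (contDiff_const.mul (q_smooth c))

theorem cut_abs (c : Fin n → ℝ) (j : ℕ) (z : E n) : |cut c j z| ≤ 1 := by
  unfold cut η
  rw [abs_of_nonneg (smoothTransition.nonneg _)]
  exact smoothTransition.le_one _

theorem cut_d (c : Fin n → ℝ) (j : ℕ) (z : E n) (i : Fin n) :
    fderiv ℝ (cut c j) z (bb i) = deriv η (j * q c z) * (j * (2 * c i * z i)) := by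
  have h := (η_smooth.differentiable one_ne_zero (j * q c z)).hasDerivAt.comp_hasFDerivAt z
    ((q_deriv c z).const_mul (j : ℝ))
  have h2 : fderiv ℝ (cut c j) z = _ := h.fderiv
  rw [h2]
  simp [dq_bb]

theorem Blk.cut_bd {c : Fin n → ℝ} (h : Blk c) {M : ℝ} (hM : ∀ x, 0 ≤ x → |deriv η x * x| ≤ M)
    (j : ℕ) (z : E n) (hz : 0 < q c z) (i : Fin n) :
    |fderiv ℝ (cut c j) z (bb i)| ≤ 2 * M * (1 / √(q c z)) := by
  rw [cut_d]
  have h1 := hM (j * q c z) (by positivity)
  have h2 : |c i * z i| ≤ √(q c z) := abs_le_sqrt (h.le z i)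
  have hs : 0 < √(q c z) := sqrt_pos.2 hz
  have e : deriv η (j * q c z) * (j * (2 * c i * z i)) =
      2 * (deriv η (j * q c z) * (j * q c z)) * ((c i * z i) / q c z) := by
    field_simp
  rw [e, abs_mul, abs_mul, abs_two, abs_div, abs_of_pos hz]
  refine mul_le_mul (by linarith) ?_ (by positivity) (by linarith [abs_nonneg (deriv η (j * q c z) * (j * q c z))])
  rw [div_le_div_iff₀ hz hs]
  nlinarith [mul_self_sqrt hz.le]

theorem cut_ev (c : Fin n → ℝ) (z : E n) (hz : 0 < q c z) :
    ∀ᶠ j : ℕ in atTop, cut c j z = 1 ∧ ∀ i, fderiv ℝ (cut c j) z (bb i) = 0 := by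
  filter_upwards [(tendsto_natCast_atTop_atTop.atTop_mul_const hz).eventually_gt_atTop 2] with j hj
  exact ⟨(η_big hj).1, fun i => by rw [cut_d, (η_big hj).2, zero_mul]⟩

def O (c d : Fin n → ℝ) : Set (E n) := {z | 0 < q c z ∧ 0 < q d z}

theorem O_open (c d : Fin n → ℝ) : IsOpen (O c d) :=
  (isOpen_lt continuous_const (q_smooth c).continuous).inter
    (isOpen_lt continuous_const (q_smooth d).continuous)

theorem integ2 {U K : Set (E n)} {f w : E n → ℝ} (hf : ContinuousOn f U) (hw : Continuous w)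
    (hK : IsCompact K) (hKU : K ⊆ U) (h0 : ∀ z, z ∉ K → w z = 0) :
    Integrable fun z => f z * w z := by
  refine (integrableOn_iff_integrable_of_support_subset (s := K) fun z hz => ?_).1
    (((hf.mono hKU).mul hw.continuousOn).integrableOn_compact hK)
  by_contra h
  exact hz (by simp [h0 z h])

theorem ibp {U : Set (E n)} (hU : IsOpen U) {f W : E n → ℝ} (hf : ContDiffOn ℝ 1 f U)
    (hW : ContDiff ℝ 1 W) (hc : HasCompactSupport W) (hs : tsupport W ⊆ U) (v : E n) :
    Integrable (fun z => f z * fderiv ℝ W z v + fderiv ℝ f z v * W z) ∧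
    ∫ z, (f z * fderiv ℝ W z v + fderiv ℝ f z v * W z) = 0 := by
  have h0 : ∀ z, z ∉ tsupport W → W z = 0 := fun z hz => image_eq_zero_of_notMem_tsupport hz
  have i1 : Integrable fun z => fderiv ℝ f z v * W z :=
    integ2 ((hf.continuousOn_fderiv_of_isOpen hU le_rfl).clm_apply continuousOn_const)
      hW.continuous hc hs h0
  have i2 : Integrable fun z => f z * fderiv ℝ W z v :=
    integ2 hf.continuousOn ((hW.continuous_fderiv one_ne_zero).clm_apply continuous_const) hc hs
      fun z hz => by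
        have : fderiv ℝ W z = 0 := by
          by_contra h
          exact hz (support_fderiv_subset ℝ h)
        simp [this]
  have i3 : Integrable fun z => f z * W z := integ2 hf.continuousOn hW.continuous hc hs h0
  refine ⟨i2.add i1, ?_⟩
  rw [integral_add i2 i1, integral_mul_fderiv_eq_neg_fderiv_mul_of_integrable i1 i2 i3
    (fun x hx => (hf.differentiableOn one_ne_zero).differentiableAt (hU.mem_nhds (hs hx)))
    (fun x _ => hW.differentiable one_ne_zero x)]
  ring

theorem remov {c d : Fin n → ℝ} (hc : Blk c) (hd : Blk d) (V : Fin n → E n → ℝ) (g : E n → ℝ)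
    (hV : ∀ i, ContDiffOn ℝ 1 (V i) (O c d))
    (hg : ∀ z ∈ O c d, g z = ∑ i, fderiv ℝ (V i) z (bb i))
    (hb : ∀ R, ∃ C, ∀ z ∈ O c d, ‖z‖ ≤ R → (∀ i, |V i z| ≤ C) ∧ |g z| ≤ C)
    (φ : E n → ℝ) (hφ : ContDiff ℝ 1 φ) (hs : HasCompactSupport φ) :
    ∫ z, (∑ i, V i z * fderiv ℝ φ z (bb i) + g z * φ z) = 0 := by
  obtain ⟨M, hM⟩ := η_bd
  have hM0 : 0 ≤ M := (abs_nonneg _).trans (hM 0 le_rfl)
  obtain ⟨R0, hR0⟩ := hs.isCompact.isBounded.subset_closedBall (0 : E n)
  set R := |R0|
  have hR : tsupport φ ⊆ Metric.closedBall 0 R :=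
    hR0.trans (Metric.closedBall_subset_closedBall (le_abs_self _))
  obtain ⟨C, hC⟩ := hb R
  obtain ⟨B1, hB1⟩ := hφ.continuous.bounded_above_of_compact_support hs
  obtain ⟨B2, hB2⟩ := (hφ.continuous_fderiv one_ne_zero).bounded_above_of_compact_support
    (hs.fderiv ℝ)
  have hB10 : 0 ≤ B1 := (norm_nonneg _).trans (hB1 0)
  have hB2' : ∀ z i, |fderiv ℝ φ z (bb i)| ≤ B2 := by
    intro z i
    have := (fderiv ℝ φ z).le_opNorm (bb i)
    simp only [bb, PiLp.norm_single, norm_one, mul_one] at this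
    exact this.trans (hB2 z)
  have hae : ∀ᵐ z : E n, z ∈ O c d := by
    filter_upwards [hc.ae_pos, hd.ae_pos] with z h1 h2 using ⟨h1, h2⟩
  set W : ℕ → E n → ℝ := fun j z => cut c j z * cut d j z * φ z with hW
  have sW : ∀ j, ContDiff ℝ 1 (W j) := fun j => ((cut_smooth c j).mul (cut_smooth d j)).mul hφ
  have cW : ∀ j, HasCompactSupport (W j) := fun j => hs.mul_left
  have tW : ∀ j, tsupport (W j) ⊆ O c d := by
    intro j
    have : tsupport (W j) ⊆ {z | 1 ≤ j * q c z} ∩ {z | 1 ≤ j * q d z} := by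
      refine closure_minimal (fun z hz => ?_)
        ((isClosed_le continuous_const (continuous_const.mul (q_smooth c).continuous)).inter
          (isClosed_le continuous_const (continuous_const.mul (q_smooth d).continuous)))
      constructor
      · by_contra h
        refine hz ?_
        have : cut c j z = 0 := smoothTransition.zero_of_nonpos (by simp at h; linarith)
        simp [hW, this]
      · by_contra h
        refine hz ?_
        have : cut d j z = 0 := smoothTransition.zero_of_nonpos (by simp at h; linarith)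
        simp [hW, this]
    intro z hz
    obtain ⟨h1, h2⟩ := this hz
    have hj : (0 : ℝ) ≤ j := Nat.cast_nonneg j
    simp only [mem_ofPred_eq] at h1 h2
    constructor
    · by_contra h; nlinarith [not_lt.1 h]
    · by_contra h; nlinarith [not_lt.1 h]
  have dW : ∀ j z i, fderiv ℝ (W j) z (bb i) = cut c j z * cut d j z * fderiv ℝ φ z (bb i) +
      φ z * (cut c j z * fderiv ℝ (cut d j) z (bb i) + cut d j z * fderiv ℝ (cut c j) z (bb i)) := by
    intro j z i
    have h1 := ((cut_smooth c j).differentiable one_ne_zero z).hasFDerivAt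
    have h2 := ((cut_smooth d j).differentiable one_ne_zero z).hasFDerivAt
    have h3 := (hφ.differentiable one_ne_zero z).hasFDerivAt
    have h4 : fderiv ℝ (W j) z = _ := ((h1.mul h2).mul h3).fderiv
    rw [h4]
    simp
    ring
  set Fj : ℕ → E n → ℝ := fun j z =>
    ∑ i, (V i z * fderiv ℝ (W j) z (bb i) + fderiv ℝ (V i) z (bb i) * W j z) with hF
  have iF : ∀ j, Integrable (Fj j) := fun j => integrable_finsetSum _ fun i _ =>
    (ibp (O_open c d) (hV i) (sW j) (cW j) (tW j) (bb i)).1
  have zF : ∀ j, ∫ z, Fj j z = 0 := fun j => by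
    rw [hF, integral_finsetSum _ fun i _ => (ibp (O_open c d) (hV i) (sW j) (cW j) (tW j) (bb i)).1]
    exact Finset.sum_eq_zero fun i _ => (ibp (O_open c d) (hV i) (sW j) (cW j) (tW j) (bb i)).2
  have eF : ∀ j, ∀ z ∈ O c d, Fj j z = ∑ i, V i z * fderiv ℝ (W j) z (bb i) + g z * W j z := by
    intro j z hz
    simp only [hF]
    rw [Finset.sum_add_distrib, hg z hz, Finset.sum_mul]
  have lim := tendsto_integral_of_dominated_convergence (μ := volume) (F := Fj)
    (f := fun z => ∑ i, V i z * fderiv ℝ φ z (bb i) + g z * φ z)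
    ((Metric.closedBall 0 R).indicator fun z =>
      n * (|C| * (B2 + B1 * (2 * M * (1 / √(q d z)) + 2 * M * (1 / √(q c z))))) + |C| * B1)
    (fun j => (iF j).aestronglyMeasurable) ?_ ?_ ?_
  · simp only [zF] at lim
    exact tendsto_nhds_unique lim tendsto_const_nhds
  · rw [integrable_indicator_iff measurableSet_closedBall]
    have k : ∀ x : ℝ, IntegrableOn (fun _ : E n => x) (Metric.closedBall 0 R) := fun x =>
      integrableOn_const measure_closedBall_lt_top.ne
    exact ((((k B2).add ((((hd.int R (abs_nonneg _)).const_mul _).add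
      ((hc.int R (abs_nonneg _)).const_mul _)).const_mul _)).const_mul _).const_mul _).add (k _)
  · intro j
    filter_upwards [hae] with z hz
    rw [eF j z hz]
    by_cases hzR : z ∈ Metric.closedBall (0 : E n) R
    · rw [indicator_of_mem hzR]
      obtain ⟨h1, h2⟩ := hC z hz (mem_closedBall_zero_iff.1 hzR)
      have a1 := cut_abs c j z
      have a2 := cut_abs d j z
      have a3 : |φ z| ≤ B1 := hB1 z
      have a4 : |cut c j z * cut d j z| ≤ 1 := by
        rw [abs_mul]; exact mul_le_one₀ a1 (abs_nonneg _) a2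
      refine (norm_add_le _ _).trans (add_le_add ?_ ?_)
      · refine (norm_sum_le _ _).trans ((Finset.sum_le_card_nsmul _ _ _ fun i _ => ?_).trans
          (le_of_eq (by rw [nsmul_eq_mul, Finset.card_univ, Fintype.card_fin])))
        rw [Real.norm_eq_abs, abs_mul, dW]
        refine mul_le_mul ((h1 i).trans (le_abs_self C)) ?_ (abs_nonneg _) (abs_nonneg _)
        refine (abs_add_le _ _).trans (add_le_add ?_ ?_)
        · rw [abs_mul]
          exact (mul_le_of_le_one_left (abs_nonneg _) a4).trans (hB2' z i)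
        · rw [abs_mul]
          refine mul_le_mul a3 ((abs_add_le _ _).trans (add_le_add ?_ ?_)) (abs_nonneg _) hB10
          · rw [abs_mul]
            exact (mul_le_of_le_one_left (abs_nonneg _) a1).trans (hd.cut_bd hM j z hz.2 i)
          · rw [abs_mul]
            exact (mul_le_of_le_one_left (abs_nonneg _) a2).trans (hc.cut_bd hM j z hz.1 i)
      · rw [Real.norm_eq_abs, abs_mul]
        refine mul_le_mul (h2.trans (le_abs_self C)) ?_ (abs_nonneg _) (abs_nonneg _)
        simp only [hW]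
        rw [abs_mul]
        exact (mul_le_of_le_one_left (abs_nonneg _) a4).trans a3
    · have hn : z ∉ tsupport φ := fun h => hzR (hR h)
      have b1 : φ z = 0 := image_eq_zero_of_notMem_tsupport hn
      have b2 : fderiv ℝ φ z = 0 := by
        by_contra h
        exact hn (support_fderiv_subset ℝ h)
      rw [indicator_of_notMem hzR]
      simp only [dW]
      simp [hW, b1, b2]
  · filter_upwards [hae] with z hz
    refine tendsto_const_nhds.congr' ?_
    filter_upwards [cut_ev c z hz.1, cut_ev d z hz.2] with j h1 h2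
    rw [eF j z hz]
    simp only [dW]
    simp [hW, h1.1, h2.1, h1.2, h2.2]

end Pool.Agent.H92.PH
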