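import Mathlib
import Pool.Agent.H92.PH2
import Pool.Agent.H92.PH3

namespace Pool.Agent.H92.PH

open Set Filter Topology Real MeasureTheory

variable {n : ℕ}

structure Two (c d : Fin n → ℝ) : Prop where
  bc : Blk c
  bd : Blk d
  cs : ∀ i, (c i = 1 ∧ d i = 0) ∨ (c i = 0 ∧ d i = 1) ∨ (c i = 0 ∧ d i = 0)
  sc : ∑ i, c i = 4
  sd : ∑ i, d i = 4

variable (c d : Fin n → ℝ)

noncomputable def ang (z : E n) : ℝ := (log (q c z) - log (q d z)) / 2

noncomputable def H (ν : ℝ) (h : ℝ → ℝ) (z : E n) : ℝ := (q c z + q d z) ^ ν * h (ang c d z)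

noncomputable def W (ν : ℝ) (A B : ℝ → ℝ) (i : Fin n) (z : E n) : ℝ :=
  z i * (c i * H c d ν A z + d i * H c d ν B z)

variable {c d}

theorem H_smooth (ν : ℝ) {h : ℝ → ℝ} (hh : ContDiff ℝ 1 h) : ContDiffOn ℝ 1 (H c d ν h) (O c d) := by
  have a1 : ContDiffOn ℝ 1 (ang c d) (O c d) :=
    (((q_smooth c).contDiffOn.log fun z hz => hz.1.ne').sub
      ((q_smooth d).contDiffOn.log fun z hz => hz.2.ne')).div_const 2
  refine ContDiffOn.mul (fun z hz => ?_) (hh.comp_contDiffOn a1)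
  exact (((q_smooth c).add (q_smooth d)).contDiffAt.rpow_const_of_ne
    (add_pos hz.1 hz.2).ne').contDiffWithinAt

theorem W_smooth (ν : ℝ) {A B : ℝ → ℝ} (hA : ContDiff ℝ 1 A) (hB : ContDiff ℝ 1 B) (i : Fin n) :
    ContDiffOn ℝ 1 (W c d ν A B i) (O c d) :=
  ContDiffOn.mul (by fun_prop)
    ((contDiffOn_const.mul (H_smooth ν hA)).add (contDiffOn_const.mul (H_smooth ν hB)))

theorem H_d (ν : ℝ) {h : ℝ → ℝ} {h' : ℝ} {z : E n} (hz : z ∈ O c d)
    (hh : HasDerivAt h h' (ang c d z)) :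
    ∃ L : E n →L[ℝ] ℝ, HasFDerivAt (H c d ν h) L z ∧ ∀ i, L (bb i) =
      z i * (q c z + q d z) ^ ν * (2 * ν * (c i + d i) * h (ang c d z) / (q c z + q d z) +
        h' * (c i / q c z - d i / q d z)) := by
  have hr := add_pos hz.1 hz.2
  have a1 : HasFDerivAt (ang c d) _ z :=
    (((q_deriv c z).log hz.1.ne').sub ((q_deriv d z).log hz.2.ne')).mul_const (2 : ℝ)⁻¹
  have a2 := ((q_deriv c z).add (q_deriv d z)).rpow_const (p := ν) (Or.inl hr.ne')
  refine ⟨_, a2.mul (hh.comp_hasFDerivAt z a1), fun i => ?_⟩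
  have := hz.1.ne'
  have := hz.2.ne'
  simp [dq_bb, rpow_sub_one hr.ne']
  field_simp
  ring

theorem W_div (T : Two c d) (ν : ℝ) {A B : ℝ → ℝ} {A' B' : ℝ} {z : E n} (hz : z ∈ O c d)
    (hA : HasDerivAt A A' (ang c d z)) (hB : HasDerivAt B B' (ang c d z)) :
    ∑ i, fderiv ℝ (W c d ν A B i) z (bb i) = (q c z + q d z) ^ ν *
      (4 * A (ang c d z) + 4 * B (ang c d z) +
        2 * ν * (q c z * A (ang c d z) + q d z * B (ang c d z)) / (q c z + q d z) + A' - B') := by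
  obtain ⟨LA, h1, h2⟩ := H_d ν hz hA
  obtain ⟨LB, h3, h4⟩ := H_d ν hz hB
  set r := q c z + q d z with hr
  have e : ∀ i, fderiv ℝ (W c d ν A B i) z (bb i) =
      c i * (r ^ ν * A (ang c d z)) + d i * (r ^ ν * B (ang c d z)) +
      c i * z i ^ 2 * (r ^ ν * (2 * ν * A (ang c d z) / r + A' / q c z)) +
      d i * z i ^ 2 * (r ^ ν * (2 * ν * B (ang c d z) / r - B' / q d z)) := by
    intro i
    have h : HasFDerivAt (fun z : E n => z i) (EuclideanSpace.proj i : E n →L[ℝ] ℝ) z :=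
      (EuclideanSpace.proj i : E n →L[ℝ] ℝ).hasFDerivAt
    have h5 : fderiv ℝ (W c d ν A B i) z = _ :=
      (h.mul ((h1.const_mul (c i)).add (h3.const_mul (d i)))).fderiv
    have h6 : (bb i : E n) i = 1 := by simp [bb]
    rw [h5]
    simp [h2, h4, h6, H, ← hr]
    rcases T.cs i with ⟨a, b⟩ | ⟨a, b⟩ | ⟨a, b⟩ <;> simp [a, b] <;> ring
  simp only [e, Finset.sum_add_distrib, ← Finset.sum_mul, T.sc, T.sd]
  change _ + q c z * _ + q d z * _ = _
  have := hz.1.ne'
  have := hz.2.ne'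
  field_simp
  ring

theorem W_sq (T : Two c d) (ν : ℝ) (A B : ℝ → ℝ) (z : E n) :
    ∑ i, W c d ν A B i z ^ 2 = ((q c z + q d z) ^ ν) ^ 2 *
      (q c z * A (ang c d z) ^ 2 + q d z * B (ang c d z) ^ 2) := by
  have e : ∀ i, W c d ν A B i z ^ 2 = c i * z i ^ 2 * H c d ν A z ^ 2 +
      d i * z i ^ 2 * H c d ν B z ^ 2 := by
    intro i
    unfold W
    rcases T.cs i with ⟨a, b⟩ | ⟨a, b⟩ | ⟨a, b⟩ <;> simp [a, b] <;> ring
  simp only [e, Finset.sum_add_distrib, ← Finset.sum_mul]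
  change q c z * _ + q d z * _ = _
  unfold H
  ring

theorem exp_ang {z : E n} (hz : z ∈ O c d) : q c z = exp (ang c d z) ^ 2 * q d z := by
  rw [← exp_nat_mul, ang]
  have : ((2 : ℕ) : ℝ) * ((log (q c z) - log (q d z)) / 2) = log (q c z) - log (q d z) := by
    push_cast; ring
  rw [this, exp_sub, exp_log hz.1, exp_log hz.2, div_mul_cancel₀ _ hz.2.ne']

theorem r_le (T : Two c d) (z : E n) : q c z + q d z ≤ ‖z‖ ^ 2 := by
  rw [EuclideanSpace.real_norm_sq_eq, q, q, ← Finset.sum_add_distrib]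
  refine Finset.sum_le_sum fun i _ => ?_
  rcases T.cs i with ⟨a, b⟩ | ⟨a, b⟩ | ⟨a, b⟩ <;> simp [a, b]
  positivity

variable {e : ℝ} (P : Data e)

noncomputable def Data.A (γ a : ℝ) : ℝ := exp (γ * P.R a) * (sin (P.ψ a) + exp (-a) * cos (P.ψ a))
noncomputable def Data.B (γ a : ℝ) : ℝ := exp (γ * P.R a) * (sin (P.ψ a) - exp a * cos (P.ψ a))
noncomputable def Data.f (a : ℝ) : ℝ := exp (P.R a) * sin (P.ψ a) / P.k

theorem Data.sψ : ContDiff ℝ 1 P.ψ := by
  rw [contDiff_one_iff_deriv]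
  refine ⟨fun a => (P.hψ a).differentiableAt, ?_⟩
  rw [show deriv P.ψ = P.dψ from funext fun a => (P.hψ a).deriv]
  exact P.cψ

theorem Data.sR : ContDiff ℝ 1 P.R := by
  rw [contDiff_one_iff_deriv]
  refine ⟨fun a => (P.hR a).differentiableAt, ?_⟩
  rw [show deriv P.R = P.L from funext fun a => (P.hR a).deriv]
  exact P.cL

theorem Data.sA (γ : ℝ) : ContDiff ℝ 1 (P.A γ) := by
  have := P.sψ
  have := P.sR
  unfold Data.A
  fun_prop

theorem Data.sB (γ : ℝ) : ContDiff ℝ 1 (P.B γ) := by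
  have := P.sψ
  have := P.sR
  unfold Data.B
  fun_prop

theorem Data.sf : ContDiff ℝ 1 P.f := by
  have := P.sψ
  have := P.sR
  unfold Data.f
  fun_prop

noncomputable def Data.u (c d : Fin n → ℝ) : E n → ℝ := H c d (P.k / 2) P.f

noncomputable def Data.G (c d : Fin n → ℝ) (z : E n) : E n :=
  WithLp.toLp 2 fun i => W c d (P.k / 2 - 1) (P.A 1) (P.B 1) i z

noncomputable def Data.V (c d : Fin n → ℝ) : Fin n → E n → ℝ :=
  W c d (((P.k - 1) * e - 1) / 2) (P.A e) (P.B e)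

theorem Data.du (T : Two c d) {z : E n} (hz : z ∈ O c d) (i : Fin n) :
    fderiv ℝ (P.u c d) z (bb i) = P.G c d z i := by
  have hk : P.k ≠ 0 := by linarith [P.k2]
  set a := ang c d z with ha
  have hf : HasDerivAt P.f (exp (P.R a) * cos (P.ψ a) / (2 * cosh a)) a := by
    refine (((P.hR a).exp.mul (P.hψ a).sin).div_const P.k).congr_deriv ?_
    have := P.e1 a
    have := (cosh_pos a).ne'
    field_simp
    linarith
  obtain ⟨L, h1, h2⟩ := H_d (P.k / 2) hz hf
  have hr := add_pos hz.1 hz.2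
  rw [Data.u, h1.fderiv, h2]
  simp only [Data.G, W, H, rpow_sub_one hr.ne', ← ha, Data.A, Data.B, Data.f, one_mul]
  have h3 := exp_ang hz
  rw [← ha] at h3
  have h4 := hz.2.ne'
  have h5 := (exp_pos a).ne'
  generalize (q c z + q d z) ^ (P.k / 2) = w
  rw [cosh_eq, exp_neg, h3]
  field_simp
  ring

theorem Data.divV (T : Two c d) {z : E n} (hz : z ∈ O c d) :
    (0 : ℝ) = ∑ i, fderiv ℝ (P.V c d i) z (bb i) := by
  set a := ang c d z with ha
  have hA : HasDerivAt (P.A e) _ a :=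
    ((P.hR a).const_mul e).exp.mul ((P.hψ a).sin.add ((hasDerivAt_neg a).exp.mul (P.hψ a).cos))
  have hB : HasDerivAt (P.B e) _ a :=
    ((P.hR a).const_mul e).exp.mul ((P.hψ a).sin.sub ((hasDerivAt_exp a).mul (P.hψ a).cos))
  rw [Data.V, W_div T _ hz hA hB]
  refine (mul_eq_zero_of_right _ ?_).symm
  have h2 := P.e2 a
  have h3 := exp_ang hz
  rw [← ha] at h3
  have h4 := hz.2.ne'
  have h5 := (exp_pos a).ne'
  simp only [← ha, Data.A, Data.B, Pi.add_apply, Pi.sub_apply, Pi.mul_apply]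
  rw [cosh_eq, sinh_eq] at h2
  rw [exp_neg] at h2 ⊢
  rw [h3]
  field_simp
  field_simp at h2
  linear_combination (exp (e * P.R a) * (exp a ^ 2 + 1) / 2) * h2

theorem Data.normG (T : Two c d) {z : E n} (hz : z ∈ O c d) :
    ‖P.G c d z‖ = (q c z + q d z) ^ ((P.k - 1) / 2) * exp (P.R (ang c d z)) := by
  have hr := add_pos hz.1 hz.2
  refine (pow_left_inj₀ (norm_nonneg _) (by positivity) two_ne_zero).1 ?_
  rw [EuclideanSpace.real_norm_sq_eq]
  simp only [Data.G]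
  rw [W_sq T, mul_pow]
  have e1 : ((q c z + q d z) ^ ((P.k - 1) / 2)) ^ 2 =
      ((q c z + q d z) ^ (P.k / 2 - 1)) ^ 2 * (q c z + q d z) := by
    rw [← rpow_natCast, ← rpow_natCast, ← rpow_mul hr.le, ← rpow_mul hr.le, ← rpow_add_one hr.ne']
    congr 1
    push_cast
    ring
  rw [e1, mul_assoc]
  congr 1
  set a := ang c d z with ha
  have h3 := exp_ang hz
  rw [← ha] at h3
  have h5 := (exp_pos a).ne'
  have h6 := sin_sq_add_cos_sq (P.ψ a)
  simp only [Data.A, Data.B, one_mul]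
  rw [exp_neg, h3]
  field_simp
  linear_combination (q d z * (exp a ^ 2 + 1)) * h6

theorem Data.flux (T : Two c d) {z : E n} (hz : z ∈ O c d) (i : Fin n) :
    ‖P.G c d z‖ ^ (e - 1) * P.G c d z i = P.V c d i z := by
  have hr := add_pos hz.1 hz.2
  rw [P.normG T hz, mul_rpow (by positivity) (by positivity), ← rpow_mul hr.le, ← exp_mul]
  have e1 : (q c z + q d z) ^ (((P.k - 1) * e - 1) / 2) =
      (q c z + q d z) ^ ((P.k - 1) / 2 * (e - 1)) * (q c z + q d z) ^ (P.k / 2 - 1) := by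
    rw [← rpow_add hr]; congr 1; ring
  have e2 : exp (e * P.R (ang c d z)) =
      exp (P.R (ang c d z) * (e - 1)) * exp (1 * P.R (ang c d z)) := by
    rw [← exp_add]; congr 1; ring
  simp only [Data.G, Data.V, W, H, Data.A, Data.B, e1, e2]
  ring

theorem Data.bdd (T : Two c d) (ρ : ℝ) :
    ∃ C, ∀ z ∈ O c d, ‖z‖ ≤ ρ → |P.u c d z| ≤ C ∧ ‖P.G c d z‖ ≤ C := by
  refine ⟨max ((ρ ^ 2) ^ (P.k / 2) * exp P.M) ((ρ ^ 2) ^ ((P.k - 1) / 2) * exp P.M),
    fun z hz h => ?_⟩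
  have hr := add_pos hz.1 hz.2
  have h1 : q c z + q d z ≤ ρ ^ 2 := (r_le T z).trans (pow_le_pow_left₀ (norm_nonneg _) h 2)
  have hk := P.k2
  have h2 : exp (P.R (ang c d z)) ≤ exp P.M := exp_le_exp.2 (P.bd _)
  refine ⟨le_max_of_le_left ?_, le_max_of_le_right ?_⟩
  · rw [Data.u, H, abs_mul, abs_of_pos (by positivity)]
    refine mul_le_mul (rpow_le_rpow hr.le h1 (by linarith)) ?_ (abs_nonneg _) (by positivity)
    rw [Data.f, abs_div, abs_mul, abs_of_pos (exp_pos _), abs_of_pos (by linarith : 0 < P.k),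
      div_le_iff₀ (by linarith)]
    have := abs_sin_le_one (P.ψ (ang c d z))
    have := exp_pos (P.R (ang c d z))
    nlinarith [abs_nonneg (sin (P.ψ (ang c d z)))]
  · rw [P.normG T hz]
    exact mul_le_mul (rpow_le_rpow hr.le h1 (by linarith)) h2 (by positivity) (by positivity)

theorem Data.weak1 (T : Two c d) (φ : E n → ℝ) (hφ : ContDiff ℝ 1 φ) (hs : HasCompactSupport φ)
    (i : Fin n) : ∫ z, (P.u c d z * fderiv ℝ φ z (bb i) + P.G c d z i * φ z) = 0 := by
  have := remov T.bc T.bd (fun j z => if j = i then P.u c d z else 0) (fun z => P.G c d z i)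
    (fun j => by
      split_ifs
      · exact H_smooth _ P.sf
      · exact contDiffOn_const)
    (fun z hz => by
      rw [Finset.sum_eq_single i (fun j _ hj => by simp [hj]) (by simp)]
      simp only [if_true]
      exact (P.du T hz i).symm)
    (fun ρ => by
      obtain ⟨C, hC⟩ := P.bdd T ρ
      refine ⟨C, fun z hz h => ⟨fun j => ?_, (PiLp.norm_apply_le (P.G c d z) i).trans (hC z hz h).2⟩⟩
      split_ifs
      · exact (hC z hz h).1
      · simpa using (abs_nonneg _).trans (hC z hz h).1) φ hφ hs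
  simpa using this

theorem Data.weak2 (T : Two c d) (he : 0 < e) (φ : E n → ℝ) (hφ : ContDiff ℝ 1 φ)
    (hs : HasCompactSupport φ) :
    ∫ z, ‖P.G c d z‖ ^ (e - 1) * ∑ i, P.G c d z i * fderiv ℝ φ z (bb i) = 0 := by
  have := remov T.bc T.bd (P.V c d) (fun _ => 0) (fun j => W_smooth _ (P.sA e) (P.sB e) j)
    (fun z hz => P.divV T hz)
    (fun ρ => by
      obtain ⟨C, hC⟩ := P.bdd T ρ
      refine ⟨|C| ^ e, fun z hz h => ⟨fun j => ?_, by simp; positivity⟩⟩
      have hr := add_pos hz.1 hz.2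
      have hp : 0 < ‖P.G c d z‖ := by rw [P.normG T hz]; positivity
      rw [← P.flux T hz, abs_mul, abs_of_pos (by positivity)]
      refine le_trans (mul_le_mul_of_nonneg_left (PiLp.norm_apply_le (P.G c d z) j)
        (by positivity)) ?_
      rw [← rpow_add_one hp.ne', sub_add_cancel]
      exact rpow_le_rpow hp.le ((hC z hz h).2.trans (le_abs_self C)) he.le) φ hφ hs
  rw [← this]
  refine integral_congr_ae ?_
  filter_upwards [T.bc.ae_pos, T.bd.ae_pos] with z h1 h2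
  simp only [zero_mul, add_zero, Finset.mul_sum, ← P.flux T ⟨h1, h2⟩, mul_assoc]

theorem q_smul (c : Fin n → ℝ) (t : ℝ) (z : E n) : q c (t • z) = t ^ 2 * q c z := by
  simp only [q, Finset.mul_sum, PiLp.smul_apply, smul_eq_mul]
  exact Finset.sum_congr rfl fun i _ => by ring

theorem Data.hom {z : E n} (hz : z ∈ O c d) {t : ℝ} (ht : t ≠ 0) :
    t • z ∈ O c d ∧ P.u c d (t • z) = |t| ^ P.k * P.u c d z := by
  have h1 := hz.1
  have h2 := hz.2
  refine ⟨⟨by rw [q_smul]; positivity, by rw [q_smul]; positivity⟩, ?_⟩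
  have ea : ang c d (t • z) = ang c d z := by
    simp only [ang, q_smul]
    rw [log_mul (by positivity) h1.ne', log_mul (by positivity) h2.ne']
    ring
  simp only [Data.u, H, ea, q_smul]
  rw [← mul_add, mul_rpow (by positivity) (by positivity), ← sq_abs, ← rpow_natCast,
    ← rpow_mul (abs_nonneg _), mul_assoc]
  congr 2
  push_cast
  ring

theorem Data.nz (T : Two c d) : ∃ z ∈ O c d, P.u c d z ≠ 0 := by
  set z : E n := WithLp.toLp 2 fun i => exp 1 * c i + d i with hz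
  have h1 : q c z = exp 1 ^ 2 * 4 := by
    rw [← T.sc, Finset.mul_sum]
    refine Finset.sum_congr rfl fun i _ => ?_
    rcases T.cs i with ⟨a, b⟩ | ⟨a, b⟩ | ⟨a, b⟩ <;> simp [hz, a, b]
  have h2 : q d z = 4 := by
    rw [← T.sd]
    refine Finset.sum_congr rfl fun i _ => ?_
    rcases T.cs i with ⟨a, b⟩ | ⟨a, b⟩ | ⟨a, b⟩ <;> simp [hz, a, b]
  have h3 : ang c d z = 1 := by
    rw [ang, h1, h2, log_mul (by positivity) (by norm_num), log_pow, log_exp]
    push_cast
    ring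
  refine ⟨z, ⟨by rw [h1]; positivity, by rw [h2]; norm_num⟩, ?_⟩
  rw [Data.u, H, h1, h2, h3, Data.f]
  have := P.ne
  have : P.k ≠ 0 := by linarith [P.k2]
  positivity

end Pool.Agent.H92.PH
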