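import Mathlib
import Pool.Agent.H92.PH4

namespace Pool.Agent.H92.PH

open Set Filter Topology Real MeasureTheory

theorem noC3 {g : ℝ → ℝ} {k c : ℝ} (hg : ContDiff ℝ 3 g) (k2 : 2 < k) (k3 : k ≤ 3)
    (h : ∀ t, t ≠ 0 → g t = |t| ^ k * c) : c = 0 := by
  have s1 : ContDiff ℝ 2 (deriv g) := (contDiff_succ_iff_deriv (n := 2)).1 hg |>.2.2
  have s2 : ContDiff ℝ 1 (deriv (deriv g)) := (contDiff_succ_iff_deriv (n := 1)).1 s1 |>.2.2
  have d1 : ∀ t, 0 < t → deriv g t = k * t ^ (k - 1) * c := by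
    intro t ht
    have : g =ᶠ[𝓝 t] fun s => s ^ k * c := by
      filter_upwards [Ioi_mem_nhds ht] with s hs
      rw [h s (ne_of_gt hs), abs_of_pos hs]
    rw [this.deriv_eq]
    exact ((hasDerivAt_rpow_const (Or.inl ht.ne')).mul_const c).deriv
  have d2 : ∀ t, 0 < t → deriv (deriv g) t = k * ((k - 1) * t ^ (k - 1 - 1)) * c := by
    intro t ht
    have : deriv g =ᶠ[𝓝 t] fun s => k * s ^ (k - 1) * c := by
      filter_upwards [Ioi_mem_nhds ht] with s hs using d1 s hs
    rw [this.deriv_eq]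
    exact (((hasDerivAt_rpow_const (Or.inl ht.ne')).const_mul k).mul_const c).deriv
  have e0 : (fun t => g (-t)) = g := by
    funext t
    by_cases ht : t = 0
    · simp [ht]
    · rw [h t ht, h (-t) (neg_ne_zero.2 ht), abs_neg]
  have e1 : (fun t => deriv g (-t)) = -deriv g := by
    funext t
    have := deriv_comp_neg g t
    rw [e0] at this
    simp [this]
  have e2 : (fun t => deriv (deriv g) (-t)) = deriv (deriv g) := by
    funext t
    have := deriv_comp_neg (deriv g) t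
    rw [e1, deriv.neg] at this
    linarith
  set G := deriv (deriv g) with hG
  have e3 : deriv G 0 = 0 := by
    have := deriv_comp_neg G 0
    rw [e2, neg_zero] at this
    linarith
  have e4 : G 0 = 0 := by
    have l1 : Tendsto G (𝓝[>] 0) (𝓝 (G 0)) := s2.continuous.continuousWithinAt
    have l2 : Tendsto (fun t : ℝ => k * ((k - 1) * t ^ (k - 1 - 1)) * c) (𝓝[>] 0)
        (𝓝 (k * ((k - 1) * (0 : ℝ) ^ (k - 1 - 1)) * c)) :=
      (((continuous_rpow_const (by linarith)).continuousWithinAt.tendsto.const_mul _).const_mul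
        _).mul_const _
    rw [zero_rpow (by linarith)] at l2
    have := tendsto_nhds_unique l1 (l2.congr' (by
      filter_upwards [self_mem_nhdsWithin] with t ht using (d2 t ht).symm))
    simpa using this
  have hd : HasDerivAt G 0 0 := (s2.differentiable one_ne_zero 0).hasDerivAt.congr_deriv e3
  have l3 := (hd.tendsto_slope_zero_right).abs
  have : |c| ≤ |(0 : ℝ)| := by
    refine ge_of_tendsto l3 ?_
    filter_upwards [Ioc_mem_nhdsGT (show (0 : ℝ) < 1 by norm_num)] with t ht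
    rw [zero_add, e4, sub_zero, d2 t ht.1, smul_eq_mul]
    have a1 : t⁻¹ * (k * ((k - 1) * t ^ (k - 1 - 1)) * c) = k * (k - 1) * t ^ (k - 1 - 1 - 1) * c := by
      rw [rpow_sub_one ht.1.ne' (k - 1 - 1)]
      ring
    have a2 : 1 ≤ t ^ (k - 1 - 1 - 1) := one_le_rpow_of_pos_of_le_one_of_nonpos ht.1 ht.2
      (by linarith)
    have a3 : 1 ≤ k * (k - 1) := by nlinarith
    rw [a1, abs_mul, abs_of_pos (by positivity : 0 < k * (k - 1) * t ^ (k - 1 - 1 - 1))]
    exact le_mul_of_one_le_left (abs_nonneg _) (one_le_mul_of_one_le_of_one_le a3 a2)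
  simpa using this

variable {n : ℕ}

theorem two (hn : 8 ≤ n) : ∃ c d : Fin n → ℝ, Two c d := by
  obtain ⟨m, rfl⟩ := Nat.exists_eq_add_of_le hn
  refine ⟨fun i => if i.val < 4 then 1 else 0, fun i => if 4 ≤ i.val ∧ i.val < 8 then 1 else 0,
    ⟨fun i => by split_ifs <;> simp, ⟨0, by omega⟩, ⟨1, by omega⟩, by simp, by simp, by simp⟩,
    ⟨fun i => by split_ifs <;> simp, ⟨4, by omega⟩, ⟨5, by omega⟩, by simp, by simp, by simp⟩,
    fun i => by split_ifs <;> simp <;> omega, ?_, ?_⟩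
  · rw [Fin.sum_univ_eq_sum_range (fun i => if i < 4 then (1 : ℝ) else 0), Finset.sum_range_add,
      Finset.sum_eq_zero (s := Finset.range m) fun i _ => if_neg (by omega)]
    simp only [Finset.sum_range_succ]
    norm_num
  · rw [Fin.sum_univ_eq_sum_range (fun i => if 4 ≤ i ∧ i < 8 then (1 : ℝ) else 0),
      Finset.sum_range_add,
      Finset.sum_eq_zero (s := Finset.range m) fun i _ => if_neg (by omega)]
    simp only [Finset.sum_range_succ]
    norm_num

variable {c d : Fin n → ℝ}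

theorem Two.ae (T : Two c d) : ∀ᵐ z : E n, z ∈ O c d := by
  filter_upwards [T.bc.ae_pos, T.bd.ae_pos] with z h1 h2 using ⟨h1, h2⟩

theorem Two.memLp (T : Two c d) {F : Type*} [NormedAddCommGroup F] {f : E n → F}
    (hf : ContinuousOn f (O c d)) (hb : ∀ ρ, ∃ C, ∀ z ∈ O c d, ‖z‖ ≤ ρ → ‖f z‖ ≤ C)
    {K : Set (E n)} (hK : IsCompact K) (p : ENNReal) : MemLp f p (volume.restrict K) := by
  have hm : AEStronglyMeasurable f volume := by
    have := hf.aestronglyMeasurable (μ := volume) (O_open c d).measurableSet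
    rwa [Measure.restrict_eq_self_of_ae_mem T.ae] at this
  obtain ⟨R, hR⟩ := hK.isBounded.subset_closedBall (0 : E n)
  obtain ⟨C, hC⟩ := hb R
  have : IsFiniteMeasure (volume.restrict K) := isFiniteMeasure_restrict.2 hK.measure_lt_top.ne
  refine MemLp.of_bound hm.restrict C ?_
  filter_upwards [ae_restrict_mem hK.measurableSet, ae_restrict_of_ae T.ae] with z h1 h2
  exact hC z h2 (mem_closedBall_zero_iff.1 (hR h1))

theorem Two.integ (T : Two c d) {f w : E n → ℝ}
    (hf : ContinuousOn f (O c d)) (hb : ∀ ρ, ∃ C, ∀ z ∈ O c d, ‖z‖ ≤ ρ → ‖f z‖ ≤ C)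
    (hw : Continuous w) (hs : HasCompactSupport w) : Integrable fun z => f z * w z := by
  refine (integrableOn_iff_integrable_of_support_subset (s := tsupport w) fun z hz => ?_).1 ?_
  · by_contra h
    exact hz (by simp [image_eq_zero_of_notMem_tsupport h])
  · exact IntegrableOn.mul_continuousOn
      (memLp_one_iff_integrable.1 (T.memLp hf hb hs.isCompact 1)) hw.continuousOn hs.isCompact

theorem inner_grad (φ : E n → ℝ) (z v : E n) :
    inner ℝ v (gradient φ z) = ∑ i, v i * fderiv ℝ φ z (bb i) := by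
  rw [real_inner_comm, gradient, InnerProductSpace.toDual_symm_apply]
  conv_lhs => rw [← (EuclideanSpace.basisFun (Fin n) ℝ).sum_repr v]
  simp [bb]

theorem main (hn : 8 ≤ n) {p : ℝ} (h1 : 1 < p) (h2 : p ≤ 4 / 3) :
    ∃ (u : E n → ℝ) (G : E n → E n),
      (∀ K, IsCompact K → ∀ r, MemLp u r (volume.restrict K) ∧ MemLp G r (volume.restrict K)) ∧
      (∀ φ : E n → ℝ, ContDiff ℝ 1 φ → HasCompactSupport φ →
        (∀ i, ∫ z, u z * fderiv ℝ φ z (EuclideanSpace.single i 1) = -∫ z, G z i * φ z) ∧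
        ∫ z, ‖G z‖ ^ (p - 2) * inner ℝ (G z) (gradient φ z) = 0) ∧
      ∀ v : E n → ℝ, v =ᵐ[volume] u → ¬ContDiff ℝ 3 v := by
  obtain ⟨c, d, T⟩ := two hn
  obtain ⟨P⟩ := data (e := p - 1) (by linarith) (by linarith)
  have cu : ContinuousOn (P.u c d) (O c d) := (H_smooth _ P.sf).continuousOn
  have cGi : ∀ i, ContinuousOn (fun z => P.G c d z i) (O c d) := fun i =>
    (W_smooth _ (P.sA 1) (P.sB 1) i).continuousOn
  have cG : ContinuousOn (P.G c d) (O c d) :=
    (PiLp.continuous_toLp 2 _).comp_continuousOn (continuousOn_pi.2 cGi)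
  have bu : ∀ ρ, ∃ C, ∀ z ∈ O c d, ‖z‖ ≤ ρ → ‖P.u c d z‖ ≤ C := fun ρ =>
    (P.bdd T ρ).imp fun C h z hz hr => (h z hz hr).1
  have bG : ∀ ρ, ∃ C, ∀ z ∈ O c d, ‖z‖ ≤ ρ → ‖P.G c d z‖ ≤ C := fun ρ =>
    (P.bdd T ρ).imp fun C h z hz hr => (h z hz hr).2
  refine ⟨P.u c d, P.G c d, fun K hK r => ⟨T.memLp cu bu hK r, T.memLp cG bG hK r⟩,
    fun φ hφ hs => ⟨fun i => ?_, ?_⟩, fun v hv hs => ?_⟩
  · have := P.weak1 T φ hφ hs i
    rw [integral_add (T.integ cu bu ((hφ.continuous_fderiv one_ne_zero).clm_apply continuous_const)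
      (hs.fderiv_apply ℝ _)) (T.integ (cGi i) (fun ρ => (bG ρ).imp fun C h z hz hr =>
        (PiLp.norm_apply_le (P.G c d z) i).trans (h z hz hr)) hφ.continuous hs)] at this
    exact eq_neg_of_add_eq_zero_left this
  · have := P.weak2 T (by linarith) φ hφ hs
    rw [show p - 1 - 1 = p - 2 by ring] at this
    simpa only [inner_grad] using this
  · have he := Measure.eqOn_open_of_ae_eq (ae_restrict_of_ae hv) (O_open c d)
      hs.continuous.continuousOn cu
    obtain ⟨z, hz, hne⟩ := P.nz T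
    refine hne (noC3 (g := fun t : ℝ => v (t • z)) (hs.comp (by fun_prop)) P.k2 P.k3 fun t ht => ?_)
    obtain ⟨a, b⟩ := P.hom hz ht
    rw [he a, b]

end Pool.Agent.H92.PH
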