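import Mathlib
import Pool.Agent.H92.AM2
import Pool.Agent.H92.PH5

namespace Pool.Agent.H92.AM

open Set Filter Topology Real MeasureTheory Pool.Agent.H92.PH

variable {n : ℕ} (o : Fin n)

noncomputable def dd (i : Fin n) : ℝ := if i = o then 0 else 1

noncomputable def r2 (z : E n) : ℝ := z o ^ 2 + q (dd o) z

noncomputable def ang (z : E n) : ℝ := arsinh (z o / √(q (dd o) z))

noncomputable def H (ν : ℝ) (h : ℝ → ℝ) (z : E n) : ℝ := r2 o z ^ ν * h (ang o z)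

noncomputable def W (μ : ℝ) (A B : ℝ → ℝ) (i : Fin n) (z : E n) : ℝ :=
  (1 - dd o i) * H o (μ / 2) A z + dd o i * z i * H o ((μ - 1) / 2) B z

abbrev U : Set (E n) := O (dd o) (dd o)

theorem r2_eq (z : E n) : r2 o z = ‖z‖ ^ 2 := by
  rw [EuclideanSpace.real_norm_sq_eq, r2, q, ← Finset.add_sum_erase _ _ (Finset.mem_univ o),
    ← Finset.add_sum_erase _ _ (Finset.mem_univ o)]
  simp only [dd, if_true, zero_mul, zero_add]
  congr 1
  exact Finset.sum_congr rfl fun i hi => by rw [if_neg (Finset.ne_of_mem_erase hi), one_mul]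

theorem r2_nonneg (z : E n) : 0 ≤ r2 o z := by rw [r2_eq]; positivity

theorem r2_smooth : ContDiff ℝ 1 (r2 o) := ContDiff.add (by fun_prop) (q_smooth _)

theorem sum_c (g : Fin n → ℝ) : ∑ i, (1 - dd o i) * g i = g o := by
  rw [Finset.sum_eq_single o (fun i _ hi => by simp [dd, hi]) (by simp)]
  simp [dd]

theorem sum_d : ∑ i, dd o i = n - 1 := by
  have := sum_c o (fun _ => 1)
  simp only [mul_one, Finset.sum_sub_distrib, Finset.sum_const, Finset.card_univ,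
    Fintype.card_fin, nsmul_eq_mul] at this
  linarith

variable {o}

theorem geo {z : E n} (hz : z ∈ U o) : ∃ y : ℝ, 0 < y ∧ √(q (dd o) z) = y ∧ q (dd o) z = y ^ 2 ∧
    z o = sinh (ang o z) * y ∧ r2 o z = (cosh (ang o z) * y) ^ 2 := by
  have h := sqrt_pos.2 hz.1
  have h1 : z o = sinh (ang o z) * √(q (dd o) z) := by
    rw [ang, sinh_arsinh, div_mul_cancel₀ _ h.ne']
  refine ⟨_, h, rfl, (sq_sqrt hz.1.le).symm, h1, ?_⟩
  rw [r2, mul_pow, cosh_sq, h1, mul_pow, sq_sqrt hz.1.le]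
  ring

theorem r2_pos {z : E n} (hz : z ∈ U o) : 0 < r2 o z := add_pos_of_nonneg_of_pos (sq_nonneg _) hz.1

theorem r2_half {z : E n} (hz : z ∈ U o) {y : ℝ} (hy : 0 < y)
    (h : r2 o z = (cosh (ang o z) * y) ^ 2) (ν : ℝ) :
    r2 o z ^ (ν + 1 / 2) = r2 o z ^ ν * (cosh (ang o z) * y) := by
  rw [rpow_add (r2_pos hz), ← sqrt_eq_rpow]
  congr 1
  rw [h, sqrt_sq (mul_pos (cosh_pos _) hy).le]

theorem H_smooth (ν : ℝ) {h : ℝ → ℝ} (hh : ContDiff ℝ 1 h) : ContDiffOn ℝ 1 (H o ν h) (U o) := by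
  have a1 : ContDiffOn ℝ 1 (ang o) (U o) :=
    (ContDiffOn.div (by fun_prop) ((q_smooth _).contDiffOn.sqrt fun z hz => hz.1.ne')
      fun z hz => (sqrt_pos.2 hz.1).ne').arsinh
  refine ContDiffOn.mul (fun z hz => ?_) (hh.comp_contDiffOn a1)
  exact ((r2_smooth o).contDiffAt.rpow_const_of_ne (r2_pos hz).ne').contDiffWithinAt

theorem W_smooth (μ : ℝ) {A B : ℝ → ℝ} (hA : ContDiff ℝ 1 A) (hB : ContDiff ℝ 1 B) (i : Fin n) :
    ContDiffOn ℝ 1 (W o μ A B i) (U o) :=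
  (contDiffOn_const.mul (H_smooth _ hA)).add (ContDiffOn.mul (by fun_prop) (H_smooth _ hB))

theorem H_d (ν : ℝ) {h : ℝ → ℝ} {h' : ℝ} {z : E n} (hz : z ∈ U o)
    (hh : HasDerivAt h h' (ang o z)) :
    ∃ L : E n →L[ℝ] ℝ, HasFDerivAt (H o ν h) L z ∧ ∀ i, L (bb i) =
      r2 o z ^ ν * (2 * ν * z i * h (ang o z) / r2 o z + h' * ((1 - dd o i) /
        (cosh (ang o z) * √(q (dd o) z)) - dd o i * z i * sinh (ang o z) /
          (cosh (ang o z) * q (dd o) z))) := by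
  have hr := r2_pos hz
  obtain ⟨y, y0, y1, y2, y3, y4⟩ := geo hz
  have h0 : HasFDerivAt (fun z : E n => z o) (EuclideanSpace.proj o : E n →L[ℝ] ℝ) z :=
    (EuclideanSpace.proj o : E n →L[ℝ] ℝ).hasFDerivAt
  have hs := (q_deriv (dd o) z).sqrt hz.1.ne'
  have a0 : HasFDerivAt (fun z : E n => z o / √(q (dd o) z)) _ z :=
    h0.mul ((hasDerivAt_inv (y1 ▸ y0.ne')).comp_hasFDerivAt z hs)
  have a1 : HasFDerivAt (ang o) _ z := a0.arsinh
  have a2 : HasFDerivAt (fun z => r2 o z ^ ν) _ z :=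
    ((h0.pow 2).add (q_deriv (dd o) z)).rpow_const (p := ν) (Or.inl hr.ne')
  refine ⟨_, a2.mul (hh.comp_hasFDerivAt z a1), fun i => ?_⟩
  have hc : √(1 + (z o / y) ^ 2) = cosh (ang o z) := by
    rw [ang, cosh_arsinh, y1]
  have hc0 := (cosh_pos (ang o z)).ne'
  have hb : (bb i : E n) o = 1 - dd o i := by
    by_cases h : i = o
    · simp [bb, dd, h]
    · simp [bb, dd, h, Ne.symm h]
  have hr' : z o ^ 2 + q (dd o) z = r2 o z := rfl
  simp only [Function.comp, _root_.add_apply, _root_.smul_apply, smul_eq_mul, dq_bb,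
    Pi.add_apply, hr', rpow_sub_one hr.ne', EuclideanSpace.coe_proj, hb,
    nsmul_eq_mul, y1, Pi.mul_apply]
  rw [hc, y2]
  by_cases h : i = o
  · simp only [dd, h, if_true]
    field_simp
    norm_num
    ring
  · simp only [dd, h, if_false]
    rw [y3]
    field_simp
    norm_num
    ring

theorem W_div (μ : ℝ) {A B : ℝ → ℝ} {A' B' : ℝ} {z : E n} (hz : z ∈ U o)
    (hA : HasDerivAt A A' (ang o z)) (hB : HasDerivAt B B' (ang o z)) :
    ∑ i, fderiv ℝ (W o μ A B i) z (bb i) = r2 o z ^ ((μ - 1) / 2) *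
      (μ * sinh (ang o z) * A (ang o z) / cosh (ang o z) + A' + (n - 1) * B (ang o z) +
        (μ - 1) * B (ang o z) / cosh (ang o z) ^ 2 - B' * sinh (ang o z) / cosh (ang o z)) := by
  obtain ⟨LA, h1, h2⟩ := H_d (μ / 2) hz hA
  obtain ⟨LB, h3, h4⟩ := H_d ((μ - 1) / 2) hz hB
  obtain ⟨y, y0, y1, y2, y3, y4⟩ := geo hz
  set a := ang o z with ha
  have e : ∀ i, fderiv ℝ (W o μ A B i) z (bb i) =
      (1 - dd o i) * (r2 o z ^ (μ / 2) * (μ * z o * A a / r2 o z + A' / (cosh a * y))) +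
      dd o i * (r2 o z ^ ((μ - 1) / 2) * B a) +
      dd o i * z i ^ 2 * (r2 o z ^ ((μ - 1) / 2) * ((μ - 1) * B a / r2 o z -
        B' * sinh a / (cosh a * q (dd o) z))) := by
    intro i
    have h : HasFDerivAt (fun z : E n => z i) (EuclideanSpace.proj i : E n →L[ℝ] ℝ) z :=
      (EuclideanSpace.proj i : E n →L[ℝ] ℝ).hasFDerivAt
    have h5 : fderiv ℝ (W o μ A B i) z = _ :=
      ((h1.const_mul (1 - dd o i)).add ((h.const_mul (dd o i)).mul h3)).fderiv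
    have h6 : (bb i : E n) i = 1 := by simp [bb]
    rw [h5]
    simp only [_root_.add_apply, _root_.smul_apply, smul_eq_mul, h2, h4, H, ← ha, y1,
      EuclideanSpace.coe_proj, h6]
    by_cases h : i = o <;> simp only [dd, h, if_true, if_false] <;> ring
  simp only [e, Finset.sum_add_distrib, ← Finset.sum_mul, sum_d, Finset.sum_sub_distrib,
    Finset.sum_const, Finset.card_univ, Fintype.card_fin, nsmul_eq_mul]
  change _ + q (dd o) z * _ = _
  have := r2_half hz y0 y4 ((μ - 1) / 2)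
  rw [show (μ - 1) / 2 + 1 / 2 = μ / 2 by ring] at this
  rw [this]
  generalize r2 o z ^ ((μ - 1) / 2) = w
  have := (cosh_pos a).ne'
  rw [y4, y3, y2]
  field_simp
  ring

variable (P : Data)

noncomputable def Data.A (γ a : ℝ) : ℝ :=
  exp (γ * P.R a) * ((sin (P.ψ a) - sinh a * cos (P.ψ a)) / cosh a)
noncomputable def Data.B (γ a : ℝ) : ℝ := -(exp (γ * P.R a) * (cos (P.ψ a) + sinh a * sin (P.ψ a)))
noncomputable def Data.f (a : ℝ) : ℝ := -(exp (P.R a) * cos (P.ψ a)) / P.k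

theorem Data.sψ : ContDiff ℝ 1 P.ψ := by
  rw [contDiff_one_iff_deriv]
  refine ⟨fun a => (P.hψ a).differentiableAt, ?_⟩
  rw [show deriv P.ψ = P.dψ from funext fun a => (P.hψ a).deriv]
  exact P.cψ

theorem Data.sR : ContDiff ℝ 1 P.R := by
  rw [contDiff_one_iff_deriv]
  refine ⟨fun a => (P.hR a).differentiableAt, ?_⟩
  rw [show deriv P.R = P.L from funext fun a => (P.hR a).deriv]
  exact P.cL

theorem Data.sA (γ : ℝ) : ContDiff ℝ 1 (P.A γ) := by
  have := P.sψ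
  have := P.sR
  exact ContDiff.mul (by fun_prop)
    (ContDiff.div (by fun_prop) (by fun_prop) fun a => (cosh_pos a).ne')

theorem Data.sB (γ : ℝ) : ContDiff ℝ 1 (P.B γ) := by
  have := P.sψ
  have := P.sR
  unfold Data.B
  fun_prop

theorem Data.divV (hn : (n : ℝ) = 100000) {z : E n} (hz : z ∈ U o) :
    (0 : ℝ) = ∑ i, fderiv ℝ (W o (3 * (P.k - 1)) (P.A 3) (P.B 3) i) z (bb i) := by
  set a := ang o z with ha
  have hc := (cosh_pos a).ne'
  have hA : HasDerivAt (P.A 3) _ a := ((P.hR a).const_mul 3).exp.mul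
    (((P.hψ a).sin.sub ((hasDerivAt_sinh a).mul (P.hψ a).cos)).div (hasDerivAt_cosh a) hc)
  have hB : HasDerivAt (P.B 3) _ a := (((P.hR a).const_mul 3).exp.mul
    ((P.hψ a).cos.add ((hasDerivAt_sinh a).mul (P.hψ a).sin))).neg
  rw [W_div _ hz hA hB]
  refine (mul_eq_zero_of_right _ ?_).symm
  have h2 := P.e2 a
  have h3 := cosh_sq a
  simp only [← ha, Data.A, Data.B, hn, Pi.add_apply, Pi.sub_apply, Pi.mul_apply, Pi.div_apply]
  field_simp
  linear_combination exp (3 * P.R a) * cosh a ^ 2 * h2 - exp (3 * P.R a) *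
    (cosh a * (3 * P.L a * sin (P.ψ a) + cos (P.ψ a) * P.dψ a) - (3 * P.k - 4) * cos (P.ψ a)) * h3

theorem Data.du {z : E n} (hz : z ∈ U o) : ∃ L : E n →L[ℝ] ℝ,
    HasFDerivAt (H o (P.k / 2) P.f) L z ∧ ∀ i, L (bb i) = W o (P.k - 1) (P.A 1) (P.B 1) i z := by
  have hk : P.k ≠ 0 := by linarith [P.k1]
  set a := ang o z with ha
  have hc := (cosh_pos a).ne'
  have hf : HasDerivAt P.f (exp (P.R a) * sin (P.ψ a) / cosh a) a := by
    refine (((P.hR a).exp.mul (P.hψ a).cos).neg.div_const P.k).congr_deriv ?_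
    have := P.e1 a
    field_simp
    linarith
  obtain ⟨L, h1, h2⟩ := H_d (P.k / 2) hz hf
  refine ⟨L, h1, fun i => ?_⟩
  obtain ⟨y, y0, y1, y2, y3, y4⟩ := geo hz
  have e1 := r2_half hz y0 y4 ((P.k - 1 - 1) / 2)
  have e2 := r2_half hz y0 y4 ((P.k - 1) / 2)
  rw [show (P.k - 1 - 1) / 2 + 1 / 2 = (P.k - 1) / 2 by ring] at e1
  rw [show (P.k - 1) / 2 + 1 / 2 = P.k / 2 by ring, e1] at e2
  rw [h2]
  simp only [W, H, ← ha, Data.A, Data.B, Data.f, one_mul, e1, e2, y1]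
  generalize r2 o z ^ ((P.k - 1 - 1) / 2) = w
  rw [y4, y2]
  by_cases h : i = o
  · simp only [dd, h, if_true]
    rw [y3]
    field_simp
    ring
  · simp only [dd, h, if_false]
    field_simp
    ring

theorem Data.sq {z : E n} (hz : z ∈ U o) : ∑ i, W o (P.k - 1) (P.A 1) (P.B 1) i z ^ 2 =
    r2 o z ^ (P.k - 1) * exp (2 * P.R (ang o z)) := by
  have e : ∀ i, W o (P.k - 1) (P.A 1) (P.B 1) i z ^ 2 =
      (1 - dd o i) * H o ((P.k - 1) / 2) (P.A 1) z ^ 2 +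
      dd o i * z i ^ 2 * H o ((P.k - 1 - 1) / 2) (P.B 1) z ^ 2 := by
    intro i
    unfold W
    by_cases h : i = o <;> simp [dd, h] <;> ring
  simp only [e, Finset.sum_add_distrib]
  rw [sum_c, ← Finset.sum_mul]
  change _ + q (dd o) z * _ = _
  obtain ⟨y, y0, y1, y2, y3, y4⟩ := geo hz
  have e1 := r2_half hz y0 y4 ((P.k - 1 - 1) / 2)
  rw [show (P.k - 1 - 1) / 2 + 1 / 2 = (P.k - 1) / 2 by ring] at e1
  have e2 : r2 o z ^ (P.k - 1) = (r2 o z ^ ((P.k - 1) / 2)) ^ 2 := by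
    rw [← rpow_natCast, ← rpow_mul (r2_nonneg o z)]; congr 1; push_cast; ring
  have e3 : exp (2 * P.R (ang o z)) = exp (P.R (ang o z)) ^ 2 := by
    rw [← exp_nat_mul]; norm_num
  simp only [H, Data.A, Data.B, one_mul, e2, e1, e3, y2]
  have hc := (cosh_pos (ang o z)).ne'
  have h3 := cosh_sq (ang o z)
  have h6 := sin_sq_add_cos_sq (P.ψ (ang o z))
  field_simp
  rw [h3]
  linear_combination (r2 o z ^ ((P.k - 1 - 1) / 2)) ^ 2 * (sinh (ang o z) ^ 2 + 1) * h6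

theorem Data.flux {z : E n} (hz : z ∈ U o) (i : Fin n) :
    r2 o z ^ (P.k - 1) * exp (2 * P.R (ang o z)) * W o (P.k - 1) (P.A 1) (P.B 1) i z =
      W o (3 * (P.k - 1)) (P.A 3) (P.B 3) i z := by
  have hr := r2_pos hz
  have e1 : r2 o z ^ (3 * (P.k - 1) / 2) = r2 o z ^ (P.k - 1) * r2 o z ^ ((P.k - 1) / 2) := by
    rw [← rpow_add hr]; congr 1; ring
  have e2 : r2 o z ^ ((3 * (P.k - 1) - 1) / 2) =
      r2 o z ^ (P.k - 1) * r2 o z ^ ((P.k - 1 - 1) / 2) := by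
    rw [← rpow_add hr]; congr 1; ring
  have e3 : exp (3 * P.R (ang o z)) = exp (2 * P.R (ang o z)) * exp (1 * P.R (ang o z)) := by
    rw [← exp_add]; congr 1; ring
  simp only [W, H, Data.A, Data.B, e1, e2, e3]
  ring

theorem Data.euler {z : E n} (hz : z ∈ U o) :
    ∑ i, W o (P.k - 1) (P.A 1) (P.B 1) i z * z i = P.k * H o (P.k / 2) P.f z := by
  have hk : P.k ≠ 0 := by linarith [P.k1]
  have e : ∀ i, W o (P.k - 1) (P.A 1) (P.B 1) i z * z i =
      (1 - dd o i) * (H o ((P.k - 1) / 2) (P.A 1) z * z i) +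
      dd o i * z i ^ 2 * H o ((P.k - 1 - 1) / 2) (P.B 1) z := by
    intro i
    unfold W
    ring
  simp only [e, Finset.sum_add_distrib, sum_c, ← Finset.sum_mul]
  change _ + q (dd o) z * _ = _
  obtain ⟨y, y0, y1, y2, y3, y4⟩ := geo hz
  have e1 := r2_half hz y0 y4 ((P.k - 1 - 1) / 2)
  have e2 := r2_half hz y0 y4 ((P.k - 1) / 2)
  rw [show (P.k - 1 - 1) / 2 + 1 / 2 = (P.k - 1) / 2 by ring] at e1
  rw [show (P.k - 1) / 2 + 1 / 2 = P.k / 2 by ring, e1] at e2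
  simp only [H, Data.A, Data.B, Data.f, one_mul, e2, e1, y2]
  rw [y3]
  have hc := (cosh_pos (ang o z)).ne'
  have h3 := cosh_sq (ang o z)
  field_simp
  rw [h3]
  ring

end Pool.Agent.H92.AM
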