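import Mathlib
import Pool.Agent.H92.AM3

namespace Pool.Agent.H92.AM

open Set Filter Topology Real MeasureTheory Pool.Agent.H92.PH

variable {n : ℕ} {o : Fin n} (P : Data)

theorem q_nonneg (z : E n) : 0 ≤ q (dd o) z :=
  Finset.sum_nonneg fun i _ => by unfold dd; split_ifs <;> positivity

theorem le_q (z : E n) (i : Fin n) : (dd o i * z i) ^ 2 ≤ q (dd o) z := by
  have := Finset.single_le_sum (f := fun i => dd o i * z i ^ 2)
    (fun i _ => by unfold dd; split_ifs <;> positivity) (Finset.mem_univ i)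
  refine le_trans (le_of_eq ?_) this
  unfold dd; split_ifs <;> simp

theorem off {z : E n} (hz : z ∉ U o) : q (dd o) z = 0 := by
  by_contra h
  exact hz ⟨(q_nonneg z).lt_of_ne' h, (q_nonneg z).lt_of_ne' h⟩

theorem off' {z : E n} (hz : z ∉ U o) (i : Fin n) : dd o i * z i = 0 := by
  have := le_q (o := o) z i
  rw [off hz] at this
  exact pow_eq_zero_iff two_ne_zero |>.1 (le_antisymm this (sq_nonneg _))

open Classical in
noncomputable def Data.a0 (o : Fin n) (z : E n) : ℝ :=
  if z ∈ U o then H o ((P.k - 1) / 2) (P.A 1) z else r2 o z ^ ((P.k - 2) / 2) * z o * exp P.Ri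

noncomputable def Data.G (o : Fin n) (z : E n) : E n := WithLp.toLp 2 fun i =>
  (1 - dd o i) * P.a0 o z + dd o i * z i * H o ((P.k - 1 - 1) / 2) (P.B 1) z

theorem Data.G_eq {z : E n} (hz : z ∈ U o) (i : Fin n) :
    P.G o z i = W o (P.k - 1) (P.A 1) (P.B 1) i z := by
  simp only [Data.G, Data.a0, if_pos hz, W]

theorem Data.absA (a : ℝ) : |P.A 1 a| ≤ exp P.M := by
  rw [Data.A, abs_mul, abs_of_pos (exp_pos _), one_mul]
  refine (mul_le_of_le_one_right (exp_pos _).le ?_).trans (exp_le_exp.2 (P.bd a))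
  rw [abs_div, abs_of_pos (cosh_pos a), div_le_one (cosh_pos a)]
  refine abs_le.2 (abs_le_of_sq_le_sq' ?_ (cosh_pos a).le)
  nlinarith [cosh_sq a, sin_sq_add_cos_sq (P.ψ a), sq_nonneg (cos (P.ψ a) + sinh a * sin (P.ψ a))]

theorem Data.c1 (i : Fin n) :
    Continuous fun z : E n => dd o i * z i * H o ((P.k - 1 - 1) / 2) (P.B 1) z := by
  rw [continuous_iff_continuousAt]
  intro z
  by_cases hz : z ∈ U o
  · exact (ContinuousOn.mul (by fun_prop) (H_smooth _ (P.sB 1)).continuousOn).continuousAt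
      ((O_open _ _).mem_nhds hz)
  have k1 := P.k1
  rw [ContinuousAt, off' hz, zero_mul]
  refine squeeze_zero_norm (a := fun w : E n => |dd o i * w i| ^ (P.k - 1) * 2) (fun w => ?_) ?_
  · by_cases h : dd o i * w i = 0
    · rw [h]; simp; positivity
    have h1 : 0 < |dd o i * w i| := abs_pos.2 h
    rw [Real.norm_eq_abs, abs_mul (dd o i * w i), H, abs_mul (r2 o w ^ _), ← mul_assoc]
    refine mul_le_mul ?_ ?_ (abs_nonneg _) (by positivity)
    · rw [abs_of_nonneg (rpow_nonneg (r2_nonneg o w) _)]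
      have h2 : |dd o i * w i| ^ 2 ≤ r2 o w := by
        rw [sq_abs]; exact (le_q w i).trans (le_add_of_nonneg_left (sq_nonneg _))
      have h3 := rpow_le_rpow_of_nonpos (by positivity) h2
        (show (P.k - 1 - 1) / 2 ≤ 0 by linarith [P.k2])
      refine (mul_le_mul_of_nonneg_left h3 h1.le).trans (le_of_eq ?_)
      rw [← rpow_natCast, ← rpow_mul h1.le, mul_comm, ← rpow_add_one h1.ne']
      congr 1; push_cast; ring
    · rw [Data.B, abs_neg, one_mul]; exact P.bβ _
  · have : Continuous fun w : E n => |dd o i * w i| ^ (P.k - 1) * 2 :=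
      ((continuous_rpow_const (by linarith)).comp (by fun_prop)).mul continuous_const
    have h := this.tendsto z
    rwa [off' hz, abs_zero, zero_rpow (by linarith), zero_mul] at h

theorem q_neg (z : E n) : q (dd o) (-z) = q (dd o) z := by simp [q]

theorem Data.a0_neg (z : E n) : P.a0 o (-z) = -P.a0 o z := by
  have h1 : -z ∈ U o ↔ z ∈ U o := by simp [O, q_neg]
  have h2 : r2 o (-z) = r2 o z := by simp [r2, q_neg]
  have h3 : ang o (-z) = -ang o z := by simp [ang, q_neg, neg_div]
  unfold Data.a0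
  by_cases hz : z ∈ U o
  · rw [if_pos hz, if_pos (h1.2 hz), H, H, h2, h3]
    simp only [Data.A, P.odd, P.even, sin_neg, cos_neg, sinh_neg, cosh_neg]
    ring
  · rw [if_neg hz, if_neg (h1.not.2 hz), h2]
    simp

theorem Data.c0pos {z : E n} (hz : z ∉ U o) (h0 : 0 < z o) : ContinuousAt (P.a0 o) z := by
  have hr : r2 o z = z o ^ 2 := by rw [r2, off hz, add_zero]
  have hr0 : 0 < r2 o z := by rw [hr]; positivity
  have cr := (r2_smooth o).continuous
  rw [ContinuousAt, ← nhdsWithin_univ, ← union_compl_self (U o), nhdsWithin_union, tendsto_sup]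
  constructor
  · have t1 : Tendsto (fun w : E n => √(q (dd o) w)) (𝓝[U o] z) (𝓝[>] 0) := by
      refine tendsto_nhdsWithin_iff.2 ⟨?_, ?_⟩
      · have := ((q_smooth (dd o)).continuous.sqrt.tendsto z).mono_left
          (nhdsWithin_le_nhds (s := U o))
        rwa [off hz, sqrt_zero] at this
      · filter_upwards [self_mem_nhdsWithin] with w hw using sqrt_pos.2 hw.1
    have t2 : Tendsto (fun w : E n => w o / √(q (dd o) w)) (𝓝[U o] z) atTop :=
      Tendsto.pos_mul_atTop h0 (((by fun_prop : Continuous fun w : E n => w o).tendsto z).mono_left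
        nhdsWithin_le_nhds) (tendsto_inv_nhdsGT_zero.comp t1)
    have t3 : Tendsto arsinh atTop atTop := tendsto_atTop_atTop_of_monotone
      arsinh_strictMono.monotone fun b => ⟨sinh b, (arsinh_sinh b).ge⟩
    have t4 := P.lim.comp (t3.comp t2)
    have t5 : Tendsto (fun w => r2 o w ^ ((P.k - 1) / 2)) (𝓝[U o] z)
        (𝓝 (r2 o z ^ ((P.k - 1) / 2))) :=
      (cr.continuousAt.rpow_const (Or.inl hr0.ne')).tendsto.mono_left nhdsWithin_le_nhds
    have e : P.a0 o z = r2 o z ^ ((P.k - 1) / 2) * exp P.Ri := by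
      rw [Data.a0, if_neg hz, show (P.k - 1) / 2 = (P.k - 2) / 2 + 1 / 2 by ring, rpow_add hr0,
        ← sqrt_eq_rpow]
      congr 2
      rw [hr, sqrt_sq h0.le]
    rw [e]
    refine (t5.mul t4).congr' ?_
    filter_upwards [self_mem_nhdsWithin] with w hw
    simp only [Data.a0, if_pos hw, H, Data.A, one_mul, Function.comp, ang]
  · have : ContinuousAt (fun w : E n => r2 o w ^ ((P.k - 2) / 2) * w o * exp P.Ri) z :=
      ((cr.continuousAt.rpow_const (Or.inl hr0.ne')).mul (by fun_prop)).mul continuousAt_const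
    rw [Data.a0, if_neg hz]
    refine (this.tendsto.mono_left nhdsWithin_le_nhds).congr' ?_
    filter_upwards [self_mem_nhdsWithin] with w hw
    rw [Data.a0, if_neg hw]

theorem Data.c0 : Continuous (P.a0 o) := by
  rw [continuous_iff_continuousAt]
  intro z
  by_cases hz : z ∈ U o
  · refine ((H_smooth ((P.k - 1) / 2) (P.sA 1)).continuousOn.continuousAt
      ((O_open _ _).mem_nhds hz)).congr ?_
    filter_upwards [(O_open _ _).mem_nhds hz] with w hw
    rw [Data.a0, if_pos hw]
  rcases lt_trichotomy 0 (z o) with h | h | h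
  · exact P.c0pos hz h
  · have k1 := P.k1
    have hr : r2 o z = 0 := by rw [r2, off hz, ← h]; simp
    have e : P.a0 o z = 0 := by rw [Data.a0, if_neg hz, ← h]; simp
    rw [ContinuousAt, e]
    refine squeeze_zero_norm (a := fun w : E n => r2 o w ^ ((P.k - 1) / 2) * (exp P.M + exp P.Ri))
      (fun w => ?_) ?_
    · have h1 := rpow_nonneg (r2_nonneg o w) ((P.k - 1) / 2)
      rw [Real.norm_eq_abs, Data.a0]
      split_ifs with hw
      · rw [H, abs_mul, abs_of_nonneg h1]
        exact mul_le_mul_of_nonneg_left ((P.absA _).trans (le_add_of_nonneg_right (exp_pos _).le)) h1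
      · rw [abs_mul, abs_of_pos (exp_pos _)]
        refine mul_le_mul (le_of_eq ?_) (le_add_of_nonneg_left (exp_pos _).le) (exp_pos _).le h1
        have hr : r2 o w = w o ^ 2 := by rw [r2, off hw, add_zero]
        rw [abs_mul, abs_of_nonneg (rpow_nonneg (r2_nonneg o w) _),
          show (P.k - 1) / 2 = (P.k - 2) / 2 + 1 / 2 by ring,
          rpow_add' (r2_nonneg o w) (by linarith), ← sqrt_eq_rpow]
        congr 1
        rw [hr, sqrt_sq_eq_abs]
    · have : Continuous fun w : E n => r2 o w ^ ((P.k - 1) / 2) * (exp P.M + exp P.Ri) :=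
        ((continuous_rpow_const (by linarith)).comp (r2_smooth o).continuous).mul continuous_const
      have h := this.tendsto z
      rwa [hr, zero_rpow (by linarith), zero_mul] at h
  · have h1 : -z ∉ U o := by simpa [O, q_neg] using hz
    have h2 := ((P.c0pos h1 (by simpa using h)).comp (continuous_neg.continuousAt (x := z))).neg
    refine h2.congr (Eventually.of_forall fun w => ?_)
    simp [P.a0_neg]

theorem Data.cG : Continuous (P.G o) :=
  (PiLp.continuous_toLp 2 _).comp (continuous_pi fun i => (continuous_const.mul P.c0).add (P.c1 i))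

noncomputable def Data.u (o : Fin n) (z : E n) : ℝ := (∑ i, P.G o z i * z i) / P.k

theorem Data.cu : Continuous (P.u o) := by
  have := P.cG (o := o)
  refine Continuous.div_const (continuous_finsetSum _ fun i _ => Continuous.mul ?_ (by fun_prop)) _
  exact (continuous_apply i).comp ((PiLp.continuous_ofLp 2 _).comp this)

theorem Data.u_eq {z : E n} (hz : z ∈ U o) : P.u o z = H o (P.k / 2) P.f z := by
  have hk : P.k ≠ 0 := by linarith [P.k1]
  simp only [Data.u, P.G_eq hz, P.euler hz]
  field_simp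

theorem Data.dU {z : E n} (hz : z ∈ U o) :
    HasFDerivAt (P.u o) (InnerProductSpace.toDual ℝ _ (P.G o z)) z := by
  obtain ⟨L, h1, h2⟩ := P.du hz
  refine (h1.congr_of_eventuallyEq ?_).congr_fderiv (ContinuousLinearMap.ext fun v => ?_)
  · filter_upwards [(O_open _ _).mem_nhds hz] with w hw using P.u_eq hw
  · conv_lhs => rw [← (EuclideanSpace.basisFun (Fin n) ℝ).sum_repr v]
    have : ∀ i, L (EuclideanSpace.single i 1) = P.G o z i := fun i => (h2 i).trans (P.G_eq hz i).symm
    simp [this, PiLp.inner_apply]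

theorem Data.dAll {j : Fin n} (hj : j ≠ o) (z : E n) :
    HasFDerivAt (P.u o) (InnerProductSpace.toDual ℝ _ (P.G o z)) z := by
  have hU : ∀ w : E n, w j ≠ 0 → w ∈ U o := fun w hw => by
    by_contra h
    have := off' h j
    simp [dd, hj, hw] at this
  have cT : Continuous fun w => InnerProductSpace.toDual ℝ _ (P.G o w) :=
    (InnerProductSpace.toDual ℝ (E n)).continuous.comp P.cG
  have key : ∀ s : Set (E n), Convex ℝ s → IsOpen s → s ⊆ U o →
      HasFDerivWithinAt (P.u o) (InnerProductSpace.toDual ℝ _ (P.G o z)) (closure s) z := by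
    intro s h1 h2 h3
    refine hasFDerivWithinAt_closure_of_tendsto_fderiv
      (fun w hw => (P.dU (h3 hw)).differentiableAt.differentiableWithinAt) h1 h2
      (fun w _ => P.cu.continuousWithinAt)
      (((cT.tendsto z).mono_left nhdsWithin_le_nhds).congr' ?_)
    filter_upwards [self_mem_nhdsWithin] with w hw using (P.dU (h3 hw)).fderiv.symm
  have lin : IsLinearMap ℝ fun w : E n => w j := ⟨fun _ _ => rfl, fun _ _ => rfl⟩
  have := (key {w | w j < 0} (convex_halfSpace_lt lin 0) (isOpen_lt (by fun_prop) continuous_const)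
    fun w hw => hU w (ne_of_lt hw)).union
    (key {w | 0 < w j} (convex_halfSpace_gt lin 0) (isOpen_lt continuous_const (by fun_prop))
      fun w hw => hU w (ne_of_gt hw))
  have hd : closure ({w : E n | w j < 0} ∪ {w | 0 < w j}) = univ :=
    (Measure.dense_of_ae (μ := volume) (p := fun w : E n => w j < 0 ∨ 0 < w j)
      ((ae_ne j).mono fun w hw => lt_or_gt_of_ne hw)).closure_eq
  rwa [← closure_union, hd, hasFDerivWithinAt_univ] at this

theorem Data.weak (hn : (n : ℝ) = 100000) (hB : Blk (dd o)) (φ : E n → ℝ) (hφ : ContDiff ℝ 1 φ)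
    (hs : HasCompactSupport φ) :
    ∫ z, ‖P.G o z‖ ^ (2 : ℝ) * inner ℝ (P.G o z) (gradient φ z) = 0 := by
  have hN : ∀ z ∈ U o, ‖P.G o z‖ ^ 2 = r2 o z ^ (P.k - 1) * exp (2 * P.R (ang o z)) := by
    intro z hz
    rw [EuclideanSpace.real_norm_sq_eq]
    simp only [P.G_eq hz, P.sq hz]
  have := remov hB hB (W o (3 * (P.k - 1)) (P.A 3) (P.B 3)) (fun _ => 0)
    (fun j => W_smooth _ (P.sA 3) (P.sB 3) j) (fun z hz => P.divV hn hz)
    (fun ρ => by
      obtain ⟨C, hC⟩ := (isCompact_closedBall (0 : E n) ρ).exists_bound_of_continuousOn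
        (P.cG (o := o)).continuousOn
      refine ⟨|C| ^ 2 * |C|, fun z hz h => ⟨fun j => ?_, by simp; positivity⟩⟩
      have h1 := (hC z (mem_closedBall_zero_iff.2 h)).trans (le_abs_self C)
      rw [← P.flux hz, ← hN z hz, ← P.G_eq hz, abs_mul, abs_of_nonneg (sq_nonneg _)]
      exact mul_le_mul (pow_le_pow_left₀ (norm_nonneg _) h1 2)
        ((PiLp.norm_apply_le (P.G o z) j).trans h1) (abs_nonneg _) (by positivity)) φ hφ hs
  rw [← this]
  refine integral_congr_ae ?_
  filter_upwards [hB.ae_pos] with z h1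
  have hz : z ∈ U o := ⟨h1, h1⟩
  simp only [zero_mul, add_zero, inner_grad, Finset.mul_sum, ← P.flux hz, rpow_two, hN z hz,
    P.G_eq hz, mul_assoc]

theorem Data.ub {z : E n} (hz : z ∈ U o) :
    P.u o z ≤ 22400 * (‖z‖ ^ (P.k - 2) * z o ^ 2) - 49 / 100 * ‖z‖ ^ P.k := by
  obtain ⟨y, y0, y1, y2, y3, y4⟩ := geo hz
  have hr := r2_pos hz
  have hc := cosh_pos (ang o z)
  have h0 : 0 < ‖z‖ := by
    rw [r2_eq] at hr
    exact (norm_nonneg z).lt_of_ne fun h => by simp [← h] at hr
  have e1 : r2 o z ^ (P.k / 2) = ‖z‖ ^ P.k := by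
    rw [r2_eq, ← rpow_natCast, ← rpow_mul h0.le]; congr 1; push_cast; ring
  have e2 : ‖z‖ ^ (P.k - 2) * z o ^ 2 = ‖z‖ ^ P.k * (sinh (ang o z) / cosh (ang o z)) ^ 2 := by
    rw [rpow_sub h0, rpow_two, ← r2_eq o, y4, y3]
    field_simp
  rw [P.u_eq hz, H, e1, e2]
  have := mul_le_mul_of_nonneg_left (P.bf (ang o z)) (rpow_nonneg h0.le P.k)
  unfold Data.f
  linarith

theorem Data.eq {j : Fin n} (hj : j ≠ o) {t : ℝ} (ht : 0 < t) :
    P.u o (t • bb j) ≤ -(1 / 2) * t ^ P.k := by
  have h1 : (t • bb j : E n) o = 0 := by simp [bb, hj.symm]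
  have h2 : r2 o (t • bb j) = t ^ 2 := by
    rw [r2_eq, norm_smul, bb, PiLp.norm_single]; simp
  have h3 : q (dd o) (t • bb j) = t ^ 2 := by rw [← h2, r2, h1]; ring
  have hz : t • bb j ∈ U o := ⟨by rw [h3]; positivity, by rw [h3]; positivity⟩
  have h4 : ang o (t • bb j) = 0 := by rw [ang, h1]; simp
  have e1 : (t ^ 2) ^ (P.k / 2) = t ^ P.k := by
    rw [← rpow_natCast, ← rpow_mul ht.le]; congr 1; push_cast; ring
  rw [P.u_eq hz, H, h2, h4, e1, Data.f, P.R0, P.ψ0, mul_comm]
  refine mul_le_mul_of_nonneg_right ?_ (by positivity)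
  rw [div_le_iff₀ (by linarith [P.k1])]
  simp
  linarith [P.k2]

end Pool.Agent.H92.AM
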