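import Mathlib
import Pool.Agent.H92.AM4

namespace Pool.Agent.H92.AM

open Set Filter Topology Real MeasureTheory Pool.Agent.H92.PH Metric

variable {n : ℕ} {o : Fin n}

theorem g_le {k : ℝ} (hk : 0 < k) (z : E n) (i : Fin n) : ‖z‖ ^ (k - 2) * z i ^ 2 ≤ ‖z‖ ^ k := by
  have h1 : z i ^ 2 ≤ ‖z‖ ^ 2 := by
    rw [← sq_abs]; exact pow_le_pow_left₀ (abs_nonneg _) (PiLp.norm_apply_le z i) 2
  refine (mul_le_mul_of_nonneg_left h1 (by positivity)).trans (le_of_eq ?_)
  rw [← rpow_two, ← rpow_add' (norm_nonneg _) (by linarith), sub_add_cancel]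

theorem int_pow {k : ℝ} (hk : 0 < k) (ε : ℝ) :
    IntegrableOn (fun z : E n => ‖z‖ ^ k) (ball 0 ε) :=
  (((continuous_rpow_const hk.le).comp continuous_norm).continuousOn.integrableOn_compact
    (isCompact_closedBall 0 ε)).mono_set ball_subset_closedBall

theorem int_g {k : ℝ} (hk : 0 < k) (ε : ℝ) (i : Fin n) :
    IntegrableOn (fun z : E n => ‖z‖ ^ (k - 2) * z i ^ 2) (ball 0 ε) := by
  refine (int_pow hk ε).mono' (Measurable.aestronglyMeasurable (by fun_prop))
    (Eventually.of_forall fun z => ?_)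
  rw [Real.norm_eq_abs, abs_of_nonneg (by positivity)]
  exact g_le hk z i

theorem sym (k ε : ℝ) (i : Fin n) : ∫ z in ball (0 : E n) ε, ‖z‖ ^ (k - 2) * z i ^ 2 =
    ∫ z in ball (0 : E n) ε, ‖z‖ ^ (k - 2) * z o ^ 2 := by
  set e := LinearIsometryEquiv.piLpCongrLeft 2 ℝ ℝ (Equiv.swap o i)
  have := e.measurePreserving.setIntegral_preimage_emb e.toHomeomorph.measurableEmbedding
    (fun z : E n => ‖z‖ ^ (k - 2) * z o ^ 2) (ball 0 ε)
  rw [← this, e.preimage_ball, map_zero]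
  refine integral_congr_ae (Eventually.of_forall fun z => ?_)
  simp [e, Equiv.piCongrLeft'_apply]

theorem mean {k : ℝ} (hk : 0 < k) (ε : ℝ) :
    n * ∫ z in ball (0 : E n) ε, ‖z‖ ^ (k - 2) * z o ^ 2 = ∫ z in ball (0 : E n) ε, ‖z‖ ^ k := by
  have : ∀ z : E n, ‖z‖ ^ k = ∑ i, ‖z‖ ^ (k - 2) * z i ^ 2 := fun z => by
    rw [← Finset.mul_sum, ← EuclideanSpace.real_norm_sq_eq, ← rpow_two,
      ← rpow_add' (norm_nonneg _) (by linarith), sub_add_cancel]
  simp only [this]
  rw [integral_finsetSum _ fun i _ => int_g hk ε i]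
  simp [sym (o := o) k ε]

theorem low (hn : 300 ≤ n) {k ε : ℝ} (hk : 0 < k) (k2 : k ≤ 2) (hε : 0 < ε) :
    9 / 10 * ε ^ k * volume.real (ball (0 : E n) ε) ≤ ∫ z in ball (0 : E n) ε, ‖z‖ ^ k := by
  have hsub : ball (0 : E n) (99 / 100 * ε) ⊆ ball 0 ε := ball_subset_ball (by linarith)
  have h1 : ∫ z in ball (0 : E n) ε \ ball 0 (99 / 100 * ε), ‖z‖ ^ k ≤
      ∫ z in ball (0 : E n) ε, ‖z‖ ^ k :=
    setIntegral_mono_set (int_pow hk ε) (Eventually.of_forall fun z => by positivity)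
      sdiff_subset.eventuallyLE
  have h2 := setIntegral_ge_of_const_le_real (μ := volume) (c := (99 / 100) ^ 2 * ε ^ k)
    (s := ball (0 : E n) ε \ ball 0 (99 / 100 * ε)) (f := fun z => ‖z‖ ^ k)
    (measurableSet_ball.diff measurableSet_ball)
    ((measure_mono sdiff_subset).trans_lt measure_ball_lt_top).ne (fun z hz => by
      have h3 : 99 / 100 * ε ≤ ‖z‖ := by simpa using hz.2
      refine le_trans ?_ (rpow_le_rpow (by positivity) h3 hk.le)
      rw [mul_rpow (by norm_num) hε.le, ← rpow_two]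
      exact mul_le_mul_of_nonneg_right
        (rpow_le_rpow_of_exponent_ge (by norm_num) (by norm_num) k2) (by positivity))
    ((int_pow hk ε).mono_set sdiff_subset)
  have hV : ∀ r, 0 < r → volume.real (ball (0 : E n) r) = r ^ n * volume.real (ball (0 : E n) 1) := by
    intro r hr
    rw [measureReal_def, Measure.addHaar_ball_of_pos _ _ hr, ENNReal.toReal_mul,
      ENNReal.toReal_ofReal (by positivity), finrank_euclideanSpace_fin, measureReal_def]
  rw [measureReal_sdiff hsub measurableSet_ball measure_ball_lt_top.ne, hV _ hε,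
    hV (99 / 100 * ε) (by positivity), mul_pow] at h2
  rw [hV _ hε]
  have h4 : (99 / 100 : ℝ) ^ n ≤ 1 / 20 :=
    (pow_le_pow_of_le_one (by norm_num) (by norm_num) hn).trans (by
      rw [show 300 = 100 * 3 from rfl, pow_mul]
      exact (pow_le_pow_left₀ (by positivity) (show (99 / 100 : ℝ) ^ 100 ≤ 367 / 1000 by norm_num)
        3).trans (by norm_num))
  have h5 : 0 ≤ ε ^ k * (ε ^ n * volume.real (ball (0 : E n) 1)) := by positivity
  have h6 := mul_le_mul_of_nonneg_right h4 h5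
  nlinarith

theorem final (hn : n = 100000) : ∃ u : E n → ℝ, ContDiff ℝ 1 u ∧
    (∀ φ : E n → ℝ, ContDiff ℝ 1 φ → HasCompactSupport φ →
      ∫ y, ‖gradient u y‖ ^ ((4 : ℝ) - 2) * inner ℝ (gradient u y) (gradient φ y) = 0) ∧
    ∀ ε : ℝ, 0 < ε → ε ≤ 1 → 1 / 1000 * ε ^ 2 ≤ u 0 - (((4 : ℝ) - 2) / (2 * (4 + (n : ℝ))) *
      (sSup (u '' closedBall 0 ε) + sInf (u '' closedBall 0 ε)) +
        ((n : ℝ) + 2) / (4 + (n : ℝ)) * ⨍ y in ball (0 : E n) ε, u y) := by
  obtain ⟨P⟩ := data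
  have hn' : (n : ℝ) = 100000 := by rw [hn]; norm_num
  set o : Fin n := ⟨0, by omega⟩
  have hj : (⟨1, by omega⟩ : Fin n) ≠ o := by simp [o]
  have hB : Blk (dd o) := ⟨fun i => by unfold dd; split_ifs <;> simp,
    ⟨1, by omega⟩, ⟨2, by omega⟩, by simp, by simp [dd, o], by simp [dd, o]⟩
  have hae : ∀ᵐ z : E n, z ∈ U o := hB.ae_pos.mono fun z h => ⟨h, h⟩
  have hk : 0 < P.k := by linarith [P.k1]
  have hg : ∀ y, gradient (P.u o) y = P.G o y := fun y =>
    (hasGradientAt_iff_hasFDerivAt.2 (P.dAll hj y)).gradient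
  refine ⟨P.u o, contDiff_one_iff_hasFDerivAt.2 ⟨_,
    (InnerProductSpace.toDual ℝ (E n)).continuous.comp P.cG, P.dAll hj⟩, fun φ h1 h2 => ?_,
    fun ε h0 h1 => ?_⟩
  · simp only [hg]
    rw [show (4 : ℝ) - 2 = 2 by norm_num]
    exact P.weak hn' hB φ h1 h2
  have u0 : P.u o 0 = 0 := by simp [Data.u]
  have a1 : ∀ z, P.u o z ≤ 22400 * ‖z‖ ^ P.k := fun z =>
    (Measure.dense_of_ae hae).induction (P := fun z => P.u o z ≤ 22400 * ‖z‖ ^ P.k)
      (fun z hz => by
        have := P.ub hz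
        have := g_le hk z o
        have := rpow_nonneg (norm_nonneg z) P.k
        linarith)
      (isClosed_le P.cu (continuous_const.mul ((continuous_rpow_const hk.le).comp continuous_norm))) z
  have a2 : sSup (P.u o '' closedBall 0 ε) ≤ 22400 * ε ^ P.k := by
    refine csSup_le ⟨_, 0, mem_closedBall_self h0.le, rfl⟩ ?_
    rintro _ ⟨z, hz, rfl⟩
    have := rpow_le_rpow (norm_nonneg z) (mem_closedBall_zero_iff.1 hz) hk.le
    linarith [a1 z]
  have a3 : sInf (P.u o '' closedBall 0 ε) ≤ 0 :=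
    csInf_le ((isCompact_closedBall 0 ε).image P.cu).bddBelow ⟨0, mem_closedBall_self h0.le, u0⟩
  have a4 : ∫ z in ball (0 : E n) ε, P.u o z ≤ ∫ z in ball (0 : E n) ε,
      (22400 * (‖z‖ ^ (P.k - 2) * z o ^ 2) - 49 / 100 * ‖z‖ ^ P.k) :=
    integral_mono_ae ((P.cu.continuousOn.integrableOn_compact
      (isCompact_closedBall 0 ε)).mono_set ball_subset_closedBall)
      (((int_g hk ε o).const_mul _).sub ((int_pow hk ε).const_mul _))
      (ae_restrict_of_ae (hae.mono fun z hz => P.ub hz))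
  rw [integral_sub ((int_g hk ε o).const_mul _) ((int_pow hk ε).const_mul _), integral_const_mul,
    integral_const_mul] at a4
  have a5 := mean (o := o) hk ε
  have a6 := low (n := n) (by omega) hk P.k2 h0
  have hV : 0 < volume.real (ball (0 : E n) ε) :=
    ENNReal.toReal_pos (measure_ball_pos _ _ h0).ne' measure_ball_lt_top.ne
  have a7 : ⨍ y in ball (0 : E n) ε, P.u o y ≤ -(2394 / 10000) * ε ^ P.k := by
    rw [setAverage_eq, smul_eq_mul, inv_mul_le_iff₀ hV]
    rw [hn'] at a5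
    nlinarith
  have a8 : ε ^ 2 ≤ ε ^ P.k := by
    rw [← rpow_two]; exact rpow_le_rpow_of_exponent_ge h0 h1 P.k2
  have a9 := sq_nonneg ε
  rw [u0, hn']
  norm_num
  linarith

end Pool.Agent.H92.AM
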