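import Pool.Agent.H92.AngDefs

open Filter Topology Set

namespace Pool.Agent.H92.Ang

section
variable {X : Type} [NormedAddCommGroup X] [NormedSpace ℝ X]

theorem of_unit {r : ℝ} (h : ∀ x y : X, ‖x‖ = 1 → ‖y‖ = 1 →
    |‖x + y‖ ^ 2 / 4 - ‖x - y‖ ^ 2 / 4| * (‖x + y‖ ^ 2 / 4 + ‖x - y‖ ^ 2 / 4) ^ r ≤ 1) :
    HasAngle X r := fun x y hx hy => by
  rw [sub_div, add_div]
  exact h _ _ (norm_smul_inv_norm (𝕜 := ℝ) hx) (norm_smul_inv_norm (𝕜 := ℝ) hy)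

theorem HasAngle.eq {r n : ℝ} (h : HasAngle X r) {x y : X} (n0 : 0 < n) (hx : ‖x‖ ^ 2 = n)
    (hy : ‖y‖ ^ 2 = n) : |(‖x + y‖ ^ 2 - ‖x - y‖ ^ 2) / (4 * n)| *
      ((‖x + y‖ ^ 2 + ‖x - y‖ ^ 2) / (4 * n)) ^ r ≤ 1 := by
  have e : ‖y‖ = ‖x‖ := (sq_eq_sq₀ (norm_nonneg _) (norm_nonneg _)).mp (hy.trans hx.symm)
  have := h x y (fun h => by simp [h] at hx; linarith) (fun h => by simp [h] at hy; linarith)
  rw [e, ← smul_add, ← smul_sub, norm_smul, norm_smul, norm_inv, norm_norm, mul_pow, mul_pow,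
    inv_pow, hx] at this
  convert this using 3 <;> field_simp

theorem G1 {k r : ℝ} (k0 : 0 ≤ k) (k1 : k ≤ 1) (r0 : 0 ≤ r) (hr : r * (1 - k) ≤ 1 + k)
    (h : ∀ u v : X, ‖u + v‖ ^ 2 + k * ‖u - v‖ ^ 2 ≤ 2 * ‖u‖ ^ 2 + 2 * ‖v‖ ^ 2) : HasAngle X r := by
  have re : ∀ S D : ℝ, 0 ≤ D → D ≤ S → S + k * D ≤ 1 → |S - D| * (S + D) ^ r ≤ 1 := by
    intro S D h0 h1 h2
    have a1 : S - D ≤ Real.exp (-(1 + k) * D) := by linarith [Real.add_one_le_exp (-(1 + k) * D)]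
    have a2 : (S + D) ^ r ≤ Real.exp ((1 - k) * D * r) := by
      rw [Real.exp_mul]
      exact Real.rpow_le_rpow (by linarith) (by linarith [Real.add_one_le_exp ((1 - k) * D)]) r0
    rw [abs_of_nonneg (by linarith)]
    refine (mul_le_mul a1 a2 (Real.rpow_nonneg (by linarith) _) (Real.exp_pos _).le).trans ?_
    rw [← Real.exp_add, Real.exp_le_one_iff]
    nlinarith
  refine of_unit fun x y hx hy => ?_
  have a := h x y
  have b := h x (-y)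
  rw [norm_neg, ← sub_eq_add_neg, sub_neg_eq_add] at b
  rw [hx, hy] at a b
  rcases le_total (‖x - y‖ ^ 2 / 4) (‖x + y‖ ^ 2 / 4) with c | c
  · exact re _ _ (by positivity) c (by linarith)
  · rw [abs_sub_comm, add_comm (‖x + y‖ ^ 2 / 4)]; exact re _ _ (by positivity) c (by linarith)

theorem G2 {k r : ℝ} (k0 : 0 < k) (k1 : k < 1) (r1 : 1 ≤ r) (hr : r * (1 - k) ≤ 1 + k)
    (h : ∀ u v : X, ‖u‖ = 1 → ‖v‖ = 1 → 4 ≤ ‖u + v‖ ^ 2 + ‖u - v‖ ^ 2 / k) :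
    HasAngle X (-r) := by
  have re : ∀ S D : ℝ, 0 ≤ D → D ≤ S → S ≤ 1 → 1 ≤ S + D / k → |S - D| * (S + D) ^ (-r) ≤ 1 := by
    intro S D h0 h1 h2 h3
    have p : 0 < S + D := by
      by_contra hc
      have : D = 0 := by linarith
      rw [this] at h3 hc; simp at h3 hc; linarith
    rw [abs_of_nonneg (by linarith), Real.rpow_neg p.le, ← div_eq_mul_inv,
      div_le_one (Real.rpow_pos_of_pos p _)]
    rcases le_total 1 (S + D) with c | c
    · linarith [Real.one_le_rpow c (by linarith : 0 ≤ r)]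
    have b := one_add_mul_self_le_rpow_one_add (s := S + D - 1) (by linarith) r1
    rw [add_sub_cancel] at b
    have e : k * (1 - S) ≤ D := by rwa [← sub_le_iff_le_add', le_div_iff₀ k0, mul_comm] at h3
    have : k * ((r - 1) * (1 - (S + D))) ≤ k * (2 * D) := by nlinarith
    linarith [le_of_mul_le_mul_left this k0]
  refine of_unit fun x y hx hy => ?_
  have a := h x y hx hy
  have b := h x (-y) hx (by rwa [norm_neg])
  rw [← sub_eq_add_neg, sub_neg_eq_add] at b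
  have n1 : ‖x + y‖ ^ 2 ≤ 2 ^ 2 := pow_le_pow_left₀ (norm_nonneg _)
    (by linarith [norm_add_le x y]) 2
  have n2 : ‖x - y‖ ^ 2 ≤ 2 ^ 2 := pow_le_pow_left₀ (norm_nonneg _)
    (by linarith [norm_sub_le x y]) 2
  rcases le_total (‖x - y‖ ^ 2 / 4) (‖x + y‖ ^ 2 / 4) with c | c
  · exact re _ _ (by positivity) c (by linarith) (by rw [div_right_comm]; linarith)
  · rw [abs_sub_comm, add_comm (‖x + y‖ ^ 2 / 4)]
    exact re _ _ (by positivity) c (by linarith) (by rw [div_right_comm]; linarith)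

theorem dual {k : ℝ} (k0 : 0 < k)
    (h : ∀ u v : X, ‖u + v‖ ^ 2 + k * ‖u - v‖ ^ 2 ≤ 2 * ‖u‖ ^ 2 + 2 * ‖v‖ ^ 2)
    (f g : StrongDual ℝ X) (hf : ‖f‖ = 1) (hg : ‖g‖ = 1) :
    4 ≤ ‖f + g‖ ^ 2 + ‖f - g‖ ^ 2 / k := by
  have ex : ∀ f : StrongDual ℝ X, ‖f‖ = 1 → ∀ r < 1, ∃ x, ‖x‖ ≤ 1 ∧ r < f x := fun f hf r hr => by
    obtain ⟨x, h1, h2⟩ := f.exists_lt_apply_of_lt_opNorm (hf ▸ hr)
    rcases lt_abs.mp h2 with h | h
    · exact ⟨x, h1.le, h⟩
    · exact ⟨-x, by simpa using h1.le, by simpa using h⟩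
  refine le_of_forall_pos_le_add fun ε hε => ?_
  obtain ⟨x, nx, hx⟩ := ex f hf (1 - ε / 8) (by linarith)
  obtain ⟨y, ny, hy⟩ := ex g hg (1 - ε / 8) (by linarith)
  have a1 := (le_abs_self _).trans ((f + g).le_opNorm (x + y))
  have a2 := (le_abs_self _).trans ((f - g).le_opNorm (x - y))
  simp only [add_apply, sub_apply, map_add, map_sub] at a1 a2
  have a3 : 2 * (‖f - g‖ * ‖x - y‖) ≤ ‖f - g‖ ^ 2 / k + k * ‖x - y‖ ^ 2 := by
    rw [div_add' _ _ _ k0.ne', le_div_iff₀ k0]; nlinarith [sq_nonneg (‖f - g‖ - k * ‖x - y‖)]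
  nlinarith [h x y, sq_nonneg (‖f + g‖ - ‖x + y‖), pow_le_one₀ (norm_nonneg x) nx (n := 2),
    pow_le_one₀ (norm_nonneg y) ny (n := 2)]

end

noncomputable def L (k : ℝ) : ℝ × ℝ →ₗ[ℝ] ℂ × ℂ where
  toFun p := (⟨p.1, √k * p.2⟩, ⟨√k * p.1, p.2⟩)
  map_add' _ _ := by ext <;> simp [Complex.ext_iff, mul_add]
  map_smul' _ _ := by ext <;> simp [Complex.ext_iff, mul_left_comm]

abbrev V (k : ℝ) : Type := LinearMap.range (L k)

noncomputable def pt (k a b : ℝ) : V k := ⟨L k (a, b), _, rfl⟩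

theorem pt_add (k a b c d : ℝ) : pt k a b + pt k c d = pt k (a + c) (b + d) :=
  Subtype.ext (map_add (L k) (a, b) (c, d)).symm

theorem pt_sub (k a b c d : ℝ) : pt k a b - pt k c d = pt k (a - c) (b - d) :=
  Subtype.ext (map_sub (L k) (a, b) (c, d)).symm

theorem pt_norm {k : ℝ} (k0 : 0 ≤ k) (a b : ℝ) :
    ‖pt k a b‖ ^ 2 = max (a ^ 2 + k * b ^ 2) (k * a ^ 2 + b ^ 2) := by
  have e : ‖pt k a b‖ = max ‖(⟨a, √k * b⟩ : ℂ)‖ ‖(⟨√k * a, b⟩ : ℂ)‖ := rfl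
  have e1 : ‖(⟨a, √k * b⟩ : ℂ)‖ ^ 2 = a ^ 2 + k * b ^ 2 := by
    rw [Complex.sq_norm, Complex.normSq_mk]; nlinarith [Real.mul_self_sqrt k0]
  have e2 : ‖(⟨√k * a, b⟩ : ℂ)‖ ^ 2 = k * a ^ 2 + b ^ 2 := by
    rw [Complex.sq_norm, Complex.normSq_mk]; nlinarith [Real.mul_self_sqrt k0]
  rw [e, ← e1, ← e2]
  rcases le_total ‖(⟨a, √k * b⟩ : ℂ)‖ ‖(⟨√k * a, b⟩ : ℂ)‖ with h | h
  · rw [max_eq_right h, max_eq_right (pow_le_pow_left₀ (norm_nonneg _) h 2)]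
  · rw [max_eq_left h, max_eq_left (pow_le_pow_left₀ (norm_nonneg _) h 2)]

theorem conv {k : ℝ} (k0 : 0 ≤ k) (k1 : k ≤ 1) (u v : V k) :
    ‖u + v‖ ^ 2 + k * ‖u - v‖ ^ 2 ≤ 2 * ‖u‖ ^ 2 + 2 * ‖v‖ ^ 2 := by
  obtain ⟨_, ⟨a, b⟩, rfl⟩ := u
  obtain ⟨_, ⟨c, d⟩, rfl⟩ := v
  show ‖pt k a b + pt k c d‖ ^ 2 + k * ‖pt k a b - pt k c d‖ ^ 2 ≤
    2 * ‖pt k a b‖ ^ 2 + 2 * ‖pt k c d‖ ^ 2
  simp only [pt_add, pt_sub, pt_norm k0]
  have m : ∀ p q : ℝ, k * max (p ^ 2 + k * q ^ 2) (k * p ^ 2 + q ^ 2) ≤ p ^ 2 + k * q ^ 2 ∧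
      k * max (p ^ 2 + k * q ^ 2) (k * p ^ 2 + q ^ 2) ≤ k * p ^ 2 + q ^ 2 := fun p q => by
    have kk : 0 ≤ 1 - k * k := by nlinarith
    have h1 := mul_nonneg kk (sq_nonneg p)
    have h2 := mul_nonneg kk (sq_nonneg q)
    have h3 := mul_nonneg (sub_nonneg.mpr k1) (show 0 ≤ p ^ 2 + k * q ^ 2 by positivity)
    have h4 := mul_nonneg (sub_nonneg.mpr k1) (show 0 ≤ k * p ^ 2 + q ^ 2 by positivity)
    rw [mul_max_of_nonneg _ _ k0]
    constructor <;> refine max_le ?_ ?_ <;> nlinarith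
  have := m (a - c) (b - d)
  have h1 := le_max_left (a ^ 2 + k * b ^ 2) (k * a ^ 2 + b ^ 2)
  have h2 := le_max_right (a ^ 2 + k * b ^ 2) (k * a ^ 2 + b ^ 2)
  have h3 := le_max_left (c ^ 2 + k * d ^ 2) (k * c ^ 2 + d ^ 2)
  have h4 := le_max_right (c ^ 2 + k * d ^ 2) (k * c ^ 2 + d ^ 2)
  rw [← le_sub_iff_add_le]
  refine max_le ?_ ?_ <;> nlinarith [this.1, this.2]

theorem small {p : ℝ → Prop} (h : ∀ᶠ t in 𝓝 (0 : ℝ), p t) : ∃ t, p t ∧ 0 < t :=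
  ((h.filter_mono nhdsWithin_le_nhds).and (self_mem_nhdsWithin (s := Ioi (0 : ℝ)))).exists

theorem F1 {k r : ℝ} (k0 : 0 < k) (k1 : k < 1) (hr : 1 + k < r * (1 - k)) :
    ¬ HasAngle (V k) r := fun h => by
  have r1 : 1 ≤ r := by nlinarith
  obtain ⟨D, ⟨⟨a1, a2⟩, a3⟩, D0⟩ := small (p := fun D => (D < 1 - k ∧
      (1 + k) * (r * (1 - k)) * D < r * (1 - k) - (1 + k)) ∧ (1 + k) * D < 1)
    (((gt_mem_nhds (by linarith)).and (ContinuousAt.eventually_lt (by fun_prop) (by fun_prop)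
      (by simpa using hr))).and (ContinuousAt.eventually_lt (by fun_prop) (by fun_prop) (by simp)))
  obtain ⟨w, hw⟩ : ∃ w : ℝ, w ^ 2 = D := ⟨√D, Real.sq_sqrt D0.le⟩
  obtain ⟨c, hc⟩ : ∃ c : ℝ, c ^ 2 = 1 - k * D := ⟨√(1 - k * D), Real.sq_sqrt (by nlinarith)⟩
  have n : ∀ w : ℝ, w ^ 2 = D → ‖pt k c w‖ ^ 2 = 1 := fun w hw => by
    rw [pt_norm k0.le, hw, hc, max_eq_left (by nlinarith)]; ring
  have := h.eq one_pos (n w hw) (n (-w) (by rw [neg_sq, hw]))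
  have e1 : (c + c) ^ 2 = 4 * (1 - k * D) := by rw [← hc]; ring
  have e2 : (w - -w) ^ 2 = 4 * D := by rw [← hw]; ring
  rw [pt_add, pt_sub, pt_norm k0.le, pt_norm k0.le, e1, e2, add_neg_cancel, sub_self,
    zero_pow two_ne_zero, max_eq_left (by nlinarith), max_eq_right (by nlinarith),
    show (4 * (1 - k * D) + k * 0 - (k * 0 + 4 * D)) / (4 * 1) = 1 - (1 + k) * D by ring,
    show (4 * (1 - k * D) + k * 0 + (k * 0 + 4 * D)) / (4 * 1) = 1 + (1 - k) * D by ring,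
    abs_of_pos (by linarith)] at this
  have b := one_add_mul_self_le_rpow_one_add (s := (1 - k) * D) (by nlinarith) r1
  have := (mul_le_mul_of_nonneg_left b (by linarith)).trans this
  nlinarith [mul_lt_mul_of_pos_left a2 D0]

theorem F2 {k r : ℝ} (k0 : 0 < k) (k1 : k < 1) (r1 : 1 < r) : ¬ HasAngle (V k) (-r) := fun h => by
  set c := 2 * (1 - k) / (1 + k) with hc
  have c0 : 0 < c := div_pos (by linarith) (by linarith)
  obtain ⟨e, ⟨a1, a2⟩, e0⟩ := small (p := fun e => e < 1 ∧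
      e * (2 * (1 + e ^ 2) + (r + 1) * (c * e)) < (r - 1) * c)
    ((gt_mem_nhds one_pos).and (ContinuousAt.eventually_lt (by fun_prop) (by fun_prop)
      (by simpa using mul_pos (sub_pos.mpr r1) c0)))
  have kc : (1 + k) * c = 2 * (1 - k) := mul_div_cancel₀ _ (by linarith)
  have n0 : 0 < (1 + k) * (1 + e ^ 2 + c * e) := by positivity
  have ke := mul_pos (sub_pos.mpr k1) e0
  have := h.eq (x := pt k (1 + e) (1 - e)) (y := pt k (1 - e) (1 + e)) n0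
    (by rw [pt_norm k0.le, max_eq_left (by nlinarith)]; linear_combination -e * kc)
    (by rw [pt_norm k0.le, max_eq_right (by nlinarith)]; linear_combination -e * kc)
  have e1 : ‖pt k (1 + e) (1 - e) + pt k (1 - e) (1 + e)‖ ^ 2 = 4 * (1 + k) := by
    rw [pt_add, pt_norm k0.le, max_eq_left (by nlinarith)]; ring
  have e2 : ‖pt k (1 + e) (1 - e) - pt k (1 - e) (1 + e)‖ ^ 2 = 4 * (1 + k) * e ^ 2 := by
    rw [pt_sub, pt_norm k0.le, max_eq_left (by nlinarith)]; ring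
  have p1 : 0 < 1 - e ^ 2 := by nlinarith
  rw [e1, e2, show (4 * (1 + k) - 4 * (1 + k) * e ^ 2) / (4 * ((1 + k) * (1 + e ^ 2 + c * e))) =
      (1 - e ^ 2) / (1 + e ^ 2 + c * e) by field_simp,
    show (4 * (1 + k) + 4 * (1 + k) * e ^ 2) / (4 * ((1 + k) * (1 + e ^ 2 + c * e))) =
      (1 + c * e / (1 + e ^ 2))⁻¹ by field_simp, Real.inv_rpow (by positivity),
    Real.rpow_neg (by positivity), inv_inv, abs_of_pos (by positivity)] at this
  have b := one_add_mul_self_le_rpow_one_add (s := c * e / (1 + e ^ 2))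
    (le_trans (by norm_num) (show 0 ≤ _ by positivity)) r1.le
  have := (mul_le_mul_of_nonneg_left b (by positivity)).trans this
  rw [div_mul_eq_mul_div, div_le_one (by positivity), ← mul_div_assoc, add_div' _ _ _
    (by positivity), ← mul_div_assoc, div_le_iff₀ (by positivity)] at this
  nlinarith [mul_lt_mul_of_pos_left a2 e0]

noncomputable def fn (k a b : ℝ) : StrongDual ℝ (V k) :=
  a • (Complex.reCLM.comp (ContinuousLinearMap.fst ℝ ℂ ℂ)).comp (LinearMap.range (L k)).subtypeL +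
  b • (Complex.imCLM.comp (ContinuousLinearMap.snd ℝ ℂ ℂ)).comp (LinearMap.range (L k)).subtypeL

theorem fn_pt (k a b x y : ℝ) : fn k a b (pt k x y) = a * x + b * y := rfl

theorem fn_norm {k a b n x y : ℝ} (k0 : 0 < k) (n0 : 0 ≤ n) (h1 : ‖pt k x y‖ ^ 2 = 1)
    (h2 : a * x + b * y = n) (h3 : ∀ x y : ℝ, (a * x + b * y) ^ 2 ≤
      n ^ 2 * max (x ^ 2 + k * y ^ 2) (k * x ^ 2 + y ^ 2)) : ‖fn k a b‖ = n := by
  refine le_antisymm (ContinuousLinearMap.opNorm_le_bound _ n0 ?_) ?_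
  · rintro ⟨_, ⟨u, v⟩, rfl⟩
    show ‖fn k a b (pt k u v)‖ ≤ n * ‖pt k u v‖
    rw [← sq_le_sq₀ (norm_nonneg _) (by positivity), fn_pt, mul_pow, pt_norm k0.le,
      Real.norm_eq_abs, sq_abs]
    exact h3 u v
  · have := (fn k a b).le_opNorm (pt k x y)
    rwa [fn_pt, h2, (pow_eq_one_iff_of_nonneg (norm_nonneg _) two_ne_zero).mp h1, mul_one,
      Real.norm_of_nonneg n0] at this

theorem F3 {k r s : ℝ} (k0 : 0 < k) (k1 : k < 1) (hr : r * (1 - k) = 1 + k) (hs : r < s) :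
    ¬ HasAngle (StrongDual ℝ (V k)) (-s) := fun h => by
  have r1 : 1 ≤ r := by nlinarith
  obtain ⟨y, ⟨⟨a1, a2⟩, a3⟩, y0⟩ := small (p := fun y => (y ^ 2 < 1 - k ∧
      r * s * ((1 - k) * k * y ^ 2) < s - r) ∧ (1 + k) * k * y ^ 2 < 1)
    (((ContinuousAt.eventually_lt (by fun_prop) (by fun_prop) (by simpa using k1)).and
      (ContinuousAt.eventually_lt (by fun_prop) (by fun_prop) (by simpa using hs))).and
      (ContinuousAt.eventually_lt (by fun_prop) (by fun_prop) (by simp)))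
  have y2 : 0 < k * y ^ 2 := by positivity
  obtain ⟨a, a0, ha⟩ : ∃ a : ℝ, 0 ≤ a ∧ a ^ 2 = 1 - k * y ^ 2 :=
    ⟨√(1 - k * y ^ 2), Real.sqrt_nonneg _, Real.sq_sqrt (by nlinarith)⟩
  have n : ∀ w : ℝ, w ^ 2 = y ^ 2 → ‖fn k a (k * w)‖ ^ 2 = 1 := fun w hw => by
    rw [fn_norm (n := 1) (x := a) (y := w) k0 zero_le_one
      (by rw [pt_norm k0.le, hw, ha, max_eq_left (by nlinarith)]; ring)
      (by linear_combination ha + k * hw) fun u v => ?_, one_pow]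
    refine le_trans ?_ (mul_le_mul_of_nonneg_left (le_max_left _ _) (by positivity))
    have : (a * u + k * w * v) ^ 2 + k * (a * v - w * u) ^ 2 =
        (a ^ 2 + k * w ^ 2) * (u ^ 2 + k * v ^ 2) := by ring
    rw [ha, hw, sub_add_cancel] at this
    nlinarith [mul_nonneg k0.le (sq_nonneg (a * v - w * u))]
  have := h.eq one_pos (n y rfl) (n (-y) (neg_sq y))
  have e1 : ‖fn k a (k * y) + fn k a (k * -y)‖ = 2 * a := by
    rw [show fn k a (k * y) + fn k a (k * -y) = fn k (2 * a) 0 by unfold fn; module]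
    refine fn_norm (x := 1) (y := 0) k0 (by positivity)
      (by rw [pt_norm k0.le, max_eq_left (by nlinarith)]; ring) (by ring) fun u v => ?_
    refine le_trans ?_ (mul_le_mul_of_nonneg_left (le_max_left _ _) (by positivity))
    nlinarith [mul_nonneg (sq_nonneg a) (mul_nonneg k0.le (sq_nonneg v))]
  have e2 : ‖fn k a (k * y) - fn k a (k * -y)‖ = 2 * k * y := by
    rw [show fn k a (k * y) - fn k a (k * -y) = fn k 0 (2 * k * y) by unfold fn; module]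
    refine fn_norm (x := 0) (y := 1) k0 (by positivity)
      (by rw [pt_norm k0.le, max_eq_right (by nlinarith)]; ring) (by ring) fun u v => ?_
    refine le_trans ?_ (mul_le_mul_of_nonneg_left (le_max_right _ _) (by positivity))
    nlinarith [mul_nonneg (sq_nonneg (2 * k * y)) (mul_nonneg k0.le (sq_nonneg u))]
  set u := (1 - k) * k * y ^ 2 with hu
  have u0 : 0 < u := by have := sub_pos.mpr k1; positivity
  have ru : r * u = (1 + k) * k * y ^ 2 := by rw [hu, ← hr]; ring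
  have u1 : u < 1 := by nlinarith
  rw [e1, e2, show ((2 * a) ^ 2 - (2 * k * y) ^ 2) / (4 * 1) = 1 - r * u by
      rw [ru]; linear_combination ha,
    show ((2 * a) ^ 2 + (2 * k * y) ^ 2) / (4 * 1) = 1 - u by rw [hu]; linear_combination ha,
    abs_of_pos (by linarith), Real.rpow_neg (by linarith), ← Real.inv_rpow (by linarith)] at this
  have b := (one_add_mul_self_le_rpow_one_add (s := u) (by linarith) (r1.trans hs.le)).trans
    (Real.rpow_le_rpow (y := (1 - u)⁻¹) (by linarith) (by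
      rw [← one_div, le_div_iff₀ (by linarith)]; nlinarith) (by linarith))
  have := (mul_le_mul_of_nonneg_left b (by linarith)).trans this
  nlinarith [mul_lt_mul_of_pos_left a2 u0]

theorem par {r : ℝ} (r1 : 1 < r) : ∃ k : ℝ, 0 < k ∧ k < 1 ∧ r * (1 - k) = 1 + k :=
  ⟨(r - 1) / (r + 1), div_pos (by linarith) (by linarith), by rw [div_lt_one] <;> linarith,
    by field_simp; ring⟩

theorem exA {r : ℝ} (r1 : 1 < r) : ∃ W : NSp, W ∈ Cls r ∧ (∀ s, r < s → W ∉ Cls s) ∧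
    ∀ s, 1 < s → W ∉ Cls (-s) := by
  obtain ⟨k, k0, k1, e⟩ := par r1
  exact ⟨⟨V k⟩, G1 k0.le k1.le (by linarith) e.le (conv k0.le k1.le),
    fun s hs => F1 k0 k1 (by nlinarith), fun s hs => F2 k0 k1 hs⟩

theorem exB {r : ℝ} (r1 : 1 < r) : ∃ W : NSp, W ∈ Cls (-r) ∧ ∀ s, r < s → W ∉ Cls (-s) := by
  obtain ⟨k, k0, k1, e⟩ := par r1
  exact ⟨⟨StrongDual ℝ (V k)⟩, G2 k0 k1 r1.le e.le (dual k0 (conv k0.le k1.le)),
    fun s hs => F3 k0 k1 e hs⟩

end Pool.Agent.H92.Ang
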