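import Mathlib

/-! Generalised angles in real normed spaces. -/

namespace Pool.Agent.H92.Ang

/-- The space X has the angle with parameter r. -/
def HasAngle (X : Type) [NormedAddCommGroup X] [NormedSpace ℝ X] (r : ℝ) : Prop :=
  ∀ x y : X, x ≠ 0 → y ≠ 0 →
    |(‖‖x‖⁻¹ • x + ‖y‖⁻¹ • y‖ ^ 2 - ‖‖x‖⁻¹ • x - ‖y‖⁻¹ • y‖ ^ 2) / 4| *
      ((‖‖x‖⁻¹ • x + ‖y‖⁻¹ • y‖ ^ 2 + ‖‖x‖⁻¹ • x - ‖y‖⁻¹ • y‖ ^ 2) / 4) ^ r ≤ 1

/-- A real normed space. -/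
structure NSp where
  X : Type
  [grp : NormedAddCommGroup X]
  [spc : NormedSpace ℝ X]

/-- The class of normed spaces having the angle with parameter r. -/
def Cls (r : ℝ) : Set NSp := {V | @HasAngle V.X V.grp V.spc r}

end Pool.Agent.H92.Ang
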