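import Mathlib

set_option autoImplicit false
open MeasureTheory Set Metric Filter Topology
open scoped ContDiff

namespace H92.Area

abbrev E := EuclideanSpace ℝ (Fin 2)

/-- weak gradient identity, written with integrals over the whole plane -/
def Weak (Ω : Set E) (u : E → ℝ) (g : Fin 2 → E → ℝ) : Prop :=
  ∀ φ : E → ℝ, ContDiff ℝ ∞ φ → HasCompactSupport φ → tsupport φ ⊆ Ω → ∀ j : Fin 2,
    ∫ x, u x * fderiv ℝ φ x (EuclideanSpace.single j (1 : ℝ)) = - ∫ x, g j x * φ x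

lemma cov (F : E → ℝ) (x : E) {τ : ℝ} (hτ : 0 < τ) :
    ∫ z, F (x + τ • z) = (τ ^ 2)⁻¹ * ∫ w, F w := by
  have h1 := Measure.integral_comp_smul_of_nonneg (volume : Measure E) (fun z => F (x + z)) τ
    (hR := hτ.le)
  simp only [finrank_euclideanSpace, Fintype.card_fin, smul_eq_mul] at h1
  rw [h1, integral_add_left_eq_self]

lemma dec (v : E) : v = v 0 • EuclideanSpace.single 0 (1:ℝ) + v 1 • EuclideanSpace.single 1 (1:ℝ) := by
  ext i; fin_cases i <;> simp

lemma supp_sc {ψ : E → ℝ} (hs : tsupport ψ ⊆ closedBall 0 2) (x : E) {τ : ℝ} (hτ : 0 < τ) (w : E)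
    (hw : w ∉ closedBall x (2 * τ)) : τ⁻¹ • (w - x) ∉ tsupport ψ := by
  intro h
  have := hs h
  rw [mem_closedBall_zero_iff, norm_smul, Real.norm_eq_abs, abs_of_pos (inv_pos.2 hτ),
    inv_mul_le_iff₀ hτ] at this
  exact hw (by rw [mem_closedBall, dist_eq_norm]; linarith)

lemma sc_cont (x : E) (c : ℝ) : Continuous fun w : E => c • (w - x) := by fun_prop

lemma sc_fd (x : E) (c : ℝ) (w : E) :
    HasFDerivAt (fun w : E => c • (w - x)) (c • ContinuousLinearMap.id ℝ E) w :=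
  ((hasFDerivAt_id (𝕜 := ℝ) w).sub_const x).fun_const_smul c

lemma test_fd {ψ : E → ℝ} (hdψ : Differentiable ℝ ψ) (x : E) (c : ℝ) (j : Fin 2) (w : E) :
    fderiv ℝ (fun w : E => (c • (w - x)) j * ψ (c • (w - x))) w (EuclideanSpace.single j (1:ℝ)) =
      c * ψ (c • (w - x)) + (c • (w - x)) j *
        (c * fderiv ℝ ψ (c • (w - x)) (EuclideanSpace.single j (1:ℝ))) := by
  have a1 := sc_fd x c w
  have a2 : HasFDerivAt (fun w : E => (c • (w - x)) j) _ w :=
    (EuclideanSpace.proj j : E →L[ℝ] ℝ).hasFDerivAt.comp w a1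
  have a3 : HasFDerivAt (fun w : E => ψ (c • (w - x))) _ w := (hdψ _).hasFDerivAt.comp w a1
  rw [(a2.fun_mul a3).fderiv]
  simp
  ring

lemma sum_fd (L : E →L[ℝ] ℝ) (v : E) {τ : ℝ} (hτ : τ ≠ 0) (a P : ℝ) :
    a * (τ⁻¹ * P + (τ⁻¹ • v) 0 * (τ⁻¹ * L (EuclideanSpace.single 0 (1:ℝ)))) +
    a * (τ⁻¹ * P + (τ⁻¹ • v) 1 * (τ⁻¹ * L (EuclideanSpace.single 1 (1:ℝ)))) =
      2 * τ⁻¹ * (a * P) - a * L ((-(τ ^ 2)⁻¹) • v) := by
  have : L v = v 0 * L (EuclideanSpace.single 0 (1:ℝ)) + v 1 * L (EuclideanSpace.single 1 (1:ℝ)) := by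
    conv_lhs => rw [dec v]
    rw [map_add, map_smul, map_smul]; rfl
  rw [map_smul, this]
  simp only [smul_eq_mul, PiLp.smul_apply]
  field_simp
  ring

lemma deriv_H {u : E → ℝ} (hu : Continuous u) {ψ : E → ℝ} (hψ : ContDiff ℝ ∞ ψ)
    (hs : tsupport ψ ⊆ closedBall 0 2) (x : E) {τ : ℝ} (hτ : 0 < τ) :
    HasDerivAt (fun t : ℝ => ∫ w, u w * ψ (t⁻¹ • (w - x)))
      (∫ w, u w * fderiv ℝ ψ (τ⁻¹ • (w - x)) ((-(τ ^ 2)⁻¹) • (w - x))) τ := by
  have hD : Continuous (fderiv ℝ ψ) := hψ.continuous_fderiv (by simp)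
  have hdψ : Differentiable ℝ ψ := hψ.differentiable (by simp)
  set K : Set E := closedBall x (2 * (2 * τ)) with hK
  have hKc : IsCompact K := isCompact_closedBall _ _
  set F' : ℝ → E → ℝ := fun t w => u w * fderiv ℝ ψ (t⁻¹ • (w - x)) ((-(t ^ 2)⁻¹) • (w - x)) with hF'
  have hc : ContinuousOn (fun p : ℝ × E => F' p.1 p.2) (Icc (τ / 2) (2 * τ) ×ˢ K) := by
    have h1 : ContinuousOn (fun p : ℝ × E => (p.1)⁻¹) (Icc (τ / 2) (2 * τ) ×ˢ K) :=
      continuousOn_fst.inv₀ (fun p hp => by have := hp.1.1; intro h; rw [h] at this; linarith)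
    have h2 : ContinuousOn (fun p : ℝ × E => -(p.1 ^ 2)⁻¹) (Icc (τ / 2) (2 * τ) ×ˢ K) :=
      ((continuousOn_fst.pow 2).inv₀ (fun p hp => by
        have := hp.1.1; have : 0 < p.1 := by linarith
        exact pow_ne_zero 2 this.ne')).neg
    have h3 : ContinuousOn (fun p : ℝ × E => p.2 - x) (Icc (τ / 2) (2 * τ) ×ˢ K) :=
      continuousOn_snd.sub continuousOn_const
    exact (hu.comp continuous_snd).continuousOn.mul
      ((hD.comp_continuousOn (h1.smul h3)).clm_apply (h2.smul h3))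
  obtain ⟨C, hC⟩ := (isCompact_Icc.prod hKc).exists_bound_of_continuousOn hc
  have hz : ∀ t ∈ Icc (τ / 2) (2 * τ), ∀ w ∉ K, t⁻¹ • (w - x) ∉ tsupport ψ := by
    intro t ht w hw
    refine supp_sc hs x (by linarith [ht.1]) w (fun h => hw ?_)
    exact closedBall_subset_closedBall (by linarith [ht.2]) h
  have hcF : ∀ t : ℝ, Continuous fun w => u w * ψ (t⁻¹ • (w - x)) := fun t =>
    hu.mul (hψ.continuous.comp (sc_cont x _))
  refine (hasDerivAt_integral_of_dominated_loc_of_deriv_le (μ := volume)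
    (F := fun t w => u w * ψ (t⁻¹ • (w - x))) (F' := F') (s := Icc (τ / 2) (2 * τ))
    (bound := K.indicator fun _ => C) (Icc_mem_nhds (by linarith) (by linarith))
    (Eventually.of_forall fun t => (hcF t).aestronglyMeasurable) ?_ ?_ ?_ ?_ ?_).2
  · refine (hcF τ).integrable_of_hasCompactSupport (HasCompactSupport.intro hKc fun w hw => ?_)
    rw [image_eq_zero_of_notMem_tsupport (hz τ ⟨by linarith, by linarith⟩ w hw), mul_zero]
  · exact (hu.mul ((hD.comp (sc_cont x _)).clm_apply (sc_cont x _))).aestronglyMeasurable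
  · refine Eventually.of_forall fun w t ht => ?_
    by_cases hw : w ∈ K
    · rw [indicator_of_mem hw]; exact hC (t, w) ⟨ht, hw⟩
    · rw [indicator_of_notMem hw, hF']
      simp only
      rw [fderiv_of_notMem_tsupport ℝ (hz t ht w hw)]; simp
  · exact (integrable_indicator_iff hKc.measurableSet).2 (integrableOn_const hKc.measure_lt_top.ne)
  · refine Eventually.of_forall fun w t ht => ?_
    have ht0 : t ≠ 0 := by have := ht.1; intro h; rw [h] at this; linarith
    have h1 : HasDerivAt (fun t : ℝ => t⁻¹ • (w - x)) ((-(t ^ 2)⁻¹) • (w - x)) t :=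
      (hasDerivAt_inv ht0).smul_const _
    exact ((hdψ _).hasFDerivAt.comp_hasDerivAt t h1).const_mul (u w)

lemma deriv_G {Ω : Set E} {u : E → ℝ} {g : Fin 2 → E → ℝ} (hu : Continuous u)
    (hw : Weak Ω u g) {ψ : E → ℝ} (hψ : ContDiff ℝ ∞ ψ)
    (hs : tsupport ψ ⊆ closedBall 0 2) (x : E) {τ : ℝ} (hτ : 0 < τ)
    (hΩ : closedBall x (2 * τ) ⊆ Ω) :
    HasDerivAt (fun t : ℝ => ∫ z, u (x + t • z) * ψ z)
      ((∫ z, g 0 (x + τ • z) * (z 0 * ψ z)) + ∫ z, g 1 (x + τ • z) * (z 1 * ψ z)) τ := by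
  have hD : Continuous (fderiv ℝ ψ) := hψ.continuous_fderiv (by simp)
  have hdψ : Differentiable ℝ ψ := hψ.differentiable (by simp)
  have e1 : (fun t : ℝ => ∫ z, u (x + t • z) * ψ z) =ᶠ[𝓝 τ]
      fun t : ℝ => (t ^ 2)⁻¹ * ∫ w, u w * ψ (t⁻¹ • (w - x)) := by
    filter_upwards [Ioi_mem_nhds hτ] with t ht
    have ht' : (0:ℝ) < t := ht
    rw [← cov (fun w => u w * ψ (t⁻¹ • (w - x))) x ht']
    simp [smul_smul, inv_mul_cancel₀ ht'.ne']
  have hA : ContDiff ℝ ∞ fun w : E => τ⁻¹ • (w - x) := (contDiff_id.sub contDiff_const).const_smul _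
  -- test functions
  set φ : Fin 2 → E → ℝ := fun j w => (τ⁻¹ • (w - x)) j * ψ (τ⁻¹ • (w - x)) with hφ
  have hsm : ∀ j, ContDiff ℝ ∞ (φ j) := fun j =>
    (((EuclideanSpace.proj j : E →L[ℝ] ℝ).contDiff).comp hA).mul (hψ.comp hA)
  have hz : ∀ j, ∀ w ∉ closedBall x (2 * τ), φ j w = 0 := fun j w hw => by
    simp only [hφ]; rw [image_eq_zero_of_notMem_tsupport (supp_sc hs x hτ w hw), mul_zero]
  have hts : ∀ j, tsupport (φ j) ⊆ closedBall x (2 * τ) := fun j =>
    closure_minimal (fun w hw => by by_contra h; exact hw (hz j w h)) isClosed_closedBall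
  have hcs : ∀ j, HasCompactSupport (φ j) := fun j =>
    HasCompactSupport.intro (isCompact_closedBall x (2 * τ)) (hz j)
  have hfd : ∀ j w, fderiv ℝ (φ j) w (EuclideanSpace.single j (1:ℝ)) =
      τ⁻¹ * ψ (τ⁻¹ • (w - x)) + (τ⁻¹ • (w - x)) j *
        (τ⁻¹ * fderiv ℝ ψ (τ⁻¹ • (w - x)) (EuclideanSpace.single j (1:ℝ))) := by
    intro j w
    exact test_fd hdψ x τ⁻¹ j w
  have hW := fun j => hw (φ j) (hsm j) (hcs j) ((hts j).trans hΩ) j
  have e2 : ∀ j, ∫ z, g j (x + τ • z) * (z j * ψ z) = (τ ^ 2)⁻¹ * ∫ w, g j w * φ j w := by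
    intro j
    rw [← cov (fun w => g j w * φ j w) x hτ]
    simp [hφ, smul_smul, inv_mul_cancel₀ hτ.ne', ← mul_assoc]
  have hI : ∀ j, Integrable fun w => u w * fderiv ℝ (φ j) w (EuclideanSpace.single j (1:ℝ)) :=
    fun j => (hu.mul (((hsm j).continuous_fderiv (by simp)).clm_apply
      continuous_const)).integrable_of_hasCompactSupport
      (HasCompactSupport.mul_left ((hcs j).fderiv_apply ℝ _))
  have hI1 : Integrable fun w => u w * ψ (τ⁻¹ • (w - x)) :=
    (hu.mul (hψ.continuous.comp hA.continuous)).integrable_of_hasCompactSupport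
      (HasCompactSupport.intro (isCompact_closedBall x (2 * τ)) fun w hw => by
        simp only [Pi.mul_apply, Function.comp]
        rw [image_eq_zero_of_notMem_tsupport (supp_sc hs x hτ w hw), mul_zero])
  have hI2 : Integrable fun w => u w * fderiv ℝ ψ (τ⁻¹ • (w - x)) ((-(τ ^ 2)⁻¹) • (w - x)) :=
    (hu.mul ((hD.comp hA.continuous).clm_apply (sc_cont x _))).integrable_of_hasCompactSupport
      (HasCompactSupport.intro (isCompact_closedBall x (2 * τ)) fun w hw => by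
        simp only [Pi.mul_apply, Function.comp]
        rw [fderiv_of_notMem_tsupport ℝ (supp_sc hs x hτ w hw)]; simp)
  have h0 : HasDerivAt (fun t : ℝ => (t ^ 2)⁻¹) (-(2 * τ) / (τ ^ 2) ^ 2) τ := by
    exact ((hasDerivAt_pow 2 τ).fun_inv (pow_ne_zero 2 hτ.ne')).congr_deriv (by simp)
  have h1 := h0.fun_mul (deriv_H hu hψ hs x hτ)
  refine HasDerivAt.congr_of_eventuallyEq (h1.congr_deriv (Eq.symm ?_)) e1
  rw [e2, e2, ← neg_neg (∫ w, g 0 w * φ 0 w), ← hW 0, ← neg_neg (∫ w, g 1 w * φ 1 w), ← hW 1,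
    ← mul_add, ← neg_add, ← integral_add (hI 0) (hI 1)]
  have e3 : ∀ w, u w * fderiv ℝ (φ 0) w (EuclideanSpace.single 0 (1:ℝ)) +
      u w * fderiv ℝ (φ 1) w (EuclideanSpace.single 1 (1:ℝ)) =
      2 * τ⁻¹ * (u w * ψ (τ⁻¹ • (w - x))) -
        u w * fderiv ℝ ψ (τ⁻¹ • (w - x)) ((-(τ ^ 2)⁻¹) • (w - x)) := by
    intro w
    rw [hfd, hfd]
    exact sum_fd _ _ hτ.ne' _ _
  simp_rw [e3]
  rw [integral_sub (hI1.const_mul _) hI2, integral_const_mul]
  field_simp
  ring

lemma int_sc {G : E → ℝ} (hG : Integrable G) (x : E) {τ : ℝ} (hτ : 0 < τ) :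
    Integrable fun z => G (x + τ • z) :=
  (integrable_comp_smul_iff volume (fun z => G (x + z)) hτ.ne').2 (hG.comp_add_left x)

lemma err_one {G : E → ℝ} (hG : Integrable G) {k : E → ℝ} (hk : Continuous k) {M : ℝ}
    (hM : ∀ z, |k z| ≤ M) (hz : ∀ z ∉ closedBall (0:E) 2, k z = 0) (x : E) {τ ε : ℝ} (hτ : 0 < τ)
    (hε : ∫ w in closedBall x (2 * τ), |G w - G x| ≤ ε * (2 * τ) ^ 2) :
    |(∫ z, G (x + τ • z) * k z) - G x * ∫ z, k z| ≤ 4 * M * ε := by
  have hM0 : 0 ≤ M := (abs_nonneg _).trans (hM 0)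
  have hkI : Integrable k := hk.integrable_of_hasCompactSupport
    (HasCompactSupport.intro (isCompact_closedBall 0 2) hz)
  have i1 : Integrable fun z => G (x + τ • z) * k z :=
    (int_sc hG x hτ).mul_bdd hk.aestronglyMeasurable (Eventually.of_forall hM)
  set B := closedBall x (2 * τ) with hB
  have hBm : MeasurableSet B := measurableSet_closedBall
  have i2 : Integrable (B.indicator fun w => |G w - G x|) :=
    (integrable_indicator_iff hBm).2 ((hG.integrableOn.sub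
      (integrableOn_const (isCompact_closedBall _ _).measure_lt_top.ne)).abs)
  rw [← integral_const_mul, ← integral_sub i1 (hkI.const_mul _)]
  have b1 := norm_integral_le_of_norm_le (μ := volume)
    (f := fun z => G (x + τ • z) * k z - G x * k z)
    ((int_sc i2 x hτ).const_mul M) (Eventually.of_forall fun z => by
      rw [← sub_mul, Real.norm_eq_abs, abs_mul]
      by_cases h : z ∈ closedBall (0:E) 2
      · have : x + τ • z ∈ B := by
          rw [hB, mem_closedBall, dist_eq_norm, add_sub_cancel_left, norm_smul, Real.norm_eq_abs,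
            abs_of_pos hτ]
          have := mem_closedBall_zero_iff.1 h
          nlinarith
        rw [indicator_of_mem this, mul_comm]
        exact mul_le_mul_of_nonneg_right (hM z) (abs_nonneg _)
      · rw [hz z h, abs_zero, mul_zero]
        exact mul_nonneg hM0 (indicator_nonneg (fun _ _ => abs_nonneg _) _))
  rw [integral_const_mul, cov _ x hτ, integral_indicator hBm, Real.norm_eq_abs] at b1
  refine b1.trans ?_
  have : (τ ^ 2)⁻¹ * ∫ w in B, |G w - G x| ≤ 4 * ε := by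
    rw [inv_mul_le_iff₀ (by positivity)]; nlinarith
  nlinarith

lemma est {Ω : Set E} {u : E → ℝ} {g : Fin 2 → E → ℝ} (hu : Continuous u)
    (hg : ∀ j, Integrable (g j)) (hw : Weak Ω u g) {ψ : E → ℝ} (hψ : ContDiff ℝ ∞ ψ)
    (hs : tsupport ψ ⊆ closedBall 0 2) {M : ℝ} (hM : ∀ z, |ψ z| ≤ M) (h1 : ∫ z, ψ z = 1)
    (x : E) {r ε : ℝ} (hr : 0 < r) (hΩ : closedBall x (2 * r) ⊆ Ω)
    (hε : ∀ ρ, 0 < ρ → ρ ≤ 2 * r → ∀ j, ∫ w in closedBall x ρ, |g j w - g j x| ≤ ε * ρ ^ 2) :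
    |(∫ z, u (x + r • z) * ψ z) - u x - r * (g 0 x * (∫ z, z 0 * ψ z) + g 1 x * ∫ z, z 1 * ψ z)|
      ≤ 16 * M * ε * r := by
  have hz : ∀ z ∉ closedBall (0:E) 2, ψ z = 0 := fun z h =>
    image_eq_zero_of_notMem_tsupport fun h' => h (hs h')
  have hc : ContinuousOn (fun t : ℝ => ∫ z, u (x + t • z) * ψ z) (Icc 0 r) := by
    refine continuousOn_integral_of_compact_support (k := closedBall 0 2) (isCompact_closedBall _ _)
      (Continuous.continuousOn ?_) (fun p z _ h => by rw [hz z h, mul_zero])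
    have := hψ.continuous
    unfold Function.uncurry
    fun_prop
  obtain ⟨τ, hτ, he⟩ := exists_hasDerivAt_eq_slope _ _ hr hc (fun τ hτ =>
    deriv_G hu hw hψ hs x hτ.1 ((closedBall_subset_closedBall (by linarith [hτ.2])).trans hΩ))
  simp only [zero_smul, add_zero, sub_zero] at he
  rw [integral_const_mul, h1, mul_one, eq_div_iff hr.ne'] at he
  have hk : ∀ j : Fin 2, ∀ z : E, |z j * ψ z| ≤ 2 * M := by
    intro j z
    by_cases h : z ∈ closedBall (0:E) 2
    · rw [abs_mul]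
      have a1 : |z j| ≤ 2 := (PiLp.norm_apply_le z j).trans (mem_closedBall_zero_iff.1 h)
      exact mul_le_mul a1 (hM z) (abs_nonneg _) (by norm_num)
    · rw [hz z h, mul_zero, abs_zero]; linarith [(abs_nonneg _).trans (hM 0)]
  have hb := fun j : Fin 2 => err_one (hg j) (k := fun z : E => z j * ψ z)
    (((EuclideanSpace.proj j : E →L[ℝ] ℝ).continuous).mul hψ.continuous) (hk j)
    (fun z h => by rw [hz z h, mul_zero]) x hτ.1
    (hε (2 * τ) (by linarith [hτ.1]) (by linarith [hτ.2]) j)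
  have b0 := abs_le.1 (hb 0)
  have b1 := abs_le.1 (hb 1)
  rw [← he, abs_le]
  constructor <;> nlinarith [b0.1, b0.2, b1.1, b1.2]

end H92.Area
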