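import Pool.Agent.H92.Area1

set_option autoImplicit false
open MeasureTheory Set Metric Filter Topology
open scoped ContDiff

namespace H92.Area

lemma whitney : ∃ C : ℝ, 0 < C ∧ ∀ (Ω : Set E) (u : E → ℝ) (g : Fin 2 → E → ℝ), Continuous u →
    (∀ j, Integrable (g j)) → Weak Ω u g → ∀ (x y : E) (ε : ℝ), x ≠ y →
    closedBall x (2 * ‖y - x‖) ⊆ Ω → closedBall y (2 * ‖y - x‖) ⊆ Ω →
    (∀ ρ, 0 < ρ → ρ ≤ 2 * ‖y - x‖ → ∀ j, ∫ w in closedBall x ρ, |g j w - g j x| ≤ ε * ρ ^ 2) →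
    (∀ ρ, 0 < ρ → ρ ≤ 2 * ‖y - x‖ → ∀ j, ∫ w in closedBall y ρ, |g j w - g j y| ≤ ε * ρ ^ 2) →
    |u y - u x - (g 0 x * (y - x) 0 + g 1 x * (y - x) 1)| ≤ C * ε * ‖y - x‖ := by
  let f : ContDiffBump (0:E) := ⟨1 / 2, 1, by norm_num, by norm_num⟩
  set φ : E → ℝ := f.normed volume with hφ
  have h1 : ContDiff ℝ ∞ φ := f.contDiff_normed
  have h2 : tsupport φ = closedBall 0 1 := f.tsupport_normed_eq
  have h3 : ∫ z, φ z = 1 := f.integral_normed
  have h4 : ∀ z, φ (-z) = φ z := f.normed_neg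
  have h5 : HasCompactSupport φ := f.hasCompactSupport_normed
  obtain ⟨M, hM⟩ := h1.continuous.bounded_above_of_compact_support h5
  have hM0 : 0 ≤ M := (norm_nonneg _).trans (hM 0)
  have hI : Integrable φ := f.integrable_normed
  have hI2 : ∀ j : Fin 2, Integrable fun z : E => z j * φ z := fun j =>
    (((EuclideanSpace.proj j : E →L[ℝ] ℝ).continuous).mul
      h1.continuous).integrable_of_hasCompactSupport h5.mul_left
  have hodd : ∀ j : Fin 2, ∫ z : E, z j * φ z = 0 := by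
    intro j
    have := integral_neg_eq_self (fun z : E => z j * φ z) volume
    simp only [h4, PiLp.neg_apply, neg_mul, integral_neg] at this
    linarith
  refine ⟨32 * M + 1, by positivity, fun Ω u g hu hg hw x y ε hxy bx by' ex ey => ?_⟩
  set r := ‖y - x‖ with hr
  have hr0 : 0 < r := norm_pos_iff.2 (sub_ne_zero.2 hxy.symm)
  set b : E := r⁻¹ • (y - x) with hb
  have hb1 : ‖b‖ = 1 := by
    rw [hb, norm_smul, Real.norm_eq_abs, abs_of_pos (inv_pos.2 hr0), inv_mul_cancel₀ hr0.ne']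
  have hε : 0 ≤ ε := by
    have := (integral_nonneg (fun w => abs_nonneg _)).trans (ex r hr0 (by linarith) 0)
    exact nonneg_of_mul_nonneg_left this (by positivity)
  have s1 : tsupport (fun z => φ (z - b)) ⊆ closedBall 0 2 := by
    refine closure_minimal (fun z hz => ?_) isClosed_closedBall
    have : z - b ∈ closedBall (0:E) 1 := h2 ▸ subset_tsupport φ hz
    rw [mem_closedBall_zero_iff] at this ⊢
    have := norm_add_le (z - b) b
    rw [sub_add_cancel] at this; linarith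
  have e1 := est hu hg hw (ψ := fun z => φ (z - b)) (h1.comp (contDiff_id.sub contDiff_const)) s1
    (M := M) (fun z => hM _) (by rw [integral_sub_right_eq_self]; exact h3) x hr0 bx ex
  have e2 := est hu hg hw h1 (h2 ▸ closedBall_subset_closedBall (by norm_num)) (M := M)
    (fun z => hM _) h3 y hr0 by' ey
  have m1 : ∀ j : Fin 2, ∫ z : E, z j * φ (z - b) = b j := by
    intro j
    rw [← integral_add_right_eq_self _ b]
    simp only [add_sub_cancel_right, PiLp.add_apply, add_mul]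
    rw [integral_add (hI2 j) (hI.const_mul _), hodd, integral_const_mul, h3]; simp
  have m2 : ∫ z, u (x + r • z) * φ (z - b) = ∫ z, u (y + r • z) * φ z := by
    rw [← integral_add_right_eq_self _ b]
    simp only [add_sub_cancel_right]
    congr 1; ext z; congr 2
    rw [smul_add, hb, smul_smul, mul_inv_cancel₀ hr0.ne', one_smul]; abel
  rw [m1, m1, m2] at e1
  rw [hodd, hodd] at e2
  have m3 : ∀ j : Fin 2, r * b j = (y - x) j := by
    intro j; rw [hb, PiLp.smul_apply, smul_eq_mul, ← mul_assoc, mul_inv_cancel₀ hr0.ne', one_mul]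
  rw [← m3, ← m3]
  have a1 := abs_le.1 e1
  have a2 := abs_le.1 e2
  have : 0 ≤ ε * r := by positivity
  rw [abs_le]; constructor <;> nlinarith [a1.1, a1.2, a2.1, a2.2]

noncomputable def clm (A : Matrix (Fin 2) (Fin 2) ℝ) : E →L[ℝ] E :=
  LinearMap.toContinuousLinearMap (Matrix.toEuclideanLin A)

lemma clm_apply (A : Matrix (Fin 2) (Fin 2) ℝ) (v : E) (i : Fin 2) :
    clm A v i = A i 0 * v 0 + A i 1 * v 1 := by
  change (A.mulVec v.ofLp) i = _
  simp [Matrix.mulVec, dotProduct, Fin.sum_univ_two]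

lemma clm_det (A : Matrix (Fin 2) (Fin 2) ℝ) : (clm A).det = A.det := by
  simp [clm, ContinuousLinearMap.det, LinearMap.det_toLpLin]

/-- uniform Lebesgue points off a small set -/
lemma unif {G : E → ℝ} (hG : Integrable G) (hm : StronglyMeasurable G) {Ω : Set E}
    (hΩ : MeasurableSet Ω) (hf : volume Ω ≠ ⊤) {η : ℝ} (hη : 0 < η) :
    ∃ t, MeasurableSet t ∧ volume t ≤ ENNReal.ofReal η ∧ ∀ ε > 0, ∃ δ > 0, ∀ y ∈ Ω \ t, ∀ ρ, 0 < ρ →
      ρ ≤ δ → ∫ w in closedBall y ρ, |G w - G y| ≤ ε * ρ ^ 2 := by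
  set F : ℕ → E → ℝ := fun k y => ((k:ℝ) + 1) ^ 2 * ∫ w in closedBall y (1 / ((k:ℝ) + 1)), |G w - G y|
    with hF
  have hFm : ∀ k, StronglyMeasurable (F k) := by
    intro k
    have hs : MeasurableSet {p : E × E | dist p.2 p.1 ≤ 1 / ((k:ℝ) + 1)} :=
      (isClosed_le (by fun_prop) continuous_const).measurableSet
    have h1 : StronglyMeasurable fun p : E × E => |G p.2 - G p.1| :=
      ((hm.comp_measurable measurable_snd).sub (hm.comp_measurable measurable_fst)).norm
    have h2 := (h1.indicator hs).integral_prod_right' (ν := volume)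
    refine StronglyMeasurable.const_mul ?_ _
    convert h2 using 2 with y
    rw [← integral_indicator measurableSet_closedBall]
    rfl
  have hlim : ∀ᵐ y ∂(volume : Measure E), y ∈ Ω → Tendsto (fun k => F k y) atTop (𝓝 ((fun _ => 0) y)) := by
    filter_upwards [IsUnifLocDoublingMeasure.ae_tendsto_average_norm_sub volume
      hG.locallyIntegrable 1] with y hy _
    have h1 := hy (l := atTop) (fun _ : ℕ => y) (fun k => 1 / ((k:ℝ) + 1))
      (tendsto_nhdsWithin_iff.2 ⟨tendsto_one_div_add_atTop_nhds_zero_nat,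
        Eventually.of_forall fun k => by simp only [mem_Ioi]; positivity⟩)
      (Eventually.of_forall fun k => mem_closedBall_self (by positivity))
    have h2 := h1.const_mul Real.pi
    rw [mul_zero] at h2
    refine h2.congr fun k => ?_
    rw [setAverage_eq, measureReal_def, EuclideanSpace.volume_closedBall_fin_two, ENNReal.toReal_mul,
      ENNReal.toReal_pow, ENNReal.toReal_ofReal (by positivity), ENNReal.toReal_ofReal Real.pi_pos.le]
    simp only [hF, smul_eq_mul, Real.norm_eq_abs]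
    have := Real.pi_pos
    field_simp
  obtain ⟨t, -, htm, ht, hu⟩ := tendstoUniformlyOn_of_ae_tendsto hFm stronglyMeasurable_const hΩ hf
    hlim hη
  refine ⟨t, htm, ht, fun ε hε => ?_⟩
  obtain ⟨N, hN⟩ := eventually_atTop.1 (Metric.tendstoUniformlyOn_iff.1 hu (ε / 4) (by positivity))
  refine ⟨1 / ((N:ℝ) + 1), by positivity, fun y hy ρ hρ hρN => ?_⟩
  have h1 : (N:ℝ) + 1 ≤ 1 / ρ := by
    rw [le_div_iff₀ hρ]; rw [le_div_iff₀ (by positivity)] at hρN; linarith
  obtain ⟨k, hk⟩ : ∃ k, ⌊1 / ρ⌋₊ = k + 1 := Nat.exists_eq_succ_of_ne_zero (by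
    have : N + 1 ≤ ⌊1 / ρ⌋₊ := Nat.le_floor (by push_cast; exact h1)
    omega)
  have hkN : N ≤ k := by
    have : N + 1 ≤ ⌊1 / ρ⌋₊ := Nat.le_floor (by push_cast; exact h1)
    omega
  have k1 : (k:ℝ) + 1 ≤ 1 / ρ := by
    have := Nat.floor_le (show 0 ≤ 1 / ρ by positivity)
    rw [hk] at this; exact_mod_cast this
  have k2 : 1 / ρ < (k:ℝ) + 2 := by
    have := Nat.lt_floor_add_one (1 / ρ)
    rw [hk] at this; push_cast at this; linarith
  have h2 := hN k hkN y hy
  rw [dist_comm, Real.dist_eq, sub_zero] at h2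
  have h3 := (le_abs_self _).trans h2.le
  have h4 : ∫ w in closedBall y ρ, |G w - G y| ≤
      ∫ w in closedBall y (1 / ((k:ℝ) + 1)), |G w - G y| := by
    refine setIntegral_mono_set ((hG.integrableOn.sub
      (integrableOn_const (isCompact_closedBall _ _).measure_lt_top.ne)).abs)
      (Eventually.of_forall fun w => abs_nonneg _) (LE.le.eventuallyLE ?_)
    refine closedBall_subset_closedBall ?_
    rw [le_div_iff₀ (by positivity)]; rw [le_div_iff₀ hρ] at k1; linarith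
  refine h4.trans ?_
  simp only [hF] at h3
  set I := ∫ w in closedBall y (1 / ((k:ℝ) + 1)), |G w - G y| with hI
  have I0 : 0 ≤ I := integral_nonneg fun w => abs_nonneg _
  rw [div_lt_iff₀ hρ] at k2
  have k0 : (0:ℝ) ≤ k := Nat.cast_nonneg k
  have k3 : 1 ≤ 2 * (((k:ℝ) + 1) * ρ) := by nlinarith
  have k4 : 1 ≤ 4 * (((k:ℝ) + 1) ^ 2 * ρ ^ 2) := by nlinarith
  calc I ≤ 4 * (((k:ℝ) + 1) ^ 2 * ρ ^ 2) * I := le_mul_of_one_le_left I0 k4
    _ = 4 * (((k:ℝ) + 1) ^ 2 * I) * ρ ^ 2 := by ring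
    _ ≤ 4 * (ε / 4) * ρ ^ 2 := by gcongr
    _ = ε * ρ ^ 2 := by ring

lemma norm_le_two (v : E) {a : ℝ} (h : ∀ i, |v i| ≤ a) : ‖v‖ ≤ 2 * a := by
  have ha : 0 ≤ a := (abs_nonneg _).trans (h 0)
  rw [EuclideanSpace.norm_eq, Fin.sum_univ_two, Real.sqrt_le_iff]
  refine ⟨by positivity, ?_⟩
  have h0 := pow_le_pow_left₀ (abs_nonneg _) (h 0) 2
  have h1 := pow_le_pow_left₀ (abs_nonneg _) (h 1) 2
  simp only [Real.norm_eq_abs]
  nlinarith

lemma area_aux {Ω : Set E} (hΩ : IsOpen Ω) (hf : volume Ω ≠ ⊤) {h : E → E} (hc : Continuous h)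
    (hi : InjOn h Ω) {D : E → Matrix (Fin 2) (Fin 2) ℝ} (hI : ∀ i j, Integrable fun x => D x i j)
    (hm : ∀ i j, StronglyMeasurable fun x => D x i j)
    (hw : ∀ i, Weak Ω (fun x => h x i) (fun j x => D x i j))
    (hJ : ∫⁻ x in Ω, ENNReal.ofReal |(D x).det| ≠ ⊤) :
    ∫⁻ x in Ω, ENNReal.ofReal |(D x).det| ≤ volume (h '' Ω) := by
  refine ENNReal.le_of_forall_pos_le_add fun e he _ => ?_
  obtain ⟨δ, hδ, hd⟩ := exists_pos_setLIntegral_lt_of_measure_lt hJ (ε := e) (by simpa using he.ne')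
  obtain ⟨η, hη0, hη⟩ : ∃ η : ℝ, 0 < η ∧ 4 * ENNReal.ofReal η < δ := by
    obtain ⟨d, d0, d1⟩ := ENNReal.lt_iff_exists_nnreal_btwn.1 hδ
    have d2 : (0:ℝ) < d := by exact_mod_cast d0
    refine ⟨d / 4, by positivity, lt_of_eq_of_lt ?_ d1⟩
    rw [← ENNReal.ofReal_ofNat 4, ← ENNReal.ofReal_mul (by norm_num), ← ENNReal.ofReal_coe_nnreal]
    congr 1; ring
  choose t tm tv tu using fun i j => unif (hI i j) (hm i j) hΩ.measurableSet hf hη0
  set T := ⋃ i, ⋃ j, t i j with hT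
  have Tm : MeasurableSet T := MeasurableSet.iUnion fun i => MeasurableSet.iUnion fun j => tm i j
  have Tv : volume T < δ := by
    refine lt_of_le_of_lt ?_ hη
    refine (measure_iUnion_fintype_le _ _).trans ?_
    refine (Finset.sum_le_sum fun i _ => (measure_iUnion_fintype_le _ _).trans
      (Finset.sum_le_sum fun j _ => tv i j)).trans ?_
    simp only [Finset.sum_const, Finset.card_univ, Fintype.card_fin, nsmul_eq_mul, ← mul_assoc]
    norm_num
  have TU : ∀ ε > 0, ∃ δ > 0, ∀ y ∈ Ω \ T, ∀ ρ, 0 < ρ → ρ ≤ δ → ∀ i j,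
      ∫ w in closedBall y ρ, |D w i j - D y i j| ≤ ε * ρ ^ 2 := by
    intro ε hε
    choose d d0 d1 using fun i j => tu i j ε hε
    refine ⟨min (min (d 0 0) (d 0 1)) (min (d 1 0) (d 1 1)),
      lt_min (lt_min (d0 _ _) (d0 _ _)) (lt_min (d0 _ _) (d0 _ _)), fun y hy ρ h1 h2 i j => ?_⟩
    refine d1 i j y ⟨hy.1, fun h3 => hy.2 (mem_iUnion.2 ⟨i, mem_iUnion.2 ⟨j, h3⟩⟩)⟩ ρ h1 (h2.trans ?_)
    fin_cases i <;> fin_cases j <;> simp
  obtain ⟨C, C0, hC⟩ := whitney
  have hD : ∀ x ∈ Ω \ T, HasFDerivWithinAt h (clm (D x)) (Ω \ T) x := by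
    intro x hx
    rw [hasFDerivWithinAt_iff_isLittleO, Asymptotics.isLittleO_iff]
    intro c hc0
    obtain ⟨d, d0, d1⟩ := TU (c / (2 * C)) (by positivity)
    obtain ⟨ρ, ρ0, hρ⟩ := Metric.isOpen_iff.1 hΩ x hx.1
    have hb : ball x (min (d / 2) (ρ / 4)) ∈ 𝓝 x := ball_mem_nhds _ (by positivity)
    filter_upwards [self_mem_nhdsWithin, mem_nhdsWithin_of_mem_nhds hb] with y hy hyb
    rcases eq_or_ne x y with rfl | hxy
    · simp
    rw [mem_ball, dist_eq_norm, lt_min_iff] at hyb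
    have hn : 0 ≤ ‖y - x‖ := norm_nonneg _
    have b1 : closedBall x (2 * ‖y - x‖) ⊆ Ω :=
      (closedBall_subset_ball (by linarith [hyb.2])).trans hρ
    have b2 : closedBall y (2 * ‖y - x‖) ⊆ Ω := fun z hz => hρ (by
      rw [mem_closedBall, dist_eq_norm] at hz
      rw [mem_ball, dist_eq_norm]
      have := norm_add_le (z - y) (y - x)
      rw [sub_add_sub_cancel] at this
      linarith [hyb.2])
    have key := norm_le_two (h y - h x - clm (D x) (y - x)) (a := C * (c / (2 * C)) * ‖y - x‖)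
      (fun i => by
        have := hC Ω (fun x => h x i) (fun j x => D x i j)
          ((EuclideanSpace.proj i : E →L[ℝ] ℝ).continuous.comp hc) (hI i) (hw i) x y _ hxy b1 b2
          (fun r r0 r1 j => d1 x hx r r0 (by linarith [hyb.1]) i j)
          (fun r r0 r1 j => d1 y hy r r0 (by linarith [hyb.1]) i j)
        rw [PiLp.sub_apply, PiLp.sub_apply, clm_apply]
        exact this)
    refine key.trans (le_of_eq ?_)
    field_simp
  have h1 := lintegral_abs_det_fderiv_le_addHaar_image volume (hΩ.measurableSet.diff Tm) hD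
    (hi.mono sdiff_subset)
  simp only [clm_det] at h1
  have h2 := hd T ((Measure.restrict_le_self (μ := volume) (s := Ω) T).trans_lt Tv)
  rw [Measure.restrict_restrict Tm, inter_comm] at h2
  calc ∫⁻ x in Ω, ENNReal.ofReal |(D x).det|
      ≤ ∫⁻ x in (Ω \ T) ∪ (Ω ∩ T), ENNReal.ofReal |(D x).det| := by rw [sdiff_union_inter]
    _ ≤ _ := lintegral_union_le _ _ _
    _ ≤ volume (h '' Ω) + e :=
      add_le_add (h1.trans (measure_mono (image_mono sdiff_subset))) h2.le

end H92.Area
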