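import Pool.Agent.H92.Area2

set_option autoImplicit false
open MeasureTheory Set Metric Filter Topology
open scoped ContDiff

namespace H92.Area

/-- weak gradient identity with integrals over the domain -/
def WeakS (Ω : Set E) (u : E → ℝ) (g : Fin 2 → E → ℝ) : Prop :=
  ∀ φ : E → ℝ, ContDiff ℝ ∞ φ → HasCompactSupport φ → tsupport φ ⊆ Ω → ∀ j : Fin 2,
    ∫ x in Ω, u x * fderiv ℝ φ x (EuclideanSpace.single j (1 : ℝ)) = - ∫ x in Ω, g j x * φ x

lemma ext_cont {K : Set E} (hK : IsClosed K) {h : E → E} (hc : ContinuousOn h K) :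
    ∃ H : E → E, Continuous H ∧ EqOn H h K := by
  have : ∀ i : Fin 2, ∃ g : C(E, ℝ), ∀ x ∈ K, g x = h x i := by
    intro i
    obtain ⟨g, hg⟩ := ContinuousMap.exists_restrict_eq hK
      (⟨fun x : K => h x i, (EuclideanSpace.proj i : E →L[ℝ] ℝ).continuous.comp hc.domRestrict⟩ : C(K, ℝ))
    exact ⟨g, fun x hx => congr($(hg) ⟨x, hx⟩)⟩
  choose g hg using this
  refine ⟨fun x => WithLp.toLp 2 fun i => g i x, ?_, fun x hx => ?_⟩
  · exact (PiLp.continuous_toLp 2 _).comp (continuous_pi fun i => (g i).continuous)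
  · ext i; exact hg i x hx

lemma area_ball {c : E} {R : ℝ} (hR : 0 < R) {h : E → E} (hc : ContinuousOn h (closedBall c R))
    (hi : InjOn h (ball c R)) {D : E → Matrix (Fin 2) (Fin 2) ℝ}
    (hI : ∀ i j, LocallyIntegrableOn (fun x => D x i j) (ball c R))
    (hw : ∀ i, WeakS (ball c R) (fun x => h x i) (fun j x => D x i j))
    (hJ : LocallyIntegrableOn (fun x => (D x).det) (ball c R)) :
    ∫⁻ x in ball c R, ENNReal.ofReal |(D x).det| ≤ volume (h '' ball c R) := by
  obtain ⟨H, Hc, He⟩ := ext_cont isClosed_closedBall hc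
  have hU : ball c R = ⋃ k : ℕ, ball c (R - 1 / ((k:ℝ) + 1)) := by
    ext x
    simp only [mem_ball, mem_iUnion]
    constructor
    · intro hx
      obtain ⟨k, hk⟩ := exists_nat_one_div_lt (show 0 < R - dist x c by linarith)
      exact ⟨k, by linarith⟩
    · rintro ⟨k, hk⟩
      have : (0:ℝ) < 1 / ((k:ℝ) + 1) := by positivity
      linarith
  conv_lhs => rw [hU]
  rw [setLIntegral_iUnion_of_directed _ (Monotone.directed_le fun a b hab => ball_subset_ball (by
    have : (1:ℝ) / ((b:ℝ) + 1) ≤ 1 / ((a:ℝ) + 1) := Nat.one_div_le_one_div hab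
    linarith))]
  refine iSup_le fun k => ?_
  set ρ := R - 1 / ((k:ℝ) + 1) with hρ
  have hρR : ρ < R := by have : (0:ℝ) < 1 / ((k:ℝ) + 1) := by positivity
                         linarith
  set B := ball c ρ with hB
  have hBm : MeasurableSet B := measurableSet_ball
  have s1 : closedBall c ρ ⊆ ball c R := closedBall_subset_ball hρR
  have s2 : B ⊆ ball c R := ball_subset_closedBall.trans s1
  have i1 : ∀ i j, Integrable (B.indicator fun x => D x i j) := fun i j =>
    (integrable_indicator_iff hBm).2 (((hI i j).integrableOn_compact_subset s1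
      (isCompact_closedBall _ _)).mono_set ball_subset_closedBall)
  set D' : E → Matrix (Fin 2) (Fin 2) ℝ := fun x => Matrix.of fun i j => (i1 i j).1.mk _ x with hD'
  have ae1 : ∀ i j, (B.indicator fun x => D x i j) =ᵐ[volume] fun x => D' x i j := fun i j =>
    (i1 i j).1.ae_eq_mk
  have ae2 : ∀ᵐ x ∂(volume.restrict B), D x = D' x := by
    rw [ae_restrict_iff' hBm]
    filter_upwards [ae1 0 0, ae1 0 1, ae1 1 0, ae1 1 1] with x a b c d hx
    rw [indicator_of_mem hx] at a b c d
    ext i j; fin_cases i <;> fin_cases j <;> assumption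
  have e1 : ∫⁻ x in B, ENNReal.ofReal |(D x).det| = ∫⁻ x in B, ENNReal.ofReal |(D' x).det| :=
    lintegral_congr_ae (by filter_upwards [ae2] with x hx; rw [hx])
  have f1 : ∫⁻ x in B, ENNReal.ofReal |(D' x).det| ≠ ⊤ := by
    rw [← e1]
    have := ((hJ.integrableOn_compact_subset s1 (isCompact_closedBall _ _)).mono_set
      (ball_subset_closedBall (x := c) (ε := ρ))).2
    rw [hasFiniteIntegral_iff_norm] at this
    exact this.ne
  have s3 : B ⊆ closedBall c R := s2.trans ball_subset_closedBall
  have key := area_aux (Ω := B) isOpen_ball measure_ball_lt_top.ne Hc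
    ((hi.mono s2).congr (He.mono s3).symm) (D := D') (fun i j => (i1 i j).congr (ae1 i j))
    (fun i j => (i1 i j).1.stronglyMeasurable_mk) (fun i φ h1 h2 h3 j => by
      have := hw i φ h1 h2 (h3.trans s2) j
      rw [setIntegral_eq_integral_of_forall_compl_eq_zero (fun t ht => by
          rw [fderiv_of_notMem_tsupport ℝ (fun h => ht (s2 (h3 h)))]; simp),
        setIntegral_eq_integral_of_forall_compl_eq_zero (fun t ht => by
          rw [image_eq_zero_of_notMem_tsupport (fun h => ht (s2 (h3 h)))]; simp)] at this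
      convert this using 2
      · ext x
        by_cases hx : x ∈ B
        · simp only [He (s3 hx)]
        · rw [fderiv_of_notMem_tsupport ℝ (fun h => hx (h3 h))]; simp
      · refine integral_congr_ae ?_
        filter_upwards [ae1 i j] with x hx
        rw [← hx]
        by_cases hx' : x ∈ B
        · rw [indicator_of_mem hx']
        · rw [image_eq_zero_of_notMem_tsupport (fun h => hx' (h3 h))]; simp) f1
  rw [e1]
  refine key.trans ?_
  rw [(He.mono s3).image_eq]
  exact measure_mono (image_mono s2)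

lemma st_bound : ∃ M : ℝ, 0 ≤ M ∧ ∀ t, |deriv Real.smoothTransition t| ≤ M ∧
    (1 < t → deriv Real.smoothTransition t = 0) := by
  have hc : Continuous (deriv Real.smoothTransition) :=
    (Real.smoothTransition.contDiff (n := 1)).continuous_deriv le_rfl
  obtain ⟨M, hM⟩ := (isCompact_Icc (a := (0:ℝ)) (b := 1)).exists_bound_of_continuousOn hc.continuousOn
  have h0 : 0 ≤ M := (norm_nonneg _).trans (hM 0 (by simp))
  have h1 : ∀ t : ℝ, 1 < t → deriv Real.smoothTransition t = 0 := fun t ht => by
    have : Real.smoothTransition =ᶠ[𝓝 t] fun _ => 1 := by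
      filter_upwards [Ioi_mem_nhds ht] with s hs using Real.smoothTransition.one_of_one_le (le_of_lt hs)
    rw [this.deriv_eq]; simp
  refine ⟨M, h0, fun t => ⟨?_, h1 t⟩⟩
  rcases lt_or_ge t 0 with h | h
  · have : Real.smoothTransition =ᶠ[𝓝 t] fun _ => 0 := by
      filter_upwards [Iio_mem_nhds h] with s hs using Real.smoothTransition.zero_of_nonpos (le_of_lt hs)
    rw [this.deriv_eq]; simpa using h0
  rcases lt_or_ge 1 t with h' | h'
  · rw [h1 t h']; simpa using h0
  · exact hM t ⟨h, h'⟩

lemma layer_vol {c : E} {R a : ℝ} (hR : 0 < R) (ha : 0 ≤ a) (haR : a ≤ R ^ 2) :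
    volume.real (ball c R \ ball c (√(R ^ 2 - a))) = Real.pi * a := by
  have h1 : √(R ^ 2 - a) ≤ R := Real.sqrt_le_iff.2 ⟨hR.le, by linarith⟩
  rw [measureReal_sdiff (ball_subset_ball h1) measurableSet_ball measure_ball_lt_top.ne,
    measureReal_def, measureReal_def, EuclideanSpace.volume_ball_fin_two,
    EuclideanSpace.volume_ball_fin_two, ENNReal.toReal_mul, ENNReal.toReal_mul, ENNReal.toReal_pow,
    ENNReal.toReal_pow, ENNReal.toReal_ofReal hR.le, ENNReal.toReal_ofReal (Real.sqrt_nonneg _),
    ENNReal.toReal_ofReal Real.pi_pos.le, Real.sq_sqrt (by linarith)]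
  ring

noncomputable def chi (c : E) (R k : ℝ) (x : E) : ℝ :=
  Real.smoothTransition (k * (R ^ 2 - ‖x - c‖ ^ 2) - 1)

lemma chi_smooth (c : E) (R k : ℝ) : ContDiff ℝ ∞ (chi c R k) :=
  Real.smoothTransition.contDiff.comp ((contDiff_const.mul (contDiff_const.sub
    ((contDiff_norm_sq ℝ).comp (contDiff_id.sub contDiff_const)))).sub contDiff_const)

lemma chi_supp (c : E) {R k : ℝ} (hR : 0 < R) (hk : 0 < k) : tsupport (chi c R k) ⊆ ball c R := by
  have : tsupport (chi c R k) ⊆ {x | 1 ≤ k * (R ^ 2 - ‖x - c‖ ^ 2)} := by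
    refine closure_minimal (fun x hx => ?_) (isClosed_le continuous_const (by fun_prop))
    by_contra h
    simp only [Set.mem_ofPred_eq, not_le] at h
    exact hx (Real.smoothTransition.zero_of_nonpos (by linarith))
  intro x hx
  have h1 : 1 ≤ k * (R ^ 2 - ‖x - c‖ ^ 2) := this hx
  rw [mem_ball, dist_eq_norm]
  have h2 : 0 < R ^ 2 - ‖x - c‖ ^ 2 := pos_of_mul_pos_left (by linarith : 0 < (R ^ 2 - ‖x - c‖ ^ 2) * k) hk.le
  exact lt_of_pow_lt_pow_left₀ 2 hR.le (by linarith)

lemma chi_fd (c : E) (R k : ℝ) (x : E) (j : Fin 2) :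
    fderiv ℝ (chi c R k) x (EuclideanSpace.single j (1:ℝ)) =
      deriv Real.smoothTransition (k * (R ^ 2 - ‖x - c‖ ^ 2) - 1) * (-(2 * k * (x - c) j)) := by
  have a1 : HasFDerivAt (fun x : E => x - c) (ContinuousLinearMap.id ℝ E) x :=
    (hasFDerivAt_id x).sub_const c
  have a2 := (((a1.norm_sq.const_sub (R ^ 2)).const_mul k).sub_const 1)
  have a3 := (((Real.smoothTransition.contDiff (n := 1)).differentiable one_ne_zero)
    (k * (R ^ 2 - ‖x - c‖ ^ 2) - 1)).hasDerivAt.comp_hasFDerivAt x a2
  have a4 : fderiv ℝ (chi c R k) x = _ := a3.fderiv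
  rw [a4]
  simp [EuclideanSpace.inner_single_right]
  left; ring

lemma smooth_of_ts {f : E → ℝ} (h : ∀ x ∈ tsupport f, ContDiffAt ℝ ∞ f x) : ContDiff ℝ ∞ f := by
  rw [contDiff_iff_contDiffAt]
  intro x
  by_cases hx : x ∈ tsupport f
  · exact h x hx
  · exact contDiffAt_const.congr_of_eventuallyEq (notMem_tsupport_iff_eventuallyEq.1 hx)

lemma flux_zero {c : E} {R : ℝ} (hR : 0 < R) {η : E → ℝ} (hη : ContinuousOn η (closedBall c R))
    (h0 : ∀ x ∈ sphere c R, η x = 0) {G : Fin 2 → E → ℝ} (hG : ∀ j, IntegrableOn (G j) (ball c R))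
    (hw : WeakS (ball c R) η G) {V : Fin 2 → E → ℝ}
    (hV : ∀ j, ∀ x ∈ closedBall c R, ContDiffAt ℝ ∞ (V j) x)
    (hd : ∀ x ∈ ball c R, fderiv ℝ (V 0) x (EuclideanSpace.single 0 (1:ℝ)) +
      fderiv ℝ (V 1) x (EuclideanSpace.single 1 (1:ℝ)) = 0) :
    ∫ x in ball c R, (G 0 x * V 0 x + G 1 x * V 1 x) = 0 := by
  have hK : IsCompact (closedBall c R) := isCompact_closedBall _ _
  have hBm : MeasurableSet (ball c R) := measurableSet_ball
  have hVc : ∀ j, ContinuousOn (V j) (closedBall c R) := fun j x hx =>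
    (hV j x hx).continuousAt.continuousWithinAt
  obtain ⟨B0, hB0⟩ := hK.exists_bound_of_continuousOn (hVc 0)
  obtain ⟨B1, hB1⟩ := hK.exists_bound_of_continuousOn (hVc 1)
  have B00 : 0 ≤ B0 := (norm_nonneg _).trans (hB0 c (mem_closedBall_self hR.le))
  have B10 : 0 ≤ B1 := (norm_nonneg _).trans (hB1 c (mem_closedBall_self hR.le))
  obtain ⟨M, M0, hM⟩ := st_bound
  have iGV : ∀ j, IntegrableOn (fun x => G j x * V j x) (ball c R) := fun j =>
    (hG j).mul_continuousOn_of_subset (hVc j) hBm hK ball_subset_closedBall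
  have iS : IntegrableOn (fun x => G 0 x * V 0 x + G 1 x * V 1 x) (ball c R) := (iGV 0).add (iGV 1)
  -- identity
  have ident : ∀ k : ℝ, 0 < k → ∫ x in ball c R, (G 0 x * V 0 x + G 1 x * V 1 x) * chi c R k x =
      - ∫ x in ball c R, η x * (V 0 x * fderiv ℝ (chi c R k) x (EuclideanSpace.single 0 (1:ℝ)) +
        V 1 x * fderiv ℝ (chi c R k) x (EuclideanSpace.single 1 (1:ℝ))) := by
    intro k hk
    have ts : ∀ j, tsupport (fun x => chi c R k x * V j x) ⊆ ball c R := fun j =>
      (tsupport_mul_subset_left).trans (chi_supp c hR hk)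
    have sm : ∀ j, ContDiff ℝ ∞ (fun x => chi c R k x * V j x) := fun j =>
      smooth_of_ts fun x hx =>
        (chi_smooth c R k).contDiffAt.mul (hV j x (ball_subset_closedBall (ts j hx)))
    have cs : ∀ j, HasCompactSupport (fun x => chi c R k x * V j x) := fun j =>
      hK.of_isClosed_subset (isClosed_tsupport _) ((ts j).trans ball_subset_closedBall)
    have w := fun j => hw _ (sm j) (cs j) (ts j) j
    have i1 : ∀ j, IntegrableOn (fun x => G j x * (chi c R k x * V j x)) (ball c R) := fun j =>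
      (hG j).mul_continuousOn_of_subset (sm j).continuous.continuousOn hBm hK ball_subset_closedBall
    have i2 : ∀ j, IntegrableOn (fun x => η x * fderiv ℝ (fun x => chi c R k x * V j x) x
        (EuclideanSpace.single j (1:ℝ))) (ball c R) := fun j =>
      ((hη.mul (((sm j).continuous_fderiv (by simp)).clm_apply
        continuous_const).continuousOn).integrableOn_compact hK).mono_set ball_subset_closedBall
    have e1 : ∫ x in ball c R, (G 0 x * V 0 x + G 1 x * V 1 x) * chi c R k x =
        (∫ x in ball c R, G 0 x * (chi c R k x * V 0 x)) +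
          ∫ x in ball c R, G 1 x * (chi c R k x * V 1 x) := by
      rw [← integral_add (i1 0) (i1 1)]; congr 1; ext x; ring
    rw [e1, ← neg_neg (∫ x in ball c R, G 0 x * _), ← w 0, ← neg_neg (∫ x in ball c R, G 1 x * _),
      ← w 1, ← neg_add, ← integral_add (i2 0) (i2 1)]
    congr 1
    refine setIntegral_congr_fun hBm fun x hx => ?_
    have d1 := ((chi_smooth c R k).differentiable (by simp)) x
    have d2 := fun j => (hV j x (ball_subset_closedBall hx)).differentiableAt (by simp)
    rw [fderiv_fun_mul d1 (d2 0), fderiv_fun_mul d1 (d2 1)]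
    simp only [add_apply, smul_apply, smul_eq_mul]
    linear_combination η x * chi c R k x * hd x hx
  -- limits
  have lim1 : Tendsto (fun n : ℕ => ∫ x in ball c R, (G 0 x * V 0 x + G 1 x * V 1 x) *
      chi c R ((n:ℝ) + 1) x) atTop (𝓝 (∫ x in ball c R, (G 0 x * V 0 x + G 1 x * V 1 x))) := by
    refine tendsto_integral_of_dominated_convergence (fun x => ‖G 0 x * V 0 x + G 1 x * V 1 x‖)
      (fun n => iS.1.mul (chi_smooth c R _).continuous.aestronglyMeasurable) iS.norm
      (fun n => Eventually.of_forall fun x => ?_) ?_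
    · rw [norm_mul]
      refine mul_le_of_le_one_right (norm_nonneg _) ?_
      rw [Real.norm_eq_abs, chi, abs_of_nonneg (Real.smoothTransition.nonneg _)]
      exact Real.smoothTransition.le_one _
    · rw [ae_restrict_iff' hBm]
      refine Eventually.of_forall fun x hx => tendsto_const_nhds.congr' ?_
      rw [mem_ball, dist_eq_norm] at hx
      have h1 : 0 < R ^ 2 - ‖x - c‖ ^ 2 := by nlinarith [norm_nonneg (x - c)]
      obtain ⟨N, hN⟩ := exists_nat_ge (2 / (R ^ 2 - ‖x - c‖ ^ 2))
      filter_upwards [eventually_ge_atTop N] with n hn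
      have : (N:ℝ) ≤ n := by exact_mod_cast hn
      rw [div_le_iff₀ h1] at hN
      rw [chi, Real.smoothTransition.one_of_one_le (by nlinarith), mul_one]
  have lim2 : Tendsto (fun n : ℕ => ∫ x in ball c R, (G 0 x * V 0 x + G 1 x * V 1 x) *
      chi c R ((n:ℝ) + 1) x) atTop (𝓝 0) := by
    rw [NormedAddGroup.tendsto_nhds_zero]
    intro ε hε
    set C := (B0 + B1) * (M * (2 * R)) * (Real.pi * 2) + 1 with hC
    have C0 : 0 < C := by have := Real.pi_pos; positivity
    set e := ε / C / 2 with he
    have e0 : 0 < e := by positivity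
    have hS : IsCompact (closedBall c R ∩ (fun x => |η x|) ⁻¹' Ici e) :=
      hK.of_isClosed_subset (hη.abs.preimage_isClosed_of_isClosed isClosed_closedBall isClosed_Ici)
        inter_subset_left
    obtain ⟨m, m0, hm⟩ := hS.exists_forall_le' (f := fun x => R ^ 2 - ‖x - c‖ ^ 2) (a := 0)
      (Continuous.continuousOn (by fun_prop)) (fun x hx => by
        have h1 : ‖x - c‖ ≤ R := by simpa [dist_eq_norm] using hx.1
        have h2 : ‖x - c‖ ≠ R := fun h => by
          have h3 : e ≤ |η x| := hx.2
          rw [h0 x (by simpa [dist_eq_norm] using h), abs_zero] at h3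
          linarith
        have := lt_of_le_of_ne h1 h2
        nlinarith [norm_nonneg (x - c)])
    obtain ⟨N, hN⟩ := exists_nat_gt (2 / min m (R ^ 2))
    filter_upwards [eventually_ge_atTop N] with n hn
    have hn' : (N:ℝ) ≤ n := by exact_mod_cast hn
    set k : ℝ := n + 1 with hk
    have k0 : 0 < k := by positivity
    have k1 : 2 / k < min m (R ^ 2) := by
      have : 0 < min m (R ^ 2) := lt_min m0 (by positivity)
      rw [div_lt_iff₀ this] at hN
      rw [div_lt_iff₀ k0]; nlinarith
    rw [lt_min_iff] at k1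
    rw [ident k k0, norm_neg]
    set L := ball c R \ ball c (√(R ^ 2 - 2 / k)) with hL
    have Lm : MeasurableSet L := hBm.diff measurableSet_ball
    have Lf : volume L ≠ ⊤ := ((measure_mono sdiff_subset).trans_lt measure_ball_lt_top).ne
    set A := e * ((B0 + B1) * (M * (2 * k * R))) with hA
    have A0 : 0 ≤ A := by positivity
    refine (norm_integral_le_of_norm_le (g := L.indicator fun _ => A)
      ((integrable_indicator_iff Lm).2 (integrableOn_const Lf)).integrableOn ?_).trans_lt ?_
    · rw [ae_restrict_iff' hBm]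
      refine Eventually.of_forall fun x hx => ?_
      have hx1 : ‖x - c‖ < R := by simpa [dist_eq_norm] using hx
      rw [chi_fd, chi_fd]
      by_cases hxL : x ∈ L
      · rw [indicator_of_mem hxL]
        have a1 : R ^ 2 - 2 / k ≤ ‖x - c‖ ^ 2 := by
          have := hxL.2
          rw [mem_ball, dist_eq_norm, not_lt] at this
          exact (Real.sqrt_le_left (norm_nonneg _)).1 this
        have a2 : |η x| ≤ e := by
          by_contra hh
          have := hm x ⟨ball_subset_closedBall hx, (not_le.1 hh).le⟩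
          linarith [k1.1]
        have a3 : ∀ j : Fin 2, |deriv Real.smoothTransition (k * (R ^ 2 - ‖x - c‖ ^ 2) - 1) *
            (-(2 * k * (x - c) j))| ≤ M * (2 * k * R) := by
          intro j
          rw [abs_mul, abs_neg, abs_mul, abs_of_pos (by positivity : 0 < 2 * k)]
          have : |(x - c) j| ≤ R := (PiLp.norm_apply_le (x - c) j).trans hx1.le
          gcongr
          exact (hM _).1
        rw [Real.norm_eq_abs, abs_mul, hA]
        refine mul_le_mul a2 ((abs_add_le _ _).trans ?_) (abs_nonneg _) e0.le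
        rw [abs_mul (V 0 x), abs_mul (V 1 x), add_mul B0]
        exact add_le_add (mul_le_mul (hB0 x (ball_subset_closedBall hx)) (a3 0) (abs_nonneg _) B00)
          (mul_le_mul (hB1 x (ball_subset_closedBall hx)) (a3 1) (abs_nonneg _) B10)
      · rw [indicator_of_notMem hxL]
        have a1 : ‖x - c‖ < √(R ^ 2 - 2 / k) := by
          by_contra hh
          exact hxL ⟨hx, by rw [mem_ball, dist_eq_norm]; exact hh⟩
        rw [Real.lt_sqrt (norm_nonneg _)] at a1
        have a2 : 2 < k * (R ^ 2 - ‖x - c‖ ^ 2) := by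
          have : 2 / k < R ^ 2 - ‖x - c‖ ^ 2 := by linarith
          rw [div_lt_iff₀ k0] at this; linarith
        rw [(hM _).2 (by linarith)]; simp
    · rw [setIntegral_indicator Lm, setIntegral_const, inter_eq_right.2 sdiff_subset,
        layer_vol hR (by positivity) k1.2.le, smul_eq_mul, hA]
      have e1 : Real.pi * (2 / k) * (e * ((B0 + B1) * (M * (2 * k * R)))) = e * (C - 1) := by
        rw [hC]; field_simp; ring
      have e2 : e * C = ε / 2 := by rw [he]; field_simp
      rw [e1]; nlinarith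
  exact tendsto_nhds_unique lim1 lim2

end H92.Area
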