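import Mathlib

set_option autoImplicit false
open MeasureTheory Filter Topology Set Complex

namespace Pool.Agent.H92.Beurling

lemma inv_sq_bound {ε : ℝ} (hε : 0 < ε) {η : ℂ} (h : ε ≤ ‖η‖) :
    ‖(η ^ 2)⁻¹‖ ≤ (1 + ε⁻¹ ^ 2) * (1 + η.im ^ 2)⁻¹ := by
  have h0 : 0 < ‖η‖ := hε.trans_le h
  have h1 : η.im ^ 2 ≤ ‖η‖ ^ 2 := by
    have := Complex.abs_im_le_norm η
    nlinarith [abs_nonneg η.im, sq_abs η.im]
  have h2 : 1 ≤ ε⁻¹ ^ 2 * ‖η‖ ^ 2 := by
    have : 1 ≤ ε⁻¹ * ‖η‖ := by rw [inv_mul_eq_div, le_div_iff₀ hε]; linarith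
    nlinarith
  rw [norm_inv, norm_pow, ← div_eq_mul_inv, inv_eq_one_div, div_le_div_iff₀ (by positivity) (by positivity)]
  nlinarith

lemma half_line {ε u r : ℝ} (hε : 0 < ε) (hr : 0 ≤ r) (h : ε ^ 2 ≤ u ^ 2 + r ^ 2) :
    IntegrableOn (fun s : ℝ => (((u : ℂ) + s * I) ^ 2)⁻¹) (Ioi r) ∧
    ∫ s in Ioi r, (((u : ℂ) + s * I) ^ 2)⁻¹ = -(I / (u + r * I)) := by
  have hn : ∀ s ∈ Ici r, ε ≤ ‖(u : ℂ) + s * I‖ := by
    intro s hs
    rw [Complex.norm_add_mul_I]
    apply Real.le_sqrt_of_sq_le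
    have : r ≤ s := hs
    nlinarith
  have hne : ∀ s ∈ Ici r, (u : ℂ) + s * I ≠ 0 := fun s hs =>
    norm_pos_iff.1 (hε.trans_le (hn s hs))
  have hi : IntegrableOn (fun s : ℝ => (((u : ℂ) + s * I) ^ 2)⁻¹) (Ioi r) := by
    refine Integrable.mono' ((integrable_inv_one_add_sq.const_mul (1 + ε⁻¹ ^ 2)).integrableOn)
      (Measurable.aestronglyMeasurable (by fun_prop)) ?_
    filter_upwards [ae_restrict_mem measurableSet_Ioi] with s hs
    simpa using inv_sq_bound hε (hn s (mem_Ici.2 (le_of_lt hs)))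
  refine ⟨hi, ?_⟩
  have hd : ∀ s ∈ Ici r, HasDerivAt (fun s : ℝ => I / ((u : ℂ) + s * I))
      ((((u : ℂ) + s * I) ^ 2)⁻¹) s := by
    intro s hs
    have h1 : HasDerivAt (fun s : ℝ => (u : ℂ) + s * I) I s := by
      simpa using ((Complex.ofRealCLM.hasDerivAt (x := s)).mul_const I).const_add (u : ℂ)
    have h2 := (hasDerivAt_const s I).div h1 (hne s hs)
    have e : (0 * ((u : ℂ) + s * I) - I * I) / ((u : ℂ) + s * I) ^ 2 = (((u : ℂ) + s * I) ^ 2)⁻¹ := by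
      simp
    rw [e] at h2
    exact h2
  have ht : Tendsto (fun s : ℝ => I / ((u : ℂ) + s * I)) atTop (𝓝 0) := by
    rw [tendsto_zero_iff_norm_tendsto_zero]
    refine squeeze_zero' (Eventually.of_forall fun _ => norm_nonneg _) ?_ tendsto_inv_atTop_zero
    filter_upwards [eventually_gt_atTop 0] with s hs
    rw [norm_div, norm_I, one_div]
    apply inv_anti₀ hs
    have := Complex.abs_im_le_norm ((u : ℂ) + s * I)
    simp at this
    exact (le_abs_self s).trans this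
  rw [integral_Ioi_of_hasDerivAt_of_tendsto' hd hi ht, zero_sub]

lemma line {ε : ℝ} (hε : 0 < ε) (u : ℝ) :
    ∫ s : ℝ, indicator {η : ℂ | ε < ‖η‖} (fun η => (η ^ 2)⁻¹) ((u : ℂ) + s * I) =
      ((-2 * √(ε ^ 2 - u ^ 2) / ε ^ 2 : ℝ) : ℂ) := by
  set r := √(ε ^ 2 - u ^ 2) with hr
  have hr0 : 0 ≤ r := Real.sqrt_nonneg _
  have h1 : ε ^ 2 ≤ u ^ 2 + r ^ 2 := by
    have := Real.sq_sqrt' (x := ε ^ 2 - u ^ 2)
    rw [hr, this]
    linarith [le_max_left (ε ^ 2 - u ^ 2) 0]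
  obtain ⟨a1, a2⟩ := half_line hε hr0 h1
  obtain ⟨b1, b2⟩ := half_line (u := -u) hε hr0 (by simpa using h1)
  have e : ∀ s : ℝ, ((((-u : ℝ) : ℂ) + s * I) ^ 2)⁻¹ = (((u : ℂ) + (-s : ℝ) * I) ^ 2)⁻¹ := by
    intro s; push_cast; ring
  simp_rw [e] at b1 b2
  rw [integral_comp_neg_Ioi r (fun s : ℝ => (((u : ℂ) + s * I) ^ 2)⁻¹), integral_Iic_eq_integral_Iio] at b2
  have b3 : IntegrableOn (fun s : ℝ => (((u : ℂ) + s * I) ^ 2)⁻¹) (Iio (-r)) := by
    have := (MeasurePreserving.integrableOn_comp_preimage (Measure.measurePreserving_neg (volume : Measure ℝ))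
      (Homeomorph.neg ℝ).measurableEmbedding (f := fun s : ℝ => (((u : ℂ) + s * I) ^ 2)⁻¹) (s := Iio (-r))).1
    apply this
    simpa [Function.comp_def] using b1
  have hae : (fun s : ℝ => indicator {η : ℂ | ε < ‖η‖} (fun η => (η ^ 2)⁻¹) ((u : ℂ) + s * I)) =ᵐ[volume]
      indicator (Iio (-r) ∪ Ioi r) (fun s : ℝ => (((u : ℂ) + s * I) ^ 2)⁻¹) := by
    have : ∀ᵐ s : ℝ, s ≠ 0 := by simp [ae_iff]
    filter_upwards [this] with s hs
    have : ((u : ℂ) + s * I ∈ {η : ℂ | ε < ‖η‖}) ↔ s ∈ Iio (-r) ∪ Ioi r := by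
      rw [mem_ofPred_eq, Complex.norm_add_mul_I, Real.lt_sqrt hε.le, mem_union, mem_Iio, mem_Ioi,
        lt_neg, or_comm, ← lt_abs, hr, Real.sqrt_lt' (abs_pos.2 hs), sq_abs]
      constructor <;> intro h <;> linarith
    by_cases h : s ∈ Iio (-r) ∪ Ioi r
    · rw [indicator_of_mem h, indicator_of_mem (this.2 h)]
    · rw [indicator_of_notMem h, indicator_of_notMem (fun h' => h (this.1 h'))]
  rw [integral_congr_ae hae, integral_indicator (measurableSet_Iio.union measurableSet_Ioi),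
    setIntegral_union _ measurableSet_Ioi b3 a1, a2, b2]
  · have hne : (u : ℂ) + r * I ≠ 0 := by
      intro h
      have h2 := congrArg Complex.re h
      have h3 := congrArg Complex.im h
      simp at h2 h3
      rw [h2, h3] at h1
      nlinarith
    have hne' : -(u : ℂ) + r * I ≠ 0 := by
      intro h
      have h2 := congrArg Complex.re h
      have h3 := congrArg Complex.im h
      simp at h2 h3
      rw [h2, h3] at h1
      nlinarith
    have hε' : (ε : ℂ) ≠ 0 := by exact_mod_cast hε.ne'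
    push_cast
    rcases le_total (ε ^ 2 - u ^ 2) 0 with h | h
    · have : r = 0 := Real.sqrt_eq_zero'.2 h
      rw [this] at hne hne' ⊢
      simp [div_neg]
    · have h4 : r ^ 2 = ε ^ 2 - u ^ 2 := Real.sq_sqrt h
      have h5 : (ε : ℂ) ^ 2 = u ^ 2 + r ^ 2 := by exact_mod_cast (by linarith : ε ^ 2 = u ^ 2 + r ^ 2)
      have key : (-(u : ℂ) + r * I) * (u + r * I) = -(ε : ℂ) ^ 2 := by
        rw [h5]; linear_combination (r : ℂ) ^ 2 * I_sq
      rw [← neg_add, div_add_div _ _ hne' hne, key]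
      field_simp
      linear_combination (2 * (r:ℂ)) * I_sq
  · rw [disjoint_left]
    intro s h1 h2
    simp at h1 h2
    linarith

/-- the eigenfunction -/
noncomputable def F (ζ : ℂ) : ℂ := (((1 + ζ.re ^ 2)⁻¹ : ℝ) : ℂ)

lemma F_cont : Continuous F := by
  unfold F
  refine Complex.continuous_ofReal.comp (Continuous.inv₀ (by fun_prop) fun x => by positivity)

lemma trunc_eq {ε : ℝ} (z : ℂ) (ζ : ℂ) :
    indicator {ζ | ε < ‖z - ζ‖} (fun ζ => F ζ / (z - ζ) ^ 2) ζ =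
      (fun η => F (z - η) * indicator {η : ℂ | ε < ‖η‖} (fun η => (η ^ 2)⁻¹) η) (z - ζ) := by
  simp only [sub_sub_cancel, indicator, mem_ofPred_eq]
  split_ifs <;> simp [div_eq_mul_inv]

lemma trunc_int {ε : ℝ} (hε : 0 < ε) (z : ℂ) :
    Integrable (fun p : ℝ × ℝ => F (z - (p.1 + p.2 * I)) *
      indicator {η : ℂ | ε < ‖η‖} (fun η => (η ^ 2)⁻¹) (p.1 + p.2 * I)) (volume.prod volume) := by
  have h1 : Integrable (fun u : ℝ => (1 + (z.re - u) ^ 2)⁻¹) :=
    integrable_inv_one_add_sq.comp_sub_left z.re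
  have h2 := h1.mul_prod (integrable_inv_one_add_sq.const_mul (1 + ε⁻¹ ^ 2))
  refine h2.mono' (Measurable.aestronglyMeasurable ?_) (Eventually.of_forall fun p => ?_)
  · refine (F_cont.measurable.comp (by fun_prop)).mul ?_
    exact (Measurable.indicator (by fun_prop) (measurableSet_lt measurable_const measurable_norm)).comp
      (by fun_prop)
  · rw [norm_mul]
    gcongr
    · simp only [F, norm_real, Real.norm_eq_abs]
      rw [abs_of_pos (by positivity)]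
      simp
    · by_cases h : (p.1 + p.2 * I : ℂ) ∈ {η : ℂ | ε < ‖η‖}
      · rw [indicator_of_mem h]
        simpa using inv_sq_bound hε (le_of_lt h)
      · rw [indicator_of_notMem h, norm_zero]; positivity

lemma mp : MeasurePreserving (fun p : ℝ × ℝ => (p.1 + p.2 * I : ℂ)) (volume.prod volume) volume := by
  have := Complex.volume_preserving_equiv_real_prod.symm
  have e : (fun p : ℝ × ℝ => (p.1 + p.2 * I : ℂ)) = measurableEquivRealProd.symm := by
    funext p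
    apply Complex.ext <;> simp
  rw [e]
  exact this

lemma me : MeasurableEmbedding (fun p : ℝ × ℝ => (p.1 + p.2 * I : ℂ)) := by
  have e : (fun p : ℝ × ℝ => (p.1 + p.2 * I : ℂ)) = measurableEquivRealProd.symm := by
    funext p
    apply Complex.ext <;> simp
  rw [e]
  exact measurableEquivRealProd.symm.measurableEmbedding

lemma trunc {ε : ℝ} (hε : 0 < ε) (z : ℂ) :
    IntegrableOn (fun ζ => F ζ / (z - ζ) ^ 2) {ζ | ε < ‖z - ζ‖} ∧
    -(1 / Real.pi : ℂ) * ∫ ζ in {ζ | ε < ‖z - ζ‖}, F ζ / (z - ζ) ^ 2 =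
      ((2 / Real.pi * ∫ t : ℝ, (1 + (z.re - ε * t) ^ 2)⁻¹ * √(1 - t ^ 2) : ℝ) : ℂ) := by
  have hm : MeasurableSet {ζ : ℂ | ε < ‖z - ζ‖} := measurableSet_lt measurable_const (by fun_prop)
  have hi := trunc_int hε z
  have hi2 : Integrable (fun η => F (z - η) * indicator {η : ℂ | ε < ‖η‖} (fun η => (η ^ 2)⁻¹) η) :=
    (mp.integrable_comp_emb me).1 hi
  constructor
  · rw [← integrable_indicator_iff hm]
    exact (hi2.comp_sub_left z).congr (Eventually.of_forall fun ζ => (trunc_eq z ζ).symm)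
  rw [← integral_indicator hm]
  simp_rw [trunc_eq]
  rw [integral_sub_left_eq_self
    (fun η => F (z - η) * indicator {η : ℂ | ε < ‖η‖} (fun η => (η ^ 2)⁻¹) η) volume z,
    ← mp.integral_comp me, integral_prod _ hi]
  have e : ∀ u : ℝ, ∫ s : ℝ, F (z - (u + s * I)) *
      indicator {η : ℂ | ε < ‖η‖} (fun η => (η ^ 2)⁻¹) (u + s * I) =
      (((1 + (z.re - u) ^ 2)⁻¹ * (-2 * √(ε ^ 2 - u ^ 2) / ε ^ 2) : ℝ) : ℂ) := by
    intro u
    have : ∀ s : ℝ, F (z - (u + s * I)) = (((1 + (z.re - u) ^ 2)⁻¹ : ℝ) : ℂ) := by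
      intro s; simp [F]
    simp_rw [this]
    rw [integral_const_mul, line hε u, ← ofReal_mul]
  simp_rw [e]
  rw [integral_complex_ofReal]
  have h3 := Measure.integral_comp_mul_left
    (fun u : ℝ => (1 + (z.re - u) ^ 2)⁻¹ * (-2 * √(ε ^ 2 - u ^ 2) / ε ^ 2)) ε
  have e2 : ∀ t : ℝ, (1 + (z.re - ε * t) ^ 2)⁻¹ * (-2 * √(ε ^ 2 - (ε * t) ^ 2) / ε ^ 2) =
      (-2 / ε) * ((1 + (z.re - ε * t) ^ 2)⁻¹ * √(1 - t ^ 2)) := by
    intro t
    rw [show ε ^ 2 - (ε * t) ^ 2 = ε ^ 2 * (1 - t ^ 2) by ring, Real.sqrt_mul (sq_nonneg _),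
      Real.sqrt_sq hε.le]
    field_simp
  simp_rw [e2] at h3
  rw [integral_const_mul, abs_of_pos (inv_pos.2 hε), smul_eq_mul] at h3
  have h4 : ∫ u : ℝ, (1 + (z.re - u) ^ 2)⁻¹ * (-2 * √(ε ^ 2 - u ^ 2) / ε ^ 2) =
      -2 * ∫ t : ℝ, (1 + (z.re - ε * t) ^ 2)⁻¹ * √(1 - t ^ 2) := by
    field_simp at h3 ⊢
    linarith
  rw [h4]
  push_cast
  ring

lemma pv (z : ℂ) : Tendsto (fun ε : ℝ => -(1 / Real.pi : ℂ) * ∫ ζ in {ζ | ε < ‖z - ζ‖}, F ζ / (z - ζ) ^ 2)
    (𝓝[>] 0) (𝓝 (F z)) := by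
  have hs : Function.support (fun t : ℝ => √(1 - t ^ 2)) ⊆ Ioc (-1) 1 := by
    intro t ht
    have : 0 < 1 - t ^ 2 := Real.sqrt_pos.1 (lt_of_le_of_ne (Real.sqrt_nonneg _) (Ne.symm ht))
    constructor <;> nlinarith
  have hI : ∫ t : ℝ, √(1 - t ^ 2) = Real.pi / 2 := by
    rw [← intervalIntegral.integral_eq_integral_of_support_subset hs, integral_sqrt_one_sub_sq]
  have hint : Integrable (fun t : ℝ => √(1 - t ^ 2)) := by
    rw [← integrableOn_iff_integrable_of_support_subset hs]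
    exact (Continuous.integrableOn_Icc (by fun_prop)).mono_set Ioc_subset_Icc_self
  have hc : Continuous fun ε : ℝ => ∫ t : ℝ, (1 + (z.re - ε * t) ^ 2)⁻¹ * √(1 - t ^ 2) := by
    refine continuous_of_dominated (bound := fun t => √(1 - t ^ 2)) (fun ε => ?_) (fun ε => ?_) hint ?_
    · exact Measurable.aestronglyMeasurable (by fun_prop)
    · refine Eventually.of_forall fun t => ?_
      rw [Real.norm_of_nonneg (by positivity)]
      exact mul_le_of_le_one_left (Real.sqrt_nonneg _)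
        (inv_le_one_of_one_le₀ (by nlinarith [sq_nonneg (z.re - ε * t)]))
    · refine Eventually.of_forall fun t => ?_
      exact (Continuous.inv₀ (by fun_prop) fun x => by positivity).mul continuous_const
  have h1 := ((Complex.continuous_ofReal.comp (continuous_const.mul hc : Continuous fun ε : ℝ =>
    2 / Real.pi * ∫ t : ℝ, (1 + (z.re - ε * t) ^ 2)⁻¹ * √(1 - t ^ 2))).tendsto 0).mono_left
    (nhdsWithin_le_nhds (s := Ioi 0))
  have e : F z = ((2 / Real.pi * ∫ t : ℝ, (1 + (z.re - 0 * t) ^ 2)⁻¹ * √(1 - t ^ 2) : ℝ) : ℂ) := by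
    simp only [zero_mul, sub_zero]
    rw [integral_const_mul, hI, F]
    congr 1
    field_simp
  rw [e]
  refine h1.congr' ?_
  filter_upwards [self_mem_nhdsWithin] with ε hε
  exact ((trunc hε z).2).symm

/-- the weight -/
noncomputable def W (z : ℂ) : ℝ := (1 + ‖z‖) ^ (-(3 / 2 : ℝ))

lemma W_pos (z : ℂ) : 0 < W z := Real.rpow_pos_of_pos (by positivity) _

lemma W_cont : Continuous W :=
  Continuous.rpow_const (by fun_prop) fun x => Or.inl (by positivity)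

lemma F_mem {p : ℝ} (hp : 1 ≤ p) : ∫⁻ z, ‖F z‖ₑ ^ p * ENNReal.ofReal (W z) < ⊤ := by
  have h1 : Integrable (fun s : ℝ => (1 + ‖s‖) ^ (-(3 / 2 : ℝ))) :=
    integrable_one_add_norm (by simp; norm_num)
  have h2 := integrable_inv_one_add_sq.mul_prod h1
  rw [← mp.lintegral_comp_emb me]
  refine lt_of_le_of_lt (lintegral_mono fun q => ?_) h2.2
  have h3 : (1 + q.1 ^ 2)⁻¹ ≤ 1 := inv_le_one_of_one_le₀ (by nlinarith [sq_nonneg q.1])
  have h4 : 0 < (1 + q.1 ^ 2)⁻¹ := by positivity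
  have e : ‖F (q.1 + q.2 * I)‖ₑ = ENNReal.ofReal (1 + q.1 ^ 2)⁻¹ := by
    rw [← ofReal_norm]
    simp only [F, norm_real, Real.norm_eq_abs]
    rw [abs_of_pos (by positivity)]
    simp
  rw [e, ENNReal.ofReal_rpow_of_pos h4, ← ENNReal.ofReal_mul (by positivity),
    Real.enorm_eq_ofReal (by positivity)]
  apply ENNReal.ofReal_le_ofReal
  refine mul_le_mul (Real.rpow_le_self_of_le_one h4.le h3 hp) ?_ (W_pos _).le h4.le
  apply Real.rpow_le_rpow_of_nonpos (by positivity) _ (by norm_num)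
  have := Complex.abs_im_le_norm (q.1 + q.2 * I)
  simp at this
  simpa using this

lemma F_ne : ¬ F =ᵐ[volume] 0 := by
  intro h
  have := congrFun ((Continuous.ae_eq_iff_eq volume F_cont continuous_const).1 h) 0
  simp only [F, zero_re] at this
  have h2 := congrArg Complex.re this
  simp at h2

lemma ball_int : ∃ K : ℝ, 0 ≤ K ∧ ∀ ρ : ℝ, 0 < ρ →
    ∫⁻ z in Metric.ball (0 : ℂ) ρ, ENNReal.ofReal (W z) ≤ ENNReal.ofReal (K * ρ ^ (1 / 2 : ℝ)) := by
  refine ⟨∫ z in Metric.ball (0 : ℂ) 1, ‖z‖ ^ (-(3 / 2 : ℝ)), integral_nonneg fun z => by positivity,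
    fun ρ hρ => ?_⟩
  have hi : IntegrableOn (fun z : ℂ => ‖z‖ ^ (-(3 / 2 : ℝ))) (Metric.ball 0 ρ) := by
    refine integrableOn_ball_of_norm_le_rpow (C := 1) (α := 3 / 2) (by simp) (by simp; norm_num)
      (Eventually.of_forall fun z => ?_) (Measurable.aestronglyMeasurable (by fun_prop))
    rw [Real.norm_of_nonneg (by positivity), one_mul]
  have h1 := Measure.setIntegral_comp_smul_of_pos volume (fun z : ℂ => ‖z‖ ^ (-(3 / 2 : ℝ)))
    (Metric.ball 0 1) hρ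
  have e : ∀ z : ℂ, ‖ρ • z‖ ^ (-(3 / 2 : ℝ)) = ρ ^ (-(3 / 2 : ℝ)) * ‖z‖ ^ (-(3 / 2 : ℝ)) := by
    intro z
    rw [norm_smul, Real.norm_of_nonneg hρ.le, Real.mul_rpow hρ.le (norm_nonneg _)]
  simp_rw [e] at h1
  rw [integral_const_mul, smul_unitBall_of_pos hρ, Complex.finrank_real_complex, smul_eq_mul] at h1
  have h2 : ∫ z in Metric.ball (0 : ℂ) ρ, ‖z‖ ^ (-(3 / 2 : ℝ)) =
      (∫ z in Metric.ball (0 : ℂ) 1, ‖z‖ ^ (-(3 / 2 : ℝ))) * ρ ^ (1 / 2 : ℝ) := by
    have e2 : ρ ^ (1 / 2 : ℝ) = ρ ^ 2 * ρ ^ (-(3 / 2 : ℝ)) := by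
      rw [← Real.rpow_natCast, ← Real.rpow_add hρ]; norm_num
    rw [e2, mul_comm, mul_assoc, h1]
    field_simp
  rw [← h2, ofReal_integral_eq_lintegral_ofReal hi (Eventually.of_forall fun z => by positivity)]
  refine lintegral_mono_ae (ae_restrict_of_ae ?_)
  have : ∀ᵐ z : ℂ, z ≠ 0 := by simp [ae_iff]
  filter_upwards [this] with z hz
  exact ENNReal.ofReal_le_ofReal
    (Real.rpow_le_rpow_of_nonpos (norm_pos_iff.2 hz) (by linarith) (by norm_num))

lemma avg_le {Q : Set ℂ} (hQ : MeasurableSet Q) (h0 : volume Q ≠ 0) (h1 : volume Q ≠ ⊤)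
    {f : ℂ → ENNReal} {c : ENNReal} (h : ∀ z ∈ Q, f z ≤ c) : ⨍⁻ z in Q, f z ∂volume ≤ c := by
  rw [← setLAverage_const h0 h1 c]
  apply laverage_mono_ae
  filter_upwards [ae_restrict_mem hQ] with z hz using h z hz

lemma Ap {p : ℝ} (hp : 1 < p) : ∃ C : ℝ, ∀ (Q : Set ℂ) (c : ℂ) (r : ℝ), 0 < r → MeasurableSet Q →
    Metric.ball c r ⊆ Q → Q ⊆ Metric.ball c (2 * r) →
    (⨍⁻ z in Q, ENNReal.ofReal (W z) ∂volume) *
      (⨍⁻ z in Q, ENNReal.ofReal (W z ^ (-1 / (p - 1))) ∂volume) ^ (p - 1) ≤ ENNReal.ofReal C := by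
  obtain ⟨K, hK0, hK⟩ := ball_int
  refine ⟨max (3 ^ (3 / 2 : ℝ)) (36 * K), fun Q c r hr hQ h1 h2 => ?_⟩
  have hv : ENNReal.ofReal (r ^ 2) ≤ volume Q := by
    refine le_trans ?_ (measure_mono h1)
    rw [Complex.volume_ball, ENNReal.ofReal_pow hr.le]
    apply le_mul_of_one_le_right' 
    have : (1 : NNReal) ≤ NNReal.pi := by
      rw [← NNReal.coe_le_coe]; simp; linarith [Real.pi_gt_three]
    exact_mod_cast this
  have h0 : volume Q ≠ 0 := (lt_of_lt_of_le (ENNReal.ofReal_pos.2 (by positivity)) hv).ne'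
  have ht : volume Q ≠ ⊤ := ((measure_mono h2).trans_lt measure_ball_lt_top).ne
  set R := 1 + ‖c‖ + 2 * r with hR
  have hR0 : 0 < R := by positivity
  have hp1 : 0 < p - 1 := by linarith
  have hA : (⨍⁻ z in Q, ENNReal.ofReal (W z ^ (-1 / (p - 1))) ∂volume) ^ (p - 1) ≤
      ENNReal.ofReal (R ^ (3 / 2 : ℝ)) := by
    have : ⨍⁻ z in Q, ENNReal.ofReal (W z ^ (-1 / (p - 1))) ∂volume ≤
        ENNReal.ofReal (R ^ (3 / 2 / (p - 1))) := by
      refine avg_le hQ h0 ht fun z hz => ENNReal.ofReal_le_ofReal ?_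
      rw [W, ← Real.rpow_mul (by positivity), show -(3 / 2 : ℝ) * (-1 / (p - 1)) = 3 / 2 / (p - 1) by ring]
      apply Real.rpow_le_rpow (by positivity) _ (by positivity)
      have := mem_ball_iff_norm.1 (h2 hz)
      linarith [norm_sub_norm_le z c]
    refine (ENNReal.rpow_le_rpow this hp1.le).trans_eq ?_
    rw [ENNReal.ofReal_rpow_of_pos (by positivity), ← Real.rpow_mul hR0.le, div_mul_cancel₀ _ hp1.ne']
  have hB : ⨍⁻ z in Q, ENNReal.ofReal (W z) ∂volume ≤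
      ENNReal.ofReal (max (3 ^ (3 / 2 : ℝ)) (36 * K) * R ^ (-(3 / 2 : ℝ))) := by
    rcases le_total (4 * r) (1 + ‖c‖) with h | h
    · refine avg_le hQ h0 ht fun z hz => ENNReal.ofReal_le_ofReal ?_
      have := mem_ball_iff_norm.1 (h2 hz)
      have h3 : R / 3 ≤ 1 + ‖z‖ := by
        have := norm_sub_norm_le c z
        rw [norm_sub_rev] at this
        linarith
      calc W z ≤ (R / 3) ^ (-(3 / 2 : ℝ)) :=
            Real.rpow_le_rpow_of_nonpos (by positivity) h3 (by norm_num)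
        _ = 3 ^ (3 / 2 : ℝ) * R ^ (-(3 / 2 : ℝ)) := by
            rw [Real.div_rpow hR0.le (by norm_num), Real.rpow_neg (by norm_num : (0 : ℝ) ≤ 3)]
            field_simp
        _ ≤ _ := by gcongr; exact le_max_left _ _
    · have h3 : Q ⊆ Metric.ball 0 (6 * r) := by
        intro z hz
        have := mem_ball_iff_norm.1 (h2 hz)
        rw [mem_ball_zero_iff]
        linarith [norm_sub_norm_le z c]
      rw [setLAverage_eq]
      calc (∫⁻ z in Q, ENNReal.ofReal (W z)) / volume Q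
          ≤ ENNReal.ofReal (K * (6 * r) ^ (1 / 2 : ℝ)) / ENNReal.ofReal (r ^ 2) :=
            ENNReal.div_le_div ((lintegral_mono_set h3).trans (hK _ (by positivity))) hv
        _ = ENNReal.ofReal (36 * K * (6 * r) ^ (-(3 / 2 : ℝ))) := by
            rw [← ENNReal.ofReal_div_of_pos (by positivity)]
            congr 1
            have e2 : (6 * r) ^ (1 / 2 : ℝ) = (6 * r) ^ 2 * (6 * r) ^ (-(3 / 2 : ℝ)) := by
              rw [← Real.rpow_natCast, ← Real.rpow_add (by positivity)]; norm_num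
            rw [e2]
            field_simp
            norm_num
        _ ≤ _ := by
            apply ENNReal.ofReal_le_ofReal
            refine mul_le_mul (le_max_right _ _) ?_ (by positivity) (by positivity)
            exact Real.rpow_le_rpow_of_nonpos hR0 (by linarith) (by norm_num)
  refine (mul_le_mul' hB hA).trans_eq ?_
  rw [← ENNReal.ofReal_mul (by positivity), mul_assoc, ← Real.rpow_add hR0]
  norm_num

end Pool.Agent.H92.Beurling
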