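import Mathlib

set_option autoImplicit false
open scoped InnerProductSpace ComplexConjugate
open Finset

namespace Pool.Agent.H92.Bl

section Char
variable {F : Type} [Field F] [Fintype F] [DecidableEq F]
variable {E : Type*} [NormedAddCommGroup E] [InnerProductSpace ℂ E]

lemma nsq (w : E) : ((‖w‖ ^ 2 : ℝ) : ℂ) = ⟪w, w⟫_ℂ := by
  rw [inner_self_eq_norm_sq_to_K]; push_cast; rfl

lemma parseval (ψ : AddChar F ℂ) (hψ : ψ.IsPrimitive) {t : F} (ht : t ≠ 0) (v : F → E) :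
    ∑ j, ‖∑ i, ψ (t * i * j) • v i‖ ^ 2 = Fintype.card F * ∑ i, ‖v i‖ ^ 2 := by
  apply Complex.ofReal_injective
  rw [Complex.ofReal_sum, Complex.ofReal_mul, Complex.ofReal_sum]
  simp only [nsq, sum_inner, inner_sum, inner_smul_left, inner_smul_right]
  have h1 : ∀ i i' : F, ∑ j : F, ψ (t * i' * j) * (conj (ψ (t * i * j)) * ⟪v i, v i'⟫_ℂ)
      = (if i' = i then (Fintype.card F : ℂ) else 0) * ⟪v i, v i'⟫_ℂ := by
    intro i i'
    have h2 := AddChar.sum_mulShift (t * (i' - i)) hψ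
    have h3 : ∀ j : F, ψ (t * i' * j) * (conj (ψ (t * i * j)) * ⟪v i, v i'⟫_ℂ)
        = ψ (j * (t * (i' - i))) * ⟪v i, v i'⟫_ℂ := by
      intro j
      rw [← AddChar.map_neg_eq_conj, ← mul_assoc, ← AddChar.map_add_eq_mul]
      congr 2; ring
    simp only [h3, ← Finset.sum_mul]
    rw [h2]
    by_cases h : i' = i
    · simp [h]
    · have : t * (i' - i) ≠ 0 := mul_ne_zero ht (sub_ne_zero.mpr h)
      simp [h, this]
  rw [Finset.sum_comm]
  simp only [Finset.mul_sum]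
  refine Finset.sum_congr rfl fun i' _ => ?_
  rw [Finset.sum_comm]
  simp only [h1]
  simp

lemma bilin (ψ : AddChar F ℂ) (hψ : ψ.IsPrimitive) {t : F} (ht : t ≠ 0) (u v : F → E)
    {a b : ℝ} (ha : 0 ≤ a) (hb : 0 ≤ b) (hu : ∀ j, ‖u j‖ ≤ a) (hv : ∀ i, ‖v i‖ ≤ b) :
    ‖∑ i, ∑ j, ψ (t * i * j) * ⟪u j, v i⟫_ℂ‖
      ≤ Fintype.card F * √(Fintype.card F) * (a * b) := by
  set q : ℝ := (Fintype.card F : ℝ) with hq
  have hq0 : 0 ≤ q := by positivity
  have h1 : ∑ i, ∑ j, ψ (t * i * j) * ⟪u j, v i⟫_ℂ = ∑ j, ⟪u j, ∑ i, ψ (t * i * j) • v i⟫_ℂ := by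
    rw [Finset.sum_comm]
    simp only [inner_sum, inner_smul_right]
  rw [h1]
  set W : F → E := fun j => ∑ i, ψ (t * i * j) • v i with hW
  have h2 : ‖∑ j, ⟪u j, W j⟫_ℂ‖ ≤ ∑ j, a * ‖W j‖ := by
    refine (norm_sum_le _ _).trans (Finset.sum_le_sum fun j _ => ?_)
    exact (norm_inner_le_norm _ _).trans (mul_le_mul_of_nonneg_right (hu j) (norm_nonneg _))
  have h3 : ∑ j, ‖W j‖ ^ 2 ≤ q * (q * b ^ 2) := by
    rw [hW]
    simp only []
    rw [parseval ψ hψ ht v]
    refine mul_le_mul_of_nonneg_left ?_ hq0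
    calc ∑ i, ‖v i‖ ^ 2 ≤ ∑ _i : F, b ^ 2 :=
          Finset.sum_le_sum fun i _ => pow_le_pow_left₀ (norm_nonneg _) (hv i) 2
      _ = q * b ^ 2 := by simp [hq]
  have h4 : (∑ j, ‖W j‖) ^ 2 ≤ q * ∑ j, ‖W j‖ ^ 2 := by
    have := sq_sum_le_card_mul_sum_sq (s := (univ : Finset F)) (f := fun j => ‖W j‖)
    simpa [hq] using this
  have h5 : ∑ j, ‖W j‖ ≤ q * √q * b := by
    refine (pow_le_pow_iff_left₀ (by positivity) (by positivity) two_ne_zero).mp ?_
    · calc (∑ j, ‖W j‖) ^ 2 ≤ q * (q * (q * b ^ 2)) :=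
            h4.trans (mul_le_mul_of_nonneg_left h3 hq0)
        _ = (q * √q * b) ^ 2 := by
            rw [mul_pow, mul_pow, Real.sq_sqrt hq0]; ring
  calc _ ≤ ∑ j, a * ‖W j‖ := h2
    _ = a * ∑ j, ‖W j‖ := by rw [Finset.mul_sum]
    _ ≤ a * (q * √q * b) := mul_le_mul_of_nonneg_left h5 ha
    _ = _ := by ring

variable [CompleteSpace E]

/-- The key jointly completely bounded estimate. -/
lemma key (ψ : AddChar F ℂ) (hψ : ψ.IsPrimitive) (h2 : (2 : F) ≠ 0)
    (X Y : F → E →L[ℂ] E) {α β : ℝ} (hX : ∀ i, ‖X i‖ ≤ α) (hY : ∀ j, ‖Y j‖ ≤ β)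
    (hc : ∀ i j, X i * Y j = Y j * X i) (hc' : ∀ i j, star (X i) * Y j = Y j * star (X i))
    (v : E) :
    ∑ s, ‖∑ i, ψ (i ^ 2 * (s - i)) • X i (Y (s - i) v)‖ ^ 2
      ≤ 2 * (Fintype.card F) ^ 2 * √(Fintype.card F) * (α * β) ^ 2 * ‖v‖ ^ 2 := by
  set q : ℝ := (Fintype.card F : ℝ) with hq
  have hq1 : 1 ≤ q := by rw [hq]; exact_mod_cast Fintype.card_pos
  have hα : 0 ≤ α := (norm_nonneg _).trans (hX 0)
  have hβ : 0 ≤ β := (norm_nonneg _).trans (hY 0)
  set K : ℝ := (β ^ 2 * ‖v‖) * (α ^ 2 * ‖v‖) with hK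
  have hK0 : 0 ≤ K := by positivity
  set u : F → F → E := fun d j => ψ (-(d ^ 2 * j)) • (star (Y j)) (Y (j + d) v) with hu
  set w : F → F → E := fun d i => ψ (-(d * i ^ 2)) • (star (X i)) (X (i + d) v) with hw
  have hun : ∀ d j, ‖u d j‖ ≤ β ^ 2 * ‖v‖ := by
    intro d j
    simp only [hu, norm_smul, AddChar.norm_apply, one_mul]
    calc _ ≤ ‖star (Y j)‖ * ‖Y (j + d) v‖ := ContinuousLinearMap.le_opNorm _ _
      _ ≤ β * (β * ‖v‖) := by
          rw [norm_star]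
          exact mul_le_mul (hY j) ((ContinuousLinearMap.le_opNorm _ _).trans
            (mul_le_mul_of_nonneg_right (hY _) (norm_nonneg _))) (norm_nonneg _) hβ
      _ = _ := by ring
  have hwn : ∀ d i, ‖w d i‖ ≤ α ^ 2 * ‖v‖ := by
    intro d j
    simp only [hw, norm_smul, AddChar.norm_apply, one_mul]
    calc _ ≤ ‖star (X j)‖ * ‖X (j + d) v‖ := ContinuousLinearMap.le_opNorm _ _
      _ ≤ α * (α * ‖v‖) := by
          rw [norm_star]
          exact mul_le_mul (hX j) ((ContinuousLinearMap.le_opNorm _ _).trans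
            (mul_le_mul_of_nonneg_right (hX _) (norm_nonneg _))) (norm_nonneg _) hα
      _ = _ := by ring
  set G : F → ℂ := fun d => ∑ i, ∑ j, ψ ((2 * d) * i * j) * ⟪u d j, w d i⟫_ℂ with hG
  have hGb : ∀ d, ‖G d‖ ≤ q * √q * K + (if d = 0 then q ^ 2 * K else 0) := by
    intro d
    by_cases hd : d = 0
    · rw [if_pos hd]
      have : ‖G d‖ ≤ q ^ 2 * K := by
        calc ‖G d‖ ≤ ∑ i, ∑ j, ‖ψ ((2 * d) * i * j) * ⟪u d j, w d i⟫_ℂ‖ :=
              (norm_sum_le _ _).trans (Finset.sum_le_sum fun i _ => norm_sum_le _ _)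
          _ ≤ ∑ _i : F, ∑ _j : F, K := by
              refine Finset.sum_le_sum fun i _ => Finset.sum_le_sum fun j _ => ?_
              rw [norm_mul, AddChar.norm_apply, one_mul]
              exact (norm_inner_le_norm _ _).trans
                (mul_le_mul (hun d j) (hwn d i) (norm_nonneg _) (by positivity))
          _ = q ^ 2 * K := by simp [hq]; ring
      have h0 : 0 ≤ q * √q * K := by positivity
      linarith
    · rw [if_neg hd, add_zero]
      exact bilin ψ hψ (mul_ne_zero h2 hd) (u d) (w d) (by positivity) (by positivity)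
        (hun d) (hwn d)
  have hterm : ∀ d i j : F, ψ ((i + d) ^ 2 * j) * (conj (ψ (i ^ 2 * (j + d))) *
      ⟪X i (Y (j + d) v), X (i + d) (Y j v)⟫_ℂ) = ψ ((2 * d) * i * j) * ⟪u d j, w d i⟫_ℂ := by
    intro d i j
    have e1 : ⟪X i (Y (j + d) v), X (i + d) (Y j v)⟫_ℂ
        = ⟪(star (Y j)) (Y (j + d) v), (star (X i)) (X (i + d) v)⟫_ℂ := by
      rw [ContinuousLinearMap.star_eq_adjoint (Y j), ContinuousLinearMap.adjoint_inner_left,
        ← ContinuousLinearMap.adjoint_inner_right, ← ContinuousLinearMap.star_eq_adjoint]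
      congr 1
      have a1 := congrArg (fun T : E →L[ℂ] E => T v) (hc (i + d) j)
      have a2 := congrArg (fun T : E →L[ℂ] E => T (X (i + d) v)) (hc' i j)
      simp only [mul_apply_eq_comp] at a1 a2
      rw [a1, a2]
    rw [e1]
    simp only [hu, hw, inner_smul_left, inner_smul_right, ← AddChar.map_neg_eq_conj,
      ← mul_assoc, ← AddChar.map_add_eq_mul]
    congr 2; ring
  have hmain : ((∑ s, ‖∑ i, ψ (i ^ 2 * (s - i)) • X i (Y (s - i) v)‖ ^ 2 : ℝ) : ℂ)
      = ∑ d, G d := by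
    rw [Complex.ofReal_sum]
    simp only [nsq, sum_inner, inner_sum, inner_smul_left, inner_smul_right, hG, ← hterm]
    simp only [Finset.mul_sum]
    have e1 : ∀ f : F → F → F → ℂ, ∑ s, ∑ i', ∑ i, f s i' i
        = ∑ d, ∑ i, ∑ j, f (i + d + j) (i + d) i := by
      intro f
      calc ∑ s, ∑ i', ∑ i, f s i' i = ∑ i', ∑ s, ∑ i, f s i' i := Finset.sum_comm
        _ = ∑ i', ∑ i, ∑ s, f s i' i := Finset.sum_congr rfl fun _ _ => Finset.sum_comm
        _ = ∑ i, ∑ i', ∑ s, f s i' i := Finset.sum_comm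
        _ = ∑ i, ∑ d, ∑ j, f (i + d + j) (i + d) i := by
            refine Finset.sum_congr rfl fun i _ => ?_
            rw [← Equiv.sum_comp (Equiv.addLeft i)]
            refine Finset.sum_congr rfl fun d _ => ?_
            rw [← Equiv.sum_comp (Equiv.addLeft (i + d))]
            rfl
        _ = _ := Finset.sum_comm
    rw [e1]
    refine Finset.sum_congr rfl fun d _ => Finset.sum_congr rfl fun i _ =>
      Finset.sum_congr rfl fun j _ => ?_
    have a1 : i + d + j - (i + d) = j := by ring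
    have a2 : i + d + j - i = j + d := by ring
    rw [a1, a2]
  have hle : ∑ s, ‖∑ i, ψ (i ^ 2 * (s - i)) • X i (Y (s - i) v)‖ ^ 2 ≤ ∑ d, ‖G d‖ := by
    have := norm_sum_le (univ : Finset F) G
    rw [← hmain, Complex.norm_real, Real.norm_eq_abs] at this
    exact (le_abs_self _).trans this
  have hs1 : 1 ≤ √q := Real.one_le_sqrt.mpr hq1
  calc _ ≤ ∑ d, ‖G d‖ := hle
    _ ≤ ∑ d : F, (q * √q * K + (if d = 0 then q ^ 2 * K else 0)) :=
        Finset.sum_le_sum fun d _ => hGb d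
    _ = q * (q * √q * K) + q ^ 2 * K := by
        rw [Finset.sum_add_distrib]; simp [hq]
    _ ≤ q * (q * √q * K) + q ^ 2 * K * √q := by
        have : 0 ≤ q ^ 2 * K := by positivity
        nlinarith
    _ = _ := by rw [hK]; ring

end Char

end Pool.Agent.H92.Bl
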