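import Pool.Agent.H92.Bl1

set_option autoImplicit false
open scoped InnerProductSpace ComplexConjugate CStarMatrix Kronecker Matrix
open Finset

namespace Pool.Agent.H92.Bl

section Rep
variable {A : Type} [NonUnitalCStarAlgebra A] [PartialOrder A] [StarOrderedRing A]
variable {n m : Type} [Fintype n] [DecidableEq n] [Fintype m] [DecidableEq m]

/-- The scalar matrix obtained by applying a character. -/
def sc (ρ : A →⋆ₙₐ[ℂ] ℂ) (a : CStarMatrix n n A) : Matrix n n ℂ := fun i j => ρ (a i j)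

lemma sc_mul (ρ : A →⋆ₙₐ[ℂ] ℂ) (a b : CStarMatrix n n A) : sc ρ (a * b) = sc ρ a * sc ρ b := by
  ext i j
  simp [sc, CStarMatrix.mul_apply, Matrix.mul_apply]

lemma sc_star (ρ : A →⋆ₙₐ[ℂ] ℂ) (a : CStarMatrix n n A) : sc ρ (star a) = (sc ρ a)ᴴ := by
  ext i j
  simp [sc, CStarMatrix.star_apply, map_star]

lemma sc_add (ρ : A →⋆ₙₐ[ℂ] ℂ) (a b : CStarMatrix n n A) : sc ρ (a + b) = sc ρ a + sc ρ b := by
  ext i j
  simp [sc]

lemma sc_smul (ρ : A →⋆ₙₐ[ℂ] ℂ) (c : ℂ) (a : CStarMatrix n n A) :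
    sc ρ (c • a) = c • sc ρ a := by
  ext i j
  simp [sc]

lemma sc_zero (ρ : A →⋆ₙₐ[ℂ] ℂ) : sc ρ (0 : CStarMatrix n n A) = 0 := by
  ext i j
  simp [sc]

/-- `a ↦ a(ρ) ⊗ 1`. -/
noncomputable def repL (m : Type) [Fintype m] [DecidableEq m] (ρ : A →⋆ₙₐ[ℂ] ℂ) :
    CStarMatrix n n A →⋆ₙₐ[ℂ]
      (EuclideanSpace ℂ (n × m) →L[ℂ] EuclideanSpace ℂ (n × m)) where
  toFun a := Matrix.toEuclideanCLM (n := n × m) (𝕜 := ℂ) (sc ρ a ⊗ₖ (1 : Matrix m m ℂ))
  map_smul' c a := by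
    rw [sc_smul, Matrix.smul_kronecker, map_smul]; rfl
  map_zero' := by rw [sc_zero, Matrix.zero_kronecker, map_zero]
  map_add' a b := by rw [sc_add, Matrix.add_kronecker, map_add]
  map_mul' a b := by
    rw [sc_mul, ← map_mul, ← Matrix.mul_kronecker_mul, Matrix.mul_one]
  map_star' a := by
    rw [sc_star, ← map_star, Matrix.star_eq_conjTranspose, Matrix.conjTranspose_kronecker,
      Matrix.conjTranspose_one]

/-- `b ↦ 1 ⊗ b(ρ)`. -/
noncomputable def repR (n : Type) [Fintype n] [DecidableEq n] (ρ : A →⋆ₙₐ[ℂ] ℂ) :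
    CStarMatrix m m A →⋆ₙₐ[ℂ]
      (EuclideanSpace ℂ (n × m) →L[ℂ] EuclideanSpace ℂ (n × m)) where
  toFun a := Matrix.toEuclideanCLM (n := n × m) (𝕜 := ℂ) ((1 : Matrix n n ℂ) ⊗ₖ sc ρ a)
  map_smul' c a := by
    rw [sc_smul, Matrix.kronecker_smul, map_smul]; rfl
  map_zero' := by rw [sc_zero, Matrix.kronecker_zero, map_zero]
  map_add' a b := by rw [sc_add, Matrix.kronecker_add, map_add]
  map_mul' a b := by
    rw [sc_mul, ← map_mul, ← Matrix.mul_kronecker_mul, Matrix.mul_one]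
  map_star' a := by
    rw [sc_star, ← map_star, Matrix.star_eq_conjTranspose, Matrix.conjTranspose_kronecker,
      Matrix.conjTranspose_one]

lemma repL_mul_repR (ρ σ : A →⋆ₙₐ[ℂ] ℂ) (a : CStarMatrix n n A) (b : CStarMatrix m m A) :
    repL m ρ a * repR n σ b
      = Matrix.toEuclideanCLM (n := n × m) (𝕜 := ℂ) (sc ρ a ⊗ₖ sc σ b) := by
  change Matrix.toEuclideanCLM (n := n × m) (𝕜 := ℂ) _ *
    Matrix.toEuclideanCLM (n := n × m) (𝕜 := ℂ) _ = _
  rw [← map_mul, ← Matrix.mul_kronecker_mul, Matrix.mul_one, Matrix.one_mul]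

lemma repR_mul_repL (ρ σ : A →⋆ₙₐ[ℂ] ℂ) (a : CStarMatrix n n A) (b : CStarMatrix m m A) :
    repR n σ b * repL m ρ a
      = Matrix.toEuclideanCLM (n := n × m) (𝕜 := ℂ) (sc ρ a ⊗ₖ sc σ b) := by
  change Matrix.toEuclideanCLM (n := n × m) (𝕜 := ℂ) _ *
    Matrix.toEuclideanCLM (n := n × m) (𝕜 := ℂ) _ = _
  rw [← map_mul, ← Matrix.mul_kronecker_mul, Matrix.mul_one, Matrix.one_mul]

variable {F : Type} [Field F] [Fintype F] [DecidableEq F]

/-- Matrix form of the key estimate. -/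
lemma keyM (ψ : AddChar F ℂ) (hψ : ψ.IsPrimitive) (h2 : (2 : F) ≠ 0)
    (ρ : F → (A →⋆ₙₐ[ℂ] ℂ)) (a : CStarMatrix n n A) (b : CStarMatrix m m A) (β : n × m → ℂ) :
    ∑ p : n × m, ∑ s : F, ‖∑ q : n × m, β q *
        ∑ i, ψ (i ^ 2 * (s - i)) * (ρ i (a p.1 q.1) * ρ (s - i) (b p.2 q.2))‖ ^ 2
      ≤ 2 * (Fintype.card F) ^ 2 * √(Fintype.card F) * (‖a‖ * ‖b‖) ^ 2 * ∑ q, ‖β q‖ ^ 2 := by
  have h := key ψ hψ h2 (fun i => repL m (ρ i) a) (fun j => repR n (ρ j) b)
    (α := ‖a‖) (β := ‖b‖) (fun i => NonUnitalStarAlgHom.norm_apply_le _ a)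
    (fun j => NonUnitalStarAlgHom.norm_apply_le _ b)
    (fun i j => by rw [repL_mul_repR, repR_mul_repL])
    (fun i j => by rw [← map_star, repL_mul_repR, repR_mul_repL])
    (WithLp.toLp 2 β)
  rw [EuclideanSpace.norm_sq_eq (WithLp.toLp 2 β)] at h
  rw [Finset.sum_comm]
  refine le_of_eq_of_le ?_ h
  refine Finset.sum_congr rfl fun s _ => ?_
  rw [EuclideanSpace.norm_sq_eq]
  refine Finset.sum_congr rfl fun p _ => ?_
  congr 2
  have e : ∀ i, repL m (ρ i) a (repR n (ρ (s - i)) b (WithLp.toLp 2 β))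
      = WithLp.toLp 2 ((sc (ρ i) a ⊗ₖ sc (ρ (s - i)) b) *ᵥ β) := by
    intro i
    rw [← mul_apply_eq_comp, repL_mul_repR, Matrix.toEuclideanCLM_toLp]
  simp only [e, WithLp.ofLp_sum, Finset.sum_apply, WithLp.ofLp_smul, Pi.smul_apply, smul_eq_mul,
    Matrix.mulVec, dotProduct, Matrix.kroneckerMap_apply, sc, Finset.mul_sum]
  rw [Finset.sum_comm]
  refine Finset.sum_congr rfl fun _ _ => Finset.sum_congr rfl fun _ _ => ?_
  ring

lemma norm_le_one_of_idem {M : Type*} [NonUnitalCStarAlgebra M] (a : M)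
    (h : (star a * a) * (star a * a) = star a * a) : ‖a‖ ≤ 1 := by
  have h1 : ‖star a * a‖ = ‖a‖ * ‖a‖ := CStarRing.norm_star_mul_self
  have h2 : ‖star (star a * a) * (star a * a)‖ = ‖star a * a‖ * ‖star a * a‖ :=
    CStarRing.norm_star_mul_self
  rw [star_mul, star_star, h] at h2
  have h0 := norm_nonneg a
  by_contra hc
  push Not at hc
  have : 1 < ‖star a * a‖ := by rw [h1]; nlinarith
  nlinarith

variable {H : Type} [NormedAddCommGroup H] [InnerProductSpace ℂ H]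

/-- Testing a multiplicatively bounded map. -/
lemma lower {κ : Type} [AddCommGroup κ] [Fintype κ] [DecidableEq κ]
    (φ : A →ₗ[ℂ] A →ₗ[ℂ] (H →L[ℂ] H)) (C : ℝ)
    (hφ : ∀ (n : ℕ) (a : CStarMatrix (Fin n) (Fin n) A)
            (b : CStarMatrix (Fin n) (Fin n) A) (x : Fin n → H),
            ∑ i : Fin n, ‖∑ j : Fin n, ∑ k : Fin n, φ (a i k) (b k j) (x j)‖ ^ 2
              ≤ (C * ‖a‖ * ‖b‖) ^ 2 * ∑ j : Fin n, ‖x j‖ ^ 2)
    (δ : κ → A) (hs : ∀ i, star (δ i) = δ i) (hm : ∀ i j, δ i * δ j = if i = j then δ i else 0)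
    (c : κ → κ → ℂ) (hc : ∀ i j, conj (c i j) * c i j = 1)
    (x : H) (hx : ‖x‖ ≤ 1) (f : κ → H) (hf : ∀ s, ‖f s‖ ≤ 1) :
    ‖∑ i, ∑ j, c i j * ⟪f (i + j), φ (δ i) (δ j) x⟫_ℂ‖ ≤ |C| * √(Fintype.card κ) := by
  set e : Fin (Fintype.card κ) ≃ κ := (Fintype.equivFin κ).symm with he
  set P : A := ∑ s, δ s with hP
  have hPP : P * P = P := by
    simp only [hP, Finset.sum_mul, Finset.mul_sum, hm]
    simp
  set a : CStarMatrix (Fin (Fintype.card κ)) (Fin (Fintype.card κ)) A :=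
    fun s k => c (e s - e k) (e k) • δ (e s - e k) with ha
  set b : CStarMatrix (Fin (Fintype.card κ)) (Fin (Fintype.card κ)) A :=
    fun k j => if e j = 0 then δ (e k) else 0 with hb
  have haa : ∀ k k', (star a * a) k k' = if k = k' then P else 0 := by
    intro k k'
    rw [CStarMatrix.mul_apply]
    simp only [CStarMatrix.star_apply, ha, star_smul, hs, smul_mul_smul_comm, hm]
    by_cases h : k = k'
    · subst h
      simp only [if_true, RCLike.star_def, hc, one_smul]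
      rw [Equiv.sum_comp e (fun s => δ (s - e k))]
      exact Equiv.sum_comp (Equiv.subRight (e k)) δ
    · rw [if_neg h]
      refine Finset.sum_eq_zero fun s _ => ?_
      have : e s - e k ≠ e s - e k' := fun h' => h (e.injective (sub_right_injective h'))
      simp [this]
  have hbb : ∀ j j', (star b * b) j j' = if e j = 0 ∧ e j' = 0 then P else 0 := by
    intro j j'
    rw [CStarMatrix.mul_apply]
    simp only [CStarMatrix.star_apply, hb]
    by_cases h : e j = 0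
    · by_cases h' : e j' = 0
      · simp only [h, h', if_true, and_self, hs, hm]
        exact Equiv.sum_comp e δ
      · simp [h']
    · simp [h]
  have ha1 : ‖a‖ ≤ 1 := by
    apply norm_le_one_of_idem
    ext k k'
    rw [CStarMatrix.mul_apply]
    simp only [haa]
    by_cases h : k = k'
    · subst h; simp [hPP]
    · simp [h]
  have hb1 : ‖b‖ ≤ 1 := by
    apply norm_le_one_of_idem
    ext k k'
    rw [CStarMatrix.mul_apply]
    simp only [hbb]
    rw [Equiv.sum_comp e (fun s => (if e k = 0 ∧ s = 0 then P else 0) *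
      (if s = 0 ∧ e k' = 0 then P else 0))]
    rw [Finset.sum_eq_single 0]
    · by_cases h : e k = 0 <;> by_cases h' : e k' = 0 <;> simp [h, h', hPP]
    · intro s _ hs0; simp [hs0]
    · simp
  have h := hφ _ a b (fun j => if e j = 0 then x else 0)
  set z : κ → H := fun s => ∑ k, c (s - k) k • φ (δ (s - k)) (δ k) x with hz
  have e1 : ∀ s, ∑ j, ∑ k, φ (a s k) (b k j) (if e j = 0 then x else 0) = z (e s) := by
    intro s
    rw [Finset.sum_eq_single (e.symm 0)]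
    · simp only [ha, hb, hz, Equiv.apply_symm_apply, if_true, map_smul, LinearMap.smul_apply,
        _root_.smul_apply]
      exact Equiv.sum_comp e (fun k => c (e s - k) k • φ (δ (e s - k)) (δ k) x)
    · intro j _ hj
      have : e j ≠ 0 := fun h' => hj (by rw [← h', Equiv.symm_apply_apply])
      simp [this]
    · simp
  have e2 : ∑ j, ‖(if e j = 0 then x else 0)‖ ^ 2 = ‖x‖ ^ 2 := by
    rw [Finset.sum_eq_single (e.symm 0)]
    · simp
    · intro j _ hj
      have : e j ≠ 0 := fun h' => hj (by rw [← h', Equiv.symm_apply_apply])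
      simp [this]
    · simp
  simp only [e1, e2] at h
  rw [Equiv.sum_comp e (fun s => ‖z s‖ ^ 2)] at h
  have h' : ∑ s, ‖z s‖ ^ 2 ≤ C ^ 2 := by
    refine h.trans ?_
    have a1 : (‖a‖ * ‖b‖ * ‖x‖) ^ 2 ≤ 1 := by
      apply pow_le_one₀ (by positivity)
      exact mul_le_one₀ (mul_le_one₀ ha1 (norm_nonneg _) hb1) (norm_nonneg _) hx
    calc _ = C ^ 2 * (‖a‖ * ‖b‖ * ‖x‖) ^ 2 := by ring
      _ ≤ C ^ 2 * 1 := mul_le_mul_of_nonneg_left a1 (by positivity)
      _ = _ := mul_one _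
  have e3 : ∑ i, ∑ j, c i j * ⟪f (i + j), φ (δ i) (δ j) x⟫_ℂ = ∑ s, ⟪f s, z s⟫_ℂ := by
    simp only [hz, inner_sum, inner_smul_right]
    rw [Finset.sum_comm, Finset.sum_comm (f := fun s k => c (s - k) k * _)]
    refine Finset.sum_congr rfl fun k _ => ?_
    rw [← Equiv.sum_comp (Equiv.addRight k) (fun s => c (s - k) k * ⟪f s, φ (δ (s - k)) (δ k) x⟫_ℂ)]
    simp
  rw [e3]
  have h4 : (∑ s, ‖z s‖) ^ 2 ≤ (Fintype.card κ : ℝ) * ∑ s, ‖z s‖ ^ 2 := by
    have := sq_sum_le_card_mul_sum_sq (s := (univ : Finset κ)) (f := fun j => ‖z j‖)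
    simpa using this
  have h5 : ∑ s, ‖z s‖ ≤ |C| * √(Fintype.card κ) := by
    refine (pow_le_pow_iff_left₀ (by positivity) (by positivity) two_ne_zero).mp ?_
    rw [mul_pow, sq_abs, Real.sq_sqrt (by positivity), mul_comm]
    exact h4.trans (mul_le_mul_of_nonneg_left h' (by positivity))
  refine le_trans ?_ h5
  refine (norm_sum_le _ _).trans (Finset.sum_le_sum fun s _ => ?_)
  exact (norm_inner_le_norm _ _).trans (mul_le_of_le_one_left (norm_nonneg _) (hf s))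

end Rep

end Pool.Agent.H92.Bl
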