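import Pool.Agent.H92.Bl2

set_option autoImplicit false
open scoped InnerProductSpace ComplexConjugate CStarMatrix ENNReal
open Finset

namespace Pool.Agent.H92.Bl

noncomputable def pr (N : ℕ) : ℕ := (Nat.exists_infinite_primes (64 ^ N + 3)).choose

lemma pr_ge (N : ℕ) : 64 ^ N + 3 ≤ pr N := (Nat.exists_infinite_primes (64 ^ N + 3)).choose_spec.1

instance pr_prime (N : ℕ) : Fact (pr N).Prime :=
  ⟨(Nat.exists_infinite_primes (64 ^ N + 3)).choose_spec.2⟩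

lemma two_ne (N : ℕ) : (2 : ZMod (pr N)) ≠ 0 := by
  intro h
  have h1 : ((2 : ℕ) : ZMod (pr N)) = 0 := by exact_mod_cast h
  rw [ZMod.natCast_eq_zero_iff] at h1
  have h2 := Nat.le_of_dvd (by norm_num) h1
  have := pr_ge N
  have : 0 < 64 ^ N := by positivity
  omega

lemma pr_pos (N : ℕ) : (0 : ℝ) < pr N := by exact_mod_cast (pr_prime N).out.pos

lemma sqrt_ge (N : ℕ) : (8 : ℝ) ^ N ≤ √(pr N) := by
  apply Real.le_sqrt_of_sq_le
  have h : ((64 ^ N + 3 : ℕ) : ℝ) ≤ pr N := by exact_mod_cast pr_ge N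
  push_cast at h
  have : ((8 : ℝ) ^ N) ^ 2 = 64 ^ N := by rw [← pow_mul, mul_comm, pow_mul]; norm_num
  linarith

noncomputable def cN (N : ℕ) : ℝ := 2 ^ N / (pr N * √(pr N))

lemma cN_bound (N : ℕ) : cN N ^ 2 * (2 * (pr N : ℝ) ^ 2 * √(pr N)) ≤ 2 * (1 / 2) ^ N := by
  have hp := pr_pos N
  have hs : 0 < √(pr N : ℝ) := Real.sqrt_pos.mpr hp
  have h8 := sqrt_ge N
  have e : cN N ^ 2 * (2 * (pr N : ℝ) ^ 2 * √(pr N)) = 2 * (4 ^ N / √(pr N)) := by
    have : ((2 : ℝ) ^ N) ^ 2 = 4 ^ N := by rw [← pow_mul, mul_comm, pow_mul]; norm_num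
    rw [cN, div_pow, this]
    field_simp
  rw [e]
  refine mul_le_mul_of_nonneg_left ?_ (by norm_num)
  calc (4 : ℝ) ^ N / √(pr N) ≤ 4 ^ N / 8 ^ N :=
        div_le_div_of_nonneg_left (by positivity) (by positivity) h8
    _ = (1 / 2) ^ N := by rw [← div_pow]; norm_num

noncomputable abbrev ψ (N : ℕ) : AddChar (ZMod (pr N)) ℂ := ZMod.stdAddChar (N := pr N)

abbrev HH : Type := lp (fun N : ℕ => EuclideanSpace ℂ (ZMod (pr N))) 2

lemma hasSum_sq (z : HH) : HasSum (fun N => ‖z N‖ ^ 2) (‖z‖ ^ 2) := by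
  have := lp.hasSum_norm (p := 2) (by norm_num) z
  simpa using this

section
variable {A : Type} [NonUnitalCStarAlgebra A] [PartialOrder A] [StarOrderedRing A]
variable (ρ : ∀ N, ZMod (pr N) → (A →⋆ₙₐ[ℂ] ℂ))

noncomputable def blk (N : ℕ) (a b : A) : EuclideanSpace ℂ (ZMod (pr N)) :=
  WithLp.toLp 2 fun s => (cN N : ℂ) * ∑ i, ψ N (i ^ 2 * (s - i)) * (ρ N i a * ρ N (s - i) b)

lemma blk_bound {n m : Type} [Fintype n] [DecidableEq n] [Fintype m] [DecidableEq m]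
    (a : CStarMatrix n n A) (b : CStarMatrix m m A) (β : n × m → ℂ) (N : ℕ) :
    ∑ p : n × m, ‖∑ q : n × m, β q • blk ρ N (a p.1 q.1) (b p.2 q.2)‖ ^ 2
      ≤ 2 * (1 / 2) ^ N * ((‖a‖ * ‖b‖) ^ 2 * ∑ q, ‖β q‖ ^ 2) := by
  have h := keyM (ψ N) (ZMod.isPrimitive_stdAddChar _) (two_ne N) (ρ N) a b β
  rw [ZMod.card] at h
  have e : ∑ p : n × m, ‖∑ q : n × m, β q • blk ρ N (a p.1 q.1) (b p.2 q.2)‖ ^ 2
      = cN N ^ 2 * ∑ p : n × m, ∑ s, ‖∑ q : n × m, β q *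
        ∑ i, ψ N (i ^ 2 * (s - i)) * (ρ N i (a p.1 q.1) * ρ N (s - i) (b p.2 q.2))‖ ^ 2 := by
    rw [Finset.mul_sum]
    refine Finset.sum_congr rfl fun p _ => ?_
    rw [EuclideanSpace.norm_sq_eq, Finset.mul_sum]
    refine Finset.sum_congr rfl fun s _ => ?_
    rw [← sq_abs (cN N), ← Real.norm_eq_abs, ← Complex.norm_real, ← mul_pow, ← norm_mul]
    congr 2
    simp only [WithLp.ofLp_sum, Finset.sum_apply, WithLp.ofLp_smul, Pi.smul_apply, smul_eq_mul,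
      blk]
    rw [Finset.mul_sum]
    refine Finset.sum_congr rfl fun q _ => ?_
    ring
  rw [e]
  calc _ ≤ cN N ^ 2 * (2 * (pr N : ℝ) ^ 2 * √(pr N) * (‖a‖ * ‖b‖) ^ 2 * ∑ q, ‖β q‖ ^ 2) :=
        mul_le_mul_of_nonneg_left h (by positivity)
    _ = cN N ^ 2 * (2 * (pr N : ℝ) ^ 2 * √(pr N)) * ((‖a‖ * ‖b‖) ^ 2 * ∑ q, ‖β q‖ ^ 2) := by ring
    _ ≤ _ := mul_le_mul_of_nonneg_right (cN_bound N) (by positivity)

lemma blk_mem (a b : A) : Memℓp (fun N => blk ρ N a b) 2 := by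
  apply memℓp_gen
  set a' : CStarMatrix Unit Unit A := fun _ _ => a
  set b' : CStarMatrix Unit Unit A := fun _ _ => b
  have h := fun N => blk_bound ρ a' b' (fun _ => 1) N
  have hs : Summable fun N : ℕ => 2 * (1 / 2 : ℝ) ^ N *
      ((‖a'‖ * ‖b'‖) ^ 2 * ∑ q : Unit × Unit, ‖(1 : ℂ)‖ ^ 2) :=
    (summable_geometric_two.mul_left 2).mul_right _
  refine Summable.of_nonneg_of_le (fun _ => by positivity) (fun N => ?_) hs
  have := h N
  simpa [a', b'] using this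

noncomputable def ww : A →ₗ[ℂ] A →ₗ[ℂ] HH :=
  LinearMap.mk₂ ℂ (fun a b => (⟨fun N => blk ρ N a b, blk_mem ρ a b⟩ : HH))
    (fun a a' b => by
      ext N s
      simp [blk, mul_add, add_mul, Finset.sum_add_distrib])
    (fun c a b => by
      ext N s
      simp [blk, Finset.mul_sum]
      refine Finset.sum_congr rfl fun _ _ => ?_
      ring)
    (fun a b b' => by
      ext N s
      simp [blk, mul_add, add_mul, Finset.sum_add_distrib])
    (fun c a b => by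
      ext N s
      simp [blk, Finset.mul_sum]
      refine Finset.sum_congr rfl fun _ _ => ?_
      ring)

lemma ww_apply (a b : A) (N : ℕ) : ww ρ a b N = blk ρ N a b := rfl

noncomputable def ff (N : ℕ) (s : ZMod (pr N)) : HH := lp.single 2 N (EuclideanSpace.single s 1)

lemma ff_norm (N : ℕ) (s : ZMod (pr N)) : ‖ff N s‖ = 1 := by
  rw [ff, lp.norm_single (by norm_num)]; simp

lemma ff_inner (N : ℕ) (s : ZMod (pr N)) (z : HH) : ⟪ff N s, z⟫_ℂ = z N s := by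
  rw [ff, lp.inner_single_left, EuclideanSpace.inner_single_left]; simp

noncomputable def col : HH →ₗ[ℂ] (HH →L[ℂ] HH) where
  toFun w := (innerSL ℂ (ff 0 0)).smulRight w
  map_add' w w' := by ext1 x; simp
  map_smul' c w := by ext1 x; simp [smul_smul, mul_comm]

noncomputable def phi : A →ₗ[ℂ] A →ₗ[ℂ] (HH →L[ℂ] HH) := (ww ρ).compr₂ col

lemma phi_apply (a b : A) (x : HH) : phi ρ a b x = ⟪ff 0 0, x⟫_ℂ • ww ρ a b := rfl

lemma phi_jcb (n m : ℕ) (a : CStarMatrix (Fin n) (Fin n) A)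
    (b : CStarMatrix (Fin m) (Fin m) A) (x : Fin n × Fin m → HH) :
    ∑ p : Fin n × Fin m, ‖∑ q : Fin n × Fin m, phi ρ (a p.1 q.1) (b p.2 q.2) (x q)‖ ^ 2
      ≤ (2 * ‖a‖ * ‖b‖) ^ 2 * ∑ q : Fin n × Fin m, ‖x q‖ ^ 2 := by
  set β : Fin n × Fin m → ℂ := fun q => ⟪ff 0 0, x q⟫_ℂ with hβ
  have h1 := hasSum_sum (s := (univ : Finset (Fin n × Fin m))) fun p _ =>
    hasSum_sq (∑ q : Fin n × Fin m, phi ρ (a p.1 q.1) (b p.2 q.2) (x q))
  have h2 : HasSum (fun N : ℕ => 2 * (1 / 2 : ℝ) ^ N * ((‖a‖ * ‖b‖) ^ 2 * ∑ q, ‖β q‖ ^ 2))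
      (2 * 2 * ((‖a‖ * ‖b‖) ^ 2 * ∑ q, ‖β q‖ ^ 2)) :=
    (hasSum_geometric_two.mul_left 2).mul_right _
  have h3 := hasSum_le (fun N => ?_) h1 h2
  · refine h3.trans ?_
    have h4 : ∑ q, ‖β q‖ ^ 2 ≤ ∑ q, ‖x q‖ ^ 2 := by
      refine Finset.sum_le_sum fun q _ => pow_le_pow_left₀ (norm_nonneg _) ?_ 2
      refine (norm_inner_le_norm _ _).trans ?_
      rw [ff_norm, one_mul]
    calc _ = (2 * ‖a‖ * ‖b‖) ^ 2 * ∑ q, ‖β q‖ ^ 2 := by ring
      _ ≤ _ := mul_le_mul_of_nonneg_left h4 (by positivity)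
  · refine le_of_eq_of_le ?_ (blk_bound ρ a b β N)
    refine Finset.sum_congr rfl fun p _ => ?_
    congr 2
    rw [lp.coeFn_sum, Finset.sum_apply]
    rfl

lemma no_split (δ : ∀ N, ZMod (pr N) → A) (hs : ∀ N i, star (δ N i) = δ N i)
    (hm : ∀ N i j, δ N i * δ N j = if i = j then δ N i else 0)
    (hρ : ∀ N i j, ρ N i (δ N j) = if i = j then 1 else 0)
    (φ₁ φ₂ : A →ₗ[ℂ] A →ₗ[ℂ] (HH →L[ℂ] HH)) (C₁ C₂ : ℝ)
    (h₁ : ∀ (n : ℕ) (a : CStarMatrix (Fin n) (Fin n) A)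
            (b : CStarMatrix (Fin n) (Fin n) A) (x : Fin n → HH),
            ∑ i : Fin n, ‖∑ j : Fin n, ∑ k : Fin n, φ₁ (a i k) (b k j) (x j)‖ ^ 2
              ≤ (C₁ * ‖a‖ * ‖b‖) ^ 2 * ∑ j : Fin n, ‖x j‖ ^ 2)
    (h₂ : ∀ (n : ℕ) (a : CStarMatrix (Fin n) (Fin n) A)
            (b : CStarMatrix (Fin n) (Fin n) A) (x : Fin n → HH),
            ∑ i : Fin n, ‖∑ j : Fin n, ∑ k : Fin n, φ₂ (a i k) (b k j) (x j)‖ ^ 2
              ≤ (C₂ * ‖a‖ * ‖b‖) ^ 2 * ∑ j : Fin n, ‖x j‖ ^ 2)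
    (h : ∀ a b, phi ρ a b = φ₁ a b + φ₂ b a) : False := by
  have main : ∀ N, (2 : ℝ) ^ N ≤ |C₁| + |C₂| := by
    intro N
    have hu : ∀ t, conj (conj (ψ N t)) * conj (ψ N t) = 1 := by
      intro t
      rw [Complex.conj_conj, ← AddChar.map_neg_eq_conj, ← AddChar.map_add_eq_mul]; simp
    have l1 := lower φ₁ C₁ h₁ (δ N) (hs N) (hm N) (fun i j => conj (ψ N (i ^ 2 * j)))
      (fun i j => hu _) (ff 0 0) (ff_norm 0 0).le (ff N) (fun s => (ff_norm N s).le)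
    have l2 := lower φ₂ C₂ h₂ (δ N) (hs N) (hm N) (fun j i => conj (ψ N (i ^ 2 * j)))
      (fun i j => hu _) (ff 0 0) (ff_norm 0 0).le (ff N) (fun s => (ff_norm N s).le)
    rw [Finset.sum_comm] at l2
    rw [ZMod.card] at l1 l2
    have e : ∀ i j : ZMod (pr N),
        conj (ψ N (i ^ 2 * j)) * ⟪ff N (i + j), φ₁ (δ N i) (δ N j) (ff 0 0)⟫_ℂ
        + conj (ψ N (i ^ 2 * j)) * ⟪ff N (j + i), φ₂ (δ N j) (δ N i) (ff 0 0)⟫_ℂ = cN N := by
      intro i j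
      rw [add_comm j i, ← mul_add, ← inner_add_right, ← _root_.add_apply, ← h,
        phi_apply, ← nsq, ff_norm, inner_smul_right, ff_inner, ww_apply]
      simp only [blk, hρ]
      rw [Finset.sum_eq_single i]
      · have := hu (i ^ 2 * j)
        rw [Complex.conj_conj] at this
        simp only [add_sub_cancel_left, if_true, mul_one]
        push_cast
        linear_combination (cN N : ℂ) * this
      · intro i' _ hi; simp [hi]
      · simp
    have e2 : (∑ i, ∑ j, conj (ψ N (i ^ 2 * j)) * ⟪ff N (i + j), φ₁ (δ N i) (δ N j) (ff 0 0)⟫_ℂ)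
        + (∑ i, ∑ j, conj (ψ N (i ^ 2 * j)) * ⟪ff N (j + i), φ₂ (δ N j) (δ N i) (ff 0 0)⟫_ℂ)
        = (((pr N : ℝ) ^ 2 * cN N : ℝ) : ℂ) := by
      simp only [← Finset.sum_add_distrib, e]
      simp [ZMod.card]; ring
    have l3 := (norm_add_le _ _).trans (add_le_add l1 l2)
    rw [e2, Complex.norm_real, Real.norm_eq_abs] at l3
    have l4 := (le_abs_self _).trans l3
    have hp := pr_pos N
    have hs : 0 < √(pr N : ℝ) := Real.sqrt_pos.mpr hp
    have e3 : (pr N : ℝ) ^ 2 * cN N = 2 ^ N * √(pr N) := by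
      have := Real.mul_self_sqrt hp.le
      rw [cN]
      field_simp
      nlinarith
    rw [e3, ← add_mul] at l4
    exact le_of_mul_le_mul_right l4 hs
  obtain ⟨N, hN⟩ := pow_unbounded_of_one_lt (|C₁| + |C₂|) (one_lt_two (α := ℝ))
  exact absurd (main N) (not_le.mpr hN)

end

abbrev AA : Type := lp (fun _ : ℕ => ℂ) ∞

noncomputable def ev (k : ℕ) : AA →⋆ₙₐ[ℂ] ℂ where
  toFun a := a k
  map_smul' c a := rfl
  map_zero' := rfl
  map_add' a b := rfl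
  map_mul' a b := rfl
  map_star' a := rfl

noncomputable def dl (k : ℕ) : AA := lp.single ∞ k 1

lemma ev_dl (k l : ℕ) : ev k (dl l) = if k = l then 1 else 0 := by
  change dl l k = _
  simp [dl, lp.single_apply, Pi.single_apply]

lemma dl_star (k : ℕ) : star (dl k) = dl k := by
  ext l
  change star (ev l (dl k)) = ev l (dl k)
  rw [ev_dl]; split_ifs <;> simp

lemma dl_mul (k l : ℕ) : dl k * dl l = if k = l then dl k else 0 := by
  ext t
  change ev t (dl k * dl l) = ev t _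
  rw [map_mul, ev_dl, ev_dl]
  by_cases h : k = l
  · subst h; rw [if_pos rfl, ev_dl]; split_ifs <;> simp
  · rw [if_neg h, map_zero]
    by_cases h1 : t = k
    · subst h1; simp [h]
    · simp [h1]

end Pool.Agent.H92.Bl
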