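import Mathlib

namespace Pool.Agent.H92.CR
open MeasureTheory Set Filter Topology Real

lemma cs_int {u : ℝ → ℝ} (hu : Continuous u) {R : ℝ} (h : ∀ s, R ≤ |s| → u s = 0) :
    Integrable u :=
  hu.integrable_of_hasCompactSupport (HasCompactSupport.intro (isCompact_Icc (a := -R) (b := R))
    fun s hs => h s (by
      by_contra hh
      exact hs ⟨by linarith [neg_abs_le s, not_le.1 hh], by linarith [le_abs_self s, not_le.1 hh]⟩))

lemma lor {k : ℝ} (hk : 0 < k) : Integrable (fun s : ℝ => (s ^ 2 + k ^ 2)⁻¹) ∧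
    ∫ s : ℝ, (s ^ 2 + k ^ 2)⁻¹ = π / k := by
  have e : (fun s : ℝ => (s ^ 2 + k ^ 2)⁻¹) = fun s => (k ^ 2)⁻¹ * (1 + (s / k) ^ 2)⁻¹ := by
    funext s; field_simp; ring
  rw [e]
  refine ⟨(integrable_inv_one_add_sq.comp_div hk.ne').const_mul _, ?_⟩
  rw [integral_const_mul, Measure.integral_comp_div (fun x : ℝ => (1 + x ^ 2)⁻¹),
    integral_univ_inv_one_add_sq, abs_of_pos hk, smul_eq_mul]
  field_simp

lemma ibp {u U e : ℝ → ℝ} {R Γ A B k : ℝ} (hk : 0 < k)
    (hU : ∀ s, HasDerivAt U (2 * s * u s + e s) s) (hu : Continuous u) (he : Continuous e)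
    (hs : ∀ s, R ≤ |s| → u s = 0 ∧ U s = 0 ∧ e s = 0)
    (h1 : ∀ s, |u s| ≤ Γ) (h2 : ∀ s, |U s| ≤ A) (h3 : ∀ s, |e s| ≤ B) (hR : 0 ≤ R) :
    |∫ s, u s| ≤ (B * R / 2 + A / 2 + Γ * k ^ 2) * (π / k) := by
  have hp : ∀ s : ℝ, 0 < s ^ 2 + k ^ 2 := fun s => by positivity
  have hUc : Continuous U := continuous_iff_continuousAt.2 fun s => (hU s).continuousAt
  let W' : ℝ → ℝ := fun s => (2 * s * u s + e s) * (s / (s ^ 2 + k ^ 2)) +
    U s * ((k ^ 2 - s ^ 2) / (s ^ 2 + k ^ 2) ^ 2)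
  have hW : ∀ s, HasDerivAt (fun s => U s * (s / (s ^ 2 + k ^ 2))) (W' s) s := by
    intro s
    refine (hU s).mul (((hasDerivAt_id s).div ((hasDerivAt_pow 2 s).add_const (k ^ 2))
      (hp s).ne').congr_deriv ?_)
    simp only [id]; congr 1; push_cast; ring
  have hW'c : Continuous W' := by
    refine ((by fun_prop : Continuous fun s => 2 * s * u s + e s).mul
      (continuous_id.div (by fun_prop) fun s => (hp s).ne')).add
      (hUc.mul ((by fun_prop : Continuous fun s : ℝ => k ^ 2 - s ^ 2).div (by fun_prop)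
        fun s => (pow_pos (hp s) 2).ne'))
  have hW'i : Integrable W' := cs_int hW'c (R := R) fun s h => by
    simp [W', (hs s h).1, (hs s h).2.1, (hs s h).2.2]
  have h0 : ∫ s, W' s = 0 := integral_eq_zero_of_hasDerivAt_of_integrable hW hW'i
    (cs_int (hUc.mul (continuous_id.div (by fun_prop) fun s => (hp s).ne')) (R := R)
      fun s h => by simp [(hs s h).2.1])
  have hui : Integrable u := cs_int hu fun s h => (hs s h).1
  have e1 : ∫ s, u s = ∫ s, (u s - W' s / 2) := by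
    rw [integral_sub hui (hW'i.div_const 2), integral_div, h0]; simp
  rw [e1, ← (lor hk).2, ← integral_const_mul, ← Real.norm_eq_abs]
  refine norm_integral_le_of_norm_le ((lor hk).1.const_mul _) (Eventually.of_forall fun s => ?_)
  have e2 : u s - W' s / 2 = (u s * k ^ 2 - e s * s / 2 -
      U s * ((k ^ 2 - s ^ 2) / (s ^ 2 + k ^ 2)) / 2) * (s ^ 2 + k ^ 2)⁻¹ := by
    have := (hp s).ne'
    simp only [W']; field_simp; ring
  rw [Real.norm_eq_abs, e2, abs_mul, abs_of_pos (inv_pos.2 (hp s))]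
  gcongr
  have a1 : |u s * k ^ 2| ≤ Γ * k ^ 2 := by
    rw [abs_mul, abs_of_nonneg (sq_nonneg k)]; gcongr; exact h1 s
  have a2 : |e s * s| ≤ B * R := by
    by_cases h : R ≤ |s|
    · rw [(hs s h).2.2, zero_mul, abs_zero]; exact mul_nonneg ((abs_nonneg _).trans (h3 s)) hR
    · rw [abs_mul]; exact mul_le_mul (h3 s) (not_le.1 h).le (abs_nonneg _) ((abs_nonneg _).trans (h3 s))
  have a3 : |U s * ((k ^ 2 - s ^ 2) / (s ^ 2 + k ^ 2))| ≤ A := by
    rw [abs_mul]
    have : |(k ^ 2 - s ^ 2) / (s ^ 2 + k ^ 2)| ≤ 1 := by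
      rw [abs_div, abs_of_pos (hp s), div_le_one (hp s), abs_le]
      constructor <;> nlinarith [sq_nonneg s, sq_nonneg k]
    calc _ ≤ A * 1 := mul_le_mul (h2 s) this (abs_nonneg _) ((abs_nonneg _).trans (h2 s))
      _ = A := mul_one A
  rw [abs_le] at a1 a2 a3 ⊢
  constructor <;> linarith [a1.1, a1.2, a2.1, a2.2, a3.1, a3.2]

lemma par_cd {P : Type} [NormedAddCommGroup P] [NormedSpace ℝ P] {g : P → ℝ → ℝ} {s : Set P}
    (hs : IsOpen s) {R : ℝ} (hg : ContDiff ℝ 1 (fun q : P × ℝ => g q.1 q.2))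
    (h0 : ∀ p ∈ s, ∀ x, R ≤ |x| → g p x = 0) : ContDiffOn ℝ 1 (fun p => ∫ x, g p x) s := by
  have := contDiffOn_convolution_right_with_param_comp (𝕜 := ℝ) (n := 1) (μ := volume)
    (ContinuousLinearMap.mul ℝ ℝ) (s := s) (v := fun _ => (0 : ℝ)) contDiffOn_const
    (f := fun _ : ℝ => (1 : ℝ)) (g := g) (k := Icc (-R) R) hs isCompact_Icc
    (fun p x hp hx => h0 p hp x (by
      by_contra hh
      exact hx ⟨by linarith [neg_abs_le x, not_le.1 hh], by linarith [le_abs_self x, not_le.1 hh]⟩))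
    (locallyIntegrable_const 1) hg.contDiffOn
  refine this.congr fun p _ => ?_
  simp only [convolution_def, ContinuousLinearMap.mul_apply', one_mul, zero_sub]
  exact (integral_neg_eq_self (g p) volume).symm

/-- Abel inversion. -/
lemma abel {G : ℝ → ℝ} (hG : ContDiff ℝ 2 G) (h0 : ∀ w, 10 ≤ w → G w = 0) {Γ A k : ℝ}
    (hk : 0 < k) (h1 : ∀ w, |deriv G w| ≤ Γ) (h2 : ∀ w, |G w| ≤ A) :
    ∃ H : ℝ → ℝ, ContDiffOn ℝ 1 H (Ioi (-1)) ∧ (∀ v, 10 ≤ v → H v = 0) ∧
      (∀ v, 0 ≤ v → |H v| ≤ (A / 2 + Γ * k ^ 2) / k) ∧ ∀ v, 0 ≤ v → ∫ s, H (v + s ^ 2) = G v := by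
  set g := deriv G with hg
  have hgd : ContDiff ℝ 1 g := by
    have := (contDiff_succ_iff_deriv (n := 1)).1 hG
    exact this.2.2
  have hGd : ∀ w, HasDerivAt G (g w) w := fun w =>
    (hG.differentiable (by norm_num) w).hasDerivAt
  have hg0 : ∀ w, 10 ≤ w → g w = 0 := by
    have h10 : ∀ w, 10 < w → g w = 0 := fun w hw => by
      have : G =ᶠ[𝓝 w] fun _ => 0 := by
        filter_upwards [Ioi_mem_nhds hw] with y hy using h0 y (le_of_lt hy)
      rw [hg, this.deriv_eq]; simp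
    intro w hw
    have hcl : IsClosed {w | g w = 0} := isClosed_eq hgd.continuous continuous_const
    have : closure (Ioi (10 : ℝ)) ⊆ {w | g w = 0} := hcl.closure_subset_iff.2 h10
    rw [closure_Ioi] at this
    exact this hw
  have hgc := hgd.continuous
  have hfar : ∀ v s : ℝ, -1 < v → 4 ≤ |s| → 10 ≤ v + s ^ 2 := fun v s hv hs => by
    nlinarith [sq_abs s]
  refine ⟨fun v => -(1 / π) * ∫ s, g (v + s ^ 2), ?_, ?_, ?_, ?_⟩
  · exact contDiffOn_const.mul (par_cd (g := fun v s => g (v + s ^ 2)) isOpen_Ioi (R := 4)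
      (hgd.comp (by fun_prop)) fun v hv s hs => hg0 _ (hfar v s hv hs))
  · intro v hv
    have : ∀ s : ℝ, g (v + s ^ 2) = 0 := fun s => hg0 _ (by nlinarith [sq_nonneg s])
    simp [this]
  · intro v hv
    have := ibp (u := fun s => g (v + s ^ 2)) (U := fun s => G (v + s ^ 2)) (e := fun _ => 0)
      (R := 4) (Γ := Γ) (A := A) (B := 0) hk (fun s => by
        refine ((hGd (v + s ^ 2)).comp s ((hasDerivAt_pow 2 s).const_add v)).congr_deriv ?_
        push_cast; ring) (by fun_prop) continuous_const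
      (fun s hs => ⟨hg0 _ (hfar v s (by linarith) hs), h0 _ (hfar v s (by linarith) hs), rfl⟩)
      (fun s => h1 _) (fun s => h2 _) (by simp) (by norm_num)
    rw [abs_mul, abs_neg, abs_of_pos (by positivity : 0 < 1 / π)]
    refine (mul_le_mul_of_nonneg_left this (by positivity)).trans (le_of_eq ?_)
    field_simp; ring
  · intro v hv
    rw [integral_const_mul]
    have hI : Integrable (fun q : ℝ × ℝ => g (v + q.1 ^ 2 + q.2 ^ 2)) (volume.prod volume) := by
      refine Continuous.integrable_of_hasCompactSupport (by fun_prop)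
        (HasCompactSupport.intro (isCompact_closedBall (0 : ℝ × ℝ) 4) fun q hq => hg0 _ ?_)
      rw [mem_closedBall_zero_iff, Prod.norm_def, max_le_iff, not_and_or, not_le, not_le,
        Real.norm_eq_abs, Real.norm_eq_abs] at hq
      rcases hq with h | h <;> nlinarith [sq_abs q.1, sq_abs q.2, sq_nonneg q.1, sq_nonneg q.2]
    rw [← integral_prod _ hI, ← Measure.volume_eq_prod,
      ← integral_comp_polarCoord_symm (fun q : ℝ × ℝ => g (v + q.1 ^ 2 + q.2 ^ 2))]
    have e : ∀ p : ℝ × ℝ, p.1 • g (v + (polarCoord.symm p).1 ^ 2 + (polarCoord.symm p).2 ^ 2) =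
        (p.1 * g (v + p.1 ^ 2)) * (1 : ℝ) := by
      intro p
      simp only [polarCoord_symm_apply, smul_eq_mul, mul_one]
      congr 2
      nlinarith [Real.sin_sq_add_cos_sq p.2]
    simp only [e]
    rw [polarCoord_target, Measure.volume_eq_prod,
      setIntegral_prod_mul (fun r : ℝ => r * g (v + r ^ 2)) (fun _ : ℝ => (1 : ℝ))]
    have e2 : ∫ r in Ioi (0 : ℝ), r * g (v + r ^ 2) = 0 - G (v + 0 ^ 2) / 2 := by
      refine integral_Ioi_of_hasDerivAt_of_tendsto' (f := fun r => G (v + r ^ 2) / 2)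
        (fun r _ => ?_) ?_ ?_
      · refine (((hGd (v + r ^ 2)).comp r ((hasDerivAt_pow 2 r).const_add v)).div_const 2).congr_deriv ?_
        push_cast; ring
      · exact (cs_int (by fun_prop) (R := 4) fun s hs => by
          rw [hg0 _ (hfar v s (by linarith) hs), mul_zero]).integrableOn
      · refine tendsto_const_nhds.congr' ?_
        filter_upwards [eventually_ge_atTop (4 : ℝ)] with r hr
        rw [h0 _ (hfar v r (by linarith) (hr.trans (le_abs_self r))), zero_div]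
    rw [e2]
    have hπ := pi_pos
    simp only [integral_const, MeasurableSet.univ, measureReal_restrict_apply, univ_inter,
      Real.volume_real_Ioo, smul_eq_mul, mul_one]
    rw [max_eq_left (by linarith)]
    simp only [ne_eq, OfNat.ofNat_ne_zero, not_false_eq_true, zero_pow, add_zero]
    field_simp; ring

end Pool.Agent.H92.CR
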