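import Mathlib

namespace Pool.Agent.H92.CR
open MeasureTheory Set Filter Topology Real

/-- cellwise affine -/
def CA (n : ℕ) (S : ℝ → ℝ) (s : ℤ → ℝ) : Prop :=
  ∀ i : ℤ, ∀ v w : ℝ, (i : ℝ) ≤ n * v → n * v ≤ i + 1 → (i : ℝ) ≤ n * w → n * w ≤ i + 1 →
    S w - S v = s i * (w - v)

lemma CA.refine {n b : ℕ} (hb : 0 < b) {S s} (h : CA n S s) :
    CA (n * b) S (fun i => s (i / b)) := by
  intro i v w h1 h2 h3 h4
  have hb' : (0 : ℝ) < b := by positivity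
  have e1 : (((i / b : ℤ) : ℝ)) * b ≤ i := by
    exact_mod_cast Int.ediv_mul_le i (by omega : (b : ℤ) ≠ 0)
  have e2 : (i : ℝ) + 1 ≤ (((i / b : ℤ) : ℝ) + 1) * b := by
    have := Int.lt_ediv_add_one_mul_self i (by omega : (0 : ℤ) < b)
    exact_mod_cast this
  push_cast at h1 h2 h3 h4
  apply h <;> apply le_of_mul_le_mul_right _ hb' <;> nlinarith

lemma CA.lower {n : ℕ} (hn : 0 < n) {S s} (h : CA n S s) {lo : ℝ} (k : ℕ) :
    ∀ v w : ℝ, v ≤ w → ⌊n * w⌋ ≤ ⌊n * v⌋ + k → (∀ i, ⌊n * v⌋ ≤ i → i ≤ ⌊n * w⌋ → lo ≤ s i) →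
      lo * (w - v) ≤ S w - S v := by
  have hn' : (0 : ℝ) < n := by positivity
  induction k with
  | zero =>
    intro v w hvw hk hs
    have hm : ⌊n * v⌋ ≤ ⌊n * w⌋ := Int.floor_le_floor (by gcongr)
    have e : ⌊n * w⌋ = ⌊n * v⌋ := by push_cast at hk; omega
    rw [h ⌊n * v⌋ v w (Int.floor_le _) (Int.lt_floor_add_one _).le (e ▸ Int.floor_le _)
      (e ▸ (Int.lt_floor_add_one _).le)]
    exact mul_le_mul_of_nonneg_right (hs _ le_rfl hm) (by linarith)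
  | succ k ih =>
    intro v w hvw hk hs
    by_cases hc : ⌊n * w⌋ ≤ ⌊n * v⌋ + k
    · exact ih v w hvw hc hs
    have hm : ⌊n * v⌋ ≤ ⌊n * w⌋ := Int.floor_le_floor (by gcongr)
    set i := ⌊n * v⌋ with hi
    let u : ℝ := (i + 1) / n
    have hu : n * u = i + 1 := by simp only [u]; field_simp
    have hfu : ⌊n * u⌋ = i + 1 := by rw [hu]; exact_mod_cast Int.floor_intCast (i + 1)
    have hvu : v ≤ u := by
      apply le_of_mul_le_mul_left _ hn'; rw [hu]; exact (Int.lt_floor_add_one _).le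
    have huw : u ≤ w := by
      apply le_of_mul_le_mul_left _ hn'; rw [hu]
      have : ((i + 1 : ℤ) : ℝ) ≤ ⌊n * w⌋ := by exact_mod_cast (by omega : i + 1 ≤ ⌊n * w⌋)
      push_cast at this
      exact this.trans (Int.floor_le _)
    have a1 := ih u w huw (by push_cast at hk; omega) fun j h1 h2 => hs j (by omega) h2
    have a2 := h i v u (Int.floor_le _) (Int.lt_floor_add_one _).le (by linarith) hu.le
    have a3 := mul_le_mul_of_nonneg_right (hs i le_rfl hm) (sub_nonneg.2 hvu)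
    linarith

lemma CA.bd {n : ℕ} (hn : 0 < n) {S s} (h : CA n S s) {lo hi v w : ℝ} (hvw : v ≤ w)
    (hs : ∀ i, ⌊n * v⌋ ≤ i → i ≤ ⌊n * w⌋ → lo ≤ s i ∧ s i ≤ hi) :
    lo * (w - v) ≤ S w - S v ∧ S w - S v ≤ hi * (w - v) := by
  have hk : ⌊n * w⌋ ≤ ⌊n * v⌋ + ((⌊n * w⌋ - ⌊n * v⌋).toNat : ℕ) := by omega
  refine ⟨h.lower hn _ v w hvw hk fun i a b => (hs i a b).1, ?_⟩
  have h' : CA n (fun v => -S v) (fun i => -s i) := fun i v w a b c d => by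
    have := h i v w a b c d; simp only; linarith
  have := h'.lower hn (lo := -hi) _ v w hvw hk fun i a b => neg_le_neg (hs i a b).2
  linarith

lemma CA.lip {n : ℕ} (hn : 0 < n) {S s} (h : CA n S s) {Γ : ℝ} (hs : ∀ i, |s i| ≤ Γ) (v w : ℝ) :
    |S w - S v| ≤ Γ * |w - v| := by
  have key : ∀ v w, v ≤ w → |S w - S v| ≤ Γ * |w - v| := fun v w hvw => by
    have := h.bd hn (lo := -Γ) (hi := Γ) hvw fun i _ _ => abs_le.1 (hs i)
    rw [abs_of_nonneg (sub_nonneg.2 hvw), abs_le]; constructor <;> linarith [this.1, this.2]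
  rcases le_total v w with hh | hh
  · exact key v w hh
  · rw [abs_sub_comm, abs_sub_comm w]; exact key w v hh

noncomputable def PL (n : ℕ) (a : ℤ → ℝ) (v : ℝ) : ℝ :=
  a ⌊n * v⌋ + (n * v - ⌊n * v⌋) * (a (⌊n * v⌋ + 1) - a ⌊n * v⌋)

lemma PL_eq (n : ℕ) (a : ℤ → ℝ) {i : ℤ} {v : ℝ} (h1 : (i : ℝ) ≤ n * v) (h2 : n * v ≤ i + 1) :
    PL n a v = a i + (n * v - i) * (a (i + 1) - a i) := by
  rcases h2.lt_or_eq with h | h
  · have : ⌊n * v⌋ = i := Int.floor_eq_iff.2 ⟨h1, h⟩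
    rw [PL, this]
  · have : ⌊n * v⌋ = i + 1 := by rw [h]; exact_mod_cast Int.floor_intCast (i + 1)
    rw [PL, this, h]; push_cast; ring

lemma PL_CA (n : ℕ) (a : ℤ → ℝ) : CA n (PL n a) (fun i => n * (a (i + 1) - a i)) := by
  intro i v w h1 h2 h3 h4
  rw [PL_eq n a h1 h2, PL_eq n a h3 h4]; ring

lemma PL_bd (n : ℕ) {a : ℤ → ℝ} {A : ℝ} (h : ∀ i, |a i| ≤ A) (v : ℝ) : |PL n a v| ≤ A := by
  have h1 := Int.floor_le (n * v)
  have h2 := Int.lt_floor_add_one (n * v)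
  have h3 := abs_le.1 (h ⌊n * v⌋)
  have h4 := abs_le.1 (h (⌊n * v⌋ + 1))
  rw [PL, abs_le]
  constructor <;> nlinarith [h3.1, h3.2, h4.1, h4.2]

def nn (n0 : ℕ) : ℕ → ℕ
  | 0 => n0
  | j + 1 => nn n0 j * (j + 2)

def ep (n0 j : ℕ) (i : ℤ) (p : ℤ × ℤ × ℤ) : ℤ :=
  if 10 * (nn n0 j : ℤ) ≤ i then 0 else if p.1 = p.2.2 then 1 else -1

def nx (n0 j : ℕ) (i : ℤ) (p : ℤ × ℤ × ℤ) : ℤ :=
  p.1 + ep n0 j (i / ((j + 2 : ℕ) : ℤ)) p * (if i % ((j + 2 : ℕ) : ℤ) = 0 then -(j + 1 : ℤ) else 1)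

/-- (current slope, lowest slope, highest slope) -/
def st (n0 : ℕ) : ℕ → ℤ → ℤ × ℤ × ℤ
  | 0, _ => (0, 0, 0)
  | j + 1, i => (nx n0 j i (st n0 j (i / ((j + 2 : ℕ) : ℤ))),
      min (st n0 j (i / ((j + 2 : ℕ) : ℤ))).2.1 (nx n0 j i (st n0 j (i / ((j + 2 : ℕ) : ℤ)))),
      max (st n0 j (i / ((j + 2 : ℕ) : ℤ))).2.2 (nx n0 j i (st n0 j (i / ((j + 2 : ℕ) : ℤ)))))

def Inv (n0 j : ℕ) (i : ℤ) (p : ℤ × ℤ × ℤ) : Prop :=
  p.2.1 ≤ 0 ∧ 0 ≤ p.2.2 ∧ (p.1 = p.2.1 ∨ p.1 = p.2.2) ∧ p.2.2 - p.2.1 ≤ j ∧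
    (i < 10 * (nn n0 j : ℤ) → p.2.2 - p.2.1 = j)

lemma rng (n0 j : ℕ) (i : ℤ) :
    i / ((j + 2 : ℕ) : ℤ) < 10 * (nn n0 j : ℤ) ↔ i < 10 * (nn n0 (j + 1) : ℤ) := by
  rw [Int.ediv_lt_iff_lt_mul (by omega), nn]; push_cast; rw [mul_assoc]

lemma nx_cases {n0 j : ℕ} {i : ℤ} {p} (h : Inv n0 j (i / ((j + 2 : ℕ) : ℤ)) p) :
    (¬ i < 10 * (nn n0 (j + 1) : ℤ) ∧ nx n0 j i p = p.1) ∨ (p.2.2 - p.2.1 = j ∧
      (nx n0 j i p = p.2.1 - 1 ∨ nx n0 j i p = p.2.2 + 1)) := by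
  obtain ⟨h1, h2, h3, h4, h5⟩ := h
  have := rng n0 j i
  unfold nx ep
  split_ifs <;> omega

lemma inv (n0 j : ℕ) (i : ℤ) : Inv n0 j i (st n0 j i) := by
  induction j generalizing i with
  | zero => simp [Inv, st]
  | succ j ih =>
    have h := ih (i / ((j + 2 : ℕ) : ℤ))
    have hc := nx_cases h
    obtain ⟨h1, h2, h3, h4, h5⟩ := h
    simp only [Inv, st]
    push_cast at *
    omega

noncomputable def aa (n0 j : ℕ) (θ : ℝ) (i : ℤ) : ℝ :=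
  θ / nn n0 (j + 1) * ((ep n0 j (i / ((j + 2 : ℕ) : ℤ)) (st n0 j (i / ((j + 2 : ℕ) : ℤ))) *
    (if i % ((j + 2 : ℕ) : ℤ) = 0 then 0 else i % ((j + 2 : ℕ) : ℤ) - (j + 2)) : ℤ) : ℝ)

noncomputable def SS (n0 : ℕ) (θ : ℝ) : ℕ → ℝ → ℝ
  | 0 => fun _ => 0
  | j + 1 => fun v => SS n0 θ j v + PL (nn n0 (j + 1)) (aa n0 j θ) v

lemma nn_pos {n0 : ℕ} (h : 0 < n0) (j : ℕ) : 0 < nn n0 j := by
  induction j with
  | zero => exact h
  | succ j ih => exact Nat.mul_pos ih (by omega)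

lemma succ_dm (b i : ℤ) (hb : 2 ≤ b) :
    ((i + 1) % b = 0 ∧ i % b = b - 1) ∨
      ((i + 1) % b = i % b + 1 ∧ (i + 1) / b = i / b ∧ 0 ≤ i % b) := by
  have h1 := Int.emod_nonneg i (by omega : b ≠ 0)
  have h2 := Int.emod_lt_of_pos i (by omega : 0 < b)
  have h3 := Int.mul_ediv_add_emod i b
  by_cases h : i % b = b - 1
  · left
    refine ⟨?_, h⟩
    have : i + 1 = b * (i / b + 1) := by rw [mul_add]; omega
    rw [this]; exact Int.mul_emod_right _ _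
  · right
    have := (Int.ediv_emod_unique (a := i + 1) (b := b) (r := i % b + 1) (q := i / b)
      (by omega)).2 ⟨by omega, by omega, by omega⟩
    exact ⟨this.2, this.1, h1⟩

lemma SS_CA {n0 : ℕ} (h : 0 < n0) (θ : ℝ) (j : ℕ) :
    CA (nn n0 j) (SS n0 θ j) (fun i => θ * (st n0 j i).1) := by
  induction j with
  | zero => intro i v w _ _ _ _; simp [SS, st]
  | succ j ih =>
    intro i v w h1 h2 h3 h4
    have a1 := ih.refine (b := j + 2) (by omega) i v w h1 h2 h3 h4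
    have a2 := PL_CA (nn n0 (j + 1)) (aa n0 j θ) i v w h1 h2 h3 h4
    have hn : (nn n0 (j + 1) : ℝ) ≠ 0 := by have := nn_pos h (j + 1); positivity
    have a3 : (nn n0 (j + 1) : ℝ) * (aa n0 j θ (i + 1) - aa n0 j θ i) =
        θ * ((st n0 (j + 1) i).1 - (st n0 j (i / ((j + 2 : ℕ) : ℤ))).1) := by
      rw [aa, aa, ← mul_sub, ← mul_assoc, mul_div_cancel₀ _ hn, ← Int.cast_sub, ← Int.cast_sub]
      congr 2
      simp only [st, nx, add_sub_cancel_left]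
      rcases succ_dm ((j + 2 : ℕ) : ℤ) i (by omega) with ⟨e1, e2⟩ | ⟨e1, e2, e3⟩
      · rw [if_pos e1, e2, if_neg (by omega), if_neg (by omega)]; push_cast; ring
      · rw [e1, e2, if_neg (by omega)]
        split_ifs with h0
        · rw [h0]; ring
        · ring
    simp only [a3] at a2
    simp only [SS] at a1 ⊢
    linarith

lemma SS_step {n0 : ℕ} (h : 0 < n0) {θ : ℝ} (hθ : 0 < θ) (j : ℕ) (v : ℝ) :
    |SS n0 θ (j + 1) v - SS n0 θ j v| ≤ θ / nn n0 j := by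
  simp only [SS, add_sub_cancel_left]
  refine PL_bd _ (fun i => ?_) v
  have hn : (0 : ℝ) < nn n0 j := by have := nn_pos h j; positivity
  have h1 := Int.emod_nonneg i (by omega : ((j + 2 : ℕ) : ℤ) ≠ 0)
  have h2 := Int.emod_lt_of_pos i (by omega : 0 < ((j + 2 : ℕ) : ℤ))
  have h3 : |ep n0 j (i / ((j + 2 : ℕ) : ℤ)) (st n0 j (i / ((j + 2 : ℕ) : ℤ))) *
    (if i % ((j + 2 : ℕ) : ℤ) = 0 then 0 else i % ((j + 2 : ℕ) : ℤ) - (j + 2))| ≤ j + 2 := by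
    unfold ep
    rw [abs_le]
    split_ifs <;> omega
  rw [aa, abs_mul, abs_of_pos (by have := nn_pos h (j + 1); positivity), ← Int.cast_abs]
  have h4 : ((|ep n0 j (i / ((j + 2 : ℕ) : ℤ)) (st n0 j (i / ((j + 2 : ℕ) : ℤ))) *
    (if i % ((j + 2 : ℕ) : ℤ) = 0 then 0 else i % ((j + 2 : ℕ) : ℤ) - (j + 2))| : ℤ) : ℝ) ≤ j + 2 := by
    exact_mod_cast h3
  refine (mul_le_mul_of_nonneg_left h4 (by positivity)).trans (le_of_eq ?_)
  rw [nn]; push_cast; field_simp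

lemma SS_tail {n0 : ℕ} (h : 0 < n0) {θ : ℝ} (hθ : 0 < θ) (j d : ℕ) (v : ℝ) :
    |SS n0 θ (j + d) v - SS n0 θ j v| ≤ 2 * θ / nn n0 j := by
  suffices H : |SS n0 θ (j + d) v - SS n0 θ j v| ≤ 2 * θ / nn n0 j - 2 * θ / nn n0 (j + d) from
    H.trans (sub_le_self _ (by positivity))
  induction d with
  | zero => simp
  | succ d ih =>
    have h1 := SS_step h hθ (j + d) v
    have hn : (0 : ℝ) < nn n0 (j + d) := by have := nn_pos h (j + d); positivity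
    have h2 : 2 * θ / nn n0 (j + (d + 1)) ≤ θ / nn n0 (j + d) := by
      rw [← add_assoc, div_le_div_iff₀ (by have := nn_pos h (j + d + 1); positivity) hn, nn]
      push_cast
      have : (0 : ℝ) ≤ j + d := by positivity
      nlinarith [mul_pos hθ hn]
    have h3 := abs_sub_le (SS n0 θ (j + d + 1) v) (SS n0 θ (j + d) v) (SS n0 θ j v)
    have h4 : 2 * θ / nn n0 (j + d) = 2 * (θ / nn n0 (j + d)) := by ring
    rw [← add_assoc] at h2 ⊢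
    linarith

lemma SS_zero (n0 : ℕ) (θ : ℝ) (j : ℕ) {v : ℝ} (hv : 10 ≤ v) : SS n0 θ j v = 0 := by
  induction j with
  | zero => rfl
  | succ j ih =>
    have h0 : ∀ i, 10 * (nn n0 (j + 1) : ℤ) ≤ i → aa n0 j θ i = 0 := by
      intro i hi
      have := rng n0 j i
      rw [aa, ep, if_pos (by omega)]; simp
    have h1 : 10 * (nn n0 (j + 1) : ℤ) ≤ ⌊(nn n0 (j + 1) : ℝ) * v⌋ := by
      rw [Int.le_floor]; push_cast
      nlinarith [(Nat.cast_nonneg (nn n0 (j + 1)) : (0 : ℝ) ≤ _)]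
    simp only [SS, ih, PL, h0 _ h1, h0 _ (h1.trans (Int.le_add_one le_rfl))]; simp

lemma fl_nn (n0 j : ℕ) (w : ℝ) :
    ⌊(nn n0 j : ℝ) * w⌋ = ⌊(nn n0 (j + 1) : ℝ) * w⌋ / ((j + 2 : ℕ) : ℤ) := by
  rw [← Int.floor_div_natCast, nn]
  congr 1
  push_cast; field_simp

end Pool.Agent.H92.CR
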