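import Pool.Agent.H92.CR2

namespace Pool.Agent.H92.CR
open MeasureTheory Set Filter Topology Real

noncomputable def Av (δ : ℝ) (f : ℝ → ℝ) (v : ℝ) : ℝ :=
  ((∫ x in (0 : ℝ)..(v + δ), f x) - ∫ x in (0 : ℝ)..v, f x) / δ

lemma Av_d {f : ℝ → ℝ} (hf : Continuous f) (δ v : ℝ) :
    HasDerivAt (Av δ f) ((f (v + δ) - f v) / δ) v :=
  ((((hf.integral_hasStrictDerivAt 0 (v + δ)).hasDerivAt).comp_add_const v δ).sub
    (hf.integral_hasStrictDerivAt 0 v).hasDerivAt).div_const δ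

lemma mvt {F f : ℝ → ℝ} (h : ∀ x, HasDerivAt F (f x) x) {δ : ℝ} (hδ : 0 < δ) (v : ℝ) :
    ∃ ξ, v ≤ ξ ∧ ξ ≤ v + δ ∧ (F (v + δ) - F v) / δ = f ξ := by
  obtain ⟨ξ, hξ, e⟩ := exists_hasDerivAt_eq_slope F f (by linarith : v < v + δ)
    (fun x _ => (h x).continuousAt.continuousWithinAt) fun x _ => h x
  exact ⟨ξ, hξ.1.le, hξ.2.le, by rw [e, add_sub_cancel_left]⟩

lemma Av_eq {f : ℝ → ℝ} (hf : Continuous f) {δ : ℝ} (hδ : 0 < δ) (v : ℝ) :
    ∃ ξ, v ≤ ξ ∧ ξ ≤ v + δ ∧ Av δ f v = f ξ :=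
  mvt (fun x => (hf.integral_hasStrictDerivAt 0 x).hasDerivAt) hδ v

lemma Av_cd {f : ℝ → ℝ} {n : ℕ} (hf : ContDiff ℝ n f) (δ : ℝ) : ContDiff ℝ (n + 1) (Av δ f) := by
  have hc := hf.continuous
  refine contDiff_succ_iff_deriv.2 ⟨fun v => (Av_d hc δ v).differentiableAt, by simp, ?_⟩
  have : deriv (Av δ f) = fun v => (f (v + δ) - f v) / δ := funext fun v => (Av_d hc δ v).deriv
  rw [this]
  exact ((hf.comp (contDiff_id.add contDiff_const)).sub hf).div_const δ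

lemma smoothing {S : ℝ → ℝ} (hS : Continuous S) {δ : ℝ} (hδ : 0 < δ) :
    ∃ G : ℝ → ℝ, ContDiff ℝ 2 G ∧ (∀ v, ∃ ξ, v ≤ ξ ∧ ξ ≤ v + 2 * δ ∧ G v = S ξ) ∧
      ∀ v, ∃ ξ, v ≤ ξ ∧ ξ ≤ v + δ ∧ deriv G v = (S (ξ + δ) - S ξ) / δ := by
  have h1 : ContDiff ℝ (1 : ℕ) (Av δ S) := by
    have := Av_cd (n := 0) (contDiff_zero.2 hS) δ
    simpa using this
  refine ⟨Av δ (Av δ S), Av_cd h1 δ, fun v => ?_, fun v => ?_⟩
  · obtain ⟨a, a1, a2, a3⟩ := Av_eq h1.continuous hδ v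
    obtain ⟨b, b1, b2, b3⟩ := Av_eq hS hδ a
    exact ⟨b, by linarith, by linarith, a3.trans b3⟩
  · rw [(Av_d h1.continuous δ v).deriv]
    exact mvt (Av_d hS δ) hδ v

lemma down (n0 m : ℕ) (c : ℝ) (hc : 0 ≤ c) (h0 : 0 < n0) (near : ℤ → Prop) (Y : ℝ → Set ℝ)
    (hY : ∀ w, (Y w).Nonempty → ∃ z, (st n0 m ⌊(nn n0 m : ℝ) * w⌋).2.1 ≤ z ∧
      z ≤ (st n0 m ⌊(nn n0 m : ℝ) * w⌋).2.2 ∧ near z)
    (hd : ∀ j, j ≤ m → ∀ i, near (st n0 j i).1 →
      volume (⋃ w ∈ {w : ℝ | ⌊(nn n0 j : ℝ) * w⌋ = i}, Y w) ≤ ENNReal.ofReal (c / nn n0 j)) :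
    ∀ d j, j + d = m → ∀ i,
      ((∀ z, (st n0 j i).2.1 ≤ z → z ≤ (st n0 j i).2.2 → ¬ near z) ∨ near (st n0 j i).1) →
      volume (⋃ w ∈ {w : ℝ | ⌊(nn n0 j : ℝ) * w⌋ = i}, Y w) ≤ ENNReal.ofReal (c / nn n0 j) := by
  intro d
  induction d with
  | zero =>
    intro j hj i h
    obtain rfl : j = m := by omega
    rcases h with h | h
    · have : (⋃ w ∈ {w : ℝ | ⌊(nn n0 j : ℝ) * w⌋ = i}, Y w) = ∅ := by
        simp only [iUnion_eq_empty]
        intro w hw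
        by_contra hne
        obtain ⟨z, z1, z2, z3⟩ := hY w (nonempty_iff_ne_empty.2 hne)
        have e : ⌊(nn n0 j : ℝ) * w⌋ = i := hw
        rw [e] at z1 z2
        exact h z z1 z2 z3
      rw [this]; simp
    · exact hd j le_rfl i h
  | succ d ih =>
    intro j hj i h
    rcases h with h | h
    swap
    · exact hd j (by omega) i h
    have hsub : (⋃ w ∈ {w : ℝ | ⌊(nn n0 j : ℝ) * w⌋ = i}, Y w) ⊆ ⋃ r ∈ Finset.range (j + 2),
        ⋃ w ∈ {w : ℝ | ⌊(nn n0 (j + 1) : ℝ) * w⌋ = r + ((j + 2 : ℕ) : ℤ) * i}, Y w := by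
      intro y hy
      simp only [mem_iUnion, Finset.mem_range] at hy ⊢
      obtain ⟨w, hw, hy⟩ := hy
      have e : ⌊(nn n0 j : ℝ) * w⌋ = i := hw
      rw [fl_nn] at e
      set q := ⌊(nn n0 (j + 1) : ℝ) * w⌋ with hq
      have h1 := Int.emod_nonneg q (by omega : ((j + 2 : ℕ) : ℤ) ≠ 0)
      have h2 := Int.emod_lt_of_pos q (by omega : 0 < ((j + 2 : ℕ) : ℤ))
      have h3 := Int.mul_ediv_add_emod q ((j + 2 : ℕ) : ℤ)
      refine ⟨(q % ((j + 2 : ℕ) : ℤ)).toNat, by omega, w, ?_, hy⟩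
      show q = _
      rw [← e]; omega
    refine (measure_mono hsub).trans ((measure_biUnion_finset_le _ _).trans ?_)
    refine (Finset.sum_le_card_nsmul _ _ (ENNReal.ofReal (c / nn n0 (j + 1))) fun r hr => ?_).trans ?_
    · apply ih (j + 1) (by omega)
      have hr' := Finset.mem_range.1 hr
      have e : ((r : ℤ) + ((j + 2 : ℕ) : ℤ) * i) / ((j + 2 : ℕ) : ℤ) = i := by
        rw [Int.add_mul_ediv_left _ _ (by omega), Int.ediv_eq_zero_of_lt (by omega) (by omega),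
          zero_add]
      have hI := inv n0 j i
      have hc := nx_cases (n0 := n0) (j := j) (i := (r : ℤ) + ((j + 2 : ℕ) : ℤ) * i)
        (p := st n0 j i) (by rw [e]; exact hI)
      simp only [st, e]
      by_cases hn : near (nx n0 j ((r : ℤ) + ((j + 2 : ℕ) : ℤ) * i) (st n0 j i))
      · exact Or.inr hn
      · left
        intro z z1 z2 z3
        by_cases hz : z = nx n0 j ((r : ℤ) + ((j + 2 : ℕ) : ℤ) * i) (st n0 j i)
        · exact hn (hz ▸ z3)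
        · obtain ⟨h1, h2, h3, h4, h5⟩ := hI
          exact h z (by omega) (by omega) z3
    · rw [Finset.card_range, nsmul_eq_mul, ← ENNReal.ofReal_natCast,
        ← ENNReal.ofReal_mul (by positivity), nn]
      have := nn_pos h0 j
      apply le_of_eq; congr 1; push_cast; field_simp

theorem walk {Λ θ : ℝ} (hΛ : 0 < Λ) (hθ : 0 < θ) : ∃ Γ : ℝ, 0 < Γ ∧ ∀ ρ η : ℝ, 0 < ρ → 0 < η →
    ∃ G : ℝ → ℝ, ContDiff ℝ 2 G ∧ (∀ w, 10 ≤ w → G w = 0) ∧ (∀ w, |G w| ≤ η) ∧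
      (∀ w, |deriv G w| ≤ Γ) ∧ ∃ V : Set (ℝ × ℝ), IsCompact V ∧
      (∀ v, 1 ≤ v → v ≤ 9 → ∃ τ : ℝ, (τ = 1 ∨ τ = -1) ∧ ∀ σ, |σ| ≤ Λ →
        (0 ≤ τ * σ ∨ 0 ≤ τ * (σ - deriv G v)) → (v, σ) ∈ V) ∧
      ∃ η' > 0, ∀ (σ α : ℝ) (T : Set ℝ) (φ F : ℝ → ℝ), |σ| ≤ Λ → (∀ t ∈ T, φ t ∈ Icc α (α + ρ)) →
        (∀ t ∈ T, ∃ σ', (φ t, σ') ∈ V ∧ |σ' - σ| ≤ θ) →
        (∀ t ∈ T, ∀ t' ∈ T, |F t - F t' - (G (φ t) - G (φ t')) + σ * (φ t - φ t')| ≤
          θ * |φ t - φ t'| + η') → volume (F '' T) ≤ ENNReal.ofReal (45 * θ * ρ) := by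
  obtain ⟨m, hm⟩ := exists_nat_ge (2 * Λ / θ + 1)
  have hm1 : 2 * Λ + θ ≤ θ * m := by
    have := mul_le_mul_of_nonneg_left hm hθ.le
    rwa [mul_add, mul_div_cancel₀ _ hθ.ne', mul_one] at this
  set Γ := θ * m with hΓ
  have hΓ0 : 0 < Γ := by linarith
  refine ⟨Γ, hΓ0, fun ρ η hρ hη => ?_⟩
  obtain ⟨n0, hn0⟩ := exists_nat_ge (max (2 * θ / η) (1 / ρ))
  have hn1 : 1 / ρ ≤ n0 := (le_max_right _ _).trans hn0
  have hn0' : (0 : ℝ) < n0 := lt_of_lt_of_le (by positivity) hn1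
  have h0 : 0 < n0 := by exact_mod_cast hn0'
  have hmono : ∀ j k, j ≤ k → (nn n0 j : ℝ) ≤ nn n0 k := fun j k hjk => by
    exact_mod_cast monotone_nat_of_le_succ (f := nn n0)
      (fun j => Nat.le_mul_of_pos_right _ (by omega)) hjk
  set n := nn n0 m with hn
  have hnp : (0 : ℝ) < n := by have := nn_pos h0 m; positivity
  have hnn0 : (n0 : ℝ) ≤ n := hmono 0 m (Nat.zero_le _)
  set S := SS n0 θ m with hS
  have hCA := SS_CA h0 θ m
  have hcur : ∀ i, |θ * ((st n0 m i).1 : ℝ)| ≤ Γ := fun i => by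
    obtain ⟨h1, h2, h3, h4, h5⟩ := inv n0 m i
    have : |(st n0 m i).1| ≤ m := by rw [abs_le]; omega
    rw [abs_mul, abs_of_pos hθ, ← Int.cast_abs]
    exact mul_le_mul_of_nonneg_left (by exact_mod_cast this) hθ.le
  have hlip : ∀ v w, |S w - S v| ≤ Γ * |w - v| := hCA.lip (nn_pos h0 m) hcur
  have hSc : Continuous S := (LipschitzWith.of_dist_le_mul (K := ⟨Γ, hΓ0.le⟩) fun x y => by
    rw [Real.dist_eq, Real.dist_eq]; exact hlip y x).continuous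
  set δ := θ / (n * (20 * Γ)) with hδ
  have hδ0 : 0 < δ := by positivity
  have hδ1 : 20 * Γ * δ = θ / n := by rw [hδ]; field_simp
  have hδ2 : 20 * (n * δ) ≤ 1 := by
    have : 20 * (n * δ) = θ / Γ := by rw [hδ]; field_simp
    rw [this, div_le_one hΓ0]; linarith
  obtain ⟨G, hG, hG1, hG2⟩ := smoothing hSc hδ0
  refine ⟨G, hG, fun w hw => ?_, fun w => ?_, fun w => ?_,
    ⋃ i ∈ Finset.Icc (0 : ℤ) (10 * n), Icc (i / n - 2 * δ) ((i + 1) / n) ×ˢ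
      Icc (θ * (st n0 m i).2.1) (θ * (st n0 m i).2.2),
    (Finset.Icc (0 : ℤ) (10 * n)).isCompact_biUnion fun i _ => isCompact_Icc.prod isCompact_Icc,
    fun v hv1 hv9 => ?_, θ / n, by positivity, fun σ α T φ F hσ hT1 hT2 hT3 => ?_⟩
  · obtain ⟨ξ, a, -, e⟩ := hG1 w
    rw [e]; exact SS_zero _ _ _ (hw.trans a)
  · obtain ⟨ξ, -, -, e⟩ := hG1 w
    have := SS_tail h0 hθ 0 m ξ
    rw [zero_add] at this
    rw [e]
    have h' : |S ξ| ≤ 2 * θ / n0 := by simpa [SS, nn] using this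
    refine le_trans h' ((div_le_iff₀ hn0').2 ?_)
    have := (div_le_iff₀ hη).1 ((le_max_left _ _).trans hn0)
    linarith
  · obtain ⟨ξ, -, -, e⟩ := hG2 w
    rw [e, abs_div, abs_of_pos hδ0, div_le_iff₀ hδ0]
    have := hlip ξ (ξ + δ)
    rwa [add_sub_cancel_left, abs_of_pos hδ0] at this
  · set i := ⌊(n : ℝ) * v⌋ with hi
    have f1 : (i : ℝ) ≤ n * v := Int.floor_le _
    have f2 : n * v < (i : ℝ) + 1 := Int.lt_floor_add_one _
    have i0 : 0 ≤ i := Int.floor_nonneg.2 (by positivity)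
    have hn1' : (1 : ℝ) ≤ n := by exact_mod_cast nn_pos h0 m
    have i1 : i + 1 ≤ 10 * (n : ℤ) := by
      have : (i : ℝ) + 1 ≤ 10 * n := by nlinarith
      exact_mod_cast this
    have mem : ∀ σ (k : ℤ), 0 ≤ k → k ≤ 10 * n → (k : ℝ) ≤ n * (v + 2 * δ) → n * v ≤ k + 1 →
        (θ * (st n0 m k).2.1 ≤ σ ∧ σ ≤ θ * (st n0 m k).2.2) →
        (v, σ) ∈ ⋃ i ∈ Finset.Icc (0 : ℤ) (10 * n), Icc (i / n - 2 * δ) ((i + 1) / (n : ℝ)) ×ˢ
          Icc (θ * (st n0 m i).2.1) (θ * (st n0 m i).2.2) := by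
      intro σ k k0 k1 k2 k3 k4
      simp only [mem_iUnion, Finset.mem_Icc]
      refine ⟨k, ⟨k0, k1⟩, ⟨?_, ?_⟩, k4⟩
      · rw [sub_le_iff_le_add, div_le_iff₀ hnp]; linarith
      · rw [le_div_iff₀ hnp]; linarith
    have rng' : ∀ k, θ * ((st n0 m k).2.1 : ℝ) ≤ 0 ∧ 0 ≤ θ * ((st n0 m k).2.2 : ℝ) ∧
        θ * ((st n0 m k).2.1 : ℝ) ≤ θ * (st n0 m k).1 ∧
        θ * ((st n0 m k).1 : ℝ) ≤ θ * (st n0 m k).2.2 := fun k => by
      obtain ⟨h1, h2, h3, h4, h5⟩ := inv n0 m k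
      refine ⟨mul_nonpos_of_nonneg_of_nonpos hθ.le (by exact_mod_cast h1),
        mul_nonneg hθ.le (by exact_mod_cast h2), ?_, ?_⟩ <;>
      refine mul_le_mul_of_nonneg_left ?_ hθ.le <;> norm_cast <;> omega
    have hw : θ * ((st n0 m i).2.2 : ℝ) - θ * (st n0 m i).2.1 = Γ := by
      obtain ⟨h1, h2, h3, h4, h5⟩ := inv n0 m i
      have := h5 (by omega)
      rw [← mul_sub, hΓ]; congr 1; exact_mod_cast this
    obtain ⟨ξ, x1, x2, e⟩ := hG2 v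
    have g1 : i ≤ ⌊(n : ℝ) * ξ⌋ := Int.floor_le_floor (by gcongr)
    have g2 : ⌊(n : ℝ) * (ξ + δ)⌋ ≤ i + 1 := by
      rw [Int.floor_le_iff]; push_cast; nlinarith
    have key : ∀ σ, (0 ≤ σ ∧ σ ≤ deriv G v) ∨ (σ ≤ 0 ∧ deriv G v ≤ σ) →
        (v, σ) ∈ ⋃ i ∈ Finset.Icc (0 : ℤ) (10 * n), Icc (i / n - 2 * δ) ((i + 1) / (n : ℝ)) ×ˢ
          Icc (θ * (st n0 m i).2.1) (θ * (st n0 m i).2.2) := by
      intro σ hσ
      by_contra hc
      have c1 : ∀ k, ⌊(n : ℝ) * ξ⌋ ≤ k → k ≤ ⌊(n : ℝ) * (ξ + δ)⌋ →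
          ¬ (θ * (st n0 m k).2.1 ≤ σ ∧ σ ≤ θ * (st n0 m k).2.2) := by
        intro k k1 k2 k3
        refine hc (mem σ k (by omega) (by omega) ?_ ?_ k3)
        · have : (k : ℝ) ≤ ⌊(n : ℝ) * (ξ + δ)⌋ := by exact_mod_cast k2
          have := this.trans (Int.floor_le _)
          nlinarith
        · have : (i : ℝ) ≤ k := by exact_mod_cast g1.trans k1
          linarith
      have hfin : ∀ k, ⌊(n : ℝ) * ξ⌋ ≤ k → k ≤ ⌊(n : ℝ) * (ξ + δ)⌋ → k = ⌊(n : ℝ) * ξ⌋ ∨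
          k = ⌊(n : ℝ) * (ξ + δ)⌋ := fun k k1 k2 => by omega
      have hle : ⌊(n : ℝ) * ξ⌋ ≤ ⌊(n : ℝ) * (ξ + δ)⌋ := Int.floor_le_floor (by gcongr; linarith)
      have c2 := c1 _ le_rfl hle
      have c3 := c1 _ hle le_rfl
      have r2 := rng' ⌊(n : ℝ) * ξ⌋
      have r3 := rng' ⌊(n : ℝ) * (ξ + δ)⌋
      have hb := hCA.bd (nn_pos h0 m) (v := ξ) (w := ξ + δ)
        (lo := min (θ * (st n0 m ⌊(n : ℝ) * ξ⌋).1) (θ * (st n0 m ⌊(n : ℝ) * (ξ + δ)⌋).1))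
        (hi := max (θ * (st n0 m ⌊(n : ℝ) * ξ⌋).1) (θ * (st n0 m ⌊(n : ℝ) * (ξ + δ)⌋).1))
        (by linarith) fun k k1 k2 => by
          rcases hfin k k1 k2 with rfl | rfl
          · exact ⟨min_le_left _ _, le_max_left _ _⟩
          · exact ⟨min_le_right _ _, le_max_right _ _⟩
      rw [add_sub_cancel_left, ← le_div_iff₀ hδ0, ← div_le_iff₀ hδ0, ← e, min_le_iff,
        le_max_iff] at hb
      rw [not_and_or, not_le, not_le] at c2 c3
      rcases hσ with hσ | hσ <;> rcases hb with ⟨b1 | b1, b2 | b2⟩ <;> rcases c2 with c2 | c2 <;>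
        rcases c3 with c3 | c3 <;>
        linarith [hσ.1, hσ.2, r2.1, r2.2.1, r2.2.2.1, r2.2.2.2, r3.1, r3.2.1, r3.2.2.1, r3.2.2.2]
    have r := rng' i
    have mi := fun σ => mem σ i i0 (by omega) (by nlinarith) f2.le
    by_cases hh : Λ ≤ θ * ((st n0 m i).2.2 : ℝ)
    · refine ⟨1, Or.inl rfl, fun σ hσ h => ?_⟩
      rw [abs_le] at hσ
      by_cases hs : 0 ≤ σ
      · exact mi σ ⟨by linarith [r.1], by linarith [hσ.2]⟩
      · exact key σ (Or.inr ⟨by linarith, by rcases h with h | h <;> linarith⟩)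
    · refine ⟨-1, Or.inr rfl, fun σ hσ h => ?_⟩
      rw [abs_le] at hσ
      by_cases hs : σ ≤ 0
      · exact mi σ ⟨by linarith [hσ.1], by linarith [r.2.1]⟩
      · exact key σ (Or.inl ⟨by linarith, by rcases h with h | h <;> linarith⟩)
  · let near : ℤ → Prop := fun z => |θ * z - σ| ≤ 2 * θ
    let Y : ℝ → Set ℝ := fun w => F '' {t | t ∈ T ∧ |φ t - w| ≤ 2 * δ ∧
      ∃ z, (st n0 m ⌊(n : ℝ) * w⌋).2.1 ≤ z ∧ z ≤ (st n0 m ⌊(n : ℝ) * w⌋).2.2 ∧ near z}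
    have hGS : ∀ v w, |v - w| ≤ 2 * δ → |G v - S w| ≤ 4 * Γ * δ := fun v w hvw => by
      obtain ⟨ξ, a, b, e⟩ := hG1 v
      rw [e]
      refine (hlip w ξ).trans ?_
      have : |ξ - w| ≤ 4 * δ := by
        rw [abs_le] at hvw ⊢; constructor <;> linarith [hvw.1, hvw.2]
      nlinarith
    have hD := down n0 m (9 * θ) (by positivity) h0 near Y
      (by rintro w ⟨_, t, ⟨-, -, h⟩, -⟩; exact h) (by
        intro j hj i hi
        refine (Real.volume_le_diam _).trans (Metric.ediam_le_of_forall_dist_le ?_)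
        intro y hy y' hy'
        simp only [mem_iUnion] at hy hy'
        obtain ⟨w, hw, t, ⟨t1, t2, -⟩, rfl⟩ := hy
        obtain ⟨w', hw', t', ⟨t1', t2', -⟩, rfl⟩ := hy'
        have e : ⌊(nn n0 j : ℝ) * w⌋ = i := hw
        have e' : ⌊(nn n0 j : ℝ) * w'⌋ = i := hw'
        have hN : (0 : ℝ) < nn n0 j := by have := nn_pos h0 j; positivity
        have p1 := e ▸ Int.floor_le ((nn n0 j : ℝ) * w)
        have p2 := e ▸ Int.lt_floor_add_one ((nn n0 j : ℝ) * w)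
        have p3 := e' ▸ Int.floor_le ((nn n0 j : ℝ) * w')
        have p4 := e' ▸ Int.lt_floor_add_one ((nn n0 j : ℝ) * w')
        have q1 := SS_CA h0 θ j i w' w p3 p4.le p1 p2.le
        have q2 := SS_tail h0 hθ j (m - j) w
        have q3 := SS_tail h0 hθ j (m - j) w'
        rw [Nat.add_sub_cancel' hj] at q2 q3
        have q4 := hGS _ _ t2
        have q5 := hGS _ _ t2'
        have q6 := hT3 t t1 t' t1'
        have q7 : |w - w'| ≤ 1 / nn n0 j := by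
          rw [le_div_iff₀ hN, ← abs_of_pos hN, ← abs_mul, abs_le]; constructor <;> linarith
        have q8 : |(θ * (st n0 j i).1 - σ) * (w - w')| ≤ 2 * θ * (1 / nn n0 j) := by
          rw [abs_mul]; exact mul_le_mul hi q7 (abs_nonneg _) (by positivity)
        have q9 : |φ t - φ t' - (w - w')| ≤ 4 * δ := by
          rw [abs_le] at t2 t2' ⊢; constructor <;> linarith [t2.1, t2.2, t2'.1, t2'.2]
        have q10 : |σ * (φ t - φ t' - (w - w'))| ≤ Γ * (4 * δ) := by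
          rw [abs_mul]; exact mul_le_mul (by linarith) q9 (abs_nonneg _) hΓ0.le
        have q11 : θ * |φ t - φ t'| ≤ θ * (1 / nn n0 j) + Γ * (4 * δ) := by
          have : |φ t - φ t'| ≤ 1 / nn n0 j + 4 * δ := by
            rw [abs_le] at q7 q9 ⊢; constructor <;> linarith [q7.1, q7.2, q9.1, q9.2]
          nlinarith
        have q12 : θ / n ≤ θ * (1 / nn n0 j) := by
          rw [mul_one_div]; exact div_le_div_of_nonneg_left hθ.le hN (hmono j m hj)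
        have q13 : 2 * θ / nn n0 j = 2 * (θ * (1 / nn n0 j)) := by ring
        have q14 : 9 * θ / nn n0 j = 9 * (θ * (1 / nn n0 j)) := by ring
        have q15 : 0 < Γ * δ := by positivity
        rw [Real.dist_eq, q14]
        rw [q13, ← hS] at q2 q3
        simp only at q1
        rw [abs_le] at q2 q3 q4 q5 q6 q8 q10 ⊢
        constructor <;> linarith [q2.1, q2.2, q3.1, q3.2, q4.1, q4.2, q5.1, q5.2, q6.1, q6.2,
          q8.1, q8.2, q10.1, q10.2]) m 0 (zero_add m)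
    have hsub : F '' T ⊆ ⋃ i ∈ Finset.Icc ⌊(n0 : ℝ) * (α - 2 * δ)⌋ ⌊(n0 : ℝ) * (α + ρ + 2 * δ)⌋,
        ⋃ w ∈ {w : ℝ | ⌊(nn n0 0 : ℝ) * w⌋ = i}, Y w := by
      rintro _ ⟨t, ht, rfl⟩
      obtain ⟨σ', h1, h2⟩ := hT2 t ht
      simp only [mem_iUnion, Finset.mem_Icc] at h1 ⊢
      obtain ⟨i, -, ⟨a1, a2⟩, b1, b2⟩ := h1
      simp only at a1 a2 b1 b2
      have hlt : (i : ℝ) / n < (i + 1) / n := by gcongr; linarith
      let w := max ((i : ℝ) / n) (φ t - 2 * δ)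
      have w1 : |φ t - w| ≤ 2 * δ := by
        rw [abs_le]; constructor
        · have : w ≤ φ t + 2 * δ := max_le (by linarith) (by linarith)
          linarith
        · have : φ t - 2 * δ ≤ w := le_max_right _ _
          linarith
      have w2 : ⌊(n : ℝ) * w⌋ = i := by
        have x1 : (i : ℝ) / n ≤ w := le_max_left _ _
        have x2 : w < (i + 1) / n := max_lt hlt (by linarith)
        rw [div_le_iff₀ hnp] at x1
        rw [lt_div_iff₀ hnp] at x2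
        exact Int.floor_eq_iff.2 ⟨by linarith, by linarith⟩
      have hp := hT1 t ht
      rw [abs_le] at w1
      refine ⟨⌊(n0 : ℝ) * w⌋, ⟨Int.floor_le_floor (by gcongr; linarith [hp.1, w1.2]),
        Int.floor_le_floor (by gcongr; linarith [hp.2, w1.1])⟩, w, rfl, t,
        ⟨ht, abs_le.2 w1, ⌊σ' / θ⌋, ?_, ?_, ?_⟩, rfl⟩
      · rw [w2, Int.le_floor, le_div_iff₀ hθ]; linarith
      · rw [w2, Int.floor_le_iff, div_lt_iff₀ hθ]; linarith
      · have x1 := Int.floor_le (σ' / θ)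
        have x2 := Int.lt_floor_add_one (σ' / θ)
        rw [le_div_iff₀ hθ] at x1
        rw [div_lt_iff₀ hθ] at x2
        rw [abs_le] at h2
        exact abs_le.2 ⟨by linarith [h2.1], by linarith [h2.2]⟩
    refine (measure_mono hsub).trans ((measure_biUnion_finset_le _ _).trans ?_)
    refine (Finset.sum_le_card_nsmul _ _ (ENNReal.ofReal (9 * θ / nn n0 0)) fun i _ => hD i ?_).trans ?_
    · by_cases hz : near 0
      · exact Or.inr hz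
      · left; intro z z1 z2
        obtain rfl : z = 0 := le_antisymm z2 z1
        exact hz
    · rw [nsmul_eq_mul, ← ENNReal.ofReal_natCast, ← ENNReal.ofReal_mul (by positivity)]
      apply ENNReal.ofReal_le_ofReal
      have c1 := Int.floor_le ((n0 : ℝ) * (α + ρ + 2 * δ))
      have c2 := Int.lt_floor_add_one ((n0 : ℝ) * (α - 2 * δ))
      have c3 : ⌊(n0 : ℝ) * (α - 2 * δ)⌋ ≤ ⌊(n0 : ℝ) * (α + ρ + 2 * δ)⌋ + 1 :=
        (Int.floor_le_floor (by gcongr; linarith)).trans (Int.le_add_one le_rfl)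
      have c4 := Int.card_Icc_of_le _ _ c3
      have c5 : ((Finset.Icc ⌊(n0 : ℝ) * (α - 2 * δ)⌋ ⌊(n0 : ℝ) * (α + ρ + 2 * δ)⌋).card : ℝ) =
          ⌊(n0 : ℝ) * (α + ρ + 2 * δ)⌋ + 1 - ⌊(n0 : ℝ) * (α - 2 * δ)⌋ := by exact_mod_cast c4
      have c6 : 1 ≤ n0 * ρ := by rwa [div_le_iff₀ hρ] at hn1
      have c7 : n0 * δ ≤ n * δ := by gcongr
      have c8 : ((Finset.Icc ⌊(n0 : ℝ) * (α - 2 * δ)⌋ ⌊(n0 : ℝ) * (α + ρ + 2 * δ)⌋).card : ℝ) ≤
          5 * (n0 * ρ) := by rw [c5]; nlinarith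
      refine (mul_le_mul_of_nonneg_right c8 (by positivity)).trans (le_of_eq ?_)
      rw [nn]; field_simp; ring

end Pool.Agent.H92.CR
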