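import Pool.Agent.H92.CR1

namespace Pool.Agent.H92.CR
open MeasureTheory Set Filter Topology Real

noncomputable def x (θ p s : ℝ) : ℂ := (p + s * Complex.I) * Complex.exp (θ * Complex.I)

lemma norm_x (θ p s : ℝ) : ‖x θ p s‖ ^ 2 = p ^ 2 + s ^ 2 := by
  rw [x, norm_mul, Complex.norm_exp_ofReal_mul_I, mul_one, Complex.sq_norm, Complex.normSq_add_mul_I]

lemma le_x (θ p s : ℝ) : |s| ≤ ‖x θ p s‖ := by
  apply abs_le_of_sq_le_sq' _ (norm_nonneg _) |> fun h => abs_le.2 h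
  rw [norm_x]; nlinarith [sq_nonneg p]

lemma x_cd : ContDiff ℝ 1 (fun q : (ℝ × ℝ) × ℝ => x q.1.1 q.1.2 q.2) := by
  unfold x
  have h : ContDiff ℝ 1 (fun r : ℝ => (r : ℂ)) := Complex.ofRealCLM.contDiff
  exact ((h.comp (by fun_prop)).add ((h.comp (by fun_prop)).mul contDiff_const)).mul
    (Complex.contDiff_exp.comp ((h.comp (by fun_prop)).mul contDiff_const))

lemma x_cont (θ p : ℝ) : Continuous (x θ p) := by unfold x; fun_prop

lemma x_d (θ p s : ℝ) : HasDerivAt (x θ p) (Complex.I * Complex.exp (θ * Complex.I)) s := by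
  unfold x
  simpa using ((((hasDerivAt_id s).ofReal_comp).mul_const Complex.I).const_add (p : ℂ)).mul_const
    (Complex.exp (θ * Complex.I))

noncomputable def X (u : ℂ → ℝ) (θ p : ℝ) : ℝ := ∫ s, u (x θ p s)

def Dm (u : ℂ → ℝ) : Prop := Continuous u ∧ ∃ C, ∀ z, |u z| ≤ C * exp (-‖z‖ ^ 2)

lemma Dm.int {u} (h : Dm u) (θ p : ℝ) : Integrable fun s => u (x θ p s) := by
  obtain ⟨hc, C, hC⟩ := h
  have h0 : 0 ≤ C := by
    have := (abs_nonneg _).trans (hC 0)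
    simpa using this
  refine ((integrable_exp_neg_mul_sq one_pos).const_mul C).mono'
    (hc.comp (x_cont θ p)).aestronglyMeasurable (Eventually.of_forall fun s => (hC _).trans ?_)
  rw [norm_x]; gcongr; nlinarith [sq_nonneg p]

lemma Dm.mul {u ψ : ℂ → ℝ} (h : Dm u) (hψ : Continuous ψ) {B : ℝ} (hB : ∀ z, |ψ z| ≤ B) :
    Dm fun z => ψ z * u z := by
  obtain ⟨hc, C, hC⟩ := h
  refine ⟨hψ.mul hc, B * C, fun z => ?_⟩
  rw [abs_mul, mul_assoc]
  exact mul_le_mul (hB z) (hC z) (abs_nonneg _) ((abs_nonneg _).trans (hB z))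

lemma Dm.sub {u v : ℂ → ℝ} (h : Dm u) (h' : Dm v) : Dm fun z => u z - v z := by
  obtain ⟨hc, C, hC⟩ := h
  obtain ⟨hc', C', hC'⟩ := h'
  exact ⟨hc.sub hc', C + C', fun z => (abs_sub _ _).trans (by linarith [hC z, hC' z])⟩

lemma Dm.add {u v : ℂ → ℝ} (h : Dm u) (h' : Dm v) : Dm fun z => u z + v z := by
  obtain ⟨hc, C, hC⟩ := h
  obtain ⟨hc', C', hC'⟩ := h'
  exact ⟨hc.add hc', C + C', fun z => (abs_add_le _ _).trans (by linarith [hC z, hC' z])⟩

lemma Dm.smul {u : ℂ → ℝ} (h : Dm u) (c : ℝ) : Dm fun z => c * u z :=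
  h.mul continuous_const fun _ => le_rfl

lemma X_add {u v : ℂ → ℝ} (h : Dm u) (h' : Dm v) (θ p : ℝ) :
    X (fun z => u z + v z) θ p = X u θ p + X v θ p := integral_add (h.int θ p) (h'.int θ p)

lemma X_sub {u v : ℂ → ℝ} (h : Dm u) (h' : Dm v) (θ p : ℝ) :
    X (fun z => u z - v z) θ p = X u θ p - X v θ p := integral_sub (h.int θ p) (h'.int θ p)

lemma X_smul (u : ℂ → ℝ) (c θ p : ℝ) : X (fun z => c * u z) θ p = c * X u θ p :=
  integral_const_mul _ _

lemma X_le {u v : ℂ → ℝ} (h : Dm u) (h' : Dm v) (hle : ∀ z, u z ≤ v z) (θ p : ℝ) :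
    X u θ p ≤ X v θ p := integral_mono (h.int θ p) (h'.int θ p) fun _ => hle _

lemma X_abs (u : ℂ → ℝ) (θ p : ℝ) : |X u θ p| ≤ X (fun z => |u z|) θ p :=
  abs_integral_le_integral_abs

lemma Dm.abs {u : ℂ → ℝ} (h : Dm u) : Dm fun z => |u z| :=
  ⟨h.1.abs, by simpa only [abs_abs] using h.2⟩

lemma one_le_g {R : ℝ} {z : ℂ} (h : ‖z‖ ≤ R) : 1 ≤ exp (R ^ 2) * exp (-‖z‖ ^ 2) := by
  rw [← exp_add]; apply one_le_exp; nlinarith [norm_nonneg z]

lemma cs_bd {E : Type} [NormedAddCommGroup E] {u : ℂ → E} (hu : Continuous u) {R : ℝ}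
    (h : ∀ z, R ≤ ‖z‖ → u z = 0) : ∃ B, 0 < B ∧ ∀ z, ‖u z‖ ≤ B := by
  obtain ⟨B, hB⟩ := (isCompact_closedBall (0 : ℂ) R).exists_bound_of_continuousOn hu.continuousOn
  refine ⟨max B 1, by positivity, fun z => ?_⟩
  by_cases hz : R ≤ ‖z‖
  · rw [h z hz, norm_zero]; positivity
  · exact (hB z (mem_closedBall_zero_iff.2 (not_le.1 hz).le)).trans (le_max_left _ _)

lemma Dm.of_cs {u : ℂ → ℝ} (hu : Continuous u) {R : ℝ} (h : ∀ z, R ≤ ‖z‖ → u z = 0) : Dm u := by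
  obtain ⟨B, hB0, hB⟩ := cs_bd hu h
  refine ⟨hu, B * exp (R ^ 2), fun z => ?_⟩
  by_cases hz : R ≤ ‖z‖
  · rw [h z hz, abs_zero]; positivity
  · have := one_le_g (not_le.1 hz).le
    have h2 : |u z| ≤ B := hB z
    nlinarith

noncomputable def h0 (z : ℂ) : ℝ := exp (-‖z‖ ^ 2) / 2

lemma dm_g : Dm fun z => exp (-‖z‖ ^ 2) :=
  ⟨by fun_prop, 1, fun z => by rw [abs_of_pos (exp_pos _), one_mul]⟩

lemma X_g (θ p : ℝ) : X (fun z => exp (-‖z‖ ^ 2)) θ p = √π * exp (-p ^ 2) := by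
  have : ∀ s, exp (-‖x θ p s‖ ^ 2) = exp (-p ^ 2) * exp (-1 * s ^ 2) := fun s => by
    rw [norm_x, ← exp_add]; congr 1; ring
  simp only [X, this]
  rw [integral_const_mul, integral_gaussian, div_one, mul_comm]

lemma sqpi : √π ≤ 2 := Real.sqrt_le_iff.2 ⟨by norm_num, by linarith [pi_le_four]⟩

lemma X_g_le (θ p : ℝ) : X (fun z => exp (-‖z‖ ^ 2)) θ p ≤ 2 := by
  rw [X_g]
  have : exp (-p ^ 2) ≤ 1 := exp_le_one_iff.2 (by nlinarith [sq_nonneg p])
  nlinarith [sqpi, sqrt_nonneg π, exp_pos (-p ^ 2)]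

structure Cl (h : ℂ → ℝ) (R : ℝ) : Prop where
  cd : ContDiff ℝ 1 h
  pos : ∀ z, 0 < h z
  lt : ∀ z, h z < 1
  out : ∀ z, R ≤ ‖z‖ → h z = h0 z

lemma nsq_cd : ContDiff ℝ 1 fun z : ℂ => ‖z‖ ^ 2 := contDiff_norm_sq ℝ

lemma h0_cl (R : ℝ) : Cl h0 R := by
  refine ⟨(contDiff_exp.comp nsq_cd.neg).div_const 2, fun z => by unfold h0; positivity,
    fun z => ?_, fun _ _ => rfl⟩
  have : exp (-‖z‖ ^ 2) ≤ 1 := exp_le_one_iff.2 (by nlinarith [sq_nonneg ‖z‖])
  unfold h0; linarith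

lemma Cl.mono {h R R'} (H : Cl h R) (hR : R ≤ R') : Cl h R' :=
  ⟨H.cd, H.pos, H.lt, fun z hz => H.out z (hR.trans hz)⟩

lemma Cl.le {h R} (H : Cl h R) (z : ℂ) : h z ≤ exp (R ^ 2) * exp (-‖z‖ ^ 2) := by
  by_cases hz : R ≤ ‖z‖
  · rw [H.out z hz, h0]
    nlinarith [one_le_exp (sq_nonneg R), exp_pos (-‖z‖ ^ 2)]
  · exact (H.lt z).le.trans (one_le_g (not_le.1 hz).le)

lemma Cl.dm {h R} (H : Cl h R) : Dm h :=
  ⟨H.cd.continuous, exp (R ^ 2), fun z => by rw [abs_of_pos (H.pos z)]; exact H.le z⟩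

lemma Cl.abs {h R} (H : Cl h R) (z : ℂ) : |h z| ≤ 1 := by
  rw [abs_of_pos (H.pos z)]; exact (H.lt z).le

lemma Cl.abs' {h R} (H : Cl h R) (z : ℂ) : |1 - h z| ≤ 1 := by
  rw [abs_of_pos (by linarith [H.lt z])]; linarith [H.pos z]

lemma Cl.X_cd {h R} (H : Cl h R) : ContDiff ℝ 1 fun q : ℝ × ℝ => X h q.1 q.2 := by
  have e : (fun q : ℝ × ℝ => X h q.1 q.2) = fun q => (∫ s, (h (x q.1 q.2 s) - h0 (x q.1 q.2 s))) +
      √π * exp (-q.2 ^ 2) / 2 := by
    funext q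
    rw [integral_sub (H.dm.int _ _) ((h0_cl 0).dm.int _ _), ← X_g q.1]
    simp only [h0, integral_div, X]; ring
  rw [e]
  refine ContDiff.add ?_ (by fun_prop)
  rw [← contDiffOn_univ]
  exact par_cd (g := fun (q : ℝ × ℝ) s => h (x q.1 q.2 s) - h0 (x q.1 q.2 s)) isOpen_univ (R := R)
    ((H.cd.sub (h0_cl 0).cd).comp x_cd) fun q _ s hs => by
      rw [H.out _ (hs.trans (le_x _ _ _)), sub_self]

lemma osc {a : ℂ → ℝ} (ha : ContDiff ℝ 1 a) {R : ℝ} (hR : 0 ≤ R) (h : ∀ z, R ≤ ‖z‖ → a z = 0)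
    {ε : ℝ} (hε : 0 < ε) :
    ∀ᶠ N : ℝ in atTop, ∀ θ p, |X (fun z => a z * cos (N * ‖z‖ ^ 2)) θ p| ≤ ε := by
  have hf : ∀ z, R + 1 ≤ ‖z‖ → fderiv ℝ a z = 0 := fun z hz => by
    have : a =ᶠ[𝓝 z] fun _ => 0 := by
      filter_upwards [(isOpen_lt continuous_const continuous_norm).mem_nhds
        (show R < ‖z‖ by linarith)] with y hy using h y (le_of_lt hy)
    rw [this.fderiv_eq]; simp
  have hfc : Continuous (fderiv ℝ a) := ha.continuous_fderiv (by simp)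
  obtain ⟨Γ, hΓ0, hΓ⟩ := cs_bd ha.continuous h
  obtain ⟨B, hB0, hB⟩ := cs_bd hfc hf
  have hπ := pi_pos
  set k := ε / (2 * Γ * π) with hk
  have hk0 : 0 < k := by positivity
  have ht : Tendsto (fun N : ℝ => (B * (R + 1) / 2 + Γ / 2) * (π / k) / N) atTop (𝓝 0) :=
    tendsto_const_nhds.div_atTop tendsto_id
  filter_upwards [ht.eventually (ge_mem_nhds (half_pos hε)), eventually_gt_atTop 0] with N hN hN0 θ p
  have hI : ‖Complex.I * Complex.exp (θ * Complex.I)‖ = 1 := by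
    rw [norm_mul, Complex.norm_exp_ofReal_mul_I]; simp
  have hxc := x_cont θ p
  have hac := ha.continuous
  have := ibp (u := fun s => a (x θ p s) * cos (N * (p ^ 2 + s ^ 2)))
    (U := fun s => a (x θ p s) * (sin (N * (p ^ 2 + s ^ 2)) / N))
    (e := fun s => fderiv ℝ a (x θ p s) (Complex.I * Complex.exp (θ * Complex.I)) *
      (sin (N * (p ^ 2 + s ^ 2)) / N)) (R := R + 1) (Γ := Γ) (A := Γ / N) (B := B / N) hk0
    (fun s => by
      have h1 := ((ha.differentiable (by simp) (x θ p s)).hasFDerivAt.comp_hasDerivAt s (x_d θ p s)).mul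
        (((((hasDerivAt_pow 2 s).const_add (p ^ 2)).const_mul N).sin).div_const N)
      refine h1.congr_deriv ?_
      simp only [Function.comp]; push_cast; field_simp; ring)
    (by fun_prop) (by fun_prop)
    (fun s hs => by
      have h1 := hs.trans (le_x θ p s)
      simp [h _ (by linarith : R ≤ ‖x θ p s‖), hf _ h1])
    (fun s => by
      rw [abs_mul]
      exact (mul_le_mul (hΓ _) (abs_cos_le_one _) (abs_nonneg _) hΓ0.le).trans_eq (mul_one _))
    (fun s => by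
      rw [abs_mul, abs_div, abs_of_pos hN0, mul_div_assoc']
      gcongr
      exact (mul_le_mul (hΓ _) (abs_sin_le_one _) (abs_nonneg _) hΓ0.le).trans_eq (mul_one _))
    (fun s => by
      rw [abs_mul, abs_div, abs_of_pos hN0, mul_div_assoc']
      gcongr
      refine (mul_le_mul ?_ (abs_sin_le_one _) (abs_nonneg _) hB0.le).trans_eq (mul_one _)
      refine ((fderiv ℝ a (x θ p s)).le_opNorm _).trans ?_
      rw [hI, mul_one]; exact hB _) (by linarith)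
  simp only [X, norm_x]
  refine this.trans ?_
  have e : (B / N * (R + 1) / 2 + Γ / N / 2 + Γ * k ^ 2) * (π / k) =
      (B * (R + 1) / 2 + Γ / 2) * (π / k) / N + ε / 2 := by
    rw [hk]; field_simp
  linarith

noncomputable def D (g : ℂ → ℝ) (θ p : ℝ) : ℝ := X (fun z => (1 - g z) * g z) θ p

lemma Cl.dmD {g R} (H : Cl g R) : Dm fun z => (1 - g z) * g z :=
  H.dm.mul (continuous_const.sub H.cd.continuous) H.abs'

lemma dstep {g χ ψ₁ ψ₂ : ℂ → ℝ} {R : ℝ} (hR : 0 ≤ R) (H : Cl g R) (hχ : ContDiff ℝ 1 χ)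
    (hχ1 : ∀ z, |χ z| ≤ 1) (hχ0 : ∀ z, R ≤ ‖z‖ → χ z = 0) (h1 : ContDiff ℝ 1 ψ₁)
    (h2 : ContDiff ℝ 1 ψ₂) {δ : ℝ} (hδ : 0 < δ) : ∃ g', Cl g' R ∧ ∀ θ p,
      |X (fun z => g' z - g z) θ p| ≤ δ ∧ |X (fun z => ψ₁ z * (g' z - g z)) θ p| ≤ δ ∧
      |X (fun z => ψ₂ z * (g' z - g z)) θ p| ≤ δ ∧
      D g' θ p ≤ D g θ p - X (fun z => (χ z * ((1 - g z) * g z)) ^ 2) θ p / 2 + δ := by
  set a : ℂ → ℝ := fun z => χ z * ((1 - g z) * g z) with hadef
  have ha : ContDiff ℝ 1 a := hχ.mul ((contDiff_const.sub H.cd).mul H.cd)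
  have ha0 : ∀ z, R ≤ ‖z‖ → a z = 0 := fun z hz => by simp [a, hχ0 z hz]
  have hb : ContDiff ℝ 1 fun z => (1 - 2 * g z) * a z :=
    (contDiff_const.sub (contDiff_const.mul H.cd)).mul ha
  obtain ⟨N, ⟨⟨⟨n1, n2⟩, n3⟩, n4⟩, n5⟩ := (((((osc ha hR ha0 hδ).and
    (osc (h1.mul ha) hR (fun z hz => by simp [ha0 z hz]) hδ)).and
    (osc (h2.mul ha) hR (fun z hz => by simp [ha0 z hz]) hδ)).and
    (osc hb hR (fun z hz => by simp [ha0 z hz]) (half_pos hδ))).and
    ((tendsto_id.const_mul_atTop two_pos).eventually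
      (osc (ha.pow 2) hR (fun z hz => by simp [ha0 z hz]) hδ))).exists
  have hc : ∀ M : ℝ, ContDiff ℝ 1 fun z : ℂ => cos (M * ‖z‖ ^ 2) := fun M =>
    contDiff_cos.comp (contDiff_const.mul nsq_cd)
  have hab : ∀ z, |a z * cos (N * ‖z‖ ^ 2)| ≤ (1 - g z) * g z := fun z => by
    have p := mul_pos (sub_pos.2 (H.lt z)) (H.pos z)
    rw [abs_mul, hadef, abs_mul, abs_of_pos p]
    calc _ ≤ 1 * ((1 - g z) * g z) * 1 := by gcongr; exacts [hχ1 z, abs_cos_le_one _]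
      _ = _ := by ring
  refine ⟨fun z => g z + a z * cos (N * ‖z‖ ^ 2), ⟨H.cd.add (ha.mul (hc N)), fun z => ?_, fun z => ?_,
    fun z hz => by rw [ha0 z hz, H.out z hz]; simp⟩, fun θ p => ⟨?_, ?_, ?_, ?_⟩⟩
  · nlinarith [abs_le.1 (hab z), H.pos z, H.lt z]
  · nlinarith [abs_le.1 (hab z), H.pos z, H.lt z]
  · simpa using n1 θ p
  · simpa [mul_assoc] using n2 θ p
  · simpa [mul_assoc] using n3 θ p
  · have i1 := H.dmD
    have i2 : Dm fun z => (1 - 2 * g z) * a z * cos (N * ‖z‖ ^ 2) :=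
      Dm.of_cs (hb.mul (hc N)).continuous (R := R) fun z hz => by simp [ha0 z hz]
    have i3 : Dm fun z => a z ^ 2 :=
      Dm.of_cs (ha.pow 2).continuous (R := R) fun z hz => by simp [ha0 z hz]
    have i4 : Dm fun z => a z ^ 2 * cos (2 * N * ‖z‖ ^ 2) :=
      Dm.of_cs ((ha.pow 2).mul (hc (2 * N))).continuous (R := R) fun z hz => by simp [ha0 z hz]
    have e : D (fun z => g z + a z * cos (N * ‖z‖ ^ 2)) θ p = D g θ p +
        X (fun z => (1 - 2 * g z) * a z * cos (N * ‖z‖ ^ 2)) θ p -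
        (1 / 2) * (X (fun z => a z ^ 2) θ p +
        X (fun z => a z ^ 2 * cos (2 * N * ‖z‖ ^ 2)) θ p) := by
      rw [D, D, ← X_add i1 i2, ← X_add i3 i4, ← X_smul, ← X_sub (i1.add i2) ((i3.add i4).smul _)]
      congr 1; funext z
      rw [mul_assoc 2 N, cos_two_mul]; ring
    have := abs_le.1 (n4 θ p)
    have := abs_le.1 (n5 θ p)
    simp only [id] at this
    rw [e]; linarith

lemma tail {h χ : ℂ → ℝ} {R : ℝ} (hR : 2 ≤ R) (H : Cl h R) (hχ : Continuous χ)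
    (h0' : ∀ z, 0 ≤ χ z) (h1' : ∀ z, χ z ≤ 1) (h1 : ∀ z, ‖z‖ ≤ R → χ z = 1) (θ p : ℝ) :
    X (fun z => (1 - χ z) * h z) θ p ≤ 2 * exp (-R) := by
  have hd : Dm fun z => (1 - χ z) * h z := H.dm.mul (continuous_const.sub hχ) (B := 1)
    fun z => abs_le.2 ⟨by linarith [h1' z], by linarith [h0' z]⟩
  have : X (fun z => (1 - χ z) * h z) θ p ≤ ∫ s : ℝ, exp (-R) / 2 * exp (-(1 / 2) * s ^ 2) := by
    refine integral_mono (hd.int θ p) ((integrable_exp_neg_mul_sq (by norm_num)).const_mul _)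
      fun s => ?_
    simp only
    by_cases hz : ‖x θ p s‖ ≤ R
    · rw [h1 _ hz, sub_self, zero_mul]; positivity
    · have hz' := (not_le.1 hz).le
      rw [H.out _ hz', h0, div_mul_eq_mul_div, ← exp_add]
      have e : exp (-‖x θ p s‖ ^ 2) ≤ exp (-R + -(1 / 2) * s ^ 2) := by
        apply exp_le_exp.2
        have := norm_x θ p s
        nlinarith [sq_nonneg p]
      nlinarith [h0' (x θ p s), exp_pos (-‖x θ p s‖ ^ 2)]
  rw [integral_const_mul, integral_gaussian] at this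
  have h3 : √(π / (1 / 2)) ≤ 4 := Real.sqrt_le_iff.2 ⟨by norm_num, by linarith [pi_le_four]⟩
  nlinarith [exp_pos (-R)]

theorem dither {h : ℂ → ℝ} {R : ℝ} (hR : 2 ≤ R) (H : Cl h R) {ε : ℝ} (hε : 0 < ε) :
    ∃ g, Cl g (R + 1) ∧ ∀ θ p, |X g θ p - X h θ p| ≤ ε ∧ D g θ p ≤ 2 * exp (-R) + ε ∧
      X (fun z => |g z - h z|) θ p ≤ 2 * D h θ p + 2 * exp (-R) + 4 * ε := by
  let χ : ContDiffBump (0 : ℂ) := ⟨R, R + 1, by linarith, by linarith⟩
  have hχ : ContDiff ℝ 1 χ := χ.contDiff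
  have hχ0 : ∀ z, R + 1 ≤ ‖z‖ → χ z = 0 := fun z hz => χ.zero_of_le_dist (by simpa using hz)
  have hχ1 : ∀ z, |χ z| ≤ 1 := fun z => abs_le.2 ⟨by linarith [χ.nonneg (x := z)], χ.le_one⟩
  have hχ2 : ∀ z, |1 - χ z| ≤ 1 := fun z =>
    abs_le.2 ⟨by linarith [χ.le_one (x := z)], by linarith [χ.nonneg (x := z)]⟩
  have ht := tail hR H hχ.continuous (fun z => χ.nonneg) (fun z => χ.le_one)
    fun z hz => χ.one_of_mem_closedBall (by simpa using hz)
  set τ := 2 * exp (-R) with hτ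
  set C := exp ((R + 1) ^ 2) with hC
  have hC0 : 0 < C := exp_pos _
  set l := min (1 / 2) (ε / (4 * C)) with hl
  have l0 : 0 < l := by positivity
  have l1 : l ≤ 1 / 2 := min_le_left _ _
  have l2 : l * C ≤ ε / 4 := by
    have := mul_le_mul_of_nonneg_right (min_le_right (1 / 2) (ε / (4 * C))) hC0.le
    refine this.trans (le_of_eq ?_); field_simp
  obtain ⟨m, hm⟩ := exists_pow_lt_of_lt_one (by positivity : 0 < ε / (8 * C))
    (by linarith : 1 - l < 1)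
  set δ := min (ε / (4 * (m + 1))) (ε * l / 4) with hδ
  have δ0 : 0 < δ := by positivity
  have δ1 : m * δ ≤ ε / 4 := by
    have := (le_div_iff₀ (by positivity)).1 (min_le_left (ε / (4 * (m + 1))) (ε * l / 4))
    nlinarith
  have δ2 : δ ≤ ε * l / 4 := min_le_right _ _
  have hc := H.cd.continuous
  have key : ∀ j : ℕ, j ≤ m → ∃ g, Cl g (R + 1) ∧ ∀ θ p, |X (fun z => g z - h z) θ p| ≤ j * δ ∧
      |X (fun z => h z * (g z - h z)) θ p| ≤ j * δ ∧
      |X (fun z => (1 - χ z) * (g z - h z)) θ p| ≤ j * δ ∧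
      D g θ p ≤ (1 - l) ^ j * (2 * C) + (τ + 3 * ε / 4) := by
    intro j
    induction j with
    | zero =>
      intro _
      refine ⟨h, H.mono (by linarith), fun θ p => ⟨by simp [X], by simp [X], by simp [X], ?_⟩⟩
      have h1 := X_le H.dmD (dm_g.smul C) (fun z => by
        have := (H.mono (by linarith : R ≤ R + 1)).le z
        nlinarith [H.pos z]) θ p
      rw [X_smul] at h1
      have h2 := X_g_le θ p
      have : 0 < τ := by positivity
      rw [D]; nlinarith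
    | succ j ih =>
      intro hj
      obtain ⟨g, G, hg⟩ := ih (by omega)
      obtain ⟨g', G', hg'⟩ := dstep (by linarith) G hχ hχ1 hχ0 H.cd (contDiff_const.sub hχ : ContDiff ℝ 1 fun z => 1 - χ z) δ0
      refine ⟨g', G', fun θ p => ?_⟩
      obtain ⟨a1, a2, a3, a4⟩ := hg θ p
      obtain ⟨b1, b2, b3, b4⟩ := hg' θ p
      have d1 := G.dm.sub H.dm
      have d2 := G'.dm.sub G.dm
      have gen : ∀ ψ : ℂ → ℝ, Continuous ψ → (∀ z, |ψ z| ≤ 1) →
          |X (fun z => ψ z * (g z - h z)) θ p| ≤ j * δ → |X (fun z => ψ z * (g' z - g z)) θ p| ≤ δ →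
          |X (fun z => ψ z * (g' z - h z)) θ p| ≤ (j + 1 : ℕ) * δ := by
        intro ψ c b u v
        have := X_add (d1.mul c b) (d2.mul c b) θ p
        simp only [← mul_add, add_comm (g _ - h _), sub_add_sub_cancel] at this
        rw [this]; push_cast
        exact (abs_add_le _ _).trans (by linarith)
      refine ⟨by simpa using gen (fun _ => 1) continuous_const (by simp) (by simpa using a1) (by simpa using b1),
        gen h hc H.abs a2 b2, gen _ (continuous_const.sub hχ.continuous) hχ2 a3 b3, ?_⟩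
      have da := G.dmD.mul hχ.continuous hχ1
      have c1 : 2 * l * X (fun z => χ z * ((1 - g z) * g z)) θ p -
          l ^ 2 * C * X (fun z => exp (-‖z‖ ^ 2)) θ p ≤
          X (fun z => (χ z * ((1 - g z) * g z)) ^ 2) θ p := by
        rw [← X_smul, ← X_smul, ← X_sub (da.smul _) (dm_g.smul _)]
        refine X_le ((da.smul _).sub (dm_g.smul _)) (Dm.of_cs (da.1.pow 2) (R := R + 1)
          fun z hz => by simp [hχ0 z hz]) (fun z => ?_) θ p
        simp only [Pi.pow_apply]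
        by_cases hz : R + 1 ≤ ‖z‖
        · have : 0 ≤ l ^ 2 * C * exp (-‖z‖ ^ 2) := by positivity
          rw [hχ0 z hz]; linarith
        · have := mul_le_mul_of_nonneg_left (one_le_g (not_le.1 hz).le) (sq_nonneg l)
          nlinarith [sq_nonneg (χ z * ((1 - g z) * g z) - l)]
      have c2 : D g θ p ≤ X (fun z => χ z * ((1 - g z) * g z)) θ p +
          (X (fun z => (1 - χ z) * (g z - h z)) θ p + X (fun z => (1 - χ z) * h z) θ p) := by
        have e0 : Continuous fun z => 1 - χ z := continuous_const.sub hχ.continuous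
        have e1 := d1.mul e0 hχ2
        have e2 := H.dm.mul e0 hχ2
        rw [← X_add e1 e2, ← X_add da (e1.add e2)]
        refine X_le G.dmD (da.add (e1.add e2)) (fun z => ?_) θ p
        nlinarith [mul_nonneg (sub_nonneg.2 (χ.le_one (x := z))) (sq_nonneg (g z))]
      have c3 := X_g_le θ p
      have c4 := ht θ p
      have c5 := (abs_le.1 a3).2
      have c6 : (j : ℝ) * δ ≤ ε / 4 := le_trans (by gcongr; omega) δ1
      have c7 : l ^ 2 * C * X (fun z => exp (-‖z‖ ^ 2)) θ p ≤ l * (ε / 2) := by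
        have : l ^ 2 * C * X (fun z => exp (-‖z‖ ^ 2)) θ p ≤ l ^ 2 * C * 2 := by gcongr
        nlinarith
      have c8 := mul_le_mul_of_nonneg_left a4 (by linarith : 0 ≤ 1 - l)
      have c9 := mul_le_mul_of_nonneg_left (c2.trans (add_le_add le_rfl (add_le_add (c5.trans c6) c4))) l0.le
      rw [pow_succ]
      nlinarith
  obtain ⟨g, G, hg⟩ := key m le_rfl
  refine ⟨g, G, fun θ p => ?_⟩
  obtain ⟨a1, a2, -, a4⟩ := hg θ p
  have e1 : (1 - l) ^ m * (2 * C) ≤ ε / 4 := by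
    have := (lt_div_iff₀ (by positivity)).1 hm
    linarith
  have d1 := G.dm.sub H.dm
  have e2 : X (fun z => |g z - h z|) θ p ≤ X (fun z => g z - h z) θ p + 2 * D h θ p + D g θ p -
      2 * X (fun z => h z * (g z - h z)) θ p := by
    have d2 := d1.mul hc H.abs
    rw [D, D, ← X_smul, ← X_smul, ← X_add d1 (H.dmD.smul _), ← X_add (d1.add (H.dmD.smul _)) G.dmD,
      ← X_sub ((d1.add (H.dmD.smul _)).add G.dmD) (d2.smul _)]
    refine X_le d1.abs (((d1.add (H.dmD.smul _)).add G.dmD).sub (d2.smul _)) (fun z => ?_) θ p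
    rw [abs_le]
    constructor <;> nlinarith [mul_pos (G.pos z) (sub_pos.2 (H.lt z)),
      mul_pos (H.pos z) (sub_pos.2 (G.lt z)), mul_pos (G.pos z) (sub_pos.2 (G.lt z))]
  rw [← X_sub G.dm H.dm]
  refine ⟨by linarith, by linarith, ?_⟩
  linarith [(abs_le.1 a1).2, (abs_le.1 a2).1]

end Pool.Agent.H92.CR
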