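import Pool.Agent.H92.CR3
import Pool.Agent.H92.CR4

namespace Pool.Agent.H92.CR
open MeasureTheory Set Filter Topology Real

noncomputable def pp (θ : ℝ) (P : ℂ) : ℝ := P.re * cos θ + P.im * sin θ
noncomputable def ss (θ : ℝ) (P : ℂ) : ℝ := P.im * cos θ - P.re * sin θ

lemma x_re (θ p s : ℝ) : (x θ p s).re = p * cos θ - s * sin θ := by
  simp [x, Complex.exp_ofReal_mul_I_re, Complex.exp_ofReal_mul_I_im]
lemma x_im (θ p s : ℝ) : (x θ p s).im = p * sin θ + s * cos θ := by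
  simp [x, Complex.exp_ofReal_mul_I_re, Complex.exp_ofReal_mul_I_im]
lemma pp_x (θ p s : ℝ) : pp θ (x θ p s) = p := by
  rw [pp, x_re, x_im]; linear_combination p * sin_sq_add_cos_sq θ
lemma ss_x (θ p s : ℝ) : ss θ (x θ p s) = s := by
  rw [ss, x_re, x_im]; linear_combination s * sin_sq_add_cos_sq θ
lemma nsub (θ : ℝ) (P c : ℂ) : ‖P - c‖ ^ 2 = (pp θ P - pp θ c) ^ 2 + (ss θ P - ss θ c) ^ 2 := by
  rw [Complex.sq_norm, Complex.normSq_apply, pp, pp, ss, ss]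
  simp only [Complex.sub_re, Complex.sub_im]
  linear_combination -((P.re - c.re) ^ 2 + (P.im - c.im) ^ 2) * sin_sq_add_cos_sq θ
lemma pp_d (θ : ℝ) (P : ℂ) : HasDerivAt (fun θ => pp θ P) (ss θ P) θ :=
  (((hasDerivAt_cos θ).const_mul P.re).add ((hasDerivAt_sin θ).const_mul P.im)).congr_deriv
    (by rw [ss]; ring)
lemma pp_c : Continuous fun q : ℂ × ℝ => pp q.2 q.1 := by unfold pp; fun_prop
lemma ss_c : Continuous fun q : ℂ × ℝ => ss q.2 q.1 := by unfold ss; fun_prop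

noncomputable def sl (h : ℂ → ℝ) (P : ℂ) (θ : ℝ) : ℝ :=
  fderiv ℝ (fun q : ℝ × ℝ => X h q.1 q.2) (θ, pp θ P) (1, ss θ P)

lemma Cl.sl_d {h R} (H : Cl h R) (P : ℂ) (θ : ℝ) :
    HasDerivAt (fun θ => X h θ (pp θ P)) (sl h P θ) θ := by
  have h1 := (H.X_cd.differentiable (by simp) (θ, pp θ P)).hasFDerivAt
  have h2 : HasDerivAt (fun θ => (θ, pp θ P)) (1, ss θ P) θ := (hasDerivAt_id θ).prodMk (pp_d θ P)
  have h3 := HasFDerivAt.comp_hasDerivAt (l := fun q : ℝ × ℝ => X h q.1 q.2)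
    (f := fun θ => (θ, pp θ P)) θ h1 h2
  exact h3

lemma sl_aff (h : ℂ → ℝ) (θ p : ℝ) : ∃ α β : ℝ, ∀ s, sl h (x θ p s) θ = α + β * s := by
  refine ⟨fderiv ℝ (fun q : ℝ × ℝ => X h q.1 q.2) (θ, p) (1, 0),
    fderiv ℝ (fun q : ℝ × ℝ => X h q.1 q.2) (θ, p) (0, 1), fun s => ?_⟩
  rw [sl, pp_x, ss_x, show ((1, s) : ℝ × ℝ) = (1, 0) + s • (0, 1) by simp, map_add, map_smul,
    smul_eq_mul, mul_comm]

lemma Cl.sl_c {h R} (H : Cl h R) : Continuous fun q : ℂ × ℝ => sl h q.1 q.2 :=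
  ((H.X_cd.continuous_fderiv (by simp)).comp (continuous_snd.prodMk pp_c)).clm_apply
    (continuous_const.prodMk ss_c)

noncomputable def vv (c P : ℂ) (θ : ℝ) : ℝ := (pp θ P - pp θ c) ^ 2
noncomputable def bb (c P : ℂ) (θ : ℝ) : ℝ := 2 * (pp θ P - pp θ c) * (ss θ P - ss θ c)

lemma vv_d (c P : ℂ) (θ : ℝ) : HasDerivAt (vv c P) (bb c P θ) θ :=
  (((pp_d θ P).sub (pp_d θ c)).pow 2).congr_deriv (by simp [bb])
lemma vv_c (c : ℂ) : Continuous fun q : ℂ × ℝ => vv c q.1 q.2 := by unfold vv pp; fun_prop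
lemma bb_c (c : ℂ) : Continuous fun q : ℂ × ℝ => bb c q.1 q.2 := by unfold bb pp ss; fun_prop

lemma realize {h : ℂ → ℝ} {R : ℝ} (H : Cl h R) {c : ℂ} (hc : ‖c‖ + 4 ≤ R) {η Γ : ℝ} (hη : 0 < η)
    (hΓ : 0 < Γ) : ∃ A > 0, ∀ G : ℝ → ℝ, ContDiff ℝ 2 G → (∀ w, 10 ≤ w → G w = 0) →
      (∀ w, |G w| ≤ A) → (∀ w, |deriv G w| ≤ Γ) → ∃ h', Cl h' R ∧
        (∀ θ p, X (fun z => |h' z - h z|) θ p ≤ η) ∧
        ∀ θ p, X h' θ p = X h θ p + G ((p - pp θ c) ^ 2) := by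
  obtain ⟨z0, -, hz0⟩ := (isCompact_closedBall c 4).exists_isMinOn ⟨c, by simp⟩
    ((continuous_const.sub H.cd.continuous).mul H.cd.continuous :
      Continuous fun z => (1 - h z) * h z).continuousOn
  have κ0 : 0 < (1 - h z0) * h z0 := mul_pos (sub_pos.2 (H.lt z0)) (H.pos z0)
  set e := min ((1 - h z0) * h z0) (η / (2 * exp (R ^ 2))) with he
  have e0 : 0 < e := by positivity
  set k := e / (2 * Γ) with hk
  have k0 : 0 < k := by positivity
  refine ⟨e * k, by positivity, fun G g1 g2 g3 g4 => ?_⟩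
  obtain ⟨K, k1, k2, k3, k4⟩ := abel g1 g2 k0 g4 g3
  have ee : (e * k / 2 + Γ * k ^ 2) / k = e := by rw [hk]; field_simp; ring
  rw [ee] at k3
  have kc : ContDiff ℝ 1 fun z : ℂ => K (‖z - c‖ ^ 2) :=
    k1.comp_contDiff (nsq_cd.comp (contDiff_id.sub contDiff_const)) fun z =>
      lt_of_lt_of_le (by norm_num) (sq_nonneg ‖z - c‖)
  have kz : ∀ z, 4 ≤ ‖z - c‖ → K (‖z - c‖ ^ 2) = 0 := fun z hz => k2 _ (by nlinarith)
  have kR : ∀ z, R ≤ ‖z‖ → K (‖z - c‖ ^ 2) = 0 := fun z hz =>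
    kz z (by linarith [norm_sub_norm_le z c])
  have kb : ∀ z, |K (‖z - c‖ ^ 2)| ≤ (1 - h z) * h z := fun z => by
    by_cases hz : 4 ≤ ‖z - c‖
    · rw [kz z hz, abs_zero]; exact (mul_pos (sub_pos.2 (H.lt z)) (H.pos z)).le
    · exact (k3 _ (sq_nonneg _)).trans ((min_le_left _ _).trans
        (hz0 (mem_closedBall_iff_norm.2 (not_le.1 hz).le)))
  have kd : Dm fun z : ℂ => K (‖z - c‖ ^ 2) := Dm.of_cs kc.continuous kR
  refine ⟨fun z => h z + K (‖z - c‖ ^ 2), ⟨H.cd.add kc, fun z => ?_, fun z => ?_,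
    fun z hz => by rw [kR z hz, add_zero, H.out z hz]⟩, fun θ p => ?_, fun θ p => ?_⟩
  · nlinarith [abs_le.1 (kb z), H.pos z, H.lt z]
  · nlinarith [abs_le.1 (kb z), H.pos z, H.lt z]
  · simp only [add_sub_cancel_left]
    have := X_le kd.abs (dm_g.smul (e * exp (R ^ 2))) (fun z => by
      by_cases hz : R ≤ ‖z‖
      · rw [kR z hz, abs_zero]; positivity
      · have := mul_le_mul_of_nonneg_left (one_le_g (not_le.1 hz).le) e0.le
        linarith [k3 _ (sq_nonneg ‖z - c‖)]) θ p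
    rw [X_smul] at this
    have h2 := (le_div_iff₀ (by positivity)).1 (min_le_right ((1 - h z0) * h z0) (η / (2 * exp (R ^ 2))))
    have h3 := mul_le_mul_of_nonneg_left (X_g_le θ p) (by positivity : 0 ≤ e * exp (R ^ 2))
    linarith
  · rw [X_add H.dm kd, ← k4 _ (sq_nonneg _)]
    congr 1
    simp only [X, nsub θ, pp_x, ss_x]
    exact integral_sub_right_eq_self (fun s => K ((p - pp θ c) ^ 2 + s ^ 2)) (ss θ c)

theorem step {h : ℂ → ℝ} {R : ℝ} (H : Cl h R) {c : ℂ} (hc : ‖c‖ + 4 ≤ R) {ε η : ℝ} (hε : 0 < ε)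
    (hη : 0 < η) : ∃ h', Cl h' R ∧ (∀ θ p, X (fun z => |h' z - h z|) θ p ≤ η) ∧
      ∃ S : Set (ℂ × ℝ), IsCompact S ∧ (∀ q ∈ S, q.1 ∈ Metric.closedBall c 16) ∧
      (∃ η' > 0, ∀ φ : ℝ → ℝ → ℝ, (∀ θ p, |φ θ p - X h' θ p| ≤ η') → ∀ P,
        volume ((fun θ => φ θ (pp θ P)) '' {θ | (P, θ) ∈ S}) ≤ ENNReal.ofReal ε) ∧
      ∀ θ p, |θ| ≤ 4 → 1 ≤ (p - pp θ c) ^ 2 → (p - pp θ c) ^ 2 ≤ 9 → ∃ τ : ℝ, τ ≠ 0 ∧
        ∀ s, 1 ≤ |s - ss θ c| → |s - ss θ c| ≤ 15 → (τ * sl h (x θ p s) θ * (s - ss θ c) ≤ 0 ∨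
          τ * sl h' (x θ p s) θ * (s - ss θ c) ≤ 0) → (x θ p s, θ) ∈ S := by
  set K : Set (ℂ × ℝ) := Metric.closedBall c 16 ×ˢ Icc (-4) 4 with hK
  have Kc : IsCompact K := (isCompact_closedBall c 16).prod isCompact_Icc
  obtain ⟨M0, hM0⟩ := Kc.exists_bound_of_continuousOn H.sl_c.continuousOn
  set M := max M0 1 with hM
  have M1 : 1 ≤ M := le_max_right _ _
  have hM' : ∀ q ∈ K, |sl h q.1 q.2| ≤ M := fun q hq => (hM0 q hq).trans (le_max_left _ _)
  set t := ε / 400000 with ht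
  have t0 : 0 < t := by positivity
  obtain ⟨Γ, Γ0, hW⟩ := walk (Λ := M) (by linarith) t0
  set e := min 1 (t / (1 + M)) with he
  have e0 : 0 < e := by positivity
  have e1 : e ≤ 1 := min_le_left _ _
  have e2 : e * (1 + M) ≤ t := (le_div_iff₀ (by positivity)).1 (min_le_right _ _)
  obtain ⟨r, r0, hr⟩ := Metric.uniformContinuousOn_iff.1 (Kc.uniformContinuousOn_of_continuous
    (H.sl_c.prodMk (bb_c c)).continuousOn) e e0
  obtain ⟨N, hN⟩ := exists_nat_gt (8 / r)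
  have N0 : (0 : ℝ) < N := lt_trans (by positivity) hN
  have N1 : (1 : ℝ) ≤ N := by exact_mod_cast (Nat.cast_pos.1 N0)
  set ρ : ℝ := 8 / N with hρ
  have ρ0 : 0 < ρ := by positivity
  have ρr : ρ < r := by rw [hρ, div_lt_iff₀ N0]; rw [div_lt_iff₀ r0] at hN; linarith
  obtain ⟨A, A0, hA⟩ := realize H hc hη Γ0
  obtain ⟨G, g1, g2, g3, g4, V, Vc, V1, η', η0, V2⟩ := hW (512 * ρ) A (by positivity) A0
  obtain ⟨h', H', d1, d2⟩ := hA G g1 g2 g3 g4
  have hsl : ∀ P θ, sl h' P θ = sl h P θ + deriv G (vv c P θ) * bb c P θ := fun P θ => by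
    refine (H'.sl_d P θ).unique ?_
    simp only [d2]
    exact (H.sl_d P θ).add ((g1.differentiable (by simp) _).hasDerivAt.comp θ (vv_d c P θ))
  let S0 : Set ((ℂ × ℝ) × ℝ × ℝ) := (K ×ˢ V) ∩ ({w | w.2.1 = vv c w.1.1 w.1.2} ∩
    ({w | 2 ≤ |bb c w.1.1 w.1.2|} ∩ {w | sl h w.1.1 w.1.2 + w.2.2 * bb c w.1.1 w.1.2 = 0}))
  have cb : Continuous fun w : (ℂ × ℝ) × ℝ × ℝ => bb c w.1.1 w.1.2 := (bb_c c).comp continuous_fst
  have S0c : IsCompact S0 := (Kc.prod Vc).inter_right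
    ((isClosed_eq (by fun_prop) ((vv_c c).comp continuous_fst)).inter
      ((isClosed_le continuous_const cb.abs).inter (isClosed_eq ((H.sl_c.comp continuous_fst).add
        ((continuous_snd.comp continuous_snd).mul cb)) continuous_const)))
  have sb : ∀ {a b σ : ℝ}, |a| ≤ M → 2 ≤ |b| → a + σ * b = 0 → |σ| ≤ M := by
    intro a b σ h1 h2 h3
    have : |a| = |σ| * |b| := by rw [← abs_mul, eq_neg_of_add_eq_zero_left h3, abs_neg]
    nlinarith [abs_nonneg σ]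
  refine ⟨h', H', d1, Prod.fst '' S0, S0c.image continuous_fst, ?_,
    ⟨η' / 2, by positivity, fun φ hφ P => ?_⟩, fun θ p hθ q1 q9 => ?_⟩
  · rintro _ ⟨w, hw, rfl⟩; exact hw.1.1.1
  · have mem : ∀ θ, (P, θ) ∈ Prod.fst '' S0 → (P, θ) ∈ K ∧ 2 ≤ |bb c P θ| ∧
        ∃ σ, (vv c P θ, σ) ∈ V ∧ sl h P θ + σ * bb c P θ = 0 := by
      rintro θ ⟨⟨q, v, σ⟩, ⟨⟨a1, a2⟩, a3, a4, a5⟩, rfl : q = (P, θ)⟩
      obtain rfl : v = vv c P θ := a3
      exact ⟨a1, a4, σ, a2, a5⟩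
    have hsub : (fun θ => φ θ (pp θ P)) '' {θ | (P, θ) ∈ Prod.fst '' S0} ⊆
        ⋃ i ∈ Finset.range (N + 1), (fun θ => φ θ (pp θ P)) ''
          ({θ | (P, θ) ∈ Prod.fst '' S0} ∩ Icc (-4 + i * ρ) (-4 + (i + 1) * ρ)) := by
      rintro _ ⟨θ, hθ, rfl⟩
      have b := (mem θ hθ).1.2
      have b0 : 0 ≤ (θ + 4) / ρ := div_nonneg (by linarith [b.1]) ρ0.le
      have b1 := Nat.floor_le b0
      have b2 := Nat.lt_floor_add_one ((θ + 4) / ρ)
      rw [le_div_iff₀ ρ0] at b1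
      rw [div_lt_iff₀ ρ0] at b2
      simp only [mem_iUnion, Finset.mem_range]
      refine ⟨⌊(θ + 4) / ρ⌋₊, ?_, θ, ⟨hθ, by linarith, by linarith⟩, rfl⟩
      rw [Nat.lt_succ_iff]
      apply Nat.floor_le_of_le
      rw [div_le_iff₀ ρ0, hρ]
      have : (N : ℝ) * (8 / N) = 8 := by field_simp
      linarith [b.2]
    refine (measure_mono hsub).trans ((measure_biUnion_finset_le _ _).trans ?_)
    refine (Finset.sum_le_card_nsmul _ _ (ENNReal.ofReal (45 * t * (512 * ρ))) fun i _ => ?_).trans ?_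
    swap
    · rw [Finset.card_range, nsmul_eq_mul, ← ENNReal.ofReal_natCast,
        ← ENNReal.ofReal_mul (by positivity)]
      apply ENNReal.ofReal_le_ofReal
      have : ((N + 1 : ℕ) : ℝ) * (45 * t * (512 * ρ)) ≤ (2 * N) * (45 * t * (512 * ρ)) := by
        push_cast; gcongr; linarith
      refine this.trans ?_
      have : (2 * N) * (45 * t * (512 * ρ)) = 368640 * t := by rw [hρ]; field_simp; ring
      rw [this, ht]; linarith
    set T := {θ | (P, θ) ∈ Prod.fst '' S0} ∩ Icc (-4 + i * ρ) (-4 + (i + 1) * ρ) with hT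
    rcases T.eq_empty_or_nonempty with h0 | ⟨θ0, hθ0⟩
    · rw [h0]; simp
    obtain ⟨k0, b0, σ0, -, z0⟩ := mem θ0 hθ0.1
    have σb := sb (hM' _ k0) b0 z0
    set J := Icc (-4 : ℝ) 4 ∩ Icc (-4 + i * ρ) (-4 + (i + 1) * ρ) with hJ
    have Jc : Convex ℝ J := (convex_Icc _ _).inter (convex_Icc _ _)
    have TJ : ∀ θ ∈ T, θ ∈ J := fun θ hθ => ⟨(mem θ hθ.1).1.2, hθ.2⟩
    have Jd : ∀ θ ∈ J, |θ - θ0| ≤ ρ := fun θ hθ =>
      abs_le.2 ⟨by linarith [hθ.2.1, hθ0.2.2], by linarith [hθ.2.2, hθ0.2.1]⟩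
    have cl : ∀ θ ∈ J, |sl h P θ - sl h P θ0| ≤ e ∧ |bb c P θ - bb c P θ0| ≤ e := fun θ hθ => by
      have := hr (P, θ) ⟨k0.1, hθ.1⟩ (P, θ0) k0 (by
        rw [Prod.dist_eq, dist_self, Real.dist_eq]
        exact max_lt r0 ((Jd θ hθ).trans_lt ρr))
      rw [Prod.dist_eq, max_lt_iff, Real.dist_eq, Real.dist_eq] at this
      exact ⟨this.1.le, this.2.le⟩
    have cl2 : ∀ θ ∈ J, |sl h P θ + σ0 * bb c P θ| ≤ t := fun θ hθ => by
      have : sl h P θ + σ0 * bb c P θ =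
          (sl h P θ - sl h P θ0) + σ0 * (bb c P θ - bb c P θ0) := by linarith
      rw [this]
      refine (abs_add_le _ _).trans ?_
      rw [abs_mul]
      have := mul_le_mul σb (cl θ hθ).2 (abs_nonneg _) (by linarith)
      linarith [(cl θ hθ).1]
    have m1 : ∀ a ∈ J, ∀ b ∈ J, |vv c P b - vv c P a| ≤ 256 * |b - a| := fun a ha b hb =>
      Jc.norm_image_sub_le_of_norm_hasDerivWithin_le (fun y _ => (vv_d c P y).hasDerivWithinAt)
        (fun y _ => by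
          have n1 := nsub y P c
          have n2 : ‖P - c‖ ≤ 16 := mem_closedBall_iff_norm.1 k0.1
          have n3 : ‖P - c‖ ^ 2 ≤ 256 := by nlinarith [norm_nonneg (P - c)]
          rw [Real.norm_eq_abs, bb, abs_le]
          constructor <;> nlinarith [sq_nonneg (pp y P - pp y c - (ss y P - ss y c)),
            sq_nonneg (pp y P - pp y c + (ss y P - ss y c))]) ha hb
    have m2 : ∀ a ∈ J, ∀ b ∈ J, |b - a| ≤ |vv c P b - vv c P a| := fun a ha b hb => by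
      have := Jc.norm_image_sub_le_of_norm_hasDerivWithin_le
        (f := fun y => vv c P y - bb c P θ0 * y) (f' := fun y => bb c P y - bb c P θ0 * 1) (C := 1)
        (fun y _ => ((vv_d c P y).sub ((hasDerivAt_id y).const_mul _)).hasDerivWithinAt)
        (fun y hy => by rw [mul_one]; exact (cl y hy).2.trans e1) ha hb
      rw [Real.norm_eq_abs, Real.norm_eq_abs, one_mul] at this
      have h2 : |bb c P θ0 * (b - a)| ≤ |vv c P b - vv c P a| +
          |vv c P b - bb c P θ0 * b - (vv c P a - bb c P θ0 * a)| := by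
        refine le_trans (le_of_eq ?_) (abs_sub _ _)
        congr 1; ring
      rw [abs_mul] at h2
      nlinarith [abs_nonneg (b - a)]
    have m3 : ∀ a ∈ J, ∀ b ∈ J, |X h b (pp b P) + σ0 * vv c P b - (X h a (pp a P) + σ0 * vv c P a)| ≤
        t * |b - a| := fun a ha b hb =>
      Jc.norm_image_sub_le_of_norm_hasDerivWithin_le
        (f := fun y => X h y (pp y P) + σ0 * vv c P y)
        (fun y _ => ((H.sl_d P y).add ((vv_d c P y).const_mul σ0)).hasDerivWithinAt)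
        (fun y hy => cl2 y hy) ha hb
    refine V2 σ0 (vv c P θ0 - 256 * ρ) T (vv c P) _ σb (fun θ hθ => ?_) (fun θ hθ => ?_)
      fun a ha b hb => ?_
    · have := abs_le.1 ((m1 θ0 (TJ _ hθ0) θ (TJ _ hθ)).trans
        (mul_le_mul_of_nonneg_left (Jd θ (TJ _ hθ)) (by norm_num)))
      constructor <;> linarith [this.1, this.2]
    · obtain ⟨-, b1, σ, v1, z1⟩ := mem θ hθ.1
      refine ⟨σ, v1, ?_⟩
      have h1 := cl2 θ (TJ _ hθ)
      have : sl h P θ + σ0 * bb c P θ = -((σ - σ0) * bb c P θ) := by linarith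
      rw [this, abs_neg, abs_mul] at h1
      nlinarith [abs_nonneg (σ - σ0)]
    · have u1 := abs_le.1 (hφ a (pp a P))
      have u2 := abs_le.1 (hφ b (pp b P))
      have u3 := abs_le.1 ((m3 b (TJ _ hb) a (TJ _ ha)).trans
        (mul_le_mul_of_nonneg_left (m2 b (TJ _ hb) a (TJ _ ha)) t0.le))
      rw [d2] at u1 u2
      simp only [vv] at u3 ⊢
      rw [abs_le]
      constructor <;> linarith [u1.1, u1.2, u2.1, u2.2, u3.1, u3.2]
  · obtain ⟨τ, hτ, hV⟩ := V1 _ q1 q9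
    have q0 : p - pp θ c ≠ 0 := by rintro h0; rw [h0] at q1; norm_num at q1
    refine ⟨τ * (p - pp θ c), mul_ne_zero (by rcases hτ with rfl | rfl <;> norm_num) q0,
      fun s s1 s2 hs => ?_⟩
    have eb : bb c (x θ p s) θ = 2 * (p - pp θ c) * (s - ss θ c) := by rw [bb, pp_x, ss_x]
    have ev : vv c (x θ p s) θ = (p - pp θ c) ^ 2 := by rw [vv, pp_x]
    have kK : (x θ p s, θ) ∈ K := by
      refine ⟨mem_closedBall_iff_norm.2 ?_, abs_le.1 hθ⟩
      apply le_of_sq_le_sq _ (by norm_num) |> id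
      rw [nsub θ, pp_x, ss_x]
      nlinarith [sq_abs (s - ss θ c), abs_nonneg (s - ss θ c)]
    have b2 : 2 ≤ |bb c (x θ p s) θ| := by
      have : 1 ≤ |p - pp θ c| := by
        by_contra hh
        nlinarith [sq_abs (p - pp θ c), abs_nonneg (p - pp θ c)]
      rw [eb, abs_mul, abs_mul, abs_two]; nlinarith
    set b := bb c (x θ p s) θ with hb
    have b0 : b ≠ 0 := by rintro h0; rw [h0] at b2; norm_num at b2
    have z : sl h (x θ p s) θ + (-sl h (x θ p s) θ / b) * b = 0 := by field_simp; ring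
    set σ := -sl h (x θ p s) θ / b with hσ
    refine ⟨((x θ p s, θ), (p - pp θ c) ^ 2, σ), ⟨⟨kK, hV σ (sb (hM' _ kK) b2 z) ?_⟩, ev.symm, b2, z⟩,
      rfl⟩
    rw [hsl, ev, ← hb, eq_neg_of_add_eq_zero_left z] at hs
    have bp : 0 < b ^ 2 := by positivity
    have e3 : (p - pp θ c) * (s - ss θ c) = b / 2 := by rw [eb]; ring
    rcases hs with hs | hs
    · left
      have : τ * (p - pp θ c) * -(σ * b) * (s - ss θ c) = -(τ * σ * b ^ 2 / 2) := by
        linear_combination -(τ * σ * b) * e3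
      rw [this] at hs
      exact nonneg_of_mul_nonneg_left (by linarith) bp
    · right
      have : τ * (p - pp θ c) * (-(σ * b) + deriv G ((p - pp θ c) ^ 2) * b) * (s - ss θ c) =
          -(τ * (σ - deriv G ((p - pp θ c) ^ 2)) * b ^ 2 / 2) := by
        linear_combination -(τ * (σ - deriv G ((p - pp θ c) ^ 2)) * b) * e3
      rw [this] at hs
      exact nonneg_of_mul_nonneg_left (by linarith) bp

end Pool.Agent.H92.CR
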