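import Pool.Agent.H92.CR5

namespace Pool.Agent.H92.CR
open MeasureTheory Set Filter Topology Real

lemma X_diff {g h R R'} (G : Cl g R) (H : Cl h R') (θ p : ℝ) :
    |X g θ p - X h θ p| ≤ X (fun z => |g z - h z|) θ p := by
  rw [← X_sub G.dm H.dm]; exact X_abs _ _ _

lemma X_tri {g h k R R' R''} (G : Cl g R) (H : Cl h R') (K : Cl k R'') (θ p : ℝ) :
    X (fun z => |g z - k z|) θ p ≤ X (fun z => |g z - h z|) θ p + X (fun z => |h z - k z|) θ p := by
  rw [← X_add (G.dm.sub H.dm).abs (H.dm.sub K.dm).abs]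
  exact X_le (G.dm.sub K.dm).abs ((G.dm.sub H.dm).abs.add (H.dm.sub K.dm).abs)
    (fun z => abs_sub_le _ _ _) θ p

lemma D_le {g h R R'} (G : Cl g R) (H : Cl h R') (θ p : ℝ) :
    D g θ p ≤ D h θ p + X (fun z => |g z - h z|) θ p := by
  rw [D, D, ← X_add H.dmD (G.dm.sub H.dm).abs]
  refine X_le G.dmD (H.dmD.add (G.dm.sub H.dm).abs) (fun z => ?_) θ p
  rcases abs_cases (g z - h z) with e | e <;> nlinarith [G.pos z, G.lt z, H.pos z, H.lt z, e.1, e.2]

def St (c c' : ℂ) (R ε : ℝ) (h : ℂ → ℝ) (β : ℝ) (g : ℂ → ℝ) (β' : ℝ) (S : Set (ℂ × ℝ)) : Prop :=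
  Cl g (R + 1) ∧ 0 < β' ∧ β' ≤ β / 2 ∧ (∀ θ p, |X g θ p - X h θ p| ≤ β / 2 ∧
    D g θ p ≤ 2 * exp (-R) + ε ∧
    X (fun z => |g z - h z|) θ p ≤ 2 * D h θ p + 2 * exp (-R) + 10 * ε) ∧ IsCompact S ∧
  (∀ q ∈ S, q.1 ∈ Metric.closedBall c 16 ∪ Metric.closedBall c' 16) ∧
  (∀ φ : ℝ → ℝ → ℝ, (∀ θ p, |φ θ p - X g θ p| ≤ β') → ∀ P,
    volume ((fun θ => φ θ (pp θ P)) '' {θ | (P, θ) ∈ S}) ≤ ENNReal.ofReal (2 * ε)) ∧
  ∀ θ p, |θ| ≤ 4 → ‖x θ (p + 2) 0 - c‖ ≤ 1 → ‖x θ (p + 2) 10 - c'‖ ≤ 1 →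
    ∃ a, 0 ≤ a ∧ a ≤ 13 ∧ ∀ s ∈ Icc a (a + 1), (x θ p s, θ) ∈ S

lemma near {θ p s : ℝ} {c : ℂ} (h : ‖x θ (p + 2) s - c‖ ≤ 1) :
    1 ≤ (p - pp θ c) ^ 2 ∧ (p - pp θ c) ^ 2 ≤ 9 ∧ s - 1 ≤ ss θ c ∧ ss θ c ≤ s + 1 := by
  have h1 := nsub θ (x θ (p + 2) s) c
  rw [pp_x, ss_x] at h1
  have h2 : ‖x θ (p + 2) s - c‖ ^ 2 ≤ 1 := by nlinarith [norm_nonneg (x θ (p + 2) s - c)]
  have h3 := abs_le.1 (abs_le_one_iff_mul_self_le_one.2
    (by nlinarith [sq_nonneg (s - ss θ c)] : (p + 2 - pp θ c) * (p + 2 - pp θ c) ≤ 1))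
  have h4 := abs_le.1 (abs_le_one_iff_mul_self_le_one.2
    (by nlinarith [sq_nonneg (p + 2 - pp θ c)] : (s - ss θ c) * (s - ss θ c) ≤ 1))
  refine ⟨by nlinarith [h3.1, h3.2], by nlinarith [h3.1, h3.2], by linarith [h4.2], by linarith [h4.1]⟩

theorem stage {h : ℂ → ℝ} {R : ℝ} (hR : 2 ≤ R) (H : Cl h R) {c c' : ℂ} (hc : ‖c‖ + 4 ≤ R)
    (hc' : ‖c'‖ + 4 ≤ R) {ε β : ℝ} (hε : 0 < ε) (hβ : 0 < β) :
    ∃ g β' S, St c c' R ε h β g β' S := by
  have p1 : 0 < min (β / 8) ε := by positivity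
  obtain ⟨h1, H1, a1, S1, c1, b1, ⟨e1, e10, v1⟩, w1⟩ := step H hc hε p1
  have p2 : 0 < min (min (β / 8) ε) (e1 / 4) := by positivity
  obtain ⟨h2, H2, a2, S2, c2, b2, ⟨e2, e20, v2⟩, w2⟩ := step H1 hc' hε p2
  have p3 : 0 < min (min (min (β / 8) ε) (e1 / 4)) (e2 / 2) := by positivity
  obtain ⟨g, G, hg⟩ := dither hR H2 p3
  have m1 := min_le_left (β / 8) ε
  have m2 := min_le_right (β / 8) ε
  have m3 := min_le_left (min (β / 8) ε) (e1 / 4)
  have m4 := min_le_right (min (β / 8) ε) (e1 / 4)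
  have m5 := min_le_left (min (min (β / 8) ε) (e1 / 4)) (e2 / 2)
  have m6 := min_le_right (min (min (β / 8) ε) (e1 / 4)) (e2 / 2)
  have x1 := fun θ p => abs_le.1 ((X_diff H1 H θ p).trans (a1 θ p))
  have x2 := fun θ p => abs_le.1 ((X_diff H2 H1 θ p).trans (a2 θ p))
  have x3 := fun θ p => abs_le.1 (hg θ p).1
  refine ⟨g, _, S1 ∪ S2, G, p3, by linarith, fun θ p => ⟨?_, by linarith [(hg θ p).2.1], ?_⟩,
    c1.union c2, ?_, fun φ hφ P => ?_, fun θ p hθ n1 n2 => ?_⟩
  · rw [abs_le]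
    constructor <;> linarith [(x1 θ p).1, (x1 θ p).2, (x2 θ p).1, (x2 θ p).2, (x3 θ p).1, (x3 θ p).2]
  · linarith [X_tri G H2 H θ p, X_tri H2 H1 H θ p, (hg θ p).2.2, D_le H2 H1 θ p, D_le H1 H θ p,
      a1 θ p, a2 θ p]
  · rintro q (hq | hq)
    exacts [Or.inl (b1 q hq), Or.inr (b2 q hq)]
  · have : {θ | (P, θ) ∈ S1 ∪ S2} = {θ | (P, θ) ∈ S1} ∪ {θ | (P, θ) ∈ S2} := rfl
    rw [this, image_union, two_mul, ENNReal.ofReal_add hε.le hε.le]
    refine (measure_union_le _ _).trans (add_le_add (v1 φ (fun θ p => ?_) P) (v2 φ (fun θ p => ?_) P))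
    all_goals
      have := abs_le.1 (hφ θ p)
      rw [abs_le]
      constructor <;> linarith [this.1, this.2, (x2 θ p).1, (x2 θ p).2, (x3 θ p).1, (x3 θ p).2]
  · obtain ⟨q1, q2, q3, q4⟩ := near n1
    obtain ⟨r1, r2, r3, r4⟩ := near n2
    obtain ⟨τ, τ0, t1⟩ := w1 θ p hθ q1 q2
    obtain ⟨κ, κ0, t2⟩ := w2 θ p hθ r1 r2
    obtain ⟨α, γ, hl⟩ := sl_aff h1 θ p
    simp only [hl] at t1 t2
    have u1 : ∀ s, 5 ≤ s → s ≤ 14 → τ * (α + γ * s) ≤ 0 → (x θ p s, θ) ∈ S1 ∪ S2 := fun s s1 s2 s3 =>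
      Or.inl (t1 s (by rw [abs_of_pos] <;> linarith) (by rw [abs_of_pos] <;> linarith)
        (Or.inr (mul_nonpos_of_nonpos_of_nonneg s3 (by linarith))))
    by_cases k1 : ∀ s ∈ Icc (5 : ℝ) (5 + 1), τ * (α + γ * s) ≤ 0
    · exact ⟨5, by norm_num, by norm_num, fun s hs => u1 s hs.1 (by linarith [hs.2]) (k1 s hs)⟩
    by_cases k2 : ∀ s ∈ Icc (13 : ℝ) (13 + 1), τ * (α + γ * s) ≤ 0
    · exact ⟨13, by norm_num, by norm_num, fun s hs =>
        u1 s (by linarith [hs.1]) (by linarith [hs.2]) (k2 s hs)⟩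
    push Not at k1 k2
    obtain ⟨y1, z1, k1⟩ := k1
    obtain ⟨y2, z2, k2⟩ := k2
    have u2 : ∀ s, 6 ≤ s → s ≤ 13 → 0 < τ * (α + γ * s) := fun s s1 s2 => by
      rcases le_total 0 (τ * γ) with g0 | g0
      · nlinarith [mul_nonneg g0 (by linarith [z1.2] : 0 ≤ s - y1)]
      · nlinarith [mul_nonneg_of_nonpos_of_nonpos g0 (by linarith [z2.1] : s - y2 ≤ 0)]
    have u3 : ∀ s, 6 ≤ s → s ≤ 13 → κ * τ * (s - ss θ c') ≤ 0 →
        κ * (α + γ * s) * (s - ss θ c') ≤ 0 := fun s s1 s2 s3 => by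
      have := mul_nonpos_of_nonpos_of_nonneg s3 (u2 s s1 s2).le
      have t0 : 0 < τ ^ 2 := by positivity
      by_contra hh
      nlinarith [mul_pos t0 (not_le.1 hh)]
    rcases le_total 0 (κ * τ) with g0 | g0
    · refine ⟨6, by norm_num, by norm_num, fun s hs => Or.inr (t2 s ?_ ?_ (Or.inl
        (u3 s hs.1 (by linarith [hs.2]) (mul_nonpos_of_nonneg_of_nonpos g0 (by linarith [hs.2])))))⟩ <;>
        rw [abs_of_neg] <;> linarith [hs.1, hs.2]
    · refine ⟨12, by norm_num, by norm_num, fun s hs => Or.inr (t2 s ?_ ?_ (Or.inl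
        (u3 s (by linarith [hs.1]) (by linarith [hs.2])
          (mul_nonpos_of_nonpos_of_nonneg g0 (by linarith [hs.1])))))⟩ <;>
        rw [abs_of_pos] <;> linarith [hs.1, hs.2]

lemma sumae {F : ℕ → ℝ → ℝ} (h0 : ∀ k s, 0 ≤ F k s) (hi : ∀ k, Integrable (F k))
    (hs : Summable fun k => ∫ s, F k s) :
    ∫⁻ s, ∑' k, ENNReal.ofReal (F k s) ≠ ⊤ ∧ ∀ᵐ s, Summable fun k => F k s := by
  have hm : ∀ k, AEMeasurable fun s => ENNReal.ofReal (F k s) := fun k =>
    (hi k).aemeasurable.ennreal_ofReal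
  have h1 : ∫⁻ s, ∑' k, ENNReal.ofReal (F k s) ≠ ⊤ := by
    rw [lintegral_tsum hm]
    simp only [← fun k => ofReal_integral_eq_lintegral_ofReal (hi k) (Eventually.of_forall (h0 k))]
    rw [← ENNReal.ofReal_tsum_of_nonneg (fun k => integral_nonneg (h0 k)) hs]
    exact ENNReal.ofReal_ne_top
  refine ⟨h1, ?_⟩
  filter_upwards [ae_lt_top' (AEMeasurable.tsum hm) h1] with s hs
  simpa only [ENNReal.toReal_ofReal (h0 _ s)] using ENNReal.summable_toReal hs.ne

lemma lim01 {u : ℕ → ℝ → ℝ} (hc : ∀ k, Continuous (u k)) (hi : ∀ k, Integrable (u k))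
    (h0 : ∀ k s, 0 ≤ u k s) (h1 : ∀ k s, u k s ≤ 1) (hD : ∀ k, Integrable fun s => (1 - u k s) * u k s)
    (s1 : Summable fun k => ∫ s, |u (k + 1) s - u k s|)
    (s2 : Summable fun k => ∫ s, (1 - u k s) * u k s) {f : ℝ}
    (hf : Tendsto (fun k => ∫ s, u k s) atTop (𝓝 f)) :
    volume {s | Tendsto (fun k => u k s) atTop (𝓝 1)} = ENNReal.ofReal f := by
  obtain ⟨a1, a2⟩ := sumae (F := fun k s => |u (k + 1) s - u k s|) (fun _ _ => abs_nonneg _)
    (fun k => ((hi _).sub (hi _)).abs) s1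
  obtain ⟨-, a3⟩ := sumae (F := fun k s => (1 - u k s) * u k s)
    (fun k s => mul_nonneg (sub_nonneg.2 (h1 k s)) (h0 k s)) hD s2
  have hA : MeasurableSet {s | Tendsto (fun k => u k s) atTop (𝓝 1)} :=
    measurableSet_tendsto (𝓝 1) fun k => (hc k).measurable
  have T := tendsto_lintegral_of_dominated_convergence (μ := volume)
    (F := fun k s => ENNReal.ofReal (u k s))
    (f := indicator {s | Tendsto (fun k => u k s) atTop (𝓝 1)} 1)
    (fun s => ENNReal.ofReal (u 0 s) + ∑' k, ENNReal.ofReal |u (k + 1) s - u k s|)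
    (fun k => (hc k).measurable.ennreal_ofReal) (fun k => Eventually.of_forall fun s => by
      have : u k s ≤ u 0 s + ∑ i ∈ Finset.range k, |u (i + 1) s - u i s| := by
        have := Finset.sum_range_sub (fun i => u i s) k
        have h2 := Finset.sum_le_sum (s := Finset.range k) fun i _ => le_abs_self (u (i + 1) s - u i s)
        linarith
      refine (ENNReal.ofReal_le_ofReal this).trans (ENNReal.ofReal_add_le.trans ?_)
      rw [ENNReal.ofReal_sum_of_nonneg fun _ _ => abs_nonneg _]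
      exact add_le_add le_rfl (ENNReal.sum_le_tsum _))
    (by
      rw [lintegral_add_left (hc 0).measurable.ennreal_ofReal,
        ← ofReal_integral_eq_lintegral_ofReal (hi 0) (Eventually.of_forall (h0 0))]
      exact ENNReal.add_ne_top.2 ⟨ENNReal.ofReal_ne_top, a1⟩)
    (by
      filter_upwards [a2, a3] with s b2 b3
      obtain ⟨l, hl⟩ := cauchySeq_tendsto_of_complete (cauchySeq_of_summable_dist
        (f := fun k => u k s) (by simpa only [Real.dist_eq, abs_sub_comm] using b2))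
      have e : (1 - l) * l = 0 :=
        tendsto_nhds_unique ((tendsto_const_nhds.sub hl).mul hl) b3.tendsto_atTop_zero
      have := ENNReal.tendsto_ofReal hl
      rcases mul_eq_zero.1 e with e | e
      · obtain rfl : l = 1 := by linarith
        rw [indicator_of_mem (show s ∈ {s | Tendsto (fun k => u k s) atTop (𝓝 1)} from hl)]
        simpa using this
      · subst e
        rw [indicator_of_notMem (fun h => by simpa using tendsto_nhds_unique hl h)]
        simpa using this)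
  rw [lintegral_indicator_one hA] at T
  simp only [← fun k => ofReal_integral_eq_lintegral_ofReal (hi k) (Eventually.of_forall (h0 k))] at T
  exact tendsto_nhds_unique T (ENNReal.tendsto_ofReal hf)

lemma ex_le (k : ℕ) : 2 * exp (-(k + 20 : ℝ)) ≤ (1 / 2) ^ k := by
  have h1 : exp (-(k + 20 : ℝ)) ≤ (1 / 2) ^ (k + 1) := by
    rw [one_div_pow, le_div_iff₀ (by positivity)]
    have h2 : (2 : ℝ) ^ (k + 1) ≤ exp (k + 1 : ℕ) := by
      rw [← exp_one_pow]; gcongr; linarith [add_one_le_exp 1]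
    refine (mul_le_mul_of_nonneg_left h2 (exp_pos _).le).trans ?_
    rw [← exp_add]; apply exp_le_one_iff.2; push_cast; linarith
  rw [pow_succ] at h1; linarith

lemma sq_le (k : ℕ) : 1 + (k + 21 : ℝ) ^ 2 ≤ 442 * 2 ^ k := by
  induction k with
  | zero => norm_num
  | succ k ih => rw [pow_succ 2 k]; push_cast; nlinarith [(Nat.cast_nonneg k : (0 : ℝ) ≤ k)]

theorem core : ∃ E : Set ℂ, MeasurableSet E ∧ 0 < volume E ∧ volume E < ⊤ ∧ ∃ f : ℝ → ℝ → ℝ,
    (∀ θ p, volume {s | x θ p s ∈ E} = ENNReal.ofReal (f θ p)) ∧ ∃ N : Set (ℂ × ℝ),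
      MeasurableSet N ∧ volume N = 0 ∧
      ∀ θ p, |θ| ≤ 4 → 1 ≤ volume {s | (x θ p s, f θ p) ∈ N} := by
  classical
  let e := TopologicalSpace.denseSeq (ℂ × ℂ)
  let c : ℕ → ℂ × ℂ := fun k => if ‖e k.unpair.1‖ ≤ k then e k.unpair.1 else 0
  have hc : ∀ k, ‖c k‖ ≤ k := fun k => by
    simp only [c]; split_ifs with h
    exacts [h, by simp]
  have hst : ∀ (k : ℕ) (h : ℂ → ℝ) (β : ℝ), Cl h (k + 20) → 0 < β →
      ∃ g β' S, St (c k).1 (c k).2 (k + 20) ((1 / 2) ^ k) h β g β' S := fun k h β H hβ =>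
    stage (by linarith [(Nat.cast_nonneg k : (0 : ℝ) ≤ k)]) H
      (by linarith [hc k, norm_fst_le (c k)]) (by linarith [hc k, norm_snd_le (c k)])
      (by positivity) hβ
  choose! G B S hS using hst
  let q : ℕ → (ℂ → ℝ) × ℝ := fun n =>
    Nat.rec (h0, 1 / 100) (fun k s => (G k s.1 s.2, B k s.1 s.2)) n
  let h := fun k => (q k).1
  let β := fun k => (q k).2
  have hq : ∀ k : ℕ, Cl (h k) (k + 20) ∧ 0 < β k := by
    intro k
    induction k with
    | zero => exact ⟨h0_cl _, by norm_num [β, q]⟩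
    | succ k ih =>
      have := hS k _ _ ih.1 ih.2
      exact ⟨this.1.mono (by push_cast; linarith), this.2.1⟩
  have hs : ∀ k, St (c k).1 (c k).2 (k + 20) ((1 / 2) ^ k) (h k) (β k) (h (k + 1)) (β (k + 1))
      (S k (h k) (β k)) := fun k => hS k _ _ (hq k).1 (hq k).2
  have β0 : β 0 = 1 / 100 := rfl
  have βb : ∀ k, β k ≤ (1 / 2) ^ k := by
    intro k
    induction k with
    | zero => rw [β0]; norm_num
    | succ k ih => rw [pow_succ]; linarith [(hs k).2.2.1]
  have ca : ∀ θ p k d, |X (h (k + d)) θ p - X (h k) θ p| ≤ β k - β (k + d) := by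
    intro θ p k d
    induction d with
    | zero => simp
    | succ d ih =>
      have := abs_sub_le (X (h (k + d + 1)) θ p) (X (h (k + d)) θ p) (X (h k) θ p)
      rw [← add_assoc]
      linarith [((hs (k + d)).2.2.2.1 θ p).1, (hs (k + d)).2.2.1]
  have tg : Tendsto (fun k : ℕ => (1 / 2 : ℝ) ^ k) atTop (𝓝 0) :=
    tendsto_pow_atTop_nhds_zero_of_lt_one (by norm_num) (by norm_num)
  have hf : ∀ θ p, ∃ f, Tendsto (fun k => X (h k) θ p) atTop (𝓝 f) := fun θ p =>
    cauchySeq_tendsto_of_complete (cauchySeq_of_le_geometric (1 / 2) 1 (by norm_num) fun k => by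
      rw [Real.dist_eq, abs_sub_comm]
      linarith [ca θ p k 1, (hq (k + 1)).2, βb k])
  choose f hf using hf
  have fb : ∀ k θ p, |f θ p - X (h k) θ p| ≤ β k := fun k θ p => by
    refine le_of_tendsto ((hf θ p).sub_const _).abs ?_
    filter_upwards [eventually_ge_atTop k] with n hn
    obtain ⟨d, rfl⟩ := Nat.exists_eq_add_of_le hn
    linarith [ca θ p k d, (hq (k + d)).2]
  have fc : Continuous fun w : ℝ × ℝ => f w.1 w.2 := by
    refine TendstoUniformly.continuous (F := fun k w => X (h k) w.1 w.2) (p := atTop)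
      (Metric.tendstoUniformly_iff.2 fun ε hε => ?_)
      (Frequently.of_forall fun k => (hq k).1.X_cd.continuous)
    filter_upwards [tg.eventually (gt_mem_nhds hε)] with k hk w
    exact ((fb k w.1 w.2).trans (βb k)).trans_lt hk
  have X0 : ∀ θ p, X h0 θ p = √π * exp (-p ^ 2) / 2 := fun θ p => by
    rw [← X_g θ p]; exact integral_div _ _
  have hD : ∀ k θ p, D (h k) θ p ≤ 4 * (1 / 2) ^ k := fun k θ p => by
    cases k with
    | zero =>
      have := X_le (h0_cl 0).dmD dm_g (fun z => by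
        have := (h0_cl 0).pos z
        have e : exp (-‖z‖ ^ 2) = 2 * h0 z := by unfold h0; ring
        nlinarith) θ p
      exact this.trans ((X_g_le θ p).trans (by norm_num))
    | succ k => rw [pow_succ]; linarith [((hs k).2.2.2.1 θ p).2.1, ex_le k]
  have sg := summable_geometric_of_lt_one (r := (1 / 2 : ℝ)) (by norm_num) (by norm_num)
  set E := {z | Tendsto (fun k => h k z) atTop (𝓝 1)} with hE
  have Em : MeasurableSet E := measurableSet_tendsto (𝓝 1) fun k => (hq k).1.cd.continuous.measurable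
  have Ef : ∀ θ p, volume {s | x θ p s ∈ E} = ENNReal.ofReal (f θ p) := fun θ p =>
    lim01 (u := fun k s => h k (x θ p s)) (fun k => (hq k).1.cd.continuous.comp (x_cont θ p))
      (fun k => (hq k).1.dm.int θ p) (fun k s => ((hq k).1.pos _).le) (fun k s => ((hq k).1.lt _).le)
      (fun k => (hq k).1.dmD.int θ p)
      (.of_nonneg_of_le (fun k => integral_nonneg fun _ => abs_nonneg _) (fun k => by
        have := ((hs k).2.2.2.1 θ p).2.2
        simp only [X] at this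
        linarith [hD k θ p, ex_le k]) (sg.mul_left 19))
      (.of_nonneg_of_le (fun k => integral_nonneg fun _ =>
        mul_nonneg (sub_nonneg.2 ((hq k).1.lt _).le) ((hq k).1.pos _).le) (fun k => hD k θ p)
        (sg.mul_left 4)) (hf θ p)
  have Ev : volume E = ∫⁻ p, ENNReal.ofReal (f 0 p) := by
    rw [← Complex.volume_preserving_equiv_real_prod.symm.measure_preimage_equiv E,
      Measure.volume_eq_prod, Measure.prod_apply (Complex.measurableEquivRealProd.symm.measurable Em)]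
    congr 1; funext p
    rw [← Ef]; congr 1; ext s
    have : Complex.measurableEquivRealProd.symm (p, s) = x 0 p s := by
      apply Complex.ext <;> simp [x_re, x_im]
    simp only [mem_preimage, this, mem_ofPred_eq]
  let U : ℕ → Set (ℂ × ℝ) := fun k => (fun w : ℂ × ℝ => (w.1, f w.2 (pp w.2 w.1))) '' S k (h k) (β k)
  have Um : ∀ k, MeasurableSet (U k) := fun k => ((hs k).2.2.2.2.1.image
    (continuous_fst.prodMk (fc.comp (continuous_snd.prodMk pp_c)))).measurableSet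
  have Uv : ∀ k, volume (U k) ≤ ENNReal.ofReal (2 * (1 / 2) ^ k) *
      (2 * volume (Metric.closedBall (0 : ℂ) 16)) := fun k => by
    have hm : MeasurableSet (Metric.closedBall (c k).1 16 ∪ Metric.closedBall (c k).2 16) :=
      measurableSet_closedBall.union measurableSet_closedBall
    rw [Measure.volume_eq_prod, Measure.prod_apply (Um k)]
    refine (lintegral_mono (g := indicator (Metric.closedBall (c k).1 16 ∪ Metric.closedBall (c k).2 16)
      fun _ => ENNReal.ofReal (2 * (1 / 2) ^ k)) fun P => ?_).trans ?_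
    · by_cases hP : P ∈ Metric.closedBall (c k).1 16 ∪ Metric.closedBall (c k).2 16
      · rw [indicator_of_mem hP]
        refine le_trans (measure_mono ?_) ((hs k).2.2.2.2.2.2.1 f (fb (k + 1)) P)
        rintro t ⟨⟨P', θ⟩, hw, he⟩
        obtain ⟨rfl, rfl⟩ := Prod.mk.inj he
        exact ⟨θ, hw, rfl⟩
      · have : Prod.mk P ⁻¹' U k = ∅ := by
          refine eq_empty_of_forall_notMem ?_
          rintro t ⟨⟨P', θ⟩, hw, he⟩
          obtain ⟨rfl, -⟩ := Prod.mk.inj he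
          exact hP ((hs k).2.2.2.2.2.1 _ hw)
        simp [this]
    · rw [lintegral_indicator_const hm]
      gcongr
      refine (measure_union_le _ _).trans ?_
      rw [Measure.addHaar_closedBall_center volume (c k).1, Measure.addHaar_closedBall_center volume (c k).2,
        two_mul]
  refine ⟨E, Em, ?_, ?_, f, Ef, limsup U atTop, MeasurableSet.measurableSet_limsup Um,
    measure_limsup_atTop_eq_zero (ne_top_of_le_ne_top ?_ (ENNReal.tsum_le_tsum Uv)),
    fun θ p hθ => ?_⟩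
  · rw [Ev]
    refine lt_of_lt_of_le ?_ (lintegral_mono (f := indicator (Icc 0 1) fun _ => ENNReal.ofReal (1 / 10))
      fun p => ?_)
    · rw [lintegral_indicator_const measurableSet_Icc]; simp
    · by_cases hp : p ∈ Icc (0 : ℝ) 1
      · rw [indicator_of_mem hp]
        apply ENNReal.ofReal_le_ofReal
        have h1 := (abs_le.1 (fb 0 0 p)).1
        have h2 : X (h 0) 0 p = _ := X0 0 p
        have h3 : 1 ≤ √π := Real.one_le_sqrt.2 (by linarith [pi_gt_three])
        have h4 : 1 / 3 ≤ exp (-p ^ 2) := le_trans (by linarith [exp_neg_one_gt_d9])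
          (exp_le_exp.2 (by nlinarith [hp.1, hp.2] : (-1 : ℝ) ≤ -p ^ 2))
        nlinarith
      · simp [indicator_of_notMem hp]
  · rw [Ev]
    have hi : Integrable fun p : ℝ => exp (-1 * p ^ 2) + 442 * (1 + p ^ 2)⁻¹ :=
      (integrable_exp_neg_mul_sq one_pos).add (integrable_inv_one_add_sq.const_mul _)
    refine lt_of_le_of_lt (lintegral_mono fun p => ENNReal.ofReal_le_ofReal ?_) hi.lintegral_lt_top
    set k := ⌊|p|⌋₊ - 20 with hk
    have k1 : X (h k) 0 p = X h0 0 p := by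
      by_cases h20 : ⌊|p|⌋₊ ≤ 20
      · rw [show k = 0 by omega]; rfl
      · have : (k : ℝ) + 20 ≤ |p| := by
          have : k + 20 = ⌊|p|⌋₊ := by omega
          exact le_trans (by exact_mod_cast this.le) (Nat.floor_le (abs_nonneg p))
        simp only [X]; congr 1; funext s
        refine (hq k).1.out _ (this.trans (abs_le_of_sq_le_sq' ?_ (norm_nonneg _) |> abs_le.2))
        rw [norm_x]; nlinarith [sq_nonneg s]
    have k2 : |p| ≤ k + 21 := by
      have : ⌊|p|⌋₊ ≤ k + 20 := by omega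
      have h2 : (⌊|p|⌋₊ : ℝ) ≤ k + 20 := by exact_mod_cast this
      linarith [Nat.lt_floor_add_one |p|]
    have k3 : (1 / 2 : ℝ) ^ k ≤ 442 * (1 + p ^ 2)⁻¹ := by
      rw [one_div_pow, ← div_eq_mul_inv, div_le_div_iff₀ (by positivity) (by positivity)]
      nlinarith [sq_le k, sq_abs p, abs_nonneg p]
    have k4 := (abs_le.1 (fb k 0 p)).2
    rw [k1, X0] at k4
    rw [neg_one_mul]
    nlinarith [βb k, sqpi, exp_pos (-p ^ 2)]
  · rw [ENNReal.tsum_mul_right, ← ENNReal.ofReal_tsum_of_nonneg (fun k => by positivity) (sg.mul_left 2)]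
    exact ENNReal.mul_ne_top ENNReal.ofReal_ne_top (ENNReal.mul_ne_top (by simp)
      measure_closedBall_lt_top.ne)
  · obtain ⟨n, hn⟩ := (TopologicalSpace.denseRange_denseSeq (ℂ × ℂ)).exists_dist_lt
      (x θ (p + 2) 0, x θ (p + 2) 10) one_pos
    rw [Prod.dist_eq, max_lt_iff, dist_eq_norm, dist_eq_norm] at hn
    let A : ℕ → Set ℝ := fun m => Icc 0 14 ∩ ⋃ k ≥ m, {s | (x θ p s, f θ p) ∈ U k}
    have Am : ∀ m, MeasurableSet (A m) := fun m => measurableSet_Icc.inter
      (MeasurableSet.iUnion fun k => MeasurableSet.iUnion fun _ =>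
        ((x_cont θ p).prodMk continuous_const).measurable (Um k))
    have A1 : ∀ m, 1 ≤ volume (A m) := fun m => by
      obtain ⟨j, hj⟩ := exists_nat_ge (max (m : ℝ) ‖e n‖)
      have j1 : (j : ℝ) ≤ (n.pair j : ℕ) := by exact_mod_cast Nat.right_le_pair n j
      have ec : c (n.pair j) = e n := by
        simp only [c, Nat.unpair_pair]
        rw [if_pos (((le_max_right _ _).trans hj).trans j1)]
      obtain ⟨a, a0, a1, ha⟩ := (hs (n.pair j)).2.2.2.2.2.2.2 θ p hθ (by rw [ec]; exact hn.1.le)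
        (by rw [ec]; exact hn.2.le)
      refine le_trans (by simp) (measure_mono (s := Icc a (a + 1)) fun s hs' =>
        ⟨⟨by linarith [hs'.1], by linarith [hs'.2]⟩, ?_⟩)
      simp only [mem_iUnion]
      refine ⟨n.pair j, by exact_mod_cast ((le_max_left _ _).trans hj).trans j1,
        (x θ p s, θ), ha s hs', by simp only [pp_x]⟩
    have anti : Antitone A := fun a b hab => inter_subset_inter_right _
      (biUnion_subset_biUnion_left fun k hk => le_trans hab hk)
    have T := tendsto_measure_iInter_atTop (μ := volume) (fun m => (Am m).nullMeasurableSet) anti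
      ⟨0, ne_top_of_le_ne_top (by simp) (measure_mono (inter_subset_left (s := Icc (0 : ℝ) 14)))⟩
    refine (ge_of_tendsto' T A1).trans (measure_mono fun s hs' => ?_)
    rw [mem_ofPred_eq, mem_limsup_iff_frequently_mem, frequently_atTop]
    intro m
    have := (mem_iInter.1 hs' m).2
    simpa only [mem_iUnion, exists_prop, mem_ofPred_eq] using this

end Pool.Agent.H92.CR
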