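import Pool.Agent.H92.CR6

namespace Pool.Agent.H92.CR
open MeasureTheory Set Filter Topology Real Cardinal

lemma select {τ : Type} (hτ : #τ ≤ 𝔠) (𝓛 : Set (Set ℂ))
    (h2 : ∀ L ∈ 𝓛, ∀ L' ∈ 𝓛, ∀ a b, a ≠ b → a ∈ L → b ∈ L → a ∈ L' → b ∈ L' → L = L')
    (ℓ K : τ → Set ℂ) (hℓ : ∀ i, ℓ i ∈ 𝓛) (hK : ∀ i, K i ⊆ ℓ i) (hc : ∀ i, 𝔠 ≤ #(K i)) :
    ∃ y : τ → ℂ, (∀ i, y i ∈ K i) ∧ ∀ L ∈ 𝓛, ∃ a b, ∀ i, ℓ i ≠ L → y i ∈ L → y i = a ∨ y i = b := by
  obtain ⟨e⟩ : Nonempty (τ ↪ (𝔠 : Cardinal.{0}).ord.ToType) := by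
    rw [← Cardinal.le_def, mk_ord_toType]; exact hτ
  let r : τ → τ → Prop := fun a b => e a < e b
  have wf : WellFounded r := InvImage.wf e wellFounded_lt
  let F : τ → ℂ → ℂ → Set ℂ := fun i a b =>
    {z | z ∈ ℓ i ∧ a ≠ b ∧ ∃ L ∈ 𝓛, L ≠ ℓ i ∧ a ∈ L ∧ b ∈ L ∧ z ∈ L}
  have hF : ∀ i a b, (F i a b).Subsingleton := by
    rintro i a b z ⟨z1, ab, L, L1, L2, L3, L4, L5⟩ w ⟨w1, -, L', M1, -, M3, M4, M5⟩
    obtain rfl := h2 L L1 L' M1 a b ab L3 L4 M3 M4
    by_contra hzw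
    exact L2 (h2 L L1 _ (hℓ i) z w hzw L5 M5 z1 w1)
  have key : ∀ i (g : ∀ j, r j i → ℂ), ∃ z ∈ K i, ∀ j hj k hk, z ∉ F i (g j hj) (g k hk) := by
    intro i g
    by_contra hh
    push Not at hh
    have h1 : #{j // r j i} < 𝔠 := lt_of_le_of_lt (Cardinal.mk_le_of_injective
      (f := fun j : {j // r j i} => (⟨e j.1, j.2⟩ : Iio (e i)))
      fun a b hab => Subtype.ext (e.injective (congrArg Subtype.val hab))) (mk_Iio_toType_ord_lt (e i))
    choose j hj k hk hz using hh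
    have h3 : #(K i) ≤ #({j // r j i} × {j // r j i}) := Cardinal.mk_le_of_injective
      (f := fun z : K i => ((⟨j z z.2, hj z z.2⟩, ⟨k z z.2, hk z z.2⟩) : {j // r j i} × {j // r j i}))
      fun a b hab => by
        have e1 := congrArg (fun q : {j // r j i} × {j // r j i} => F i (g q.1 q.1.2) (g q.2 q.2.2)) hab
        simp only at e1
        exact Subtype.ext (hF _ _ _ (hz a a.2) (e1 ▸ hz b b.2))
    rw [mk_prod, lift_id] at h3
    exact absurd ((hc i).trans h3) (not_le.2 (mul_lt_of_lt aleph0_le_continuum h1 h1))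
  choose ch c1 c2 using key
  let y : τ → ℂ := wf.fix ch
  have hy : ∀ i, y i = ch i fun j _ => y j := fun i => wf.fix_eq ch i
  refine ⟨y, fun i => hy i ▸ c1 i _, fun L hL => ?_⟩
  have tri : ∀ a b, ¬ r a b → a ≠ b → r b a := fun a b h1 h2 =>
    lt_of_le_of_ne (not_lt.1 h1) fun h => h2 (e.injective h).symm
  by_cases n1 : {i | ℓ i ≠ L ∧ y i ∈ L}.Nonempty
  swap
  · exact ⟨0, 0, fun i a b => absurd ⟨i, a, b⟩ n1⟩
  obtain ⟨j, ⟨j1, j2⟩, jm⟩ := wf.has_min _ n1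
  by_cases n2 : {i | (ℓ i ≠ L ∧ y i ∈ L) ∧ y i ≠ y j}.Nonempty
  swap
  · exact ⟨y j, y j, fun i a b => Or.inl (by_contra fun h => n2 ⟨i, ⟨a, b⟩, h⟩)⟩
  obtain ⟨k, ⟨⟨k1, k2⟩, k3⟩, km⟩ := wf.has_min _ n2
  refine ⟨y j, y k, fun i a b => ?_⟩
  by_contra h
  push Not at h
  have r1 : r j i := tri i j (jm i ⟨a, b⟩) fun e => h.1 (by rw [e])
  have r2 : r k i := tri i k (km i ⟨⟨a, b⟩, h.1⟩) fun e => h.2 (by rw [e])
  refine c2 i (fun j _ => y j) j r1 k r2 ?_
  rw [← hy i]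
  exact ⟨hK i (hy i ▸ c1 i _), k3.symm, L, hL, a.symm, j2, k2, b⟩

lemma x_ps (θ : ℝ) (z : ℂ) : x θ (pp θ z) (ss θ z) = z := by
  apply Complex.ext
  · rw [x_re, pp, ss]; linear_combination z.re * sin_sq_add_cos_sq θ
  · rw [x_im, pp, ss]; linear_combination z.im * sin_sq_add_cos_sq θ

lemma range_x (θ p : ℝ) : range (x θ p) = {z | pp θ z = p} := by
  ext z; constructor
  · rintro ⟨s, rfl⟩; exact pp_x θ p s
  · rintro (rfl : pp θ z = p); exact ⟨_, x_ps θ z⟩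

lemma x_iso (θ p : ℝ) : Isometry (x θ p) := Isometry.of_dist_eq fun a b => by
  rw [dist_eq_norm, Real.dist_eq, ← sq_eq_sq₀ (norm_nonneg _) (abs_nonneg _), nsub θ, pp_x, pp_x,
    ss_x, ss_x, sq_abs]; ring

lemma mu_x (θ p : ℝ) (A : Set ℂ) : μH[1] (range (x θ p) ∩ A) = volume {s | x θ p s ∈ A} := by
  rw [← hausdorffMeasure_real, ← (x_iso θ p).hausdorffMeasure_image (Or.inl zero_le_one)]
  congr 1
  rw [inter_comm, ← image_preimage_eq_inter_range]; rfl

lemma line_sub {θ p θ' p' : ℝ} {a b : ℂ} (hab : a ≠ b) (h1 : a ∈ range (x θ p))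
    (h2 : b ∈ range (x θ p)) (h3 : a ∈ range (x θ' p')) (h4 : b ∈ range (x θ' p')) :
    range (x θ p) ⊆ range (x θ' p') := by
  obtain ⟨s, rfl⟩ := h1
  obtain ⟨t, rfl⟩ := h2
  rintro _ ⟨u, rfl⟩
  rw [range_x, mem_ofPred_eq, pp, x_re, x_im] at *
  have hst : s - t ≠ 0 := sub_ne_zero.2 fun h => hab (by rw [h])
  have : cos θ * sin θ' - sin θ * cos θ' = 0 :=
    (mul_eq_zero.1 (by linear_combination h3 - h4)).resolve_left hst
  linear_combination h3 + (u - s) * this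

lemma card_pos {A : Set ℝ} (hA : MeasurableSet A) (h : volume A ≠ 0) : 𝔠 ≤ #A := by
  obtain ⟨K, KA, Kc, K0⟩ := hA.exists_lt_isCompact (μ := volume) (pos_iff_ne_zero.2 h)
  obtain ⟨g, g1, -, g2⟩ := Kc.isClosed.exists_nat_bool_injection_of_not_countable
    fun hc => K0.ne' (hc.measure_zero _)
  have := Cardinal.mk_le_of_injective (f := fun w => (⟨g w, KA (g1 ⟨w, rfl⟩)⟩ : A))
    fun a b hab => g2 (congrArg Subtype.val hab)
  simpa using this

theorem main : ∃ E : Set ℂ, NullMeasurableSet E volume ∧ 0 < volume E ∧ volume E < ⊤ ∧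
    ∀ δ > 0, ∃ t : ℝ, 0 < t ∧ t < δ ∧ ∀ θ p, |θ| ≤ 4 →
      μH[1] (range (x θ p) ∩ E) ≠ ENNReal.ofReal t := by
  obtain ⟨E, Em, E0, E1, f, Ef, N, Nm, N0, N1⟩ := core
  have hae : ∀ᵐ t : ℝ, volume ((fun z : ℂ => (z, t)) ⁻¹' N) = 0 := by
    rw [Measure.volume_eq_prod, Measure.prod_apply_symm Nm,
      lintegral_eq_zero_iff (measurable_measure_prodMk_right Nm)] at N0
    exact N0
  have ht : ∀ k : ℕ, ∃ t ∈ Ioo (0 : ℝ) (1 / (k + 1)), volume ((fun z : ℂ => (z, t)) ⁻¹' N) = 0 :=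
    fun k => Measure.exists_mem_of_measure_ne_zero_of_ae (by simp; positivity) (ae_restrict_of_ae hae)
  choose t t1 t2 using ht
  set M := ⋃ k, (fun z : ℂ => (z, t k)) ⁻¹' N with hM
  have Mm : MeasurableSet M := MeasurableSet.iUnion fun k => measurable_prodMk_right Nm
  have M0 : volume M = 0 := measure_iUnion_null t2
  let 𝓛 : Set (Set ℂ) := {L | ∃ θ p, |θ| ≤ 4 ∧ L = range (x θ p)}
  have hD : ∀ L ∈ 𝓛, ∃ D, MeasurableSet D ∧ D ⊆ L ∩ M ∧ ∀ w ≤ μH[1] D, (μH[1] D ≠ 0 → w ≠ 0) →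
      ∀ k, μH[1] (L ∩ (E \ M)) + w ≠ ENNReal.ofReal (t k) := by
    rintro _ ⟨θ, p, hθ, rfl⟩
    by_cases h : ∃ k, μH[1] (range (x θ p) ∩ (E \ M)) = ENNReal.ofReal (t k)
    swap
    · refine ⟨∅, MeasurableSet.empty, empty_subset _, fun w hw _ k e => h ⟨k, ?_⟩⟩
      obtain rfl : w = 0 := by simpa using hw
      simpa using e
    obtain ⟨k, hk⟩ := h
    have hA : volume {s | x θ p s ∈ M} ≠ 0 := by
      intro h0
      have e : volume {s | x θ p s ∈ E \ M} = volume {s | x θ p s ∈ E} := measure_sdiff_null h0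
      rw [mu_x, e, Ef] at hk
      have e2 : f θ p = t k := by
        by_cases hf : 0 ≤ f θ p
        · exact (ENNReal.ofReal_eq_ofReal_iff hf (t1 k).1.le).1 hk
        · rw [ENNReal.ofReal_of_nonpos (not_le.1 hf).le, eq_comm, ENNReal.ofReal_eq_zero] at hk
          linarith [(t1 k).1]
      have := (N1 θ p hθ).trans (measure_mono (t := {s | x θ p s ∈ M})
        fun s hs => mem_iUnion.2 ⟨k, e2 ▸ hs⟩)
      rw [h0] at this; simp at this
    have fin : (t '' {j | t k < t j}).Finite := by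
      obtain ⟨n, hn⟩ := exists_nat_one_div_lt (t1 k).1
      refine ((finite_lt_nat n).subset fun j hj => ?_).image t
      by_contra hh
      have : (1 : ℝ) / (j + 1) ≤ 1 / (n + 1) := by
        gcongr; exact not_lt.1 hh
      have hj' : t k < t j := hj
      linarith [(t1 j).2]
    obtain ⟨g, g0, hg⟩ := Metric.isOpen_iff.1 fin.isClosed.isOpen_compl (t k)
      (by rintro ⟨j, hj, e⟩; exact absurd e (ne_of_gt hj))
    obtain ⟨s0, -, hs0⟩ : ∃ s0 ∈ {s | x θ p s ∈ M}, ∀ u ∈ 𝓝[{s | x θ p s ∈ M}] s0, volume u ≠ 0 := by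
      by_contra hh
      push Not at hh
      exact hA (measure_null_of_locally_null _ hh)
    have eD : μH[1] (range (x θ p) ∩ (M ∩ Metric.ball (x θ p s0) (g / 4))) =
        volume ({s | x θ p s ∈ M} ∩ Metric.ball s0 (g / 4)) := by
      rw [mu_x]; congr 1; ext s
      simp only [mem_ofPred_eq, mem_inter_iff, Metric.mem_ball, (x_iso θ p).dist_eq]
    refine ⟨range (x θ p) ∩ (M ∩ Metric.ball (x θ p s0) (g / 4)),
      (x_iso θ p).isClosedEmbedding.isClosed_range.measurableSet.inter (Mm.inter measurableSet_ball),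
      inter_subset_inter_right _ inter_subset_left, fun w w1 w2 j e => ?_⟩
    rw [eD] at w1 w2
    have w0 := w2 (hs0 _ (inter_mem_nhdsWithin _ (Metric.ball_mem_nhds s0 (by positivity))))
    have w3 : w ≤ ENNReal.ofReal (2 * (g / 4)) :=
      w1.trans ((measure_mono inter_subset_right).trans (Real.volume_ball _ _).le)
    have wt : w ≠ ⊤ := ne_top_of_le_ne_top ENNReal.ofReal_ne_top w3
    have w4 := ENNReal.toReal_le_of_le_ofReal (by positivity) w3
    have w5 := ENNReal.toReal_pos w0 wt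
    rw [hk, ← ENNReal.ofReal_toReal wt, ← ENNReal.ofReal_add (t1 k).1.le w5.le,
      ENNReal.ofReal_eq_ofReal_iff (by linarith [(t1 k).1]) (t1 j).1.le] at e
    refine hg (show t j ∈ Metric.ball (t k) g from ?_) ⟨j, show t k < t j by linarith, rfl⟩
    rw [Metric.mem_ball, Real.dist_eq, abs_of_pos (by linarith)]; linarith
  choose! D D1 D2 D3 using hD
  let τ := {q : (ℝ × ℝ) × {Z : Set ℂ | MeasurableSet Z} //
    |q.1.1| ≤ 4 ∧ μH[1] (D (range (x q.1.1 q.1.2)) \ q.2) ≠ 0}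
  have hτ : #τ ≤ 𝔠 := by
    refine (mk_subtype_le _).trans ?_
    have h1 : #{Z : Set ℂ | MeasurableSet Z} ≤ 𝔠 := by
      have := MeasurableSpace.cardinal_measurableSet_le_continuum
        (s := MeasurableSpace.countableGeneratingSet ℂ)
        ((le_aleph0_iff_set_countable.2 MeasurableSpace.countable_countableGeneratingSet).trans
          aleph0_le_continuum)
      rwa [MeasurableSpace.generateFrom_countableGeneratingSet] at this
    rw [mk_prod, mk_prod]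
    simp only [lift_id, mk_real, continuum_mul_self]
    exact (mul_le_mul_right h1 _).trans (by rw [continuum_mul_self])
  have hl : ∀ i : τ, range (x i.1.1.1 i.1.1.2) ∈ 𝓛 := fun i => ⟨_, _, i.2.1, rfl⟩
  obtain ⟨y, y1, y2⟩ := select hτ 𝓛 (by
      rintro _ ⟨θ, p, -, rfl⟩ _ ⟨θ', p', -, rfl⟩ a b hab h1 h2 h3 h4
      exact (line_sub hab h1 h2 h3 h4).antisymm (line_sub hab h3 h4 h1 h2))
    (fun i => range (x i.1.1.1 i.1.1.2)) (fun i => D (range (x i.1.1.1 i.1.1.2)) \ i.1.2) hl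
    (fun i z hz => (D2 _ (hl i) hz.1).1) fun i => by
      have sub : D (range (x i.1.1.1 i.1.1.2)) \ i.1.2 ⊆ range (x i.1.1.1 i.1.1.2) :=
        fun z hz => (D2 _ (hl i) hz.1).1
      have h0 := i.2.2
      rw [← inter_eq_right.2 sub, mu_x] at h0
      refine (card_pos ((x_cont _ _).measurable ((D1 _ (hl i)).diff i.1.2.2)) h0).trans ?_
      exact Cardinal.mk_le_of_injective (f := fun s => ⟨x _ _ s.1, s.2⟩)
        fun a b hab => Subtype.ext ((x_iso _ _).injective (congrArg Subtype.val hab))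
  have yM : range y ⊆ M := by
    rintro _ ⟨i, rfl⟩; exact (D2 _ (hl i) (y1 i).1).2
  have S0 : volume (range y) = 0 := measure_mono_null yM M0
  have ev : volume (E \ M ∪ range y) = volume E := by
    rw [← measure_sdiff_null (s := E) M0]
    exact le_antisymm ((measure_union_le _ _).trans (by rw [S0, add_zero]))
      (measure_mono subset_union_left)
  refine ⟨E \ M ∪ range y, (Em.diff Mm).nullMeasurableSet.union (NullMeasurableSet.of_null S0),
    ev ▸ E0, ev ▸ E1, fun δ hδ => ?_⟩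
  obtain ⟨k, hk⟩ := exists_nat_one_div_lt hδ
  refine ⟨t k, (t1 k).1, (t1 k).2.trans hk, fun θ p hθ => ?_⟩
  have hL : range (x θ p) ∈ 𝓛 := ⟨θ, p, hθ, rfl⟩
  have := Measure.nullSingletonClass_hausdorff ℂ one_pos
  rw [inter_union_distrib_left, measure_union' (disjoint_left.2 fun z h1 h2 => h1.2.2 (yM h2.2))
    ((x_iso θ p).isClosedEmbedding.isClosed_range.measurableSet.inter (Em.diff Mm))]
  refine D3 _ hL _ ?_ (fun h0 h1 => ?_) k
  · obtain ⟨a, b, hab⟩ := y2 _ hL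
    refine (measure_mono (t := D (range (x θ p)) ∪ {a, b}) ?_).trans
      ((measure_union_le _ _).trans (by rw [(toFinite {a, b}).measure_zero, add_zero]))
    rintro _ ⟨h1, i, rfl⟩
    by_cases h : range (x i.1.1.1 i.1.1.2) = range (x θ p)
    · exact Or.inl (h ▸ (y1 i).1)
    · exact Or.inr (hab i h h1)
  · obtain ⟨Z, z1, z2, z3⟩ := exists_measurable_superset_of_null h1
    let i : τ := ⟨((θ, p), ⟨Z, z2⟩), hθ, by rwa [measure_sdiff_null z3]⟩
    exact (y1 i).2 (z1 ⟨(D2 _ hL (y1 i).1).1, i, rfl⟩)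

theorem final : ∃ E : Set (EuclideanSpace ℝ (Fin 2)), NullMeasurableSet E volume ∧ 0 < volume E ∧
    volume E < ⊤ ∧ ∀ δ > 0, ∃ t : ℝ, 0 < t ∧ t < δ ∧ ∀ (u : EuclideanSpace ℝ (Fin 2)) (p : ℝ),
      ‖u‖ = 1 → μH[1] ({z | inner ℝ z u = p} ∩ E) ≠ ENNReal.ofReal t := by
  obtain ⟨E, h1, h2, h3, h4⟩ := main
  let e := Complex.orthonormalBasisOneI.repr
  have mp : MeasurePreserving e.symm volume volume := e.symm.measurePreserving
  have ev : volume (e.symm ⁻¹' E) = volume E := mp.measure_preimage h1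
  refine ⟨e.symm ⁻¹' E, h1.preimage mp.quasiMeasurePreserving, ev ▸ h2, ev ▸ h3, fun δ hδ => ?_⟩
  obtain ⟨t, t0, t1, ht⟩ := h4 δ hδ
  refine ⟨t, t0, t1, fun u p hu => ?_⟩
  have hn : ‖e.symm u‖ = 1 := by rw [e.symm.norm_map, hu]
  have h0 : e.symm u ≠ 0 := by intro h; rw [h] at hn; simp at hn
  have hθ : |(e.symm u).arg| ≤ 4 := (Complex.abs_arg_le_pi _).trans pi_le_four
  have : {z | inner ℝ z u = p} ∩ e.symm ⁻¹' E = e '' (range (x (e.symm u).arg p) ∩ E) := by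
    rw [e.image_eq_preimage_symm, preimage_inter, range_x]
    congr 1; ext z
    simp only [mem_ofPred_eq, mem_preimage, pp, Complex.cos_arg h0, Complex.sin_arg, hn, div_one]
    rw [← e.symm.inner_map_map, Complex.inner]
    simp only [Complex.mul_re, Complex.conj_re, Complex.conj_im]
    constructor <;> intro h <;> linarith
  rw [this, e.isometry.hausdorffMeasure_image (Or.inl zero_le_one)]
  exact ht _ p hθ

end Pool.Agent.H92.CR
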