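import Pool.Agent.H92.CellGabor

set_option autoImplicit false
open MeasureTheory Real Complex ComplexConjugate Finset

namespace Pool.Agent.H92.CellGabor

def AL : List (Fin 4 → ℤ) := [![0, 0, 0, 0], ![0, 1, 0, 0], ![0, 0, 1, 0], ![0, 1, 1, 0], ![1, 0, 0, 0],
  ![1, 1, 0, 1], ![1, 0, 1, 1], ![1, 1, 1, 2], ![2, 0, 0, 0], ![2, 0, 0, 1], ![2, 1, 1, 1], ![2, 1, 1, 2]]

def A : Finset (Fin 4 → ℤ) := ⟨↑AL, by decide +kernel⟩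

def AT : List (ℤ × ℤ × ℤ × ℤ) := AL.map fun n => (n 0, n 1, n 2, n 3)

lemma memA (n : Fin 4 → ℤ) : n ∈ A ↔ (n 0, n 1, n 2, n 3) ∈ AT := by
  simp only [A, AT, mem_mk, Multiset.mem_coe, List.mem_map, Prod.mk.injEq]
  refine ⟨fun h => ⟨n, h, rfl, rfl, rfl, rfl⟩, fun ⟨m, h, h0, h1, h2, h3⟩ => ?_⟩
  rwa [show n = m from funext fun i => by fin_cases i <;> simp [*]]

instance fastA (n : Fin 4 → ℤ) : Decidable (n ∈ A) := decidable_of_iff' _ (memA n)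

def α : Fin 8 → Fin 4 → ℤ := ![![0, 0, 0, 0], ![0, 1, 1, 1], ![0, 1, 1, 1], ![0, 0, 1, 1], ![0, 0, 1, 1],
  ![0, 0, 1, 0], ![0, 0, 1, 0], ![0, 0, 0, 0]]

def bb : Fin 8 → Fin 4 → ℤ := ![![0, 0, 0, 0], ![0, 1, 1, 1], ![0, 0, 1, 1], ![0, 0, 0, 1], ![0, 1, 0, 0],
  ![0, 1, 0, 1], ![0, 1, 1, 0], ![0, 0, 1, 0]]

def w (s : Fin 8) (θ : Fin 3) : Fin 4 → ℤ := fun i => if i = 0 then 2 * θ.val else 3 * bb s i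

def P : Fin 4 → ℤ := ![3, 2, 2, 2]

def dot (u v : Fin 4 → ℤ) : ℤ := u 0 * v 0 + u 1 * v 1 + u 2 * v 2 + u 3 * v 3

def W (z : ℤ) : ℤ × ℤ := if z % 6 = 0 then (1, 0) else if z % 6 = 1 then (0, 1) else if z % 6 = 2 then (-1, 1)
  else if z % 6 = 3 then (-1, 0) else if z % 6 = 4 then (0, -1) else (1, -1)

lemma chkO : ∀ s s' : Fin 8, ∀ u ∈ AL, ∀ v ∈ AL, (∀ i, (u i - v i - α s i + α s' i) % P i = 0) → ∀ θ θ' : Fin 3,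
    (s = s' ∧ θ = θ' ∧ u = v) ∨ ∑ n ∈ A with n + (u - v) ∈ A, W (dot (w s θ - w s' θ') n) = 0 := by
  decide +kernel

def TT : Fin 3 → Fin 2 → Fin 2 → Fin 2 → Fin 4 → (Fin 4 → ℤ) × Fin 8 :=
  ![![![![![(![0, 0, 0, 0], 0), (![0, 0, 0, 0], 7), (![0, 0, 1, 0], 5), (![0, 0, 1, 0], 6)],
    ![(![0, 0, 1, 0], 3), (![0, 0, 1, 0], 4), (![0, 1, 1, 0], 1), (![0, 1, 1, 0], 2)]],
    ![![(![0, 0, 0, 0], 5), (![0, 0, 0, 0], 6), (![0, 0, 1, 0], 0), (![0, 0, 1, 0], 7)],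
    ![(![0, 0, 0, 0], 3), (![0, 0, 0, 0], 4), (![0, 1, 0, 0], 1), (![0, 1, 0, 0], 2)]]],
    ![![![(![0, 1, 0, 0], 0), (![0, 1, 0, 0], 7), (![0, 1, 1, 0], 5), (![0, 1, 1, 0], 6)],
    ![(![0, 0, 1, 0], 1), (![0, 0, 1, 0], 2), (![0, 1, 1, 0], 3), (![0, 1, 1, 0], 4)]],
    ![![(![0, 1, 0, 0], 5), (![0, 1, 0, 0], 6), (![0, 1, 1, 0], 0), (![0, 1, 1, 0], 7)],
    ![(![0, 0, 0, 0], 1), (![0, 0, 0, 0], 2), (![0, 1, 0, 0], 3), (![0, 1, 0, 0], 4)]]]],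
    ![![![![(![1, 0, 0, 0], 0), (![1, 0, 0, 0], 7), (![1, 0, 1, 1], 3), (![1, 0, 1, 1], 4)],
    ![(![1, 0, 1, 1], 5), (![1, 0, 1, 1], 6), (![1, 1, 1, 2], 1), (![1, 1, 1, 2], 2)]],
    ![![(![1, 0, 0, 0], 5), (![1, 0, 0, 0], 6), (![1, 1, 0, 1], 1), (![1, 1, 0, 1], 2)],
    ![(![1, 0, 0, 0], 3), (![1, 0, 0, 0], 4), (![1, 0, 1, 1], 0), (![1, 0, 1, 1], 7)]]],
    ![![![(![1, 0, 1, 1], 1), (![1, 0, 1, 1], 2), (![1, 1, 1, 2], 5), (![1, 1, 1, 2], 6)],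
    ![(![1, 1, 0, 1], 0), (![1, 1, 0, 1], 7), (![1, 1, 1, 2], 3), (![1, 1, 1, 2], 4)]],
    ![![(![1, 1, 0, 1], 3), (![1, 1, 0, 1], 4), (![1, 1, 1, 2], 0), (![1, 1, 1, 2], 7)],
    ![(![1, 0, 0, 0], 1), (![1, 0, 0, 0], 2), (![1, 1, 0, 1], 5), (![1, 1, 0, 1], 6)]]]],
    ![![![![(![2, 0, 0, 0], 0), (![2, 0, 0, 0], 7), (![2, 1, 1, 1], 1), (![2, 1, 1, 1], 2)],
    ![(![2, 0, 0, 1], 0), (![2, 0, 0, 1], 7), (![2, 1, 1, 2], 1), (![2, 1, 1, 2], 2)]],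
    ![![(![2, 0, 0, 0], 5), (![2, 0, 0, 0], 6), (![2, 0, 0, 1], 3), (![2, 0, 0, 1], 4)],
    ![(![2, 0, 0, 0], 3), (![2, 0, 0, 0], 4), (![2, 0, 0, 1], 5), (![2, 0, 0, 1], 6)]]],
    ![![![(![2, 1, 1, 1], 3), (![2, 1, 1, 1], 4), (![2, 1, 1, 2], 5), (![2, 1, 1, 2], 6)],
    ![(![2, 1, 1, 1], 5), (![2, 1, 1, 1], 6), (![2, 1, 1, 2], 3), (![2, 1, 1, 2], 4)]],
    ![![(![2, 0, 0, 1], 1), (![2, 0, 0, 1], 2), (![2, 1, 1, 2], 0), (![2, 1, 1, 2], 7)],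
    ![(![2, 0, 0, 0], 1), (![2, 0, 0, 0], 2), (![2, 1, 1, 1], 0), (![2, 1, 1, 1], 7)]]]]]

lemma chkC : ∀ r0 : Fin 3, ∀ r1 r2 r3 : Fin 2, (∀ l, (TT r0 r1 r2 r3 l).1 ∈ A ∧ ∀ i,
    ((![r0.val, r1.val, r2.val, r3.val] : Fin 4 → ℤ) i - (TT r0 r1 r2 r3 l).1 i - α (TT r0 r1 r2 r3 l).2 i) % P i = 0) ∧
    ∀ u ∈ AL, ∀ v ∈ AL, ∑ l, (if (TT r0 r1 r2 r3 l).1 + (u - v) ∈ A then
      ∑ θ, W (-dot (w (TT r0 r1 r2 r3 l).2 θ) (u - v)) else 0) = if u - v = 0 then (12, 0) else 0 := by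
  decide +kernel

lemma chkH : ∀ y ∈ A, ∃ y1 ∈ A, ∃ y2 ∈ A, y1 ≠ y2 ∧ ![1, 1, 1, 1] - y = y1 - y2 := by
  decide +kernel

end Pool.Agent.H92.CellGabor
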