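import Pool.Agent.H92.CellGabor2

set_option autoImplicit false
open MeasureTheory Real Complex ComplexConjugate Finset

namespace Pool.Agent.H92.CellGabor

noncomputable def ζ : ℂ := exp (-2 * π * I / 6)

lemma ζ6 : ζ ^ (6:ℤ) = 1 := by
  rw [ζ, ← exp_int_mul, ← exp_int_mul_two_pi_mul_I (-1)]; congr 1; push_cast; ring

lemma ζ2 : ζ ^ 2 = ζ - 1 := by
  have : ζ = 1 / 2 - (√3 / 2 : ℝ) * I := by
    rw [ζ, show -2 * π * I / 6 = ((-(π / 3) : ℝ) : ℂ) * I by push_cast; ring, exp_mul_I, ← ofReal_cos,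
      ← ofReal_sin, Real.cos_neg, Real.sin_neg, Real.cos_pi_div_three, Real.sin_pi_div_three]
    push_cast; ring
  have h3 : ((√3 : ℝ) : ℂ) ^ 2 = 3 := by exact_mod_cast Real.sq_sqrt (show (0:ℝ) ≤ 3 by norm_num)
  rw [this]; push_cast
  linear_combination (I ^ 2 / 4) * h3 + (3 / 4) * I_sq

noncomputable def TH : ℤ × ℤ →+ ℂ where
  toFun p := p.1 + p.2 * ζ
  map_zero' := by simp
  map_add' p q := by simp; ring

lemma TH_W (z : ℤ) : ζ ^ z = TH (W z) := by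
  have z0 : ζ ≠ 0 := exp_ne_zero _
  rw [← Int.emod_add_mul_ediv z 6, zpow_add₀ z0, zpow_mul, ζ6, one_zpow, mul_one, Int.emod_add_mul_ediv, W]
  have h1 := Int.emod_nonneg z (show (6:ℤ) ≠ 0 by norm_num)
  have h2 := Int.emod_lt_of_pos z (show (0:ℤ) < 6 by norm_num)
  generalize z % 6 = r at h1 h2
  have e := ζ2
  interval_cases r <;> simp [TH, zpow_ofNat]
  · linear_combination e
  · linear_combination (ζ + 1) * e
  · linear_combination (ζ ^ 2 + ζ) * e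
  · linear_combination (ζ ^ 3 + ζ ^ 2 - 1) * e

noncomputable def φ (u : Fin 4 → ℤ) : V 4 := (1 / 6 : ℝ) • ι u

lemma ee_φ (n u : Fin 4 → ℤ) : ee (ι n) (φ u) = ζ ^ dot u n := by
  rw [ζ, ← exp_int_mul, ee]; congr 1
  simp [φ, ι, dot, PiLp.inner_apply, Fin.sum_univ_four]; ring

lemma φ_sub (u v : Fin 4 → ℤ) : φ u - φ v = φ (u - v) := by rw [φ, φ, φ, ι_sub, smul_sub]

lemma φ_neg (u : Fin 4 → ℤ) : -φ u = φ (-u) := by rw [φ, φ, ι_neg, smul_neg]

def aa (j : Fin 8 × Fin 3 × (Fin 4 → ℤ)) : Fin 4 → ℤ := α j.1 + P * j.2.2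

lemma P_ne (i : Fin 4) : P i ≠ 0 := by fin_cases i <;> simp [P]

lemma discO (j j' : Fin 8 × Fin 3 × (Fin 4 → ℤ)) (h : j ≠ j') :
    ∑ n ∈ A with n + (aa j - aa j') ∈ A, ee (ι (n + aa j)) (φ (w j.1 j.2.1 - w j'.1 j'.2.1)) = 0 := by
  obtain ⟨s, θ, m⟩ := j
  obtain ⟨s', θ', m'⟩ := j'
  rcases (A.filter fun n => n + (aa (s, θ, m) - aa (s', θ', m')) ∈ A).eq_empty_or_nonempty with e | ⟨v, hv⟩
  · rw [e, sum_empty]
  obtain ⟨v1, v2⟩ := mem_filter.mp hv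
  rcases chkO s s' _ v2 v v1 (fun i => by
    simp only [aa, Pi.add_apply, Pi.sub_apply, Pi.mul_apply]
    rw [show v i + (α s i + P i * m i - (α s' i + P i * m' i)) - v i - α s i + α s' i = P i * (m i - m' i) by ring]
    exact Int.mul_emod_right _ _) θ θ' with ⟨rfl, rfl, e⟩ | e
  · refine absurd ?_ h
    congr 2; ext i
    have := congrFun e i
    simp only [aa, Pi.add_apply, Pi.sub_apply, Pi.mul_apply] at this
    exact mul_left_cancel₀ (P_ne i) (by linarith)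
  · simp only [ι_add, ee_addl, ← sum_mul, ee_φ, TH_W, ← map_sum]
    rw [add_sub_cancel_left] at e
    rw [e, map_zero, zero_mul]

lemma discC (F : (Fin 4 → ℤ) → ℂ) (H : ∀ j : Fin 8 × Fin 3 × (Fin 4 → ℤ),
    ∑ n ∈ A, F (n + aa j) * ee (ι (n + aa j)) (-φ (w j.1 j.2.1)) = 0) (m : Fin 4 → ℤ) : F m = 0 := by
  have r : ∀ (z : ℤ) (q : ℕ), 0 < q → ∃ r : Fin q, ∃ k, z = r.val + q * k := fun z q hq =>
    ⟨⟨(z % q).toNat, by have := Int.emod_lt_of_pos z (show (0:ℤ) < q by omega); omega⟩, z / q, by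
      simp only [Int.toNat_of_nonneg (Int.emod_nonneg z (show (q:ℤ) ≠ 0 by omega)), Int.emod_add_mul_ediv]⟩
  obtain ⟨r0, k0, e0⟩ := r (m 0) 3 (by norm_num)
  obtain ⟨r1, k1, e1⟩ := r (m 1) 2 (by norm_num)
  obtain ⟨r2, k2, e2⟩ := r (m 2) 2 (by norm_num)
  obtain ⟨r3, k3, e3⟩ := r (m 3) 2 (by norm_num)
  obtain ⟨c1, c2⟩ := chkC r0 r1 r2 r3
  generalize TT r0 r1 r2 r3 = T at c1 c2
  let D := image₂ (· - ·) A A
  have s1 : ∀ l θ, ∑ δ ∈ D, F (m + δ) * (if (T l).1 + δ ∈ A then TH (W (-dot (w (T l).2 θ) δ)) else 0) = 0 := by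
    intro l θ
    have : ∀ i, ∃ k, m i - (T l).1 i - α (T l).2 i = P i * k := fun i => by
      obtain ⟨k, hk⟩ := Int.dvd_of_emod_eq_zero ((c1 l).2 i)
      refine ⟨k + (![k0, k1, k2, k3] : Fin 4 → ℤ) i, ?_⟩
      fin_cases i <;> simp [P] at hk ⊢ <;> omega
    choose k hk using this
    have h := H ((T l).2, θ, k)
    rw [show aa ((T l).2, θ, k) = m - (T l).1 from funext fun i => by
      simp only [aa, Pi.add_apply, Pi.sub_apply, Pi.mul_apply]; linarith [hk i]] at h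
    simp only [mul_ite, mul_zero, ← sum_filter]
    refine Eq.trans ?_ ((congrArg (ee (ι m) (φ (w (T l).2 θ)) * ·) h).trans (mul_zero _))
    simp only
    rw [mul_sum]
    refine sum_nbij' (fun δ => (T l).1 + δ) (fun n => n - (T l).1) (fun δ h => (mem_filter.mp h).2)
      (fun n hn => mem_filter.mpr ⟨mem_image₂_of_mem hn (c1 l).1, by simpa using hn⟩) (by simp) (by simp)
      fun δ _ => ?_
    rw [show (T l).1 + δ + (m - (T l).1) = m + δ by ring, ι_add, ee_addl, ← TH_W, φ_neg, ee_φ, ee_φ, ee_φ,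
      mul_left_comm, ← mul_assoc (ζ ^ _), ← zpow_add₀ (show ζ ≠ 0 from Complex.exp_ne_zero _)]
    simp only [dot, Pi.neg_apply]
    congr 1
    rw [← zpow_add₀ (show ζ ≠ 0 from Complex.exp_ne_zero _)]; congr 1; ring
  have s2 : ∑ δ ∈ D, F (m + δ) * (if δ = 0 then 12 else 0) = 0 := by
    refine Eq.trans ?_ (sum_eq_zero (s := univ) fun l _ => sum_eq_zero (s := univ) fun θ _ => s1 l θ)
    simp only [sum_comm (t := D), ← mul_sum]
    refine sum_congr rfl fun δ hδ => ?_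
    obtain ⟨u, hu, v, hv, rfl⟩ := mem_image₂.mp hδ
    have := congrArg TH (c2 u hu v hv)
    simp only [map_sum, apply_ite TH, map_zero] at this
    simp only [sum_ite_irrel, sum_const_zero, this]
    simp [TH]
  simp only [mul_ite, mul_zero, sum_ite_eq', add_zero] at s2
  rw [if_pos (mem_image₂.mpr ⟨_, (c1 0).1, _, (c1 0).1, sub_self _⟩)] at s2
  simpa using s2

lemma TT_mem (l : Fin 4) : (TT 0 0 0 0 l).1 ∈ A := ((chkC 0 0 0 0).1 l).1

theorem main : ∃ (d : ℕ) (E : Set (V d)), 0 < d ∧ MeasurableSet E ∧ volume E < ⊤ ∧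
    (¬ ∃ B : Set (V d), (∀ b ∈ B, ∀ b' ∈ B, b ≠ b' → ∫ x in E, ee x b * conj (ee x b') = 0) ∧
      (∀ f : V d → ℂ, MemLp f 2 (volume.restrict E) →
        (∀ b ∈ B, ∫ x in E, f x * conj (ee x b) = 0) → f =ᵐ[volume.restrict E] 0)) ∧
    ∃ S : Set (V d × V d), (∀ p ∈ S, ∀ q ∈ S, p ≠ q →
      ∫ x, (E.indicator (fun _ => (1 : ℂ)) (x - p.1) * ee x p.2) *
        conj (E.indicator (fun _ => (1 : ℂ)) (x - q.1) * ee x q.2) = 0) ∧
      (∀ f : V d → ℂ, MemLp f 2 volume →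
        (∀ p ∈ S, ∫ x, f x * conj (E.indicator (fun _ => (1 : ℂ)) (x - p.1) * ee x p.2) = 0) → f =ᵐ[volume] 0) := by
  refine ⟨4, {x | cl x ∈ A}, by norm_num, meas_E A, fin_E A, nonspec (TT_mem 0) chkH,
    Set.range fun j : (Fin 8 × Fin 3 × (Fin 4 → ℤ)) × (Fin 4 → ℤ) => (ι (aa j.1), φ (w j.1.1 j.1.2.1) + ι j.2), ?_,
    fun f hf H => complete A aa (fun j => φ (w j.1 j.2.1)) discC hf fun j k => by
      have := H (ι (aa j), φ (w j.1 j.2.1) + ι k) ⟨(j, k), rfl⟩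
      simp only at this ⊢
      exact this⟩
  rintro _ ⟨⟨j, k⟩, rfl⟩ _ ⟨⟨j', k'⟩, rfl⟩ hne
  refine Eq.trans ?_ ((orth A (aa j) (aa j') (k - k') (φ (w j.1 j.2.1 - w j'.1 j'.2.1))).trans ?_)
  · congr 1; ext x
    rw [map_mul, ee_conj, mul_mul_mul_comm, ← ee_addr, ← φ_sub, ι_sub]
    congr 2
    · simp only [Set.indicator]; split_ifs <;> simp
    · simp only; abel
  · by_cases h : j = j'
    · subst h
      rw [sub_self (w _ _), show φ 0 = 0 by ext; simp [φ, ι], zero_add, int_Q, if_neg, mul_zero]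
      exact fun e => hne (by rw [sub_eq_zero.mp e])
    · exact mul_eq_zero_of_left (by convert discO j j' h) _

end Pool.Agent.H92.CellGabor
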