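import Mathlib

set_option autoImplicit false
open MeasureTheory Set Metric Filter Topology Real
open scoped ContDiff

namespace H92.Cond

noncomputable def K (ρ : ℝ) (x : ℂ) : ℝ := -(Real.log (‖x‖ ^ 2 + ρ ^ 2)) / 2
noncomputable def g (ρ : ℝ) (x : ℂ) : ℂ := (-(‖x‖ ^ 2 + ρ ^ 2)⁻¹ : ℝ) • x
noncomputable def psi (ρ : ℝ) (x : ℂ) : ℝ := 2 * ρ ^ 2 / (‖x‖ ^ 2 + ρ ^ 2) ^ 2
noncomputable def C1 : ℝ := ∫ x : ℂ, psi 1 x * ‖x‖

lemma den_pos {ρ : ℝ} (hρ : 0 < ρ) (x : ℂ) : 0 < ‖x‖ ^ 2 + ρ ^ 2 := by positivity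

lemma den_sm (ρ : ℝ) : ContDiff ℝ ∞ fun x : ℂ => ‖x‖ ^ 2 + ρ ^ 2 :=
  (contDiff_norm_sq ℝ).add contDiff_const

lemma K_sm {ρ : ℝ} (hρ : 0 < ρ) : ContDiff ℝ ∞ (K ρ) :=
  (((den_sm ρ).log fun x => (den_pos hρ x).ne').neg).div_const 2

lemma g_sm {ρ : ℝ} (hρ : 0 < ρ) : ContDiff ℝ ∞ (g ρ) :=
  (((den_sm ρ).inv fun x => (den_pos hρ x).ne').neg).smul contDiff_id

lemma psi_cont {ρ : ℝ} (hρ : 0 < ρ) : Continuous (psi ρ) :=
  continuous_const.div ((den_sm ρ).continuous.pow 2) fun x => (pow_pos (den_pos hρ x) 2).ne'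

lemma psi_nn (ρ : ℝ) (x : ℂ) : 0 ≤ psi ρ x := by unfold psi; positivity

lemma den_fd (ρ : ℝ) (x : ℂ) :
    HasFDerivAt (fun x : ℂ => ‖x‖ ^ 2 + ρ ^ 2) ((2:ℝ) • innerSL ℝ x) x := by
  have := (hasStrictFDerivAt_norm_sq x).hasFDerivAt.add_const (ρ ^ 2)
  refine this.congr_fderiv ?_
  refine ContinuousLinearMap.ext fun v => ?_
  simp only [smul_apply, two_smul, add_apply]

lemma K_fd {ρ : ℝ} (hρ : 0 < ρ) (x : ℂ) : HasFDerivAt (K ρ) (innerSL ℝ (g ρ x)) x := by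
  have h := (((den_fd ρ x).log (den_pos hρ x).ne').neg).mul_const (2⁻¹ : ℝ)
  have h2 : HasFDerivAt (K ρ) _ x := h
  refine h2.congr_fderiv ?_
  refine ContinuousLinearMap.ext fun v => ?_
  simp only [g, smul_apply, neg_apply, innerSL_apply_apply, real_inner_smul_left, smul_eq_mul]
  ring

lemma g_div {ρ : ℝ} (hρ : 0 < ρ) (x : ℂ) :
    (fderiv ℝ (g ρ) x 1).re + (fderiv ℝ (g ρ) x Complex.I).im = - psi ρ x := by
  have h0 := den_pos hρ x
  have h1 : HasFDerivAt (fun x : ℂ => -(‖x‖ ^ 2 + ρ ^ 2)⁻¹) _ x :=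
    ((hasDerivAt_inv h0.ne').comp_hasFDerivAt x (den_fd ρ x)).neg
  have h2 : HasFDerivAt (g ρ) _ x := h1.smul (hasFDerivAt_id x)
  rw [h2.fderiv]
  have e : ‖x‖ ^ 2 = x.re ^ 2 + x.im ^ 2 := by
    rw [Complex.sq_norm, Complex.normSq_apply]; ring
  simp only [psi, add_apply, smul_apply, neg_apply, ContinuousLinearMap.smulRight_apply,
    ContinuousLinearMap.id_apply, innerSL_apply_apply, Complex.inner, Complex.add_re,
    Complex.add_im, Complex.smul_re, Complex.smul_im, smul_eq_mul, Complex.one_re, Complex.I_im,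
    Complex.mul_re, Complex.conj_re, Complex.conj_im, Complex.one_im, Complex.I_re, id]
  rw [e] at h0 ⊢
  field_simp
  ring

lemma g_norm {ρ : ℝ} (hρ : 0 < ρ) (x : ℂ) : ‖g ρ x‖ = ‖x‖ / (‖x‖ ^ 2 + ρ ^ 2) := by
  rw [g, norm_smul, norm_neg, Real.norm_eq_abs, abs_of_pos (inv_pos.2 (den_pos hρ x))]; ring

lemma g_le {ρ m : ℝ} (hρ : 0 < ρ) (hm : 0 < m) {x : ℂ} (hx : m ≤ ‖x‖) : ‖g ρ x‖ ≤ 1 / m := by
  rw [g_norm hρ, div_le_div_iff₀ (den_pos hρ x) hm]; nlinarith [sq_nonneg ρ]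

lemma g_bd {ρ : ℝ} (hρ : 0 < ρ) (x : ℂ) : ‖g ρ x‖ ≤ 1 / ρ := by
  rw [g_norm hρ, div_le_div_iff₀ (den_pos hρ x) hρ]; nlinarith [sq_nonneg (‖x‖ - ρ), norm_nonneg x]

lemma K_le_log {ρ : ℝ} (hρ : 0 < ρ) (x : ℂ) : K ρ x ≤ - Real.log ρ := by
  have : Real.log (ρ ^ 2) ≤ Real.log (‖x‖ ^ 2 + ρ ^ 2) :=
    Real.log_le_log (by positivity) (by nlinarith [sq_nonneg ‖x‖])
  rw [Real.log_pow] at this; unfold K; push_cast at this; linarith

lemma K_le_log' {ρ : ℝ} {x : ℂ} (hx : x ≠ 0) : K ρ x ≤ - Real.log ‖x‖ := by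
  have h0 : 0 < ‖x‖ := norm_pos_iff.2 hx
  have : Real.log (‖x‖ ^ 2) ≤ Real.log (‖x‖ ^ 2 + ρ ^ 2) :=
    Real.log_le_log (by positivity) (by nlinarith [sq_nonneg ρ])
  rw [Real.log_pow] at this; unfold K; push_cast at this; linarith

lemma K_ge {ρ : ℝ} (hρ : 0 < ρ) (x : ℂ) {a b : ℝ} (ha : 0 < a) (hb : 0 ≤ b) (h : ‖x‖ + ρ ≤ a + b) :
    - Real.log a - b / a ≤ K ρ x := by
  have h1 : Real.log (‖x‖ ^ 2 + ρ ^ 2) ≤ Real.log ((a + b) ^ 2) :=
    Real.log_le_log (den_pos hρ x) (by nlinarith [norm_nonneg x])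
  have h2 : Real.log (a + b) ≤ Real.log a + b / a := by
    have : a + b = a * (1 + b / a) := by field_simp
    rw [this, Real.log_mul ha.ne' (by positivity)]
    have := Real.log_le_sub_one_of_pos (show 0 < 1 + b / a by positivity)
    linarith
  rw [Real.log_pow] at h1; unfold K; push_cast at h1; linarith

lemma K_abs {ρ : ℝ} (hρ : 0 < ρ) (x : ℂ) : |K ρ x| ≤ |Real.log ρ| + ‖x‖ / ρ := by
  have h1 := K_le_log hρ x
  have h2 := K_ge hρ x hρ (norm_nonneg x) (by linarith)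
  have h3 : 0 ≤ ‖x‖ / ρ := by positivity
  rw [abs_le]; constructor <;> linarith [le_abs_self (Real.log ρ), neg_abs_le (Real.log ρ)]

lemma inv_den_le {ρ : ℝ} (hρ : 0 < ρ) (w : ℂ) : ∃ C : ℝ, 0 ≤ C ∧ ∀ x : ℂ,
    (‖x - w‖ ^ 2 + ρ ^ 2)⁻¹ ≤ C * ((1 + ‖x‖) ^ 2)⁻¹ := by
  refine ⟨2 + 2 * (1 + ‖w‖) ^ 2 / ρ ^ 2, by positivity, fun x => ?_⟩
  have h1 : ‖x‖ ≤ ‖x - w‖ + ‖w‖ := by simpa using norm_add_le (x - w) w
  rw [← div_eq_mul_inv, le_div_iff₀ (by positivity), inv_mul_le_iff₀ (den_pos hρ _)]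
  have h2 : (1 + ‖x‖) ^ 2 ≤ 2 * (1 + ‖w‖) ^ 2 + 2 * ‖x - w‖ ^ 2 := by
    have : (1 + ‖x‖) ^ 2 ≤ ((1 + ‖w‖) + ‖x - w‖) ^ 2 :=
      pow_le_pow_left₀ (by positivity) (by linarith) 2
    nlinarith [sq_nonneg (1 + ‖w‖ - ‖x - w‖)]
  have h3 : ρ ^ 2 * (2 * (1 + ‖w‖) ^ 2 / ρ ^ 2) = 2 * (1 + ‖w‖) ^ 2 := by field_simp
  have h4 : 0 ≤ ‖x - w‖ ^ 2 * (2 * (1 + ‖w‖) ^ 2 / ρ ^ 2) := by positivity
  nlinarith [sq_nonneg ρ]

lemma int_jap : Integrable fun x : ℂ => ((1 + ‖x‖) ^ 3)⁻¹ := by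
  have := integrable_one_add_norm (E := ℂ) (μ := volume) (r := 3) (by simp; norm_num)
  refine this.congr (Eventually.of_forall fun x => ?_)
  simp only
  rw [Real.rpow_neg (by positivity)]; norm_cast

lemma int_psi_mul {ρ : ℝ} (hρ : 0 < ρ) {u : ℂ → ℝ} (hu : Continuous u) {A B : ℝ}
    (h : ∀ x, |u x| ≤ A + B * ‖x‖) : Integrable fun x => psi ρ x * u x := by
  obtain ⟨C, C0, hC⟩ := inv_den_le hρ 0
  refine (int_jap.const_mul (2 * ρ ^ 2 * C ^ 2 * (|A| + |B|))).mono'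
    ((psi_cont hρ).mul hu).aestronglyMeasurable (Eventually.of_forall fun x => ?_)
  rw [Real.norm_eq_abs, abs_mul, abs_of_nonneg (psi_nn ρ x)]
  have h1 := hC x
  rw [sub_zero] at h1
  have h2 : psi ρ x ≤ 2 * ρ ^ 2 * (C * ((1 + ‖x‖) ^ 2)⁻¹) ^ 2 := by
    rw [psi, div_eq_mul_inv, ← inv_pow]; gcongr
  have h3 : |u x| ≤ (|A| + |B|) * (1 + ‖x‖) := by
    have := h x
    have := mul_le_mul_of_nonneg_right (le_abs_self B) (norm_nonneg x)
    nlinarith [le_abs_self A, abs_nonneg A, abs_nonneg B, norm_nonneg x]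
  refine (mul_le_mul h2 h3 (abs_nonneg _) (by positivity)).trans (le_of_eq ?_)
  field_simp

lemma int_psi {ρ : ℝ} (hρ : 0 < ρ) : Integrable (psi ρ) := by
  simpa using int_psi_mul hρ (u := fun _ => 1) continuous_const (A := 1) (B := 0) (by simp)

lemma int_psi_norm {ρ : ℝ} (hρ : 0 < ρ) : Integrable fun x : ℂ => psi ρ x * ‖x‖ :=
  int_psi_mul hρ continuous_norm (A := 0) (B := 1) (by simp)

lemma vol_ball : (volume : Measure ℂ).real (ball 0 1) = π := by
  simp [measureReal_def, Complex.volume_ball]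

lemma psi_total {ρ : ℝ} (hρ : 0 < ρ) : ∫ x, psi ρ x = 2 * π := by
  have h := integral_fun_norm_addHaar (volume : Measure ℂ) (fun y : ℝ => 2 * ρ ^ 2 / (y ^ 2 + ρ ^ 2) ^ 2)
  have h2 : ∫ y in Ioi (0:ℝ), y * (2 * ρ ^ 2 / (y ^ 2 + ρ ^ 2) ^ 2) = 0 - (-(ρ ^ 2) / (0 ^ 2 + ρ ^ 2)) := by
    refine integral_Ioi_of_hasDerivAt_of_nonneg' (g := fun y => -(ρ ^ 2) / (y ^ 2 + ρ ^ 2))
      (fun y _ => ?_) (fun y hy => by have : (0:ℝ) < y := hy; positivity) ?_
    · have := (((hasDerivAt_pow 2 y).add_const (ρ ^ 2)).fun_inv (by positivity)).const_mul (-(ρ ^ 2))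
      refine HasDerivAt.congr_deriv this ?_
      simp; field_simp
    · exact tendsto_const_nhds.div_atTop (tendsto_atTop_add_const_right _ _ (tendsto_pow_atTop two_ne_zero))
  simp only [Complex.finrank_real_complex, vol_ball, Nat.add_one_sub_one, pow_one, smul_eq_mul] at h
  rw [h2] at h
  refine h.trans ?_
  simp only [nsmul_eq_mul]; field_simp; ring

lemma C1_nn : 0 ≤ C1 := integral_nonneg fun x => mul_nonneg (psi_nn _ _) (norm_nonneg _)

lemma psi_mom {ρ : ℝ} (hρ : 0 < ρ) : ∫ x : ℂ, psi ρ x * ‖x‖ = ρ * C1 := by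
  have h := Measure.integral_comp_smul_of_nonneg (volume : Measure ℂ)
    (fun x : ℂ => psi ρ x * ‖x‖) ρ (hR := hρ.le)
  have e : ∀ x : ℂ, psi ρ (ρ • x) * ‖ρ • x‖ = ρ⁻¹ * (psi 1 x * ‖x‖) := by
    intro x
    simp only [psi, norm_smul, Real.norm_eq_abs, abs_of_pos hρ]
    field_simp
  simp only [e, integral_const_mul, Complex.finrank_real_complex, smul_eq_mul] at h
  have : ∫ x : ℂ, psi ρ x * ‖x‖ = ρ ^ 2 * ((ρ ^ 2)⁻¹ * ∫ x : ℂ, psi ρ x * ‖x‖) := by field_simp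
  rw [this, ← h, C1]; field_simp

lemma avg_ge {ρ : ℝ} (hρ : 0 < ρ) {u : ℂ → ℝ} (hi : Integrable fun x => psi ρ x * u x) {a L : ℝ}
    (h : ∀ x, a - L * ‖x‖ ≤ u x) : 2 * π * a - L * (ρ * C1) ≤ ∫ x, psi ρ x * u x := by
  rw [← psi_total hρ, ← psi_mom hρ, ← integral_mul_const, ← integral_const_mul,
    ← integral_sub ((int_psi hρ).mul_const _) ((int_psi_norm hρ).const_mul _)]
  refine integral_mono (((int_psi hρ).mul_const _).sub ((int_psi_norm hρ).const_mul _)) hi fun x => ?_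
  have := mul_le_mul_of_nonneg_left (h x) (psi_nn ρ x)
  simp only; linarith

lemma avg_le {ρ : ℝ} (hρ : 0 < ρ) {u : ℂ → ℝ} (hi : Integrable fun x => psi ρ x * u x) {a L : ℝ}
    (h : ∀ x, u x ≤ a + L * ‖x‖) : ∫ x, psi ρ x * u x ≤ 2 * π * a + L * (ρ * C1) := by
  have := avg_ge hρ (u := fun x => - u x) (by simpa using hi.neg) (a := -a) (L := L)
    (fun x => by linarith [h x])
  simp only [mul_neg, integral_neg] at this
  linarith

lemma int_psi_K {ρ : ℝ} (hρ : 0 < ρ) (y : ℂ) : Integrable fun x => psi ρ x * K ρ (x + y) := by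
  refine int_psi_mul hρ ((K_sm hρ).continuous.comp (continuous_add_const y))
    (A := |Real.log ρ| + ‖y‖ / ρ) (B := 1 / ρ) fun x => (K_abs hρ _).trans ?_
  have : ‖x + y‖ / ρ ≤ (‖x‖ + ‖y‖) / ρ := by gcongr; exact norm_add_le _ _
  have e : (‖x‖ + ‖y‖) / ρ = ‖y‖ / ρ + 1 / ρ * ‖x‖ := by ring
  linarith

lemma circ_K {ρ : ℝ} (hρ : 0 < ρ) {y : ℂ} (hy : y ≠ 0) (x : ℂ) :
    ∫ θ in (0:ℝ)..2 * π, K ρ (circleMap 0 1 θ * x + y) ≤ 2 * π * (- Real.log ‖y‖) := by
  rcases eq_or_ne x 0 with rfl | hx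
  · simp only [mul_zero, zero_add, intervalIntegral.integral_const, sub_zero, smul_eq_mul]
    exact mul_le_mul_of_nonneg_left (K_le_log' hy) (by positivity)
  have hx0 : 0 < ‖x‖ := norm_pos_iff.2 hx
  have hc : Continuous fun ζ : ℂ => K ρ (ζ * x + y) := (K_sm hρ).continuous.comp (by fun_prop)
  have i1 : CircleIntegrable (fun ζ : ℂ => Real.log ‖ζ - -(y / x)‖) 0 1 :=
    circleIntegrable_log_norm_sub_const 1
  have i0 : IntervalIntegrable (fun θ : ℝ => K ρ (circleMap 0 1 θ * x + y)) volume 0 (2 * π) :=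
    (hc.comp (continuous_circleMap 0 1)).intervalIntegrable _ _
  have i2 : IntervalIntegrable (fun θ : ℝ => - Real.log ‖x‖ - Real.log ‖circleMap 0 1 θ - -(y / x)‖)
      volume 0 (2 * π) := intervalIntegrable_const.sub i1
  have hcount : (circleMap 0 1 ⁻¹' {-(y / x)}).Countable :=
    (Set.countable_singleton _).preimage_circleMap 0 one_ne_zero
  refine (intervalIntegral.integral_mono_ae (by positivity) i0 i2 ?_).trans ?_
  · filter_upwards [hcount.ae_notMem volume] with θ hθ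
    have h1 : circleMap 0 1 θ - -(y / x) ≠ 0 := sub_ne_zero.2 hθ
    have h2 : circleMap 0 1 θ * x + y = x * (circleMap 0 1 θ - -(y / x)) := by field_simp; ring
    rw [h2]
    refine (K_le_log' (mul_ne_zero hx h1)).trans (le_of_eq ?_)
    rw [norm_mul, Real.log_mul hx0.ne' (norm_ne_zero_iff.2 h1)]; ring
  · rw [intervalIntegral.integral_sub intervalIntegrable_const i1, intervalIntegral.integral_const]
    have h3 := circleAverage_log_norm_sub_const_eq_posLog (a := -(y / x))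
    rw [circleAverage_def, smul_eq_mul, inv_mul_eq_iff_eq_mul₀ (by positivity)] at h3
    rw [h3, norm_neg, norm_div]
    have h4 : Real.log (‖y‖ / ‖x‖) ≤ log⁺ (‖y‖ / ‖x‖) := le_max_right _ _
    rw [Real.log_div (norm_ne_zero_iff.2 hy) hx0.ne'] at h4
    simp only [sub_zero, smul_eq_mul]
    nlinarith [Real.pi_pos]

lemma mean_K {ρ : ℝ} (hρ : 0 < ρ) {y : ℂ} (hy : y ≠ 0) :
    ∫ x, psi ρ x * K ρ (x + y) ≤ 2 * π * (- Real.log ‖y‖) := by
  have hn : ∀ θ : ℝ, ∀ x : ℂ, ‖circleMap 0 1 θ * x‖ = ‖x‖ := fun θ x => by simp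
  have rot : ∀ θ : ℝ, ∫ x, psi ρ x * K ρ (circleMap 0 1 θ * x + y) = ∫ x, psi ρ x * K ρ (x + y) := by
    intro θ
    have := (rotation (Circle.exp θ)).measurePreserving.integral_comp
      (rotation (Circle.exp θ)).toHomeomorph.measurableEmbedding (fun x => psi ρ x * K ρ (x + y))
    rw [← this]
    congr 1; ext x
    have e : rotation (Circle.exp θ) x = circleMap 0 1 θ * x := by simp [circleMap]
    rw [e]; simp only [psi, hn]
  have hK := (K_sm hρ).continuous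
  have hp := psi_cont hρ
  have hI : Integrable (Function.uncurry fun (θ : ℝ) (x : ℂ) => psi ρ x * K ρ (circleMap 0 1 θ * x + y))
      ((volume.restrict (uIoc 0 (2 * π))).prod volume) := by
    have hb : Integrable fun x : ℂ => psi ρ x * (|Real.log ρ| + ‖y‖ / ρ + 1 / ρ * ‖x‖) :=
      int_psi_mul hρ (by fun_prop) (A := |Real.log ρ| + ‖y‖ / ρ) (B := 1 / ρ) fun x =>
        le_of_eq (abs_of_nonneg (by positivity))
    have : IsFiniteMeasure (volume.restrict (uIoc (0:ℝ) (2 * π))) := by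
      rw [uIoc_of_le (by positivity)]; infer_instance
    refine (hb.comp_snd _).mono' (Continuous.aestronglyMeasurable ?_) (Eventually.of_forall fun p => ?_)
    · have := continuous_circleMap 0 1
      unfold Function.uncurry
      fun_prop
    · simp only [Function.uncurry]
      rw [Real.norm_eq_abs, abs_mul, abs_of_nonneg (psi_nn _ _)]
      refine mul_le_mul_of_nonneg_left ((K_abs hρ _).trans ?_) (psi_nn _ _)
      have : ‖circleMap 0 1 p.1 * p.2 + y‖ / ρ ≤ (‖p.2‖ + ‖y‖) / ρ := by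
        gcongr; exact (norm_add_le _ _).trans (by rw [hn])
      have e : (‖p.2‖ + ‖y‖) / ρ = ‖y‖ / ρ + 1 / ρ * ‖p.2‖ := by ring
      linarith
  have sw := intervalIntegral_integral_swap hI
  simp only [rot, intervalIntegral.integral_const, sub_zero, smul_eq_mul,
    intervalIntegral.integral_const_mul] at sw
  have hI2 : Integrable fun x : ℂ => psi ρ x * ∫ θ in (0:ℝ)..2 * π, K ρ (circleMap 0 1 θ * x + y) := by
    have := hI.integral_prod_right
    simp only [Function.uncurry, integral_const_mul] at this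
    refine this.congr (Eventually.of_forall fun x => ?_)
    simp only
    rw [intervalIntegral.integral_of_le (by positivity), uIoc_of_le (by positivity)]
  have := avg_le hρ hI2 (L := 0) (a := 2 * π * (- Real.log ‖y‖)) fun x => by
    simpa using circ_K hρ hy x
  rw [← sw, zero_mul, add_zero] at this
  exact le_of_mul_le_mul_left this (by positivity)

lemma g_ball {ρ : ℝ} (hρ : 0 < ρ) {s : ℝ} (hs : 0 < s) :
    ∫ x, (ball (0:ℂ) s).indicator (fun x => ‖g ρ x‖) x ≤ 2 * π * s := by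
  have h := integral_fun_norm_addHaar (volume : Measure ℂ)
    ((Iio s).indicator fun y : ℝ => y / (y ^ 2 + ρ ^ 2))
  have e : ∀ x : ℂ, (ball (0:ℂ) s).indicator (fun x => ‖g ρ x‖) x =
      (Iio s).indicator (fun y : ℝ => y / (y ^ 2 + ρ ^ 2)) ‖x‖ := by
    intro x
    by_cases hx : ‖x‖ < s
    · rw [indicator_of_mem (mem_ball_zero_iff.2 hx), indicator_of_mem (show ‖x‖ ∈ Iio s from hx),
        g_norm hρ]
    · rw [indicator_of_notMem (mem_ball_zero_iff.not.2 hx),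
        indicator_of_notMem (show ‖x‖ ∉ Iio s from hx)]
  simp only [e]
  rw [h]
  simp only [Complex.finrank_real_complex, vol_ball, Nat.add_one_sub_one, pow_one, smul_eq_mul,
    nsmul_eq_mul]
  have h2 : ∫ y in Ioi (0:ℝ), y * (Iio s).indicator (fun y : ℝ => y / (y ^ 2 + ρ ^ 2)) y ≤
      ∫ y in Ioi (0:ℝ), (Iio s).indicator (fun _ => (1:ℝ)) y := by
    refine integral_mono_of_nonneg ?_ ?_ ?_
    · filter_upwards [ae_restrict_mem measurableSet_Ioi] with y hy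
      have : (0:ℝ) < y := hy
      refine mul_nonneg this.le ?_
      by_cases h : y ∈ Iio s
      · rw [indicator_of_mem h]; positivity
      · rw [indicator_of_notMem h]
    · rw [integrable_indicator_iff measurableSet_Iio, IntegrableOn,
        Measure.restrict_restrict measurableSet_Iio, Iio_inter_Ioi]
      exact integrableOn_const (by simp)
    · refine Eventually.of_forall fun y => ?_
      by_cases hy : y ∈ Iio s
      · simp only [indicator_of_mem hy]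
        rw [← mul_div_assoc, div_le_one (by positivity)]; nlinarith [sq_nonneg ρ]
      · simp [indicator_of_notMem hy]
  rw [setIntegral_indicator measurableSet_Iio, Ioi_inter_Iio] at h2
  simp only [integral_const, MeasurableSet.univ, measureReal_restrict_apply, univ_inter,
    Real.volume_real_Ioo, sub_zero, smul_eq_mul, mul_one, max_eq_left hs.le] at h2
  have := Real.pi_pos
  push_cast; nlinarith

end H92.Cond
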