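import Pool.Agent.H92.Cond1

set_option autoImplicit false
open MeasureTheory Set Metric Filter Topology Real
open scoped ContDiff

namespace H92.Cond

variable {ι : Type} [Fintype ι]

noncomputable def W (ρ : ℝ) (c : ι → ℝ) (w : ι → ℂ) (x : ℂ) : ℝ := ∑ i, c i * K ρ (x - w i)
noncomputable def F (ρ : ℝ) (c : ι → ℝ) (w : ι → ℂ) (x : ℂ) : ℂ := ∑ i, c i • g ρ (x - w i)

lemma W_sm {ρ : ℝ} (hρ : 0 < ρ) (c : ι → ℝ) (w : ι → ℂ) : ContDiff ℝ ∞ (W ρ c w) :=
  ContDiff.sum fun i _ => contDiff_const.mul ((K_sm hρ).comp (contDiff_id.sub contDiff_const))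

lemma F_sm {ρ : ℝ} (hρ : 0 < ρ) (c : ι → ℝ) (w : ι → ℂ) : ContDiff ℝ ∞ (F ρ c w) :=
  ContDiff.sum fun i _ => ((g_sm hρ).comp (contDiff_id.sub contDiff_const)).const_smul _

lemma W_fd {ρ : ℝ} (hρ : 0 < ρ) (c : ι → ℝ) (w : ι → ℂ) (x : ℂ) :
    HasFDerivAt (W ρ c w) (innerSL ℝ (F ρ c w x)) x := by
  have h : HasFDerivAt (W ρ c w) _ x := HasFDerivAt.fun_sum (u := Finset.univ) fun i _ =>
    ((K_fd hρ (x - w i)).comp x ((hasFDerivAt_id x).sub_const (w i))).const_mul (c i)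
  refine h.congr_fderiv (ContinuousLinearMap.ext fun v => ?_)
  simp only [F, innerSL_apply_apply, sum_inner, real_inner_smul_left, sum_apply,
    smul_apply, ContinuousLinearMap.comp_apply, ContinuousLinearMap.id_apply, smul_eq_mul]

lemma F_div {ρ : ℝ} (hρ : 0 < ρ) (c : ι → ℝ) (w : ι → ℂ) (x : ℂ) :
    (fderiv ℝ (F ρ c w) x 1).re + (fderiv ℝ (F ρ c w) x Complex.I).im =
      - ∑ i, c i * psi ρ (x - w i) := by
  have h : HasFDerivAt (F ρ c w) _ x := HasFDerivAt.fun_sum (u := Finset.univ) fun i _ =>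
    ((((g_sm hρ).differentiable (by simp)) (x - w i)).hasFDerivAt.comp x
      ((hasFDerivAt_id x).sub_const (w i))).fun_const_smul (c i)
  rw [h.fderiv]
  simp only [sum_apply, smul_apply, ContinuousLinearMap.comp_apply,
    ContinuousLinearMap.id_apply, Complex.re_sum, Complex.im_sum, Complex.smul_re, Complex.smul_im,
    smul_eq_mul, ← Finset.sum_add_distrib, ← mul_add, g_div hρ, mul_neg, Finset.sum_neg_distrib]

lemma g_diff {ρ : ℝ} (hρ : 0 < ρ) (w : ℂ) : ∃ C : ℝ, 0 ≤ C ∧ ∀ x : ℂ,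
    ‖g ρ (x - w) - g ρ x‖ ≤ C * ((1 + ‖x‖) ^ 2)⁻¹ := by
  obtain ⟨C, C0, hC⟩ := inv_den_le hρ w
  refine ⟨‖w‖ * (3 + ‖w‖ / ρ) * C, by positivity, fun x => ?_⟩
  have hA := den_pos hρ (x - w)
  have hB := den_pos hρ x
  set A := ‖x - w‖ ^ 2 + ρ ^ 2 with hAd
  set B := ‖x‖ ^ 2 + ρ ^ 2 with hBd
  have e : g ρ (x - w) - g ρ x = A⁻¹ • (w + ((A - B) / B) • x) := by
    simp only [g, ← hAd, ← hBd, smul_add, smul_sub, smul_smul]
    have : A⁻¹ * ((A - B) / B) = B⁻¹ - A⁻¹ := by field_simp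
    rw [this]; simp only [sub_smul, neg_smul]; abel
  have h1 : |A - B| ≤ ‖w‖ * (2 * ‖x‖ + ‖w‖) := by
    have a1 : |‖x - w‖ - ‖x‖| ≤ ‖w‖ := by simpa using abs_norm_sub_norm_le (x - w) x
    have a2 : ‖x - w‖ ≤ ‖x‖ + ‖w‖ := norm_sub_le _ _
    have : A - B = (‖x - w‖ - ‖x‖) * (‖x - w‖ + ‖x‖) := by rw [hAd, hBd]; ring
    rw [this, abs_mul, abs_of_nonneg (by positivity : 0 ≤ ‖x - w‖ + ‖x‖)]
    exact mul_le_mul a1 (by linarith) (by positivity) (norm_nonneg _)
  have h2 : ‖((A - B) / B) • x‖ ≤ ‖w‖ * (2 + ‖w‖ / ρ) := by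
    rw [norm_smul, Real.norm_eq_abs, abs_div, abs_of_pos hB, div_mul_eq_mul_div, div_le_iff₀ hB]
    have b1 : ‖x‖ ≤ B / ρ := by
      rw [le_div_iff₀ hρ, hBd]; nlinarith [sq_nonneg (‖x‖ - ρ), norm_nonneg x]
    have b2 : ‖x‖ * ‖x‖ ≤ B := by rw [hBd]; nlinarith [sq_nonneg ρ]
    calc |A - B| * ‖x‖ ≤ ‖w‖ * (2 * ‖x‖ + ‖w‖) * ‖x‖ := by gcongr
      _ = ‖w‖ * (2 * (‖x‖ * ‖x‖) + ‖w‖ * ‖x‖) := by ring
      _ ≤ ‖w‖ * (2 * B + ‖w‖ * (B / ρ)) := by gcongr
      _ = _ := by ring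
  rw [e, norm_smul, Real.norm_eq_abs, abs_of_pos (inv_pos.2 hA)]
  calc A⁻¹ * ‖w + ((A - B) / B) • x‖ ≤ (C * ((1 + ‖x‖) ^ 2)⁻¹) * (‖w‖ + ‖w‖ * (2 + ‖w‖ / ρ)) :=
        mul_le_mul (hC x) ((norm_add_le _ _).trans (by linarith)) (norm_nonneg _) (by positivity)
    _ = _ := by ring

lemma F_decay {ρ : ℝ} (hρ : 0 < ρ) {c : ι → ℝ} (hc : ∑ i, c i = 0) (w : ι → ℂ) :
    ∃ C : ℝ, 0 ≤ C ∧ ∀ x : ℂ, ‖F ρ c w x‖ ≤ C * ((1 + ‖x‖) ^ 2)⁻¹ := by
  choose C C0 hC using fun i => g_diff hρ (w i)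
  refine ⟨∑ i, |c i| * C i, Finset.sum_nonneg fun i _ => mul_nonneg (abs_nonneg _) (C0 i), fun x => ?_⟩
  have e : F ρ c w x = ∑ i, c i • (g ρ (x - w i) - g ρ x) := by
    simp only [F, smul_sub, Finset.sum_sub_distrib, ← Finset.sum_smul, hc, zero_smul, sub_zero]
  rw [e, Finset.sum_mul]
  refine (norm_sum_le _ _).trans (Finset.sum_le_sum fun i _ => ?_)
  rw [norm_smul, Real.norm_eq_abs, mul_assoc]
  exact mul_le_mul_of_nonneg_left (hC i x) (abs_nonneg _)

lemma F_sq_int {ρ : ℝ} (hρ : 0 < ρ) {c : ι → ℝ} (hc : ∑ i, c i = 0) (w : ι → ℂ) :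
    Integrable fun x => ‖F ρ c w x‖ ^ 2 := by
  obtain ⟨C, C0, hC⟩ := F_decay hρ hc w
  refine (int_jap.const_mul (C ^ 2)).mono' ((F_sm hρ c w).continuous.norm.pow 2).aestronglyMeasurable
    (Eventually.of_forall fun x => ?_)
  rw [Real.norm_eq_abs, abs_of_nonneg (by positivity)]
  refine (pow_le_pow_left₀ (norm_nonneg _) (hC x) 2).trans ?_
  rw [mul_pow, inv_pow]
  gcongr
  rw [← pow_mul]
  exact pow_le_pow_right₀ (by linarith [norm_nonneg x]) (by norm_num)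

lemma K_diff {ρ : ℝ} (hρ : 0 < ρ) (w : ℂ) :
    Tendsto (fun x => K ρ (x - w) - K ρ x) (cocompact ℂ) (𝓝 0) := by
  have hn : Tendsto (fun x : ℂ => ‖x‖ - ‖w‖) (cocompact ℂ) atTop :=
    tendsto_atTop_add_const_right _ _ (tendsto_norm_cocompact_atTop (E := ℂ))
  have h0 : Tendsto (fun x : ℂ => 1 / (‖x‖ - ‖w‖) * ‖w‖) (cocompact ℂ) (𝓝 0) := by
    simpa using (tendsto_const_nhds (x := (1:ℝ)).div_atTop hn).mul_const ‖w‖
  refine squeeze_zero_norm' ?_ h0
  filter_upwards [hn.eventually_gt_atTop 0] with x hx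
  have := (convex_closedBall x ‖w‖).norm_image_sub_le_of_norm_hasFDerivWithin_le (𝕜 := ℝ)
    (f := K ρ) (f' := fun y => innerSL ℝ (g ρ y)) (C := 1 / (‖x‖ - ‖w‖))
    (fun y _ => (K_fd hρ y).hasFDerivWithinAt) (fun y hy => by
      rw [innerSL_apply_norm]
      refine g_le hρ hx ?_
      rw [mem_closedBall, dist_eq_norm] at hy
      have := norm_sub_norm_le x y
      rw [norm_sub_rev] at this
      linarith) (mem_closedBall_self (norm_nonneg _))
    (show x - w ∈ closedBall x ‖w‖ by simp [dist_eq_norm])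
  simpa using this

lemma W_lim {ρ : ℝ} (hρ : 0 < ρ) {c : ι → ℝ} (hc : ∑ i, c i = 0) (w : ι → ℂ) :
    Tendsto (W ρ c w) (cocompact ℂ) (𝓝 0) := by
  have e : W ρ c w = fun x => ∑ i, c i * (K ρ (x - w i) - K ρ x) := by
    ext x
    simp only [W, mul_sub, Finset.sum_sub_distrib, ← Finset.sum_mul, hc, zero_mul, sub_zero]
  rw [e]
  simpa using tendsto_finsetSum Finset.univ fun i _ => (K_diff hρ (w i)).const_mul (c i)

lemma bdd_of_lim {u : ℂ → ℝ} (hu : Continuous u) {a : ℝ} (h : Tendsto u (cocompact ℂ) (𝓝 a)) :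
    ∃ B, ∀ x, |u x| ≤ B := by
  obtain ⟨S, hS, h1⟩ := mem_cocompact.1 (h.eventually (Metric.ball_mem_nhds a one_pos))
  obtain ⟨C, hC⟩ := hS.exists_bound_of_continuousOn hu.continuousOn
  refine ⟨max C (|a| + 1), fun x => ?_⟩
  by_cases hx : x ∈ S
  · exact le_max_of_le_left (hC x hx)
  · have h2 : dist (u x) a < 1 := h1 hx
    rw [Real.dist_eq] at h2
    have := abs_sub_abs_le_abs_sub (u x) a
    exact le_max_of_le_right (by linarith)

lemma ae_diff {u : ℂ → ℝ} (hu : LocallyLipschitz u) : ∀ᵐ x : ℂ, DifferentiableAt ℝ u x := by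
  have : ∀ n : ℕ, ∀ᵐ x : ℂ, x ∈ ball (0:ℂ) n → DifferentiableAt ℝ u x := by
    intro n
    obtain ⟨L, hL⟩ := hu.locallyLipschitzOn.exists_lipschitzOnWith_of_compact
      (isCompact_closedBall (0:ℂ) n)
    filter_upwards [(hL.mono ball_subset_closedBall).ae_differentiableWithinAt_of_mem (μ := volume)]
      with x hx hb using (hx hb).differentiableAt (isOpen_ball.mem_nhds hb)
  filter_upwards [ae_all_iff.2 this] with x hx
  obtain ⟨n, hn⟩ := exists_nat_gt ‖x‖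
  exact hx n (mem_ball_zero_iff.2 hn)

lemma dec (L : ℂ →L[ℝ] ℝ) (v : ℂ) : L v = v.re * L 1 + v.im * L Complex.I := by
  conv_lhs => rw [show v = v.re • (1:ℂ) + v.im • Complex.I by simp]
  rw [map_add, map_smul, map_smul]; rfl

/-- integration by parts against a compactly supported smooth scalar -/
lemma ibp0 {u : ℂ → ℝ} (hu : LocallyLipschitz u) {φ : ℂ → ℝ} (hφ : ContDiff ℝ ∞ φ)
    (hc : HasCompactSupport φ) (v : ℂ) :
    Integrable (fun x => fderiv ℝ u x v * φ x) ∧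
    ∫ x, fderiv ℝ u x v * φ x = - ∫ x, fderiv ℝ φ x v * u x := by
  obtain ⟨R, hR⟩ := hc.isCompact.isBounded.subset_ball (0:ℂ)
  obtain ⟨L, hL⟩ := hu.locallyLipschitzOn.exists_lipschitzOnWith_of_compact
    (isCompact_closedBall (0:ℂ) R)
  obtain ⟨f, hf, he⟩ := hL.extend_real
  obtain ⟨D, hD⟩ := (hφ.of_le (by simp) : ContDiff ℝ 1 φ).lipschitzWith_of_hasCompactSupport hc one_ne_zero
  have e1 : (fun x => lineDeriv ℝ f x v * φ x) =ᵐ[volume] fun x => fderiv ℝ u x v * φ x := by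
    filter_upwards [hf.ae_differentiableAt (μ := volume)] with x hx
    by_cases hb : x ∈ ball (0:ℂ) R
    · have : u =ᶠ[𝓝 x] f := by
        filter_upwards [isOpen_ball.mem_nhds hb] with y hy using he (ball_subset_closedBall hy)
      rw [hx.lineDeriv_eq_fderiv, this.fderiv_eq]
    · rw [image_eq_zero_of_notMem_tsupport (fun h => hb (hR h))]; simp
  refine ⟨Integrable.congr ?_ e1, ?_⟩
  · exact (hφ.continuous.integrable_of_hasCompactSupport hc).bdd_mul (c := L * ‖v‖)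
      (aestronglyMeasurable_lineDeriv hf.continuous _)
      (Eventually.of_forall fun x => norm_lineDeriv_le_of_lipschitz ℝ hf)
  · rw [← integral_congr_ae e1, hf.integral_lineDeriv_mul_eq hD hc v, ← integral_neg]
    congr 1; ext x
    rw [(hφ.differentiable (by simp) x).lineDeriv_eq_fderiv, map_neg, neg_mul]
    by_cases hb : x ∈ ball (0:ℂ) R
    · rw [he (ball_subset_closedBall hb)]
    · rw [fderiv_of_notMem_tsupport ℝ (fun h => hb (hR h))]; simp

lemma cutoffs : ∃ (χ : ℕ → ℂ → ℝ) (M : ℝ), 0 ≤ M ∧ (∀ n, ContDiff ℝ ∞ (χ n)) ∧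
    (∀ n, HasCompactSupport (χ n)) ∧ (∀ n x, |χ n x| ≤ 1) ∧ (∀ x, ∀ᶠ n in atTop, χ n x = 1) ∧
    (∀ n x, ‖fderiv ℝ (χ n) x‖ ≤ M * (1 + ‖x‖)⁻¹) ∧ (∀ n x, ‖fderiv ℝ (χ n) x‖ ≤ M / ((n:ℝ) + 1)) := by
  let f : ContDiffBump (0:ℂ) := ⟨1, 2, by norm_num, by norm_num⟩
  have h1 : ContDiff ℝ ∞ f := f.contDiff
  obtain ⟨M, hM⟩ := (h1.continuous_fderiv (by simp)).bounded_above_of_compact_support
    (f.hasCompactSupport.fderiv ℝ)
  have M0 : 0 ≤ M := (norm_nonneg _).trans (hM 0)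
  have hz : ∀ n : ℕ, ∀ x : ℂ, x ∉ closedBall (0:ℂ) (2 * ((n:ℝ) + 1)) →
      ((n:ℝ) + 1)⁻¹ • x ∉ tsupport f := by
    intro n x hx h
    rw [f.tsupport_eq, mem_closedBall_zero_iff, norm_smul, Real.norm_eq_abs,
      abs_of_pos (by positivity), inv_mul_le_iff₀ (by positivity)] at h
    exact hx (mem_closedBall_zero_iff.2 (by simpa [f, mul_comm] using h))
  have hd : ∀ n : ℕ, ∀ x : ℂ, fderiv ℝ (fun x : ℂ => f (((n:ℝ) + 1)⁻¹ • x)) x =
      ((n:ℝ) + 1)⁻¹ • fderiv ℝ f (((n:ℝ) + 1)⁻¹ • x) := by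
    intro n x
    have a : HasFDerivAt (fun x : ℂ => f (((n:ℝ) + 1)⁻¹ • x)) _ x :=
      (h1.differentiable (by simp) _).hasFDerivAt.comp x ((hasFDerivAt_id x).fun_const_smul _)
    rw [a.fderiv]
    refine ContinuousLinearMap.ext fun v => ?_
    simp only [ContinuousLinearMap.comp_apply, smul_apply, ContinuousLinearMap.id_apply, map_smul, id]
  have hb : ∀ n : ℕ, ∀ x : ℂ, ‖fderiv ℝ (fun x : ℂ => f (((n:ℝ) + 1)⁻¹ • x)) x‖ ≤ M / ((n:ℝ) + 1) := by
    intro n x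
    rw [hd, norm_smul, Real.norm_eq_abs, abs_of_pos (by positivity), div_eq_inv_mul]
    exact mul_le_mul_of_nonneg_left (hM _) (by positivity)
  refine ⟨fun n x => f (((n:ℝ) + 1)⁻¹ • x), 3 * M, by positivity,
    fun n => h1.comp (contDiff_id.const_smul _),
    fun n => HasCompactSupport.intro (isCompact_closedBall 0 _) fun x hx =>
      image_eq_zero_of_notMem_tsupport (hz n x hx),
    fun n x => by rw [abs_of_nonneg f.nonneg]; exact f.le_one, fun x => ?_, fun n x => ?_,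
    fun n x => (hb n x).trans (by gcongr; linarith)⟩
  · obtain ⟨N, hN⟩ := exists_nat_ge ‖x‖
    filter_upwards [eventually_ge_atTop N] with n hn
    have : (N:ℝ) ≤ n := by exact_mod_cast hn
    refine f.one_of_mem_closedBall ?_
    rw [mem_closedBall_zero_iff, norm_smul, Real.norm_eq_abs, abs_of_pos (by positivity),
      inv_mul_le_iff₀ (by positivity)]
    simp only [f]; linarith
  · by_cases hx : x ∈ closedBall (0:ℂ) (2 * ((n:ℝ) + 1))
    · refine (hb n x).trans ?_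
      rw [mem_closedBall_zero_iff] at hx
      rw [← div_eq_mul_inv, div_le_div_iff₀ (by positivity) (by positivity)]
      have : (0:ℝ) ≤ n := Nat.cast_nonneg n
      nlinarith
    · rw [hd, fderiv_of_notMem_tsupport ℝ (hz n x hx)]; simp; positivity

theorem ibp {ρ : ℝ} (hρ : 0 < ρ) {c : ι → ℝ} (hc : ∑ i, c i = 0) (w : ι → ℂ) {u : ℂ → ℝ}
    (hu : LocallyLipschitz u) {B : ℝ} (hB : ∀ x, |u x| ≤ B)
    (hi : Integrable fun x => fderiv ℝ u x (F ρ c w x)) :
    ∫ x, fderiv ℝ u x (F ρ c w x) = ∑ i, c i * ∫ x, psi ρ x * u (x + w i) := by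
  obtain ⟨χ, M, M0, c1, c2, c3, c4, c5, c6⟩ := cutoffs
  obtain ⟨C, C0, hC⟩ := F_decay hρ hc w
  have B0 : 0 ≤ B := (abs_nonneg _).trans (hB 0)
  have hF := F_sm hρ c w
  have uc := hu.continuous
  set P : ℂ → ℝ := fun x => ∑ i, c i * psi ρ (x - w i) with hP
  have iP1 : ∀ i, Integrable fun x => psi ρ (x - w i) * u x := fun i => by
    have := (int_psi_mul hρ (uc.comp (continuous_add_const (w i))) (A := B) (B := 0)
      (fun x => by simpa using hB _)).comp_sub_right (w i)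
    simpa using this
  have eP : ∀ x, P x * u x = ∑ i, c i * (psi ρ (x - w i) * u x) := fun x => by
    simp only [hP, Finset.sum_mul, mul_assoc]
  have iP : Integrable fun x => P x * u x := by
    simp only [eP]; exact integrable_finsetSum _ fun i _ => (iP1 i).const_mul _
  have vP : ∫ x, P x * u x = ∑ i, c i * ∫ x, psi ρ x * u (x + w i) := by
    simp only [eP]
    rw [integral_finsetSum _ fun i _ => (iP1 i).const_mul _]
    refine Finset.sum_congr rfl fun i _ => ?_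
    rw [integral_const_mul, ← integral_add_right_eq_self _ (w i)]; simp
  have bd : ∀ n x, ‖fderiv ℝ (χ n) x (F ρ c w x) * u x‖ ≤ M * C * B * ((1 + ‖x‖) ^ 3)⁻¹ := by
    intro n x
    rw [norm_mul]
    calc _ ≤ (M * (1 + ‖x‖)⁻¹ * (C * ((1 + ‖x‖) ^ 2)⁻¹)) * B :=
          mul_le_mul ((ContinuousLinearMap.le_opNorm _ _).trans
            (mul_le_mul (c5 n x) (hC x) (norm_nonneg _) (by positivity))) (hB x) (abs_nonneg _)
            (by positivity)
      _ = _ := by field_simp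
  have cE : ∀ n, Continuous fun x => fderiv ℝ (χ n) x (F ρ c w x) * u x := fun n =>
    (((c1 n).continuous_fderiv (by simp)).clm_apply hF.continuous).mul uc
  have iE : ∀ n, Integrable fun x => fderiv ℝ (χ n) x (F ρ c w x) * u x := fun n =>
    (int_jap.const_mul _).mono' (cE n).aestronglyMeasurable (Eventually.of_forall (bd n))
  have iχ : ∀ n, ∀ {G : ℂ → ℝ}, Integrable G → Integrable fun x => G x * χ n x := fun n G hG =>
    hG.mul_bdd (c1 n).continuous.aestronglyMeasurable (Eventually.of_forall (c3 n))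
  have ident : ∀ n, ∫ x, fderiv ℝ u x (F ρ c w x) * χ n x =
      (∫ x, P x * u x * χ n x) - ∫ x, fderiv ℝ (χ n) x (F ρ c w x) * u x := by
    intro n
    have s1 : ContDiff ℝ ∞ fun x => (F ρ c w x).re := Complex.reCLM.contDiff.comp hF
    have s2 : ContDiff ℝ ∞ fun x => (F ρ c w x).im := Complex.imCLM.contDiff.comp hF
    obtain ⟨i1, e1⟩ := ibp0 hu ((c1 n).mul s1) (c2 n).mul_right 1
    obtain ⟨i2, e2⟩ := ibp0 hu ((c1 n).mul s2) (c2 n).mul_right Complex.I
    have j : ∀ {φ : ℂ → ℝ}, ContDiff ℝ ∞ φ → ∀ v : ℂ,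
        Integrable fun x => fderiv ℝ (fun x => χ n x * φ x) x v * u x := fun {φ} hφ v =>
      (((((c1 n).mul hφ).continuous_fderiv (by simp)).clm_apply continuous_const).mul
        uc).integrable_of_hasCompactSupport
        (HasCompactSupport.mul_right (HasCompactSupport.fderiv_apply ℝ (c2 n).mul_right v))
    have l : ∫ x, fderiv ℝ u x (F ρ c w x) * χ n x = (∫ x, fderiv ℝ u x 1 * (χ n x * (F ρ c w x).re)) +
        ∫ x, fderiv ℝ u x Complex.I * (χ n x * (F ρ c w x).im) := by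
      rw [← integral_add i1 i2]; congr 1; ext x; rw [dec]; ring
    rw [l, e1, e2, ← neg_add, ← integral_add (j s1 1) (j s2 _), ← integral_sub (iχ n iP) (iE n),
      ← integral_neg]
    congr 1; ext x
    have d0 := (c1 n).differentiable (by simp) x
    have dF := (hF.differentiable (by simp) x).hasFDerivAt
    have d1 : HasFDerivAt (fun x => (F ρ c w x).re) _ x := Complex.reCLM.hasFDerivAt.comp x dF
    have d2 : HasFDerivAt (fun x => (F ρ c w x).im) _ x := Complex.imCLM.hasFDerivAt.comp x dF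
    rw [(d0.hasFDerivAt.fun_mul d1).fderiv, (d0.hasFDerivAt.fun_mul d2).fderiv,
      dec (fderiv ℝ (χ n) x) (F ρ c w x)]
    simp only [add_apply, smul_apply, smul_eq_mul, ContinuousLinearMap.comp_apply,
      Complex.reCLM_apply, Complex.imCLM_apply]
    linear_combination (-(χ n x) * u x) * F_div hρ c w x
  have lim : ∀ {G : ℂ → ℝ}, Integrable G → Tendsto (fun n => ∫ x, G x * χ n x) atTop (𝓝 (∫ x, G x)) := by
    intro G hG
    refine tendsto_integral_of_dominated_convergence (fun x => ‖G x‖) (fun n => (iχ n hG).1) hG.norm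
      (fun n => Eventually.of_forall fun x => ?_) (Eventually.of_forall fun x => ?_)
    · rw [norm_mul]; exact mul_le_of_le_one_right (norm_nonneg _) (c3 n x)
    · refine tendsto_const_nhds.congr' ?_
      filter_upwards [c4 x] with n hn; rw [hn, mul_one]
  have lim2 : Tendsto (fun n => ∫ x, fderiv ℝ (χ n) x (F ρ c w x) * u x) atTop (𝓝 (∫ x : ℂ, (0:ℝ))) := by
    refine tendsto_integral_of_dominated_convergence _ (fun n => (iE n).1) (int_jap.const_mul _)
      (fun n => Eventually.of_forall (bd n)) (Eventually.of_forall fun x => ?_)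
    have t : Tendsto (fun n : ℕ => M / ((n:ℝ) + 1) * ‖F ρ c w x‖ * B) atTop (𝓝 0) := by
      have := ((tendsto_const_nhds (x := M)).div_atTop
        (tendsto_atTop_add_const_right _ (1:ℝ) tendsto_natCast_atTop_atTop)).mul_const ‖F ρ c w x‖
      simpa using this.mul_const B
    refine squeeze_zero_norm (fun n => ?_) t
    rw [norm_mul]
    exact mul_le_mul ((ContinuousLinearMap.le_opNorm _ _).trans
      (mul_le_mul_of_nonneg_right (c6 n x) (norm_nonneg _))) (hB x) (norm_nonneg _) (by positivity)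
  have t1 := lim hi
  simp only [ident] at t1
  have t2 := (lim iP).sub lim2
  rw [← vP, tendsto_nhds_unique t1 t2]; simp

end H92.Cond
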