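import Pool.Agent.H92.Cond2

set_option autoImplicit false
open MeasureTheory Set Metric Filter Topology Real
open scoped ContDiff

namespace H92.Cond

noncomputable def En (u : ℂ → ℝ) : ENNReal := ∫⁻ x, (‖fderiv ℝ u x‖₊ : ENNReal) ^ 2

lemma En_eq (u : ℂ → ℝ) : En u = ∫⁻ x, ENNReal.ofReal (‖fderiv ℝ u x‖ ^ 2) := by
  unfold En; congr 1; ext x
  rw [ENNReal.ofReal_pow (norm_nonneg _), ofReal_norm]; rfl

lemma meas_app (u : ℂ → ℝ) {G : ℂ → ℂ} (hG : Continuous G) : Measurable fun x => fderiv ℝ u x (G x) := by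
  have : (fun x => fderiv ℝ u x (G x)) =
      fun x => (G x).re * fderiv ℝ u x 1 + (G x).im * fderiv ℝ u x Complex.I := by
    ext x; rw [dec]
  rw [this]
  exact ((Complex.continuous_re.comp hG).measurable.mul (measurable_fderiv_apply_const ℝ u 1)).add
    ((Complex.continuous_im.comp hG).measurable.mul (measurable_fderiv_apply_const ℝ u _))

variable {ι : Type} [Fintype ι]

lemma thomson {ρ : ℝ} (hρ : 0 < ρ) {c : ι → ℝ} (hc : ∑ i, c i = 0) (w : ι → ℂ) {u : ℂ → ℝ}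
    (hu : LocallyLipschitz u) {B : ℝ} (hB : ∀ x, |u x| ≤ B) :
    ENNReal.ofReal (2 * (∑ i, c i * ∫ x, psi ρ x * u (x + w i)) -
      ∑ i, c i * ∫ x, psi ρ x * W ρ c w (x + w i)) ≤ En u := by
  rcases eq_or_ne (En u) ⊤ with h | h
  · rw [h]; exact le_top
  rw [En_eq] at h ⊢
  have m1 : Measurable fun x => ‖fderiv ℝ u x‖ ^ 2 := (measurable_fderiv ℝ u).norm.pow_const 2
  have i1 : Integrable fun x => ‖fderiv ℝ u x‖ ^ 2 :=
    (lintegral_ofReal_ne_top_iff_integrable m1.aestronglyMeasurable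
      (Eventually.of_forall fun x => sq_nonneg _)).1 h
  have i2 := F_sq_int hρ hc w
  have i3 : Integrable fun x => fderiv ℝ u x (F ρ c w x) :=
    (i1.add i2).mono' (meas_app u (F_sm hρ c w).continuous).aestronglyMeasurable
      (Eventually.of_forall fun x => (ContinuousLinearMap.le_opNorm _ _).trans (by
        simp only [Pi.add_apply]
        nlinarith [sq_nonneg (‖fderiv ℝ u x‖ - ‖F ρ c w x‖), norm_nonneg (fderiv ℝ u x),
          norm_nonneg (F ρ c w x)]))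
  have eW : ∀ x, fderiv ℝ (W ρ c w) x (F ρ c w x) = ‖F ρ c w x‖ ^ 2 := fun x => by
    rw [(W_fd hρ c w x).fderiv, innerSL_apply_apply, real_inner_self_eq_norm_sq]
  obtain ⟨B', hB'⟩ := bdd_of_lim (W_sm hρ c w).continuous (W_lim hρ hc w)
  have e1 := ibp hρ hc w ((W_sm hρ c w).of_le (by simp) : ContDiff ℝ 1 _).locallyLipschitz hB'
    (by simp only [eW]; exact i2)
  simp only [eW] at e1
  rw [← ibp hρ hc w hu hB i3, ← e1, ← ofReal_integral_eq_lintegral_ofReal i1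
    (Eventually.of_forall fun x => sq_nonneg _), ← integral_const_mul,
    ← integral_sub (i3.const_mul 2) i2]
  refine ENNReal.ofReal_le_ofReal (integral_mono ((i3.const_mul 2).sub i2) i1 fun x => ?_)
  have := (le_abs_self _).trans ((fderiv ℝ u x).le_opNorm (F ρ c w x))
  simp only
  nlinarith [sq_nonneg (‖fderiv ℝ u x‖ - ‖F ρ c w x‖)]

noncomputable def V {N : ℕ} (w : Fin N → ℂ) : ℝ := ∏ i, ∏ j ∈ Finset.Ioi i, ‖w i - w j‖

noncomputable def td (E : Set ℂ) : ℝ := ⨅ m : ℕ, ⨆ w : Fin (m+2) → E,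
  (∏ i : Fin (m+2), ∏ j ∈ Finset.Ioi i, ‖(w i : ℂ) - (w j : ℂ)‖)
    ^ ((2:ℝ) / (((m:ℝ) + 2) * ((m:ℝ) + 1)))

lemma V_nn {N : ℕ} (w : Fin N → ℂ) : 0 ≤ V w :=
  Finset.prod_nonneg fun _ _ => Finset.prod_nonneg fun _ _ => norm_nonneg _

lemma V_sq {N : ℕ} (w : Fin N → ℂ) : V w ^ 2 = ∏ i, ∏ j ∈ ({i}ᶜ : Finset (Fin N)), ‖w j - w i‖ := by
  rw [← Finset.prod_prod_Ioi_mul_eq_prod_prod_off_diag (fun j i => ‖w j - w i‖), V, ← Finset.prod_pow]
  refine Finset.prod_congr rfl fun i _ => ?_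
  rw [← Finset.prod_pow]
  refine Finset.prod_congr rfl fun j _ => ?_
  rw [norm_sub_rev (w j), sq]

lemma td_ne {E : Set ℂ} (h : 0 < td E) : E.Nonempty := by
  by_contra hn
  rw [not_nonempty_iff_eq_empty] at hn
  subst hn
  have : ∀ m : ℕ, IsEmpty (Fin (m+2) → (∅ : Set ℂ)) := fun m => ⟨fun w => (w 0).2⟩
  simp [td] at h

lemma fek_max {E : Set ℂ} (hE : IsCompact E) (hn : E.Nonempty) (m : ℕ) :
    ∃ w : Fin (m+2) → ℂ, (∀ i, w i ∈ E) ∧ (∀ w' : Fin (m+2) → ℂ, (∀ i, w' i ∈ E) → V w' ≤ V w) ∧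
      (⨆ w : Fin (m+2) → E, (∏ i : Fin (m+2), ∏ j ∈ Finset.Ioi i, ‖(w i : ℂ) - (w j : ℂ)‖)
        ^ ((2:ℝ) / (((m:ℝ) + 2) * ((m:ℝ) + 1)))) = V w ^ ((2:ℝ) / (((m:ℝ) + 2) * ((m:ℝ) + 1))) := by
  have hc : Continuous (V : (Fin (m+2) → ℂ) → ℝ) := by unfold V; fun_prop
  obtain ⟨x0, hx0⟩ := hn
  obtain ⟨w, hw, hm⟩ := (isCompact_univ_pi fun _ : Fin (m+2) => hE).exists_isMaxOn
    ⟨fun _ => x0, fun _ _ => hx0⟩ hc.continuousOn
  have h1 : ∀ w' : Fin (m+2) → ℂ, (∀ i, w' i ∈ E) → V w' ≤ V w := fun w' h => hm fun i _ => h i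
  refine ⟨w, fun i => hw i trivial, h1, IsGreatest.csSup_eq ⟨⟨fun i => ⟨w i, hw i trivial⟩, rfl⟩, ?_⟩⟩
  rintro _ ⟨w', rfl⟩
  exact Real.rpow_le_rpow (V_nn _) (h1 (fun i => w' i) fun i => (w' i).2) (by positivity)

lemma td_bdd (E : Set ℂ) : BddBelow (range fun m : ℕ => ⨆ w : Fin (m+2) → E,
    (∏ i : Fin (m+2), ∏ j ∈ Finset.Ioi i, ‖(w i : ℂ) - (w j : ℂ)‖)
    ^ ((2:ℝ) / (((m:ℝ) + 2) * ((m:ℝ) + 1)))) :=
  ⟨0, by
    rintro _ ⟨m, rfl⟩
    exact Real.iSup_nonneg fun w => Real.rpow_nonneg (V_nn fun i => (w i : ℂ)) _⟩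

lemma V_pos {m : ℕ} {w : Fin (m+2) → ℂ} {d : ℝ} (hd : 0 < d)
    (h : d ≤ V w ^ ((2:ℝ) / (((m:ℝ) + 2) * ((m:ℝ) + 1)))) : 0 < V w := by
  refine (V_nn w).lt_of_ne fun h0 => ?_
  rw [← h0, Real.zero_rpow (by positivity)] at h
  linarith

lemma fek_lower {E : Set ℂ} (hE : IsCompact E) (h : 0 < td E) (m : ℕ) :
    ∃ w : Fin (m+2) → ℂ, (∀ i, w i ∈ E) ∧ (∀ i j, j ≠ i → w j - w i ≠ 0) ∧
      ((m:ℝ) + 2) * ((m:ℝ) + 1) * Real.log (td E) ≤
        ∑ i, ∑ j ∈ ({i}ᶜ : Finset (Fin (m+2))), Real.log ‖w j - w i‖ := by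
  obtain ⟨w, hw, -, he⟩ := fek_max hE (td_ne h) m
  have h1 : td E ≤ V w ^ ((2:ℝ) / (((m:ℝ) + 2) * ((m:ℝ) + 1))) := he ▸ ciInf_le (td_bdd E) m
  have h2 := V_pos h h1
  have h3 : ∀ i j, j ≠ i → ‖w j - w i‖ ≠ 0 := by
    intro i j hij
    have : V w ^ 2 ≠ 0 := by positivity
    rw [V_sq] at this
    exact Finset.prod_ne_zero_iff.1 (Finset.prod_ne_zero_iff.1 this i (Finset.mem_univ _)) j
      (by simpa using hij)
  refine ⟨w, hw, fun i j hij => norm_ne_zero_iff.1 (h3 i j hij), ?_⟩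
  have h4 := Real.log_le_log h h1
  rw [Real.log_rpow h2, div_mul_eq_mul_div, le_div_iff₀ (by positivity)] at h4
  have h5 : Real.log (V w ^ 2) = ∑ i, ∑ j ∈ ({i}ᶜ : Finset (Fin (m+2))), Real.log ‖w j - w i‖ := by
    rw [V_sq, Real.log_prod fun i _ => Finset.prod_ne_zero_iff.2 fun j hj => h3 i j (by simpa using hj)]
    exact Finset.sum_congr rfl fun i _ => Real.log_prod fun j hj => h3 i j (by simpa using hj)
  rw [← h5, Real.log_pow]; push_cast; linarith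

lemma V_split {m : ℕ} (w : Fin (m+2) → ℂ) (i : Fin (m+2)) :
    V w ^ 2 = (∏ j : Fin (m+1), ‖w i - w (i.succAbove j)‖) ^ 2 *
      ∏ j : Fin (m+1), ∏ l ∈ ({j}ᶜ : Finset (Fin (m+1))), ‖w (i.succAbove l) - w (i.succAbove j)‖ := by
  have key : ∀ {N : ℕ} (f : Fin N → ℝ) (a : Fin N), ∏ j ∈ ({a}ᶜ : Finset (Fin N)), f j =
      ∏ j, if j = a then 1 else f j := by
    intro N f a
    rw [Finset.prod_ite]; simp only [Finset.prod_const_one, one_mul]
    congr 1; ext j; simp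
  rw [V_sq]
  simp only [key]
  rw [Fin.prod_univ_succAbove _ i]
  simp only [Fin.prod_univ_succAbove _ i, if_true, one_mul, Fin.succAbove_ne, if_false,
    Fin.ne_succAbove, Fin.succAbove_right_inj, Finset.prod_mul_distrib]
  simp only [norm_sub_rev (w i)]
  ring

lemma fek_upper {E : Set ℂ} (hE : IsCompact E) (h : 0 < td E) {d : ℝ} (hd : td E < d) :
    ∃ (m : ℕ) (w : Fin (m+1) → ℂ), (∀ i, w i ∈ E) ∧ ∀ x ∈ E, ∏ j, ‖x - w j‖ < d ^ (m+1) := by
  obtain ⟨m, hm⟩ := exists_lt_of_ciInf_lt hd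
  obtain ⟨w, hw, hmax, he⟩ := fek_max hE (td_ne h) m
  have h1 : td E ≤ V w ^ ((2:ℝ) / (((m:ℝ) + 2) * ((m:ℝ) + 1))) := he ▸ ciInf_le (td_bdd E) m
  have h2 := V_pos h h1
  rw [he] at hm
  have d0 : 0 < d := h.trans hd
  have h3 : V w ^ 2 < (d ^ (m+1)) ^ (m+2) := by
    have := Real.log_lt_log (by positivity) hm
    rw [Real.log_rpow h2, div_mul_eq_mul_div, div_lt_iff₀ (by positivity)] at this
    rw [← Real.log_lt_log_iff (by positivity) (by positivity), Real.log_pow, Real.log_pow, Real.log_pow]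
    push_cast; linarith
  have h4 : ∃ i : Fin (m+2), ∏ j : Fin (m+1), ‖w i - w (i.succAbove j)‖ < d ^ (m+1) := by
    by_contra hh
    push Not at hh
    have : ∏ _i : Fin (m+2), d ^ (m+1) ≤ V w ^ 2 := by
      rw [V_sq]
      refine Finset.prod_le_prod (fun _ _ => by positivity) fun i _ => (hh i).trans (le_of_eq ?_)
      rw [← Fin.image_succAbove_univ, Finset.prod_image fun a _ b _ hab => Fin.succAbove_right_injective hab]
      exact Finset.prod_congr rfl fun j _ => norm_sub_rev _ _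
    simp only [Finset.prod_const, Finset.card_univ, Fintype.card_fin] at this
    linarith
  obtain ⟨i, hi⟩ := h4
  refine ⟨m, fun j => w (i.succAbove j), fun j => hw _, fun x hx => lt_of_le_of_lt ?_ hi⟩
  have h5 := hmax (Function.update w i x) fun j => by
    rcases eq_or_ne j i with rfl | hj
    · simpa using hx
    · rw [Function.update_of_ne hj]; exact hw j
  have h6 := pow_le_pow_left₀ (V_nn _) h5 2
  have h7 : 0 < V w ^ 2 := by positivity
  rw [V_split _ i] at h7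
  rw [V_split _ i, V_split w i] at h6
  simp only [Function.update_self, Function.update_of_ne (Fin.succAbove_ne i _)] at h6
  have h8 := pos_of_mul_pos_right h7 (sq_nonneg _)
  exact le_of_sq_le_sq (le_of_mul_le_mul_right h6 h8) (Finset.prod_nonneg fun _ _ => norm_nonneg _)

end H92.Cond
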