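import Pool.Agent.H92.Cond3

set_option autoImplicit false
open MeasureTheory Set Metric Filter Topology Real
open scoped ContDiff

namespace H92.Cond

lemma log_close {z z' a a' : ℂ} {σ s : ℝ} (hσ : 0 < σ) (h : σ ≤ ‖z - z'‖) (hs : 4 * s ≤ σ)
    (ha : a ∈ ball z s) (ha' : a' ∈ ball z' s) :
    σ / 2 ≤ ‖a - a'‖ ∧ |Real.log ‖a - a'‖ - Real.log ‖z - z'‖| ≤ 4 * s / σ := by
  rw [mem_ball, dist_eq_norm] at ha ha'
  have h1 : |‖a - a'‖ - ‖z - z'‖| ≤ 2 * s := by
    refine (abs_norm_sub_norm_le _ _).trans ?_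
    have : a - a' - (z - z') = (a - z) - (a' - z') := by ring
    rw [this]; linarith [norm_sub_le (a - z) (a' - z')]
  have s0 : 0 ≤ s := by linarith [abs_nonneg (‖a - a'‖ - ‖z - z'‖)]
  rw [abs_le] at h1
  set X := ‖a - a'‖
  set D := ‖z - z'‖
  have hX : σ / 2 ≤ X := by linarith
  have X0 : 0 < X := by linarith
  have D0 : 0 < D := by linarith
  refine ⟨hX, abs_le.2 ⟨?_, ?_⟩⟩
  · have := Real.log_le_sub_one_of_pos (div_pos D0 X0)
    rw [Real.log_div D0.ne' X0.ne'] at this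
    have h2 : D / X - 1 ≤ 4 * s / σ := by
      rw [div_sub_one X0.ne', div_le_div_iff₀ X0 hσ]; nlinarith
    linarith
  · have := Real.log_le_sub_one_of_pos (div_pos X0 D0)
    rw [Real.log_div X0.ne' D0.ne'] at this
    have h2 : X / D - 1 ≤ 4 * s / σ := by
      rw [div_sub_one D0.ne', div_le_div_iff₀ D0 hσ]; nlinarith
    linarith

lemma K_low {ρ σ : ℝ} (hρ : 0 < ρ) (hσ : 0 < σ) {y : ℂ} (hy : σ / 2 ≤ ‖y‖) (x : ℂ) :
    - Real.log ‖y‖ - 2 * ρ / σ - 2 / σ * ‖x‖ ≤ K ρ (x + y) := by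
  have y0 : 0 < ‖y‖ := by linarith
  have h1 := K_ge hρ (x + y) y0 (b := ‖x‖ + ρ) (by positivity) (by linarith [norm_add_le x y])
  have h2 : (‖x‖ + ρ) / ‖y‖ ≤ (‖x‖ + ρ) / (σ / 2) := by gcongr
  have h3 : (‖x‖ + ρ) / (σ / 2) = 2 * ρ / σ + 2 / σ * ‖x‖ := by field_simp; ring
  linarith

lemma cross {z z' a a' : ℂ} {σ s ρ : ℝ} (hρ : 0 < ρ) (hσ : 0 < σ) (h : σ ≤ ‖z - z'‖) (hs : 4 * s ≤ σ)
    (ha : a ∈ ball z s) (ha' : a' ∈ ball z' s) :
    |(∫ x, psi ρ x * K ρ (x + (a - a'))) - 2 * π * (- Real.log ‖z - z'‖)| ≤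
      8 * π * s / σ + ρ * ((4 * π + 2 * C1) / σ) := by
  obtain ⟨h1, h2⟩ := log_close hσ h hs ha ha'
  have h3 := mean_K hρ (y := a - a') (norm_pos_iff.1 (by linarith))
  have h4 := avg_ge hρ (int_psi_K hρ (a - a')) (K_low hρ hσ h1)
  rw [abs_le] at h2 ⊢
  have p := Real.pi_pos
  have e1 : 8 * π * s / σ = 2 * π * (4 * s / σ) := by ring
  have e2 : ρ * ((4 * π + 2 * C1) / σ) = 2 * π * (2 * ρ / σ) + 2 / σ * (ρ * C1) := by ring
  have e3 : 0 ≤ ρ * ((4 * π + 2 * C1) / σ) := by have := C1_nn; positivity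
  constructor <;> nlinarith [h2.1, h2.2]

lemma avg_close {N : ℕ} {G : Fin (N+1) → ℝ} {β e : ℝ} (a : ℝ) (h : ∀ i, |G i - β| ≤ e) :
    |∑ i, a / ((N:ℝ) + 1) * G i - a * β| ≤ |a| * e := by
  have e1 : ∑ i, a / ((N:ℝ) + 1) * G i - a * β = ∑ i, a / ((N:ℝ) + 1) * (G i - β) := by
    simp only [mul_sub, Finset.sum_sub_distrib, Finset.sum_const, Finset.card_univ, Fintype.card_fin,
      nsmul_eq_mul]
    push_cast; field_simp
  rw [e1]
  refine (Finset.abs_sum_le_sum_abs _ _).trans ((Finset.sum_le_sum (g := fun _ => |a| / ((N:ℝ) + 1) * e)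
    fun i _ => ?_).trans (le_of_eq ?_))
  · rw [abs_mul, abs_div, abs_of_pos (by positivity : (0:ℝ) < N + 1)]
    exact mul_le_mul_of_nonneg_left (h i) (by positivity)
  · simp only [Finset.sum_const, Finset.card_univ, Fintype.card_fin, nsmul_eq_mul]
    push_cast; field_simp

lemma off_le {n : ℕ} (q : Fin n → ℝ) {e : ℝ} (he : 0 ≤ e) :
    ∑ k, ∑ l ∈ Finset.univ.erase k, |q k| * (|q l| * e) ≤ (∑ k, |q k|) ^ 2 * e := by
  rw [sq, Finset.sum_mul_sum, Finset.sum_mul]
  refine Finset.sum_le_sum fun k _ => ?_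
  rw [Finset.sum_mul]
  simp only [mul_assoc]
  exact Finset.sum_le_sum_of_subset_of_nonneg (Finset.erase_subset _ _) fun _ _ _ => by positivity

lemma lip_at {u : ℂ → ℝ} (hu : LocallyLipschitz u) {B : ℝ} (hB : ∀ x, |u x| ≤ B) (R : ℝ) :
    ∃ L, 0 ≤ L ∧ ∀ a ∈ closedBall (0:ℂ) R, ∀ x, |u (x + a) - u a| ≤ L * ‖x‖ := by
  obtain ⟨L, hL⟩ := hu.locallyLipschitzOn.exists_lipschitzOnWith_of_compact
    (isCompact_closedBall (0:ℂ) (R + 1))
  have B0 : 0 ≤ B := (abs_nonneg _).trans (hB 0)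
  refine ⟨L + 2 * B, by positivity, fun a ha x => ?_⟩
  rw [mem_closedBall_zero_iff] at ha
  rcases le_total ‖x‖ 1 with h | h
  · have := hL.dist_le_mul (x + a) (mem_closedBall_zero_iff.2 (by linarith [norm_add_le x a])) a
      (mem_closedBall_zero_iff.2 (by linarith))
    rw [Real.dist_eq, dist_eq_norm, add_sub_cancel_right] at this
    nlinarith [norm_nonneg x]
  · have := abs_sub (u (x + a)) (u a)
    have l0 : (0:ℝ) ≤ L := L.2
    nlinarith [hB (x + a), hB a]

noncomputable def Iq {n : ℕ} (z : Fin n → ℂ) (q L : Fin n → ℝ) : ℝ :=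
  ∑ k, q k ^ 2 * L k + ∑ k, ∑ l ∈ Finset.univ.erase k, q k * q l * (- Real.log ‖z k - z l‖)

theorem lower {n : ℕ} {z : Fin n → ℂ} {σ s : ℝ} (hσ : 0 < σ) (hz : ∀ k l, l ≠ k → σ ≤ ‖z k - z l‖)
    (s0 : 0 < s) (hs : 4 * s ≤ σ) {E : Fin n → Set ℂ} (hE : ∀ k, IsCompact (E k))
    (hb : ∀ k, E k ⊆ ball (z k) s) (hd : ∀ k, 0 < td (E k)) {q δ : Fin n → ℝ} (hq : ∑ k, q k = 0)
    {u : ℂ → ℝ} (hu : LocallyLipschitz u) {a : ℝ} (ha : Tendsto u (cocompact ℂ) (𝓝 a))
    (hδ : ∀ k, ∀ x ∈ E k, u x = δ k) :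
    ENNReal.ofReal (2 * π * (2 * ∑ k, q k * δ k - Iq z q fun k => - Real.log (td (E k))) -
      (∑ k, |q k|) ^ 2 * (8 * π * s / σ)) ≤ En u := by
  obtain ⟨B, hB⟩ := bdd_of_lim hu.continuous ha
  obtain ⟨R, hR⟩ := (isCompact_iUnion hE).isBounded.subset_closedBall (0:ℂ)
  obtain ⟨L, L0, hL⟩ := lip_at hu hB R
  set Q := ∑ k, |q k| with hQ
  set A := (4 * π + 2 * C1) / σ with hA
  have A0 : 0 ≤ A := by have := C1_nn; have := Real.pi_pos; positivity
  have key : ∀ (m : ℕ) (ρ : ℝ), 0 < ρ → ENNReal.ofReal (2 * (2 * π * ∑ k, q k * δ k - Q * (L * (ρ * C1))) -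
      (∑ k, q k ^ 2 * (2 * π * ((- Real.log ρ) / ((m:ℝ) + 2) +
          (1 - 1 / ((m:ℝ) + 2)) * (- Real.log (td (E k))))) +
        2 * π * ∑ k, ∑ l ∈ Finset.univ.erase k, q k * q l * (- Real.log ‖z k - z l‖) +
        Q ^ 2 * (8 * π * s / σ + ρ * A))) ≤ En u := by
    intro m ρ hρ
    choose w w1 w2 w3 using fun k => fek_lower (hE k) (hd k) m
    set c : Fin n × Fin (m+2) → ℝ := fun p => q p.1 / (((m+1 : ℕ):ℝ) + 1) with hc
    have hc0 : ∑ p, c p = 0 := by
      rw [Fintype.sum_prod_type]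
      simp only [hc, Finset.sum_const, Finset.card_univ, Fintype.card_fin, nsmul_eq_mul,
        ← Finset.mul_sum, ← Finset.sum_div, hq, zero_div, mul_zero]
    refine le_trans (ENNReal.ofReal_le_ofReal ?_) (thomson hρ hc0 (fun p => w p.1 p.2) hu hB)
    have S1 : 2 * π * ∑ k, q k * δ k - Q * (L * (ρ * C1)) ≤
        ∑ p : Fin n × Fin (m+2), c p * ∫ x, psi ρ x * u (x + w p.1 p.2) := by
      rw [Fintype.sum_prod_type, Finset.mul_sum, hQ, Finset.sum_mul, ← Finset.sum_sub_distrib]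
      refine Finset.sum_le_sum fun k _ => ?_
      have := avg_close (q k) (G := fun i => ∫ x, psi ρ x * u (x + w k i)) (β := 2 * π * δ k)
        (e := L * (ρ * C1)) fun i => by
          have hi : Integrable fun x => psi ρ x * u (x + w k i) :=
            int_psi_mul hρ (hu.continuous.comp (continuous_add_const _)) (A := B) (B := 0)
              (fun x => by simpa using hB _)
          have hl := fun x => abs_le.1 (hL _ (hR (mem_iUnion.2 ⟨k, w1 k i⟩)) x)
          rw [hδ k _ (w1 k i)] at hl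
          have a1 := avg_ge hρ hi (a := δ k) (L := L) fun x => by linarith [(hl x).1]
          have a2 := avg_le hρ hi (a := δ k) (L := L) fun x => by linarith [(hl x).2]
          rw [abs_le]; constructor <;> linarith
      have := (abs_le.1 this).1
      simp only [hc]; linarith
    set G : ℂ → ℝ := fun y => ∫ x, psi ρ x * K ρ (x + y) with hG
    have eW : ∀ a : ℂ, ∫ x, psi ρ x * W ρ c (fun p => w p.1 p.2) (x + a) =
        ∑ l, ∑ j, q l / (((m+1 : ℕ):ℝ) + 1) * G (a - w l j) := by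
      intro a
      have : ∀ x, psi ρ x * W ρ c (fun p => w p.1 p.2) (x + a) =
          ∑ p : Fin n × Fin (m+2), c p * (psi ρ x * K ρ (x + (a - w p.1 p.2))) := fun x => by
        simp only [W, Finset.mul_sum, add_sub_assoc, mul_left_comm]
      simp only [this]
      rw [integral_finsetSum _ fun p _ => (int_psi_K hρ _).const_mul _, Fintype.sum_prod_type]
      simp only [integral_const_mul, hc, hG]
    have S2 : ∑ p : Fin n × Fin (m+2), c p * ∫ x, psi ρ x * W ρ c (fun p => w p.1 p.2) (x + w p.1 p.2) ≤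
        ∑ k, q k ^ 2 * (2 * π * ((- Real.log ρ) / ((m:ℝ) + 2) +
          (1 - 1 / ((m:ℝ) + 2)) * (- Real.log (td (E k))))) +
        2 * π * ∑ k, ∑ l ∈ Finset.univ.erase k, q k * q l * (- Real.log ‖z k - z l‖) +
        Q ^ 2 * (8 * π * s / σ + ρ * A) := by
      have e0 : 0 ≤ 8 * π * s / σ + ρ * A := by have := Real.pi_pos; positivity
      refine le_trans ?_ (add_le_add_right (off_le q e0) _)
      rw [Fintype.sum_prod_type, Finset.mul_sum, ← Finset.sum_add_distrib, ← Finset.sum_add_distrib]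
      refine Finset.sum_le_sum fun k _ => ?_
      simp only [eW]
      have ee : ∀ i, c (k, i) * ∑ l, ∑ j, q l / (((m+1 : ℕ):ℝ) + 1) * G (w k i - w l j) =
          ∑ l, q k / (((m+1 : ℕ):ℝ) + 1) * ∑ j, q l / (((m+1 : ℕ):ℝ) + 1) * G (w k i - w l j) :=
        fun i => Finset.mul_sum _ _ _
      simp only [ee]
      rw [Finset.sum_comm, ← Finset.add_sum_erase _ _ (Finset.mem_univ k), add_assoc, Finset.mul_sum,
        ← Finset.sum_add_distrib]
      refine add_le_add ?_ (Finset.sum_le_sum fun l hl => ?_)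
      · have b1 : ∀ i, ∑ j, G (w k i - w k j) ≤ 2 * π * (- Real.log ρ) -
            2 * π * ∑ j ∈ ({i}ᶜ : Finset (Fin (m+2))), Real.log ‖w k j - w k i‖ := by
          intro i
          rw [← Finset.add_sum_erase _ _ (Finset.mem_univ i), ← Finset.compl_singleton,
            sub_eq_add_neg (2 * π * -Real.log ρ),
            Finset.mul_sum, ← Finset.sum_neg_distrib]
          refine add_le_add ?_ (Finset.sum_le_sum fun j hj => ?_)
          · have := avg_le hρ (int_psi_K hρ (w k i - w k i)) (L := 0) fun x => by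
              simpa using K_le_log hρ _
            simpa [hG] using this
          · have hj' : i ≠ j := fun h => by simp [h] at hj
            have := mean_K hρ (w2 k j i hj')
            rw [norm_sub_rev] at this
            simp only [hG]; linarith
        have b2 := Finset.sum_le_sum fun i (_ : i ∈ Finset.univ) => b1 i
        rw [Finset.sum_sub_distrib, ← Finset.mul_sum _ _ (2 * π), ← Finset.mul_sum _ _ (2 * π)] at b2
        simp only [Finset.sum_const, Finset.card_univ, Fintype.card_fin, nsmul_eq_mul] at b2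
        simp only [← Finset.mul_sum, ← mul_assoc]
        have b3 := mul_le_mul_of_nonneg_left (w3 k) (by positivity : 0 ≤ 2 * π)
        have b4 : ∑ i, ∑ j, G (w k i - w k j) ≤ 2 * π * (((m:ℝ) + 2) * (- Real.log ρ) -
            ((m:ℝ) + 2) * ((m:ℝ) + 1) * Real.log (td (E k))) := by push_cast at b2; linarith
        refine (mul_le_mul_of_nonneg_left b4 (mul_self_nonneg _)).trans (le_of_eq ?_)
        push_cast; field_simp; ring
      · have hl' : l ≠ k := Finset.ne_of_mem_erase hl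
        have := avg_close (q k) (G := fun i => ∑ j, q l / (((m+1 : ℕ):ℝ) + 1) * G (w k i - w l j))
          (β := q l * (2 * π * (- Real.log ‖z k - z l‖))) (e := |q l| * (8 * π * s / σ + ρ * A))
          fun i => avg_close (q l) fun j => cross hρ hσ (hz k l hl') hs (hb k (w1 k i)) (hb l (w1 l j))
        have := (abs_le.1 this).2
        linarith
    linarith
  have t1 : Tendsto (fun m : ℕ => 1 / ((m:ℝ) + 2)) atTop (𝓝 0) :=
    tendsto_const_nhds.div_atTop (tendsto_atTop_add_const_right _ _ tendsto_natCast_atTop_atTop)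
  have t2 : Tendsto (fun m : ℕ => (- Real.log (1 / ((m:ℝ) + 2))) / ((m:ℝ) + 2)) atTop (𝓝 0) := by
    have := Real.isLittleO_log_id_atTop.tendsto_div_nhds_zero.comp
      (tendsto_atTop_add_const_right _ (2:ℝ) tendsto_natCast_atTop_atTop)
    refine this.congr fun m => ?_
    simp
  have t3 := ((((t1.mul_const C1).const_mul L).const_mul Q).const_sub
    (2 * π * ∑ k, q k * δ k)).const_mul 2
  have t4 := tendsto_finsetSum Finset.univ fun k _ => ((t2.add ((t1.const_sub 1).mul_const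
    (- Real.log (td (E k))))).const_mul (2 * π)).const_mul (q k ^ 2)
  have t5 := ((t1.mul_const A).const_add (8 * π * s / σ)).const_mul (Q ^ 2)
  have t6 := ENNReal.tendsto_ofReal (t3.sub ((t4.add_const (2 * π * ∑ k, ∑ l ∈ Finset.univ.erase k,
    q k * q l * (- Real.log ‖z k - z l‖))).add t5))
  refine le_of_eq_of_le ?_ (le_of_tendsto' t6 fun m => key m _ (by positivity))
  congr 1
  have : ∑ k, q k ^ 2 * (2 * π * (0 + (1 - 0) * -Real.log (td (E k)))) =
      2 * π * ∑ k, q k ^ 2 * -Real.log (td (E k)) := by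
    rw [Finset.mul_sum]; exact Finset.sum_congr rfl fun k _ => by ring
  rw [this, Iq]; ring

end H92.Cond
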