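import Pool.Agent.H92.Cond4

set_option autoImplicit false
open MeasureTheory Set Metric Filter Topology Real
open scoped ContDiff

namespace H92.Cond

lemma av_le {N : ℕ} {G : Fin (N+1) → ℝ} {β : ℝ} (h : ∀ i, G i ≤ β) :
    ∑ i, 1 / ((N:ℝ) + 1) * G i ≤ β := by
  refine (Finset.sum_le_sum (g := fun _ => 1 / ((N:ℝ) + 1) * β) fun i _ =>
    mul_le_mul_of_nonneg_left (h i) (by positivity)).trans (le_of_eq ?_)
  simp only [Finset.sum_const, Finset.card_univ, Fintype.card_fin, nsmul_eq_mul]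
  push_cast; field_simp

lemma av_ge {N : ℕ} {G : Fin (N+1) → ℝ} {β : ℝ} (h : ∀ i, β ≤ G i) :
    β ≤ ∑ i, 1 / ((N:ℝ) + 1) * G i := by
  have := av_le (G := fun i => - G i) (β := -β) fun i => neg_le_neg (h i)
  simp only [mul_neg, Finset.sum_neg_distrib] at this
  linarith

noncomputable def U {N : ℕ} (ρ : ℝ) (w : Fin (N+1) → ℂ) : ℂ → ℝ := W ρ (fun _ => 1 / ((N:ℝ) + 1)) w
noncomputable def GU {N : ℕ} (ρ : ℝ) (w : Fin (N+1) → ℂ) : ℂ → ℂ := F ρ (fun _ => 1 / ((N:ℝ) + 1)) w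

lemma ev_rho {E : Set ℂ} (hE : IsCompact E) {N : ℕ} {w : Fin (N+1) → ℂ} {d : ℝ} (hd : 0 < d)
    (h : ∀ x ∈ E, ∏ j, ‖x - w j‖ < d ^ (N+1)) :
    ∀ᶠ ρ in 𝓝[>] (0:ℝ), ∀ x ∈ E, - Real.log d ≤ U ρ w x := by
  have h1 : ∀ᶠ ρ in 𝓝 (0:ℝ), ∀ x ∈ E, ∏ j, (‖x - w j‖ ^ 2 + ρ ^ 2) < (d ^ (N+1)) ^ 2 := by
    refine hE.eventually_forall_of_forall_eventually fun x hx => ?_
    have hc : Continuous fun p : ℝ × ℂ => ∏ j, (‖p.2 - w j‖ ^ 2 + p.1 ^ 2) := by fun_prop
    refine hc.continuousAt.eventually_lt continuousAt_const ?_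
    simp only [ne_eq, OfNat.ofNat_ne_zero, not_false_eq_true, zero_pow, add_zero, Finset.prod_pow]
    exact pow_lt_pow_left₀ (h x hx) (Finset.prod_nonneg fun _ _ => norm_nonneg _) two_ne_zero
  filter_upwards [mem_nhdsWithin_of_mem_nhds h1, self_mem_nhdsWithin] with ρ h2 hρ x hx
  have h3 := Real.log_le_log (Finset.prod_pos fun j _ => den_pos hρ (x - w j)) (h2 x hx).le
  rw [Real.log_prod fun j _ => (den_pos hρ (x - w j)).ne', Real.log_pow, Real.log_pow] at h3
  simp only [U, W, K, ← Finset.mul_sum, ← Finset.sum_div, Finset.sum_neg_distrib]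
  rw [one_div, le_inv_mul_iff₀ (by positivity)]
  push_cast at h3; linarith

lemma level {f : ℂ → ℝ} (hf : Continuous f) {a b : ℝ} (h : a < b) :
    ∃ M ∈ Ioo a b, ∀ᵐ x : ℂ, f x ≠ M := by
  have h1 := Measure.countable_meas_level_set_pos (μ := (volume : Measure ℂ)) hf.measurable
  have h2 : ¬ Ioo a b ⊆ {t : ℝ | 0 < volume {x : ℂ | f x = t}} := fun hs => by
    have := (h1.mono hs).measure_zero volume
    simp at this
    linarith
  obtain ⟨M, m1, m2⟩ := not_subset.1 h2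
  refine ⟨M, m1, ?_⟩
  rw [ae_iff]
  simpa using m2

lemma collapse {n : ℕ} {δ : Fin n → ℝ} {γ η : ℝ} (hγ : 0 < γ) (hg : ∀ k l, δ k ≠ δ l → γ ≤ |δ k - δ l|)
    (h0 : 0 ≤ η) (h : 4 * η ≤ γ) : ∃ Ψ : ℝ → ℝ, (∀ a b, |Ψ a - Ψ b| ≤ (1 + 4 * η / γ) * |a - b|) ∧
      ∀ k y, |y - δ k| ≤ η → Ψ y = δ k := by
  classical
  set S := {y : ℝ | ∃ k, |y - δ k| ≤ η} with hS
  set P : ℝ → ℝ := fun y => if h : ∃ k, |y - δ k| ≤ η then δ h.choose else 0 with hP
  have p1 : ∀ k y, |y - δ k| ≤ η → P y = δ k := by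
    intro k y hy
    have e : ∃ k, |y - δ k| ≤ η := ⟨k, hy⟩
    simp only [hP, dif_pos e]
    by_contra hn
    have := hg _ _ hn
    have h2 := e.choose_spec
    have := abs_sub_le (δ e.choose) y (δ k)
    rw [abs_sub_comm (δ e.choose) y] at this
    linarith
  have hL : LipschitzOnWith ⟨1 + 4 * η / γ, by positivity⟩ P S := by
    refine LipschitzOnWith.of_dist_le_mul ?_
    rintro a ⟨k, hk⟩ b ⟨l, hl⟩
    rw [p1 k a hk, p1 l b hl, Real.dist_eq, Real.dist_eq]
    by_cases e : δ k = δ l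
    · rw [e, sub_self, abs_zero]; positivity
    · have h1 := hg _ _ e
      have h2 : |δ k - δ l| ≤ |a - b| + 2 * η := by
        have := abs_sub_le (δ k) a (δ l)
        have := abs_sub_le a b (δ l)
        rw [abs_sub_comm (δ k) a] at *
        linarith
      have h3 : 2 * η ≤ 4 * η / γ * |a - b| := by
        rw [div_mul_eq_mul_div, le_div_iff₀ hγ]; nlinarith
      change _ ≤ (1 + 4 * η / γ) * _
      linarith
  obtain ⟨Ψ, h1, h2⟩ := hL.extend_real
  refine ⟨Ψ, fun a b => h1.dist_le_mul a b, fun k y hy => ?_⟩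
  rw [← h2 ⟨k, hy⟩, p1 k y hy]

lemma En_comp {u : ℂ → ℝ} (hu : LocallyLipschitz u) {Ψ : ℝ → ℝ} {Λ : ℝ} (h0 : 0 ≤ Λ)
    (h : ∀ a b, |Ψ a - Ψ b| ≤ Λ * |a - b|) (c : ℝ) :
    En (fun x => Ψ (u x + c)) ≤ ENNReal.ofReal (Λ ^ 2) * En u := by
  rw [En_eq, En_eq, ← lintegral_const_mul' _ _ ENNReal.ofReal_ne_top]
  refine lintegral_mono_ae ?_
  filter_upwards [ae_diff hu] with x hx
  rw [← ENNReal.ofReal_mul (sq_nonneg _), ← mul_pow]
  refine ENNReal.ofReal_le_ofReal (pow_le_pow_left₀ (norm_nonneg _) ?_ 2)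
  refine le_of_forall_pos_le_add fun ε hε => ?_
  have h1 := hx.hasFDerivAt.isLittleO.def (c := ε / (Λ + 1)) (by positivity)
  refine norm_fderiv_le_of_lip' ℝ (by positivity) ?_
  filter_upwards [h1] with y hy
  have h2 := h (u y + c) (u x + c)
  rw [add_sub_add_right_eq_sub] at h2
  have h3 : |u y - u x| ≤ (‖fderiv ℝ u x‖ + ε / (Λ + 1)) * ‖y - x‖ := by
    have a1 := (fderiv ℝ u x).le_opNorm (y - x)
    have a2 := norm_add_le (u y - u x - fderiv ℝ u x (y - x)) (fderiv ℝ u x (y - x))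
    rw [sub_add_cancel] at a2
    rw [← Real.norm_eq_abs]; linarith
  have h4 : Λ * (ε / (Λ + 1)) ≤ ε := by
    rw [← mul_div_assoc, div_le_iff₀ (by positivity)]; nlinarith
  refine h2.trans ((mul_le_mul_of_nonneg_left h3 h0).trans ?_)
  nlinarith [norm_nonneg (y - x)]

lemma min_fd {f : ℂ → ℝ} {L : ℂ →L[ℝ] ℝ} {x : ℂ} (hf : HasFDerivAt f L x) {M : ℝ} (h : f x ≠ M) :
    HasFDerivAt (fun y => min (f y) M) (if f x < M then L else 0) x := by
  split_ifs with h1
  · refine hf.congr_of_eventuallyEq ?_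
    filter_upwards [hf.continuousAt.eventually_lt continuousAt_const h1] with y hy using min_eq_left hy.le
  · refine (hasFDerivAt_const M x).congr_of_eventuallyEq ?_
    filter_upwards [continuousAt_const.eventually_lt hf.continuousAt
      (lt_of_le_of_ne (not_lt.1 h1) h.symm)] with y hy using min_eq_right hy.le

lemma U_far {N : ℕ} {ρ s : ℝ} (s0 : 0 < s) {w : Fin (N+1) → ℂ} {z : ℂ} (hw : ∀ j, w j ∈ ball z s)
    {x : ℂ} (hx : x ∉ ball z (4 * s)) : U ρ w x ≤ - Real.log s - 1 := by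
  refine av_le fun j => ?_
  have h1 : 3 * s ≤ ‖x - w j‖ := by
    have a := hw j
    rw [mem_ball, dist_eq_norm] at a hx
    have := norm_add_le (x - w j) (w j - z)
    rw [sub_add_sub_cancel] at this
    linarith
  refine (K_le_log' (norm_pos_iff.1 (by linarith))).trans ?_
  have h2 := Real.log_le_log (by positivity) h1
  rw [Real.log_mul (by norm_num) s0.ne'] at h2
  have h3 : 1 ≤ Real.log 3 := by
    rw [Real.le_log_iff_exp_le (by norm_num)]; linarith [Real.exp_one_lt_d9]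
  linarith

lemma GU_le {N : ℕ} {ρ b : ℝ} {w : Fin (N+1) → ℂ} {x : ℂ} (h : ∀ j, ‖g ρ (x - w j)‖ ≤ b) :
    ‖GU ρ w x‖ ≤ b := by
  unfold GU F
  refine (norm_sum_le _ _).trans (le_trans (le_of_eq ?_) (av_le h))
  refine Finset.sum_congr rfl fun j _ => ?_
  rw [norm_smul, Real.norm_eq_abs, abs_of_pos (by positivity)]

lemma GU_int {N : ℕ} {ρ s : ℝ} (hρ : 0 < ρ) (s0 : 0 < s) {w : Fin (N+1) → ℂ} {z : ℂ}
    (hw : ∀ j, w j ∈ ball z s) :
    Integrable ((ball z (4 * s)).indicator fun x => ‖GU ρ w x‖) ∧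
    ∫ x, (ball z (4 * s)).indicator (fun x => ‖GU ρ w x‖) x ≤ 10 * π * s := by
  have ib : ∀ {f : ℂ → ℝ}, Continuous f → ∀ (z : ℂ) (r : ℝ), Integrable ((ball z r).indicator f) :=
    fun hf z r => (integrable_indicator_iff measurableSet_ball).2
      ((hf.continuousOn.integrableOn_compact (isCompact_closedBall z r)).mono_set ball_subset_closedBall)
  have i1 := ib (F_sm hρ (fun _ => 1 / ((N:ℝ) + 1)) w).continuous.norm z (4 * s)
  have i2 := fun j => (ib (g_sm hρ).continuous.norm 0 (5 * s)).comp_sub_right (w j)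
  refine ⟨i1, (integral_mono i1 (integrable_finsetSum Finset.univ fun j _ =>
    (i2 j).const_mul (1 / ((N:ℝ) + 1))) fun x => ?_).trans ?_⟩
  · by_cases hx : x ∈ ball z (4 * s)
    · rw [indicator_of_mem hx]
      refine (norm_sum_le _ _).trans (le_of_eq (Finset.sum_congr rfl fun j _ => ?_))
      have : x - w j ∈ ball (0:ℂ) (5 * s) := by
        have a := hw j
        rw [mem_ball, dist_eq_norm] at a hx
        have := norm_sub_le (x - z) (w j - z)
        rw [sub_sub_sub_cancel_right] at this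
        rw [mem_ball_zero_iff]; linarith
      rw [norm_smul, Real.norm_eq_abs, abs_of_pos (by positivity), indicator_of_mem this]
    · rw [indicator_of_notMem hx]
      exact Finset.sum_nonneg fun j _ => mul_nonneg (by positivity)
        (indicator_nonneg (fun _ _ => norm_nonneg _) _)
  · rw [integral_finsetSum _ fun j _ => (i2 j).const_mul _]
    simp only [integral_const_mul]
    refine av_le fun j => ?_
    rw [integral_sub_right_eq_self ((ball (0:ℂ) (5 * s)).indicator fun x => ‖g ρ x‖) (w j)]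
    exact (g_ball hρ (by positivity)).trans (le_of_eq (by ring))

end H92.Cond
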