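import Pool.Agent.H92.Cond5

set_option autoImplicit false
open MeasureTheory Set Metric Filter Topology Real
open scoped ContDiff

namespace H92.Cond

lemma LL_sum {n : ℕ} {f : Fin n → ℂ → ℝ} (h : ∀ k, LocallyLipschitz (f k)) (q : Fin n → ℝ) :
    LocallyLipschitz fun x => ∑ k, q k * f k x := by
  have : ∀ S : Finset (Fin n), LocallyLipschitz fun x => ∑ k ∈ S, q k * f k x := by
    intro S
    induction S using Finset.induction_on with
    | empty => simpa using LocallyLipschitz.const (0:ℝ)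
    | insert a S ha ih =>
      simp only [Finset.sum_insert ha]
      exact (((q a • ContinuousLinearMap.id ℝ ℝ).lipschitz.locallyLipschitz).comp (h a)).add ih
  exact this _

section
variable {n : ℕ} {z : Fin n → ℂ} {σ s ρ : ℝ} {m : Fin n → ℕ} {w : ∀ k, Fin (m k + 1) → ℂ}
  {q M : Fin n → ℝ}

lemma disj (hz : ∀ k l, l ≠ k → σ ≤ ‖z k - z l‖) (hs : 10 * s ≤ σ) {k l : Fin n} (h : l ≠ k) {x y : ℂ}
    (hx : x ∈ ball (z k) (4 * s)) (hy : y ∈ ball (z l) s) :
    σ / 2 ≤ ‖x - y‖ ∧ x ∉ ball (z l) (4 * s) := by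
  have h1 := hz k l h
  rw [mem_ball, dist_eq_norm] at hx hy
  have s0 : 0 < s := (norm_nonneg _).trans_lt hy
  constructor
  · have : z k - z l = (x - y) + (y - z l) - (x - z k) := by ring
    rw [this] at h1
    linarith [norm_sub_le ((x - y) + (y - z l)) (x - z k), norm_add_le (x - y) (y - z l)]
  · rw [mem_ball, dist_eq_norm]
    have : z k - z l = (x - z l) - (x - z k) := by ring
    rw [this] at h1
    linarith [norm_sub_le (x - z l) (x - z k)]

lemma energy (hσ : 0 < σ) (hz : ∀ k l, l ≠ k → σ ≤ ‖z k - z l‖) (s0 : 0 < s) (hs : 10 * s ≤ σ)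
    (hρ : 0 < ρ) (hw : ∀ k j, w k j ∈ ball (z k) s) (hq : ∑ k, q k = 0)
    (hM : ∀ k, - Real.log s - 1 < M k) (hn : ∀ k, ∀ᵐ x : ℂ, U ρ (w k) x ≠ M k) :
    LocallyLipschitz (fun x => ∑ k, q k * min (U ρ (w k) x) (M k)) ∧
    Tendsto (fun x => ∑ k, q k * min (U ρ (w k) x) (M k)) (cocompact ℂ) (𝓝 0) ∧
    En (fun x => ∑ k, q k * min (U ρ (w k) x) (M k)) ≤ ENNReal.ofReal
      (∑ k, ∑ j, q k / ((m k : ℝ) + 1) * (∫ x, psi ρ x * ∑ l, q l * min (U ρ (w l) (x + w k j)) (M l)) +
        (∑ k, |q k|) ^ 2 * (20 * π * s / σ)) := by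
  set u : ℂ → ℝ := fun x => ∑ k, q k * min (U ρ (w k) x) (M k) with hu
  set Q := ∑ k, |q k| with hQ
  have Q0 : 0 ≤ Q := Finset.sum_nonneg fun _ _ => abs_nonneg _
  have uL : LocallyLipschitz u := LL_sum (fun k =>
    (((W_sm hρ _ (w k)).of_le (by simp) : ContDiff ℝ 1 _).locallyLipschitz).min_const (M k)) q
  set c : (Σ k, Fin (m k + 1)) → ℝ := fun p => q p.1 / ((m p.1 : ℝ) + 1) with hc
  set w' : (Σ k, Fin (m k + 1)) → ℂ := fun p => w p.1 p.2 with hw'
  have hc0 : ∑ p, c p = 0 := by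
    rw [Fintype.sum_sigma, ← hq]
    refine Finset.sum_congr rfl fun k _ => ?_
    simp only [hc, Finset.sum_const, Finset.card_univ, Fintype.card_fin, nsmul_eq_mul]
    push_cast; field_simp
  have eW : ∀ x, W ρ c w' x = ∑ k, q k * U ρ (w k) x := fun x => by
    rw [W, Fintype.sum_sigma]
    refine Finset.sum_congr rfl fun k _ => ?_
    simp only [U, W, Finset.mul_sum, hc, hw']
    exact Finset.sum_congr rfl fun j _ => by ring
  have eF : ∀ x, F ρ c w' x = ∑ k, q k • GU ρ (w k) x := fun x => by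
    rw [F, Fintype.sum_sigma]
    refine Finset.sum_congr rfl fun k _ => ?_
    simp only [GU, F, Finset.smul_sum, hc, hw', smul_smul, mul_one_div]
  have far : ∀ k x, x ∉ ball (z k) (4 * s) → U ρ (w k) x < M k := fun k x hx =>
    (U_far s0 (hw k) hx).trans_lt (hM k)
  have uT : Tendsto u (cocompact ℂ) (𝓝 0) := by
    refine (W_lim hρ hc0 w').congr' ?_
    filter_upwards [(isCompact_iUnion fun k => isCompact_closedBall (z k) (4 * s)).compl_mem_cocompact]
      with x hx
    rw [eW]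
    refine Finset.sum_congr rfl fun k _ => ?_
    rw [min_eq_left (far k x fun h => hx (mem_iUnion.2 ⟨k, ball_subset_closedBall h⟩)).le]
  refine ⟨uL, uT, ?_⟩
  obtain ⟨B, hB⟩ := bdd_of_lim uL.continuous uT
  set P : ℂ → ℂ := fun x => ∑ k, q k • if U ρ (w k) x < M k then GU ρ (w k) x else 0 with hP
  have dU : ∀ᵐ x : ℂ, fderiv ℝ u x = innerSL ℝ (P x) := by
    filter_upwards [ae_all_iff.2 hn] with x hx
    have h : HasFDerivAt u _ x := HasFDerivAt.fun_sum (u := Finset.univ) fun k _ =>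
      (min_fd (W_fd hρ _ (w k) x) (hx k)).const_mul (q k)
    rw [h.fderiv]
    refine ContinuousLinearMap.ext fun v => ?_
    simp only [hP, innerSL_apply_apply, sum_inner, real_inner_smul_left, sum_apply, smul_apply,
      smul_eq_mul]
    refine Finset.sum_congr rfl fun k _ => ?_
    unfold U GU
    split_ifs <;> simp
  set T : ℂ → ℝ := fun x => ∑ k, |q k| * (ball (z k) (4 * s)).indicator (fun x => ‖GU ρ (w k) x‖) x
    with hT
  have T0 : ∀ x k, 0 ≤ |q k| * (ball (z k) (4 * s)).indicator (fun x => ‖GU ρ (w k) x‖) x :=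
    fun x k => mul_nonneg (abs_nonneg _) (indicator_nonneg (fun _ _ => norm_nonneg _) _)
  have iT : Integrable T := integrable_finsetSum _ fun k _ => (GU_int hρ s0 (hw k)).1.const_mul _
  have vT : ∫ x, T x ≤ Q * (10 * π * s) := by
    rw [hT, integral_finsetSum _ fun k _ => (GU_int hρ s0 (hw k)).1.const_mul _, hQ, Finset.sum_mul]
    refine Finset.sum_le_sum fun k _ => ?_
    rw [integral_const_mul]
    exact mul_le_mul_of_nonneg_left (GU_int hρ s0 (hw k)).2 (abs_nonneg _)
  have a1 : ∀ x, ‖F ρ c w' x - P x‖ ≤ T x := by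
    intro x
    rw [eF, hP, ← Finset.sum_sub_distrib]
    refine (norm_sum_le _ _).trans (Finset.sum_le_sum fun k _ => ?_)
    split_ifs with h
    · rw [sub_self, norm_zero]; exact T0 x k
    · rw [smul_zero, sub_zero, norm_smul, Real.norm_eq_abs,
        indicator_of_mem (by by_contra hh; exact h (far k x hh))]
  have a2 : ∀ x, ‖P x‖ ^ 2 ≤ inner ℝ (P x) (F ρ c w' x) + Q * (2 / σ) * T x := by
    intro x
    have Tn : 0 ≤ T x := Finset.sum_nonneg fun k _ => T0 x k
    by_cases h : ∀ k, U ρ (w k) x < M k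
    · have : P x = F ρ c w' x := by simp only [eF, hP, h, if_true]
      rw [← this, real_inner_self_eq_norm_sq]
      have : 0 ≤ Q * (2 / σ) * T x := by positivity
      linarith
    · push Not at h
      obtain ⟨k, hk⟩ := h
      have hx : x ∈ ball (z k) (4 * s) := by by_contra hh; exact absurd (far k x hh) (not_lt.2 hk)
      have b1 : ‖P x‖ ≤ Q * (2 / σ) := by
        rw [hP, hQ, Finset.sum_mul]
        refine (norm_sum_le _ _).trans (Finset.sum_le_sum fun l _ => ?_)
        rw [norm_smul, Real.norm_eq_abs]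
        refine mul_le_mul_of_nonneg_left ?_ (abs_nonneg _)
        split_ifs with h
        · have hl : l ≠ k := fun e => by subst e; exact absurd h (not_lt.2 hk)
          refine GU_le fun j => (g_le hρ (half_pos hσ) (disj hz hs hl hx (hw l j)).1).trans (le_of_eq ?_)
          field_simp
        · rw [norm_zero]; positivity
      have b2 : inner ℝ (P x) (F ρ c w' x) = ‖P x‖ ^ 2 + inner ℝ (P x) (F ρ c w' x - P x) := by
        rw [inner_sub_right, real_inner_self_eq_norm_sq]; ring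
      have b3 := (abs_le.1 ((abs_real_inner_le_norm (P x) (F ρ c w' x - P x)).trans
        (mul_le_mul b1 (a1 x) (norm_nonneg _) (by positivity)))).1
      linarith
  obtain ⟨C, C0, hC⟩ := F_decay hρ hc0 w'
  have iD : Integrable fun x => fderiv ℝ u x (F ρ c w' x) := by
    refine ((F_sq_int hρ hc0 w').add (iT.const_mul C)).mono'
      (meas_app u (F_sm hρ c w').continuous).aestronglyMeasurable ?_
    filter_upwards [dU] with x hx
    refine (ContinuousLinearMap.le_opNorm _ _).trans ?_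
    rw [hx, innerSL_apply_norm]
    have b1 : ‖F ρ c w' x‖ ≤ C := (hC x).trans (mul_le_of_le_one_right C0
      (inv_le_one_of_one_le₀ (one_le_pow₀ (by linarith [norm_nonneg x]))))
    have b2 : ‖P x‖ ≤ ‖F ρ c w' x‖ + T x := by
      have := norm_sub_le (F ρ c w' x) (F ρ c w' x - P x)
      rw [sub_sub_cancel] at this
      linarith [a1 x]
    have Tn : 0 ≤ T x := Finset.sum_nonneg fun k _ => T0 x k
    simp only [Pi.add_apply]
    nlinarith [norm_nonneg (F ρ c w' x)]
  have iS : Integrable fun x => fderiv ℝ u x (F ρ c w' x) + Q * (2 / σ) * T x :=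
    iD.add (iT.const_mul (Q * (2 / σ)))
  have pt : ∀ᵐ x : ℂ, ‖fderiv ℝ u x‖ ^ 2 ≤ fderiv ℝ u x (F ρ c w' x) + Q * (2 / σ) * T x := by
    filter_upwards [dU] with x hx
    rw [hx, innerSL_apply_norm, innerSL_apply_apply]
    exact a2 x
  rw [En_eq]
  refine (lintegral_mono_ae (by filter_upwards [pt] with x hx using ENNReal.ofReal_le_ofReal hx)).trans ?_
  rw [← ofReal_integral_eq_lintegral_ofReal iS
    (by filter_upwards [pt] with x hx using (sq_nonneg _).trans hx)]
  refine ENNReal.ofReal_le_ofReal ?_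
  rw [integral_add iD (iT.const_mul _), ibp hρ hc0 w' uL hB iD, Fintype.sum_sigma, integral_const_mul]
  refine add_le_add le_rfl ((mul_le_mul_of_nonneg_left vT (by positivity)).trans (le_of_eq ?_))
  ring

end

lemma int_U {N : ℕ} {ρ : ℝ} (hρ : 0 < ρ) (w : Fin (N+1) → ℂ) (a : ℂ) :
    Integrable (fun x => psi ρ x * U ρ w (x + a)) ∧ ∫ x, psi ρ x * U ρ w (x + a) =
      ∑ j, 1 / ((N:ℝ) + 1) * ∫ x, psi ρ x * K ρ (x + (a - w j)) := by
  have : ∀ x, psi ρ x * U ρ w (x + a) = ∑ j, 1 / ((N:ℝ) + 1) * (psi ρ x * K ρ (x + (a - w j))) :=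
    fun x => by simp only [U, W, Finset.mul_sum, add_sub_assoc, mul_left_comm]
  simp only [this]
  refine ⟨integrable_finsetSum _ fun j _ => (int_psi_K hρ _).const_mul _, ?_⟩
  rw [integral_finsetSum _ fun j _ => (int_psi_K hρ _).const_mul _]
  simp only [integral_const_mul]

lemma int_min {N : ℕ} {ρ : ℝ} (hρ : 0 < ρ) (w : Fin (N+1) → ℂ) (a : ℂ) (M : ℝ) :
    Integrable (fun x => psi ρ x * min (U ρ w (x + a)) M) := by
  have := (int_U hρ w a).1.inf ((int_psi hρ).mul_const M)
  refine this.congr (Eventually.of_forall fun x => ?_)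
  simp only [Pi.inf_apply]
  rw [mul_min_of_nonneg _ _ (psi_nn ρ x)]

lemma cross_min {N : ℕ} {z z' a : ℂ} {σ s ρ M : ℝ} (hρ : 0 < ρ) (hσ : 0 < σ) (h : σ ≤ ‖z - z'‖)
    (s0 : 0 < s) (hs : 10 * s ≤ σ) (ha : a ∈ ball z s) {w : Fin (N+1) → ℂ} (hw : ∀ j, w j ∈ ball z' s)
    (hM : - Real.log s - 1 < M) :
    |(∫ x, psi ρ x * min (U ρ w (x + a)) M) - 2 * π * (- Real.log ‖z - z'‖)| ≤
      8 * π * s / σ + ρ * ((4 * π + 2 * C1) / σ) ∧
    |min (U ρ w a) M - (- Real.log ‖z - z'‖)| ≤ 4 * s / σ + 2 * ρ / σ := by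
  have hs' : 4 * s ≤ σ := by linarith
  have lo : ∀ x, - Real.log ‖z - z'‖ - 4 * s / σ - 2 * ρ / σ - 2 / σ * ‖x‖ ≤ min (U ρ w (x + a)) M := by
    intro x
    refine le_min (av_ge fun j => ?_) ?_
    · obtain ⟨h1, h2⟩ := log_close hσ h hs' ha (hw j)
      have := K_low hρ hσ h1 x
      rw [add_sub_assoc]
      linarith [(abs_le.1 h2).2]
    · have h2 := Real.log_le_log (show 0 < 3 * s by positivity) (show 3 * s ≤ ‖z - z'‖ by linarith)
      rw [Real.log_mul (by norm_num) s0.ne'] at h2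
      have h3 : 1 ≤ Real.log 3 := by
        rw [Real.le_log_iff_exp_le (by norm_num)]; linarith [Real.exp_one_lt_d9]
      have : 0 ≤ 4 * s / σ := by positivity
      have : 0 ≤ 2 * ρ / σ := by positivity
      have : 0 ≤ 2 / σ * ‖x‖ := by positivity
      linarith
  constructor
  · have a1 := avg_ge hρ (int_min hρ w a M) lo
    have a2 : ∫ x, psi ρ x * min (U ρ w (x + a)) M ≤ ∫ x, psi ρ x * U ρ w (x + a) :=
      integral_mono (int_min hρ w a M) (int_U hρ w a).1 fun x =>
        mul_le_mul_of_nonneg_left (min_le_left _ _) (psi_nn ρ x)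
    rw [(int_U hρ w a).2] at a2
    have a3 := a2.trans (av_le (β := 2 * π * (- Real.log ‖z - z'‖) +
      (8 * π * s / σ + ρ * ((4 * π + 2 * C1) / σ))) fun j => by
        linarith [(abs_le.1 (cross hρ hσ h hs' ha (hw j))).2])
    have e1 : 8 * π * s / σ = 2 * π * (4 * s / σ) := by ring
    have e2 : ρ * ((4 * π + 2 * C1) / σ) = 2 * π * (2 * ρ / σ) + 2 / σ * (ρ * C1) := by ring
    rw [abs_le]; constructor <;> linarith
  · have a1 := lo 0
    rw [zero_add, norm_zero, mul_zero] at a1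
    have a2 : U ρ w a ≤ - Real.log ‖z - z'‖ + 4 * s / σ := av_le fun j => by
      obtain ⟨h1, h2⟩ := log_close hσ h hs' ha (hw j)
      have := K_le_log' (ρ := ρ) (norm_pos_iff.1 (show 0 < ‖a - w j‖ by linarith))
      linarith [(abs_le.1 h2).1]
    have := min_le_left (U ρ w a) M
    have : 0 ≤ 2 * ρ / σ := by positivity
    rw [abs_le]; constructor <;> linarith

theorem upper {n : ℕ} {z : Fin n → ℂ} {σ s : ℝ} (hσ : 0 < σ) (hz : ∀ k l, l ≠ k → σ ≤ ‖z k - z l‖)
    (s0 : 0 < s) (s1 : s ≤ 1 / 2) (hs : 10 * s ≤ σ) {E : Fin n → Set ℂ} (hE : ∀ k, IsCompact (E k))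
    (hb : ∀ k, E k ⊆ ball (z k) s) (hd : ∀ k, 0 < td (E k)) (hd' : ∀ k, td (E k) ≤ s)
    {q δ : Fin n → ℝ} (hq : ∑ k, q k = 0) {c₀ γ η : ℝ} (hγ : 0 < γ)
    (hg : ∀ k l, δ k ≠ δ l → γ ≤ |δ k - δ l|) (h0 : 0 ≤ η) (h4 : 4 * η ≤ γ)
    (hη : ∀ k, |q k * (- Real.log (td (E k))) +
      ∑ l ∈ Finset.univ.erase k, q l * (- Real.log ‖z k - z l‖) + c₀ - δ k| +
      (∑ k, |q k|) * (2 * s + 6 * s / σ) ≤ η) :
    ∃ v : ℂ → ℝ, (LocallyLipschitz v ∧ (∃ c : ℝ, Tendsto v (cocompact ℂ) (𝓝 c)) ∧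
      ∀ k, ∀ x ∈ E k, v x = δ k) ∧ En v ≤ ENNReal.ofReal ((1 + 4 * η / γ) ^ 2 *
        (2 * π * Iq z q (fun k => - Real.log (td (E k))) +
          (∑ k, |q k|) ^ 2 * ((32 * π + 2 * C1) / σ * s))) := by
  have hlt : ∀ k, td (E k) < td (E k) * Real.exp s := fun k =>
    lt_mul_of_one_lt_right (hd k) (Real.one_lt_exp_iff.2 s0)
  choose m w w1 w2 using fun k => fek_upper (hE k) (hd k) (hlt k)
  obtain ⟨ρ, r1, r2⟩ := ((eventually_all.2 fun k => ev_rho (hE k) ((hd k).trans (hlt k)) (w2 k)).and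
    (Ioo_mem_nhdsGT s0)).exists
  have hρ : 0 < ρ := r2.1
  simp only [Real.log_mul (hd _).ne' (Real.exp_pos s).ne', Real.log_exp] at r1
  choose M M1 M2 using fun k => level (f := U ρ (w k)) (W_sm hρ _ _).continuous
    (show - Real.log (td (E k)) - 2 * s < - Real.log (td (E k)) - s by linarith)
  have hM : ∀ k, - Real.log s - 1 < M k := fun k => by
    have := Real.log_le_log (hd k) (hd' k)
    linarith [(M1 k).1]
  have hw : ∀ k j, w k j ∈ ball (z k) s := fun k j => hb k (w1 k j)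
  obtain ⟨uL, uT, uE⟩ := energy hσ hz s0 hs hρ hw hq hM M2
  set u : ℂ → ℝ := fun x => ∑ k, q k * min (U ρ (w k) x) (M k) with hu
  set Q := ∑ k, |q k| with hQ
  obtain ⟨Ψ, p1, p2⟩ := collapse hγ hg h0 h4
  have pL : LipschitzWith ⟨1 + 4 * η / γ, by positivity⟩ Ψ := LipschitzWith.of_dist_le_mul p1
  refine ⟨fun x => Ψ (u x + c₀), ⟨pL.locallyLipschitz.comp (uL.add (LocallyLipschitz.const c₀)),
    ⟨_, (pL.continuous.tendsto _).comp (uT.add_const c₀)⟩, fun k x hx => p2 k _ ?_⟩, ?_⟩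
  · refine le_trans ?_ (hη k)
    have e : u x + c₀ - δ k = (q k * (- Real.log (td (E k))) +
        ∑ l ∈ Finset.univ.erase k, q l * (- Real.log ‖z k - z l‖) + c₀ - δ k) +
        (q k * (M k - - Real.log (td (E k))) + ∑ l ∈ Finset.univ.erase k,
          q l * (min (U ρ (w l) x) (M l) - (- Real.log ‖z k - z l‖))) := by
      simp only [hu]
      rw [← Finset.add_sum_erase _ _ (Finset.mem_univ k),
        min_eq_right (by linarith [r1 k x hx, (M1 k).2])]
      simp only [mul_sub, Finset.sum_sub_distrib]; ring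
    rw [e]
    refine (abs_add_le _ _).trans (add_le_add le_rfl ((abs_add_le _ _).trans ?_))
    rw [hQ, Finset.sum_mul, ← Finset.add_sum_erase _ _ (Finset.mem_univ k)]
    have z1 : 0 ≤ 6 * s / σ := by positivity
    refine add_le_add ?_ ((Finset.abs_sum_le_sum_abs _ _).trans (Finset.sum_le_sum fun l hl => ?_))
    · rw [abs_mul]
      refine mul_le_mul_of_nonneg_left (abs_le.2 ⟨?_, ?_⟩) (abs_nonneg _) <;>
        linarith [(M1 k).1, (M1 k).2]
    · rw [abs_mul]
      refine mul_le_mul_of_nonneg_left ((cross_min hρ hσ (hz k l (Finset.ne_of_mem_erase hl)) s0 hs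
        (hb k hx) (hw l) (hM l)).2.trans ?_) (abs_nonneg _)
      have : 2 * ρ / σ ≤ 2 * s / σ := by gcongr; exact r2.2.le
      have e : 6 * s / σ = 4 * s / σ + 2 * s / σ := by ring
      linarith
  · refine (En_comp uL (by positivity) p1 c₀).trans ((mul_le_mul_right uE _).trans ?_)
    rw [← ENNReal.ofReal_mul (sq_nonneg _)]
    refine ENNReal.ofReal_le_ofReal (mul_le_mul_of_nonneg_left ?_ (sq_nonneg _))
    set e := 8 * π * s / σ + ρ * ((4 * π + 2 * C1) / σ) with he
    have p0 := Real.pi_pos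
    have c0 := C1_nn
    have e0 : 0 ≤ e := by positivity
    have e1 : Q ^ 2 * e + Q ^ 2 * (20 * π * s / σ) ≤ Q ^ 2 * ((32 * π + 2 * C1) / σ * s) := by
      rw [← mul_add]
      refine mul_le_mul_of_nonneg_left ?_ (sq_nonneg _)
      have : ρ * ((4 * π + 2 * C1) / σ) ≤ s * ((4 * π + 2 * C1) / σ) := by gcongr; exact r2.2.le
      have e : (32 * π + 2 * C1) / σ * s = 8 * π * s / σ + s * ((4 * π + 2 * C1) / σ) +
        20 * π * s / σ := by ring
      linarith
    have e2 := off_le q e0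
    have e3 : ∑ k, ∑ j, q k / ((m k : ℝ) + 1) *
        (∫ x, psi ρ x * ∑ l, q l * min (U ρ (w l) (x + w k j)) (M l)) ≤
        2 * π * Iq z q (fun k => - Real.log (td (E k))) +
        ∑ k, ∑ l ∈ Finset.univ.erase k, |q k| * (|q l| * e) := by
      rw [Iq, mul_add, Finset.mul_sum, Finset.mul_sum, ← Finset.sum_add_distrib, ← Finset.sum_add_distrib]
      refine Finset.sum_le_sum fun k _ => ?_
      have ee : ∀ j, q k / ((m k : ℝ) + 1) *
          (∫ x, psi ρ x * ∑ l, q l * min (U ρ (w l) (x + w k j)) (M l)) = ∑ l, q k / ((m k : ℝ) + 1) *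
          (q l * ∫ x, psi ρ x * min (U ρ (w l) (x + w k j)) (M l)) := by
        intro j
        rw [← Finset.mul_sum]
        congr 1
        simp only [Finset.mul_sum, mul_left_comm (psi ρ _)]
        rw [integral_finsetSum _ fun l _ => (int_min hρ _ _ _).const_mul _]
        simp only [integral_const_mul]
      simp only [ee]
      rw [Finset.sum_comm, ← Finset.add_sum_erase _ _ (Finset.mem_univ k), add_assoc, Finset.mul_sum,
        ← Finset.sum_add_distrib]
      refine add_le_add ?_ (Finset.sum_le_sum fun l hl => ?_)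
      · have b : ∑ j, 1 / ((m k : ℝ) + 1) * ∫ x, psi ρ x * min (U ρ (w k) (x + w k j)) (M k) ≤
            2 * π * (- Real.log (td (E k))) := av_le fun j => by
          have := avg_le hρ (int_min hρ (w k) (w k j) (M k)) (L := 0) (a := - Real.log (td (E k)))
            fun x => by linarith [min_le_right (U ρ (w k) (x + w k j)) (M k), (M1 k).2]
          linarith
        have b2 := mul_le_mul_of_nonneg_left b (sq_nonneg (q k))
        rw [Finset.mul_sum] at b2
        refine le_of_eq_of_le (Finset.sum_congr rfl fun j _ => by ring) (b2.trans (le_of_eq (by ring)))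
      · have := avg_close (q k)
          (G := fun j => q l * ∫ x, psi ρ x * min (U ρ (w l) (x + w k j)) (M l))
          (β := q l * (2 * π * (- Real.log ‖z k - z l‖))) (e := |q l| * e) fun j => by
            rw [← mul_sub, abs_mul]
            exact mul_le_mul_of_nonneg_left (cross_min hρ hσ (hz k l (Finset.ne_of_mem_erase hl)) s0 hs
              (hw k j) (hw l) (hM l)).1 (abs_nonneg _)
        linarith [(abs_le.1 this).2]
    linarith

end H92.Cond
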