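import Pool.Agent.H92.Cond6

set_option autoImplicit false
open MeasureTheory Set Metric Filter Topology Real Asymptotics
open scoped ContDiff

namespace H92.Cond

lemma ex_pos {ι : Type} [Finite ι] (P : ι → Prop) (f : ι → ℝ) (h : ∀ i, P i → 0 < f i) :
    ∃ σ > 0, ∀ i, P i → σ ≤ f i := by
  have : ∀ᶠ σ in 𝓝[>] (0:ℝ), ∀ i, P i → σ ≤ f i := eventually_all.2 fun i => by
    by_cases hi : P i
    · filter_upwards [Ioo_mem_nhdsGT (h i hi)] with σ hσ _ using hσ.2.le
    · exact Eventually.of_forall fun _ h => absurd h hi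
  obtain ⟨σ, h1, h2⟩ := (this.and self_mem_nhdsWithin).exists
  exact ⟨σ, h2, h1⟩

section alg
variable {n : ℕ} {z : Fin n → ℂ} {δ ν a p lm lam L : Fin n → ℝ} {D T u g0 : ℝ}

lemma id_lo (ha : ∀ k, a k * ν k = δ k - D) (h0 : ∑ k, a k = 0) (hT : T * u = 1)
    (hL : ∀ k, L k = ν k * T - lm k - lam k) :
    2 * ∑ k, (u * a k) * δ k - Iq z (fun k => u * a k) L = u * ∑ k, a k ^ 2 * ν k + u ^ 2 *
      ((∑ k, a k ^ 2 * lm k + ∑ k, ∑ l ∈ Finset.univ.erase k, a k * a l * Real.log ‖z k - z l‖) +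
        ∑ k, a k ^ 2 * lam k) := by
  have e1 : ∑ k, (u * a k) * δ k = u * ∑ k, a k ^ 2 * ν k := by
    have : ∀ k, (u * a k) * δ k = u * (a k ^ 2 * ν k) + u * D * a k := fun k => by
      linear_combination (-(u * a k)) * ha k
    simp only [this, Finset.sum_add_distrib, ← Finset.mul_sum, h0, mul_zero, add_zero]
  have e2 : ∑ k, (u * a k) ^ 2 * L k = u * ∑ k, a k ^ 2 * ν k - u ^ 2 * ∑ k, a k ^ 2 * lm k -
      u ^ 2 * ∑ k, a k ^ 2 * lam k := by
    simp only [Finset.mul_sum, ← Finset.sum_sub_distrib]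
    refine Finset.sum_congr rfl fun k _ => ?_
    rw [hL]; linear_combination (u * a k ^ 2 * ν k) * hT
  have e3 : ∑ k, ∑ l ∈ Finset.univ.erase k, (u * a k) * (u * a l) * (- Real.log ‖z k - z l‖) =
      - (u ^ 2 * ∑ k, ∑ l ∈ Finset.univ.erase k, a k * a l * Real.log ‖z k - z l‖) := by
    simp only [Finset.mul_sum, ← Finset.sum_neg_distrib]
    exact Finset.sum_congr rfl fun k _ => Finset.sum_congr rfl fun l _ => by ring
  rw [Iq, e1, e2, e3]; ring

noncomputable def ee (z : Fin n → ℂ) (a p lm lam : Fin n → ℝ) (u : ℝ) (k : Fin n) : ℝ :=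
  - a k * lam k + u * (p k * (- lm k - lam k) +
    ∑ l ∈ Finset.univ.erase k, p l * (- Real.log ‖z k - z l‖))

lemma id_dev (ha : ∀ k, a k * ν k = δ k - D) (hT : T * u = 1)
    (hL : ∀ k, L k = ν k * T - lm k - lam k)
    (hp : ∀ k, p k * ν k - a k * lm k +
      ∑ l ∈ Finset.univ.erase k, a l * (- Real.log ‖z k - z l‖) + g0 = 0) (k : Fin n) :
    u * (a k + p k * u) * L k + ∑ l ∈ Finset.univ.erase k, u * (a l + p l * u) *
      (- Real.log ‖z k - z l‖) + (D + g0 * u) - δ k = u * ee z a p lm lam u k := by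
  have e : ∑ l ∈ Finset.univ.erase k, u * (a l + p l * u) * (- Real.log ‖z k - z l‖) =
      u * ∑ l ∈ Finset.univ.erase k, a l * (- Real.log ‖z k - z l‖) +
      u ^ 2 * ∑ l ∈ Finset.univ.erase k, p l * (- Real.log ‖z k - z l‖) := by
    simp only [Finset.mul_sum, ← Finset.sum_add_distrib]
    exact Finset.sum_congr rfl fun l _ => by ring
  rw [e, hL, ee]
  linear_combination ha k + u * hp k + (a k * ν k + p k * ν k * u) * hT

lemma id_up (ha : ∀ k, a k * ν k = δ k - D) (h0 : ∑ k, a k = 0) (h1 : ∑ k, p k = 0) (hT : T * u = 1)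
    (hL : ∀ k, L k = ν k * T - lm k - lam k)
    (hp : ∀ k, p k * ν k - a k * lm k +
      ∑ l ∈ Finset.univ.erase k, a l * (- Real.log ‖z k - z l‖) + g0 = 0) :
    Iq z (fun k => u * (a k + p k * u)) L = u * ∑ k, a k ^ 2 * ν k + u ^ 2 *
      ((∑ k, a k ^ 2 * lm k + ∑ k, ∑ l ∈ Finset.univ.erase k, a k * a l * Real.log ‖z k - z l‖) +
        ∑ k, (a k + p k * u) * ee z a p lm lam u k) := by
  have e : ∀ k, (u * (a k + p k * u)) ^ 2 * L k + ∑ l ∈ Finset.univ.erase k,
      u * (a k + p k * u) * (u * (a l + p l * u)) * (- Real.log ‖z k - z l‖) =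
      u * (a k ^ 2 * ν k) + u ^ 2 * ((a k ^ 2 * lm k +
        ∑ l ∈ Finset.univ.erase k, a k * a l * Real.log ‖z k - z l‖) +
        (a k + p k * u) * ee z a p lm lam u k) - 2 * g0 * u ^ 2 * a k - g0 * u ^ 3 * p k := by
    intro k
    have e1 : ∑ l ∈ Finset.univ.erase k, u * (a k + p k * u) * (u * (a l + p l * u)) *
        (- Real.log ‖z k - z l‖) = u * (a k + p k * u) * ∑ l ∈ Finset.univ.erase k,
        u * (a l + p l * u) * (- Real.log ‖z k - z l‖) := by
      rw [Finset.mul_sum]; exact Finset.sum_congr rfl fun l _ => by ring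
    have e2 : ∑ l ∈ Finset.univ.erase k, a k * a l * Real.log ‖z k - z l‖ =
        - (a k * ∑ l ∈ Finset.univ.erase k, a l * (- Real.log ‖z k - z l‖)) := by
      rw [Finset.mul_sum, ← Finset.sum_neg_distrib]; exact Finset.sum_congr rfl fun l _ => by ring
    rw [e1, e2]
    linear_combination u * (a k + p k * u) * id_dev ha hT hL hp k - u * (a k + p k * u) * ha k +
      u ^ 2 * a k * hp k
  rw [Iq, ← Finset.sum_add_distrib]
  simp only [e, Finset.sum_sub_distrib, Finset.sum_add_distrib, ← Finset.mul_sum, h0, h1]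
  ring

end alg

theorem main (n : ℕ) (z : Fin n → ℂ) (δ μ ν : Fin n → ℝ) (E : Fin n → ℝ → Set ℂ) (D R : ℝ)
    (hz : Function.Injective z) (hδ : ∃ k l, δ k ≠ δ l) (hμ : ∀ k, 0 < μ k) (hν : ∀ k, 0 < ν k)
    (hc : ∀ k r, IsClosed (E k r))
    (hb : ∀ k, ∀ ε > 0, ∀ᶠ r in 𝓝[>] (0:ℝ), E k r ⊆ Metric.ball (z k) ε)
    (ht : ∀ k, Tendsto (fun r : ℝ => td (E k r) / (μ k * r ^ (ν k))) (𝓝[>] 0) (𝓝 1))
    (hD : D = (∑ k, δ k / ν k) / (∑ k, 1 / ν k))
    (hR : R = 2 * π * (∑ k, (δ k - D) ^ 2 / (ν k) ^ 2 * Real.log (μ k)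
        + ∑ k, ∑ l ∈ Finset.univ.erase k,
            (δ k - D) * (δ l - D) / (ν k * ν l) * Real.log ‖z k - z l‖)) :
    (fun r : ℝ =>
        (⨅ (u : ℂ → ℝ) (_ : LocallyLipschitz u ∧ (∃ c : ℝ, Tendsto u (cocompact ℂ) (𝓝 c)) ∧
              ∀ k, ∀ x ∈ E k r, u x = δ k), En u).toReal
        - (-(2 * π) * ∑ k, (δ k - D) ^ 2 / (ν k * Real.log r) + R * (1 / Real.log r) ^ 2))
      =o[𝓝[>] 0] (fun r : ℝ => (1 / Real.log r) ^ 2) := by
  obtain ⟨σ, hσ, hs⟩ := ex_pos (fun p : Fin n × Fin n => p.2 ≠ p.1) (fun p => ‖z p.1 - z p.2‖)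
    fun p hp => norm_pos_iff.2 (sub_ne_zero.2 fun h => hp (hz h).symm)
  have hσ' : ∀ k l, l ≠ k → σ ≤ ‖z k - z l‖ := fun k l h => hs (k, l) h
  obtain ⟨γ, hγ, hg⟩ := ex_pos (fun p : Fin n × Fin n => δ p.1 ≠ δ p.2) (fun p => |δ p.1 - δ p.2|)
    fun p hp => abs_pos.2 (sub_ne_zero.2 hp)
  have hg' : ∀ k l, δ k ≠ δ l → γ ≤ |δ k - δ l| := fun k l h => hg (k, l) h
  obtain ⟨k0, l0, hkl⟩ := hδ
  have W0 : 0 < ∑ k, 1 / ν k := Finset.sum_pos (fun k _ => by have := hν k; positivity) ⟨k0, by simp⟩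
  set a : Fin n → ℝ := fun k => (δ k - D) / ν k with ha
  have a1 : ∀ k, a k * ν k = δ k - D := fun k => div_mul_cancel₀ _ (hν k).ne'
  have a0 : ∑ k, a k = 0 := by
    have : ∀ k, a k = δ k / ν k - D * (1 / ν k) := fun k => by simp only [ha]; ring
    simp only [this, Finset.sum_sub_distrib, ← Finset.mul_sum]
    rw [hD, div_mul_cancel₀ _ W0.ne', sub_self]
  set β : Fin n → ℝ := fun k => a k * Real.log (μ k) -
    ∑ l ∈ Finset.univ.erase k, a l * (- Real.log ‖z k - z l‖) with hβ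
  set g0 := (∑ k, β k / ν k) / (∑ k, 1 / ν k) with hg0
  set p : Fin n → ℝ := fun k => (β k - g0) / ν k with hp
  have p0 : ∑ k, p k = 0 := by
    have : ∀ k, p k = β k / ν k - g0 * (1 / ν k) := fun k => by simp only [hp]; ring
    simp only [this, Finset.sum_sub_distrib, ← Finset.mul_sum]
    rw [hg0, div_mul_cancel₀ _ W0.ne', sub_self]
  have p1 : ∀ k, p k * ν k - a k * Real.log (μ k) +
      ∑ l ∈ Finset.univ.erase k, a l * (- Real.log ‖z k - z l‖) + g0 = 0 := fun k => by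
    simp only [hp]; rw [div_mul_cancel₀ _ (hν k).ne']; simp only [hβ]; ring
  set α := ∑ k, a k ^ 2 * ν k with hα
  have α0 : 0 < α := by
    have : ∃ k, δ k ≠ D := by
      by_contra h; push Not at h; exact hkl ((h k0).trans (h l0).symm)
    obtain ⟨k, hk⟩ := this
    refine Finset.sum_pos' (fun k _ => by have := hν k; positivity) ⟨k, by simp, ?_⟩
    have : a k ≠ 0 := div_ne_zero (sub_ne_zero.2 hk) (hν k).ne'
    have := hν k; positivity
  set R' := ∑ k, a k ^ 2 * Real.log (μ k) +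
    ∑ k, ∑ l ∈ Finset.univ.erase k, a k * a l * Real.log ‖z k - z l‖ with hR'
  have eR : R = 2 * π * R' := by
    rw [hR, hR']
    congr 2
    · exact Finset.sum_congr rfl fun k _ => by simp only [ha]; ring
    · exact Finset.sum_congr rfl fun k _ => Finset.sum_congr rfl fun l _ => by simp only [ha]; ring
  set u : ℝ → ℝ := fun r => (- Real.log r)⁻¹ with hu
  set lam : ℝ → Fin n → ℝ := fun r k => Real.log (td (E k r) / (μ k * r ^ (ν k))) with hlam
  have tT : Tendsto (fun r : ℝ => - Real.log r) (𝓝[>] 0) atTop :=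
    tendsto_neg_atBot_atTop.comp Real.tendsto_log_nhdsGT_zero
  have tu : Tendsto u (𝓝[>] 0) (𝓝 0) := tT.inv_tendsto_atTop
  have tl : ∀ k, Tendsto (fun r => lam r k) (𝓝[>] 0) (𝓝 0) := fun k => by
    simpa using (ht k).log one_ne_zero
  have te : ∀ k, Tendsto (fun r => ee z a p (fun k => Real.log (μ k)) (lam r) (u r) k) (𝓝[>] 0) (𝓝 0) :=
    fun k => by
      have := ((tl k).const_mul (- a k)).add (tu.mul ((((tl k).const_sub (- Real.log (μ k))).const_mul
        (p k)).add_const (∑ l ∈ Finset.univ.erase k, p l * (- Real.log ‖z k - z l‖))))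
      simpa [ee] using this
  have tq : ∀ k, Tendsto (fun r => a k + p k * u r) (𝓝[>] 0) (𝓝 (a k)) := fun k => by
    simpa using (tu.const_mul (p k)).const_add (a k)
  set Q := ∑ k, |a k| with hQ
  have tQ : Tendsto (fun r => ∑ k, |a k + p k * u r|) (𝓝[>] 0) (𝓝 Q) :=
    tendsto_finsetSum _ fun k _ => (tq k).abs
  have td0 : ∀ k, Tendsto (fun r => td (E k r)) (𝓝[>] 0) (𝓝 0) := fun k => by
    have h1 : Tendsto (fun r : ℝ => μ k * r ^ (ν k)) (𝓝[>] 0) (𝓝 (μ k * 0 ^ (ν k))) :=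
      (((Real.continuousAt_rpow_const 0 (ν k) (Or.inr (hν k).le)).tendsto).mono_left
        nhdsWithin_le_nhds).const_mul _
    have h2 := (ht k).mul h1
    rw [Real.zero_rpow (hν k).ne', mul_zero, mul_zero] at h2
    refine h2.congr' ?_
    filter_upwards [self_mem_nhdsWithin] with r hr
    have : (0:ℝ) < r := hr
    have := hμ k
    field_simp
  set A := (32 * π + 2 * C1) / σ with hA
  rw [isLittleO_iff]
  intro ε hε
  obtain ⟨s, ⟨⟨s2, s3⟩, s4, s5⟩, s0⟩ : ∃ s : ℝ, ((s ≤ 1 / 2 ∧ 10 * s ≤ σ) ∧ Q ^ 2 * (8 * π * s / σ) < ε ∧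
      Q ^ 2 * (A * s) + 8 * (Q * (2 * s + 6 * s / σ)) / γ * (2 * π * α) < ε) ∧ s ∈ Ioi 0 := by
    refine (Eventually.and (f := 𝓝[>] (0:ℝ)) (mem_nhdsWithin_of_mem_nhds ?_)
      self_mem_nhdsWithin).exists
    refine (Eventually.and ?_ ?_).and (Eventually.and ?_ ?_)
    · exact eventually_le_nhds (by norm_num)
    · exact (ContinuousAt.eventually_lt (by fun_prop) continuousAt_const (by simpa using hσ)).mono
        fun _ h => h.le
    · exact ContinuousAt.eventually_lt (by fun_prop) continuousAt_const (by simpa using hε)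
    · exact ContinuousAt.eventually_lt (by fun_prop) continuousAt_const (by simpa using hε)
  set h : ℝ → ℝ := fun r => ∑ k, |ee z a p (fun k => Real.log (μ k)) (lam r) (u r) k| +
    (∑ k, |a k + p k * u r|) * (2 * s + 6 * s / σ) with hh
  have th : Tendsto h (𝓝[>] 0) (𝓝 (Q * (2 * s + 6 * s / σ))) := by
    simpa using (tendsto_finsetSum Finset.univ fun k _ => (te k).abs).add
      (tQ.mul_const (2 * s + 6 * s / σ))
  set b : ℝ → ℝ := fun r => 2 * π * ∑ k, (a k + p k * u r) *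
    ee z a p (fun k => Real.log (μ k)) (lam r) (u r) k + (∑ k, |a k + p k * u r|) ^ 2 * (A * s) with hb'
  have tb : Tendsto b (𝓝[>] 0) (𝓝 (Q ^ 2 * (A * s))) := by
    simpa using ((tendsto_finsetSum Finset.univ fun k _ => (tq k).mul (te k)).const_mul (2 * π)).add
      ((tQ.pow 2).mul_const (A * s))
  have tZ := tb.add ((((th.const_mul 8).div_const γ).add (((tu.mul (th.pow 2)).const_mul 16).div_const
    (γ ^ 2))).mul ((tu.mul (tb.const_add R)).const_add (2 * π * α)))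
  have tY := ((tendsto_finsetSum Finset.univ fun k _ => (tl k).const_mul (a k ^ 2)).const_mul
    (2 * π)).sub_const (Q ^ 2 * (8 * π * s / σ))
  have tP := (tu.mul (tb.const_add R)).const_add (2 * π * α)
  have pi0 := Real.pi_pos
  filter_upwards [tZ.eventually_lt_const (show _ < ε by simpa using s5),
    tY.eventually_const_lt (show -ε < _ by simpa using s4),
    tP.eventually_const_lt (show (0:ℝ) < _ by simpa [pi0] using α0),
    ((tu.mul th).const_mul 4).eventually_lt_const (show _ < γ by simpa using hγ),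
    eventually_all.2 fun k => hb k s s0,
    eventually_all.2 fun k => (td0 k).eventually_lt_const (show (0:ℝ) < s from s0),
    eventually_all.2 fun k => (ht k).eventually_const_lt zero_lt_one,
    tT.eventually_gt_atTop 0, self_mem_nhdsWithin] with r z1 z2 z3 z4 z5 z6 z7 z8 z9
  have r0 : (0:ℝ) < r := z9
  have u0 : 0 < u r := inv_pos.2 z8
  have hT : (- Real.log r) * u r = 1 := mul_inv_cancel₀ z8.ne'
  have mp : ∀ k, 0 < μ k * r ^ (ν k) := fun k => mul_pos (hμ k) (Real.rpow_pos_of_pos r0 _)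
  have d0 : ∀ k, 0 < td (E k r) := fun k => (div_pos_iff_of_pos_right (mp k)).1 (z7 k)
  have hL : ∀ k, - Real.log (td (E k r)) = ν k * (- Real.log r) - Real.log (μ k) - lam r k := fun k => by
    simp only [hlam]
    rw [Real.log_div (d0 k).ne' (mp k).ne', Real.log_mul (hμ k).ne' (Real.rpow_pos_of_pos r0 _).ne',
      Real.log_rpow r0]; ring
  have cE : ∀ k, IsCompact (E k r) := fun k =>
    (isCompact_closedBall (z k) s).of_isClosed_subset (hc k r) ((z5 k).trans ball_subset_closedBall)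
  have ab : ∀ f : Fin n → ℝ, ∑ k, |u r * f k| = u r * ∑ k, |f k| := fun f => by
    simp only [abs_mul, abs_of_pos u0, Finset.mul_sum]
  have h0 : 0 ≤ h r := add_nonneg (Finset.sum_nonneg fun _ _ => abs_nonneg _)
    (mul_nonneg (Finset.sum_nonneg fun _ _ => abs_nonneg _) (by have : (0:ℝ) < s := s0; positivity))
  obtain ⟨v, v1, v2⟩ := upper hσ hσ' s0 s2 s3 cE z5 d0 (fun k => (z6 k).le)
    (q := fun k => u r * (a k + p k * u r)) (δ := δ) (c₀ := D + g0 * u r) (η := u r * h r)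
    (by simp only [← Finset.mul_sum, Finset.sum_add_distrib, ← Finset.sum_mul, a0, p0]; simp)
    hγ hg' (by positivity) z4.le (fun k => by
      rw [id_dev a1 hT hL p1 k, ab, abs_mul, abs_of_pos u0, mul_assoc, ← mul_add]
      refine mul_le_mul_of_nonneg_left (add_le_add ?_ le_rfl) u0.le
      exact Finset.single_le_sum (f := fun k => |ee z a p (fun k => Real.log (μ k)) (lam r) (u r) k|)
        (fun _ _ => abs_nonneg _) (Finset.mem_univ k))
  rw [id_up a1 a0 p0 hT hL p1, ab] at v2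
  set I := ⨅ (u : ℂ → ℝ) (_ : LocallyLipschitz u ∧ (∃ c : ℝ, Tendsto u (cocompact ℂ) (𝓝 c)) ∧
    ∀ k, ∀ x ∈ E k r, u x = δ k), En u with hI
  have I1 := (iInf₂_le v v1 : I ≤ En v).trans v2
  have eU : 2 * π * (u r * α + u r ^ 2 * (R' + ∑ k, (a k + p k * u r) *
      ee z a p (fun k => Real.log (μ k)) (lam r) (u r) k)) +
      (u r * ∑ k, |a k + p k * u r|) ^ 2 * (A * s) = u r * (2 * π * α + u r * (R + b r)) := by
    simp only [hb', eR]; ring
  rw [eU] at I1
  have I2 := ENNReal.toReal_le_of_le_ofReal (by positivity) I1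
  have I3 : ENNReal.ofReal _ ≤ I := le_iInf₂ fun v hv => by
    obtain ⟨c, hc⟩ := hv.2.1
    exact lower hσ hσ' s0 (by linarith [show (0:ℝ) < s from s0]) cE z5 d0 (q := fun k => u r * a k)
      (by rw [← Finset.mul_sum, a0, mul_zero]) hv.1 hc hv.2.2
  rw [ENNReal.ofReal_le_iff_le_toReal (I1.trans_lt ENNReal.ofReal_lt_top).ne,
    id_lo a1 a0 hT hL, ab] at I3
  have m1 : (1 / Real.log r) ^ 2 = u r ^ 2 := by simp only [hu]; rw [inv_neg, neg_sq, one_div]
  have m2 : ∑ k, (δ k - D) ^ 2 / (ν k * Real.log r) = - (u r * α) := by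
    rw [hα, Finset.mul_sum, ← Finset.sum_neg_distrib]
    refine Finset.sum_congr rfl fun k _ => ?_
    have := (hν k).ne'
    have : Real.log r ≠ 0 := by linarith
    simp only [hu, ha]; field_simp
  rw [m1, m2, Real.norm_eq_abs, Real.norm_eq_abs, abs_of_nonneg (sq_nonneg (u r)), abs_le]
  have u2 : 0 < u r ^ 2 := by positivity
  constructor
  · have := mul_lt_mul_of_pos_right z2 u2
    rw [eR]; nlinarith
  · have := mul_lt_mul_of_pos_right z1 u2
    have e : (1 + 4 * (u r * h r) / γ) ^ 2 * (u r * (2 * π * α + u r * (R + b r))) =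
      2 * π * (u r * α) + R * u r ^ 2 + (b r + (8 * h r / γ + 16 * (u r * h r ^ 2) / γ ^ 2) *
        (2 * π * α + u r * (R + b r))) * u r ^ 2 := by ring
    linarith

end H92.Cond
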