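import Mathlib

set_option autoImplicit false
open Set Filter Topology Real MeasureTheory
open scoped ENNReal

namespace Pool.Agent.H92.Conj

lemma median {α : Type*} [MeasurableSpace α] (μ : Measure α) [IsFiniteMeasure μ] {β : α → ℝ}
    (hβ : Measurable β) : ∃ m, μ.real univ ≤ 2 * μ.real {x | β x ≤ m} ∧ μ.real univ ≤ 2 * μ.real {x | m ≤ β x} := by
  set V := μ.real univ
  rcases (show 0 ≤ V from measureReal_nonneg).eq_or_lt with h | V0
  · exact ⟨0, by rw [← h]; positivity, by rw [← h]; positivity⟩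
  have lim : ∀ (s : ℕ → Set α) (c : ℝ), Monotone s → (∀ k, μ.real (s k) ≤ c) → μ.real (⋃ k, s k) ≤ c :=
    fun s c hs h => le_of_tendsto' ((ENNReal.tendsto_toReal (measure_ne_top _ _)).comp
      (tendsto_measure_iUnion_atTop hs)) h
  have c1 : ∀ t, μ.real {x | t < β x} = V - μ.real {x | β x ≤ t} := fun t => by
    rw [← measureReal_compl (measurableSet_le hβ measurable_const)]; congr 1; ext; simp
  have c2 : ∀ t, μ.real {x | β x < t} = V - μ.real {x | t ≤ β x} := fun t => by
    rw [← measureReal_compl (measurableSet_le measurable_const hβ)]; congr 1; ext; simp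
  let A := {t : ℝ | V ≤ 2 * μ.real {x | β x ≤ t}}
  have up : ∀ s ∈ A, ∀ t, s ≤ t → t ∈ A := fun s hs t h => le_trans hs
    (mul_le_mul_of_nonneg_left (measureReal_mono fun x hx => le_trans hx h) zero_le_two)
  have ne : A.Nonempty := by
    by_contra h
    have := lim (fun k => {x | β x ≤ k}) (V / 2) (fun a b h x hx => le_trans (b := (a:ℝ)) hx (Nat.cast_le.mpr h)) fun k => by
      have : (k:ℝ) ∉ A := fun hk => h ⟨_, hk⟩
      simp only [A, mem_ofPred_eq] at this; linarith
    rw [show (⋃ k : ℕ, {x | β x ≤ k}) = univ from eq_univ_of_forall fun x => mem_iUnion.mpr (exists_nat_ge (β x))] at this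
    linarith
  have bd : BddBelow A := by
    by_contra h
    have := lim (fun k => {x | -(k:ℝ) < β x}) (V / 2)
      (fun a b h x hx => lt_of_le_of_lt (b := -(a:ℝ)) (neg_le_neg (Nat.cast_le.mpr h)) hx) fun k => by
      obtain ⟨s, hs, hs'⟩ := not_bddBelow_iff.mp h (-k)
      have := up s hs _ hs'.le
      simp only [A, mem_ofPred_eq] at this; linarith [c1 (-k)]
    rw [show (⋃ k : ℕ, {x | -(k:ℝ) < β x}) = univ from eq_univ_of_forall fun x => mem_iUnion.mpr
      ((exists_nat_gt (-β x)).imp fun k hk => by simp only [mem_ofPred_eq]; linarith)] at this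
    linarith
  have an : ∀ a b : ℕ, a ≤ b → 1 / ((b:ℝ) + 1) ≤ 1 / (a + 1) := fun a b h => by gcongr
  refine ⟨sInf A, ?_, ?_⟩
  · have := lim (fun k => {x | sInf A + 1 / (k + 1) < β x}) (V / 2)
      (fun a b h x hx => by simp only [mem_ofPred_eq] at hx ⊢; linarith [an a b h]) fun k => by
      obtain ⟨s, hs, hs'⟩ := exists_lt_of_csInf_lt ne
        (show sInf A < sInf A + 1 / (k + 1) from lt_add_of_pos_right _ (by positivity))
      have := up s hs _ hs'.le
      simp only [A, mem_ofPred_eq] at this; linarith [c1 (sInf A + 1 / (k + 1))]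
    rw [show (⋃ k : ℕ, {x | sInf A + 1 / (k + 1) < β x}) = {x | sInf A < β x} from ?_] at this
    · linarith [c1 (sInf A)]
    ext x
    simp only [mem_iUnion, mem_ofPred_eq]
    refine ⟨fun ⟨k, hk⟩ => lt_trans (lt_add_of_pos_right _ (by positivity)) hk, fun h => ?_⟩
    exact (exists_nat_one_div_lt (sub_pos.mpr h)).imp fun k hk => by linarith
  · have := lim (fun k => {x | β x ≤ sInf A - 1 / (k + 1)}) (V / 2)
      (fun a b h x hx => by simp only [mem_ofPred_eq] at hx ⊢; linarith [an a b h]) fun k => by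
      have := notMem_of_lt_csInf (show sInf A - 1 / (k + 1) < sInf A from sub_lt_self _ (by positivity)) bd
      simp only [A, mem_ofPred_eq] at this ⊢; linarith
    rw [show (⋃ k : ℕ, {x | β x ≤ sInf A - 1 / (k + 1)}) = {x | β x < sInf A} from ?_] at this
    · linarith [c2 (sInf A)]
    ext x
    simp only [mem_iUnion, mem_ofPred_eq]
    refine ⟨fun ⟨k, hk⟩ => hk.trans_lt (sub_lt_self _ (by positivity)), fun h => ?_⟩
    exact (exists_nat_one_div_lt (sub_pos.mpr h)).imp fun k hk => by linarith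

variable {n : ℕ}

noncomputable def ker (Ω : EuclideanSpace ℝ (Fin n) → ℝ) (z : EuclideanSpace ℝ (Fin n)) : ℝ :=
  Ω (‖z‖⁻¹ • z) / ‖z‖ ^ n

noncomputable def K (Ω f : EuclideanSpace ℝ (Fin n) → ℝ) (x : EuclideanSpace ℝ (Fin n)) : ℝ :=
  limUnder (𝓝[>] (0:ℝ)) fun ε => ∫ y in {y | ε < ‖x - y‖}, ker Ω (x - y) * f y

def Small (Ω β : EuclideanSpace ℝ (Fin n) → ℝ) (δ : ℝ) : Prop :=
  ∀ f : EuclideanSpace ℝ (Fin n) → ℝ, HasCompactSupport f → MemLp f ⊤ volume →
    MemLp (fun y => exp (β y) * f y) ⊤ volume →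
    eLpNorm (fun x => K Ω f x - exp (-β x) * K Ω (fun y => exp (β y) * f y) x) 2 volume ≤
      ENNReal.ofReal δ * eLpNorm f 2 volume

def cube (a : EuclideanSpace ℝ (Fin n)) (r : ℝ) : Set (EuclideanSpace ℝ (Fin n)) := {x | ∀ i, |x i - a i| ≤ r}

lemma K_far (Ω f : EuclideanSpace ℝ (Fin n) → ℝ) (x : EuclideanSpace ℝ (Fin n)) {ρ : ℝ} (h0 : 0 < ρ)
    (h : ∀ y, ‖x - y‖ < ρ → f y = 0) : K Ω f x = ∫ y, ker Ω (x - y) * f y := by
  refine Tendsto.limUnder_eq (tendsto_const_nhds.congr' ?_)
  filter_upwards [Ioo_mem_nhdsGT h0] with ε hε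
  refine (setIntegral_eq_integral_of_forall_compl_eq_zero fun y hy => ?_).symm
  rw [h y (lt_of_le_of_lt (not_lt.mp hy) hε.2), mul_zero]

lemma cube_eq (a : EuclideanSpace ℝ (Fin n)) (r : ℝ) :
    cube a r = WithLp.ofLp ⁻¹' Icc (fun i => a i - r) (fun i => a i + r) := by
  ext x
  simp only [cube, mem_ofPred_eq, mem_preimage, mem_Icc, Pi.le_def, abs_le, ← forall_and]
  exact forall_congr' fun i => ⟨fun h => ⟨by linarith, by linarith⟩, fun h => ⟨by linarith, by linarith⟩⟩

lemma cube_vol (a : EuclideanSpace ℝ (Fin n)) {r : ℝ} (hr : 0 < r) :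
    volume (cube a r) = ENNReal.ofReal ((2 * r) ^ n) := by
  rw [cube_eq, (PiLp.volume_preserving_ofLp (Fin n)).measure_preimage measurableSet_Icc.nullMeasurableSet,
    volume_Icc_pi, ENNReal.ofReal_pow (by positivity)]
  simp [two_mul]

lemma cube_closed (a : EuclideanSpace ℝ (Fin n)) (r : ℝ) : IsClosed (cube a r) := by
  rw [cube_eq]; exact isClosed_Icc.preimage (PiLp.continuous_ofLp 2 _)

lemma norm_le {d : EuclideanSpace ℝ (Fin n)} {r : ℝ} (hr : 0 ≤ r) (h : ∀ i, |d i| ≤ r) : ‖d‖ ≤ n * r := by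
  rw [EuclideanSpace.norm_eq, sqrt_le_left (by positivity)]
  calc _ ≤ ∑ _i : Fin n, r ^ 2 := Finset.sum_le_sum fun i _ => by
        rw [Real.norm_eq_abs]; gcongr; exact h i
    _ = n * r ^ 2 := by simp
    _ ≤ _ := by
        rw [mul_pow]; gcongr
        exact_mod_cast Nat.le_self_pow two_ne_zero n

lemma cube_compact (a : EuclideanSpace ℝ (Fin n)) {r : ℝ} (hr : 0 < r) : IsCompact (cube a r) :=
  (isCompact_closedBall a (n * r)).of_isClosed_subset (cube_closed a r) fun x hx => by
    rw [mem_closedBall_iff_norm]; exact norm_le hr.le hx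

lemma geom {Ω : EuclideanSpace ℝ (Fin n) → ℝ} (hΩ : ContinuousOn Ω (Metric.sphere 0 1))
    (h0 : ∃ θ ∈ Metric.sphere 0 1, Ω θ ≠ 0) : ∃ (σ c B : ℝ) (v : EuclideanSpace ℝ (Fin n)), |σ| = 1 ∧ 0 < c ∧
    ∀ (a : EuclideanSpace ℝ (Fin n)) (r s : ℝ), 0 < r → 1 ≤ s → s ≤ 2 → ∀ x ∈ cube (a + (s * r) • v) r,
      ∀ y ∈ cube a r, r ≤ ‖x - y‖ ∧ c / (2 * r) ^ n ≤ σ * ker Ω (x - y) ∧ |ker Ω (x - y)| ≤ B / r ^ n := by
  obtain ⟨θ, h1, h2⟩ := h0
  obtain ⟨η, η0, hη⟩ := Metric.continuousWithinAt_iff.mp (hΩ θ h1) (|Ω θ| / 2) (by positivity)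
  rw [mem_sphere_zero_iff_norm] at h1
  set D : ℝ := 2 * n
  have D0 : 0 ≤ D := by positivity
  set A := D + 2 * D / η + 1
  have q0 : 0 ≤ 2 * D / η := by positivity
  refine ⟨Ω θ / |Ω θ|, |Ω θ| / 2 * (2 / (2 * A + D)) ^ n, 2 * |Ω θ|, A • θ, by rw [abs_div, abs_abs, div_self (by positivity)],
    by positivity, fun a r s r0 s1 s2 x hx y hy => ?_⟩
  set t := s * r * A with ht
  set z := x - y
  have t1 : A * r ≤ t := by rw [ht]; nlinarith [mul_pos r0 (show 0 < A by positivity)]
  have t2 : t ≤ 2 * A * r := by rw [ht]; nlinarith [mul_pos r0 (show 0 < A by positivity)]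
  have d1 : ‖z - t • θ‖ ≤ D * r := by
    rw [show D * r = n * (2 * r) by ring]
    refine norm_le (by positivity) fun i => ?_
    have a1 := abs_le.mp (hx i)
    have a2 := abs_le.mp (hy i)
    simp only [PiLp.add_apply, PiLp.smul_apply, smul_eq_mul, ← mul_assoc, PiLp.sub_apply, z] at a1 ⊢
    rw [abs_le]; constructor <;> linarith
  have d2 : |‖z‖ - t| ≤ D * r := by
    refine le_trans ?_ ((abs_norm_sub_norm_le z (t • θ)).trans d1)
    rw [norm_smul, h1, mul_one, Real.norm_of_nonneg (by positivity)]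
  have d3 := abs_le.mp d2
  have z1 : (2 * D / η + 1) * r ≤ ‖z‖ := by simp only [A] at t1; linarith
  have z2 : r ≤ ‖z‖ := by nlinarith
  have z0 : 0 < ‖z‖ := by linarith
  have u1 : ‖‖z‖⁻¹ • z - θ‖ < η := by
    have : ‖z‖⁻¹ • z - θ = ‖z‖⁻¹ • ((z - t • θ) - (‖z‖ - t) • θ) := by
      rw [sub_smul, sub_sub_sub_cancel_right, smul_sub _ z, smul_smul, inv_mul_cancel₀ z0.ne', one_smul]
    rw [this, norm_smul, norm_inv, norm_norm, inv_mul_lt_iff₀ z0]
    refine (norm_sub_le _ _).trans_lt ?_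
    rw [norm_smul, h1, mul_one, Real.norm_eq_abs]
    have : (2 * D / η + 1) * r * η = 2 * D * r + r * η := by field_simp
    nlinarith [mul_pos r0 η0]
  have u2 := hη (x := ‖z‖⁻¹ • z) (by simp [norm_smul, z0.ne']) (by rwa [dist_eq_norm])
  rw [Real.dist_eq] at u2
  have u3 : |Ω θ| / 2 ≤ Ω θ / |Ω θ| * Ω (‖z‖⁻¹ • z) := by
    have := abs_lt.mp u2
    rcases h2.lt_or_gt with h | h
    · rw [abs_of_neg h] at *; rw [div_neg, div_self h2]; linarith
    · rw [abs_of_pos h] at *; rw [div_self h2]; linarith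
  refine ⟨z2, ?_, ?_⟩
  · rw [ker, ← mul_div_assoc]
    calc _ = |Ω θ| / 2 / ((2 * A + D) * r) ^ n := by
          rw [div_pow, mul_pow, mul_pow]; field_simp
      _ ≤ _ := by gcongr; exacts [le_trans (by positivity) u3, by linarith]
  · rw [ker, abs_div, abs_of_pos (pow_pos z0 n)]
    gcongr
    linarith [abs_sub_abs_le_abs_sub (Ω (‖z‖⁻¹ • z)) (Ω θ), abs_nonneg (Ω θ)]

lemma test {Ω β : EuclideanSpace ℝ (Fin n) → ℝ} (hΩ : ContinuousOn Ω (Metric.sphere 0 1)) (hβ : Measurable β)
    {δ V ρ κ B σ τ N : ℝ} (hS : Small Ω β δ) (δ0 : 0 ≤ δ) (V0 : 0 ≤ V) {C E F : Set (EuclideanSpace ℝ (Fin n))}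
    (hC : IsCompact C) (hE : MeasurableSet E) (hF : MeasurableSet F) (EC : E ⊆ C)
    (EV : volume E ≤ ENNReal.ofReal V) (FV : volume F ≤ ENNReal.ofReal V) (ρ0 : 0 < ρ) (κ0 : 0 ≤ κ)
    (hσ : |σ| = 1) (hτ : |τ| = 1)
    (h1 : ∀ x ∈ F, ∀ y ∈ E, ρ ≤ ‖x - y‖ ∧ κ ≤ σ * ker Ω (x - y) ∧ |ker Ω (x - y)| ≤ B)
    (h2 : ∀ y ∈ E, β y ≤ N) {g h : EuclideanSpace ℝ (Fin n) → ℝ} (hg : IntegrableOn g F) (hh : IntegrableOn h E)
    (h3 : ∀ x ∈ F, ∀ y ∈ E, 0 ≤ g x + h y ∧ g x + h y ≤ τ * (1 - exp (β y - β x))) :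
    κ * (volume.real E * (∫ x in F, g x) + volume.real F * ∫ y in E, h y) ≤ δ * V := by
  have fE : IsFiniteMeasure (volume.restrict E) := ⟨by simpa using EV.trans_lt ENNReal.ofReal_lt_top⟩
  have fF : IsFiniteMeasure (volume.restrict F) := ⟨by simpa using FV.trans_lt ENNReal.ofReal_lt_top⟩
  let f : EuclideanSpace ℝ (Fin n) → ℝ := E.indicator fun _ => 1
  have fm : Measurable f := measurable_const.indicator hE
  have key := hS f (HasCompactSupport.intro hC fun x hx => indicator_of_notMem (fun h => hx (EC h)) _)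
    (memLp_top_of_bound fm.aestronglyMeasurable 1 (.of_forall fun x => by
      by_cases hx : x ∈ E <;> simp [f, hx]))
    (memLp_top_of_bound (hβ.exp.mul fm).aestronglyMeasurable (exp N) (.of_forall fun x => by
      by_cases hx : x ∈ E
      · simpa [f, hx] using h2 x hx
      · simpa [f, hx] using exp_nonneg N))
  set T := fun x => K Ω f x - exp (-β x) * K Ω (fun y => exp (β y) * f y) x
  let ψ := fun x => κ * (volume.real E * g x + ∫ y in E, h y)
  have pt : ∀ x ∈ F, ‖ψ x‖ ≤ ‖T x‖ := by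
    intro x hx
    have ne : ∀ y ∈ E, ‖x - y‖ ≠ 0 := fun y hy => by linarith [(h1 x hx y hy).1]
    have km : AEStronglyMeasurable (fun y => ker Ω (x - y)) (volume.restrict E) := by
      refine ContinuousOn.aestronglyMeasurable (ContinuousOn.div (hΩ.comp (ContinuousOn.smul
        (ContinuousOn.inv₀ (by fun_prop) ne) (by fun_prop)) fun y hy => ?_) (by fun_prop)
        fun y hy => pow_ne_zero _ (ne y hy)) hE
      rw [mem_sphere_zero_iff_norm, norm_smul, norm_inv, norm_norm, inv_mul_cancel₀ (ne y hy)]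
    have i1 : IntegrableOn (fun y => ker Ω (x - y)) E := Integrable.of_bound km B
      ((ae_restrict_iff' hE).mpr (.of_forall fun y hy => (h1 x hx y hy).2.2))
    have i2 : IntegrableOn (fun y => ker Ω (x - y) * exp (β y)) E :=
      i1.mul_bdd (c := exp N) hβ.exp.aestronglyMeasurable
        ((ae_restrict_iff' hE).mpr (.of_forall fun y hy => by simpa using h2 y hy))
    have far : ∀ y, ‖x - y‖ < ρ → f y = 0 := fun y hy =>
      indicator_of_notMem (fun h => by linarith [(h1 x hx y h).1]) _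
    have e1 : K Ω f x = ∫ y in E, ker Ω (x - y) := by
      rw [K_far Ω f x ρ0 far, ← integral_indicator hE]
      congr 1; ext y; by_cases hy : y ∈ E <;> simp [f, hy]
    have e2 : K Ω (fun y => exp (β y) * f y) x = ∫ y in E, ker Ω (x - y) * exp (β y) := by
      rw [K_far Ω _ x ρ0 fun y hy => by rw [far y hy, mul_zero], ← integral_indicator hE]
      congr 1; ext y; by_cases hy : y ∈ E <;> simp [f, hy]
    have i3 : IntegrableOn (fun y => κ * (g x + h y)) E := ((integrable_const _).add hh).const_mul κ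
    have e3 : ψ x = ∫ y in E, κ * (g x + h y) := by
      rw [integral_const_mul, integral_add (integrable_const _) hh]; simp [ψ]
    have e4 : σ * τ * T x = ∫ y in E, σ * τ * (ker Ω (x - y) - exp (-β x) * (ker Ω (x - y) * exp (β y))) := by
      rw [integral_const_mul, integral_sub i1 (i2.const_mul _), integral_const_mul, ← e1, ← e2]
    rw [Real.norm_of_nonneg (e3 ▸ setIntegral_nonneg hE fun y hy => mul_nonneg κ0 (h3 x hx y hy).1)]
    calc ψ x ≤ σ * τ * T x := by
          rw [e3, e4]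
          refine setIntegral_mono_on i3 ((i1.sub (i2.const_mul _)).const_mul _) hE fun y hy => ?_
          refine (mul_le_mul (h1 x hx y hy).2.1 (h3 x hx y hy).2 (h3 x hx y hy).1
            (κ0.trans (h1 x hx y hy).2.1)).trans_eq ?_
          rw [sub_eq_add_neg (β y), exp_add]; ring
      _ ≤ _ := (le_abs_self _).trans_eq (by rw [abs_mul, abs_mul, hσ, hτ]; simp)
  have iψ : IntegrableOn ψ F := ((hg.const_mul _).add (integrable_const _)).const_mul κ
  have e5 : κ * (volume.real E * (∫ x in F, g x) + volume.real F * ∫ y in E, h y) = ∫ x in F, ψ x := by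
    rw [integral_const_mul, integral_add (hg.const_mul _) (integrable_const _), integral_const_mul]; simp
  rw [e5, ← ENNReal.ofReal_le_ofReal_iff (by positivity)]
  calc _ ≤ eLpNorm ψ 1 (volume.restrict F) := by
        rw [eLpNorm_one_eq_lintegral_enorm]
        exact le_trans (by rw [Real.enorm_eq_ofReal_abs]; exact ENNReal.ofReal_le_ofReal (le_abs_self _))
          (enorm_integral_le_lintegral_enorm _)
    _ ≤ eLpNorm ψ 2 (volume.restrict F) * volume F ^ (1 / 2 : ℝ) := by
        have := eLpNorm_le_eLpNorm_mul_rpow_measure_univ (p := 1) (q := 2) one_le_two iψ.1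
        norm_num at this ⊢
        exact this
    _ ≤ ENNReal.ofReal δ * ENNReal.ofReal V ^ (1 / 2 : ℝ) * ENNReal.ofReal V ^ (1 / 2 : ℝ) := by
        gcongr
        refine (eLpNorm_mono_ae ((ae_restrict_iff' hF).mpr (.of_forall pt))).trans
          ((eLpNorm_mono_measure _ Measure.restrict_le_self).trans (key.trans ?_))
        rw [eLpNorm_indicator_const hE two_ne_zero ENNReal.ofNat_ne_top]
        simp only [enorm_one, one_mul, ENNReal.toReal_ofNat]
        gcongr
    _ = _ := by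
        rw [mul_assoc, ← ENNReal.rpow_add_of_nonneg _ _ (by norm_num) (by norm_num), ENNReal.ofReal_mul δ0]
        norm_num

lemma main0 {Ω : EuclideanSpace ℝ (Fin n) → ℝ} (hΩ : ContinuousOn Ω (Metric.sphere 0 1))
    (h0 : ∃ θ ∈ Metric.sphere 0 1, Ω θ ≠ 0) : ∃ C δ0 : ℝ, 0 < δ0 ∧ ∀ δ, 0 ≤ δ → δ ≤ δ0 →
    ∀ β : EuclideanSpace ℝ (Fin n) → ℝ, Measurable β → LocallyIntegrable β → Small Ω β δ →
    ∀ a r, 0 < r → ⨍ x in cube a r, |β x - ⨍ y in cube a r, β y| ≤ C * δ := by
  obtain ⟨σ, c, B, v, hσ, c0, hg⟩ := geom hΩ h0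
  refine ⟨24 / c, c / 8, by positivity, fun δ δ0 δ1 β hβ hi hS a r r0 => ?_⟩
  set V := (2 * r) ^ n
  have V0 : 0 < V := by positivity
  have cm : ∀ b : EuclideanSpace ℝ (Fin n), MeasurableSet (cube b r) := fun b => (cube_closed b r).measurableSet
  have cv : ∀ (b : EuclideanSpace ℝ (Fin n)) (s : Set _), volume (s ∩ cube b r) ≤ ENNReal.ofReal V := fun b s =>
    (measure_mono inter_subset_right).trans_eq (cube_vol b r0)
  have fin : ∀ b : EuclideanSpace ℝ (Fin n), IsFiniteMeasure (volume.restrict (cube b r)) := fun b => ⟨by simp [cube_vol b r0]⟩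
  have ib : ∀ b t, IntegrableOn (fun x => β x - t) (cube b r) := fun b t =>
    (hi.integrableOn_isCompact (cube_compact b r0)).sub (integrable_const _)
  have ib' : ∀ b t, IntegrableOn (fun x => t - β x) (cube b r) := fun b t =>
    (integrable_const _).sub (hi.integrableOn_isCompact (cube_compact b r0))
  have m1 : ∀ t, MeasurableSet {x | β x ≤ t} := fun t => measurableSet_le hβ measurable_const
  have m2 : ∀ t, MeasurableSet {x | t ≤ β x} := fun t => measurableSet_le measurable_const hβ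
  have med : ∀ b, ∃ m, V ≤ 2 * volume.real ({x | β x ≤ m} ∩ cube b r) ∧
      V ≤ 2 * volume.real ({x | m ≤ β x} ∩ cube b r) := fun b => by
    obtain ⟨m, a1, a2⟩ := median (volume.restrict (cube b r)) hβ
    rw [measureReal_restrict_apply (m1 m), measureReal_restrict_apply_univ] at a1
    rw [measureReal_restrict_apply (m2 m), measureReal_restrict_apply_univ] at a2
    rw [measureReal_def, cube_vol b r0, ENNReal.toReal_ofReal V0.le] at a1 a2
    exact ⟨m, a1, a2⟩
  have A : ∀ b t, c / V * (volume.real ({x | t ≤ β x} ∩ cube b r) *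
      (∫ x in {x | β x ≤ t} ∩ cube (b + (1 * r) • v) r, (t - β x)) +
      volume.real ({x | β x ≤ t} ∩ cube (b + (1 * r) • v) r) * ∫ y in {x | t ≤ β x} ∩ cube b r, (β y - t)) ≤
      δ * V := by
    intro b t
    let E : ℕ → Set (EuclideanSpace ℝ (Fin n)) := fun N => ({x | β x ≤ N} ∩ {x | t ≤ β x}) ∩ cube b r
    have Em : ∀ N, MeasurableSet (E N) := fun N => ((m1 N).inter (m2 t)).inter (cm b)
    have mono : Monotone E := fun i j h x hx =>
      ⟨⟨le_trans (b := (i:ℝ)) hx.1.1 (Nat.cast_le.mpr h), hx.1.2⟩, hx.2⟩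
    have un : ⋃ N, E N = {x | t ≤ β x} ∩ cube b r := by
      ext x
      simp only [E, mem_iUnion, mem_inter_iff, mem_ofPred_eq]
      exact ⟨fun ⟨_, h⟩ => ⟨h.1.2, h.2⟩, fun h => (exists_nat_ge (β x)).imp fun k hk => ⟨⟨hk, h.1⟩, h.2⟩⟩
    have t1 := (ENNReal.tendsto_toReal (by rw [un]; exact ((cv b _).trans_lt ENNReal.ofReal_lt_top).ne)).comp
      (tendsto_measure_iUnion_atTop (μ := volume) mono)
    have t2 := tendsto_setIntegral_of_monotone Em mono (un ▸ (ib b t).mono_set inter_subset_right)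
    rw [un] at t1 t2
    refine le_of_tendsto' (((t1.mul_const _).add (t2.const_mul _)).const_mul _) fun N => ?_
    refine test hΩ hβ (τ := -1) (N := N) hS δ0 V0.le (cube_compact b r0) (Em N) ((m1 t).inter (cm _))
      inter_subset_right (cv _ _) (cv _ _) r0 (by positivity) hσ (by simp)
      (fun x hx y hy => hg b r 1 r0 le_rfl one_le_two x hx.2 y hy.2) (fun y hy => hy.1.1)
      ((ib' _ t).mono_set inter_subset_right) ((ib b t).mono_set inter_subset_right)
      fun x hx y hy => ?_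
    have a1 : β x ≤ t := hx.1
    have a2 : t ≤ β y := hy.1.2
    constructor <;> linarith [add_one_le_exp (β y - β x)]
  obtain ⟨p, p1, p2⟩ := med (a + (1 * r) • v)
  obtain ⟨q, q1, q2⟩ := med (a - (1 * r) • v)
  have A1 := A a p
  have A2 := A (a - (1 * r) • v) q
  rw [sub_add_cancel] at A2
  have n1 : ∀ b t, 0 ≤ ∫ x in {x | β x ≤ t} ∩ cube b r, (t - β x) := fun b t =>
    setIntegral_nonneg ((m1 t).inter (cm b)) fun x hx => sub_nonneg.mpr hx.1
  have n2 : ∀ b t, 0 ≤ ∫ x in {x | t ≤ β x} ∩ cube b r, (β x - t) := fun b t =>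
    setIntegral_nonneg ((m2 t).inter (cm b)) fun x hx => sub_nonneg.mpr hx.1
  have red : ∀ X I J W : ℝ, 0 ≤ J → 0 ≤ I → V ≤ 2 * W → c / V * (J + W * I) ≤ δ * V → I ≤ 2 * (δ / c) * V := by
    intro X I J W hJ hI hW h
    rw [div_mul_eq_mul_div, div_le_iff₀ V0] at h
    rw [mul_div_assoc', div_mul_eq_mul_div, le_div_iff₀ c0]
    refine le_of_mul_le_mul_right ?_ V0
    nlinarith [mul_nonneg c0.le hJ, mul_le_mul_of_nonneg_left hW (mul_nonneg c0.le hI)]
  have B1 := red 0 _ _ _ (mul_nonneg measureReal_nonneg (n1 _ _)) (n2 _ _) p1 A1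
  rw [add_comm] at A2
  have B2 := red 0 _ _ _ (mul_nonneg measureReal_nonneg (n2 _ _)) (n1 _ _) q2 A2
  have s0 : 0 ≤ δ / c := by positivity
  have B3 : max (p - q) 0 ≤ 8 * (δ / c) := by
    rcases le_total p q with h | h
    · rw [max_eq_right (by linarith)]; positivity
    rw [max_eq_left (by linarith)]
    have e0 : exp (q - p) ≤ 1 := exp_le_one_iff.mpr (by linarith)
    have := test hΩ hβ (τ := 1) (N := q) (g := fun _ => 1 - exp (q - p)) (h := fun _ => 0) hS δ0 V0.le
      (cube_compact (a - (1 * r) • v) r0) ((m1 q).inter (cm _)) ((m2 p).inter (cm (a + (1 * r) • v)))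
      inter_subset_right (cv _ _) (cv _ _) r0 (by positivity) hσ (by simp)
      (fun x hx y hy => hg _ r 2 r0 one_le_two le_rfl x (by
        convert hx.2 using 2; module) y hy.2) (fun y hy => hy.1)
      (integrableOn_const ((cv _ _).trans_lt ENNReal.ofReal_lt_top).ne) (integrableOn_zero) fun x hx y hy => by
        have a1 : p ≤ β x := hx.1
        have a2 : β y ≤ q := hy.1
        have := exp_le_exp.mpr (show β y - β x ≤ q - p by linarith)
        constructor <;> linarith
    simp only [integral_zero, mul_zero, setIntegral_const, smul_eq_mul] at this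
    rw [add_comm] at this
    have := red 0 _ _ _ le_rfl (mul_nonneg measureReal_nonneg (by linarith)) q1 this
    have e1 : 1 - exp (q - p) ≤ 4 * (δ / c) := by
      refine le_of_mul_le_mul_right ?_ V0
      nlinarith
    have e2 : δ / c ≤ 1 / 8 := by rw [div_le_iff₀ c0]; linarith
    have e3 := add_one_le_exp (p - q)
    have e4 : exp (q - p) * exp (p - q) = 1 := by rw [← exp_add]; simp
    nlinarith [exp_pos (q - p), exp_pos (p - q)]
  have vr : volume.real (cube a r) = V := by rw [measureReal_def, cube_vol a r0, ENNReal.toReal_ofReal V0.le]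
  have B4 : ∫ x in cube a r, |β x - p| ≤ 12 * (δ / c) * V := by
    have j1 := (ib a p).indicator (m2 p)
    have j2 : IntegrableOn ({x | β x ≤ q}.indicator fun x => q - β x) (cube a r) :=
      (ib' a q).indicator (m1 q)
    calc _ ≤ ∫ x in cube a r, ({x | p ≤ β x}.indicator (fun x => β x - p) x +
          {x | β x ≤ q}.indicator (fun x => q - β x) x + max (p - q) 0) := by
          refine integral_mono (ib a p).abs ((j1.add j2).add (integrable_const _)) fun x => ?_
          have := le_max_left (p - q) 0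
          have := le_max_right (p - q) 0
          simp only [indicator, mem_ofPred_eq]
          rw [abs_le]
          split_ifs <;> constructor <;> linarith
      _ ≤ _ := by
          rw [integral_add (j1.fun_add j2) (integrable_const _), integral_add j1 j2, integral_indicator (m2 p),
            integral_indicator (m1 q), Measure.restrict_restrict (m2 p), Measure.restrict_restrict (m1 q),
            setIntegral_const, vr, smul_eq_mul]
          nlinarith
  have B5 : |(⨍ y in cube a r, β y) - p| ≤ 12 * (δ / c) := by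
    have : (⨍ y in cube a r, β y) - p = V⁻¹ * ∫ x in cube a r, (β x - p) := by
      rw [setAverage_eq, integral_sub (hi.integrableOn_isCompact (cube_compact a r0)) (integrable_const _),
        setIntegral_const, vr, smul_eq_mul, smul_eq_mul]
      field_simp
    rw [this, abs_mul, abs_of_pos (inv_pos.mpr V0), inv_mul_le_iff₀ V0]
    exact abs_integral_le_integral_abs.trans (by linarith)
  rw [setAverage_eq, vr, smul_eq_mul, inv_mul_le_iff₀ V0]
  calc _ ≤ ∫ x in cube a r, (|β x - p| + 12 * (δ / c)) :=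
        integral_mono (ib a _).abs ((ib a p).abs.add (integrable_const _)) fun x => by
          have := abs_sub_le (β x) p (⨍ y in cube a r, β y)
          rw [abs_sub_comm p] at this
          simp only; linarith
    _ ≤ _ := by
        rw [integral_add (ib a p).abs (integrable_const _), setIntegral_const, vr, smul_eq_mul]
        have : V * (24 / c * δ) = 24 * (δ / c) * V := by ring
        linarith

theorem main {Ω : EuclideanSpace ℝ (Fin n) → ℝ} (hΩ : ContinuousOn Ω (Metric.sphere 0 1))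
    (h0 : ∃ θ ∈ Metric.sphere 0 1, Ω θ ≠ 0) : ∃ C δ0 : ℝ, 0 < δ0 ∧ ∀ δ, 0 ≤ δ → δ ≤ δ0 →
    ∀ β : EuclideanSpace ℝ (Fin n) → ℝ, LocallyIntegrable β → Small Ω β δ →
    ∀ a r, 0 < r → ⨍ x in cube a r, |β x - ⨍ y in cube a r, β y| ≤ C * δ := by
  obtain ⟨C, δ0, h1, h2⟩ := main0 hΩ h0
  refine ⟨C, δ0, h1, fun δ a1 a2 β hi hS a r r0 => ?_⟩
  have hm := hi.aestronglyMeasurable.aemeasurable
  have e := hm.ae_eq_mk
  have := h2 δ a1 a2 _ hm.measurable_mk (hi.congr e) (fun f f1 f2 f3 => ?_) a r r0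
  · rw [average_congr (ae_restrict_of_ae e)]
    refine le_of_eq_of_le (average_congr (ae_restrict_of_ae ?_)) this
    filter_upwards [e] with x hx using by rw [hx]
  · have e' : (fun y => exp (hm.mk β y) * f y) =ᵐ[volume] fun y => exp (β y) * f y := by
      filter_upwards [e] with x hx using by rw [hx]
    refine le_of_eq_of_le (eLpNorm_congr_ae ?_) (hS f f1 f2 (f3.ae_eq e'))
    filter_upwards [e] with x hx
    rw [hx]
    congr 2
    unfold K
    congr 1; ext ε
    refine integral_congr_ae (ae_restrict_of_ae ?_)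
    filter_upwards [e'] with y hy using by rw [hy]

end Pool.Agent.H92.Conj
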