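import Mathlib

open Set Metric MeasureTheory Filter Topology Module

namespace H92.Cov

variable {E : Type*} [NormedAddCommGroup E] [NormedSpace ℝ E] [FiniteDimensional ℝ E]
  [MeasurableSpace E] [BorelSpace E] (μ : Measure E) [μ.IsAddHaarMeasure]

lemma real_ball (x : E) {r : ℝ} (hr : 0 < r) :
    μ.real (ball x r) = r ^ finrank ℝ E * μ.real (ball 0 1) := by
  rw [Measure.real, Measure.addHaar_ball_of_pos μ x hr, ENNReal.toReal_mul,
    ENNReal.toReal_ofReal (by positivity)]; rfl

lemma real_cball (x : E) {r : ℝ} (hr : 0 ≤ r) :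
    μ.real (closedBall x r) = r ^ finrank ℝ E * μ.real (ball 0 1) := by
  rw [Measure.real, Measure.addHaar_closedBall μ x hr, ENNReal.toReal_mul,
    ENNReal.toReal_ofReal (by positivity)]; rfl

def Dens (E : Type*) [NormedAddCommGroup E] [NormedSpace ℝ E] (d : ℝ) : Prop :=
  ∀ k0 : ℕ, ∃ k ≥ k0, ∃ P : Finset E, ↑P ⊆ closedBall (0 : E) k ∧
    (P : Set E).Pairwise (fun x y => 2 ≤ dist x y) ∧ d * (k : ℝ) ^ finrank ℝ E ≤ P.card

lemma ev_ratio (n : ℕ) (D : ℝ) {a : ℝ} (ha : 1 < a) :
    ∀ᶠ k : ℕ in atTop, ((k : ℝ) + D) ^ n ≤ a * (k : ℝ) ^ n := by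
  have h : Tendsto (fun k : ℕ => (1 + D / k) ^ n) atTop (𝓝 1) := by
    simpa using ((tendsto_const_div_atTop_nhds_zero_nat D).const_add 1).pow n
  filter_upwards [h.eventually (gt_mem_nhds ha), eventually_gt_atTop 0] with k h1 h2
  have hk : (0:ℝ) < k := by exact_mod_cast h2
  have : (k : ℝ) + D = (1 + D / k) * k := by field_simp
  rw [this, mul_pow]; gcongr

include μ in
lemma dens_le_one {d : ℝ} (h : Dens E d) : d ≤ 1 := by
  refine le_of_forall_gt_imp_ge_of_dense fun a ha => ?_
  obtain ⟨k0, hk0⟩ := eventually_atTop.1 ((ev_ratio (finrank ℝ E) 1 ha).and (eventually_gt_atTop 0))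
  obtain ⟨k, hk, P, h1, h2, h3⟩ := h k0
  obtain ⟨h4, h5⟩ := hk0 k hk
  have hk' : (0:ℝ) < k := by exact_mod_cast h5
  have hv : 0 < μ.real (ball (0 : E) 1) :=
    ENNReal.toReal_pos (measure_ball_pos _ _ one_pos).ne' measure_ball_lt_top.ne
  have e : μ.real (⋃ x ∈ P, ball x 1) = P.card * μ.real (ball (0 : E) 1) := by
    rw [measureReal_biUnion_finset (fun x hx y hy hxy => ball_disjoint_ball
      (by have := h2 hx hy hxy; linarith)) (fun _ _ => measurableSet_ball)
      (fun _ _ => measure_ball_lt_top.ne)]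
    rw [Finset.sum_congr rfl (g := fun _ => μ.real (ball (0 : E) 1)) fun x _ => by
      rw [real_ball μ x one_pos, one_pow, one_mul]]
    simp
  have e2 : μ.real (⋃ x ∈ P, ball x 1) ≤ μ.real (ball (0 : E) (k + 1)) := by
    refine measureReal_mono (iUnion₂_subset fun x hx y hy => ?_) measure_ball_lt_top.ne
    have := h1 hx
    rw [mem_closedBall] at this; rw [mem_ball] at *
    linarith [dist_triangle y x 0]
  rw [e, real_ball μ _ (r := k + 1) (by positivity)] at e2
  have := le_of_mul_le_mul_right e2 hv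
  exact le_of_mul_le_mul_right (h3.trans (this.trans h4)) (by positivity)

lemma single {d : ℝ} (hd : 0 ≤ d) (h : Dens E d) {A : Set E} (hA : Bornology.IsBounded A) {ρ η : ℝ}
    (hρ : 0 < ρ) (hη : 0 < η) : ∃ T : Finset E, ↑T ⊆ A ∧
      (T : Set E).Pairwise (fun x y => 2 * ρ ≤ dist x y) ∧
      d * μ.real A ≤ 2 * T.card * ((ρ * (1 + η)) ^ finrank ℝ E * μ.real (ball 0 1)) := by
  classical
  set n := finrank ℝ E
  set r := ρ * (1 + η) with hr
  have hr0 : 0 < r := by positivity
  obtain ⟨D, hD0, hD⟩ := hA.closure.exists_pos_norm_le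
  obtain ⟨k0, hk0⟩ := eventually_atTop.1 ((ev_ratio n (D / r) one_lt_two).and
    (eventually_gt_atTop 0))
  obtain ⟨k, hk, P, h1, h2, h3⟩ := h k0
  obtain ⟨h4, h5⟩ := hk0 k hk
  have hk' : (0:ℝ) < k := by exact_mod_cast h5
  let Q : E → Finset E := fun s => P.filter fun p => r • p + s ∈ closure A
  obtain ⟨s, hs⟩ : ∃ s, ∀ t, (Q t).card ≤ (Q s).card := by
    have hb : BddAbove (range fun s => (Q s).card) :=
      ⟨P.card, by rintro _ ⟨s, rfl⟩; exact Finset.card_filter_le _ _⟩
    obtain ⟨s, hs⟩ := Nat.sSup_mem (range_nonempty _) hb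
    exact ⟨s, fun t => by simp only at hs; rw [hs]; exact le_csSup hb ⟨t, rfl⟩⟩
  let S : E → Set E := fun p => (fun t => r • p + t) ⁻¹' closure A
  have hSm : ∀ p, MeasurableSet (S p) := fun p =>
    (isClosed_closure.preimage (by fun_prop)).measurableSet
  have hSv : ∀ p, μ.real (S p) = μ.real (closure A) := fun p => by
    simp only [Measure.real, S, measure_preimage_add]
  set B := closedBall (0 : E) (k * r + D)
  have hSB : ∀ p ∈ P, S p ⊆ B := fun p hp t ht => by
    have a1 := hD _ ht
    have a2 : ‖r • p‖ ≤ k * r := by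
      rw [norm_smul, Real.norm_of_nonneg hr0.le, mul_comm]
      gcongr; simpa using h1 hp
    have := norm_sub_le (r • p + t) (r • p)
    rw [add_sub_cancel_left] at this
    simp only [B, mem_closedBall, dist_zero_right]; linarith
  have key : P.card * μ.real (closure A) ≤ (Q s).card * μ.real B := by
    have e1 : ∫ t in B, ∑ p ∈ P, (S p).indicator (1 : E → ℝ) t ∂μ = P.card * μ.real (closure A) := by
      rw [integral_finsetSum _ fun p _ => (integrable_indicator_iff (hSm p)).2
        (integrableOn_const (by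
          rw [Measure.restrict_apply (hSm p)]
          exact ((measure_mono inter_subset_right).trans_lt measure_closedBall_lt_top).ne))]
      rw [Finset.sum_congr rfl (g := fun _ => μ.real (closure A)) fun p hp => by
        rw [integral_indicator_one (hSm p), measureReal_restrict_apply (hSm p),
          inter_eq_left.2 (hSB p hp), hSv]]
      simp
    rw [← e1]
    refine (Real.le_norm_self _).trans (norm_setIntegral_le_of_norm_le_const measure_closedBall_lt_top
      fun t _ => ?_)
    have : ∑ p ∈ P, (S p).indicator (1 : E → ℝ) t = (Q t).card := by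
      simp [Q, S, indicator_apply]
    rw [this, Real.norm_natCast]; exact_mod_cast hs t
  have hx : ∀ p, ∃ x, p ∈ Q s → x ∈ A ∧ dist (r • p + s) x < ρ * η := fun p => by
    by_cases hp : p ∈ Q s
    · obtain ⟨x, h⟩ := Metric.mem_closure_iff.1 (Finset.mem_filter.1 hp).2 (ρ * η) (by positivity)
      exact ⟨x, fun _ => h⟩
    · exact ⟨0, fun h => absurd h hp⟩
  choose x hx using hx
  have hsep : ∀ p ∈ Q s, ∀ q ∈ Q s, p ≠ q → 2 * ρ ≤ dist (x p) (x q) := by
    intro p hp q hq hpq
    have a1 := h2 (Finset.mem_filter.1 hp).1 (Finset.mem_filter.1 hq).1 hpq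
    have a2 : dist (r • p + s) (r • q + s) = r * dist p q := by
      rw [dist_add_right, dist_smul₀, Real.norm_of_nonneg hr0.le]
    have a3 := dist_triangle4 (r • p + s) (x p) (x q) (r • q + s)
    rw [dist_comm (x q)] at a3
    nlinarith [(hx p hp).2, (hx q hq).2]
  refine ⟨(Q s).image x, ?_, ?_, ?_⟩
  · intro y hy
    obtain ⟨p, hp, rfl⟩ := Finset.mem_image.1 hy
    exact (hx p hp).1
  · intro y hy z hz hyz
    obtain ⟨p, hp, rfl⟩ := Finset.mem_image.1 hy
    obtain ⟨q, hq, rfl⟩ := Finset.mem_image.1 hz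
    exact hsep p hp q hq fun h => hyz (by rw [h])
  · rw [Finset.card_image_of_injOn fun p hp q hq hpq => by
      by_contra hne
      have := hsep p hp q hq hne
      rw [hpq, dist_self] at this; linarith]
    have a1 : μ.real A ≤ μ.real (closure A) :=
      measureReal_mono subset_closure hA.closure.measure_lt_top.ne
    have a2 : μ.real B ≤ 2 * (k : ℝ) ^ n * (r ^ n * μ.real (ball (0 : E) 1)) := by
      rw [real_cball μ _ (by positivity), show k * r + D = (k + D / r) * r by field_simp, mul_pow,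
        mul_assoc]
      gcongr
    have a3 : d * (k : ℝ) ^ n * μ.real A ≤ P.card * μ.real (closure A) := by gcongr
    have a4 := mul_le_mul_of_nonneg_left a2 (Nat.cast_nonneg (α := ℝ) (Q s).card)
    refine le_of_mul_le_mul_right ?_ (by positivity : (0:ℝ) < (k : ℝ) ^ n)
    nlinarith

end H92.Cov
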