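import Mathlib
import Pool.Agent.H92.Cov1

open Set Metric MeasureTheory Filter Topology Module

namespace H92.Cov

variable {E : Type*} [NormedAddCommGroup E] [NormedSpace ℝ E] [FiniteDimensional ℝ E]
  [MeasurableSpace E] [BorelSpace E] (μ : Measure E) [μ.IsAddHaarMeasure]

lemma lam_pow {n : ℕ} (hn : 0 < n) : (1 + 1 / (n : ℝ)) ^ n ≤ 3 := by
  have h1 : 1 + 1 / (n : ℝ) ≤ Real.exp (1 / n) := by linarith [Real.add_one_le_exp (1 / (n : ℝ))]
  have hn' : (n : ℝ) ≠ 0 := by exact_mod_cast hn.ne'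
  calc _ ≤ Real.exp (1 / n) ^ n := by gcongr
    _ = Real.exp 1 := by rw [← Real.exp_nat_mul]; congr 1; field_simp
    _ ≤ 3 := by linarith [Real.exp_one_lt_d9]

lemma multi {d : ℝ} (hd : 0 ≤ d) (h : Dens E d) (hn : 0 < finrank ℝ E) {X : Set E}
    (hX : Bornology.IsBounded X) (δ : E → ℝ) (ρ : ℕ → ℝ) (hρ : ∀ l, 0 < ρ l)
    (lev : E → ℕ) (h1 : ∀ x ∈ X, δ x ≤ ρ (lev x))
    (h2 : ∀ x ∈ X, ρ (lev x) ≤ (1 + 1 / (finrank ℝ E : ℝ)) * δ x)
    (h3 : ∀ x ∈ X, ∀ l, lev x < l → finrank ℝ E * ρ l ≤ δ x) (L : ℕ) :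
    ∃ T : Finset E, ↑T ⊆ {x ∈ X | lev x < L} ∧
      (T : Set E).Pairwise (fun x y => δ x + δ y ≤ dist x y) ∧
      d * μ.real ({x ∈ X | lev x < L} \ ⋃ x ∈ T, ball x ((1 + 1 / (finrank ℝ E : ℝ)) * δ x)) ≤
        18 * ∑ x ∈ T, δ x ^ finrank ℝ E * μ.real (ball 0 1) := by
  classical
  set n := finrank ℝ E
  have hn' : (0:ℝ) < n := by exact_mod_cast hn
  set l := 1 + 1 / (n : ℝ) with hl
  have hl0 : 0 < l := by positivity
  have hδ : ∀ x ∈ X, 0 < δ x := fun x hx => (mul_pos_iff_of_pos_left hl0).1 ((hρ _).trans_le (h2 x hx))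
  induction L with
  | zero => exact ⟨∅, by simp, by simp, by simp⟩
  | succ L ih =>
    obtain ⟨T, hT1, hT2, hT3⟩ := ih
    set A := {x ∈ X | lev x = L} \ ⋃ x ∈ T, ball x (l * δ x) with hA
    have hAX : A ⊆ X := fun x hx => hx.1.1
    obtain ⟨T', a1, a2, a3⟩ := single μ hd h (hX.subset hAX) (hρ L) (one_div_pos.2 hn')
    have hl' : ∀ y ∈ T', lev y = L := fun y hy => (a1 hy).1.2
    have hdis : Disjoint T T' := Finset.disjoint_left.2 fun x hx hx' => by
      have := (hT1 hx).2; rw [hl' x hx'] at this; exact lt_irrefl _ this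
    have cross : ∀ x ∈ T, ∀ y ∈ T', δ x + δ y ≤ dist x y := by
      intro x hx y hy
      have b1 : l * δ x ≤ dist y x := not_lt.1 fun hh => (a1 hy).2 (mem_iUnion₂.2 ⟨x, hx, hh⟩)
      have b2 := h3 x (hT1 hx).1 L (hT1 hx).2
      have b3 := h1 y (hAX (a1 hy))
      rw [hl' y hy] at b3
      have b4 : ρ L ≤ 1 / n * δ x := by rw [one_div, ← div_eq_inv_mul, le_div_iff₀ hn']; linarith
      rw [dist_comm]; rw [hl] at b1; linarith
    refine ⟨T ∪ T', ?_, ?_, ?_⟩
    · intro x hx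
      rcases Finset.mem_union.1 hx with hx | hx
      · exact ⟨(hT1 hx).1, (hT1 hx).2.trans L.lt_succ_self⟩
      · exact ⟨hAX (a1 hx), (hl' x hx).le.trans_lt L.lt_succ_self⟩
    · intro x hx y hy hxy
      rcases Finset.mem_union.1 hx with hx | hx <;> rcases Finset.mem_union.1 hy with hy | hy
      · exact hT2 hx hy hxy
      · exact cross x hx y hy
      · rw [dist_comm, add_comm]; exact cross y hy x hx
      · have b1 := h1 x (hAX (a1 hx))
        have b2 := h1 y (hAX (a1 hy))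
        rw [hl' _ hx] at b1; rw [hl' _ hy] at b2
        linarith [a2 hx hy hxy]
    · have s1 : {x ∈ X | lev x < L + 1} \ ⋃ x ∈ T ∪ T', ball x (l * δ x) ⊆
          ({x ∈ X | lev x < L} \ ⋃ x ∈ T, ball x (l * δ x)) ∪ A := by
        rintro x ⟨⟨b1, b2⟩, b3⟩
        have b4 : x ∉ ⋃ x ∈ T, ball x (l * δ x) := fun hh => by
          obtain ⟨y, hy, hh⟩ := mem_iUnion₂.1 hh
          exact b3 (mem_iUnion₂.2 ⟨y, Finset.mem_union_left _ hy, hh⟩)
        rcases (Nat.lt_succ_iff.1 b2).lt_or_eq with b | b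
        · exact Or.inl ⟨⟨b1, b⟩, b4⟩
        · exact Or.inr ⟨⟨b1, b⟩, b4⟩
      have s2 := (measureReal_mono (μ := μ) s1 (hX.subset (union_subset (fun x hx => hx.1.1)
        hAX)).measure_lt_top.ne).trans (measureReal_union_le _ _)
      have s3 : T'.card * ((ρ L * l) ^ n * μ.real (ball (0 : E) 1)) ≤
          9 * ∑ x ∈ T', δ x ^ n * μ.real (ball (0 : E) 1) := by
        rw [Finset.mul_sum, ← nsmul_eq_mul, ← Finset.sum_const]
        refine Finset.sum_le_sum fun y hy => ?_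
        have b2 := h2 y (hAX (a1 hy))
        rw [hl' y hy] at b2
        have b3 := lam_pow hn
        have b4 := hδ y (hAX (a1 hy))
        have := hρ L
        rw [← mul_assoc]
        gcongr
        calc (ρ L * l) ^ n ≤ (l * δ y * l) ^ n := by gcongr
          _ = l ^ n * l ^ n * δ y ^ n := by ring
          _ ≤ 3 * 3 * δ y ^ n := by gcongr
          _ = _ := by norm_num
      rw [Finset.sum_union hdis]
      nlinarith [mul_le_mul_of_nonneg_left s2 hd]

lemma multi' {d : ℝ} (hd : 0 ≤ d) (h : Dens E d) (hn : 0 < finrank ℝ E) {X : Set E}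
    (hX : Bornology.IsBounded X) (δ : E → ℝ) (ρ : ℕ → ℝ) (hρ : ∀ l, 0 < ρ l)
    (lev : E → ℕ) (h1 : ∀ x ∈ X, δ x ≤ ρ (lev x))
    (h2 : ∀ x ∈ X, ρ (lev x) ≤ (1 + 1 / (finrank ℝ E : ℝ)) * δ x)
    (h3 : ∀ x ∈ X, ∀ l, lev x < l → finrank ℝ E * ρ l ≤ δ x) (L : ℕ) (hL : ∀ x ∈ X, lev x < L) :
    ∃ T : Finset E, ↑T ⊆ X ∧ (T : Set E).Pairwise (fun x y => δ x + δ y ≤ dist x y) ∧
      d * μ.real X ≤ 21 * ∑ x ∈ T, μ.real (ball x (δ x)) := by
  obtain ⟨T, a1, a2, a3⟩ := multi μ hd h hn hX δ ρ hρ lev h1 h2 h3 L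
  set n := finrank ℝ E
  set l := 1 + 1 / (n : ℝ) with hl
  have hl0 : 0 < l := by positivity
  have hδ : ∀ x ∈ X, 0 < δ x := fun x hx => (mul_pos_iff_of_pos_left hl0).1 ((hρ _).trans_le (h2 x hx))
  have e : {x ∈ X | lev x < L} = X := by ext x; exact ⟨fun h => h.1, fun h => ⟨h, hL x h⟩⟩
  rw [e] at a1 a3
  refine ⟨T, a1, a2, ?_⟩
  rw [Finset.sum_congr rfl fun x hx => real_ball μ x (hδ x (a1 hx))]
  have s1 : μ.real X ≤ μ.real (X \ ⋃ x ∈ T, ball x (l * δ x)) +
      μ.real (⋃ x ∈ T, ball x (l * δ x)) := by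
    refine le_trans (measureReal_mono (by simp) ?_) (measureReal_union_le _ _)
    exact ((hX.subset sdiff_subset).union ((Bornology.isBounded_biUnion_finset T).2
      fun _ _ => isBounded_ball)).measure_lt_top.ne
  have s2 : μ.real (⋃ x ∈ T, ball x (l * δ x)) ≤ 3 * ∑ x ∈ T, δ x ^ n * μ.real (ball (0 : E) 1) := by
    refine (measureReal_biUnion_finset_le _ _).trans ?_
    rw [Finset.mul_sum]
    refine Finset.sum_le_sum fun x hx => ?_
    have := hδ x (a1 hx)
    rw [real_ball μ x (by positivity), mul_pow, mul_assoc]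
    gcongr; exact lam_pow hn
  have s3 := mul_le_of_le_one_left (measureReal_nonneg (μ := μ) (s := ⋃ x ∈ T, ball x (l * δ x)))
    (dens_le_one μ h)
  nlinarith [mul_le_mul_of_nonneg_left s1 hd]

theorem cover {d : ℝ} (hd : 0 ≤ d) (h : Dens E d) (hn : 2 ≤ finrank ℝ E) {X : Set E}
    (hX : Bornology.IsBounded X) (δ : E → ℝ) (hδ : ∀ x ∈ X, 0 < δ x) :
    ∃ T : Finset E, ↑T ⊆ X ∧ (T : Set E).Pairwise (fun x y => δ x + δ y ≤ dist x y) ∧
      d / (200 * finrank ℝ E * Real.log (finrank ℝ E)) * μ.real X ≤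
        ∑ x ∈ T, μ.real (ball x (δ x)) := by
  set n := finrank ℝ E
  have hn' : (2:ℝ) ≤ n := by exact_mod_cast hn
  have hlog : 1 / 2 ≤ Real.log n := by
    have := Real.log_le_log two_pos hn'
    linarith [Real.log_two_gt_d9]
  have hnl : 1 ≤ n * Real.log n := by nlinarith
  have hd1 := dens_le_one μ h
  obtain ⟨R, hR0, hR⟩ := hX.exists_pos_norm_le
  by_cases hbig : ∃ x ∈ X, 3 * R ≤ δ x
  · obtain ⟨x, hx, hx'⟩ := hbig
    refine ⟨{x}, by simpa using hx, by simp, ?_⟩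
    rw [Finset.sum_singleton]
    refine (mul_le_of_le_one_left measureReal_nonneg ?_).trans
      (measureReal_mono (fun y hy => ?_) measure_ball_lt_top.ne)
    · rw [div_le_one (by positivity)]; nlinarith
    · rw [mem_ball_iff_norm]
      linarith [norm_sub_le y x, hR x hx, hR y hy]
  push Not at hbig
  set l := 1 + 1 / (n : ℝ) with hl
  have hl1 : 1 < l := by rw [hl]; simp; linarith
  have hl0 : 0 < l := by linarith
  let i : E → ℕ := fun x => ⌊Real.logb l (3 * R / δ x)⌋₊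
  have i1 : ∀ x ∈ X, δ x ≤ 3 * R / l ^ i x := fun x hx => by
    have b := hδ x hx
    have b1 : 0 ≤ Real.logb l (3 * R / δ x) :=
      Real.logb_nonneg hl1 (by rw [le_div_iff₀ b]; linarith [hbig x hx])
    have := (Real.le_logb_iff_rpow_le hl1 (by positivity)).1 (Nat.floor_le b1)
    rw [Real.rpow_natCast, le_div_iff₀ b] at this
    rw [le_div_iff₀ (by positivity)]; linarith
  have i2 : ∀ x ∈ X, 3 * R / l ^ i x ≤ l * δ x := fun x hx => by
    have b := hδ x hx
    have := (Real.logb_lt_iff_lt_rpow hl1 (by positivity)).1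
      (Nat.lt_floor_add_one (Real.logb l (3 * R / δ x)))
    rw [Real.rpow_add hl0, Real.rpow_natCast, Real.rpow_one, div_lt_iff₀ b] at this
    rw [div_le_iff₀ (by positivity)]; nlinarith
  set m := ⌈2 * n * Real.log n⌉₊ + 1 with hm
  have hm0 : 0 < m := Nat.succ_pos _
  have hm1 : (m : ℝ) ≤ 4 * (n * Real.log n) := by
    have := Nat.ceil_lt_add_one (a := 2 * n * Real.log n) (by positivity)
    rw [hm]; push_cast; linarith
  have hm2 : (n : ℝ) * l ≤ l ^ m := by
    rw [hm, pow_succ]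
    gcongr
    have b1 : 1 / (2 * n) ≤ Real.log l := by
      refine le_trans ?_ (Real.one_sub_inv_le_log_of_pos hl0)
      rw [hl]; field_simp; nlinarith
    rw [← Real.log_le_log_iff (by positivity) (by positivity), Real.log_pow]
    calc Real.log n = 2 * n * Real.log n * (1 / (2 * n)) := by field_simp
      _ ≤ _ := by gcongr; exact Nat.le_ceil _
  obtain ⟨L, hL⟩ : ∃ L : ℕ, μ.real X ≤ 2 * μ.real {x ∈ X | i x < L} := by
    have mono : Monotone fun L : ℕ => {x ∈ X | i x < L} := fun a b hab x hx =>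
      ⟨hx.1, hx.2.trans_le hab⟩
    have t := tendsto_measure_iUnion_atTop (μ := μ) mono
    have e : ⋃ L : ℕ, {x ∈ X | i x < L} = X := by
      ext x; simp only [mem_iUnion]
      exact ⟨fun ⟨_, h⟩ => h.1, fun h => ⟨i x + 1, h, Nat.lt_succ_self _⟩⟩
    rw [e] at t
    have t2 := (ENNReal.tendsto_toReal hX.measure_lt_top.ne).comp t
    rcases (measureReal_nonneg (μ := μ) (s := X)).eq_or_lt with h0 | h0
    · exact ⟨0, by rw [← h0]; positivity⟩
    · obtain ⟨L, hL⟩ := (t2.eventually (lt_mem_nhds (half_lt_self h0))).exists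
      have : μ.real X / 2 < μ.real {x ∈ X | i x < L} := hL
      exact ⟨L, by linarith⟩
  let Y : ℕ → Set E := fun r => {x ∈ X | i x < L ∧ i x % m = r}
  obtain ⟨r, -, hr⟩ := Finset.exists_max_image (Finset.range m) (fun r => μ.real (Y r))
    ⟨0, by simpa using hm0⟩
  have hY : μ.real {x ∈ X | i x < L} ≤ m * μ.real (Y r) := by
    have : {x ∈ X | i x < L} = ⋃ r ∈ Finset.range m, Y r := by
      ext x; simp only [mem_iUnion, Y]
      exact ⟨fun h => ⟨_, by simpa using Nat.mod_lt _ hm0, h.1, h.2, rfl⟩,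
        fun ⟨_, _, h⟩ => ⟨h.1, h.2.1⟩⟩
    rw [this]
    refine (measureReal_biUnion_finset_le _ _).trans ((Finset.sum_le_sum hr).trans_eq ?_)
    simp
  have ei : ∀ x ∈ Y r, r + m * (i x / m) = i x := fun x hx => by
    rw [← hx.2.2]; exact Nat.mod_add_div _ _
  have key := multi' μ hd h (by omega) (X := Y r) (hX.subset fun x hx => hx.1) δ
    (fun k => 3 * R / l ^ (r + m * k)) (fun k => by positivity) (fun x => i x / m)
    (fun x hx => by simp only [ei x hx]; exact i1 x hx.1)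
    (fun x hx => by simp only [ei x hx]; exact i2 x hx.1)
    (fun x hx k hk => ?_) L (fun x hx => (Nat.div_le_self _ _).trans_lt hx.2.1)
  · obtain ⟨T, a1, a2, a3⟩ := key
    refine ⟨T, fun x hx => (a1 hx).1, a2, ?_⟩
    rw [div_mul_eq_mul_div, div_le_iff₀ (by positivity)]
    have s0 : 0 ≤ ∑ x ∈ T, μ.real (ball x (δ x)) := Finset.sum_nonneg fun _ _ => measureReal_nonneg
    have s1 : μ.real X ≤ 8 * (n * Real.log n) * μ.real (Y r) := by
      nlinarith [mul_le_mul_of_nonneg_right hm1 (measureReal_nonneg (μ := μ) (s := Y r))]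
    have s2 := mul_le_mul_of_nonneg_left s1 hd
    have s3 := mul_le_mul_of_nonneg_left a3 (by positivity : 0 ≤ 8 * (n * Real.log n))
    nlinarith [mul_nonneg s0 (by positivity : 0 ≤ n * Real.log n)]
  · have b1 := i2 x hx.1
    have b2 : i x + m ≤ r + m * k := by
      have := ei x hx
      have : m * (i x / m + 1) ≤ m * k := Nat.mul_le_mul_left _ hk
      rw [mul_add] at this; omega
    have b3 : l ^ i x * (n * l) ≤ l ^ (r + m * k) :=
      (mul_le_mul_of_nonneg_left hm2 (by positivity)).trans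
        (by rw [← pow_add]; exact pow_le_pow_right₀ hl1.le b2)
    rw [div_le_iff₀ (by positivity)] at b1
    have b4 := hδ x hx.1
    rw [← mul_div_assoc, div_le_iff₀ (by positivity)]
    nlinarith [mul_le_mul_of_nonneg_left b3 b4.le, mul_le_mul_of_nonneg_left b1 (by positivity : (0:ℝ) ≤ n)]

end H92.Cov
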