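import Mathlib

set_option autoImplicit false
open Finset Filter Topology Real

namespace Pool.Agent.H92.Cutoff

/-- one coordinate: keep with probability `r`, refresh otherwise -/
noncomputable def p1 (m : ℕ) (r : ℝ) (x : ZMod m) : ℝ := (if x = 0 then r else 0) + (1 - r) / m

lemma p1_sum (m : ℕ) [NeZero m] (r : ℝ) : ∑ x, p1 m r x = 1 := by
  have : (m:ℝ) ≠ 0 := NeZero.ne _
  simp [p1, sum_add_distrib]; field_simp; ring

lemma p1_conv (m : ℕ) [NeZero m] (r s : ℝ) (g : ZMod m) :
    ∑ x, p1 m r x * p1 m s (g - x) = p1 m (r * s) g := by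
  have : (m:ℝ) ≠ 0 := NeZero.ne _
  have e : ∑ x, p1 m s (g - x) = 1 := by
    rw [← p1_sum m s]; exact Equiv.sum_comp (Equiv.subLeft g) (p1 m s)
  conv_lhs => simp only [p1.eq_1 m r, add_mul, sum_add_distrib, ← mul_sum, e]
  simp only [ite_mul, zero_mul, sum_ite_eq', mem_univ, if_true, sub_zero, p1]
  split_ifs <;> ring

theorem cutoff (R : ℕ) {c : ℝ} (hc : 0 < c) : ∃ (M : ℕ) (_ : NeZero M) (p : ZMod M → ℝ) (w : ℕ)
    (H : ℕ → ZMod M → ℝ), 0 < w ∧ (∀ z, 0 ≤ p z) ∧ ∑ z, p z = 1 ∧ (∀ z, p (-z) = p z) ∧ 1 - c ≤ p 0 ∧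
    (∀ g, H 0 g = if g = 0 then 1 else 0) ∧ (∀ n g, H (n + 1) g = ∑ z, p z * H n (g - z)) ∧
    ∃ G : Finset (ZMod M), (M:ℝ) ≤ 2 * #G ∧ ∀ g ∈ G, 1 / 2 ≤ M * (H ((R + 1) * w) g - H (R * w) g) := by
  set d := 4 * 16 ^ R with hd
  have d0 : (0:ℝ) < d := by positivity
  let m : Fin d → ℕ := fun i => Nat.fermatNumber (i + 2 * d)
  have m2 : ∀ i, 2 * d < m i := fun i => by
    have a1 : i + 2 * d < 2 ^ (i + 2 * d : ℕ) := Nat.lt_two_pow_self
    have a2 : 2 ^ (i + 2 * d : ℕ) < 2 ^ 2 ^ (i + 2 * d : ℕ) := Nat.lt_two_pow_self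
    simp only [m, Nat.fermatNumber]; omega
  have : ∀ i, NeZero (m i) := fun i => ⟨by have := m2 i; omega⟩
  have nz : NeZero (∏ i, m i) := ⟨prod_ne_zero_iff.mpr fun i _ => NeZero.ne _⟩
  let e := ZMod.prodEquivPi m fun i j hij => Nat.pairwise_coprime_fermatNumber
    (fun h => hij (Fin.ext (by omega)))
  obtain ⟨w, hw⟩ := exists_nat_gt (15 * d / c)
  have w0 : (0:ℝ) < w := lt_trans (by positivity) hw
  set r := exp (-log 16 / w) with hr
  have l0 : 0 < log 16 := log_pos (by norm_num)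
  have r1 : r ≤ 1 := exp_le_one_iff.mpr (div_nonpos_of_nonpos_of_nonneg (by linarith) w0.le)
  have r0 : 0 < r := exp_pos _
  have rw' : ∀ k : ℕ, r ^ (k * w) = (1 / 16) ^ k := fun k => by
    rw [mul_comm, pow_mul, ← exp_nat_mul, mul_div_cancel₀ _ w0.ne', exp_neg, exp_log (by norm_num), one_div]
  let P : ℝ → ZMod (∏ i, m i) → ℝ := fun s z => ∏ i, p1 (m i) s (e z i)
  refine ⟨∏ i, m i, nz, P r, w, fun n => P (r ^ n), by exact_mod_cast w0, fun z => ?_, ?_, fun z => ?_, ?_,
    fun g => ?_, fun n g => ?_, ?_⟩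
  · refine prod_nonneg fun i _ => add_nonneg ?_ (div_nonneg (by linarith) (by positivity))
    split_ifs <;> positivity
  · refine (e.toEquiv.sum_comp (fun z => ∏ i, p1 (m i) r (z i))).trans ?_
    rw [← Fintype.piFinset_univ, ← prod_univ_sum]
    simp [p1_sum]
  · simp [P, p1]
  · calc 1 - c ≤ r ^ d := by
          rw [← exp_nat_mul]
          refine le_trans ?_ (add_one_le_exp _)
          have := log_le_sub_one_of_pos (show (0:ℝ) < 16 by norm_num)
          rw [div_lt_iff₀ hc] at hw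
          have : d * log 16 / w ≤ c := by rw [div_le_iff₀ w0]; nlinarith
          rw [neg_div, mul_neg, ← mul_div_assoc]; linarith
      _ = ∏ i : Fin d, r := by simp
      _ ≤ _ := prod_le_prod (fun _ _ => r0.le) fun i _ => by
          simp only [map_zero, Pi.zero_apply, p1, if_true]
          exact le_add_of_nonneg_right (div_nonneg (by linarith) (by positivity))
  · simp only [P, p1, pow_zero, sub_self, zero_div, add_zero, prod_ite_zero, mem_univ, prod_const_one,
      forall_const]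
    congr 1
    rw [← map_eq_zero_iff e e.injective, funext_iff]; rfl
  · simp only [P, map_sub, ← prod_mul_distrib]
    refine Eq.trans ?_ (e.toEquiv.sum_comp
      (fun z => ∏ i, p1 (m i) r (z i) * p1 (m i) (r ^ n) ((e g - z) i))).symm
    rw [← Fintype.piFinset_univ, pow_succ']
    simp only [Pi.sub_apply]
    rw [← prod_univ_sum (fun _ => univ) fun i x => p1 (m i) r x * p1 (m i) (r ^ n) (e g i - x)]
    simp only [p1_conv]
  · have mp : ∀ i, (2 * d : ℝ) < m i := fun i => by exact_mod_cast m2 i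
    refine ⟨(Fintype.piFinset fun i => univ.erase 0).map e.symm.toEquiv.toEmbedding, ?_, fun g hg => ?_⟩
    · rw [card_map, Fintype.card_piFinset]
      push_cast
      have a1 : ∀ i, (1 - 1 / (2 * d)) * (m i : ℝ) ≤ #(univ.erase (0 : ZMod (m i))) := fun i => by
        rw [card_erase_of_mem (mem_univ _), card_univ, ZMod.card, Nat.cast_pred (by have := m2 i; omega)]
        have : 1 ≤ 1 / (2 * d) * (m i : ℝ) := by
          rw [one_div_mul_eq_div, one_le_div (by positivity)]; exact (mp i).le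
        linarith
      have b : 1 / (2 * d : ℝ) ≤ 1 := by
        rw [div_le_one (by positivity)]
        have : (1:ℝ) ≤ d := by exact_mod_cast (by exact_mod_cast d0 : 0 < d)
        linarith
      have a2 := prod_le_prod (s := univ) (fun i _ => mul_nonneg (by linarith) (by positivity)) fun i _ => a1 i
      rw [prod_mul_distrib, prod_const, card_univ, Fintype.card_fin] at a2
      have a3 := one_add_mul_le_pow (a := -(1 / (2 * d : ℝ))) (by linarith) d
      rw [show 1 + (d:ℝ) * -(1 / (2 * d)) = 1 / 2 by field_simp; ring, ← sub_eq_add_neg] at a3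
      have : (0:ℝ) ≤ ∏ i, (m i : ℝ) := by positivity
      nlinarith
    · obtain ⟨z, hz, rfl⟩ := mem_map.mp hg
      have val : ∀ s, ((∏ i, m i : ℕ) : ℝ) * P s (e.symm z) = (1 - s) ^ d := fun s => by
        simp only [P, RingEquiv.apply_symm_apply, Nat.cast_prod, ← prod_mul_distrib]
        rw [prod_congr rfl (g := fun _ => 1 - s) fun i _ => by
          have : (m i : ℝ) ≠ 0 := NeZero.ne _
          rw [p1, if_neg (mem_erase.mp (Fintype.mem_piFinset.mp hz i)).1]; field_simp; ring]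
        simp
      rw [mul_sub]
      erw [val, val]
      rw [rw', rw']
      have dd : (d:ℝ) * (1 / 16) ^ R = 4 := by rw [hd]; push_cast; rw [mul_assoc, ← mul_pow]; norm_num
      have a3 := one_add_mul_le_pow (a := -(1 / 16 : ℝ) ^ (R + 1))
        (by linarith [pow_le_one₀ (n := R + 1) (show (0:ℝ) ≤ 1 / 16 by norm_num) (by norm_num)]) d
      rw [pow_succ, mul_neg, ← mul_assoc, dd, ← sub_eq_add_neg, ← sub_eq_add_neg, ← pow_succ] at a3
      have a4 : (1 - (1 / 16 : ℝ) ^ R) ^ d ≤ exp (-4) := by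
        rw [← dd, ← mul_neg, exp_nat_mul]
        gcongr
        · linarith [pow_le_one₀ (n := R) (show (0:ℝ) ≤ 1 / 16 by norm_num) (by norm_num)]
        · linarith [add_one_le_exp (-(1 / 16 : ℝ) ^ R)]
      have a5 : exp (-4) ≤ 1 / 5 := by
        rw [exp_neg, ← one_div]; gcongr; linarith [add_one_le_exp 4]
      linarith

end Pool.Agent.H92.Cutoff
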