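import Pool.Agent.H92.Cutoff

set_option autoImplicit false
open Finset Filter Topology Real

namespace Pool.Agent.H92.Cutoff

noncomputable def T (μ : ℤ → ℝ) (g : ℤ → ℝ) : ℤ → ℝ := fun m => ∑' i : ℤ, μ i * g (m - i)

def Prob (μ : ℤ → ℝ) : Prop := (∀ k, 0 ≤ μ k) ∧ HasSum μ 1

def ind (F : Finset ℤ) : ℤ → ℝ := fun x => if x ∈ F then 1 else 0

lemma ind_bd (F : Finset ℤ) (x : ℤ) : |ind F x| ≤ 1 := by unfold ind; split_ifs <;> simp

lemma sm {μ g : ℤ → ℝ} {B : ℝ} (h : Prob μ) (hg : ∀ x, |g x| ≤ B) : Summable fun i => μ i * g i :=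
  Summable.of_norm_bounded (h.2.summable.mul_right B) fun i => by
    rw [norm_mul, Real.norm_of_nonneg (h.1 i)]; exact mul_le_mul_of_nonneg_left (hg i) (h.1 i)

lemma T_bd {μ g : ℤ → ℝ} {B : ℝ} (h : Prob μ) (hg : ∀ x, |g x| ≤ B) (m : ℤ) : |T μ g m| ≤ B := by
  rw [← one_mul B, ← Real.norm_eq_abs]
  refine tsum_of_norm_bounded (h.2.mul_right B) fun i => ?_
  rw [norm_mul, Real.norm_of_nonneg (h.1 i)]; exact mul_le_mul_of_nonneg_left (hg _) (h.1 i)

lemma it_bd {μ g : ℤ → ℝ} (h : Prob μ) (hg : ∀ x, |g x| ≤ 1) (n : ℕ) (m : ℤ) : |(T μ)^[n] g m| ≤ 1 := by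
  induction n generalizing m with
  | zero => exact hg m
  | succ n ih => rw [Function.iterate_succ_apply']; exact T_bd h ih m

lemma it_diff {μ μ' g : ℤ → ℝ} {ε : ℝ} (h : Prob μ) (h' : Prob μ') (hg : ∀ x, |g x| ≤ 1)
    (hε : ∀ U : Finset ℤ, ∑ y ∈ U, |μ y - μ' y| ≤ ε) (n : ℕ) (m : ℤ) :
    |(T μ)^[n] g m - (T μ')^[n] g m| ≤ n * ε := by
  induction n generalizing m with
  | zero => simp
  | succ n ih =>
    rw [Function.iterate_succ_apply', Function.iterate_succ_apply']
    have b := it_bd h hg n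
    have b' := it_bd h' hg n
    set a := (T μ)^[n] g
    set a' := (T μ')^[n] g
    have s0 := summable_of_sum_le (fun y => abs_nonneg _) hε
    have e1 : T μ a m - T μ a' m = T μ (fun x => a x - a' x) m := by
      simp only [T, mul_sub]
      exact ((sm h fun _ => b _).tsum_sub (sm h fun _ => b' _)).symm
    have e2 : |T μ a' m - T μ' a' m| ≤ ε := by
      refine le_trans ?_ (s0.tsum_le_of_sum_le hε)
      rw [T, T, ← (sm h fun _ => b' _).tsum_sub (sm h' fun _ => b' _), ← Real.norm_eq_abs]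
      refine tsum_of_norm_bounded s0.hasSum fun i => ?_
      rw [← sub_mul, Real.norm_eq_abs, abs_mul]
      exact mul_le_of_le_one_right (abs_nonneg _) (b' _)
    have := T_bd h ih m
    rw [← e1] at this
    push_cast
    linarith [abs_sub_le (T μ a m) (T μ a' m) (T μ' a' m)]

def Bad (R : ℕ) (μ : ℤ → ℝ) : Prop := ∃ (F K : Finset ℤ) (M w : ℕ), 0 < w ∧ 0 < M ∧ 0 < #K ∧
  (M:ℝ) * #F ≤ 8 * #K ∧ ∀ k ∈ K, 1 / (4 * M : ℝ) ≤ (T μ)^[(R + 1) * w] (ind F) k - (T μ)^[R * w] (ind F) k

lemma uniq {S a v a' v' : ℤ} (h1 : 0 ≤ v) (h2 : v < S) (h3 : 0 ≤ v') (h4 : v' < S)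
    (h : S * a + v = S * a' + v') : a = a' ∧ v = v' := by
  have : a = a' := by
    by_contra hc
    rcases lt_or_gt_of_ne hc with h5 | h5 <;> nlinarith
  subst this
  exact ⟨rfl, by linarith⟩

lemma hs1 (h : ℤ → ℝ) (a : ℤ) : HasSum (fun y => (if y = a then 1 else 0) * h y) (h a) := by
  have := hasSum_single (f := fun y => (if y = a then 1 else 0) * h y) a fun b hb => by simp [hb]
  simp only [if_true, one_mul] at this
  exact this

structure St where
  μ : ℤ → ℝ
  L : ℕ
  ε : ℝ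

def Inv (s : St) : Prop := Prob s.μ ∧ (∀ y, s.μ (-y) = s.μ y) ∧ (∀ y, (s.L : ℤ) < |y| → s.μ y = 0) ∧
  0 < s.L ∧ 0 < s.ε ∧ 1 / 2 + s.ε ≤ s.μ 0 ∧ 1 / 8 ≤ s.μ 1

def Rel (R : ℕ) (s s' : St) : Prop := (∀ U : Finset ℤ, ∑ y ∈ U, |s'.μ y - s.μ y| ≤ s.ε / 2) ∧
  s'.ε ≤ s.ε / 2 ∧ ∀ μ, Prob μ → (∀ U : Finset ℤ, ∑ y ∈ U, |μ y - s'.μ y| ≤ s'.ε) → Bad R μ

lemma stage (R : ℕ) (s : St) (hs : Inv s) : ∃ s', Inv s' ∧ Rel R s s' := by
  obtain ⟨μ0, L, ε⟩ := s
  obtain ⟨h1, h2, h3, h4, h5, h6, h7⟩ := hs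
  simp only at h1 h2 h3 h4 h5 h6 h7
  obtain ⟨M, nz, p, w, H, w0, p0, p1, p2, p3, H0, H1, G, G1, G2⟩ := cutoff R (show 0 < ε / 4 by linarith)
  have M0 : 0 < M := NeZero.pos M
  set N := (R + 1) * w with hN
  have N0 : 0 < N := by positivity
  set S : ℤ := 4 * N * L with hS
  have S0 : 0 < S := by positivity
  let ν : ℤ → ℝ := fun y => ∑ z : ZMod M, p z / 2 *
    ((if y = S * z.val then 1 else 0) + if y = -(S * z.val) then 1 else 0)
  have ν0 : ∀ y, 0 ≤ ν y := fun y => sum_nonneg fun z _ => by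
    have := p0 z
    split_ifs <;> positivity
  have ν1 : ∀ h : ℤ → ℝ, HasSum (fun y => ν y * h y) (∑ z, p z / 2 * (h (S * z.val) + h (-(S * z.val)))) := by
    intro h
    simp only [ν, sum_mul, mul_assoc _ _ (h _), add_mul]
    exact hasSum_sum fun z _ => HasSum.mul_left _ ((hs1 h _).add (hs1 h _))
  have ν2 : HasSum ν 1 := by
    have := ν1 fun _ => 1
    simp only [mul_one, one_add_one_eq_two, div_mul_cancel₀ _ (two_ne_zero (α := ℝ)), p1] at this
    exact this
  have ν3 : 1 - ε / 4 ≤ ν 0 := by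
    refine p3.trans (le_trans ?_ (single_le_sum (f := fun z : ZMod M => p z / 2 *
      ((if (0:ℤ) = S * z.val then 1 else 0) + if (0:ℤ) = -(S * z.val) then 1 else 0)) (fun z _ => ?_) (mem_univ 0)))
    · simp; linarith
    · have := p0 z
      split_ifs <;> positivity
  have ν4 : ν 0 ≤ 1 := le_hasSum ν2 0 fun j _ => ν0 j
  have δ1 := fun h => hs1 h 0
  let μ1 : ℤ → ℝ := fun y => μ0 y - (if y = 0 then 1 else 0) + ν y
  have e1 : ε ≤ 1 / 2 := by linarith [le_hasSum h1.2 0 fun j _ => h1.1 j]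
  have P1 : Prob μ1 := ⟨fun y => by
      simp only [μ1]; split_ifs with h
      · subst h; linarith
      · linarith [h1.1 y, ν0 y], by
    have := (h1.2.sub (δ1 fun _ => 1)).add ν2
    simp only [mul_one, sub_self, zero_add] at this
    exact this⟩
  let F := {x ∈ Ico 0 (S * (4 * N * M)) | ((x / S : ℤ) : ZMod M) = 0}
  have vl : ∀ z : ZMod M, (0:ℤ) ≤ z.val ∧ (z.val : ℤ) < M := fun z =>
    ⟨by positivity, by exact_mod_cast ZMod.val_lt z⟩
  have key : ∀ (n : ℕ) (u v : ℤ), n * L ≤ v → v < S - n * L → n * M ≤ u → u < 4 * N * M - n * M →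
      (T μ1)^[n] (ind F) (S * u + v) = H n u := by
    intro n
    induction n with
    | zero =>
      intro u v a1 a2 a3 a4
      simp only [Nat.cast_zero, zero_mul, sub_zero] at a1 a2 a3 a4
      have : (S * u + v) / S = u := by
        rw [add_comm, Int.add_mul_ediv_left _ _ S0.ne', Int.ediv_eq_zero_of_lt a1 a2, zero_add]
      simp only [Function.iterate_zero, id, ind, F, mem_filter, mem_Ico, this, H0]
      congr 1
      exact propext ⟨fun h => h.2, fun h => ⟨⟨by positivity, by nlinarith⟩, h⟩⟩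
    | succ n ih =>
      intro u v a1 a2 a3 a4
      push_cast at a1 a2 a3 a4
      rw [Function.iterate_succ_apply', H1]
      set a := (T μ1)^[n] (ind F)
      have b0 : HasSum (fun y => μ0 y * a (S * u + v - y)) (H n u) := by
        have := h1.2.mul_right (H n u)
        rw [one_mul] at this
        refine (funext fun y => ?_ : (fun y => μ0 y * a (S * u + v - y)) = fun y => μ0 y * H n u) ▸ this
        by_cases hy : (L:ℤ) < |y|
        · simp [h3 y hy]
        · have := abs_le.mp (not_lt.mp hy)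
          rw [add_sub_assoc, ih u (v - y) (by linarith) (by linarith) (by linarith) (by linarith)]
      have b1 := (b0.sub (δ1 fun y => a (S * u + v - y))).add (ν1 fun y => a (S * u + v - y))
      simp only [← sub_mul, ← add_mul] at b1
      rw [T, b1.tsum_eq, sub_zero, ih u v (by linarith) (by linarith) (by linarith) (by linarith), sub_self,
        zero_add, sum_congr rfl (g := fun z => p z * H n (u - z) / 2 + p z * H n (u + z) / 2) fun z _ => by
          have := vl z
          rw [show S * u + v - S * z.val = S * (u - z.val) + v by ring,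
            show S * u + v - -(S * z.val) = S * (u + z.val) + v by ring,
            ih _ v (by linarith) (by linarith) (by linarith) (by linarith),
            ih _ v (by linarith) (by linarith) (by linarith) (by linarith)]
          simp; ring, sum_add_distrib, ← Equiv.sum_comp (Equiv.neg _) fun z => p z * H n (u + z) / 2]
      simp only [Equiv.neg_apply, p2, ← sub_eq_add_neg, ← sum_add_distrib, add_halves]
  have M0' : (0:ℝ) < M := by exact_mod_cast M0
  have N0' : (0:ℝ) < N := by exact_mod_cast N0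
  refine ⟨⟨μ1, L + 4 * N * L * M, min (ε / 2) (1 / (8 * M * N))⟩, ⟨P1, fun y => ?_, fun y hy => ?_, by positivity,
    by positivity, ?_, ?_⟩, fun U => ?_, min_le_left _ _, fun μ hμ hU => ?_⟩
  · simp only [μ1, ν, h2, neg_eq_zero, neg_inj, neg_eq_iff_eq_neg (a := y), neg_neg, add_comm, neg_zero]
  · push_cast at hy
    have : (0:ℤ) ≤ 4 * N * L * M := by positivity
    simp only [μ1, ν]
    rw [h3 y (by linarith), if_neg (by rintro rfl; simp at hy; omega), sum_eq_zero fun z _ => by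
      have := vl z
      have : |S * z.val| ≤ 4 * N * L * M := by
        rw [abs_of_nonneg (by positivity)]; exact mul_le_mul_of_nonneg_left this.2.le S0.le
      rw [if_neg (by rintro rfl; omega), if_neg (by rintro rfl; rw [abs_neg] at hy; omega)]; simp]
    simp
  · simp only [μ1, if_true]; linarith [min_le_left (ε / 2) (1 / (8 * M * N))]
  · simp only [μ1, one_ne_zero, if_false]; linarith [ν0 1]
  · have := ν2.add (δ1 fun _ => 1 - 2 * ν 0)
    have e : ∀ y, |μ1 y - μ0 y| = ν y + (if y = 0 then 1 else 0) * (1 - 2 * ν 0) := fun y => by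
      simp only [μ1]; split_ifs with h
      · subst h; rw [abs_of_nonpos (by linarith)]; ring
      · simp [abs_of_nonneg (ν0 y)]
    simp only [← e] at this
    exact (sum_le_hasSum U (fun _ _ => abs_nonneg _) this).trans (by linarith)
  · let K := (Ico (N:ℤ) (3 * N) ×ˢ G ×ˢ Ico (N * L : ℤ) (3 * (N * L))).image
      fun x => S * (M * x.1 + x.2.1.val) + x.2.2
    have NL : (0:ℤ) < N * L := by positivity
    have cK : (#K : ℝ) = 2 * N * (#G * (2 * (N * L))) := by
      rw [card_image_of_injOn, card_product, card_product, Int.card_Ico, Int.card_Ico,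
        show (3 * N - N : ℤ) = (2 * N : ℕ) by push_cast; ring,
        show (3 * (N * L) - N * L : ℤ) = (2 * (N * L) : ℕ) by push_cast; ring, Int.toNat_natCast, Int.toNat_natCast]
      · push_cast; ring
      rintro ⟨b, z, v⟩ hx ⟨b', z', v'⟩ hx' h
      simp only [coe_product, Set.mem_prod, mem_coe, mem_Ico] at hx hx'
      obtain ⟨c1, rfl⟩ := uniq (by linarith) (by linarith) (by linarith) (by linarith) h
      obtain ⟨rfl, c2⟩ := uniq (vl z).1 (vl z).2 (vl z').1 (vl z').2 c1
      rw [show z = z' from ZMod.val_injective M (by exact_mod_cast c2)]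
    have cF : (#F : ℝ) ≤ 4 * N * (4 * N * L) := by
      have : F ⊆ (Ico (0:ℤ) (4 * N) ×ˢ Ico 0 S).image fun x => S * (M * x.1) + x.2 := fun x hx => by
        simp only [F, mem_filter, mem_Ico, ZMod.intCast_zmod_eq_zero_iff_dvd] at hx
        obtain ⟨⟨a1, a2⟩, b, hb⟩ := hx
        have a3 := Int.ediv_nonneg a1 S0.le
        have a4 := Int.ediv_lt_of_lt_mul S0 (a2.trans_eq (mul_comm _ _))
        have : (0:ℤ) < M := by exact_mod_cast M0
        refine mem_image.mpr ⟨(b, x % S), ?_, by rw [← hb]; exact Int.mul_ediv_add_emod x S⟩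
        simp only [mem_product, mem_Ico]
        exact ⟨⟨by nlinarith, by nlinarith⟩, Int.emod_nonneg _ S0.ne', Int.emod_lt_of_pos _ S0⟩
      have := (card_le_card this).trans card_image_le
      rw [card_product, Int.card_Ico, Int.card_Ico, sub_zero, sub_zero, hS,
        show (4 * N : ℤ) = (4 * N : ℕ) by push_cast; ring, ← Nat.cast_mul, Int.toNat_natCast,
        Int.toNat_natCast] at this
      exact_mod_cast this
    have L0 : (0:ℝ) < L := by exact_mod_cast h4
    refine ⟨F, K, M, w, w0, M0, ?_, ?_, fun k hk => ?_⟩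
    · have : (0:ℝ) < #G := by linarith
      have : (0:ℝ) < #K := by rw [cK]; positivity
      exact_mod_cast this
    · calc _ ≤ 2 * #G * (4 * N * (4 * N * L) : ℝ) := by gcongr
        _ = _ := by rw [cK]; ring
    · obtain ⟨⟨b, z, v⟩, hx, rfl⟩ := mem_image.mp hk
      simp only [mem_product, mem_Ico] at hx
      have := vl z
      have kk : ∀ n ≤ N, |(T μ)^[n] (ind F) (S * (M * b + z.val) + v) - H n z| ≤ 1 / (8 * M) := fun n hn => by
        have hn' : (n:ℤ) ≤ N := by exact_mod_cast hn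
        have a1 : (n:ℤ) * L ≤ N * L := by gcongr
        have a2 := key n (M * b + z.val) v (by linarith) (by linarith) (by nlinarith) (by nlinarith)
        rw [show ((M * b + z.val : ℤ) : ZMod M) = z by simp] at a2
        rw [← a2]
        refine (it_diff hμ P1 (ind_bd F) hU n _).trans ?_
        calc _ ≤ (N:ℝ) * (1 / (8 * M * N)) := by gcongr; exact min_le_right _ _
          _ = _ := by field_simp
      have a1 := abs_le.mp (kk N le_rfl)
      have a2 := abs_le.mp (kk (R * w) (by rw [hN]; gcongr; omega))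
      have a3 := G2 z hx.2.1
      rw [← div_le_iff₀' M0'] at a3
      have : 1 / (4 * M : ℝ) = 1 / 2 / M - 1 / (8 * M) - 1 / (8 * M) := by field_simp; ring
      simp only
      linarith

theorem exists_bad : ∃ μ, Prob μ ∧ (∀ y, μ (-y) = μ y) ∧ 1 / 2 ≤ μ 0 ∧ 0 < μ 1 ∧ ∀ R, Bad R μ := by
  choose! F hF1 hF2 using stage
  let s0 : St := ⟨fun y => (if y = 0 then 1 else 0) * (3 / 4) +
    ((if y = 1 then 1 else 0) * (1 / 8) + (if y = -1 then 1 else 0) * (1 / 8)), 1, 1 / 4⟩
  let s : ℕ → St := fun k => Nat.rec s0 F k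
  have inv : ∀ k, Inv (s k) := by
    intro k
    induction k with
    | zero =>
      refine ⟨⟨fun y => ?_, ?_⟩, fun y => ?_, fun y hy => ?_, ?_, ?_, ?_, ?_⟩ <;> simp only [s, s0, Nat.rec_zero]
      · split_ifs <;> positivity
      · have := (hs1 (fun _ => 3 / 4) 0).add ((hs1 (fun _ => 1 / 8) 1).add (hs1 (fun _ => 1 / 8) (-1)))
        rwa [show (3 / 4 + (1 / 8 + 1 / 8) : ℝ) = 1 by norm_num] at this
      · simp only [neg_eq_zero, neg_inj, neg_eq_iff_eq_neg (a := y), neg_neg, add_comm, neg_zero]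
      · simp only [s, s0, Nat.rec_zero] at hy
        rw [if_neg, if_neg, if_neg] <;> first | simp | (rintro rfl; simp at hy)
      all_goals norm_num
    | succ k ih => exact hF1 k _ ih
  have rel : ∀ k, Rel k (s k) (s (k + 1)) := fun k => hF2 k _ (inv k)
  have geo : ∀ k, (s k).ε ≤ (1 / 2) ^ k := by
    intro k
    induction k with
    | zero => simp only [s, s0, Nat.rec_zero]; norm_num
    | succ k ih => rw [pow_succ]; linarith [(rel k).2.1]
  have ε0 : ∀ k, 0 < (s k).ε := fun k => (inv k).2.2.2.2.1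
  have cau : ∀ y, CauchySeq fun k => (s k).μ y := fun y =>
    cauchySeq_of_le_geometric (1 / 2) 1 (by norm_num) fun k => by
      have := (rel k).1 {y}
      rw [sum_singleton] at this
      rw [Real.dist_eq, abs_sub_comm]; linarith [geo k, ε0 k]
  choose μ hμ using fun y => cauchySeq_tendsto_of_complete (cau y)
  have d1 : ∀ (U : Finset ℤ) k l, k ≤ l → ∑ y ∈ U, |(s l).μ y - (s k).μ y| ≤ (s k).ε - (s l).ε := by
    intro U k l hkl
    induction l, hkl using Nat.le_induction with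
    | base => simp
    | succ l hl ih =>
      have := sum_le_sum fun y (_ : y ∈ U) => abs_sub_le ((s (l + 1)).μ y) ((s l).μ y) ((s k).μ y)
      rw [sum_add_distrib] at this
      linarith [(rel l).1 U, (rel l).2.1]
  have d2 : ∀ k (U : Finset ℤ), ∑ y ∈ U, |μ y - (s k).μ y| ≤ (s k).ε := fun k U =>
    le_of_tendsto (tendsto_finsetSum U fun y _ => ((hμ y).sub_const _).abs)
      ((eventually_ge_atTop k).mono fun l hl => by linarith [d1 U k l hl, ε0 l])
  have sa : ∀ k, Summable fun y => μ y - (s k).μ y := fun k =>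
    (summable_of_sum_le (fun y => abs_nonneg _) (d2 k)).of_abs
  have P : Prob μ := by
    refine ⟨fun y => ge_of_tendsto' (hμ y) fun k => (inv k).1.1 y, ?_⟩
    have sμ : Summable μ := by simpa using (sa 0).add (inv 0).1.2.summable
    have : |∑' y, μ y - 1| ≤ 0 := ge_of_tendsto'
      (tendsto_pow_atTop_nhds_zero_of_lt_one (r := (1 / 2 : ℝ)) (by norm_num) (by norm_num)) fun k => by
        rw [← (sμ.hasSum.sub (inv k).1.2).tsum_eq, ← Real.norm_eq_abs]
        exact (tsum_of_norm_bounded (sa k).abs.hasSum fun _ => le_rfl).trans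
          (((sa k).abs.tsum_le_of_sum_le (d2 k)).trans (geo k))
    rw [← sub_eq_zero.mp (abs_nonpos_iff.mp this)]
    exact sμ.hasSum
  refine ⟨μ, P, fun y => tendsto_nhds_unique (hμ (-y)) (by simpa only [(inv _).2.1 y] using hμ y),
    ge_of_tendsto' (hμ 0) fun k => by linarith [(inv k).2.2.2.2.2.1, ε0 k],
    lt_of_lt_of_le (by norm_num) (ge_of_tendsto' (hμ 1) fun k => (inv k).2.2.2.2.2.2),
    fun R => (rel R).2.2 μ P (d2 (R + 1))⟩

lemma fourier {μ : ℤ → ℝ} (h : Prob μ) (h1 : ∀ y, μ (-y) = μ y) (h2 : 1 / 2 ≤ μ 0) (h3 : 0 < μ 1) (t : ℝ)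
    (t0 : 0 < |t|) (t1 : |t| ≤ π) : ∃ x : ℝ, 0 ≤ x ∧ x < 1 ∧
    ∑' k : ℤ, (μ k : ℂ) * Complex.exp (((t * (k : ℝ) : ℝ) : ℂ) * Complex.I) = x := by
  have sc : Summable fun k : ℤ => μ k * cos (t * k) := sm h fun k => abs_cos_le_one _
  have ss : Summable fun k : ℤ => μ k * sin (t * k) := sm h fun k => abs_sin_le_one _
  have s0 : ∑' k : ℤ, μ k * sin (t * k) = 0 := by
    have := (Equiv.neg ℤ).tsum_eq fun k : ℤ => μ k * sin (t * k)
    simp only [Equiv.neg_apply, h1, Int.cast_neg, mul_neg, sin_neg, tsum_neg] at this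
    linarith
  refine ⟨∑' k : ℤ, μ k * cos (t * k), ?_, ?_, ?_⟩
  · have := le_hasSum (h.2.add sc.hasSum) 0 fun j _ => by nlinarith [h.1 j, neg_one_le_cos (t * j)]
    simp at this; linarith
  · have := le_hasSum (h.2.sub sc.hasSum) 1 fun j _ => by nlinarith [h.1 j, cos_le_one (t * j)]
    have c : cos t < 1 := by
      rw [← cos_abs, ← cos_zero]; exact cos_lt_cos_of_nonneg_of_le_pi le_rfl t1 t0
    simp only [Int.cast_one, mul_one] at this; nlinarith
  · have := (Complex.hasSum_ofReal.mpr sc.hasSum).add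
      ((Complex.hasSum_ofReal.mpr ss.hasSum).mul_right Complex.I)
    rw [s0, Complex.ofReal_zero, zero_mul, add_zero] at this
    rw [← this.tsum_eq]
    congr 1; ext k
    rw [Complex.exp_mul_I]; push_cast; ring

lemma conv {μ : ℤ → ℝ} (h : Prob μ) (F : Finset ℤ) (n : ℕ) (k : ℤ) :
    HasSum (fun j => (T μ)^[n] (fun m => if m = 0 then 1 else 0) j * ind F (k - j)) ((T μ)^[n] (ind F) k) := by
  have e : ∀ x, ind F x = ∑ a ∈ F, if x - a = 0 then 1 else 0 := fun x => by simp [ind, sub_eq_zero]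
  have b := it_bd (g := fun m => if m = 0 then 1 else 0) h fun x => by split_ifs <;> simp
  have a1 : ∀ n k, (T μ)^[n] (ind F) k = ∑ a ∈ F, (T μ)^[n] (fun m => if m = 0 then 1 else 0) (k - a) := by
    intro n
    induction n with
    | zero => exact e
    | succ n ih =>
      intro k
      simp only [Function.iterate_succ_apply', T, ih, mul_sum]
      rw [Summable.tsum_finsetSum fun a _ => sm h fun _ => b n _]
      simp only [sub_right_comm]
  simp only [a1, e, mul_sum]
  refine hasSum_sum fun a _ => ?_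
  have := hs1 ((T μ)^[n] fun m => if m = 0 then 1 else 0) (k - a)
  simp only [show ∀ j, k - j - a = 0 ↔ j = k - a from fun j => by omega, mul_comm ((T μ)^[n] _ _)]
  exact this

theorem main :
    ¬ (∀ μ : ℤ → ℝ, (∀ k, 0 ≤ μ k) → HasSum μ 1 →
      (∀ t : ℝ, 0 < |t| → |t| ≤ Real.pi →
        ‖∑' k : ℤ, (μ k : ℂ) * Complex.exp (((t * (k : ℝ) : ℝ) : ℂ) * Complex.I)‖ < 1) →
      (∃ C : ℝ, ∀ t : ℝ, 0 < |t| → |t| ≤ Real.pi →
        ‖1 - ∑' k : ℤ, (μ k : ℂ) * Complex.exp (((t * (k : ℝ) : ℝ) : ℂ) * Complex.I)‖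
          ≤ C * (1 - ‖∑' k : ℤ, (μ k : ℂ) * Complex.exp (((t * (k : ℝ) : ℝ) : ℂ) * Complex.I)‖)) →
      ∃ A : ℝ, 0 < A ∧ ∀ f : ℤ → ℝ, Summable (fun k => |f k|) → ∀ lam : ℝ, 0 < lam →
        MeasureTheory.Measure.count
          {k : ℤ | ENNReal.ofReal (lam ^ 2) <
            ∑' n : ℕ, ENNReal.ofReal (((n : ℝ) + 1) *
              (∑' j : ℤ,
                (Nat.iterate (fun g : ℤ → ℝ => fun m => ∑' i : ℤ, μ i * g (m - i)) (n + 1)
                    (fun m => if m = 0 then (1 : ℝ) else 0) j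
                  - Nat.iterate (fun g : ℤ → ℝ => fun m => ∑' i : ℤ, μ i * g (m - i)) (n + 2)
                    (fun m => if m = 0 then (1 : ℝ) else 0) j) * f (k - j)) ^ 2)}
          ≤ ENNReal.ofReal (A * (∑' k : ℤ, |f k|) / lam)) := by
  intro H
  obtain ⟨μ, P, h1, h2, h3, h4⟩ := exists_bad
  obtain ⟨A, A0, hA⟩ := H μ P.1 P.2 (fun t t0 t1 => by
      obtain ⟨x, x0, x1, e⟩ := fourier P h1 h2 h3 t t0 t1
      rwa [e, Complex.norm_real, Real.norm_of_nonneg x0]) ⟨1, fun t t0 t1 => by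
      obtain ⟨x, x0, x1, e⟩ := fourier P h1 h2 h3 t t0 t1
      rw [e, ← Complex.ofReal_one, ← Complex.ofReal_sub, Complex.norm_real, Complex.norm_real,
        Real.norm_of_nonneg x0, Real.norm_of_nonneg (by linarith), one_mul]⟩
  obtain ⟨ρ, hρ⟩ := exists_nat_gt (64 * A)
  have ρ0 : (0:ℝ) < ρ := by linarith
  obtain ⟨F, K, M, w, w0, M0, K0, b1, b2⟩ := h4 (ρ ^ 2)
  have M0' : (0:ℝ) < M := by exact_mod_cast M0
  have w0' : (0:ℝ) < w := by exact_mod_cast w0
  have K0' : (0:ℝ) < #K := by exact_mod_cast K0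
  have hF : HasSum (fun k => |ind F k|) #F := by
    have := hasSum_sum_of_ne_finset_zero (f := fun k => |ind F k|) (s := F) (L := .unconditional _)
      fun b hb => by simp [ind, hb]
    rwa [sum_congr rfl (g := fun _ => 1) fun b hb => by simp [ind, hb], sum_const, nsmul_eq_mul, mul_one] at this
  have := hA (ind F) hF.summable (ρ / (8 * M)) (by positivity)
  rw [hF.tsum_eq] at this
  refine absurd ((MeasureTheory.measure_mono (s := (K : Set ℤ)) fun k hk => ?_).trans this) ?_
  · obtain ⟨a, ha⟩ : ∃ a, ρ ^ 2 * w = a + 1 := ⟨ρ ^ 2 * w - 1, by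
      have : 0 < ρ := by exact_mod_cast ρ0
      have : 0 < ρ ^ 2 * w := by positivity
      omega⟩
    have e : ∀ n, ∑' j : ℤ, ((T μ)^[n + 1] (fun m => if m = 0 then (1 : ℝ) else 0) j -
        (T μ)^[n + 2] (fun m => if m = 0 then (1 : ℝ) else 0) j) * ind F (k - j) =
        (T μ)^[n + 1] (ind F) k - (T μ)^[n + 2] (ind F) k := fun n => by
      simp only [sub_mul]
      exact ((conv P F _ k).sub (conv P F _ k)).tsum_eq
    show _ < ∑' n : ℕ, ENNReal.ofReal (((n : ℝ) + 1) * (∑' j : ℤ,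
      ((T μ)^[n + 1] (fun m => if m = 0 then (1 : ℝ) else 0) j -
        (T μ)^[n + 2] (fun m => if m = 0 then (1 : ℝ) else 0) j) * ind F (k - j)) ^ 2)
    simp only [e]
    refine lt_of_lt_of_le ?_ (ENNReal.sum_le_tsum (Ico a (a + w)))
    rw [← ENNReal.ofReal_sum_of_nonneg fun _ _ => by positivity]
    refine (ENNReal.ofReal_lt_ofReal_iff_of_nonneg (by positivity)).mpr ?_
    have c1 := b2 k hk
    set u := fun n => (T μ)^[n + 1] (ind F) k
    have c2 := sq_sum_le_card_mul_sum_sq (s := Ico a (a + w)) (f := fun n => u (n + 1) - u n)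
    rw [sum_Ico_sub _ (by omega), Nat.card_Ico, add_tsub_cancel_left] at c2
    rw [add_mul, one_mul, ha, add_right_comm] at c1
    have c3 : (1 / (4 * M : ℝ)) ^ 2 ≤ (u (a + w) - u a) ^ 2 := by gcongr
    calc _ < (ρ:ℝ) ^ 2 * (1 / (4 * M : ℝ)) ^ 2 := by
          rw [div_pow, div_pow, one_pow, mul_one_div]; gcongr; norm_num
      _ ≤ (ρ ^ 2 * w : ℕ) * ∑ n ∈ Ico a (a + w), (u (n + 1) - u n) ^ 2 := by
          push_cast; rw [mul_assoc]; gcongr; exact c3.trans c2
      _ ≤ _ := by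
          rw [mul_sum, ha]
          refine sum_le_sum fun n hn => ?_
          have := (mem_Ico.mp hn).1
          rw [← neg_sub (u n), neg_sq]
          push_cast; gcongr
  · rw [MeasureTheory.Measure.count_apply_finset, ← ENNReal.ofReal_natCast, not_le]
    refine (ENNReal.ofReal_lt_ofReal_iff K0').mpr ?_
    rw [div_lt_iff₀ (by positivity), ← mul_div_assoc, lt_div_iff₀ (by positivity)]
    nlinarith

end Pool.Agent.H92.Cutoff
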