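import Pool.Agent.H92.Area3

set_option autoImplicit false
open MeasureTheory Set Metric Filter Topology
open scoped ContDiff

namespace H92.Area

abbrev Mat := Matrix (Fin 2) (Fin 2) ℝ

lemma nsq (v : E) : ‖v‖ ^ 2 = v 0 ^ 2 + v 1 ^ 2 := by
  rw [EuclideanSpace.norm_sq_eq, Fin.sum_univ_two]; simp

lemma col_le (A : Mat) (j : Fin 2) : A 0 j ^ 2 + A 1 j ^ 2 ≤ ‖clm A‖ ^ 2 := by
  have h := (clm A).le_opNorm (EuclideanSpace.single j (1:ℝ))
  rw [PiLp.norm_single, norm_one, mul_one] at h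
  have h2 := pow_le_pow_left₀ (norm_nonneg _) h 2
  rw [nsq, clm_apply, clm_apply] at h2
  fin_cases j <;> simpa using h2

lemma op_le (A : Mat) {c : ℝ} (hc : 0 ≤ c) (h : ∀ a b : ℝ,
    (A 0 0 * a + A 0 1 * b) ^ 2 + (A 1 0 * a + A 1 1 * b) ^ 2 ≤ c * (a ^ 2 + b ^ 2)) :
    ‖clm A‖ ^ 2 ≤ c := by
  have : ‖clm A‖ ≤ √c := (clm A).opNorm_le_bound (Real.sqrt_nonneg _) fun v => by
    refine le_of_sq_le_sq ?_ (by positivity)
    rw [mul_pow, Real.sq_sqrt hc, nsq, nsq, clm_apply, clm_apply]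
    exact h _ _
  have h2 := pow_le_pow_left₀ (norm_nonneg _) this 2
  rwa [Real.sq_sqrt hc] at h2

noncomputable def KI (A : Mat) : ℝ := if 0 < A.det then ‖clm A.adjugate‖ ^ 2 / A.det ^ (2 - 1) else 1

/-- pointwise facts on the inner distortion -/
lemma KI_facts (A : Mat) (h0 : 0 ≤ A.det) {K : ℝ} (hK : ‖clm A‖ ^ 2 ≤ K * A.det) :
    1 ≤ KI A ∧ A 0 0 ^ 2 + A 0 1 ^ 2 ≤ KI A * A.det := by
  unfold KI
  split_ifs with h
  · have c0 := col_le A.adjugate 0
    have c1 := col_le A.adjugate 1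
    rw [Matrix.adjugate_fin_two] at c0 c1
    simp at c0 c1
    rw [← Matrix.adjugate_fin_two] at c0 c1
    set N := ‖clm A.adjugate‖ ^ 2
    simp only [Nat.add_one_sub_one, pow_one]
    refine ⟨?_, by rw [div_mul_cancel₀ _ h.ne']; linarith⟩
    rw [le_div_iff₀ h, one_mul, Matrix.det_fin_two]
    nlinarith [sq_nonneg (A 0 0 - A 1 1), sq_nonneg (A 0 1 + A 1 0)]
  · have h1 : A.det = 0 := le_antisymm (not_lt.1 h) h0
    rw [h1, mul_zero] at hK
    have c0 := col_le A 0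
    have c1 := col_le A 1
    refine ⟨le_rfl, ?_⟩
    rw [h1]; nlinarith [sq_nonneg (A 1 0), sq_nonneg (A 1 1)]

lemma point_ineq {K J a b x y : ℝ} (hK : 1 ≤ K) (hJ : 0 ≤ J) (h : a ^ 2 + b ^ 2 ≤ K * J)
    (hs : 0 < x ^ 2 + y ^ 2) :
    (max 1 (1 / (x ^ 2 + y ^ 2))) ^ 2 + 2 * (2 * (a * (x / (x ^ 2 + y ^ 2)) +
      b * (y / (x ^ 2 + y ^ 2))) - J) - 2 * (max 1 (1 / (x ^ 2 + y ^ 2)) / (x ^ 2 + y ^ 2)) ≤ K ^ 2 := by
  set s := x ^ 2 + y ^ 2 with hsd
  set t := 1 / s with ht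
  have t0 : 0 < t := by positivity
  set q := a * (x / s) + b * (y / s) with hq
  have q1 : q ^ 2 ≤ (a ^ 2 + b ^ 2) * t := by
    have e : (a ^ 2 + b ^ 2) * t - q ^ 2 = ((a * y - b * x) / s) ^ 2 := by
      rw [hq, ht]; field_simp; rw [hsd]; ring
    nlinarith [sq_nonneg ((a * y - b * x) / s)]
  have q2 : 2 * q - J ≤ K * t := by
    have : q ^ 2 ≤ (K * t) * J := by nlinarith
    have k0 : 0 < K * t := by positivity
    by_contra hh
    push Not at hh
    nlinarith [sq_nonneg (K * t - J)]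
  have e2 : max 1 t / s = max 1 t * t := by rw [ht]; ring
  rw [e2]
  rcases le_total t 1 with h1 | h1
  · rw [max_eq_left h1]; nlinarith
  · rw [max_eq_right h1]; nlinarith [sq_nonneg (K - t)]

lemma ent_le {K J a b : ℝ} (hK : 1 ≤ K) (hJ : 0 ≤ J) (h : a ^ 2 + b ^ 2 ≤ K * J) :
    |a| ≤ K ^ 2 + J ∧ |b| ≤ K ^ 2 + J := by
  constructor <;> refine abs_le_of_sq_le_sq' ?_ (by positivity) |> abs_le.2 <;>
    nlinarith [sq_nonneg a, sq_nonneg b, mul_nonneg hJ (by linarith : 0 ≤ K - 1), sq_nonneg J,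
      mul_nonneg (mul_nonneg hJ (by linarith : 0 ≤ K - 1)) (by linarith : 0 ≤ K), sq_nonneg (K^2),
      mul_nonneg hJ (sq_nonneg K)]

noncomputable def tau (t : ℝ) : ℝ := max 1 (1 / max t (1 / 8)) / (2 * max t (1 / 8))
noncomputable def T (s : ℝ) : ℝ := ∫ t in (1:ℝ)..s, tau t

lemma mx_pos (t : ℝ) : 0 < max t (1 / 8) := lt_max_of_lt_right (by norm_num)
lemma tau_pos (t : ℝ) : 0 < tau t := by
  have := mx_pos t
  unfold tau; positivity
lemma tau_cont : Continuous tau := by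
  have h : Continuous fun t : ℝ => max t (1 / 8) := by fun_prop
  exact (continuous_const.max (continuous_const.div h fun t => (mx_pos t).ne')).div
    (continuous_const.mul h) fun t => by have := mx_pos t; positivity
lemma T_deriv (s : ℝ) : HasDerivAt T (tau s) s := (tau_cont.integral_hasStrictDerivAt 1 s).hasDerivAt
lemma T_inj : Function.Injective T :=
  (strictMono_of_hasDerivAt_pos T_deriv tau_pos).injective
lemma tau_eq {s : ℝ} (hs : 1 / 8 ≤ s) : tau s = max 1 (1 / s) / (2 * s) := by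
  unfold tau; rw [max_eq_left hs]

noncomputable def cc : E := EuclideanSpace.single 0 1
noncomputable def f0 (x : E) : E := !₂[T (x 0 ^ 2 + x 1 ^ 2), Real.arctan (x 1 / x 0)]
noncomputable def K0 (x : E) : ℝ := max 1 (1 / (x 0 ^ 2 + x 1 ^ 2))
noncomputable def D0 (x : E) : Mat :=
  !![K0 x * (x 0 / (x 0 ^ 2 + x 1 ^ 2)), K0 x * (x 1 / (x 0 ^ 2 + x 1 ^ 2));
     -(x 1 / (x 0 ^ 2 + x 1 ^ 2)), x 0 / (x 0 ^ 2 + x 1 ^ 2)]

lemma half {x : E} (hx : x ∈ closedBall cc (1 / 2)) : 1 / 2 ≤ x 0 := by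
  rw [mem_closedBall, dist_eq_norm] at hx
  have := (PiLp.norm_apply_le (x - cc) 0).trans hx
  rw [Real.norm_eq_abs, abs_le] at this
  have h := this.1
  simp [cc] at h
  linarith

lemma f0_fd {x : E} (hx : 1 / 2 ≤ x 0) : HasFDerivAt f0 (clm (D0 x)) x := by
  have p0 : HasFDerivAt (fun x : E => x 0) _ x := (EuclideanSpace.proj 0 : E →L[ℝ] ℝ).hasFDerivAt
  have p1 : HasFDerivAt (fun x : E => x 1) _ x := (EuclideanSpace.proj 1 : E →L[ℝ] ℝ).hasFDerivAt
  have x0 : x 0 ≠ 0 := by linarith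
  have s0 : 1 / 8 ≤ x 0 ^ 2 + x 1 ^ 2 := by nlinarith [sq_nonneg (x 1)]
  have s1 : x 0 ^ 2 + x 1 ^ 2 ≠ 0 := by linarith
  rw [← hasFDerivWithinAt_univ, hasFDerivWithinAt_euclidean]
  intro i
  rw [hasFDerivWithinAt_univ]
  fin_cases i
  · have := (T_deriv (x 0 ^ 2 + x 1 ^ 2)).comp_hasFDerivAt x ((p0.pow 2).add (p1.pow 2))
    refine HasFDerivAt.congr_fderiv this ?_
    ext v
    simp [clm_apply, D0, tau_eq s0, K0]
    field_simp
  · have q : HasFDerivAt (fun x : E => x 1 * (x 0)⁻¹) _ x :=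
      p1.mul ((hasDerivAt_inv x0).comp_hasFDerivAt x p0)
    have := (Real.hasDerivAt_arctan (x 1 * (x 0)⁻¹)).comp_hasFDerivAt x q
    refine HasFDerivAt.congr_fderiv this ?_
    ext v
    simp [clm_apply, D0]
    field_simp

lemma s_pos {x : E} (hx : x ∈ closedBall cc (1 / 2)) : 0 < x 0 ^ 2 + x 1 ^ 2 := by
  have := half hx; positivity

lemma f0_cont : ContinuousOn f0 (closedBall cc (1 / 2)) := fun x hx =>
  (f0_fd (half hx)).continuousAt.continuousWithinAt

lemma f0_inj : InjOn f0 (closedBall cc (1 / 2)) := by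
  intro x hx y hy h
  have h0 : T (x 0 ^ 2 + x 1 ^ 2) = T (y 0 ^ 2 + y 1 ^ 2) := by simpa [f0] using congr($h 0)
  have h1 : Real.arctan (x 1 / x 0) = Real.arctan (y 1 / y 0) := by simpa [f0] using congr($h 1)
  have a := T_inj h0
  have b := Real.arctan_injective h1
  have hx0 := half hx
  have hy0 := half hy
  set m := y 1 / y 0 with hm
  have e1 : x 1 = m * x 0 := by rw [← b]; field_simp
  have e2 : y 1 = m * y 0 := by rw [hm]; field_simp
  have e3 : x 0 = y 0 := by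
    rw [e1, e2] at a
    have : (1 + m ^ 2) * (x 0 ^ 2 - y 0 ^ 2) = 0 := by linarith
    have h2 : x 0 ^ 2 = y 0 ^ 2 := by
      rcases mul_eq_zero.1 this with h | h
      · nlinarith [sq_nonneg m]
      · linarith
    exact (pow_left_inj₀ (by linarith) (by linarith) two_ne_zero).1 h2
  ext i; fin_cases i
  · exact e3
  · simp only [Fin.mk_one]; rw [e1, e2, e3]

lemma V_sm (j : Fin 2) {x : E} (hx : x ∈ closedBall cc (1 / 2)) :
    ContDiffAt ℝ ∞ (fun x : E => x j / (x 0 ^ 2 + x 1 ^ 2)) x := by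
  have p : ∀ j : Fin 2, ContDiffAt ℝ ∞ (fun x : E => x j) x := fun j =>
    (EuclideanSpace.proj j : E →L[ℝ] ℝ).contDiff.contDiffAt
  exact (p j).div (((p 0).pow 2).add ((p 1).pow 2)) (s_pos hx).ne'

lemma V_div {x : E} (hx : x ∈ closedBall cc (1 / 2)) :
    fderiv ℝ (fun x : E => x 0 / (x 0 ^ 2 + x 1 ^ 2)) x (EuclideanSpace.single 0 (1:ℝ)) +
      fderiv ℝ (fun x : E => x 1 / (x 0 ^ 2 + x 1 ^ 2)) x (EuclideanSpace.single 1 (1:ℝ)) = 0 := by
  have p0 : HasFDerivAt (fun x : E => x 0) _ x := (EuclideanSpace.proj 0 : E →L[ℝ] ℝ).hasFDerivAt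
  have p1 : HasFDerivAt (fun x : E => x 1) _ x := (EuclideanSpace.proj 1 : E →L[ℝ] ℝ).hasFDerivAt
  have s1 := (s_pos hx).ne'
  have q : HasFDerivAt (fun x : E => (x 0 ^ 2 + x 1 ^ 2)⁻¹) _ x :=
    (hasDerivAt_inv s1).comp_hasFDerivAt x ((p0.pow 2).add (p1.pow 2))
  have a0 : HasFDerivAt (fun x : E => x 0 / (x 0 ^ 2 + x 1 ^ 2)) _ x := p0.mul q
  have a1 : HasFDerivAt (fun x : E => x 1 / (x 0 ^ 2 + x 1 ^ 2)) _ x := p1.mul q
  rw [a0.fderiv, a1.fderiv]
  simp
  field_simp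
  ring

lemma K0_cont : ContinuousOn K0 (closedBall cc (1 / 2)) :=
  continuous_max.comp_continuousOn (continuousOn_const.prodMk (continuousOn_const.div
    (Continuous.continuousOn (by fun_prop)) fun x hx => (s_pos hx).ne'))

lemma D0_cont (i j : Fin 2) : ContinuousOn (fun x => D0 x i j) (closedBall cc (1 / 2)) := by
  have v : ∀ j : Fin 2, ContinuousOn (fun x : E => x j / (x 0 ^ 2 + x 1 ^ 2)) (closedBall cc (1 / 2)) :=
    fun j x hx => (V_sm j hx).continuousAt.continuousWithinAt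
  fin_cases i <;> fin_cases j
  · exact K0_cont.mul (v 0)
  · exact K0_cont.mul (v 1)
  · exact (v 1).neg
  · exact v 0

lemma D0_det {x : E} (hx : x ∈ closedBall cc (1 / 2)) :
    (D0 x).det = K0 x / (x 0 ^ 2 + x 1 ^ 2) := by
  have s1 := (s_pos hx).ne'
  rw [Matrix.det_fin_two]; simp [D0]; field_simp

lemma K0_ge (x : E) : 1 ≤ K0 x := le_max_left _ _

lemma D0_op {x : E} (hx : x ∈ closedBall cc (1 / 2)) :
    ‖clm (D0 x)‖ ^ 2 ≤ K0 x ^ 2 / (x 0 ^ 2 + x 1 ^ 2) ∧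
    ‖clm (D0 x).adjugate‖ ^ 2 ≤ K0 x ^ 2 / (x 0 ^ 2 + x 1 ^ 2) := by
  have s1 := s_pos hx
  have k1 : 0 ≤ K0 x ^ 2 - 1 := by nlinarith [K0_ge x]
  constructor
  · refine op_le _ (by positivity) fun a b => ?_
    have e : K0 x ^ 2 / (x 0 ^ 2 + x 1 ^ 2) * (a ^ 2 + b ^ 2) -
        ((D0 x 0 0 * a + D0 x 0 1 * b) ^ 2 + (D0 x 1 0 * a + D0 x 1 1 * b) ^ 2) =
        (K0 x ^ 2 - 1) * ((x 0 * b - x 1 * a) / (x 0 ^ 2 + x 1 ^ 2)) ^ 2 := by
      simp [D0]; field_simp; ring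
    nlinarith [mul_nonneg k1 (sq_nonneg ((x 0 * b - x 1 * a) / (x 0 ^ 2 + x 1 ^ 2)))]
  · refine op_le _ (by positivity) fun a b => ?_
    have e : K0 x ^ 2 / (x 0 ^ 2 + x 1 ^ 2) * (a ^ 2 + b ^ 2) -
        (((D0 x).adjugate 0 0 * a + (D0 x).adjugate 0 1 * b) ^ 2 +
          ((D0 x).adjugate 1 0 * a + (D0 x).adjugate 1 1 * b) ^ 2) =
        (K0 x ^ 2 - 1) * (a ^ 2 / (x 0 ^ 2 + x 1 ^ 2)) := by
      rw [Matrix.adjugate_fin_two]; simp [D0]; field_simp; ring
    nlinarith [mul_nonneg k1 (show 0 ≤ a ^ 2 / (x 0 ^ 2 + x 1 ^ 2) by positivity)]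

lemma KI_D0 {x : E} (hx : x ∈ closedBall cc (1 / 2)) : 0 ≤ KI (D0 x) ∧ KI (D0 x) ≤ K0 x := by
  have s1 := s_pos hx
  have k1 := K0_ge x
  have d : 0 < (D0 x).det := by rw [D0_det hx]; positivity
  unfold KI
  rw [if_pos d]
  refine ⟨by positivity, ?_⟩
  simp only [Nat.add_one_sub_one, pow_one]
  rw [div_le_iff₀ d, D0_det hx]
  exact (D0_op hx).2.trans (le_of_eq (by ring))

lemma f0_weak (i : Fin 2) : WeakS (ball cc (1 / 2)) (fun x => f0 x i) (fun j x => D0 x i j) := by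
  intro φ h1 h2 h3 j
  have hc1 : ContDiff ℝ 1 φ := h1.of_le (by simp)
  have hf : ∀ x ∈ ball cc (1 / 2), HasFDerivAt (fun x => f0 x i)
      ((EuclideanSpace.proj i : E →L[ℝ] ℝ).comp (clm (D0 x))) x := fun x hx =>
    (EuclideanSpace.proj i : E →L[ℝ] ℝ).hasFDerivAt.comp x (f0_fd (half (ball_subset_closedBall hx)))
  have hD : ∀ x ∈ ball cc (1 / 2), fderiv ℝ (fun x => f0 x i) x (EuclideanSpace.single j (1:ℝ)) =
      D0 x i j := fun x hx => by
    rw [(hf x hx).fderiv]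
    change clm (D0 x) _ i = _
    rw [clm_apply]; fin_cases j <;> simp
  have hfc : ContinuousOn (fun x => f0 x i) (ball cc (1 / 2)) := fun x hx =>
    (hf x hx).continuousAt.continuousWithinAt
  have hDc : ContinuousOn (fun x => fderiv ℝ (fun x => f0 x i) x (EuclideanSpace.single j (1:ℝ)))
      (ball cc (1 / 2)) := ((D0_cont i j).mono ball_subset_closedBall).congr hD
  have I0 : ∀ (ψ G : E → ℝ), Continuous ψ → tsupport ψ ⊆ tsupport φ →
      ContinuousOn G (ball cc (1 / 2)) → Integrable (fun x => ψ x • G x) := by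
    intro ψ G a1 a2 a3
    have a4 : tsupport (fun x => ψ x • G x) ⊆ tsupport φ := (tsupport_smul_subset_left _ _).trans a2
    exact ((a1.continuousOn.smul a3).continuous_of_tsupport_subset isOpen_ball
      (a4.trans h3)).integrable_of_hasCompactSupport
      (IsCompact.of_isClosed_subset h2 (isClosed_tsupport _) a4)
  have key := integral_smul_fderiv_eq_neg_fderiv_smul_of_integrable (μ := volume) (𝕜 := ℝ)
    (f := φ) (g := fun x => f0 x i) (v := EuclideanSpace.single j (1:ℝ))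
    (I0 _ _ ((hc1.continuous_fderiv one_ne_zero).clm_apply continuous_const)
      (tsupport_fderiv_apply_subset ℝ _) hfc)
    (I0 _ _ h1.continuous subset_rfl hDc) (I0 _ _ h1.continuous subset_rfl hfc)
    (fun x _ => hc1.differentiable one_ne_zero x)
    (fun x hx => (hf x (h3 hx)).differentiableAt)
  have e : ∫ x in ball cc (1 / 2), D0 x i j * φ x = ∫ x in ball cc (1 / 2),
      φ x • fderiv ℝ (fun x => f0 x i) x (EuclideanSpace.single j (1:ℝ)) :=
    setIntegral_congr_fun measurableSet_ball fun x hx => by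
      simp only [hD x hx, smul_eq_mul, mul_comm]
  simp only
  rw [e, setIntegral_eq_integral_of_forall_compl_eq_zero (fun t ht => by
      rw [fderiv_of_notMem_tsupport ℝ (fun h => ht (h3 h))]; simp),
    setIntegral_eq_integral_of_forall_compl_eq_zero (fun t ht => by
      rw [image_eq_zero_of_notMem_tsupport (fun h => ht (h3 h))]; simp), key, neg_neg]
  simp only [smul_eq_mul, mul_comm]

lemma not_smooth : ¬ ContDiffOn ℝ ∞ f0 (ball cc (1 / 2)) := by
  intro h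
  have h1 : ContDiffAt ℝ ∞ f0 cc := h.contDiffAt (ball_mem_nhds _ (by norm_num))
  have h2 : ContDiffAt ℝ ∞ (fun t : ℝ => t • cc) 1 := (contDiff_id.smul contDiff_const).contDiffAt
  have h3 : ContDiffAt ℝ ∞ (fun t : ℝ => f0 (t • cc) 0) 1 :=
    (EuclideanSpace.proj 0 : E →L[ℝ] ℝ).contDiff.contDiffAt.comp 1
      (ContDiffAt.comp (g := f0) 1 (by simpa using h1) h2)
  have h4 : (fun t : ℝ => f0 (t • cc) 0) = fun t => T (t ^ 2) := by
    ext t; simp [f0, cc]
  rw [h4] at h3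
  have h5 : deriv (fun t : ℝ => T (t ^ 2)) = fun t => tau (t ^ 2) * (2 * t) := by
    ext t
    have := (T_deriv (t ^ 2)).comp t (hasDerivAt_pow 2 t)
    exact this.deriv.trans (by simp)
  have h6 : DifferentiableAt ℝ (deriv fun t : ℝ => T (t ^ 2)) 1 := by
    have : ContDiffAt ℝ 1 (fderiv ℝ fun t : ℝ => T (t ^ 2)) 1 := h3.fderiv_right (by norm_cast)
    exact ((this.differentiableAt one_ne_zero).clm_apply (differentiableAt_const (1:ℝ)))
  rw [h5] at h6
  have h7 := (h6.mul differentiableAt_id).hasDerivAt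
  set d := deriv ((fun t : ℝ => tau (t ^ 2) * (2 * t)) * id) 1
  have r1 : HasDerivWithinAt ((fun t : ℝ => tau (t ^ 2) * (2 * t)) * id) 0 (Ici 1) 1 := by
    refine (hasDerivWithinAt_const (1:ℝ) (Ici 1) (1:ℝ)).congr_of_mem (fun t ht => ?_) (by simp)
    have ht : 1 ≤ t := ht
    have : 1 ≤ t ^ 2 := one_le_pow₀ ht
    simp only [Pi.mul_apply, id]
    rw [tau_eq (by linarith), max_eq_left (by rw [div_le_one (by linarith)]; exact this)]
    field_simp
  have r2 : HasDerivWithinAt ((fun t : ℝ => tau (t ^ 2) * (2 * t)) * id) (-2) (Icc (1 / 2) 1) 1 := by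
    have : HasDerivAt (fun t : ℝ => (t ^ 2)⁻¹) (-2) 1 :=
      ((hasDerivAt_pow 2 (1:ℝ)).fun_inv (by norm_num)).congr_deriv (by norm_num)
    refine this.hasDerivWithinAt.congr_of_mem (fun t ht => ?_) (by norm_num)
    have t0 : 0 < t := by linarith [ht.1]
    have : t ^ 2 ≤ 1 := pow_le_one₀ t0.le ht.2
    simp only [Pi.mul_apply, id]
    rw [tau_eq (by nlinarith [ht.1]), max_eq_right (by rw [le_div_iff₀ (by positivity)]; linarith)]
    field_simp
  have u1 := (uniqueDiffOn_Ici (1:ℝ) 1 (by simp)).eq_deriv _ r1 h7.hasDerivWithinAt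
  have u2 := (uniqueDiffOn_Icc (show (1/2:ℝ) < 1 by norm_num) 1 (by norm_num)).eq_deriv _ r2
    h7.hasDerivWithinAt
  linarith

lemma minimal {h : E → E} {Dh : E → Mat} (hc : ContinuousOn h (closedBall cc (1 / 2)))
    (hi : InjOn h (closedBall cc (1 / 2)))
    (him : h '' closedBall cc (1 / 2) = f0 '' closedBall cc (1 / 2))
    (hb : ∀ x ∈ sphere cc (1 / 2), h x = f0 x)
    (hI : ∀ i j, LocallyIntegrableOn (fun x => Dh x i j) (ball cc (1 / 2)))
    (hw : ∀ i, WeakS (ball cc (1 / 2)) (fun x => h x i) (fun j x => Dh x i j))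
    (hJ : LocallyIntegrableOn (fun x => (Dh x).det) (ball cc (1 / 2)))
    (hp : ∀ᵐ x ∂(volume.restrict (ball cc (1 / 2))), 0 ≤ (Dh x).det) {K : E → ℝ}
    (hK : ∀ᵐ x ∂(volume.restrict (ball cc (1 / 2))), ‖clm (Dh x)‖ ^ 2 ≤ K x * (Dh x).det) :
    ∫⁻ x in ball cc (1 / 2), ENNReal.ofReal (KI (D0 x) ^ 2) ≤
      ∫⁻ x in ball cc (1 / 2), ENNReal.ofReal (KI (Dh x) ^ 2) := by
  set B := ball cc (1 / 2) with hB
  set Kc := closedBall cc (1 / 2) with hKc
  have hBm : MeasurableSet B := measurableSet_ball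
  have cK : IsCompact Kc := isCompact_closedBall _ _
  have sb : B ⊆ Kc := ball_subset_closedBall
  rcases eq_or_ne (∫⁻ x in B, ENNReal.ofReal (KI (Dh x) ^ 2)) ⊤ with hE | hE
  · rw [hE]; exact le_top
  have iC : ∀ {F : E → ℝ}, ContinuousOn F Kc → IntegrableOn F B := fun hF =>
    (hF.integrableOn_compact cK).mono_set sb
  have cJ0 : ContinuousOn (fun x => (D0 x).det) Kc := by
    simp only [Matrix.det_fin_two]
    exact ((D0_cont 0 0).mul (D0_cont 1 1)).sub ((D0_cont 0 1).mul (D0_cont 1 0))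
  have J0p : ∀ x ∈ B, 0 ≤ (D0 x).det := fun x hx => by
    have := s_pos (sb hx); have := K0_ge x
    rw [D0_det (sb hx)]; positivity
  -- images
  have im : h '' B ⊆ f0 '' B := by
    rintro _ ⟨x, hx, rfl⟩
    obtain ⟨y, hy, e⟩ : h x ∈ f0 '' Kc := him ▸ mem_image_of_mem h (sb hx)
    refine ⟨y, ?_, e⟩
    by_contra hn
    have hs : y ∈ sphere cc (1 / 2) := le_antisymm hy (not_lt.1 hn)
    have := hi hy (sb hx) ((hb y hs).trans e)
    exact hn (this ▸ hx)
  have a0 := lintegral_abs_det_fderiv_eq_addHaar_image volume hBm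
    (fun x hx => (f0_fd (half (sb hx))).hasFDerivWithinAt) (f0_inj.mono sb)
  simp only [clm_det] at a0
  have a1 := (area_ball (by norm_num) hc (hi.mono sb) hI hw hJ).trans ((measure_mono im).trans a0.ge)
  have a2 : ∫⁻ x in B, ENNReal.ofReal |(D0 x).det| = ENNReal.ofReal (∫ x in B, (D0 x).det) := by
    rw [ofReal_integral_eq_lintegral_ofReal (iC cJ0) ((ae_restrict_iff' hBm).2 (Eventually.of_forall J0p))]
    exact setLIntegral_congr_fun hBm fun x hx => by simp only [abs_of_nonneg (J0p x hx)]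
  have mJ : AEStronglyMeasurable (fun x => (Dh x).det) (volume.restrict B) := hJ.aestronglyMeasurable
  have iJ : IntegrableOn (fun x => (Dh x).det) B :=
    ⟨mJ, (hasFiniteIntegral_iff_norm _).2 (a1.trans_lt (a2 ▸ ENNReal.ofReal_lt_top))⟩
  have a3 : ∫ x in B, (Dh x).det ≤ ∫ x in B, (D0 x).det := by
    rw [a2] at a1
    have : ∫⁻ x in B, ENNReal.ofReal |(Dh x).det| = ENNReal.ofReal (∫ x in B, (Dh x).det) := by
      rw [ofReal_integral_eq_lintegral_ofReal iJ hp]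
      exact lintegral_congr_ae (by filter_upwards [hp] with x hx; rw [abs_of_nonneg hx])
    rw [this] at a1
    exact (ENNReal.ofReal_le_ofReal_iff (setIntegral_nonneg hBm J0p)).1 a1
  have fa : ∀ᵐ x ∂(volume.restrict B), 1 ≤ KI (Dh x) ∧
      Dh x 0 0 ^ 2 + Dh x 0 1 ^ 2 ≤ KI (Dh x) * (Dh x).det := by
    filter_upwards [hp, hK] with x h1 h2 using KI_facts _ h1 h2
  have iD : ∀ j, IntegrableOn (fun x => Dh x 0 j) B := by
    intro j
    refine ⟨(hI 0 j).aestronglyMeasurable, (hasFiniteIntegral_iff_norm _).2 ?_⟩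
    calc ∫⁻ x in B, ENNReal.ofReal ‖Dh x 0 j‖
        ≤ ∫⁻ x in B, (ENNReal.ofReal (KI (Dh x) ^ 2) + ENNReal.ofReal ‖(Dh x).det‖) := by
          refine lintegral_mono_ae ?_
          filter_upwards [fa, hp] with x h1 h2
          rw [← ENNReal.ofReal_add (sq_nonneg _) (norm_nonneg _)]
          refine ENNReal.ofReal_le_ofReal ?_
          have := ent_le h1.1 h2 h1.2
          rw [Real.norm_eq_abs, Real.norm_eq_abs, abs_of_nonneg h2]
          fin_cases j
          · exact this.1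
          · exact this.2
      _ < ⊤ := by
          rw [lintegral_add_right' _ mJ.norm.aemeasurable.ennreal_ofReal]
          exact ENNReal.add_lt_top.2 ⟨hE.lt_top, (hasFiniteIntegral_iff_norm _).1 iJ.2⟩
  set V : Fin 2 → E → ℝ := fun j x => x j / (x 0 ^ 2 + x 1 ^ 2) with hV
  have cV : ∀ j, ContinuousOn (V j) Kc := fun j x hx => (V_sm j hx).continuousAt.continuousWithinAt
  have c1 : ContinuousOn (fun x => h x 0) Kc :=
    (EuclideanSpace.proj 0 : E →L[ℝ] ℝ).continuous.comp_continuousOn hc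
  have c2 : ContinuousOn (fun x => f0 x 0) Kc :=
    (EuclideanSpace.proj 0 : E →L[ℝ] ℝ).continuous.comp_continuousOn f0_cont
  have fl := flux_zero (c := cc) (R := 1 / 2) (by norm_num) (η := fun x => h x 0 - f0 x 0) (c1.sub c2)
    (fun x hx => by simp only [hb x hx, sub_self]) (G := fun j x => Dh x 0 j - D0 x 0 j)
    (fun j => (iD j).sub (iC (D0_cont 0 j))) (fun φ h1 h2 h3 j => by
      have w1 := hw 0 φ h1 h2 h3 j
      have w2 := f0_weak 0 φ h1 h2 h3 j
      have cd : ContinuousOn (fun x => fderiv ℝ φ x (EuclideanSpace.single j (1:ℝ))) Kc :=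
        ((h1.continuous_fderiv (by simp)).clm_apply continuous_const).continuousOn
      simp only [sub_mul] at w1 w2 ⊢
      have z1 := integral_sub (iC (c1.fun_mul cd)) (iC (c2.fun_mul cd))
      have z2 := integral_sub
        ((iD j).mul_continuousOn_of_subset h1.continuous.continuousOn hBm cK sb)
        (iC ((D0_cont 0 j).fun_mul h1.continuous.continuousOn))
      rw [← hB] at w2 ⊢
      rw [z1, z2, w1, w2]
      ring) (V := V) (fun j x hx => V_sm j hx) (fun x hx => V_div (sb hx))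
  have iF : IntegrableOn (fun x => (Dh x 0 0 - D0 x 0 0) * V 0 x + (Dh x 0 1 - D0 x 0 1) * V 1 x) B :=
    (((iD 0).sub (iC (D0_cont 0 0))).mul_continuousOn_of_subset (cV 0) hBm cK sb).add
      (((iD 1).sub (iC (D0_cont 0 1))).mul_continuousOn_of_subset (cV 1) hBm cK sb)
  have iK : IntegrableOn (fun x => K0 x ^ 2) B := iC (K0_cont.pow 2)
  set G : E → ℝ := fun x => K0 x ^ 2 + 4 * ((Dh x 0 0 - D0 x 0 0) * V 0 x +
    (Dh x 0 1 - D0 x 0 1) * V 1 x) - 2 * ((Dh x).det - (D0 x).det) with hG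
  have i1 : IntegrableOn (fun x => K0 x ^ 2 + 4 * ((Dh x 0 0 - D0 x 0 0) * V 0 x +
    (Dh x 0 1 - D0 x 0 1) * V 1 x)) B := iK.add (iF.const_mul 4)
  have i2 : IntegrableOn (fun x => 2 * ((Dh x).det - (D0 x).det)) B := (iJ.sub (iC cJ0)).const_mul 2
  have iG : IntegrableOn G B := i1.sub i2
  have g1 : ∫ x in B, K0 x ^ 2 ≤ ∫ x in B, G x := by
    rw [hG, integral_sub i1 i2, integral_add iK (iF.const_mul 4), integral_const_mul, fl,
      integral_const_mul, integral_sub iJ (iC cJ0)]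
    linarith
  calc ∫⁻ x in B, ENNReal.ofReal (KI (D0 x) ^ 2) ≤ ∫⁻ x in B, ENNReal.ofReal (K0 x ^ 2) :=
        setLIntegral_mono' hBm fun x hx => ENNReal.ofReal_le_ofReal
          (pow_le_pow_left₀ (KI_D0 (sb hx)).1 (KI_D0 (sb hx)).2 2)
    _ = ENNReal.ofReal (∫ x in B, K0 x ^ 2) :=
        (ofReal_integral_eq_lintegral_ofReal iK (Eventually.of_forall fun x => sq_nonneg _)).symm
    _ ≤ ENNReal.ofReal (∫ x in B, max (G x) 0) :=
        ENNReal.ofReal_le_ofReal (g1.trans (integral_mono iG iG.pos_part fun x => le_max_left _ _))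
    _ = ∫⁻ x in B, ENNReal.ofReal (max (G x) 0) :=
        ofReal_integral_eq_lintegral_ofReal iG.pos_part (Eventually.of_forall fun x => le_max_right _ _)
    _ ≤ _ := by
        refine lintegral_mono_ae ?_
        filter_upwards [fa, hp, ae_restrict_mem hBm] with x h1 h2 hx
        refine ENNReal.ofReal_le_ofReal (max_le ?_ (sq_nonneg _))
        have s0 := s_pos (sb hx)
        refine le_of_eq_of_le ?_ (point_ineq h1.1 h2 h1.2 s0)
        simp only [hG, hV, D0_det (sb hx)]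
        rw [show max 1 (1 / (x 0 ^ 2 + x 1 ^ 2)) = K0 x from rfl]
        simp [D0]
        field_simp
        ring

end H92.Area
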