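import Mathlib

namespace Pool.Agent.H92.EU

open Set Filter Topology Real
open scoped NNReal

theorem loc {E : Type} [NormedAddCommGroup E] [NormedSpace ℝ E] [CompleteSpace E] (F : E → E)
    (K L : ℝ≥0) (hK : LipschitzWith K F) (hL : ∀ x, ‖F x‖ ≤ L) (x0 : E) (N : ℕ) :
    ∃ ψ : ℝ → E, ψ 0 = x0 ∧ ∀ t ∈ Ioo (-(N : ℝ)) N, HasDerivAt ψ (F (ψ t)) t := by
  have hN : (0 : ℝ) ≤ N := Nat.cast_nonneg N
  have h : IsPicardLindelof (fun _ => F) (tmin := -(N : ℝ)) (tmax := N) ⟨0, by simp⟩ x0 (L * N) 0 L K :=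
    ⟨fun t _ => hK.lipschitzOnWith, fun x _ => continuousOn_const, fun t _ x _ => hL x, by simp⟩
  obtain ⟨α, h1, h2⟩ := h.exists_eq_forall_mem_Icc_hasDerivWithinAt₀
  exact ⟨α, h1, fun t ht => (h2 t (Ioo_subset_Icc_self ht)).hasDerivAt (Icc_mem_nhds ht.1 ht.2)⟩

theorem glob {E : Type} [NormedAddCommGroup E] [NormedSpace ℝ E] [CompleteSpace E] (F : E → E)
    (K L : ℝ≥0) (hK : LipschitzWith K F) (hL : ∀ x, ‖F x‖ ≤ L) (x0 : E) :
    ∃ ψ : ℝ → E, ψ 0 = x0 ∧ ∀ t, HasDerivAt ψ (F (ψ t)) t := by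
  choose α h0 h1 using loc F K L hK hL x0
  have hu : ∀ N M : ℕ, 0 < N → N ≤ M → EqOn (α N) (α M) (Ioo (-(N : ℝ)) N) := by
    intro N M hN hNM
    have hN' : (0 : ℝ) < N := by exact_mod_cast hN
    have hNM' : (N : ℝ) ≤ M := by exact_mod_cast hNM
    refine ODE_solution_unique_of_mem_Ioo (v := fun _ => F) (K := K) (s := fun _ => univ) (t₀ := 0)
      (fun t _ => hK.lipschitzOnWith) ⟨by linarith, hN'⟩
      (fun t ht => ⟨h1 N t ht, trivial⟩)
      (fun t ht => ⟨h1 M t ⟨by linarith [ht.1], by linarith [ht.2]⟩, trivial⟩) (by rw [h0, h0])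
  have hm : ∀ t : ℝ, t ∈ Ioo (-((⌈|t|⌉₊ + 1 : ℕ) : ℝ)) ((⌈|t|⌉₊ + 1 : ℕ) : ℝ) := by
    intro t
    have := Nat.le_ceil |t|
    push_cast
    constructor <;> linarith [le_abs_self t, neg_abs_le t]
  have he : ∀ (N : ℕ), ∀ t ∈ Ioo (-(N : ℝ)) N, α (⌈|t|⌉₊ + 1) t = α N t := by
    intro N t ht
    have hN : 0 < N := by
      have : (0 : ℝ) < N := by linarith [ht.1, ht.2]
      exact_mod_cast this
    rcases le_total N (⌈|t|⌉₊ + 1) with h | h
    · exact (hu N _ hN h ht).symm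
    · exact hu _ N (Nat.succ_pos _) h (hm t)
  refine ⟨fun t => α (⌈|t|⌉₊ + 1) t, h0 _, fun t => ?_⟩
  refine (h1 _ t (hm t)).congr_of_eventuallyEq ?_
  filter_upwards [Ioo_mem_nhds (hm t).1 (hm t).2] with s hs using he _ s hs

lemma lin {f a : ℝ → ℝ} (ha : Continuous a) (hf : ∀ t, HasDerivAt f (a t * f t) t) (t : ℝ) :
    f t = f 0 * exp (∫ s in (0 : ℝ)..t, a s) := by
  have h : ∀ t, HasDerivAt (fun t => f t * exp (-∫ s in (0 : ℝ)..t, a s)) 0 t := fun t =>
    ((hf t).mul (ha.integral_hasStrictDerivAt 0 t).hasDerivAt.neg.exp).congr_deriv (by simp; ring)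
  have := is_const_of_deriv_eq_zero (fun t => (h t).differentiableAt) (fun t => (h t).deriv) t 0
  simp only [intervalIntegral.integral_same, neg_zero, exp_zero, mul_one] at this
  rw [← this, mul_assoc, ← exp_add]; simp

lemma sin_eq (x : ℝ) : sin x = sinc x * x := by
  by_cases h : x = 0
  · simp [h]
  · rw [sinc_of_ne_zero h]; field_simp

lemma sgn {f a : ℝ → ℝ} (ha : Continuous a) (hf : ∀ t, HasDerivAt f (a t * sin (f t)) t) (t : ℝ) :
    ∃ c, 0 < c ∧ f t = f 0 * c := by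
  have hc : Continuous f := continuous_iff_continuousAt.2 fun t => (hf t).continuousAt
  exact ⟨_, exp_pos _, lin (a := fun t => a t * sinc (f t)) (ha.mul (continuous_sinc.comp hc))
    (fun t => (hf t).congr_deriv (by rw [sin_eq, mul_assoc])) t⟩

lemma key {X Y : ℝ → ℝ} (hX : ∀ t, HasDerivAt X (cos (Y t) * sin (X t)) t)
    (hY : ∀ t, HasDerivAt Y (-cos (X t) * sin (Y t)) t) (x0 : 0 ≤ X 0) (y0 : 0 ≤ Y 0) (y1 : Y 0 ≤ 1)
    {t : ℝ} (h : ∀ τ ∈ Icc 0 t, X τ ≤ 1) : ∀ τ ∈ Icc 0 t, X τ * exp ((t - τ) / 4) ≤ X t := by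
  have cX : Continuous X := continuous_iff_continuousAt.2 fun t => (hX t).continuousAt
  have cY : Continuous Y := continuous_iff_continuousAt.2 fun t => (hY t).continuousAt
  have p1 : ∀ τ, 0 ≤ X τ := fun τ => by
    obtain ⟨c, c0, e⟩ := sgn (by fun_prop) hX τ
    rw [e]; positivity
  have p2 : ∀ τ, 0 ≤ Y τ := fun τ => by
    obtain ⟨c, c0, e⟩ := sgn (by fun_prop) hY τ
    rw [e]; positivity
  have p3 : ∀ τ, Y τ ≤ π := fun τ => by
    obtain ⟨c, c0, e⟩ := sgn (f := fun t => π - Y t) (a := fun t => cos (X t)) (by fun_prop)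
      (fun t => ((hY t).const_sub π).congr_deriv (by rw [sin_pi_sub]; ring)) τ
    nlinarith [mul_nonneg (by linarith [pi_gt_three] : 0 ≤ π - Y 0) c0.le]
  have p4 : AntitoneOn Y (Icc 0 t) := antitoneOn_of_deriv_nonpos (convex_Icc _ _) cY.continuousOn
    (fun τ _ => (hY τ).differentiableAt.differentiableWithinAt) fun τ hτ => by
      have hτ' := interior_subset hτ
      rw [(hY τ).deriv]
      have : 0 ≤ cos (X τ) := cos_nonneg_of_mem_Icc ⟨by linarith [p1 τ, pi_pos], by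
        linarith [h τ hτ', pi_gt_three]⟩
      nlinarith [mul_nonneg this (sin_nonneg_of_nonneg_of_le_pi (p2 τ) (p3 τ))]
  have hd : ∀ τ, HasDerivAt (fun τ => X τ * exp (-τ / 4))
      ((cos (Y τ) * sin (X τ) - X τ / 4) * exp (-τ / 4)) τ := fun τ =>
    ((hX τ).mul ((hasDerivAt_id τ).neg.div_const 4).exp).congr_deriv (by simp; ring)
  have p5 : MonotoneOn (fun τ => X τ * exp (-τ / 4)) (Icc 0 t) :=
    monotoneOn_of_deriv_nonneg (convex_Icc _ _) (by fun_prop)
      (fun τ _ => (hd τ).differentiableAt.differentiableWithinAt) fun τ hτ => by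
      have hτ' := interior_subset hτ
      rw [(hd τ).deriv]
      refine mul_nonneg ?_ (exp_pos _).le
      have a1 : Y τ ≤ 1 := (p4 ⟨le_rfl, hτ'.1.trans hτ'.2⟩ hτ' hτ'.1).trans y1
      have a2 : 1 / 2 ≤ cos (Y τ) := by nlinarith [one_sub_sq_div_two_le_cos (x := Y τ), p2 τ]
      have a3 : X τ / 2 ≤ sin (X τ) := by
        rcases (p1 τ).eq_or_lt with e | e
        · rw [← e]; simp
        · nlinarith [sin_gt_sub_cube e, h τ hτ', mul_nonneg e.le e.le, mul_nonneg e.le (mul_nonneg e.le e.le), mul_le_mul (h τ hτ') (h τ hτ') e.le zero_le_one]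
      nlinarith [p1 τ]
  intro τ hτ
  have := mul_le_mul_of_nonneg_right (p5 hτ ⟨hτ.1.trans hτ.2, le_rfl⟩ hτ.2) (exp_pos (t / 4)).le
  simp only [mul_assoc, ← exp_add] at this
  rwa [show -τ / 4 + t / 4 = (t - τ) / 4 by ring, show -t / 4 + t / 4 = 0 by ring, exp_zero,
    mul_one] at this

lemma osc_cd (c : ℝ) (r : ℕ) : ∀ a : ℕ, 2 * r + 1 ≤ a → ∀ φ : ℝ,
    ContDiff ℝ r fun s : ℝ => s ^ a * sin (c / s + φ) := by
  induction r with
  | zero =>
    intro a ha φ
    refine contDiff_zero.2 (continuous_iff_continuousAt.2 fun s => ?_)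
    by_cases hs : s = 0
    · subst hs
      rw [ContinuousAt, zero_pow (by omega), zero_mul]
      refine squeeze_zero_norm (a := fun s : ℝ => |s ^ a|) (fun s => ?_) ?_
      · rw [Real.norm_eq_abs, abs_mul]; exact mul_le_of_le_one_right (abs_nonneg _) (abs_sin_le_one _)
      · simpa [zero_pow (by omega : a ≠ 0)] using
          ((continuous_pow a).abs.tendsto (0 : ℝ))
    · exact (continuousAt_id.pow a).mul
        (continuous_sin.continuousAt.comp ((continuousAt_const.div continuousAt_id hs).add continuousAt_const))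
  | succ r ih =>
    intro a ha φ
    obtain ⟨b, rfl⟩ : ∃ b, a = b + 2 := ⟨a - 2, by omega⟩
    have hd : ∀ s : ℝ, HasDerivAt (fun s : ℝ => s ^ (b + 2) * sin (c / s + φ))
        ((b + 2 : ℝ) * (s ^ (b + 1) * sin (c / s + φ)) - c * (s ^ b * sin (c / s + (φ + π / 2)))) s := by
      intro s
      by_cases hs : s = 0
      · subst hs
        rw [zero_pow (by omega), zero_pow (by omega), hasDerivAt_iff_tendsto_slope_zero]
        simp only [zero_add, zero_mul, mul_zero, sub_zero, zero_pow (by omega : b + 2 ≠ 0), smul_eq_mul]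
        have h0 := (contDiff_zero.1 ((ih (b + 1) (by omega) φ).of_le (by simp))).tendsto 0
        rw [zero_pow (by omega), zero_mul] at h0
        refine (h0.mono_left nhdsWithin_le_nhds).congr' ?_
        filter_upwards [self_mem_nhdsWithin] with t ht
        have : t ≠ 0 := ht
        field_simp; ring
      · refine ((hasDerivAt_pow (b + 2) s).mul
          ((((hasDerivAt_inv hs).const_mul c).add_const φ).sin)).congr_deriv ?_
        rw [← add_assoc, sin_add_pi_div_two, div_eq_mul_inv]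
        simp only [Nat.add_one_sub_one]; push_cast; field_simp; ring
    rw [Nat.cast_succ]
    refine contDiff_succ_iff_deriv.2 ⟨fun s => (hd s).differentiableAt, by simp, ?_⟩
    rw [funext fun s => (hd s).deriv]
    exact (contDiff_const.mul (ih _ (by omega) φ)).sub (contDiff_const.mul (ih _ (by omega) _))

end Pool.Agent.H92.EU
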