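import Mathlib

set_option autoImplicit false

namespace Pool.Agent.H92.EllEnd

lemma seg {E : Type*} [NormedAddCommGroup E] [NormedSpace ℝ E] {s : Set E} (hs : Convex ℝ s)
    {f : E → ℝ} (hc : ContinuousOn f s) {C : ℝ}
    (hd : ∀ x ∈ s, x ≠ 0 → ∃ f' : E →L[ℝ] ℝ, HasFDerivAt f f' x ∧ ‖f'‖ ≤ C)
    {x y : E} (hx : x ∈ s) (hy : y ∈ s) (h0 : ∀ t ∈ Set.Ioo (0 : ℝ) 1, x + t • (y - x) ≠ 0) :
    |f y - f x| ≤ C * ‖y - x‖ := by
  have hm : ∀ t ∈ Set.Icc (0 : ℝ) 1, x + t • (y - x) ∈ s := fun t ht => hs.add_smul_sub_mem hx hy ht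
  have hγ : ∀ t : ℝ, HasDerivAt (fun t : ℝ => x + t • (y - x)) (y - x) t := fun t => by
    simpa using ((hasDerivAt_id t).smul_const (y - x)).const_add x
  have hcont : ContinuousOn (fun t : ℝ => f (x + t • (y - x))) (Set.Icc 0 1) :=
    hc.comp (by fun_prop) hm
  obtain ⟨t, ht, h⟩ := exists_deriv_eq_slope (fun t : ℝ => f (x + t • (y - x))) zero_lt_one hcont
    (fun t ht => by
      obtain ⟨f', h1, -⟩ := hd _ (hm t (Set.Ioo_subset_Icc_self ht)) (h0 t ht)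
      exact (h1.comp_hasDerivAt t (hγ t)).differentiableAt.differentiableWithinAt)
  obtain ⟨f', h1, h2⟩ := hd _ (hm t (Set.Ioo_subset_Icc_self ht)) (h0 t ht)
  have h3 := (h1.comp_hasDerivAt t (hγ t)).deriv
  change deriv (fun t : ℝ => f (x + t • (y - x))) t = _ at h3
  rw [h3] at h
  simp only [one_smul, add_sub_cancel, zero_smul, add_zero, sub_zero, div_one] at h
  rw [← h]
  exact (f'.le_opNorm _).trans (mul_le_mul_of_nonneg_right h2 (norm_nonneg _))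

lemma lip_off {E : Type*} [NormedAddCommGroup E] [NormedSpace ℝ E] {s : Set E} (hs : Convex ℝ s)
    {f : E → ℝ} (hc : ContinuousOn f s) {C : NNReal}
    (hd : ∀ x ∈ s, x ≠ 0 → ∃ f' : E →L[ℝ] ℝ, HasFDerivAt f f' x ∧ ‖f'‖ ≤ C) :
    LipschitzOnWith C f s := by
  refine LipschitzOnWith.of_dist_le_mul fun y hy x hx => ?_
  rw [Real.dist_eq, dist_eq_norm]
  by_cases h0 : ∀ t ∈ Set.Ioo (0 : ℝ) 1, x + t • (y - x) ≠ 0
  · exact seg hs hc hd hx hy h0
  push Not at h0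
  obtain ⟨t, ht, h⟩ := h0
  have h0s : (0 : E) ∈ s := h ▸ hs.add_smul_sub_mem hx hy (Set.Ioo_subset_Icc_self ht)
  have key : ∀ z ∈ s, |f z - f 0| ≤ C * ‖z‖ := by
    intro z hz
    by_cases hz0 : z = 0
    · simp [hz0]
    have := seg hs hc hd h0s hz (fun τ hτ => by simp [hz0, hτ.1.ne'])
    simpa using this
  have e1 : x = -(t • (y - x)) := eq_neg_of_add_eq_zero_left h
  have e2 : y = (1 - t) • (y - x) := by
    rw [sub_smul, one_smul]
    have : t • (y - x) = -x := by rw [← neg_neg (t • (y - x)), ← e1]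
    rw [this]; abel
  have n1 : ‖x‖ = t * ‖y - x‖ := by
    conv_lhs => rw [e1]
    rw [norm_neg, norm_smul, Real.norm_of_nonneg ht.1.le]
  have n2 : ‖y‖ = (1 - t) * ‖y - x‖ := by
    conv_lhs => rw [e2]
    rw [norm_smul, Real.norm_of_nonneg (by linarith [ht.2])]
  have k1 := key x hx
  have k2 := key y hy
  rw [n1] at k1
  rw [n2] at k2
  have := abs_sub_le (f y) (f 0) (f x)
  rw [abs_sub_comm (f 0)] at this
  linarith

abbrev E4 := EuclideanSpace ℝ (Fin 4)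

noncomputable def pr (a : Fin 4) : E4 →L[ℝ] ℝ := EuclideanSpace.proj a

lemma pr_apply (a : Fin 4) (x : E4) : pr a x = x a := rfl

lemma coord_le (x : E4) (a : Fin 4) : |x a| ≤ ‖x‖ := by
  simpa using PiLp.norm_apply_le x a

lemma pr_norm (a : Fin 4) : ‖pr a‖ ≤ 1 :=
  ContinuousLinearMap.opNorm_le_bound _ zero_le_one fun x => by
    rw [one_mul]; exact coord_le x a

lemma hd_co (a : Fin 4) (x : E4) : HasFDerivAt (fun y : E4 => y a) (pr a) x := (pr a).hasFDerivAt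

lemma hd_sq (x : E4) : HasFDerivAt (fun y : E4 => ‖y‖ ^ 2) ((2 : ℝ) • innerSL ℝ x) x := by
  have := (hasStrictFDerivAt_norm_sq x).hasFDerivAt
  have e : (2 : ℝ) • innerSL ℝ x = (2 : ℕ) • innerSL ℝ x := by
    rw [← Nat.cast_smul_eq_nsmul ℝ]; norm_num
  rw [e]; exact this

/-- cubic monomial over `|x|^2` -/
noncomputable def mo (a b c : Fin 4) (x : E4) : ℝ := x a * x b * x c * (‖x‖ ^ 2)⁻¹

/-- quadratic monomial times `log |x|^2` -/
noncomputable def ql (a b : Fin 4) (x : E4) : ℝ := x a * x b * Real.log (‖x‖ ^ 2)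

lemma mo_le (a b c : Fin 4) (x : E4) : |mo a b c x| ≤ ‖x‖ := by
  by_cases hx : x = 0
  · simp [mo, hx]
  have h0 : 0 < ‖x‖ := norm_pos_iff.2 hx
  rw [mo, abs_mul, abs_mul, abs_mul, abs_inv, abs_of_pos (pow_pos h0 2), ← div_eq_mul_inv,
    div_le_iff₀ (pow_pos h0 2)]
  calc |x a| * |x b| * |x c| ≤ ‖x‖ * ‖x‖ * ‖x‖ := by
        gcongr <;> exact coord_le x _
    _ = ‖x‖ * ‖x‖ ^ 2 := by ring

lemma mo_hd (a b c : Fin 4) (x : E4) (hx : x ≠ 0) :
    ∃ f' : E4 →L[ℝ] ℝ, HasFDerivAt (mo a b c) f' x ∧ ‖f'‖ ≤ (5 : NNReal) := by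
  have h0 : 0 < ‖x‖ := norm_pos_iff.2 hx
  have h1 := (((hd_co a x).mul (hd_co b x)).mul (hd_co c x)).mul
    ((hasDerivAt_inv (pow_pos h0 2).ne').comp_hasFDerivAt x (hd_sq x))
  refine ⟨_, h1, ?_⟩
  refine ContinuousLinearMap.opNorm_le_bound _ (by norm_num) fun v => ?_
  simp only [add_apply, smul_apply, pr_apply, smul_eq_mul, Pi.mul_apply, innerSL_apply_apply,
    Function.comp_apply, Real.norm_eq_abs]
  have ha := coord_le x a
  have hb := coord_le x b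
  have hc := coord_le x c
  have va := coord_le v a
  have vb := coord_le v b
  have vc := coord_le v c
  have hi := abs_real_inner_le_norm x v
  set r := ‖x‖
  set w := ‖v‖
  have e : x a * x b * x c * (-((r ^ 2) ^ 2)⁻¹ * (2 * inner ℝ x v)) +
      (r ^ 2)⁻¹ * (x a * x b * v c + x c * (x a * v b + x b * v a)) =
      -2 * ((x a / r) * (x b / r) * (x c / r) * (inner ℝ x v / r)) +
      ((x a / r) * (x b / r) * v c + (x c / r) * (x a / r) * v b + (x c / r) * (x b / r) * v a) := by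
    field_simp; ring
  rw [e]
  have q : ∀ t : ℝ, |t| ≤ r → |t / r| ≤ 1 := fun t ht => by
    rw [abs_div, abs_of_pos h0, div_le_one h0]; exact ht
  have qi : |inner ℝ x v / r| ≤ w := by
    rw [abs_div, abs_of_pos h0, div_le_iff₀ h0]; linarith
  have qa := q _ ha
  have qb := q _ hb
  have qc := q _ hc
  have t3 : ∀ p q s : ℝ, |p| ≤ 1 → |q| ≤ 1 → |s| ≤ w → |p * q * s| ≤ w := by
    intro p q s h1 h2 h3
    rw [abs_mul, abs_mul]
    calc |p| * |q| * |s| ≤ 1 * 1 * w := by gcongr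
      _ = w := by ring
  have t4 : |(x a / r) * (x b / r) * (x c / r) * (inner ℝ x v / r)| ≤ w := by
    refine t3 _ _ _ ?_ qc qi
    rw [abs_mul]; exact mul_le_one₀ qa (abs_nonneg _) qb
  have k1 := abs_le.1 t4
  have k2 := abs_le.1 (t3 _ _ _ qa qb vc)
  have k3 := abs_le.1 (t3 _ _ _ qc qa vb)
  have k4 := abs_le.1 (t3 _ _ _ qc qb va)
  rw [abs_le]
  push_cast
  constructor <;> linarith [k1.1, k1.2, k2.1, k2.2, k3.1, k3.2, k4.1, k4.2]

lemma cont_of {f : E4 → ℝ} (h0 : f 0 = 0) (C : ℝ) (hb : ∀ x : E4, ‖x‖ < 1 → |f x| ≤ C * ‖x‖)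
    (hd : ∀ x ≠ 0, ContinuousAt f x) : Continuous f := by
  rw [continuous_iff_continuousAt]
  intro x
  by_cases hx : x = 0
  · subst hx
    rw [ContinuousAt, h0]
    refine squeeze_zero_norm' (a := fun x : E4 => C * ‖x‖) ?_ ?_
    · filter_upwards [Metric.ball_mem_nhds (0 : E4) one_pos] with y hy
      exact hb y (by simpa using hy)
    · have : Continuous fun x : E4 => C * ‖x‖ := by fun_prop
      simpa using this.tendsto 0
  · exact hd x hx

lemma mo_lip (a b c : Fin 4) : LipschitzWith 5 (mo a b c) := by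
  rw [← lipschitzOnWith_univ]
  refine lip_off convex_univ (Continuous.continuousOn ?_) fun x _ hx => mo_hd a b c x hx
  refine cont_of (by simp [mo]) 1 (fun x _ => by simpa using mo_le a b c x) fun x hx => ?_
  obtain ⟨f', h, -⟩ := mo_hd a b c x hx
  exact h.continuousAt

lemma ql_hd (a b : Fin 4) (x : E4) (hx : x ≠ 0) :
    HasFDerivAt (ql a b) ((x a * x b) • ((‖x‖ ^ 2)⁻¹ • ((2 : ℝ) • innerSL ℝ x)) +
      Real.log (‖x‖ ^ 2) • (x a • pr b + x b • pr a)) x := by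
  have h0 : 0 < ‖x‖ := norm_pos_iff.2 hx
  exact ((hd_co a x).mul (hd_co b x)).mul ((hd_sq x).log (pow_pos h0 2).ne')

lemma log_le (x : E4) (h1 : ‖x‖ < 1) : ‖x‖ * |Real.log (‖x‖ ^ 2)| ≤ 2 := by
  by_cases hx : x = 0
  · simp [hx]
  have h0 : 0 < ‖x‖ := norm_pos_iff.2 hx
  have := Real.abs_log_mul_self_lt ‖x‖ h0 h1.le
  rw [abs_mul, abs_of_pos h0] at this
  rw [Real.log_pow, abs_mul]
  norm_num
  linarith

lemma ql_lip (a b : Fin 4) : LipschitzOnWith 6 (ql a b) (Metric.ball 0 1) := by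
  refine lip_off (convex_ball _ _) (Continuous.continuousOn ?_) fun x hx1 hx => ⟨_, ql_hd a b x hx, ?_⟩
  · refine cont_of (by simp [ql]) 2 (fun x hx => ?_) fun x hx => (ql_hd a b x hx).continuousAt
    rw [ql, abs_mul, abs_mul]
    calc |x a| * |x b| * |Real.log (‖x‖ ^ 2)| ≤ ‖x‖ * ‖x‖ * |Real.log (‖x‖ ^ 2)| := by
          gcongr <;> exact coord_le x _
      _ = (‖x‖ * |Real.log (‖x‖ ^ 2)|) * ‖x‖ := by ring
      _ ≤ 2 * ‖x‖ := mul_le_mul_of_nonneg_right (log_le x hx) (norm_nonneg _)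
  · have h0 : 0 < ‖x‖ := norm_pos_iff.2 hx
    have h1 : ‖x‖ < 1 := by simpa using hx1
    refine ContinuousLinearMap.opNorm_le_bound _ (by norm_num) fun v => ?_
    simp only [add_apply, smul_apply, pr_apply, smul_eq_mul, innerSL_apply_apply,
      Real.norm_eq_abs]
    have ha := coord_le x a
    have hb := coord_le x b
    have va := coord_le v a
    have vb := coord_le v b
    have hi := abs_real_inner_le_norm x v
    have hl := log_le x h1
    set r := ‖x‖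
    set w := ‖v‖
    set l := Real.log (r ^ 2)
    have hw : 0 ≤ w := norm_nonneg _
    have k1 : |x a * x b * ((r ^ 2)⁻¹ * (2 * inner ℝ x v))| ≤ 2 * w := by
      rw [abs_mul, abs_mul, abs_mul, abs_mul, abs_inv, abs_of_pos (pow_pos h0 2), abs_two]
      calc |x a| * |x b| * ((r ^ 2)⁻¹ * (2 * |inner ℝ x v|))
          ≤ r * r * ((r ^ 2)⁻¹ * (2 * (r * w))) := by gcongr
        _ = 2 * (r * w) := by field_simp
        _ ≤ 2 * (1 * w) := by gcongr
        _ = 2 * w := by ring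
    have k2 : |l * (x a * v b + x b * v a)| ≤ 4 * w := by
      rw [abs_mul]
      have : |x a * v b + x b * v a| ≤ r * w + r * w := by
        refine (abs_add_le _ _).trans ?_
        rw [abs_mul, abs_mul]; gcongr
      calc |l| * |x a * v b + x b * v a| ≤ |l| * (r * w + r * w) := by gcongr
        _ = 2 * w * (r * |l|) := by ring
        _ ≤ 2 * w * 2 := by gcongr
        _ = 4 * w := by ring
    refine (abs_add_le _ _).trans ?_
    push_cast
    linarith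

noncomputable def uu : Fin 4 → E4 → ℝ :=
  ![fun x => x 0 + (ql 2 2 x - ql 3 3 x), fun x => x 1 + 2 * ql 2 3 x, fun x => x 2, fun x => x 3]

noncomputable def cc : Fin 4 → E4 → ℝ :=
  ![fun x => -2 + (2 * mo 2 2 0 x - 2 * mo 3 3 0 x - 4 * mo 2 3 1 x),
    fun x => 0 + (2 * mo 2 2 1 x - 2 * mo 3 3 1 x - (-4) * mo 2 3 0 x),
    fun x => 0 + (2 * mo 2 2 2 x - 2 * mo 3 3 2 x - 4 * mo 2 3 3 x),
    fun x => 0 + (2 * mo 2 2 3 x - 2 * mo 3 3 3 x - (-4) * mo 2 3 2 x)]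

noncomputable def JJ : E4 → ℝ :=
  fun x => 1 + (2 * mo 2 2 0 x - 2 * mo 3 3 0 x - (-4) * mo 2 3 1 x)

def AA : Fin 4 → Fin 4 → Fin 4 → ℝ :=
  ![![![1, 0, 0, 0], ![0, 1, 0, 0], ![0, 0, 1, 0], ![0, 0, 0, 1]],
    ![![0, -1, 0, 0], ![1, 0, 0, 0], ![0, 0, 0, 1], ![0, 0, -1, 0]],
    ![![0, 0, -1, 0], ![0, 0, 0, -1], ![1, 0, 0, 0], ![0, 1, 0, 0]],
    ![![0, 0, 0, -1], ![0, 0, 1, 0], ![0, -1, 0, 0], ![1, 0, 0, 0]]]

lemma lip3 (k p q s : ℝ) {f g h : E4 → ℝ} (hf : LipschitzWith 5 f) (hg : LipschitzWith 5 g)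
    (hh : LipschitzWith 5 h) :
    ∃ C, LipschitzWith C (fun x => k + (p * f x - q * g x - s * h x)) := by
  have m : ∀ (p : ℝ) {f : E4 → ℝ}, LipschitzWith 5 f →
      LipschitzWith (‖p‖₊ * 5) (fun x => p * f x) := fun p f hf =>
    (lipschitzWith_smul p).comp hf
  exact ⟨_, (LipschitzWith.const k).add (((m p hf).sub (m q hg)).sub (m s hh))⟩

lemma cc_lip (i : Fin 4) : ∃ C, LipschitzWith C (cc i) := by
  fin_cases i <;> exact lip3 _ _ _ _ (mo_lip _ _ _) (mo_lip _ _ _) (mo_lip _ _ _)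

lemma JJ_lip : ∃ C, LipschitzWith C JJ := lip3 _ _ _ _ (mo_lip _ _ _) (mo_lip _ _ _) (mo_lip _ _ _)

lemma co_lip (a : Fin 4) : LipschitzWith ‖pr a‖₊ (fun x : E4 => x a) := (pr a).lipschitz

lemma uu_lip (i : Fin 4) : ∃ C, LipschitzOnWith C (uu i) (Metric.ball 0 1) := by
  fin_cases i
  · exact ⟨_, (co_lip 0).lipschitzOnWith.add ((ql_lip 2 2).sub (ql_lip 3 3))⟩
  · exact ⟨_, (co_lip 1).lipschitzOnWith.add
      ((lipschitzWith_smul (2 : ℝ)).comp_lipschitzOnWith (ql_lip 2 3))⟩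
  · exact ⟨_, (co_lip 2).lipschitzOnWith⟩
  · exact ⟨_, (co_lip 3).lipschitzOnWith⟩

lemma ql_d (a b j : Fin 4) (x : E4) :
    ((x a * x b) • ((‖x‖ ^ 2)⁻¹ • ((2 : ℝ) • innerSL ℝ x)) +
      Real.log (‖x‖ ^ 2) • (x a • pr b + x b • pr a)) (EuclideanSpace.single j 1) =
    2 * mo a b j x + Real.log (‖x‖ ^ 2) *
      (x a * (if b = j then 1 else 0) + x b * (if a = j then 1 else 0)) := by
  simp only [add_apply, smul_apply, pr_apply, smul_eq_mul, innerSL_apply_apply,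
    EuclideanSpace.inner_single_right, mo, PiLp.single_apply]
  simp
  ring

lemma d0 (x : E4) (hx : x ≠ 0) (j : Fin 4) : fderiv ℝ (uu 0) x (EuclideanSpace.single j 1) =
    (if 0 = j then 1 else 0) + (2 * mo 2 2 j x - 2 * mo 3 3 j x) + 2 * Real.log (‖x‖ ^ 2) *
      (x 2 * (if 2 = j then 1 else 0) - x 3 * (if 3 = j then 1 else 0)) := by
  have h := ((hd_co 0 x).add ((ql_hd 2 2 x hx).sub (ql_hd 3 3 x hx))).fderiv
  change fderiv ℝ (uu 0) x = _ at h
  rw [h, add_apply, sub_apply, ql_d, ql_d, pr_apply, PiLp.single_apply]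
  ring

lemma d1 (x : E4) (hx : x ≠ 0) (j : Fin 4) : fderiv ℝ (uu 1) x (EuclideanSpace.single j 1) =
    (if 1 = j then 1 else 0) + 4 * mo 2 3 j x + 2 * Real.log (‖x‖ ^ 2) *
      (x 2 * (if 3 = j then 1 else 0) + x 3 * (if 2 = j then 1 else 0)) := by
  have h := ((hd_co 1 x).add ((ql_hd 2 3 x hx).const_mul 2)).fderiv
  change fderiv ℝ (uu 1) x = _ at h
  rw [h, add_apply, smul_apply, ql_d, pr_apply, PiLp.single_apply, smul_eq_mul]
  ring

lemma d2 (x : E4) (j : Fin 4) : fderiv ℝ (uu 2) x (EuclideanSpace.single j 1) =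
    (if 2 = j then 1 else 0) := by
  have h := (hd_co 2 x).fderiv
  change fderiv ℝ (uu 2) x = _ at h
  rw [h, pr_apply, PiLp.single_apply]

lemma d3 (x : E4) (j : Fin 4) : fderiv ℝ (uu 3) x (EuclideanSpace.single j 1) =
    (if 3 = j then 1 else 0) := by
  have h := (hd_co 3 x).fderiv
  change fderiv ℝ (uu 3) x = _ at h
  rw [h, pr_apply, PiLp.single_apply]

lemma ellip (ξ : Fin 4 → ℝ) (hξ : ξ ≠ 0) :
    (Matrix.of fun i l => ∑ j, ξ j * AA j i l).det ≠ 0 := by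
  have e : (Matrix.of fun i l => ∑ j, ξ j * AA j i l) =
      !![ξ 0, -ξ 1, -ξ 2, -ξ 3; ξ 1, ξ 0, ξ 3, -ξ 2; ξ 2, -ξ 3, ξ 0, ξ 1; ξ 3, ξ 2, -ξ 1, ξ 0] := by
    ext i l
    fin_cases i <;> fin_cases l <;> simp [AA, Fin.sum_univ_four]
  have e2 : (!![ξ 0, -ξ 1, -ξ 2, -ξ 3; ξ 1, ξ 0, ξ 3, -ξ 2; ξ 2, -ξ 3, ξ 0, ξ 1;
      ξ 3, ξ 2, -ξ 1, ξ 0] : Matrix (Fin 4) (Fin 4) ℝ).det =
      (ξ 0 ^ 2 + ξ 1 ^ 2 + ξ 2 ^ 2 + ξ 3 ^ 2) ^ 2 := by
    simp [Matrix.det_succ_row_zero, Fin.sum_univ_succ, Fin.succAbove]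
    ring
  rw [e, e2]
  refine pow_ne_zero _ fun h => hξ ?_
  funext i
  fin_cases i <;> simp <;> nlinarith [sq_nonneg (ξ 0), sq_nonneg (ξ 1), sq_nonneg (ξ 2), sq_nonneg (ξ 3)]

lemma eqn (x : E4) (hx : x ≠ 0) (i : Fin 4) :
    ∑ j, ∑ l, AA j i l * fderiv ℝ (uu l) x (EuclideanSpace.single j 1) = cc i x := by
  fin_cases i <;> simp [AA, Fin.sum_univ_four, d0 x hx, d1 x hx, d2, d3, cc] <;> ring

lemma jac (x : E4) (hx : x ≠ 0) :
    (Matrix.of fun i j => fderiv ℝ (uu i) x (EuclideanSpace.single j 1)).det = JJ x := by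
  have e : (Matrix.of fun i j => fderiv ℝ (uu i) x (EuclideanSpace.single j 1)) =
      !![1 + (2 * mo 2 2 0 x - 2 * mo 3 3 0 x), 2 * mo 2 2 1 x - 2 * mo 3 3 1 x,
          fderiv ℝ (uu 0) x (EuclideanSpace.single 2 1), fderiv ℝ (uu 0) x (EuclideanSpace.single 3 1);
        4 * mo 2 3 0 x, 1 + 4 * mo 2 3 1 x,
          fderiv ℝ (uu 1) x (EuclideanSpace.single 2 1), fderiv ℝ (uu 1) x (EuclideanSpace.single 3 1);
        0, 0, 1, 0; 0, 0, 0, 1] := by
    ext i j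
    fin_cases i <;> fin_cases j <;> simp [d0 x hx, d1 x hx, d2, d3]
  rw [e]
  simp [Matrix.det_succ_row_zero, Fin.sum_univ_succ, Fin.succAbove, JJ, mo]
  ring

lemma JJ_ne (x : E4) (hx : ‖x‖ < 1 / 10) : JJ x ≠ 0 := by
  have h1 := abs_le.1 (mo_le 2 2 0 x)
  have h2 := abs_le.1 (mo_le 3 3 0 x)
  have h3 := abs_le.1 (mo_le 2 3 1 x)
  have : 0 < JJ x := by
    unfold JJ
    linarith [h1.1, h2.2, h3.1]
  exact this.ne'

lemma not_lip (C : NNReal) (U : Set E4) (hU : U ∈ nhds (0 : E4))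
    (h : LipschitzOnWith C (iteratedFDeriv ℝ 1 (uu 0)) U) : False := by
  obtain ⟨ε, hε, hball⟩ := Metric.mem_nhds_iff.1 hU
  set t := min (ε / 2) (Real.exp (-(C + 2))) with ht
  have ht0 : 0 < t := lt_min (by linarith) (Real.exp_pos _)
  have ht1 : t < ε := lt_of_le_of_lt (min_le_left _ _) (by linarith)
  have ht2 : Real.log t ≤ -(C + 2) := by
    rw [Real.log_le_iff_le_exp ht0]; exact min_le_right _ _
  have hn : ∀ s : ℝ, ‖(EuclideanSpace.single 2 s : E4)‖ = |s| := fun s => by simp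
  have hv : ∀ s : ℝ, s ≠ 0 → iteratedFDeriv ℝ 1 (uu 0) (EuclideanSpace.single 2 s)
      (fun _ => EuclideanSpace.single 2 1) = 2 * s + 2 * Real.log (s ^ 2) * s := by
    intro s hs
    have hx : (EuclideanSpace.single 2 s : E4) ≠ 0 := by
      rw [← norm_ne_zero_iff, hn]; exact abs_ne_zero.2 hs
    rw [iteratedFDeriv_one_apply, d0 _ hx, mo, mo, hn, sq_abs]
    simp
    field_simp
  have k := h.dist_le_mul (EuclideanSpace.single 2 (-t)) (hball (by
      rw [mem_ball_zero_iff, hn, abs_neg, abs_of_pos ht0]; exact ht1))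
    (EuclideanSpace.single 2 t) (hball (by
      rw [mem_ball_zero_iff, hn, abs_of_pos ht0]; exact ht1))
  rw [dist_eq_norm, dist_eq_norm] at k
  have k2 := (iteratedFDeriv ℝ 1 (uu 0) (EuclideanSpace.single 2 (-t)) -
    iteratedFDeriv ℝ 1 (uu 0) (EuclideanSpace.single 2 t)).le_opNorm
    (fun _ => EuclideanSpace.single 2 1)
  rw [sub_apply, hv _ (neg_ne_zero.2 ht0.ne'), hv _ ht0.ne'] at k2
  have e : (EuclideanSpace.single 2 (-t) : E4) - EuclideanSpace.single 2 t =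
      EuclideanSpace.single 2 (-(2 * t)) := by
    ext i; simp only [PiLp.sub_apply, PiLp.single_apply]; split_ifs <;> ring
  rw [e, hn, abs_neg, abs_of_pos (by linarith)] at k
  simp only [Finset.prod_const, hn, abs_one, one_pow, mul_one, neg_sq, Real.log_pow,
    Real.norm_eq_abs] at k2
  have k3 := (le_abs_self _).trans (k2.trans k)
  push_cast at k3
  have hC : (0 : ℝ) ≤ C := C.2
  nlinarith

end Pool.Agent.H92.EllEnd
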