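import Mathlib

set_option autoImplicit false

open Complex Metric Set Topology Filter

namespace Pool.Agent.H92.Enneper

abbrev E3 := EuclideanSpace ℝ (Fin 3)

/-- defining function of the domain -/
noncomputable def rho (x : E3) : ℝ := 40 * (x 0 ^ 4 + x 1 ^ 4) + ‖x‖ ^ 2 - 30

def Om : Set E3 := {x | rho x < 0}

/-- conformal harmonic discs in a set -/
def IsCH (Ω : Set E3) (f : ℂ → E3) : Prop :=
  ContDiffOn ℝ 2 f (ball (0 : ℂ) 1) ∧
    (∀ z ∈ ball (0 : ℂ) 1, f z ∈ Ω) ∧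
    (∀ z ∈ ball (0 : ℂ) 1,
      ‖fderiv ℝ f z (1 : ℂ)‖ = ‖fderiv ℝ f z Complex.I‖ ∧
      inner ℝ (fderiv ℝ f z (1 : ℂ)) (fderiv ℝ f z Complex.I) = 0) ∧
    (∀ z ∈ ball (0 : ℂ) 1,
      fderiv ℝ (fun w => fderiv ℝ f w (1 : ℂ)) z (1 : ℂ) +
        fderiv ℝ (fun w => fderiv ℝ f w Complex.I) z Complex.I = 0)

lemma normsq3 (x : E3) : ‖x‖ ^ 2 = x 0 ^ 2 + x 1 ^ 2 + x 2 ^ 2 := by
  rw [EuclideanSpace.real_norm_sq_eq, Fin.sum_univ_three]

lemma inner3 (x y : E3) : inner ℝ x y = x 0 * y 0 + x 1 * y 1 + x 2 * y 2 := by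
  rw [PiLp.inner_apply, Fin.sum_univ_three]
  simp only [RCLike.inner_apply, conj_trivial]
  ring

lemma rho_contDiff : ContDiff ℝ ((⊤ : ℕ∞) : WithTop ℕ∞) rho := by
  have : rho = fun x : E3 => 40 * (x 0 ^ 4 + x 1 ^ 4) + (x 0 ^ 2 + x 1 ^ 2 + x 2 ^ 2) - 30 := by
    funext x; rw [rho, normsq3]
  rw [this]
  fun_prop

lemma rho_cont : Continuous rho := rho_contDiff.continuous

lemma Om_open : IsOpen Om := isOpen_lt rho_cont continuous_const

lemma Om_bdd : Bornology.IsBounded Om := by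
  refine (isBounded_ball (x := (0 : E3)) (r := 6)).subset ?_
  intro x hx
  simp only [Om, rho, Set.mem_ofPred_eq] at hx
  rw [mem_ball_zero_iff]
  have h1 : 0 ≤ x 0 ^ 4 + x 1 ^ 4 := by positivity
  nlinarith [norm_nonneg x]

lemma quartic_convex : ConvexOn ℝ univ (fun x : E3 => 40 * (x 0 ^ 4 + x 1 ^ 4) - 30) := by
  have h4 : ConvexOn ℝ univ (fun t : ℝ => t ^ 4) := Even.convexOn_pow (by decide)
  refine ⟨convex_univ, ?_⟩
  intro x _ y _ a b ha hb hab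
  have e0 := h4.2 (mem_univ (x 0)) (mem_univ (y 0)) ha hb hab
  have e1 := h4.2 (mem_univ (x 1)) (mem_univ (y 1)) ha hb hab
  simp only [smul_eq_mul, PiLp.add_apply, PiLp.smul_apply] at e0 e1 ⊢
  have : b = 1 - a := by linarith
  subst this
  nlinarith

lemma rho_strong : ConvexOn ℝ univ (fun x : E3 => rho x - ‖x‖ ^ 2) := by
  have : (fun x : E3 => rho x - ‖x‖ ^ 2) = fun x : E3 => 40 * (x 0 ^ 4 + x 1 ^ 4) - 30 := by
    funext x; rw [rho]; ring
  rw [this]; exact quartic_convex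

lemma rho_convex : ConvexOn ℝ univ rho := by
  have h2 : ConvexOn ℝ univ (fun x : E3 => ‖x‖ ^ 2) := by
    have h2 : ConvexOn ℝ univ (fun t : ℝ => t ^ 2) := Even.convexOn_pow (by decide)
    refine ⟨convex_univ, ?_⟩
    intro x _ y _ a b ha hb hab
    have e0 := h2.2 (mem_univ (x 0)) (mem_univ (y 0)) ha hb hab
    have e1 := h2.2 (mem_univ (x 1)) (mem_univ (y 1)) ha hb hab
    have e2 := h2.2 (mem_univ (x 2)) (mem_univ (y 2)) ha hb hab
    simp only [normsq3, smul_eq_mul, PiLp.add_apply, PiLp.smul_apply] at e0 e1 e2 ⊢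
    nlinarith
  have := rho_strong.add h2
  have e : ((fun x : E3 => rho x - ‖x‖ ^ 2) + fun x : E3 => ‖x‖ ^ 2) = rho := by
    funext x; simp
  rwa [e] at this

lemma Om_convex : Convex ℝ Om := by
  have := rho_convex.convex_lt 0
  simpa [Om] using this

lemma rho_zero : rho 0 = -30 := by simp [rho]

lemma zero_mem : (0 : E3) ∈ Om := by
  simp only [Om, Set.mem_ofPred_eq, rho_zero]; norm_num

lemma rho_fderiv_ne (x : E3) (hx : x ∈ frontier Om) : fderiv ℝ rho x ≠ 0 := by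
  intro h0
  have hx0 : rho x = 0 := frontier_lt_subset_eq rho_cont continuous_const hx
  have hd : DifferentiableAt ℝ rho x := (rho_contDiff.differentiable (by simp)) x
  have hline : HasDerivAt (fun t : ℝ => t • x) x 1 := by
    simpa using (hasDerivAt_id (1 : ℝ)).smul_const x
  have h1 : HasDerivAt (fun t : ℝ => rho (t • x)) (fderiv ℝ rho x x) 1 := by
    have hd' : HasFDerivAt rho (fderiv ℝ rho x) ((1 : ℝ) • x) := by
      rw [one_smul]; exact hd.hasFDerivAt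
    exact hd'.comp_hasDerivAt (1 : ℝ) hline
  have h2 : HasDerivAt (fun t : ℝ => rho (t • x))
      (160 * (x 0 ^ 4 + x 1 ^ 4) + 2 * ‖x‖ ^ 2) 1 := by
    have : (fun t : ℝ => rho (t • x)) =
        fun t : ℝ => 40 * (x 0 ^ 4 + x 1 ^ 4) * t ^ 4 + ‖x‖ ^ 2 * t ^ 2 - 30 := by
      funext t
      simp only [rho, normsq3, PiLp.smul_apply, smul_eq_mul]; ring
    rw [this]
    have a1 := ((hasDerivAt_pow 4 (1 : ℝ)).const_mul (40 * (x 0 ^ 4 + x 1 ^ 4))).fun_add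
      ((hasDerivAt_pow 2 (1 : ℝ)).const_mul (‖x‖ ^ 2))
    refine (a1.sub_const 30).congr_deriv ?_
    norm_num; ring
  have h3 := h1.unique h2
  rw [h0] at h3
  simp only [zero_apply] at h3
  simp only [rho] at hx0
  have h4 : 0 ≤ x 0 ^ 4 + x 1 ^ 4 := by positivity
  nlinarith [sq_nonneg ‖x‖]

/-! ### The reflection -/

noncomputable def reflL : E3 →ₗ[ℝ] E3 where
  toFun x := !₂[x 0, x 1, -x 2]
  map_add' x y := by
    ext i; fin_cases i <;> simp; ring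
  map_smul' c x := by
    ext i; fin_cases i <;> simp

noncomputable def refl : E3 ≃L[ℝ] E3 :=
  LinearEquiv.toContinuousLinearEquiv
    (LinearEquiv.ofInvolutive reflL (by
      intro x; ext i; fin_cases i <;> simp [reflL]))

lemma refl0 (x : E3) : refl x 0 = x 0 := rfl
lemma refl1 (x : E3) : refl x 1 = x 1 := rfl
lemma refl2 (x : E3) : refl x 2 = -x 2 := rfl

lemma refl_normsq (x : E3) : ‖refl x‖ ^ 2 = ‖x‖ ^ 2 := by
  rw [normsq3, normsq3, refl0, refl1, refl2]; ring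

lemma refl_norm (x : E3) : ‖refl x‖ = ‖x‖ :=
  (pow_left_inj₀ (norm_nonneg _) (norm_nonneg _) two_ne_zero).1 (refl_normsq x)

lemma refl_inner (x y : E3) : inner ℝ (refl x) (refl y) = inner ℝ x y := by
  rw [inner3, inner3, refl0, refl1, refl2, refl0, refl1, refl2]; ring

lemma refl_fderiv (f : ℂ → E3) (z v : ℂ) :
    fderiv ℝ (fun w => refl (f w)) z v = refl (fderiv ℝ f z v) := by
  have := refl.comp_fderiv (f := f) (x := z)
  have h2 : (fun w => refl (f w)) = refl ∘ f := rfl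
  rw [h2, this]; rfl

lemma refl_isCH {f : ℂ → E3} (hf : IsCH Om f) : IsCH Om (fun w => refl (f w)) := by
  obtain ⟨h1, h2, h3, h4⟩ := hf
  refine ⟨refl.contDiff.comp_contDiffOn h1, ?_, ?_, ?_⟩
  · intro z hz
    have := h2 z hz
    simp only [Om, rho, Set.mem_ofPred_eq] at this ⊢
    rw [refl_normsq, refl0, refl1]; exact this
  · intro z hz
    rw [refl_fderiv, refl_fderiv, refl_norm, refl_norm, refl_inner]
    exact h3 z hz
  · intro z hz
    simp only [refl_fderiv]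
    rw [← map_add, h4 z hz, map_zero]

/-! ### The Enneper disc -/

noncomputable def mk3 : (ℂ × ℂ × ℂ) →L[ℝ] E3 :=
  LinearMap.toContinuousLinearMap
    { toFun := fun p => !₂[p.1.re, p.2.1.im, p.2.2.re]
      map_add' := by
        intro x y; ext i; fin_cases i <;> simp
      map_smul' := by
        intro c x; ext i; fin_cases i <;> simp }

lemma mk3_0 (p : ℂ × ℂ × ℂ) : mk3 p 0 = p.1.re := rfl
lemma mk3_1 (p : ℂ × ℂ × ℂ) : mk3 p 1 = p.2.1.im := rfl
lemma mk3_2 (p : ℂ × ℂ × ℂ) : mk3 p 2 = p.2.2.re := rfl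

lemma mk3_fderiv {Φ : ℂ → ℂ × ℂ × ℂ} {Φ' : ℂ × ℂ × ℂ} {z : ℂ} (h : HasDerivAt Φ Φ' z) (v : ℂ) :
    fderiv ℝ (fun w => mk3 (Φ w)) z v = mk3 (v • Φ') := by
  have h1 := (h.hasFDerivAt.restrictScalars ℝ)
  have h2 := mk3.hasFDerivAt.comp z h1
  have h3 : (fun w => mk3 (Φ w)) = mk3 ∘ Φ := rfl
  rw [h3, h2.fderiv]
  simp

noncomputable def Ph (z : ℂ) : ℂ × ℂ × ℂ := (z - z ^ 3 / 12, z + z ^ 3 / 12, z ^ 2 / 2)
noncomputable def Ph1 (z : ℂ) : ℂ × ℂ × ℂ := (1 - z ^ 2 / 4, 1 + z ^ 2 / 4, z)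
noncomputable def Ph2 (z : ℂ) : ℂ × ℂ × ℂ := (-z / 2, z / 2, 1)

lemma Ph_deriv (z : ℂ) : HasDerivAt Ph (Ph1 z) z := by
  have a3 := (hasDerivAt_pow 3 z).div_const 12
  have a2 := (hasDerivAt_pow 2 z).div_const 2
  have b1 := (hasDerivAt_id' z).fun_sub a3
  have b2 := (hasDerivAt_id' z).fun_add a3
  refine (b1.prodMk (b2.prodMk a2)).congr_deriv ?_
  simp only [Ph1]
  refine Prod.ext ?_ (Prod.ext ?_ ?_) <;> simp <;> ring

lemma Ph1_deriv (z : ℂ) : HasDerivAt Ph1 (Ph2 z) z := by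
  have a2 := (hasDerivAt_pow 2 z).div_const 4
  have b1 := a2.const_sub 1
  have b2 := a2.const_add 1
  refine (b1.prodMk (b2.prodMk (hasDerivAt_id' z))).congr_deriv ?_
  simp only [Ph2]
  refine Prod.ext ?_ (Prod.ext ?_ ?_) <;> simp <;> ring

noncomputable def enn (z : ℂ) : E3 := mk3 (Ph z)

lemma enn_fderiv (z v : ℂ) : fderiv ℝ enn z v = mk3 (v • Ph1 z) := mk3_fderiv (Ph_deriv z) v

lemma poly_ineq (a b : ℝ) (ha : 0 ≤ a) (hb : 0 ≤ b) (hab : a + b ≤ 1) :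
    40 * ((a * (12 + 3 * b - a) ^ 2 / 144) ^ 2 + (b * (12 + 3 * a - b) ^ 2 / 144) ^ 2) +
      (a * (12 + 3 * b - a) ^ 2 / 144 + b * (12 + 3 * a - b) ^ 2 / 144 + (a - b) ^ 2 / 4) < 30 := by
  have hX : a * (12 + 3 * b - a) ^ 2 ≤ a * (15 - 4 * a) ^ 2 := by
    apply mul_le_mul_of_nonneg_left _ ha
    apply pow_le_pow_left₀ <;> linarith
  have hY : b * (12 + 3 * a - b) ^ 2 ≤ (1 - a) * (11 + 4 * a) ^ 2 := by
    have h1 : 0 ≤ 1 - a - b := by linarith
    have h2 : 0 ≤ (12 + 3 * a) * (12 + 3 * a - 2 * (b + (1 - a))) +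
        (b ^ 2 + b * (1 - a) + (1 - a) ^ 2) := by
      have : 0 ≤ 12 + 3 * a - 2 * (b + (1 - a)) := by linarith
      have : 0 ≤ 1 - a := by linarith
      positivity
    nlinarith [mul_nonneg h1 h2]
  have hX0 : 0 ≤ a * (12 + 3 * b - a) ^ 2 := by positivity
  have hY0 : 0 ≤ b * (12 + 3 * a - b) ^ 2 := by positivity
  have ha1 : 0 ≤ 1 - a := by linarith
  obtain ⟨m, hm⟩ : ∃ m, m = a * (1 - a) := ⟨_, rfl⟩
  have hm0 : 0 ≤ m := hm ▸ mul_nonneg ha ha1
  have hm1 : m ≤ 1 / 4 := by rw [hm]; nlinarith [sq_nonneg (a - 1 / 2)]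
  have q1 : (a * (15 - 4 * a) ^ 2) ^ 2 + ((1 - a) * (11 + 4 * a) ^ 2) ^ 2 =
      14641 - 7986 * m + 26304 * m ^ 2 - 512 * m ^ 3 := by
    rw [hm]; ring
  have q2 : a * (15 - 4 * a) ^ 2 + (1 - a) * (11 + 4 * a) ^ 2 = 121 + 192 * m := by
    rw [hm]; ring
  have q3 : (a - b) ^ 2 ≤ 1 := by
    have : |a - b| ≤ 1 := abs_le.2 ⟨by linarith, by linarith⟩
    exact (sq_le_one_iff_abs_le_one _).2 this
  have q4 : (a * (12 + 3 * b - a) ^ 2) ^ 2 ≤ (a * (15 - 4 * a) ^ 2) ^ 2 :=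
    pow_le_pow_left₀ hX0 hX 2
  have q5 : (b * (12 + 3 * a - b) ^ 2) ^ 2 ≤ ((1 - a) * (11 + 4 * a) ^ 2) ^ 2 :=
    pow_le_pow_left₀ hY0 hY 2
  have q6 : 14641 - 7986 * m + 26304 * m ^ 2 - 512 * m ^ 3 ≤ 14641 := by
    have : 0 ≤ m ^ 3 := by positivity
    nlinarith [mul_nonneg hm0 (sub_nonneg.2 hm1)]
  have r1 : (a * (12 + 3 * b - a) ^ 2) ^ 2 + (b * (12 + 3 * a - b) ^ 2) ^ 2 ≤ 14641 := by
    linarith
  have r2 : a * (12 + 3 * b - a) ^ 2 + b * (12 + 3 * a - b) ^ 2 ≤ 169 := by linarith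
  generalize a * (12 + 3 * b - a) ^ 2 = X at r1 r2 ⊢
  generalize b * (12 + 3 * a - b) ^ 2 = Y at r1 r2 ⊢
  generalize (a - b) ^ 2 = Z at q3 ⊢
  have : 40 * ((X / 144) ^ 2 + (Y / 144) ^ 2) = 40 / 20736 * (X ^ 2 + Y ^ 2) := by ring
  linarith

lemma enn_mem (z : ℂ) (hz : z ∈ ball (0 : ℂ) 1) : enn z ∈ Om := by
  rw [mem_ball_zero_iff] at hz
  have h1 : z.re ^ 2 + z.im ^ 2 ≤ 1 := by
    have := Complex.sq_norm z
    rw [Complex.normSq_apply] at this
    nlinarith [norm_nonneg z]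
  have h := poly_ineq (z.re ^ 2) (z.im ^ 2) (sq_nonneg _) (sq_nonneg _) h1
  have e0 : enn z 0 = z.re * (12 + 3 * z.im ^ 2 - z.re ^ 2) / 12 := by
    simp only [enn, mk3_0, Ph, pow_succ, pow_zero, one_mul, Complex.sub_re, Complex.div_ofNat_re,
      Complex.mul_re, Complex.mul_im]
    ring
  have e1 : enn z 1 = z.im * (12 + 3 * z.re ^ 2 - z.im ^ 2) / 12 := by
    simp only [enn, mk3_1, Ph, pow_succ, pow_zero, one_mul, Complex.add_im, Complex.div_ofNat_im,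
      Complex.mul_re, Complex.mul_im]
    ring
  have e2 : enn z 2 = (z.re ^ 2 - z.im ^ 2) / 2 := by
    simp only [enn, mk3_2, Ph, pow_succ, pow_zero, one_mul, Complex.div_ofNat_re,
      Complex.mul_re, Complex.mul_im]
    try ring
  simp only [Om, rho, Set.mem_ofPred_eq, normsq3, e0, e1, e2]
  have : 40 * ((z.re * (12 + 3 * z.im ^ 2 - z.re ^ 2) / 12) ^ 4 +
      (z.im * (12 + 3 * z.re ^ 2 - z.im ^ 2) / 12) ^ 4) +
      ((z.re * (12 + 3 * z.im ^ 2 - z.re ^ 2) / 12) ^ 2 +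
      (z.im * (12 + 3 * z.re ^ 2 - z.im ^ 2) / 12) ^ 2 + ((z.re ^ 2 - z.im ^ 2) / 2) ^ 2) =
      40 * ((z.re ^ 2 * (12 + 3 * z.im ^ 2 - z.re ^ 2) ^ 2 / 144) ^ 2 +
        (z.im ^ 2 * (12 + 3 * z.re ^ 2 - z.im ^ 2) ^ 2 / 144) ^ 2) +
      (z.re ^ 2 * (12 + 3 * z.im ^ 2 - z.re ^ 2) ^ 2 / 144 +
        z.im ^ 2 * (12 + 3 * z.re ^ 2 - z.im ^ 2) ^ 2 / 144 + (z.re ^ 2 - z.im ^ 2) ^ 2 / 4) := by
    ring
  linarith

lemma enn_isCH : IsCH Om enn := by
  refine ⟨?_, enn_mem, ?_, ?_⟩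
  · have h : ContDiff ℝ 2 Ph := by unfold Ph; fun_prop
    exact (mk3.contDiff.comp h).contDiffOn
  · intro z _
    rw [enn_fderiv, enn_fderiv]
    constructor
    · apply (pow_left_inj₀ (norm_nonneg _) (norm_nonneg _) two_ne_zero).1
      rw [normsq3, normsq3]
      simp only [mk3_0, mk3_1, mk3_2, Ph1, Prod.smul_mk, smul_eq_mul, pow_succ, pow_zero,
        one_mul, Complex.sub_re, Complex.add_re, Complex.sub_im, Complex.add_im,
        Complex.div_ofNat_re, Complex.div_ofNat_im, Complex.mul_re, Complex.mul_im, Complex.I_re,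
        Complex.I_im, Complex.one_re, Complex.one_im]
      ring
    · simp only [inner3, mk3_0, mk3_1, mk3_2, Ph1, Prod.smul_mk, smul_eq_mul, pow_succ, pow_zero,
        one_mul, Complex.sub_re, Complex.add_re, Complex.sub_im, Complex.add_im,
        Complex.div_ofNat_re, Complex.div_ofNat_im, Complex.mul_re, Complex.mul_im, Complex.I_re,
        Complex.I_im, Complex.one_re, Complex.one_im]
      ring
  · intro z _
    simp only [enn_fderiv]
    rw [mk3_fderiv ((Ph1_deriv z).fun_const_smul (1 : ℂ)), mk3_fderiv ((Ph1_deriv z).fun_const_smul I),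
      ← map_add, smul_smul, smul_smul, I_mul_I, ← add_smul]
    simp

noncomputable def e0 : E3 := !₂[1, 0, 0]
noncomputable def e1 : E3 := !₂[0, 1, 0]

lemma enn_zero : enn 0 = 0 := by
  have : Ph 0 = 0 := by simp [Ph]
  rw [enn, this, map_zero]

lemma enn_d1 : fderiv ℝ enn 0 1 = (1 : ℝ) • e0 := by
  rw [enn_fderiv]
  ext i; fin_cases i <;> simp [mk3, Ph1, e0]

lemma enn_dI : fderiv ℝ enn 0 I = (1 : ℝ) • e1 := by
  rw [enn_fderiv]
  ext i; fin_cases i <;> simp [mk3, Ph1, e1]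

/-! ### Flat discs are holomorphic -/

lemma coord_fderiv {f : ℂ → E3} {z : ℂ} (hf : DifferentiableAt ℝ f z) (j : Fin 3) (v : ℂ) :
    fderiv ℝ (fun w => f w j) z v = fderiv ℝ f z v j := by
  have := ((EuclideanSpace.proj j : E3 →L[ℝ] ℝ).hasFDerivAt.comp z hf.hasFDerivAt).fderiv
  have h2 : (fun w => f w j) = (EuclideanSpace.proj j : E3 →L[ℝ] ℝ) ∘ f := rfl
  rw [h2, this]; rfl

lemma coord_harmonic {Ω : Set E3} {f : ℂ → E3} (hf : IsCH Ω f) (j : Fin 3) {z : ℂ}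
    (hz : z ∈ ball (0 : ℂ) 1) : InnerProductSpace.HarmonicAt (fun w => f w j) z := by
  obtain ⟨h1, -, -, h4⟩ := hf
  have hc : ∀ w ∈ ball (0 : ℂ) 1, ContDiffAt ℝ 2 f w := fun w hw =>
    h1.contDiffAt (isOpen_ball.mem_nhds hw)
  have hcj : ∀ w ∈ ball (0 : ℂ) 1, ContDiffAt ℝ 2 (fun w => f w j) w := fun w hw =>
    (EuclideanSpace.proj j : E3 →L[ℝ] ℝ).contDiff.contDiffAt.comp w (hc w hw)
  refine ⟨hcj z hz, ?_⟩
  filter_upwards [isOpen_ball.mem_nhds hz] with w hw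
  rw [InnerProductSpace.laplacian_eq_iteratedFDeriv_complexPlane]
  simp only [iteratedFDeriv_two_apply, Matrix.cons_val_zero, Matrix.cons_val_one,
    Matrix.cons_val_fin_one, Pi.zero_apply]
  have key : ∀ v : ℂ, fderiv ℝ (fderiv ℝ (fun w => f w j)) w v v =
      fderiv ℝ (fun y => fderiv ℝ f y v) w v j := by
    intro v
    have d1 : DifferentiableAt ℝ (fderiv ℝ (fun w => f w j)) w :=
      ((hcj w hw).fderiv_right (m := 1) (by norm_num)).differentiableAt (by norm_num)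
    have d2 : DifferentiableAt ℝ (fun y => fderiv ℝ f y v) w :=
      (((hc w hw).fderiv_right (m := 1) (by norm_num)).differentiableAt
        (by norm_num)).clm_apply (differentiableAt_const v)
    have e1 : fderiv ℝ (fun y => fderiv ℝ (fun w => f w j) y v) w v =
        fderiv ℝ (fderiv ℝ (fun w => f w j)) w v v := by
      rw [fderiv_clm_apply d1 (differentiableAt_const v)]
      simp
    have e2 : (fun y => fderiv ℝ (fun w => f w j) y v) =ᶠ[𝓝 w]
        fun y => fderiv ℝ f y v j := by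
      filter_upwards [isOpen_ball.mem_nhds hw] with y hy
      exact coord_fderiv ((hc y hy).differentiableAt (by norm_num)) j v
    rw [← e1, e2.fderiv_eq, coord_fderiv d2]
  rw [key, key]
  have := congrArg (fun x : E3 => x j) (h4 w hw)
  simpa using this

/-- the planar part of a map -/
noncomputable def pl (f : ℂ → E3) (z : ℂ) : ℂ := (f z 0 : ℂ) + I * (f z 1 : ℂ)

lemma flat_holo {Ω : Set E3} {f : ℂ → E3} (hf : IsCH Ω f) {r : ℝ} (hr : 0 < r)
    (d1 : fderiv ℝ f 0 1 = r • e0) (dI : fderiv ℝ f 0 I = r • e1)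
    (hflat : ∀ z ∈ ball (0 : ℂ) 1, f z 2 = 0) :
    DifferentiableOn ℂ (pl f) (ball 0 1) ∧ deriv (pl f) 0 = r := by
  have hc : ∀ w ∈ ball (0 : ℂ) 1, DifferentiableAt ℝ f w := fun w hw =>
    (hf.1.contDiffAt (isOpen_ball.mem_nhds hw)).differentiableAt (by norm_num)
  have hcj : ∀ j : Fin 3, ∀ w ∈ ball (0 : ℂ) 1, DifferentiableAt ℝ (fun w => f w j) w :=
    fun j w hw => (coord_harmonic hf j hw).1.differentiableAt (by norm_num)
  have h2 : ∀ w ∈ ball (0 : ℂ) 1, ∀ v, fderiv ℝ f w v 2 = 0 := by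
    intro w hw v
    rw [← coord_fderiv (hc w hw)]
    have : (fun w => f w 2) =ᶠ[𝓝 w] fun _ => (0 : ℝ) := by
      filter_upwards [isOpen_ball.mem_nhds hw] with y hy using hflat y hy
    rw [this.fderiv_eq]; simp
  let φ : Fin 3 → ℂ → ℂ := fun j z =>
    fderiv ℝ (fun w => f w j) z 1 - I * fderiv ℝ (fun w => f w j) z I
  have hφ : ∀ j, AnalyticOnNhd ℂ (φ j) (ball 0 1) := fun j z hz =>
    HarmonicAt.analyticAt_complex_partial (coord_harmonic hf j hz)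
  have hφe : ∀ j, ∀ z ∈ ball (0 : ℂ) 1,
      φ j z = (fderiv ℝ f z 1 j : ℂ) - I * (fderiv ℝ f z I j : ℂ) := by
    intro j z hz
    simp only [φ, coord_fderiv (hc z hz)]
  have hA : AnalyticOnNhd ℂ (fun z => φ 0 z + I * φ 1 z) (ball 0 1) :=
    (hφ 0).add (analyticOnNhd_const.mul (hφ 1))
  have hB : AnalyticOnNhd ℂ (fun z => φ 0 z - I * φ 1 z) (ball 0 1) :=
    (hφ 0).sub (analyticOnNhd_const.mul (hφ 1))
  have hAB : ∀ z ∈ ball (0 : ℂ) 1, (φ 0 z + I * φ 1 z) * (φ 0 z - I * φ 1 z) = 0 := by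
    intro z hz
    obtain ⟨c1, c2⟩ := hf.2.2.1 z hz
    have c3 : ‖fderiv ℝ f z 1‖ ^ 2 = ‖fderiv ℝ f z I‖ ^ 2 := by rw [c1]
    rw [normsq3, normsq3, h2 z hz, h2 z hz] at c3
    rw [inner3, h2 z hz, h2 z hz] at c2
    rw [hφe 0 z hz, hφe 1 z hz]
    apply Complex.ext
    · simp; nlinarith
    · simp; nlinarith
  have h00 : (0 : ℂ) ∈ ball (0 : ℂ) 1 := mem_ball_self one_pos
  have hB0 : ∀ z ∈ ball (0 : ℂ) 1, φ 0 z - I * φ 1 z = 0 := by
    rcases hA.eq_zero_or_eq_zero_of_mul_eq_zero hB hAB (convex_ball _ _).isPreconnected with h | h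
    · exfalso
      have := h 0 h00
      rw [hφe 0 0 h00, hφe 1 0 h00, d1, dI] at this
      have := congrArg Complex.re this
      simp [e0, e1] at this
      linarith
    · exact h
  have hpl : ∀ z ∈ ball (0 : ℂ) 1, DifferentiableAt ℝ (pl f) z ∧ ∀ v, fderiv ℝ (pl f) z v =
      (fderiv ℝ f z v 0 : ℂ) + I * (fderiv ℝ f z v 1 : ℂ) := by
    intro z hz
    have a0 := ofRealCLM.hasFDerivAt.comp z (hcj 0 z hz).hasFDerivAt
    have a1 := (ofRealCLM.hasFDerivAt.comp z (hcj 1 z hz).hasFDerivAt).const_mul I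
    have a2 : HasFDerivAt (pl f) _ z := a0.add a1
    refine ⟨a2.differentiableAt, fun v => ?_⟩
    rw [a2.fderiv]
    simp [coord_fderiv (hc z hz)]
  have hd : ∀ z ∈ ball (0 : ℂ) 1, DifferentiableAt ℂ (pl f) z := by
    intro z hz
    refine differentiableAt_complex_iff_differentiableAt_real.2 ⟨(hpl z hz).1, ?_⟩
    have := hB0 z hz
    rw [hφe 0 z hz, hφe 1 z hz] at this
    have t1 := congrArg Complex.re this
    have t2 := congrArg Complex.im this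
    simp at t1 t2
    rw [(hpl z hz).2, (hpl z hz).2]
    apply Complex.ext
    · simp; linarith
    · simp; linarith
  refine ⟨fun z hz => (hd z hz).differentiableWithinAt, ?_⟩
  have : fderiv ℝ (pl f) 0 1 = deriv (pl f) 0 := by
    rw [(hd 0 h00).fderiv_restrictScalars ℝ]; simp
  rw [← this, (hpl 0 h00).2, d1]
  simp [e0]

/-- a holomorphic disc in the planar section has derivative `< 1` at the centre -/
lemma holo_bound {w : ℂ → ℂ} (hw : DifferentiableOn ℂ w (ball 0 1)) (h0 : w 0 = 0) {r : ℝ}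
    (hr : deriv w 0 = r)
    (hb : ∀ z ∈ ball (0 : ℂ) 1,
      40 * ((w z).re ^ 4 + (w z).im ^ 4) + ((w z).re ^ 2 + (w z).im ^ 2) < 30) : r < 1 := by
  by_contra hr1
  push Not at hr1
  have h00 : (0 : ℂ) ∈ ball (0 : ℂ) 1 := mem_ball_self one_pos
  set q := dslope w 0 with hq
  have hqd : DifferentiableOn ℂ q (ball 0 1) :=
    (differentiableOn_dslope (isOpen_ball.mem_nhds h00)).2 hw
  have hq0 : q 0 = r := by rw [hq, dslope_same, hr]
  have hwq : ∀ z, w z = z * q z := by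
    intro z
    have := sub_smul_dslope w 0 z
    simp only [sub_zero, smul_eq_mul, h0] at this
    exact this.symm
  obtain ⟨t, ht⟩ : ∃ t : ℝ, t = 199 / 200 := ⟨_, rfl⟩
  have ht0 : 0 < t := by rw [ht]; norm_num
  have ht1 : t < 1 := by rw [ht]; norm_num
  let G : ℂ → ℂ := fun z =>
    30 * (t : ℂ) ^ 4 * (2 * q z ^ 2 - 1) + 10 * w z ^ 4 + (t : ℂ) ^ 2 * (2 * q z - 1)
  have hG : DifferentiableOn ℂ G (ball 0 1) := by
    simp only [G]; fun_prop
  have hE : DiffContOnCl ℂ (fun z => exp (G z)) (ball 0 t) := by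
    apply DifferentiableOn.diffContOnCl
    rw [closure_ball _ ht0.ne']
    exact hG.cexp.mono (closedBall_subset_ball ht1)
  have hmax := Complex.norm_le_of_forall_mem_frontier_norm_le (U := ball (0 : ℂ) t)
    isBounded_ball hE (C := Real.exp 30) (z := 0) ?_ (subset_closure (mem_ball_self ht0))
  · rw [norm_exp, Real.exp_le_exp] at hmax
    have : G 0 = ((30 * t ^ 4 * (2 * r ^ 2 - 1) + t ^ 2 * (2 * r - 1) : ℝ) : ℂ) := by
      simp only [G, hq0, h0]; push_cast; ring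
    rw [this, ofReal_re, ht] at hmax
    nlinarith
  · intro z hz
    rw [frontier_ball _ ht0.ne', mem_sphere_zero_iff_norm] at hz
    have hz1 : z ∈ ball (0 : ℂ) 1 := by rw [mem_ball_zero_iff, hz]; exact ht1
    rw [norm_exp, Real.exp_le_exp]
    have hb' := hb z hz1
    have n1 : (w z).re ^ 2 + (w z).im ^ 2 = t ^ 2 * ((q z).re ^ 2 + (q z).im ^ 2) := by
      have a : ∀ y : ℂ, y.re ^ 2 + y.im ^ 2 = ‖y‖ ^ 2 := by
        intro y; rw [Complex.sq_norm, Complex.normSq_apply]; ring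
      rw [a, a, hwq z, norm_mul, hz]; ring
    have n2 : (G z).re = 30 * t ^ 4 * (2 * ((q z).re ^ 2 - (q z).im ^ 2) - 1) +
        10 * ((w z).re ^ 4 - 6 * (w z).re ^ 2 * (w z).im ^ 2 + (w z).im ^ 4) +
        t ^ 2 * (2 * (q z).re - 1) := by
      simp only [G, ← ofReal_pow]
      simp [pow_succ]
      ring
    rw [n2]
    generalize (w z).re = u at *
    generalize (w z).im = v at *
    generalize (q z).re = a at *
    generalize (q z).im = b at *
    have s1 : 2 * (a ^ 2 - b ^ 2) - 1 ≤ (a ^ 2 + b ^ 2) ^ 2 := by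
      nlinarith [sq_nonneg (a ^ 2 + b ^ 2 - 1), sq_nonneg b]
    have s2 : 2 * a - 1 ≤ a ^ 2 + b ^ 2 := by nlinarith [sq_nonneg (a - 1), sq_nonneg b]
    have s3 : 30 * t ^ 4 * (2 * (a ^ 2 - b ^ 2) - 1) ≤ 30 * (u ^ 2 + v ^ 2) ^ 2 := by
      rw [n1]
      have := mul_le_mul_of_nonneg_left s1 (by positivity : 0 ≤ 30 * t ^ 4)
      linarith [this, show 30 * (t ^ 2 * (a ^ 2 + b ^ 2)) ^ 2 =
        30 * t ^ 4 * (a ^ 2 + b ^ 2) ^ 2 by ring]
    have s4 : t ^ 2 * (2 * a - 1) ≤ u ^ 2 + v ^ 2 := by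
      rw [n1]; exact mul_le_mul_of_nonneg_left s2 (by positivity)
    nlinarith

/-- extremal discs -/
def IsExt (Ω : Set E3) (p u v : E3) (f : ℂ → E3) : Prop :=
  ∃ r : ℝ, 0 < r ∧ IsCH Ω f ∧ f 0 = p ∧ fderiv ℝ f 0 (1 : ℂ) = r • u ∧
    fderiv ℝ f 0 Complex.I = r • v ∧
    ∀ g : ℂ → E3, ∀ s : ℝ, 0 < s → IsCH Ω g → g 0 = p → fderiv ℝ g 0 (1 : ℂ) = s • u →
      fderiv ℝ g 0 Complex.I = s • v → s ≤ r

lemma refl_isExt {f : ℂ → E3} (hf : IsExt Om 0 e0 e1 f) :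
    IsExt Om 0 e0 e1 (fun w => refl (f w)) := by
  obtain ⟨r, hr, h1, h2, h3, h4, h5⟩ := hf
  refine ⟨r, hr, refl_isCH h1, by simp only [h2, map_zero], ?_, ?_, h5⟩
  · rw [refl_fderiv, h3]
    ext i; fin_cases i <;> simp [refl0, refl1, refl2, e0]
  · rw [refl_fderiv, h4]
    ext i; fin_cases i <;> simp [refl0, refl1, refl2, e1]

theorem not_unique {f : ℂ → E3} (hf : IsExt Om 0 e0 e1 f) :
    ¬ EqOn (fun w => refl (f w)) f (ball (0 : ℂ) 1) := by
  intro heq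
  obtain ⟨r, hr, h1, h2, h3, h4, h5⟩ := hf
  have hr1 : 1 ≤ r := h5 enn 1 one_pos enn_isCH enn_zero enn_d1 enn_dI
  have hflat : ∀ z ∈ ball (0 : ℂ) 1, f z 2 = 0 := by
    intro z hz
    have := congrArg (fun x : E3 => x 2) (heq hz)
    simp only [refl2] at this
    linarith
  obtain ⟨hd, hder⟩ := flat_holo h1 hr h3 h4 hflat
  have := holo_bound hd (by simp [pl, h2]) hder (by
    intro z hz
    have := h1.2.1 z hz
    simp only [Om, rho, Set.mem_ofPred_eq, normsq3, hflat z hz] at this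
    have a : (pl f z).re = f z 0 := by simp [pl]
    have b : (pl f z).im = f z 1 := by simp [pl]
    rw [a, b]; linarith)
  linarith

lemma e0_norm : ‖e0‖ = ‖e1‖ := by
  apply (pow_left_inj₀ (norm_nonneg _) (norm_nonneg _) two_ne_zero).1
  rw [normsq3, normsq3]; simp [e0, e1]

lemma e_inner : inner ℝ e0 e1 = 0 := by
  rw [inner3]; simp [e0, e1]

lemma e0_ne : e0 ≠ 0 := by
  intro h
  have := congrArg (fun x : E3 => x 0) h
  simp [e0] at this

end Pool.Agent.H92.Enneper
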