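import Pool.Agent.H92.FMDefs

open MeasureTheory Complex Filter Topology Set
open scoped ENNReal

namespace Pool.Agent.H92.FM

variable {d : ℕ}

noncomputable def ch (ξ t : E d) : ℂ := exp (2 * Real.pi * I * (inner ℝ ξ t : ℝ))

theorem norm_ch (ξ t : E d) : ‖ch ξ t‖ = 1 := by
  rw [← norm_exp_ofReal_mul_I (2 * Real.pi * inner ℝ ξ t), ch]; congr 2; push_cast; ring

theorem ch_cont (ξ : E d) : Continuous (ch ξ) := by unfold ch; fun_prop

theorem ch_smul (n : ℕ) (ξ t : E d) : ch ((n : ℝ) • ξ) t = ch ξ t ^ n := by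
  rw [ch, ch, ← exp_nat_mul, inner_smul_left]; congr 1; simp; ring

noncomputable def disc (s : Finset ℕ) (ξ : ℕ → E d) (c : E d → ℂ) : CM d where
  m := ∑ j ∈ s, Measure.dirac (ξ j)
  h := c
  lf := inferInstance
  li := (integrable_finsetSum_measure.mpr fun _ _ => integrable_dirac (by simp)).locallyIntegrable

noncomputable def tp (s : Finset ℕ) (ξ : ℕ → E d) (c : E d → ℂ) (x : E d) : ℂ :=
  ∑ j ∈ s, c (ξ j) * ch (ξ j) x

theorem tp_cont (s : Finset ℕ) (ξ : ℕ → E d) (c : E d → ℂ) : Continuous (tp s ξ c) :=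
  continuous_finsetSum _ fun _ _ => continuous_const.mul (ch_cont _)

noncomputable def trig (s : Finset ℕ) (ξ : ℕ → E d) (c : E d → ℂ) : CM d where
  m := volume
  h := tp s ξ c
  lf := inferInstance
  li := (tp_cont s ξ c).locallyIntegrable

theorem ev_disc (s : Finset ℕ) (ξ : ℕ → E d) (c f : E d → ℂ) :
    (disc s ξ c).ev f = ∑ j ∈ s, f (ξ j) * c (ξ j) := by
  simp only [CM.ev, disc]
  rw [integral_finsetSum_measure fun _ _ => integrable_dirac enorm_lt_top]
  simp

theorem int_disc {F : Type} [NormedAddCommGroup F] (s : Finset ℕ) (ξ : ℕ → E d) (c : E d → ℂ)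
    (f : E d → F) : Integrable f (disc s ξ c).var := by
  have : IsFiniteMeasure (disc s ξ c).var := isFiniteMeasure_withDensity
    (show Integrable c (∑ j ∈ s, Measure.dirac (ξ j)) from
      integrable_finsetSum_measure.mpr fun _ _ => integrable_dirac (by simp)).2.ne
  have fin : (ξ '' s).Finite := s.finite_toSet.image ξ
  have h : ∀ᵐ x ∂(disc s ξ c).var, x ∈ ξ '' s := by
    refine (withDensity_absolutelyContinuous _ _).ae_le ?_
    show (∑ j ∈ s, Measure.dirac (ξ j)) (ξ '' s)ᶜ = 0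
    rw [Measure.finsetSum_apply]
    exact Finset.sum_eq_zero fun j hj => by
      rw [Measure.dirac_apply' _ fin.measurableSet.compl, indicator_of_notMem]
      exact fun h => h ⟨j, hj, rfl⟩
  rw [← Measure.restrict_eq_self_of_ae_mem h]
  exact IntegrableOn.of_finite fin

theorem int_ch {g : E d → ℂ} (hg : Integrable g) (ξ : E d) : Integrable fun t => g t * ch ξ t :=
  hg.mul_bdd (c := 1) (ch_cont ξ).aestronglyMeasurable (.of_forall fun t => (norm_ch ξ t).le)

theorem ev_trig (s : Finset ℕ) (ξ : ℕ → E d) (c : E d → ℂ) {g : E d → ℂ} (hg : Integrable g) :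
    (trig s ξ c).ev g = (disc s ξ c).ev (ifou g) := by
  rw [ev_disc]
  simp only [CM.ev, trig, tp, Finset.mul_sum, mul_left_comm (g _)]
  rw [integral_finsetSum _ fun j _ => (int_ch hg _).const_mul _]
  exact Finset.sum_congr rfl fun j _ => by rw [integral_const_mul, mul_comm]; rfl

theorem Cc.int {f : E d → ℂ} (h : Cc f) : Integrable f := h.1.integrable_of_hasCompactSupport h.2

theorem int_conv {f g : E d → ℂ} (hf : Integrable f) (hg : Integrable g) :
    Integrable (conv f g) := hf.integrable_convolution (ContinuousLinearMap.mul ℂ ℂ) hg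

theorem isFT (s : Finset ℕ) (ξ : ℕ → E d) (c : E d → ℂ) : IsFT (trig s ξ c) (disc s ξ c) := by
  intro g hg
  refine ⟨int_disc _ _ _ _, ev_trig _ _ _ ?_⟩
  induction hg using Submodule.span_induction with
  | mem g h => obtain ⟨f, h, a, b, rfl⟩ := h; exact int_conv a.int b.int
  | zero => exact integrable_zero _ _ _
  | add _ _ _ _ a b => exact a.add b
  | smul a _ _ b => exact b.smul a

theorem ifou_conv {f g : E d → ℂ} (hf : Integrable f) (hg : Integrable g) (ξ : E d) :
    ifou (conv f g) ξ = ifou f ξ * ifou g ξ := by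
  refine Eq.trans ?_ (integral_convolution (ContinuousLinearMap.mul ℂ ℂ) (int_ch hf ξ)
    (int_ch hg ξ))
  refine integral_congr_ae (.of_forall fun x => ?_)
  simp only [convolution_mul, conv, ← integral_mul_const]
  refine integral_congr_ae (.of_forall fun t => ?_)
  have : ch ξ x = ch ξ t * ch ξ (x - t) := by
    rw [ch, ch, ch, ← exp_add, inner_sub_right]; congr 1; push_cast; ring
  show f t * g (x - t) * ch ξ x = f t * ch ξ t * (g (x - t) * ch ξ (x - t))
  rw [this]; ring

theorem isFTsq (s : Finset ℕ) (ξ : ℕ → E d) (c : E d → ℂ) :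
    IsFTsq (trig s ξ c) (disc s ξ c) := by
  intro f hf
  refine ⟨(memLp_two_iff_integrable_sq_norm (int_disc _ _ _ _).1).mpr (int_disc _ _ _ _), ?_⟩
  have i2 : Integrable fun x => (starRingEnd ℂ) (f (-x)) :=
    (conjCLE : ℂ →L[ℝ] ℂ).integrable_comp hf.int.comp_neg
  rw [ev_trig _ _ _ (int_conv hf.int i2)]
  congr 1
  funext x
  rw [ifou_conv hf.int i2, ofReal_pow, ← mul_conj']
  congr 1
  rw [ifou, ifou, ← integral_conj, ← integral_neg_eq_self]
  refine integral_congr_ae (.of_forall fun t => ?_)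
  simp only [neg_neg, map_mul, ← exp_conj, inner_neg_right, conj_ofReal, conj_I, map_ofNat]
  congr 2; push_cast; ring

theorem nrm_trig (s : Finset ℕ) (ξ : ℕ → E d) (c : E d → ℂ) {K : Set (E d)} (hK : IsCompact K)
    {C : ℝ} (h : ∀ x, ‖tp s ξ c x‖ ≤ C) : (trig s ξ c).nrm K ≤ ENNReal.ofReal C * volume K := by
  refine iSup_le fun x => ?_
  rw [CM.var, withDensity_apply _ (hK.image (by fun_prop)).measurableSet]
  refine (lintegral_mono (g := fun _ => ENNReal.ofReal C) fun y => ?_).trans ?_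
  · show ‖tp s ξ c y‖ₑ ≤ _
    rw [← ofReal_norm]; exact ENNReal.ofReal_le_ofReal (h y)
  · simp [trig]

theorem rs (n : ℕ) : ∃ a b : ℕ → ℝ, (∀ j, |a j| = 1) ∧ (∀ j, |b j| = 1) ∧ ∀ z : ℂ, ‖z‖ = 1 →
    ‖∑ j ∈ Finset.range (2 ^ n), a j * z ^ j‖ ^ 2 +
      ‖∑ j ∈ Finset.range (2 ^ n), b j * z ^ j‖ ^ 2 = 2 * 2 ^ n := by
  induction n with
  | zero => exact ⟨1, 1, by simp, by simp, fun z _ => by simp; norm_num⟩
  | succ n ih =>
    obtain ⟨a, b, ha, hb, h⟩ := ih
    refine ⟨fun j => if j < 2 ^ n then a j else b (j - 2 ^ n),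
      fun j => if j < 2 ^ n then a j else -b (j - 2 ^ n), fun j => ?_, fun j => ?_, fun z hz => ?_⟩
    · beta_reduce; split_ifs <;> simp [ha, hb]
    · beta_reduce; split_ifs <;> simp [ha, hb]
    have e : ∀ c : ℕ → ℝ, ∑ j ∈ Finset.range (2 ^ (n + 1)),
        ((if j < 2 ^ n then a j else c (j - 2 ^ n) : ℝ) : ℂ) * z ^ j =
        ∑ j ∈ Finset.range (2 ^ n), a j * z ^ j +
          z ^ 2 ^ n * ∑ j ∈ Finset.range (2 ^ n), c j * z ^ j := fun c => by
      rw [pow_succ, mul_two, Finset.sum_range_add, Finset.mul_sum]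
      congr 1
      · exact Finset.sum_congr rfl fun j hj => by rw [if_pos (Finset.mem_range.mp hj)]
      · exact Finset.sum_congr rfl fun j _ => by
          rw [if_neg (by omega), Nat.add_sub_cancel_left, pow_add]; ring
    rw [e b, e fun j => -b j]
    simp only [ofReal_neg, neg_mul, Finset.sum_neg_distrib, mul_neg, ← sub_eq_add_neg]
    have := parallelogram_law_with_norm ℝ (∑ j ∈ Finset.range (2 ^ n), a j * z ^ j)
      (z ^ 2 ^ n * ∑ j ∈ Finset.range (2 ^ n), b j * z ^ j)
    rw [norm_mul, norm_pow, hz, one_pow, one_mul] at this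
    have := h z hz
    rw [pow_succ (2 : ℝ)]
    nlinarith

end Pool.Agent.H92.FM
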