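import Mathlib

/-! Complex Radon measures on Euclidean space and their Fourier transforms. -/

open MeasureTheory Complex
open scoped ENNReal

namespace Pool.Agent.H92.FM

/-- Euclidean space of dimension d. -/
abbrev E (d : ℕ) : Type := EuclideanSpace ℝ (Fin d)

/-- A complex Radon measure, written as a locally integrable density h times a locally finite
positive Borel measure m. -/
structure CM (d : ℕ) where
  m : Measure (E d)
  h : E d → ℂ
  lf : IsLocallyFiniteMeasure m
  li : LocallyIntegrable h m

/-- The value of the measure on a function. -/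
noncomputable def CM.ev {d : ℕ} (μ : CM d) (f : E d → ℂ) : ℂ := ∫ x, f x * μ.h x ∂μ.m

/-- The total variation measure. -/
noncomputable def CM.var {d : ℕ} (μ : CM d) : Measure (E d) := μ.m.withDensity fun x => ‖μ.h x‖ₑ

/-- The translation bounded norm for the set K. -/
noncomputable def CM.nrm {d : ℕ} (μ : CM d) (K : Set (E d)) : ℝ≥0∞ :=
  ⨆ x : E d, μ.var ((fun y => x + y) '' K)

/-- Continuous functions with compact support. -/
def Cc {d : ℕ} (f : E d → ℂ) : Prop := Continuous f ∧ HasCompactSupport f

/-- Convolution. -/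
noncomputable def conv {d : ℕ} (f g : E d → ℂ) (x : E d) : ℂ := ∫ t, f t * g (x - t)

/-- The inverse Fourier transform of a function. -/
noncomputable def ifou {d : ℕ} (g : E d → ℂ) (x : E d) : ℂ :=
  ∫ t, g t * exp (2 * Real.pi * I * (inner ℝ x t : ℝ))

/-- The measure ν is the Fourier transform of μ, tested on the span of the convolutions. -/
def IsFT {d : ℕ} (μ ν : CM d) : Prop :=
  ∀ g ∈ Submodule.span ℂ {g : E d → ℂ | ∃ f h, Cc f ∧ Cc h ∧ g = conv f h},
    Integrable (ifou g) ν.var ∧ μ.ev g = ν.ev (ifou g)

/-- The measure ν is the Fourier transform of μ, tested on positive definite convolutions. -/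
def IsFTsq {d : ℕ} (μ ν : CM d) : Prop :=
  ∀ f, Cc f → MemLp (ifou f) 2 ν.var ∧
    μ.ev (conv f fun x => (starRingEnd ℂ) (f (-x))) = ν.ev fun x => ((‖ifou f x‖ ^ 2 : ℝ) : ℂ)

end Pool.Agent.H92.FM
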