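import Mathlib

open Matrix
open scoped ComplexOrder

namespace Pool.Agent.H92.FX

theorem spec {m : Type} [Fintype m] [DecidableEq m] (H : Matrix m m ℂ) (hH : H.IsHermitian) :
    ∃ (U : Matrix m m ℂ) (d : m → ℝ), Uᴴ * U = 1 ∧ U * Uᴴ = 1 ∧
      H = U * diagonal (fun i => (d i : ℂ)) * Uᴴ := by
  refine ⟨hH.eigenvectorUnitary, hH.eigenvalues, ?_, ?_, ?_⟩
  · exact (hH.eigenvectorUnitary.2).1
  · exact (hH.eigenvectorUnitary.2).2
  · have := hH.spectral_theorem
    rw [Unitary.conjStarAlgAut_apply] at this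
    exact this

theorem psd_zero {m k : Type} [Fintype m] [Fintype k] [DecidableEq m] (A : Matrix m m ℂ) (hA : A.PosSemidef)
    (B : Matrix m k ℂ) (h : Bᴴ * A * B = 0) : A * B = 0 := by
  ext i j
  have h1 : star (fun a => B a j) ⬝ᵥ A *ᵥ (fun a => B a j) = 0 := by
    have := congrFun (congrFun h j) j
    rw [Matrix.mul_assoc] at this
    simpa [Matrix.mul_apply, dotProduct, mulVec] using this
  have h2 := (hA.dotProduct_mulVec_zero_iff _).1 h1
  simpa [Matrix.mul_apply, dotProduct, mulVec] using congrFun h2 i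

theorem sum_zero {m ι : Type} [Fintype m] [DecidableEq m] [Fintype ι] (A : ι → Matrix m m ℂ)
    (hA : ∀ i, (A i).PosSemidef) (h : ∑ i, A i = 0) (i : ι) : A i = 0 := by
  have h1 : ∑ i, (A i).trace = 0 := by rw [← Matrix.trace_sum, h, Matrix.trace_zero]
  have h2 := (Finset.sum_eq_zero_iff_of_nonneg (fun i _ => (hA i).trace_nonneg)).1 h1 i (Finset.mem_univ _)
  exact (hA i).trace_eq_zero_iff.1 h2

theorem proj_range {m : ℕ} (P : Matrix (Fin m) (Fin m) ℂ) (hP : Pᴴ = P) (hPP : P * P = P) :
    ∃ (k : ℕ) (V : Matrix (Fin m) (Fin k) ℂ), Vᴴ * V = 1 ∧ V * Vᴴ = P := by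
  obtain ⟨U, d, h1, h2, h3⟩ := spec P hP
  have hD : diagonal (fun i => (d i : ℂ)) = Uᴴ * P * U := by
    rw [h3]; simp only [← Matrix.mul_assoc]; rw [h1, Matrix.one_mul, Matrix.mul_assoc, h1, Matrix.mul_one]
  have hDD : diagonal (fun i => (d i : ℂ)) * diagonal (fun i => (d i : ℂ)) = diagonal (fun i => (d i : ℂ)) := by
    rw [hD]
    calc Uᴴ * P * U * (Uᴴ * P * U) = Uᴴ * P * (U * Uᴴ) * P * U := by simp only [Matrix.mul_assoc]
      _ = _ := by rw [h2, Matrix.mul_one, Matrix.mul_assoc Uᴴ P P, hPP]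
  have hd : ∀ i, d i = 1 ∨ d i = 0 := by
    intro i
    have := congrFun (congrFun hDD i) i
    simp only [diagonal_mul_diagonal, diagonal_apply_eq] at this
    have h4 : d i * d i = d i := by exact_mod_cast this
    by_cases h : d i = 0
    · exact Or.inr h
    · exact Or.inl (mul_left_cancel₀ h (by rw [h4, mul_one]))
  classical
  let S : Finset (Fin m) := Finset.univ.filter (fun i => d i = 1)
  let e : Fin S.card → Fin m := fun a => S.orderEmbOfFin rfl a
  have he : Function.Injective e := (S.orderEmbOfFin rfl).injective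
  have hr : ∀ i, (∃ a, e a = i) ↔ d i = 1 := by
    intro i
    have := S.range_orderEmbOfFin (k := S.card) rfl
    have h5 : i ∈ Set.range (S.orderEmbOfFin rfl) ↔ i ∈ (S : Set (Fin m)) := by rw [this]
    have h6 : i ∈ (S : Set (Fin m)) ↔ d i = 1 := by simp [S]
    exact h5.trans h6
  let E : Matrix (Fin m) (Fin S.card) ℂ := fun i a => if e a = i then 1 else 0
  have hE1 : Eᴴ * E = 1 := by
    ext a b
    simp only [E, Matrix.mul_apply, conjTranspose_apply, one_apply]
    rw [Finset.sum_eq_single (e a)]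
    · by_cases h : a = b
      · simp [h]
      · have : e b ≠ e a := fun h' => h (he h').symm
        simp [h, this]
    · intro i _ hi; simp [hi.symm]
    · simp
  have hE2 : E * Eᴴ = diagonal (fun i => (d i : ℂ)) := by
    ext i j
    simp only [E, Matrix.mul_apply, conjTranspose_apply, diagonal_apply]
    by_cases hi : ∃ a, e a = i
    · obtain ⟨a, rfl⟩ := hi
      rw [Finset.sum_eq_single a]
      · have := (hr (e a)).1 ⟨a, rfl⟩
        by_cases h : e a = j <;> simp [h, this]
        rw [← h, this]; simp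
      · intro b _ hb
        have : e b ≠ e a := fun h' => hb (he h')
        simp [this]
      · simp
    · have h0 : d i = 0 := (hd i).resolve_left (fun h => hi ((hr i).2 h))
      rw [Finset.sum_eq_zero]
      · simp [h0]
      · intro a _
        have : e a ≠ i := fun h => hi ⟨a, h⟩
        simp [this]
  refine ⟨S.card, U * E, ?_, ?_⟩
  · rw [conjTranspose_mul]
    calc Eᴴ * Uᴴ * (U * E) = Eᴴ * (Uᴴ * U) * E := by simp only [Matrix.mul_assoc]
      _ = 1 := by rw [h1, Matrix.mul_one, hE1]
  · rw [conjTranspose_mul, h3, ← hE2]; simp only [Matrix.mul_assoc]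

theorem eigproj {m : ℕ} (H : Matrix (Fin m) (Fin m) ℂ) (hH : H.IsHermitian) (hm : 1 ≤ m)
    (hs : ∀ c : ℂ, H ≠ c • 1) :
    ∃ P : Matrix (Fin m) (Fin m) ℂ, Pᴴ = P ∧ P * P = P ∧ P ≠ 0 ∧ P ≠ 1 ∧
      ∀ X : Matrix (Fin m) (Fin m) ℂ, X * H = H * X → X * P = P * X := by
  classical
  obtain ⟨U, d, h1, h2, h3⟩ := spec H hH
  let i0 : Fin m := ⟨0, hm⟩
  let q : Fin m → ℂ := fun i => if d i = d i0 then 1 else 0
  have hc : ∀ A : Matrix (Fin m) (Fin m) ℂ, Uᴴ * (U * A * Uᴴ) * U = A := by
    intro A; simp only [← Matrix.mul_assoc]; rw [h1, Matrix.one_mul, Matrix.mul_assoc, h1, Matrix.mul_one]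
  have hc2 : ∀ A : Matrix (Fin m) (Fin m) ℂ, U * (Uᴴ * A * U) * Uᴴ = A := by
    intro A; simp only [← Matrix.mul_assoc]; rw [h2, Matrix.one_mul, Matrix.mul_assoc, h2, Matrix.mul_one]
  have hmul : ∀ A B : Matrix (Fin m) (Fin m) ℂ, (U * A * Uᴴ) * (U * B * Uᴴ) = U * (A * B) * Uᴴ := by
    intro A B
    calc (U * A * Uᴴ) * (U * B * Uᴴ) = U * A * (Uᴴ * U) * B * Uᴴ := by simp only [Matrix.mul_assoc]
      _ = _ := by rw [h1, Matrix.mul_one]; simp only [Matrix.mul_assoc]
  refine ⟨U * diagonal q * Uᴴ, ?_, ?_, ?_, ?_, ?_⟩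
  · have : (diagonal q)ᴴ = diagonal q := by
      rw [diagonal_conjTranspose]; congr 1; ext i; simp only [q, Pi.star_apply]; split_ifs <;> simp
    simp only [conjTranspose_mul, conjTranspose_conjTranspose, this, Matrix.mul_assoc]
  · rw [hmul, diagonal_mul_diagonal]; congr 3; ext i; simp only [q]; split_ifs <;> simp
  · intro h
    have := hc (diagonal q)
    rw [h] at this
    have := congrFun (congrFun this i0) i0
    simp [q] at this
  · intro h
    have := hc (diagonal q)
    rw [h, Matrix.mul_one, h1] at this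
    apply hs (d i0)
    have h5 : diagonal (fun i => (d i : ℂ)) = (d i0 : ℂ) • (1 : Matrix (Fin m) (Fin m) ℂ) := by
      ext i j
      have h6 := congrFun (congrFun this i) i
      simp only [one_apply_eq, diagonal_apply_eq, q] at h6
      have h7 : d i = d i0 := by
        by_contra h8; simp [h8] at h6
      by_cases hij : i = j
      · subst hij; simp [h7]
      · simp [hij]
    rw [h3, h5]; simp [h2]
  · intro X hX
    have e1 : X = U * (Uᴴ * X * U) * Uᴴ := (hc2 X).symm
    set Y := Uᴴ * X * U with hY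
    have h4 : Y * diagonal (fun i => (d i : ℂ)) = diagonal (fun i => (d i : ℂ)) * Y := by
      rw [e1, h3, hmul, hmul] at hX
      rw [← hc (Y * _), hX, hc]
    have h5 : Y * diagonal q = diagonal q * Y := by
      ext i j
      have := congrFun (congrFun h4 i) j
      simp only [mul_diagonal, diagonal_mul] at this ⊢
      by_cases hy : Y i j = 0
      · simp [hy]
      · have h6 : (d j : ℂ) = d i := mul_left_cancel₀ hy (by rw [this, mul_comm])
        have h7 : d j = d i := by exact_mod_cast h6
        simp only [q, h7, mul_comm]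
    rw [e1, hmul, hmul, h5]

theorem trace_size {m k : Type} [Fintype m] [Fintype k] [DecidableEq k] (V : Matrix m k ℂ) (h : Vᴴ * V = 1) :
    (V * Vᴴ).trace = Fintype.card k := by
  rw [Matrix.trace_mul_comm, h, Matrix.trace_one]

/-- hermitian contraction is a convex combination of symmetries -/
theorem conv_sym {m : Type} [Fintype m] [DecidableEq m] (T : Matrix m m ℂ) (hT : T.IsHermitian)
    (h1 : (1 - T).PosSemidef) (h2 : (1 + T).PosSemidef) :
    ∃ (p : (m → Bool) → ℝ) (S : (m → Bool) → Matrix m m ℂ), (∀ e, 0 ≤ p e) ∧ ∑ e, p e = 1 ∧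
      (∀ e, (S e)ᴴ = S e ∧ S e * S e = 1) ∧ T = ∑ e, (p e : ℂ) • S e := by
  obtain ⟨U, d, u1, u2, u3⟩ := spec T hT
  have hD : diagonal (fun i => (d i : ℂ)) = Uᴴ * T * U := by
    rw [u3]; simp only [← Matrix.mul_assoc]; rw [u1, Matrix.one_mul, Matrix.mul_assoc, u1, Matrix.mul_one]
  have ha : ∀ i, 0 ≤ 1 - d i := by
    intro i
    have := (h1.conjTranspose_mul_mul_same U).diag_nonneg (i := i)
    rw [Matrix.mul_sub, Matrix.sub_mul, ← hD, Matrix.mul_one, u1] at this
    simp only [Matrix.sub_apply, one_apply_eq, diagonal_apply_eq] at this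
    exact_mod_cast this
  have hb : ∀ i, 0 ≤ 1 + d i := by
    intro i
    have := (h2.conjTranspose_mul_mul_same U).diag_nonneg (i := i)
    rw [Matrix.mul_add, Matrix.add_mul, ← hD, Matrix.mul_one, u1] at this
    simp only [Matrix.add_apply, one_apply_eq, diagonal_apply_eq] at this
    exact_mod_cast this
  let s : Bool → ℝ := fun b => if b then 1 else -1
  let w : m → Bool → ℝ := fun i b => (1 + s b * d i) / 2
  have key : ∀ f : m → Bool → ℝ, ∑ e : m → Bool, ∏ i, f i (e i) = ∏ i, ∑ b, f i b := by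
    intro f; rw [Finset.prod_univ_sum, Fintype.piFinset_univ]
  have hw : ∀ i, ∑ b, w i b = 1 := by intro i; simp [w, s]; ring
  refine ⟨fun e => ∏ i, w i (e i), fun e => U * diagonal (fun i => (s (e i) : ℂ)) * Uᴴ, ?_, ?_, ?_, ?_⟩
  · intro e
    refine Finset.prod_nonneg fun i _ => ?_
    have := ha i; have := hb i
    simp only [w, s]; split_ifs <;> linarith
  · rw [key]; simp only [hw, Finset.prod_const_one]
  · intro e
    constructor
    · have : (diagonal (fun i => (s (e i) : ℂ)))ᴴ = diagonal (fun i => (s (e i) : ℂ)) := by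
        rw [diagonal_conjTranspose]; congr 1; ext i; simp
      simp only [conjTranspose_mul, conjTranspose_conjTranspose, this, Matrix.mul_assoc]
    · have : diagonal (fun i => (s (e i) : ℂ)) * diagonal (fun i => (s (e i) : ℂ)) = 1 := by
        rw [diagonal_mul_diagonal, ← diagonal_one]; congr 1; ext i; simp only [s]; split_ifs <;> simp
      calc _ = U * (diagonal (fun i => (s (e i) : ℂ)) * (Uᴴ * U) * diagonal (fun i => (s (e i) : ℂ))) * Uᴴ := by
            simp only [Matrix.mul_assoc]
        _ = 1 := by rw [u1, Matrix.mul_one, this, Matrix.mul_one, u2]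
  · have h3 : diagonal (fun i => (d i : ℂ)) =
        ∑ e : m → Bool, ((∏ i, w i (e i) : ℝ) : ℂ) • diagonal (fun i => (s (e i) : ℂ)) := by
      ext i j
      rw [Matrix.sum_apply]
      by_cases hij : i = j
      · subst hij
        simp only [diagonal_apply_eq, Matrix.smul_apply, smul_eq_mul]
        have h4 := key (fun k b => w k b * (if k = i then s b else 1))
        have h5 : ∏ k, ∑ b, w k b * (if k = i then s b else 1) = d i := by
          rw [Finset.prod_eq_single i]
          · simp [w, s]; ring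
          · intro k _ hk; simpa [hk] using hw k
          · simp
        rw [h5] at h4
        rw [← h4]
        push_cast
        refine Finset.sum_congr rfl fun e _ => ?_
        rw [Finset.prod_mul_distrib]
        congr 1
        rw [Finset.prod_eq_single i]
        · simp
        · intro k _ hk; simp [hk]
        · simp
      · simp [hij]
    rw [u3, h3, Matrix.mul_sum, Matrix.sum_mul]
    simp only [Matrix.mul_smul, Matrix.smul_mul]

end Pool.Agent.H92.FX
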