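import Pool.Agent.H92.FX1

open Matrix Complex
open scoped ComplexOrder Kronecker

namespace Pool.Agent.H92.FX

def A : Fin 9 → Matrix (Fin 3) (Fin 3) ℂ :=
  ![!![0,1,0;1,0,0;0,0,0], !![0,I,0;-I,0,0;0,0,0], !![0,0,1;0,0,0;1,0,0], !![0,0,I;0,0,0;-I,0,0],
    !![0,0,0;0,0,1;0,1,0], !![0,0,0;0,0,I;0,-I,0], !![1,0,0;0,0,0;0,0,0], !![0,0,0;0,1,0;0,0,0],
    !![0,0,0;0,0,0;0,0,1]]

noncomputable def T {m k : Type} (Z : Fin 9 → Matrix m k ℂ) : Matrix (Fin 3 × m) (Fin 3 × k) ℂ :=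
  ∑ j, A j ⊗ₖ Z j

noncomputable def G {m k : Type} (S : Matrix (Fin 3 × m) (Fin 3 × k) ℂ) (j : Fin 9) : Matrix m k ℂ :=
  Matrix.of fun p q => ![(S (0,p) (1,q) + S (1,p) (0,q)) / 2, -I * (S (0,p) (1,q) - S (1,p) (0,q)) / 2,
    (S (0,p) (2,q) + S (2,p) (0,q)) / 2, -I * (S (0,p) (2,q) - S (2,p) (0,q)) / 2,
    (S (1,p) (2,q) + S (2,p) (1,q)) / 2, -I * (S (1,p) (2,q) - S (2,p) (1,q)) / 2,
    S (0,p) (0,q), S (1,p) (1,q), S (2,p) (2,q)] j

theorem T_apply {m k : Type} (Z : Fin 9 → Matrix m k ℂ) (a b : Fin 3) (p : m) (q : k) :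
    T Z (a,p) (b,q) = ∑ j, A j a b * Z j p q := by
  simp [T, Matrix.sum_apply]

theorem TG {m k : Type} (S : Matrix (Fin 3 × m) (Fin 3 × k) ℂ) : T (G S) = S := by
  ext ⟨a, p⟩ ⟨b, q⟩
  rw [T_apply]
  fin_cases a <;> fin_cases b <;> simp [Fin.sum_univ_succ, A, G] <;> ring_nf <;> simp [I_sq] <;> ring

theorem GT {m k : Type} (Z : Fin 9 → Matrix m k ℂ) : G (T Z) = Z := by
  ext j p q
  fin_cases j <;> simp [G, T_apply, Fin.sum_univ_succ, A] <;> ring_nf <;> simp [I_sq]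

theorem T_inj {m k : Type} {Z W : Fin 9 → Matrix m k ℂ} (h : T Z = T W) : Z = W := by
  rw [← GT Z, h, GT]

theorem G_herm {m : Type} (S : Matrix (Fin 3 × m) (Fin 3 × m) ℂ) (hS : Sᴴ = S) (j : Fin 9) :
    (G S j).IsHermitian := by
  have h : ∀ x y, (starRingEnd ℂ) (S x y) = S y x := by
    intro x y; have := congrFun (congrFun hS y) x; simpa using this
  ext p q
  fin_cases j <;> simp [G, h] <;> ring

theorem A_herm (j : Fin 9) : (A j)ᴴ = A j := by
  ext a b; fin_cases j <;> fin_cases a <;> fin_cases b <;> simp [A]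

theorem T_herm {m : Type} (X : Fin 9 → Matrix m m ℂ) (h : ∀ j, (X j).IsHermitian) : (T X)ᴴ = T X := by
  simp only [T, conjTranspose_sum, conjTranspose_kronecker, A_herm]
  exact Finset.sum_congr rfl fun j _ => by rw [(h j).eq]

noncomputable def D {m k : Type} (V : Matrix m k ℂ) : Matrix (Fin 3 × m) (Fin 3 × k) ℂ :=
  (1 : Matrix (Fin 3) (Fin 3) ℂ) ⊗ₖ V

theorem D_T {l m k : Type} [Fintype m] (V : Matrix l m ℂ) (Z : Fin 9 → Matrix m k ℂ) :
    D V * T Z = T (fun j => V * Z j) := by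
  simp only [D, T, Matrix.mul_sum, ← mul_kronecker_mul, Matrix.one_mul]

theorem T_D {l m k : Type} [Fintype m] (V : Matrix m k ℂ) (Z : Fin 9 → Matrix l m ℂ) :
    T Z * D V = T (fun j => Z j * V) := by
  simp only [D, T, Matrix.sum_mul, ← mul_kronecker_mul, Matrix.mul_one]

theorem D_H {m k : Type} (V : Matrix m k ℂ) : (D V)ᴴ = D Vᴴ := by
  simp [D, conjTranspose_kronecker]

theorem D_mul {l m k : Type} [Fintype m] (V : Matrix l m ℂ) (W : Matrix m k ℂ) : D V * D W = D (V * W) := by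
  simp only [D, ← mul_kronecker_mul, Matrix.mul_one]

theorem D_one {m : Type} [DecidableEq m] : D (1 : Matrix m m ℂ) = 1 := by simp [D]

theorem D_sum {m k ι : Type} [Fintype ι] (V : ι → Matrix m k ℂ) : D (∑ i, V i) = ∑ i, D (V i) := by
  ext ⟨a, p⟩ ⟨b, q⟩; simp [D, Matrix.sum_apply, Finset.mul_sum]

theorem T_sum {m k ι : Type} [Fintype ι] (Z : ι → Fin 9 → Matrix m k ℂ) :
    T (fun j => ∑ i, Z i j) = ∑ i, T (Z i) := by
  ext ⟨a, p⟩ ⟨b, q⟩
  simp only [T_apply, Matrix.sum_apply, Finset.mul_sum]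
  rw [Finset.sum_comm]

theorem T_smul {m k : Type} (c : ℂ) (Z : Fin 9 → Matrix m k ℂ) : T (fun j => c • Z j) = c • T Z := by
  ext ⟨a, p⟩ ⟨b, q⟩
  simp only [T_apply, Matrix.smul_apply, smul_eq_mul, Finset.mul_sum]
  exact Finset.sum_congr rfl fun j _ => by ring

theorem T_conj {m k : Type} [Fintype m] (V : Matrix m k ℂ) (Y : Fin 9 → Matrix m m ℂ) :
    T (fun j => Vᴴ * Y j * V) = (D V)ᴴ * T Y * D V := by
  rw [D_H, D_T, T_D]

def InK {m : Type} [Fintype m] [DecidableEq m] (X : Fin 9 → Matrix m m ℂ) : Prop :=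
  (∀ j, (X j).IsHermitian) ∧ (1 - T X).PosSemidef ∧ (1 + T X).PosSemidef

theorem comb_eq {m ι : Type} [Fintype m] [DecidableEq m] [Fintype ι] (k : ι → ℕ)
    (Y : ∀ i, Fin 9 → Matrix (Fin (k i)) (Fin (k i)) ℂ) (V : ∀ i, Matrix (Fin (k i)) m ℂ)
    (hV : ∑ i, (V i)ᴴ * V i = 1) (X : Fin 9 → Matrix m m ℂ) (hX : ∀ j, X j = ∑ i, (V i)ᴴ * Y i j * V i) :
    1 - T X = ∑ i, (D (V i))ᴴ * (1 - T (Y i)) * D (V i) ∧
    1 + T X = ∑ i, (D (V i))ᴴ * (1 + T (Y i)) * D (V i) := by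
  have h1 : T X = ∑ i, (D (V i))ᴴ * T (Y i) * D (V i) := by
    have : X = fun j => ∑ i, (V i)ᴴ * Y i j * V i := funext hX
    rw [this, T_sum]; simp only [T_conj]
  have h2 : (1 : Matrix (Fin 3 × m) (Fin 3 × m) ℂ) = ∑ i, (D (V i))ᴴ * D (V i) := by
    simp only [D_H, D_mul]; rw [← D_sum, hV, D_one]
  constructor
  · simp only [Matrix.mul_sub, Matrix.sub_mul, Matrix.mul_one, Finset.sum_sub_distrib]; rw [← h1, ← h2]
  · simp only [Matrix.mul_add, Matrix.add_mul, Matrix.mul_one, Finset.sum_add_distrib]; rw [← h1, ← h2]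

theorem comb_in {m ι : Type} [Fintype m] [DecidableEq m] [Fintype ι] (k : ι → ℕ)
    (Y : ∀ i, Fin 9 → Matrix (Fin (k i)) (Fin (k i)) ℂ) (V : ∀ i, Matrix (Fin (k i)) m ℂ)
    (hY : ∀ i, InK (Y i))
    (hV : ∑ i, (V i)ᴴ * V i = 1) (X : Fin 9 → Matrix m m ℂ) (hX : ∀ j, X j = ∑ i, (V i)ᴴ * Y i j * V i) :
    InK X := by
  obtain ⟨h1, h2⟩ := comb_eq k Y V hV X hX
  refine ⟨fun j => ?_, ?_, ?_⟩
  · rw [hX j, IsHermitian, conjTranspose_sum]
    refine Finset.sum_congr rfl fun i _ => ?_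
    simp only [conjTranspose_mul, conjTranspose_conjTranspose, ((hY i).1 j).eq, Matrix.mul_assoc]
  · rw [h1]; exact posSemidef_sum _ fun i _ => (hY i).2.1.conjTranspose_mul_mul_same _
  · rw [h2]; exact posSemidef_sum _ fun i _ => (hY i).2.2.conjTranspose_mul_mul_same _

theorem intertwine {m ι : Type} [Fintype m] [DecidableEq m] [Fintype ι] (k : ι → ℕ)
    (Y : ∀ i, Fin 9 → Matrix (Fin (k i)) (Fin (k i)) ℂ) (V : ∀ i, Matrix (Fin (k i)) m ℂ)
    (hY : ∀ i, InK (Y i))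
    (hV : ∑ i, (V i)ᴴ * V i = 1) (X : Fin 9 → Matrix m m ℂ) (hX : ∀ j, X j = ∑ i, (V i)ᴴ * Y i j * V i)
    (hH : (T X)ᴴ = T X) (hU : T X * T X = 1) (i : ι) (j : Fin 9) : Y i j * V i = V i * X j := by
  obtain ⟨h1, h2⟩ := comb_eq k Y V hV X hX
  have a1 : (1 - T (Y i)) * (D (V i) * (1 + T X)) = 0 := by
    apply psd_zero _ (hY i).2.1
    refine sum_zero (fun i => (D (V i) * (1 + T X))ᴴ * (1 - T (Y i)) * (D (V i) * (1 + T X)))
      (fun i => (hY i).2.1.conjTranspose_mul_mul_same _) ?_ i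
    have : (1 + T X)ᴴ * ((1 - T X) * (1 + T X)) = 0 := by
      rw [Matrix.sub_mul, Matrix.mul_add, Matrix.mul_add, hU]; simp [add_comm]
    rw [h1, Matrix.sum_mul, Matrix.mul_sum] at this
    simpa only [conjTranspose_mul, Matrix.mul_assoc] using this
  have a2 : (1 + T (Y i)) * (D (V i) * (1 - T X)) = 0 := by
    apply psd_zero _ (hY i).2.2
    refine sum_zero (fun i => (D (V i) * (1 - T X))ᴴ * (1 + T (Y i)) * (D (V i) * (1 - T X)))
      (fun i => (hY i).2.2.conjTranspose_mul_mul_same _) ?_ i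
    have : (1 - T X)ᴴ * ((1 + T X) * (1 - T X)) = 0 := by
      rw [Matrix.add_mul, Matrix.mul_sub, Matrix.mul_sub, hU]; simp
    rw [h2, Matrix.sum_mul, Matrix.mul_sum] at this
    simpa only [conjTranspose_mul, Matrix.mul_assoc] using this
  have a3 : (2 : ℂ) • (T (Y i) * D (V i)) = (2 : ℂ) • (D (V i) * T X) := by
    have := congrArg₂ (· - ·) a1 a2
    simp only [Matrix.mul_sub, Matrix.sub_mul, Matrix.mul_add, Matrix.add_mul, Matrix.mul_one,
      Matrix.one_mul, sub_zero] at this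
    rw [two_smul, two_smul, ← sub_eq_zero, ← neg_eq_zero, ← this]; abel
  have a4 : T (Y i) * D (V i) = D (V i) * T X := smul_right_injective _ (two_ne_zero) a3
  rw [T_D, D_T] at a4
  exact congrFun (T_inj a4) j

theorem sym_in {m : Type} [Fintype m] [DecidableEq m] (X : Fin 9 → Matrix m m ℂ)
    (h : ∀ j, (X j).IsHermitian) (hU : T X * T X = 1) : InK X := by
  have hH := T_herm X h
  refine ⟨h, ?_, ?_⟩
  · have : 1 - T X = ((1/2 : ℝ) : ℂ) • ((1 - T X)ᴴ * (1 - T X)) := by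
      rw [conjTranspose_sub, conjTranspose_one, hH, Matrix.sub_mul, Matrix.mul_sub, Matrix.mul_sub, hU]
      simp only [Matrix.mul_one, Matrix.one_mul]; push_cast; module
    rw [this]; exact (posSemidef_conjTranspose_mul_self _).smul (by positivity)
  · have : 1 + T X = ((1/2 : ℝ) : ℂ) • ((1 + T X)ᴴ * (1 + T X)) := by
      rw [conjTranspose_add, conjTranspose_one, hH, Matrix.add_mul, Matrix.mul_add, Matrix.mul_add, hU]
      simp only [Matrix.mul_one, Matrix.one_mul]; push_cast; module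
    rw [this]; exact (posSemidef_conjTranspose_mul_self _).smul (by positivity)

theorem psd_closed {m : Type} [Fintype m] : IsClosed {M : Matrix m m ℂ | M.PosSemidef} := by
  have : {M : Matrix m m ℂ | M.PosSemidef} = {M | Mᴴ = M} ∩ ⋂ x : m → ℂ, {M | 0 ≤ star x ⬝ᵥ M *ᵥ x} := by
    ext M; simp [posSemidef_iff_dotProduct_mulVec, IsHermitian]
  rw [this]
  refine (isClosed_eq (by fun_prop) continuous_id).inter (isClosed_iInter fun x => isClosed_le continuous_const ?_)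
  fun_prop

theorem K_closed {m : Type} [Fintype m] [DecidableEq m] : IsClosed {X : Fin 9 → Matrix m m ℂ | InK X} := by
  have hT : Continuous (fun X : Fin 9 → Matrix m m ℂ => T X) := by
    refine continuous_matrix fun ⟨a, p⟩ ⟨b, q⟩ => ?_
    simp only [T_apply]; fun_prop
  have : {X : Fin 9 → Matrix m m ℂ | InK X} = (⋂ j, {X | (X j)ᴴ = X j}) ∩
      ((fun X => 1 - T X) ⁻¹' {M | M.PosSemidef} ∩ (fun X => 1 + T X) ⁻¹' {M | M.PosSemidef}) := by
    ext X; simp [InK, IsHermitian]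
  rw [this]
  exact (isClosed_iInter fun j => isClosed_eq (by fun_prop) (by fun_prop)).inter
    ((psd_closed.preimage (continuous_const.sub hT)).inter (psd_closed.preimage (continuous_const.add hT)))

theorem K_bdd {m : Type} [Fintype m] [DecidableEq m] (X : Fin 9 → Matrix m m ℂ) (h : InK X) (j p q) :
    ‖X j p q‖ ≤ 1 := by
  obtain ⟨w, S, h0, h1, h2, h3⟩ := conv_sym (T X) (T_herm X h.1) h.2.1 h.2.2
  have hb : ∀ x y, ‖T X x y‖ ≤ 1 := by
    intro x y
    rw [h3, Matrix.sum_apply, ← h1]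
    refine (norm_sum_le _ _).trans (Finset.sum_le_sum fun e _ => ?_)
    have : ‖S e x y‖ ≤ 1 := entry_norm_bound_of_unitary (U := S e)
      (by rw [Matrix.mem_unitaryGroup_iff, star_eq_conjTranspose, (h2 e).1, (h2 e).2]) x y
    simp only [Matrix.smul_apply, smul_eq_mul, norm_mul, Complex.norm_real, Real.norm_eq_abs, abs_of_nonneg (h0 e)]
    nlinarith [h0 e]
  have e1 : ∀ x y x' y', ‖(T X x y + T X x' y') / 2‖ ≤ 1 := by
    intro x y x' y'
    have := norm_add_le (T X x y) (T X x' y')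
    rw [norm_div]; simp only [Complex.norm_ofNat]; linarith [hb x y, hb x' y']
  have e2 : ∀ x y x' y', ‖-I * (T X x y - T X x' y') / 2‖ ≤ 1 := by
    intro x y x' y'
    have := norm_sub_le (T X x y) (T X x' y')
    rw [norm_div, norm_mul]; simp only [Complex.norm_ofNat, norm_neg, norm_I]; linarith [hb x y, hb x' y']
  rw [← GT X]
  fin_cases j
  exacts [e1 _ _ _ _, e2 _ _ _ _, e1 _ _ _ _, e2 _ _ _ _, e1 _ _ _ _, e2 _ _ _ _, hb _ _, hb _ _, hb _ _]

end Pool.Agent.H92.FX
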