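import Pool.Agent.H92.FX2

open Matrix Complex
open scoped ComplexOrder Kronecker

namespace Pool.Agent.H92.FX

theorem tr_blocks {a b : Type} [Fintype a] [Fintype b] (X : Matrix a a ℂ) (Z : Matrix b b ℂ) :
    (fromBlocks X 0 0 Z).trace = X.trace + Z.trace := by
  simp [Matrix.trace, Fintype.sum_sum_type]

theorem trace_lem {n l : ℕ} (Y : Matrix (Fin (n+1)) (Fin (n+1)) ℂ) (hY : Yᴴ = Y)
    (V : Matrix (Fin (n+1)) (Fin n) ℂ) (f : Matrix (Fin (n+1)) Unit ℂ) (h1 : V * Vᴴ + f * fᴴ = 1)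
    (X : Matrix (Fin n) (Fin n) ℂ) (hX : Vᴴ * Y * V = X) (hf : fᴴ * Y * f = 0)
    (Z : Matrix (Fin l) (Fin l) ℂ) (U : Matrix (Fin (n+1)) (Fin n ⊕ Fin l) ℂ)
    (u1 : Uᴴ * U = 1) (u2 : U * Uᴴ = 1) (h : Y = U * fromBlocks X 0 0 Z * Uᴴ) : Vᴴ * Y * f = 0 := by
  have hl : l = 1 := by
    have := trace_size U u1
    rw [u2, Matrix.trace_one] at this
    simp only [Fintype.card_fin, Fintype.card_sum] at this
    have h3 : n + 1 = n + l := by exact_mod_cast this
    omega
  subst hl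
  have t1 : Y.trace = X.trace + Z.trace := by
    rw [h, Matrix.trace_mul_comm, ← Matrix.mul_assoc, u1, Matrix.one_mul, tr_blocks]
  have t2 : Y.trace = X.trace := by
    calc Y.trace = (Y * (V * Vᴴ + f * fᴴ)).trace := by rw [h1, Matrix.mul_one]
      _ = (Vᴴ * Y * V).trace + (fᴴ * Y * f).trace := by
        rw [Matrix.mul_add, trace_add, ← Matrix.mul_assoc, ← Matrix.mul_assoc, Matrix.trace_mul_comm (Y * V),
          Matrix.trace_mul_comm (Y * f)]; simp only [Matrix.mul_assoc]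
      _ = _ := by rw [hX, hf]; simp
  have hZ : Z = 0 := by
    have : Z.trace = 0 := by rw [t1] at t2; simpa using t2
    ext i j
    fin_cases i; fin_cases j; simpa [Matrix.trace] using this
  have t3 : (Y * Y).trace = (X * X).trace := by
    have : Y * Y = U * (fromBlocks (X * X) 0 0 0 : Matrix (Fin n ⊕ Fin 1) (Fin n ⊕ Fin 1) ℂ) * Uᴴ := by
      calc Y * Y = U * (fromBlocks X 0 0 Z * (Uᴴ * U) * fromBlocks X 0 0 Z) * Uᴴ := by
            conv_lhs => rw [h]
            simp only [Matrix.mul_assoc]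
        _ = _ := by rw [u1, Matrix.mul_one, fromBlocks_multiply, hZ]; simp
    rw [this, Matrix.trace_mul_comm, ← Matrix.mul_assoc, u1, Matrix.one_mul, tr_blocks]; simp
  set u := Vᴴ * Y * f with hu
  have huH : uᴴ = fᴴ * Y * V := by rw [hu]; simp only [conjTranspose_mul, conjTranspose_conjTranspose, hY, Matrix.mul_assoc]
  have t4 : (Y * Y).trace = (X * X).trace + 2 * (uᴴ * u).trace := by
    have e1 : (Y * Y).trace = (Vᴴ * Y * (V * Vᴴ + f * fᴴ) * Y * V).trace + (fᴴ * Y * (V * Vᴴ + f * fᴴ) * Y * f).trace := by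
      calc (Y * Y).trace = (Y * Y * (V * Vᴴ + f * fᴴ)).trace := by rw [h1, Matrix.mul_one]
        _ = _ := by
          rw [Matrix.mul_add, trace_add, ← Matrix.mul_assoc, ← Matrix.mul_assoc, Matrix.trace_mul_comm (Y * Y * V),
            Matrix.trace_mul_comm (Y * Y * f), h1]; simp only [Matrix.mul_assoc, Matrix.mul_one, Matrix.one_mul]
    have e2 : Vᴴ * Y * (V * Vᴴ + f * fᴴ) * Y * V = X * X + u * uᴴ := by
      rw [huH, hu, ← hX]; simp only [Matrix.mul_add, Matrix.add_mul, Matrix.mul_assoc]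
    have e3 : fᴴ * Y * (V * Vᴴ + f * fᴴ) * Y * f = uᴴ * u + (fᴴ * Y * f) * (fᴴ * Y * f) := by
      rw [huH, hu]; simp only [Matrix.mul_add, Matrix.add_mul, Matrix.mul_assoc]
    rw [e1, e2, e3, hf, Matrix.mul_zero, add_zero, trace_add, Matrix.trace_mul_comm u uᴴ]; ring
  have : (uᴴ * u).trace = 0 := by
    rw [t3] at t4; simpa using t4
  exact trace_conjTranspose_mul_self_eq_zero_iff.1 this

noncomputable def X0 {m : Type} (X : Fin 9 → Matrix m m ℂ) (j : Fin 9) : Matrix m m ℂ := if j.val < 4 then X j else 0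

theorem X0_in {m : Type} [Fintype m] [DecidableEq m] (X : Fin 9 → Matrix m m ℂ) (h : InK X) : InK (X0 X) := by
  let J : Matrix (Fin 3 × m) (Fin 3 × m) ℂ := diagonal fun x => if x.1 = 0 then 1 else -1
  have hJ : Jᴴ = J := by
    simp only [J, diagonal_conjTranspose]; congr 1; ext x; simp only [Pi.star_apply]; split_ifs <;> simp
  have hJJ : J * J = 1 := by
    simp only [J, diagonal_mul_diagonal]; rw [← diagonal_one]; congr 1; ext x; split_ifs <;> simp
  have hT : T (X0 X) = ((1/2 : ℝ) : ℂ) • (T X - J * T X * J) := by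
    ext ⟨a, p⟩ ⟨b, q⟩
    simp only [J, Matrix.smul_apply, Matrix.sub_apply, mul_diagonal, diagonal_mul, T_apply]
    fin_cases a <;> fin_cases b <;> simp [Fin.sum_univ_succ, A, X0] <;> ring
  refine ⟨fun j => ?_, ?_, ?_⟩
  · unfold X0; split_ifs
    · exact h.1 j
    · exact isHermitian_zero
  · have : 1 - T (X0 X) = ((1/2 : ℝ) : ℂ) • ((1 - T X) + Jᴴ * (1 + T X) * J) := by
      rw [hT, hJ, Matrix.mul_add, Matrix.add_mul, Matrix.mul_one, hJJ]; push_cast; module
    rw [this]; exact (h.2.1.add (h.2.2.conjTranspose_mul_mul_same _)).smul (by positivity)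
  · have : 1 + T (X0 X) = ((1/2 : ℝ) : ℂ) • ((1 + T X) + Jᴴ * (1 - T X) * J) := by
      rw [hT, hJ, Matrix.mul_sub, Matrix.sub_mul, Matrix.mul_one, hJJ]; push_cast; module
    rw [this]; exact (h.2.2.add (h.2.1.conjTranspose_mul_mul_same _)).smul (by positivity)

theorem ker_vec {n : ℕ} (hn : 1 ≤ n) (X : Fin 9 → Matrix (Fin n) (Fin n) ℂ) :
    ∃ c : Matrix (Fin 3 × Fin n) Unit ℂ, cᴴ * c = 1 ∧ T (X0 X) * c = 0 ∧ ∀ p, c (0, p) () = 0 := by
  let φ : (Fin 3 × Fin n → ℂ) →ₗ[ℂ] (Fin n → ℂ) × (Fin n → ℂ) :=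
    LinearMap.prod (LinearMap.funLeft ℂ ℂ (fun p => ((0 : Fin 3), p)))
      ((LinearMap.funLeft ℂ ℂ (fun p => ((0 : Fin 3), p))).comp (T (X0 X)).mulVecLin)
  have hk : LinearMap.ker φ ≠ ⊥ := LinearMap.ker_ne_bot_of_finrank_lt (by simp; omega)
  obtain ⟨ξ, h1, h2⟩ := Submodule.exists_mem_ne_zero_of_ne_bot hk
  have a1 : ∀ p, ξ (0, p) = 0 := fun p => congrFun (congrArg Prod.fst h1) p
  have a2 : ∀ p, (T (X0 X) *ᵥ ξ) (0, p) = 0 := fun p => congrFun (congrArg Prod.snd h1) p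
  have a3 : T (X0 X) *ᵥ ξ = 0 := by
    ext ⟨a, p⟩
    fin_cases a
    · exact a2 p
    · simp [mulVec, dotProduct, Fintype.sum_prod_type, Fin.sum_univ_succ, a1, T_apply, A, X0]
    · simp [mulVec, dotProduct, Fintype.sum_prod_type, Fin.sum_univ_succ, a1, T_apply, A, X0]
  let r : ℝ := ∑ x, normSq (ξ x)
  have hr : 0 < r := by
    obtain ⟨x, hx⟩ := Function.ne_iff.1 h2
    exact Finset.sum_pos' (fun _ _ => normSq_nonneg _) ⟨x, Finset.mem_univ _, normSq_pos.2 hx⟩
  refine ⟨Matrix.of fun x _ => ((Real.sqrt r)⁻¹ : ℝ) * ξ x, ?_, ?_, ?_⟩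
  · ext i j
    have e : ∀ x, star ((((Real.sqrt r)⁻¹ : ℝ) : ℂ) * ξ x) * ((((Real.sqrt r)⁻¹ : ℝ) : ℂ) * ξ x) = ((r⁻¹ * normSq (ξ x) : ℝ) : ℂ) := by
      intro x
      rw [star_def, ← normSq_eq_conj_mul_self, normSq_mul, normSq_ofReal, ← mul_inv, Real.mul_self_sqrt hr.le]
    simp only [Matrix.mul_apply, conjTranspose_apply, of_apply, e]
    rw [← ofReal_sum, ← Finset.mul_sum, inv_mul_cancel₀ hr.ne']; simp
  · ext x j
    have := congrFun a3 x
    simp only [mulVec, dotProduct, Pi.zero_apply] at this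
    simp only [Matrix.mul_apply, of_apply, Matrix.zero_apply]
    simp only [mul_left_comm _ (((Real.sqrt r)⁻¹ : ℝ) : ℂ), ← Finset.mul_sum, this, mul_zero]
  · intro p; simp [a1]

theorem asc_one {a b k : Type} [Fintype a] [Fintype b] [DecidableEq a] (P : Matrix a b ℂ) (Q : Matrix b a ℂ)
    (h : P * Q = 1) (B : Matrix a k ℂ) : P * (Q * B) = B := by rw [← Matrix.mul_assoc, h, Matrix.one_mul]

theorem asc_zero {a b d k : Type} [Fintype b] [Fintype d] (P : Matrix a b ℂ) (Q : Matrix b d ℂ)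
    (h : P * Q = 0) (B : Matrix d k ℂ) : P * (Q * B) = 0 := by rw [← Matrix.mul_assoc, h, Matrix.zero_mul]

theorem dilate {n : ℕ} (hn : 1 ≤ n) (X : Fin 9 → Matrix (Fin n) (Fin n) ℂ) (h : InK X) :
    ∃ (Y : Fin 9 → Matrix (Fin (n+1)) (Fin (n+1)) ℂ) (V : Matrix (Fin (n+1)) (Fin n) ℂ)
      (f : Matrix (Fin (n+1)) Unit ℂ), InK Y ∧ Vᴴ * V = 1 ∧ V * Vᴴ + f * fᴴ = 1 ∧
      (∀ j, Vᴴ * Y j * V = X0 X j) ∧ (∀ j, fᴴ * Y j * f = 0) ∧ ¬ (Vᴴ * Y 0 * f = 0 ∧ Vᴴ * Y 2 * f = 0) := by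
  obtain ⟨c, c1, c2, c3⟩ := ker_vec hn X
  have h0 := X0_in X h
  have hH := T_herm _ h0.1
  set M := T (X0 X) with hM
  have c2' : cᴴ * M = 0 := by rw [← hH, ← conjTranspose_mul, c2, conjTranspose_zero]
  let V : Matrix (Fin (n+1)) (Fin n) ℂ := Matrix.of fun p q => if p = q.castSucc then 1 else 0
  let f : Matrix (Fin (n+1)) Unit ℂ := Matrix.of fun p _ => if p = Fin.last n then 1 else 0
  let e : Matrix (Fin 3 × Fin (n+1)) Unit ℂ := Matrix.of fun x _ => if x = (0, Fin.last n) then 1 else 0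
  have v1 : Vᴴ * V = 1 := by
    ext a b; simp [V, Matrix.mul_apply, one_apply, eq_comm]
  have v2 : V * Vᴴ + f * fᴴ = 1 := by
    ext a b
    induction a using Fin.lastCases <;> induction b using Fin.lastCases <;>
      simp [V, f, Matrix.mul_apply, one_apply, (Fin.castSucc_lt_last _).ne, (Fin.castSucc_lt_last _).ne', eq_comm]
  have v3 : Vᴴ * f = 0 := by
    ext a b; simp [V, f, Matrix.mul_apply, (Fin.castSucc_lt_last _).ne, (Fin.castSucc_lt_last _).ne']
  have v4 : fᴴ * V = 0 := by rw [← conjTranspose_conjTranspose V, ← conjTranspose_mul, v3, conjTranspose_zero]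
  have D0 : ∀ {a b : Type}, D (0 : Matrix a b ℂ) = 0 := by intro a b; simp [D]
  set W := D V with hW
  have w1 : Wᴴ * W = 1 := by rw [hW, D_H, D_mul, v1, D_one]
  have w2 : Wᴴ * e = 0 := by
    ext ⟨a, p⟩ b; simp [hW, D, e, V, Matrix.mul_apply, (Fin.castSucc_lt_last _).ne, (Fin.castSucc_lt_last _).ne']
  have w3 : eᴴ * W = 0 := by rw [← conjTranspose_conjTranspose W, ← conjTranspose_mul, w2, conjTranspose_zero]
  have w4 : eᴴ * e = 1 := by ext a b; simp [e, Matrix.mul_apply]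
  have w5 : Wᴴ * D f = 0 := by rw [hW, D_H, D_mul, v3, D0]
  have w6 : (D f)ᴴ * W = 0 := by rw [hW, D_H, D_mul, v4, D0]
  have r1 := fun {k : Type} (B : Matrix (Fin 3 × Fin n) k ℂ) => asc_one (Wᴴ) W w1 B
  have r2 := fun {k : Type} (B : Matrix Unit k ℂ) => asc_zero (Wᴴ) e w2 B
  have r3 := fun {k : Type} (B : Matrix (Fin 3 × Fin n) k ℂ) => asc_zero (eᴴ) W w3 B
  have r4 := fun {k : Type} (B : Matrix Unit k ℂ) => asc_one (eᴴ) e w4 B
  have r5 := fun {k : Type} (B : Matrix Unit k ℂ) => asc_one (cᴴ) c c1 B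
  have r6 := fun {k : Type} (B : Matrix Unit k ℂ) => asc_zero (M) c c2 B
  have r7 := fun {k : Type} (B : Matrix (Fin 3 × Fin n) k ℂ) => asc_zero (cᴴ) M c2' B
  have r8 := fun {k : Type} (B : Matrix (Fin 3 × Fin n) k ℂ) => asc_zero ((D f)ᴴ) W w6 B
  let S := W * M * Wᴴ + e * (W * c)ᴴ + (W * c) * eᴴ
  have hS : Sᴴ = S := by
    simp only [S, conjTranspose_add, conjTranspose_mul, conjTranspose_conjTranspose, hH, Matrix.mul_assoc]; abel
  let R := 1 - W * Wᴴ - e * eᴴ
  have hR : R.PosSemidef := by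
    have : R = Rᴴ * R := by
      simp only [R, conjTranspose_sub, conjTranspose_one, conjTranspose_mul, conjTranspose_conjTranspose,
        Matrix.mul_sub, Matrix.sub_mul, Matrix.mul_one, Matrix.one_mul, Matrix.mul_assoc, r1, r2, r3, r4,
        Matrix.mul_zero]; abel
    rw [this]; exact posSemidef_conjTranspose_mul_self _
  let Q := (1 - c * cᴴ) * Wᴴ
  refine ⟨G S, V, f, ⟨G_herm S hS, ?_, ?_⟩, v1, v2, ?_, ?_, ?_⟩
  · have : 1 - T (G S) = Qᴴ * (1 - M) * Q + (e - W * c) * (e - W * c)ᴴ + R := by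
      rw [TG]
      simp only [S, R, Q, conjTranspose_sub, conjTranspose_one, conjTranspose_mul, conjTranspose_conjTranspose,
        Matrix.mul_sub, Matrix.sub_mul, Matrix.mul_one, Matrix.one_mul, Matrix.mul_assoc, r5, r6, r7,
        Matrix.mul_zero]; abel
    rw [this]
    exact ((h0.2.1.conjTranspose_mul_mul_same _).add (posSemidef_self_mul_conjTranspose _)).add hR
  · have : 1 + T (G S) = Qᴴ * (1 + M) * Q + (e + W * c) * (e + W * c)ᴴ + R := by
      rw [TG]
      simp only [S, R, Q, conjTranspose_sub, conjTranspose_add, conjTranspose_one, conjTranspose_mul,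
        conjTranspose_conjTranspose, Matrix.mul_add, Matrix.add_mul,
        Matrix.mul_sub, Matrix.sub_mul, Matrix.mul_one, Matrix.one_mul, Matrix.mul_assoc, r5, r6, r7,
        Matrix.mul_zero]; abel
    rw [this]
    exact ((h0.2.2.conjTranspose_mul_mul_same _).add (posSemidef_self_mul_conjTranspose _)).add hR
  · intro j
    refine congrFun (T_inj (Z := fun j => Vᴴ * G S j * V) (W := X0 X) ?_) j
    rw [T_conj, TG, ← hW, ← hM]
    simp only [S, conjTranspose_mul, Matrix.mul_add, Matrix.add_mul, Matrix.mul_assoc, r1, r2, w1, w3,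
      Matrix.mul_zero, Matrix.mul_one, add_zero]
  · intro j
    refine congrFun (T_inj (Z := fun j => fᴴ * G S j * f) (W := fun _ => 0) ?_) j
    rw [T_conj, TG]
    simp only [S, conjTranspose_mul, Matrix.mul_add, Matrix.add_mul, Matrix.mul_assoc, r8, w5,
      Matrix.mul_zero, add_zero]
    simp [T]
  · rintro ⟨z0, z2⟩
    have h1 : (fun j => Vᴴ * G S j * f) = G (c * (eᴴ * D f)) := by
      apply T_inj
      rw [← T_D, ← D_T, ← D_H, TG, TG, ← hW]
      simp only [S, conjTranspose_mul, Matrix.mul_add, Matrix.add_mul, Matrix.mul_assoc, r1, r2, w5,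
        Matrix.mul_zero, Matrix.zero_mul, zero_add]
    have b0 := congrFun h1 0
    have b2 := congrFun h1 2
    simp only [z0, z2] at b0 b2
    have hc : c = 0 := by
      ext ⟨a, p⟩ u
      fin_cases a
      · exact c3 p
      · have := congrFun (congrFun b0 p) ()
        simpa [G, Matrix.mul_apply, e, D, f, one_apply, c3, Fintype.sum_prod_type] using this.symm
      · have := congrFun (congrFun b2 p) ()
        simpa [G, Matrix.mul_apply, e, D, f, one_apply, c3, Fintype.sum_prod_type] using this.symm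
    rw [hc] at c1
    simpa using congrFun (congrFun c1 ()) ()

end Pool.Agent.H92.FX
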