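import Mathlib

set_option autoImplicit false
open MeasureTheory Set Real Complex

namespace Pool.Agent.H92.Fourier1

/-- the character `x ↦ exp (2 π i s x)` -/
noncomputable def ex (s x : ℝ) : ℂ := Complex.exp (2 * π * I * ((s * x : ℝ) : ℂ))

lemma ex_norm (s x : ℝ) : ‖ex s x‖ = 1 := by
  unfold ex
  have : (2 * π * I * ((s * x : ℝ) : ℂ)) = ((2 * π * (s * x) : ℝ) : ℂ) * I := by
    push_cast; ring
  rw [this, Complex.norm_exp_ofReal_mul_I]

@[fun_prop]
lemma ex_cont (s : ℝ) : Continuous (ex s) := by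
  unfold ex; fun_prop

lemma ex_add_left (s s' x : ℝ) : ex (s + s') x = ex s x * ex s' x := by
  unfold ex; rw [← Complex.exp_add]; congr 1; push_cast; ring

lemma ex_add_right (s x y : ℝ) : ex s (x + y) = ex s x * ex s y := by
  unfold ex; rw [← Complex.exp_add]; congr 1; push_cast; ring

lemma ex_zero_left (x : ℝ) : ex 0 x = 1 := by unfold ex; simp

lemma ex_zero_right (x : ℝ) : ex x 0 = 1 := by unfold ex; simp

lemma ex_comm (s x : ℝ) : ex s x = ex x s := by unfold ex; rw [mul_comm s x]

lemma ex_conj (s x : ℝ) : (starRingEnd ℂ) (ex s x) = ex (-s) x := by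
  unfold ex
  rw [← Complex.exp_conj]; congr 1
  simp only [map_mul, Complex.conj_ofReal, Complex.conj_I, map_ofNat]
  push_cast; ring

lemma ex_int (k n : ℤ) : ex (k : ℝ) (n : ℝ) = 1 := by
  unfold ex
  have : (2 * π * I * (((k:ℝ) * (n:ℝ) : ℝ) : ℂ)) = ((k * n : ℤ) : ℂ) * (2 * π * I) := by
    push_cast; ring
  rw [this, Complex.exp_int_mul_two_pi_mul_I]

lemma integrableOn_mul_ex {h : ℝ → ℂ} {μ : Measure ℝ} (hi : Integrable h μ) (s : ℝ) :
    Integrable (fun x => h x * ex s x) μ := by
  refine hi.mul_bdd (c := 1) (ex_cont s).aestronglyMeasurable ?_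
  exact Filter.Eventually.of_forall fun x => (ex_norm s x).le

/-- uniqueness theorem for Fourier coefficients of integrable functions on an interval -/
theorem uniq1 {T : ℝ} (hT : 0 < T) (a : ℝ) (h : ℝ → ℂ) (hi : IntegrableOn h (Ioc a (a + T)))
    (H : ∀ k : ℤ, ∫ x in Ioc a (a + T), h x * ex (k / T) x = 0) :
    ∀ᵐ x ∂(volume : Measure ℝ), x ∈ Ioc a (a + T) → h x = 0 := by
  have : Fact (0 < T) := ⟨hT⟩
  have hint : ∀ φ : C(AddCircle T, ℂ),
      IntegrableOn (fun x : ℝ => h x * φ (x : AddCircle T)) (Ioc a (a + T)) := by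
    intro φ
    refine Integrable.mul_bdd (c := ‖φ‖) hi ?_ ?_
    · exact (φ.continuous.comp (AddCircle.continuous_mk' T)).aestronglyMeasurable
    · exact Filter.Eventually.of_forall fun x => φ.norm_coe_le_norm _
  let L0 : C(AddCircle T, ℂ) →ₗ[ℂ] ℂ :=
    { toFun := fun φ => ∫ x in Ioc a (a + T), h x * φ (x : AddCircle T)
      map_add' := by
        intro φ ψ
        rw [← integral_add (hint φ) (hint ψ)]
        congr 1; ext x; simp [mul_add]
      map_smul' := by
        intro c φ
        simp only [ContinuousMap.smul_apply, smul_eq_mul, RingHom.id_apply]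
        rw [← integral_const_mul]
        congr 1; ext x; ring }
  have hb : ∀ φ, ‖L0 φ‖ ≤ (∫ x in Ioc a (a + T), ‖h x‖) * ‖φ‖ := by
    intro φ
    refine (norm_integral_le_integral_norm _).trans ?_
    rw [← integral_mul_const]
    refine integral_mono (hint φ).norm (hi.norm.mul_const _) fun x => ?_
    simp only [norm_mul]
    exact mul_le_mul_of_nonneg_left (φ.norm_coe_le_norm _) (norm_nonneg _)
  let L : C(AddCircle T, ℂ) →L[ℂ] ℂ := L0.mkContinuous _ hb
  have hL : ∀ φ, L φ = 0 := by
    have h1 : Submodule.span ℂ (range (@fourier T)) ≤ LinearMap.ker (L : C(AddCircle T, ℂ) →ₗ[ℂ] ℂ) := by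
      rw [Submodule.span_le]
      rintro _ ⟨k, rfl⟩
      simp only [SetLike.mem_coe, LinearMap.mem_ker]
      have := H k
      show ∫ x in Ioc a (a + T), h x * fourier k (x : AddCircle T) = 0
      rw [← this]
      congr 1; ext x
      rw [fourier_coe_apply]
      unfold ex
      congr 2; push_cast; ring
    have h2 : (Submodule.span ℂ (range (@fourier T))).topologicalClosure ≤
        LinearMap.ker (L : C(AddCircle T, ℂ) →ₗ[ℂ] ℂ) :=
      Submodule.topologicalClosure_minimal _ h1 (L.isClosed_ker)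
    rw [span_fourier_closure_eq_top] at h2
    intro φ
    exact h2 (Submodule.mem_top (x := φ))
  have key : ∀ᵐ x ∂(volume : Measure ℝ), x ∈ Ioo a (a + T) → h x = 0 := by
    refine isOpen_Ioo.ae_eq_zero_of_integral_contDiff_smul_eq_zero ?_ ?_
    · exact (hi.mono_set Ioo_subset_Ioc_self).locallyIntegrableOn
    · intro g hg _ hs
      have ga : g a = 0 := by
        by_contra hne
        have := hs (subset_tsupport _ hne)
        exact lt_irrefl _ this.1
      have gb : g (a + T) = 0 := by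
        by_contra hne
        have := hs (subset_tsupport _ hne)
        exact lt_irrefl _ this.2
      let φ : C(AddCircle T, ℂ) := ⟨AddCircle.liftIoc T a (fun x => (g x : ℂ)),
        AddCircle.liftIoc_continuous (by simp [ga, gb])
          (Complex.continuous_ofReal.comp hg.continuous).continuousOn⟩
      have h0 : ∫ x in Ioc a (a + T), h x * φ (x : AddCircle T) = 0 := hL φ
      rw [← setIntegral_eq_integral_of_forall_compl_eq_zero (s := Ioc a (a + T))]
      · rw [← h0]
        refine setIntegral_congr_fun measurableSet_Ioc fun x hx => ?_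
        show g x • h x = h x * AddCircle.liftIoc T a (fun x => (g x : ℂ)) x
        rw [AddCircle.liftIoc_coe_apply hx, real_smul, mul_comm]
      · intro x hx
        have : g x = 0 := by
          by_contra hne
          exact hx (Ioo_subset_Ioc_self (hs (subset_tsupport _ hne)))
        simp [this]
  have hne : ∀ᵐ x ∂(volume : Measure ℝ), x ≠ a + T := by
    simp [ae_iff]
  filter_upwards [key, hne] with x h1 h2 hx
  exact h1 ⟨hx.1, lt_of_le_of_ne hx.2 h2⟩

theorem uniq1' {T : ℝ} (hT : 0 < T) (a : ℝ) (h : ℝ → ℂ) (hi : IntegrableOn h (Ico a (a + T)))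
    (H : ∀ k : ℤ, ∫ x in Ico a (a + T), h x * ex (k / T) x = 0) :
    ∀ᵐ x ∂(volume : Measure ℝ), x ∈ Ico a (a + T) → h x = 0 := by
  have h1 := uniq1 hT a h (by
      rw [integrableOn_Ioc_iff_integrableOn_Ioo]
      exact hi.mono_set Ioo_subset_Ico_self) (by
      intro k
      rw [integral_Ioc_eq_integral_Ioo, ← integral_Ico_eq_integral_Ioo]
      exact H k)
  have hne : ∀ᵐ x ∂(volume : Measure ℝ), x ≠ a := by
    simp [ae_iff]
  filter_upwards [h1, hne] with x h1 h2 hx
  exact h1 ⟨lt_of_le_of_ne hx.1 h2.symm, hx.2.le⟩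

/-- integral of a character over an interval -/
lemma integral_ex_Ico {T : ℝ} (hT : 0 < T) (a : ℝ) (k : ℤ) :
    ∫ x in Ico a (a + T), ex (k / T) x = if k = 0 then (T : ℂ) else 0 := by
  rw [integral_Ico_eq_integral_Ioo, ← integral_Ioc_eq_integral_Ioo,
    ← intervalIntegral.integral_of_le (by linarith)]
  split_ifs with hk
  · subst hk; simp [ex_zero_left]
  · have hc : (2 * π * I * ((k:ℝ) / T : ℝ) : ℂ) ≠ 0 := by
      have h1 : ((k:ℝ) / T : ℝ) ≠ 0 := div_ne_zero (by exact_mod_cast hk) hT.ne'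
      have h2 : (((k:ℝ) / T : ℝ) : ℂ) ≠ 0 := by exact_mod_cast h1
      have h3 : (π : ℂ) ≠ 0 := by exact_mod_cast Real.pi_ne_zero
      exact mul_ne_zero (mul_ne_zero (mul_ne_zero two_ne_zero h3) I_ne_zero) h2
    have : ∀ x : ℝ, ex (k / T) x = Complex.exp ((2 * π * I * ((k:ℝ) / T : ℝ) : ℂ) * x) := by
      intro x; unfold ex; congr 1; push_cast; ring
    simp_rw [this]
    rw [integral_exp_mul_complex hc]
    have h4 : (2 * π * I * ((k:ℝ) / T : ℝ) : ℂ) * ((a + T : ℝ) : ℂ) =
        (2 * π * I * ((k:ℝ) / T : ℝ) : ℂ) * (a : ℂ) + (k : ℂ) * (2 * π * I) := by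
      have : (T : ℂ) ≠ 0 := by exact_mod_cast hT.ne'
      push_cast; field_simp
    rw [h4, Complex.exp_add, Complex.exp_int_mul_two_pi_mul_I]
    simp

end Pool.Agent.H92.Fourier1
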