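import Mathlib

set_option autoImplicit false
open Finset Filter Topology Real MeasureTheory

namespace Pool.Agent.H92.FracVar

/-- sum over the ball -/
noncomputable def S (g : ℤ → ℝ) (n : ℤ) (r : ℕ) : ℝ := ∑ k ∈ Icc (n - r) (n + r), g k

/-- average over the ball -/
noncomputable def av (g : ℤ → ℝ) (n : ℤ) (r : ℕ) : ℝ := S g n r / (2 * r + 1)

lemma card_ball (n : ℤ) (r : ℕ) : (#(Icc (n - r) (n + r)) : ℝ) = 2 * r + 1 := by
  rw [Int.card_Icc, show n + r + 1 - (n - r) = ((2 * r + 1 : ℕ) : ℤ) by push_cast; ring, Int.toNat_natCast]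
  push_cast; ring

lemma S_mono {g : ℤ → ℝ} (hg : ∀ k, 0 ≤ g k) {n n' : ℤ} {r r' : ℕ} (h : |n - n'| + r ≤ r') :
    S g n r ≤ S g n' r' := by
  have := abs_le.mp (show |n - n'| ≤ r' - r by omega)
  exact sum_le_sum_of_subset_of_nonneg (Icc_subset_Icc (by omega) (by omega)) fun k _ _ => hg k

lemma av_nonneg {g : ℤ → ℝ} (hg : ∀ k, 0 ≤ g k) (n : ℤ) (r : ℕ) : 0 ≤ av g n r :=
  div_nonneg (sum_nonneg fun k _ => hg k) (by positivity)

lemma ex_ge (g : ℤ → ℝ) (n : ℤ) (r : ℕ) : ∃ k ∈ Icc (n - r) (n + r), av g n r ≤ g k := by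
  refine exists_le_of_sum_le ⟨n, by simp⟩ ?_
  rw [sum_const, nsmul_eq_mul, card_ball, av, mul_div_cancel₀ _ (by positivity)]; rfl

lemma ex_le (g : ℤ → ℝ) (n : ℤ) (r : ℕ) : ∃ k ∈ Icc (n - r) (n + r), g k ≤ av g n r := by
  refine exists_le_of_sum_le ⟨n, by simp⟩ ?_
  rw [sum_const, nsmul_eq_mul, card_ball, av, mul_div_cancel₀ _ (by positivity)]; rfl

lemma ivt0 (g : ℤ → ℝ) (y : ℝ) (a : ℤ) (k : ℕ) (h : y ∈ Set.uIcc (g a) (g (a + k + 1))) :
    ∃ m, a ≤ m ∧ m ≤ a + k ∧ y ∈ Set.uIcc (g m) (g (m + 1)) := by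
  induction k with
  | zero => exact ⟨a, le_rfl, by simp, by simpa using h⟩
  | succ k ih =>
    rcases Set.uIcc_subset_uIcc_union_uIcc (b := g (a + k + 1)) h with h | h
    · obtain ⟨m, h1, h2, h3⟩ := ih h
      exact ⟨m, h1, by push_cast; omega, h3⟩
    · exact ⟨a + k + 1, by omega, by push_cast; omega, by simpa [add_assoc] using h⟩

lemma ivt (g : ℤ → ℝ) (y : ℝ) {u v a b : ℤ} (ha : a ∈ Icc u v) (hb : b ∈ Icc u v) (h1 : g a < y)
    (h2 : y < g b) : ∃ m ∈ Icc u v, y ∈ Set.uIcc (g m) (g (m + 1)) := by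
  rw [mem_Icc] at ha hb
  rcases lt_trichotomy a b with h | h | h
  · obtain ⟨k, rfl⟩ : ∃ k : ℕ, b = a + k + 1 := ⟨(b - a - 1).toNat, by omega⟩
    obtain ⟨m, m1, m2, m3⟩ := ivt0 g y a k (Set.mem_uIcc_of_le h1.le h2.le)
    exact ⟨m, mem_Icc.mpr ⟨by omega, by omega⟩, m3⟩
  · subst h; linarith
  · obtain ⟨k, rfl⟩ : ∃ k : ℕ, a = b + k + 1 := ⟨(a - b - 1).toNat, by omega⟩
    obtain ⟨m, m1, m2, m3⟩ := ivt0 g y b k (Set.mem_uIcc_of_ge h1.le h2.le)
    exact ⟨m, mem_Icc.mpr ⟨by omega, by omega⟩, m3⟩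

lemma core {β : ℝ} (hβ : 0 < β) : ∃ C : ℝ, 0 ≤ C ∧ ∀ (g : ℤ → ℝ), (∀ k, 0 ≤ g k) →
    (Summable fun m => |g (m + 1) - g m|) → ∀ (T : Finset ℤ) (r : ℤ → ℕ),
    (∀ n ∈ T, ∀ R : ℕ, av g n R * (2 * R + 1) ^ β ≤ 2 * (av g n (r n) * (2 * r n + 1) ^ β)) →
    ∑ n ∈ T, av g n (r n) / (2 * r n + 1) ≤ C * ∑' m, |g (m + 1) - g m| := by
  have big : ∀ c : ℝ, ∃ N : ℕ, c ≤ (2 * N + 1 : ℝ) ^ β := fun c => by
    obtain ⟨N, hN⟩ := (((tendsto_rpow_atTop hβ).comp tendsto_natCast_atTop_atTop).eventually_ge_atTop c).exists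
    exact ⟨N, hN.trans (rpow_le_rpow (by positivity) (by linarith [N.cast_nonneg (α := ℝ)]) hβ.le)⟩
  obtain ⟨κ, hκ⟩ := big 4
  obtain ⟨κ', hκ'⟩ := big (12 * (2 * κ + 1))
  set C : ℝ := 3 * (2 * κ + 1) * (2 * κ' + 1)
  refine ⟨2 * C, by positivity, fun g hg hs T r H => ?_⟩
  let R : ℤ → ℕ := fun n => (2 * κ + 1) * r n + κ
  have hR : ∀ n, (2 * R n + 1 : ℝ) = (2 * κ + 1) * (2 * r n + 1) := fun n => by
    simp only [R]; push_cast; ring
  have rR : ∀ n, r n ≤ R n := fun n => by simp only [R]; nlinarith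
  have half : ∀ n ∈ T, av g n (R n) ≤ av g n (r n) / 2 := fun n hn => by
    have := H n hn (R n)
    rw [hR, mul_rpow (by positivity) (by positivity)] at this
    have p : (0:ℝ) < (2 * r n + 1) ^ β := by positivity
    have := mul_le_mul_of_nonneg_left (mul_le_mul_of_nonneg_right hκ p.le) (av_nonneg hg n (R n))
    refine le_of_mul_le_mul_right ?_ p
    linarith
  have cmp : ∀ n ∈ T, ∀ n' ∈ T, r n ≤ r n' → |n' - n| ≤ R n + R n' → av g n (r n) < 2 * av g n' (r n') →
      2 * r n' + 1 ≤ (2 * κ' + 1) * (2 * r n + 1) := by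
    intro n hn n' hn' h1 h2 h3
    have a1 := H n hn (3 * R n' + 1)
    have e : (2 * (3 * R n' + 1 : ℕ) + 1 : ℝ) = 3 * ((2 * κ + 1) * (2 * r n' + 1)) := by
      rw [← hR]; push_cast; ring
    have RR : R n ≤ R n' := by simp only [R]; gcongr
    have a2 : av g n' (r n') ≤ 3 * (2 * κ + 1) * av g n (3 * R n' + 1) := by
      have := S_mono hg (n := n') (n' := n) (r := r n') (r' := 3 * R n' + 1) (by have := rR n'; push_cast; omega)
      unfold av
      rw [e, div_le_iff₀ (by positivity)]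
      refine this.trans_eq ?_
      field_simp
    have a3 : (2 * r n' + 1 : ℝ) ^ β ≤ (2 * (3 * R n' + 1 : ℕ) + 1 : ℝ) ^ β := by
      have := rR n'
      gcongr; omega
    have p : (0:ℝ) < (2 * r n + 1) ^ β := by positivity
    have p' : 0 < av g n' (r n') := by linarith [av_nonneg hg n (r n)]
    have a4 : (2 * r n' + 1 : ℝ) ^ β ≤ ((2 * κ' + 1) * (2 * r n + 1)) ^ β := by
      rw [mul_rpow (by positivity) (by positivity)]
      refine le_of_mul_le_mul_left ?_ p'
      have := av_nonneg hg n (3 * R n' + 1)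
      calc _ ≤ 3 * (2 * κ + 1) * av g n (3 * R n' + 1) * (2 * (3 * R n' + 1 : ℕ) + 1 : ℝ) ^ β := by gcongr
        _ ≤ 3 * (2 * κ + 1) * (2 * (av g n (r n) * (2 * r n + 1) ^ β)) := by rw [mul_assoc]; gcongr
        _ ≤ 3 * (2 * κ + 1) * (2 * (2 * av g n' (r n') * (2 * r n + 1) ^ β)) := by gcongr
        _ = av g n' (r n') * (12 * (2 * κ + 1) * (2 * r n + 1) ^ β) := by ring
        _ ≤ _ := by gcongr
    rw [rpow_le_rpow_iff (by positivity) (by positivity) hβ] at a4
    exact_mod_cast a4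
  have cnt : ∀ (m : ℤ) (y : ℝ), ∑ n ∈ T with y ∈ Set.Ioo (av g n (r n) / 2) (av g n (r n)) ∧
      m ∈ Icc (n - R n) (n + R n), (1:ℝ) / (2 * r n + 1) ≤ C := by
    intro m y
    set U := {n ∈ T | y ∈ Set.Ioo (av g n (r n) / 2) (av g n (r n)) ∧ m ∈ Icc (n - R n) (n + R n)}
    rcases U.eq_empty_or_nonempty with h | h
    · rw [h]; simp; positivity
    obtain ⟨n0, h0, hmin⟩ := exists_min_image U r h
    obtain ⟨b1, b2, b3⟩ := mem_filter.mp h0
    set ρ : ℕ := (2 * κ + 1) * ((2 * κ' + 1) * (2 * r n0 + 1))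
    have sub : U ⊆ Icc (m - ρ) (m + ρ) := fun n hn => by
      obtain ⟨c1, c2, c3⟩ := mem_filter.mp hn
      rw [mem_Icc] at b3 c3 ⊢
      have := cmp n0 b1 n c1 (hmin n hn) (abs_le.mpr ⟨by omega, by omega⟩) (by linarith [b2.1, c2.2])
      have : R n ≤ ρ := by simp only [R, ρ]; nlinarith
      omega
    have p : (0:ℝ) < 2 * r n0 + 1 := by positivity
    calc _ ≤ ∑ n ∈ U, (1:ℝ) / (2 * r n0 + 1) := sum_le_sum fun n hn => by
          have := hmin n hn
          gcongr
      _ ≤ (2 * ρ + 1) * (1 / (2 * r n0 + 1)) := by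
          rw [sum_const, nsmul_eq_mul, ← card_ball m ρ]
          gcongr
      _ ≤ C := by
          rw [mul_one_div, div_le_iff₀ p]
          have : 1 ≤ ρ := Nat.succ_le_of_lt (by positivity)
          have : (1:ℝ) ≤ ρ := by exact_mod_cast this
          have e : C * (2 * r n0 + 1) = 3 * ρ := by simp only [C, ρ]; push_cast; ring
          linarith
  set W := T.biUnion fun n => Icc (n - R n) (n + R n)
  have pt : ∀ y : ℝ, ∑ n ∈ T, (Set.Ioo (av g n (r n) / 2) (av g n (r n))).indicator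
      (fun _ => (1:ℝ) / (2 * r n + 1)) y ≤ ∑ m ∈ W, (Set.uIcc (g m) (g (m + 1))).indicator (fun _ => C) y := by
    intro y
    classical
    calc _ ≤ ∑ n ∈ T, ∑ m ∈ W, if y ∈ Set.uIcc (g m) (g (m + 1)) then
          (if y ∈ Set.Ioo (av g n (r n) / 2) (av g n (r n)) ∧ m ∈ Icc (n - R n) (n + R n) then
            (1:ℝ) / (2 * r n + 1) else 0) else 0 := by
          refine sum_le_sum fun n hn => ?_
          have nn : ∀ m ∈ W, 0 ≤ if y ∈ Set.uIcc (g m) (g (m + 1)) then
              (if y ∈ Set.Ioo (av g n (r n) / 2) (av g n (r n)) ∧ m ∈ Icc (n - R n) (n + R n) then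
              (1:ℝ) / (2 * r n + 1) else 0) else 0 := fun m _ => by split_ifs <;> positivity
          by_cases hy : y ∈ Set.Ioo (av g n (r n) / 2) (av g n (r n))
          · obtain ⟨a, a1, a2⟩ := ex_le g n (R n)
            obtain ⟨b, b1, b2⟩ := ex_ge g n (r n)
            obtain ⟨m, m1, m2⟩ := ivt g y a1 (Icc_subset_Icc (by have := rR n; omega)
              (by have := rR n; omega) b1) (by linarith [half n hn, hy.1]) (by linarith [hy.2])
            refine le_trans ?_ (single_le_sum nn (mem_biUnion.mpr ⟨n, hn, m1⟩))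
            rw [Set.indicator_of_mem hy, if_pos m2, if_pos ⟨hy, m1⟩]
          · rw [Set.indicator_of_notMem hy]; exact sum_nonneg nn
      _ ≤ _ := by
          rw [sum_comm]
          refine sum_le_sum fun m _ => ?_
          by_cases hy : y ∈ Set.uIcc (g m) (g (m + 1))
          · simp only [if_pos hy, Set.indicator_of_mem hy, ← sum_filter]
            exact cnt m y
          · simp [hy]
  have i1 : ∀ n ∈ T, Integrable ((Set.Ioo (av g n (r n) / 2) (av g n (r n))).indicator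
      (fun _ => (1:ℝ) / (2 * r n + 1))) := fun n _ =>
    (integrable_indicator_iff measurableSet_Ioo).mpr (integrableOn_const (by simp))
  have i2 : ∀ m ∈ W, Integrable ((Set.uIcc (g m) (g (m + 1))).indicator (fun _ => C)) := fun m _ =>
    (integrable_indicator_iff measurableSet_uIcc).mpr (integrableOn_const (by simp [Set.uIcc]))
  have := integral_mono (integrable_finsetSum _ i1) (integrable_finsetSum _ i2) pt
  rw [integral_finsetSum _ i1, integral_finsetSum _ i2] at this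
  simp only [integral_indicator_const _ measurableSet_Ioo, integral_indicator_const _ measurableSet_uIcc,
    volume_real_Ioo, volume_real_interval, smul_eq_mul] at this
  have l : ∑ n ∈ T, av g n (r n) / (2 * r n + 1) = 2 * ∑ n ∈ T,
      max (av g n (r n) - av g n (r n) / 2) 0 * (1 / (2 * r n + 1)) := by
    rw [mul_sum]
    refine sum_congr rfl fun n _ => ?_
    rw [max_eq_left (by linarith [av_nonneg hg n (r n)])]; ring
  rw [l, mul_assoc]
  gcongr
  refine this.trans ?_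
  rw [← sum_mul, mul_comm]
  gcongr
  exact hs.sum_le_tsum _ fun _ _ => abs_nonneg _

/-- the fractional average -/
noncomputable def A (β : ℝ) (f : ℤ → ℝ) (n : ℤ) (r : ℕ) : ℝ :=
  1 / (2 * r + 1 : ℝ) ^ (1 - β) * ∑ k ∈ Icc (-(r : ℤ)) r, |f (n + k)|

lemma A_eq (β : ℝ) (f : ℤ → ℝ) (n : ℤ) (r : ℕ) :
    A β f n r = av (fun k => |f k|) n r * (2 * r + 1) ^ β := by
  have : ∑ k ∈ Icc (-(r : ℤ)) r, |f (n + k)| = S (fun k => |f k|) n r := by
    rw [S, sub_eq_add_neg, ← map_add_left_Icc, sum_map]; rfl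
  rw [A, this, av, rpow_sub (by positivity), rpow_one]
  field_simp

lemma A_nonneg (β : ℝ) (f : ℤ → ℝ) (n : ℤ) (r : ℕ) : 0 ≤ A β f n r := by
  unfold A; positivity

lemma A_shift {β : ℝ} (h1 : β < 1) (f : ℤ → ℝ) {n n' : ℤ} {r r' : ℕ} (h : |n - n'| + r ≤ r') :
    A β f n r * ((2 * r + 1) / (2 * r' + 1)) ^ (1 - β) ≤ A β f n' r' := by
  have := S_mono (g := fun k => |f k|) (fun k => abs_nonneg _) h
  rw [A_eq, A_eq, div_rpow (by positivity) (by positivity), rpow_sub (by positivity),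
    rpow_sub (by positivity), rpow_one, rpow_one, av, av]
  calc _ = S (fun k => |f k|) n r / (2 * r' + 1) * (2 * r' + 1) ^ β := by field_simp
    _ ≤ _ := by gcongr

lemma bdd {β : ℝ} (h0 : 0 < β) (h1 : β < 1) (f : ℤ → ℝ) {n0 : ℤ} (h : BddAbove (Set.range (A β f n0))) (n : ℤ) :
    BddAbove (Set.range (A β f n)) := by
  obtain ⟨B, hB⟩ := h
  set d := (n - n0).natAbs
  refine ⟨B * (2 * d + 1), ?_⟩
  rintro _ ⟨r, rfl⟩
  have a1 := (A_shift h1 f (n := n) (n' := n0) (r := r) (r' := r + d) (by simp [d, add_comm])).trans (hB ⟨_, rfl⟩)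
  have a2 : 1 / (2 * d + 1 : ℝ) ≤ ((2 * r + 1) / (2 * (r + d : ℕ) + 1)) ^ (1 - β) := by
    refine le_trans ?_ (self_le_rpow_of_le_one (by positivity) ?_ (by linarith))
    · rw [div_le_div_iff₀ (by positivity) (by positivity)]; push_cast
      nlinarith [r.cast_nonneg (α := ℝ), d.cast_nonneg (α := ℝ)]
    · rw [div_le_one (by positivity)]; push_cast; linarith [d.cast_nonneg (α := ℝ)]
  have := (mul_le_mul_of_nonneg_left a2 (A_nonneg β f n r)).trans a1
  rwa [mul_one_div, div_le_iff₀ (by positivity)] at this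

lemma sup_le {β : ℝ} (h0 : 0 < β) (f : ℤ → ℝ) (hs : Summable fun m => |f (m + 1) - f m|) {n0 : ℤ}
    (h : BddAbove (Set.range (A β f n0))) (n : ℤ) : |f n| ≤ ∑' m, |f (m + 1) - f m| := by
  obtain ⟨B, hB⟩ := h
  set V := ∑' m, |f (m + 1) - f m|
  have d0 : ∀ (a : ℤ) (k : ℕ), |f (a + k) - f a| ≤ ∑ m ∈ Ico a (a + k), |f (m + 1) - f m| := by
    intro a k
    induction k with
    | zero => simp
    | succ k ih =>
      rw [Nat.cast_succ, ← add_assoc, ← Finset.insert_Ico_right_eq_Ico_add_one (by omega),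
        sum_insert (by simp)]
      linarith [abs_sub_le (f (a + k + 1)) (f (a + k)) (f a)]
  have d1 : ∀ a b : ℤ, |f b - f a| ≤ V := by
    intro a b
    wlog hab : a ≤ b generalizing a b
    · rw [abs_sub_comm]; exact this b a (by omega)
    obtain ⟨k, rfl⟩ := Int.le.dest hab
    exact (d0 a k).trans (hs.sum_le_tsum _ fun _ _ => abs_nonneg _)
  have t : Tendsto (fun R : ℕ => B / (2 * R + 1 : ℝ) ^ β + V) atTop (𝓝 (0 + V)) := by
    refine Tendsto.add_const _ (Tendsto.const_div_atTop ((tendsto_rpow_atTop h0).comp ?_) _)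
    exact tendsto_atTop_add_const_right _ _ (tendsto_natCast_atTop_atTop.const_mul_atTop two_pos)
  rw [← zero_add V]
  refine ge_of_tendsto' t fun R => ?_
  obtain ⟨k, -, hk⟩ := ex_le (fun k => |f k|) n0 R
  have := hB ⟨R, rfl⟩
  rw [A_eq, ← le_div_iff₀ (by positivity)] at this
  linarith [abs_sub_abs_le_abs_sub (f n) (f k), d1 k n]

lemma one_side {β : ℝ} (h0 : 0 < β) (h1 : β < 1) : ∃ C : ℝ, 0 ≤ C ∧ ∀ (f : ℤ → ℝ),
    (Summable fun m => |f (m + 1) - f m|) → (∀ n, BddAbove (Set.range (A β f n))) →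
    ∀ (e : ℤ) (T : Finset ℤ), |e| = 1 →
    ∑ n ∈ T, (max ((⨆ r, A β f n r) - ⨆ r, A β f (n + e) r) 0) ^ (1 / (1 - β)) ≤
      C * (∑' m, |f (m + 1) - f m|) ^ (1 / (1 - β)) := by
  obtain ⟨C, C0, hC⟩ := core h0
  set q := 1 / (1 - β) with hq
  have q1 : 1 < q := one_lt_one_div (by linarith) (by linarith)
  refine ⟨4 ^ q * C, by positivity, fun f hs hb e T he => ?_⟩
  set V := ∑' m, |f (m + 1) - f m|
  have V0 : 0 ≤ V := tsum_nonneg fun _ => abs_nonneg _
  set M := fun n => ⨆ r, A β f n r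
  have hM : ∀ n r, A β f n r ≤ M n := fun n r => le_ciSup (hb n) r
  have ex : ∀ n, ∃ r, M (n + e) < M n → (M n + M (n + e)) / 2 < A β f n r := fun n => by
    by_cases h : M (n + e) < M n
    · obtain ⟨r, hr⟩ := exists_lt_of_lt_ciSup (show (M n + M (n + e)) / 2 < M n by linarith)
      exact ⟨r, fun _ => hr⟩
    · exact ⟨0, fun h' => absurd h' h⟩
  choose r hr using ex
  have hs' : ∀ m, |(|f (m + 1)| - |f m|)| ≤ |f (m + 1) - f m| := fun m => abs_abs_sub_abs_le_abs_sub _ _
  have hs2 := Summable.of_nonneg_of_le (fun _ => abs_nonneg _) hs' hs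
  have k1 := hC (fun k => |f k|) (fun _ => abs_nonneg _) hs2 {n ∈ T | M (n + e) < M n} r fun n hn R => by
    rw [← A_eq, ← A_eq]
    linarith [hM n R, hr n (mem_filter.mp hn).2, (A_nonneg β f (n + e) 0).trans (hM _ 0)]
  have k2 := k1.trans (mul_le_mul_of_nonneg_left (hs2.tsum_le_tsum hs' hs) C0)
  calc _ = ∑ n ∈ T with M (n + e) < M n, (M n - M (n + e)) ^ q := by
        rw [sum_filter]
        refine sum_congr rfl fun n _ => ?_
        split_ifs with h
        · rw [max_eq_left (by linarith)]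
        · rw [max_eq_right (by linarith), zero_rpow (by linarith)]
    _ ≤ ∑ n ∈ T with M (n + e) < M n, 4 ^ q * V ^ (q - 1) *
          (av (fun k => |f k|) n (r n) / (2 * r n + 1)) := by
        refine sum_le_sum fun n hn => ?_
        have h := (mem_filter.mp hn).2
        have a1 := hr n h
        have a2 := (A_shift h1 f (n := n) (n' := n + e) (r := r n) (r' := r n + 1)
          (by push_cast; simp [he]; omega)).trans (hM _ _)
        set l : ℝ := 2 * r n + 1 with hl
        have l0 : 0 < l := by positivity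
        have a3 : 1 - 2 / l ≤ (l / (2 * (r n + 1 : ℕ) + 1)) ^ (1 - β) := by
          refine le_trans ?_ (self_le_rpow_of_le_one (by positivity) ?_ (by linarith))
          · rw [show (2 * (r n + 1 : ℕ) + 1 : ℝ) = l + 2 by push_cast; ring, le_div_iff₀ (by positivity)]
            field_simp; nlinarith
          · rw [div_le_one (by positivity)]; push_cast; linarith
        have a4 := mul_le_mul_of_nonneg_left a3 (A_nonneg β f n (r n))
        set a := av (fun k => |f k|) n (r n)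
        have a0 : 0 ≤ a := av_nonneg (fun _ => abs_nonneg _) _ _
        have aV : a ≤ V := by
          obtain ⟨k, -, hk⟩ := ex_ge (fun k => |f k|) n (r n)
          exact hk.trans (sup_le h0 f hs (hb 0) k)
        have a5 : M n - M (n + e) ≤ 4 * a * l ^ (β - 1) := by
          have : 4 * a * l ^ (β - 1) = 2 * (A β f n (r n) * (2 / l)) := by
            rw [A_eq, rpow_sub l0, rpow_one]; ring
          linarith
        calc _ ≤ (4 * a * l ^ (β - 1)) ^ q := rpow_le_rpow (by linarith) a5 (by linarith)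
          _ = 4 ^ q * a ^ (q - 1) * (a / l) := by
            rw [mul_rpow (by positivity) (by positivity), mul_rpow (by positivity) a0, ← rpow_mul l0.le,
              show (β - 1) * q = -1 by rw [hq]; field_simp [show 1 - β ≠ 0 by linarith]; ring, rpow_neg_one]
            conv_lhs => rw [show q = (q - 1) + 1 by ring, rpow_add' a0 (by linarith), rpow_one,
              show q - 1 + 1 = q by ring]
            ring
          _ ≤ _ := by gcongr
    _ ≤ 4 ^ q * V ^ (q - 1) * (C * V) := by rw [← mul_sum]; gcongr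
    _ = _ := by
        conv_rhs => rw [show q = (q - 1) + 1 by ring, rpow_add' V0 (by linarith), rpow_one,
          show q - 1 + 1 = q by ring]
        ring

theorem main {β : ℝ} (h0 : 0 < β) (h1 : β < 1) : ∃ C : ℝ, ∀ (f : ℤ → ℝ),
    (Summable fun m => |f (m + 1) - f m|) → (∃ n, BddAbove (Set.range (A β f n))) →
    (∀ n, BddAbove (Set.range (A β f n))) ∧
    (Summable fun n => |(⨆ r, A β f (n + 1) r) - ⨆ r, A β f n r| ^ (1 / (1 - β))) ∧
    (∑' n, |(⨆ r, A β f (n + 1) r) - ⨆ r, A β f n r| ^ (1 / (1 - β))) ^ (1 / (1 / (1 - β))) ≤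
      C * ∑' m, |f (m + 1) - f m| := by
  obtain ⟨C, C0, hC⟩ := one_side h0 h1
  set q := 1 / (1 - β) with hq
  have q1 : 1 < q := one_lt_one_div (by linarith) (by linarith)
  refine ⟨(2 * C) ^ (1 / q), fun f hs ⟨n0, hn⟩ => ?_⟩
  have hb := bdd h0 h1 f hn
  set V := ∑' m, |f (m + 1) - f m|
  have V0 : 0 ≤ V := tsum_nonneg fun _ => abs_nonneg _
  have key : ∀ T : Finset ℤ, ∑ n ∈ T, |(⨆ r, A β f (n + 1) r) - ⨆ r, A β f n r| ^ q ≤ 2 * C * V ^ q := by
    intro T
    have a1 := hC f hs hb 1 T (by simp)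
    have a2 := hC f hs hb (-1) (T.map (addRightEmbedding 1)) (by simp)
    simp only [sum_map, addRightEmbedding_apply, add_neg_cancel_right] at a2
    refine le_trans ?_ ((add_le_add a1 a2).trans_eq (by ring))
    rw [← sum_add_distrib]
    refine sum_le_sum fun n _ => ?_
    rcases le_total (⨆ r, A β f (n + 1) r) (⨆ r, A β f n r) with h | h
    · rw [max_eq_left (by linarith), abs_sub_comm, abs_of_nonneg (by linarith)]
      exact le_add_of_nonneg_right (by positivity)
    · rw [max_eq_left (sub_nonneg.mpr h), abs_of_nonneg (by linarith)]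
      exact le_add_of_nonneg_left (by positivity)
  have sm := summable_of_sum_le (fun n => by positivity) key
  refine ⟨hb, sm, (rpow_le_rpow (tsum_nonneg fun n => by positivity) (sm.tsum_le_of_sum_le key)
    (by positivity)).trans_eq ?_⟩
  rw [mul_rpow (by positivity) (by positivity), ← rpow_mul V0, mul_one_div_cancel (by linarith), rpow_one]

end Pool.Agent.H92.FracVar
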