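import Mathlib

set_option autoImplicit false
open Filter Topology
open scoped InnerProductSpace ComplexConjugate

namespace Pool.Agent.H92.GaborOrbit

lemma comb (τ : ℤ × ℤ ≃ ℤ) (p : ℤ → ℝ) (hfin : ∀ δ > 0, {k | δ ≤ p k}.Finite)
    (hcov : ∀ l l' μ, p (τ (l + μ) - τ (l' + μ)) = p (τ l - τ l')) (k₀ : ℤ) (hk : k₀ ≠ 0) :
    ¬ 0 < p k₀ := by
  intro hp
  obtain ⟨M, hM⟩ := ((hfin _ hp).image (fun k : ℤ => |k|)).bddAbove
  have hM' : ∀ k, p k = p k₀ → |k| ≤ M := fun k h => hM ⟨k, h.ge, rfl⟩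
  let H : AddSubgroup (ℤ × ℤ) :=
    { carrier := {μ | ∃ C : ℤ, ∀ l, |τ (l + μ) - τ l| ≤ C}
      zero_mem' := ⟨0, by simp⟩
      add_mem' := by
        rintro a b ⟨C, hC⟩ ⟨C', hC'⟩
        refine ⟨C + C', fun l => ?_⟩
        have h1 := hC l
        have h2 := hC' (l + a)
        rw [← add_assoc]
        have := abs_sub_le (τ (l + a + b)) (τ (l + a)) (τ l)
        linarith
      neg_mem' := by
        rintro a ⟨C, hC⟩
        refine ⟨C, fun l => ?_⟩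
        have := hC (l + -a)
        rwa [neg_add_cancel_right, abs_sub_comm] at this }
  have step : ∀ j, τ.symm (j + k₀) - τ.symm j ∈ H := by
    intro j
    refine ⟨M, fun l => hM' _ ?_⟩
    have := hcov (τ.symm (j + k₀)) (τ.symm j) (l - τ.symm j)
    simp only [Equiv.apply_symm_apply, add_sub_cancel, add_sub_cancel_left] at this
    rw [← this]; congr 3; abel
  have chain : ∀ (n : ℤ) (j : ℤ), τ.symm (j + n * k₀) - τ.symm j ∈ H := by
    intro n j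
    induction n using Int.induction_on with
    | zero => simp
    | succ n ih =>
      have := H.add_mem (step (j + n * k₀)) ih
      rwa [sub_add_sub_cancel, show j + n * k₀ + k₀ = j + (n + 1) * k₀ by ring] at this
    | pred n ih =>
      have := H.sub_mem ih (step (j + (-n - 1) * k₀))
      rwa [show j + (-n - 1) * k₀ + k₀ = j + -n * k₀ by ring, sub_sub_sub_cancel_left] at this
  have pig : ∀ w : ℤ × ℤ, ∃ m : ℤ, m ≠ 0 ∧ m • w ∈ H := by
    intro w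
    have : NeZero k₀.natAbs := ⟨Int.natAbs_ne_zero.mpr hk⟩
    obtain ⟨i, i', hne, he⟩ := Finite.exists_ne_map_eq_of_infinite
      (fun i : ℤ => ((τ (i • w) : ℤ) : ZMod k₀.natAbs))
    rw [ZMod.intCast_eq_intCast_iff_dvd_sub, Int.natAbs_dvd] at he
    obtain ⟨n, hn⟩ := he
    refine ⟨i' - i, sub_ne_zero.mpr hne.symm, ?_⟩
    have := chain n (τ (i • w))
    rwa [show τ (i • w) + n * k₀ = τ (i' • w) by linarith, Equiv.symm_apply_apply,
      Equiv.symm_apply_apply, ← sub_smul] at this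
  obtain ⟨m₁, h₁, C₁, hC₁⟩ := pig (1, 0)
  obtain ⟨m₂, h₂, C₂, hC₂⟩ := pig (0, 1)
  have iter : ∀ (u : ℤ × ℤ) (C : ℤ), (∀ l, |τ (l + u) - τ l| ≤ C) → ∀ (x : ℕ) l,
      |τ (l + x • u) - τ l| ≤ x * C := by
    intro u C hC x l
    induction x with
    | zero => simp
    | succ x ih =>
      have h2 := hC (l + x • u)
      have := abs_sub_le (τ (l + x • u + u)) (τ (l + x • u)) (τ l)
      rw [succ_nsmul, ← add_assoc]
      push_cast; linarith
  obtain ⟨C, hC⟩ : ∃ C : ℕ, C₁ ≤ C ∧ C₂ ≤ C :=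
    ⟨(max C₁ C₂).toNat, (le_max_left _ _).trans (Int.self_le_toNat _),
      (le_max_right _ _).trans (Int.self_le_toNat _)⟩
  set n : ℕ := 4 * C + 2 with hn
  let φ : ℕ × ℕ → ℤ := fun q => τ (0 + q.1 • (m₁ • ((1:ℤ), (0:ℤ))) + q.2 • (m₂ • ((0:ℤ), (1:ℤ))))
  have hcard := Finset.card_le_card_of_injOn (s := Finset.range n ×ˢ Finset.range n)
    (t := Finset.Icc (τ 0 - 2 * C * n) (τ 0 + 2 * C * n)) φ (by
      rintro ⟨x, y⟩ hq
      simp only [Finset.coe_product, Finset.coe_range, Set.mem_prod, Set.mem_Iio] at hq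
      have a1 := iter _ C (fun l => (hC₁ l).trans hC.1) x 0
      have a2 := iter _ C (fun l => (hC₂ l).trans hC.2) y (0 + x • (m₁ • ((1:ℤ), (0:ℤ))))
      have hx : (x:ℤ) * C ≤ n * C := by
        have : x ≤ n := hq.1.le
        exact_mod_cast Nat.mul_le_mul_right C this
      have hy : (y:ℤ) * C ≤ n * C := by
        have : y ≤ n := hq.2.le
        exact_mod_cast Nat.mul_le_mul_right C this
      simp only [Finset.coe_Icc, Set.mem_Icc, φ]
      rw [abs_le] at a1 a2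
      constructor <;> linarith [a1.1, a1.2, a2.1, a2.2]) (by
      rintro ⟨x, y⟩ _ ⟨x', y'⟩ _ he
      have := τ.injective he
      simp only [zero_add, Prod.smul_mk, smul_eq_mul, mul_one, mul_zero, nsmul_eq_mul,
        Prod.mk_add_mk, add_zero, Prod.mk.injEq] at this
      have e1 := mul_right_cancel₀ h₁ this.1
      have e2 := mul_right_cancel₀ h₂ this.2
      ext
      · exact_mod_cast e1
      · exact_mod_cast e2)
  rw [Finset.card_product, Finset.card_range, Int.card_Icc] at hcard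
  have e : (τ 0 + 2 * C * n + 1 - (τ 0 - 2 * C * n)) = ((4 * C * n + 1 : ℕ) : ℤ) := by
    push_cast; ring
  rw [e, Int.toNat_natCast] at hcard
  have : n * n = 4 * C * n + 2 * n := by rw [hn]; ring
  omega

variable {H : Type*} [NormedAddCommGroup H] [InnerProductSpace ℂ H] [CompleteSpace H]
  {Λ : Type*}

lemma normsq (c : lp (fun _ : Λ => ℂ) 2) : ‖c‖ ^ 2 = ∑' n, ‖c n‖ ^ 2 := by
  have := lp.norm_rpow_eq_tsum (p := 2) (by norm_num) c
  simpa using this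

lemma summ (c : lp (fun _ : Λ => ℂ) 2) : Summable fun n => ‖c n‖ ^ 2 := by
  have := (lp.memℓp c).summable (by norm_num)
  simpa using this

omit [CompleteSpace H] in
lemma exists_C (f : Λ → H) {A B : ℝ} (hB : 0 < B)
    (hf : ∀ x : H, Summable (fun l => ‖⟪f l, x⟫_ℂ‖ ^ 2) ∧ A * ‖x‖ ^ 2 ≤ ∑' l, ‖⟪f l, x⟫_ℂ‖ ^ 2 ∧
      ∑' l, ‖⟪f l, x⟫_ℂ‖ ^ 2 ≤ B * ‖x‖ ^ 2) :
    ∃ C : H →L[ℂ] lp (fun _ : Λ => ℂ) 2, (∀ x l, C x l = ⟪f l, x⟫_ℂ) ∧
      ∀ x, A * ‖x‖ ^ 2 ≤ ‖C x‖ ^ 2 := by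
  have hm : ∀ x : H, Memℓp (fun l => ⟪f l, x⟫_ℂ) 2 := fun x => by
    apply memℓp_gen
    simpa using (hf x).1
  let C0 : H →ₗ[ℂ] lp (fun _ : Λ => ℂ) 2 :=
    { toFun := fun x => ⟨fun l => ⟪f l, x⟫_ℂ, hm x⟩
      map_add' := by intro x y; ext l; simp [inner_add_right]
      map_smul' := by intro c x; ext l; simp [inner_smul_right] }
  have hb : ∀ x, ‖C0 x‖ ≤ Real.sqrt B * ‖x‖ := by
    intro x
    refine le_of_pow_le_pow_left₀ two_ne_zero (by positivity) ?_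
    rw [mul_pow, Real.sq_sqrt hB.le, normsq]
    exact (hf x).2.2
  refine ⟨C0.mkContinuous _ hb, fun x l => rfl, fun x => ?_⟩
  rw [normsq]; exact (hf x).2.1

section
variable {f : Λ → H} {C : H →L[ℂ] lp (fun _ : Λ => ℂ) 2} (hC : ∀ x l, C x l = ⟪f l, x⟫_ℂ)
  {A : ℝ} (hA : 0 < A) (hlow : ∀ x, A * ‖x‖ ^ 2 ≤ ‖C x‖ ^ 2)

include hA hlow in
lemma closed_range : IsClosed (Set.range C) := by
  have : AntilipschitzWith (⟨(Real.sqrt A)⁻¹, by positivity⟩ : NNReal) C := by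
    refine C.antilipschitz_of_bound fun x => ?_
    have hs : 0 < Real.sqrt A := Real.sqrt_pos.mpr hA
    show ‖x‖ ≤ (Real.sqrt A)⁻¹ * ‖C x‖
    rw [le_inv_mul_iff₀ hs]
    refine le_of_pow_le_pow_left₀ two_ne_zero (by positivity) ?_
    rw [mul_pow, Real.sq_sqrt hA.le]
    exact hlow x
  exact this.isClosed_range C.uniformContinuous

include hC hA hlow in
lemma exists_dual : ∃ x : Λ → H, ∀ k y, ⟪C (x k), C y⟫_ℂ = ⟪f k, y⟫_ℂ := by
  classical
  let M := LinearMap.range (C : H →ₗ[ℂ] lp (fun _ : Λ => ℂ) 2)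
  have hM : IsClosed (M : Set (lp (fun _ : Λ => ℂ) 2)) := closed_range hA hlow
  have : CompleteSpace M := hM.completeSpace_coe
  choose x hx using fun k : Λ => M.starProjection_apply_mem (lp.single 2 k (1:ℂ))
  refine ⟨x, fun k y => ?_⟩
  have h1 : C (x k) = M.starProjection (lp.single 2 k (1:ℂ)) := hx k
  have h2 : M.starProjection (C y) = C y := Submodule.starProjection_eq_self_iff.mpr ⟨y, rfl⟩
  rw [h1, Submodule.inner_starProjection_left_eq_right, h2, lp.inner_single_left, hC]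
  simp

variable {x : Λ → H} (hx : ∀ k y, ⟪C (x k), C y⟫_ℂ = ⟪f k, y⟫_ℂ)

omit [CompleteSpace H] in
include hC hx in
lemma cov (W : H → H) (hW : ∀ u v, ⟪W u, W v⟫_ℂ = ⟪u, v⟫_ℂ) (hs : Function.Surjective W)
    (φ : Λ ≃ Λ) (c : Λ → ℂ) (hc : ∀ l, ‖c l‖ = 1) (hf : ∀ l, W (f l) = c l • f (φ l)) (l l' : Λ) :
    ‖⟪f (φ l'), x (φ l)⟫_ℂ‖ = ‖⟪f l', x l⟫_ℂ‖ := by
  have cc : ∀ l, conj (c l) * c l = 1 := fun l => by
    rw [Complex.conj_mul', hc]; simp
  have h1 : ∀ l u, ⟪f l, u⟫_ℂ = conj (c l) * ⟪f (φ l), W u⟫_ℂ := by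
    intro l u; rw [← hW, hf, inner_smul_left]
  have h2 : ∀ u v, ⟪C (W u), C (W v)⟫_ℂ = ⟪C u, C v⟫_ℂ := by
    intro u v
    rw [lp.inner_eq_tsum, lp.inner_eq_tsum, ← φ.tsum_eq]
    congr 1; ext l
    simp only [hC]
    rw [h1 l u, h1 l v]
    simp only [RCLike.inner_apply, map_mul, Complex.conj_conj]
    linear_combination (-(⟪f (φ l), W v⟫_ℂ * conj ⟪f (φ l), W u⟫_ℂ)) * cc l
  have h3 : C (W (x l) - c l • x (φ l)) = 0 := by
    rw [← inner_self_eq_zero (𝕜 := ℂ)]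
    obtain ⟨y, hy⟩ := hs (W (x l) - c l • x (φ l))
    nth_rewrite 2 [← hy]
    rw [map_sub, map_smul, inner_sub_left, inner_smul_left, h2, hx, hx, h1 l y, sub_self]
  have h4 : ⟪f (φ l'), W (x l)⟫_ℂ = c l * ⟪f (φ l'), x (φ l)⟫_ℂ := by
    have := congrArg (fun c : lp (fun _ : Λ => ℂ) 2 => c (φ l')) h3
    simp only [hC, inner_sub_right, inner_smul_right, lp.coeFn_zero, Pi.zero_apply] at this
    exact sub_eq_zero.mp this
  rw [h1 l' (x l), h4]
  simp [hc]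

omit [CompleteSpace H] in
include hC hx in
lemma shift (hd : ∀ l l', ‖⟪f l, x l⟫_ℂ‖ = ‖⟪f l', x l'⟫_ℂ‖) (s : Λ → Λ) (hs : Function.Injective s)
    (hT : ∀ y, ∃ z, ∀ l, ⟪f l, z⟫_ℂ = ⟪f (s l), y⟫_ℂ) (k : Λ) :
    (∀ j, ⟪f (s j), x (s k)⟫_ℂ = ⟪f j, x k⟫_ℂ) ∧ ∀ j, j ∉ Set.range s → ⟪f j, x (s k)⟫_ℂ = 0 := by
  classical
  obtain ⟨z, hz⟩ := hT (x (s k))
  have dg : ∀ l, ⟪f l, x l⟫_ℂ = ((‖C (x l)‖ ^ 2 : ℝ) : ℂ) := by
    intro l; rw [← hx, inner_self_eq_norm_sq_to_K]; simp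
  have dd : ‖C (x (s k))‖ ^ 2 = ‖C (x k)‖ ^ 2 := by
    have := hd (s k) k
    rw [dg, dg, Complex.norm_real, Complex.norm_real, Real.norm_of_nonneg (by positivity),
      Real.norm_of_nonneg (by positivity)] at this
    exact this
  have h1 : ⟪C (x k), C z⟫_ℂ = ((‖C (x k)‖ ^ 2 : ℝ) : ℂ) := by rw [hx, hz, dg, dd]
  have h2 : ‖C (x k) - C z‖ ^ 2 = ‖C z‖ ^ 2 - ‖C (x k)‖ ^ 2 := by
    rw [@norm_sub_sq ℂ, h1]
    simp only [RCLike.re_to_complex, Complex.ofReal_re]; ring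
  have h3 : ‖C z‖ ^ 2 = ∑' l, ‖C (x (s k)) (s l)‖ ^ 2 := by
    rw [normsq]; simp only [hC, hz]
  have h4 : ‖C z‖ ^ 2 ≤ ‖C (x k)‖ ^ 2 := by
    rw [h3, ← dd, normsq]
    exact tsum_comp_le_tsum_of_inj (summ (C (x (s k)))) (fun _ => by positivity) hs
  have h5 : C (x k) = C z := by
    rw [← sub_eq_zero, ← norm_eq_zero, ← pow_eq_zero_iff two_ne_zero]
    exact le_antisymm (by linarith) (by positivity)
  refine ⟨fun j => by rw [← hz, ← hC, ← h5, hC], fun j hj => ?_⟩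
  have h6 := (summ (C (x (s k)))).tsum_eq_add_tsum_ite j
  have h7 : Summable fun l => if l = j then 0 else ‖C (x (s k)) l‖ ^ 2 :=
    Summable.of_nonneg_of_le (fun l => by split_ifs <;> positivity)
      (fun l => by split_ifs; positivity; exact le_rfl) (summ (C (x (s k))))
  have h8 := tsum_comp_le_tsum_of_inj h7 (fun l => by split_ifs <;> positivity) hs
  have h9 : ((fun l => if l = j then 0 else ‖C (x (s k)) l‖ ^ 2) ∘ s) =
      fun l => ‖C (x (s k)) (s l)‖ ^ 2 := by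
    ext l
    have : s l ≠ j := fun h => hj ⟨l, h⟩
    simp [this]
  rw [h9, ← h3, ← h5, ← dd, normsq, h6] at h8
  rw [← hC, ← norm_eq_zero, ← pow_eq_zero_iff two_ne_zero]
  exact le_antisymm (by linarith) (by positivity)

include hC hA hlow hx in
lemma riesz [DecidableEq Λ] (hne : ∀ k, f k ≠ 0) (hoff : ∀ j k, j ≠ k → ⟪f j, x k⟫_ℂ = 0) :
    ∃ L : lp (fun _ : Λ => ℂ) 2 ≃L[ℂ] H, ∀ k, L (lp.single 2 k (1:ℂ)) = f k := by
  have hd : ∀ k, ⟪f k, x k⟫_ℂ ≠ 0 := by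
    intro k h
    rw [← hx, inner_self_eq_zero] at h
    have := hx k (f k)
    rw [h, inner_zero_left, eq_comm, inner_self_eq_zero] at this
    exact hne k this
  have hsurj : LinearMap.range (C : H →ₗ[ℂ] lp (fun _ : Λ => ℂ) 2) = ⊤ := by
    rw [eq_top_iff]
    intro c _
    have := lp.hasSum_single (p := 2) (by norm_num) c
    refine (closed_range hA hlow).mem_of_tendsto this (Eventually.of_forall fun s => ?_)
    show _ ∈ LinearMap.range (C : H →ₗ[ℂ] lp (fun _ : Λ => ℂ) 2)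
    refine Submodule.sum_mem _ fun k _ => ⟨(c k / ⟪f k, x k⟫_ℂ) • x k, ?_⟩
    ext j
    simp only [ContinuousLinearMap.coe_coe, hC, inner_smul_right]
    by_cases h : j = k
    · subst h; rw [lp.single_apply_self, div_mul_cancel₀ _ (hd j)]
    · rw [lp.single_apply_ne _ _ _ h, hoff j k h, mul_zero]
  have hinj : LinearMap.ker (C : H →ₗ[ℂ] lp (fun _ : Λ => ℂ) 2) = ⊥ := by
    rw [eq_bot_iff]
    intro y hy
    have h1 : C y = 0 := hy
    have := hlow y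
    rw [h1, norm_zero, zero_pow two_ne_zero] at this
    have h2 : ‖y‖ ^ 2 ≤ 0 := by
      by_contra h; push Not at h
      have := mul_pos hA h; linarith
    have : ‖y‖ ^ 2 = 0 := le_antisymm h2 (by positivity)
    simpa using this
  let E := ContinuousLinearEquiv.ofBijective C hinj hsurj
  have hE : ∀ y, E y = C y := fun y => rfl
  refine ⟨ContinuousLinearEquiv.equivOfInverse (ContinuousLinearMap.adjoint C)
    (ContinuousLinearMap.adjoint (E.symm : lp (fun _ : Λ => ℂ) 2 →L[ℂ] H)) ?_ ?_, fun k => ?_⟩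
  · intro c
    refine ext_inner_right ℂ fun d => ?_
    rw [ContinuousLinearMap.adjoint_inner_left, ContinuousLinearMap.adjoint_inner_left, ← hE]
    simp
  · intro y
    refine ext_inner_right ℂ fun d => ?_
    rw [ContinuousLinearMap.adjoint_inner_left, ContinuousLinearMap.adjoint_inner_left, ← hE]
    simp
  · refine ext_inner_right ℂ fun y => ?_
    show ⟪ContinuousLinearMap.adjoint C _, y⟫_ℂ = _
    rw [ContinuousLinearMap.adjoint_inner_left, lp.inner_single_left, hC]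
    simp

end

lemma exists_adj (V : Submodule ℂ H) (T : V →L[ℂ] H) (y : H) :
    ∃ z : H, ∀ v : V, ⟪(v : H), z⟫_ℂ = ⟪T v, y⟫_ℂ := by
  obtain ⟨g, hg, -⟩ := exists_extension_norm_eq V ((innerSL ℂ y).comp T)
  refine ⟨(InnerProductSpace.toDual ℂ H).symm g, fun v => ?_⟩
  rw [← inner_conj_symm, InnerProductSpace.toDual_symm_apply, hg]
  simp

/-- abstract form of the theorem -/
theorem abstract [Nontrivial H] (f : ℤ × ℤ → H) {A B : ℝ} (hA : 0 < A) (hB : 0 < B)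
    (hf : ∀ x : H, Summable (fun l => ‖⟪f l, x⟫_ℂ‖ ^ 2) ∧ A * ‖x‖ ^ 2 ≤ ∑' l, ‖⟪f l, x⟫_ℂ‖ ^ 2 ∧
      ∑' l, ‖⟪f l, x⟫_ℂ‖ ^ 2 ≤ B * ‖x‖ ^ 2)
    (hW : ∀ μ, ∃ (W : H → H) (c : ℤ × ℤ → ℂ), (∀ u v, ⟪W u, W v⟫_ℂ = ⟪u, v⟫_ℂ) ∧
      Function.Surjective W ∧ (∀ l, ‖c l‖ = 1) ∧ ∀ l, W (f l) = c l • f (l + μ))
    (hT : (∃ (σ : ℕ ≃ ℤ × ℤ), ∀ y, ∃ z, ∀ k, ⟪f (σ k), z⟫_ℂ = ⟪f (σ (k + 1)), y⟫_ℂ) ∨
      (∃ (σ : ℤ ≃ ℤ × ℤ), ∀ y, ∃ z, ∀ k, ⟪f (σ k), z⟫_ℂ = ⟪f (σ (k + 1)), y⟫_ℂ)) :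
    ∃ L : lp (fun _ : ℤ × ℤ => ℂ) 2 ≃L[ℂ] H, ∀ k, L (lp.single 2 k (1:ℂ)) = f k := by
  obtain ⟨C, hC, hlow⟩ := exists_C f hB hf
  obtain ⟨x, hx⟩ := exists_dual hC hA hlow
  have hcov : ∀ l l' μ, ‖⟪f (l' + μ), x (l + μ)⟫_ℂ‖ = ‖⟪f l', x l⟫_ℂ‖ := by
    intro l l' μ
    obtain ⟨W, c, h1, h2, h3, h4⟩ := hW μ
    exact cov hC hx W h1 h2 (Equiv.addRight μ) c h3 h4 l l'
  have hd : ∀ l l', ‖⟪f l, x l⟫_ℂ‖ = ‖⟪f l', x l'⟫_ℂ‖ := by
    intro l l'
    rw [← hcov l' l' (l - l')]; simp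
  have hsym : ∀ l l', ⟪f l, x l'⟫_ℂ = conj ⟪f l', x l⟫_ℂ := by
    intro l l'; rw [← hx, ← hx, inner_conj_symm]
  have hne : ∀ k, f k ≠ 0 := by
    intro k hk
    have h0 : ∀ l, f l = 0 := by
      intro l
      have h1 := hd l k
      rw [hk, inner_zero_left, norm_zero, norm_eq_zero, ← hx, inner_self_eq_zero] at h1
      have := hx l (f l)
      rwa [h1, inner_zero_left, eq_comm, inner_self_eq_zero] at this
    obtain ⟨y, hy⟩ := exists_ne (0 : H)
    have := (hf y).2.1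
    simp only [h0, inner_zero_left, norm_zero, ne_eq, OfNat.ofNat_ne_zero, not_false_eq_true,
      zero_pow, tsum_zero] at this
    have h2 : 0 < A * ‖y‖ ^ 2 := mul_pos hA (pow_pos (norm_pos_iff.mpr hy) 2)
    linarith
  refine riesz hC hA hlow hx hne ?_
  rcases hT with ⟨σ, hσ⟩ | ⟨σ, hσ⟩
  · have hsh := shift hC hx hd (fun l => σ (σ.symm l + 1))
      (fun a b h => by simpa using h) (fun y => by
        obtain ⟨z, hz⟩ := hσ y
        exact ⟨z, fun l => by simpa using hz (σ.symm l)⟩)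
    have h0 : ∀ k, ⟪f (σ 0), x (σ (k + 1))⟫_ℂ = 0 := by
      intro k
      have := (hsh (σ k)).2 (σ 0) (by rintro ⟨l, hl⟩; simp at hl)
      simpa using this
    have h1 : ∀ j k, ⟪f (σ j), x (σ (j + k + 1))⟫_ℂ = 0 := by
      intro j k
      induction j with
      | zero => simpa using h0 k
      | succ j ih =>
        have := (hsh (σ (j + k + 1))).1 (σ j)
        simp only [Equiv.symm_apply_apply] at this
        rw [show j + 1 + k + 1 = j + k + 1 + 1 by ring, this, ih]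
    intro j k hjk
    obtain ⟨j, rfl⟩ := σ.surjective j
    obtain ⟨k, rfl⟩ := σ.surjective k
    rcases lt_trichotomy j k with h | h | h
    · obtain ⟨d, rfl⟩ := Nat.exists_eq_add_of_lt h
      exact h1 j d
    · exact absurd (congrArg σ h) hjk
    · obtain ⟨d, rfl⟩ := Nat.exists_eq_add_of_lt h
      rw [hsym, h1 k d, map_zero]
  · have hsh := shift hC hx hd (fun l => σ (σ.symm l + 1))
      (fun a b h => by simpa using h) (fun y => by
        obtain ⟨z, hz⟩ := hσ y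
        exact ⟨z, fun l => by simpa using hz (σ.symm l)⟩)
    have h0 : ∀ j k, ⟪f (σ (j + 1)), x (σ (k + 1))⟫_ℂ = ⟪f (σ j), x (σ k)⟫_ℂ := by
      intro j k
      simpa using (hsh (σ k)).1 (σ j)
    have h1 : ∀ (n j : ℤ), ⟪f (σ (j + n)), x (σ n)⟫_ℂ = ⟪f (σ j), x (σ 0)⟫_ℂ := by
      intro n j
      induction n using Int.induction_on with
      | zero => simp
      | succ n ih => rw [← add_assoc, h0, ih]
      | pred n ih =>
        rw [← h0, ← ih]; congr 3 <;> ring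
    let p : ℤ → ℝ := fun k => ‖⟪f (σ k), x (σ 0)⟫_ℂ‖
    have hp : ∀ l l', p (σ.symm l - σ.symm l') = ‖⟪f l, x l'⟫_ℂ‖ := by
      intro l l'
      simp only [p]
      rw [← h1 (σ.symm l')]; simp
    have hcomb := comb σ.symm p (by
      intro δ hδ
      have hs : Summable fun k => p k ^ 2 := (σ.summable_iff.mpr (hf (x (σ 0))).1)
      have := hs.tendsto_cofinite_zero.eventually (gt_mem_nhds (pow_pos hδ 2))
      rw [eventually_cofinite] at this
      refine this.subset fun k hk => ?_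
      simp only [Set.mem_ofPred_eq, not_lt] at hk ⊢
      exact pow_le_pow_left₀ hδ.le hk 2) (by
      intro l l' μ
      rw [hp, hp, hcov])
    intro j k hjk
    have := hcomb (σ.symm j - σ.symm k) (sub_ne_zero.mpr (σ.symm.injective.ne hjk))
    rw [hp] at this
    exact norm_eq_zero.mp (le_antisymm (not_lt.mp this) (norm_nonneg _))

end Pool.Agent.H92.GaborOrbit
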