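import Pool.Agent.H92.GaborOrbit
import Pool.Agent.H92.Fourier1

set_option autoImplicit false
open Filter Topology MeasureTheory
open scoped InnerProductSpace ComplexConjugate

namespace Pool.Agent.H92.GaborOrbit2
open Pool.Agent.H92.GaborOrbit Pool.Agent.H92.Fourier1

noncomputable abbrev L2 := Lp ℂ 2 (volume : Measure ℝ)

lemma mem (s t c : ℝ) (u : L2) : MemLp (fun x : ℝ => ex s (x + c) * u (x - t)) 2 volume := by
  have h1 : MemLp (fun x : ℝ => u (x - t)) 2 volume :=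
    (Lp.memLp u).comp_measurePreserving (measurePreserving_sub_right volume t)
  refine h1.congr_norm ?_ (Eventually.of_forall fun x => by simp [ex_norm])
  exact (((ex_cont s).comp (continuous_id.add continuous_const)).aestronglyMeasurable).mul h1.1

noncomputable def W (s t c : ℝ) (u : L2) : L2 := (mem s t c u).toLp _

lemma W_coe (s t c : ℝ) (u : L2) : W s t c u =ᵐ[volume] fun x => ex s (x + c) * u (x - t) :=
  MemLp.coeFn_toLp _

lemma W_inner (s t c : ℝ) (u v : L2) : ⟪W s t c u, W s t c v⟫_ℂ = ⟪u, v⟫_ℂ := by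
  rw [L2.inner_def, L2.inner_def, ← integral_sub_right_eq_self (fun x => ⟪u x, v x⟫_ℂ) t]
  refine integral_congr_ae ?_
  filter_upwards [W_coe s t c u, W_coe s t c v] with x h1 h2
  rw [h1, h2]
  simp only [RCLike.inner_apply, map_mul, ex_conj]
  have : ex s (x + c) * ex (-s) (x + c) = 1 := by rw [← ex_add_left]; simp [ex_zero_left]
  linear_combination (v (x - t) * conj (u (x - t))) * this

lemma W_surj (s t : ℝ) : Function.Surjective (W s t 0) := by
  intro v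
  refine ⟨W (-s) (-t) t v, Lp.ext ?_⟩
  have h := (measurePreserving_sub_right volume t).quasiMeasurePreserving.ae (W_coe (-s) (-t) t v)
  filter_upwards [W_coe s t 0 (W (-s) (-t) t v), h] with x h1 h2
  rw [h1, h2]
  simp only [add_zero, sub_add_cancel, sub_neg_eq_add]
  rw [← mul_assoc, ← ex_add_left]; simp [ex_zero_left]

lemma nontriv : Nontrivial L2 := by
  refine ⟨⟨indicatorConstLp 2 (measurableSet_Icc (a := (0:ℝ)) (b := 1)) (by simp) (1:ℂ), 0, ?_⟩⟩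
  intro h
  have := congrArg norm h
  rw [norm_indicatorConstLp (by norm_num) (by norm_num)] at this
  simp at this

theorem main (a b : ℝ) (g : L2) (G : ℤ × ℤ → L2)
    (hG : ∀ m n : ℤ, G (m, n) =ᵐ[volume]
      fun x : ℝ => Complex.exp (2 * Real.pi * Complex.I * (m * b * x)) * g (x - n * a))
    {A B : ℝ} (hA : 0 < A) (hB : 0 < B)
    (hf : ∀ x : L2, Summable (fun l => ‖⟪x, G l⟫_ℂ‖ ^ 2) ∧ A * ‖x‖ ^ 2 ≤ ∑' l, ‖⟪x, G l⟫_ℂ‖ ^ 2 ∧
      ∑' l, ‖⟪x, G l⟫_ℂ‖ ^ 2 ≤ B * ‖x‖ ^ 2)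
    (hT : (∃ (σ : ℕ ≃ ℤ × ℤ) (V : Submodule ℂ L2) (T : V →L[ℂ] L2),
        ∀ k, ∃ h, T ⟨G (σ k), h⟩ = G (σ (k + 1))) ∨
      (∃ (σ : ℤ ≃ ℤ × ℤ) (V : Submodule ℂ L2) (T : V →L[ℂ] L2),
        ∀ k, ∃ h, T ⟨G (σ k), h⟩ = G (σ (k + 1)))) :
    ∃ L : lp (fun _ : ℤ × ℤ => ℂ) 2 ≃L[ℂ] L2, ∀ k, L (lp.single 2 k (1:ℂ)) = G k := by
  have := nontriv
  have hG' : ∀ m n : ℤ, G (m, n) =ᵐ[volume] fun x : ℝ => ex (m * b) x * g (x - n * a) := by
    intro m n
    filter_upwards [hG m n] with x hx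
    rw [hx]; unfold ex; push_cast; rfl
  refine abstract G hA hB (by simpa only [norm_inner_symm (G _)] using hf) ?_ ?_
  · rintro ⟨m, n⟩
    refine ⟨W (m * b) (n * a) 0, fun l => ex (l.1 * b) (-(n * a)), W_inner _ _ _, W_surj _ _,
      fun l => ex_norm _ _, ?_⟩
    rintro ⟨m', n'⟩
    refine Lp.ext ?_
    have h := (measurePreserving_sub_right volume (n * a)).quasiMeasurePreserving.ae (hG' m' n')
    filter_upwards [W_coe (m * b) (n * a) 0 (G (m', n')), h, hG' (m' + m) (n' + n),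
      Lp.coeFn_smul (ex (m' * b) (-(n * a))) (G (m' + m, n' + n))] with x h1 h2 h3 h4
    rw [h1, h2]
    simp only [Prod.mk_add_mk]
    rw [h4, Pi.smul_apply, h3, smul_eq_mul]
    push_cast
    rw [add_zero, sub_eq_add_neg x, ex_add_right, add_mul, ex_add_left,
      show x + -(n * a) - n' * a = x - (n' + n) * a by ring]
    ring
  · rcases hT with ⟨σ, V, T, hT⟩ | ⟨σ, V, T, hT⟩
    · refine Or.inl ⟨σ, fun y => ?_⟩
      obtain ⟨z, hz⟩ := exists_adj _ T y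
      refine ⟨z, fun k => ?_⟩
      obtain ⟨h, hk⟩ := hT k
      rw [← hk, ← hz]
    · refine Or.inr ⟨σ, fun y => ?_⟩
      obtain ⟨z, hz⟩ := exists_adj _ T y
      refine ⟨z, fun k => ?_⟩
      obtain ⟨h, hk⟩ := hT k
      rw [← hk, ← hz]

end Pool.Agent.H92.GaborOrbit2

namespace Pool.Agent.H92.GaborOrbit2
open Pool.Agent.H92.GaborOrbit

theorem riesz_of_equiv {H : Type*} [NormedAddCommGroup H] [InnerProductSpace ℂ H] {Λ : Type*}
    [DecidableEq Λ] (G : Λ → H) (L : lp (fun _ : Λ => ℂ) 2 ≃L[ℂ] H)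
    (hL : ∀ k, L (lp.single 2 k (1:ℂ)) = G k) :
    Dense (Submodule.span ℂ (Set.range G) : Set H) ∧
    ∃ A B : ℝ, 0 < A ∧ 0 < B ∧ ∀ (s : Finset Λ) (c : Λ → ℂ),
      A * ∑ l ∈ s, ‖c l‖ ^ 2 ≤ ‖∑ l ∈ s, c l • G l‖ ^ 2 ∧
      ‖∑ l ∈ s, c l • G l‖ ^ 2 ≤ B * ∑ l ∈ s, ‖c l‖ ^ 2 := by
  have hs : ∀ (k : Λ) (c : ℂ), L (lp.single 2 k c) = c • G k := by
    intro k c
    rw [← hL, ← map_smul, ← lp.single_smul]; simp
  constructor
  · intro y
    have h1 := (L : lp (fun _ : Λ => ℂ) 2 →L[ℂ] H).hasSum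
      (lp.hasSum_single (p := 2) (by norm_num) (L.symm y))
    simp only [ContinuousLinearEquiv.coe_coe, ContinuousLinearEquiv.apply_symm_apply, hs] at h1
    refine mem_closure_of_tendsto h1 (Eventually.of_forall fun s => ?_)
    exact Submodule.sum_mem _ fun k _ => Submodule.smul_mem _ _ (Submodule.subset_span ⟨k, rfl⟩)
  · set M := ‖(L : lp (fun _ : Λ => ℂ) 2 →L[ℂ] H)‖ + 1
    set N := ‖(L.symm : H →L[ℂ] lp (fun _ : Λ => ℂ) 2)‖ + 1
    have hM : 0 < M := by positivity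
    have hN : 0 < N := by positivity
    refine ⟨(N ^ 2)⁻¹, M ^ 2, by positivity, by positivity, fun s c => ?_⟩
    set v : lp (fun _ : Λ => ℂ) 2 := ∑ l ∈ s, lp.single 2 l (c l) with hv
    have h1 : ‖v‖ ^ 2 = ∑ l ∈ s, ‖c l‖ ^ 2 := by
      have := lp.norm_sum_single (p := 2) (by norm_num) c s
      simpa using this
    have h2 : L v = ∑ l ∈ s, c l • G l := by simp only [hv, map_sum, hs]
    rw [← h1, ← h2]
    have h3 : ‖L v‖ ≤ M * ‖v‖ :=
      ((L : lp (fun _ : Λ => ℂ) 2 →L[ℂ] H).le_opNorm v).trans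
        (mul_le_mul_of_nonneg_right (by simp [M]) (norm_nonneg _))
    have h4 : ‖v‖ ≤ N * ‖L v‖ := by
      have := ((L.symm : H →L[ℂ] lp (fun _ : Λ => ℂ) 2).le_opNorm (L v)).trans
        (mul_le_mul_of_nonneg_right (show _ ≤ N by simp [N]) (norm_nonneg _))
      simpa using this
    constructor
    · rw [inv_mul_le_iff₀ (by positivity), ← mul_pow]
      exact pow_le_pow_left₀ (norm_nonneg _) h4 2
    · rw [← mul_pow]
      exact pow_le_pow_left₀ (norm_nonneg _) h3 2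

end Pool.Agent.H92.GaborOrbit2
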