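import Mathlib

set_option autoImplicit false
open MeasureTheory
open scoped InnerProductSpace

namespace Pool.Agent.H92.Glue

/-- rationally cyclic: joint eigen-functionals of `M_z` are determined by the value at `1`. -/
theorem partA (H : Type) [NormedAddCommGroup H] [InnerProductSpace ℂ H] (S : H →L[ℂ] H)
    (μ : Measure ℂ) (K : Set ℂ) (R : Submodule ℂ (Lp ℂ 2 μ)) (φ : ℂ → ℂ) (U : H ≃ₗᵢ[ℂ] R)
    (hμ : IsFiniteMeasure μ) (hK : IsCompact K) (hμK : μ Kᶜ = 0)
    (hR : R = (Submodule.span ℂ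
              {f : Lp ℂ 2 μ | ∃ p q : Polynomial ℂ, (∀ z ∈ K, q.eval z ≠ 0) ∧
                (f : ℂ → ℂ) =ᵐ[μ] fun z => p.eval z / q.eval z}).topologicalClosure)
    (hS : ∀ x : H, ((U (S x) : Lp ℂ 2 μ) : ℂ → ℂ) =ᵐ[μ]
          fun z => φ z * ((U x : Lp ℂ 2 μ) : ℂ → ℂ) z) :
    ∃ (T : H →ₗ[ℂ] H) (w : H), (∀ h, T (S h) = S (T h)) ∧
      ∀ (c : ℂ) (ψ : H →L[ℂ] ℂ), (∀ h, ψ (T h) = c * ψ h) → ψ w = 0 → ∀ h, ψ h = 0 := by
  have haeK : ∀ᵐ z ∂μ, z ∈ K := by
    rw [ae_iff]; exact hμK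
  -- rational functions are in every L^p
  have hmem : ∀ (p q : Polynomial ℂ), (∀ z ∈ K, q.eval z ≠ 0) → ∀ r : ENNReal,
      MemLp (fun z => p.eval z / q.eval z) r μ := by
    intro p q hq r
    have hc : ContinuousOn (fun z : ℂ => p.eval z / q.eval z) K :=
      p.continuous.continuousOn.div q.continuous.continuousOn hq
    obtain ⟨C, hC⟩ := hK.exists_bound_of_continuousOn hc
    have hm : Measurable (fun z : ℂ => p.eval z / q.eval z) :=
      p.continuous.measurable.div q.continuous.measurable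
    exact MemLp.of_bound hm.aestronglyMeasurable C (haeK.mono fun z hz => hC z hz)
  set G : Set (Lp ℂ 2 μ) := {f : Lp ℂ 2 μ | ∃ p q : Polynomial ℂ, (∀ z ∈ K, q.eval z ≠ 0) ∧
                (f : ℂ → ℂ) =ᵐ[μ] fun z => p.eval z / q.eval z} with hG
  have hid : MemLp (fun z : ℂ => z) ⊤ μ := by
    have := hmem Polynomial.X 1 (by simp) ⊤
    simpa using this
  set M : Lp ℂ 2 μ →L[ℂ] Lp ℂ 2 μ :=
    (ContinuousLinearMap.mul ℂ ℂ).holderL μ ⊤ 2 2 (hid.toLp _) with hM
  have hMa : ∀ f : Lp ℂ 2 μ, (M f : ℂ → ℂ) =ᵐ[μ] fun z => z * f z := by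
    intro f
    have h1 := (ContinuousLinearMap.mul ℂ ℂ).coeFn_holder (r := 2) (hid.toLp _) f
    filter_upwards [h1, hid.coeFn_toLp] with z hz1 hz2
    rw [hM, ContinuousLinearMap.holderL_apply_apply, hz1, hz2]; simp
  have hGR : ∀ f ∈ G, f ∈ R := fun f hf => by
    rw [hR]; exact Submodule.le_topologicalClosure _ (Submodule.subset_span hf)
  have hMG : ∀ f ∈ G, M f ∈ G := by
    rintro f ⟨p, q, hq, hf⟩
    refine ⟨Polynomial.X * p, q, hq, ?_⟩
    filter_upwards [hMa f, hf] with z h1 h2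
    rw [h1, h2]; simp [mul_div_assoc]
  have hind : ∀ P : Submodule ℂ (Lp ℂ 2 μ), IsClosed (P : Set (Lp ℂ 2 μ)) → (∀ f ∈ G, f ∈ P) →
      ∀ f ∈ R, f ∈ P := by
    intro P hP hGP f hf
    rw [hR] at hf
    exact Submodule.topologicalClosure_minimal _ (Submodule.span_le.2 hGP) hP hf
  have hRc : IsClosed (R : Set (Lp ℂ 2 μ)) := by
    rw [hR]; exact Submodule.isClosed_topologicalClosure _
  have hMR : ∀ f ∈ R, M f ∈ R := by
    intro f hf
    exact hind (R.comap (M : Lp ℂ 2 μ →ₗ[ℂ] Lp ℂ 2 μ)) (hRc.preimage M.continuous)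
      (fun g hg => hGR _ (hMG g hg)) f hf
  let MR : R →ₗ[ℂ] R := (M : Lp ℂ 2 μ →ₗ[ℂ] Lp ℂ 2 μ).restrict hMR
  have hMRv : ∀ f : R, ((MR f : R) : Lp ℂ 2 μ) = M f := fun f => rfl
  let one : Lp ℂ 2 μ := (hmem 1 1 (by simp) 2).toLp _
  have hone : (one : ℂ → ℂ) =ᵐ[μ] fun z => (1 : Polynomial ℂ).eval z / (1 : Polynomial ℂ).eval z :=
    (hmem 1 1 (by simp) 2).coeFn_toLp
  have honeG : one ∈ G := ⟨1, 1, by simp, hone⟩
  refine ⟨(U.symm.toLinearEquiv : R →ₗ[ℂ] H) ∘ₗ MR ∘ₗ (U.toLinearEquiv : H →ₗ[ℂ] R),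
    U.symm ⟨one, hGR _ honeG⟩, ?_, ?_⟩
  · intro h
    apply U.injective
    have e1 : ∀ x, U ((((U.symm.toLinearEquiv : R →ₗ[ℂ] H) ∘ₗ MR ∘ₗ
        (U.toLinearEquiv : H →ₗ[ℂ] R))) x) = MR (U x) := fun x => by simp
    rw [e1]
    apply Subtype.ext
    apply Lp.ext
    have e2 := hS ((((U.symm.toLinearEquiv : R →ₗ[ℂ] H) ∘ₗ MR ∘ₗ
        (U.toLinearEquiv : H →ₗ[ℂ] R))) h)
    rw [e1, hMRv] at e2
    rw [hMRv]
    filter_upwards [e2, hMa (U (S h)), hS h, hMa (U h)] with z h1 h2 h3 h4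
    rw [h1, h2, h3, h4]; ring
  · intro c ψ hψ hw
    -- transport to `R`
    set χ : R →L[ℂ] ℂ := ψ.comp (U.symm.toContinuousLinearEquiv : R →L[ℂ] H) with hχ
    have hχa : ∀ f : R, χ f = ψ (U.symm f) := fun f => rfl
    have hχM : ∀ f : R, χ (MR f) = c * χ f := by
      intro f
      have := hψ (U.symm f)
      simpa [hχa] using this
    have hχ1 : χ ⟨one, hGR _ honeG⟩ = 0 := hw
    have key : ∀ f (hf : f ∈ G), χ ⟨f, hGR f hf⟩ = 0 := by
      rintro f ⟨p, q, hq, hf⟩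
      by_cases hc : c ∈ K
      · obtain ⟨p1, hp1⟩ : Polynomial.X - Polynomial.C c ∣
            Polynomial.C (q.eval c) * p - Polynomial.C (p.eval c) * q := by
          rw [Polynomial.dvd_iff_isRoot]; simp [mul_comm]
        have hq1 : ∀ z ∈ K, (Polynomial.C (q.eval c) * q).eval z ≠ 0 := by
          intro z hz; simp [hq z hz, hq c hc]
        let g : Lp ℂ 2 μ := (hmem p1 _ hq1 2).toLp _
        have hg : (g : ℂ → ℂ) =ᵐ[μ] fun z => p1.eval z / (Polynomial.C (q.eval c) * q).eval z :=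
          (hmem p1 _ hq1 2).coeFn_toLp
        have hgG : g ∈ G := ⟨p1, _, hq1, hg⟩
        have e : (⟨f, hGR f ⟨p, q, hq, hf⟩⟩ : R) = (p.eval c / q.eval c) • ⟨one, hGR _ honeG⟩ +
            (MR ⟨g, hGR _ hgG⟩ - c • ⟨g, hGR _ hgG⟩) := by
          apply Subtype.ext
          apply Lp.ext
          simp only [Submodule.coe_add, Submodule.coe_smul, Submodule.coe_sub, hMRv]
          filter_upwards [hf, hg, hone, hMa g, haeK,
            Lp.coeFn_add ((p.eval c / q.eval c) • one) (M g - c • g),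
            Lp.coeFn_smul (p.eval c / q.eval c) one, Lp.coeFn_sub (M g) (c • g),
            Lp.coeFn_smul c g] with z h1 h2 h3 h4 h5 h6 h7 h8 h9
          rw [h6, Pi.add_apply, h7, h8, Pi.sub_apply, h9, Pi.smul_apply, Pi.smul_apply, h4, h1, h2,
            h3]
          have h10 := congrArg (Polynomial.eval z) hp1
          simp only [Polynomial.eval_sub, Polynomial.eval_mul, Polynomial.eval_C,
            Polynomial.eval_X] at h10
          have h11 := hq z h5
          have h12 := hq c hc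
          simp only [Polynomial.eval_mul, Polynomial.eval_C, Polynomial.eval_one, smul_eq_mul]
          field_simp
          linear_combination h10
        rw [e, map_add, map_sub, map_smul, map_smul, hχ1, hχM]; simp
      · have hq1 : ∀ z ∈ K, ((Polynomial.X - Polynomial.C c) * q).eval z ≠ 0 := by
          intro z hz
          have : z - c ≠ 0 := sub_ne_zero.2 (fun h => hc (h ▸ hz))
          simp [hq z hz, this]
        let g : Lp ℂ 2 μ := (hmem p _ hq1 2).toLp _
        have hg : (g : ℂ → ℂ) =ᵐ[μ] fun z => p.eval z /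
            ((Polynomial.X - Polynomial.C c) * q).eval z := (hmem p _ hq1 2).coeFn_toLp
        have hgG : g ∈ G := ⟨p, _, hq1, hg⟩
        have e : (⟨f, hGR f ⟨p, q, hq, hf⟩⟩ : R) =
            (MR ⟨g, hGR _ hgG⟩ - c • ⟨g, hGR _ hgG⟩) := by
          apply Subtype.ext
          apply Lp.ext
          simp only [Submodule.coe_smul, Submodule.coe_sub, hMRv]
          filter_upwards [hf, hg, hMa g, haeK, Lp.coeFn_sub (M g) (c • g),
            Lp.coeFn_smul c g] with z h1 h2 h4 h5 h8 h9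
          rw [h8, Pi.sub_apply, h9, Pi.smul_apply, h4, h1, h2]
          have h11 := hq z h5
          have h12 : z - c ≠ 0 := sub_ne_zero.2 (fun h => hc (h ▸ h5))
          simp only [Polynomial.eval_mul, Polynomial.eval_C, Polynomial.eval_sub,
            Polynomial.eval_X, smul_eq_mul]
          field_simp
        rw [e, map_sub, map_smul, hχM]; simp
    have hall : ∀ f : R, χ f = 0 := by
      rintro ⟨f, hf⟩
      have hcl : IsClosed (((LinearMap.ker (χ : R →ₗ[ℂ] ℂ)).map R.subtype : Submodule ℂ _) :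
          Set (Lp ℂ 2 μ)) := by
        rw [Submodule.map_coe]
        exact hRc.isClosedEmbedding_subtypeVal.isClosedMap _ (ContinuousLinearMap.isClosed_ker χ)
      obtain ⟨g, hg, hgf⟩ := hind _ hcl (fun f hf => ⟨⟨f, hGR f hf⟩, key f hf, rfl⟩) f hf
      have : g = ⟨f, hf⟩ := Subtype.ext hgf
      rw [← this]; exact hg
    intro h
    have := hall (U h)
    simpa [hχa] using this

end Pool.Agent.H92.Glue
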