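import Mathlib

set_option autoImplicit false

namespace Pool.Agent.H92.Glue

section
variable {X : Type} [NormedAddCommGroup X] [NormedSpace ℂ X] [CompleteSpace X]

/-- abstract unilateral shift -/
structure Sh (U L : X →L[ℂ] X) (π : X →L[ℂ] ℂ) (e : X) : Prop where
  LU : ∀ x, L (U x) = x
  UL : ∀ x, U (L x) = x - π x • e
  piU : ∀ x, π (U x) = 0
  pie : π e = 1
  nU : ‖U‖ ≤ 1
  nL : ‖L‖ ≤ 1
  pure : ∀ x, (∀ n : ℕ, ∃ y, x = (U ^ n) y) → x = 0

lemma inv_one_sub (A : X →L[ℂ] X) (hA : ‖A‖ < 1) :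
    ∃ R : X →L[ℂ] X, (∀ x, R (x - A x) = x) ∧ ∀ x, R x - A (R x) = x := by
  let u : (X →L[ℂ] X)ˣ := Units.oneSub A hA
  refine ⟨(↑u⁻¹ : X →L[ℂ] X), fun x => ?_, fun x => ?_⟩
  · have := congrArg (fun B : X →L[ℂ] X => B x) u.inv_mul
    simpa [u] using this
  · have := congrArg (fun B : X →L[ℂ] X => B x) u.mul_inv
    simpa [u] using this

lemma Sh.ev {U L : X →L[ℂ] X} {π : X →L[ℂ] ℂ} {e : X} (h : Sh U L π e) (a : ℂ) (ha : ‖a‖ < 1) :
    ∃ (ev : X →L[ℂ] ℂ) (D : X →L[ℂ] X), ev e = 1 ∧ (∀ y, ev (U y - a • y) = 0) ∧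
      (∀ y, D (U y - a • y) = y) ∧ ∀ x, x = (U (D x) - a • D x) + ev x • e := by
  have hn : ‖a • L‖ < 1 := by
    refine lt_of_le_of_lt (norm_smul_le a L) ?_
    calc ‖a‖ * ‖L‖ ≤ ‖a‖ * 1 := mul_le_mul_of_nonneg_left h.nL (norm_nonneg _)
      _ < 1 := by simpa using ha
  obtain ⟨R, hR1, hR2⟩ := inv_one_sub (a • L) hn
  have hLe : L e = 0 := by
    have h1 := h.UL e
    rw [h.pie, one_smul, sub_self] at h1
    have h2 := h.LU (L e)
    rw [h1, map_zero] at h2
    exact h2.symm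
  have hRe : R e = e := by
    have := hR1 e
    simpa [hLe] using this
  have hRU : ∀ y, R (U y - a • y) = U y := by
    intro y
    have := hR1 (U y)
    simpa [h.LU] using this
  refine ⟨π.comp R, L.comp R, by simp [hRe, h.pie], fun y => ?_, fun y => ?_, fun x => ?_⟩
  · rw [ContinuousLinearMap.comp_apply, hRU, h.piU]
  · rw [ContinuousLinearMap.comp_apply, hRU, h.LU]
  · have h1 := hR2 x
    simp only [ContinuousLinearMap.comp_apply, smul_apply] at h1 ⊢
    rw [h.UL]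
    conv_lhs => rw [← h1]
    abel

lemma Sh.surj {U L : X →L[ℂ] X} {π : X →L[ℂ] ℂ} {e : X} (h : Sh U L π e) (b : ℂ) (hb : 1 < ‖b‖)
    (x : X) : ∃ y, U y - b • y = x := by
  have hb0 : b ≠ 0 := by
    rintro rfl
    norm_num at hb
  have hn : ‖b⁻¹ • U‖ < 1 := by
    refine lt_of_le_of_lt (norm_smul_le _ U) ?_
    calc ‖b⁻¹‖ * ‖U‖ ≤ ‖b⁻¹‖ * 1 := mul_le_mul_of_nonneg_left h.nU (norm_nonneg _)
      _ < 1 := by
        rw [mul_one, norm_inv]; exact inv_lt_one_of_one_lt₀ hb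
  obtain ⟨R, -, hR2⟩ := inv_one_sub (b⁻¹ • U) hn
  refine ⟨R (-(b⁻¹ • x)), ?_⟩
  have h1 := hR2 (-(b⁻¹ • x))
  set y := R (-(b⁻¹ • x))
  simp only [smul_apply] at h1
  have h2 : b • (y - b⁻¹ • U y) = b • (-(b⁻¹ • x)) := by rw [h1]
  rw [smul_sub, smul_neg, smul_smul, smul_smul, mul_inv_cancel₀ hb0, one_smul, one_smul] at h2
  rw [← neg_sub, h2, neg_neg]

end

/-- the algebraic core: no commuting `T` is rationally cyclic. -/
theorem partB {X : Type} [NormedAddCommGroup X] [NormedSpace ℂ X] [CompleteSpace X]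
    {U L : X →L[ℂ] X} {π : X →L[ℂ] ℂ} {e : X} (h : Sh U L π e) (s : ℂ) (hs2 : 1 < ‖2 * s‖)
    (ev1 ev2 : X →L[ℂ] ℂ) (D1 D2 : X →L[ℂ] X)
    (a1 : ev1 e = 1) (b1 : ∀ y, ev1 (U y - s • y) = 0) (c1 : ∀ y, D1 (U y - s • y) = y)
    (d1 : ∀ x, x = (U (D1 x) - s • D1 x) + ev1 x • e)
    (a2 : ev2 e = 1) (b2 : ∀ y, ev2 (U y + s • y) = 0) (c2 : ∀ y, D2 (U y + s • y) = y)
    (d2 : ∀ x, x = (U (D2 x) + s • D2 x) + ev2 x • e)
    {H : Type} [NormedAddCommGroup H] [NormedSpace ℂ H] (p1 p2 : H →L[ℂ] X)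
    (hinj : ∀ x : H, p1 x = 0 → p2 x = 0 → x = 0)
    (hglue : ∀ x : H, ev1 (p1 x) = ev2 (p2 x))
    (hsur : ∀ f g, ev1 f = ev2 g → ∃ x : H, p1 x = f ∧ p2 x = g)
    (S : H →L[ℂ] H) (hS1 : ∀ x, p1 (S x) = U (p1 x) - s • p1 x)
    (hS2 : ∀ x, p2 (S x) = U (p2 x) + s • p2 x)
    (T : H →ₗ[ℂ] H) (w : H) (hT : ∀ x, T (S x) = S (T x))
    (hw : ∀ (c : ℂ) (ψ : H →L[ℂ] ℂ), (∀ x, ψ (T x) = c * ψ x) → ψ w = 0 → ∀ x, ψ x = 0) :
    False := by
  have hs0 : s ≠ 0 := by
    rintro rfl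
    norm_num at hs2
  have hext : ∀ x y : H, p1 x = p1 y → p2 x = p2 y → x = y := by
    intro x y h1 h2
    exact sub_eq_zero.1 (hinj _ (by rw [map_sub, h1, sub_self]) (by rw [map_sub, h2, sub_self]))
  have cl1 : ∀ x : H, p2 x = 0 → p2 (T x) = 0 := by
    have : ∀ n : ℕ, ∀ x : H, p2 x = 0 → ∃ y, p2 (T x) = (U ^ n) y := by
      intro n
      induction n with
      | zero => intro x _; exact ⟨_, rfl⟩
      | succ n ih =>
        intro x hx
        obtain ⟨f', hf'⟩ := h.surj (2 * s) hs2 (p1 x)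
        have h0 : ev1 f' = 0 := by
          have h1 := hglue x
          rw [hx, map_zero, ← hf'] at h1
          have h2 : U f' - (2 * s) • f' = (U f' - s • f') - s • f' := by
            rw [two_mul, add_smul]; abel
          rw [h2, map_sub, b1, map_smul] at h1
          simpa [hs0] using h1
        obtain ⟨x', hx1, hx2⟩ := hsur f' 0 (by simp [h0])
        have hxx : x = S x' - s • x' := by
          apply hext
          · rw [map_sub, hS1, map_smul, hx1, ← hf', two_mul, add_smul]; abel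
          · rw [map_sub, hS2, map_smul, hx2, hx]; simp
        obtain ⟨y, hy⟩ := ih x' hx2
        refine ⟨y, ?_⟩
        rw [hxx, map_sub, hT, map_smul, map_sub, hS2, map_smul, hy, pow_succ']
        simp
    intro x hx
    exact h.pure _ fun n => this n x hx
  have cl2 : ∀ x : H, p1 x = 0 → p1 (T x) = 0 := by
    have : ∀ n : ℕ, ∀ x : H, p1 x = 0 → ∃ y, p1 (T x) = (U ^ n) y := by
      intro n
      induction n with
      | zero => intro x _; exact ⟨_, rfl⟩
      | succ n ih =>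
        intro x hx
        obtain ⟨f', hf'⟩ := h.surj (-(2 * s)) (by rwa [norm_neg]) (p2 x)
        have h0 : ev2 f' = 0 := by
          have h1 := hglue x
          rw [hx, map_zero, ← hf'] at h1
          have h2 : U f' - (-(2 * s)) • f' = (U f' + s • f') + s • f' := by
            rw [neg_smul, two_mul, add_smul]; abel
          rw [h2, map_add, b2, map_smul] at h1
          simpa [hs0] using h1
        obtain ⟨x', hx1, hx2⟩ := hsur 0 f' (by simp [h0])
        have hxx : x = S x' + s • x' := by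
          apply hext
          · rw [map_add, hS1, map_smul, hx1, hx]; simp
          · rw [map_add, hS2, map_smul, hx2, ← hf', neg_smul, two_mul, add_smul]; abel
        obtain ⟨y, hy⟩ := ih x' hx1
        refine ⟨y, ?_⟩
        rw [hxx, map_add, hT, map_smul, map_add, hS1, map_smul, hy, pow_succ']
        simp
    intro x hx
    exact h.pure _ fun n => this n x hx
  obtain ⟨ε, hε1, hε2⟩ := hsur e e (by rw [a1, a2])
  obtain ⟨u1, hu11, hu12⟩ := hsur (U e - s • e) 0 (by rw [b1, map_zero])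
  obtain ⟨u2, hu21, hu22⟩ := hsur 0 (U e + s • e) (by rw [b2, map_zero])
  have hSε : S ε = u1 + u2 := by
    apply hext
    · rw [hS1, map_add, hε1, hu11, hu21, add_zero]
    · rw [hS2, map_add, hε2, hu12, hu22, zero_add]
  have hTu : T u1 + T u2 = S (T ε) := by rw [← map_add, ← hSε, hT]
  have hTu1 : p1 (T u1) = U (p1 (T ε)) - s • p1 (T ε) := by
    rw [← hS1, ← hTu, map_add, cl2 u2 hu21, add_zero]
  have hTu2 : p2 (T u2) = U (p2 (T ε)) + s • p2 (T ε) := by
    rw [← hS2, ← hTu, map_add, cl1 u1 hu12, zero_add]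
  set c := ev1 (p1 (T ε)) with hc
  have hc2 : ev2 (p2 (T ε)) = c := (hglue _).symm
  let φ0 : H →L[ℂ] ℂ := ev1.comp p1
  let φ1 : H →L[ℂ] ℂ := ev1.comp (D1.comp p1)
  let φ2 : H →L[ℂ] ℂ := ev2.comp (D2.comp p2)
  have e0 : ∀ x, φ0 x = ev1 (p1 x) := fun x => rfl
  have e1 : ∀ x, φ1 x = ev1 (D1 (p1 x)) := fun x => rfl
  have e2 : ∀ x, φ2 x = ev2 (D2 (p2 x)) := fun x => rfl
  have main : ∀ x, φ0 (T x) = c * φ0 x ∧ φ1 (T x) = φ0 x * φ1 (T ε) + c * φ1 x ∧
      φ2 (T x) = φ0 x * φ2 (T ε) + c * φ2 x := by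
    intro x
    obtain ⟨m1, hm11, hm12⟩ := hsur (U (D1 (D1 (p1 x))) - s • D1 (D1 (p1 x))) 0
      (by rw [b1, map_zero])
    obtain ⟨m2, hm21, hm22⟩ := hsur 0 (U (D2 (D2 (p2 x))) + s • D2 (D2 (p2 x)))
      (by rw [b2, map_zero])
    have hx : x = φ0 x • ε + φ1 x • u1 + φ2 x • u2 + S m1 + S m2 := by
      apply hext
      · simp only [map_add, map_smul, hS1, hε1, hu11, hu21, hm11, hm21, e0, e1]
        have k1 := d1 (p1 x)
        have k2 := d1 (D1 (p1 x))
        set g := U (D1 (D1 (p1 x))) - s • D1 (D1 (p1 x))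
        set t := ev1 (D1 (p1 x))
        conv_lhs => rw [k1, k2]
        simp only [map_add, map_smul, map_zero, smul_add, smul_sub, smul_smul, mul_comm s t,
          smul_zero]
        abel
      · have k1 := d2 (p2 x)
        have k2 := d2 (D2 (p2 x))
        obtain ⟨g, hg⟩ : ∃ g, g = U (D2 (D2 (p2 x))) + s • D2 (D2 (p2 x)) := ⟨_, rfl⟩
        rw [← hg] at hm22 k2
        simp only [map_add, map_smul, hS2, hε2, hu12, hu22, hm12, hm22, e0, e2, hglue]
        set t := ev2 (D2 (p2 x))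
        conv_lhs => rw [k1, k2]
        simp only [map_add, map_smul, map_zero, smul_add, smul_sub, smul_smul, mul_comm s t,
          smul_zero]
        abel
    have hTx : T x = φ0 x • T ε + φ1 x • T u1 + φ2 x • T u2 + S (T m1) + S (T m2) := by
      conv_lhs => rw [hx]
      simp only [map_add, map_smul, hT]
    have q1 : p2 (T m1) = 0 := cl1 _ hm12
    have q2 : p1 (T m2) = 0 := cl2 _ hm21
    have q3 : ev1 (p1 (T m1)) = 0 := by rw [hglue, q1, map_zero]
    have q4 : ev2 (p2 (T m2)) = 0 := by rw [← hglue, q2, map_zero]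
    have q5 : p2 (T u1) = 0 := cl1 _ hu12
    have q6 : p1 (T u2) = 0 := cl2 _ hu21
    refine ⟨?_, ?_, ?_⟩
    · rw [hTx]
      simp only [map_add, map_smul, e0, hS1, hTu1, b1, q6, q2, ← hc]
      simp [mul_comm]
    · rw [hTx]
      simp only [map_add, map_smul, e1, hS1, hTu1, c1, q6, q2, q3, ← hc]
      simp [mul_comm]
    · rw [hTx]
      have z1 : D2 (p2 (T u2)) = p2 (T ε) := by rw [hTu2, c2]
      have z2 : D2 (p2 (S (T m2))) = p2 (T m2) := by rw [hS2, c2]
      have z3 : p2 (S (T m1)) = 0 := by rw [hS2, q1]; simp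
      simp only [map_add, map_smul, e2, q5, z1, z2, z3, q4, hc2]
      simp [mul_comm]
  have v0 : φ0 ε = 1 := by rw [e0, hε1, a1]
  have v01 : φ0 u1 = 0 := by rw [e0, hu11, b1]
  have v02 : φ0 u2 = 0 := by rw [e0, hu21, map_zero]
  have v11 : φ1 u1 = 1 := by rw [e1, hu11, c1, a1]
  have v12 : φ1 u2 = 0 := by rw [e1, hu21, map_zero, map_zero]
  have v21 : φ2 u1 = 0 := by rw [e2, hu12, map_zero, map_zero]
  have v22 : φ2 u2 = 1 := by rw [e2, hu22, c2, a2]
  set α := φ1 (T ε)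
  set β := φ2 (T ε)
  have w0 : φ0 w ≠ 0 := by
    intro h0
    have := hw c φ0 (fun x => (main x).1) h0 ε
    rw [v0] at this
    exact one_ne_zero this
  have k := hw c (φ0 w • (β • φ1 - α • φ2) - (β * φ1 w - α * φ2 w) • φ0) (fun x => by
    obtain ⟨m0, m1, m2⟩ := main x
    simp only [sub_apply, smul_apply, smul_eq_mul,
      m0, m1, m2]
    ring) (by
    simp only [sub_apply, smul_apply, smul_eq_mul]
    ring)
  have hα : α = 0 := by
    have := k u2
    simp only [sub_apply, smul_apply, smul_eq_mul,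
      v02, v12, v22] at this
    simpa [w0] using this
  have k2 := hw c (φ0 w • φ1 - φ1 w • φ0) (fun x => by
    obtain ⟨m0, m1, m2⟩ := main x
    simp only [sub_apply, smul_apply, smul_eq_mul,
      m0, m1, hα]
    ring) (by
    simp only [sub_apply, smul_apply, smul_eq_mul]
    ring) u1
  simp only [sub_apply, smul_apply, smul_eq_mul,
    v01, v11] at k2
  exact w0 (by simpa using k2)

end Pool.Agent.H92.Glue
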