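import Pool.Agent.H92.Glue2

set_option autoImplicit false
open scoped InnerProductSpace

namespace Pool.Agent.H92.Glue

theorem exists_shift {E : Type} [NormedAddCommGroup E] [InnerProductSpace ℂ E] [CompleteSpace E]
    (b : HilbertBasis ℤ ℂ E) :
    ∃ (W : E ≃ₗᵢ[ℂ] E) (X : Submodule ℂ E) (_ : IsClosed (X : Set E)) (U L : X →L[ℂ] X)
      (π : X →L[ℂ] ℂ) (e : X), Sh U L π e ∧ ∀ x : X, W x = U x := by
  have hon : Orthonormal ℂ (fun n : ℤ => b (n + 1)) :=
    b.orthonormal.comp (fun n : ℤ => n + 1) (add_left_injective 1)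
  have hr : Set.range (fun n : ℤ => b (n + 1)) = Set.range b := by
    ext x; constructor
    · rintro ⟨n, rfl⟩; exact ⟨_, rfl⟩
    · rintro ⟨n, rfl⟩; exact ⟨n - 1, by simp⟩
  let b' : HilbertBasis ℤ ℂ E := HilbertBasis.mk hon (by rw [hr, b.dense_span])
  have hb' : ∀ n, b' n = b (n + 1) := fun n => by simp [b']
  let W : E ≃ₗᵢ[ℂ] E := b.repr.trans b'.repr.symm
  have hW : ∀ n, W (b n) = b (n + 1) := by
    intro n
    simp only [W, LinearIsometryEquiv.trans_apply, HilbertBasis.repr_self,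
      HilbertBasis.repr_symm_single, hb']
  have cW : ∀ n x, ⟪b (n + 1), W x⟫_ℂ = ⟪b n, x⟫_ℂ := fun n x => by
    rw [← hW, W.inner_map_map]
  have cW' : ∀ n x, ⟪b n, W.symm x⟫_ℂ = ⟪b (n + 1), x⟫_ℂ := fun n x => by
    rw [← cW n (W.symm x), W.apply_symm_apply]
  have hbb : ∀ m n, ⟪b m, b n⟫_ℂ = if m = n then 1 else 0 := fun m n =>
    orthonormal_iff_ite.1 b.orthonormal m n
  let X : Submodule ℂ E :=
    { carrier := {x | ∀ n : ℤ, n < 0 → ⟪b n, x⟫_ℂ = 0}
      add_mem' := by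
        intro x y hx hy n hn
        rw [inner_add_right, hx n hn, hy n hn, add_zero]
      zero_mem' := by intro n _; simp
      smul_mem' := by
        intro c x hx n hn
        rw [inner_smul_right, hx n hn, mul_zero] }
  have hX : ∀ x, x ∈ X ↔ ∀ n : ℤ, n < 0 → ⟪b n, x⟫_ℂ = 0 := fun x => Iff.rfl
  have hXc : IsClosed (X : Set E) := by
    have : (X : Set E) = ⋂ n : ℤ, ⋂ _ : n < 0, {x | ⟪b n, x⟫_ℂ = 0} := by
      ext x; simp [hX]
    rw [this]
    exact isClosed_iInter fun n => isClosed_iInter fun _ =>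
      isClosed_eq (continuous_const.inner continuous_id) continuous_const
  let W1 : E →L[ℂ] E := W.toContinuousLinearEquiv
  have hW1 : ∀ x, W1 x = W x := fun x => rfl
  let L1 : E →L[ℂ] E := (W.symm.toContinuousLinearEquiv : E →L[ℂ] E).comp
    (ContinuousLinearMap.id ℂ E - (innerSL ℂ (b 0)).smulRight (b 0))
  have hL1 : ∀ x, L1 x = W.symm (x - ⟪b 0, x⟫_ℂ • b 0) := fun x => rfl
  have mW : ∀ x ∈ X, W1 x ∈ X := by
    intro x hx n hn
    have := cW (n - 1) x
    rw [sub_add_cancel] at this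
    rw [hW1, this]; exact hx _ (by omega)
  have mL : ∀ x ∈ X, L1 x ∈ X := by
    intro x hx n hn
    rw [hL1, cW', inner_sub_right, inner_smul_right, hbb]
    by_cases h : n + 1 = 0
    · simp [h]
    · rw [if_neg h, hx _ (by omega)]; simp
  let U : X →L[ℂ] X := (W1.comp X.subtypeL).codRestrict X fun x => mW x x.2
  let L : X →L[ℂ] X := (L1.comp X.subtypeL).codRestrict X fun x => mL x x.2
  have hU : ∀ x : X, (U x : E) = W x := fun x => rfl
  have hL : ∀ x : X, (L x : E) = W.symm (x - ⟪b 0, (x : E)⟫_ℂ • b 0) := fun x => rfl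
  have he : b 0 ∈ X := by
    intro n hn
    rw [hbb, if_neg (by omega)]
  have h0U : ∀ x : X, ⟪b 0, (U x : E)⟫_ℂ = 0 := by
    intro x
    have := cW (-1) x
    rw [neg_add_cancel] at this
    rw [hU, this]; exact x.2 _ (by omega)
  refine ⟨W, X, hXc, U, L, (innerSL ℂ (b 0)).comp X.subtypeL, ⟨b 0, he⟩,
    ⟨?_, ?_, ?_, ?_, ?_, ?_, ?_⟩, fun x => rfl⟩
  · intro x
    apply Subtype.ext
    rw [hL, h0U, zero_smul, sub_zero, hU, W.symm_apply_apply]
  · intro x
    apply Subtype.ext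
    rw [hU, hL, W.apply_symm_apply]; rfl
  · intro x; exact h0U x
  · have := hbb 0 0
    simpa using this
  · refine ContinuousLinearMap.opNorm_le_bound _ zero_le_one fun x => ?_
    rw [one_mul]
    exact (W.norm_map x).le
  · refine ContinuousLinearMap.opNorm_le_bound _ zero_le_one fun x => ?_
    rw [one_mul]
    change ‖(L x : E)‖ ≤ ‖(x : E)‖
    rw [hL, W.symm.norm_map]
    have h1 : ⟪(x : E) - ⟪b 0, (x : E)⟫_ℂ • b 0, ⟪b 0, (x : E)⟫_ℂ • b 0⟫_ℂ = 0 := by
      rw [inner_eq_zero_symm, inner_smul_left, inner_sub_right, inner_smul_right, hbb]; simp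
    have h2 := norm_add_sq_eq_norm_sq_add_norm_sq_of_inner_eq_zero _ _ h1
    rw [sub_add_cancel] at h2
    apply abs_le_of_sq_le_sq' _ (norm_nonneg _) |>.2
    nlinarith [mul_self_nonneg ‖⟪b 0, (x : E)⟫_ℂ • b 0‖]
  · intro x hx
    have key : ∀ (n : ℕ) (y : X) (k : ℤ), k < n → ⟪b k, (((U ^ n) y : X) : E)⟫_ℂ = 0 := by
      intro n
      induction n with
      | zero => intro y k hk; exact y.2 k (by simpa using hk)
      | succ n ih =>
        intro y k hk
        have := cW (k - 1) (((U ^ n) y : X) : E)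
        rw [sub_add_cancel] at this
        rw [pow_succ', mul_apply_eq_comp, hU, this]
        exact ih y _ (by push_cast at hk; omega)
    apply Subtype.ext
    apply b.repr.injective
    ext k
    obtain ⟨y, hy⟩ := hx (k.toNat + 1)
    rw [b.repr_apply_apply, hy, key _ y k (by push_cast; omega)]
    simp

theorem sep_of_basis {E : Type} [NormedAddCommGroup E] [InnerProductSpace ℂ E] [CompleteSpace E]
    (b : HilbertBasis ℤ ℂ E) : TopologicalSpace.SeparableSpace E := by
  have h1 : TopologicalSpace.IsSeparable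
      ((Submodule.span ℂ (Set.range b)).topologicalClosure : Set E) :=
    ((Set.countable_range b).isSeparable.span (R := ℂ)).closure
  rw [b.dense_span] at h1
  exact TopologicalSpace.isSeparable_univ_iff.1 h1

theorem normal_prod {E : Type} [NormedAddCommGroup E] [InnerProductSpace ℂ E] [CompleteSpace E]
    (W : E ≃ₗᵢ[ℂ] E) (s : ℝ) :
    ∃ N : WithLp 2 (E × E) →L[ℂ] WithLp 2 (E × E), IsStarNormal N ∧
      (∀ x, (N x).fst = W x.fst - (s : ℂ) • x.fst) ∧ ∀ x, (N x).snd = W x.snd + (s : ℂ) • x.snd := by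
  let mk : (E →L[ℂ] E) → (E →L[ℂ] E) → WithLp 2 (E × E) →L[ℂ] WithLp 2 (E × E) := fun A B =>
    ((WithLp.prodContinuousLinearEquiv 2 ℂ E E).symm : E × E →L[ℂ] WithLp 2 (E × E)).comp
      ((A.prodMap B).comp (WithLp.prodContinuousLinearEquiv 2 ℂ E E : _ →L[ℂ] E × E))
  have m1 : ∀ A B x, (mk A B x).fst = A x.fst := fun A B x => rfl
  have m2 : ∀ A B x, (mk A B x).snd = B x.snd := fun A B x => rfl
  let W1 : E →L[ℂ] E := W.toContinuousLinearEquiv
  let W2 : E →L[ℂ] E := W.symm.toContinuousLinearEquiv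
  have hW1 : ∀ x, W1 x = W x := fun x => rfl
  have hW2 : ∀ x, W2 x = W.symm x := fun x => rfl
  have hin : ∀ x y, ⟪W.symm x, y⟫_ℂ = ⟪x, W y⟫_ℂ := fun x y => by
    rw [← W.inner_map_map, W.apply_symm_apply]
  let N := mk (W1 - (s : ℂ) • 1) (W1 + (s : ℂ) • 1)
  let N' := mk (W2 - (s : ℂ) • 1) (W2 + (s : ℂ) • 1)
  have hadj : N' = ContinuousLinearMap.adjoint N := by
    rw [ContinuousLinearMap.eq_adjoint_iff]
    intro x y
    rw [WithLp.prod_inner_apply, WithLp.prod_inner_apply]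
    change ⟪(N' x).fst, y.fst⟫_ℂ + ⟪(N' x).snd, y.snd⟫_ℂ =
      ⟪x.fst, (N y).fst⟫_ℂ + ⟪x.snd, (N y).snd⟫_ℂ
    simp only [N, N', m1, m2, sub_apply, add_apply, smul_apply, one_apply_eq_self,
      hW1, hW2, inner_sub_left, inner_add_left, inner_sub_right, inner_add_right, inner_smul_left,
      inner_smul_right, hin, Complex.conj_ofReal]
  refine ⟨N, ⟨?_⟩, fun x => rfl, fun x => rfl⟩
  rw [ContinuousLinearMap.star_eq_adjoint, ← hadj]
  refine ContinuousLinearMap.ext fun x => ?_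
  have hext : ∀ u v : WithLp 2 (E × E), u.fst = v.fst → u.snd = v.snd → u = v := by
    intro u v h1 h2
    exact (WithLp.ofLp_injective 2) (Prod.ext h1 h2)
  apply hext
  · simp only [N, N', mul_apply_eq_comp, m1, sub_apply, smul_apply,
      one_apply_eq_self, hW1, hW2, map_sub, map_smul, W.apply_symm_apply,
      W.symm_apply_apply, smul_sub]
    abel
  · simp only [N, N', mul_apply_eq_comp, m2, add_apply, smul_apply,
      one_apply_eq_self, hW1, hW2, map_add, map_smul, W.apply_symm_apply,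
      W.symm_apply_apply, smul_add]
    abel

end Pool.Agent.H92.Glue
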