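import Pool.Agent.H92.Glue1
import Pool.Agent.H92.Glue3

set_option autoImplicit false

namespace Pool.Agent.H92.Glue

theorem exists_op {E : Type} [NormedAddCommGroup E] [InnerProductSpace ℂ E] [CompleteSpace E]
    {X : Type} [NormedAddCommGroup X] [InnerProductSpace ℂ X] [CompleteSpace X]
    [TopologicalSpace.SeparableSpace X] (J : X →ₗᵢ[ℂ] E) (W : E ≃ₗᵢ[ℂ] E)
    {U L : X →L[ℂ] X} {π : X →L[ℂ] ℂ} {e : X} (hsh : Sh U L π e) (hWU : ∀ x, W (J x) = J (U x)) :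
    ∃ (H : Type) (_ : NormedAddCommGroup H) (_ : InnerProductSpace ℂ H) (_ : CompleteSpace H)
      (_ : TopologicalSpace.SeparableSpace H) (S : H →L[ℂ] H),
      (∃ (E : Type) (_ : NormedAddCommGroup E) (_ : InnerProductSpace ℂ E) (_ : CompleteSpace E)
          (V : H →ₗᵢ[ℂ] E) (N : E →L[ℂ] E),
          IsStarNormal N ∧ N.comp V.toContinuousLinearMap = V.toContinuousLinearMap.comp S) ∧
      ∀ (T : H →ₗ[ℂ] H) (w : H), (∀ h, T (S h) = S (T h)) →
        (∀ (c : ℂ) (ψ : H →L[ℂ] ℂ), (∀ h, ψ (T h) = c * ψ h) → ψ w = 0 → ∀ h, ψ h = 0) →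
        False := by
  obtain ⟨ev1, D1, a1, b1, c1, d1⟩ := hsh.ev ((3 / 4 : ℝ) : ℂ) (by
    rw [Complex.norm_real]; norm_num)
  obtain ⟨ev2, D2, a2, b2, c2, d2⟩ := hsh.ev (-((3 / 4 : ℝ) : ℂ)) (by
    rw [norm_neg, Complex.norm_real]; norm_num)
  simp only [neg_smul, sub_neg_eq_add] at b2 c2 d2
  obtain ⟨N, hN, hN1, hN2⟩ := normal_prod W (3 / 4)
  have hs2 : 1 < ‖2 * ((3 / 4 : ℝ) : ℂ)‖ := by
    rw [norm_mul, Complex.norm_real]; norm_num
  generalize ((3 / 4 : ℝ) : ℂ) = s at *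
  let q1 : WithLp 2 (X × X) →L[ℂ] X := WithLp.fstL 2 ℂ X X
  let q2 : WithLp 2 (X × X) →L[ℂ] X := WithLp.sndL 2 ℂ X X
  let H : Submodule ℂ (WithLp 2 (X × X)) :=
    LinearMap.ker ((ev1.comp q1 - ev2.comp q2 : WithLp 2 (X × X) →L[ℂ] ℂ) :
      WithLp 2 (X × X) →ₗ[ℂ] ℂ)
  have hH : ∀ x, x ∈ H ↔ ev1 x.fst = ev2 x.snd := fun x => sub_eq_zero
  have : CompleteSpace H := (ContinuousLinearMap.isClosed_ker _).completeSpace_coe
  have : SecondCountableTopology X := UniformSpace.secondCountable_of_separable X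
  let S0 : WithLp 2 (X × X) →L[ℂ] WithLp 2 (X × X) :=
    ((WithLp.prodContinuousLinearEquiv 2 ℂ X X).symm : X × X →L[ℂ] WithLp 2 (X × X)).comp
      (((U - s • 1).prodMap (U + s • 1)).comp
        (WithLp.prodContinuousLinearEquiv 2 ℂ X X : _ →L[ℂ] X × X))
  have hS01 : ∀ x, (S0 x).fst = U x.fst - s • x.fst := fun x => rfl
  have hS02 : ∀ x, (S0 x).snd = U x.snd + s • x.snd := fun x => rfl
  have mS : ∀ x, S0 x ∈ H := by
    intro x
    rw [hH, hS01, hS02, b1, b2]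
  let S : H →L[ℂ] H := (S0.comp H.subtypeL).codRestrict H fun x => mS x
  let V : H →ₗᵢ[ℂ] WithLp 2 (E × E) :=
    (LinearIsometry.withLpProdMap 2 J J).comp H.subtypeₗᵢ
  have hext : ∀ u v : WithLp 2 (E × E), u.fst = v.fst → u.snd = v.snd → u = v := by
    intro u v h1 h2
    exact (WithLp.ofLp_injective 2) (Prod.ext h1 h2)
  refine ⟨H, inferInstance, inferInstance, inferInstance, inferInstance, S,
    ⟨WithLp 2 (E × E), inferInstance, inferInstance, inferInstance, V, N, hN, ?_⟩, ?_⟩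
  · refine ContinuousLinearMap.ext fun x => ?_
    apply hext
    · change (N (V x)).fst = J (U x.1.fst - s • x.1.fst)
      rw [hN1, map_sub, map_smul, ← hWU]; rfl
    · change (N (V x)).snd = J (U x.1.snd + s • x.1.snd)
      rw [hN2, map_add, map_smul, ← hWU]; rfl
  · intro T w hT hw
    refine partB hsh s hs2
      ev1 ev2 D1 D2 a1 b1 c1 d1 a2 b2 c2 d2 (q1.comp H.subtypeL) (q2.comp H.subtypeL)
      ?_ (fun x => (hH x.1).1 x.2) ?_ S (fun x => rfl) (fun x => rfl) T w hT hw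
    · intro x h1 h2
      apply Subtype.ext
      exact (WithLp.ofLp_injective 2) (Prod.ext h1 h2)
    · intro f g hfg
      exact ⟨⟨WithLp.toLp 2 (f, g), (hH _).2 hfg⟩, rfl, rfl⟩

theorem exists_op' {E : Type} [NormedAddCommGroup E] [InnerProductSpace ℂ E] [CompleteSpace E]
    (b : HilbertBasis ℤ ℂ E) :
    ∃ (H : Type) (_ : NormedAddCommGroup H) (_ : InnerProductSpace ℂ H) (_ : CompleteSpace H)
      (_ : TopologicalSpace.SeparableSpace H) (S : H →L[ℂ] H),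
      (∃ (E : Type) (_ : NormedAddCommGroup E) (_ : InnerProductSpace ℂ E) (_ : CompleteSpace E)
          (V : H →ₗᵢ[ℂ] E) (N : E →L[ℂ] E),
          IsStarNormal N ∧ N.comp V.toContinuousLinearMap = V.toContinuousLinearMap.comp S) ∧
      ∀ (T : H →ₗ[ℂ] H) (w : H), (∀ h, T (S h) = S (T h)) →
        (∀ (c : ℂ) (ψ : H →L[ℂ] ℂ), (∀ h, ψ (T h) = c * ψ h) → ψ w = 0 → ∀ h, ψ h = 0) →
        False := by
  have : TopologicalSpace.SeparableSpace E := sep_of_basis b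
  have : SecondCountableTopology E := UniformSpace.secondCountable_of_separable E
  obtain ⟨W, X, hXc, U, L, π, e, hsh, hWU⟩ := exists_shift b
  have : CompleteSpace X := hXc.completeSpace_coe
  exact exists_op X.subtypeₗᵢ W hsh hWU

end Pool.Agent.H92.Glue
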