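import Mathlib
import Pool.Agent.H92.Gr2

open MeasureTheory Matrix
open scoped InnerProductSpace ComplexConjugate ComplexOrder

namespace H92.Gr

variable {𝕜 : Type} [RCLike 𝕜]

lemma exists_unit {E : Type*} [NormedAddCommGroup E] [InnerProductSpace 𝕜 E] [Nontrivial E]
    (g : E) : ∃ u : E, ‖u‖ = 1 ∧ ⟪u, g⟫_𝕜 = (‖g‖ : ℝ) := by
  have hn : ∀ g : E, g ≠ 0 → ‖((‖g‖⁻¹ : ℝ) : 𝕜) • g‖ = 1 := fun g hg => by
    rw [norm_smul, RCLike.norm_ofReal, abs_inv, abs_norm, inv_mul_cancel₀ (norm_ne_zero_iff.2 hg)]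
  by_cases hg : g = 0
  · obtain ⟨x, hx⟩ := exists_ne (0 : E)
    exact ⟨_, hn x hx, by simp [hg]⟩
  · have h0 : ‖g‖ ≠ 0 := norm_ne_zero_iff.2 hg
    refine ⟨((‖g‖⁻¹ : ℝ) : 𝕜) • g, hn g hg, ?_⟩
    · rw [inner_smul_left, RCLike.conj_ofReal, inner_self_eq_norm_sq_to_K]
      have : ((‖g‖ : ℝ) : 𝕜) ≠ 0 := by exact_mod_cast h0
      push_cast; field_simp

lemma sum4 {α β : Type*} [Fintype α] [Fintype β] (F : α → α → β → β → 𝕜) :
    ∑ a, ∑ b, ∑ j, ∑ i, F a b i j = ∑ i, ∑ j, ∑ a, ∑ b, F a b i j := by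
  calc _ = ∑ a, ∑ i, ∑ j, ∑ b, F a b i j := by
        refine Finset.sum_congr rfl fun a _ => ?_
        rw [Finset.sum_comm]
        conv_rhs => rw [Finset.sum_comm]
        refine Finset.sum_congr rfl fun j _ => Finset.sum_comm
    _ = _ := by
        rw [Finset.sum_comm]
        refine Finset.sum_congr rfl fun i _ => Finset.sum_comm

lemma trace_formula {k : ℕ} (B T : Matrix (Fin k) (Fin k) 𝕜) :
    (Bᴴ * T).trace = ∑ a, ∑ b, conj (B a b) * T a b := by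
  simp only [Matrix.trace, Matrix.diag, Matrix.mul_apply, conjTranspose_apply]
  rw [Finset.sum_comm]; rfl

lemma finite_example {k d : ℕ} (hd : 0 < d) (w : Fin k → ℝ) (hw : ∀ a, 0 ≤ w a)
    (hw1 : ∑ a, w a = 1) (g : Fin k → EuclideanSpace 𝕜 (Fin d)) {M t K : ℝ} (hM : 0 ≤ M)
    (ht : 0 ≤ t) (hK : 0 ≤ K)
    (h1 : ∀ y : EuclideanSpace 𝕜 (Fin d), ‖y‖ = 1 → ∑ a, w a * ‖⟪y, g a⟫_𝕜‖ ≤ M)
    (h2 : t ≤ ∑ a, w a * ‖g a‖) (h3 : (K + 1) * (M ^ 2 / 2) < t ^ 2 / d) :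
    ∃ S B : Matrix (Fin k) (Fin k) 𝕜, IsCorr 𝕜 S ∧ 0 ≤ quad 𝕜 B ∧
      K * quad 𝕜 B < ‖(Bᴴ * S).trace‖ := by
  have : Nonempty (Fin d) := ⟨⟨0, hd⟩⟩
  choose u hu hug using fun a => exists_unit (𝕜 := 𝕜) (g a)
  set L : ℝ := M ^ 2 / 2 with hL
  let B : Matrix (Fin k) (Fin k) 𝕜 := fun a b =>
    ((w a * w b : ℝ) : 𝕜) * ⟪g a, g b⟫_𝕜 - if a = b then ((L * w a : ℝ) : 𝕜) else 0
  have hB : ∀ T : Matrix (Fin k) (Fin k) 𝕜, (∀ a, T a a = 1) → (Bᴴ * T).trace =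
      ∑ a, ∑ b, ((w a * w b : ℝ) : 𝕜) * ⟪g b, g a⟫_𝕜 * T a b - (L : ℝ) := by
    intro T hT
    rw [trace_formula]
    have e : ((L : ℝ) : 𝕜) = ∑ a, ∑ b, (if a = b then ((L * w a : ℝ) : 𝕜) else 0) * T a b := by
      simp only [ite_mul, zero_mul, Finset.sum_ite_eq, Finset.mem_univ, if_true, hT, mul_one]
      rw [← RCLike.ofReal_sum, ← Finset.mul_sum, hw1, mul_one]
    rw [e, ← Finset.sum_sub_distrib]
    refine Finset.sum_congr rfl fun a _ => ?_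
    rw [← Finset.sum_sub_distrib]
    refine Finset.sum_congr rfl fun b _ => ?_
    simp only [B, map_sub, map_mul, RCLike.conj_ofReal, inner_conj_symm]
    split_ifs <;> simp [sub_mul]
  have hq : ∀ s ∈ {s | ∃ x : Fin k → 𝕜, (∀ i, ‖x i‖ = 1) ∧
      s = ‖(Bᴴ * Matrix.vecMulVec x (star x)).trace‖}, s ≤ L := by
    rintro s ⟨x, hx, rfl⟩
    rw [hB _ (fun a => by simp [vecMulVec_apply, RCLike.mul_conj, hx])]
    set z : EuclideanSpace 𝕜 (Fin d) := ∑ a, ((w a : 𝕜) * x a) • g a with hz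
    have e : ∑ a, ∑ b, ((w a * w b : ℝ) : 𝕜) * ⟪g b, g a⟫_𝕜 * vecMulVec x (star x) a b =
        ((‖z‖ ^ 2 : ℝ) : 𝕜) := by
      rw [RCLike.ofReal_pow, ← inner_self_eq_norm_sq_to_K, hz, inner_sum]
      refine Finset.sum_congr rfl fun a _ => ?_
      rw [sum_inner]
      refine Finset.sum_congr rfl fun b _ => ?_
      simp [vecMulVec_apply, inner_smul_left, inner_smul_right]; ring
    obtain ⟨y, hy, hyz⟩ := exists_unit (𝕜 := 𝕜) z
    have hzM : ‖z‖ ≤ M := by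
      have : ‖⟪y, z⟫_𝕜‖ ≤ ∑ a, w a * ‖⟪y, g a⟫_𝕜‖ := by
        rw [hz, inner_sum]
        refine (norm_sum_le _ _).trans (Finset.sum_le_sum fun a _ => ?_)
        rw [inner_smul_right, norm_mul, norm_mul, hx, RCLike.norm_ofReal, abs_of_nonneg (hw a),
          mul_one]
      rw [hyz, RCLike.norm_ofReal, abs_norm] at this
      exact this.trans (h1 y hy)
    rw [e, ← RCLike.ofReal_sub, RCLike.norm_ofReal, abs_le]
    have := pow_le_pow_left₀ (norm_nonneg _) hzM 2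
    constructor <;> nlinarith [sq_nonneg ‖z‖]
  have hL0 : 0 ≤ L := by positivity
  refine ⟨gram 𝕜 u, B, ⟨posSemidef_gram 𝕜 u, fun a => by
    simp [gram_apply, inner_self_eq_norm_sq_to_K, hu]⟩,
    Real.sSup_nonneg (by rintro s ⟨x, -, rfl⟩; exact norm_nonneg _), ?_⟩
  have hqL : quad 𝕜 B ≤ L := Real.sSup_le hq hL0
  rw [hB _ (fun a => by simp [gram_apply, inner_self_eq_norm_sq_to_K, hu])]
  let T : Fin d → Fin d → 𝕜 := fun i j => ∑ a, (w a : 𝕜) * g a i * conj (u a j)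
  have e : ∑ a, ∑ b, ((w a * w b : ℝ) : 𝕜) * ⟪g b, g a⟫_𝕜 * gram 𝕜 u a b =
      ((∑ i, ∑ j, ‖T i j‖ ^ 2 : ℝ) : 𝕜) := by
    push_cast
    simp only [← RCLike.mul_conj, T, map_sum, map_mul, RCLike.conj_ofReal, RCLike.conj_conj,
      Finset.sum_mul_sum, gram_apply, PiLp.inner_apply, RCLike.inner_apply, Finset.mul_sum,
      Finset.sum_mul]
    rw [sum4]
    refine Finset.sum_congr rfl fun i _ => Finset.sum_congr rfl fun j _ => ?_
    rw [Finset.sum_comm]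
    refine Finset.sum_congr rfl fun i _ => Finset.sum_congr rfl fun j _ => by ring
  have e2 : ∑ i, T i i = ((∑ a, w a * ‖g a‖ : ℝ) : 𝕜) := by
    simp only [T]
    rw [Finset.sum_comm, RCLike.ofReal_sum]
    refine Finset.sum_congr rfl fun a _ => ?_
    rw [RCLike.ofReal_mul, ← hug, PiLp.inner_apply, Finset.mul_sum]
    refine Finset.sum_congr rfl fun i _ => ?_
    simp; ring
  have e3 : t ≤ ∑ i, ‖T i i‖ := by
    refine h2.trans (le_trans ?_ (norm_sum_le _ _))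
    rw [e2, RCLike.norm_ofReal]; exact le_abs_self _
  have e4 : t ^ 2 / d ≤ ∑ i, ∑ j, ‖T i j‖ ^ 2 := by
    have a1 := sq_sum_le_card_mul_sum_sq (s := Finset.univ) (f := fun i => ‖T i i‖)
    have a2 : ∑ i, ‖T i i‖ ^ 2 ≤ ∑ i, ∑ j, ‖T i j‖ ^ 2 := Finset.sum_le_sum fun i _ =>
      Finset.single_le_sum (f := fun j => ‖T i j‖ ^ 2) (fun j _ => by positivity)
        (Finset.mem_univ i)
    have a3 := pow_le_pow_left₀ ht e3 2
    have hd' : (0:ℝ) < d := by exact_mod_cast hd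
    rw [div_le_iff₀ hd']
    simp only [Finset.card_univ, Fintype.card_fin] at a1
    nlinarith
  rw [e, ← RCLike.ofReal_sub, RCLike.norm_ofReal]
  refine lt_of_lt_of_le ?_ (le_abs_self _)
  nlinarith [mul_le_mul_of_nonneg_left hqL hK]

lemma measure_example {Ω : Type*} [MeasurableSpace Ω] (μ : Measure Ω) [IsProbabilityMeasure μ]
    {d : ℕ} (hd : 0 < d) (G : Ω → EuclideanSpace 𝕜 (Fin d)) (hG : Integrable G μ) {M t K : ℝ}
    (hM : 0 ≤ M) (ht : 0 < t) (hK : 0 ≤ K)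
    (h1 : ∀ y : EuclideanSpace 𝕜 (Fin d), ‖y‖ = 1 → ∫ ω, ‖⟪y, G ω⟫_𝕜‖ ∂μ ≤ M)
    (h2 : t ≤ ∫ ω, ‖G ω‖ ∂μ) (h3 : (K + 1) * (M ^ 2 / 2) < t ^ 2 / d) :
    ∃ (k : ℕ) (S B : Matrix (Fin k) (Fin k) 𝕜), IsCorr 𝕜 S ∧ 0 ≤ quad 𝕜 B ∧
      K * quad 𝕜 B < ‖(Bᴴ * S).trace‖ := by
  obtain ⟨ε, hε, hεt, h4⟩ : ∃ ε : ℝ, 0 < ε ∧ ε < t ∧
      (K + 1) * ((M + ε) ^ 2 / 2) < (t - ε) ^ 2 / d := by
    have c1 : ContinuousAt (fun ε : ℝ => (K + 1) * ((M + ε) ^ 2 / 2)) 0 := by fun_prop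
    have c2 : ContinuousAt (fun ε : ℝ => (t - ε) ^ 2 / d) 0 := by fun_prop
    have a1 := c1.eventually_lt c2 (by simpa using h3)
    have a2 : ∀ᶠ ε in nhds (0:ℝ), ε < t := eventually_lt_nhds ht
    obtain ⟨ε, h, h'⟩ := (((a1.and a2).filter_mono nhdsWithin_le_nhds).and
      (self_mem_nhdsWithin (s := Set.Ioi (0:ℝ)))).exists
    exact ⟨ε, h', h.2, h.1⟩
  obtain ⟨s, hs, hs1⟩ := (memLp_one_iff_integrable.2 hG).exists_simpleFunc_eLpNorm_sub_lt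
    (by simp) (ε := ENNReal.ofReal ε) (by simpa using hε)
  rw [memLp_one_iff_integrable] at hs1
  have hd1 : ∫ ω, ‖G ω - s ω‖ ∂μ ≤ ε := by
    rw [eLpNorm_one_eq_lintegral_enorm, ← ofReal_integral_norm_eq_lintegral_enorm (hG.sub hs1),
      ENNReal.ofReal_lt_ofReal_iff hε] at hs
    exact hs.le
  let e := s.range.equivFin
  have key : ∀ φ : EuclideanSpace 𝕜 (Fin d) → ℝ,
      ∑ a, μ.real (s ⁻¹' {(e.symm a).1}) * φ (e.symm a).1 = ∫ ω, φ (s ω) ∂μ := by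
    intro φ
    rw [e.symm.sum_comp (fun x => μ.real (s ⁻¹' {x.1}) * φ x.1),
      Finset.sum_coe_sort s.range (fun x => μ.real (s ⁻¹' {x}) * φ x)]
    have : (fun ω => φ (s ω)) = fun ω => ∑ x ∈ s.range, (s ⁻¹' {x}).indicator (fun _ => φ x) ω := by
      ext ω
      rw [Finset.sum_eq_single (s ω)]
      · simp
      · intro x _ hx
        exact (Set.indicator_of_notMem (by simpa using hx.symm) _)
      · intro h; exact absurd (s.mem_range_self ω) h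
    rw [this, integral_finsetSum]
    · refine Finset.sum_congr rfl fun x _ => ?_
      rw [integral_indicator_const _ (s.measurableSet_fiber x), smul_eq_mul]
    · exact fun x _ => (integrable_const _).indicator (s.measurableSet_fiber x)
  refine ⟨s.range.card, finite_example hd (fun a => μ.real (s ⁻¹' {(e.symm a).1}))
    (fun a => measureReal_nonneg) ?_ (fun a => (e.symm a).1) (M := M + ε) (t := t - ε)
    (by positivity) (by linarith) hK (fun y hy => ?_) ?_ h4⟩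
  · simpa using key fun _ => 1
  · rw [key fun v => ‖⟪y, v⟫_𝕜‖]
    have i1 : Integrable (fun ω => ‖⟪y, G ω⟫_𝕜‖) μ := (hG.const_inner y).norm
    refine le_trans (integral_mono (hs1.const_inner y).norm (i1.add (hG.sub hs1).norm)
      fun ω => ?_) ?_
    · have : ⟪y, s ω⟫_𝕜 = ⟪y, G ω⟫_𝕜 - ⟪y, G ω - s ω⟫_𝕜 := by simp [inner_sub_right]
      simp only [Pi.add_apply, Pi.sub_apply]
      rw [this]
      refine (norm_sub_le _ _).trans ?_
      have := norm_inner_le_norm (𝕜 := 𝕜) y (G ω - s ω)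
      rw [hy, one_mul] at this
      linarith
    · rw [integral_add' i1 (hG.sub hs1).norm]
      exact add_le_add (h1 y hy) hd1
  · rw [key fun v => ‖v‖]
    have : ∫ ω, ‖G ω‖ ∂μ ≤ ∫ ω, ‖s ω‖ ∂μ + ∫ ω, ‖G ω - s ω‖ ∂μ := by
      have i2 : Integrable (fun ω => ‖G ω - s ω‖) μ := (hG.sub hs1).norm
      rw [← integral_add hs1.norm i2]
      refine integral_mono hG.norm (hs1.norm.add i2) fun ω => ?_
      simpa using norm_add_le (s ω) (G ω - s ω)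
    linarith

end H92.Gr
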