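import Mathlib
import Pool.Agent.H92.Gr1

open MeasureTheory ProbabilityTheory Real Set
open scoped RealInnerProductSpace

namespace H92.Gr

lemma abs_moment : ∫ x, |x| ∂(gaussianReal 0 1) = 2 / √(2 * π) := by
  rw [integral_gaussianReal_eq_integral_smul one_ne_zero]
  have h1 : ∫ r in Ioi (0:ℝ), r * rexp (-(1 / 2) * r ^ 2) = 1 := by
    have := integral_mul_cexp_neg_mul_sq (b := (1 / 2 : ℝ)) (by simp)
    apply Complex.ofReal_injective
    rw [← integral_complex_ofReal]
    push_cast at this ⊢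
    rw [this]; norm_num
  have h2 := integral_comp_abs (f := fun r => r * rexp (-(1 / 2) * r ^ 2))
  rw [h1] at h2
  have : (fun x : ℝ => gaussianPDFReal 0 1 x • |x|) =
      fun x => (√(2 * π))⁻¹ * (|x| * rexp (-(1 / 2) * |x| ^ 2)) := by
    ext x
    simp only [gaussianPDFReal, NNReal.coe_one, mul_one, sub_zero, smul_eq_mul, sq_abs]
    rw [show -x ^ 2 / 2 = -(1 / 2) * x ^ 2 by ring]; ring
  rw [this, integral_const_mul, h2]; ring

lemma int_abs_cos (φ : ℝ) : ∫ θ in (0:ℝ)..2 * π, |cos (θ - φ)| = 4 := by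
  have hp : Function.Periodic (fun θ => |cos θ|) (2 * π) := fun θ => by simp
  rw [intervalIntegral.integral_comp_sub_right (fun θ => |cos θ|) φ]
  have := hp.intervalIntegral_add_eq (0 - φ) (-(π / 2))
  rw [show 0 - φ + 2 * π = 2 * π - φ by ring] at this
  rw [this, ← intervalIntegral.integral_add_adjacent_intervals (b := π / 2)
    (Continuous.intervalIntegrable (by fun_prop) _ _)
    (Continuous.intervalIntegrable (by fun_prop) _ _)]
  have h1 : ∫ θ in -(π / 2)..π / 2, |cos θ| = ∫ θ in -(π / 2)..π / 2, cos θ := by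
    refine intervalIntegral.integral_congr fun θ hθ => ?_
    rw [uIcc_of_le (by linarith [pi_pos])] at hθ
    exact abs_of_nonneg (cos_nonneg_of_mem_Icc hθ)
  have h2 : ∫ θ in π / 2..-(π / 2) + 2 * π, |cos θ| = ∫ θ in π / 2..-(π / 2) + 2 * π, -cos θ := by
    refine intervalIntegral.integral_congr fun θ hθ => ?_
    rw [uIcc_of_le (by linarith [pi_pos])] at hθ
    exact abs_of_nonpos (cos_nonpos_of_pi_div_two_le_of_le hθ.1 (by linarith [hθ.2]))
  rw [h1, h2, intervalIntegral.integral_neg]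
  simp; norm_num

lemma int_abs_re (z : ℂ) : ∫ θ in (0:ℝ)..2 * π, |cos θ * z.re + sin θ * z.im| = 4 * ‖z‖ := by
  have : ∀ θ, |cos θ * z.re + sin θ * z.im| = ‖z‖ * |cos (θ - z.arg)| := by
    intro θ
    rw [← Complex.norm_mul_cos_arg, ← Complex.norm_mul_sin_arg, cos_sub,
      ← abs_of_nonneg (norm_nonneg z), ← abs_mul, abs_norm]
    congr 1; ring
  simp_rw [this]
  rw [intervalIntegral.integral_const_mul, int_abs_cos, mul_comm]

section
variable {E : Type*} [NormedAddCommGroup E] [InnerProductSpace ℝ E] [FiniteDimensional ℝ E]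
  [MeasurableSpace E] [BorelSpace E]

lemma abs_inner_moment {x : E} (hx : ‖x‖ = 1) :
    ∫ g, |⟪x, g⟫| ∂(stdGaussian E) = 2 / √(2 * π) := by
  have h := IsGaussian.map_eq_gaussianReal (μ := stdGaussian E) (innerSL ℝ x)
  rw [variance_dual_stdGaussian, innerSL_apply_norm, hx, integral_strongDual_stdGaussian] at h
  simp only [one_pow, Real.toNNReal_one] at h
  rw [← abs_moment, ← h, integral_map (by fun_prop) (by fun_prop)]
  rfl

lemma norm_pr_moment {x y : E} (hx : ‖x‖ = 1) (hy : ‖y‖ = 1) (hxy : ⟪x, y⟫ = 0) :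
    ∫ g, ‖pr x y g‖ ∂(stdGaussian E) = π / √(2 * π) := by
  have h1 : ∀ g, ‖pr x y g‖ = (∫ θ in Ioc (0:ℝ) (2 * π), |⟪cos θ • x + sin θ • y, g⟫|) / 4 := by
    intro g
    have := int_abs_re (pr x y g)
    rw [intervalIntegral.integral_of_le (by positivity)] at this
    simp only [inner_add_left, real_inner_smul_left]
    simp only [pr] at this ⊢
    rw [this]; ring
  have hn : ∀ θ, ‖cos θ • x + sin θ • y‖ = 1 := by
    intro θ
    have : ‖cos θ • x + sin θ • y‖ ^ 2 = 1 := by
      rw [norm_add_sq_real, real_inner_smul_left, real_inner_smul_right, hxy, norm_smul,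
        norm_smul, hx, hy]
      simp
    exact (pow_eq_one_iff_of_nonneg (norm_nonneg _) two_ne_zero).1 this
  simp_rw [h1]
  rw [integral_div, integral_integral_swap]
  · simp_rw [abs_inner_moment (hn _)]
    simp [pi_pos.le]; ring
  · refine Integrable.mono' (g := fun p => ‖p.1‖) ?_ (Continuous.aestronglyMeasurable ?_)
      (ae_of_all _ fun p => ?_)
    · exact (IsGaussian.integrable_id (μ := stdGaussian E)).norm.comp_fst _
    · unfold Function.uncurry; fun_prop
    · have := abs_real_inner_le_norm (cos p.2 • x + sin p.2 • y) p.1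
      rw [hn, one_mul] at this
      simpa [Function.uncurry] using this

end

lemma norm_moment : ∃ V : ℝ, 0 ≤ V ∧ ∀ (ι : Type) [Fintype ι] [Nonempty ι],
    √(Fintype.card ι) * (1 - V / Fintype.card ι) ≤
      ∫ g, ‖g‖ ∂(stdGaussian (EuclideanSpace ℝ ι)) := by
  refine ⟨Var[fun x => x ^ 2; gaussianReal 0 1] / 2, by
    have := variance_nonneg (fun x : ℝ => x ^ 2) (gaussianReal 0 1); positivity, fun ι _ _ => ?_⟩
  set V := Var[fun x : ℝ => x ^ 2; gaussianReal 0 1]
  set D : ℝ := (Fintype.card ι : ℝ) with hD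
  have hD0 : 0 < D := by rw [hD]; exact_mod_cast Fintype.card_pos
  set μ := Measure.pi (fun _ : ι => gaussianReal 0 1)
  have hm : MemLp (fun x : ℝ => x ^ 2) 2 (gaussianReal 0 1) := by
    have h4 := memLp_id_gaussianReal' (μ := 0) (v := 1) 4 (by simp)
    have : ENNReal.HolderTriple 4 4 2 := ⟨by
      rw [show (4 : ENNReal) = 2 * 2 by norm_num, ENNReal.mul_inv (by simp) (by simp), ← add_mul,
        ENNReal.inv_two_add_inv_two, one_mul]⟩
    have := h4.mul (r := 2) h4
    convert this using 1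
    ext x; simp [sq]
  let S : (ι → ℝ) → ℝ := ∑ i, fun ω => ω i ^ 2
  have hS : MemLp S 2 μ := memLp_finsetSum' _ fun i _ =>
    hm.comp_measurePreserving (measurePreserving_eval _ i)
  have hv : Var[S; μ] = D * V := by
    rw [variance_sum_pi (X := fun _ x => x ^ 2) (fun _ => hm)]; simp [hD, V]
  have h2 : ∫ x, x ^ 2 ∂(gaussianReal 0 1) = 1 := by
    have := variance_id_gaussianReal (μ := 0) (v := 1)
    rw [variance_eq_integral (by fun_prop)] at this
    simpa using this
  have he : μ[S] = D := by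
    simp only [S, Finset.sum_apply]
    have hi : ∀ i, Integrable (fun ω : ι → ℝ => ω i ^ 2) μ := fun i => (hm.comp_measurePreserving
      (measurePreserving_eval _ i)).integrable one_le_two
    rw [integral_finsetSum _ fun i _ => hi i]
    have : ∀ i, ∫ ω, ω i ^ 2 ∂μ = 1 := fun i => by
      rw [← h2, ← (measurePreserving_eval (fun _ : ι => gaussianReal 0 1) i).map_eq,
        integral_map (measurable_pi_apply i).aemeasurable (by fun_prop)]
    simp [this, hD]
  rw [variance_eq_integral hS.aemeasurable, he] at hv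
  have hi : Integrable (fun g : EuclideanSpace ℝ ι => ‖g‖) (μ.map (WithLp.toLp 2)) := by
    rw [map_pi_eq_stdGaussian]; exact IsGaussian.integrable_id.norm
  rw [← map_pi_eq_stdGaussian, integral_map (by fun_prop) (by fun_prop)]
  have i1 : Integrable (fun ω => S ω - D) μ := (hS.integrable one_le_two).sub (integrable_const _)
  have i2 : Integrable (fun ω => (S ω - D) ^ 2) μ := (hS.sub (memLp_const D)).integrable_sq
  have i3 : Integrable (fun ω => 1 + (S ω - D) / (2 * D)) μ :=
    (integrable_const _).add (i1.div_const _)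
  have e : √D * (1 - V / 2 / D) =
      ∫ ω, √D * (1 + (S ω - D) / (2 * D) - (S ω - D) ^ 2 / (2 * D ^ 2)) ∂μ := by
    rw [integral_const_mul, integral_sub i3 (i2.div_const _), integral_add (integrable_const _)
      (i1.div_const _), integral_div, integral_div, hv,
      integral_sub (hS.integrable one_le_two) (integrable_const _), he]
    simp; left; field_simp
  rw [e]
  refine integral_mono ((i3.sub (i2.div_const _)).const_mul _)
    ((integrable_map_measure (by fun_prop) (by fun_prop)).1 hi) fun ω => ?_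
  have hs : S ω = ‖(WithLp.toLp 2 ω : EuclideanSpace ℝ ι)‖ ^ 2 := by
    rw [EuclideanSpace.real_norm_sq_eq]; simp [S]
  simp only [hs]
  set r := ‖(WithLp.toLp 2 ω : EuclideanSpace ℝ ι)‖
  have hr : 0 ≤ r := norm_nonneg _
  obtain ⟨q, hq, hqD⟩ : ∃ q : ℝ, 0 < q ∧ D = q ^ 2 := ⟨√D, sqrt_pos.2 hD0, (sq_sqrt hD0.le).symm⟩
  rw [hqD, sqrt_sq hq.le]
  have : q * (1 + (r ^ 2 - q ^ 2) / (2 * q ^ 2) - (r ^ 2 - q ^ 2) ^ 2 / (2 * (q ^ 2) ^ 2)) =
      r - (r - q) ^ 2 * (r * (r + 2 * q)) / (2 * q ^ 3) := by field_simp; ring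
  rw [this]
  have : 0 ≤ (r - q) ^ 2 * (r * (r + 2 * q)) / (2 * q ^ 3) := by positivity
  linarith

end H92.Gr
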