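import Mathlib
import Pool.Agent.H92.Gr4
import Pool.Agent.H92.Gr5

open MeasureTheory ProbabilityTheory Real Matrix Filter Topology
open scoped InnerProductSpace ComplexConjugate ComplexOrder

namespace H92.Gr

lemma exists_dim {V c : ℝ} (hc : c < 1) :
    ∃ d : ℕ, 0 < d ∧ ∀ e : ℕ, d ≤ e → 0 < 1 - V / e ∧ c < (1 - V / e) ^ 2 := by
  have h : Tendsto (fun e : ℕ => 1 - V / e) atTop (𝓝 1) := by
    simpa using (tendsto_const_div_atTop_nhds_zero_nat V).const_sub 1
  have h2 : Tendsto (fun e : ℕ => (1 - V / e) ^ 2) atTop (𝓝 1) := by simpa using h.pow 2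
  obtain ⟨d, hd⟩ := eventually_atTop.1 ((h.eventually (lt_mem_nhds one_pos)).and
    (h2.eventually (lt_mem_nhds hc)))
  exact ⟨d + 1, d.succ_pos, fun e he => hd e (by omega)⟩

theorem lower_real {K : ℝ} (hK0 : 0 ≤ K) (hK : K < π - 1) :
    ∃ (k : ℕ) (S B : Matrix (Fin k) (Fin k) ℝ), IsCorr ℝ S ∧ 0 ≤ quad ℝ B ∧
      K * quad ℝ B < ‖(Bᴴ * S).trace‖ := by
  obtain ⟨V, -, hV⟩ := norm_moment
  obtain ⟨d, hd, h⟩ := exists_dim (V := V) (c := (K + 1) / π)
    (by rw [div_lt_one pi_pos]; linarith)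
  obtain ⟨h1, h2⟩ := h d le_rfl
  have : Nonempty (Fin d) := ⟨⟨0, hd⟩⟩
  have hd' : (0:ℝ) < d := by exact_mod_cast hd
  refine measure_example (stdGaussian (EuclideanSpace ℝ (Fin d))) hd id IsGaussian.integrable_id
    (M := 2 / √(2 * π)) (t := √d * (1 - V / d)) (by positivity) (by positivity) hK0
    (fun y hy => (abs_inner_moment hy).le) (by simpa using hV (Fin d)) ?_
  rw [div_pow, mul_pow, sq_sqrt (by positivity), sq_sqrt hd'.le, mul_div_cancel_left₀ _ hd'.ne']
  convert h2 using 1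
  field_simp

/-- realification -/
noncomputable def R {ι : Type} (y : ι → ℂ) : EuclideanSpace ℝ (ι ⊕ ι) :=
  WithLp.toLp 2 (Sum.elim (fun l => (y l).re) fun l => (y l).im)

lemma inner_R {ι : Type} [Fintype ι] (y z : ι → ℂ) :
    ⟪R y, R z⟫_ℝ = (∑ l, conj (y l) * z l).re := by
  simp [R, PiLp.inner_apply, Fintype.sum_sum_type, Finset.sum_add_distrib, mul_comm]

lemma norm_R {ι : Type} [Fintype ι] {y : ι → ℂ} (h : ∑ l, ‖y l‖ ^ 2 = 1) : ‖R y‖ = 1 := by
  have : ‖R y‖ ^ 2 = 1 := by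
    rw [← real_inner_self_eq_norm_sq, inner_R, ← h]
    simp only [Complex.conj_mul', Complex.re_sum]
    refine Finset.sum_congr rfl fun l _ => ?_
    rw [← Complex.ofReal_pow, Complex.ofReal_re]
  exact (pow_eq_one_iff_of_nonneg (norm_nonneg _) two_ne_zero).1 this

theorem lower_complex {K : ℝ} (hK0 : 0 ≤ K) (hK : K < 8 / π - 1) :
    ∃ (k : ℕ) (S B : Matrix (Fin k) (Fin k) ℂ), IsCorr ℂ S ∧ 0 ≤ quad ℂ B ∧
      K * quad ℂ B < ‖(Bᴴ * S).trace‖ := by
  obtain ⟨V, -, hV⟩ := norm_moment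
  obtain ⟨d, hd, h⟩ := exists_dim (V := V) (c := (K + 1) * π / 8)
    (by rw [lt_sub_iff_add_lt, lt_div_iff₀ pi_pos] at hK; linarith)
  obtain ⟨h1, h2⟩ := h (d + d) (by omega)
  have : Nonempty (Fin d) := ⟨⟨0, hd⟩⟩
  have hd' : (0:ℝ) < d := by exact_mod_cast hd
  let G : EuclideanSpace ℝ (Fin d ⊕ Fin d) → EuclideanSpace ℂ (Fin d) := fun ω =>
    WithLp.toLp 2 fun l => (ω (Sum.inl l) : ℂ) + (ω (Sum.inr l) : ℂ) * Complex.I
  have hG : ∀ ω, ‖G ω‖ = ‖ω‖ := fun ω => by
    rw [EuclideanSpace.norm_eq, EuclideanSpace.norm_eq, Fintype.sum_sum_type,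
      ← Finset.sum_add_distrib]
    simp only [Complex.sq_norm]
    simp [G, Complex.normSq_apply, sq]
  have hGc : Continuous G := by fun_prop
  have hR : ∀ ω, R (G ω).ofLp = ω := fun ω => by
    ext (l | l) <;> simp [R, G]
  refine measure_example (stdGaussian (EuclideanSpace ℝ (Fin d ⊕ Fin d))) hd G ?_
    (M := π / √(2 * π)) (t := √(d + d : ℕ) * (1 - V / (d + d : ℕ))) (by positivity)
    (mul_pos (sqrt_pos.2 (by push_cast; positivity)) h1) hK0
    (fun y hy => ?_) (by simpa [hG] using hV (Fin d ⊕ Fin d)) ?_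
  · refine Integrable.mono (g := id) IsGaussian.integrable_id hGc.aestronglyMeasurable
      (ae_of_all _ fun ω => (hG ω).le)
  · have hy' : ∑ l, ‖y l‖ ^ 2 = 1 := by rw [← EuclideanSpace.norm_sq_eq, hy, one_pow]
    rw [← norm_pr_moment (x := R y.ofLp) (y := R fun l => Complex.I * y l) (norm_R hy')
      (norm_R (by simpa using hy')) ?_]
    · refine le_of_eq (integral_congr_ae (ae_of_all _ fun ω => ?_))
      simp only
      congr 1
      conv_rhs => rw [← hR ω]
      apply Complex.ext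
      · simp only [pr, inner_R]; simp [PiLp.inner_apply, mul_comm]
      · simp only [pr, inner_R]; simp [PiLp.inner_apply, mul_comm, -Finset.sum_sub_distrib]
        rw [← Finset.sum_neg_distrib]
        refine Finset.sum_congr rfl fun l _ => by ring
    · rw [inner_R]; simp
      refine Finset.sum_eq_zero fun l _ => by ring
  · rw [div_pow, mul_pow, sq_sqrt (by positivity), sq_sqrt (by positivity)]
    have e1 : (K + 1) * (π ^ 2 / (2 * π) / 2) = 2 * ((K + 1) * π / 8) := by field_simp; ring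
    have e2 : ∀ s : ℝ, ((d + d : ℕ) : ℝ) * s / d = 2 * s := fun s => by
      push_cast; field_simp; ring
    rw [e1, e2]; linarith

end H92.Gr
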