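import Mathlib
import Pool.Agent.H92.Gr1

open MeasureTheory Real Set intervalIntegral
open scoped Nat

namespace H92.Gr

lemma hs_congr {M : Type*} [AddCommMonoid M] [TopologicalSpace M] {f g : ℕ → M}
    {a : M} (h : HasSum f a) (e : ∀ k, g k = f k) : HasSum g a := (funext e : g = f) ▸ h

noncomputable def bb (k : ℕ) : ℝ := ∏ i ∈ Finset.range k, (2 * (i:ℝ) + 1) / (2 * i + 2)

lemma bb_zero : bb 0 = 1 := by simp [bb]

lemma bb_succ (k : ℕ) : bb (k + 1) = bb k * ((2 * (k:ℝ) + 1) / (2 * k + 2)) :=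
  Finset.prod_range_succ _ _

lemma bb_pos (k : ℕ) : 0 < bb k := Finset.prod_pos fun i _ => by positivity

lemma bb_succ_le (k : ℕ) : bb (k + 1) ≤ bb k := by
  rw [bb_succ]
  refine mul_le_of_le_one_right (bb_pos k).le ?_
  rw [div_le_one (by positivity)]; linarith

lemma bb_anti : Antitone bb := antitone_nat_of_succ_le bb_succ_le

lemma bb_le_one (k : ℕ) : bb k ≤ 1 := bb_zero ▸ bb_anti (Nat.zero_le k)

lemma choose_half (n : ℕ) : Ring.choose ((1 / 2 : ℝ) + n - 1) n = bb n := by
  rw [← Ring.multichoose_eq]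
  have key : ∀ n : ℕ, (ascPochhammer ℕ n).smeval (1 / 2 : ℝ) = n ! * bb n := by
    intro n
    induction n with
    | zero => simp [bb_zero]
    | succ n ih =>
      rw [ascPochhammer_succ_right, Polynomial.smeval_mul, ih, bb_succ, Nat.factorial_succ]
      simp [Polynomial.smeval_add, Polynomial.smeval_natCast]
      field_simp; ring
  have := Ring.factorial_nsmul_multichoose_eq_ascPochhammer (1 / 2 : ℝ) n
  rw [key, nsmul_eq_mul] at this
  exact mul_left_cancel₀ (by positivity) this

lemma hasSum_bb {y : ℝ} (hy : |y| < 1) : HasSum (fun k => bb k * y ^ k) (1 / √(1 - y)) := by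
  have := (one_div_one_sub_rpow_hasFPowerSeriesOnBall_zero (1 / 2)).hasSum (y := y)
    (by simpa [enorm_eq_nnnorm, ← NNReal.coe_lt_one] using hy)
  simp only [choose_half, zero_add, FormalMultilinearSeries.ofScalars_apply_eq, smul_eq_mul]
    at this
  rwa [sqrt_eq_rpow]

lemma hasSum_arcsin {x : ℝ} (hx : |x| < 1) :
    HasSum (fun k => bb k / (2 * k + 1) * x ^ (2 * k + 1)) (arcsin x) := by
  have hm : ∀ t ∈ uIcc 0 x, |t| ≤ |x| := fun t ht => by
    simpa using abs_sub_left_of_mem_uIcc ht
  have hx2 : x ^ 2 < 1 := by rw [← sq_abs]; nlinarith [abs_nonneg x]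
  have h1 : ∫ t in (0:ℝ)..x, 1 / √(1 - t ^ 2) = arcsin x := by
    rw [integral_eq_sub_of_hasDerivAt (f := arcsin)]
    · simp
    · intro t ht
      have := abs_lt.1 ((hm t ht).trans_lt hx)
      exact hasDerivAt_arcsin this.1.ne' this.2.ne
    · refine ContinuousOn.intervalIntegrable (ContinuousOn.div continuousOn_const (by fun_prop) ?_)
      intro t ht
      have := (hm t ht).trans_lt hx
      have : t ^ 2 < 1 := by rw [← sq_abs]; nlinarith [abs_nonneg t]
      exact (sqrt_pos.2 (by linarith)).ne'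
  have h2 := hasSum_integral_of_dominated_convergence (a := 0) (b := x) (μ := volume)
    (F := fun k t => bb k * (t ^ 2) ^ k) (f := fun t => 1 / √(1 - t ^ 2))
    (fun k _ => (x ^ 2) ^ k) (fun k => Continuous.aestronglyMeasurable (by fun_prop))
    (fun k => ae_of_all _ fun t ht => ?_)
    (ae_of_all _ fun t _ => summable_geometric_of_lt_one (sq_nonneg x) hx2)
    intervalIntegrable_const (ae_of_all _ fun t ht => hasSum_bb ?_)
  · rw [h1] at h2
    refine hs_congr h2 fun k => Eq.symm ?_
    simp_rw [← pow_mul]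
    rw [intervalIntegral.integral_const_mul, integral_pow]
    push_cast; simp; ring
  · have h3 : t ^ 2 ≤ x ^ 2 := sq_le_sq.2 (hm t (uIoc_subset_uIcc ht))
    rw [norm_mul, Real.norm_of_nonneg (bb_pos k).le, Real.norm_of_nonneg (by positivity)]
    exact (mul_le_of_le_one_left (by positivity) (bb_le_one k)).trans
      (pow_le_pow_left₀ (sq_nonneg t) h3 k)
  · have h3 : t ^ 2 ≤ x ^ 2 := sq_le_sq.2 (hm t (uIoc_subset_uIcc ht))
    rw [abs_of_nonneg (sq_nonneg t)]; linarith

lemma int_cos_pow (n : ℕ) : ∫ t in (0:ℝ)..2 * π, cos t ^ (2 * n) = 2 * π * bb n := by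
  induction n with
  | zero => simp [bb_zero]
  | succ n ih =>
    rw [Nat.mul_succ, integral_cos_pow, ih, bb_succ]
    simp; ring

lemma continuous_w : Continuous w := by
  have : w = fun θ => (cos θ : ℂ) + (sin θ : ℝ) * Complex.I := by
    ext θ; apply Complex.ext <;> simp [w, -Complex.ofReal_cos, -Complex.ofReal_sin]
  rw [this]; fun_prop

lemma w_add (a b : ℝ) : w (a + b) = w a * w b := by
  apply Complex.ext <;> simp [w, cos_add, sin_add]; ring

lemma w_periodic (a : ℝ) : w (a + 2 * π) = w a := by simp [w]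

lemma norm_mul_w (z : ℂ) : (‖z‖ : ℂ) * w z.arg = z := by
  apply Complex.ext <;> simp [w, Complex.norm_mul_cos_arg, Complex.norm_mul_sin_arg]

lemma int_pow_w (k : ℕ) (z : ℂ) :
    ∫ t in (0:ℝ)..2 * π, (((cos t * z.re + sin t * z.im) ^ (2 * k + 1) : ℝ) : ℂ) * w t =
      (2 * π * bb (k + 1) : ℝ) * (z * ((‖z‖ ^ 2) ^ k : ℝ)) := by
  let F : ℝ → ℂ := fun t => ((cos t ^ (2 * k + 1) : ℝ) : ℂ) * w t
  have hF : Function.Periodic F (2 * π) := fun t => by simp only [F, w_periodic, cos_add_two_pi]
  have h1 : ∀ t, (((cos t * z.re + sin t * z.im) ^ (2 * k + 1) : ℝ) : ℂ) * w t =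
      (z * ((‖z‖ ^ 2) ^ k : ℝ)) * F (t - z.arg) := by
    intro t
    have e1 : cos t * z.re + sin t * z.im = ‖z‖ * cos (t - z.arg) := by
      rw [← Complex.norm_mul_cos_arg, ← Complex.norm_mul_sin_arg, cos_sub]; ring
    have e2 : w t = w z.arg * w (t - z.arg) := by rw [← w_add]; simp
    rw [e1, e2]
    simp only [F]
    have e4 := norm_mul_w z
    generalize w z.arg = a at *
    generalize w (t - z.arg) = b at *
    generalize cos (t - z.arg) = c at *
    generalize ‖z‖ = r at *
    rw [← e4]; push_cast; ring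
  simp_rw [h1]
  rw [intervalIntegral.integral_const_mul, integral_comp_sub_right F, mul_comm]
  congr 1
  have := hF.intervalIntegral_add_eq (0 - z.arg) 0
  rw [show 0 - z.arg + 2 * π = 2 * π - z.arg by ring, zero_add] at this
  rw [this, ← int_cos_pow]
  have e3 : F = fun t => ((cos t ^ (2 * (k + 1)) : ℝ) : ℂ) +
      ((sin t ^ (2 * 0 + 1) * cos t ^ (2 * k + 1) : ℝ) : ℂ) * Complex.I := by
    ext t
    apply Complex.ext <;> simp [F, w, -Complex.ofReal_cos, -Complex.ofReal_sin,
      -Complex.ofReal_pow] <;> ring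
  rw [e3, intervalIntegral.integral_add (Continuous.intervalIntegrable (by fun_prop) _ _)
    (Continuous.intervalIntegrable (by fun_prop) _ _), intervalIntegral.integral_mul_const,
    intervalIntegral.integral_ofReal, intervalIntegral.integral_ofReal,
    integral_sin_pow_odd_mul_cos_pow]
  simp

/-- Haagerup's function, times 4 -/
noncomputable def HH (z : ℂ) : ℂ :=
  ∫ t in (0:ℝ)..2 * π, ((arcsin (cos t * z.re + sin t * z.im) : ℝ) : ℂ) * w t

noncomputable def rr (k : ℕ) : ℝ := 2 * bb k * bb (k + 1) / (2 * k + 1)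

lemma abs_re_le (t : ℝ) (z : ℂ) : |cos t * z.re + sin t * z.im| ≤ ‖z‖ := by
  have := abs_real_inner_le_norm (w t) z
  rwa [inner_w', norm_w, one_mul] at this

lemma hasSum_HH {z : ℂ} (hz : ‖z‖ < 1) :
    HasSum (fun k => ((π * rr k : ℝ) : ℂ) * (z * ((‖z‖ ^ 2) ^ k : ℝ))) (HH z) := by
  have hw := continuous_w
  have h2 := hasSum_integral_of_dominated_convergence (a := 0) (b := 2 * π) (μ := volume)
    (F := fun k t => ((bb k / (2 * k + 1) : ℝ) : ℂ) *
      ((((cos t * z.re + sin t * z.im) ^ (2 * k + 1) : ℝ) : ℂ) * w t))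
    (f := fun t => ((arcsin (cos t * z.re + sin t * z.im) : ℝ) : ℂ) * w t)
    (fun k _ => ‖z‖ ^ k) (fun k => Continuous.aestronglyMeasurable (by fun_prop))
    (fun k => ae_of_all _ fun t _ => ?_)
    (ae_of_all _ fun t _ => summable_geometric_of_lt_one (norm_nonneg z) hz)
    intervalIntegrable_const (ae_of_all _ fun t _ => ?_)
  · refine hs_congr h2 fun k => Eq.symm ?_
    rw [intervalIntegral.integral_const_mul, int_pow_w, ← mul_assoc, ← Complex.ofReal_mul, rr]
    congr 2; ring
  · rw [norm_mul, norm_mul, norm_w, mul_one, Complex.norm_real, Complex.norm_real,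
      Real.norm_of_nonneg (by have := bb_pos k; positivity), norm_pow]
    have a1 : bb k / (2 * k + 1) ≤ 1 := by
      rw [div_le_one (by positivity)]; linarith [bb_le_one k, k.cast_nonneg (α := ℝ)]
    refine (mul_le_of_le_one_left (by positivity) a1).trans ?_
    exact (pow_le_pow_left₀ (norm_nonneg _) (abs_re_le t z) _).trans
      (pow_le_pow_of_le_one (norm_nonneg _) hz.le (by omega))
  · have := (Complex.hasSum_ofReal.2 (hasSum_arcsin ((abs_re_le t z).trans_lt hz))).mul_right (w t)
    refine hs_congr this fun k => ?_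
    push_cast; ring

end H92.Gr
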