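import Mathlib
import Pool.Agent.H92.Gr6
import Pool.Agent.H92.Gr7

open MeasureTheory ProbabilityTheory Real Set
open scoped RealInnerProductSpace ComplexConjugate

namespace H92.Gr

universe u

variable {m n : ℕ}

lemma norm_int_le {s : ℝ → ℝ} (hs : Measurable s) (h1 : ∀ t, |s t| ≤ 1) :
    ‖∫ t in Ioc (0:ℝ) (2 * π), (s t : ℂ) * w t‖ ≤ 4 := by
  set z := ∫ t in Ioc (0:ℝ) (2 * π), (s t : ℂ) * w t with hz
  have hi : Integrable (fun t => (s t : ℂ) * w t) (volume.restrict (Ioc (0:ℝ) (2 * π))) := by
    refine Integrable.of_bound (C := 1) ((Complex.measurable_ofReal.comp hs).mul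
      continuous_w.measurable).aestronglyMeasurable (ae_of_all _ fun t => ?_)
    simpa [norm_w] using h1 t
  have h2 : ‖z‖ ^ 2 ≤ 4 * ‖z‖ := by
    rw [← int_abs_re, intervalIntegral.integral_of_le (by positivity),
      ← real_inner_self_eq_norm_sq]
    conv_lhs => rw [hz, ← integral_inner hi, ← hz]
    refine integral_mono (hi.const_inner _) (Continuous.integrableOn_Ioc (by fun_prop))
      fun t => ?_
    have : ⟪z, (s t : ℂ) * w t⟫ = s t * (cos t * z.re + sin t * z.im) := by
      rw [Complex.inner]; simp [w]; ring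
    simp only [this]
    refine (le_abs_self _).trans ?_
    rw [abs_mul]
    exact mul_le_of_le_one_left (abs_nonneg _) (h1 t)
  rcases (norm_nonneg z).eq_or_lt with h | h
  · rw [← h]; norm_num
  · nlinarith

lemma conj_w (a : ℝ) : conj (w a) = w (-a) := by
  apply Complex.ext <;> simp [w]

lemma round_complex (A : Matrix (Fin m) (Fin n) ℂ) {X : Fin m → Fin n → ℂ} (h : Cor 1 X)
    (hX : ∀ i j, ‖X i j‖ < 1) : ‖∑ i, ∑ j, A i j * HH (X i j)‖ ≤ 4 * bil ℂ A := by
  obtain ⟨ι, _, u, v, hu, hv, h⟩ := h.unit
  let ρ : (ι → ℂ) → ℝ → EuclideanSpace ℝ (ι ⊕ ι) := fun y θ => R fun l => w θ * y l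
  have hρc : ∀ y, Continuous (ρ y) := fun y => by
    have : ρ y = fun θ => cos θ • R y + sin θ • R fun l => Complex.I * y l := by
      ext θ (l | l) <;> simp [ρ, R, w] <;> ring
    rw [this]; fun_prop
  have hρ1 : ∀ y, ∑ l, ‖y l‖ ^ 2 = 1 → ∀ θ, ‖ρ y θ‖ = 1 := fun y hy θ =>
    norm_R (by simpa [norm_w] using hy)
  have hρi : ∀ i j θ φ, ⟪ρ (u i) θ, ρ (v j) φ⟫ =
      cos (θ - φ) * (X i j).re + sin (θ - φ) * (X i j).im := fun i j θ φ => by
    have : ∑ l, conj (w θ * u i l) * (w φ * v j l) = conj (w (θ - φ)) * X i j := by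
      rw [h, Finset.mul_sum]
      refine Finset.sum_congr rfl fun l _ => ?_
      rw [map_mul, conj_w, conj_w, show -(θ - φ) = -θ + φ by ring, w_add]; ring
    simp only [ρ]
    rw [inner_R, this]; simp [w]
  set ν := volume.restrict (Ioc (0:ℝ) (2 * π)) with hν
  set γ := stdGaussian (EuclideanSpace ℝ (ι ⊕ ι))
  let P : (ι → ℂ) → EuclideanSpace ℝ (ι ⊕ ι) → ℂ := fun y g =>
    ∫ θ, ((sg ⟪ρ y θ, g⟫ : ℝ) : ℂ) * w θ ∂ν
  have hP : ∀ y g, ‖P y g‖ ≤ 4 := fun y g =>
    norm_int_le (measurable_sg.comp (by have := hρc y; fun_prop)) fun t => (abs_sg _).le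
  have hw := continuous_w
  have key : ∀ i j, Integrable (fun g => P (u i) g * conj (P (v j) g)) γ ∧
      ∫ g, P (u i) g * conj (P (v j) g) ∂γ = 4 * HH (X i j) := by
    intro i j
    let F : EuclideanSpace ℝ (ι ⊕ ι) → ℝ × ℝ → ℂ := fun g p =>
      ((sg ⟪ρ (u i) p.1, g⟫ * sg ⟪ρ (v j) p.2, g⟫ : ℝ) : ℂ) * w (p.1 - p.2)
    have e1 : ∀ g, P (u i) g * conj (P (v j) g) = ∫ p, F g p ∂(ν.prod ν) := by
      intro g
      simp only [P]
      rw [← integral_conj, ← integral_prod_mul]
      congr 1; ext p
      simp only [F, map_mul, Complex.conj_ofReal, conj_w, sub_eq_add_neg, w_add]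
      push_cast; ring
    have hF : Integrable (Function.uncurry F) (γ.prod (ν.prod ν)) := by
      have c1 := hρc (u i)
      have c2 := hρc (v j)
      refine Integrable.of_bound (C := 1) (Measurable.aestronglyMeasurable ?_)
        (ae_of_all _ fun p => ?_)
      · refine (Complex.measurable_ofReal.comp ((measurable_sg.comp ?_).mul
          (measurable_sg.comp ?_))).mul ?_ <;>
        exact Continuous.measurable (by fun_prop)
      · simp [F, Function.uncurry, norm_w, abs_sg]
    simp_rw [e1]
    refine ⟨hF.integral_prod_left, ?_⟩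
    rw [integral_integral_swap hF]
    let G : ℝ → ℂ := fun t => ((arcsin (cos t * (X i j).re + sin t * (X i j).im) : ℝ) : ℂ) * w t
    have hG : Function.Periodic G (2 * π) := fun t => by
      simp only [G, w_periodic, cos_add_two_pi, sin_add_two_pi]
    have hGc : Continuous G := by
      have := continuous_arcsin
      fun_prop
    have e2 : ∀ p : ℝ × ℝ, ∫ g, F g p ∂γ = ((2 / π : ℝ) : ℂ) * G (p.1 - p.2) := by
      intro p
      simp only [F, G]
      rw [integral_mul_const, integral_complex_ofReal]
      have := J_arcsin (hρ1 _ (hu i) p.1) (hρ1 _ (hv j) p.2)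
        (by rw [hρi]; exact (abs_re_le _ _).trans_lt (hX i j))
      rw [J, hρi] at this
      rw [this]; push_cast; ring
    simp_rw [e2]
    rw [integral_const_mul, integral_prod_symm]
    · have e3 : ∀ φ, ∫ θ, G (θ - φ) ∂ν = HH (X i j) := by
        intro φ
        rw [hν, ← intervalIntegral.integral_of_le (by positivity),
          intervalIntegral.integral_comp_sub_right G]
        have := hG.intervalIntegral_add_eq (0 - φ) 0
        rw [show 0 - φ + 2 * π = 2 * π - φ by ring, zero_add] at this
        exact this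
      simp_rw [e3]
      have : (π : ℂ) ≠ 0 := by exact_mod_cast pi_pos.ne'
      simp [hν, pi_pos.le]; field_simp; ring
    · refine Integrable.of_bound (C := π / 2) (Continuous.aestronglyMeasurable (by fun_prop))
        (ae_of_all _ fun p => ?_)
      simp only [G, norm_mul, norm_w, mul_one, Complex.norm_real, Real.norm_eq_abs]
      exact abs_le.2 ⟨neg_pi_div_two_le_arcsin _, arcsin_le_pi_div_two _⟩
  have e : ∑ i, ∑ j, A i j * HH (X i j) =
      ∫ g, 4 * ∑ i, ∑ j, A i j * (P (u i) g / 4) * (conj (P (v j) g) / 4) ∂γ := by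
    have hi : ∀ i j, Integrable (fun g => A i j * (P (u i) g / 4) * (conj (P (v j) g) / 4)) γ :=
      fun i j => by
        refine (((key i j).1.const_mul (A i j)).div_const 16).congr (ae_of_all _ fun g => ?_)
        simp only; ring
    rw [integral_const_mul, integral_finsetSum _ fun i _ => integrable_finsetSum _ fun j _ => hi i j,
      Finset.mul_sum]
    refine Finset.sum_congr rfl fun i _ => ?_
    rw [integral_finsetSum _ fun j _ => hi i j, Finset.mul_sum]
    refine Finset.sum_congr rfl fun j _ => ?_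
    have : (fun g => A i j * (P (u i) g / 4) * (conj (P (v j) g) / 4)) =
        fun g => A i j / 16 * (P (u i) g * conj (P (v j) g)) := by ext g; ring
    rw [this, integral_const_mul, (key i j).2]; ring
  rw [e]
  have := norm_integral_le_of_norm_le_const (μ := γ) (C := 4 * bil ℂ A)
    (f := fun g => 4 * ∑ i, ∑ j, A i j * (P (u i) g / 4) * (conj (P (v j) g) / 4))
    (ae_of_all _ fun g => by
      rw [norm_mul]
      have := le_bil A (fun i => P (u i) g / 4) (fun j => conj (P (v j) g) / 4)
        (fun i => by simpa [div_le_one] using hP _ g) (fun j => by simpa [div_le_one] using hP _ g)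
      simpa using this)
  simpa using this

noncomputable def qq : Fin 19 → ℝ := ![2535 / 2097152, 23005125 / 68719476736, 1942098907375 / 4503599627370496,
    59335358935755875 / 295147905179352825856, 769640224932515578125 /
    9671406556917033397649408, 9701835471023461663390625 / 316912650057057350374175801344,
    -175235549001589738314334375 / 316912650057057350374175801344, 71146604476449400787109375
    / 158456325028528675187087900672, -28176591609728733595703125 /
    158456325028528675187087900672, 14013099870907835998046875 /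
    316912650057057350374175801344, -2411914558888595126953125 /
    316912650057057350374175801344, 75249147595281064453125 / 79228162514264337593543950336,
    -6956024253091005859375 / 79228162514264337593543950336, 1914671621599365234375 /
    316912650057057350374175801344, -97155934149462890625 / 316912650057057350374175801344,
    1770070089990234375 / 158456325028528675187087900672, -43912276611328125 /
    158456325028528675187087900672, 1330675048828125 / 316912650057057350374175801344,
    -9305419921875 / 316912650057057350374175801344]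

lemma qq_sum : ∑ j, |qq j| ≤ 1 / 250 := by
  simp only [qq, Fin.sum_univ_succ, Matrix.cons_val_zero, Matrix.cons_val_succ, Fin.sum_univ_zero]
  norm_num [abs_div]

lemma qq_poly (s : ℝ) : ∑ k ∈ Finset.range 7, rr k * ((55 / 64 - 5 / 64 * s) *
    ((55 / 64 - 5 / 64 * s) ^ 2 * s) ^ k) = 55 / 64 + ∑ j, qq j * s ^ ((j:ℕ) + 1) := by
  simp only [qq, Fin.sum_univ_succ, Matrix.cons_val_zero, Matrix.cons_val_succ, Fin.sum_univ_zero,
    Finset.sum_range_succ, rr, bb, Finset.prod_range_succ, Finset.range_zero, Finset.sum_empty,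
    Finset.prod_empty, Fin.val_succ, Fin.val_zero]
  push_cast
  ring

lemma rr_nonneg (k : ℕ) : 0 ≤ rr k := by
  have := bb_pos k; have := bb_pos (k + 1); unfold rr; positivity

lemma rr_le (k : ℕ) : rr (k + 7) ≤ 11 / 2000 := by
  have h : rr (k + 7) ≤ rr 7 := by
    unfold rr
    have := bb_pos 7; have := bb_pos (k + 7 + 1)
    have a1 : bb (k + 7) ≤ bb 7 := bb_anti (by omega)
    have a2 : bb (k + 7 + 1) ≤ bb (7 + 1) := bb_anti (by omega)
    refine div_le_div₀ (by have := bb_pos (7 + 1); positivity) (by gcongr) (by positivity) ?_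
    push_cast; linarith [k.cast_nonneg (α := ℝ)]
  refine h.trans ?_
  simp only [rr, bb, Finset.prod_range_succ, Finset.range_zero, Finset.prod_empty]
  norm_num

lemma cor_sq {r : ℝ} {X : Fin m → Fin n → ℂ} (h : Cor r X) (k : ℕ) :
    Cor (r * (r * r) ^ k) fun i j => X i j * (((‖X i j‖ ^ 2) ^ k : ℝ) : ℂ) :=
  (h.mul ((h.mul h.conj).pow k)).congr fun i j => by
    rw [Complex.mul_conj']; push_cast; ring

lemma gam_complex (A : Matrix (Fin m) (Fin n) ℂ) : gam A ≤ 24 / (5 * π) * bil ℂ A := by
  have hg := gam_nonneg A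
  have main : gam A ≤ (4 * bil ℂ A + π * (1 / 250 + 7 / 400) * gam A) / (π * (55 / 64)) := by
    refine gam_le A fun X hX => ?_
    let Y : Fin m → Fin n → ℂ := fun i j => ((55 / 64 - 5 / 64 * ‖X i j‖ ^ 2 : ℝ) : ℂ) * X i j
    have hY : Cor (15 / 16) Y := by
      refine (((hX.smul (55 / 64)).add ((cor_sq hX 1).smul (-5 / 64))).congr
        fun i j => ?_).mono (by simp; norm_num)
      simp only [Y]; push_cast; ring
    have h1 := round_complex A (hY.mono (by norm_num))
      fun i j => (hY.norm_le i j).trans_lt (by norm_num)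
    let f : ℕ → ℂ := fun k =>
      ((π * rr k : ℝ) : ℂ) * ∑ i, ∑ j, A i j * (Y i j * ((‖Y i j‖ ^ 2) ^ k : ℝ))
    have h2 : HasSum f (∑ i, ∑ j, A i j * HH (Y i j)) := by
      refine hs_congr (hasSum_sum fun i _ => hasSum_sum fun j _ =>
        (hasSum_HH ((hY.norm_le i j).trans_lt (by norm_num))).mul_left (A i j)) fun k => ?_
      simp only [f, Finset.mul_sum]
      exact Finset.sum_congr rfl fun i _ => Finset.sum_congr rfl fun j _ => by ring
    have h3 : ‖∑ i, ∑ j, A i j * HH (Y i j) - ∑ k ∈ Finset.range 7, f k‖ ≤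
        π * (7 / 400) * gam A := by
      have g1 := (hasSum_geometric_of_lt_one (r := 15 / 16 * (15 / 16)) (by norm_num)
        (by norm_num)).mul_left (π * (11 / 2000) * (15 / 16 * (15 / 16 * (15 / 16)) ^ 7) * gam A)
      refine (((hasSum_nat_add_iff' 7).2 h2).norm_le_of_bounded g1 fun k => ?_).trans ?_
      · simp only [f]
        rw [norm_mul, Complex.norm_real, Real.norm_of_nonneg (mul_nonneg pi_pos.le (rr_nonneg _))]
        have a1 := le_mul_gam A (by positivity) (cor_sq hY (k + 7))
        calc _ ≤ (π * (11 / 2000)) * (15 / 16 * (15 / 16 * (15 / 16)) ^ (k + 7) * gam A) := by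
              gcongr; exact rr_le k
          _ = _ := by ring
      · have : 0 ≤ π * gam A := by positivity
        norm_num; nlinarith
    have h4 : ∑ k ∈ Finset.range 7, f k = π * (55 / 64 * ∑ i, ∑ j, A i j * X i j +
        ∑ l : Fin 19, qq l * ∑ i, ∑ j, A i j * (X i j * ((‖X i j‖ ^ 2) ^ ((l:ℕ) + 1) : ℝ))) := by
      simp only [f, Finset.mul_sum]
      rw [Finset.sum_comm, Finset.sum_comm (s := (Finset.univ : Finset (Fin 19))),
        ← Finset.sum_add_distrib, Finset.mul_sum]
      refine Finset.sum_congr rfl fun i _ => ?_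
      rw [Finset.sum_comm, Finset.sum_comm (s := (Finset.univ : Finset (Fin 19))),
        ← Finset.sum_add_distrib, Finset.mul_sum]
      refine Finset.sum_congr rfl fun j _ => ?_
      have e := congrArg (fun r : ℝ => (π : ℂ) * A i j * X i j * (r : ℂ)) (qq_poly (‖X i j‖ ^ 2))
      simp only [Complex.ofReal_add, Complex.ofReal_sum, Finset.mul_sum, mul_add] at e
      rw [mul_add, Finset.mul_sum]
      convert e using 2
      · simp only [Y, norm_mul, Complex.norm_real, Real.norm_eq_abs, mul_pow, sq_abs]
        push_cast; ring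
      · push_cast; ring
      · refine Finset.sum_congr rfl fun l _ => ?_
        push_cast; ring
    have h5 : ‖∑ l : Fin 19, (qq l : ℂ) *
        ∑ i, ∑ j, A i j * (X i j * ((‖X i j‖ ^ 2) ^ ((l:ℕ) + 1) : ℝ))‖ ≤ 1 / 250 * gam A := by
      refine (norm_sum_le _ _).trans (le_trans ?_ (mul_le_mul_of_nonneg_right qq_sum hg))
      rw [Finset.sum_mul]
      refine Finset.sum_le_sum fun l _ => ?_
      rw [norm_mul, Complex.norm_real, Real.norm_eq_abs]
      gcongr
      exact le_gam A ((cor_sq hX _).mono (by simp))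
    rw [h4] at h3
    rw [le_div_iff₀ (by positivity)]
    set a := ∑ i, ∑ j, A i j * X i j
    set b := ∑ l : Fin 19, (qq l : ℂ) *
        ∑ i, ∑ j, A i j * (X i j * ((‖X i j‖ ^ 2) ^ ((l:ℕ) + 1) : ℝ))
    set c := ∑ i, ∑ j, A i j * HH (Y i j)
    have e : (π : ℂ) * (55 / 64) * a = c - (c - π * (55 / 64 * a + b)) - π * b := by ring
    have h6 : ‖(π : ℂ) * (55 / 64) * a‖ ≤ ‖c‖ + ‖c - π * (55 / 64 * a + b)‖ + ‖π * b‖ := by
      rw [e]; exact (norm_sub_le _ _).trans (by gcongr; exact norm_sub_le _ _)
    simp only [norm_mul, Complex.norm_real, Real.norm_of_nonneg pi_pos.le, norm_div,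
      Complex.norm_ofNat] at h6
    nlinarith [mul_le_mul_of_nonneg_left h5 pi_pos.le]
  rw [le_div_iff₀ (by positivity)] at main
  rw [div_mul_eq_mul_div, le_div_iff₀ (by positivity)]
  nlinarith [mul_nonneg pi_pos.le hg]

theorem KG_complex : KG.{u} ℂ ≤ 24 / (5 * π) := KG_le (by positivity) fun _ _ A => gam_complex A

end H92.Gr
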