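import Mathlib

set_option autoImplicit false
set_option linter.unusedSectionVars false
open MeasureTheory Set AddCircle Filter Topology
open scoped ENNReal

namespace Pool.Agent.H92.HardyDense

variable {T : ℝ} [hT : Fact (0 < T)] {p : ℝ≥0∞} [Fact (1 ≤ p)]

lemma integrable_Lp (f : Lp ℂ p (@haarAddCircle T hT)) : Integrable f (@haarAddCircle T hT) :=
  (Lp.memLp f).integrable Fact.out

lemma int_norm_le (f : Lp ℂ p (@haarAddCircle T hT)) :
    ∫ x, ‖f x‖ ∂(@haarAddCircle T hT) ≤ ‖f‖ := by
  rw [integral_norm_eq_lintegral_enorm (Lp.aestronglyMeasurable f), ← eLpNorm_one_eq_lintegral_enorm,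
    Lp.norm_def]
  exact ENNReal.toReal_mono (Lp.eLpNorm_ne_top f)
    (eLpNorm_le_eLpNorm_of_exponent_le Fact.out (Lp.aestronglyMeasurable f))

lemma fourier_norm' (n : ℤ) (x : AddCircle T) : ‖fourier n x‖ = 1 := by
  rw [fourier_apply]; exact Circle.norm_coe _

/-- Fourier coefficient as a continuous functional -/
noncomputable def coefL (n : ℤ) : Lp ℂ p (@haarAddCircle T hT) →L[ℂ] ℂ :=
  LinearMap.mkContinuous
    { toFun := fun f => fourierCoeff f n
      map_add' := by
        intro f g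
        rw [fourierCoeff_congr_ae (Lp.coeFn_add f g),
          fourierCoeff.add (integrable_Lp f) (integrable_Lp g)]
        rfl
      map_smul' := by
        intro c f
        rw [fourierCoeff_congr_ae (Lp.coeFn_smul c f), fourierCoeff.const_smul]
        rfl } 1 (by
      intro f
      simp only [LinearMap.coe_mk, AddHom.coe_mk, one_mul]
      unfold fourierCoeff
      refine (norm_integral_le_integral_norm _).trans (le_trans (le_of_eq ?_) (int_norm_le f))
      congr 1; ext x
      rw [norm_smul, fourier_norm', one_mul])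

lemma coefL_apply (n : ℤ) (f : Lp ℂ p (@haarAddCircle T hT)) : coefL n f = fourierCoeff f n := rfl

/-- translation as a continuous map -/
def tr (t : AddCircle T) : C(AddCircle T, AddCircle T) := ⟨fun x => x + t, by fun_prop⟩

lemma tr_mp (t : AddCircle T) : MeasurePreserving (tr t) (@haarAddCircle T hT) haarAddCircle :=
  measurePreserving_add_right _ t

lemma tr_cont : Continuous (tr : AddCircle T → C(AddCircle T, AddCircle T)) := by
  refine ContinuousMap.continuous_of_continuous_uncurry _ ?_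
  exact continuous_snd.add continuous_fst

noncomputable def τ (t : AddCircle T) :
    Lp ℂ p (@haarAddCircle T hT) →ₗᵢ[ℂ] Lp ℂ p (@haarAddCircle T hT) :=
  Lp.compMeasurePreservingₗᵢ ℂ (tr t) (tr_mp t)

lemma τ_cont (hp : p ≠ ∞) (f : Lp ℂ p (@haarAddCircle T hT)) : Continuous (fun t => τ t f) :=
  Continuous.compMeasurePreservingLp continuous_const tr_cont tr_mp hp

lemma τ_coe (t : AddCircle T) (f : Lp ℂ p (@haarAddCircle T hT)) :
    τ t f =ᵐ[haarAddCircle] f ∘ tr t := Lp.coeFn_compMeasurePreserving f (tr_mp t)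

lemma τ_zero (f : Lp ℂ p (@haarAddCircle T hT)) : τ 0 f = f := by
  refine Lp.ext ?_
  filter_upwards [τ_coe 0 f] with x hx
  rw [hx]; simp [tr]

lemma τ_fourier (t : AddCircle T) (n : ℤ) :
    τ t (@fourierLp T hT p _ n) = fourier n t • fourierLp p n := by
  refine Lp.ext ?_
  have h1 := (tr_mp t).quasiMeasurePreserving.ae_eq_comp (coeFn_fourierLp (T := T) p n)
  filter_upwards [τ_coe t (fourierLp p n), h1, Lp.coeFn_smul (fourier n t) (fourierLp (T := T) p n),
    coeFn_fourierLp (T := T) p n] with x h2 h3 h4 h5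
  rw [h2, h3, h4, Pi.smul_apply, h5]
  simp only [Function.comp, tr, ContinuousMap.coe_mk, fourier_apply, smul_add, toCircle_add,
    Circle.coe_mul, smul_eq_mul]
  ring

noncomputable def ψ (hp : p ≠ ∞) (ℓ : Lp ℂ p (@haarAddCircle T hT) →L[ℂ] ℂ)
    (f : Lp ℂ p (@haarAddCircle T hT)) : C(AddCircle T, ℂ) :=
  ⟨fun t => ℓ (τ t f), ℓ.continuous.comp (τ_cont hp f)⟩

noncomputable def ψL (hp : p ≠ ∞) (ℓ : Lp ℂ p (@haarAddCircle T hT) →L[ℂ] ℂ) :
    Lp ℂ p (@haarAddCircle T hT) →L[ℂ] C(AddCircle T, ℂ) :=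
  LinearMap.mkContinuous
    { toFun := ψ hp ℓ
      map_add' := by intro f g; ext t; simp [ψ]
      map_smul' := by intro c f; ext t; simp [ψ] } ‖ℓ‖ (by
      intro f
      refine (ContinuousMap.norm_le _ (by positivity)).mpr fun t => ?_
      have := ℓ.le_opNorm (τ t f)
      rwa [LinearIsometry.norm_map] at this)

lemma coef_ψ (hp : p ≠ ∞) (ℓ : Lp ℂ p (@haarAddCircle T hT) →L[ℂ] ℂ)
    (f : Lp ℂ p (@haarAddCircle T hT)) (k : ℤ) :
    fourierCoeff (ψ hp ℓ f) k = fourierCoeff f k * ℓ (fourierLp p k) := by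
  let A : Lp ℂ p (@haarAddCircle T hT) →L[ℂ] ℂ :=
    (coefL (p := p) k).comp ((ContinuousMap.toLp p haarAddCircle ℂ).comp (ψL hp ℓ))
  let B : Lp ℂ p (@haarAddCircle T hT) →L[ℂ] ℂ := ℓ (fourierLp p k) • coefL k
  have hA : ∀ f, A f = fourierCoeff (ψ hp ℓ f) k := fun f => by
    rw [← fourierCoeff_congr_ae (ContinuousMap.coeFn_toLp (p := p) (𝕜 := ℂ) haarAddCircle (ψ hp ℓ f))]
    rfl
  have hB : ∀ f, B f = fourierCoeff f k * ℓ (fourierLp p k) := fun f => by
    simp [B, coefL_apply, mul_comm]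
  have : A = B := by
    refine ContinuousLinearMap.ext_on (s := range (@fourierLp T hT p _)) ?_ ?_
    · rw [Submodule.dense_iff_topologicalClosure_eq_top]
      exact span_fourierLp_closure_eq_top hp
    · rintro _ ⟨n, rfl⟩
      rw [hA, hB, fourierCoeff_congr_ae (coeFn_fourierLp p n)]
      have : (ψ hp ℓ (fourierLp p n) : AddCircle T → ℂ) =
          ℓ (fourierLp p n) • (fourier n : AddCircle T → ℂ) := by
        ext t
        simp [ψ, τ_fourier, mul_comm]
      rw [this, fourierCoeff.const_smul, fourierCoeff_fourier]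
      by_cases h : k = n
      · subst h; simp
      · simp [h]
  rw [← hA, ← hB, this]

theorem mem_closure (hp : p ≠ ∞) (f : Lp ℂ p (@haarAddCircle T hT))
    (hf : ∀ n < 0, fourierCoeff f n = 0) :
    f ∈ (Submodule.span ℂ (range fun n : ℕ => @fourierLp T hT p _ (n:ℤ))).topologicalClosure := by
  set V := (Submodule.span ℂ (range fun n : ℕ => @fourierLp T hT p _ (n:ℤ))).topologicalClosure
  have hV : IsClosed (V : Set (Lp ℂ p (@haarAddCircle T hT))) := Submodule.isClosed_topologicalClosure _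
  rw [← Submodule.Quotient.mk_eq_zero]
  refine SeparatingDual.eq_zero_of_forall_dual_eq_zero (R := ℂ) fun ℓ' => ?_
  let ℓ := ℓ'.comp V.mkQL
  have h0 : fourierCoeff (ψ hp ℓ f) = 0 := by
    ext k
    rw [coef_ψ]
    rcases lt_or_ge k 0 with hk | hk
    · simp [hf k hk]
    · have : fourierLp p k ∈ V := by
        refine Submodule.le_topologicalClosure _ (Submodule.subset_span ⟨k.toNat, ?_⟩)
        simp [Int.toNat_of_nonneg hk]
      have h2 : V.mkQ (fourierLp p k) = 0 := (Submodule.Quotient.mk_eq_zero V).mpr this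
      simp [ℓ, h2]
  have h1 := has_pointwise_sum_fourier_series_of_summable (f := ψ hp ℓ f)
    (by rw [h0]; exact summable_zero) 0
  rw [h0] at h1
  simp only [Pi.zero_apply, zero_smul] at h1
  have h2 := h1.unique hasSum_zero
  simpa [ψ, τ_zero, ℓ] using h2

end Pool.Agent.H92.HardyDense
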