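import Pool.Agent.H92.IdDefs

open Filter Topology Set InnerProductSpace
open scoped OnePoint

namespace Pool.Agent.H92.Id

variable {H : Type} [NormedAddCommGroup H] [InnerProductSpace ℝ H] [CompleteSpace H]

section
variable {W : Type} [NormedAddCommGroup W] [NormedSpace ℝ W] {s t : Set W}

theorem cs_sub {x : W} (h : x ∈ s) : x ∈ cspan s :=
  Submodule.le_topologicalClosure _ (Submodule.subset_span h)

theorem cs_mono (h : s ⊆ t) : cspan s ≤ cspan t :=
  Submodule.topologicalClosure_mono (Submodule.span_mono h)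

theorem cs_ex {x : W} (h : x ∈ cspan s) {ε : ℝ} (hε : 0 < ε) :
    ∃ v ∈ Submodule.span ℝ s, ‖x - v‖ < ε := by
  obtain ⟨v, hv, h⟩ := Metric.mem_closure_iff.mp h ε hε
  exact ⟨v, hv, by rwa [← dist_eq_norm]⟩

theorem cs_tsum [CompleteSpace W] {a : ℕ → W} (h : ∀ n, ‖a n‖ ≤ (1 / 2) ^ n) (ha : ∀ n, a n ∈ s)
    {V : Type} [NormedAddCommGroup V] [NormedSpace ℝ V] :
    ∃ f ∈ cspan s, ∀ L : W →ₗ[ℝ] V, (∀ w, ‖L w‖ ≤ ‖w‖) → HasSum (fun n => L (a n)) (L f) :=
  have sa := (Summable.of_norm_bounded summable_geometric_two h).hasSum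
  ⟨_, (Submodule.isClosed_topologicalClosure _).mem_of_tendsto sa
    (.of_forall fun _ => Submodule.sum_mem _ fun n _ => cs_sub (ha n)), fun L hL =>
    sa.map L (AddMonoidHomClass.continuous_of_bound L 1 fun w => by rw [one_mul]; exact hL w)⟩

end

abbrev Cv : Type := C(OnePoint ℕ, ℝ)

noncomputable def val (k : OnePoint ℕ) : (StrongDual ℝ H →L[ℝ] Cv) →ₗ[ℝ] H where
  toFun g := (toDual ℝ H).symm ((ContinuousMap.evalCLM ℝ k).comp (g.comp (innerSL ℝ)))
  map_add' _ _ := by rw [← map_add]; rfl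
  map_smul' _ _ := by rw [RingHom.id_apply, ← map_smul]; rfl

theorem val_inner (k : OnePoint ℕ) (g : StrongDual ℝ H →L[ℝ] Cv) (x : H) :
    inner ℝ (val k g) x = g (innerSL ℝ x) k := toDual_symm_apply

theorem val_le (k : OnePoint ℕ) (g : StrongDual ℝ H →L[ℝ] Cv) : ‖val k g‖ ≤ ‖g‖ := by
  have h := val_inner k g (val k g)
  have h2 := ((g (innerSL ℝ (val k g))).norm_coe_le_norm k).trans (g.le_opNorm _)
  rw [← h, innerSL_apply_norm, real_inner_self_eq_norm_mul_norm,
    Real.norm_of_nonneg (by positivity)] at h2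
  rcases (norm_nonneg (val k g)).eq_or_lt with h0 | h0
  · rw [← h0]; exact g.opNorm_nonneg
  · exact le_of_mul_le_mul_right h2 h0

theorem le_of_val {g : StrongDual ℝ H →L[ℝ] Cv} {C : ℝ} (h : ∀ k, ‖val k g‖ ^ 2 ≤ C) :
    ‖g‖ ^ 2 ≤ C := by
  have c0 : 0 ≤ C := (sq_nonneg _).trans (h ∞)
  refine (Real.le_sqrt (norm_nonneg _) c0).mp (g.opNorm_le_bound (Real.sqrt_nonneg _) fun φ => ?_)
  obtain ⟨x, rfl⟩ := (toDual ℝ H).surjective φ
  refine (ContinuousMap.norm_le _ (by positivity)).mpr fun k => ?_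
  rw [LinearIsometryEquiv.norm_map]
  exact ((congrArg _ (val_inner k g x)).symm.trans_le (norm_inner_le_norm _ _)).trans
    (mul_le_mul_of_nonneg_right (Real.le_sqrt_of_sq_le (h k)) (norm_nonneg _))

theorem val_tens (k : OnePoint ℕ) (x : H) (z : Cv) : val k (tens x z) = z k • x :=
  ext_inner_right ℝ fun v => by
    rw [val_inner, inner_smul_left, real_inner_comm]
    simp [tens, mul_comm]

theorem inj_val {Y : Submodule ℝ H} (hY : IsClosed (Y : Set H)) {g : StrongDual ℝ H →L[ℝ] Cv}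
    (hg : g ∈ Inj Y Cv) :
    (∀ k, val k g ∈ Y) ∧ Tendsto (fun n : ℕ => val n g) atTop (𝓝 (val ∞ g)) := by
  have sp : ∀ v ∈ Submodule.span ℝ {u | ∃ y ∈ Y, ∃ z : Cv, u = tens y z},
      (∀ k, val k v ∈ Y) ∧ Tendsto (fun n : ℕ => val n v) atTop (𝓝 (val ∞ v)) := by
    intro v hv
    induction hv using Submodule.span_induction with
    | mem v h =>
      obtain ⟨y, hy, z, rfl⟩ := h
      simp only [val_tens]
      exact ⟨fun k => Y.smul_mem _ hy,
        ((OnePoint.continuous_iff_from_nat z).mp z.continuous).smul_const y⟩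
    | zero => simp
    | add _ _ _ _ a b =>
      simp only [map_add]; exact ⟨fun k => Y.add_mem (a.1 k) (b.1 k), a.2.add b.2⟩
    | smul c _ _ a =>
      simp only [map_smul]; exact ⟨fun k => Y.smul_mem _ (a.1 k), a.2.const_smul c⟩
  refine ⟨fun k => hY.closure_subset (Metric.mem_closure_iff.mpr fun ε hε => ?_),
    Metric.tendsto_atTop.mpr fun ε hε => ?_⟩
  · obtain ⟨v, hv, h⟩ := cs_ex hg hε
    exact ⟨_, (sp v hv).1 k, by rw [dist_eq_norm, ← map_sub]; exact (val_le _ _).trans_lt h⟩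
  obtain ⟨v, hv, h⟩ := cs_ex hg (ε := ε / 3) (by positivity)
  obtain ⟨N, hN⟩ := Metric.tendsto_atTop.mp (sp v hv).2 (ε / 3) (by positivity)
  have e : ∀ k, dist (val k g) (val k v) < ε / 3 := fun k => by
    rw [dist_eq_norm, ← map_sub]; exact (val_le _ _).trans_lt h
  refine ⟨N, fun n hn => ?_⟩
  have := dist_triangle4 (val n g) (val n v) (val ∞ v) (val ∞ g)
  rw [dist_comm (val ∞ v)] at this
  linarith [e n, e ∞, hN n hn]

theorem hyper (e : HilbertBasis ℕ ℝ H) : IsoIdeal (ℝ ∙ e 0)ᗮ ⊤ := by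
  refine ⟨le_top, fun E _ hE => ?_⟩
  obtain ⟨z, hz, z0⟩ : ∃ z ∈ Eᗮ, z ≠ 0 := by
    refine (Submodule.ne_bot_iff _).mp fun h => ?_
    rw [Submodule.orthogonal_eq_bot_iff] at h
    subst h
    have : FiniteDimensional ℝ H := Module.finite_def.mpr (Submodule.FG.of_finite)
    exact Infinite.not_finite e.orthonormal.linearIndependent.finite
  set w := ‖z‖⁻¹ • z with hw
  have wE : w ∈ Eᗮ := Eᗮ.smul_mem _ hz
  have nw : ‖e 0‖ = ‖w‖ := by
    rw [e.orthonormal.1 0, hw, norm_smul, norm_inv, norm_norm,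
      inv_mul_cancel₀ (norm_ne_zero_iff.mpr z0)]
  let R := (ℝ ∙ (e 0 - w))ᗮ.reflection
  refine ⟨R.toLinearIsometry.comp E.subtypeₗᵢ, fun x => ?_, fun x hx => ?_⟩
  · rw [Submodule.mem_orthogonal_singleton_iff_inner_right]
    show inner ℝ (e 0) (R x) = 0
    rw [← R.inner_map_map, Submodule.reflection_reflection, Submodule.reflection_sub nw,
      real_inner_comm]
    exact wE _ x.2
  · refine Submodule.reflection_mem_subspace_eq_self ?_
    rw [Submodule.mem_orthogonal_singleton_iff_inner_right] at hx ⊢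
    show inner ℝ _ (x : H) = 0
    rw [inner_sub_left, hx, real_inner_comm, wE _ x.2, sub_zero]

noncomputable def sq1 : Cv := OnePoint.continuousMapMkNat (fun n => 1 / ((n : ℝ) + 1)) 0
  tendsto_one_div_add_atTop_nhds_zero_nat

noncomputable def dl (n : ℕ) : Cv := OnePoint.continuousMapMkNat (fun k => if k = n then 1 else 0) 0
  (tendsto_const_nhds.congr' (by
    filter_upwards [eventually_gt_atTop n] with k hk; rw [if_neg hk.ne']))

theorem gap (n : ℕ) : ∃ γ : ℝ, 0 < γ ∧ γ ≤ 1 ∧ ∀ k : OnePoint ℕ, k ≠ n →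
    (1 - (sq1 k - sq1 n) ^ 2) ^ 2 ≤ 1 - γ := by
  have n0 : (0 : ℝ) ≤ n := n.cast_nonneg
  have b : ∀ k : OnePoint ℕ, 0 ≤ sq1 k ∧ sq1 k ≤ 1 := fun k => by
    induction k using OnePoint.rec with
    | infty => exact ⟨le_rfl, zero_le_one⟩
    | coe k =>
      have : (0 : ℝ) ≤ k := k.cast_nonneg
      exact ⟨show 0 ≤ 1 / ((k : ℝ) + 1) by positivity,
        show 1 / ((k : ℝ) + 1) ≤ 1 by rw [div_le_one (by positivity)]; linarith⟩
  set δ := 1 / ((n : ℝ) + 1) - 1 / ((n : ℝ) + 2) with hδ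
  have d0 : 0 < δ := sub_pos.mpr (one_div_lt_one_div_of_lt (by positivity) (by linarith))
  have p2 : 0 < 1 / ((n : ℝ) + 2) := by positivity
  have e : sq1 n = 1 / ((n : ℝ) + 1) := rfl
  have d1 : δ ≤ 1 := by linarith [(b n).2]
  refine ⟨δ ^ 2, by positivity, pow_le_one₀ d0.le d1, fun k hk => ?_⟩
  have : δ ≤ |sq1 k - sq1 n| := by
    induction k using OnePoint.rec with
    | infty => exact le_abs.mpr (Or.inr (by show δ ≤ -(0 - sq1 n); linarith))
    | coe k =>
      have ek : sq1 k = 1 / ((k : ℝ) + 1) := rfl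
      have k0 : (0 : ℝ) ≤ k := k.cast_nonneg
      rcases lt_or_gt_of_ne (show k ≠ n from fun h => hk (by rw [h])) with h | h
      · have h' : (k : ℝ) + 1 ≤ n := by exact_mod_cast h
        have := one_div_le_one_div_of_le (by positivity) h'
        have n1 : (0 : ℝ) < n := by linarith
        have : δ ≤ 1 / (n : ℝ) - 1 / ((n : ℝ) + 1) := by
          rw [hδ, div_sub_div _ _ (by positivity) (by positivity),
            div_sub_div _ _ (by positivity) (by positivity),
            div_le_div_iff₀ (by positivity) (by positivity)]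
          nlinarith
        exact le_abs.mpr (Or.inl (by linarith))
      · have h' : (n : ℝ) + 2 ≤ k + 1 := by
          have : (n : ℝ) + 1 ≤ k := by exact_mod_cast h
          linarith
        have := one_div_le_one_div_of_le (by positivity) h'
        exact le_abs.mpr (Or.inr (by linarith))
  have h1 := pow_le_pow_left₀ d0.le this 2
  rw [sq_abs] at h1
  have h2 : (sq1 k - sq1 n) ^ 2 ≤ 1 := by nlinarith [b k, b n]
  nlinarith [sq_nonneg δ]

theorem not_ideal (e : HilbertBasis ℕ ℝ H) :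
    ¬ IsoIdeal (W := StrongDual ℝ H →L[ℝ] Cv) (Inj (ℝ ∙ e 0)ᗮ Cv) (Inj ⊤ Cv) := by
  classical
  rintro ⟨up, h⟩
  set Y := (ℝ ∙ e 0)ᗮ with hY
  have cY : IsClosed (Y : Set H) := Submodule.isClosed_orthogonal _
  have on := orthonormal_iff_ite.mp e.orthonormal
  have n1 := e.orthonormal.1
  have mY : ∀ x, x ∈ Y ↔ inner ℝ (e 0) x = 0 := fun x =>
    Submodule.mem_orthogonal_singleton_iff_inner_right
  have mem : ∀ {W : Submodule ℝ H} {y}, y ∈ W → ∀ z : Cv, tens y z ∈ Inj W Cv := fun hy z =>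
    cs_sub ⟨_, hy, z, rfl⟩
  let π : ℕ → ℕ := fun n => (Nat.unpair n).1 + 2
  let a : ℕ → StrongDual ℝ H →L[ℝ] Cv := fun n => tens (((1 : ℝ) / 2) ^ n • e (π n)) (dl n)
  have va : ∀ (k : OnePoint ℕ) n, val k (a n) =
      if k = n then ((1 : ℝ) / 2) ^ n • e (π n) else 0 := fun k n => by
    rw [val_tens]
    induction k using OnePoint.rec with
    | infty => exact (zero_smul _ _).trans (if_neg (OnePoint.infty_ne_coe n)).symm
    | coe k =>
      show (if k = n then (1 : ℝ) else 0) • _ = _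
      by_cases h : k = n <;> simp [h]
  have sa : ∀ n, ‖a n‖ ≤ (1 / 2) ^ n := fun n => by
    refine (sq_le_sq₀ (a n).opNorm_nonneg (by positivity)).mp (le_of_val fun k => ?_)
    rw [va]; split_ifs <;> simp [norm_smul, n1]
  obtain ⟨f, fY, vf'⟩ := cs_tsum (W := StrongDual ℝ H →L[ℝ] Cv) (V := H)
    (s := {u | ∃ y ∈ Y, ∃ z : Cv, u = tens y z}) sa fun n =>
    ⟨_, Y.smul_mem _ ((mY _).mpr (by simp [on, π])), _, rfl⟩
  replace fY : f ∈ Inj Y Cv := fY
  have vf : ∀ k : OnePoint ℕ, HasSum (fun n => val k (a n)) (val k f) := fun k =>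
    vf' (val k) (val_le k)
  have vf1 : ∀ n : ℕ, val n f = ((1 : ℝ) / 2) ^ n • e (π n) := fun n => by
    refine (vf n).unique ?_
    convert hasSum_ite_eq n (((1 : ℝ) / 2) ^ n • e (π n)) using 2 with m
    rw [va]
    by_cases h : m = n
    · simp [h]
    · rw [if_neg h, if_neg fun h' => h (OnePoint.coe_injective h').symm]
  have vf2 : val ∞ f = 0 := (vf ∞).unique (by simpa [va] using hasSum_zero)
  have vf3 : ∀ k, ‖val k f‖ ≤ 1 ∧ inner ℝ (e 1) (val k f) = 0 := fun k => by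
    induction k using OnePoint.rec with
    | infty => simp [vf2]
    | coe k =>
      rw [vf1, norm_smul, n1, inner_smul_right, on]
      simpa [π] using inv_le_one_of_one_le₀ (one_le_pow₀ one_le_two)
  have e1 : e 1 ∈ Y := (mY _).mpr (by simp [on])
  let u : StrongDual ℝ H →L[ℝ] Cv := tens (e 0) 1
  let q : Cv → StrongDual ℝ H →L[ℝ] Cv := fun z => tens (e 1) z
  let E := Submodule.span ℝ {u, q 1, q sq1, q (sq1 ^ 2), f}
  obtain ⟨T, hT, hT'⟩ := h E (Submodule.span_le.mpr (by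
    rintro _ (rfl | rfl | rfl | rfl | rfl)
    exacts [mem Submodule.mem_top _, mem Submodule.mem_top _, mem Submodule.mem_top _,
      mem Submodule.mem_top _, up fY]))
    (FiniteDimensional.span_of_finite ℝ (toFinite _))
  have uE : u ∈ E := Submodule.subset_span (by simp)
  set g : StrongDual ℝ H →L[ℝ] Cv := T ⟨u, uE⟩ with hg
  obtain ⟨gY, gt⟩ := inj_val cY (show g ∈ Inj Y Cv from hT ⟨u, uE⟩)
  have main : ∀ (n : ℕ) (σ t : ℝ), ∃ p : StrongDual ℝ H →L[ℝ] Cv,
      (∀ k, val k p = t • ((1 - (sq1 k - sq1 n) ^ 2) • e 1 + σ • val k f)) ∧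
        ‖g + p‖ = ‖u + p‖ := fun n σ t => by
    let p := t • ((1 - sq1 n ^ 2) • q 1 + (2 * sq1 n) • q sq1 + (-1 : ℝ) • q (sq1 ^ 2) + σ • f)
    have pm : ∀ W : Submodule ℝ (StrongDual ℝ H →L[ℝ] Cv), q 1 ∈ W → q sq1 ∈ W →
        q (sq1 ^ 2) ∈ W → f ∈ W → p ∈ W := fun W a1 a2 a3 a4 =>
      W.smul_mem _ (W.add_mem (W.add_mem (W.add_mem (W.smul_mem _ a1) (W.smul_mem _ a2))
        (W.smul_mem _ a3)) (W.smul_mem _ a4))
    have pE : p ∈ E := pm E (Submodule.subset_span (by simp)) (Submodule.subset_span (by simp))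
      (Submodule.subset_span (by simp)) (Submodule.subset_span (by simp))
    have pY : p ∈ Inj Y Cv := pm _ (mem e1 _) (mem e1 _) (mem e1 _) fY
    refine ⟨p, fun k => ?_, ?_⟩
    · simp only [p, q, map_smul,
        map_add, map_sub, val_tens, ContinuousMap.one_apply, ContinuousMap.pow_apply]
      module
    · have := T.norm_map (⟨u, uE⟩ + ⟨p, pE⟩)
      rw [map_add, hT' ⟨p, pE⟩ pY] at this
      exact this
  have nu : ∀ (p : StrongDual ℝ H →L[ℝ] Cv) k, val k p ∈ Y →
      ‖val k (u + p)‖ ^ 2 = 1 + ‖val k p‖ ^ 2 := fun p k h => by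
    rw [map_add, val_tens, norm_add_sq_real, ContinuousMap.one_apply, one_smul, (mY _).mp h, n1]
    ring
  have fk := (inj_val cY fY).1
  have nrm : ∀ (k : OnePoint ℕ) (c σ : ℝ),
      ‖c • e 1 + σ • val k f‖ ^ 2 = c ^ 2 + σ ^ 2 * ‖val k f‖ ^ 2 := fun k c σ => by
    rw [norm_add_sq_real, inner_smul_left, inner_smul_right, (vf3 k).2, norm_smul, norm_smul, n1,
      mul_pow, mul_pow, Real.norm_eq_abs, Real.norm_eq_abs, sq_abs, sq_abs]
    simp
  have orth : ∀ (n : ℕ) (σ : ℝ), (∀ k : OnePoint ℕ, k ≠ n →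
      (1 - (sq1 k - sq1 n) ^ 2) ^ 2 ≤ 1 - σ ^ 2) →
      inner ℝ (val n g) (e 1 + σ • val n f) = 0 := fun n σ hσ => by
    have : ∀ t : ℝ, 2 * (t * inner ℝ (val n g) (e 1 + σ • val n f)) ≤ 1 := fun t => by
      obtain ⟨p, vp, np⟩ := main n σ t
      have h1 : ‖u + p‖ ^ 2 ≤ 1 + t ^ 2 * ‖e 1 + σ • val n f‖ ^ 2 := le_of_val fun k => by
        rw [nu p k (by
          rw [vp]; exact Y.smul_mem _ (Y.add_mem (Y.smul_mem _ e1) (Y.smul_mem _ (fk k)))),
          vp, norm_smul, mul_pow, Real.norm_eq_abs, sq_abs]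
        gcongr ?_ + _ * ?_
        · rfl
        rcases eq_or_ne k n with rfl | hk
        · simp
        have a1 := nrm n 1 σ
        rw [one_smul] at a1
        rw [nrm, a1]
        have := mul_le_mul_of_nonneg_left (pow_le_one₀ (norm_nonneg _) (vf3 k).1 (n := 2))
          (sq_nonneg σ)
        nlinarith [hσ k hk, mul_nonneg (sq_nonneg σ) (sq_nonneg ‖val n f‖)]
      have h2 := pow_le_pow_left₀ (norm_nonneg _) (val_le n (g + p)) 2
      rw [np, map_add, norm_add_sq_real, vp, sub_self, zero_pow two_ne_zero, sub_zero, one_smul,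
        inner_smul_right, norm_smul, mul_pow, Real.norm_eq_abs, sq_abs] at h2
      nlinarith [sq_nonneg ‖val n g‖]
    by_contra h0
    have := this (inner ℝ (val n g) (e 1 + σ • val n f))⁻¹
    rw [inv_mul_cancel₀ h0] at this
    norm_num at this
  have o1 : ∀ n : ℕ, inner ℝ (val n g) (e 1) = 0 ∧ inner ℝ (val n g) (e (π n)) = 0 := fun n => by
    obtain ⟨γ, g0, g1, hγ⟩ := gap n
    have a1 := orth n 0 fun k hk => by nlinarith [hγ k hk]
    have a2 := orth n γ fun k hk => by nlinarith [hγ k hk]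
    rw [zero_smul, add_zero] at a1
    rw [inner_add_right, a1, vf1, inner_smul_right, inner_smul_right, zero_add] at a2
    exact ⟨a1, by simpa [g0.ne'] using a2⟩
  have lim : ∀ m, (∃ᶠ n : ℕ in atTop, inner ℝ (val n g) (e m) = 0) →
      inner ℝ (val ∞ g) (e m) = 0 := fun m h =>
    isClosed_singleton.mem_of_frequently_of_tendsto h (gt.inner tendsto_const_nhds)
  have z : val ∞ g = 0 := e.repr.injective (lp.ext (funext fun m => by
    rw [e.repr_apply_apply, map_zero, real_inner_comm]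
    match m with
    | 0 => rw [real_inner_comm]; exact (mY _).mp (gY _)
    | 1 => exact lim 1 (.of_forall fun n => (o1 n).1)
    | m + 2 =>
      refine lim _ (frequently_atTop.mpr fun N => ⟨Nat.pair m N, Nat.right_le_pair _ _, ?_⟩)
      simpa [π] using (o1 (Nat.pair m N)).2))
  rw [z] at gt
  obtain ⟨n, hn⟩ := ((tendsto_zero_iff_norm_tendsto_zero.mp gt).eventually
    (gt_mem_nhds one_half_pos)).exists
  obtain ⟨γ, g0, g1, hγ⟩ := gap n
  obtain ⟨p, vp, np⟩ := main n 0 (5 / γ)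
  simp only [zero_smul, add_zero] at vp
  have ng : ∀ k, ‖val k g‖ ≤ 1 := fun k => (val_le k g).trans (by
    have := le_of_val (g := u) (C := 1) fun k => by simp [u, val_tens, n1]
    exact (T.norm_map ⟨u, uE⟩).trans_le (by
      show ‖u‖ ≤ 1
      nlinarith [norm_nonneg u]))
  have h1 := pow_le_pow_left₀ (norm_nonneg _) (val_le n (u + p)) 2
  rw [nu p n (by rw [vp]; exact Y.smul_mem _ (Y.smul_mem _ e1)), vp, ← np] at h1
  simp only [sub_self, ne_eq, OfNat.ofNat_ne_zero, not_false_eq_true, zero_pow, sub_zero, one_smul,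
    norm_smul, n1, mul_one, Real.norm_eq_abs, sq_abs] at h1
  set t := 5 / γ with ht
  have tγ : t * γ = 5 := div_mul_cancel₀ _ g0.ne'
  have t0 : 0 < t := by positivity
  have h2 : ‖g + p‖ ^ 2 ≤ 1 / 4 + t ^ 2 := le_of_val fun k => by
    rw [map_add, vp]
    rcases eq_or_ne k n with rfl | hk
    · rw [norm_add_sq_real, inner_smul_right, inner_smul_right, (o1 n).1]
      simp only [sub_self, ne_eq, OfNat.ofNat_ne_zero, not_false_eq_true, zero_pow, sub_zero,
        one_smul, norm_smul, n1, mul_one, Real.norm_eq_abs, sq_abs]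
      nlinarith [norm_nonneg (val n g)]
    · have b1 := hγ k hk
      set c := 1 - (sq1 k - sq1 n) ^ 2
      have b2 := norm_add_le (val k g) (t • c • e 1)
      rw [norm_smul, norm_smul, n1, mul_one, Real.norm_of_nonneg t0.le, Real.norm_eq_abs] at b2
      rw [← sq_abs] at b1
      have b3 : |c| ≤ 1 := by nlinarith [abs_nonneg c]
      have b4 := pow_le_pow_left₀ (norm_nonneg _) (b2.trans (add_le_add (ng k) le_rfl)) 2
      have b5 := mul_le_mul_of_nonneg_left b1 (sq_nonneg t)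
      have b6 := mul_le_mul_of_nonneg_left b3 t0.le
      nlinarith
  linarith

end Pool.Agent.H92.Id
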