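import Mathlib

/-! Isometric ideals and injective tensor products. -/

namespace Pool.Agent.H92.Id

/-- For subspaces A and B of a normed space: A is an isometric ideal in B. -/
def IsoIdeal {W : Type} [NormedAddCommGroup W] [NormedSpace ℝ W] (A B : Submodule ℝ W) : Prop :=
  A ≤ B ∧ ∀ E : Submodule ℝ W, E ≤ B → FiniteDimensional ℝ E →
    ∃ T : E →ₗᵢ[ℝ] W, (∀ e, T e ∈ A) ∧ ∀ e : E, (e : W) ∈ A → T e = e

/-- The closed linear span of a subset of a normed space. -/
noncomputable def cspan {W : Type} [NormedAddCommGroup W] [NormedSpace ℝ W] (s : Set W) :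
    Submodule ℝ W :=
  (Submodule.span ℝ s).topologicalClosure

/-- The elementary tensor of x and z as an operator from the dual of X to Z. -/
noncomputable def tens {X Z : Type} [NormedAddCommGroup X] [NormedSpace ℝ X]
    [NormedAddCommGroup Z] [NormedSpace ℝ Z] (x : X) (z : Z) : StrongDual ℝ X →L[ℝ] Z :=
  (NormedSpace.inclusionInDoubleDual ℝ X x).smulRight z

/-- The completed injective tensor product of the subspace Y of X with Z: the operator norm
closure of the span of the elementary tensors with first factor in Y. -/
noncomputable def Inj {X : Type} [NormedAddCommGroup X] [NormedSpace ℝ X] (Y : Submodule ℝ X)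
    (Z : Type) [NormedAddCommGroup Z] [NormedSpace ℝ Z] :
    Submodule ℝ (StrongDual ℝ X →L[ℝ] Z) :=
  cspan {u | ∃ y ∈ Y, ∃ z : Z, u = tens y z}

end Pool.Agent.H92.Id
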