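import Mathlib

set_option autoImplicit false
open MeasureTheory Filter Topology Set Metric Pointwise

namespace Pool.Agent.H92.KConv

/-- sign -/
def sgn (b : Bool) : ℝ := if b then 1 else -1

lemma moments (k : ℕ) (a : Fin k → ℝ) (ha : ∀ i, a i ^ 2 = 1) :
    ∑ η : Fin k → Bool, (∑ i, a i * sgn (η i)) ^ 2 = k * 2 ^ k ∧
    ∑ η : Fin k → Bool, (∑ i, a i * sgn (η i)) ^ 4 ≤ 3 * k ^ 2 * 2 ^ k := by
  induction k with
  | zero => simp
  | succ k ih =>
    obtain ⟨h1, h2⟩ := ih (fun i => a i.succ) (fun i => ha _)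
    have h0 := ha 0
    have hc : ∑ η : Fin k → Bool, (1 : ℝ) = 2 ^ k := by simp
    rw [← (Fin.consEquiv fun _ : Fin (k + 1) => Bool).sum_comp,
      ← (Fin.consEquiv fun _ : Fin (k + 1) => Bool).sum_comp]
    simp only [Fintype.sum_prod_type, Fin.sum_univ_succ, Fin.consEquiv_apply, Fin.cons_zero,
      Fin.cons_succ, Fintype.sum_bool, ← Finset.sum_add_distrib]
    constructor
    · have : ∀ s : ℝ, (a 0 * sgn true + s) ^ 2 + (a 0 * sgn false + s) ^ 2 = 2 * s ^ 2 + 2 * 1 := by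
        intro s; simp only [sgn]; simp; linear_combination 2 * h0
      simp only [this]
      rw [Finset.sum_add_distrib, ← Finset.mul_sum, ← Finset.mul_sum, h1, hc]
      push_cast; ring
    · have : ∀ s : ℝ, (a 0 * sgn true + s) ^ 4 + (a 0 * sgn false + s) ^ 4 =
          2 * s ^ 4 + (12 * s ^ 2 + 2 * 1) := by
        intro s; simp only [sgn]; simp
        linear_combination (12 * s ^ 2 + 2 * (a 0 ^ 2 + 1)) * h0
      simp only [this]
      rw [Finset.sum_add_distrib, Finset.sum_add_distrib, ← Finset.mul_sum, ← Finset.mul_sum,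
        ← Finset.mul_sum, h1, hc]
      push_cast
      have : (0 : ℝ) < 2 ^ k := by positivity
      rw [pow_succ (2 : ℝ) k]
      nlinarith

lemma first (t : ℕ) (ht : 0 < t) (a : Fin (t ^ 2) → ℝ) (ha : ∀ i, a i ^ 2 = 1) :
    2 / 9 * t * 2 ^ (t ^ 2) ≤ ∑ η : Fin (t ^ 2) → Bool, |∑ i, a i * sgn (η i)| := by
  obtain ⟨h1, h2⟩ := moments _ a ha
  have ht' : (0 : ℝ) < t := by exact_mod_cast ht
  have key : ∀ s : ℝ, s ^ 2 / (3 * t) - s ^ 4 / (3 * t) ^ 3 ≤ |s| := by
    intro s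
    have hs := abs_nonneg s
    rw [← sq_abs s, show s ^ 4 = |s| ^ 4 by rw [show (4 : ℕ) = 2 * 2 from rfl, pow_mul, pow_mul, sq_abs]]
    set u := |s|
    set T : ℝ := 3 * t
    have hT : 0 < T := by positivity
    rw [div_sub_div _ _ hT.ne' (by positivity), div_le_iff₀ (by positivity)]
    have : 0 ≤ u * T * (T ^ 3 - u * T ^ 2 + u ^ 3) := by
      apply mul_nonneg (by positivity)
      rcases le_total u T with h | h
      · nlinarith [mul_nonneg (sub_nonneg.2 h) (sq_nonneg T), pow_nonneg hs 3]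
      · nlinarith [mul_nonneg hs (mul_nonneg (sub_nonneg.2 h) (add_nonneg hs hT.le)), pow_pos hT 3]
    nlinarith
  refine le_trans ?_ (Finset.sum_le_sum fun η _ => key _)
  rw [Finset.sum_sub_distrib, ← Finset.sum_div, ← Finset.sum_div, h1]
  have h3 := div_le_div_of_nonneg_right h2 (show 0 ≤ (3 * t : ℝ) ^ 3 by positivity)
  refine le_trans (le_of_eq ?_) (sub_le_sub_left h3 _)
  push_cast
  field_simp
  ring

lemma sphere_inv {n : ℕ} (U : EuclideanSpace ℝ (Fin n) ≃ₗᵢ[ℝ] EuclideanSpace ℝ (Fin n))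
    (g : EuclideanSpace ℝ (Fin n) → ℝ) (hg : Continuous g) :
    ∫ x : sphere (0 : EuclideanSpace ℝ (Fin n)) 1, g (U x) ∂(volume.toSphere) =
      ∫ x : sphere (0 : EuclideanSpace ℝ (Fin n)) 1, g x ∂(volume.toSphere) := by
  let φ : sphere (0 : EuclideanSpace ℝ (Fin n)) 1 → sphere (0 : EuclideanSpace ℝ (Fin n)) 1 :=
    fun x => ⟨U x, by simpa using x.2⟩
  have hφ : Continuous φ := by fun_prop
  have hm : Measure.map φ volume.toSphere = volume.toSphere := by
    ext s hs
    rw [Measure.map_apply hφ.measurable hs, Measure.toSphere_apply' _ hs,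
      Measure.toSphere_apply' _ (hφ.measurable hs)]
    congr 1
    have := U.measurePreserving.measure_preimage_emb U.toHomeomorph.measurableEmbedding
      (Ioo (0 : ℝ) 1 • ((↑) '' s : Set (EuclideanSpace ℝ (Fin n))))
    rw [← this]
    congr 1
    ext y
    simp only [mem_preimage, Set.mem_smul, mem_image]
    constructor
    · rintro ⟨r, hr, _, ⟨x, hx, rfl⟩, rfl⟩
      exact ⟨r, hr, _, ⟨φ x, hx, rfl⟩, by simp [φ]⟩
    · rintro ⟨r, hr, _, ⟨x, hx, rfl⟩, h⟩
      refine ⟨r, hr, U.symm x, ⟨⟨U.symm x, by simpa using x.2⟩, by simpa [φ] using hx, rfl⟩, ?_⟩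
      rw [← map_smul, h]; simp
  conv_rhs => rw [← hm]
  rw [integral_map hφ.measurable.aemeasurable (by fun_prop : Continuous fun x : sphere (0 : EuclideanSpace ℝ (Fin n)) 1 => g x).aestronglyMeasurable]

lemma cint {n : ℕ} {g : EuclideanSpace ℝ (Fin n) → ℝ} (hg : Continuous g) :
    Integrable (fun x : sphere (0 : EuclideanSpace ℝ (Fin n)) 1 => g x) volume.toSphere :=
  (by fun_prop : Continuous fun x : sphere (0 : EuclideanSpace ℝ (Fin n)) 1 => g x).integrable_of_hasCompactSupport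
    (HasCompactSupport.of_compactSpace _)

lemma coord_sq {n : ℕ} (i : Fin n) :
    n * ∫ x : sphere (0 : EuclideanSpace ℝ (Fin n)) 1, (x.1 i) ^ 2 ∂(volume.toSphere) =
      (volume : Measure (EuclideanSpace ℝ (Fin n))).toSphere.real univ := by
  have h1 : ∀ j : Fin n, ∫ x : sphere (0 : EuclideanSpace ℝ (Fin n)) 1, (x.1 j) ^ 2 ∂(volume.toSphere) =
      ∫ x : sphere (0 : EuclideanSpace ℝ (Fin n)) 1, (x.1 i) ^ 2 ∂(volume.toSphere) := by
    intro j
    have := sphere_inv (LinearIsometryEquiv.piLpCongrLeft 2 ℝ ℝ (Equiv.swap i j)) (fun x => (x i) ^ 2)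
      (by fun_prop)
    rw [← this]
    simp [LinearIsometryEquiv.piLpCongrLeft_apply]
  have h2 : ∑ j : Fin n, ∫ x : sphere (0 : EuclideanSpace ℝ (Fin n)) 1, (x.1 j) ^ 2 ∂(volume.toSphere) =
      (volume : Measure (EuclideanSpace ℝ (Fin n))).toSphere.real univ := by
    rw [← integral_finsetSum _ fun j _ => cint (g := fun x => (x j) ^ 2) (by fun_prop)]
    have : ∀ x : sphere (0 : EuclideanSpace ℝ (Fin n)) 1, ∑ j, (x.1 j) ^ 2 = 1 := by
      intro x
      rw [← EuclideanSpace.real_norm_sq_eq, norm_eq_of_mem_sphere x]; norm_num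
    simp [this]
  rw [← h2]
  simp [h1]

lemma avg_le {n : ℕ} (hn : 0 < n) {g : EuclideanSpace ℝ (Fin n) → ℝ} {c : ℝ}
    (h : ∫ x : sphere (0 : EuclideanSpace ℝ (Fin n)) 1, g x ∂(volume.toSphere) ≤
      c * (volume : Measure (EuclideanSpace ℝ (Fin n))).toSphere.real univ) :
    ⨍ x : sphere (0 : EuclideanSpace ℝ (Fin n)) 1, g x ∂(volume.toSphere) ≤ c := by
  have : Nonempty (Fin n) := ⟨⟨0, hn⟩⟩
  have : NeZero (volume : Measure (EuclideanSpace ℝ (Fin n))).toSphere :=
    ⟨Measure.toSphere_ne_zero _⟩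
  have h0 : 0 < (volume : Measure (EuclideanSpace ℝ (Fin n))).toSphere.real univ :=
    measureReal_univ_pos
  rw [average_eq, smul_eq_mul, inv_mul_le_iff₀ h0, mul_comm]
  exact h

section Body
variable {n : ℕ} {ι : Type} [Fintype ι] (e : ι ↪ Fin n)

/-- the body -/
def body : Set (EuclideanSpace ℝ (Fin n)) := {z | ‖z‖ ≤ 1 ∧ ∑ η, |z (e η)| ≤ 1}

lemma gauge_body (z : EuclideanSpace ℝ (Fin n)) : gauge (body e) z = max ‖z‖ (∑ η, |z (e η)|) := by
  have hs : 0 ≤ ∑ η, |z (e η)| := Finset.sum_nonneg fun _ _ => abs_nonneg _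
  have key : ∀ r : ℝ, 0 < r → (r⁻¹ • z ∈ body e ↔ max ‖z‖ (∑ η, |z (e η)|) ≤ r) := by
    intro r hr
    simp only [body, mem_ofPred_eq, norm_smul, PiLp.smul_apply, smul_eq_mul, abs_mul, norm_inv,
      Real.norm_eq_abs, abs_inv, abs_of_pos hr, ← Finset.mul_sum, max_le_iff, inv_mul_le_iff₀ hr, mul_one]
  rw [gauge_def']
  apply le_antisymm
  · refine le_of_forall_pos_le_add fun δ hδ => csInf_le ⟨0, fun r hr => le_of_lt hr.1⟩ ?_
    have : 0 < max ‖z‖ (∑ η, |z (e η)|) + δ := by positivity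
    exact ⟨this, (key _ this).2 (by linarith)⟩
  · have : 0 < max ‖z‖ (∑ η, |z (e η)|) + 1 := by positivity
    exact le_csInf ⟨_, this, (key _ this).2 (by linarith)⟩ fun r hr => (key r hr.1).1 hr.2

lemma body_compact : IsCompact (body e) := by
  refine (isCompact_closedBall 0 1).of_isClosed_subset ?_ fun z hz => by simpa using hz.1
  exact (isClosed_le (f := fun z : EuclideanSpace ℝ (Fin n) => ‖z‖) (by fun_prop) continuous_const).inter
    (isClosed_le (f := fun z : EuclideanSpace ℝ (Fin n) => ∑ η, |z (e η)|) (by fun_prop) continuous_const)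

lemma body_convex : Convex ℝ (body e) := by
  intro x hx y hy a b ha hb hab
  constructor
  · have := norm_add_le (a • x) (b • y)
    rw [norm_smul, norm_smul, Real.norm_of_nonneg ha, Real.norm_of_nonneg hb] at this
    nlinarith [hx.1, hy.1]
  · calc ∑ η, |(a • x + b • y) (e η)| ≤ ∑ η, (a * |x (e η)| + b * |y (e η)|) := by
          refine Finset.sum_le_sum fun η _ => ?_
          simp only [PiLp.add_apply, PiLp.smul_apply, smul_eq_mul]
          refine (abs_add_le _ _).trans_eq ?_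
          rw [abs_mul, abs_mul, abs_of_nonneg ha, abs_of_nonneg hb]
      _ ≤ 1 := by
          rw [Finset.sum_add_distrib, ← Finset.mul_sum, ← Finset.mul_sum]
          nlinarith [hx.2, hy.2]

lemma body_int : (interior (body e)).Nonempty := by
  refine ⟨0, mem_interior.2 ⟨{z | ‖z‖ < 1 ∧ ∑ η, |z (e η)| < 1}, fun z hz => ⟨hz.1.le, hz.2.le⟩, ?_, by simp⟩⟩
  exact (isOpen_lt (f := fun z : EuclideanSpace ℝ (Fin n) => ‖z‖) (by fun_prop) continuous_const).inter
    (isOpen_lt (f := fun z : EuclideanSpace ℝ (Fin n) => ∑ η, |z (e η)|) (by fun_prop) continuous_const)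

lemma body_neg : -body e = body e := by
  ext z
  simp [body]

lemma M_le (hι : 0 < Fintype.card ι) (hn : n = Fintype.card ι ^ 2) :
    ⨍ x : sphere (0 : EuclideanSpace ℝ (Fin n)) 1, gauge (body e) x.1 ∂(volume.toSphere) ≤ 2 := by
  set m : ℝ := ((Fintype.card ι : ℕ) : ℝ) with hm
  have hm0 : 0 < m := by rw [hm]; exact_mod_cast hι
  have hn' : (n : ℝ) = m ^ 2 := by rw [hn]; push_cast; rfl
  apply avg_le (g := gauge (body e)) (by rw [hn]; positivity)
  have h1 : ∀ x : sphere (0 : EuclideanSpace ℝ (Fin n)) 1,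
      gauge (body e) x.1 ≤ 3 / 2 + m / 2 * ∑ η, (x.1 (e η)) ^ 2 := by
    intro x
    rw [gauge_body, norm_eq_of_mem_sphere x]
    have h2 : 0 ≤ ∑ η, (x.1 (e η)) ^ 2 := Finset.sum_nonneg fun _ _ => sq_nonneg _
    refine max_le (by nlinarith) ?_
    have h3 : ∑ η, |x.1 (e η)| ≤ ∑ η, (1 / (2 * m) + m / 2 * (x.1 (e η)) ^ 2) := by
      refine Finset.sum_le_sum fun η _ => ?_
      rw [← sq_abs]
      have : 1 / (2 * m) + m / 2 * |x.1 (e η)| ^ 2 - |x.1 (e η)| = (m * |x.1 (e η)| - 1) ^ 2 / (2 * m) := by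
        field_simp; ring
      have h4 : 0 ≤ (m * |x.1 (e η)| - 1) ^ 2 / (2 * m) := by positivity
      linarith
    rw [Finset.sum_add_distrib, ← Finset.mul_sum, Finset.sum_const, Finset.card_univ, nsmul_eq_mul,
      ← hm, show m * (1 / (2 * m)) = 1 / 2 by field_simp] at h3
    linarith
  have hi : Integrable (fun x : sphere (0 : EuclideanSpace ℝ (Fin n)) 1 => ∑ η, (x.1 (e η)) ^ 2)
      volume.toSphere := cint (g := fun x => ∑ η, (x (e η)) ^ 2) (by fun_prop)
  refine (integral_mono_of_nonneg (Eventually.of_forall fun x => gauge_nonneg _)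
    ((integrable_const _).fun_add (hi.const_mul _)) (Eventually.of_forall h1)).trans_eq ?_
  rw [integral_add (integrable_const _) (hi.const_mul _), integral_const_mul, integral_const,
    integral_finsetSum _ fun η _ => cint (g := fun x => (x (e η)) ^ 2) (by fun_prop)]
  have h5 : ∀ η, ∫ x : sphere (0 : EuclideanSpace ℝ (Fin n)) 1, (x.1 (e η)) ^ 2 ∂(volume.toSphere) =
      (volume : Measure (EuclideanSpace ℝ (Fin n))).toSphere.real univ / m ^ 2 := by
    intro η
    rw [← coord_sq (e η), hn']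
    field_simp
  simp only [h5, Finset.sum_const, Finset.card_univ, nsmul_eq_mul, ← hm, smul_eq_mul]
  field_simp
  ring

lemma Mstar_le (hn : 0 < n) :
    ⨍ x : sphere (0 : EuclideanSpace ℝ (Fin n)) 1,
      sSup ((fun y => inner ℝ x.1 y) '' body e) ∂(volume.toSphere) ≤ 1 := by
  apply avg_le (g := fun x => sSup ((fun y => inner ℝ x y) '' body e)) hn
  have h0 : (0 : EuclideanSpace ℝ (Fin n)) ∈ body e := by simp [body]
  refine (integral_mono_of_nonneg (g := fun _ => (1 : ℝ)) (Eventually.of_forall fun x => ?_)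
    (integrable_const _) (Eventually.of_forall fun x => ?_)).trans_eq (by simp)
  · exact Real.sSup_nonneg' ⟨_, ⟨0, h0, rfl⟩, by simp⟩
  · refine csSup_le ⟨_, ⟨0, h0, rfl⟩⟩ ?_
    rintro _ ⟨y, hy, rfl⟩
    refine (real_inner_le_norm _ _).trans ?_
    rw [norm_eq_of_mem_sphere x, one_mul]
    exact hy.1

end Body

lemma rad {n k : ℕ} (e : (Fin k → Bool) ↪ Fin n) (ε η : Fin k → Bool) :
    (∑ i, sgn (ε i) • (((2 : ℝ) ^ k)⁻¹ • ∑ ζ : Fin k → Bool, sgn (ζ i) •
      (EuclideanSpace.single (e ζ) (1 : ℝ) : EuclideanSpace ℝ (Fin n)))) (e η) =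
      ((2 : ℝ) ^ k)⁻¹ * ∑ i, sgn (ε i) * sgn (η i) := by
  classical
  rw [Finset.mul_sum]
  simp only [WithLp.ofLp_sum, Finset.sum_apply, PiLp.smul_apply, smul_eq_mul, WithLp.ofLp_smul,
    Pi.smul_apply]
  refine Finset.sum_congr rfl fun i _ => ?_
  rw [Finset.sum_eq_single η]
  · simp; ring
  · intro ζ _ h
    simp [h.symm]
  · simp

lemma gauge_single {n : ℕ} {ι : Type} [Fintype ι] (e : ι ↪ Fin n) (ε : ι) :
    gauge (body e) (EuclideanSpace.single (e ε) (1 : ℝ)) = 1 := by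
  classical
  rw [gauge_body, Finset.sum_eq_single ε]
  · simp
  · intro ζ _ h
    simp [h]
  · simp

end Pool.Agent.H92.KConv
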