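import Mathlib

set_option autoImplicit false

open MeasureTheory Real Set Filter Topology

namespace Pool.Agent.H92.KS

abbrev E := EuclideanSpace ℝ (Fin 3)

lemma nsq (x : E) : ‖x‖ ^ 2 = x 0 ^ 2 + x 1 ^ 2 + x 2 ^ 2 := by
  rw [EuclideanSpace.real_norm_sq_eq, Fin.sum_univ_three]

lemma integral_prod3 (f0 f1 f2 : ℝ → ℝ) :
    ∫ z : E, f0 (z 0) * f1 (z 1) * f2 (z 2) = (∫ t, f0 t) * (∫ t, f1 t) * ∫ t, f2 t := by
  have h := integral_fintype_prod_volume_eq_prod (ι := Fin 3) (E := fun _ => ℝ) ![f0, f1, f2]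
  simp only [Fin.prod_univ_three, Matrix.cons_val_zero, Matrix.cons_val_one, Matrix.cons_val_two,
    Matrix.head_cons, Matrix.tail_cons] at h
  rw [← h, ← (PiLp.volume_preserving_toLp (Fin 3)).integral_comp
    (MeasurableEquiv.toLp 2 _).measurableEmbedding]

lemma integrable_prod3 {f0 f1 f2 : ℝ → ℝ} (h0 : Integrable f0) (h1 : Integrable f1)
    (h2 : Integrable f2) : Integrable (fun z : E => f0 (z 0) * f1 (z 1) * f2 (z 2)) := by
  have h := Integrable.fintype_prod (ι := Fin 3) (f := ![f0, f1, f2]) (μ := fun _ => volume)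
    (by intro i; fin_cases i <;> assumption)
  simp only [Fin.prod_univ_three, Matrix.cons_val_zero, Matrix.cons_val_one, Matrix.cons_val_two,
    Matrix.head_cons, Matrix.tail_cons] at h
  rw [← (PiLp.volume_preserving_toLp (Fin 3)).integrable_comp_emb
    (MeasurableEquiv.toLp 2 _).measurableEmbedding]
  exact h

/-- one-dimensional Gaussian -/
noncomputable def w1 (κ a y : ℝ) : ℝ := exp (-(a * y ^ 2) / (4 * κ))

lemma w1_pos (κ a y : ℝ) : 0 < w1 κ a y := exp_pos _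

lemma w1_le_one {κ a : ℝ} (hκ : 0 < κ) (ha : 0 ≤ a) (y : ℝ) : w1 κ a y ≤ 1 := by
  rw [w1, exp_le_one_iff]
  apply div_nonpos_of_nonpos_of_nonneg _ (by positivity)
  have : 0 ≤ a * y ^ 2 := by positivity
  linarith

lemma w1_integrable {κ a : ℝ} (hκ : 0 < κ) (ha : 0 < a) : Integrable (w1 κ a) := by
  have := integrable_exp_neg_mul_sq (b := a / (4 * κ)) (by positivity)
  refine this.congr (Eventually.of_forall fun y => ?_)
  simp only [w1]; congr 1; ring

lemma gauss1 {κ a : ℝ} (hκ : 0 < κ) (ha : 0 ≤ a) (r x : ℝ) :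
    ∫ z : ℝ, w1 κ 1 z * w1 κ a (x - r * z) =
      √(4 * π * κ) * √((1 + a * r ^ 2)⁻¹) * w1 κ (a / (1 + a * r ^ 2)) x := by
  have hb : 0 < 1 + a * r ^ 2 := by positivity
  have h1 : ∀ z : ℝ, w1 κ 1 z * w1 κ a (x - r * z) =
      exp (-((1 + a * r ^ 2) / (4 * κ)) * (z - a * r * x / (1 + a * r ^ 2)) ^ 2) *
        w1 κ (a / (1 + a * r ^ 2)) x := by
    intro z
    simp only [w1, ← exp_add]
    congr 1
    field_simp
    ring
  simp_rw [h1]
  rw [integral_mul_const, integral_sub_right_eq_self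
    (fun z : ℝ => exp (-((1 + a * r ^ 2) / (4 * κ)) * z ^ 2)), integral_gaussian,
    ← sqrt_mul (by positivity)]
  congr 2
  field_simp

/-- unnormalised Gaussian on `ℝ³` -/
noncomputable def eg (κ : ℝ) (z : E) : ℝ := w1 κ 1 (z 0) * w1 κ 1 (z 1) * w1 κ 1 (z 2)

lemma eg_eq (κ : ℝ) (z : E) : eg κ z = exp (-‖z‖ ^ 2 / (4 * κ)) := by
  simp only [eg, w1, ← exp_add, nsq]; congr 1; ring

lemma eg_pos (κ : ℝ) (z : E) : 0 < eg κ z := by rw [eg_eq]; exact exp_pos _

lemma eg_integrable {κ : ℝ} (hκ : 0 < κ) : Integrable (eg κ) :=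
  integrable_prod3 (w1_integrable hκ one_pos) (w1_integrable hκ one_pos) (w1_integrable hκ one_pos)

lemma eg_cont (κ : ℝ) : Continuous (eg κ) := by
  have : eg κ = fun z : E => exp (-‖z‖ ^ 2 / (4 * κ)) := funext (eg_eq κ)
  rw [this]; fun_prop

lemma eg_mono {κ κ' : ℝ} (hκ : 0 < κ) (h : κ ≤ κ') (z : E) : eg κ z ≤ eg κ' z := by
  rw [eg_eq, eg_eq, exp_le_exp, neg_div, neg_div, neg_le_neg_iff]
  exact div_le_div_of_nonneg_left (by positivity) (by positivity) (by linarith)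

/-- positive part of the time -/
def tp (t : ℝ) : ℝ := max t 0

lemma tp_nonneg (t : ℝ) : 0 ≤ tp t := le_max_right _ _
lemma tp_of_nonneg {t : ℝ} (h : 0 ≤ t) : tp t = t := max_eq_left h
lemma tp_of_nonpos {t : ℝ} (h : t ≤ 0) : tp t = 0 := max_eq_right h
@[fun_prop] lemma tp_cont : Continuous tp := continuous_id.max continuous_const

/-- the Gaussian tube weights -/
noncomputable def W (κ μ t : ℝ) (x : E) : ℝ :=
  (1 + tp t)⁻¹ * (w1 κ (μ / (1 + μ * tp t)) (x 0) * w1 κ (1 / (1 + tp t)) (x 1) *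
    w1 κ (1 / (1 + tp t)) (x 2))

lemma W_pos (κ μ t : ℝ) (x : E) : 0 < W κ μ t x := by
  have := tp_nonneg t
  have := w1_pos κ (μ / (1 + μ * tp t)) (x 0)
  have := w1_pos κ (1 / (1 + tp t)) (x 1)
  have := w1_pos κ (1 / (1 + tp t)) (x 2)
  unfold W; positivity

lemma W_le {κ μ : ℝ} (hκ : 0 < κ) (hμ : 0 ≤ μ) (t : ℝ) (x : E) : W κ μ t x ≤ (1 + tp t)⁻¹ := by
  have h := tp_nonneg t
  have a0 := w1_le_one hκ (a := μ / (1 + μ * tp t)) (by positivity) (x 0)
  have a1 := w1_le_one hκ (a := 1 / (1 + tp t)) (by positivity) (x 1)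
  have a2 := w1_le_one hκ (a := 1 / (1 + tp t)) (by positivity) (x 2)
  have b1 := w1_pos κ (1 / (1 + tp t)) (x 1)
  have b2 := w1_pos κ (1 / (1 + tp t)) (x 2)
  unfold W
  apply mul_le_of_le_one_right (by positivity)
  exact mul_le_one₀ (mul_le_one₀ a0 b1.le a1) b2.le a2

lemma W_le_one {κ μ : ℝ} (hκ : 0 < κ) (hμ : 0 ≤ μ) (t : ℝ) (x : E) : W κ μ t x ≤ 1 :=
  (W_le hκ hμ t x).trans (inv_le_one_of_one_le₀ (by linarith [tp_nonneg t]))

lemma W_cont (κ : ℝ) {μ : ℝ} (hμ : 0 ≤ μ) : Continuous (fun q : ℝ × E => W κ μ q.1 q.2) := by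
  unfold W w1
  have h1 : ∀ q : ℝ × E, 1 + tp q.1 ≠ 0 := fun q => by have := tp_nonneg q.1; positivity
  have h2 : ∀ q : ℝ × E, 1 + μ * tp q.1 ≠ 0 := fun q => by have := tp_nonneg q.1; positivity
  fun_prop (disch := assumption)

lemma W_tp (κ μ t : ℝ) (x : E) : W κ μ (tp t) x = W κ μ t x := by
  simp only [W, tp_of_nonneg (tp_nonneg t)]

lemma W_integrable {κ μ : ℝ} (hκ : 0 < κ) (hμ : 0 < μ) (t : ℝ) : Integrable (W κ μ t) := by
  have := tp_nonneg t
  exact (integrable_prod3 (w1_integrable hκ (by positivity)) (w1_integrable hκ (by positivity))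
    (w1_integrable hκ (by positivity))).const_mul _

noncomputable def C0 : ℝ := √(12 * π) ^ 3

lemma C0_pos : 0 < C0 := by unfold C0; have := pi_pos; positivity

lemma eg_W_integrable {κ μ : ℝ} (hκ : 0 < κ) (hμ : 0 ≤ μ) (s r : ℝ) (x : E) :
    Integrable (fun z => eg κ z * W κ μ s (x - r • z)) := by
  refine (eg_integrable hκ).mul_bdd (c := 1) ?_ (Eventually.of_forall fun z => ?_)
  · exact ((W_cont κ hμ).comp (by fun_prop : Continuous fun z : E => (s, x - r • z))).aestronglyMeasurable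
  · rw [Real.norm_of_nonneg (W_pos _ _ _ _).le]; exact W_le_one hκ hμ _ _

lemma eg_W {κ μ : ℝ} (hκ : 0 < κ) (hκ3 : κ ≤ 3) (hμ : 0 ≤ μ) (s r : ℝ) (x : E) :
    ∫ z, eg κ z * W κ μ s (x - r • z) ≤ C0 * W κ μ (tp s + r ^ 2) x := by
  have hs := tp_nonneg s
  obtain ⟨T, hT⟩ : ∃ T, T = tp s := ⟨_, rfl⟩
  have hT0 : 0 ≤ T := hT ▸ hs
  have h1 : ∀ z : E, eg κ z * W κ μ s (x - r • z) = (1 + T)⁻¹ *
      ((w1 κ 1 (z 0) * w1 κ (μ / (1 + μ * T)) (x 0 - r * z 0)) *
       (w1 κ 1 (z 1) * w1 κ (1 / (1 + T)) (x 1 - r * z 1)) *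
       (w1 κ 1 (z 2) * w1 κ (1 / (1 + T)) (x 2 - r * z 2))) := by
    intro z
    simp only [eg, W, ← hT, PiLp.sub_apply, PiLp.smul_apply, smul_eq_mul]; ring
  simp_rw [h1]
  rw [integral_const_mul, integral_prod3 (fun z => w1 κ 1 z * w1 κ (μ / (1 + μ * T)) (x 0 - r * z))
    (fun z => w1 κ 1 z * w1 κ (1 / (1 + T)) (x 1 - r * z))
    (fun z => w1 κ 1 z * w1 κ (1 / (1 + T)) (x 2 - r * z)),
    gauss1 hκ (by positivity), gauss1 hκ (by positivity), gauss1 hκ (by positivity)]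
  have e1 : μ / (1 + μ * T) / (1 + μ / (1 + μ * T) * r ^ 2) = μ / (1 + μ * (T + r ^ 2)) := by
    field_simp; ring
  have e2 : 1 / (1 + T) / (1 + 1 / (1 + T) * r ^ 2) = 1 / (1 + (T + r ^ 2)) := by
    field_simp; ring
  have e3 : √((1 + 1 / (1 + T) * r ^ 2)⁻¹) * √((1 + 1 / (1 + T) * r ^ 2)⁻¹) * (1 + T)⁻¹ =
      (1 + (T + r ^ 2))⁻¹ := by
    rw [mul_self_sqrt (by positivity)]; field_simp; ring
  have e4 : √((1 + μ / (1 + μ * T) * r ^ 2)⁻¹) ≤ 1 := by
    rw [Real.sqrt_le_one]; apply inv_le_one_of_one_le₀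
    have : 0 ≤ μ / (1 + μ * T) * r ^ 2 := by positivity
    linarith
  have e5 : √(4 * π * κ) ^ 3 ≤ C0 := by
    unfold C0
    apply pow_le_pow_left₀ (sqrt_nonneg _)
    apply sqrt_le_sqrt; nlinarith [pi_pos]
  rw [e1, e2, W, ← hT, tp_of_nonneg (by positivity : 0 ≤ T + r ^ 2), ← e3]
  have p0 := w1_pos κ (μ / (1 + μ * (T + r ^ 2))) (x 0)
  have p1 := w1_pos κ (1 / (1 + (T + r ^ 2))) (x 1)
  have p2 := w1_pos κ (1 / (1 + (T + r ^ 2))) (x 2)
  generalize w1 κ (μ / (1 + μ * (T + r ^ 2))) (x 0) = a0 at *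
  generalize w1 κ (1 / (1 + (T + r ^ 2))) (x 1) = a1 at *
  generalize w1 κ (1 / (1 + (T + r ^ 2))) (x 2) = a2 at *
  have q1 := sqrt_nonneg ((1 + 1 / (1 + T) * r ^ 2)⁻¹)
  have q0 := sqrt_nonneg ((1 + μ / (1 + μ * T) * r ^ 2)⁻¹)
  generalize √((1 + 1 / (1 + T) * r ^ 2)⁻¹) = b1 at *
  generalize √((1 + μ / (1 + μ * T) * r ^ 2)⁻¹) = b0 at *
  have q2 := sqrt_nonneg (4 * π * κ)
  generalize √(4 * π * κ) = c at *
  have : (1 + T)⁻¹ * (c * b0 * a0 * (c * b1 * a1) * (c * b1 * a2)) =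
      (c ^ 3 * b0) * (b1 * b1 * (1 + T)⁻¹ * (a0 * a1 * a2)) := by ring
  rw [this]
  apply mul_le_mul_of_nonneg_right _ (by positivity)
  calc c ^ 3 * b0 ≤ c ^ 3 * 1 := by gcongr
    _ ≤ C0 := by rw [mul_one]; exact e5

/-- the basic averaging operator -/
noncomputable def K (k : E → ℝ) (r : ℝ) (f : E → ℝ) (x : E) : ℝ := ∫ z, k z * f (x - r • z)

/-- the weight of the function space -/
noncomputable abbrev W0 : ℝ → E → ℝ := W 3 0

lemma W_le_W0 {μ : ℝ} (hμ : 0 ≤ μ) (t : ℝ) (x : E) : W 2 μ t x ≤ W0 t x := by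
  have h := tp_nonneg t
  unfold W0 W
  apply mul_le_mul_of_nonneg_left _ (by positivity)
  simp only [w1, ← exp_add, exp_le_exp]
  have a0 : 0 ≤ μ / (1 + μ * tp t) * x 0 ^ 2 := by positivity
  have a1 : 0 ≤ 1 / (1 + tp t) * x 1 ^ 2 := by positivity
  have a2 : 0 ≤ 1 / (1 + tp t) * x 2 ^ 2 := by positivity
  simp only [zero_div, zero_mul, neg_zero]
  linarith

/-- two-weight bound -/
lemma K_bound {k f : E → ℝ} (hk : ∀ z, |k z| ≤ eg 2 z) {μ A B s : ℝ} (hμ : 0 ≤ μ) (hA : 0 ≤ A)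
    (hB : 0 ≤ B) (hf : ∀ y, |f y| ≤ A * W 2 μ s y + B * W0 s y) (r : ℝ) (x : E) :
    |K k r f x| ≤ C0 * (A * W 2 μ (tp s + r ^ 2) x + B * W0 (tp s + r ^ 2) x) := by
  have i1 := (eg_W_integrable two_pos hμ s r x).const_mul A
  have i2 := (eg_W_integrable three_pos le_rfl s r x).const_mul B
  have h := norm_integral_le_of_norm_le (f := fun z => k z * f (x - r • z)) (i1.add i2)
    (Eventually.of_forall fun z => by
      rw [Real.norm_eq_abs, abs_mul]
      have a := hk z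
      have b := hf (x - r • z)
      have c := eg_mono two_pos (by norm_num : (2 : ℝ) ≤ 3) z
      have p1 := (W_pos 2 μ s (x - r • z)).le
      have p2 := (W_pos 3 0 s (x - r • z)).le
      calc |k z| * |f (x - r • z)| ≤ eg 2 z * (A * W 2 μ s (x - r • z) + B * W0 s (x - r • z)) :=
            mul_le_mul a b (abs_nonneg _) (eg_pos _ _).le
        _ = A * (eg 2 z * W 2 μ s (x - r • z)) + B * (eg 2 z * W0 s (x - r • z)) := by ring
        _ ≤ _ := by simp only [Pi.add_apply]; gcongr)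
  rw [integral_add' i1 i2, integral_const_mul, integral_const_mul] at h
  have j1 := eg_W two_pos (by norm_num) hμ s r x
  have j2 := eg_W three_pos le_rfl le_rfl s r x
  rw [Real.norm_eq_abs] at h
  refine h.trans ?_
  have := mul_le_mul_of_nonneg_left j1 hA
  have := mul_le_mul_of_nonneg_left j2 hB
  linarith

lemma K_bound0 {k f : E → ℝ} (hk : ∀ z, |k z| ≤ eg 2 z) {B s : ℝ}
    (hB : 0 ≤ B) (hf : ∀ y, |f y| ≤ B * W0 s y) (r : ℝ) (x : E) :
    |K k r f x| ≤ C0 * B * W0 (tp s + r ^ 2) x := by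
  have := K_bound hk (μ := 0) (A := 0) le_rfl le_rfl hB (by simpa using hf) r x
  simpa [mul_assoc] using this

lemma K_integrable {k f : E → ℝ} (hk : Integrable k) (hf : Continuous f) {M : ℝ}
    (hM : ∀ y, |f y| ≤ M) (r : ℝ) (x : E) : Integrable (fun z => k z * f (x - r • z)) :=
  hk.mul_bdd (c := M) (hf.comp (by fun_prop : Continuous fun z : E => x - r • z)).aestronglyMeasurable
    (Eventually.of_forall fun z => hM _)

lemma K_add {k f h : E → ℝ} (hk : Integrable k) (hf : Continuous f) (hh : Continuous h) {M M' : ℝ}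
    (hM : ∀ y, |f y| ≤ M) (hM' : ∀ y, |h y| ≤ M') (r : ℝ) (x : E) :
    K k r (fun y => f y + h y) x = K k r f x + K k r h x := by
  simp only [K, mul_add]
  exact integral_add (K_integrable hk hf hM r x) (K_integrable hk hh hM' r x)

lemma K_smul (k f : E → ℝ) (c r : ℝ) (x : E) : K k r (fun y => c * f y) x = c * K k r f x := by
  simp only [K, ← integral_const_mul]; congr 1; funext z; ring

lemma K_scale (k f : E → ℝ) (l r : ℝ) (x h : E) :
    K k r (fun y => f (l • y + h)) x = K k (l * r) f (l • x + h) := by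
  simp only [K]; congr 1; funext z; congr 2
  rw [smul_sub, smul_smul]; abel

lemma K_abs_le {k f : E → ℝ} (hk : Integrable k) {M : ℝ} (hM : ∀ y, |f y| ≤ M) (r : ℝ) (x : E) :
    |K k r f x| ≤ (∫ z, |k z|) * M := by
  rw [← integral_mul_const]
  refine norm_integral_le_of_norm_le (f := fun z => k z * f (x - r • z))
    (hk.abs.mul_const M) (Eventually.of_forall fun z => ?_)
  rw [Real.norm_eq_abs, abs_mul]
  exact mul_le_mul_of_nonneg_left (hM _) (abs_nonneg _)

lemma K_cont {P : Type*} [TopologicalSpace P] [FirstCountableTopology P] {k : E → ℝ}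
    (hk : Integrable k) {F : P → E → ℝ} (hF : Continuous (fun q : P × E => F q.1 q.2)) {M : ℝ}
    (hM : ∀ p y, |F p y| ≤ M) {ρ : P → ℝ} (hρ : Continuous ρ) {ξ : P → E} (hξ : Continuous ξ) :
    Continuous fun p => K k (ρ p) (F p) (ξ p) := by
  refine continuous_of_dominated (bound := fun z => |k z| * M) (fun p => ?_) (fun p => ?_)
    (hk.abs.mul_const M) (Eventually.of_forall fun z => ?_)
  · exact (K_integrable hk (hF.comp (by fun_prop : Continuous fun y : E => (p, y))) (hM p)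
      _ _).aestronglyMeasurable
  · refine Eventually.of_forall fun z => ?_
    rw [Real.norm_eq_abs, abs_mul]
    exact mul_le_mul_of_nonneg_left (hM _ _) (abs_nonneg _)
  · exact continuous_const.mul (hF.comp (by fun_prop : Continuous fun p : P => (p, ξ p - ρ p • z)))

/-! ### The heat kernel at time one and its gradient -/

noncomputable def cg : ℝ := (√(4 * π) ^ 3)⁻¹

lemma cg_pos : 0 < cg := by unfold cg; have := pi_pos; positivity

lemma cg_le : cg ≤ 1 := by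
  unfold cg
  apply inv_le_one_of_one_le₀
  apply one_le_pow₀
  rw [one_le_sqrt]; linarith [pi_gt_three]

noncomputable def g (z : E) : ℝ := cg * eg 1 z

noncomputable def dg (i : Fin 3) (z : E) : ℝ := -(z i) / 2 * g z

lemma g_pos (z : E) : 0 < g z := mul_pos cg_pos (eg_pos _ _)

lemma g_integral : ∫ z, g z = 1 := by
  have h := gauss1 (κ := 1) (a := 0) one_pos le_rfl 0 0
  simp only [w1, zero_mul, neg_zero, zero_div, exp_zero, mul_one, add_zero, inv_one,
    sqrt_one] at h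
  unfold g eg
  rw [integral_const_mul, integral_prod3 (w1 1 1) (w1 1 1) (w1 1 1)]
  have : ∫ t, w1 1 1 t = √(4 * π) := by simpa [w1] using h
  rw [this, cg]
  have : 0 < √(4 * π) := by have := pi_pos; positivity
  field_simp

lemma g_le (z : E) : |g z| ≤ eg 2 z := by
  rw [abs_of_pos (g_pos z), g]
  calc cg * eg 1 z ≤ 1 * eg 1 z := mul_le_mul_of_nonneg_right cg_le (eg_pos _ _).le
    _ ≤ eg 2 z := by rw [one_mul]; exact eg_mono one_pos one_le_two z

lemma norm_g_le (z : E) : ‖z‖ / 2 * g z ≤ eg 2 z := by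
  have h1 : ‖z‖ / 2 ≤ exp (‖z‖ ^ 2 / 8) := by
    have := add_one_le_exp (‖z‖ ^ 2 / 8)
    nlinarith [sq_nonneg (‖z‖ - 2)]
  have h2 : eg 2 z = exp (‖z‖ ^ 2 / 8) * eg 1 z := by
    rw [eg_eq, eg_eq, ← exp_add]; congr 1; ring
  rw [h2, g]
  calc ‖z‖ / 2 * (cg * eg 1 z) ≤ exp (‖z‖ ^ 2 / 8) * (1 * eg 1 z) := by
        apply mul_le_mul h1 (mul_le_mul_of_nonneg_right cg_le (eg_pos _ _).le)
          (mul_pos cg_pos (eg_pos _ _)).le (exp_pos _).le
    _ = _ := by rw [one_mul]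

lemma dg_le (i : Fin 3) (z : E) : |dg i z| ≤ eg 2 z := by
  refine le_trans ?_ (norm_g_le z)
  rw [dg, abs_mul, abs_of_pos (g_pos z), abs_div, abs_neg, abs_two]
  have : |z i| ≤ ‖z‖ := by simpa using PiLp.norm_apply_le z i
  have := (g_pos z).le
  gcongr

lemma g_cont : Continuous g := continuous_const.mul (eg_cont 1)

lemma dg_cont (i : Fin 3) : Continuous (dg i) := by
  have := g_cont
  unfold dg; fun_prop

lemma integrable_of_le {k : E → ℝ} (hk : Continuous k) (h : ∀ z, |k z| ≤ eg 2 z) : Integrable k :=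
  (eg_integrable two_pos).mono' hk.aestronglyMeasurable (Eventually.of_forall h)

lemma g_integrable : Integrable g := integrable_of_le g_cont g_le

lemma dg_integrable (i : Fin 3) : Integrable (dg i) := integrable_of_le (dg_cont i) (dg_le i)

lemma K_g_zero (f : E → ℝ) (x : E) : K g 0 f x = f x := by
  simp only [K, zero_smul, sub_zero]
  rw [integral_mul_const, g_integral, one_mul]

end Pool.Agent.H92.KS
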