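import Pool.Agent.H92.KS1

set_option autoImplicit false

open MeasureTheory Real Set Filter Topology BoundedContinuousFunction

namespace Pool.Agent.H92.KS

/-- the Newtonian field, by subordination -/
noncomputable def Vf (i : Fin 3) (f : E → ℝ) (x : E) : ℝ := 2 * ∫ r in Ioi (0 : ℝ), K (dg i) r f x

/-- the Duhamel term -/
noncomputable def Df (k : E → ℝ) (F : ℝ × E → ℝ) (q : ℝ × E) : ℝ :=
  ∫ r in (0 : ℝ)..√q.1, 2 * K k r (fun y => F (q.1 - r ^ 2, y)) q.2

noncomputable def sq (s : ℝ) : ℝ := √(1 + tp s)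

lemma one_le_sq (s : ℝ) : 1 ≤ sq s := by
  unfold sq; rw [one_le_sqrt]; linarith [tp_nonneg s]

lemma sq_pos (s : ℝ) : 0 < sq s := lt_of_lt_of_le one_pos (one_le_sq s)

lemma sq_sq (s : ℝ) : sq s ^ 2 = 1 + tp s := sq_sqrt (by linarith [tp_nonneg s])

@[fun_prop] lemma sq_cont : Continuous sq := by unfold sq; fun_prop

lemma int_inv {a : ℝ} (ha : 0 < a) : ∫ r in Ioi (0 : ℝ), (a ^ 2 + r ^ 2)⁻¹ = π / (2 * a) := by
  have h := integral_comp_mul_left_Ioi (fun x : ℝ => (1 + x ^ 2)⁻¹) 0 (b := a⁻¹) (by positivity)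
  rw [mul_zero, integral_Ioi_inv_one_add_sq, arctan_zero, sub_zero, inv_inv, smul_eq_mul] at h
  have : ∀ r : ℝ, (a ^ 2 + r ^ 2)⁻¹ = (a ^ 2)⁻¹ * (1 + (a⁻¹ * r) ^ 2)⁻¹ := by
    intro r; field_simp
  simp_rw [this]
  rw [integral_const_mul, h]; field_simp

lemma int_inv_integrable {a : ℝ} (ha : 1 ≤ a) : Integrable (fun r : ℝ => (a ^ 2 + r ^ 2)⁻¹) := by
  refine integrable_inv_one_add_sq.mono' ?_ (Eventually.of_forall fun r => ?_)
  · have : ∀ r : ℝ, a ^ 2 + r ^ 2 ≠ 0 := fun r => by positivity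
    exact (by fun_prop (disch := assumption) :
      Continuous fun r : ℝ => (a ^ 2 + r ^ 2)⁻¹).aestronglyMeasurable
  · rw [Real.norm_of_nonneg (by positivity)]
    apply inv_anti₀ (by positivity); nlinarith

lemma K_bound1 {k f : E → ℝ} (hk : ∀ z, |k z| ≤ eg 2 z) {B s : ℝ}
    (hB : 0 ≤ B) (hf : ∀ y, |f y| ≤ B * W0 s y) (r : ℝ) (x : E) :
    |K k r f x| ≤ C0 * B * (sq s ^ 2 + r ^ 2)⁻¹ := by
  refine (K_bound0 hk hB hf r x).trans (mul_le_mul_of_nonneg_left ?_ (by have := C0_pos; positivity))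
  have := W_le three_pos le_rfl (tp s + r ^ 2) x
  have h0 : 0 ≤ tp s + r ^ 2 := by have := tp_nonneg s; positivity
  rwa [tp_of_nonneg h0, ← add_assoc, ← sq_sq] at this

lemma W0_bdd {f : E → ℝ} {B s : ℝ} (hB : 0 ≤ B) (hf : ∀ y, |f y| ≤ B * W0 s y) (y : E) :
    |f y| ≤ B :=
  (hf y).trans (mul_le_of_le_one_right hB (W_le_one three_pos le_rfl _ _))

lemma K_cont_r {k f : E → ℝ} (hk : Integrable k) (hf : Continuous f) {M : ℝ} (hM : ∀ y, |f y| ≤ M)
    (x : E) : Continuous fun r => K k r f x :=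
  K_cont (F := fun _ : ℝ => f) hk (hf.comp continuous_snd) (fun _ => hM) continuous_id
    continuous_const

lemma K_integrableOn {k f : E → ℝ} (hk : ∀ z, |k z| ≤ eg 2 z) (hki : Integrable k)
    (hc : Continuous f) {B s : ℝ}
    (hB : 0 ≤ B) (hf : ∀ y, |f y| ≤ B * W0 s y) (x : E) :
    Integrable (fun r => K k r f x) :=
  ((int_inv_integrable (one_le_sq s)).const_mul (C0 * B)).mono'
    (K_cont_r hki hc (W0_bdd hB hf) x).aestronglyMeasurable
    (Eventually.of_forall fun r => K_bound1 hk hB hf r x)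

lemma Vf_bound (i : Fin 3) {f : E → ℝ} {B s : ℝ} (hB : 0 ≤ B) (hf : ∀ y, |f y| ≤ B * W0 s y)
    (x : E) : |Vf i f x| ≤ π * C0 * B / sq s := by
  have h := norm_integral_le_of_norm_le (μ := volume.restrict (Ioi (0 : ℝ)))
    (f := fun r => K (dg i) r f x)
    ((int_inv_integrable (one_le_sq s)).const_mul (C0 * B)).integrableOn
    (Eventually.of_forall fun r => K_bound1 (dg_le i) hB hf r x)
  rw [integral_const_mul, int_inv (sq_pos s), Real.norm_eq_abs] at h
  rw [Vf, abs_mul, abs_two]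
  have := sq_pos s
  calc _ ≤ 2 * (C0 * B * (π / (2 * sq s))) := by gcongr
    _ = _ := by field_simp

lemma Vf_cont (i : Fin 3) {P : Type*} [TopologicalSpace P] [FirstCountableTopology P]
    {F : P → E → ℝ} (hF : Continuous (fun q : P × E => F q.1 q.2)) {B : ℝ} (hB : 0 ≤ B)
    {σ : P → ℝ} (hM : ∀ p y, |F p y| ≤ B * W0 (σ p) y) {ξ : P → E} (hξ : Continuous ξ) :
    Continuous fun p => Vf i (F p) (ξ p) := by
  refine continuous_const.mul (continuous_of_dominated
    (bound := fun r => C0 * B * (1 + r ^ 2)⁻¹) (fun p => ?_) (fun p => ?_)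
    (integrable_inv_one_add_sq.const_mul _).integrableOn (Eventually.of_forall fun r => ?_))
  · exact (K_cont_r (dg_integrable i) (hF.comp (by fun_prop : Continuous fun y : E => (p, y)))
      (W0_bdd hB (hM p)) _).aestronglyMeasurable
  · refine Eventually.of_forall fun r => (K_bound1 (dg_le i) hB (hM p) r _).trans ?_
    apply mul_le_mul_of_nonneg_left _ (by have := C0_pos; positivity)
    apply inv_anti₀ (by positivity); nlinarith [one_le_sq (σ p)]
  · exact K_cont (dg_integrable i) hF (fun p => W0_bdd hB (hM p)) continuous_const hξ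

lemma Vf_add (i : Fin 3) {f h : E → ℝ} (hf : Continuous f) (hh : Continuous h) {B B' s : ℝ}
    (hB : 0 ≤ B) (hB' : 0 ≤ B') (hfb : ∀ y, |f y| ≤ B * W0 s y) (hhb : ∀ y, |h y| ≤ B' * W0 s y)
    (x : E) : Vf i (fun y => f y + h y) x = Vf i f x + Vf i h x := by
  simp only [Vf, K_add (dg_integrable i) hf hh (W0_bdd hB hfb) (W0_bdd hB' hhb)]
  rw [integral_add (K_integrableOn (dg_le i) (dg_integrable i) hf hB hfb x).integrableOn
    (K_integrableOn (dg_le i) (dg_integrable i) hh hB' hhb x).integrableOn, mul_add]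

lemma Vf_smul (i : Fin 3) (f : E → ℝ) (c : ℝ) (x : E) :
    Vf i (fun y => c * f y) x = c * Vf i f x := by
  simp only [Vf, K_smul, integral_const_mul]; ring

lemma Vf_scale (i : Fin 3) (f : E → ℝ) {l : ℝ} (hl : 0 < l) (x h : E) :
    Vf i (fun y => f (l • y + h)) x = l⁻¹ * Vf i f (l • x + h) := by
  simp only [Vf, K_scale]
  rw [integral_comp_mul_left_Ioi (fun r => K (dg i) r f (l • x + h)) 0 hl, mul_zero, smul_eq_mul]
  ring

lemma int_sqrt_bound {ρ : ℝ} (hρ : 0 < ρ) :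
    ∫ r in (0 : ℝ)..ρ, (√(1 + (ρ - r) * ρ))⁻¹ ≤ 2 := by
  have hd : ∀ r ∈ uIcc 0 ρ, HasDerivAt (fun r => -(2 / ρ) * √(1 + (ρ - r) * ρ))
      (√(1 + (ρ - r) * ρ))⁻¹ r := by
    intro r hr
    rw [uIcc_of_le hρ.le] at hr
    have h0 : 0 < 1 + (ρ - r) * ρ := by have := sub_nonneg.2 hr.2; positivity
    have h1 : HasDerivAt (fun r => 1 + (ρ - r) * ρ) (-ρ) r := by
      simpa using (((hasDerivAt_id' r).const_sub ρ).mul_const ρ).const_add 1
    refine ((h1.sqrt h0.ne').const_mul _).congr_deriv ?_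
    field_simp
  have hc : ContinuousOn (fun r => (√(1 + (ρ - r) * ρ))⁻¹) (uIcc 0 ρ) := by
    refine ContinuousOn.inv₀ (by fun_prop) fun r hr => ?_
    rw [uIcc_of_le hρ.le] at hr
    have h0 : 0 < 1 + (ρ - r) * ρ := by have := sub_nonneg.2 hr.2; positivity
    exact (sqrt_pos.2 h0).ne'
  rw [intervalIntegral.integral_eq_sub_of_hasDerivAt hd hc.intervalIntegrable]
  simp only [sub_self, zero_mul, add_zero, sqrt_one, mul_one, sub_zero]
  have : √(1 + ρ * ρ) ≤ 1 + ρ := by
    rw [sqrt_le_left (by positivity)]; nlinarith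
  have h2 : 2 / ρ * √(1 + ρ * ρ) ≤ 2 / ρ * (1 + ρ) := by gcongr
  have h3 : 2 / ρ * (1 + ρ) = 2 / ρ + 2 := by field_simp
  linarith

lemma Df_bound {k : E → ℝ} (hk : ∀ z, |k z| ≤ eg 2 z) {F : ℝ × E → ℝ} {μ A B : ℝ} (hμ : 0 ≤ μ)
    (hA : 0 ≤ A) (hB : 0 ≤ B)
    (hF : ∀ s y, |F (s, y)| ≤ (A * W 2 μ s y + B * W0 s y) / sq s) (q : ℝ × E) :
    |Df k F q| ≤ 4 * C0 * (A * W 2 μ q.1 q.2 + B * W0 q.1 q.2) := by
  obtain ⟨t, x⟩ := q
  have p1 := (W_pos 2 μ t x).le
  have p2 := (W_pos 3 0 t x).le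
  have hC := C0_pos
  obtain ⟨c, hc⟩ : ∃ c, c = A * W 2 μ t x + B * W0 t x := ⟨_, rfl⟩
  have hc0 : 0 ≤ c := by rw [hc]; positivity
  simp only [← hc]
  rcases le_or_gt t 0 with ht | ht
  · simp only [Df, sqrt_eq_zero_of_nonpos ht, intervalIntegral.integral_same, abs_zero]
    positivity
  have hρ : 0 < √t := sqrt_pos.2 ht
  have hρ2 : √t ^ 2 = t := sq_sqrt ht.le
  have hcont : ContinuousOn (fun r => (√(1 + (√t - r) * √t))⁻¹) (uIcc 0 √t) := by
    refine ContinuousOn.inv₀ (by fun_prop) fun r hr => ?_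
    rw [uIcc_of_le hρ.le] at hr
    have h0 : 0 < 1 + (√t - r) * √t := by have := sub_nonneg.2 hr.2; positivity
    exact (sqrt_pos.2 h0).ne'
  have h := intervalIntegral.norm_integral_le_of_norm_le (μ := volume) hρ.le
    (f := fun r => 2 * K k r (fun y => F (t - r ^ 2, y)) x)
    (g := fun r => 2 * C0 * c * (√(1 + (√t - r) * √t))⁻¹)
    (Eventually.of_forall fun r hr => ?_) (hcont.intervalIntegrable.const_mul _)
  · rw [intervalIntegral.integral_const_mul (2 * C0 * c)] at h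
    refine h.trans ?_
    calc _ ≤ 2 * C0 * c * 2 := by gcongr; exact int_sqrt_bound hρ
      _ = _ := by ring
  · have hs : 0 ≤ t - r ^ 2 := by nlinarith [hr.1, hr.2]
    have hq := sq_pos (t - r ^ 2)
    have h1 := K_bound hk (f := fun y => F (t - r ^ 2, y)) hμ (A := A / sq (t - r ^ 2))
      (B := B / sq (t - r ^ 2)) (s := t - r ^ 2) (by positivity) (by positivity)
      (fun y => (hF _ y).trans (le_of_eq (by ring))) r x
    rw [tp_of_nonneg hs, sub_add_cancel] at h1
    have h0 : 0 < 1 + (√t - r) * √t := by have := sub_nonneg.2 hr.2; positivity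
    have h2 : (sq (t - r ^ 2))⁻¹ ≤ (√(1 + (√t - r) * √t))⁻¹ := by
      apply inv_anti₀ (sqrt_pos.2 h0)
      unfold sq
      rw [tp_of_nonneg hs]
      apply sqrt_le_sqrt
      nlinarith [mul_nonneg (sub_nonneg.2 hr.2) hr.1.le]
    rw [Real.norm_eq_abs, abs_mul, abs_two]
    calc _ ≤ 2 * (C0 * (A / sq (t - r ^ 2) * W 2 μ t x + B / sq (t - r ^ 2) * W0 t x)) := by gcongr
      _ = 2 * C0 * c * (sq (t - r ^ 2))⁻¹ := by rw [hc]; ring
      _ ≤ _ := by gcongr

lemma Df_integrand_cont {k : E → ℝ} (hk : Integrable k) {F : ℝ × E → ℝ} (hF : Continuous F) {M : ℝ}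
    (hM : ∀ q, |F q| ≤ M) :
    Continuous fun p : (ℝ × E) × ℝ => K k p.2 (fun y => F (p.1.1 - p.2 ^ 2, y)) p.1.2 :=
  K_cont (F := fun (p : (ℝ × E) × ℝ) y => F (p.1.1 - p.2 ^ 2, y)) hk (hF.comp (by fun_prop))
    (fun _ _ => hM _) continuous_snd (by fun_prop)

lemma Df_cont {k : E → ℝ} (hk : Integrable k) {F : ℝ × E → ℝ} (hF : Continuous F) {M : ℝ}
    (hM : ∀ q, |F q| ≤ M) : Continuous (Df k F) :=
  intervalIntegral.continuous_parametric_intervalIntegral_of_continuous
    (f := fun (q : ℝ × E) r => 2 * K k r (fun y => F (q.1 - r ^ 2, y)) q.2)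
    (by exact (continuous_const (y := (2 : ℝ))).mul (Df_integrand_cont hk hF hM)) (by fun_prop)

lemma Df_add {k : E → ℝ} (hk : Integrable k) {F G : ℝ × E → ℝ} (hF : Continuous F)
    (hG : Continuous G) {M M' : ℝ} (hM : ∀ q, |F q| ≤ M) (hM' : ∀ q, |G q| ≤ M') (q : ℝ × E) :
    Df k (fun p => F p + G p) q = Df k F q + Df k G q := by
  unfold Df
  rw [← intervalIntegral.integral_add]
  · congr 1; funext r
    rw [K_add hk (f := fun y => F (q.1 - r ^ 2, y)) (h := fun y => G (q.1 - r ^ 2, y))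
      (hF.comp (by fun_prop)) (hG.comp (by fun_prop)) (fun _ => hM _) (fun _ => hM' _), mul_add]
  · exact (continuous_const.mul ((Df_integrand_cont hk hF hM).comp
      (by fun_prop : Continuous fun r : ℝ => (q, r)))).intervalIntegrable _ _
  · exact (continuous_const.mul ((Df_integrand_cont hk hG hM').comp
      (by fun_prop : Continuous fun r : ℝ => (q, r)))).intervalIntegrable _ _

lemma Df_smul (k : E → ℝ) (F : ℝ × E → ℝ) (c : ℝ) (q : ℝ × E) :
    Df k (fun p => c * F p) q = c * Df k F q := by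
  simp only [Df, K_smul, ← intervalIntegral.integral_const_mul]
  congr 1; funext r; ring

lemma Df_scale (k : E → ℝ) (F : ℝ × E → ℝ) {l : ℝ} (hl : 0 < l) (h : E) (q : ℝ × E) :
    Df k (fun p => F (l ^ 2 * p.1, l • p.2 + h)) q = l⁻¹ * Df k F (l ^ 2 * q.1, l • q.2 + h) := by
  unfold Df
  have h1 : ∀ r : ℝ, K k r (fun y => F (l ^ 2 * (q.1 - r ^ 2), l • y + h)) q.2 =
      K k (l * r) (fun y => F (l ^ 2 * q.1 - (l * r) ^ 2, y)) (l • q.2 + h) := by
    intro r
    rw [← K_scale]; congr 1; funext y; congr 2; ring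
  simp only [h1]
  rw [intervalIntegral.integral_comp_mul_left
    (fun r => 2 * K k r (fun y => F (l ^ 2 * q.1 - r ^ 2, y)) (l • q.2 + h)) hl.ne', mul_zero,
    smul_eq_mul, sqrt_mul (sq_nonneg l), sqrt_sq hl.le]

/-! ### Operators on bounded continuous functions -/

/-- building an operator with values in bounded continuous functions -/
noncomputable def mkOp {U β : Type*} [NormedAddCommGroup U] [NormedSpace ℝ U] [TopologicalSpace β]
    (T : U → β → ℝ) (hc : ∀ u, Continuous (T u)) (C : ℝ) (hC : 0 ≤ C)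
    (hb : ∀ u q, |T u q| ≤ C * ‖u‖) (hadd : ∀ u v q, T (u + v) q = T u q + T v q)
    (hsmul : ∀ (c : ℝ) u q, T (c • u) q = c * T u q) : U →L[ℝ] (β →ᵇ ℝ) :=
  LinearMap.mkContinuous
    { toFun := fun u => ofNormedAddCommGroup (T u) (hc u) (C * ‖u‖) (hb u)
      map_add' := fun u v => by ext q; simp [hadd]
      map_smul' := fun c u => by ext q; simp [hsmul] } C
    (fun u => (norm_le (by positivity)).2 (hb u))

abbrev X := (ℝ × E) →ᵇ ℝ

noncomputable def N (u : X) (q : ℝ × E) : ℝ := u q * W0 q.1 q.2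

lemma N_cont (u : X) : Continuous (N u) := u.continuous.mul (W_cont 3 le_rfl)

lemma N_bound (u : X) (q : ℝ × E) : |N u q| ≤ ‖u‖ * W0 q.1 q.2 := by
  rw [N, abs_mul, abs_of_pos (W_pos _ _ _ _)]
  exact mul_le_mul_of_nonneg_right (u.norm_coe_le_norm q) (W_pos _ _ _ _).le

lemma N_bdd (u : X) (q : ℝ × E) : |N u q| ≤ ‖u‖ :=
  (N_bound u q).trans (mul_le_of_le_one_right (norm_nonneg _) (W_le_one three_pos le_rfl _ _))

lemma N_add (u v : X) (q : ℝ × E) : N (u + v) q = N u q + N v q := by simp [N, add_mul]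

lemma N_smul (c : ℝ) (u : X) (q : ℝ × E) : N (c • u) q = c * N u q := by simp [N, mul_assoc]

noncomputable def opV (i : Fin 3) : X →L[ℝ] X :=
  mkOp (fun u q => sq q.1 * Vf i (fun y => N u (q.1, y)) q.2)
    (fun u => (sq_cont.comp continuous_fst).mul
      (Vf_cont i (F := fun (q : ℝ × E) y => N u (q.1, y)) ((N_cont u).comp (by fun_prop))
        (norm_nonneg u) (σ := fun q => q.1) (fun p y => N_bound u (p.1, y)) continuous_snd))
    (π * C0) (by have := C0_pos; have := pi_pos; positivity)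
    (fun u q => by
      have := Vf_bound i (norm_nonneg u) (s := q.1) (fun y => N_bound u (q.1, y)) q.2
      have hq := sq_pos q.1
      rw [abs_mul, abs_of_pos hq]
      rw [le_div_iff₀ hq] at this
      linarith)
    (fun u v q => by
      simp only [N_add]
      rw [Vf_add i (f := fun y => N u (q.1, y)) (h := fun y => N v (q.1, y))
        ((N_cont u).comp (by fun_prop)) ((N_cont v).comp (by fun_prop)) (norm_nonneg u)
        (norm_nonneg v) (s := q.1) (fun y => N_bound u (q.1, y)) (fun y => N_bound v (q.1, y)),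
        mul_add])
    (fun c u q => by simp only [N_smul, Vf_smul]; ring)

lemma opV_apply (i : Fin 3) (u : X) (q : ℝ × E) :
    opV i u q = sq q.1 * Vf i (fun y => N u (q.1, y)) q.2 := rfl

lemma Nsq_cont (u : X) : Continuous fun p : ℝ × E => N u p / sq p.1 :=
  (N_cont u).div (sq_cont.comp continuous_fst) fun p => (sq_pos _).ne'

lemma Nsq_bdd (u : X) (p : ℝ × E) : |N u p / sq p.1| ≤ ‖u‖ := by
  rw [abs_div, abs_of_pos (sq_pos _)]
  exact (div_le_self (abs_nonneg _) (one_le_sq _)).trans (N_bdd u p)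

noncomputable def opD (i : Fin 3) : X →L[ℝ] X :=
  mkOp (fun u q => Df (dg i) (fun p => N u p / sq p.1) q / W0 q.1 q.2)
    (fun u => (Df_cont (dg_integrable i) (Nsq_cont u) (Nsq_bdd u)).div (W_cont 3 le_rfl)
      fun p => (W_pos _ _ _ _).ne')
    (4 * C0) (by have := C0_pos; positivity)
    (fun u q => by
      have := Df_bound (dg_le i) (F := fun p => N u p / sq p.1) (μ := 0) (A := 0) le_rfl le_rfl
        (norm_nonneg u) (fun s y => by
          rw [abs_div, abs_of_pos (sq_pos _), zero_mul, zero_add]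
          exact div_le_div_of_nonneg_right (N_bound u (s, y)) (sq_pos _).le) q
      rw [abs_div, abs_of_pos (W_pos _ _ _ _), div_le_iff₀ (W_pos _ _ _ _)]
      linarith)
    (fun u v q => by
      simp only [N_add, add_div]
      rw [Df_add (dg_integrable i) (Nsq_cont u) (Nsq_cont v) (Nsq_bdd u) (Nsq_bdd v), add_div])
    (fun c u q => by
      simp only [N_smul, mul_div_assoc, Df_smul])

lemma opD_apply (i : Fin 3) (u : X) (q : ℝ × E) :
    opD i u q = Df (dg i) (fun p => N u p / sq p.1) q / W0 q.1 q.2 := rfl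

lemma fW_bound (f : E →ᵇ ℝ) (y : E) : |f y * W0 0 y| ≤ ‖f‖ * W0 0 y := by
  rw [abs_mul, abs_of_pos (W_pos _ _ _ _)]
  exact mul_le_mul_of_nonneg_right (f.norm_coe_le_norm y) (W_pos _ _ _ _).le

lemma fW_cont (f : E →ᵇ ℝ) : Continuous fun y => f y * W0 0 y :=
  f.continuous.mul ((W_cont 3 le_rfl).comp (by fun_prop : Continuous fun y : E => ((0 : ℝ), y)))

lemma tp_zero_add_sqrt (t : ℝ) : tp 0 + √t ^ 2 = tp t := by
  rw [tp_of_nonneg le_rfl, zero_add, sq_sqrt', tp]

noncomputable def opH : (E →ᵇ ℝ) →L[ℝ] X :=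
  mkOp (fun f q => K g √q.1 (fun y => f y * W0 0 y) q.2 / W0 q.1 q.2)
    (fun f => (K_cont (F := fun (_ : ℝ × E) y => f y * W0 0 y) g_integrable
      ((fW_cont f).comp continuous_snd) (fun _ => W0_bdd (norm_nonneg f) (fW_bound f))
      (by fun_prop) continuous_snd).div (W_cont 3 le_rfl) fun p => (W_pos _ _ _ _).ne')
    C0 C0_pos.le
    (fun f q => by
      have := K_bound0 g_le (norm_nonneg f) (fW_bound f) √q.1 q.2
      rw [tp_zero_add_sqrt, W0, W_tp] at this
      rw [abs_div, abs_of_pos (W_pos _ _ _ _), div_le_iff₀ (W_pos _ _ _ _)]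
      exact this)
    (fun f h q => by
      simp only [BoundedContinuousFunction.coe_add, Pi.add_apply, add_mul]
      rw [K_add g_integrable (fW_cont f) (fW_cont h) (W0_bdd (norm_nonneg f) (fW_bound f))
        (W0_bdd (norm_nonneg h) (fW_bound h)), add_div])
    (fun c f q => by
      simp only [BoundedContinuousFunction.coe_smul, Pi.smul_apply, smul_eq_mul, mul_assoc,
        K_smul, mul_div_assoc])

lemma opH_apply (f : E →ᵇ ℝ) (q : ℝ × E) :
    opH f q = K g √q.1 (fun y => f y * W0 0 y) q.2 / W0 q.1 q.2 := rfl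

/-- the nonlinear map whose local inverse solves the equation -/
noncomputable def Phi (u : X) : X := u + ∑ i, opD i (u * opV i u)

/-- the flux -/
noncomputable def flux (i : Fin 3) (n : ℝ × E → ℝ) (p : ℝ × E) : ℝ :=
  n p * Vf i (fun y => n (p.1, y)) p.2

lemma N_Phi (u : X) (q : ℝ × E) :
    N (Phi u) q = N u q + ∑ i, Df (dg i) (flux i (N u)) q := by
  have h : ∀ i, (fun p : ℝ × E => N (u * opV i u) p / sq p.1) = flux i (N u) := by
    intro i; funext p
    have := (sq_pos p.1).ne'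
    simp only [N, flux, BoundedContinuousFunction.coe_mul, Pi.mul_apply, opV_apply]
    field_simp
  have hW := (W_pos 3 0 q.1 q.2).ne'
  rw [Phi, N_add, N, N]
  simp only [BoundedContinuousFunction.sum_apply, opD_apply, h, Finset.sum_mul]
  congr 2; funext i
  field_simp

lemma N_inj {u v : X} (h : ∀ q, N u q = N v q) : u = v := by
  ext q
  exact mul_right_cancel₀ (W_pos 3 0 q.1 q.2).ne' (h q)

lemma N_opH (f : E →ᵇ ℝ) (q : ℝ × E) :
    N (opH f) q = K g √q.1 (fun y => f y * W0 0 y) q.2 := by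
  have hW := (W_pos 3 0 q.1 q.2).ne'
  rw [N, opH_apply]; field_simp

end Pool.Agent.H92.KS
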