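import Pool.Agent.H92.KS2

set_option autoImplicit false

open MeasureTheory Real Set Filter Topology BoundedContinuousFunction

namespace Pool.Agent.H92.KS

/-! ### Smooth families of compactly supported functions -/

section Param

variable {P Z : Type} [NormedAddCommGroup P] [NormedSpace ℝ P] [NormedAddCommGroup Z]
  [NormedSpace ℝ Z]

lemma bcf_exists {V : Type} [NormedAddCommGroup V] {F : P × Z → V} (hF : Continuous F) {C : Set Z}
    (hC : IsCompact C) (h0 : ∀ p, ∀ x ∉ C, F (p, x) = 0) :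
    ∃ G : P → (Z →ᵇ V), ∀ p x, G p x = F (p, x) := by
  have : ∀ p, ∃ b : Z →ᵇ V, ∀ x, b x = F (p, x) := by
    intro p
    have hc : Continuous fun x => F (p, x) := hF.comp (by fun_prop)
    obtain ⟨M, hM⟩ := hc.bounded_above_of_compact_support
      (HasCompactSupport.intro hC (h0 p))
    exact ⟨ofNormedAddCommGroup _ hc M hM, fun _ => rfl⟩
  choose G hG using this
  exact ⟨G, hG⟩

lemma bcf_cont {V : Type} [NormedAddCommGroup V] {F : P × Z → V} (hF : Continuous F) {C : Set Z}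
    (hC : IsCompact C) (h0 : ∀ p, ∀ x ∉ C, F (p, x) = 0) {G : P → (Z →ᵇ V)}
    (hG : ∀ p x, G p x = F (p, x)) : Continuous G := by
  rw [continuous_iff_continuousAt]
  intro p
  rw [ContinuousAt, Metric.tendsto_nhds]
  intro ε hε
  have h1 : ∀ᶠ q in 𝓝 p, ∀ x ∈ C, ‖F (q, x) - F (p, x)‖ < ε / 2 := by
    refine hC.eventually_forall_of_forall_eventually
      (P := fun q x => ‖F (q, x) - F (p, x)‖ < ε / 2) fun y _ => ?_
    have hc : Continuous fun z : P × Z => ‖F (z.1, z.2) - F (p, z.2)‖ :=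
      (hF.sub (hF.comp (by fun_prop : Continuous fun z : P × Z => (p, z.2)))).norm
    exact hc.continuousAt.eventually_lt continuousAt_const (by simpa using hε)
  filter_upwards [h1] with q hq
  rw [dist_eq_norm]
  refine lt_of_le_of_lt ((norm_le (by positivity : 0 ≤ ε / 2)).2 fun x => ?_) (by linarith)
  simp only [BoundedContinuousFunction.coe_sub, Pi.sub_apply, hG]
  by_cases hx : x ∈ C
  · exact (hq x hx).le
  · rw [h0 _ _ hx, h0 _ _ hx, sub_zero, norm_zero]; positivity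

/-- swapping the arguments -/
noncomputable def flipB (Z : Type) [TopologicalSpace Z] {V Y : Type}
    [NormedAddCommGroup V] [NormedSpace ℝ V] [NormedAddCommGroup Y] [NormedSpace ℝ Y]
    (B : Y →L[ℝ] P →L[ℝ] V) : (Z →ᵇ Y) →L[ℝ] (P →L[ℝ] (Z →ᵇ V)) :=
  LinearMap.mkContinuous₂
    (LinearMap.mk₂ ℝ (fun (T : Z →ᵇ Y) (v : P) => (B.flip v).compLeftContinuousBounded Z T)
      (fun T S v => by ext x; simp) (fun c T v => by ext x; simp)
      (fun T v w => by ext x; simp) (fun c T v => by ext x; simp)) ‖B‖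
    (fun T v => (norm_le (by positivity)).2 fun x => by
      refine (B.le_opNorm₂ (T x) v).trans ?_
      have := T.norm_coe_le_norm x
      gcongr)

lemma flipB_apply {V Y : Type} [NormedAddCommGroup V] [NormedSpace ℝ V] [NormedAddCommGroup Y]
    [NormedSpace ℝ Y] (B : Y →L[ℝ] P →L[ℝ] V) (T : Z →ᵇ Y)
    (v : P) (x : Z) : flipB Z B T v x = B (T x) v := rfl

lemma bcf_hasFDerivAt {V Y : Type} [NormedAddCommGroup V] [NormedSpace ℝ V] [NormedAddCommGroup Y]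
    [NormedSpace ℝ Y] (B : Y →L[ℝ] P →L[ℝ] V) (hB : ∀ y, ‖B y‖ ≤ ‖y‖) {G : P → (Z →ᵇ V)}
    {G' : P → (Z →ᵇ Y)} (hG' : Continuous G')
    (h : ∀ p x, HasFDerivAt (fun q => G q x) (B (G' p x)) p) (p : P) :
    HasFDerivAt G (flipB Z B (G' p)) p := by
  rw [hasFDerivAt_iff_isLittleO, Asymptotics.isLittleO_iff]
  intro c hc
  obtain ⟨δ, hδ, hb⟩ := Metric.continuousAt_iff.1 (hG'.continuousAt (x := p)) c hc
  filter_upwards [Metric.ball_mem_nhds p hδ] with q hq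
  refine (norm_le (by positivity)).2 fun x => ?_
  simp only [BoundedContinuousFunction.coe_sub, Pi.sub_apply, flipB_apply]
  refine (convex_ball p δ).norm_image_sub_le_of_norm_hasFDerivWithin_le'
    (f := fun q => G q x) (f' := fun q => B (G' q x)) (fun r _ => (h r x).hasFDerivWithinAt)
    (fun r hr => ?_) (Metric.mem_ball_self hδ) hq
  have h1 := hb (Metric.mem_ball.1 hr)
  rw [dist_eq_norm] at h1
  rw [← map_sub]
  exact (hB _).trans (((G' r - G' p).norm_coe_le_norm x).trans h1.le)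

lemma flipB_contDiff {V Y : Type} [NormedAddCommGroup V] [NormedSpace ℝ V] [NormedAddCommGroup Y]
    [NormedSpace ℝ Y] (B : Y →L[ℝ] P →L[ℝ] V) {G' : P → (Z →ᵇ Y)} {k : ℕ} (hG' : ContDiff ℝ k G') :
    ContDiff ℝ k (fun p => flipB Z B (G' p)) :=
  (flipB Z B).contDiff.comp hG'

lemma bcf_contDiff (k : ℕ) {C : Set Z} (hC : IsCompact C) :
    ∀ {V : Type} [NormedAddCommGroup V] [NormedSpace ℝ V] {F : P × Z → V}, ContDiff ℝ k F →
      (∀ p, ∀ x ∉ C, F (p, x) = 0) → ∀ {G : P → (Z →ᵇ V)}, (∀ p x, G p x = F (p, x)) →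
      ContDiff ℝ k G := by
  induction k with
  | zero =>
    intro V _ _ F hF h0 G hG
    simp only [Nat.cast_zero, contDiff_zero] at hF ⊢
    exact bcf_cont hF hC h0 hG
  | succ k ih =>
    intro V _ _ F hF h0 G hG
    let F' : P × Z → (P →L[ℝ] V) := fun z => (fderiv ℝ F z).comp (ContinuousLinearMap.inl ℝ P Z)
    have hF' : ContDiff ℝ k F' :=
      (hF.fderiv_right (m := k) (by norm_cast)).clm_comp contDiff_const
    have hd : ∀ p x, HasFDerivAt (fun q => F (q, x)) (F' (p, x)) p := fun p x =>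
      ((hF.differentiable (by norm_cast)) (p, x)).hasFDerivAt.comp p (hasFDerivAt_prodMk_left p x)
    have h0' : ∀ p, ∀ x ∉ C, F' (p, x) = 0 := by
      intro p x hx
      have h1 : (fun q => F (q, x)) = fun _ => 0 := funext fun q => h0 q x hx
      have h2 := hd p x
      rw [h1] at h2
      exact h2.unique (hasFDerivAt_const _ _)
    obtain ⟨G', hG'⟩ := bcf_exists hF'.continuous hC h0'
    have hc := ih hF' h0' hG'
    rw [Nat.cast_succ, contDiff_succ_iff_hasFDerivAt]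
    refine ⟨_, flipB_contDiff (ContinuousLinearMap.id ℝ (P →L[ℝ] V)) hc, fun p => ?_⟩
    refine bcf_hasFDerivAt _ (fun y => le_rfl) hc.continuous (fun p x => ?_) p
    simp only [hG, hG']
    exact hd p x

end Param

/-! ### The local inverse -/

lemma Phi_contDiff : ContDiff ℝ 3 Phi := by
  unfold Phi
  refine contDiff_id.add (ContDiff.sum fun i _ => (opD i).contDiff.comp ?_)
  exact contDiff_id.mul (opV i).contDiff

lemma Phi_zero : Phi 0 = 0 := by simp [Phi]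

lemma Phi_fderiv : HasFDerivAt Phi ((ContinuousLinearEquiv.refl ℝ X : X ≃L[ℝ] X) : X →L[ℝ] X) 0 := by
  have h1 : ∀ i, HasFDerivAt (fun u : X => opD i (u * opV i u)) (0 : X →L[ℝ] X) 0 := by
    intro i
    have h := (opD i).hasFDerivAt.comp (0 : X)
      ((hasFDerivAt_id (0 : X)).fun_mul (opV i).hasFDerivAt)
    refine h.congr_fderiv ?_
    ext v q
    simp
  have h2 := (hasFDerivAt_id (0 : X)).fun_add
    (HasFDerivAt.fun_sum (u := Finset.univ) fun i _ => h1 i)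
  refine h2.congr_fderiv ?_
  simp

lemma exists_inverse : ∃ Ψ : X → X, ∃ ρ > 0, (∀ u : X, ‖u‖ < ρ → Ψ (Phi u) = u) ∧
    ∀ ε > 0, ∃ δ > 0, ∀ y : X, ‖y‖ < δ → Phi (Ψ y) = y ∧ ‖Ψ y‖ < ε ∧ ContDiffAt ℝ 3 Ψ y := by
  have hc : ContDiffAt ℝ 3 Phi 0 := Phi_contDiff.contDiffAt
  have hs := hc.hasStrictFDerivAt' Phi_fderiv (by norm_num)
  obtain ⟨ρ, hρ, h1⟩ := Metric.eventually_nhds_iff.1 hs.eventually_left_inverse
  refine ⟨hc.localInverse Phi_fderiv (by norm_num), ρ, hρ,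
    fun u hu => h1 (by rwa [dist_zero_right]), fun ε hε => ?_⟩
  have h2 := hs.eventually_right_inverse
  have h3 := Metric.tendsto_nhds.1 hs.localInverse_tendsto ε hε
  have h4 := (hc.to_localInverse Phi_fderiv (by norm_num)).eventually (by simp)
  rw [Phi_zero] at h2 h3 h4
  obtain ⟨δ, hδ, h5⟩ := Metric.eventually_nhds_iff.1 (h2.and (h3.and h4))
  refine ⟨δ, hδ, fun y hy => ?_⟩
  obtain ⟨a, b, c⟩ := h5 (y := y) (by rwa [dist_zero_right])
  exact ⟨a, by rwa [dist_zero_right] at b, c⟩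

/-! ### Decay of small solutions -/

lemma flux_bound (i : Fin 3) (u : X) {b : ℝ × E → ℝ} (hb : ∀ q, |N u q| ≤ b q) (q : ℝ × E) :
    |flux i (N u) q| ≤ b q * (π * C0 * ‖u‖) / sq q.1 := by
  rw [flux, abs_mul, mul_div_assoc]
  exact mul_le_mul (hb q) (Vf_bound i (norm_nonneg u) (fun y => N_bound u (q.1, y)) q.2)
    (abs_nonneg _) ((abs_nonneg _).trans (hb q))

lemma decay {u : X} {μ A : ℝ} (hμ : 0 ≤ μ) (hA : 0 ≤ A) (hu : 24 * π * C0 ^ 2 * ‖u‖ ≤ 1)
    (hd : ∀ q, |N (Phi u) q| ≤ A * W 2 μ q.1 q.2) (q : ℝ × E) :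
    |N u q| ≤ 2 * A * W 2 μ q.1 q.2 := by
  have hC := C0_pos
  have hπ := pi_pos
  have key : ∀ m : ℕ, ∀ q : ℝ × E,
      |N u q| ≤ 2 * A * W 2 μ q.1 q.2 + (1 / 2) ^ m * ‖u‖ * W0 q.1 q.2 := by
    intro m
    induction m with
    | zero =>
      intro q
      have := N_bound u q
      have : 0 ≤ 2 * A * W 2 μ q.1 q.2 := by have := W_pos 2 μ q.1 q.2; positivity
      simp only [pow_zero, one_mul]; linarith
    | succ m ih =>
      intro q
      have h1 : ∀ i, |Df (dg i) (flux i (N u)) q| ≤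
          (2 * A * W 2 μ q.1 q.2 + (1 / 2) ^ m * ‖u‖ * W0 q.1 q.2) / 6 := by
        intro i
        have := Df_bound (dg_le i) (F := flux i (N u)) hμ (A := 2 * A * (π * C0 * ‖u‖))
          (B := (1 / 2) ^ m * ‖u‖ * (π * C0 * ‖u‖)) (by positivity) (by positivity)
          (fun s y => (flux_bound i u ih (s, y)).trans (le_of_eq (by ring))) q
        refine this.trans ?_
        have p : 0 ≤ 2 * A * W 2 μ q.1 q.2 + (1 / 2) ^ m * ‖u‖ * W0 q.1 q.2 :=
          (abs_nonneg _).trans (ih q)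
        have := mul_le_mul_of_nonneg_right hu p
        nlinarith
      have h2 := N_Phi u q
      rw [Fin.sum_univ_three] at h2
      have h3 := hd q
      have a0 := abs_le.1 (h1 0)
      have a1 := abs_le.1 (h1 1)
      have a2 := abs_le.1 (h1 2)
      have a3 := abs_le.1 h3
      rw [pow_succ, abs_le]
      constructor <;> nlinarith [a0.1, a0.2, a1.1, a1.2, a2.1, a2.2, a3.1, a3.2]
  have hlim : Tendsto (fun m : ℕ => 2 * A * W 2 μ q.1 q.2 + (1 / 2) ^ m * ‖u‖ * W0 q.1 q.2) atTop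
      (𝓝 (2 * A * W 2 μ q.1 q.2 + 0 * ‖u‖ * W0 q.1 q.2)) :=
    tendsto_const_nhds.add (((tendsto_pow_atTop_nhds_zero_of_lt_one (by norm_num)
      (by norm_num)).mul_const _).mul_const _)
  simpa using ge_of_tendsto' hlim fun m => key m q

/-! ### Scaling -/

lemma w1_scale {l h x T : ℝ} (hl : 19 / 20 ≤ l) (hl' : l ≤ 21 / 20) (hh : |h| ≤ 1 / 20) (hT : 0 ≤ T) :
    w1 2 (1 / (1 + l ^ 2 * T)) (l * x + h) ≤ exp (1 / 8) * w1 3 (1 / (1 + T)) x := by
  simp only [w1, ← exp_add, exp_le_exp]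
  have hD : 1 ≤ 1 + l ^ 2 * T := by have : 0 ≤ l ^ 2 * T := by positivity
                                    linarith
  have h2 : h ^ 2 ≤ 1 / 400 := by have := abs_le.1 hh; nlinarith
  have hl2 : 361 / 400 ≤ l ^ 2 := by nlinarith
  have hl3 : l ^ 2 ≤ 441 / 400 := by nlinarith
  have h3 : 81 / 100 * x ^ 2 - 1 ≤ (l * x + h) ^ 2 := by
    nlinarith [sq_nonneg (l * x + 10 * h), mul_le_mul_of_nonneg_right hl2 (sq_nonneg x)]
  have h4 : 1 + l ^ 2 * T ≤ 441 / 400 * (1 + T) := by nlinarith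
  have h5 : 400 / 441 * (1 / (1 + T)) ≤ 1 / (1 + l ^ 2 * T) := by
    rw [mul_one_div, div_le_div_iff₀ (by positivity) (by positivity)]; linarith
  have h6 : 1 / (1 + l ^ 2 * T) ≤ 1 := by rw [div_le_one (by positivity)]; exact hD
  have h7 : 0 ≤ 1 / (1 + T) := by positivity
  have h8 : 0 ≤ 1 / (1 + l ^ 2 * T) := by positivity
  generalize 1 / (1 + l ^ 2 * T) = a at *
  generalize 1 / (1 + T) = b at *
  have h9 := mul_le_mul_of_nonneg_left h3 h8
  have h10 := mul_le_mul_of_nonneg_right h5 (sq_nonneg x)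
  have h11 : 0 ≤ b * x ^ 2 := by positivity
  nlinarith

noncomputable def C1 : ℝ := 2 * exp (1 / 8) * exp (1 / 8)

lemma C1_pos : 0 < C1 := by unfold C1; positivity

lemma W_scale {μ l : ℝ} {h : E} (hμ : 0 ≤ μ) (hl : 19 / 20 ≤ l) (hl' : l ≤ 21 / 20)
    (hh : ‖h‖ ≤ 1 / 20) (t : ℝ) (x : E) :
    l ^ 2 * W 2 μ (l ^ 2 * t) (l • x + h) ≤ C1 * W0 t x := by
  have hT := tp_nonneg t
  have e : tp (l ^ 2 * t) = l ^ 2 * tp t := by
    unfold tp; rw [mul_max_of_nonneg _ _ (sq_nonneg l), mul_zero]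
  have hi : ∀ i, |h i| ≤ 1 / 20 := fun i =>
    le_trans (by simpa using PiLp.norm_apply_le h i) hh
  have a1 := w1_scale (x := x 1) hl hl' (hi 1) hT
  have a2 := w1_scale (x := x 2) hl hl' (hi 2) hT
  have a0 := w1_le_one two_pos (a := μ / (1 + μ * (l ^ 2 * tp t))) (by positivity) (l * x 0 + h 0)
  have a3 : l ^ 2 * (1 + l ^ 2 * tp t)⁻¹ ≤ 2 * (1 + tp t)⁻¹ := by
    rw [← div_eq_mul_inv, ← div_eq_mul_inv, div_le_div_iff₀ (by positivity) (by positivity)]
    have : 0 ≤ l ^ 2 * tp t := by positivity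
    nlinarith
  have b0 : w1 3 (0 / (1 + 0 * tp t)) (x 0) = 1 := by simp [w1]
  simp only [W0, W, e, PiLp.add_apply, PiLp.smul_apply, smul_eq_mul, b0, C1]
  have p1 := (w1_pos 2 (1 / (1 + l ^ 2 * tp t)) (l * x 1 + h 1)).le
  have p2 := (w1_pos 2 (1 / (1 + l ^ 2 * tp t)) (l * x 2 + h 2)).le
  have p3 := (w1_pos 3 (1 / (1 + tp t)) (x 1)).le
  have p4 := (w1_pos 3 (1 / (1 + tp t)) (x 2)).le
  have p0 := (w1_pos 2 (μ / (1 + μ * (l ^ 2 * tp t))) (l * x 0 + h 0)).le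
  rw [← mul_assoc]
  calc _ ≤ 2 * (1 + tp t)⁻¹ * (1 * (exp (1 / 8) * w1 3 (1 / (1 + tp t)) (x 1)) *
        (exp (1 / 8) * w1 3 (1 / (1 + tp t)) (x 2))) := by gcongr
    _ = _ := by ring

/-- the scaled and translated function -/
noncomputable def Sc (p : ℝ × E) (n : ℝ × E → ℝ) (q : ℝ × E) : ℝ :=
  p.1 ^ 2 * n (p.1 ^ 2 * q.1, p.1 • q.2 + p.2)

lemma Df_flux_scale (i : Fin 3) (n : ℝ × E → ℝ) {p : ℝ × E} (hp : 0 < p.1) (q : ℝ × E) :
    Df (dg i) (flux i (Sc p n)) q = Sc p (Df (dg i) (flux i n)) q := by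
  have h1 : flux i (Sc p n) =
      fun r => p.1 ^ 3 * flux i n (p.1 ^ 2 * r.1, p.1 • r.2 + p.2) := by
    funext r
    simp only [flux, Sc, Vf_smul]
    rw [Vf_scale i (fun y => n (p.1 ^ 2 * r.1, y)) hp]
    field_simp
  rw [h1, Df_smul, Df_scale _ _ hp, Sc]
  field_simp

lemma inv_W0 (x : E) : exp ((x 1 ^ 2 + x 2 ^ 2) / 12) * W0 0 x = 1 := by
  simp only [W0, W, w1, tp_of_nonneg le_rfl, add_zero, inv_one, one_mul, ← exp_add, exp_eq_one_iff]
  ring

/-- the global small solution, with its smooth dependence on the symmetry parameters -/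
theorem exists_solution : ∃ ε > 0, ∀ μ : ℝ, 0 ≤ μ → ∀ n0 : E → ℝ, ContDiff ℝ 3 n0 →
    HasCompactSupport n0 → (∀ x, |n0 x| ≤ ε * W 2 μ 0 x) →
    ∃ U : ℝ × E → X, ContDiffAt ℝ 3 U (1, 0) ∧
      (∀ᶠ p in 𝓝 ((1, 0) : ℝ × E), ∀ q, N (U p) q = Sc p (N (U (1, 0))) q) ∧
      (∃ A, ∀ q, |N (U (1, 0)) q| ≤ A * W 2 μ q.1 q.2) ∧
      ∀ q, N (U (1, 0)) q + ∑ i, Df (dg i) (flux i (N (U (1, 0)))) q = K g √q.1 n0 q.2 := by
  obtain ⟨Ψ, ρ, hρ, hl, hr⟩ := exists_inverse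
  have hC := C0_pos
  have hC1 := C1_pos
  have hπ := pi_pos
  obtain ⟨δ, hδ, hr⟩ := hr (24 * π * C0 ^ 2)⁻¹ (by positivity)
  refine ⟨min (δ / (2 * C0)) (ρ / (4 * C0 * C1)), by positivity, fun μ hμ n0 hn0 hcs hb => ?_⟩
  obtain ⟨ε, hε⟩ : ∃ ε, ε = min (δ / (2 * C0)) (ρ / (4 * C0 * C1)) := ⟨_, rfl⟩
  rw [← hε] at hb
  have hε0 : 0 < ε := by rw [hε]; positivity
  have hε1 : C0 * ε < δ := by
    have : ε ≤ δ / (2 * C0) := hε ▸ min_le_left _ _
    rw [le_div_iff₀ (by positivity)] at this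
    nlinarith
  have hε2 : C1 * (2 * (C0 * ε)) < ρ := by
    have : ε ≤ ρ / (4 * C0 * C1) := hε ▸ min_le_right _ _
    rw [le_div_iff₀ (by positivity)] at this
    nlinarith [mul_pos (mul_pos hC hC1) hε0]
  obtain ⟨R, hR⟩ := hcs.isCompact.isBounded.subset_ball 0
  obtain ⟨R', hR'⟩ : ∃ R', R' = 2 * |R| + 2 := ⟨_, rfl⟩
  have hR0 : 0 < R' := by rw [hR']; positivity
  let χ : ContDiffBump (0 : E) := ⟨R', R' + 1, hR0, by linarith⟩
  let F : (ℝ × E) × E → ℝ := fun z =>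
    χ z.2 * (z.1.1 ^ 2 * n0 (z.1.1 • z.2 + z.1.2) * exp ((z.2 1 ^ 2 + z.2 2 ^ 2) / 12))
  have hF : ContDiff ℝ 3 F := by
    have := χ.contDiff (n := 3)
    simp only [F]
    refine (this.comp contDiff_snd).mul (ContDiff.mul (ContDiff.mul (by fun_prop)
      (hn0.comp (by fun_prop))) (by fun_prop))
  have hF0 : ∀ p, ∀ x ∉ Metric.closedBall (0 : E) (R' + 1), F (p, x) = 0 := by
    intro p x hx
    have : χ x = 0 := χ.zero_of_le_dist (by
      simp only [Metric.mem_closedBall, not_le] at hx; exact hx.le)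
    simp only [F, this, zero_mul]
  obtain ⟨G, hG⟩ := bcf_exists hF.continuous (isCompact_closedBall _ _) hF0
  have hGc : ContDiff ℝ 3 G := bcf_contDiff 3 (isCompact_closedBall _ _) hF hF0 hG
  have hGe : ∀ p : ℝ × E, 19 / 20 ≤ p.1 → ‖p.2‖ ≤ 1 / 20 → ∀ y,
      G p y * W0 0 y = p.1 ^ 2 * n0 (p.1 • y + p.2) := by
    intro p h1 h2 y
    rw [hG]
    simp only [F]
    rw [mul_assoc, mul_assoc, inv_W0, mul_one]
    by_cases hy : ‖y‖ ≤ R'
    · rw [χ.one_of_mem_closedBall (by simpa using hy), one_mul]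
    · have : n0 (p.1 • y + p.2) = 0 := by
        apply image_eq_zero_of_notMem_tsupport
        intro hm
        have h3 := hR hm
        rw [mem_ball_zero_iff] at h3
        have h4 : ‖p.1 • y‖ ≤ ‖p.1 • y + p.2‖ + ‖p.2‖ := by
          simpa using norm_sub_le (p.1 • y + p.2) p.2
        rw [norm_smul, Real.norm_of_nonneg (by linarith)] at h4
        have := le_abs_self R
        push Not at hy
        nlinarith [norm_nonneg y, abs_nonneg R]
      rw [this, mul_zero, mul_zero]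
  have hd : ∀ p : ℝ × E, 19 / 20 ≤ p.1 → ‖p.2‖ ≤ 1 / 20 → ∀ q,
      N (opH (G p)) q = Sc p (fun q => K g √q.1 n0 q.2) q := by
    intro p h1 h2 q
    rw [N_opH]
    simp only [hGe p h1 h2, K_smul, Sc]
    rw [K_scale, sqrt_mul (sq_nonneg _), sqrt_sq (by linarith)]
  have hd0 : ∀ q, N (opH (G (1, 0))) q = K g √q.1 n0 q.2 := by
    intro q
    rw [hd (1, 0) (by norm_num) (by simp)]; simp [Sc]
  have hd1 : ∀ q : ℝ × E, |N (opH (G (1, 0))) q| ≤ C0 * ε * W 2 μ q.1 q.2 := by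
    intro q
    have := K_bound g_le (f := n0) hμ hε0.le (B := 0) (s := 0) le_rfl (by simpa using hb) √q.1 q.2
    rw [tp_zero_add_sqrt, W_tp] at this
    rw [hd0]; linarith
  have hd2 : ‖opH (G (1, 0))‖ < δ := by
    refine lt_of_le_of_lt ((norm_le (by positivity)).2 fun q => ?_) hε1
    have h1 := (hd1 q).trans (mul_le_mul_of_nonneg_left (W_le_W0 hμ q.1 q.2) (by positivity))
    rw [N, abs_mul, abs_of_pos (W_pos _ _ _ _)] at h1
    exact le_of_mul_le_mul_right h1 (W_pos _ _ _ _)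
  obtain ⟨r1, r2, r3⟩ := hr _ hd2
  have hdec : ∀ q, |N (Ψ (opH (G (1, 0)))) q| ≤ 2 * (C0 * ε) * W 2 μ q.1 q.2 := by
    refine decay hμ (by positivity) ?_ (by rw [r1]; exact hd1)
    have := mul_lt_mul_of_pos_left r2 (by positivity : 0 < 24 * π * C0 ^ 2)
    rw [mul_inv_cancel₀ (by positivity)] at this
    exact this.le
  have hmild : ∀ q, N (Ψ (opH (G (1, 0)))) q +
      ∑ i, Df (dg i) (flux i (N (Ψ (opH (G (1, 0)))))) q = K g √q.1 n0 q.2 := by
    intro q; rw [← N_Phi, r1, hd0]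
  refine ⟨fun p => Ψ (opH (G p)), ContDiffAt.comp (g := Ψ) (f := fun p => opH (G p)) (1, 0) r3 (opH.contDiff.comp hGc).contDiffAt, ?_, ⟨_, hdec⟩,
    hmild⟩
  obtain ⟨n, hn⟩ : ∃ n, n = N (Ψ (opH (G (1, 0)))) := ⟨_, rfl⟩
  have hnc : Continuous n := hn ▸ N_cont _
  simp only [← hn] at hdec hmild ⊢
  filter_upwards [Metric.closedBall_mem_nhds ((1, 0) : ℝ × E) (by norm_num : (0 : ℝ) < 1 / 20)]
    with p hp
  rw [Metric.mem_closedBall, Prod.dist_eq, max_le_iff, Real.dist_eq, dist_zero_right, abs_le] at hp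
  obtain ⟨⟨p1, p2⟩, p3⟩ := hp
  have p0 : 0 < p.1 := by linarith
  have hb : ∀ q, ‖Sc p n q / W0 q.1 q.2‖ ≤ C1 * (2 * (C0 * ε)) := by
    intro q
    rw [Real.norm_eq_abs, abs_div, abs_of_pos (W_pos _ _ _ _), div_le_iff₀ (W_pos _ _ _ _), Sc,
      abs_mul, abs_of_nonneg (sq_nonneg _)]
    have h1 := W_scale hμ (l := p.1) (by linarith) (by linarith) p3 q.1 q.2
    have h2 := mul_le_mul_of_nonneg_left (hdec (p.1 ^ 2 * q.1, p.1 • q.2 + p.2)) (sq_nonneg p.1)
    have h3 := mul_le_mul_of_nonneg_left h1 (by positivity : 0 ≤ 2 * (C0 * ε))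
    simp only at h2
    linarith
  have hc : Continuous fun q : ℝ × E => Sc p n q / W0 q.1 q.2 := by
    refine Continuous.div ?_ (W_cont 3 le_rfl) fun q => (W_pos _ _ _ _).ne'
    exact continuous_const.mul (hnc.comp (by fun_prop))
  let v : X := ofNormedAddCommGroup _ hc _ hb
  have hv : N v = Sc p n := by
    funext q
    have := (W_pos 3 0 q.1 q.2).ne'
    simp only [N, v, coe_ofNormedAddCommGroup]
    field_simp
  have hv1 : ‖v‖ < ρ := lt_of_le_of_lt ((norm_le (by positivity)).2 hb) hε2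
  have hv2 : Phi v = opH (G p) := by
    apply N_inj
    intro q
    rw [N_Phi, hd p (by linarith) p3, hv]
    simp only [Df_flux_scale _ n p0, Sc]
    rw [← Finset.mul_sum, ← mul_add, hmild]
  intro q
  rw [← hv2, hl v hv1, hv]

end Pool.Agent.H92.KS
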