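import Pool.Agent.H92.KS3

set_option autoImplicit false

open MeasureTheory Real Set Filter Topology BoundedContinuousFunction

namespace Pool.Agent.H92.KS

/-- spatial translation -/
noncomputable def tr (h : E) : X →L[ℝ] X :=
  compContinuousCLM ℝ ℝ (⟨fun q => (q.1, q.2 + h), by fun_prop⟩ : C(ℝ × E, ℝ × E))

lemma tr_apply (h : E) (a : X) (q : ℝ × E) : tr h a q = a (q.1, q.2 + h) := rfl

lemma tr_tr (h h' : E) (a : X) : tr h (tr h' a) = tr (h + h') a := by
  ext q; simp only [tr_apply, add_assoc]

lemma tr_zero (a : X) : tr 0 a = a := by ext q; simp [tr_apply]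

/-- smooth vectors for the translation group -/
def SV (k : ℕ) (a : X) : Prop := ContDiffAt ℝ k (fun h => tr h a) 0

noncomputable def Dv (a : X) : E →L[ℝ] X := fderiv ℝ (fun h => tr h a) 0

noncomputable def e (i : Fin 3) : E := EuclideanSpace.single i 1

noncomputable def pd (i : Fin 3) (a : X) : X := Dv a (e i)

lemma SV.mono {k : ℕ} {a : X} (h : SV (k + 1) a) : SV k a :=
  ContDiffAt.of_le h (by norm_cast; omega)

lemma SV.has0 {k : ℕ} {a : X} (h : SV (k + 1) a) : HasFDerivAt (fun h => tr h a) (Dv a) 0 :=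
  (ContDiffAt.differentiableAt h (by norm_cast)).hasFDerivAt

lemma SV.has {k : ℕ} {a : X} (h : SV (k + 1) a) (y : E) :
    HasFDerivAt (fun h => tr h a) ((tr y).comp (Dv a)) y := by
  have h1 : HasFDerivAt (fun h => tr h a) (Dv a) (y - y) := by rw [sub_self]; exact h.has0
  have h2 := (tr y).hasFDerivAt.comp y (HasFDerivAt.comp (f := fun x => id x - y) y h1 ((hasFDerivAt_id y).sub_const y))
  have h3 : (fun h => tr h a) = (tr y) ∘ ((fun h => tr h a) ∘ fun x => id x - y) := by
    funext z; simp [tr_tr]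
  rw [h3]
  exact h2.congr_fderiv (by simp)

lemma SV.dv {k : ℕ} {a : X} (h : SV (k + 1) a) (v : E) : SV k (Dv a v) := by
  have h1 : (fun y => tr y (Dv a v)) = fun y => fderiv ℝ (fun h => tr h a) y v := by
    funext y; rw [(h.has y).fderiv]; rfl
  unfold SV
  rw [h1]
  exact (ContDiffAt.fderiv_right (m := k) h (by norm_cast)).clm_apply contDiffAt_const

lemma SV.pd {k : ℕ} {a : X} (h : SV (k + 1) a) (i : Fin 3) : SV k (pd i a) := h.dv _

lemma SV.slice {k : ℕ} {a : X} (h : SV (k + 1) a) (t : ℝ) (x : E) :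
    HasFDerivAt (fun y => a (t, y)) ((evalCLM ℝ (t, x)).comp (Dv a)) x := by
  have h1 : HasFDerivAt (fun h => tr h a) (Dv a) (x - x) := by rw [sub_self]; exact h.has0
  have h2 := (evalCLM ℝ (t, x) : X →L[ℝ] ℝ).hasFDerivAt.comp x
    (HasFDerivAt.comp (f := fun y => id y - x) x h1 ((hasFDerivAt_id x).sub_const x))
  have h3 : (fun y => a (t, y)) = (evalCLM ℝ (t, x) : X →L[ℝ] ℝ) ∘
      ((fun h => tr h a) ∘ fun y => id y - x) := by
    funext z; simp [tr_apply]
  rw [h3]
  exact h2.congr_fderiv (by simp)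

lemma SV.mul {k : ℕ} {a b : X} (ha : SV k a) (hb : SV k b) : SV k (a * b) := by
  have : (fun h => tr h (a * b)) = fun h => tr h a * tr h b := by
    funext h; ext q; simp [tr_apply]
  unfold SV; rw [this]; exact ContDiffAt.mul ha hb

lemma SV.sum {k : ℕ} {a : Fin 3 → X} (ha : ∀ i, SV k (a i)) : SV k (∑ i, a i) := by
  unfold SV; simp only [map_sum]; exact ContDiffAt.sum fun i _ => ha i

lemma pd_mul {k : ℕ} {a b : X} (ha : SV (k + 1) a) (hb : SV (k + 1) b) (i : Fin 3) (q : ℝ × E) :
    pd i (a * b) q = pd i a q * b q + a q * pd i b q := by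
  have h1 := (ha.mul hb).slice q.1 q.2
  have h2 := (ha.slice q.1 q.2).fun_mul (hb.slice q.1 q.2)
  have h3 := congrArg (fun L : E →L[ℝ] ℝ => L (e i)) (h1.unique h2)
  simp only [ContinuousLinearMap.comp_apply, evalCLM_apply, _root_.add_apply, _root_.smul_apply,
    smul_eq_mul] at h3
  simp only [pd]
  rw [h3]; ring

lemma clm_sum (L : E →L[ℝ] X) (v : E) : L v = ∑ i, v i • L (e i) := by
  have : v = ∑ i, v i • e i := by
    ext j; fin_cases j <;> simp [e, Fin.sum_univ_three]
  conv_lhs => rw [this]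
  simp only [map_sum, map_smul]

lemma Dv_apply (a : X) (v : E) (q : ℝ × E) : Dv a v q = ∑ i, v i * pd i a q := by
  rw [clm_sum]; simp [pd, BoundedContinuousFunction.sum_apply]

lemma slice_cont (a : X) (s : ℝ) : Continuous fun y => a (s, y) :=
  a.continuous.comp (by fun_prop)

lemma abs_le_norm (a : X) (q : ℝ × E) : |a q| ≤ ‖a‖ := a.norm_coe_le_norm q

/-- the averaging functional -/
noncomputable def kf {k : E → ℝ} (hk : Integrable k) (r s : ℝ) (x : E) : X →L[ℝ] ℝ :=
  LinearMap.mkContinuous
    { toFun := fun a => K k r (fun y => a (s, y)) x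
      map_add' := fun a b => K_add hk (slice_cont a s) (slice_cont b s) (fun _ => abs_le_norm a _)
        (fun _ => abs_le_norm b _) r x
      map_smul' := fun c a => K_smul k _ c r x } (∫ z, |k z|)
    (fun a => K_abs_le hk (fun _ => abs_le_norm a _) r x)

lemma kf_apply {k : E → ℝ} (hk : Integrable k) (r s : ℝ) (x : E) (a : X) :
    kf hk r s x a = K k r (fun y => a (s, y)) x := rfl

lemma kf_tr {k : E → ℝ} (hk : Integrable k) (r s : ℝ) (x h : E) (a : X) :
    kf hk r s x (tr h a) = kf hk r s (x + h) a := by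
  simp only [kf_apply, K, tr_apply]; congr 1; funext z; congr 3; abel

lemma kf_cont {k : E → ℝ} (hk : Integrable k) (a : X) (x : E) :
    Continuous fun p : ℝ × ℝ => kf hk p.1 p.2 x a :=
  K_cont (F := fun (p : ℝ × ℝ) y => a (p.2, y)) hk (a.continuous.comp (by fun_prop))
    (fun _ _ => abs_le_norm a _) continuous_fst continuous_const

lemma K_deriv_r {k : ℕ} {a : X} (ha : SV (k + 1) a) (s : ℝ) (x : E) (r : ℝ) :
    HasDerivAt (fun r => kf g_integrable r s x a)
      (∑ i, 2 * kf (dg_integrable i) r s x (pd i a)) r := by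
  have hi : ∀ (i : Fin 3) (r : ℝ), Integrable fun z => 2 * (dg i z * pd i a (s, x - r • z)) :=
    fun i r => (K_integrable (dg_integrable i) (slice_cont (pd i a) s)
      (fun _ => abs_le_norm _ _) r x).const_mul 2
  have h := (hasDerivAt_integral_of_dominated_loc_of_deriv_le (μ := volume) (x₀ := r)
    (F := fun r z => g z * a (s, x - r • z))
    (F' := fun r z => ∑ i, 2 * (dg i z * pd i a (s, x - r • z)))
    (bound := fun z => ∑ i, 2 * (|dg i z| * ‖pd i a‖)) univ_mem
    (Eventually.of_forall fun r => (K_integrable g_integrable (slice_cont a s)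
      (fun _ => abs_le_norm _ _) r x).aestronglyMeasurable)
    (K_integrable g_integrable (slice_cont a s) (fun _ => abs_le_norm _ _) r x)
    (integrable_finsetSum _ fun i _ => hi i r).aestronglyMeasurable
    (Eventually.of_forall fun z r _ => ?_)
    (integrable_finsetSum _ fun i _ => ((dg_integrable i).abs.mul_const _).const_mul 2)
    (Eventually.of_forall fun z r _ => ?_)).2
  · rw [integral_finsetSum _ fun i _ => hi i r] at h
    simp only [integral_const_mul] at h
    exact h
  · refine (norm_sum_le _ _).trans (Finset.sum_le_sum fun i _ => ?_)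
    rw [Real.norm_eq_abs, abs_mul, abs_mul, abs_two]
    have := abs_le_norm (pd i a) (s, x - r • z)
    gcongr
  · have h1 : HasDerivAt (fun r : ℝ => x - r • z) (-z) r := by
      simpa using ((hasDerivAt_id r).smul_const z).const_sub x
    refine (((ha.slice s (x - r • z)).comp_hasDerivAt r h1).const_mul (g z)).congr_deriv ?_
    simp only [ContinuousLinearMap.comp_apply, evalCLM_apply, Dv_apply, Finset.mul_sum, dg,
      PiLp.neg_apply]
    exact Finset.sum_congr rfl fun i _ => by ring

lemma g_line (i : Fin 3) (z : E) : HasLineDerivAt ℝ g (dg i z) z (e i) := by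
  have h1 : (fun t : ℝ => g (z + t • e i)) =
      fun t => cg * exp (-(‖z‖ ^ 2 + 2 * z i * t + t ^ 2) / 4) := by
    funext t
    rw [g, eg_eq]
    congr 3
    · rw [nsq, nsq]; fin_cases i <;> simp [e] <;> ring
    · norm_num
  unfold HasLineDerivAt
  rw [h1]
  have h2 : HasDerivAt (fun t : ℝ => -(‖z‖ ^ 2 + 2 * z i * t + t ^ 2) / 4) (-(z i) / 2) 0 := by
    have := (((((hasDerivAt_id' (0 : ℝ)).const_mul (2 * z i)).const_add (‖z‖ ^ 2)).fun_add
      (hasDerivAt_pow 2 (0 : ℝ))).fun_neg).div_const 4
    refine this.congr_deriv ?_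
    simp; ring
  refine (h2.exp.const_mul cg).congr_deriv ?_
  rw [dg, g, eg_eq]; simp; ring

lemma K_ibp {k : ℕ} {a : X} (ha : SV (k + 1) a) (i : Fin 3) (r s : ℝ) (x : E) :
    kf (dg_integrable i) r s x a = r * kf g_integrable r s x (pd i a) := by
  have h := integral_bilinear_hasLineDerivAt_right_eq_neg_left_of_integrable (μ := volume)
    (f := g) (f' := dg i) (g := fun z => a (s, x - r • z))
    (g' := fun z => -r * pd i a (s, x - r • z)) (v := e i) (B := ContinuousLinearMap.mul ℝ ℝ)
    (K_integrable (dg_integrable i) (slice_cont a s) (fun _ => abs_le_norm _ _) r x)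
    (((K_integrable g_integrable (slice_cont (pd i a) s) (fun _ => abs_le_norm _ _)
      r x).const_mul (-r)).congr (Eventually.of_forall fun z => by simp; ring))
    (K_integrable g_integrable (slice_cont a s) (fun _ => abs_le_norm _ _) r x)
    (fun z _ => g_line i z) (fun z _ => ?_)
  · simp only [ContinuousLinearMap.mul_apply'] at h
    have h2 : ∀ z, g z * (-r * pd i a (s, x - r • z)) = -r * (g z * pd i a (s, x - r • z)) :=
      fun z => by ring
    simp only [h2, integral_const_mul] at h
    simp only [kf_apply, K]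
    linarith
  · have h1 : HasFDerivAt (fun z : E => x - r • z) (-(r • ContinuousLinearMap.id ℝ E)) z :=
      ((hasFDerivAt_id z).fun_const_smul r).const_sub x
    have h2 := ((ha.slice s (x - r • z)).comp z h1).hasLineDerivAt (e i)
    have h3 : ((evalCLM ℝ (s, x - r • z)).comp (Dv a)).comp (-(r • ContinuousLinearMap.id ℝ E))
        (e i) = -r * pd i a (s, x - r • z) := by
      simp [pd]
    rw [h3] at h2
    exact h2

noncomputable def lap (a : X) : X := ∑ i, pd i (pd i a)

lemma heat_deriv {a : X} (ha : SV 2 a) (s : ℝ) (x : E) {τ : ℝ} (hτ : 0 < τ) :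
    HasDerivAt (fun τ => kf g_integrable √τ s x a) (kf g_integrable √τ s x (lap a)) τ := by
  refine ((K_deriv_r ha s x √τ).comp τ (hasDerivAt_sqrt hτ.ne')).congr_deriv ?_
  have : 0 < √τ := sqrt_pos.2 hτ
  simp only [K_ibp (ha.pd _), lap, map_sum, Finset.sum_mul]
  refine Finset.sum_congr rfl fun i _ => ?_
  field_simp

lemma heat_ftc {a : X} (ha : SV 2 a) (s : ℝ) (x : E) {τ : ℝ} (hτ : 0 ≤ τ) :
    kf g_integrable √τ s x a = a (s, x) + ∫ σ in (0 : ℝ)..τ, kf g_integrable √σ s x (lap a) := by
  have hc : ∀ b : X, Continuous fun σ : ℝ => kf g_integrable √σ s x b := fun b =>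
    (kf_cont g_integrable b x).comp (by fun_prop : Continuous fun σ : ℝ => (√σ, s))
  rw [intervalIntegral.integral_eq_sub_of_hasDerivAt_of_le hτ (hc a).continuousOn
    (fun σ hσ => heat_deriv ha s x hσ.1) ((hc _).intervalIntegrable _ _)]
  simp [kf_apply, K_g_zero]

lemma leibniz {G G' : ℝ → ℝ → ℝ} (hG : Continuous (Function.uncurry G))
    (hG' : Continuous (Function.uncurry G')) (hd : ∀ b s, HasDerivAt (fun b => G b s) (G' b s) b)
    (t : ℝ) :
    HasDerivAt (fun t => ∫ s in (0 : ℝ)..t, G t s) (G t t + ∫ s in (0 : ℝ)..t, G' t s) t := by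
  have c1 : ∀ b, Continuous (G b) := fun b => hG.comp (by fun_prop : Continuous fun s => (b, s))
  have c2 : ∀ b, Continuous (G' b) := fun b => hG'.comp (by fun_prop : Continuous fun s => (b, s))
  have d2 : ∀ a b, HasDerivAt (fun b => ∫ s in (0 : ℝ)..a, G b s) (∫ s in (0 : ℝ)..a, G' b s) b := by
    intro a b
    obtain ⟨M, hM⟩ := ((isCompact_closedBall b 1).prod (isCompact_uIcc (a := 0)
      (b := a))).exists_bound_of_continuousOn hG'.continuousOn
    exact (intervalIntegral.hasDerivAt_integral_of_dominated_loc_of_deriv_le (μ := volume)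
      (bound := fun _ => M) (Metric.closedBall_mem_nhds b one_pos)
      (Eventually.of_forall fun x => (c1 x).aestronglyMeasurable) ((c1 b).intervalIntegrable _ _)
      (c2 b).aestronglyMeasurable
      (Eventually.of_forall fun s hs x hx => hM (x, s) ⟨hx, uIoc_subset_uIcc hs⟩)
      intervalIntegrable_const (Eventually.of_forall fun s _ x _ => hd x s)).2
  have h := hasStrictFDerivAt_uncurry_coprod (u := (t, t))
    (f := fun a b => ∫ s in (0 : ℝ)..a, G b s)
    (f₁ := fun a b => ContinuousLinearMap.toSpanSingleton ℝ (G b a))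
    (f₂ := fun a b => ContinuousLinearMap.toSpanSingleton ℝ (∫ s in (0 : ℝ)..a, G' b s))
    (Eventually.of_forall fun v =>
      ((c1 v.2).integral_hasStrictDerivAt 0 v.1).hasDerivAt.hasFDerivAt)
    (Eventually.of_forall fun v => (d2 v.1 v.2).hasFDerivAt) ?_ ?_
  · have h2 := HasFDerivAt.comp_hasDerivAt (f := fun x : ℝ => (x, x)) t h.hasFDerivAt
      ((hasDerivAt_id' t).prodMk (hasDerivAt_id' t))
    refine h2.congr_deriv ?_
    simp [Function.HasUncurry.uncurry]
  · exact ((ContinuousLinearMap.toSpanSingletonLIE ℝ ℝ).continuous.comp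
      (hG.comp continuous_swap)).continuousAt
  · exact ((ContinuousLinearMap.toSpanSingletonLIE ℝ ℝ).continuous.comp
      (intervalIntegral.continuous_parametric_intervalIntegral_of_continuous
        (f := fun (v : ℝ × ℝ) s => G' v.2 s)
        (hG'.comp (by fun_prop : Continuous fun w : (ℝ × ℝ) × ℝ => (w.1.2, w.2)))
        continuous_fst)).continuousAt

lemma Du_cont (t : ℝ) (x : E) (a : X) : Continuous fun s : ℝ => kf g_integrable √(t - s) s x a :=
  (kf_cont g_integrable a x).comp (by fun_prop : Continuous fun s : ℝ => (√(t - s), s))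

/-- the Duhamel functional -/
noncomputable def Du (t : ℝ) (x : E) : X →L[ℝ] ℝ :=
  LinearMap.mkContinuous
    { toFun := fun a => ∫ s in (0 : ℝ)..t, kf g_integrable √(t - s) s x a
      map_add' := fun a b => by
        simp only [map_add]
        exact intervalIntegral.integral_add ((Du_cont t x a).intervalIntegrable _ _)
          ((Du_cont t x b).intervalIntegrable _ _)
      map_smul' := fun c a => by simp } ((∫ z, |g z|) * |t|)
    (fun a => by
      have := intervalIntegral.norm_integral_le_of_norm_le_const (a := 0) (b := t)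
        (f := fun s => kf g_integrable √(t - s) s x a) (C := (∫ z, |g z|) * ‖a‖)
        (fun s _ => K_abs_le g_integrable (fun _ => abs_le_norm a _) _ x)
      rw [sub_zero] at this
      exact this.trans (le_of_eq (by ring)))

lemma Du_apply (t : ℝ) (x : E) (a : X) :
    Du t x a = ∫ s in (0 : ℝ)..t, kf g_integrable √(t - s) s x a := rfl

lemma Du_tr (t : ℝ) (x h : E) (a : X) : Du t x (tr h a) = Du t (x + h) a := by
  simp only [Du_apply, kf_tr]

lemma Du_deriv {a : X} (ha : SV 2 a) (x : E) {t : ℝ} (ht : 0 < t) :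
    HasDerivAt (fun t => Du t x a) (a (t, x) + Du t x (lap a)) t := by
  have hΨ : Continuous fun p : ℝ × ℝ => kf g_integrable √p.1 p.2 x (lap a) :=
    (kf_cont g_integrable (lap a) x).comp (by fun_prop : Continuous fun p : ℝ × ℝ => (√p.1, p.2))
  have h := leibniz (G := fun b s => a (s, x) +
      ∫ σ in (0 : ℝ)..(b - s), kf g_integrable √σ s x (lap a))
    (G' := fun b s => kf g_integrable √(b - s) s x (lap a)) ?_
    (hΨ.comp (by fun_prop : Continuous fun p : ℝ × ℝ => (p.1 - p.2, p.2))) ?_ t
  · simp only [sub_self, intervalIntegral.integral_same, add_zero] at h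
    refine h.congr_of_eventuallyEq ?_
    filter_upwards [Ioi_mem_nhds ht] with u hu
    rw [Du_apply]
    refine intervalIntegral.integral_congr fun s hs => ?_
    rw [uIcc_of_le (le_of_lt hu)] at hs
    exact heat_ftc ha s x (sub_nonneg.2 hs.2)
  · refine (a.continuous.comp (by fun_prop : Continuous fun p : ℝ × ℝ => (p.2, x))).add ?_
    exact intervalIntegral.continuous_parametric_intervalIntegral_of_continuous
      (f := fun (p : ℝ × ℝ) σ => kf g_integrable √σ p.2 x (lap a))
      (hΨ.comp (by fun_prop : Continuous fun w : (ℝ × ℝ) × ℝ => (w.2, w.1.2))) (by fun_prop)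
  · intro b s
    have hc : Continuous fun σ : ℝ => kf g_integrable √σ s x (lap a) :=
      hΨ.comp (by fun_prop : Continuous fun σ : ℝ => (σ, s))
    have := ((hc.integral_hasStrictDerivAt 0 (b - s)).hasDerivAt.comp b
      ((hasDerivAt_id' b).sub_const s)).const_add (a (s, x))
    simpa using this

lemma Df_eq_Du {k : ℕ} {a : X} (ha : SV (k + 1) a) (i : Fin 3) {t : ℝ} (ht : 0 ≤ t) (x : E) :
    Df (dg i) a (t, x) = Du t x (pd i a) := by
  have h := intervalIntegral.integral_comp_mul_deriv (a := 0) (b := √t)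
    (f := fun r => t - r ^ 2) (f' := fun r => -(2 * r))
    (g := fun s => kf g_integrable √(t - s) s x (pd i a))
    (fun r _ => by simpa using (hasDerivAt_pow 2 r).const_sub t) (by fun_prop) (Du_cont t x _)
  simp only [sq_sqrt ht, sub_self, ne_eq, OfNat.ofNat_ne_zero, not_false_eq_true, zero_pow,
    sub_zero] at h
  rw [Du_apply, intervalIntegral.integral_symm t 0, ← h, ← intervalIntegral.integral_neg, Df]
  refine intervalIntegral.integral_congr fun r hr => ?_
  rw [uIcc_of_le (sqrt_nonneg t)] at hr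
  have := K_ibp ha i r (t - r ^ 2) x
  rw [kf_apply] at this
  simp only [Function.comp_apply, sub_sub_cancel, sqrt_sq hr.1, this]
  ring

/-- differentiating the mild identity -/
lemma mild_pd {k : ℕ} {a f : X} (ha : SV (k + 1) a) (hf : SV (k + 1) f) {t : ℝ}
    (h : ∀ x, a (t, x) = kf g_integrable √t 0 x a - Du t x f) (i : Fin 3) (x : E) :
    pd i a (t, x) = kf g_integrable √t 0 x (pd i a) - Du t x (pd i f) := by
  have h1 := (evalCLM ℝ (t, x) : X →L[ℝ] ℝ).hasFDerivAt.comp (0 : E) ha.has0
  have h2 := ((kf g_integrable √t 0 x).hasFDerivAt.comp (0 : E) ha.has0).sub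
    ((Du t x).hasFDerivAt.comp (0 : E) hf.has0)
  have h3 : ((evalCLM ℝ (t, x) : X →L[ℝ] ℝ) ∘ fun h => tr h a) =
      ((kf g_integrable √t 0 x) ∘ fun h => tr h a) - ((Du t x) ∘ fun h => tr h f) := by
    funext y
    simp only [Function.comp_apply, evalCLM_apply, tr_apply, Pi.sub_apply, kf_tr, Du_tr, h]
  rw [h3] at h1
  exact congrArg (fun L : E →L[ℝ] ℝ => L (e i)) (h1.unique h2)

/-- a smooth mild solution of the inhomogeneous heat equation is a classical one -/
lemma mild_pde {a f : X} (ha : SV 3 a) (hf : SV 2 f)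
    (h : ∀ t, 0 ≤ t → ∀ x, a (t, x) = kf g_integrable √t 0 x a - Du t x f) {t : ℝ} (ht : 0 < t)
    (x : E) : HasDerivAt (fun s => a (s, x)) (lap a (t, x) - f (t, x)) t := by
  have h1 := (heat_deriv ha.mono 0 x ht).sub (Du_deriv hf x ht)
  have h2 : lap a (t, x) = kf g_integrable √t 0 x (lap a) - Du t x (lap f) := by
    simp only [lap, BoundedContinuousFunction.sum_apply, map_sum, ← Finset.sum_sub_distrib]
    exact Finset.sum_congr rfl fun i _ =>
      mild_pd (ha.mono.pd i) (hf.pd i) (mild_pd ha.mono hf (h t ht.le) i) i x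
  refine (h1.congr_deriv (by rw [h2]; ring)).congr_of_eventuallyEq ?_
  filter_upwards [Ioi_mem_nhds ht] with s hs
  exact h s (le_of_lt hs) x

/-- the divergence of the Newtonian field -/
lemma div_Vf {k : ℕ} {a : X} (ha : SV (k + 1) a) (s : ℝ) {B : ℝ} (hB : 0 ≤ B)
    (h0 : ∀ y, |a (s, y)| ≤ B * W0 s y) (h1 : ∀ i y, |pd i a (s, y)| ≤ B * W0 s y) (x : E) :
    ∑ i, Vf i (fun y => pd i a (s, y)) x = -a (s, x) := by
  have hi : ∀ i, Integrable (fun r => 2 * kf (dg_integrable i) r s x (pd i a))
      (volume.restrict (Ioi (0 : ℝ))) := fun i =>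
    ((K_integrableOn (dg_le i) (dg_integrable i) (slice_cont _ s) hB (h1 i)
      x).const_mul 2).integrableOn
  have hlim : Tendsto (fun r => kf g_integrable r s x a) atTop (𝓝 0) := by
    have h2 : Tendsto (fun r : ℝ => C0 * B * (sq s ^ 2 + r ^ 2)⁻¹) atTop (𝓝 (C0 * B * 0)) :=
      (tendsto_inv_atTop_zero.comp (tendsto_atTop_add_const_left _ _
        (tendsto_pow_atTop two_ne_zero))).const_mul _
    rw [mul_zero] at h2
    exact squeeze_zero_norm (fun r => K_bound1 g_le hB h0 r x) h2
  have h := integral_Ioi_of_hasDerivAt_of_tendsto' (a := 0) (fun r _ => K_deriv_r ha s x r)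
    (integrable_finsetSum _ fun i _ => hi i) hlim
  rw [integral_finsetSum _ fun i _ => hi i] at h
  simp only [integral_const_mul, kf_apply, K_g_zero, zero_sub] at h
  exact h

end Pool.Agent.H92.KS
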