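import Pool.Agent.H92.KS4

set_option autoImplicit false

open MeasureTheory Real Set Filter Topology BoundedContinuousFunction

namespace Pool.Agent.H92.KS

/-! ### The subordinated field is the Newtonian field -/

lemma K_eq (k f : E → ℝ) {r : ℝ} (hr : 0 < r) (x : E) :
    K k r f x = ∫ y, (r ^ 3)⁻¹ * k (r⁻¹ • (x - y)) * f y := by
  have h1 := Measure.integral_comp_smul (volume : Measure E)
    (fun w => k (r⁻¹ • w) * f (x - w)) r
  simp only [smul_smul, inv_mul_cancel₀ hr.ne', one_smul, finrank_euclideanSpace,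
    Fintype.card_fin, smul_eq_mul] at h1
  have h2 := integral_sub_left_eq_self (fun w => k (r⁻¹ • w) * f (x - w)) (volume : Measure E) x
  simp only [sub_sub_cancel] at h2
  rw [K, h1, ← h2, abs_of_pos (by positivity), ← integral_const_mul]
  simp only [mul_assoc]

lemma inner_r (i : Fin 3) (w : E) :
    ∫ r in Ioi (0 : ℝ), (r ^ 3)⁻¹ * dg i (r⁻¹ • w) = -(w i) / (8 * π * ‖w‖ ^ 3) := by
  rcases eq_or_ne w 0 with rfl | hw
  · simp [dg]
  have ha : 0 < ‖w‖ := norm_pos_iff.2 hw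
  have h1 := integral_comp_rpow_Ioi
    (fun u : ℝ => u ^ (2 : ℝ) * exp (-(‖w‖ ^ 2 / 4) * u ^ (2 : ℝ))) (p := -1) (by norm_num)
  rw [integral_rpow_mul_exp_neg_mul_rpow two_pos (by norm_num) (by positivity)] at h1
  have h2 : ∫ r in Ioi (0 : ℝ), (r ^ 3)⁻¹ * dg i (r⁻¹ • w) = ∫ r in Ioi (0 : ℝ),
      (-(w i) / 2 * cg) * ((|(-1 : ℝ)| * r ^ ((-1 : ℝ) - 1)) • ((r ^ (-1 : ℝ)) ^ (2 : ℝ) *
        exp (-(‖w‖ ^ 2 / 4) * (r ^ (-1 : ℝ)) ^ (2 : ℝ)))) := by
    refine setIntegral_congr_fun measurableSet_Ioi fun r hr => ?_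
    have hr0 : (0 : ℝ) < r := hr
    have e1 : r ^ ((-1 : ℝ) - 1) = (r ^ 2)⁻¹ := by
      rw [show (-1 : ℝ) - 1 = -(2 : ℕ) by norm_num, rpow_neg hr0.le, rpow_natCast]
    simp only [e1, rpow_neg_one, rpow_two, dg, g, eg_eq, norm_smul, PiLp.smul_apply, smul_eq_mul,
      abs_neg, abs_one, norm_inv, Real.norm_of_nonneg hr0.le]
    rw [show -(r⁻¹ * ‖w‖) ^ 2 / (4 * 1) = -(‖w‖ ^ 2 / 4) * r⁻¹ ^ 2 by ring]
    field_simp
  rw [h2, integral_const_mul, h1]
  have e2 : (‖w‖ ^ 2 / 4) ^ (-((2 : ℝ) + 1) / 2) = ((‖w‖ / 2) ^ 3)⁻¹ := by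
    rw [show ‖w‖ ^ 2 / 4 = (‖w‖ / 2) ^ (2 : ℝ) by rw [rpow_two]; ring,
      ← rpow_mul (by positivity), show (2 : ℝ) * (-(2 + 1) / 2) = -(3 : ℕ) by norm_num,
      rpow_neg (by positivity), rpow_natCast]
  have e3 : Gamma (((2 : ℝ) + 1) / 2) = 1 / 2 * √π := by
    rw [show ((2 : ℝ) + 1) / 2 = 1 / 2 + 1 by norm_num, Gamma_add_one (by norm_num),
      Gamma_one_half_eq]
  have e4 : √(4 * π) = 2 * √π := by
    rw [sqrt_mul (by norm_num), show (4 : ℝ) = 2 ^ 2 by norm_num, sqrt_sq (by norm_num)]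
  have e5 : 0 < √π := sqrt_pos.2 pi_pos
  have e6 : π = √π ^ 2 := (sq_sqrt pi_pos.le).symm
  rw [e2, e3, cg, e4]
  generalize √π = c at *
  rw [e6]
  field_simp
  ring

lemma Vf_eq {f : E → ℝ} (hc : Continuous f) {B s : ℝ} (hB : 0 ≤ B)
    (hf : ∀ y, |f y| ≤ B * W0 s y) (x : E) (i : Fin 3) :
    ((-(1 / (4 * π))) • ∫ y, (f y / ‖x - y‖ ^ 3) • (x - y)) i = Vf i f x := by
  have hπ := pi_pos
  have hint : ∀ j : Fin 3, Integrable
      (Function.uncurry fun (r : ℝ) (y : E) => (r ^ 3)⁻¹ * dg j (r⁻¹ • (x - y)) * f y)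
      ((volume.restrict (Ioi (0 : ℝ))).prod volume) := by
    intro j
    have hm := (dg_cont j).measurable
    have hm2 := hc.measurable
    rw [integrable_prod_iff (Measurable.aestronglyMeasurable (by
      unfold Function.uncurry; fun_prop))]
    constructor
    · filter_upwards [ae_restrict_mem measurableSet_Ioi] with r hr
      have hr0 : (0 : ℝ) < r := hr
      exact ((((dg_integrable j).comp_smul (inv_ne_zero hr0.ne')).comp_sub_left x).const_mul
        (r ^ 3)⁻¹).mul_bdd hc.aestronglyMeasurable (Eventually.of_forall (W0_bdd hB hf))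
    · have h1 := K_integrableOn (k := fun z => |dg j z|) (f := fun y => |f y|)
        (fun z => by rw [abs_abs]; exact dg_le j z) (dg_integrable j).abs hc.abs hB
        (fun y => by rw [abs_abs]; exact hf y) x
      refine (h1.integrableOn (s := Ioi 0)).congr_fun (fun r hr => ?_) measurableSet_Ioi
      have hr0 : (0 : ℝ) < r := hr
      simp only [Function.uncurry_apply_pair]
      rw [K_eq _ _ hr0]
      congr 1; funext y
      rw [Real.norm_eq_abs, abs_mul, abs_mul, abs_of_pos (by positivity : 0 < (r ^ 3)⁻¹)]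
  have hin : ∀ (j : Fin 3) (y : E),
      ∫ r in Ioi (0 : ℝ), (r ^ 3)⁻¹ * dg j (r⁻¹ • (x - y)) * f y =
        -(1 / (8 * π)) * ((f y / ‖x - y‖ ^ 3) • (x - y)) j := by
    intro j y
    rw [integral_mul_const, inner_r]
    simp only [PiLp.smul_apply, smul_eq_mul]; ring
  have hI : ∀ j : Fin 3, Integrable fun y => ((f y / ‖x - y‖ ^ 3) • (x - y)) j := by
    intro j
    have := ((hint j).integral_prod_right).const_mul (-(8 * π))
    simp only [Function.uncurry_apply_pair, hin] at this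
    refine this.congr (Eventually.of_forall fun y => ?_)
    field_simp
  have h1 : ∫ r in Ioi (0 : ℝ), K (dg i) r f x =
      ∫ r in Ioi (0 : ℝ), ∫ y, (r ^ 3)⁻¹ * dg i (r⁻¹ • (x - y)) * f y :=
    setIntegral_congr_fun measurableSet_Ioi fun r hr => K_eq _ _ hr x
  rw [Vf, h1, integral_integral_swap (hint i), PiLp.smul_apply, eval_integral_piLp hI]
  simp only [hin]
  rw [integral_const_mul, smul_eq_mul]; ring

/-! ### The classical solution -/

noncomputable def Wb : X :=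
  ofNormedAddCommGroup (fun q => W0 q.1 q.2) (W_cont 3 le_rfl) 1 fun q => by
    rw [Real.norm_of_nonneg (W_pos _ _ _ _).le]; exact W_le_one three_pos le_rfl _ _

noncomputable def sqi : X :=
  ofNormedAddCommGroup (fun q => (sq q.1)⁻¹)
    ((sq_cont.comp continuous_fst).inv₀ fun q => (sq_pos _).ne') 1 fun q => by
    rw [Real.norm_of_nonneg (inv_pos.2 (sq_pos _)).le]; exact inv_le_one_of_one_le₀ (one_le_sq _)

lemma mul_Wb (u : X) (q : ℝ × E) : (u * Wb) q = N u q := rfl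

lemma opV_sqi (i : Fin 3) (u : X) (q : ℝ × E) :
    (opV i u * sqi) q = Vf i (fun y => N u (q.1, y)) q.2 := by
  have := (sq_pos q.1).ne'
  simp only [BoundedContinuousFunction.coe_mul, Pi.mul_apply, opV_apply, sqi,
    coe_ofNormedAddCommGroup]
  field_simp

lemma SV.contDiffAt_slice {k : ℕ} {a : X} (h : SV k a) (t : ℝ) (x : E) :
    ContDiffAt ℝ k (fun y => a (t, y)) x := by
  have h1 : ContDiffAt ℝ k (fun h => tr h a) (x - x) := by rw [sub_self]; exact h
  have h2 := (evalCLM ℝ (t, x) : X →L[ℝ] ℝ).contDiff.contDiffAt.comp x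
    (ContDiffAt.comp (f := fun y => y - x) x h1 (contDiffAt_id.sub contDiffAt_const))
  have h3 : (fun y => a (t, y)) = (evalCLM ℝ (t, x) : X →L[ℝ] ℝ) ∘
      ((fun h => tr h a) ∘ fun y => y - x) := by
    funext z; simp [tr_apply]
  rw [h3]; exact h2

lemma second_deriv {a : X} (h : SV 2 a) (t : ℝ) (x : E) (i : Fin 3) :
    iteratedFDeriv ℝ 2 (fun y => a (t, y)) x ![e i, e i] = pd i (pd i a) (t, x) := by
  rw [iteratedFDeriv_two_apply]
  simp only [Matrix.cons_val_zero, Matrix.cons_val_one, Matrix.cons_val_fin_one]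
  have d1 : DifferentiableAt ℝ (fderiv ℝ fun y => a (t, y)) x :=
    ((h.contDiffAt_slice t x).fderiv_right (m := 1) (by norm_num)).differentiableAt (by norm_num)
  have e1 : fderiv ℝ (fun y => fderiv ℝ (fun y => a (t, y)) y (e i)) x (e i) =
      fderiv ℝ (fderiv ℝ fun y => a (t, y)) x (e i) (e i) := by
    rw [fderiv_clm_apply d1 (differentiableAt_const _)]; simp
  have e2 : (fun y => fderiv ℝ (fun y => a (t, y)) y (e i)) = fun y => pd i a (t, y) := by
    funext y; rw [(h.slice t y).fderiv]; rfl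
  rw [← e1, e2, ((h.pd i).slice t x).fderiv]; rfl

theorem classical : ∃ ε > 0, ∀ μ : ℝ, 0 < μ → ∀ n0 : E → ℝ, ContDiff ℝ 3 n0 →
    HasCompactSupport n0 → (∀ x, |n0 x| ≤ ε * W 2 μ 0 x) →
    ∃ n : ℝ → E → ℝ, n 0 = n0 ∧ Continuous (fun p : ℝ × E => n p.1 p.2) ∧
      ContDiffOn ℝ 2 (fun p : ℝ × E => n p.1 p.2) (Ioi (0 : ℝ) ×ˢ univ) ∧
      (∀ t, Integrable (n t)) ∧ (∃ C, ∀ t x, |n t x| ≤ C) ∧
      ∀ t, 0 < t → ∀ x, deriv (fun s => n s x) t =
        (∑ i, iteratedFDeriv ℝ 2 (n t) x ![e i, e i]) -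
          fderiv ℝ (n t) x ((-(1 / (4 * π))) • ∫ y, (n t y / ‖x - y‖ ^ 3) • (x - y)) +
          n t x ^ 2 := by
  obtain ⟨ε, hε, H⟩ := exists_solution
  refine ⟨ε, hε, fun μ hμ n0 h1 h2 h3 => ?_⟩
  obtain ⟨U, hU, hS, ⟨A, hA⟩, hm⟩ := H μ hμ.le n0 h1 h2 h3
  obtain ⟨u, hu⟩ : ∃ u, u = U (1, 0) := ⟨_, rfl⟩
  simp only [← hu] at hS hA hm
  have hU1 : ContDiffAt ℝ 3 (fun h : E => U (1, h)) 0 :=
    ContDiffAt.comp (g := U) (f := fun h : E => ((1 : ℝ), h)) 0 hU (by fun_prop)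
  have hS1 : ∀ᶠ h in 𝓝 (0 : E), ∀ q : ℝ × E, N (U (1, h)) q = N u (q.1, q.2 + h) := by
    have := (by fun_prop : Continuous fun h : E => ((1 : ℝ), h)).continuousAt (x := 0) hS
    filter_upwards [this] with h hh q
    simpa [Sc] using hh q
  have en : (fun h => tr h (u * Wb)) =ᶠ[𝓝 0] fun h => U (1, h) * Wb := by
    filter_upwards [hS1] with h hh
    ext q; rw [tr_apply, mul_Wb, mul_Wb, hh]
  have ev : ∀ i, (fun h => tr h (opV i u * sqi)) =ᶠ[𝓝 0] fun h => opV i (U (1, h)) * sqi := by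
    intro i
    filter_upwards [hS1] with h hh
    ext q
    rw [tr_apply, opV_sqi, opV_sqi]
    simp only [hh]
    simpa using (Vf_scale i (fun y => N u (q.1, y)) one_pos q.2 h).symm
  have sn : SV 3 (u * Wb) := (hU1.mul contDiffAt_const).congr_of_eventuallyEq en
  have sv : ∀ i, SV 3 (opV i u * sqi) := fun i =>
    (((opV i).contDiff.contDiffAt.comp 0 hU1).mul contDiffAt_const).congr_of_eventuallyEq (ev i)
  obtain ⟨U', hU'⟩ : ∃ U', HasFDerivAt (fun h : E => U (1, h)) U' 0 :=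
    ⟨_, (hU1.differentiableAt (by norm_num)).hasFDerivAt⟩
  have pn : ∀ i, pd i (u * Wb) = U' (e i) * Wb := by
    intro i
    rw [pd, Dv, en.fderiv_eq, (hU'.mul_const Wb).fderiv]
    simp [mul_comm]
  have pv : ∀ i j, pd j (opV i u * sqi) = opV i (U' (e j)) * sqi := by
    intro i j
    have := ((opV i).hasFDerivAt.comp 0 hU').mul_const sqi
    rw [pd, Dv, (ev i).fderiv_eq]
    simp only [Function.comp_apply] at this
    rw [this.fderiv]
    simp [mul_comm]
  have h0 : ∀ x, (u * Wb) (0, x) = n0 x := by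
    intro x
    have := hm (0, x)
    simpa [Df, K_g_zero, mul_Wb] using this
  have sF : ∀ i, SV 3 ((u * Wb) * (opV i u * sqi)) := fun i => sn.mul (sv i)
  have hflux : ∀ i, flux i (N u) = ((u * Wb) * (opV i u * sqi) : X) := by
    intro i; funext q
    rw [flux, BoundedContinuousFunction.coe_mul, Pi.mul_apply, opV_sqi, mul_Wb]
  have hmild : ∀ t, 0 ≤ t → ∀ x, (u * Wb) (t, x) = kf g_integrable √t 0 x (u * Wb) -
      Du t x (∑ i, pd i ((u * Wb) * (opV i u * sqi))) := by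
    intro t ht x
    have := hm (t, x)
    simp only [hflux, Df_eq_Du (sF _) _ ht] at this
    rw [map_sum, kf_apply, mul_Wb]
    simp only [h0]
    linarith
  have hpde := fun t (ht : 0 < t) x =>
    mild_pde sn (SV.sum fun i => (sF i).pd i) hmild ht x
  refine ⟨fun t x => (u * Wb) (t, x), funext h0, (u * Wb).continuous, ?_, fun t => ?_,
    ⟨_, fun t x => abs_le_norm _ _⟩, fun t ht x => ?_⟩
  · rintro ⟨t, x⟩ ⟨ht, -⟩
    have ht0 : 0 < t := ht
    apply ContDiffAt.contDiffWithinAt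
    let φ : ℝ × E → ℝ × E := fun q => (√(q.1 / t), q.2 - √(q.1 / t) • x)
    have hs : ContDiffAt ℝ 2 (fun q : ℝ × E => √(q.1 / t)) (t, x) :=
      ContDiffAt.sqrt (by fun_prop) (by simp [ht0.ne'])
    have hφ : ContDiffAt ℝ 2 φ (t, x) := hs.prodMk (contDiffAt_snd.sub (hs.smul contDiffAt_const))
    have hφ0 : φ (t, x) = (1, 0) := by simp [φ, ht0.ne']
    have hc : ContDiffAt ℝ 2 (fun q => U (φ q) (t, x)) (t, x) :=
      (evalCLM ℝ (t, x) : X →L[ℝ] ℝ).contDiff.contDiffAt.comp (t, x)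
        (ContDiffAt.comp (g := U) (t, x) (by rw [hφ0]; exact hU.of_le (by norm_num)) hφ)
    have hc2 : ContDiffAt ℝ 2 (fun q : ℝ × E => t / q.1 * (U (φ q) (t, x) * W0 t x)) (t, x) :=
      (contDiffAt_const.div contDiffAt_fst ht0.ne').mul (hc.mul contDiffAt_const)
    refine hc2.congr_of_eventuallyEq ?_
    have h4 : ∀ᶠ q in 𝓝 (t, x), ∀ q', N (U (φ q)) q' = Sc (φ q) (N u) q' :=
      hφ.continuousAt.tendsto.eventually (by rw [hφ0]; exact hS)
    filter_upwards [h4, continuous_fst.continuousAt.eventually (Ioi_mem_nhds ht0)] with q hq hq0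
    have hq1 : 0 < q.1 := hq0
    have h5 := hq (t, x)
    have h6 : √(q.1 / t) ^ 2 = q.1 / t := sq_sqrt (by positivity)
    simp only [Sc, φ, h6, div_mul_cancel₀ _ ht0.ne', add_sub_cancel] at h5
    rw [N] at h5
    simp only [φ, h5, mul_Wb]
    field_simp
  · refine ((W_integrable two_pos hμ t).const_mul A).mono'
      (slice_cont _ t).aestronglyMeasurable (Eventually.of_forall fun x => hA (t, x))
  · rw [(hpde t ht x).deriv, (sn.slice t x).fderiv]
    simp only [second_deriv sn.mono, ContinuousLinearMap.comp_apply, evalCLM_apply, Dv_apply]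
    have hb : ∀ i y, |pd i (u * Wb) (t, y)| ≤ (‖u‖ + ‖U'‖) * W0 t y := by
      intro i y
      rw [pn, mul_Wb]
      refine (N_bound _ (t, y)).trans (mul_le_mul_of_nonneg_right ?_ (W_pos _ _ _ _).le)
      have := U'.le_opNorm (e i)
      rw [e, EuclideanSpace.norm_single, norm_one, mul_one] at this
      rw [e]; linarith [norm_nonneg u]
    have hb0 : ∀ y, |(u * Wb) (t, y)| ≤ (‖u‖ + ‖U'‖) * W0 t y := fun y =>
      (N_bound _ (t, y)).trans (mul_le_mul_of_nonneg_right (by linarith [norm_nonneg U'])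
        (W_pos _ _ _ _).le)
    have hdiv := div_Vf sn t (by positivity) hb0 hb x
    have hf : ∀ i, pd i ((u * Wb) * (opV i u * sqi)) (t, x) =
        Vf i (fun y => (u * Wb) (t, y)) x * pd i (u * Wb) (t, x) +
          (u * Wb) (t, x) * Vf i (fun y => pd i (u * Wb) (t, y)) x := by
      intro i
      rw [pd_mul sn (sv i), pv, opV_sqi, opV_sqi, mul_comm]
      simp only [pn, mul_Wb]
    simp only [Vf_eq (slice_cont (u * Wb) t) (by positivity) hb0 x, lap,
      BoundedContinuousFunction.sum_apply, hf, Finset.sum_add_distrib, ← Finset.mul_sum, hdiv]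
    ring

end Pool.Agent.H92.KS
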