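import Pool.Agent.H92.KS5

set_option autoImplicit false

open MeasureTheory Real Set Filter Topology

namespace Pool.Agent.H92.KS

noncomputable def bump (a : ℝ) (ha : 0 < a) : ContDiffBump (0 : ℝ) := ⟨a, a + 1, ha, by linarith⟩

lemma bump_lt {a : ℝ} (ha : 0 < a) {t : ℝ} (h : bump a ha t ≠ 0) : |t| < a + 1 := by
  by_contra h1
  exact h ((bump a ha).zero_of_le_dist (by simpa [bump] using h1))

lemma bump_one {a : ℝ} (ha : 0 < a) {t : ℝ} (h : |t| ≤ a) : bump a ha t = 1 :=
  (bump a ha).one_of_mem_closedBall (by simpa [bump] using h)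

/-- the thin long tube -/
noncomputable def tube (ε L : ℝ) (hL : 0 < L) (x : E) : ℝ :=
  ε * (bump L hL (x 0) * bump 1 one_pos (x 1) * bump 1 one_pos (x 2))

lemma tube_contDiff (ε L : ℝ) (hL : 0 < L) : ContDiff ℝ 3 (tube ε L hL) := by
  have h1 := (bump L hL).contDiff (n := 3)
  have h2 := (bump 1 one_pos).contDiff (n := 3)
  unfold tube
  exact contDiff_const.mul (((h1.comp (by fun_prop)).mul (h2.comp (by fun_prop))).mul
    (h2.comp (by fun_prop)))

lemma tube_supp {ε L : ℝ} {hL : 0 < L} {x : E} (h : tube ε L hL x ≠ 0) :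
    |x 0| < L + 1 ∧ |x 1| < 2 ∧ |x 2| < 2 := by
  simp only [tube, ne_eq, mul_eq_zero, not_or] at h
  have a := bump_lt one_pos h.2.1.2
  have b := bump_lt one_pos h.2.2
  exact ⟨bump_lt hL h.2.1.1, by linarith, by linarith⟩

lemma norm_le3 (v : E) : ‖v‖ ≤ |v 0| + |v 1| + |v 2| := by
  apply le_of_sq_le_sq _ (by positivity) |>.trans le_rfl
  rw [nsq, ← sq_abs (v 0), ← sq_abs (v 1), ← sq_abs (v 2)]
  have := abs_nonneg (v 0)
  have := abs_nonneg (v 1)
  have := abs_nonneg (v 2)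
  nlinarith [mul_nonneg (abs_nonneg (v 0)) (abs_nonneg (v 1)),
    mul_nonneg (abs_nonneg (v 0)) (abs_nonneg (v 2)),
    mul_nonneg (abs_nonneg (v 1)) (abs_nonneg (v 2))]

lemma tube_cs (ε L : ℝ) (hL : 0 < L) : HasCompactSupport (tube ε L hL) := by
  refine HasCompactSupport.intro (isCompact_closedBall (0 : E) (L + 5)) fun x hx => ?_
  by_contra h
  obtain ⟨a, b, c⟩ := tube_supp h
  exact hx (mem_closedBall_zero_iff.2 (by linarith [norm_le3 x]))

lemma tube_nonneg {ε : ℝ} (hε : 0 ≤ ε) (L : ℝ) (hL : 0 < L) (x : E) : 0 ≤ tube ε L hL x :=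
  mul_nonneg hε (mul_nonneg (mul_nonneg (bump L hL).nonneg (bump 1 one_pos).nonneg)
    (bump 1 one_pos).nonneg)

lemma tube_le {ε : ℝ} (hε : 0 ≤ ε) (L : ℝ) (hL : 0 < L) (x : E) : tube ε L hL x ≤ ε :=
  mul_le_of_le_one_right hε (mul_le_one₀ (mul_le_one₀ (bump L hL).le_one (bump 1 one_pos).nonneg
    (bump 1 one_pos).le_one) (bump 1 one_pos).nonneg (bump 1 one_pos).le_one)

lemma tube_W {ε : ℝ} (hε : 0 ≤ ε) (L : ℝ) (hL : 0 < L) (x : E) :
    |tube (ε * exp (-2)) L hL x| ≤ ε * W 2 ((L + 1) ^ 2)⁻¹ 0 x := by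
  rw [abs_of_nonneg (tube_nonneg (by positivity) L hL x)]
  by_cases h : tube (ε * exp (-2)) L hL x = 0
  · rw [h]; exact mul_nonneg hε (W_pos _ _ _ _).le
  obtain ⟨a, b, c⟩ := tube_supp h
  refine (tube_le (by positivity) L hL x).trans (mul_le_mul_of_nonneg_left ?_ hε)
  simp only [W, w1, tp_of_nonneg le_rfl, add_zero, inv_one, one_mul, mul_zero, div_one, ← exp_add,
    exp_le_exp]
  have a1 : ((L + 1) ^ 2)⁻¹ * x 0 ^ 2 ≤ 1 := by
    rw [inv_mul_le_iff₀ (by positivity), mul_one]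
    exact (sq_lt_sq' (abs_lt.1 a).1 (abs_lt.1 a).2).le
  have b1 : x 1 ^ 2 ≤ 4 := by nlinarith [abs_lt.1 b]
  have c1 : x 2 ^ 2 ≤ 4 := by nlinarith [abs_lt.1 c]
  linarith

lemma axis_cont {L : ℝ} (hL : 0 < L) (x0 : ℝ) :
    Continuous fun t => bump L hL t * (|x0 - t| + 8)⁻¹ :=
  (bump L hL).continuous.mul (Continuous.inv₀ (by fun_prop) fun t => by positivity)

lemma axis_integrable {L : ℝ} (hL : 0 < L) (x0 : ℝ) :
    Integrable fun t => bump L hL t * (|x0 - t| + 8)⁻¹ :=
  (axis_cont hL x0).integrable_of_hasCompactSupport (bump L hL).hasCompactSupport.mul_right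

lemma axis_bound {L : ℝ} (hL : 0 < L) (hL1 : 1 ≤ L) {x0 : ℝ} (hx : |x0| < L + 1) :
    log ((L + 8) / 9) ≤ ∫ t, bump L hL t * (|x0 - t| + 8)⁻¹ := by
  have key : ∀ a b : ℝ, a ≤ b → ∫ t in a..b, bump L hL t * (|x0 - t| + 8)⁻¹ ≤
      ∫ t, bump L hL t * (|x0 - t| + 8)⁻¹ := by
    intro a b hab
    rw [intervalIntegral.integral_of_le hab]
    exact setIntegral_le_integral (axis_integrable hL x0) (Eventually.of_forall fun t =>
      mul_nonneg (bump L hL).nonneg (by positivity))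
  have hlog : ∫ u in (9 : ℝ)..(L + 8), u⁻¹ = log ((L + 8) / 9) :=
    integral_inv_of_pos (by norm_num) (by linarith)
  obtain ⟨h1, h2⟩ := abs_lt.1 hx
  rcases le_total 0 x0 with h | h
  · refine le_trans (le_of_eq ?_) (key (x0 - L) (x0 - 1) (by linarith))
    have := intervalIntegral.integral_comp_sub_left (a := x0 - L) (b := x0 - 1)
      (fun u : ℝ => u⁻¹) (x0 + 8)
    rw [show x0 + 8 - (x0 - 1) = 9 by ring, show x0 + 8 - (x0 - L) = L + 8 by ring, hlog] at this
    rw [← this]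
    refine intervalIntegral.integral_congr fun t ht => ?_
    rw [uIcc_of_le (by linarith)] at ht
    rw [bump_one hL (abs_le.2 ⟨by linarith [ht.1], by linarith [ht.2]⟩), one_mul,
      abs_of_nonneg (by linarith [ht.2])]
    congr 1; ring
  · refine le_trans (le_of_eq ?_) (key (x0 + 1) (x0 + L) (by linarith))
    have := intervalIntegral.integral_comp_add_right (a := x0 + 1) (b := x0 + L)
      (fun u : ℝ => u⁻¹) (8 - x0)
    rw [show x0 + 1 + (8 - x0) = 9 by ring, show x0 + L + (8 - x0) = L + 8 by ring, hlog] at this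
    rw [← this]
    refine intervalIntegral.integral_congr fun t ht => ?_
    rw [uIcc_of_le (by linarith)] at ht
    rw [bump_one hL (abs_le.2 ⟨by linarith [ht.1], by linarith [ht.2]⟩), one_mul,
      abs_of_nonpos (by linarith [ht.1])]
    congr 1; ring

lemma inv_norm_locInt : LocallyIntegrable (fun z : E => ‖z‖⁻¹) volume :=
  locallyIntegrable_of_norm_le_rpow (C := 1) (α := 1) (by simp) (by simp)
    (Eventually.of_forall fun z => by simp [rpow_neg_one])
    (Measurable.aestronglyMeasurable (by fun_prop))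

lemma tube_energy {ε L : ℝ} (hε : 0 ≤ ε) (hL : 0 < L) (hL1 : 1 ≤ L) :
    (ε * (∫ t, bump 1 one_pos t) ^ 2 * log ((L + 8) / 9)) * ∫ x, tube ε L hL x ≤
      ∫ x, ∫ y, tube ε L hL x * tube ε L hL y / ‖x - y‖ ^ (3 - 2) := by
  have hc := (tube_contDiff ε L hL).continuous
  have hs := tube_cs ε L hL
  have hpc : Continuous fun x : E => ∫ y, tube ε L hL y * ‖x - y‖⁻¹ :=
    hs.continuous_convolution_left (ContinuousLinearMap.mul ℝ ℝ) hc inv_norm_locInt
  have hpi : ∀ x : E, Integrable fun y => tube ε L hL y * ‖x - y‖⁻¹ := fun x =>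
    hs.convolutionExists_left (ContinuousLinearMap.mul ℝ ℝ) hc inv_norm_locInt x
  have h1 : ∀ x : E, ∫ y, tube ε L hL x * tube ε L hL y / ‖x - y‖ ^ (3 - 2) =
      tube ε L hL x * ∫ y, tube ε L hL y * ‖x - y‖⁻¹ := by
    intro x
    rw [← integral_const_mul]
    congr 1; funext y; norm_num; ring
  simp only [h1]
  rw [← integral_const_mul]
  refine integral_mono ((hc.integrable_of_hasCompactSupport hs).const_mul _)
    ((hc.mul hpc).integrable_of_hasCompactSupport hs.mul_right) fun x => ?_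
  simp only
  by_cases hx : tube ε L hL x = 0
  · simp [hx]
  obtain ⟨a, b, c⟩ := tube_supp hx
  rw [mul_comm]
  refine mul_le_mul_of_nonneg_left ?_ (tube_nonneg hε L hL x)
  have hi := (integrable_prod3 (axis_integrable hL (x 0)) (bump 1 one_pos).integrable
    (bump 1 one_pos).integrable).const_mul ε
  refine le_trans ?_ (integral_mono_ae hi (hpi x) ?_)
  · rw [integral_const_mul, integral_prod3 (fun t => bump L hL t * (|x 0 - t| + 8)⁻¹)]
    have := mul_le_mul_of_nonneg_left (axis_bound hL hL1 a)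
      (by positivity : 0 ≤ ε * (∫ t, bump 1 one_pos t) ^ 2)
    refine this.trans (le_of_eq (by ring))
  · filter_upwards [Measure.ae_ne volume x] with y hy
    have e1 : ε * (bump L hL (y 0) * (|x 0 - y 0| + 8)⁻¹ * bump 1 one_pos (y 1) *
        bump 1 one_pos (y 2)) = tube ε L hL y * (|x 0 - y 0| + 8)⁻¹ := by
      unfold tube; ring
    rw [e1]
    by_cases hy0 : tube ε L hL y = 0
    · simp [hy0]
    obtain ⟨a', b', c'⟩ := tube_supp hy0
    refine mul_le_mul_of_nonneg_left ?_ (tube_nonneg hε L hL y)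
    apply inv_anti₀ (norm_pos_iff.2 (sub_ne_zero.2 hy.symm))
    have := norm_le3 (x - y)
    simp only [PiLp.sub_apply] at this
    have := abs_sub (x 1) (y 1)
    have := abs_sub (x 2) (y 2)
    linarith

lemma tube_mass {ε L : ℝ} (hε : 0 < ε) (hL : 0 < L) : 0 < ∫ x, tube ε L hL x := by
  unfold tube
  rw [integral_const_mul, integral_prod3]
  have := (bump L hL).integral_pos (μ := volume)
  have := (bump 1 one_pos).integral_pos (μ := volume)
  positivity

lemma sphere_area : ((3 : ℕ) : ℝ) * (volume (Metric.ball (0 : E) 1)).toReal = 4 * π := by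
  rw [EuclideanSpace.volume_ball_fin_three, ENNReal.toReal_mul, ENNReal.toReal_pow,
    ENNReal.toReal_ofReal zero_le_one, ENNReal.toReal_ofReal (by have := pi_pos; positivity)]
  push_cast; ring

theorem exists_tube {ε : ℝ} (hε : 0 < ε) : ∃ L, ∃ hL : 0 < L,
    2 * ((3 : ℕ) : ℝ) * (∫ x, tube ε L hL x) * (4 * π) <
      ∫ x, ∫ y, tube ε L hL x * tube ε L hL y / ‖x - y‖ ^ (3 - 2) := by
  have hI := (bump 1 one_pos).integral_pos (μ := volume)
  obtain ⟨c, hc⟩ : ∃ c, c = ε * (∫ t, bump 1 one_pos t) ^ 2 := ⟨_, rfl⟩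
  have hc0 : 0 < c := by rw [hc]; positivity
  have hπ := pi_pos
  have he := exp_pos (25 * π / c)
  have he1 : 1 ≤ exp (25 * π / c) := one_le_exp (by positivity)
  have hL : 0 < 9 * exp (25 * π / c) - 8 := by linarith
  refine ⟨_, hL, lt_of_lt_of_le ?_ (tube_energy hε.le hL (by linarith))⟩
  have hM := tube_mass hε hL
  rw [← hc, show (9 * exp (25 * π / c) - 8 + 8) / 9 = exp (25 * π / c) by ring, log_exp,
    mul_div_cancel₀ _ hc0.ne']
  push_cast
  nlinarith [mul_pos hπ hM]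

end Pool.Agent.H92.KS
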