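import Mathlib

set_option autoImplicit false
set_option linter.unusedSectionVars false
open MeasureTheory Filter Topology Set

namespace Pool.Agent.H92.Krein1

variable {Ω : Type*} [mΩ : MeasurableSpace Ω]

structure Chars (χ : ℝ → Ω → ℂ) : Prop where
  meas : ∀ a, Measurable (χ a)
  norm : ∀ a x, ‖χ a x‖ = 1
  add : ∀ a b x, χ (a + b) x = χ a x * χ b x
  gen : mΩ ≤ ⨆ a, MeasurableSpace.comap (χ a) inferInstance

variable {χ : ℝ → Ω → ℂ} {m : Measure Ω}

lemma Chars.zero (hχ : Chars χ) (x : Ω) : χ 0 x = 1 := by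
  have h := hχ.add 0 0 x
  rw [add_zero] at h
  have h0 : χ 0 x ≠ 0 := by
    intro h1; have := hχ.norm 0 x; rw [h1] at this; simp at this
  exact (mul_eq_left₀ h0).mp h.symm

lemma Chars.neg (hχ : Chars χ) (a : ℝ) (x : Ω) : χ (-a) x = starRingEnd ℂ (χ a x) := by
  have h := hχ.add a (-a) x
  rw [add_neg_cancel, hχ.zero] at h
  have h2 : χ a x * starRingEnd ℂ (χ a x) = 1 := by
    rw [Complex.mul_conj', hχ.norm]; simp
  have h0 : χ a x ≠ 0 := by
    intro h1; have := hχ.norm a x; rw [h1] at this; simp at this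
  exact mul_left_cancel₀ h0 (h.symm.trans h2.symm)

def Good (χ : ℝ → Ω → ℂ) (m : Measure Ω) (φ : Ω → ℂ) : Prop :=
  AEMeasurable (fun a => ∫ x, φ x * χ a x ∂m) volume

def Mult (χ : ℝ → Ω → ℂ) (m : Measure Ω) (h : Ω → ℂ) : Prop :=
  Measurable h ∧ (∃ B, ∀ x, ‖h x‖ ≤ B) ∧
    ∀ φ, Integrable φ m → Good χ m φ → Good χ m (fun x => h x * φ x)

lemma int_mul (hχ : Chars χ) {φ : Ω → ℂ} (hφ : Integrable φ m) (a : ℝ) :
    Integrable (fun x => φ x * χ a x) m :=
  hφ.mul_bdd (c := 1) (hχ.meas a).aestronglyMeasurable (.of_forall fun x => (hχ.norm a x).le)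

lemma Good.congr {φ ψ : Ω → ℂ} (h : Good χ m φ) (he : φ =ᵐ[m] ψ) : Good χ m ψ := by
  unfold Good at *
  convert h using 2 with a
  refine integral_congr_ae ?_
  filter_upwards [he] with x hx
  rw [hx]

lemma Good.add (hχ : Chars χ) {φ ψ : Ω → ℂ} (hφ : Integrable φ m) (hψ : Integrable ψ m)
    (h1 : Good χ m φ) (h2 : Good χ m ψ) : Good χ m (fun x => φ x + ψ x) := by
  unfold Good at *
  simp only [add_mul, integral_add (int_mul hχ hφ _) (int_mul hχ hψ _)]
  exact h1.add h2

lemma good_lim (hχ : Chars χ) {φ : ℕ → Ω → ℂ} {ψ : Ω → ℂ} {b : Ω → ℝ} (hb : Integrable b m)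
    (hm : ∀ n, AEStronglyMeasurable (φ n) m) (hle : ∀ n x, ‖φ n x‖ ≤ b x)
    (hlim : ∀ x, Tendsto (fun n => φ n x) atTop (𝓝 (ψ x))) (hg : ∀ n, Good χ m (φ n)) :
    Good χ m ψ := by
  refine aemeasurable_of_tendsto_metrizable_ae' hg (.of_forall fun a => ?_)
  refine tendsto_integral_of_dominated_convergence b
    (fun n => (hm n).mul (hχ.meas a).aestronglyMeasurable) hb (fun n => .of_forall fun x => ?_)
    (.of_forall fun x => (hlim x).mul_const _)
  rw [norm_mul, hχ.norm, mul_one]; exact hle n x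

lemma Mult.int {h φ : Ω → ℂ} (hh : Mult χ m h) (hφ : Integrable φ m) :
    Integrable (fun x => h x * φ x) m := by
  obtain ⟨B, hB⟩ := hh.2.1
  exact hφ.bdd_mul (c := B) hh.1.aestronglyMeasurable (.of_forall hB)

lemma mult_lim (hχ : Chars χ) {h : ℕ → Ω → ℂ} {g : Ω → ℂ} {B : ℝ} (hm : ∀ n, Mult χ m (h n))
    (hle : ∀ n x, ‖h n x‖ ≤ B) (hlim : ∀ x, Tendsto (fun n => h n x) atTop (𝓝 (g x))) :
    Mult χ m g := by
  refine ⟨measurable_of_tendsto_metrizable (fun n => (hm n).1) (tendsto_pi_nhds.mpr hlim),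
    ⟨B, fun x => le_of_tendsto' (hlim x).norm fun n => hle n x⟩, fun φ hφ hg => ?_⟩
  refine good_lim hχ (b := fun x => B * ‖φ x‖) (hφ.norm.const_mul B)
    (fun n => ((hm n).int hφ).1) (fun n x => ?_) (fun x => (hlim x).mul_const _)
    (fun n => (hm n).2.2 φ hφ hg)
  rw [norm_mul]; exact mul_le_mul_of_nonneg_right (hle n x) (norm_nonneg _)

lemma mult_const (c : ℂ) : Mult χ m (fun _ => c) := by
  refine ⟨measurable_const, ⟨‖c‖, fun _ => le_rfl⟩, fun φ _ hg => ?_⟩
  unfold Good at *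
  simp only [mul_assoc, integral_const_mul]
  exact hg.const_mul c

lemma Mult.add (hχ : Chars χ) {g h : Ω → ℂ} (hg : Mult χ m g) (hh : Mult χ m h) :
    Mult χ m (fun x => g x + h x) := by
  obtain ⟨B, hB⟩ := hg.2.1
  obtain ⟨B', hB'⟩ := hh.2.1
  refine ⟨hg.1.add hh.1, ⟨B + B', fun x => (norm_add_le _ _).trans (add_le_add (hB x) (hB' x))⟩,
    fun φ hφ h0 => ?_⟩
  simp only [add_mul]
  exact Good.add hχ (hg.int hφ) (hh.int hφ) (hg.2.2 φ hφ h0) (hh.2.2 φ hφ h0)

lemma Mult.mul {g h : Ω → ℂ} (hg : Mult χ m g) (hh : Mult χ m h) :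
    Mult χ m (fun x => g x * h x) := by
  obtain ⟨B, hB⟩ := hg.2.1
  obtain ⟨B', hB'⟩ := hh.2.1
  refine ⟨hg.1.mul hh.1, ⟨B * B', fun x => ?_⟩, fun φ hφ h0 => ?_⟩
  · rw [norm_mul]
    exact mul_le_mul (hB x) (hB' x) (norm_nonneg _) ((norm_nonneg _).trans (hB x))
  · simp only [mul_assoc]
    exact hg.2.2 _ (hh.int hφ) (hh.2.2 φ hφ h0)

lemma mult_char (hχ : Chars χ) (b : ℝ) : Mult χ m (χ b) := by
  refine ⟨hχ.meas b, ⟨1, fun x => (hχ.norm b x).le⟩, fun φ _ hg => ?_⟩
  unfold Good at *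
  have := hg.comp_quasiMeasurePreserving (measurePreserving_add_left volume b).quasiMeasurePreserving
  convert this using 2 with a
  simp only [Function.comp, hχ.add]
  congr 1; ext x; ring

lemma mult_cont (hχ : Chars χ) (b : ℝ) (u : C(Metric.sphere (0:ℂ) 1, ℂ)) :
    Mult χ m (fun x => u ⟨χ b x, by simp [hχ.norm]⟩) := by
  induction u using ContinuousMap.induction_on_of_compact with
  | const r => exact mult_const r
  | id => exact mult_char hχ b
  | star_id =>
    convert mult_char (m := m) hχ (-b) using 2 with x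
    rw [hχ.neg]; rfl
  | add f g hf hg => exact hf.add hχ hg
  | mul f g hf hg => exact hf.mul hg
  | frequently f hf =>
    obtain ⟨g, hg1, hg2⟩ := exists_seq_forall_of_frequently
      (hf.and_eventually (Metric.ball_mem_nhds f one_pos))
    refine mult_lim hχ (B := ‖f‖ + 1) (fun n => (hg2 n).1) (fun n x => ?_) (fun x => ?_)
    · refine ((g n).norm_coe_le_norm _).trans ?_
      have := (hg2 n).2
      rw [dist_eq_norm] at this
      linarith [norm_le_norm_add_norm_sub' (g n) f]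
    · exact ((ContinuousMap.evalCLM ℂ _).continuous.tendsto f).comp hg1

lemma mult_closed (hχ : Chars χ) (b : ℝ) {F : Set ℂ} (hF : IsClosed F) :
    Mult χ m ((χ b ⁻¹' F).indicator 1) := by
  refine mult_lim hχ (B := 1) (h := fun n x => ((hF.apprSeq n (χ b x) : ℝ) : ℂ)) (fun n => ?_)
    (fun n x => ?_) (fun x => ?_)
  · exact mult_cont hχ b ⟨fun z => ((hF.apprSeq n z : ℝ) : ℂ), by fun_prop⟩
  · simpa using HasOuterApproxClosed.apprSeq_apply_le_one hF n (χ b x)
  · have := tendsto_pi_nhds.mp (HasOuterApproxClosed.tendsto_apprSeq hF) (χ b x)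
    have h2 := (Complex.continuous_ofReal.tendsto _).comp ((NNReal.continuous_coe.tendsto _).comp this)
    have e : (χ b ⁻¹' F).indicator (1 : Ω → ℂ) x =
        ((NNReal.toReal (F.indicator (fun _ => (1 : NNReal)) (χ b x)) : ℝ) : ℂ) := by
      by_cases hx : χ b x ∈ F
      · rw [indicator_of_mem hx, indicator_of_mem (show x ∈ χ b ⁻¹' F from hx)]; simp
      · rw [indicator_of_notMem hx, indicator_of_notMem (show x ∉ χ b ⁻¹' F from hx)]; simp
    rw [e]; exact h2

lemma ind_norm (S : Set Ω) (x : Ω) : ‖S.indicator (1 : Ω → ℂ) x‖ ≤ 1 := by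
  by_cases hx : x ∈ S <;> simp [hx]

lemma ind_lim (f : ℕ → Set Ω) (x : Ω) :
    Tendsto (fun n => (accumulate f n).indicator (1 : Ω → ℂ) x) atTop
      (𝓝 ((⋃ i, f i).indicator 1 x)) := by
  have := Monotone.tendsto_indicator (accumulate f) monotone_accumulate (1 : Ω → ℂ) x
  rw [iUnion_accumulate, tendsto_pure] at this
  exact tendsto_const_nhds.congr' (this.mono fun n hn => hn.symm)

lemma ind_union (S T : Set Ω) : (S ∪ T).indicator (1 : Ω → ℂ) =
    fun x => S.indicator 1 x + (1 + (-1) * S.indicator 1 x) * T.indicator 1 x := by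
  ext x
  by_cases h1 : x ∈ S <;> by_cases h2 : x ∈ T <;> simp [h1, h2]

lemma mult_ind (hχ : Chars χ) {S : Set Ω} (hS : MeasurableSet S) : Mult χ m (S.indicator 1) := by
  let D : MeasurableSpace Ω :=
    { MeasurableSet' := fun S => Mult χ m (S.indicator 1)
      measurableSet_empty := by simpa using mult_const (χ := χ) (m := m) 0
      measurableSet_compl := by
        intro S hS
        convert (mult_const 1).add hχ ((mult_const (-1)).mul hS) using 2 with x
        by_cases hx : x ∈ S <;> simp [hx]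
      measurableSet_iUnion := by
        intro f hf
        refine mult_lim hχ (B := 1) (fun n => ?_) (fun n x => ind_norm _ x) (ind_lim f)
        induction n with
        | zero => simpa using hf 0
        | succ n ih =>
          rw [accumulate_succ, ind_union]
          exact ih.add hχ (((mult_const 1).add hχ ((mult_const (-1)).mul ih)).mul (hf _)) }
  have : mΩ ≤ D := by
    refine (@Chars.gen Ω mΩ χ hχ).trans (iSup_le fun b => ?_)
    rw [BorelSpace.measurable_eq (α := ℂ), borel_eq_generateFrom_isClosed,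
      MeasurableSpace.comap_generateFrom]
    refine MeasurableSpace.generateFrom_le ?_
    rintro _ ⟨F, hF, rfl⟩
    exact @mult_closed Ω mΩ χ m hχ b F hF
  exact this S hS

lemma mult_bdd (hχ : Chars χ) {h : Ω → ℂ} (hm : Measurable h) {B : ℝ} (hB : ∀ x, ‖h x‖ ≤ B) :
    Mult χ m h := by
  have h1 : ∀ f : SimpleFunc Ω ℂ, Mult χ m f := by
    intro f
    induction f using SimpleFunc.induction with
    | @const c s hs =>
      convert (mult_const c).mul (mult_ind (m := m) hχ hs) using 2 with x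
      by_cases hx : x ∈ s <;> simp [hx]
    | add _ hf hg => exact hf.add hχ hg
  exact mult_lim hχ (B := max B 0) (h := fun n => hm.stronglyMeasurable.approxBounded (max B 0) n)
    (fun n => h1 _) (fun n x => hm.stronglyMeasurable.norm_approxBounded_le (le_max_right _ _) n x)
    (fun x => hm.stronglyMeasurable.tendsto_approxBounded_of_norm_le ((hB x).trans (le_max_left _ _)))

theorem band (hχ : Chars χ) (m : Measure Ω) [IsFiniteMeasure m] :
    ∃ E, MeasurableSet E ∧ (∀ φ, Integrable φ m → Good χ m (fun x => E.indicator 1 x * φ x)) ∧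
      ∀ φ, Integrable φ m → Good χ m φ → ∀ᵐ x ∂m, x ∉ E → φ x = 0 := by
  have hint : ∀ S, MeasurableSet S → Integrable (S.indicator (1 : Ω → ℂ)) m := fun S hS =>
    (integrable_const (1:ℂ)).indicator hS
  let G : Set (Set Ω) := {S | MeasurableSet S ∧ Good χ m (S.indicator 1)}
  have G0 : ∅ ∈ G := ⟨.empty, by simp [Good]⟩
  have GU : ∀ S ∈ G, ∀ T ∈ G, S ∪ T ∈ G := by
    intro S hS T hT
    refine ⟨hS.1.union hT.1, ?_⟩
    rw [ind_union]
    have := (mult_const 1).add hχ ((mult_const (-1)).mul (mult_ind (m := m) hχ hS.1))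
    exact Good.add hχ (hint S hS.1) (this.int (hint T hT.1)) hS.2 (this.2.2 _ (hint T hT.1) hT.2)
  have GI : ∀ f : ℕ → Set Ω, (∀ n, f n ∈ G) → (⋃ n, f n) ∈ G := by
    intro f hf
    have h1 : ∀ n, accumulate f n ∈ G := by
      intro n
      induction n with
      | zero => simpa using hf 0
      | succ n ih => rw [accumulate_succ]; exact GU _ ih _ (hf _)
    exact ⟨.iUnion fun n => (hf n).1, good_lim hχ (b := fun _ => 1) (integrable_const _)
      (fun n => (hint _ (h1 n).1).1) (fun n x => ind_norm _ x) (ind_lim f) fun n => (h1 n).2⟩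
  obtain ⟨u, -, hu1, hu2⟩ := exists_seq_tendsto_sSup (S := m '' G) ⟨_, _, G0, rfl⟩ (OrderTop.bddAbove _)
  choose f hf hf' using hu2
  set E := ⋃ n, f n
  have hE : E ∈ G := GI f hf
  have hmax : ∀ S ∈ G, m (S \ E) = 0 := by
    intro S hS
    have h1 : m (E ∪ S) ≤ sSup (m '' G) := le_sSup ⟨_, GU _ hE _ hS, rfl⟩
    have h2 : sSup (m '' G) ≤ m E :=
      le_of_tendsto' hu1 fun n => hf' n ▸ measure_mono (subset_iUnion f n)
    have h3 := measure_add_sdiff (μ := m) hE.1.nullMeasurableSet S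
    have h4 : m E + m (S \ E) ≤ m E + 0 := by rw [h3, add_zero]; exact h1.trans h2
    exact le_zero_iff.mp ((ENNReal.add_le_add_iff_left (measure_ne_top m E)).mp h4)
  refine ⟨E, hE.1, fun φ hφ => ?_, fun φ hφ hg => ?_⟩
  · obtain ⟨φ', hm, he⟩ := hφ.1
    have hφ' : Integrable φ' m := hφ.congr he
    refine Good.congr (φ := fun x => E.indicator 1 x * φ' x) ?_ (he.mono fun x hx => by simp only [hx])
    refine good_lim hχ (b := fun x => ‖φ' x‖) hφ'.norm
      (φ := fun n x => ({x | ‖φ' x‖ ≤ n}.indicator φ' x) * E.indicator 1 x) (fun n => ?_)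
      (fun n x => ?_) (fun x => ?_) (fun n => ?_)
    · exact ((hm.measurable.indicator (measurableSet_le hm.measurable.norm measurable_const)).mul
        (measurable_one.indicator hE.1)).aestronglyMeasurable
    · rw [norm_mul]
      exact (mul_le_of_le_one_right (norm_nonneg _) (ind_norm _ _)).trans
        (norm_indicator_le_norm_self _ _)
    · refine tendsto_const_nhds.congr' ?_
      filter_upwards [tendsto_natCast_atTop_atTop.eventually (eventually_ge_atTop ‖φ' x‖)] with n hn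
      rw [indicator_of_mem (show x ∈ {x | ‖φ' x‖ ≤ n} from hn), mul_comm]
    · refine (mult_bdd hχ (hm.measurable.indicator
        (measurableSet_le hm.measurable.norm measurable_const)) (B := n) fun x => ?_).2.2 _
        (hint E hE.1) hE.2
      by_cases hx : x ∈ {x | ‖φ' x‖ ≤ n}
      · rw [indicator_of_mem hx]; exact hx
      · rw [indicator_of_notMem hx]; simp
  · obtain ⟨φ', hm, he⟩ := hφ.1
    have hφ' : Integrable φ' m := hφ.congr he
    have hg' : Good χ m φ' := hg.congr he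
    have h1 : ∀ n : ℕ, {x | ‖(φ' x)⁻¹‖ ≤ n ∧ φ' x ≠ 0} ∈ G := by
      intro n
      have hS : MeasurableSet {x | ‖(φ' x)⁻¹‖ ≤ n ∧ φ' x ≠ 0} :=
        (measurableSet_le hm.measurable.inv.norm measurable_const).inter
          (hm.measurable (measurableSet_singleton 0).compl)
      refine ⟨hS, ?_⟩
      have := (mult_bdd (m := m) hχ (hm.measurable.inv.indicator hS) (B := n) fun x => ?_).2.2 _ hφ' hg'
      · convert this using 2 with x
        by_cases hx : x ∈ {x | ‖(φ' x)⁻¹‖ ≤ n ∧ φ' x ≠ 0}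
        · rw [indicator_of_mem hx, indicator_of_mem hx, Pi.inv_apply, inv_mul_cancel₀ hx.2]; rfl
        · rw [indicator_of_notMem hx, indicator_of_notMem hx, zero_mul]
      · by_cases hx : x ∈ {x | ‖(φ' x)⁻¹‖ ≤ n ∧ φ' x ≠ 0}
        · rw [indicator_of_mem hx]; exact hx.1
        · rw [indicator_of_notMem hx]; simp
    have h2 := measure_eq_zero_iff_ae_notMem.mp (hmax _ (GI _ h1))
    filter_upwards [h2, he] with x hx hx' hxE
    rw [hx']
    by_contra hne
    apply hx
    obtain ⟨n, hn⟩ := exists_nat_ge ‖(φ' x)⁻¹‖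
    exact ⟨mem_iUnion.mpr ⟨n, hn, hne⟩, hxE⟩

lemma push {Z : Type*} [MeasurableSpace Z] (Q P : Measure Z) [IsFiniteMeasure P] (hQP : Q ≪ P)
    {π : Z → Ω} (hπ : Measurable π) {Ψ : Z → ℂ} (hΨ : Integrable Ψ Q) :
    ∃ φ, Integrable φ (P.map π) ∧ ∀ h : Ω → ℂ, Measurable h → (∀ x, ‖h x‖ ≤ 1) →
      ∫ q, Ψ q * h (π q) ∂Q = ∫ x, φ x * h x ∂(P.map π) := by
  have key : ∀ ψ : Z → ℝ, Integrable ψ Q → ∃ φ : Ω → ℂ, Integrable φ (P.map π) ∧
      ∀ h : Ω → ℂ, Measurable h → ∫ q, ((max (ψ q) 0 : ℝ) : ℂ) * h (π q) ∂Q =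
        ∫ x, φ x * h x ∂(P.map π) := by
    intro ψ hψ
    have hfin := isFiniteMeasure_withDensity_ofReal hψ.2
    set ν := (Q.withDensity fun q => ENNReal.ofReal (ψ q)).map π
    have hac : ν ≪ P.map π := ((withDensity_absolutelyContinuous _ _).trans hQP).map hπ
    refine ⟨fun x => ((ν.rnDeriv (P.map π) x).toReal : ℂ),
      Measure.integrable_toReal_rnDeriv.ofReal, fun h hh => ?_⟩
    have := integral_rnDeriv_smul (f := h) hac
    simp only [Complex.real_smul] at this
    rw [this, integral_map hπ.aemeasurable hh.aestronglyMeasurable,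
      integral_withDensity_eq_integral_toReal_smul₀ hψ.1.aemeasurable.ennreal_ofReal
        (.of_forall fun _ => ENNReal.ofReal_lt_top)]
    simp only [Complex.real_smul, ENNReal.toReal_ofReal']
  obtain ⟨φ1, i1, e1⟩ := key _ hΨ.re
  obtain ⟨φ2, i2, e2⟩ := key _ hΨ.re.neg
  obtain ⟨φ3, i3, e3⟩ := key _ hΨ.im
  obtain ⟨φ4, i4, e4⟩ := key _ hΨ.im.neg
  refine ⟨fun x => φ1 x - φ2 x + Complex.I * (φ3 x - φ4 x),
    (i1.sub i2).add ((i3.sub i4).const_mul _), fun h hh hb => ?_⟩
  have b1 : ∀ φ, Integrable φ (P.map π) → Integrable (fun x => φ x * h x) (P.map π) := fun φ hφ =>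
    hφ.mul_bdd (c := 1) hh.aestronglyMeasurable (.of_forall hb)
  have b2 : ∀ ψ : Z → ℝ, Integrable ψ Q →
      Integrable (fun q => ((max (ψ q) 0 : ℝ) : ℂ) * h (π q)) Q := fun ψ hψ =>
    hψ.pos_part.ofReal.mul_bdd (c := 1) (hh.comp hπ).aestronglyMeasurable (.of_forall fun q => hb _)
  have comb : ∀ {W : Type _} [MeasurableSpace W] (ν : Measure W) (a b c d : W → ℂ),
      Integrable a ν → Integrable b ν → Integrable c ν → Integrable d ν →
      ∫ x, (a x - b x + Complex.I * (c x - d x)) ∂ν =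
        ∫ x, a x ∂ν - ∫ x, b x ∂ν + Complex.I * (∫ x, c x ∂ν - ∫ x, d x ∂ν) := by
    intro W _ ν a b c d ha hb hc hd
    rw [integral_add (f := fun x => a x - b x) (g := fun x => Complex.I * (c x - d x))
      (ha.sub hb) ((hc.sub hd).const_mul _), integral_const_mul, integral_sub ha hb,
      integral_sub hc hd]
  have comb' : ∀ (ν : Measure Ω) (a b c d : Ω → ℂ),
      Integrable a ν → Integrable b ν → Integrable c ν → Integrable d ν →
      ∫ x, (a x - b x + Complex.I * (c x - d x)) ∂ν =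
        ∫ x, a x ∂ν - ∫ x, b x ∂ν + Complex.I * (∫ x, c x ∂ν - ∫ x, d x ∂ν) := by
    intro ν a b c d ha hb hc hd
    rw [integral_add (f := fun x => a x - b x) (g := fun x => Complex.I * (c x - d x))
      (ha.sub hb) ((hc.sub hd).const_mul _), integral_const_mul, integral_sub ha hb,
      integral_sub hc hd]
  have e5 : ∀ x, (φ1 x - φ2 x + Complex.I * (φ3 x - φ4 x)) * h x =
      φ1 x * h x - φ2 x * h x + Complex.I * (φ3 x * h x - φ4 x * h x) := fun x => by ring
  simp only [e5]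
  rw [comb' _ _ _ _ _ (b1 _ i1) (b1 _ i2) (b1 _ i3) (b1 _ i4),
    ← e1 h hh, ← e2 h hh, ← e3 h hh, ← e4 h hh,
    ← comb _ _ _ _ _ (b2 _ hΨ.re) (b2 _ hΨ.re.neg) (b2 _ hΨ.im) (b2 _ hΨ.im.neg)]
  congr 1; ext q
  have r : ∀ t : ℝ, ((max t 0 : ℝ) : ℂ) - ((max (-t) 0 : ℝ) : ℂ) = t := fun t => by
    rw [← Complex.ofReal_sub, max_zero_sub_max_neg_zero_eq_self]
  have r1 := r (Ψ q).re
  have r2 := r (Ψ q).im
  have r3 := Complex.re_add_im (Ψ q)
  simp only [RCLike.re_to_complex, RCLike.im_to_complex, Pi.neg_apply, Pi.sub_apply]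
  linear_combination (-h (π q)) * r1 - Complex.I * h (π q) * r2 - h (π q) * r3

end Pool.Agent.H92.Krein1
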