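import Pool.Agent.H92.Krein1
import Pool.Agent.H92.Fourier1

set_option autoImplicit false
set_option linter.unusedSectionVars false
open MeasureTheory Filter Topology Set
open scoped FourierTransform

namespace Pool.Agent.H92.Krein2
open Pool.Agent.H92.Krein1 Pool.Agent.H92.Fourier1

lemma bump (a₀ r : ℝ) (hr : 0 < r) : ∃ k β : ℝ → ℂ, Integrable k ∧ Continuous β ∧
    (∀ a, ∫ t, k t * ex a t = β a) ∧ (∀ a, dist a a₀ ≤ r → β a = 1) ∧
    (∀ a, 2 * r ≤ dist a a₀ → β a = 0) := by
  let b : ContDiffBump a₀ := ⟨r, 2 * r, hr, by linarith⟩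
  let β : ℝ → ℂ := fun a => (b a : ℂ)
  have h1 : HasCompactSupport β := b.hasCompactSupport.comp_left (g := fun t : ℝ => (t:ℂ)) (by simp)
  have h2 : ContDiff ℝ (⊤ : ℕ∞) β := Complex.ofRealCLM.contDiff.comp b.contDiff
  let s := h1.toSchwartzMap h2
  have h3 : Integrable (𝓕 β) := (𝓕 s).integrable
  have h4 : Integrable β := s.integrable
  refine ⟨𝓕 β, β, h3, h2.continuous, fun a => ?_, fun a ha => ?_, fun a ha => ?_⟩
  · conv_rhs => rw [← h2.continuous.fourierInv_fourier_eq h4 h3, Real.fourierInv_eq']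
    congr 1; ext t
    unfold ex
    rw [smul_eq_mul, mul_comm]
    congr 2
    simp only [RCLike.inner_apply, conj_trivial]
    push_cast; ring
  · simp only [β]; rw [b.one_of_mem_closedBall ha]; simp
  · simp only [β]; rw [b.zero_of_le_dist ha]; simp

variable {Ω : Type*} [MeasurableSpace Ω] {χ : ℝ → Ω → ℂ}

theorem core (hχ : Chars χ) (T : ℝ → Ω → Ω) (hT : Measurable (fun q : ℝ × Ω => T q.1 q.2))
    (hTχ : ∀ a t x, χ a (T t x) = ex a t * χ a x) {Y : Type*} [MeasurableSpace Y] (M : Measure Y)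
    [IsFiniteMeasure M] (p : Y → Ω) (hp : Measurable p) :
    ∃ E : Set Ω, MeasurableSet E ∧
      (∀ w : Y → ℂ, Integrable w M →
        AEMeasurable (fun a => ∫ y, E.indicator 1 (p y) * w y * χ a (p y) ∂M) volume) ∧
      ∀ z : Y → ℂ, Integrable z M → ∀ I : Set ℝ, IsOpen I →
        AEMeasurable (fun a => ∫ y, z y * χ a (p y) ∂M) (volume.restrict I) →
        ∀ a ∈ I, ∫ y, Eᶜ.indicator 1 (p y) * z y * χ a (p y) ∂M = 0 := by
  let Q : Measure (ℝ × Y) := volume.prod M
  let π : ℝ × Y → Ω := fun q => T q.1 (p q.2)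
  have hπ : Measurable π := hT.comp (measurable_fst.prodMk (hp.comp measurable_snd))
  obtain ⟨E, hE, hB1, hB2⟩ := band hχ (Q.toFinite.map π)
  have hb : ∀ (S : Set Ω) a x, ‖S.indicator (1 : Ω → ℂ) x * χ a x‖ ≤ 1 := fun S a x => by
    rw [norm_mul, hχ.norm, mul_one]; exact ind_norm S x
  have C1 : ∀ Ψ : ℝ × Y → ℂ, Integrable Ψ Q →
      AEMeasurable (fun a => ∫ q, Ψ q * (E.indicator 1 (π q) * χ a (π q)) ∂Q) volume := by
    intro Ψ hΨ
    obtain ⟨φ, hφ, he⟩ := push Q Q.toFinite (absolutelyContinuous_toFinite Q) hπ hΨ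
    have := hB1 φ hφ
    unfold Good at this
    convert this using 2 with a
    rw [he (fun x => E.indicator 1 x * χ a x) ((measurable_one.indicator hE).mul (hχ.meas a)) (hb E a)]
    congr 1; ext x; ring
  have C2 : ∀ Ψ : ℝ × Y → ℂ, Integrable Ψ Q →
      AEMeasurable (fun a => ∫ q, Ψ q * χ a (π q) ∂Q) volume →
      ∀ a, ∫ q, Ψ q * (Eᶜ.indicator 1 (π q) * χ a (π q)) ∂Q = 0 := by
    intro Ψ hΨ hg a
    obtain ⟨φ, hφ, he⟩ := push Q Q.toFinite (absolutelyContinuous_toFinite Q) hπ hΨ
    have := hB2 φ hφ (by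
      unfold Good
      convert hg using 2 with a
      rw [he (χ a) (hχ.meas a) (fun x => (hχ.norm a x).le)])
    rw [he (fun x => Eᶜ.indicator 1 x * χ a x) ((measurable_one.indicator hE.compl).mul (hχ.meas a))
      (hb _ a)]
    refine integral_eq_zero_of_ae ?_
    filter_upwards [this] with x hx
    by_cases hxE : x ∈ E
    · simp [hxE]
    · simp [hx hxE]
  let ρ : ℝ → ℝ := fun t => Real.exp (-1 * t ^ 2)
  have hρ : Integrable ρ := integrable_exp_neg_mul_sq one_pos
  have hsh : ∀ s : ℝ, MeasurePreserving (fun q : ℝ × Y => (q.1 + s, q.2)) Q Q := fun s =>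
    (measurePreserving_add_right volume s).prod (MeasurePreserving.id M)
  have hshm : Measurable (fun q : ℝ × (ℝ × Y) => π (q.2.1 + q.1, q.2.2)) := by fun_prop
  have inv1 : ∀ s : ℝ, ∀ᵐ q ∂Q, π (q.1 + s, q.2) ∈ E → π q ∈ E := by
    intro s
    have hm1 : Measurable fun q : ℝ × Y => π (q.1 + s, q.2) := by fun_prop
    have hi0 : Integrable (fun q : ℝ × Y => (ρ q.1 : ℂ)) Q := by
      simpa using hρ.ofReal.mul_prod (integrable_const (μ := M) (1:ℂ))
    have hi1 : Integrable (fun q : ℝ × Y => (ρ (q.1 - s) : ℂ)) Q := by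
      simpa using (hρ.comp_sub_right s).ofReal.mul_prod (integrable_const (μ := M) (1:ℂ))
    have hi : Integrable (fun q : ℝ × Y => (ρ q.1 : ℂ) * E.indicator 1 (π (q.1 + s, q.2))) Q :=
      hi0.mul_bdd (c := 1) ((measurable_one.indicator hE).comp hm1).aestronglyMeasurable
        (.of_forall fun q => ind_norm _ _)
    have h1 := C2 _ hi (by
      have := (C1 _ hi1).mul (show AEMeasurable (fun a : ℝ => ex (-s) a) volume from
        (ex_cont _).aemeasurable)
      convert this using 2 with a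
      rw [Pi.mul_apply, ← integral_mul_const]
      conv_rhs => rw [← (hsh s).integral_comp
        ((MeasurableEquiv.addRight s).prodCongr (MeasurableEquiv.refl Y)).measurableEmbedding]
      congr 1; ext q
      simp only [π, hTχ, add_sub_cancel_right, ex_add_right]
      have : ex a s * ex (-s) a = 1 := by rw [ex_comm a s, ← ex_add_left]; simp [ex_zero_left]
      linear_combination (-(ρ q.1 * E.indicator 1 (T (q.1 + s) (p q.2)) * ex a q.1 * χ a (p q.2))) * this) 0
    let S : Set (ℝ × Y) := {q | π (q.1 + s, q.2) ∈ E ∧ π q ∉ E}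
    have hS : MeasurableSet S := (hm1 hE).inter (hπ hE.compl)
    have h2 : ∫ q, S.indicator (fun q => ρ q.1) q ∂Q = 0 := by
      have : ((∫ q, S.indicator (fun q => ρ q.1) q ∂Q : ℝ) : ℂ) = 0 := by
        rw [← h1, ← integral_complex_ofReal]
        congr 1; ext q
        by_cases c1 : π (q.1 + s, q.2) ∈ E <;> by_cases c2 : π q ∈ E <;>
          simp [S, indicator, c1, c2, hχ.zero]
      exact_mod_cast this
    have hi2 : Integrable (fun q : ℝ × Y => ρ q.1) Q := by
      simpa using hρ.mul_prod (integrable_const (μ := M) (1:ℝ))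
    have h3 := (integral_eq_zero_iff_of_nonneg
      (fun q => indicator_nonneg (fun q _ => (Real.exp_pos _).le) q) (hi2.indicator hS)).mp h2
    filter_upwards [h3] with q hq c1
    by_contra c2
    rw [indicator_of_mem (show q ∈ S from ⟨c1, c2⟩)] at hq
    exact (Real.exp_pos _).ne' hq
  let E' : Set Ω := {x | volume {t : ℝ | T t x ∈ E} ≠ 0}
  have hE' : MeasurableSet E' := by
    have := measurable_measure_prodMk_right (μ := (volume : Measure ℝ)) (hT hE)
    exact this (measurableSet_singleton 0).compl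
  have inv2 : ∀ᵐ q ∂Q, (π q ∈ E ↔ p q.2 ∈ E') := by
    have a1 : ∀ᵐ q ∂Q, ∀ᵐ s : ℝ, π (q.1 + s, q.2) ∈ E → π q ∈ E := by
      rw [← Measure.ae_ae_comm (μ := (volume : Measure ℝ)) (ν := Q)
        (p := fun s q => π (q.1 + s, q.2) ∈ E → π q ∈ E)]
      · exact .of_forall inv1
      · exact MeasurableSet.imp (hshm hE) ((hπ.comp measurable_snd) hE)
    have a2 : ∀ᵐ q ∂Q, π q ∈ E → p q.2 ∈ E' := by
      have hm : MeasurableSet {q : ℝ × Y | π q ∈ E → p q.2 ∈ E'} :=
        MeasurableSet.imp (hπ hE) ((hp.comp measurable_snd) hE')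
      rw [Measure.ae_prod_iff_ae_ae hm, Measure.ae_ae_comm (p := fun t y => π (t, y) ∈ E → p y ∈ E') hm]
      refine .of_forall fun y => ?_
      by_cases hy : p y ∈ E'
      · exact .of_forall fun _ _ => hy
      · have : volume {t : ℝ | T t (p y) ∈ E} = 0 := not_not.mp hy
        filter_upwards [measure_eq_zero_iff_ae_notMem.mp this] with t ht h
        exact absurd h ht
    filter_upwards [a1, a2] with q h1 h2
    refine ⟨h2, fun h3 => ?_⟩
    by_contra h4
    apply h3
    rw [← measure_preimage_add volume q.1, measure_eq_zero_iff_ae_notMem]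
    filter_upwards [h1] with s hs h5
    exact h4 (hs h5)
  have fact : ∀ (S S' : Set Ω), (∀ᵐ q ∂Q, (π q ∈ S ↔ p q.2 ∈ S')) → ∀ (k : ℝ → ℂ) (w : Y → ℂ) a,
      ∫ q, k q.1 * w q.2 * (S.indicator 1 (π q) * χ a (π q)) ∂Q =
        (∫ t, k t * ex a t) * ∫ y, S'.indicator 1 (p y) * w y * χ a (p y) ∂M := by
    intro S S' h k w a
    rw [← integral_prod_mul]
    refine integral_congr_ae ?_
    filter_upwards [h] with q hq
    have : S.indicator (1 : Ω → ℂ) (π q) = S'.indicator 1 (p q.2) := by
      by_cases c : π q ∈ S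
      · simp [c, hq.mp c]
      · simp [c, hq.not.mp c]
    rw [this]; simp only [π, hTχ]; ring
  refine ⟨E', hE', fun w hw => ?_, fun z hz I hI hm a ha => ?_⟩
  · choose k β hk hβ e1 e2 e3 using fun n : ℕ => bump 0 ((n:ℝ) + 1) (by positivity)
    refine aemeasurable_of_tendsto_metrizable_ae' (fun n => C1 _ ((hk n).mul_prod hw))
      (.of_forall fun a => ?_)
    simp only [fact E E' inv2, e1]
    refine tendsto_const_nhds.congr' ?_
    filter_upwards [tendsto_natCast_atTop_atTop.eventually (eventually_ge_atTop (dist a 0))] with n hn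
    rw [e2 n a (by linarith), one_mul]
  · obtain ⟨r, hr, hball⟩ := Metric.isOpen_iff.mp hI a ha
    obtain ⟨k, β, hk, hβ, e1, e2, e3⟩ := bump a (r / 2) (by positivity)
    have h1 := C2 _ (hk.mul_prod hz) (by
      have h2 := fact univ univ (.of_forall fun _ => by simp) k z
      simp only [indicator_univ, Pi.one_apply, one_mul, e1] at h2
      simp only [h2]
      have h3 := (aemeasurable_indicator_iff hI.measurableSet).mpr (hβ.aemeasurable.mul hm)
      refine h3.congr (.of_forall fun b => Eq.symm ?_)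
      by_cases hb : b ∈ I
      · rw [indicator_of_mem hb]; rfl
      · simp only []
        rw [indicator_of_notMem hb, e3 b, zero_mul]
        by_contra h
        exact hb (hball (by rw [Metric.mem_ball]; linarith))) a
    rw [fact Eᶜ E'ᶜ (inv2.mono fun q hq => hq.not), e1, e2 a (by simp; positivity), one_mul] at h1
    exact h1

end Pool.Agent.H92.Krein2
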