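import Mathlib

set_option autoImplicit false
open MeasureTheory
open scoped ComplexOrder

namespace Pool.Agent.H92.KreinDefs

/-- the interval `(-A, A)`, for `0 < A ≤ ∞` -/
def Iv (A : EReal) : Set ℝ := {x : ℝ | -A < (x : EReal) ∧ (x : EReal) < A}

/-- `|Φ_f(P)| ≤ C * sup |P|` for every almost periodic polynomial `P` with exponents in `I` -/
def Bdd (I : Set ℝ) (f : ℝ → ℂ) (C : ℝ) : Prop :=
  ∀ s : Finset ℝ, (∀ x ∈ s, x ∈ I) → ∀ (c : ℝ → ℂ) (M : ℝ),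
    (∀ t : ℝ, ‖∑ x ∈ s, c x * Complex.exp (Complex.I * (x : ℂ) * (t : ℂ))‖ ≤ M) →
    ‖∑ x ∈ s, c x * f x‖ ≤ C * M

/-- `Φ_f` is a bounded functional on the polynomials with exponents in `I` -/
def InR (I : Set ℝ) (f : ℝ → ℂ) : Prop := ∃ C : ℝ, Bdd I f C

/-- the operator norm of `Φ_f` -/
noncomputable def nrm (I : Set ℝ) (f : ℝ → ℂ) : ℝ := sInf {C : ℝ | 0 ≤ C ∧ Bdd I f C}

/-- `Φ_f` is bounded and non-negative on non-negative polynomials with exponents in `I` -/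
def Pos (I : Set ℝ) (f : ℝ → ℂ) : Prop :=
  InR I f ∧ ∀ s : Finset ℝ, (∀ x ∈ s, x ∈ I) → ∀ c : ℝ → ℂ,
    (∀ t : ℝ, 0 ≤ ∑ x ∈ s, c x * Complex.exp (Complex.I * (x : ℂ) * (t : ℂ))) →
    0 ≤ ∑ x ∈ s, c x * f x

/-- `f` is Hermitian on `I` -/
def Herm (I : Set ℝ) (f : ℝ → ℂ) : Prop := ∀ x ∈ I, f (-x) = starRingEnd ℂ (f x)

/-- `f` is Lebesgue measurable on `I` -/
def Meas (I : Set ℝ) (f : ℝ → ℂ) : Prop := AEMeasurable f (volume.restrict I)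

end Pool.Agent.H92.KreinDefs
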