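import Pool.Agent.H92.Krein2
import Pool.Agent.H92.KreinDefs

set_option autoImplicit false
set_option linter.unusedSectionVars false
open MeasureTheory Filter Topology Set
open scoped ComplexOrder CompactlySupported

namespace Pool.Agent.H92.Krein3
open Pool.Agent.H92.Krein1 Pool.Agent.H92.Krein2 Pool.Agent.H92.Fourier1 Pool.Agent.H92.KreinDefs

noncomputable def ch (t : ℝ) : ℝ → ℂ := fun a => Complex.exp (Complex.I * (a : ℂ) * (t : ℂ))

def K : Set (ℝ → ℂ) := closure (range ch)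

lemma K_ind {P : (ℝ → ℂ) → Prop} (hP : IsClosed {x | P x}) (h : ∀ t, P (ch t)) :
    ∀ x ∈ K, P x := closure_minimal (by rintro _ ⟨t, rfl⟩; exact h t) hP

lemma ch_norm (t a : ℝ) : ‖ch t a‖ = 1 := by
  unfold ch
  rw [show Complex.I * (a:ℂ) * t = ((a * t : ℝ) : ℂ) * Complex.I by push_cast; ring,
    Complex.norm_exp_ofReal_mul_I]

lemma K_norm (a : ℝ) : ∀ x ∈ K, ‖x a‖ = 1 :=
  K_ind (isClosed_eq (by fun_prop) continuous_const) fun t => ch_norm t a

lemma K_add (a b : ℝ) : ∀ x ∈ K, x (a + b) = x a * x b :=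
  K_ind (isClosed_eq (by fun_prop) (by fun_prop)) fun t => by
    unfold ch; rw [← Complex.exp_add]; congr 1; push_cast; ring

lemma K_compact : IsCompact K := by
  refine (isCompact_univ_pi fun _ : ℝ => isCompact_closedBall (0:ℂ) 1).of_isClosed_subset
    isClosed_closure fun x hx a _ => ?_
  simp [K_norm a x hx]

instance : CompactSpace K := isCompact_iff_compactSpace.mp K_compact

lemma K_le (s : Finset ℝ) (c : ℝ → ℂ) (M : ℝ)
    (h : ∀ t : ℝ, ‖∑ x ∈ s, c x * Complex.exp (Complex.I * (x : ℂ) * (t : ℂ))‖ ≤ M) :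
    ∀ y ∈ K, ‖∑ x ∈ s, c x * y x‖ ≤ M :=
  K_ind (isClosed_le (by fun_prop) continuous_const) h

lemma K_pos (s : Finset ℝ) (c : ℝ → ℂ)
    (h : ∀ t : ℝ, 0 ≤ ∑ x ∈ s, c x * Complex.exp (Complex.I * (x : ℂ) * (t : ℂ))) :
    ∀ y ∈ K, 0 ≤ ∑ x ∈ s, c x * y x :=
  K_ind (isClosed_le continuous_const (by fun_prop)) h

lemma K_flow (t : ℝ) (x : K) : (fun a => ex a t * x.1 a) ∈ K := by
  refine map_mem_closure (f := fun x : ℝ → ℂ => fun a => ex a t * x a) (by fun_prop) x.2 ?_
  rintro _ ⟨s, rfl⟩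
  refine ⟨2 * Real.pi * t + s, ?_⟩
  ext a
  simp only [ch, ex]
  rw [← Complex.exp_add]; congr 1; push_cast; ring

noncomputable def T (t : ℝ) (x : K) : K := ⟨fun a => ex a t * x.1 a, K_flow t x⟩

def χ (a : ℝ) (x : K) : ℂ := x.1 a

lemma χ_cont (a : ℝ) : Continuous (χ a) := (continuous_apply a).comp continuous_subtype_val

lemma chars : Chars χ where
  meas a := (measurable_pi_apply a).comp measurable_subtype_coe
  norm a x := K_norm a x.1 x.2
  add a b x := K_add a b x.1 x.2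
  gen := by
    show MeasurableSpace.comap Subtype.val (⨆ a, MeasurableSpace.comap (fun b : ℝ → ℂ => b a) _) ≤ _
    rw [MeasurableSpace.comap_iSup]
    simp only [MeasurableSpace.comap_comp]
    exact le_rfl

lemma T_meas : Measurable (fun q : ℝ × K => T q.1 q.2) := by
  refine Measurable.subtype_mk (measurable_pi_lambda _ fun a => ?_)
  exact ((ex_cont a).measurable.comp measurable_fst).mul ((chars.meas a).comp measurable_snd)

def Y : Type := K × Circle

noncomputable instance : TopologicalSpace Y := inferInstanceAs (TopologicalSpace (K × Circle))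
instance : CompactSpace Y := inferInstanceAs (CompactSpace (K × Circle))
instance : T2Space Y := inferInstanceAs (T2Space (K × Circle))
instance : Nonempty Y := ⟨(⟨ch 0, subset_closure ⟨0, rfl⟩⟩, 1)⟩
noncomputable instance : MeasurableSpace Y := borel Y
instance : BorelSpace Y := ⟨rfl⟩

def pr (y : Y) : K := y.1
noncomputable def zz (y : Y) : ℂ := (y.2 : ℂ)

lemma pr_cont : Continuous pr := continuous_fst
lemma zz_cont : Continuous zz := continuous_subtype_val.comp continuous_snd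
lemma zz_norm (y : Y) : ‖zz y‖ = 1 := Circle.norm_coe _

lemma pr_meas : Measurable pr :=
  Measurable.subtype_mk (measurable_pi_lambda _ fun a => ((χ_cont a).comp pr_cont).measurable)

noncomputable def G (a : ℝ) : C(Y, ℂ) := ⟨fun y => zz y * χ a (pr y),
  zz_cont.mul ((χ_cont a).comp pr_cont)⟩

noncomputable def J : (ℝ →₀ ℂ) →ₗ[ℝ] C(Y, ℝ) where
  toFun c := ⟨fun y => (zz y * c.sum fun a w => w * χ a (pr y)).re, by
    have := zz_cont
    have := fun a => (χ_cont a).comp pr_cont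
    unfold Finsupp.sum
    exact Complex.continuous_re.comp (zz_cont.mul (continuous_finsetSum _ fun a _ =>
      continuous_const.mul (this a)))⟩
  map_add' c d := by
    ext y
    simp only [ContinuousMap.coe_mk, ContinuousMap.add_apply]
    rw [Finsupp.sum_add_index' (by simp) (by intros; ring), mul_add, Complex.add_re]
  map_smul' r c := by
    ext y
    simp only [ContinuousMap.coe_mk, ContinuousMap.smul_apply, RingHom.id_apply, smul_eq_mul]
    rw [Finsupp.sum_smul_index' (by simp)]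
    simp only [Complex.real_smul, mul_assoc, ← Finsupp.mul_sum]
    rw [mul_left_comm, Complex.re_ofReal_mul]

noncomputable def Φ (f : ℝ → ℂ) : (ℝ →₀ ℂ) →ₗ[ℝ] ℝ where
  toFun c := (c.sum fun a w => w * f a).re
  map_add' c d := by
    rw [Finsupp.sum_add_index' (by simp) (by intros; ring), Complex.add_re]
  map_smul' r c := by
    rw [Finsupp.sum_smul_index' (by simp)]
    simp only [Complex.real_smul, mul_assoc, ← Finsupp.mul_sum, RingHom.id_apply, smul_eq_mul]
    rw [Complex.re_ofReal_mul]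

lemma bddA (u : C(Y, ℝ)) : BddAbove (range u) := (isCompact_range u.continuous).bddAbove

lemma hb0 {V E : Type*} [AddCommGroup V] [Module ℝ V] [AddCommGroup E] [Module ℝ E]
    (J : V →ₗ[ℝ] E) (Φ : V →ₗ[ℝ] ℝ) (N : E → ℝ) (hom : ∀ c : ℝ, 0 < c → ∀ x, N (c • x) = c * N x)
    (add : ∀ x y, N (x + y) ≤ N x + N y) (key : ∀ c, Φ c ≤ N (J c)) :
    ∃ g : E →ₗ[ℝ] ℝ, (∀ c, g (J c) = Φ c) ∧ ∀ u, g u ≤ N u := by
  have N0 : N 0 = 0 := by
    have := hom 2 two_pos 0
    rw [smul_zero] at this; linarith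
  have hker : LinearMap.ker J ≤ LinearMap.ker Φ := by
    intro c hc
    have h0 : J c = 0 := hc
    have h1 := key c
    have h2 := key (-c)
    simp only [map_neg, h0, neg_zero, N0] at h1 h2
    show Φ c = 0
    linarith
  let ψ : LinearMap.range J →ₗ[ℝ] ℝ :=
    ((LinearMap.ker J).liftQ Φ hker).comp (LinearMap.quotKerEquivRange J).symm.toLinearMap
  have hψ : ∀ c, ψ ⟨J c, ⟨c, rfl⟩⟩ = Φ c := by
    intro c
    show (LinearMap.ker J).liftQ Φ hker ((LinearMap.quotKerEquivRange J).symm ⟨J c, _⟩) = _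
    rw [LinearMap.quotKerEquivRange_symm_apply_image]
    rfl
  obtain ⟨g, hg1, hg2⟩ := exists_extension_of_le_sublinear ⟨LinearMap.range J, ψ⟩ N hom add (by
      rintro ⟨_, c, rfl⟩
      exact (hψ c).le.trans (key c))
  exact ⟨g, fun c => (hg1 ⟨J c, c, rfl⟩).trans (hψ c), hg2⟩

lemma hb {V E : Type*} [AddCommGroup V] [Module ℝ V] [AddCommGroup E] [Module ℝ E]
    (S : Submodule ℝ V) (J : V →ₗ[ℝ] E) (Φ : V →ₗ[ℝ] ℝ) (N : E → ℝ)
    (hom : ∀ c : ℝ, 0 < c → ∀ x, N (c • x) = c * N x)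
    (add : ∀ x y, N (x + y) ≤ N x + N y) (key : ∀ c : S, Φ c ≤ N (J c)) :
    ∃ g : E →ₗ[ℝ] ℝ, (∀ c : S, g (J c) = Φ c) ∧ ∀ u, g u ≤ N u :=
  hb0 (J.domRestrict S) (Φ.domRestrict S) N hom add key

theorem rep (I : Set ℝ) (f : ℝ → ℂ) {C : ℝ} (hC : 0 ≤ C) (h : Bdd I f C) :
    ∃ M : Measure Y, IsFiniteMeasure M ∧ M.real univ ≤ C ∧
      ∀ a ∈ I, f a = ∫ y, zz y * χ a (pr y) ∂M := by
  let S : Submodule ℝ (ℝ →₀ ℂ) := Finsupp.supported ℂ ℝ I
  let N : C(Y, ℝ) → ℝ := fun u => C * ⨆ y, u y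
  have key : ∀ c : S, Φ f c ≤ N (J c) := by
    intro c
    refine (Complex.re_le_norm _).trans (h c.1.support c.2 c.1 _ fun t => ?_)
    obtain ⟨z, hz, hz'⟩ := Complex.exists_norm_eq_mul_self
      (∑ x ∈ c.1.support, c.1 x * Complex.exp (Complex.I * (x : ℂ) * (t : ℂ)))
    refine le_trans (le_of_eq ?_) (le_ciSup (bddA (J c))
      ((⟨ch t, subset_closure ⟨t, rfl⟩⟩, ⟨z, by simpa [Submonoid.unitSphere] using hz⟩) : K × Circle))
    have := congrArg Complex.re hz'
    rw [Complex.ofReal_re] at this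
    exact this
  obtain ⟨g, hg1, hg2⟩ := hb (V := ℝ →₀ ℂ) (E := C(Y, ℝ)) S J (Φ f) N (by
      intro c hc u
      simp only [N, ContinuousMap.smul_apply, smul_eq_mul]
      rw [← Real.mul_iSup_of_nonneg hc.le]; ring) (by
      intro u v
      simp only [N, ← mul_add]
      refine mul_le_mul_of_nonneg_left (ciSup_le fun y => ?_) hC
      exact add_le_add (le_ciSup (bddA u) y) (le_ciSup (bddA v) y)) key
  let Λ0 : C_c(Y, ℝ) →ₗ[ℝ] ℝ :=
    { toFun := fun u => g u.toContinuousMap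
      map_add' := fun u v => by rw [← map_add]; rfl
      map_smul' := fun c u => by rw [← map_smul]; rfl }
  let Λ : C_c(Y, ℝ) →ₚ[ℝ] ℝ := PositiveLinearMap.mk₀ Λ0 (by
    intro u hu
    have h1 := hg2 (-u.toContinuousMap)
    have h2 : N (-u.toContinuousMap) ≤ 0 :=
      mul_nonpos_of_nonneg_of_nonpos hC (ciSup_le fun y => by simpa using hu y)
    rw [map_neg] at h1
    show 0 ≤ g u.toContinuousMap
    linarith)
  have hint : ∀ u : C(Y, ℝ), ∫ y, u y ∂(RealRMK.rieszMeasure Λ) = g u := fun u =>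
    RealRMK.integral_rieszMeasure Λ (CompactlySupportedContinuousMap.continuousMapEquiv u)
  refine ⟨RealRMK.rieszMeasure Λ, inferInstance, ?_, fun a ha => ?_⟩
  · have h1 := hint 1
    have h2 := hg2 1
    simp only [ContinuousMap.one_apply, integral_const, smul_eq_mul, mul_one, N, ciSup_const] at h1 h2
    linarith
  · have hi : Integrable (fun y => zz y * χ a (pr y)) (RealRMK.rieszMeasure Λ) :=
      (G a).continuous.integrable_of_hasCompactSupport (HasCompactSupport.of_compactSpace _)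
    have h1 : ∀ w : ℂ, (w * f a).re = ∫ y, (w * (zz y * χ a (pr y))).re ∂(RealRMK.rieszMeasure Λ) := by
      intro w
      have hc : Finsupp.single a w ∈ S := Finsupp.single_mem_supported ℝ w ha
      have e2 : g (J (Finsupp.single a w)) = Φ f (Finsupp.single a w) := hg1 ⟨_, hc⟩
      have e3 := hint (J (Finsupp.single a w))
      have e4 : Φ f (Finsupp.single a w) = (w * f a).re := by simp [Φ]
      rw [← e4, ← e2, ← e3]
      congr 1; ext y
      simp only [J, LinearMap.coe_mk, AddHom.coe_mk, ContinuousMap.coe_mk, zero_mul,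
        Finsupp.sum_single_index, mul_left_comm]
    apply Complex.ext
    · have := h1 1
      simp only [one_mul] at this
      rw [this]; exact integral_re hi
    · have := h1 (-Complex.I)
      simp only [neg_mul, Complex.neg_re, Complex.I_mul_re, neg_neg] at this
      rw [this]; exact integral_im hi

lemma bdd_nrm {I : Set ℝ} {f : ℝ → ℂ} (h : InR I f) : 0 ≤ nrm I f ∧ Bdd I f (nrm I f) := by
  obtain ⟨C, hC⟩ := h
  have hne : {C : ℝ | 0 ≤ C ∧ Bdd I f C}.Nonempty := by
    refine ⟨max C 0, le_max_right _ _, fun s hs c M hM => (hC s hs c M hM).trans ?_⟩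
    exact mul_le_mul_of_nonneg_right (le_max_left _ _) ((norm_nonneg _).trans (hM 0))
  refine ⟨le_csInf hne fun C hC => hC.1, fun s hs c M hM => ?_⟩
  have hM0 : 0 ≤ M := (norm_nonneg _).trans (hM 0)
  rcases hM0.eq_or_lt with rfl | hpos
  · simpa using hC s hs c 0 hM
  · rw [← div_le_iff₀ hpos]
    exact le_csInf hne fun C hC => (div_le_iff₀ hpos).mpr (hC.2 s hs c M hM)

lemma nrm_le {I : Set ℝ} {f : ℝ → ℂ} {C : ℝ} (hC : 0 ≤ C) (h : Bdd I f C) : nrm I f ≤ C :=
  csInf_le ⟨0, fun _ h => h.1⟩ ⟨hC, h⟩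

lemma bdd_congr {I J : Set ℝ} {f g : ℝ → ℂ} {C : ℝ} (h : Bdd J g C) (hIJ : I ⊆ J)
    (he : ∀ x ∈ I, g x = f x) : Bdd I f C := by
  intro s hs c M hM
  rw [show ∑ x ∈ s, c x * f x = ∑ x ∈ s, c x * g x from
    Finset.sum_congr rfl fun x hx => by rw [he x (hs x hx)]]
  exact h s (fun x hx => hIJ (hs x hx)) c M hM

section
variable {Z : Type*} [MeasurableSpace Z] {M : Measure Z} {p : Z → K} (hp : Measurable p)
  {w : Z → ℂ} (hw : Integrable w M)
include hp hw

lemma int_w (a : ℝ) : Integrable (fun y => w y * χ a (p y)) M :=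
  hw.mul_bdd (c := 1) ((chars.meas a).comp hp).aestronglyMeasurable
    (.of_forall fun y => (chars.norm a _).le)

lemma sum_int (s : Finset ℝ) (c : ℝ → ℂ) :
    ∑ x ∈ s, c x * ∫ y, w y * χ x (p y) ∂M = ∫ y, w y * ∑ x ∈ s, c x * χ x (p y) ∂M := by
  simp only [← integral_const_mul, Finset.mul_sum]
  rw [← integral_finsetSum _ fun x _ => (int_w hp hw x).const_mul (c x)]
  congr 1; ext y
  exact Finset.sum_congr rfl fun x _ => by ring

lemma bdd_int : Bdd univ (fun a => ∫ y, w y * χ a (p y) ∂M) (∫ y, ‖w y‖ ∂M) := by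
  intro s _ c B hB
  rw [sum_int hp hw, ← integral_mul_const]
  refine norm_integral_le_of_norm_le (hw.norm.mul_const B) (.of_forall fun y => ?_)
  rw [norm_mul]
  exact mul_le_mul_of_nonneg_left (K_le s c B hB _ (p y).2) (norm_nonneg _)

lemma pos_int (h0 : ∀ y, 0 ≤ w y) (I : Set ℝ) : Pos I (fun a => ∫ y, w y * χ a (p y) ∂M) := by
  refine ⟨⟨_, bdd_congr (bdd_int hp hw) (subset_univ _) fun _ _ => rfl⟩, fun s _ c hc => ?_⟩
  rw [sum_int hp hw]
  exact integral_nonneg fun y => mul_nonneg (h0 y) (K_pos s c hc _ (p y).2)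

end

theorem core' {Z : Type*} [MeasurableSpace Z] (M : Measure Z) [IsFiniteMeasure M] {p : Z → K}
    (hp : Measurable p) {z : Z → ℂ} (hz : Integrable z M) {I : Set ℝ} (hI : IsOpen I) {f : ℝ → ℂ}
    (hf : Meas I f) (he : ∀ a ∈ I, f a = ∫ y, z y * χ a (p y) ∂M) :
    ∃ S : Set Z, MeasurableSet S ∧
      (∀ w : Z → ℂ, Integrable w M →
        AEMeasurable (fun a => ∫ y, S.indicator w y * χ a (p y) ∂M) volume) ∧
      ∀ a ∈ I, f a = ∫ y, S.indicator z y * χ a (p y) ∂M := by
  obtain ⟨E, hE, h1, h2⟩ := core chars T T_meas (fun _ _ _ => rfl) M p hp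
  have e : ∀ (E : Set K) (w : Z → ℂ) y, (p ⁻¹' E).indicator w y = E.indicator 1 (p y) * w y := by
    intro E w y
    by_cases h : p y ∈ E
    · rw [indicator_of_mem h, indicator_of_mem (show y ∈ p ⁻¹' E from h)]; simp
    · rw [indicator_of_notMem h, indicator_of_notMem (show y ∉ p ⁻¹' E from h)]; simp
  refine ⟨p ⁻¹' E, hp hE, fun w hw => by simpa only [e] using h1 w hw, fun a ha => ?_⟩
  have h3 := h2 z hz I hI (hf.congr (ae_restrict_of_forall_mem hI.measurableSet he)) a ha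
  simp only [← e] at h3
  rw [he a ha, ← add_zero (∫ y, (p ⁻¹' E).indicator z y * χ a (p y) ∂M), ← h3,
    ← integral_add (int_w hp (hz.indicator (hp hE)) a) (int_w hp (hz.indicator (hp hE.compl)) a)]
  congr 1; ext y
  rw [← add_mul, preimage_compl, indicator_self_add_compl_apply]

lemma zz_int (M : Measure Y) [IsFiniteMeasure M] : Integrable zz M :=
  zz_cont.integrable_of_hasCompactSupport (HasCompactSupport.of_compactSpace _)

theorem extend {I : Set ℝ} (hI : IsOpen I) {f : ℝ → ℂ} (hf : InR I f) (hm : Meas I f) :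
    ∃ g : ℝ → ℂ, (∀ x ∈ I, g x = f x) ∧ AEMeasurable g volume ∧ InR univ g ∧
      nrm univ g = nrm I f := by
  obtain ⟨h0, hb⟩ := bdd_nrm hf
  obtain ⟨M, hM, hMC, he⟩ := rep I f h0 hb
  obtain ⟨S, hS, h1, h2⟩ := core' M pr_meas (zz_int M) hI hm he
  have h3 := bdd_int pr_meas ((zz_int M).indicator hS)
  have h4 : ∫ y, ‖S.indicator zz y‖ ∂M ≤ nrm I f := by
    refine le_trans ?_ hMC
    have := integral_mono ((zz_int M).indicator hS).norm (integrable_const (1:ℝ))
      fun y => (norm_indicator_le_norm_self _ _).trans (zz_norm y).le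
    simpa using this
  refine ⟨_, fun x hx => (h2 x hx).symm, h1 _ (zz_int M), ⟨_, h3⟩, le_antisymm ?_ ?_⟩
  · exact (nrm_le (integral_nonneg fun _ => norm_nonneg _) h3).trans h4
  · obtain ⟨a, b⟩ := bdd_nrm ⟨_, h3⟩
    exact nrm_le a (bdd_congr b (subset_univ _) fun x hx => (h2 x hx).symm)

end Pool.Agent.H92.Krein3
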