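import Pool.Agent.H92.Krein3

set_option autoImplicit false
set_option linter.unusedSectionVars false
open MeasureTheory Filter Topology Set
open scoped ComplexOrder

namespace Pool.Agent.H92.Krein4
open Pool.Agent.H92.Krein1 Pool.Agent.H92.Krein3 Pool.Agent.H92.KreinDefs

lemma Iv_open (A : EReal) : IsOpen (Iv A) :=
  (isOpen_lt continuous_const continuous_coe_real_ereal).inter
    (isOpen_lt continuous_coe_real_ereal continuous_const)

lemma Iv_neg {A : EReal} {x : ℝ} (h : x ∈ Iv A) : -x ∈ Iv A :=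
  ⟨by rw [EReal.coe_neg]; exact EReal.neg_lt_neg_iff.mpr h.2,
    by rw [EReal.coe_neg]; exact EReal.neg_lt_comm.mp h.1⟩

lemma Iv_zero {A : EReal} (h : 0 < A) : (0:ℝ) ∈ Iv A :=
  ⟨by simpa using h, by simpa using h⟩

theorem jordan {I : Set ℝ} (hI : IsOpen I) (hsym : ∀ x ∈ I, -x ∈ I) {f : ℝ → ℂ} (hf : InR I f)
    (hh : Herm I f) (hm : Meas I f) :
    ∃ g h : ℝ → ℂ, Pos I g ∧ Meas I g ∧ Pos I h ∧ Meas I h ∧ (∀ x ∈ I, f x = g x - h x) ∧
      (nrm I f : ℂ) = g 0 + h 0 := by
  obtain ⟨h0, hb⟩ := bdd_nrm hf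
  obtain ⟨M, hM, hMC, he⟩ := rep I f h0 hb
  obtain ⟨S, hS, h1, h2⟩ := core' M pr_meas (zz_int M) hI hm he
  let w1 : Y → ℂ := fun y => ((max (zz y).re 0 : ℝ) : ℂ)
  let w2 : Y → ℂ := fun y => ((max (-(zz y).re) 0 : ℝ) : ℂ)
  have i1 : Integrable w1 M := (zz_int M).re.pos_part.ofReal
  have i2 : Integrable w2 M := (zz_int M).re.neg.pos_part.ofReal
  have p1 : ∀ y, 0 ≤ S.indicator w1 y := fun y =>
    indicator_nonneg (fun y _ => Complex.zero_le_real.mpr (le_max_right _ _)) y
  have p2 : ∀ y, 0 ≤ S.indicator w2 y := fun y =>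
    indicator_nonneg (fun y _ => Complex.zero_le_real.mpr (le_max_right _ _)) y
  have iz := (zz_int M).indicator hS
  let w : Y → ℂ := fun y => S.indicator w1 y - S.indicator w2 y
  have iw : Integrable w M := (i1.indicator hS).sub (i2.indicator hS)
  have hw : ∀ y, 2 * w y = S.indicator zz y + starRingEnd ℂ (S.indicator zz y) := by
    intro y
    by_cases hy : y ∈ S
    · simp only [w, indicator_of_mem hy, w1, w2, Complex.add_conj]
      rw [← Complex.ofReal_sub, max_zero_sub_max_neg_zero_eq_self]; push_cast; ring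
    · simp [w, hy]
  have hf2 : ∀ a ∈ I, f a = ∫ y, w y * χ a (pr y) ∂M := by
    intro a ha
    have e1 := h2 a ha
    have e2 : f a = ∫ y, starRingEnd ℂ (S.indicator zz y) * χ a (pr y) ∂M := by
      have := hh (-a) (hsym a ha)
      rw [neg_neg, h2 _ (hsym a ha), ← integral_conj] at this
      rw [this]
      congr 1; ext y
      rw [map_mul, chars.neg, Complex.conj_conj]
    have iz' : Integrable (fun y => starRingEnd ℂ (S.indicator zz y)) M :=
      Complex.conjCLE.toContinuousLinearMap.integrable_comp iz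
    apply mul_left_cancel₀ (two_ne_zero (α := ℂ))
    rw [two_mul, ← integral_const_mul]
    nth_rewrite 1 [e1]
    rw [e2, ← integral_add (int_w pr_meas iz a) (int_w pr_meas iz' a)]
    congr 1; ext y
    rw [← mul_assoc, hw]; ring
  have hn : ∀ y, ((‖w y‖ : ℝ) : ℂ) = S.indicator w1 y + S.indicator w2 y := by
    intro y
    by_cases hy : y ∈ S
    · simp only [w, indicator_of_mem hy, w1, w2]
      rw [← Complex.ofReal_sub, max_zero_sub_max_neg_zero_eq_self, ← Complex.ofReal_add,
        max_zero_add_max_neg_zero_eq_abs_self, Complex.norm_real, Real.norm_eq_abs]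
    · simp [w, hy]
  have hle : ∀ y, ‖w y‖ ≤ 1 := by
    intro y
    have h3 := congrArg norm (hw y)
    have h4 := norm_add_le (S.indicator zz y) (starRingEnd ℂ (S.indicator zz y))
    have h5 := (norm_indicator_le_norm_self (s := S) zz y).trans (zz_norm y).le
    rw [norm_mul, Complex.norm_ofNat] at h3
    rw [Complex.norm_conj] at h4
    linarith
  refine ⟨_, _, pos_int pr_meas (i1.indicator hS) p1 I, (h1 _ i1).restrict,
    pos_int pr_meas (i2.indicator hS) p2 I, (h1 _ i2).restrict, fun a ha => ?_, ?_⟩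
  · rw [hf2 a ha, ← integral_sub (int_w pr_meas (i1.indicator hS) a) (int_w pr_meas (i2.indicator hS) a)]
    congr 1; ext y; simp only [w]; ring
  · simp only [chars.zero, mul_one]
    rw [← integral_add (i1.indicator hS) (i2.indicator hS)]
    simp only [← hn]
    rw [integral_complex_ofReal]
    congr 1
    apply le_antisymm
    · exact nrm_le (integral_nonneg fun _ => norm_nonneg _)
        (bdd_congr (bdd_int pr_meas iw) (subset_univ _) fun x hx => (hf2 x hx).symm)
    · refine le_trans ?_ hMC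
      simpa using integral_mono iw.norm (integrable_const (1:ℝ)) hle

lemma pos' {I : Set ℝ} {g : ℝ → ℂ} (hg : Pos I g) {c : ℝ →₀ ℂ} (hc : c ∈ Finsupp.supported ℂ ℂ I)
    (h : ∀ t, 0 ≤ Finsupp.linearCombination ℂ (ch t) c) : 0 ≤ Finsupp.linearCombination ℂ g c :=
  hg.2 c.support hc c h

lemma ch_zero (t : ℝ) : ch t 0 = 1 := by simp [ch]

lemma ch_neg (t a : ℝ) : ch t (-a) = starRingEnd ℂ (ch t a) :=
  chars.neg a ⟨ch t, subset_closure ⟨t, rfl⟩⟩

lemma nonneg_of {M : ℝ} {u : ℂ} (h : ‖u‖ ≤ M) : 0 ≤ 2 * (M : ℂ) - u - starRingEnd ℂ u := by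
  have : 2 * (M : ℂ) - u - starRingEnd ℂ u = ((2 * (M - u.re) : ℝ) : ℂ) := by
    have := Complex.add_conj u
    push_cast at this ⊢
    linear_combination -this
  rw [this, Complex.zero_le_real]
  linarith [Complex.re_le_norm u]

lemma pos_bdd {I : Set ℝ} (hsym : ∀ x ∈ I, -x ∈ I) (h0 : (0:ℝ) ∈ I) {g : ℝ → ℂ} (hg : Pos I g) :
    0 ≤ g 0 ∧ Bdd I g (g 0).re := by
  have a0 : 0 ≤ g 0 := by
    simpa using pos' hg (Finsupp.single_mem_supported ℂ 1 h0) (fun t => by simp [ch_zero])
  have key : ∀ (s : Finset ℝ), (∀ x ∈ s, x ∈ I) → ∀ (c : ℝ → ℂ) (M : ℝ),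
      (∀ t, ‖∑ x ∈ s, c x * ch t x‖ ≤ M) →
      0 ≤ 2 * (M:ℂ) * g 0 - ∑ x ∈ s, c x * g x - ∑ x ∈ s, starRingEnd ℂ (c x) * g (-x) := by
    intro s hs c M hM
    have := pos' hg (c := Finsupp.single (0:ℝ) (2 * (M:ℂ)) - ∑ x ∈ s, Finsupp.single x (c x) -
      ∑ x ∈ s, Finsupp.single (-x) (starRingEnd ℂ (c x)))
      (Submodule.sub_mem _ (Submodule.sub_mem _ (Finsupp.single_mem_supported ℂ _ h0)
        (Submodule.sum_mem _ fun x hx => Finsupp.single_mem_supported ℂ _ (hs x hx)))
        (Submodule.sum_mem _ fun x hx => Finsupp.single_mem_supported ℂ _ (hsym x (hs x hx))))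
      (fun t => by
        have := nonneg_of (hM t)
        simpa only [ch_zero, ch_neg, map_sum, map_sub, Finsupp.linearCombination_single, smul_eq_mul,
          mul_one, map_mul] using this)
    simpa only [map_sum, map_sub, Finsupp.linearCombination_single, smul_eq_mul] using this
  have herm : ∀ a ∈ I, g (-a) = starRingEnd ℂ (g a) := by
    intro a ha
    have b1 := key {a} (by simpa using ha) (fun _ => 1) 1 (fun t => by simp [ch_norm])
    have b2 := key {a} (by simpa using ha) (fun _ => Complex.I) 1 (fun t => by simp [ch_norm])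
    have c0 := (Complex.le_def.mp a0).2
    have c1 := (Complex.le_def.mp b1).2
    have c2 := (Complex.le_def.mp b2).2
    simp at c0 c1 c2
    apply Complex.ext
    · simp; linarith
    · simp; linarith
  refine ⟨a0, fun s hs c M hM => ?_⟩
  obtain ⟨θ, hθ, he⟩ := Complex.exists_norm_eq_mul_self (∑ x ∈ s, c x * g x)
  have b := key s hs (fun x => θ * c x) M (fun t => by
    simp only [mul_assoc, ← Finset.mul_sum, norm_mul, hθ, one_mul]; exact hM t)
  have e1 : ∑ x ∈ s, θ * c x * g x = ((‖∑ x ∈ s, c x * g x‖ : ℝ) : ℂ) := by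
    rw [he, Finset.mul_sum]; simp only [mul_assoc]
  have e2 : ∑ x ∈ s, starRingEnd ℂ (θ * c x) * g (-x) = ((‖∑ x ∈ s, c x * g x‖ : ℝ) : ℂ) := by
    rw [← Complex.conj_ofReal, ← e1, map_sum]
    exact Finset.sum_congr rfl fun x hx => by rw [herm x (hs x hx), ← map_mul]
  rw [e1, e2] at b
  have c0 := (Complex.le_def.mp a0).2
  have c1 := (Complex.le_def.mp b).1
  simp only [Complex.zero_re, Complex.sub_re, Complex.mul_re, Complex.re_ofNat, Complex.ofReal_re,
    Complex.im_ofNat, Complex.ofReal_im, mul_zero, sub_zero, Complex.mul_im, zero_mul, add_zero] at c1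
  linarith

theorem minimal {I : Set ℝ} (hI : IsOpen I) (hsym : ∀ x ∈ I, -x ∈ I) (h0 : (0:ℝ) ∈ I)
    {f g h : ℝ → ℂ} (hm : Meas I f) (hg : Pos I g) (hh : Pos I h) (he : ∀ x ∈ I, f x = g x - h x)
    (hn : (nrm I f : ℂ) = g 0 + h 0) : Meas I g ∧ Meas I h := by
  obtain ⟨g0, hgb⟩ := pos_bdd hsym h0 hg
  obtain ⟨h0', hhb⟩ := pos_bdd hsym h0 hh
  obtain ⟨M1, hM1, hC1, he1⟩ := rep I g (Complex.le_def.mp g0).1 hgb
  obtain ⟨M2, hM2, hC2, he2⟩ := rep I h (Complex.le_def.mp h0').1 hhb
  let M : Measure (Bool × Y) := M1.map (Prod.mk true) + M2.map (Prod.mk false)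
  let p : Bool × Y → K := fun q => pr q.2
  have hp : Measurable p := pr_meas.comp measurable_snd
  have hint : ∀ F : Bool × Y → ℂ, Measurable F → (∀ q, ‖F q‖ ≤ 1) → Integrable F M ∧
      ∫ q, F q ∂M = ∫ y, F (true, y) ∂M1 + ∫ y, F (false, y) ∂M2 := by
    intro F hF hb
    have hi : ∀ (ν : Measure (Bool × Y)) [IsFiniteMeasure ν], Integrable F ν := fun ν _ =>
      (integrable_const (1:ℝ)).mono' hF.aestronglyMeasurable (.of_forall hb)
    refine ⟨hi M, ?_⟩
    rw [integral_add_measure (hi _) (hi _),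
      integral_map measurable_prodMk_left.aemeasurable hF.aestronglyMeasurable,
      integral_map measurable_prodMk_left.aemeasurable hF.aestronglyMeasurable]
  have wm : ∀ u : Bool → ℂ, Measurable fun q : Bool × Y => u q.1 * zz q.2 := fun u =>
    ((measurable_of_countable u).comp measurable_fst).mul (zz_cont.measurable.comp measurable_snd)
  have hw : ∀ u : Bool → ℂ, (∀ b, ‖u b‖ ≤ 1) → Integrable (fun q : Bool × Y => u q.1 * zz q.2) M ∧
      ∀ a ∈ I, u true * g a + u false * h a = ∫ q, u q.1 * zz q.2 * χ a (p q) ∂M := by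
    intro u hu
    refine ⟨(hint _ (wm u) fun q => by simp [zz_norm, hu]).1, fun a ha => ?_⟩
    rw [(hint (fun q => u q.1 * zz q.2 * χ a (p q)) ((wm u).mul ((chars.meas a).comp hp))
      fun q => by simp [zz_norm, hu, chars.norm]).2, he1 a ha, he2 a ha, ← integral_const_mul,
      ← integral_const_mul]
    simp only [mul_assoc, p]
  obtain ⟨iz, hz⟩ := hw (fun b => if b then 1 else -1) (by intro b; cases b <;> simp)
  obtain ⟨S, hS, h1, h2⟩ := core' M hp iz hI hm (fun a ha => by
    rw [he a ha, ← hz a ha]; simp [sub_eq_add_neg])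
  have hMS : M Sᶜ = 0 := by
    have a1 := nrm_le (integral_nonneg fun _ => norm_nonneg _)
      (bdd_congr (bdd_int hp (iz.indicator hS)) (subset_univ _) fun x hx => (h2 x hx).symm)
    have a2 : ∫ q, ‖S.indicator (fun q : Bool × Y => (if q.1 then 1 else -1) * zz q.2) q‖ ∂M ≤
        M.real S := by
      rw [← integral_indicator_one hS]
      refine integral_mono (iz.indicator hS).norm ((integrable_const (1:ℝ)).indicator hS) fun q => ?_
      by_cases hq : q ∈ S
      · simp only [indicator_of_mem hq, norm_mul, zz_norm]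
        cases q.1 <;> simp
      · simp [hq]
    have a3 : M.real univ = M1.real univ + M2.real univ := by
      simp only [M]
      rw [measureReal_add_apply, map_measureReal_apply measurable_prodMk_left .univ,
        map_measureReal_apply measurable_prodMk_left .univ]
      simp
    have a4 := measureReal_add_measureReal_compl (μ := M) hS
    have a5 : nrm I f = (g 0).re + (h 0).re := by simpa using congrArg Complex.re hn
    have a6 : M.real Sᶜ = 0 := le_antisymm (by linarith) measureReal_nonneg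
    exact (measureReal_eq_zero_iff (measure_ne_top _ _)).mp a6
  have fin : ∀ u : Bool → ℂ, (∀ b, ‖u b‖ ≤ 1) → Meas I (fun a => u true * g a + u false * h a) := by
    intro u hu
    obtain ⟨iw, hw'⟩ := hw u hu
    refine (h1 _ iw).restrict.congr (ae_restrict_of_forall_mem hI.measurableSet fun a ha => ?_)
    simp only []
    rw [hw' a ha]
    refine integral_congr_ae ?_
    filter_upwards [measure_eq_zero_iff_ae_notMem.mp hMS] with q hq
    rw [indicator_of_mem (not_not.mp hq)]
  constructor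
  · simpa using fin (fun b => if b then 1 else 0) (by intro b; cases b <;> simp)
  · simpa using fin (fun b => if b then 0 else 1) (by intro b; cases b <;> simp)

end Pool.Agent.H92.Krein4
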