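import Pool.Agent.H92.HardyDense
import Pool.Agent.H92.Sidon

set_option autoImplicit false
set_option linter.unusedSectionVars false
open MeasureTheory AddCircle Filter Topology Finset
open scoped ENNReal

namespace Pool.Agent.H92.Lambda2
open Pool.Agent.H92.HardyDense

variable {T : ℝ} [hT : Fact (0 < T)]

noncomputable abbrev L1 (T : ℝ) [hT : Fact (0 < T)] := Lp ℂ 1 (@haarAddCircle T hT)

theorem mem_closure (Q : Set ℤ) (f : L1 T) (hf : ∀ n ∉ Q, fourierCoeff f n = 0) :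
    f ∈ (Submodule.span ℂ (@fourierLp T hT 1 _ '' Q)).topologicalClosure := by
  set V := (Submodule.span ℂ (@fourierLp T hT 1 _ '' Q)).topologicalClosure
  have hV : IsClosed (V : Set (L1 T)) := Submodule.isClosed_topologicalClosure _
  rw [← Submodule.Quotient.mk_eq_zero]
  refine SeparatingDual.eq_zero_of_forall_dual_eq_zero (R := ℂ) fun ℓ' => ?_
  let ℓ := ℓ'.comp V.mkQL
  have hp : (1 : ℝ≥0∞) ≠ ∞ := by simp
  have h0 : fourierCoeff (ψ hp ℓ f) = 0 := by
    ext k
    rw [coef_ψ]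
    by_cases hk : k ∈ Q
    · have : fourierLp 1 k ∈ V := Submodule.le_topologicalClosure _ (Submodule.subset_span ⟨k, hk, rfl⟩)
      have h2 : V.mkQ (fourierLp 1 k) = 0 := (Submodule.Quotient.mk_eq_zero V).mpr this
      simp [ℓ, h2]
    · simp [hf k hk]
  have h1 := has_pointwise_sum_fourier_series_of_summable (f := ψ hp ℓ f)
    (by rw [h0]; exact summable_zero) 0
  rw [h0] at h1
  simp only [Pi.zero_apply, zero_smul] at h1
  have h2 := h1.unique hasSum_zero
  simpa [ψ, τ_zero, ℓ] using h2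

lemma uniq {f g : L1 T} (h : ∀ n, fourierCoeff f n = fourierCoeff g n) : f = g := by
  have := mem_closure ∅ (f - g) fun n _ => by
    rw [← coefL_apply, map_sub, coefL_apply, coefL_apply, h, sub_self]
  rw [Set.image_empty, Submodule.span_empty,
    IsClosed.submodule_topologicalClosure_eq (by simpa using isClosed_singleton)] at this
  exact sub_eq_zero.mp this

lemma norm_sq_le (f : L1 T) (hs : Summable fun n => ‖fourierCoeff f n‖ ^ 2) :
    ‖f‖ ^ 2 ≤ ∑' n, ‖fourierCoeff f n‖ ^ 2 := by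
  have hm : Memℓp (fourierCoeff f) 2 := by
    rw [memℓp_gen_iff (by simp)]; simpa using hs
  let g : Lp ℂ 2 (@haarAddCircle T hT) := fourierBasis.repr.symm ⟨_, hm⟩
  have hg : ∀ n, fourierCoeff g n = fourierCoeff f n := fun n => by
    rw [← fourierBasis_repr]; simp [g]
  have hi := memLp_one_iff_integrable.mpr (integrable_Lp g)
  have e : f = hi.toLp := uniq fun n => by rw [fourierCoeff_congr_ae hi.coeFn_toLp, hg]
  have h1 : ‖f‖ ≤ ‖g‖ := by
    rw [L1.norm_eq_integral_norm, e]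
    refine le_trans (le_of_eq (integral_congr_ae ?_)) (int_norm_le g)
    filter_upwards [hi.coeFn_toLp] with x hx
    rw [hx]
  refine (pow_le_pow_left₀ (norm_nonneg _) h1 2).trans (le_of_eq ?_)
  rw [LinearIsometryEquiv.norm_map]
  simpa using lp.norm_rpow_eq_tsum (p := 2) (by simp) (⟨_, hm⟩ : lp (fun _ : ℤ => ℂ) 2)

lemma cont_int {E : Type} [NormedAddCommGroup E] {u : AddCircle T → E} (hu : Continuous u) :
    Integrable u (@haarAddCircle T hT) :=
  hu.integrable_of_hasCompactSupport (HasCompactSupport.of_compactSpace _)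

lemma int_sq {ι : Type} (I : Finset ι) (φ : ι → ℤ) (d : ι → ℂ) :
    ∫ x, ‖∑ t ∈ I, d t * fourier (φ t) x‖ ^ 2 ∂(@haarAddCircle T hT) =
      ∑ t ∈ I, ∑ s ∈ I, if φ t = φ s then (d t * starRingEnd ℂ (d s)).re else 0 := by
  have e : ∀ x : AddCircle T, (((‖∑ t ∈ I, d t * fourier (φ t) x‖ ^ 2 : ℝ)) : ℂ) =
      ∑ t ∈ I, ∑ s ∈ I, d t * starRingEnd ℂ (d s) * (fourier (-φ s) x • fourier (φ t) x) := by
    intro x
    rw [← Complex.normSq_eq_norm_sq, ← Complex.mul_conj, map_sum, sum_mul_sum]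
    refine sum_congr rfl fun t _ => sum_congr rfl fun s _ => ?_
    rw [map_mul, fourier_neg, smul_eq_mul]; ring
  rw [← Complex.ofReal_re (∫ x, _ ∂_), ← integral_complex_ofReal]
  simp only [e]
  rw [integral_finsetSum _ fun t _ => cont_int (by fun_prop), Complex.re_sum]
  refine sum_congr rfl fun t _ => ?_
  rw [integral_finsetSum _ fun t _ => cont_int (by fun_prop), Complex.re_sum]
  refine sum_congr rfl fun s _ => ?_
  rw [integral_const_mul]
  have := congrFun (fourierCoeff_fourier (T := T) (φ t)) (φ s)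
  unfold fourierCoeff at this
  rw [this]
  by_cases h : φ t = φ s
  · simp [h]
  · simp [h, Ne.symm h]

lemma int_sq_le {ι : Type} (I : Finset ι) (φ : ι → ℤ) (d : ι → ℂ) (R : ℕ)
    (hR : ∀ t ∈ I, (I.filter fun s => φ t = φ s).card ≤ R) :
    ∫ x, ‖∑ t ∈ I, d t * fourier (φ t) x‖ ^ 2 ∂(@haarAddCircle T hT) ≤ R * ∑ t ∈ I, ‖d t‖ ^ 2 := by
  rw [int_sq]
  have h1 : ∑ t ∈ I, ∑ s ∈ I, (if φ t = φ s then ‖d t‖ ^ 2 else 0) ≤ R * ∑ t ∈ I, ‖d t‖ ^ 2 := by
    rw [mul_sum]
    refine sum_le_sum fun t ht => ?_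
    rw [← sum_filter, sum_const, nsmul_eq_mul]
    exact mul_le_mul_of_nonneg_right (by exact_mod_cast hR t ht) (sq_nonneg _)
  have h2 : ∑ t ∈ I, ∑ s ∈ I, (if φ t = φ s then ‖d s‖ ^ 2 else 0) ≤ R * ∑ t ∈ I, ‖d t‖ ^ 2 := by
    rw [sum_comm]; simpa only [eq_comm] using h1
  have h3 : 2 * ∑ t ∈ I, ∑ s ∈ I, (if φ t = φ s then (d t * starRingEnd ℂ (d s)).re else 0) ≤
      ∑ t ∈ I, ∑ s ∈ I, (if φ t = φ s then ‖d t‖ ^ 2 else 0) +
      ∑ t ∈ I, ∑ s ∈ I, (if φ t = φ s then ‖d s‖ ^ 2 else 0) := by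
    simp only [mul_sum, ← sum_add_distrib]
    refine sum_le_sum fun t _ => sum_le_sum fun s _ => ?_
    split_ifs
    · have := Complex.re_le_norm (d t * starRingEnd ℂ (d s))
      rw [norm_mul, Complex.norm_conj] at this
      nlinarith [sq_nonneg (‖d t‖ - ‖d s‖)]
    · simp
  linarith

/-- the set `{5^(2i) + 5^(2j+1)}` -/
def Q5 : Set ℤ := {n | ∃ i j : ℕ, n = 5 ^ (2 * i) + 5 ^ (2 * j + 1)}

lemma ms_inj : ∀ (n : ℕ) (s t : Multiset ℕ), s.card = n → t.card = n → n ≤ 4 →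
    (s.map fun a => (5:ℤ) ^ a).sum = (t.map fun a => (5:ℤ) ^ a).sum → s = t := by
  intro n
  induction n with
  | zero => intro s t hs ht _ _; rw [Multiset.card_eq_zero.mp hs, Multiset.card_eq_zero.mp ht]
  | succ n ih =>
    intro s t hs ht hn h
    have key : ∀ (s t : Multiset ℕ) (a b : ℕ), t.card ≤ 4 → a ∈ s → (∀ z ∈ t, z ≤ b) →
        (s.map fun a => (5:ℤ) ^ a).sum = (t.map fun a => (5:ℤ) ^ a).sum → a ≤ b := by
      intro s t a b ht ha hb h
      have h1 : (5:ℤ) ^ a ≤ (s.map fun a => (5:ℤ) ^ a).sum :=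
        Multiset.single_le_sum (fun x hx => by
          obtain ⟨y, -, rfl⟩ := Multiset.mem_map.mp hx; positivity) _ (Multiset.mem_map_of_mem _ ha)
      have h2 := Multiset.sum_le_card_nsmul (t.map fun a => (5:ℤ) ^ a) (5 ^ b) (fun x hx => by
        obtain ⟨y, hy, rfl⟩ := Multiset.mem_map.mp hx
        exact pow_le_pow_right₀ (by norm_num) (hb y hy))
      rw [Multiset.card_map, nsmul_eq_mul] at h2
      have h3 : (t.card : ℤ) ≤ 4 := by exact_mod_cast ht
      have h4 : (0:ℤ) < 5 ^ b := by positivity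
      have : (5:ℤ) ^ a < 5 ^ (b + 1) := by rw [pow_succ]; nlinarith
      have := (pow_lt_pow_iff_right₀ (by norm_num : (1:ℤ) < 5)).mp this
      omega
    obtain ⟨a, ha, ha'⟩ := Multiset.exists_max_image (s := s) id (by rintro rfl; simp at hs)
    obtain ⟨b, hb, hb'⟩ := Multiset.exists_max_image (s := t) id (by rintro rfl; simp at ht)
    obtain rfl : a = b := le_antisymm (key s t a b (by omega) ha hb' h) (key t s b a (by omega) hb ha' h.symm)
    obtain ⟨s', rfl⟩ := Multiset.exists_cons_of_mem ha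
    obtain ⟨t', rfl⟩ := Multiset.exists_cons_of_mem hb
    simp only [Multiset.card_cons, Multiset.map_cons, Multiset.sum_cons, add_right_inj,
      add_left_inj] at hs ht h
    rw [ih s' t' hs ht (by omega) h]

lemma four {i j k l i' j' k' l' : ℕ}
    (h : (5:ℤ) ^ (2 * i) + 5 ^ (2 * j + 1) + (5 ^ (2 * k) + 5 ^ (2 * l + 1)) =
      5 ^ (2 * i') + 5 ^ (2 * j' + 1) + (5 ^ (2 * k') + 5 ^ (2 * l' + 1))) :
    (i' = i ∨ i' = k) ∧ (j' = j ∨ j' = l) := by
  have := ms_inj 4 {2 * i, 2 * j + 1, 2 * k, 2 * l + 1} {2 * i', 2 * j' + 1, 2 * k', 2 * l' + 1}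
    rfl rfl le_rfl (by simpa [add_assoc] using h)
  have h1 : 2 * i' ∈ ({2 * i, 2 * j + 1, 2 * k, 2 * l + 1} : Multiset ℕ) := by rw [this]; simp
  have h2 : 2 * j' + 1 ∈ ({2 * i, 2 * j + 1, 2 * k, 2 * l + 1} : Multiset ℕ) := by rw [this]; simp
  simp only [Multiset.insert_eq_cons, Multiset.mem_cons, Multiset.mem_singleton] at h1 h2
  omega

lemma fiber (s : Finset ℤ) (hs : ↑s ⊆ Q5) (t : ℤ × ℤ) (ht : t ∈ s ×ˢ s) :
    ((s ×ˢ s).filter fun r => t.1 + t.2 = r.1 + r.2).card ≤ 4 := by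
  obtain ⟨i, j, h1⟩ := hs (mem_product.mp ht).1
  obtain ⟨k, l, h2⟩ := hs (mem_product.mp ht).2
  refine le_trans (card_le_card_of_injOn (t := (({i, k} : Finset ℕ) ×ˢ ({j, l} : Finset ℕ)).image
    fun q => (5:ℤ) ^ (2 * q.1) + 5 ^ (2 * q.2 + 1)) Prod.fst ?_ ?_) ?_
  · intro r hr
    obtain ⟨hr, e⟩ := mem_filter.mp hr
    obtain ⟨i', j', h3⟩ := hs (mem_product.mp hr).1
    obtain ⟨k', l', h4⟩ := hs (mem_product.mp hr).2
    rw [h1, h2, h3, h4] at e
    exact mem_coe.mpr (mem_image.mpr ⟨(i', j'), by simpa using four e, h3.symm⟩)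
  · intro r hr r' hr' e
    have e1 := (mem_filter.mp hr).2
    have e2 := (mem_filter.mp hr').2
    exact Prod.ext e (by omega)
  · refine card_image_le.trans ?_
    rw [card_product]
    exact Nat.mul_le_mul card_le_two card_le_two

lemma lambda_poly (s : Finset ℤ) (hs : ↑s ⊆ Q5) (c : ℤ → ℂ) :
    ∑ n ∈ s, ‖c n‖ ^ 2 ≤ 32 * (∫ x, ‖∑ n ∈ s, c n * fourier n x‖ ∂(@haarAddCircle T hT)) ^ 2 := by
  set E := ∑ n ∈ s, ‖c n‖ ^ 2 with hE
  set P : AddCircle T → ℂ := fun x => ∑ n ∈ s, c n * fourier n x with hP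
  have hc : Continuous P := by fun_prop
  have h2 : ∫ x, ‖P x‖ ^ 2 ∂haarAddCircle = E := by
    refine (int_sq s id c).trans (sum_congr rfl fun t ht => ?_)
    simp [ht, ← Complex.normSq_eq_norm_sq, Complex.normSq_apply]
  have h4 : ∫ x, ‖P x‖ ^ 4 ∂haarAddCircle ≤ 4 * E ^ 2 := by
    have := int_sq_le (T := T) (s ×ˢ s) (fun t => t.1 + t.2) (fun t => c t.1 * c t.2) 4 (fiber s hs)
    convert this using 1
    · congr 1; ext x
      rw [show ‖P x‖ ^ 4 = ‖P x * P x‖ ^ 2 by rw [norm_mul]; ring, sum_mul_sum, sum_product]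
      congr 2
      refine sum_congr rfl fun t _ => sum_congr rfl fun r _ => ?_
      rw [fourier_add]; ring
    · rw [sq, sum_mul_sum, sum_product]; simp [mul_pow]
  have E0 : 0 ≤ E := sum_nonneg fun _ _ => sq_nonneg _
  rcases E0.eq_or_lt with h | h
  · rw [← h]; positivity
  set lam := √(8 * E)
  have hl : lam ^ 2 = 8 * E := Real.sq_sqrt (by positivity)
  have l0 : 0 < lam := Real.sqrt_pos.mpr (by positivity)
  have h5 : ∫ x, lam ^ 2 * ‖P x‖ ^ 2 ∂haarAddCircle ≤
      ∫ x, (lam ^ 3 * ‖P x‖ + ‖P x‖ ^ 4) ∂haarAddCircle := by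
    refine integral_mono (cont_int (by fun_prop)) (cont_int (by fun_prop)) fun x => ?_
    have := norm_nonneg (P x)
    simp only
    rcases le_total ‖P x‖ lam with h | h
    · have : lam ^ 2 * ‖P x‖ * ‖P x‖ ≤ lam ^ 2 * ‖P x‖ * lam := by gcongr
      nlinarith [pow_nonneg (norm_nonneg (P x)) 4]
    · have : lam ^ 2 * ‖P x‖ ^ 2 ≤ ‖P x‖ ^ 2 * ‖P x‖ ^ 2 := by gcongr
      nlinarith [mul_nonneg (pow_nonneg l0.le 3) (norm_nonneg (P x))]
  rw [integral_add (cont_int (by fun_prop)) (cont_int (by fun_prop)), integral_const_mul,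
    integral_const_mul, h2] at h5
  set N := ∫ x, ‖P x‖ ∂haarAddCircle
  have h6 : E ≤ 2 * lam * N := by
    have : lam ^ 3 * N = 8 * E * (lam * N) := by rw [← hl]; ring
    rw [hl, this] at h5
    nlinarith
  have h7 : E * E ≤ (2 * lam * N) * (2 * lam * N) := mul_self_le_mul_self E0 h6
  have h8 : (2 * lam * N) * (2 * lam * N) = E * (32 * N ^ 2) := by
    rw [show (2 * lam * N) * (2 * lam * N) = 4 * lam ^ 2 * N ^ 2 by ring, hl]; ring
  exact le_of_mul_le_mul_left (h8 ▸ h7) h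

lemma coef_poly (s : Finset ℤ) (c : ℤ → ℂ) (k : ℤ) :
    fourierCoeff (∑ n ∈ s, c n • @fourierLp T hT 1 _ n : L1 T) k = if k ∈ s then c k else 0 := by
  rw [← coefL_apply, map_sum]
  simp only [map_smul, coefL_apply, fourierCoeff_congr_ae (coeFn_fourierLp 1 _), fourierCoeff_fourier]
  simp [Pi.single_apply]

theorem summable_Q5 (f : L1 T) (hf : ∀ n ∉ Q5, fourierCoeff f n = 0) :
    Summable fun n => ‖fourierCoeff f n‖ ^ 2 := by
  refine summable_of_sum_le (c := 32 * ‖f‖ ^ 2) (fun _ => sq_nonneg _) fun F => ?_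
  have hcl : IsClosed {g : L1 T | ∑ n ∈ F, ‖coefL n g‖ ^ 2 ≤ 32 * ‖g‖ ^ 2} :=
    isClosed_le (by fun_prop) (by fun_prop)
  refine closure_minimal (fun g hg => ?_) hcl (mem_closure Q5 f hf)
  obtain ⟨l, hl, rfl⟩ := (Finsupp.mem_span_image_iff_linearCombination ℂ).mp hg
  rw [Finsupp.linearCombination_apply, Finsupp.sum]
  simp only [Set.mem_ofPred_eq, coefL_apply, coef_poly]
  have h1 : ‖(∑ n ∈ l.support, l n • @fourierLp T hT 1 _ n : L1 T)‖ =
      ∫ x, ‖∑ n ∈ l.support, l n * fourier n x‖ ∂(@haarAddCircle T hT) := by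
    rw [L1.norm_eq_integral_norm]
    refine integral_congr_ae ?_
    have : (∑ n ∈ l.support, l n • @fourierLp T hT 1 _ n : L1 T) =
        ContinuousMap.toLp 1 haarAddCircle ℂ (∑ n ∈ l.support, l n • fourier n) := by
      rw [map_sum]; simp only [map_smul]
    rw [this]
    filter_upwards [ContinuousMap.coeFn_toLp (p := 1) (𝕜 := ℂ) haarAddCircle
      (∑ n ∈ l.support, l n • (fourier n : C(AddCircle T, ℂ)))] with x hx
    rw [hx]; simp
  rw [h1]
  refine le_trans ?_ (lambda_poly l.support hl l)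
  have : ∀ n, ‖if n ∈ l.support then l n else 0‖ ^ 2 = if n ∈ l.support then ‖l n‖ ^ 2 else 0 := by
    intro n; split_ifs <;> simp
  simp only [this, ← sum_filter]
  exact sum_le_sum_of_subset_of_nonneg (fun n hn => (mem_filter.mp hn).2) fun _ _ _ => sq_nonneg _

theorem Q5_not_sidon (C : ℝ) : ∃ (s : Finset ℤ) (c : ℤ → ℂ) (M : ℝ), ↑s ⊆ Q5 ∧
      (∀ x : AddCircle T, ‖∑ n ∈ s, c n * fourier n x‖ ≤ M) ∧ C * M < ∑ n ∈ s, ‖c n‖ :=
  Pool.Agent.H92.Sidon.not_sidon Q5 (fun _ => ⟨fun i => 5 ^ (2 * i), fun j => 5 ^ (2 * j + 1),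
    fun i _ j _ => ⟨i, j, rfl⟩, fun i _ j _ k _ l _ h => by
      have := four (i := i) (j := j) (k := i) (l := j) (i' := k) (j' := l) (k' := k) (l' := l) (by rw [h])
      omega⟩) C

lemma coef_conv {f g h : L1 T} (hh : h =ᵐ[haarAddCircle] fun x => ∫ y, f y * g (x - y) ∂haarAddCircle)
    (n : ℤ) : fourierCoeff h n = fourierCoeff f n * fourierCoeff g n := by
  rw [fourierCoeff_congr_ae hh]
  have hi : ∀ u : L1 T, Integrable (fun x => fourier (-n) x • u x) haarAddCircle := fun u =>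
    (integrable_Lp u).bdd_mul (c := 1) (by fun_prop) (.of_forall fun x => (fourier_norm' _ x).le)
  have := integral_convolution (ContinuousLinearMap.mul ℂ ℂ) (hi f) (hi g)
  refine Eq.trans ?_ this
  unfold fourierCoeff
  congr 1; ext x
  rw [convolution_def, smul_eq_mul, ← integral_const_mul]
  congr 1; ext y
  have : fourier (-n) x = fourier (-n) y * fourier (-n) (x - y) := by
    rw [fourier_apply, fourier_apply, fourier_apply, ← Circle.coe_mul, ← toCircle_add, ← smul_add]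
    simp
  simp only [ContinuousLinearMap.mul_apply', smul_eq_mul, this]
  ring

theorem idem (A : Submodule ℂ (L1 T)) (hA : IsClosed (A : Set (L1 T)))
    (hmul : ∀ f ∈ A, ∀ g ∈ A, ∃ h ∈ A, ∀ n, fourierCoeff h n = fourierCoeff f n * fourierCoeff g n)
    {f : L1 T} (hf : f ∈ A) (hs : Summable fun n => ‖fourierCoeff f n‖ ^ 2) {c : ℂ} (hc : c ≠ 0) :
    ∃ e ∈ A, ∀ n, fourierCoeff e n = if fourierCoeff f n = c then 1 else 0 := by
  set a := fourierCoeff f
  have c0 : 0 < ‖c‖ := norm_pos_iff.mpr hc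
  have hfin : {n | ‖c‖ / 2 < ‖a n‖}.Finite := by
    have := hs.tendsto_cofinite_zero.eventually (gt_mem_nhds (show (0:ℝ) < (‖c‖ / 2) ^ 2 by positivity))
    refine (eventually_cofinite.mp this).subset fun n hn h => ?_
    exact absurd (pow_le_pow_left₀ (by positivity) (le_of_lt hn) 2) (not_le.mpr h)
  have lin : ∀ g ∈ A, ∀ α β : ℂ, ∃ g' ∈ A, ∀ n, fourierCoeff g' n = fourierCoeff g n * (α * a n + β) := by
    intro g hg α β
    obtain ⟨h, hh, e⟩ := hmul g hg f hf
    refine ⟨α • h + β • g, A.add_mem (A.smul_mem _ hh) (A.smul_mem _ hg), fun n => ?_⟩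
    rw [← coefL_apply, map_add, map_smul, map_smul, coefL_apply, coefL_apply, e]
    simp only [smul_eq_mul]; ring
  have p1 : ∀ F : Finset ℂ, ∃ g ∈ A, ∀ n, fourierCoeff g n =
      a n / c * ∏ v ∈ F, (a n - v) / (c - v) := by
    intro F
    induction F using Finset.induction_on with
    | empty => exact ⟨c⁻¹ • f, A.smul_mem _ hf, fun n => by
        rw [← coefL_apply, map_smul, coefL_apply]; simp [div_eq_inv_mul, a]⟩
    | insert v F hv ih =>
      obtain ⟨g, hg, e⟩ := ih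
      obtain ⟨g', hg', e'⟩ := lin g hg (c - v)⁻¹ (-v / (c - v))
      exact ⟨g', hg', fun n => by rw [e', e, prod_insert hv]; ring⟩
  set F := (hfin.toFinset.image a).erase c
  obtain ⟨g, hg, eg⟩ := p1 F
  have p2 : ∀ k : ℕ, ∃ g' ∈ A, ∀ n, fourierCoeff g' n = fourierCoeff g n * (a n / c) ^ k := by
    intro k
    induction k with
    | zero => exact ⟨g, hg, by simp⟩
    | succ k ih =>
      obtain ⟨g1, hg1, e⟩ := ih
      obtain ⟨g', hg', e'⟩ := lin g1 hg1 c⁻¹ 0
      exact ⟨g', hg', fun n => by rw [e', e]; ring⟩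
  choose G hG eG using p2
  set S := hfin.toFinset.filter fun n => a n = c
  have hS : ∀ n, n ∈ S ↔ a n = c := fun n => by
    simp only [S, mem_filter, Set.Finite.mem_toFinset, Set.mem_ofPred_eq, and_iff_right_iff_imp]
    intro h; rw [h]; linarith
  let e : L1 T := ∑ n ∈ S, (1:ℂ) • fourierLp 1 n
  have he : ∀ n, fourierCoeff e n = if a n = c then 1 else 0 := fun n => by
    simp only [e, coef_poly, hS]
  refine ⟨e, hA.mem_of_tendsto (f := G) (b := atTop) ?_ (.of_forall hG), he⟩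
  set K := ∏ v ∈ F, (‖c‖ / 2 + ‖v‖) / ‖c - v‖
  have bd : ∀ k n, ‖fourierCoeff (G k - e) n‖ ^ 2 ≤ ((K / ‖c‖) ^ 2 * (1 / 4) ^ k) * ‖a n‖ ^ 2 := by
    intro k n
    rw [← coefL_apply, map_sub, coefL_apply, coefL_apply, eG, eg, he]
    split_ifs with h
    · rw [h, div_self hc, prod_eq_one fun v hv => div_self (sub_ne_zero.mpr (ne_of_mem_erase hv).symm)]
      simp only [mul_one, one_pow, sub_self, norm_zero]
      rw [zero_pow two_ne_zero]; positivity
    by_cases h2 : ‖c‖ / 2 < ‖a n‖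
    · rw [prod_eq_zero (i := a n) (mem_erase.mpr ⟨h, mem_image_of_mem _ (by simpa using h2)⟩) (by simp)]
      simp only [mul_zero, zero_mul, sub_self, norm_zero]
      rw [zero_pow two_ne_zero]; positivity
    · push Not at h2
      have b1 : ‖∏ v ∈ F, (a n - v) / (c - v)‖ ≤ K := by
        rw [norm_prod]
        refine prod_le_prod (fun _ _ => norm_nonneg _) fun v _ => ?_
        rw [norm_div]
        gcongr
        exact (norm_sub_le _ _).trans (by linarith)
      have b2 : ‖a n / c‖ ≤ 1 / 2 := by rw [norm_div, div_le_iff₀ c0]; linarith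
      rw [sub_zero, norm_mul, norm_mul, norm_pow]
      calc _ ≤ (‖a n / c‖ * K * (1 / 2) ^ k) ^ 2 := by gcongr
        _ = _ := by
          rw [norm_div, show (1 / 4 : ℝ) = (1 / 2) ^ 2 by norm_num, ← pow_mul, mul_comm 2 k, pow_mul]
          ring
  rw [tendsto_iff_norm_sub_tendsto_zero]
  have t1 : Tendsto (fun k : ℕ => ((K / ‖c‖) ^ 2 * (1 / 4) ^ k) * ∑' n, ‖a n‖ ^ 2) atTop (𝓝 0) := by
    simpa using ((tendsto_pow_atTop_nhds_zero_of_lt_one (r := (1 / 4 : ℝ)) (by norm_num)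
      (by norm_num)).const_mul ((K / ‖c‖) ^ 2)).mul_const (∑' n, ‖a n‖ ^ 2)
  have t2 : Tendsto (fun k => ‖G k - e‖ ^ 2) atTop (𝓝 0) := by
    refine squeeze_zero (fun _ => sq_nonneg _) (fun k => ?_) t1
    have s1 := Summable.of_nonneg_of_le (fun _ => sq_nonneg _) (bd k) (hs.mul_left _)
    refine (norm_sq_le _ s1).trans ?_
    rw [← tsum_mul_left]
    exact s1.tsum_le_tsum (bd k) (hs.mul_left _)
  simpa using t2.sqrt

theorem main (A : Submodule ℂ (L1 T)) (hA : IsClosed (A : Set (L1 T)))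
    (hmul : ∀ f ∈ A, ∀ g ∈ A, ∃ h ∈ A, ∀ n, fourierCoeff h n = fourierCoeff f n * fourierCoeff g n)
    {f : L1 T} (hf : f ∈ A) (hs : Summable fun n => ‖fourierCoeff f n‖ ^ 2) :
    f ∈ closure (Submodule.span ℂ {e | e ∈ A ∧ ∀ n, fourierCoeff e n * fourierCoeff e n =
      fourierCoeff e n} : Set (L1 T)) := by
  set a := fourierCoeff f
  choose! e he1 he2 using fun c (hc : c ≠ 0) => idem A hA hmul hf hs hc
  refine mem_closure_of_tendsto (b := (atTop : Filter (Finset ℤ)))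
    (f := fun G => ∑ v ∈ (G.image a).erase 0, v • e v) ?_ (.of_forall fun G => ?_)
  · rw [tendsto_iff_norm_sub_tendsto_zero]
    have t2 : Tendsto (fun G : Finset ℤ => ‖∑ v ∈ (G.image a).erase 0, v • e v - f‖ ^ 2) atTop (𝓝 0) := by
      refine squeeze_zero (fun _ => sq_nonneg _) (fun G => ?_)
        (tendsto_tsum_compl_atTop_zero fun n => ‖a n‖ ^ 2)
      have bd : ∀ n, ‖fourierCoeff (∑ v ∈ (G.image a).erase 0, v • e v - f : L1 T) n‖ ^ 2 ≤
          {n | n ∉ G}.indicator (fun n => ‖a n‖ ^ 2) n := by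
        intro n
        rw [← coefL_apply, map_sub, map_sum, sum_congr rfl (g := fun v => if a n = v then v else 0)
          (fun v hv => by rw [map_smul, coefL_apply, he2 v (ne_of_mem_erase hv)]; simp [a]), sum_ite_eq,
          coefL_apply]
        split_ifs with h
        · simp only [a, sub_self, norm_zero]
          rw [zero_pow two_ne_zero]
          exact Set.indicator_nonneg (fun _ _ => sq_nonneg _) _
        · by_cases hn : n ∈ G
          · have : a n = 0 := by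
              by_contra h0
              exact h (mem_erase.mpr ⟨h0, mem_image_of_mem _ hn⟩)
            simp only [a] at this
            simp [this, hn]
          · simp [hn, a]
      have s0 := hs.indicator {n | n ∉ G}
      have s1 := Summable.of_nonneg_of_le (fun _ => sq_nonneg _) bd s0
      refine (norm_sq_le _ s1).trans ((s1.tsum_le_tsum bd s0).trans (le_of_eq ?_))
      exact (_root_.tsum_subtype {n | n ∉ G} fun n => ‖a n‖ ^ 2).symm
    simpa using t2.sqrt
  · refine Submodule.sum_mem _ fun v hv => Submodule.smul_mem _ _ (Submodule.subset_span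
      ⟨he1 v (ne_of_mem_erase hv), fun n => ?_⟩)
    rw [he2 v (ne_of_mem_erase hv)]
    split_ifs <;> simp

end Pool.Agent.H92.Lambda2
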