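import Mathlib

set_option autoImplicit false

/-! Sequential Bayesian agents on a deterministic network: the law of the actions. -/

namespace Pool.Agent.H92.Learn

open Finset Function
open scoped Classical

abbrev H := ℕ → Bool

/-- the law of the private signal in state `θ` -/
noncomputable def f (θ : Bool) (s : Fin 4) : ℝ :=
  if θ then ![1 / 10 ^ 7, 19 / 40 - 1 / 10 ^ 7, 21 / 40 - 2 / 10 ^ 7, 2 / 10 ^ 7] s
  else ![2 / 10 ^ 7, 21 / 40 - 2 / 10 ^ 7, 19 / 40 - 1 / 10 ^ 7, 1 / 10 ^ 7] s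

noncomputable def rule (v : Bool → ℝ) (s : Fin 4) : Bool :=
  decide (v false * f false s < v true * f true s ∨
    v false * f false s = v true * f true s ∧ 2 ≤ s)

noncomputable def pr (v : Bool → ℝ) (θ b : Bool) : ℝ := ∑ s, if rule v s = b then f θ s else 0

noncomputable def cfg (S : Finset ℕ) (x h : H) : ℝ := if ∀ i ∈ S, h i = x i then 1 else 0

noncomputable def stp (π : H → Bool → ℝ) (n : ℕ) : (H → ℝ) →ₗ[ℝ] (H → ℝ) where
  toFun F h := ∑ b, π h b * F (update h n b)
  map_add' F G := by ext; simp [mul_add]; ring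
  map_smul' c F := by ext; simp; ring

noncomputable def Ex (N : ℕ → Finset ℕ) (w : Bool → ℝ) : ℕ → Bool → (H → ℝ) →ₗ[ℝ] ℝ
  | 0, _ => LinearMap.proj fun _ => false
  | n + 1, θ => (Ex N w n θ).comp (stp (fun h => pr (fun t => w t * Ex N w n t (cfg (N n) h)) θ) n)

def Dep (n : ℕ) (F : H → ℝ) : Prop := ∀ h h', (∀ i < n, h i = h' i) → F h = F h'

def WF (N : ℕ → Finset ℕ) : Prop := ∀ i, N i ⊆ range i

lemma f_pos (θ : Bool) (s : Fin 4) : 0 < f θ s := by
  cases θ <;> fin_cases s <;> norm_num [f]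

lemma f_sum (θ : Bool) : ∑ s, f θ s = 1 := by
  cases θ <;> norm_num [f, Fin.sum_univ_succ]

lemma f_le (θ θ' : Bool) (s : Fin 4) : f θ s ≤ 2 * f θ' s := by
  cases θ <;> cases θ' <;> fin_cases s <;> norm_num [f]

lemma f_rev (θ : Bool) (s : Fin 4) : f (!θ) s.rev = f θ s := by
  cases θ <;> fin_cases s <;> rfl

lemma pr_nonneg (v : Bool → ℝ) (θ b : Bool) : 0 ≤ pr v θ b :=
  sum_nonneg fun s _ => by split_ifs; exacts [(f_pos _ _).le, le_rfl]

lemma pr_add (v : Bool → ℝ) (θ : Bool) : pr v θ true + pr v θ false = 1 := by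
  rw [pr, pr, ← sum_add_distrib, ← f_sum θ]
  exact sum_congr rfl fun s _ => by cases rule v s <;> simp

lemma pr_le (v : Bool → ℝ) (θ θ' b : Bool) : pr v θ b ≤ 2 * pr v θ' b := by
  rw [pr, pr, mul_sum]
  exact sum_le_sum fun s _ => by split_ifs; exacts [f_le _ _ _, by simp]

lemma pr_not (v : Bool → ℝ) (θ b : Bool) : pr (v ∘ not) (!θ) (!b) = pr v θ b := by
  rw [pr, ← Equiv.sum_comp Fin.revPerm]
  refine sum_congr rfl fun s _ => ?_
  have h : rule (v ∘ not) s.rev = !rule v s := by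
    have a := f_rev true s
    have b := f_rev false s
    have c : 2 ≤ s.rev ↔ ¬2 ≤ s := by fin_cases s <;> simp
    simp only [Bool.not_true, Bool.not_false] at a b
    simp only [rule, comp, Bool.not_true, Bool.not_false, a, b, c, ← decide_not]
    rcases lt_trichotomy (v false * f false s) (v true * f true s) with h | h | h
    · simp [h, h.le, h.ne']
    · simp [h]
    · simp [h, h.le, h.ne']
  simp [h, f_rev]

lemma pr_bayes (v : Bool → ℝ) (b : Bool) :
    v false * pr v false true + v true * pr v true false ≤ v b := by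
  rw [pr, pr, mul_sum, mul_sum, ← sum_add_distrib, ← mul_one (v b), ← f_sum b, mul_sum]
  refine sum_le_sum fun s _ => ?_
  by_cases h : rule v s = true
  · have := of_decide_eq_true h
    cases b
    · simp [h]
    · simpa [h] using this.elim le_of_lt fun k => k.1.le
  · have := of_decide_eq_false (Bool.eq_false_iff.2 h)
    cases b
    · simpa [h] using not_lt.1 fun k => this (Or.inl k)
    · simp [h]

lemma cfg_nonneg (S : Finset ℕ) (x h : H) : 0 ≤ cfg S x h := by
  unfold cfg; split_ifs <;> norm_num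

lemma cfg_le (S : Finset ℕ) (x h : H) : cfg S x h ≤ 1 := by
  unfold cfg; split_ifs <;> norm_num

lemma cfg_congr {S : Finset ℕ} {x y : H} (e : ∀ i ∈ S, x i = y i) : cfg S x = cfg S y :=
  funext fun _ => if_congr (forall₂_congr fun i hi => by rw [e i hi]) rfl rfl

lemma cfg_dep {S : Finset ℕ} {n : ℕ} (hS : S ⊆ range n) (x : H) : Dep n (cfg S x) :=
  fun _ _ e => if_congr (forall₂_congr fun i hi => by rw [e i (mem_range.1 (hS hi))]) rfl rfl

lemma cfg_anti {S T : Finset ℕ} (hS : S ⊆ T) (x h : H) : cfg T x h ≤ cfg S x h := by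
  unfold cfg
  split_ifs with a b
  · rfl
  · exact absurd (fun i hi => a i (hS hi)) b
  all_goals norm_num

lemma cfg_union (S T : Finset ℕ) (x h : H) : cfg (S ∪ T) x h = cfg S x h * cfg T x h := by
  simp only [cfg, forall_mem_union, ite_zero_mul_ite_zero, mul_one]

lemma cfg_ne {S : Finset ℕ} {x h : H} (e : cfg S x h ≠ 0) : ∀ i ∈ S, h i = x i := by
  by_contra c
  exact e (if_neg c)

@[simp] lemma cfg_empty (x : H) : cfg ∅ x = fun _ => 1 := by
  funext h
  simp [cfg]

lemma Dep.mono {n m : ℕ} {F : H → ℝ} (h : Dep n F) (e : n ≤ m) : Dep m F :=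
  fun _ _ k => h _ _ fun i hi => k i (hi.trans_le e)

lemma Dep.update {n m : ℕ} {F : H → ℝ} (d : Dep n F) (e : n ≤ m) (h : H) (b : Bool) :
    F (update h m b) = F h := d _ _ fun i hi => update_of_ne (by omega) _ _

variable {N : ℕ → Finset ℕ} {w : Bool → ℝ}

/-- weights of the two states given the actions `x` of the neighbours of agent `n` -/
noncomputable def vw (N : ℕ → Finset ℕ) (w : Bool → ℝ) (n : ℕ) (x : H) (t : Bool) : ℝ :=
  w t * Ex N w n t (cfg (N n) x)

lemma Ex_zero (θ : Bool) (F : H → ℝ) : Ex N w 0 θ F = F fun _ => false := rfl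

lemma Ex_succ (n : ℕ) (θ : Bool) (F : H → ℝ) : Ex N w (n + 1) θ F =
    Ex N w n θ fun h => ∑ b, pr (vw N w n h) θ b * F (update h n b) := rfl

lemma Ex_mono {n : ℕ} {θ : Bool} : ∀ {F G : H → ℝ},
    (∀ h, (∀ i, n ≤ i → h i = false) → F h ≤ G h) → Ex N w n θ F ≤ Ex N w n θ G := by
  induction n with
  | zero => exact fun e => e _ fun _ _ => rfl
  | succ n ih =>
    intro F G e
    rw [Ex_succ, Ex_succ]
    exact ih fun h k => sum_le_sum fun b _ => mul_le_mul_of_nonneg_left
      (e _ fun i hi => by rw [update_of_ne (by omega), k i (by omega)]) (pr_nonneg _ _ _)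

lemma Ex_congr {n : ℕ} {θ : Bool} {F G : H → ℝ}
    (e : ∀ h, (∀ i, n ≤ i → h i = false) → F h = G h) : Ex N w n θ F = Ex N w n θ G :=
  le_antisymm (Ex_mono fun h k => (e h k).le) (Ex_mono fun h k => (e h k).ge)

lemma Ex_mul (n : ℕ) (θ : Bool) (c : ℝ) (F : H → ℝ) :
    Ex N w n θ (fun h => c * F h) = c * Ex N w n θ F := map_smul (Ex N w n θ) c F

lemma Ex_add (n : ℕ) (θ : Bool) (F G : H → ℝ) :
    Ex N w n θ (fun h => F h + G h) = Ex N w n θ F + Ex N w n θ G := map_add _ F G

lemma Ex_sum {κ : Type} (n : ℕ) (θ : Bool) (A : Finset κ) (F : κ → H → ℝ) :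
    Ex N w n θ (fun h => ∑ k ∈ A, F k h) = ∑ k ∈ A, Ex N w n θ (F k) := by
  rw [← map_sum]
  congr 1
  ext
  simp

lemma Ex_ext {n m : ℕ} (θ : Bool) {F : H → ℝ} (d : Dep n F) (e : n ≤ m) :
    Ex N w m θ F = Ex N w n θ F := by
  induction m, e using Nat.le_induction with
  | base => rfl
  | succ m e ih =>
    rw [Ex_succ, ← ih]
    exact Ex_congr fun h _ => by simp [d.update e, ← add_mul, pr_add]

lemma Ex_const (n : ℕ) (θ : Bool) (c : ℝ) : Ex N w n θ (fun _ => c) = c :=
  Ex_ext θ (n := 0) (fun _ _ _ => rfl) (Nat.zero_le n)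

lemma Ex_nonneg {n : ℕ} {θ : Bool} {F : H → ℝ} (e : ∀ h, 0 ≤ F h) : 0 ≤ Ex N w n θ F :=
  (Ex_const n θ 0).ge.trans (Ex_mono fun h _ => e h)

lemma Ex_cfg_le (n : ℕ) (θ : Bool) (S : Finset ℕ) (x : H) : Ex N w n θ (cfg S x) ≤ 1 :=
  (Ex_mono fun h _ => cfg_le S x h).trans_eq (Ex_const n θ 1)

lemma Ex_net {N' : ℕ → Finset ℕ} {n : ℕ} (e : ∀ i < n, N i = N' i) : Ex N w n = Ex N' w n := by
  induction n with
  | zero => rfl
  | succ n ih =>
    funext θ
    simp only [Ex, ih fun i hi => e i (by omega), e n (by omega)]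

lemma Ex_cmp {n : ℕ} (θ θ' : Bool) : ∀ {F : H → ℝ}, (∀ h, 0 ≤ F h) →
    Ex N w n θ F ≤ 2 ^ n * Ex N w n θ' F := by
  induction n with
  | zero => simp [Ex_zero]
  | succ n ih =>
    intro F e
    rw [Ex_succ, Ex_succ, pow_succ, mul_assoc, ← Ex_mul _ _ 2]
    refine (ih fun h => sum_nonneg fun b _ => mul_nonneg (pr_nonneg _ _ _) (e _)).trans
      (mul_le_mul_of_nonneg_left (Ex_mono fun h _ => ?_) (by positivity))
    rw [mul_sum]
    exact sum_le_sum fun b _ => by
      rw [← mul_assoc]; exact mul_le_mul_of_nonneg_right (pr_le _ _ _ _) (e _)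

lemma Ex_pos {n : ℕ} {θ : Bool} (θ' : Bool) {S : Finset ℕ} {x : H}
    (h : 0 < Ex N w n θ (cfg S x)) : 0 < Ex N w n θ' (cfg S x) :=
  (mul_pos_iff_of_pos_left (by positivity)).1 (h.trans_le (Ex_cmp θ θ' (cfg_nonneg S x)))

lemma Ex_not (n : ℕ) : ∀ (θ : Bool) (F : H → ℝ), WF N → Dep n F →
    Ex N (w ∘ not) n (!θ) (fun h => F (not ∘ h)) = Ex N w n θ F := by
  induction n with
  | zero => exact fun _ F _ d => d _ _ (by simp)
  | succ n ih =>
    intro θ F wf d
    have e : ∀ h : H, vw N (w ∘ not) n h = vw N w n (not ∘ h) ∘ not := fun h => funext fun t => by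
      rw [comp, vw, vw, ← ih (!t) _ wf (cfg_dep (wf n) _), Bool.not_not]
      congr 2
      funext h'
      simp [cfg]
    rw [Ex_succ, Ex_succ, ← ih θ _ wf]
    · refine Ex_congr fun h _ => ?_
      rw [← Equiv.sum_comp Equiv.boolNot]
      simp [e, pr_not, comp_update]
    · intro h h' k
      have : vw N w n h = vw N w n h' := by
        unfold vw
        rw [cfg_congr fun i hi => k i (mem_range.1 (wf n hi))]
      simp only [this]
      refine sum_congr rfl fun b _ => congrArg _ (d _ _ fun i hi => ?_)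
      by_cases c : i = n
      · simp [c]
      · simp [c, k i (by omega)]

lemma Ex_agent {n : ℕ} (θ b : Bool) {F : H → ℝ} {x : H} (d : Dep n F)
    (e : ∀ h, F h ≠ 0 → ∀ i ∈ N n, h i = x i) :
    Ex N w (n + 1) θ (fun h => F h * if h n = b then 1 else 0) =
      pr (vw N w n x) θ b * Ex N w n θ F := by
  rw [Ex_succ, ← Ex_mul]
  refine Ex_congr fun h _ => ?_
  by_cases c : F h = 0
  · simp [d.update le_rfl, c]
  · have : vw N w n h = vw N w n x := by
      unfold vw
      rw [cfg_congr (e h c)]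
    cases b <;> simp [d.update le_rfl, this]

lemma Ex_insert {n : ℕ} (θ : Bool) {S : Finset ℕ} (x : H) (h1 : N n ⊆ S) (h2 : S ⊆ range n) :
    Ex N w (n + 1) θ (cfg (insert n S) x) = pr (vw N w n x) θ (x n) * Ex N w n θ (cfg S x) := by
  rw [← Ex_agent θ _ (cfg_dep h2 x) fun h e i hi => cfg_ne e i (h1 hi)]
  congr 1
  funext h
  simp only [cfg, forall_mem_insert, ite_zero_mul_ite_zero, mul_one, and_comm]

def chi (A : Finset ℕ) : H := fun i => decide (i ∈ A)

lemma sum_cfg (T : Finset ℕ) (h : H) : ∑ A ∈ T.powerset, cfg T (chi A) h = 1 := by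
  rw [sum_eq_single (T.filter (h · = true))]
  · exact if_pos fun i hi => by simp [chi, hi]
  · refine fun A hA e => if_neg fun c => e ?_
    ext i
    rw [mem_filter]
    exact ⟨fun k => ⟨mem_powerset.1 hA k, by simp [c i (mem_powerset.1 hA k), chi, k]⟩,
      fun k => by simpa [c i k.1, chi] using k.2⟩
  · simp

lemma Ex_split (T : Finset ℕ) (n : ℕ) (θ : Bool) (F : H → ℝ) :
    Ex N w n θ F = ∑ A ∈ T.powerset, Ex N w n θ fun h => cfg T (chi A) h * F h := by
  rw [← Ex_sum]
  simp only [← sum_mul, sum_cfg, one_mul]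

/-- the weighted probability that the guess `φ` is wrong -/
noncomputable def err (N : ℕ → Finset ℕ) (w : Bool → ℝ) (n : ℕ) (φ : H → Bool) : ℝ :=
  w false * Ex N w n false (fun h => if φ h = true then 1 else 0) +
    w true * Ex N w n true fun h => if φ h = false then 1 else 0

lemma bayes {n : ℕ} (wf : N n ⊆ range n) {φ : H → Bool}
    (d : ∀ h h', (∀ i ∈ N n, h i = h' i) → φ h = φ h') :
    err N w (n + 1) (· n) ≤ err N w n φ := by
  unfold err
  rw [Ex_split (N n), Ex_split (N n) _ true, Ex_split (N n) n, Ex_split (N n) n true]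
  simp only [mul_sum, ← sum_add_distrib]
  refine sum_le_sum fun A _ => ?_
  have e : ∀ θ b, Ex N w n θ (fun h => cfg (N n) (chi A) h * if φ h = b then 1 else 0) =
      (if φ (chi A) = b then 1 else 0) * Ex N w n θ (cfg (N n) (chi A)) := fun θ b => by
    rw [← Ex_mul]
    refine Ex_congr fun h _ => ?_
    by_cases c : cfg (N n) (chi A) h = 0
    · simp [c]
    · rw [d _ _ (cfg_ne c), mul_comm]
  rw [Ex_agent _ _ (cfg_dep wf _) fun _ => cfg_ne, Ex_agent _ _ (cfg_dep wf _) fun _ => cfg_ne, e, e]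
  have := pr_bayes (vw N w n (chi A)) (!φ (chi A))
  unfold vw at this ⊢
  cases c : φ (chi A) <;> simp [c] at this ⊢ <;> linarith

/-- append the network `G`, all of whose agents also observe `T` -/
def emb (N : ℕ → Finset ℕ) (n : ℕ) (T : Finset ℕ) (G : ℕ → Finset ℕ) (i : ℕ) : Finset ℕ :=
  if i < n then N i else T ∪ (G (i - n)).image (n + ·)

def sh (n : ℕ) (h : H) : H := fun i => h (n + i)

lemma emb_lt {n i : ℕ} (T : Finset ℕ) (G : ℕ → Finset ℕ) (h : i < n) : emb N n T G i = N i :=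
  if_pos h

lemma emb_add (n i : ℕ) (T : Finset ℕ) (G : ℕ → Finset ℕ) :
    emb N n T G (n + i) = T ∪ (G i).image (n + ·) := by simp [emb]

lemma WF.emb {n : ℕ} {T : Finset ℕ} {G : ℕ → Finset ℕ} (h1 : WF N) (h2 : T ⊆ range n)
    (h3 : WF G) : WF (emb N n T G) := by
  intro i
  by_cases c : i < n
  · rw [emb_lt _ _ c]
    exact h1 i
  · obtain ⟨j, rfl⟩ := Nat.exists_eq_add_of_le (not_lt.1 c)
    rw [emb_add]
    refine union_subset (h2.trans (range_mono (by omega))) fun a ha => ?_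
    obtain ⟨b, hb, rfl⟩ := mem_image.1 ha
    simpa using h3 j hb

lemma cfg_image (n : ℕ) (S : Finset ℕ) (x h : H) :
    cfg (S.image (n + ·)) x h = cfg S (sh n x) (sh n h) := by
  simp only [cfg, forall_mem_image, sh]
  congr

theorem Ex_emb {n : ℕ} {T : Finset ℕ} (hT : T ⊆ range n) (G : ℕ → Finset ℕ) (x : H) (m : ℕ) :
    ∀ (θ : Bool) (F F' : H → ℝ), Dep n F → (∀ h, F h ≠ 0 → ∀ i ∈ T, h i = x i) →
      Ex (emb N n T G) w (n + m) θ (fun h => F h * F' (sh n h)) =
        Ex N w n θ F * Ex G (fun t => w t * Ex N w n t (cfg T x)) m θ F' := by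
  induction m with
  | zero =>
    intro θ F F' _ _
    rw [add_zero, Ex_net fun i hi => emb_lt T G hi, Ex_zero, mul_comm, ← Ex_mul]
    exact Ex_congr fun h k => by
      rw [mul_comm, show sh n h = fun _ => false from funext fun i => k _ (by omega)]
  | succ m ih =>
    intro θ F F' d e
    rw [← add_assoc, Ex_succ, Ex_succ, ← ih θ _ _ d e]
    refine Ex_congr fun h _ => ?_
    by_cases c : F h = 0
    · simp [d.update (Nat.le_add_right n m), c]
    have h1 : vw (emb N n T G) w (n + m) h =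
        vw G (fun t => w t * Ex N w n t (cfg T x)) m (sh n h) := funext fun t => by
      rw [vw, vw, mul_assoc, ← ih t _ _ (cfg_dep hT x) fun _ => cfg_ne, emb_add]
      congr 2
      funext h'
      rw [cfg_union, cfg_image, cfg_congr (e h c)]
    have h2 : ∀ b, sh n (update h (n + m) b) = update (sh n h) m b := fun b => funext fun i => by
      simp [sh, update_apply]
    simp only [h1, h2, d.update (Nat.le_add_right n m), mul_sum, mul_left_comm]

lemma Ex_emb_cfg {n : ℕ} {T S : Finset ℕ} (h1 : T ⊆ S) (h2 : S ⊆ range n) (G : ℕ → Finset ℕ)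
    (S' : Finset ℕ) (x : H) (m : ℕ) (θ : Bool) :
    Ex (emb N n T G) w (n + m) θ (cfg (S ∪ S'.image (n + ·)) x) = Ex N w n θ (cfg S x) *
      Ex G (fun t => w t * Ex N w n t (cfg T x)) m θ (cfg S' (sh n x)) := by
  rw [← Ex_emb (h1.trans h2) G x m θ _ _ (cfg_dep h2 x) fun h e i hi => cfg_ne e i (h1 hi)]
  congr 1
  funext h
  rw [cfg_union, cfg_image]

end Pool.Agent.H92.Learn
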