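import Pool.Agent.H92.Learn1

set_option autoImplicit false

/-! A finite network in which every history has a part that is evidence for the state `true`. -/

namespace Pool.Agent.H92.Learn

open Finset Function
open scoped Classical

lemma fv : f false 0 = 2 / 10 ^ 7 ∧ f false 1 = 21 / 40 - 2 / 10 ^ 7 ∧
    f false 2 = 19 / 40 - 1 / 10 ^ 7 ∧ f false 3 = 1 / 10 ^ 7 ∧ f true 0 = 1 / 10 ^ 7 ∧
    f true 1 = 19 / 40 - 1 / 10 ^ 7 ∧ f true 2 = 21 / 40 - 2 / 10 ^ 7 ∧ f true 3 = 2 / 10 ^ 7 :=
  ⟨rfl, rfl, rfl, rfl, rfl, rfl, rfl, rfl⟩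

variable {v : Bool → ℝ}

lemma rule_t {s : Fin 4} (h : v false * f false s < v true * f true s) : rule v s = true :=
  decide_eq_true (Or.inl h)

lemma rule_f {s : Fin 4} (h : v true * f true s < v false * f false s) : rule v s = false :=
  decide_eq_false fun k => k.elim (not_lt.2 h.le) fun k => h.ne' k.1

lemma pr_false (θ : Bool) : pr v θ false = 1 - pr v θ true := by linarith [pr_add v θ]

lemma pr_zero (h0 : 0 < v true) (h : 2 * v true < v false) (θ : Bool) : pr v θ false = 1 := by
  rw [pr, ← f_sum θ]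
  refine sum_congr rfl fun s _ => if_pos (rule_f ?_)
  nlinarith [f_le true false s, f_pos false s]

lemma pr_froz (h0 : 0 < v true) (h1 : 1.11 * v true ≤ v false) (h2 : v false < 2 * v true)
    (θ : Bool) : pr v θ true = f θ 3 := by
  rw [pr, Fin.sum_univ_four, rule_f, rule_f, rule_f, rule_t]
  · simp
  all_goals simp only [fv]; linarith

lemma pr_act (h0 : 0 < v true) (h1 : v false ≤ 1.1 * v true) (h2 : v true ≤ 1.1 * v false) :
    pr v false true = 19 / 40 ∧ pr v true true = 21 / 40 := by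
  rw [pr, pr, Fin.sum_univ_four, Fin.sum_univ_four, rule_f, rule_f, rule_t, rule_t]
  · norm_num [fv]
  all_goals simp only [fv]; linarith

lemma pr_cases (h0 : 0 < v true) (h1 : v true < 2 * v false) (h2 : v false < 2 * v true) :
    pr v false true = 1 / 10 ^ 7 ∧ pr v true true = 2 / 10 ^ 7 ∨
    v false ≤ 1.11 * v true ∧ pr v false true = 19 / 40 ∧ pr v true true = 21 / 40 ∨
    1.1 * v false ≤ v true ∧ pr v false true = 1 - 2 / 10 ^ 7 ∧ pr v true true = 1 - 1 / 10 ^ 7 := by
  have t : ∀ s, rule v s = true → v false * f false s ≤ v true * f true s := fun s h =>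
    not_lt.1 fun k => by simp [rule_f k] at h
  have t' : ∀ s, rule v s = false → v true * f true s ≤ v false * f false s := fun s h =>
    not_lt.1 fun k => by simp [rule_t k] at h
  simp only [pr, Fin.sum_univ_four]
  rw [rule_f (s := 0) (by simp only [fv]; linarith), rule_t (s := 3) (by simp only [fv]; linarith)]
  cases a : rule v 1 <;> cases b : rule v 2
  · left
    norm_num [fv]
  · have := t _ b
    simp only [fv] at this
    exact Or.inr (Or.inl ⟨by linarith, by norm_num [fv]⟩)
  · have := t _ a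
    have := t' _ b
    simp only [fv] at *
    linarith
  · have := t _ a
    simp only [fv] at this
    exact Or.inr (Or.inr ⟨by linarith, by norm_num [fv]⟩)

/-- agents who observe nobody -/
def E : ℕ → Finset ℕ := fun _ => ∅

def O : H := fun _ => false

variable {N : ℕ → Finset ℕ} {w : Bool → ℝ}

lemma E_wf : WF E := fun _ => empty_subset _

lemma vw_E (n : ℕ) (x : H) : vw E w n x = w := funext fun t => by simp [vw, E, Ex_const]

lemma E_succ (n : ℕ) (θ : Bool) (x : H) : Ex E w (n + 1) θ (cfg (range (n + 1)) x) =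
    pr w θ (x n) * Ex E w n θ (cfg (range n) x) := by
  rw [range_add_one, Ex_insert θ x (empty_subset _) le_rfl, vw_E]

lemma E_one (θ : Bool) (x : H) : Ex E w 1 θ (cfg (range 1) x) = pr w θ (x 0) := by
  simpa [Ex_const] using E_succ (w := w) 0 θ x

lemma E_two (θ : Bool) (x : H) : Ex E w 2 θ (cfg (range 2) x) = pr w θ (x 1) * pr w θ (x 0) := by
  rw [E_succ 1, E_one]

lemma E_zero (θ : Bool) (n : ℕ) : Ex E w n θ (cfg (range n) O) = pr w θ false ^ n := by
  induction n with
  | zero => simp [Ex_const]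
  | succ n ih => rw [E_succ, ih, pow_succ', O]

noncomputable def cnt (m : ℕ) (h : H) : ℝ := ∑ i ∈ range m, if h i = true then 1 else 0

lemma cnt_dep (m : ℕ) : Dep m (cnt m) := fun _ _ e =>
  sum_congr rfl fun i hi => by rw [e i (mem_range.1 hi)]

lemma E_var (θ : Bool) (m : ℕ) :
    Ex E w m θ (fun h => (cnt m h - m * pr w θ true) ^ 2) ≤ m / 4 := by
  induction m with
  | zero => simp [cnt, Ex_zero]
  | succ m ih =>
    rw [Ex_succ]
    refine (Ex_mono (G := fun h => (cnt m h - m * pr w θ true) ^ 2 + 1 / 4) fun h _ => ?_).trans ?_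
    · have e : ∀ b, cnt (m + 1) (update h m b) = cnt m h + if b = true then 1 else 0 := fun b => by
        rw [cnt, sum_range_succ, update_self, ← cnt, (cnt_dep m).update le_rfl]
      simp only [e, vw_E, Fintype.sum_bool, pr_false]
      simp
      nlinarith [sq_nonneg (pr w θ true - 1 / 2)]
    · rw [Ex_add, Ex_const]
      push_cast
      linarith

noncomputable def maj (m : ℕ) (z : ℝ) (h : H) : Bool := decide (m * z < cnt m h)

lemma E_learn {x y : ℝ} (hx : pr w false true = x) (hy : pr w true true = y) (h : x < y) {m : ℕ}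
    (m0 : 0 < m) (θ : Bool) : Ex E w m θ (fun h => if maj m ((x + y) / 2) h = !θ then 1 else 0) ≤
      1 / (m * (y - x) ^ 2) := by
  have m1 : (0 : ℝ) < m := by exact_mod_cast m0
  have d0 : 0 < y - x := sub_pos.2 h
  refine (Ex_mono (G := fun h => 4 / (m * (y - x)) ^ 2 * (cnt m h - m * pr w θ true) ^ 2)
    fun h _ => ?_).trans ?_
  · split_ifs with c
    · rw [div_mul_eq_mul_div, one_le_div (by positivity)]
      have := mul_pos m1 d0
      cases θ
      · have := of_decide_eq_true c
        rw [hx]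
        nlinarith
      · have := not_lt.1 (of_decide_eq_false c)
        rw [hy]
        nlinarith
    · positivity
  · rw [Ex_mul]
    refine (mul_le_mul_of_nonneg_left (E_var θ m) (by positivity)).trans (le_of_eq ?_)
    field_simp

lemma froz_view (h0 : 0 < w true) (h1 : 1.15 * w true ≤ w false) (h2 : w false ≤ 1.95 * w true)
    {q : Bool → ℝ} (a : ∀ t, 0.994 ≤ q t) (b : ∀ t, q t ≤ 1) (θ : Bool) :
    pr (fun t => w t * q t) θ true = f θ 3 := by
  have := a true
  refine pr_froz (by positivity) ?_ ?_ θ <;> nlinarith [a false, b false, b true]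

lemma froz (wf : WF N) (h0 : 0 < w true) (h1 : 1.15 * w true ≤ w false)
    (h2 : w false ≤ 1.95 * w true) {n : ℕ} (hn : n ≤ 30000) :
    ∀ θ, 1 - n * (2 / 10 ^ 7) ≤ Ex N w n θ (cfg (range n) O) := by
  induction n with
  | zero => simp [Ex_const]
  | succ n ih =>
    intro θ
    have n1 : (n : ℝ) ≤ 30000 := by exact_mod_cast (by omega)
    have a := ih (by omega)
    rw [range_add_one, Ex_insert θ O (wf n) le_rfl, O, pr_false]
    erw [froz_view h0 h1 h2 (fun t => le_trans (by linarith) ((a t).trans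
      (Ex_mono fun h _ => cfg_anti (wf n) _ _))) fun t => Ex_cfg_le _ _ _ _]
    have b := f_le θ false 3
    have c := Ex_cfg_le (N := N) (w := w) n θ (range n) O
    simp only [fv] at b
    push_cast
    nlinarith [a θ, f_pos θ 3]

lemma froz' (wf : WF N) (h0 : 0 < w true) (h1 : 1.15 * w true ≤ w false)
    (h2 : w false ≤ 1.95 * w true) {n i : ℕ} (hn : n ≤ 30000) (hi : n ≤ i) {S : Finset ℕ}
    (hS : S ⊆ range n) (θ : Bool) : 0.994 ≤ Ex N w i θ (cfg S O) := by
  have n1 : (n : ℝ) ≤ 30000 := by exact_mod_cast hn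
  rw [Ex_ext θ (cfg_dep hS _) hi]
  exact le_trans (by linarith) ((froz wf h0 h1 h2 hn θ).trans (Ex_mono fun h _ => cfg_anti hS _ _))

def G2 (M : ℕ) := emb E M (range M) E
def G1 (M : ℕ) := emb E 2 (range 2) (G2 M)
def G0 (M : ℕ) := emb E 1 (range 1) (G1 M)

lemma G2_wf (M : ℕ) : WF (G2 M) := E_wf.emb le_rfl E_wf
lemma G1_wf (M : ℕ) : WF (G1 M) := E_wf.emb le_rfl (G2_wf M)
lemma G0_wf (M : ℕ) : WF (G0 M) := E_wf.emb le_rfl (G1_wf M)

lemma accurate {M : ℕ} (hM : 20000 ≤ M) (h0 : 0 < w true) (h1 : 0.95 * w true ≤ w false)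
    (h2 : w false ≤ w true) :
    2 * (w true * Ex (G1 M) w (2 + (M + 1)) true (cfg {2 + M} O)) <
      w false * Ex (G1 M) w (2 + (M + 1)) false (cfg {2 + M} O) := by
  have M1 : (20000 : ℝ) ≤ M := by exact_mod_cast hM
  obtain ⟨a1, a2⟩ := pr_act h0 (by linarith) (by linarith)
  set φ : H → Bool := fun h => if h 0 = h 1 then h 0 else maj M (1 / 2) (sh 2 h) with hφ
  have b1 := bayes (w := w) (G1_wf M (2 + M)) (φ := φ) fun h h' e => by
    have e1 : ∀ i < 2 + M, h i = h' i := fun i hi => e i (by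
      rw [G1, emb_add, G2, show emb E M (range M) E M = _ from emb_add M 0 _ _]
      simp only [mem_union, mem_image, mem_range]
      by_cases c : i < 2
      · exact Or.inl c
      · exact Or.inr ⟨i - 2, Or.inl (by omega), by omega⟩)
    simp only [hφ, maj, e1 0 (by omega), e1 1 (by omega),
      cnt_dep M (sh 2 h) (sh 2 h') fun i hi => e1 _ (by omega)]
  have b2 : ∀ (θ : Bool) (x : H), x 0 ≠ x 1 → Ex (G1 M) w (2 + M) θ (fun h => cfg (range 2) x h *
      if maj M (1 / 2) (sh 2 h) = !θ then 1 else 0) ≤ 1 / 200 := by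
    intro θ x hx
    have c1 : ∀ t, Ex E w 2 t (cfg (range 2) x) = 399 / 1600 := fun t => by
      rw [E_two]
      cases t <;> cases a : x 0 <;> cases b : x 1 <;> norm_num [pr_false, a1, a2] <;> simp_all
    rw [G1, Ex_emb le_rfl (G2 M) x M θ _ (fun h => if maj M (1 / 2) h = !θ then 1 else 0)
      (cfg_dep le_rfl x) fun _ => cfg_ne, G2, Ex_net fun i hi => emb_lt _ _ hi]
    simp only [c1]
    obtain ⟨c2, c3⟩ := pr_act (v := fun t => w t * (399 / 1600)) (by positivity) (by linarith)
      (by linarith)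
    have c4 := E_learn c2 c3 (by norm_num) (show 0 < M by omega) θ
    have c5 : 1 / (M * (21 / 40 - 19 / 40 : ℝ) ^ 2) ≤ 1 / 50 :=
      one_div_le_one_div_of_le (by norm_num) (by linarith)
    norm_num at c4 c5 ⊢
    linarith
  have b3 : ∀ θ, Ex (G1 M) w (2 + M) θ (fun h => if φ h = !θ then 1 else 0) ≤ 0.236 := by
    intro θ
    have c1 : Ex (G1 M) w (2 + M) θ (cfg (range 2) fun _ => !θ) = 361 / 1600 := by
      rw [Ex_ext θ (cfg_dep le_rfl _) (Nat.le_add_right 2 M), G1,
        Ex_net fun i hi => emb_lt _ _ hi, E_two]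
      cases θ <;> norm_num [pr_false, a1, a2]
    have c2 := b2 θ (fun i => decide (i = 0)) (by simp)
    have c3 := b2 θ (fun i => decide (i = 1)) (by simp)
    refine (Ex_mono fun h _ => ?_).trans ((Ex_add _ _ _ _).trans_le (add_le_add c1.le
      ((Ex_add _ _ _ _).trans_le (add_le_add c2 c3))) |>.trans (by norm_num))
    simp only [hφ, cfg, range_add_one, range_zero, forall_mem_insert]
    cases h 0 <;> cases h 1 <;> cases θ <;> simp
  have b4 : Ex (G1 M) w (2 + M + 1) false (fun h => if h (2 + M) = true then 1 else 0) +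
      Ex (G1 M) w (2 + (M + 1)) false (cfg {2 + M} O) = 1 := by
    rw [← add_assoc, ← Ex_add]
    refine (Ex_congr fun h _ => ?_).trans (Ex_const _ _ 1)
    cases c : h (2 + M) <;> simp [cfg, c, O]
  have b5 : Ex (G1 M) w (2 + M + 1) true (fun h => if h (2 + M) = false then 1 else 0) =
      Ex (G1 M) w (2 + (M + 1)) true (cfg {2 + M} O) := Ex_congr fun h _ => by simp [cfg, O]
  have b6 := b3 true
  have b7 := b3 false
  have b8 : 0 ≤ Ex (G1 M) w (2 + M + 1) false (fun h => if h (2 + M) = true then 1 else 0) :=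
    Ex_nonneg fun _ => by split_ifs <;> norm_num
  simp only [err, b5] at b1
  simp only [Bool.not_true, Bool.not_false] at b6 b7
  nlinarith

def Down (w : Bool → ℝ) : Prop :=
  ∃ m G, WF G ∧ ∀ h, 0 < Ex G w m true (cfg (range m) h) → ∃ S ⊆ range m,
    0.49 * Ex G w m true (cfg S h) ≤ Ex G w m false (cfg S h) ∧
      Ex G w m false (cfg S h) < Ex G w m true (cfg S h)

theorem core (h0 : 0 < w true) (h1 : 1.9 * w true ≤ w false) (h2 : w false ≤ 1.94 * w true) :
    Down w := by
  obtain ⟨M, hM, hM'⟩ : ∃ M : ℕ, 20000 ≤ M ∧ M ≤ 20000 := ⟨_, le_rfl, le_rfl⟩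
  obtain ⟨K, hK⟩ := exists_pow_lt_of_lt_one (show (0 : ℝ) < 1 / 10 ^ 8 by norm_num)
    (show (1 - 1 / 10 ^ 7 : ℝ) < 1 by norm_num)
  have h1' : 1.15 * w true ≤ w false := by linarith
  have h2' : w false ≤ 1.95 * w true := by linarith
  set T := range 1 ∪ ({2 + M} : Finset ℕ).image (1 + ·) with hT
  set S := (range 2 ∪ ({M} : Finset ℕ).image (2 + ·)).image (1 + ·) with hS
  have s1 : range 1 ∪ S ⊆ range (1 + (2 + (M + 1))) := by
    simp only [hS, subset_iff, mem_union, mem_image, mem_range, mem_singleton]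
    omega
  have s2 : T ⊆ range 1 ∪ S := union_subset_union_right (image_subset_image (by simp))
  have wf : WF (emb (G0 M) (1 + (2 + (M + 1))) T E) := (G0_wf M).emb (s2.trans s1) E_wf
  refine ⟨1 + (2 + (M + 1)) + K, _, wf, fun h _ => ?_⟩
  by_cases c : ∃ i, i < 1 + (2 + (M + 1)) + K ∧ h i = true
  · have c1 := Nat.find_spec c
    have c2 := fun j => Nat.find_min c (m := j)
    generalize Nat.find c = i at c1 c2
    generalize hC : emb (G0 M) (1 + (2 + (M + 1))) T E = C at *
    have c3 : cfg (C i) h = cfg (C i) O := cfg_congr fun j hj => by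
      have := mem_range.1 (wf i hj)
      simpa [show j < 1 + (2 + (M + 1)) + K by omega, O] using c2 j this
    have c4 : ∀ θ, 0.994 ≤ Ex C w i θ (cfg (C i) O) := by
      by_cases e : i < 1 + (2 + (M + 1))
      · exact froz' wf h0 h1' h2' (by omega) le_rfl (wf i)
      · refine froz' wf h0 h1' h2' (by omega) (not_lt.1 e) ?_
        rw [← hC, emb, if_neg e]
        simpa [E] using s2.trans s1
    have c5 : insert i (C i) ⊆ range (i + 1) := by
      rw [range_add_one]
      exact insert_subset_insert _ (wf i)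
    have c6 : ∀ θ, Ex C w (1 + (2 + (M + 1)) + K) θ (cfg (insert i (C i)) h) =
        f θ 3 * Ex C w i θ (cfg (C i) O) := fun θ => by
      rw [Ex_ext θ (cfg_dep c5 _) c1.1, Ex_insert θ h le_rfl (wf i), c1.2]
      unfold vw
      rw [c3, froz_view h0 h1' h2' c4 fun t => Ex_cfg_le _ _ _ _]
    refine ⟨_, c5.trans (range_mono c1.1), ?_⟩
    simp only [c6, fv]
    constructor <;> linarith [c4 true, c4 false, Ex_cfg_le (N := C) (w := w) i true (C i) O,
      Ex_cfg_le (N := C) (w := w) i false (C i) O]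
  have s3 : S ∪ (range K).image (1 + (2 + (M + 1)) + ·) ⊆ range (1 + (2 + (M + 1)) + K) :=
    union_subset ((subset_union_right.trans s1).trans (range_mono (by omega))) (by
      simp [subset_iff])
  refine ⟨_, s3, ?_⟩
  rw [cfg_congr (y := O) fun i hi => by
    simpa [mem_range.1 (s3 hi), O] using not_exists.1 c i]
  set x : H := fun i => decide (i = 0) with hx
  have e1 : ∀ n, sh (1 + n) x = O := fun n => funext fun i => by simp [sh, hx, O]
  have e2 : ∀ t, Ex E w 1 t (cfg (range 1) x) = f t 3 := fun t => by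
    rw [E_one]
    exact pr_froz h0 (by linarith) (by linarith) t
  have w0 : 0 < w true * f true 3 := by simp only [fv]; positivity
  have w1 : 0.95 * (w true * f true 3) ≤ w false * f false 3 := by simp only [fv]; linarith
  have w2 : w false * f false 3 ≤ 0.97 * (w true * f true 3) := by simp only [fv]; linarith
  obtain ⟨a1, a2⟩ := pr_act (v := fun t => w t * f t 3) w0 (by linarith) (by linarith)
  have e3 : ∀ θ, pr (fun t => w t * Ex (G0 M) w (1 + (2 + (M + 1))) t (cfg T x)) θ false = 1 := by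
    have k := accurate (w := fun t => w t * f t 3) hM w0 w1 (by linarith)
    have k' := Ex_nonneg (N := G1 M) (w := fun t => w t * f t 3) (n := 2 + (M + 1)) (θ := true)
      (cfg_nonneg {2 + M} O)
    simp only [hT, G0, Ex_emb_cfg le_rfl le_rfl, e1 0, e2, ← mul_assoc]
    refine pr_zero (mul_pos w0 (Ex_pos (θ := false) true ?_)) k
    exact (mul_pos_iff_of_pos_left (by linarith)).1 (lt_of_le_of_lt (by positivity) k)
  have e4 : ∀ θ, pr (fun t => w t * Ex (G0 M) w (1 + (2 + (M + 1))) t (cfg T O)) θ false =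
      1 - f θ 3 := fun θ => by
    rw [pr_false, froz_view h0 h1' h2' (froz' (G0_wf M) h0 h1' h2' (by omega) le_rfl (s2.trans s1))
      fun t => Ex_cfg_le _ _ _ _]
  have e5 : ∀ θ, ∃ q : ℝ, 0.994 ≤ q ∧ q ≤ 1 ∧ Ex (G0 M) w (1 + (2 + (M + 1))) θ
      (cfg (range 1 ∪ S) x) = f θ 3 * ((if θ then 361 / 1600 else 441 / 1600) * q) := by
    have k : ∀ t, Ex E (fun t => w t * f t 3) 2 t (cfg (range 2) O) =
        if t then 361 / 1600 else 441 / 1600 := fun t => by
      rw [E_zero]
      cases t <;> norm_num [pr_false, a1, a2]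
    intro θ
    refine ⟨_, froz' (w := fun t => w t * f t 3 * if t then 361 / 1600 else 441 / 1600) (G2_wf M)
      (by simpa using w0) (by simp; linarith) (by simp; linarith) (n := M + 1) (by omega) le_rfl
      (S := {M}) (by simp) θ, Ex_cfg_le _ _ _ _, ?_⟩
    simp only [hS, G0, G1, Ex_emb_cfg le_rfl le_rfl, e1 0, e2, k]
    rfl
  have e6 : ∀ θ, Ex (emb (G0 M) (1 + (2 + (M + 1))) T E) w (1 + (2 + (M + 1)) + K) θ
      (cfg (S ∪ (range K).image (1 + (2 + (M + 1)) + ·)) O) =
      Ex (G0 M) w (1 + (2 + (M + 1))) θ (cfg (range 1 ∪ S) O) * (1 - f θ 3) ^ K +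
      Ex (G0 M) w (1 + (2 + (M + 1))) θ (cfg (range 1 ∪ S) x) := fun θ => by
    have k1 := Ex_emb_cfg (N := G0 M) (w := w) s2 s1 E (range K) O K θ
    have k2 := Ex_emb_cfg (N := G0 M) (w := w) s2 s1 E (range K) x K θ
    rw [e1, E_zero, e3, one_pow, mul_one] at k2
    rw [show sh _ O = O from rfl, E_zero, e4] at k1
    rw [← k1, ← k2, ← Ex_add]
    refine Ex_congr fun h _ => ?_
    have k3 : cfg (S ∪ (range K).image (1 + (2 + (M + 1)) + ·)) x =
        cfg (S ∪ (range K).image (1 + (2 + (M + 1)) + ·)) O := cfg_congr fun i hi => by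
      simp only [hS, mem_union, mem_image] at hi
      simp only [hx, O, decide_eq_false_iff_not]
      omega
    rw [union_assoc, cfg_union (range 1), cfg_union (range 1), k3, ← add_mul]
    cases c : h 0 <;> simp [cfg, c, O, hx]
  obtain ⟨q, q1, q2, q3⟩ := e5 false
  obtain ⟨r, r1, r2, r3⟩ := e5 true
  have e7 := froz' (G0_wf M) h0 h1' h2' (by omega) le_rfl s1
  have e8 := fun t => Ex_cfg_le (N := G0 M) (w := w) (1 + (2 + (M + 1))) t (range 1 ∪ S) O
  have e9 : (1 - 2 / 10 ^ 7 : ℝ) ^ K ≤ (1 - 1 / 10 ^ 7) ^ K := by gcongr <;> norm_num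
  have e10 : 0 ≤ (1 - 2 / 10 ^ 7 : ℝ) ^ K := by positivity
  simp only [e6, q3, r3, fv, Bool.false_eq_true, if_true, if_false]
  have e11 := mul_le_mul_of_nonneg_right (e8 true) e10
  have e12 := mul_le_mul_of_nonneg_right (e7 true) e10
  have e13 := mul_le_mul_of_nonneg_right (e8 false) (e10.trans e9)
  have e14 := mul_le_mul_of_nonneg_right (e7 false) (e10.trans e9)
  constructor <;> linarith

end Pool.Agent.H92.Learn
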