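import Pool.Agent.H92.Learn2

set_option autoImplicit false

/-! A deterministic network along which the error probability tends to zero. -/

namespace Pool.Agent.H92.Learn

open Finset Function Filter Topology
open scoped Classical

variable {N : ℕ → Finset ℕ} {w : Bool → ℝ}

lemma range_split (n m : ℕ) : range (n + m) = range n ∪ (range m).image (n + ·) := by
  rw [range_add, map_eq_image]
  rfl

lemma sub_range {n m : ℕ} {S S' : Finset ℕ} (h : S ⊆ range n) (h' : S' ⊆ range m) :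
    S ∪ S'.image (n + ·) ⊆ range (n + m) := by
  rw [range_split]
  exact union_subset_union h (image_subset_image h')

lemma pos_split {n m : ℕ} {T : Finset ℕ} (hT : T ⊆ range n) {G : ℕ → Finset ℕ} {h : H} {θ : Bool}
    (e : 0 < Ex (emb N n T G) w (n + m) θ (cfg (range (n + m)) h)) :
    0 < Ex N w n θ (cfg (range n) h) ∧
      0 < Ex G (fun t => w t * Ex N w n t (cfg T h)) m θ (cfg (range m) (sh n h)) := by
  rw [range_split, Ex_emb_cfg hT le_rfl] at e
  exact (pos_and_pos_or_neg_and_neg_of_mul_pos e).resolve_right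
    fun k => not_lt.2 (Ex_nonneg (cfg_nonneg _ _)) k.1

lemma cfg_chi {S T : Finset ℕ} (e : S ⊆ T) (h : H) :
    cfg S h = cfg S (chi (T.filter (h · = true))) :=
  cfg_congr fun i hi => by simp [chi, e hi]

lemma lower (hD : Down w) {a t : ℝ} (a0 : 0 < a) (ht : 0.49 * a ≤ t) :
    ∃ m G, WF G ∧ ∀ h, 0 < Ex G w m true (cfg (range m) h) → ∃ S ⊆ range m,
      0.49 * a * Ex G w m true (cfg S h) ≤ t * Ex G w m false (cfg S h) ∧
        t * Ex G w m false (cfg S h) < a * Ex G w m true (cfg S h) := by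
  obtain ⟨m₁, G₁, wf, hG⟩ := hD
  set X := insert 0 ((((range m₁).powerset ×ˢ (range m₁).powerset).image fun z =>
    Ex G₁ w m₁ false (cfg z.1 (chi z.2)) / Ex G₁ w m₁ true (cfg z.1 (chi z.2))).filter (· < 1))
  have X0 : X.Nonempty := insert_nonempty _ _
  have r0 : 0 ≤ X.max' X0 := le_max' _ _ (mem_insert_self _ _)
  have r1 : X.max' X0 < 1 := (max'_lt_iff _ _).2 fun y hy =>
    (mem_insert.1 hy).elim (· ▸ one_pos) fun k => (mem_filter.1 k).2
  have key : ∀ n : ℕ, ∃ m G, WF G ∧ ∀ t, 0.49 * a ≤ t → t * X.max' X0 ^ n < a →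
      ∀ h, 0 < Ex G w m true (cfg (range m) h) → ∃ S ⊆ range m,
        0.49 * a * Ex G w m true (cfg S h) ≤ t * Ex G w m false (cfg S h) ∧
          t * Ex G w m false (cfg S h) < a * Ex G w m true (cfg S h) := by
    intro n
    induction n with
    | zero => exact ⟨0, E, E_wf, fun t h1 h2 h _ => ⟨∅, le_rfl, by simpa [Ex_const] using And.intro h1 h2⟩⟩
    | succ n ih =>
      obtain ⟨m, G, wf', hG'⟩ := ih
      refine ⟨m₁ + m, emb G₁ m₁ ∅ G, wf.emb (empty_subset _) wf', fun t h1 h2 h h3 => ?_⟩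
      by_cases c : t < a
      · exact ⟨∅, empty_subset _, by simpa [Ex_const] using ⟨h1, c⟩⟩
      obtain ⟨p1, p2⟩ := pos_split (empty_subset _) h3
      simp only [cfg_empty, Ex_const, mul_one] at p2
      obtain ⟨S, s1, s2, s3⟩ := hG h p1
      have q0 : 0 < Ex G₁ w m₁ true (cfg S h) := (Ex_nonneg (cfg_nonneg _ _)).trans_lt s3
      have q1 : Ex G₁ w m₁ false (cfg S h) / Ex G₁ w m₁ true (cfg S h) ≤ X.max' X0 :=
        le_max' X _ (mem_insert_of_mem (mem_filter.2 ⟨mem_image.2 ⟨(S, _), mem_product.2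
          ⟨mem_powerset.2 s1, mem_powerset.2 (filter_subset (h · = true) _)⟩, by rw [cfg_chi s1 h]; rfl⟩,
          (div_lt_one q0).2 s3⟩))
      have q2 := (le_div_iff₀ q0).2 s2
      obtain ⟨S', t1, t2, t3⟩ := hG' (t * (Ex G₁ w m₁ false (cfg S h) / Ex G₁ w m₁ true (cfg S h)))
        (by nlinarith) (lt_of_le_of_lt (by
          rw [pow_succ', mul_assoc]
          have : 0 ≤ t := by linarith
          gcongr) h2) _ p2
      refine ⟨_, sub_range s1 t1, ?_⟩
      simp only [Ex_emb_cfg (empty_subset _) s1, cfg_empty, Ex_const, mul_one]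
      have t4 := mul_le_mul_of_nonneg_left t2 q0.le
      have t5 := mul_lt_mul_of_pos_left t3 q0
      have t6 : Ex G₁ w m₁ true (cfg S h) * (t * (Ex G₁ w m₁ false (cfg S h) /
          Ex G₁ w m₁ true (cfg S h)) * Ex G w m false (cfg S' (sh m₁ h))) =
          t * (Ex G₁ w m₁ false (cfg S h) * Ex G w m false (cfg S' (sh m₁ h))) := by field_simp
      constructor <;> linarith
  have t0 : 0 < t := by linarith
  obtain ⟨n, hn⟩ := exists_pow_lt_of_lt_one (div_pos a0 t0) r1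
  obtain ⟨m, G, h1, h2⟩ := key n
  exact ⟨m, G, h1, h2 t ht ((lt_div_iff₀' t0).1 hn)⟩

lemma down_step (hD : Down fun t => w t * pr w t false)
    (h1 : 0.49 * pr w true true ≤ pr w false true) (h2 : pr w false true < pr w true true)
    (h3 : pr w true true < 1) : Down w := by
  obtain ⟨m, G, wf, hG⟩ := lower hD (a := pr w true false) (t := pr w false false)
    (by rw [pr_false]; linarith) (by simp only [pr_false]; linarith)
  refine ⟨1 + m, emb E 1 (range 1) G, E_wf.emb le_rfl wf, fun h hh => ?_⟩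
  cases c : h 0
  · have p := (pos_split le_rfl hh).2
    simp only [E_one, c] at p
    obtain ⟨S, s1, s2, s3⟩ := hG _ p
    refine ⟨_, sub_range le_rfl s1, ?_⟩
    simp only [Ex_emb_cfg le_rfl le_rfl, E_one, c]
    exact ⟨by linarith, s3⟩
  · refine ⟨range 1, range_mono (by omega), ?_⟩
    simp only [Ex_ext _ (cfg_dep le_rfl _) (Nat.le_add_right 1 m),
      Ex_net fun i hi => emb_lt (N := E) (n := 1) (range 1) G hi, E_one, c]
    exact ⟨h1, h2⟩

lemma down (n : ℕ) : ∀ w : Bool → ℝ, 0 < w true → 0.6 * w true ≤ w false →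
    w false ≤ 1.94 * w true → 1.9 * w true ≤ w false * (1 + 1 / 10 ^ 7) ^ n → Down w := by
  induction n with
  | zero => exact fun w h0 _ h2 h3 => core h0 (by simpa using h3) h2
  | succ n ih =>
    intro w h0 h1 h2 h3
    by_cases c : 1.9 * w true ≤ w false
    · exact core h0 c h2
    have k : 0 < w false * (1 + 1 / 10 ^ 7) ^ n := mul_pos (by linarith) (by positivity)
    rw [pow_succ] at h3
    rcases pr_cases h0 (by linarith) (by linarith) with ⟨a, b⟩ | ⟨e, a, b⟩ | ⟨e, a, b⟩ <;>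
    refine down_step (ih _ ?_ ?_ ?_ ?_) ?_ ?_ ?_ <;> simp only [pr_false, a, b] <;> linarith

def Bd (a b : ℝ) : Prop := 0 < b ∧ a ≤ 1.45 * b ∧ b ≤ 1.45 * a

lemma Bd.symm {a b : ℝ} (h : Bd a b) : Bd b a := ⟨by linarith [h.1, h.2.2], h.2.2, h.2.1⟩

lemma bal (hw : Bd (w false) (w true)) {a b : ℝ} (a0 : 0 < a) (b0 : 0 < b) :
    ∃ m G, WF G ∧ ∀ h, 0 < Ex G w m true (cfg (range m) h) → ∃ S ⊆ range m,
      Bd (a * Ex G w m false (cfg S h)) (b * Ex G w m true (cfg S h)) := by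
  wlog c : b ≤ a generalizing w a b
  · obtain ⟨m, G, wf, hG⟩ := this (w := w ∘ not) hw.symm b0 a0 (not_le.1 c).le
    have e : ∀ θ h S, S ⊆ range m →
        Ex G (w ∘ not) m (!θ) (cfg S (not ∘ h)) = Ex G w m θ (cfg S h) := fun θ h S hS => by
      rw [← Ex_not m θ _ wf (cfg_dep hS h)]
      congr 1
      funext h'
      simp [cfg]
    refine ⟨m, G, wf, fun h hh => ?_⟩
    obtain ⟨S, s1, s2⟩ := hG (not ∘ h) ((Ex_pos false hh).trans_eq (e false h _ le_rfl).symm)
    exact ⟨S, s1, by rw [← e true h S s1, ← e false h S s1]; exact s2.symm⟩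
  obtain ⟨h0, h1, h2⟩ := hw
  have w0 : 0 < w false := by linarith
  obtain ⟨n, hn⟩ := pow_unbounded_of_one_lt (1.9 * w true / w false)
    (show (1 : ℝ) < 1 + 1 / 10 ^ 7 by norm_num)
  obtain ⟨m, G, wf, hG⟩ := lower (down n w h0 (by linarith) (by linarith)
    ((div_lt_iff₀' w0).1 hn).le) (a := 1.45 * b) (t := a) (by linarith) (by linarith)
  refine ⟨m, G, wf, fun h hh => ?_⟩
  obtain ⟨S, s1, s2, s3⟩ := hG h hh
  have := mul_nonneg a0.le (Ex_nonneg (N := G) (w := w) (n := m) (θ := false) (cfg_nonneg S h))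
  exact ⟨S, s1, by linarith, by linarith, by linarith⟩

noncomputable def W : Bool → ℝ := fun _ => 1 / 2

def Inv (n : ℕ) (N : ℕ → Finset ℕ) (Γ : Finset ℕ) : Prop :=
  ∀ h, 0 < Ex N W n true (cfg (range n) h) → ∃ T, Γ ⊆ T ∧ T ⊆ range n ∧
    Bd (W false * Ex N W n false (cfg T h)) (W true * Ex N W n true (cfg T h))

def Ext (Γ : Finset ℕ) (n : ℕ) (N : ℕ → Finset ℕ) (n' : ℕ) (N' : ℕ → Finset ℕ) : Prop :=
  n ≤ n' ∧ WF N' ∧ (∀ i < n, N' i = N i) ∧ ∀ i, n ≤ i → i < n' → Γ ⊆ N' i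

variable {Γ : Finset ℕ} {n n' n'' : ℕ} {N' N'' : ℕ → Finset ℕ}

lemma Ext.trans (h : Ext Γ n N n' N') (h' : Ext Γ n' N' n'' N'') : Ext Γ n N n'' N'' := by
  refine ⟨h.1.trans h'.1, h'.2.1, fun i hi => (h'.2.2.1 i (hi.trans_le h.1)).trans (h.2.2.1 i hi),
    fun i a b => ?_⟩
  by_cases c : i < n'
  · rw [h'.2.2.1 i c]
    exact h.2.2.2 i a c
  · exact h'.2.2.2 i (not_lt.1 c) b

lemma Ext.ex (h : Ext Γ n N n' N') (θ : Bool) {F : H → ℝ} (d : Dep n F) :
    Ex N' W n' θ F = Ex N W n θ F := by rw [Ex_ext θ d h.1, Ex_net h.2.2.1]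

lemma Ext.pos (h : Ext Γ n N n' N') {x : H} (e : 0 < Ex N' W n' true (cfg (range n') x)) :
    0 < Ex N W n true (cfg (range n) x) :=
  (e.trans_le (Ex_mono fun _ _ => cfg_anti (range_mono h.1) _ _)).trans_eq
    (h.ex _ (cfg_dep le_rfl _))

lemma ext_emb (wf : WF N) {T : Finset ℕ} (h1 : Γ ⊆ T) (h2 : T ⊆ range n) {G : ℕ → Finset ℕ}
    (wf' : WF G) (m : ℕ) : Ext Γ n N (n + m) (emb N n T G) :=
  ⟨Nat.le_add_right _ _, wf.emb h2 wf', fun _ hi => emb_lt _ _ hi, fun i a _ => by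
    rw [emb, if_neg (not_lt.2 a)]
    exact h1.trans subset_union_left⟩

lemma Inv.ext {Γ' : Finset ℕ} (h : Inv n N Γ) (e : Ext Γ' n N n' N') : Inv n' N' Γ := by
  intro x hx
  obtain ⟨T, a, b, c⟩ := h x (e.pos hx)
  exact ⟨T, a, b.trans (range_mono e.1), by rwa [e.ex _ (cfg_dep b _), e.ex _ (cfg_dep b _)]⟩

lemma all_ext {κ : Type} (wf : WF N) (Φ : κ → ℕ → (ℕ → Finset ℕ) → Prop)
    (h1 : ∀ x n₁ N₁ n₂ N₂, Ext Γ n N n₁ N₁ → Ext Γ n₁ N₁ n₂ N₂ → Φ x n₁ N₁ → Φ x n₂ N₂)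
    (h2 : ∀ x n₁ N₁, Ext Γ n N n₁ N₁ → ∃ n₂ N₂, Ext Γ n₁ N₁ n₂ N₂ ∧ Φ x n₂ N₂) (X : Finset κ) :
    ∃ n' N', Ext Γ n N n' N' ∧ ∀ x ∈ X, Φ x n' N' := by
  induction X using Finset.induction_on with
  | empty => exact ⟨n, N, ⟨le_rfl, wf, fun _ _ => rfl, fun i a b => by omega⟩, by simp⟩
  | insert a X _ ih =>
    obtain ⟨n₁, N₁, e1, e2⟩ := ih
    obtain ⟨n₂, N₂, e3, e4⟩ := h2 a _ _ e1
    exact ⟨n₂, N₂, e1.trans e3, forall_mem_insert _ _ _ |>.2
      ⟨e4, fun x hx => h1 x _ _ _ _ e1 e3 (e2 x hx)⟩⟩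

lemma learn (wf : WF N) (hI : Inv n N Γ) {ε : ℝ} (ε0 : 0 < ε) :
    ∃ n' N', Ext Γ n N n' N' ∧ ∃ φ : H → Bool, (∀ h h' : H, (∀ i ∈ range n', h i = h' i) →
      φ h = φ h') ∧ err N' W n' φ ≤ ε := by
  obtain ⟨n', N', e1, e2⟩ := all_ext (Γ := Γ) (n := n) wf (fun A n' N' => ∃ φ : H → Bool,
    (∀ h h' : H, (∀ i ∈ range n', h i = h' i) → φ h = φ h') ∧ ∀ θ, Ex N' W n' θ
      (fun h => cfg (range n) (chi A) h * if φ h = !θ then 1 else 0) ≤
        ε * Ex N W n θ (cfg (range n) (chi A)))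
    (fun A n₁ N₁ n₂ N₂ a b ⟨φ, c, d⟩ => ⟨φ, fun h h' k => c h h' fun i hi => k i (range_mono b.1 hi),
      fun θ => (b.ex θ fun h h' k => by
        rw [(cfg_dep le_rfl _).mono a.1 _ _ k, c h h' fun i hi => k i (mem_range.1 hi)]).trans_le
          (d θ)⟩)
    (fun A n₁ N₁ a => by
      by_cases c : 0 < Ex N W n true (cfg (range n) (chi A))
      · obtain ⟨T, t1, t2, t3, t4, t5⟩ := hI _ c
        have t6 := t2.trans (range_mono a.1)
        have t7 : pr (fun t => W t * Ex N W n t (cfg T (chi A))) false true <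
            pr (fun t => W t * Ex N W n t (cfg T (chi A))) true true := by
          rcases pr_cases (v := fun t => W t * Ex N W n t (cfg T (chi A))) t3 (by linarith)
            (by linarith) with ⟨a, b⟩ | ⟨-, a, b⟩ | ⟨-, a, b⟩ <;> rw [a, b] <;> norm_num
        generalize hx : pr (fun t => W t * Ex N W n t (cfg T (chi A))) false true = x at t7
        generalize hy : pr (fun t => W t * Ex N W n t (cfg T (chi A))) true true = y at t7
        have t8 := sub_pos.2 t7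
        obtain ⟨M, hM⟩ := exists_nat_gt (1 / ε / (y - x) ^ 2)
        have M0 : 0 < M := Nat.cast_pos.1 (lt_trans (by positivity) hM)
        refine ⟨_, _, ext_emb a.2.1 t1 t6 E_wf M, fun h => maj M ((x + y) / 2) (sh n₁ h),
          fun h h' k => ?_, fun θ => ?_⟩
        · simp only [maj, cnt_dep M (sh n₁ h) (sh n₁ h') fun i hi => k _ (by simpa using hi)]
        · rw [Ex_emb t6 E (chi A) M θ _ (fun h => if maj M _ h = !θ then 1 else 0)
            ((cfg_dep le_rfl _).mono a.1) fun h e i hi => cfg_ne e i (t2 hi),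
            a.ex _ (cfg_dep le_rfl _), mul_comm]
          simp only [a.ex _ (cfg_dep t2 _)]
          refine mul_le_mul_of_nonneg_right ((E_learn hx hy t7 M0 θ).trans ?_)
            (Ex_nonneg (cfg_nonneg _ _))
          rw [div_lt_iff₀ (pow_pos t8 2)] at hM
          exact (one_div_le (by positivity) ε0).2 hM.le
      · refine ⟨n₁, N₁, ⟨le_rfl, a.2.1, fun _ _ => rfl, fun i a b => by omega⟩, fun _ => true,
          fun _ _ _ => rfl, fun θ => le_trans (Ex_mono fun h _ => mul_le_of_le_one_right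
            (cfg_nonneg _ _ _) (by split_ifs <;> norm_num)) ?_⟩
        have : Ex N W n θ (cfg (range n) (chi A)) = 0 :=
          le_antisymm (not_lt.1 fun k => c (Ex_pos true k)) (Ex_nonneg (cfg_nonneg _ _))
        rw [a.ex _ (cfg_dep le_rfl _), this, mul_zero])
    (range n).powerset
  choose! φ f1 f2 using e2
  refine ⟨n', N', e1, fun h => φ ((range n).filter (h · = true)) h, fun h h' k => ?_, ?_⟩
  · simp only []
    rw [filter_congr (q := (h' · = true)) fun i hi => by rw [k i (range_mono e1.1 hi)]]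
    exact f1 _ (mem_powerset.2 (filter_subset _ _)) _ _ k
  have k : ∀ θ, Ex N' W n' θ
      (fun h => if φ ((range n).filter (h · = true)) h = !θ then 1 else 0) ≤ ε := by
    intro θ
    rw [Ex_split (range n)]
    refine (sum_le_sum fun A hA => le_trans (Ex_mono fun h _ => le_of_eq ?_) (f2 A hA θ)).trans ?_
    · by_cases c : cfg (range n) (chi A) h = 0
      · simp [c]
      · rw [show (range n).filter (h · = true) = A from ?_]
        ext i
        rw [mem_filter]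
        exact ⟨fun k => by simpa [cfg_ne c i k.1, chi] using k.2,
          fun k => ⟨mem_powerset.1 hA k, by simp [cfg_ne c i (mem_powerset.1 hA k), chi, k]⟩⟩
    · rw [← mul_sum, ← Ex_sum]
      simp [sum_cfg, Ex_const]
  have k1 := k true
  have k2 := k false
  simp only [err, W, Bool.not_true, Bool.not_false] at *
  linarith

theorem step (wf : WF N) (hΓ : Γ ⊆ range n) (hI : Inv n N Γ) {ε : ℝ} (ε0 : 0 < ε) :
    ∃ n' N' g, Ext Γ n N n' N' ∧ n ≤ g ∧ g < n' ∧ err N' W (g + 1) (· g) ≤ ε ∧ Inv n' N' {g} := by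
  obtain ⟨g, N₁, e1, φ, e2, e3⟩ := learn wf hI ε0
  have e4 := ext_emb e1.2.1 (hΓ.trans (range_mono e1.1)) le_rfl E_wf 1
  have e5 : err (emb N₁ g (range g) E) W (g + 1) (· g) ≤ ε := by
    refine (bayes (e4.2.1 g) (φ := φ) fun h h' k => e2 _ _ fun i hi => k i ?_).trans ?_
    · exact (emb_add g 0 _ _).symm ▸ mem_union_left _ hi
    · unfold err at e3 ⊢
      rwa [Ex_net e4.2.2.1]
  have e6 := hI.ext (e1.trans e4)
  generalize emb N₁ g (range g) E = N₂ at *
  obtain ⟨n', N', e7, e8⟩ := all_ext (Γ := Γ) (n := g + 1) e4.2.1 (fun A n' N' => ∀ h,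
    (∀ i ∈ range (g + 1), h i = chi A i) → 0 < Ex N' W n' true (cfg (range n') h) →
      ∃ T, range (g + 1) ⊆ T ∧ T ⊆ range n' ∧
        Bd (W false * Ex N' W n' false (cfg T h)) (W true * Ex N' W n' true (cfg T h)))
    (fun A n₁ N₁ n₂ N₂ _ b c h d e => by
      obtain ⟨T, t1, t2, t3⟩ := c h d (b.pos e)
      exact ⟨T, t1, t2.trans (range_mono b.1), by
        rwa [b.ex _ (cfg_dep t2 _), b.ex _ (cfg_dep t2 _)]⟩)
    (fun A n₁ N₁ a => by
      by_cases c : 0 < Ex N₂ W (g + 1) true (cfg (range (g + 1)) (chi A))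
      · obtain ⟨T, t1, t2, t3⟩ := e6 _ c
        have t6 := t2.trans (range_mono a.1)
        obtain ⟨m, G, wf', hG⟩ := bal (w := fun t => W t * Ex N₂ W (g + 1) t (cfg T (chi A))) t3
          (mul_pos (show 0 < W false by simp [W]) (Ex_pos false c))
          (mul_pos (show 0 < W true by simp [W]) c)
        refine ⟨_, _, ext_emb a.2.1 t1 t6 wf' m, fun h d e => ?_⟩
        have p := (pos_split t6 e).2
        have q : cfg T h = cfg T (chi A) := cfg_congr fun i hi => d i (t2 hi)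
        simp only [a.ex _ (cfg_dep t2 _), q] at p
        obtain ⟨S, s1, s2⟩ := hG _ p
        refine ⟨_, subset_union_left, sub_range (range_mono a.1) s1, ?_⟩
        simpa only [Ex_emb_cfg t2 (range_mono a.1), a.ex _ (cfg_dep t2 _), q, cfg_congr d,
          a.ex _ (cfg_dep le_rfl _), mul_assoc] using s2
      · exact ⟨n₁, N₁, ⟨le_rfl, a.2.1, fun _ _ => rfl, fun i a b => by omega⟩, fun h d e =>
          absurd (by simpa only [cfg_congr d] using a.pos e) c⟩)
    (range (g + 1)).powerset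
  refine ⟨n', N', g, (e1.trans e4).trans e7, e1.1, e7.1, ?_, fun h hh => ?_⟩
  · unfold err at e5 ⊢
    rwa [Ex_net e7.2.2.1]
  · obtain ⟨T, t1, t2⟩ := e8 _ (mem_powerset.2 (filter_subset (h · = true) _)) h
      (fun i hi => by simp [chi, hi]) hh
    exact ⟨T, singleton_subset_iff.2 (t1 (by simp)), t2⟩

theorem exists_net : ∃ N, WF N ∧ Tendsto (fun i => err N W (i + 1) (· i)) atTop (𝓝 0) := by
  have key : ∀ (k : ℕ) (z : {z : ℕ × (ℕ → Finset ℕ) × Finset ℕ //
      WF z.2.1 ∧ z.2.2 ⊆ range z.1 ∧ Inv z.1 z.2.1 z.2.2}),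
      ∃ z' : {z : ℕ × (ℕ → Finset ℕ) × Finset ℕ //
        WF z.2.1 ∧ z.2.2 ⊆ range z.1 ∧ Inv z.1 z.2.1 z.2.2},
        Ext z.1.2.2 z.1.1 z.1.2.1 z'.1.1 z'.1.2.1 ∧ z.1.1 < z'.1.1 ∧ ∃ g < z'.1.1,
          z'.1.2.2 = {g} ∧ err z'.1.2.1 W (g + 1) (· g) ≤ 1 / (k + 1) := by
    rintro k ⟨⟨n, N, Γ⟩, a, b, c⟩
    obtain ⟨n', N', g, e1, e2, e3, e4, e5⟩ := step a b c (ε := 1 / (k + 1)) (by positivity)
    exact ⟨⟨(n', N', {g}), e1.2.1, by simpa using e3, e5⟩, e1, e2.trans_lt e3, g, e3, rfl, e4⟩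
  choose nx n1 n2 n3 using key
  obtain ⟨z, hz⟩ : ∃ z : ℕ → _, ∀ k, z (k + 1) = nx k (z k) :=
    ⟨fun k => Nat.rec ⟨(0, E, ∅), E_wf, le_rfl, fun h _ => ⟨∅, le_rfl, le_rfl, by
      norm_num [Bd, W, Ex_const]⟩⟩ nx k, fun _ => rfl⟩
  have a1 : StrictMono fun k => (z k).1.1 := strictMono_nat_of_lt_succ fun k => hz k ▸ n2 k _
  have a2 : ∀ j k, j ≤ k → ∀ i < (z j).1.1, (z k).1.2.1 i = (z j).1.2.1 i := by
    intro j k hjk i hi
    induction k, hjk using Nat.le_induction with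
    | base => rfl
    | succ k hjk ih => rw [hz, (n1 k _).2.2.1 i (hi.trans_le (a1.monotone hjk)), ih]
  set N : ℕ → Finset ℕ := fun i => (z (i + 1)).1.2.1 i with hN
  have a3 : ∀ k, ∀ i < (z k).1.1, N i = (z k).1.2.1 i := fun k i hi => by
    rcases le_total k (i + 1) with c | c
    · exact a2 _ _ c i hi
    · exact (a2 _ _ c i (a1.id_le (i + 1))).symm
  have wf : WF N := fun i => (z (i + 1)).2.1 i
  have a4 : ∀ k i, (z (k + 1)).1.1 ≤ i → err N W (i + 1) (· i) ≤ 1 / (k + 1) := by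
    intro k i hi
    have ex : ∃ j, i < (z (j + 1)).1.1 := ⟨i, a1.id_le (i + 1)⟩
    have b1 := Nat.find_spec ex
    have b2 := fun j => Nat.find_min ex (m := j)
    generalize Nat.find ex = j at b1 b2
    have b3 : k + 1 < j + 1 := a1.lt_iff_lt.1 (hi.trans_lt b1)
    obtain ⟨j, rfl⟩ := Nat.exists_eq_add_one_of_ne_zero (show j ≠ 0 by omega)
    have b4 := not_lt.1 (b2 j (by omega))
    obtain ⟨g, g1, g2, g3⟩ := n3 j (z j)
    rw [← hz] at g1 g2 g3
    have b5 : g ∈ N i := by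
      rw [a3 _ i b1, hz]
      exact (n1 _ _).2.2.2 i b4 (hz _ ▸ b1) (by simp [g2])
    refine (bayes (wf i) (φ := (· g)) fun h h' e => e g b5).trans (le_trans (le_of_eq ?_)
      (g3.trans (one_div_le_one_div_of_le (by positivity) (by exact_mod_cast (by omega)))))
    have d : ∀ b, Dep (g + 1) fun h => if h g = b then 1 else 0 := fun b h h' e => by
      simp only [e g (by omega)]
    unfold err
    rw [Ex_ext _ (d _) (by omega), Ex_ext _ (d _) (show g + 1 ≤ i by omega),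
      Ex_net fun i hi => a3 (j + 1) i (by omega)]
  refine ⟨N, wf, tendsto_order.2 ⟨fun a ha => .of_forall fun i => ha.trans_le ?_, fun a ha => ?_⟩⟩
  · refine add_nonneg (mul_nonneg ?_ (Ex_nonneg fun _ => ?_)) (mul_nonneg ?_ (Ex_nonneg fun _ => ?_))
    all_goals first | positivity | simp [W]
  · obtain ⟨k, hk⟩ := exists_nat_one_div_lt ha
    exact eventually_atTop.2 ⟨_, fun i hi => (a4 k i hi).trans_lt hk⟩

end Pool.Agent.H92.Learn
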