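import Pool.Agent.H92.Fourier1

set_option autoImplicit false
open MeasureTheory Set Real Complex

namespace Pool.Agent.H92.LiuWang
open Pool.Agent.H92.Fourier1

noncomputable def c (i n : ℤ) : ℂ :=
  if i = 0 ∧ (n = 0 ∨ n = 1) then 1 / 2 else if i = 1 ∧ n = 0 then 1 / 2
  else if i = 1 ∧ n = -1 then -1 / 2 else 0

lemma c_conj (i n : ℤ) : (starRingEnd ℂ) (c i n) = c i n := by
  unfold c; split_ifs <;> simp [map_ofNat]

lemma c_norm (i n : ℤ) : ‖c i n‖ ≤ 1 := by
  unfold c; split_ifs <;> simp <;> norm_num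

lemma c_ne {i n : ℤ} (h : c i n ≠ 0) : 0 ≤ i ∧ i ≤ 1 ∧ -1 ≤ n ∧ n ≤ 1 := by
  unfold c at h; split_ifs at h <;> first | omega | exact absurd rfl h

lemma step_int (s : Finset ℤ) (w : ℤ → ℂ) (hw : ∀ n, n ∉ s → w n = 0) (l : ℤ) :
    ∫ y : ℝ, w ⌊y⌋ * ex l y = if l = 0 then ∑ n ∈ s, w n else 0 := by
  have h1 : ∀ y : ℝ, w ⌊y⌋ * ex l y =
      ∑ n ∈ s, (Ico (n:ℝ) (n + 1)).indicator (fun y => w n * ex l y) y := by
    intro y
    by_cases hy : ⌊y⌋ ∈ s
    · rw [Finset.sum_eq_single ⌊y⌋]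
      · rw [indicator_of_mem]
        exact ⟨Int.floor_le y, Int.lt_floor_add_one y⟩
      · intro n _ hn
        rw [indicator_of_notMem]
        intro h
        exact hn (Int.floor_eq_iff.mpr h).symm
      · intro h; exact absurd hy h
    · rw [hw _ hy, zero_mul, Finset.sum_eq_zero]
      intro n hn
      rw [indicator_of_notMem]
      intro h
      exact hy (Int.floor_eq_iff.mpr h ▸ hn)
  simp_rw [h1]
  rw [integral_finsetSum]
  · have : ∀ n : ℤ, ∫ y : ℝ, (Ico (n:ℝ) (n + 1)).indicator (fun y => w n * ex l y) y =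
        if l = 0 then w n else 0 := by
      intro n
      rw [integral_indicator measurableSet_Ico, integral_const_mul]
      have := integral_ex_Ico one_pos (n:ℝ) l
      simp only [div_one] at this
      rw [this]; split_ifs <;> simp
    simp_rw [this]
    split_ifs <;> simp
  · intro n _
    rw [integrable_indicator_iff measurableSet_Ico]
    exact ((continuous_const.mul (ex_cont _)).integrableOn_Icc).mono_set Ico_subset_Icc_self

lemma comb (i i' d : ℤ) (hpar : Even (i - i' + d)) :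
    c i (-1) * c i' (-1 + d) + c i 0 * c i' d + c i 1 * c i' (1 + d) =
      if i = i' ∧ d = 0 ∧ (i = 0 ∨ i = 1) then 1 / 2 else 0 := by
  obtain ⟨r, hr⟩ := hpar
  by_cases h0 : i = 0 ∨ i = 1
  · by_cases h1 : i' = 0 ∨ i' = 1
    · by_cases h2 : -2 ≤ d ∧ d ≤ 2
      · obtain ⟨h2, h3⟩ := h2
        rcases h0 with rfl | rfl <;> rcases h1 with rfl | rfl <;> interval_cases d <;>
          first | omega | (simp [c]; try norm_num)
      · have e1 : c i' (-1 + d) = 0 := by
          by_contra h; have := c_ne h; omega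
        have e2 : c i' d = 0 := by
          by_contra h; have := c_ne h; omega
        have e3 : c i' (1 + d) = 0 := by
          by_contra h; have := c_ne h; omega
        rw [e1, e2, e3, if_neg (by omega)]; simp
    · have e : ∀ n, c i' n = 0 := by
        intro n; by_contra h; have := c_ne h; omega
      rw [e, e, e, if_neg (by omega)]; simp
  · have e : ∀ n, c i n = 0 := by
      intro n; by_contra h; have := c_ne h; omega
    rw [e, e, e, if_neg (by omega)]; simp

lemma inner_y (x : ℝ) (a b a' b' l : ℤ) (h : Even (a + b)) (h' : Even (a' + b')) :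
    ∫ y : ℝ, c (⌊x⌋ - a) (⌊y⌋ - b) * c (⌊x⌋ - a') (⌊y⌋ - b') * ex l y =
      if l = 0 ∧ a = a' ∧ b = b' then (Ico (a:ℝ) (a + 2)).indicator (fun _ => (1/2 : ℂ)) x
      else 0 := by
  have := step_int {b - 1, b, b + 1} (fun n => c (⌊x⌋ - a) (n - b) * c (⌊x⌋ - a') (n - b'))
    (by
      intro n hn
      have : c (⌊x⌋ - a) (n - b) = 0 := by
        by_contra h; have := c_ne h
        simp only [Finset.mem_insert, Finset.mem_singleton] at hn; omega
      simp [this]) l
  rw [this]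
  by_cases hl : l = 0
  · rw [if_pos hl, Finset.sum_insert (by simp; omega), Finset.sum_pair (by omega)]
    have hc := comb (⌊x⌋ - a) (⌊x⌋ - a') (b - b') (by
      obtain ⟨r, hr⟩ := h; obtain ⟨r', hr'⟩ := h'
      exact ⟨r' - r + b - b', by omega⟩)
    rw [show b - 1 - b = -1 by ring, show b - 1 - b' = -1 + (b - b') by ring,
      show b - b = 0 by ring, show b + 1 - b = 1 by ring, show b + 1 - b' = 1 + (b - b') by ring,
      ← add_assoc, hc]
    by_cases hab : a = a' ∧ b = b'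
    · obtain ⟨rfl, rfl⟩ := hab
      rw [if_pos (show l = 0 ∧ a = a ∧ b = b from ⟨hl, rfl, rfl⟩)]
      by_cases hx : x ∈ Ico (a:ℝ) (a + 2)
      · rw [indicator_of_mem hx, if_pos]
        refine ⟨rfl, by ring, ?_⟩
        have h1 : a ≤ ⌊x⌋ := Int.le_floor.mpr hx.1
        have h2 : ⌊x⌋ < a + 2 := Int.floor_lt.mpr (by push_cast; exact hx.2)
        omega
      · rw [indicator_of_notMem hx, if_neg]
        rintro ⟨-, -, h3⟩
        apply hx
        have h1 : a ≤ ⌊x⌋ := by omega
        have h2 : ⌊x⌋ < a + 2 := by omega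
        exact ⟨Int.le_floor.mp h1, by have := Int.floor_lt.mp h2; push_cast at this; exact this⟩
    · rw [if_neg (by omega), if_neg (by tauto)]
  · rw [if_neg hl, if_neg (by tauto)]

lemma meas_c (a b : ℤ) : Measurable (fun p : ℝ × ℝ => c (⌊p.1⌋ - a) (⌊p.2⌋ - b)) := by
  have h1 : Measurable (fun q : ℤ × ℤ => c (q.1 - a) (q.2 - b)) := measurable_of_countable _
  have h2 : Measurable (fun p : ℝ × ℝ => (⌊p.1⌋, ⌊p.2⌋)) := by fun_prop
  exact h1.comp h2

lemma memLp_c (a b : ℤ) (q : ENNReal) :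
    MemLp (fun p : ℝ × ℝ => c (⌊p.1⌋ - a) (⌊p.2⌋ - b)) q volume := by
  have hK : IsCompact (Icc (a:ℝ) (a + 2) ×ˢ Icc (b - 1 : ℝ) (b + 2)) :=
    isCompact_Icc.prod isCompact_Icc
  have h1 : MemLp ((Icc (a:ℝ) (a + 2) ×ˢ Icc (b - 1 : ℝ) (b + 2)).indicator (fun _ => (1:ℝ))) q
      (volume : Measure (ℝ × ℝ)) :=
    memLp_indicator_const q hK.measurableSet 1 (Or.inr hK.measure_lt_top.ne)
  refine h1.of_le (meas_c a b).aestronglyMeasurable (Filter.Eventually.of_forall fun p => ?_)
  by_cases h : c (⌊p.1⌋ - a) (⌊p.2⌋ - b) = 0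
  · rw [h]; simp
  · have := c_ne h
    rw [indicator_of_mem]
    · simpa using c_norm _ _
    · have h1 : a ≤ ⌊p.1⌋ := by omega
      have h2 : ⌊p.1⌋ < a + 2 := by omega
      have h3 : b - 1 ≤ ⌊p.2⌋ := by omega
      have h4 : ⌊p.2⌋ < b + 2 := by omega
      have h1' := Int.le_floor.mp h1
      have h2' := Int.floor_lt.mp h2
      have h3' := Int.le_floor.mp h3
      have h4' := Int.floor_lt.mp h4
      push_cast at *
      exact ⟨⟨h1', h2'.le⟩, h3', h4'.le⟩

lemma inner_prod (a b a' b' k l : ℤ) (h : Even (a + b)) (h' : Even (a' + b')) :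
    ∫ p : ℝ × ℝ, c (⌊p.1⌋ - a) (⌊p.2⌋ - b) * c (⌊p.1⌋ - a') (⌊p.2⌋ - b') * ex l p.2
      * ex (k / 2) p.1 = if k = 0 ∧ l = 0 ∧ a = a' ∧ b = b' then 1 else 0 := by
  have hint : Integrable (fun p : ℝ × ℝ => c (⌊p.1⌋ - a) (⌊p.2⌋ - b) * c (⌊p.1⌋ - a') (⌊p.2⌋ - b')
      * ex l p.2 * ex (k / 2) p.1) (volume.prod volume) := by
    have h0 : Integrable (fun p : ℝ × ℝ => c (⌊p.1⌋ - a) (⌊p.2⌋ - b)) volume :=
      memLp_one_iff_integrable.mp (memLp_c a b 1)
    refine Integrable.mul_bdd (c := 1) (Integrable.mul_bdd (c := 1) (Integrable.mul_bdd (c := 1)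
      h0 (meas_c a' b').aestronglyMeasurable ?_) ?_ ?_) ?_ ?_
    · exact Filter.Eventually.of_forall fun p => c_norm _ _
    · exact ((ex_cont _).comp continuous_snd).aestronglyMeasurable
    · exact Filter.Eventually.of_forall fun p => (ex_norm _ _).le
    · exact ((ex_cont _).comp continuous_fst).aestronglyMeasurable
    · exact Filter.Eventually.of_forall fun p => (ex_norm _ _).le
  rw [Measure.volume_eq_prod, integral_prod _ hint]
  simp_rw [integral_mul_const, inner_y _ a b a' b' l h h']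
  by_cases hc : l = 0 ∧ a = a' ∧ b = b'
  · simp_rw [if_pos hc]
    have : ∀ x : ℝ, (Ico (a:ℝ) (a + 2)).indicator (fun _ => (1/2 : ℂ)) x * ex (k / 2) x =
        (Ico (a:ℝ) (a + 2)).indicator (fun x => (1/2 : ℂ) * ex (k / 2) x) x := by
      intro x; by_cases hx : x ∈ Ico (a:ℝ) (a + 2) <;> simp [hx]
    simp_rw [this]
    rw [integral_indicator measurableSet_Ico, integral_const_mul, integral_ex_Ico two_pos]
    by_cases hk : k = 0
    · simp [hk, hc]
    · simp [hk]
  · simp_rw [if_neg hc]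
    rw [if_neg (by tauto)]; simp

lemma complete (f : ℝ × ℝ → ℂ) (hf : MemLp f 2 volume)
    (H : ∀ a b k l : ℤ, Even (a + b) →
      ∫ p : ℝ × ℝ, f p * c (⌊p.1⌋ - a) (⌊p.2⌋ - b) * ex l p.2 * ex (k / 2) p.1 = 0) :
    f =ᵐ[volume] 0 := by
  have hint0 : ∀ a b l : ℤ, Integrable (fun p : ℝ × ℝ => f p * c (⌊p.1⌋ - a) (⌊p.2⌋ - b)
      * ex l p.2) (volume.prod volume) := by
    intro a b l
    have h0 : Integrable (fun p : ℝ × ℝ => f p * c (⌊p.1⌋ - a) (⌊p.2⌋ - b)) volume :=
      MemLp.integrable_mul hf (memLp_c a b 2)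
    refine Integrable.mul_bdd (c := 1) h0 ?_ ?_
    · exact ((ex_cont _).comp continuous_snd).aestronglyMeasurable
    · exact Filter.Eventually.of_forall fun p => (ex_norm _ _).le
  have step1 : ∀ a b l : ℤ, Even (a + b) → ∀ᵐ x : ℝ,
      ∫ y : ℝ, f (x, y) * c (⌊x⌋ - a) (⌊y⌋ - b) * ex l y = 0 := by
    intro a b l hab
    have hG := (hint0 a b l).integral_prod_left
    have hz : ∀ x : ℝ, x ∉ Ico (a:ℝ) (a + 2) →
        ∫ y : ℝ, f (x, y) * c (⌊x⌋ - a) (⌊y⌋ - b) * ex l y = 0 := by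
      intro x hx
      have : ∀ n, c (⌊x⌋ - a) n = 0 := by
        intro n; by_contra h; have := c_ne h
        apply hx
        have h1 : a ≤ ⌊x⌋ := by omega
        have h2 : ⌊x⌋ < a + 2 := by omega
        exact ⟨Int.le_floor.mp h1, by have := Int.floor_lt.mp h2; push_cast at this; exact this⟩
      simp [this]
    have := uniq1' two_pos (a:ℝ) _ hG.integrableOn (by
      intro k
      rw [setIntegral_eq_integral_of_forall_compl_eq_zero (fun x hx => by
        simp only []; rw [hz x hx, zero_mul])]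
      have hint : Integrable (fun p : ℝ × ℝ => f p * c (⌊p.1⌋ - a) (⌊p.2⌋ - b)
          * ex l p.2 * ex (k / 2) p.1) (volume.prod volume) := by
        refine Integrable.mul_bdd (c := 1) (hint0 a b l) ?_ ?_
        · exact ((ex_cont _).comp continuous_fst).aestronglyMeasurable
        · exact Filter.Eventually.of_forall fun p => (ex_norm _ _).le
      have h1 := H a b k l hab
      rw [Measure.volume_eq_prod, integral_prod _ hint] at h1
      simp_rw [integral_mul_const] at h1
      exact h1)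
    filter_upwards [this] with x hx
    by_cases hx' : x ∈ Ico (a:ℝ) (a + 2)
    · exact hx hx'
    · exact hz x hx'
  have step2 : ∀ᵐ x : ℝ, ∀ a b l : ℤ, Even (a + b) →
      ∫ y : ℝ, f (x, y) * c (⌊x⌋ - a) (⌊y⌋ - b) * ex l y = 0 := by
    simp only [ae_all_iff]
    intro a b l hab
    exact step1 a b l hab
  have step3 : ∀ᵐ x : ℝ, ∀ a b l : ℤ, Integrable (fun y : ℝ =>
      f (x, y) * c (⌊x⌋ - a) (⌊y⌋ - b) * ex l y) := by
    simp only [ae_all_iff]
    intro a b l
    exact (hint0 a b l).prod_right_ae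
  have step4 : ∀ᵐ x : ℝ, ∀ᵐ y : ℝ, f (x, y) = 0 := by
    filter_upwards [step2, step3] with x h2 h3
    have key : ∀ n : ℤ, ∀ᵐ y : ℝ, y ∈ Ico (n:ℝ) (n + 1) → f (x, y) = 0 := by
      intro n
      -- choose b with b ≡ ⌊x⌋ mod 2 and n ∈ {b, b+1}
      obtain ⟨b, hb, σ, hσ⟩ : ∃ b : ℤ, Even (⌊x⌋ + b) ∧ ∃ σ : ℂ, ∀ y : ℝ,
          c 0 (⌊y⌋ - b) + σ * c 1 (⌊y⌋ - (b + 1)) =
            (Ico (n:ℝ) (n + 1)).indicator (fun _ => (1:ℂ)) y := by
        have hind : ∀ y : ℝ, (Ico (n:ℝ) (n + 1)).indicator (fun _ => (1:ℂ)) y =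
            if ⌊y⌋ = n then 1 else 0 := by
          intro y
          by_cases hy : ⌊y⌋ = n
          · rw [if_pos hy, indicator_of_mem (show y ∈ Ico (n:ℝ) (n + 1) from Int.floor_eq_iff.mp hy)]
          · rw [if_neg hy, indicator_of_notMem
              (show y ∉ Ico (n:ℝ) (n + 1) from fun h => hy (Int.floor_eq_iff.mpr h))]
        rcases Int.even_or_odd (⌊x⌋ + n) with h | h
        · refine ⟨n, h, -1, fun y => ?_⟩
          rw [hind]; unfold c
          split_ifs <;> first | omega | norm_num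
        · refine ⟨n - 1, by obtain ⟨r, hr⟩ := h; exact ⟨r, by omega⟩, 1, fun y => ?_⟩
          rw [hind]; unfold c
          split_ifs <;> first | omega | norm_num
      have e1 : ∀ (l : ℤ) (y : ℝ), (Ico (n:ℝ) (n + 1)).indicator (fun y => f (x, y) * ex l y) y =
          f (x, y) * c (⌊x⌋ - ⌊x⌋) (⌊y⌋ - b) * ex l y +
          σ * (f (x, y) * c (⌊x⌋ - (⌊x⌋ - 1)) (⌊y⌋ - (b + 1)) * ex l y) := by
        intro l y
        rw [sub_self, sub_sub_cancel]
        have := hσ y
        by_cases hy : y ∈ Ico (n:ℝ) (n + 1)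
        · rw [indicator_of_mem hy] at this ⊢
          linear_combination (-(f (x, y) * ex l y)) * this
        · rw [indicator_of_notMem hy] at this ⊢
          linear_combination (-(f (x, y) * ex l y)) * this
      have hb' : Even (⌊x⌋ - 1 + (b + 1)) := by
        rw [show ⌊x⌋ - 1 + (b + 1) = ⌊x⌋ + b by ring]; exact hb
      refine uniq1' one_pos (n:ℝ) (fun y => f (x, y)) ?_ ?_
      · have h5 : Integrable ((Ico (n:ℝ) (n + 1)).indicator (fun y => f (x, y) * ex (0:ℤ) y)) := by
          rw [funext (e1 0)]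
          exact (h3 _ _ _).add ((h3 _ _ _).const_mul σ)
        rw [integrable_indicator_iff measurableSet_Ico] at h5
        simpa [ex_zero_left] using h5
      · intro l
        rw [div_one, ← integral_indicator measurableSet_Ico, funext (e1 l),
          integral_add (h3 _ _ _) ((h3 _ _ _).const_mul σ), integral_const_mul,
          h2 _ _ _ hb, h2 _ _ _ hb']
        simp
    have := ae_all_iff.mpr key
    filter_upwards [this] with y hy
    exact hy ⌊y⌋ ⟨Int.floor_le y, Int.lt_floor_add_one y⟩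
  obtain ⟨f', hf'm, hff'⟩ := hf.aestronglyMeasurable
  have h6 : ∀ᵐ x : ℝ, ∀ᵐ y : ℝ, f (x, y) = f' (x, y) := by
    rw [Measure.volume_eq_prod] at hff'
    exact Measure.ae_ae_of_ae_prod hff'
  have h7 : ∀ᵐ p : ℝ × ℝ, f' p = 0 := by
    rw [Measure.volume_eq_prod, Measure.ae_prod_iff_ae_ae]
    · filter_upwards [step4, h6] with x h1 h2
      filter_upwards [h1, h2] with y h3 h4
      rw [← h4, h3]
    · exact hf'm.measurable (measurableSet_singleton 0)
  filter_upwards [hff', h7] with p h1 h2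
  rw [h1, h2]; rfl

end Pool.Agent.H92.LiuWang
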