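import Mathlib

set_option autoImplicit false
open MeasureTheory Set Filter Topology
open scoped ENNReal NNReal

namespace Pool.Agent.H92.MaxVar

noncomputable def c (k : ℕ) : ℝ := 15 / 16 * (1 / 16) ^ k
def N (k : ℕ) : ℕ := 100 * (k + 1) * 16 ^ k
noncomputable def θ (k : ℕ) : ℝ := c k / (270 * N k)
noncomputable def e : ℕ → ℝ
  | 0 => 1
  | k + 1 => e k * θ k / (8 * (N k : ℝ) ^ 2)

lemma c_pos (k : ℕ) : 0 < c k := by unfold c; positivity
lemma N_pos (k : ℕ) : 1 ≤ N k := Nat.one_le_iff_ne_zero.mpr (by unfold N; positivity)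
lemma N_pos' (k : ℕ) : (1:ℝ) ≤ N k := by exact_mod_cast N_pos k
lemma c_le (k : ℕ) : c k ≤ 1 := by
  unfold c
  have : ((1:ℝ) / 16) ^ k ≤ 1 := pow_le_one₀ (by norm_num) (by norm_num)
  linarith
lemma θ_pos (k : ℕ) : 0 < θ k := by have := c_pos k; have := N_pos' k; unfold θ; positivity
lemma θ_le (k : ℕ) : θ k ≤ 1 / 270 := by
  have := c_le k; have := N_pos' k
  unfold θ; rw [div_le_iff₀ (by positivity)]; linarith
lemma e_pos (k : ℕ) : 0 < e k := by
  induction k with
  | zero => simp [e]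
  | succ k ih => have := θ_pos k; have := N_pos' k; unfold e; positivity
lemma e_anti : Antitone e := antitone_nat_of_succ_le fun k => by
  have := θ_le k; have := N_pos' k; have := e_pos k
  rw [e, div_le_iff₀ (by positivity)]
  refine mul_le_mul_of_nonneg_left ?_ this.le
  nlinarith
lemma e_le (k : ℕ) : e k ≤ 1 := e_anti (Nat.zero_le k)

lemma c_sum (k : ℕ) : HasSum (fun j => c (j + k)) ((1 / 16) ^ k) := by
  have := (hasSum_geometric_of_lt_one (r := (1 / 16 : ℝ)) (by norm_num) (by norm_num)).mul_left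
    (15 / 16 * (1 / 16) ^ k)
  have e1 : (fun j => c (j + k)) = fun i => 15 / 16 * (1 / 16) ^ k * (1 / 16) ^ i := by
    ext j; unfold c; ring
  rw [show 15 / 16 * ((1:ℝ) / 16) ^ k * (1 - 1 / 16)⁻¹ = (1 / 16) ^ k by ring_nf] at this
  rw [e1]; exact this

noncomputable def φk (k : ℕ) (u : ℝ) : ℝ :=
  c k / (2 * e (k + 1)) * ((Ioo 1 (1 + e (k + 1))).indicator 1 u + (Ioo 2 (2 + e (k + 1))).indicator 1 u)

noncomputable def φ (u : ℝ) : ℝ := ∑' k, φk k u

noncomputable def I (k : ℕ) (D : Set ℝ) : ℝ :=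
  c k / (2 * e (k + 1)) * (volume.real (Ioo 1 (1 + e (k + 1)) ∩ D) + volume.real (Ioo 2 (2 + e (k + 1)) ∩ D))

lemma φk_nonneg (k : ℕ) (u : ℝ) : 0 ≤ φk k u := by
  have := c_pos k; have := e_pos (k + 1)
  exact mul_nonneg (by positivity) (add_nonneg (indicator_nonneg (by simp) _) (indicator_nonneg (by simp) _))

lemma φ_nonneg (u : ℝ) : 0 ≤ φ u := tsum_nonneg fun k => φk_nonneg k u

lemma φ_neg {u : ℝ} (hu : u ≤ 0) : φ u = 0 := by
  have : ∀ k, φk k u = 0 := fun k => by
    rw [φk, indicator_of_notMem (fun h => by linarith [h.1]), indicator_of_notMem (fun h => by linarith [h.1])]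
    simp
  simp [φ, this]

lemma vol_le (a r : ℝ) (hr : 0 ≤ r) (D : Set ℝ) : volume.real (Ioo a (a + r) ∩ D) ≤ r :=
  (measureReal_mono inter_subset_left (by simp)).trans (by simp [hr])

lemma I_nonneg (k : ℕ) (D : Set ℝ) : 0 ≤ I k D := by
  have := c_pos k; have := e_pos (k + 1)
  unfold I; positivity

lemma I_le (k : ℕ) (D : Set ℝ) : I k D ≤ c k := by
  have := c_pos k; have h := e_pos (k + 1)
  have h1 := vol_le 1 _ h.le D
  have h2 := vol_le 2 _ h.le D
  calc _ ≤ c k / (2 * e (k + 1)) * (e (k + 1) + e (k + 1)) := by unfold I; gcongr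
    _ = _ := by field_simp; ring

lemma I_summable (D : Set ℝ) : Summable fun k => I k D :=
  Summable.of_nonneg_of_le (fun k => I_nonneg k D) (fun k => I_le k D) (by simpa using (c_sum 0).summable)

lemma hasSum_I {D : Set ℝ} (hD : MeasurableSet D) :
    HasSum (fun k => I k D) (∫ u, φ u * D.indicator 1 u) := by
  have e1 : ∀ k u, φk k u * D.indicator 1 u = c k / (2 * e (k + 1)) *
      ((Ioo 1 (1 + e (k + 1)) ∩ D).indicator 1 u + (Ioo 2 (2 + e (k + 1)) ∩ D).indicator 1 u) := by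
    intro k u
    rw [φk, inter_indicator_one, inter_indicator_one]
    simp only [Pi.mul_apply]; ring
  have hi : ∀ a r : ℝ, Integrable ((Ioo a (a + r) ∩ D).indicator (1 : ℝ → ℝ)) := fun a r =>
    (integrable_indicator_iff (measurableSet_Ioo.inter hD)).mpr
      (integrableOn_const (((measure_mono inter_subset_left).trans_lt (by simp)).ne))
  have e2 : ∀ k, ∫ u, φk k u * D.indicator 1 u = I k D := fun k => by
    simp only [e1]
    rw [integral_const_mul, integral_add (hi _ _) (hi _ _),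
      integral_indicator_one (measurableSet_Ioo.inter hD),
      integral_indicator_one (measurableSet_Ioo.inter hD), I]
  have := hasSum_integral_of_summable_integral_norm (μ := volume)
    (F := fun k u => φk k u * D.indicator 1 u)
    (fun k => by simp only [e1]; exact ((hi _ _).add (hi _ _)).const_mul _) (by
      refine (I_summable D).congr fun k => ?_
      rw [← e2]
      congr 1; ext u
      rw [Real.norm_of_nonneg (mul_nonneg (φk_nonneg k u) (indicator_nonneg (by simp) _))])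
  simp only [e2, tsum_mul_right] at this
  exact this

lemma φ_int : ∫ u, φ u = 1 := by
  have h := hasSum_I MeasurableSet.univ
  have : (fun k => I k univ) = fun k => c (k + 0) := by
    ext k
    have := e_pos (k + 1)
    simp [I, this.le]; field_simp; ring
  rw [this] at h
  simpa using h.unique (c_sum 0)

lemma φ_integrable : Integrable φ := Integrable.of_integral_ne_zero (by rw [φ_int]; simp)

noncomputable def ψ (u : ℝ) : ℝ := (φ u + φ (-u)) / 2

lemma ψ_integrable : Integrable ψ := (φ_integrable.add φ_integrable.comp_neg).div_const 2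

lemma ψ_int : ∫ u, ψ u = 1 := by
  unfold ψ
  rw [integral_div, integral_add φ_integrable φ_integrable.comp_neg, integral_neg_eq_self φ, φ_int]
  norm_num

lemma ψ_ind {D : Set ℝ} (hD : ∀ u ∈ D, 0 ≤ u) :
    ∫ u, ψ u * D.indicator 1 u = (∫ u, φ u * D.indicator 1 u) / 2 := by
  rw [← integral_div]
  congr 1; ext u
  by_cases h : u ∈ D
  · rw [ψ, φ_neg (neg_nonpos.mpr (hD u h))]; ring
  · simp [h]

/-- centres of the bumps -/
def S (n : ℕ) : Finset ℤ :=
  (Finset.range n).image (fun i : ℕ => (n * i : ℤ)) ∪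
    (Finset.range (2 * n)).image (fun j : ℕ => (-j - n ^ 2 : ℤ))

lemma S_card (n : ℕ) : (S n).card ≤ 3 * n :=
  (Finset.card_union_le _ _).trans (by
    have h1 := Finset.card_image_le (s := Finset.range n) (f := fun i : ℕ => (n * i : ℤ))
    have h2 := Finset.card_image_le (s := Finset.range (2 * n)) (f := fun j : ℕ => (-j - n ^ 2 : ℤ))
    simp only [Finset.card_range] at h1 h2
    omega)

lemma S_bd {n : ℕ} {b : ℤ} (hb : b ∈ S n) : (b:ℝ) + 1 ≤ (n:ℝ) ^ 2 ∧ -3 * (n:ℝ) ^ 2 ≤ b := by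
  have : b + 1 ≤ (n:ℤ) ^ 2 ∧ -3 * (n:ℤ) ^ 2 ≤ b := by
    simp only [S, Finset.mem_union, Finset.mem_image, Finset.mem_range] at hb
    rcases hb with ⟨i, hi, rfl⟩ | ⟨j, hj, rfl⟩
    · have : (i:ℤ) + 1 ≤ n := by exact_mod_cast hi
      have : (0:ℤ) ≤ i := by positivity
      constructor <;> nlinarith
    · have : (j:ℤ) + 1 ≤ 2 * n := by exact_mod_cast hj
      have : (0:ℤ) ≤ j := by positivity
      have : (1:ℤ) ≤ n := by omega
      constructor <;> nlinarith
  exact_mod_cast this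

def B (n : ℕ) (w : ℝ) : Set ℝ := ⋃ b ∈ S n, Icc ((b:ℝ) - w) (b + w)

lemma B_meas (n : ℕ) (w : ℝ) : MeasurableSet (B n w) :=
  Finset.measurableSet_biUnion _ fun _ _ => measurableSet_Icc

def D (n : ℕ) (w x t : ℝ) : Set ℝ := {u | x - t * u ∈ B n w}

lemma D_meas (n : ℕ) (w x t : ℝ) : MeasurableSet (D n w x t) :=
  (B_meas n w).preimage (f := fun u => x - t * u) (by fun_prop)

lemma mem_D {n : ℕ} {w x t u : ℝ} :
    u ∈ D n w x t ↔ ∃ b ∈ S n, (b:ℝ) - w ≤ x - t * u ∧ x - t * u ≤ b + w := by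
  simp only [D, B, mem_ofPred_eq, mem_iUnion, mem_Icc, exists_prop]

noncomputable def w (k : ℕ) : ℝ := e k * θ k

lemma w_pos (k : ℕ) : 0 < w k := mul_pos (e_pos k) (θ_pos k)
lemma w_le (k : ℕ) : w k ≤ 1 / 270 := by
  have := mul_le_mul (e_le k) (θ_le k) (θ_pos k).le zero_le_one
  unfold w; linarith
lemma e_w (k : ℕ) : e (k + 1) * (8 * (N k : ℝ) ^ 2) = w k := by
  have := N_pos' k
  rw [e, w]; field_simp

lemma good (k m : ℕ) (hm : m < 2 * N k ^ 2) : ∃ t > 0,
    c k ≤ ∫ u, φ u * (D (N k) (w k) ((N k : ℝ) ^ 2 + m) t).indicator 1 u := by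
  have n1 := N_pos k
  set n := N k with hn
  obtain ⟨i, j, hi, hj, rfl⟩ : ∃ i j : ℕ, i < n ∧ j < 2 * n ∧ m = 2 * n * i + j :=
    ⟨m / (2 * n), m % (2 * n), Nat.div_lt_of_lt_mul (by nlinarith), Nat.mod_lt _ (by omega),
      (Nat.div_add_mod _ _).symm⟩
  have hi' : (i:ℝ) ≤ n := by exact_mod_cast hi.le
  have hj' : (j:ℝ) ≤ 2 * n := by exact_mod_cast hj.le
  have n1' : (1:ℝ) ≤ n := by exact_mod_cast n1
  have ht : (n:ℝ) * i + j + n ^ 2 ≤ 8 * n ^ 2 := by nlinarith
  have he := e_pos (k + 1)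
  have hw := e_w k
  have w0 := w_pos k
  rw [← hn] at hw
  have t0 : 0 < (n:ℝ) * i + j + n ^ 2 := by positivity
  refine ⟨n * i + j + n ^ 2, t0, le_trans (le_of_eq ?_)
    (le_hasSum (hasSum_I (D_meas _ _ _ _)) k fun j _ => I_nonneg _ _)⟩
  have key : ∀ s, 0 < s → s < e (k + 1) → 0 ≤ ((n:ℝ) * i + j + n ^ 2) * s ∧
      ((n:ℝ) * i + j + n ^ 2) * s ≤ w k := fun s h1 h2 =>
    ⟨by positivity, by rw [← hw, mul_comm]; gcongr⟩
  rw [I, inter_eq_left.mpr, inter_eq_left.mpr]
  · simp [he.le]; field_simp; ring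
  · intro u hu
    have := key (u - 2) (by linarith [hu.1]) (by linarith [hu.2])
    refine mem_D.mpr ⟨-j - n ^ 2, Finset.mem_union_right _
      (Finset.mem_image_of_mem _ (Finset.mem_range.mpr hj)), ?_, ?_⟩ <;> push_cast <;> nlinarith
  · intro u hu
    have := key (u - 1) (by linarith [hu.1]) (by linarith [hu.2])
    refine mem_D.mpr ⟨n * i, Finset.mem_union_left _
      (Finset.mem_image_of_mem _ (Finset.mem_range.mpr hi)), ?_, ?_⟩ <;> push_cast <;> nlinarith

lemma small (k : ℕ) {x t a r : ℝ} (hx : (N k : ℝ) ^ 2 ≤ x) (ht : 0 < t) (ha : a + r ≤ 3) :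
    volume.real (Ioo a (a + r) ∩ D (N k) (w k) x t) ≤ 24 * N k * w k := by
  have w0 := w_pos k
  have w1 := w_le k
  by_cases h : t < 1 / 4
  · rw [eq_empty_of_forall_notMem (s := Ioo a (a + r) ∩ _)]
    · simp; positivity
    · rintro u ⟨hu, hD⟩
      obtain ⟨b, hb, h1, h2⟩ := mem_D.mp hD
      have := (S_bd hb).1
      have : t * u ≤ t * 3 := by gcongr; linarith [hu.2]
      linarith
  · push Not at h
    have : Ioo a (a + r) ∩ D (N k) (w k) x t ⊆ ⋃ b ∈ S (N k), Icc ((x - b - w k) / t) ((x - b + w k) / t) := by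
      rintro u ⟨-, hD⟩
      obtain ⟨b, hb, h1, h2⟩ := mem_D.mp hD
      refine mem_biUnion hb ⟨?_, ?_⟩
      · rw [div_le_iff₀ ht]; linarith
      · rw [le_div_iff₀ ht]; linarith
    refine (measureReal_mono this (measure_biUnion_ne_top (Finset.finite_toSet _) fun _ _ => by simp)).trans
      ((measureReal_biUnion_finset_le _ _).trans ?_)
    refine (Finset.sum_le_card_nsmul _ _ (8 * w k) fun b _ => ?_).trans ?_
    · rw [Real.volume_real_Icc_of_le (by gcongr; linarith), ← sub_div, div_le_iff₀ ht]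
      nlinarith
    · have : ((S (N k)).card : ℝ) ≤ 3 * N k := by exact_mod_cast S_card _
      rw [nsmul_eq_mul]; nlinarith

lemma bad (k m : ℕ) (hm : m < 2 * N k ^ 2) {t : ℝ} (ht : 0 < t) :
    ∫ u, φ u * (D (N k) (w k) ((N k : ℝ) ^ 2 + (m + 1 / 2)) t).indicator 1 u ≤ 2 / 3 * c k := by
  set x : ℝ := (N k : ℝ) ^ 2 + (m + 1 / 2) with hxdef
  have hx : (N k : ℝ) ^ 2 ≤ x := le_add_of_nonneg_right (by positivity)
  have hm' : (m:ℝ) + 1 ≤ 2 * N k ^ 2 := by exact_mod_cast hm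
  have n1 := N_pos' k
  have w0 := w_pos k
  have w1 := w_le k
  have c0 := c_pos k
  set E := D (N k) (w k) x t
  rw [← (hasSum_I (D_meas _ _ _ _)).tsum_eq, ← (I_summable E).sum_add_tsum_nat_add (k + 1),
    Finset.sum_range_succ]
  have h1 : ∑ j ∈ Finset.range k, I j E ≤ 24 / 270 * c k := by
    calc _ ≤ ∑ j ∈ Finset.range k, c j * (24 / 270 * c k) := by
          refine Finset.sum_le_sum fun j hj => ?_
          have a1 := small k hx ht (a := 1) (r := e (j + 1)) (by linarith [e_le (j + 1)])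
          have a2 := small k hx ht (a := 2) (r := e (j + 1)) (by linarith [e_le (j + 1)])
          have a3 : e k ≤ e (j + 1) := e_anti (Finset.mem_range.mp hj)
          have := e_pos k
          have := c_pos j
          calc _ ≤ c j / (2 * e k) * (24 * N k * w k + 24 * N k * w k) := by unfold I; gcongr
            _ = _ := by unfold w θ; field_simp; ring
      _ ≤ 1 * (24 / 270 * c k) := by
          rw [← Finset.sum_mul]
          gcongr
          simpa using sum_le_hasSum (Finset.range k) (fun j _ => (c_pos _).le) (c_sum 0)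
      _ = _ := one_mul _
  have h2 : ∑' j, I (j + (k + 1)) E ≤ 1 / 15 * c k := by
    refine (((summable_nat_add_iff _).mpr (I_summable E)).tsum_le_tsum (fun j => I_le _ _)
      (c_sum (k + 1)).summable).trans (le_of_eq ?_)
    rw [(c_sum (k + 1)).tsum_eq, c]; ring
  have h3 : I k E ≤ 1 / 2 * c k := by
    have he := e_pos (k + 1)
    have : Ioo 1 (1 + e (k + 1)) ∩ E = ∅ ∨ Ioo 2 (2 + e (k + 1)) ∩ E = ∅ := by
      by_contra hc
      push Not at hc
      obtain ⟨⟨u, hu, hD⟩, ⟨v, hv, hD'⟩⟩ := hc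
      obtain ⟨b, hb, p1, p2⟩ := mem_D.mp hD
      obtain ⟨b', hb', p3, p4⟩ := mem_D.mp hD'
      have q1 := (S_bd hb).2
      have q2 : t * 1 ≤ t * u := by gcongr; exact hu.1.le
      have q3 : t * e (k + 1) ≤ w k := by rw [← e_w, mul_comm]; gcongr; nlinarith
      have q4 : t * (2 * u - v) ≤ t * (2 * e (k + 1)) := by gcongr; linarith [hu.2, hv.1]
      have q5 : t * (-e (k + 1)) ≤ t * (2 * u - v) := by gcongr; linarith [hu.1, hv.2]
      have r1 : (((N k : ℤ) ^ 2 + m : ℤ) : ℝ) < (2 * b - b' : ℤ) := by push_cast; nlinarith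
      have r2 : ((2 * b - b' : ℤ) : ℝ) < ((N k : ℤ) ^ 2 + m + 1 : ℤ) := by push_cast; nlinarith
      have r3 := Int.cast_lt.mp r1
      have r4 := Int.cast_lt.mp r2
      omega
    have : volume.real (Ioo 1 (1 + e (k + 1)) ∩ E) + volume.real (Ioo 2 (2 + e (k + 1)) ∩ E) ≤ e (k + 1) := by
      rcases this with h | h
      · rw [h]; simpa using vol_le 2 _ he.le E
      · rw [h]; simpa using vol_le 1 _ he.le E
    calc _ ≤ c k / (2 * e (k + 1)) * e (k + 1) := by unfold I; gcongr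
      _ = _ := by field_simp
  linarith

lemma change (κ f : ℝ → ℝ) (x : ℝ) {t : ℝ} (ht : 0 < t) :
    ∫ y, t⁻¹ * κ (y / t) * |f (x - y)| = ∫ u, κ u * |f (x - t * u)| := by
  have := Measure.integral_comp_mul_left (fun y => t⁻¹ * κ (y / t) * |f (x - y)|) t
  simp only [mul_div_cancel_left₀ _ ht.ne', mul_assoc, integral_const_mul, smul_eq_mul,
    abs_of_pos (inv_pos.mpr ht)] at this ⊢
  rw [← mul_left_cancel₀ (inv_ne_zero ht.ne') this]

noncomputable def Mx (κ f : ℝ → ℝ) (x : ℝ) : ℝ :=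
  ⨆ t : Ioi (0:ℝ), ∫ y, (t:ℝ)⁻¹ * κ (y / t) * |f (x - y)|

lemma val (k : ℕ) {x t : ℝ} (hx : (N k : ℝ) ^ 2 ≤ x) (ht : 0 < t) :
    ∫ y, t⁻¹ * ψ (y / t) * |(B (N k) (w k)).indicator 1 (x - y)| =
      (∫ u, φ u * (D (N k) (w k) x t).indicator 1 u) / 2 := by
  rw [change _ _ _ ht, ← ψ_ind]
  · congr 1; ext u
    by_cases h : x - t * u ∈ B (N k) (w k)
    · rw [indicator_of_mem h, indicator_of_mem (show u ∈ D _ _ _ _ from h)]; simp
    · rw [indicator_of_notMem h, indicator_of_notMem (show u ∉ D _ _ _ _ from h)]; simp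
  · intro u hu
    obtain ⟨b, hb, -, h2⟩ := mem_D.mp hu
    have := (S_bd hb).1
    have := w_le k
    exact pos_of_mul_pos_left (a := u) (b := t) (by linarith) ht.le |>.le

lemma Mx_good (k m : ℕ) (hm : m < 2 * N k ^ 2) :
    c k / 2 ≤ Mx ψ ((B (N k) (w k)).indicator 1) ((N k : ℝ) ^ 2 + m) := by
  have hx : (N k : ℝ) ^ 2 ≤ (N k : ℝ) ^ 2 + m := le_add_of_nonneg_right (by positivity)
  obtain ⟨t, ht, h⟩ := good k m hm
  refine le_ciSup_of_le ⟨1, ?_⟩ ⟨t, ht⟩ (by rw [val k hx ht]; linarith)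
  rintro _ ⟨s, rfl⟩
  simp only
  rw [val k hx s.2]
  have := hasSum_le (fun j => I_le j _) (hasSum_I (D_meas (N k) (w k) ((N k : ℝ) ^ 2 + m) s))
    (by simpa using c_sum 0)
  linarith

lemma Mx_bad (k m : ℕ) (hm : m < 2 * N k ^ 2) :
    Mx ψ ((B (N k) (w k)).indicator 1) ((N k : ℝ) ^ 2 + (m + 1 / 2)) ≤ c k / 3 := by
  have hx : (N k : ℝ) ^ 2 ≤ (N k : ℝ) ^ 2 + (m + 1 / 2) := le_add_of_nonneg_right (by positivity)
  refine ciSup_le fun s => ?_
  rw [val k hx s.2]
  linarith [bad k m hm s.2]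

lemma var_M (k : ℕ) : ENNReal.ofReal (N k ^ 2 * c k / 2) ≤
    eVariationOn (Mx ψ ((B (N k) (w k)).indicator 1)) univ := by
  set F := Mx ψ ((B (N k) (w k)).indicator 1)
  have n1 : 1 ≤ N k ^ 2 := Nat.one_le_pow _ _ (N_pos k)
  refine le_trans ?_ (eVariationOn.sum_le (f := F) (n := 3 * N k ^ 2)
    (u := fun i => (N k : ℝ) ^ 2 + (i:ℝ) / 2) (fun i j h => by simp only; gcongr) fun _ => mem_univ _)
  refine le_trans ?_ (Finset.card_nsmul_le_sum _ _ (ENNReal.ofReal (c k / 6)) fun i hi => ?_)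
  · rw [Finset.card_range, nsmul_eq_mul, ← ENNReal.ofReal_natCast, ← ENNReal.ofReal_mul (by positivity)]
    refine ENNReal.ofReal_le_ofReal (le_of_eq ?_)
    push_cast; ring
  · rw [edist_dist, Real.dist_eq]
    refine ENNReal.ofReal_le_ofReal ?_
    have hi := Finset.mem_range.mp hi
    rcases Nat.even_or_odd' i with ⟨m, rfl | rfl⟩
    · have h1 := Mx_good k m (by omega)
      have h2 := Mx_bad k m (by omega)
      rw [show (((2 * m + 1 : ℕ) : ℝ) / 2) = m + 1 / 2 by push_cast; ring,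
        show (((2 * m : ℕ) : ℝ) / 2) = m by push_cast; ring, abs_sub_comm]
      exact le_trans (by linarith) (le_abs_self _)
    · have h1 := Mx_good k (m + 1) (by omega)
      have h2 := Mx_bad k m (by omega)
      rw [show (((2 * m + 1 : ℕ) : ℝ) / 2) = m + 1 / 2 by push_cast; ring,
        show (((2 * m + 1 + 1 : ℕ) : ℝ) / 2) = ((m + 1 : ℕ) : ℝ) by push_cast; ring]
      exact le_trans (by linarith) (le_abs_self _)

lemma var_le {f G : ℝ → ℝ} {C : ℝ} (hG : Monotone G) (h0 : ∀ x, 0 ≤ G x) (h1 : ∀ x, G x ≤ C)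
    (h : ∀ x y, x ≤ y → |f y - f x| ≤ G y - G x) : eVariationOn f univ ≤ ENNReal.ofReal C := by
  refine iSup_le fun ⟨n, u, hu, _⟩ => ?_
  simp only [edist_dist, Real.dist_eq]
  rw [← ENNReal.ofReal_sum_of_nonneg fun _ _ => abs_nonneg _]
  refine ENNReal.ofReal_le_ofReal ((Finset.sum_le_sum fun i _ => h _ _ (hu (Nat.le_succ i))).trans ?_)
  rw [Finset.sum_range_sub (fun i => G (u i))]
  linarith [h0 (u 0), h1 (u n)]

lemma var_f (n : ℕ) (w : ℝ) :
    eVariationOn ((B n w).indicator (1 : ℝ → ℝ)) univ ≤ ENNReal.ofReal (6 * n) := by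
  classical
  let G : ℝ → ℝ := fun x => (((S n).filter fun b : ℤ => (b:ℝ) - w ≤ x).card : ℝ) +
    ((S n).filter fun b : ℤ => (b:ℝ) + w < x).card
  have m1 : ∀ x y, x ≤ y → ((S n).filter fun b : ℤ => (b:ℝ) - w ≤ x) ⊆ (S n).filter fun b : ℤ => (b:ℝ) - w ≤ y :=
    fun x y h => Finset.monotone_filter_right _ fun b _ hb => le_trans hb h
  have m2 : ∀ x y, x ≤ y → ((S n).filter fun b : ℤ => (b:ℝ) + w < x) ⊆ (S n).filter fun b : ℤ => (b:ℝ) + w < y :=
    fun x y h => Finset.monotone_filter_right _ fun b _ hb => lt_of_lt_of_le hb h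
  have hG : Monotone G := fun x y h => add_le_add (by exact_mod_cast Finset.card_le_card (m1 x y h))
    (by exact_mod_cast Finset.card_le_card (m2 x y h))
  refine var_le hG (fun x => by positivity) (fun x => ?_) fun x y h => ?_
  · have a1 := (Finset.card_filter_le (S n) fun b : ℤ => (b:ℝ) - w ≤ x).trans (S_card n)
    have a2 := (Finset.card_filter_le (S n) fun b : ℤ => (b:ℝ) + w < x).trans (S_card n)
    have : (((S n).filter fun b : ℤ => (b:ℝ) - w ≤ x).card + ((S n).filter fun b : ℤ => (b:ℝ) + w < x).card : ℕ) ≤ 6 * n := by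
      omega
    simp only [G]
    exact_mod_cast this
  · have a1 := Finset.card_le_card (m1 x y h)
    have a2 := Finset.card_le_card (m2 x y h)
    have hm : ∀ z, z ∈ B n w ↔ ∃ b ∈ S n, (b:ℝ) - w ≤ z ∧ z ≤ b + w := fun z => by
      simp only [B, mem_iUnion, mem_Icc, exists_prop]
    have key : (x ∈ B n w ↔ y ∈ B n w) ∨ G x + 1 ≤ G y := by
      by_cases hx : x ∈ B n w <;> by_cases hy : y ∈ B n w
      · simp [hx, hy]
      · right
        obtain ⟨b, hb, p1, p2⟩ := (hm x).mp hx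
        have : (b:ℝ) + w < y := by
          by_contra hc
          exact hy ((hm y).mpr ⟨b, hb, p1.trans h, not_lt.mp hc⟩)
        have a3 := Finset.card_lt_card (Finset.ssubset_iff_of_subset (m2 x y h) |>.mpr
          ⟨b, Finset.mem_filter.mpr ⟨hb, this⟩, fun hc => absurd (Finset.mem_filter.mp hc).2 (not_lt.mpr p2)⟩)
        simp only [G]
        exact_mod_cast (by omega)
      · right
        obtain ⟨b, hb, p1, p2⟩ := (hm y).mp hy
        have : ¬ (b:ℝ) - w ≤ x := fun hc => hx ((hm x).mpr ⟨b, hb, hc, h.trans p2⟩)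
        have a3 := Finset.card_lt_card (Finset.ssubset_iff_of_subset (m1 x y h) |>.mpr
          ⟨b, Finset.mem_filter.mpr ⟨hb, p1⟩, fun hc => this (Finset.mem_filter.mp hc).2⟩)
        simp only [G]
        exact_mod_cast (by omega)
      · simp [hx, hy]
    have := hG h
    by_cases hx : x ∈ B n w <;> by_cases hy : y ∈ B n w <;> simp [hx, hy] at key ⊢ <;> linarith

theorem main (C : ℝ≥0) : ∃ f : ℝ → ℝ, eVariationOn f univ ≠ ∞ ∧
    C * eVariationOn f univ < eVariationOn (Mx ψ f) univ := by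
  obtain ⟨k, hk⟩ := exists_nat_ge (C:ℝ)
  refine ⟨(B (N k) (w k)).indicator 1, ((var_f _ _).trans_lt ENNReal.ofReal_lt_top).ne,
    lt_of_lt_of_le (lt_of_le_of_lt (mul_le_mul_right (var_f _ _) _) ?_) (var_M k)⟩
  have n1 := N_pos' k
  have c0 := c_pos k
  rw [← ENNReal.ofReal_coe_nnreal, ← ENNReal.ofReal_mul C.coe_nonneg, ENNReal.ofReal_lt_ofReal_iff (by positivity)]
  have : (N k : ℝ) * c k = 1500 / 16 * (k + 1) := by
    unfold N c; push_cast
    have : (16:ℝ) ^ k * (1 / 16) ^ k = 1 := by rw [← mul_pow]; simp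
    linear_combination (1500 / 16 * (k + 1)) * this
  have k0 : (0:ℝ) ≤ k := by positivity
  nlinarith

end Pool.Agent.H92.MaxVar
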