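import Mathlib

namespace Pool.Agent.H92.NLF
open MeasureTheory Set Filter Topology

/-- pairs `(n k, L k)` -/
def s : ℕ → ℕ × ℕ
  | 0 => (1, 1)
  | k + 1 => ((5 * (s k).2 * (s k).1) ^ (k + 1) * (s k).1,
      (s k).2 + 4 * ((s k).2 * ((5 * (s k).2 * (s k).1) ^ (k + 1) * (s k).1)))

def n (k : ℕ) : ℕ := (s k).1
def L (k : ℕ) : ℕ := (s k).2
def b : ℕ → ℕ
  | 0 => 1
  | k + 1 => (5 * L k * n k) ^ (k + 1)
def U (k : ℕ) : ℕ := L k * n (k + 1)

lemma n_succ (k : ℕ) : n (k + 1) = b (k + 1) * n k := rfl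
lemma L_succ (k : ℕ) : L (k + 1) = L k + 4 * U k := rfl

lemma pos (k : ℕ) : 1 ≤ n k ∧ 5 ^ k ≤ L k := by
  induction k with
  | zero => exact ⟨le_rfl, le_rfl⟩
  | succ k ih =>
    have hL : 1 ≤ L k := le_trans (Nat.one_le_pow _ _ (by norm_num)) ih.2
    have hb : 1 ≤ b (k + 1) := Nat.one_le_pow _ _ (by nlinarith [ih.1])
    have hn : 1 ≤ n (k + 1) := by rw [n_succ]; nlinarith [ih.1]
    refine ⟨hn, ?_⟩
    rw [L_succ, U, pow_succ]; nlinarith [ih.2]

lemma n_pos (k : ℕ) : 1 ≤ n k := (pos k).1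
lemma L_pos (k : ℕ) : 1 ≤ L k := le_trans (Nat.one_le_pow _ _ (by norm_num)) (pos k).2
lemma M_ge (k : ℕ) : 5 ^ (k + 1) ≤ 5 * L k * n k := by
  rw [pow_succ]; nlinarith [(pos k).1, (pos k).2, Nat.zero_le (5 ^ k)]
lemma b_ge (k : ℕ) : 5 ^ k ≤ b k := by
  cases k with
  | zero => exact le_rfl
  | succ k =>
    exact le_trans (M_ge k) (Nat.le_self_pow (by omega) _)
lemma b_pos (k : ℕ) : 1 ≤ b k := le_trans (Nat.one_le_pow _ _ (by norm_num)) (b_ge k)
lemma U_pos (k : ℕ) : 1 ≤ U k := by unfold U; nlinarith [L_pos k, n_pos (k + 1)]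
lemma L_mono : StrictMono L := strictMono_nat_of_lt_succ fun k => by
  rw [L_succ]; have := U_pos k; omega
lemma U_succ (k : ℕ) : 4 * U k ≤ U (k + 1) := by
  have h : U (k + 1) = L (k + 1) * n (k + 2) := rfl
  rw [h, L_succ]; nlinarith [n_pos (k + 2), Nat.zero_le (L k), Nat.zero_le (U k)]
lemma U_mono : Monotone U := monotone_nat_of_le_succ fun k => by
  have := U_succ k; omega

noncomputable def fl (k : ℕ) (x : ℝ) : ℤ := ⌊(n k : ℝ) * x⌋
def R (k : ℕ) : Set ℝ := {x | (b k : ℤ) ∣ fl k x}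

lemma fl_succ (k : ℕ) (x : ℝ) : fl k x = fl (k + 1) x / (b (k + 1) : ℕ) := by
  unfold fl
  rw [← Int.floor_div_natCast, n_succ]
  congr 1
  have : (b (k + 1) : ℝ) ≠ 0 := by have := b_pos (k + 1); positivity
  push_cast; field_simp

lemma R_meas (k : ℕ) : MeasurableSet (R k) := by
  have : Measurable (fl k) := Int.measurable_floor.comp (measurable_const.mul measurable_id)
  exact this (MeasurableSet.of_discrete (s := {z : ℤ | (b k : ℤ) ∣ z}))

lemma far {k : ℕ} {x y : ℝ} (hxy : x ≤ y) (h : fl k x ≠ fl k y) (hy : y ∉ R (k + 1)) :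
    1 < (n (k + 1) : ℝ) * (y - x) := by
  have hb : (0 : ℤ) < (b (k + 1) : ℕ) := by have := b_pos (k + 1); omega
  have hn : (0 : ℝ) ≤ n (k + 1) := by positivity
  have hle : fl (k + 1) x ≤ fl (k + 1) y := Int.floor_le_floor (by gcongr)
  rw [fl_succ k x, fl_succ k y] at h
  set m := fl (k + 1) y with hm
  set l := fl (k + 1) x with hl
  set c : ℤ := ((b (k + 1) : ℕ) : ℤ) with hc
  have h1 : l / c < m / c := lt_of_le_of_ne (Int.ediv_le_ediv hb hle) h
  have h2 : ¬ c ∣ m := hy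
  have h3 : m % c ≠ 0 := fun e => h2 (Int.dvd_of_emod_eq_zero e)
  have h4 := Int.emod_nonneg m hb.ne'
  have h5 := Int.emod_lt_of_pos l hb
  have h6 := Int.mul_ediv_add_emod m c
  have h7 := Int.mul_ediv_add_emod l c
  have h8 : c * (l / c + 1) ≤ c * (m / c) := by gcongr; omega
  have h9 : l + 2 ≤ m := by
    have : c * (l / c + 1) = c * (l / c) + c := by ring
    omega
  have e1 : (m : ℝ) ≤ n (k + 1) * y := Int.floor_le _
  have e2 : n (k + 1) * x < (l : ℝ) + 1 := Int.lt_floor_add_one _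
  have e3 : (l : ℝ) + 2 ≤ m := by exact_mod_cast h9
  nlinarith

lemma R_vol (k : ℕ) : volume (R (k + 1) ∩ Ioo 0 1) ≤ ENNReal.ofReal (1 / b (k + 1)) := by
  have hn : (0 : ℝ) < n k := by have := n_pos k; positivity
  have hb : (0 : ℝ) < b (k + 1) := by have := b_pos (k + 1); positivity
  have hN : (n (k + 1) : ℝ) = b (k + 1) * n k := by rw [n_succ]; push_cast; ring
  have hsub : R (k + 1) ∩ Ioo 0 1 ⊆
      ⋃ j ∈ Finset.range (n k), Ico ((j : ℝ) / n k) (j / n k + 1 / n (k + 1)) := by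
    rintro x ⟨⟨j, hj⟩, h0, h1⟩
    have e1 : ((fl (k + 1) x : ℤ) : ℝ) ≤ n (k + 1) * x := Int.floor_le _
    have e2 : n (k + 1) * x < ((fl (k + 1) x : ℤ) : ℝ) + 1 := Int.lt_floor_add_one _
    have e0 : 0 ≤ fl (k + 1) x := Int.floor_nonneg.2 (by positivity)
    rw [hj] at e1 e2 e0
    push_cast at e1 e2
    have hj0 : 0 ≤ j := by
      by_contra hh
      have : (b (k + 1) : ℤ) * j < 0 := mul_neg_of_pos_of_neg (by exact_mod_cast hb) (by omega)
      omega
    obtain ⟨i, rfl⟩ := Int.eq_ofNat_of_zero_le hj0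
    push_cast at e1 e2
    rw [hN] at e1 e2
    have e3 : (i : ℝ) ≤ n k * x := by
      have : (b (k + 1) : ℝ) * i ≤ b (k + 1) * (n k * x) := by linarith
      exact le_of_mul_le_mul_left this hb
    have e4 : (i : ℝ) < n k := by nlinarith
    simp only [mem_iUnion, Finset.mem_range]
    refine ⟨i, by exact_mod_cast e4, ?_, ?_⟩
    · rw [div_le_iff₀ hn]; linarith
    · rw [hN, div_add_div _ _ hn.ne' (by positivity), lt_div_iff₀ (by positivity)]
      nlinarith
  refine (measure_mono hsub).trans ((measure_biUnion_finset_le _ _).trans ?_)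
  simp only [Real.volume_Ico, add_sub_cancel_left, Finset.sum_const, Finset.card_range,
    nsmul_eq_mul]
  rw [← ENNReal.ofReal_natCast, ← ENNReal.ofReal_mul hn.le, hN]
  apply le_of_eq; congr 1; field_simp

open Classical in
noncomputable def top (x : ℝ) : ℕ := ⨆ k, if x ∈ R k then k else 0

lemma top_meas : Measurable top := by
  classical
  unfold top
  refine Measurable.iSup fun k => ?_
  exact Measurable.ite (R_meas k) measurable_const measurable_const

lemma top_spec {x : ℝ} (h : {k | x ∈ R k}.Finite) :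
    x ∈ R (top x) ∧ ∀ k, x ∈ R k → k ≤ top x := by
  classical
  obtain ⟨K, hK⟩ := h.bddAbove
  have hb : BddAbove (range fun k => if x ∈ R k then k else 0) := by
    refine ⟨K, ?_⟩
    rintro _ ⟨k, rfl⟩
    by_cases hk : x ∈ R k
    · simp only [hk, if_true]; exact hK hk
    · simp [hk]
  constructor
  · obtain ⟨k, hk⟩ := Nat.sSup_mem (range_nonempty _) hb
    have e : top x = if x ∈ R k then k else 0 := hk.symm
    by_cases hx : x ∈ R k
    · rw [e, if_pos hx]; exact hx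
    · rw [e, if_neg hx]; exact one_dvd _
  · intro k hk
    have := le_ciSup hb k
    rwa [if_pos hk] at this

lemma sum_vol : ∑' k, volume (R (k + 1) ∩ Ioo 0 1) ≤ ENNReal.ofReal (1 / 4) := by
  have h : ∀ k, volume (R (k + 1) ∩ Ioo 0 1) ≤ ENNReal.ofReal ((1 / 5) * (1 / 5) ^ k) := by
    intro k
    refine (R_vol k).trans (ENNReal.ofReal_le_ofReal ?_)
    rw [← pow_succ', one_div_pow]
    apply one_div_le_one_div_of_le (by positivity)
    exact_mod_cast b_ge (k + 1)
  refine (ENNReal.tsum_le_tsum h).trans ?_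
  have hs := (hasSum_geometric_of_lt_one (r := (1 / 5 : ℝ)) (by norm_num) (by norm_num)).mul_left (1 / 5)
  rw [← ENNReal.ofReal_tsum_of_nonneg (fun k => by positivity) hs.summable, hs.tsum_eq]
  norm_num

lemma ae_fin : ∀ᵐ x ∂(volume.restrict (Ioo (0 : ℝ) 1)), {k | x ∈ R k}.Finite := by
  have h : ∑' k, (volume.restrict (Ioo (0 : ℝ) 1)) (R (k + 1)) ≠ ⊤ := by
    simp only [Measure.restrict_apply (R_meas _)]
    exact ne_top_of_le_ne_top ENNReal.ofReal_ne_top sum_vol
  filter_upwards [ae_finite_setOfPred_mem h] with x hx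
  refine ((hx.image (· + 1)).insert 0).subset fun k hk => ?_
  cases k with
  | zero => exact Or.inl rfl
  | succ k => exact Or.inr ⟨k, hk, rfl⟩

end Pool.Agent.H92.NLF
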