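import Pool.Agent.H92.NLF1

namespace Pool.Agent.H92.NLF
open MeasureTheory Set Filter Topology

noncomputable def u (x : ℝ) : ℝ := L (top x)

lemma u_meas : Measurable u :=
  (measurable_from_top (f := fun k : ℕ => (L k : ℝ))).comp top_meas

def A : Set ℝ := {μ | ∀ k, μ ≤ U k ∨ 4 * (U k : ℝ) ≤ μ}

noncomputable def ω (μ : ℝ) : ℝ := Metric.infDist μ A + |μ| / (1 + μ ^ 2)

lemma ω_cont : Continuous ω :=
  (Metric.continuous_infDist_pt A).add (continuous_abs.div (by fun_prop) fun x => by positivity)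

lemma ω_nonneg (μ : ℝ) : 0 ≤ ω μ := add_nonneg Metric.infDist_nonneg (by positivity)

lemma ω_pos {μ : ℝ} (h : 0 < μ) : 0 < ω μ :=
  add_pos_of_nonneg_of_pos Metric.infDist_nonneg (div_pos (abs_pos.2 h.ne') (by positivity))

lemma zero_A : (0 : ℝ) ∈ A := fun k => Or.inl (by positivity)

lemma ω_zero : ω 0 = 0 := by
  simp [ω, Metric.infDist_zero_of_mem zero_A]

lemma fl_ne {i j : ℕ} (hij : i ≤ j) {x y : ℝ} (h : fl i x ≠ fl i y) : fl j x ≠ fl j y := by
  induction j, hij using Nat.le_induction with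
  | base => exact h
  | succ j _ ih => intro e; apply ih; rw [fl_succ j x, fl_succ j y, e]

lemma dist_lb {x y : ℝ} (hx : {k | x ∈ R k}.Finite) (hy : {k | y ∈ R k}.Finite)
    (h : top x < top y) : 1 < (n (top y + 1) : ℝ) * |y - x| := by
  have hx' := top_spec hx
  have hy' := top_spec hy
  have h1 : fl (top y) x ≠ fl (top y) y := by
    intro e
    have : x ∈ R (top y) := by
      have := hy'.1
      unfold R at this ⊢
      simp only [mem_ofPred_eq] at this ⊢
      rwa [e]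
    have := hx'.2 _ this; omega
  rcases le_total x y with hxy | hxy
  · rw [abs_of_nonneg (sub_nonneg.2 hxy)]
    exact far hxy h1 fun hh => by have := hy'.2 _ hh; omega
  · rw [abs_sub_comm, abs_of_nonneg (sub_nonneg.2 hxy)]
    exact far hxy h1.symm fun hh => by have := hx'.2 _ hh; omega

lemma pair0 {x y : ℝ} (hx : {k | x ∈ R k}.Finite) (hy : {k | y ∈ R k}.Finite)
    (hd : |y - x| ≤ 1) (h : top x < top y) :
    ω (|u y - u x| / |y - x|) / |y - x| ≤ 1 := by
  have h1 := dist_lb hx hy h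
  have hn : (0 : ℝ) < n (top y + 1) := by have := n_pos (top y + 1); positivity
  have hd0 : 0 < |y - x| := by
    by_contra hh
    have : |y - x| = 0 := le_antisymm (not_lt.1 hh) (abs_nonneg _)
    rw [this] at h1; norm_num at h1
  obtain ⟨j, hj⟩ : ∃ j, top y = j + 1 := ⟨top y - 1, by omega⟩
  have hL1 : (L (top x) : ℝ) ≤ L j := by exact_mod_cast L_mono.monotone (by omega)
  have hL2 : (L (top y) : ℝ) = L j + 4 * U j := by rw [hj, L_succ]; push_cast; ring
  have hU : (1 : ℝ) ≤ U j := by exact_mod_cast U_pos j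
  have hL0 : (0 : ℝ) ≤ L (top x) := by positivity
  have hΔ : |u y - u x| = L (top y) - L (top x) := abs_of_nonneg (by unfold u; linarith)
  set d := |y - x| with hdd
  set Δ := |u y - u x| with hΔd
  have hΔ1 : 4 * (U j : ℝ) ≤ Δ := by rw [hΔ]; linarith
  have hΔ2 : Δ ≤ L (top y) := by rw [hΔ]; linarith
  have hq1 : 4 * (U j : ℝ) ≤ Δ / d := by
    rw [le_div_iff₀ hd0]; nlinarith
  have hq2 : Δ / d ≤ U (top y) := by
    rw [div_le_iff₀ hd0, U]; push_cast
    have : (0 : ℝ) ≤ L (top y) := by positivity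
    nlinarith
  have hA : Δ / d ∈ A := by
    intro k
    by_cases hk : top y ≤ k
    · left; refine hq2.trans ?_; exact_mod_cast U_mono hk
    · right; refine le_trans ?_ hq1
      have : (U k : ℝ) ≤ U j := by exact_mod_cast U_mono (by omega)
      linarith
  have hq0 : 0 < Δ / d := by linarith
  rw [ω, Metric.infDist_zero_of_mem hA, zero_add, abs_of_pos hq0, div_le_one hd0,
    div_le_iff₀ (by positivity)]
  have e : Δ / d * d = Δ := div_mul_cancel₀ _ hd0.ne'
  set q := Δ / d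
  nlinarith

lemma pair {x y : ℝ} (hx : {k | x ∈ R k}.Finite) (hy : {k | y ∈ R k}.Finite)
    (hd : |y - x| ≤ 1) : ω (|u y - u x| / |y - x|) / |y - x| ≤ 1 := by
  rcases lt_trichotomy (top x) (top y) with h | h | h
  · exact pair0 hx hy hd h
  · have : u y - u x = 0 := by unfold u; rw [h, sub_self]
    rw [this, abs_zero, zero_div, ω_zero, zero_div]; norm_num
  · rw [abs_sub_comm y x] at hd ⊢
    rw [abs_sub_comm (u y)]
    exact pair0 hy hx hd h

lemma F_fin : ∫⁻ p in Ioo (0 : ℝ) 1 ×ˢ Ioo (0 : ℝ) 1,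
    ENNReal.ofReal (ω (|u p.2 - u p.1| / |p.2 - p.1|) / |p.2 - p.1|) < ⊤ := by
  rw [Measure.volume_eq_prod, ← Measure.prod_restrict]
  have h0 : ∀ᵐ x ∂(volume.restrict (Ioo (0 : ℝ) 1)), {k | x ∈ R k}.Finite ∧ x ∈ Ioo (0 : ℝ) 1 :=
    ae_fin.and (ae_restrict_mem measurableSet_Ioo)
  have h1 := (Measure.quasiMeasurePreserving_fst (μ := volume.restrict (Ioo (0 : ℝ) 1))
    (ν := volume.restrict (Ioo (0 : ℝ) 1))).ae h0
  have h2 := (Measure.quasiMeasurePreserving_snd (μ := volume.restrict (Ioo (0 : ℝ) 1))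
    (ν := volume.restrict (Ioo (0 : ℝ) 1))).ae h0
  refine lt_of_le_of_lt (lintegral_mono_ae (g := fun _ => 1) ?_) ?_
  · filter_upwards [h1, h2] with p hp hq
    refine ENNReal.ofReal_le_one.2 (pair hp.1 hq.1 ?_)
    rw [abs_le]; constructor <;> linarith [hp.2.1, hp.2.2, hq.2.1, hq.2.2]
  · rw [lintegral_one]; exact measure_lt_top _ _

lemma ω_div : ∫⁻ μ in Ioi (1 : ℝ), ENNReal.ofReal (ω μ / μ ^ 2) = ⊤ := by
  have hU : ∀ k, (1 : ℝ) ≤ U k := fun k => by exact_mod_cast U_pos k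
  have hsub : (⋃ k, Icc (2 * (U k : ℝ)) (3 * U k)) ⊆ Ioi 1 := by
    intro μ hμ
    obtain ⟨k, hk⟩ := mem_iUnion.1 hμ
    have := hU k
    exact lt_of_lt_of_le (by linarith) hk.1
  have hdis : Pairwise (Function.onFun Disjoint fun k => Icc (2 * (U k : ℝ)) (3 * U k)) := by
    have key : ∀ i j, i < j → Disjoint (Icc (2 * (U i : ℝ)) (3 * U i)) (Icc (2 * (U j : ℝ)) (3 * U j)) := by
      intro i j hij
      have h1 : (4 * U i : ℝ) ≤ U j := by exact_mod_cast (U_succ i).trans (U_mono hij)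
      refine disjoint_left.2 fun μ ha hb => ?_
      linarith [ha.2, hb.1, hU i, hU j]
    intro i j hij
    rcases lt_or_gt_of_ne hij with h | h
    · exact key i j h
    · exact (key j i h).symm
  refine top_unique (le_trans ?_ (lintegral_mono_set hsub))
  rw [lintegral_iUnion (fun k => measurableSet_Icc) hdis]
  have hk : ∀ k, ENNReal.ofReal (1 / 9) ≤
      ∫⁻ μ in Icc (2 * (U k : ℝ)) (3 * U k), ENNReal.ofReal (ω μ / μ ^ 2) := by
    intro k
    have hu := hU k
    refine le_trans ?_ (setLIntegral_mono' (f := fun _ => ENNReal.ofReal (1 / (9 * U k)))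
      measurableSet_Icc fun μ hμ => ENNReal.ofReal_le_ofReal ?_)
    · rw [setLIntegral_const, Real.volume_Icc, ← ENNReal.ofReal_mul (by positivity)]
      apply le_of_eq; congr 1; field_simp; ring
    · have h1 : (U k : ℝ) ≤ Metric.infDist μ A := by
        refine (Metric.le_infDist ⟨0, zero_A⟩).2 fun y hy => ?_
        rw [Real.dist_eq]
        rcases hy k with h | h
        · exact le_abs.2 (Or.inl (by linarith [hμ.1]))
        · exact le_abs.2 (Or.inr (by linarith [hμ.2]))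
      have h2 : (U k : ℝ) ≤ ω μ := h1.trans (le_add_of_nonneg_right (by positivity))
      have h3 : 0 < μ := by linarith [hμ.1]
      rw [div_le_div_iff₀ (by positivity) (by positivity)]
      have h4 : μ ^ 2 ≤ (3 * U k) ^ 2 := by gcongr; exact hμ.2
      nlinarith
  refine le_trans ?_ (ENNReal.tsum_le_tsum hk)
  rw [ENNReal.tsum_const_eq_top_of_ne_zero (by simp)]

lemma nonconst : ¬ ∃ c, ∀ᵐ x ∂(volume.restrict (Ioo (0 : ℝ) 1)), u x = c := by
  rintro ⟨c, hc⟩
  have h := hc.and ae_fin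
  have key : ∀ S : Set ℝ, (volume.restrict (Ioo (0 : ℝ) 1)) S ≠ 0 →
      ∃ x ∈ S, u x = c ∧ {k | x ∈ R k}.Finite := fun S hS => by
    obtain ⟨x, hx, hx'⟩ := Measure.exists_mem_of_measure_ne_zero_of_ae hS (ae_restrict_of_ae h)
    exact ⟨x, hx, hx'⟩
  have hn : (1 : ℝ) ≤ n 1 := by exact_mod_cast n_pos 1
  obtain ⟨x, hx, hx1, hx2⟩ := key (Ioo 0 (1 / n 1)) (by
    rw [Measure.restrict_apply measurableSet_Ioo, inter_eq_left.2
      (Ioo_subset_Ioo_right ((div_le_one (by positivity)).2 hn)), Real.volume_Ioo]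
    have := n_pos 1
    simp; omega)
  obtain ⟨y, hy, hy1, hy2⟩ := key (⋃ k, R (k + 1))ᶜ (by
    intro h0
    have hm : MeasurableSet (⋃ k, R (k + 1)) := MeasurableSet.iUnion fun k => R_meas _
    have e := measure_add_measure_compl (μ := volume.restrict (Ioo (0 : ℝ) 1)) hm
    rw [h0, add_zero] at e
    have e2 := (measure_iUnion_le (μ := volume.restrict (Ioo (0 : ℝ) 1)) fun k => R (k + 1))
    simp only [Measure.restrict_apply (R_meas _)] at e2
    have e3 := e2.trans sum_vol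
    rw [e, Measure.restrict_apply MeasurableSet.univ, univ_inter, Real.volume_Ioo,
      ENNReal.ofReal_le_ofReal_iff (by norm_num)] at e3
    norm_num at e3)
  have hx3 : x ∈ R 1 := by
    have : fl 1 x = 0 := by
      refine Int.floor_eq_zero_iff.2 ⟨mul_nonneg (by positivity) hx.1.le, ?_⟩
      have := hx.2
      rw [lt_div_iff₀ (by positivity)] at this; linarith
    show _ ∣ fl 1 x
    rw [this]; exact dvd_zero _
  have h1 := (top_spec hx2).2 1 hx3
  have h2 : top y = 0 := by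
    by_contra hh
    obtain ⟨j, hj⟩ : ∃ j, top y = j + 1 := ⟨top y - 1, by omega⟩
    exact hy (mem_iUnion.2 ⟨j, hj ▸ (top_spec hy2).1⟩)
  have h3 : L (top y) < L (top x) := L_mono (by omega)
  have h4 : (L (top y) : ℝ) = L (top x) := hy1.trans hx1.symm
  have h5 : L (top y) = L (top x) := by exact_mod_cast h4
  omega

lemma term_bd {α : ℝ} (h0 : 0 < α) (h1 : α < 1) {k : ℕ} (hk : 2 ≤ (k + 1) * (1 - α)) :
    (L (k + 1) : ℝ) ^ α * (1 / b (k + 1)) ≤ (1 / 5) ^ k := by
  set M : ℝ := 5 * L k * n k with hM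
  have hM5 : (5 : ℝ) ^ (k + 1) ≤ M := by rw [hM]; exact_mod_cast M_ge k
  have h5 : (1 : ℝ) ≤ 5 ^ k := one_le_pow₀ (by norm_num)
  have hM5' : (5 : ℝ) ^ k ≤ M := le_trans (by rw [pow_succ]; linarith) hM5
  have hM1 : 1 ≤ M := h5.trans hM5'
  have hb : (b (k + 1) : ℝ) = M ^ (k + 1) := by rw [hM]; simp [b]
  have hb1 : (1 : ℝ) ≤ b (k + 1) := by exact_mod_cast b_pos _
  have hn : (1 : ℝ) ≤ n k := by exact_mod_cast n_pos _
  have hL : (1 : ℝ) ≤ L k := by exact_mod_cast L_pos _
  have hLL : (L (k + 1) : ℝ) ≤ M * b (k + 1) := by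
    rw [L_succ, U, n_succ, hM]; push_cast
    have : (1 : ℝ) ≤ b (k + 1) * n k := by nlinarith
    nlinarith
  have e1 : (L (k + 1) : ℝ) ^ α ≤ M * M ^ (((k : ℝ) + 1) * α) := by
    refine (Real.rpow_le_rpow (by positivity) hLL h0.le).trans ?_
    rw [Real.mul_rpow (by positivity) (by positivity), hb, ← Real.rpow_natCast,
      ← Real.rpow_mul (by positivity)]
    push_cast
    gcongr
    calc M ^ α ≤ M ^ (1 : ℝ) := Real.rpow_le_rpow_of_exponent_le hM1 h1.le
      _ = M := Real.rpow_one M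
  have e2 : M ^ (((k : ℝ) + 1) * α) * M ^ 2 ≤ b (k + 1) := by
    rw [hb, ← Real.rpow_natCast, ← Real.rpow_natCast, ← Real.rpow_add (by positivity)]
    apply Real.rpow_le_rpow_of_exponent_le hM1
    push_cast; nlinarith
  rw [one_div_pow, mul_one_div, div_le_div_iff₀ (by positivity) (by positivity)]
  have e3 : 0 ≤ M ^ (((k : ℝ) + 1) * α) := by positivity
  calc (L (k + 1) : ℝ) ^ α * 5 ^ k ≤ (M * M ^ (((k : ℝ) + 1) * α)) * M := by gcongr
    _ = M ^ (((k : ℝ) + 1) * α) * M ^ 2 := by ring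
    _ ≤ 1 * b (k + 1) := by linarith

lemma Lα {α : ℝ} (h0 : 0 < α) (h1 : α < 1) :
    ∫⁻ x in Ioo (0 : ℝ) 1, ENNReal.ofReal (|u x| ^ α) < ⊤ := by
  have hle : ∀ᵐ x ∂(volume.restrict (Ioo (0 : ℝ) 1)), ENNReal.ofReal (|u x| ^ α) ≤
      ∑' k, (R k).indicator (fun _ => ENNReal.ofReal ((L k : ℝ) ^ α)) x := by
    filter_upwards [ae_fin] with x hx
    refine le_trans ?_ (ENNReal.le_tsum (top x))
    rw [indicator_of_mem (top_spec hx).1, u, Nat.abs_cast]
  refine lt_of_le_of_lt (lintegral_mono_ae hle) ?_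
  rw [lintegral_tsum fun k => (measurable_const.indicator (R_meas k)).aemeasurable]
  simp only [lintegral_indicator_const (R_meas _)]
  obtain ⟨K, hK⟩ := exists_nat_ge (2 / (1 - α))
  rw [← Summable.sum_add_tsum_nat_add' (k := K + 1) ENNReal.summable]
  refine ENNReal.add_lt_top.2 ⟨ENNReal.sum_lt_top.2 fun i _ =>
    ENNReal.mul_lt_top ENNReal.ofReal_lt_top (measure_lt_top _ _), ?_⟩
  have hs := summable_geometric_of_lt_one (r := (1 / 5 : ℝ)) (by norm_num) (by norm_num)
  refine lt_of_le_of_lt (ENNReal.tsum_le_tsum (g := fun i => ENNReal.ofReal ((1 / 5 : ℝ) ^ i))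
    fun i => ?_) ?_
  · rw [Measure.restrict_apply (R_meas _), ← add_assoc]
    refine (mul_le_mul_right (R_vol _) _).trans ?_
    rw [← ENNReal.ofReal_mul (by positivity)]
    refine ENNReal.ofReal_le_ofReal ((term_bd h0 h1 ?_).trans ?_)
    · rw [div_le_iff₀ (by linarith)] at hK
      push_cast
      have : (0 : ℝ) ≤ i := by positivity
      nlinarith
    · exact pow_le_pow_of_le_one (by norm_num) (by norm_num) (by omega)
  · rw [← ENNReal.ofReal_tsum_of_nonneg (fun k => by positivity) hs]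
    exact ENNReal.ofReal_lt_top

end Pool.Agent.H92.NLF
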