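import Mathlib

set_option autoImplicit false
open Finset Filter Topology Real

namespace Pool.Agent.H92.NullPair

noncomputable def cs (q m : ℕ) : ℝ := cos (m * (2 * π / q))
noncomputable def xx (q : ℕ) : ℝ := cs q (q / 2)
noncomputable def dd (q : ℕ) : ℝ := cs q (q / 2 - 1)

lemma cs_congr {q m n : ℕ} (hq : 0 < q) (h : m ≡ n [MOD q]) : cs q m = cs q n := by
  have key : ∀ m : ℕ, cs q m = cs q (m % q) := fun m => by
    unfold cs
    conv_lhs => rw [← Nat.mod_add_div m q]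
    rw [← cos_add_nat_mul_two_pi (((m % q : ℕ) : ℝ) * (2 * π / q)) (m / q)]
    congr 1
    have : (q:ℝ) ≠ 0 := by positivity
    push_cast; field_simp
  rw [key m, key n, h]

lemma xd {q : ℕ} (ho : Odd q) (h9 : 9 ≤ q) : xx q < dd q ∧ dd q ≤ -1 / 2 ∧ -1 ≤ xx q := by
  obtain ⟨h, rfl⟩ := ho
  have e1 : (2 * h + 1) / 2 = h := by omega
  obtain ⟨g, rfl⟩ : ∃ g, h = g + 1 := ⟨h - 1, by omega⟩
  have hg : (3:ℝ) ≤ g := by exact_mod_cast (by omega : 3 ≤ g)
  have := pi_pos
  unfold xx dd cs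
  rw [e1, Nat.add_sub_cancel]
  push_cast
  have p : (0:ℝ) < 2 * (g + 1) + 1 := by positivity
  have b1 : ((g:ℝ) + 1) * (2 * π / (2 * (g + 1) + 1)) ≤ π := by
    rw [← mul_div_assoc, div_le_iff₀ p]; nlinarith
  have b2 : (g:ℝ) * (2 * π / (2 * (g + 1) + 1)) < (g + 1) * (2 * π / (2 * (g + 1) + 1)) := by
    gcongr; linarith
  refine ⟨cos_lt_cos_of_nonneg_of_le_pi (by positivity) b1 b2, ?_, neg_one_le_cos _⟩
  have : cos (π - π / 3) = -1 / 2 := by rw [cos_pi_sub, cos_pi_div_three]; ring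
  rw [← this]
  refine cos_le_cos_of_nonneg_of_le_pi (by linarith) (by linarith) ?_
  rw [← mul_div_assoc, le_div_iff₀ p]; nlinarith

def Ty (q : ℕ → ℕ) (k m : ℕ) : Prop :=
  ∃ i ≤ k, (∀ j < i, cs (q j) m = dd (q j)) ∧ cs (q i) m = xx (q i) ∧
    ∀ j, i < j → j ≤ k → cs (q j) m = 1

/-- test sequences: the constant one and the cosines at the first `k` points -/
def Pt (q : ℕ → ℕ) (k : ℕ) (u : ℕ → ℝ) : Prop := u = (fun _ => 1) ∨ ∃ j < k, u = cs (q j)

structure St where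
  q : ℕ → ℕ
  β : ℕ → ℝ
  b : ℕ

def Inv (k : ℕ) (s : St) : Prop :=
  (∀ j ≤ k, Odd (s.q j) ∧ 9 + j ≤ s.q j) ∧
  (∀ i ≤ k, ∀ j ≤ k, i ≠ j → (s.q i).Coprime (s.q j)) ∧ k < s.b ∧
  ∀ u, Pt s.q k u → 1 + ∑ m ∈ range s.b, s.β m * u m = 0

def Rel (k : ℕ) (s s' : St) : Prop :=
  (∀ j ≤ k, s'.q j = s.q j) ∧ (∀ m < s.b, s'.β m = s.β m) ∧ s.b ≤ s'.b ∧
  (∀ m, s.b ≤ m → |s'.β m| ≤ 1 / (k + 1) ∧ (s'.β m ≠ 0 → Ty s'.q (k + 1) m)) ∧
  (∀ M, s.b ≤ M → ∀ u, Pt s.q k u → |1 + ∑ m ∈ range M, s'.β m * u m| ≤ 2 / (k + 1)) ∧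
  (2 * π / s'.q (k + 1)) ^ 2 * ∑ m ∈ range s.b, |s.β m| * m ^ 2 ≤ 1 / 4

lemma cnt_sum (Q b M n : ℕ) (u : ℕ → ℝ) (v : ℝ) (h : ∀ m, m ≡ n [MOD Q] → u m = v) :
    ∑ m ∈ Ico b M, (if m ≡ n [MOD Q] then 1 else 0) * u m = #{m ∈ Ico b M | m ≡ n [MOD Q]} * v := by
  simp only [ite_mul, one_mul, zero_mul]
  rw [← sum_filter, sum_congr rfl fun m hm => h m (mem_filter.mp hm).2]
  simp

lemma cnt_bd {Q : ℕ} (hQ : 0 < Q) {b M : ℕ} (h : b ≤ M) (n : ℕ) :
    |(#{m ∈ Ico b M | m ≡ n [MOD Q]} : ℝ) - ((M:ℝ) - b) / Q| ≤ 1 := by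
  have e := Nat.Ico_filter_modEq_card b M hQ n
  have hb : (b:ℚ) ≤ M := by exact_mod_cast h
  rw [max_eq_left (sub_nonneg.mpr (Int.ceil_le_ceil (by gcongr)))] at e
  have e' : (#{m ∈ Ico b M | m ≡ n [MOD Q]} : ℚ) = ⌈((M:ℚ) - n) / Q⌉ - ⌈((b:ℚ) - n) / Q⌉ := by
    exact_mod_cast e
  have : |(#{m ∈ Ico b M | m ≡ n [MOD Q]} : ℚ) - ((M:ℚ) - b) / Q| ≤ 1 := by
    rw [e', show ((M:ℚ) - b) / Q = (M - n) / Q - (b - n) / Q by ring, abs_le]
    constructor <;> linarith [Int.le_ceil (((M:ℚ) - n) / Q), Int.ceil_lt_add_one (((M:ℚ) - n) / Q),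
      Int.le_ceil (((b:ℚ) - n) / Q), Int.ceil_lt_add_one (((b:ℚ) - n) / Q)]
  have := (Rat.cast_le (K := ℝ)).mpr this
  push_cast at this
  exact this

lemma cnt_eq {Q : ℕ} (hQ : 0 < Q) (b N n : ℕ) :
    (#{m ∈ Ico b (b + N * Q) | m ≡ n [MOD Q]} : ℝ) = N := by
  have e := Nat.Ico_filter_modEq_card b (b + N * Q) hQ n
  have : (((b + N * Q : ℕ) : ℚ) - n) / Q = (b - n) / Q + (N:ℕ) := by
    have : (Q:ℚ) ≠ 0 := by positivity
    push_cast; field_simp; ring
  rw [this, Int.ceil_add_natCast, add_sub_cancel_left, max_eq_left (by positivity)] at e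
  exact_mod_cast e

lemma step (k : ℕ) (s : St) (hs : Inv k s) : ∃ s', Inv (k + 1) s' ∧ Rel k s s' := by
  obtain ⟨h1, h2, h3, h4⟩ := hs
  set W := ∑ m ∈ range s.b, |s.β m| * m ^ 2
  have W0 : 0 ≤ W := sum_nonneg fun _ _ => by positivity
  obtain ⟨M0, hM0⟩ := exists_nat_ge (100 * W + k + 10)
  set P := ∏ j ∈ range (k + 1), s.q j
  have P0 : 1 ≤ P := one_le_prod' fun j hj => by have := (h1 j (by simpa [Nat.lt_succ_iff] using hj)).2; omega
  have hM1 : k + 10 ≤ M0 := by
    have : (k:ℝ) + 10 ≤ M0 := by linarith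
    exact_mod_cast this
  let q := Function.update s.q (k + 1) (2 * (P * M0) + 1)
  have q1 : ∀ j ≤ k, q j = s.q j := fun j hj => Function.update_of_ne (by omega) _ _
  have q2 : q (k + 1) = 2 * (P * M0) + 1 := Function.update_self ..
  have q3 : M0 ≤ P * M0 := Nat.le_mul_of_pos_left _ P0
  have g1 : ∀ j ≤ k + 1, Odd (q j) ∧ 9 + j ≤ q j := by
    intro j hj
    rcases Nat.lt_or_ge k j with h | h
    · obtain rfl : j = k + 1 := by omega
      rw [q2]; exact ⟨⟨_, rfl⟩, by omega⟩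
    · rw [q1 j h]; exact h1 j h
  have cop : ∀ j ≤ k, (q j).Coprime (q (k + 1)) := by
    intro j hj
    obtain ⟨d, hd⟩ : s.q j ∣ P := dvd_prod_of_mem _ (by simpa [Nat.lt_succ_iff] using hj)
    rw [q1 j hj, q2, hd, show 2 * (s.q j * d * M0) + 1 = 1 + s.q j * (2 * d * M0) by ring]
    simp
  have g2 : ∀ i ≤ k + 1, ∀ j ≤ k + 1, i ≠ j → (q i).Coprime (q j) := by
    intro i hi j hj hij
    rcases Nat.lt_or_ge k i with h | h <;> rcases Nat.lt_or_ge k j with h' | h'
    · omega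
    · obtain rfl : i = k + 1 := by omega
      exact (cop j h').symm
    · obtain rfl : j = k + 1 := by omega
      exact cop i h
    · rw [q1 i h, q1 j h']; exact h2 i h j h' hij
  have q0 : ∀ j ≤ k + 1, 0 < q j := fun j hj => by have := (g1 j hj).2; omega
  set Q := ∏ j ∈ range (k + 2), q j
  have Q0 : 0 < Q := prod_pos fun j hj => q0 j (by simpa [Nat.lt_succ_iff] using hj)
  have crt : ∀ r : ℕ → ℕ, ∃ n, ∀ m, m ≡ n [MOD Q] → ∀ j ≤ k + 1, cs (q j) m = cs (q j) (r j) := by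
    intro r
    obtain ⟨n, hn⟩ := Nat.chineseRemainderOfFinset r q (range (k + 2))
      (fun j hj => (q0 j (by simpa [Nat.lt_succ_iff] using hj)).ne')
      (fun i hi j hj hij => g2 i (by simpa [Nat.lt_succ_iff] using hi) j (by simpa [Nat.lt_succ_iff] using hj) hij)
    exact ⟨n, fun m hm j hj => cs_congr (q0 j hj) ((hm.of_dvd (dvd_prod_of_mem _
      (by simpa [Nat.lt_succ_iff] using hj))).trans (hn j (by simpa [Nat.lt_succ_iff] using hj)))⟩
  obtain ⟨n, hn⟩ := crt fun j => if j < k then q j / 2 - 1 else if j = k then q j / 2 else 0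
  obtain ⟨n', hn'⟩ := crt fun j => if j ≤ k then q j / 2 - 1 else q j / 2
  have hx := xd (g1 k (by omega)).1 (by have := (g1 k (by omega)).2; omega)
  set α := (1 + ∑ m ∈ range s.b, s.β m * cs (q k) m) / (dd (q k) - xx (q k)) with hα
  obtain ⟨N, hN⟩ := exists_nat_gt (|α| * (k + 1))
  have N0 : 0 < N := by
    have : (0:ℝ) < N := lt_of_le_of_lt (by positivity) hN
    exact_mod_cast this
  have N0' : (0:ℝ) < N := by exact_mod_cast N0
  have hε : |α / N| ≤ 1 / (k + 1) := by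
    rw [abs_div, Nat.abs_cast, div_le_div_iff₀ N0' (by positivity)]; linarith
  let β : ℕ → ℝ := fun m => if m < s.b then s.β m else if m < s.b + N * Q then
    α / N * ((if m ≡ n [MOD Q] then 1 else 0) - (if m ≡ n' [MOD Q] then 1 else 0)) else 0
  have key : ∀ M, s.b ≤ M → M ≤ s.b + N * Q → ∀ (u : ℕ → ℝ) (v v' : ℝ), (∀ m, m ≡ n [MOD Q] → u m = v) →
      (∀ m, m ≡ n' [MOD Q] → u m = v') → ∑ m ∈ range M, β m * u m = ∑ m ∈ range s.b, s.β m * u m +
        α / N * (#{m ∈ Ico s.b M | m ≡ n [MOD Q]} * v - #{m ∈ Ico s.b M | m ≡ n' [MOD Q]} * v') := by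
    intro M hM hM' u v v' hv hv'
    rw [← sum_range_add_sum_Ico _ hM, ← cnt_sum Q _ _ n u v hv, ← cnt_sum Q _ _ n' u v' hv',
      ← sum_sub_distrib, mul_sum]
    congr 1
    · exact sum_congr rfl fun m hm => by simp only [β, if_pos (mem_range.mp hm)]
    · refine sum_congr rfl fun m hm => ?_
      have := mem_Ico.mp hm
      simp only [β, if_neg (not_lt.mpr this.1), if_pos (this.2.trans_le hM')]
      ring
  have old : ∀ u, Pt s.q k u → ∃ v, |v| ≤ 1 ∧ (∀ m, m ≡ n [MOD Q] → u m = v) ∧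
      (∀ m, m ≡ n' [MOD Q] → u m = v) := by
    rintro u (rfl | ⟨j, hj, rfl⟩)
    · exact ⟨1, by simp, fun _ _ => rfl, fun _ _ => rfl⟩
    · rw [← q1 j hj.le]
      exact ⟨dd (q j), abs_cos_le_one _, fun m hm => by rw [hn m hm j (by omega), if_pos hj, dd],
        fun m hm => by rw [hn' m hm j (by omega), if_pos hj.le, dd]⟩
  have fin : ∀ u, Pt s.q k u → 1 + ∑ m ∈ range (s.b + N * Q), β m * u m = 0 := by
    intro u hu
    obtain ⟨v, -, a1, a2⟩ := old u hu
    rw [key _ (by omega) le_rfl u v v a1 a2, cnt_eq Q0, cnt_eq Q0, ← add_assoc, h4 u hu]; ring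
  refine ⟨⟨q, β, s.b + N * Q⟩, ⟨g1, g2, ?_, ?_⟩, q1, fun m hm => if_pos hm, by simp, ?_, ?_, ?_⟩
  · have := Nat.mul_pos N0 Q0
    simp only; omega
  · rintro u (rfl | ⟨j, hj, rfl⟩)
    · exact fin _ (Or.inl rfl)
    · rcases Nat.lt_or_ge j k with h | h
      · exact fin _ (Or.inr ⟨j, h, by simp only [q1 j h.le]⟩)
      · obtain rfl : j = k := by omega
        simp only
        rw [key _ (by omega) le_rfl _ (xx (q j)) (dd (q j))
          (fun m hm => by rw [hn m hm j (by omega)]; simp [xx])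
          (fun m hm => by rw [hn' m hm j (by omega)]; simp [dd]), cnt_eq Q0, cnt_eq Q0, hα]
        have : dd (q j) - xx (q j) ≠ 0 := by linarith [hx.1]
        field_simp; ring
  · intro m hm
    simp only [β, if_neg (not_lt.mpr hm)]
    have t1 : m ≡ n [MOD Q] → Ty q (k + 1) m := fun h => ⟨k, by omega,
      fun j hj => by rw [hn m h j (by omega), if_pos hj, dd],
      by rw [hn m h k (by omega)]; simp [xx], fun j h1 h2 => by
        rw [hn m h j h2, if_neg (by omega), if_neg (by omega)]; simp [cs]⟩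
    have t2 : m ≡ n' [MOD Q] → Ty q (k + 1) m := fun h => ⟨k + 1, le_rfl,
      fun j hj => by rw [hn' m h j (by omega), if_pos (by omega), dd],
      by rw [hn' m h (k + 1) le_rfl]; simp [xx], fun j h1 h2 => by omega⟩
    have : (0:ℝ) ≤ 1 / (k + 1) := by positivity
    split_ifs with a1 a2 a3 a4
    · exact ⟨by simpa using this, fun _ => t1 a2⟩
    · simpa using ⟨by simpa using hε, fun _ _ => t1 a2⟩
    · simpa using ⟨by simpa using hε, fun _ _ => t2 a4⟩
    · simpa using this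
    · simpa using this
  · intro M hM u hu
    rcases le_total M (s.b + N * Q) with h | h
    · obtain ⟨v, a0, a1, a2⟩ := old u hu
      simp only
      rw [key M hM h u v v a1 a2, ← add_assoc, h4 u hu, zero_add, ← sub_mul, abs_mul, abs_mul]
      have c1 := abs_le.mp (cnt_bd Q0 hM n)
      have c2 := abs_le.mp (cnt_bd Q0 hM n')
      calc _ ≤ 1 / ((k:ℝ) + 1) * (2 * 1) := by
            gcongr
            rw [abs_le]; constructor <;> linarith
        _ = _ := by ring
    · simp only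
      rw [← sum_range_add_sum_Ico _ h, ← add_assoc, fin u hu, sum_eq_zero fun m hm => by
        have := (mem_Ico.mp hm).1
        simp only [β, if_neg (show ¬ m < s.b by omega), if_neg (not_lt.mpr this), zero_mul]]
      simp; positivity
  · simp only
    have a1 : (2 * M0 : ℝ) ≤ q (k + 1) := by
      have : 2 * M0 ≤ q (k + 1) := by omega
      exact_mod_cast this
    have a2 : (1:ℝ) ≤ q (k + 1) := by exact_mod_cast q0 (k + 1) le_rfl
    have a3 : π ^ 2 ≤ 10 := by nlinarith [pi_lt_d2, pi_pos]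
    have k0 : (0:ℝ) ≤ k := by positivity
    rw [div_pow, div_mul_eq_mul_div, div_le_iff₀ (by positivity)]
    nlinarith

theorem exists_data : ∃ (q : ℕ → ℕ) (β : ℕ → ℝ) (b : ℕ → ℕ), (∀ j, Odd (q j) ∧ 9 + j ≤ q j) ∧
    β 0 = 0 ∧ Tendsto β atTop (𝓝 0) ∧ Monotone b ∧ (∀ m, β m ≠ 0 → ∃ k, m < b k ∧ Ty q k m) ∧
    (∀ k u, Pt q k u → Tendsto (fun M => 1 + ∑ m ∈ range M, β m * u m) atTop (𝓝 0)) ∧
    ∀ k, (2 * π / q (k + 1)) ^ 2 * ∑ m ∈ range (b k), |β m| * m ^ 2 ≤ 1 / 4 := by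
  choose! F hF1 hF2 using step
  let s0 : St := ⟨fun _ => 9, fun m => if m = 4 then -1 else 0, 5⟩
  let s : ℕ → St := fun k => Nat.rec s0 F k
  have inv : ∀ k, Inv k (s k) := by
    intro k
    induction k with
    | zero =>
      refine ⟨fun j hj => ⟨⟨4, rfl⟩, by simp [s, s0]; omega⟩, fun i hi j hj => by omega, by simp [s, s0], ?_⟩
      rintro u (rfl | ⟨j, hj, -⟩)
      · simp [s, s0]
      · omega
    | succ k ih => exact hF1 k _ ih
  have rel : ∀ k, Rel k (s k) (s (k + 1)) := fun k => hF2 k _ (inv k)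
  have mono : Monotone fun k => (s k).b := monotone_nat_of_le_succ fun k => (rel k).2.2.1
  have agq : ∀ l k, k ≤ l → ∀ j ≤ k, (s l).q j = (s k).q j := by
    intro l k hkl
    induction l, hkl using Nat.le_induction with
    | base => intros; rfl
    | succ l hl ih => intro j hj; rw [(rel l).1 j (hj.trans hl), ih j hj]
  have agb : ∀ l k, k ≤ l → ∀ m < (s k).b, (s l).β m = (s k).β m := by
    intro l k hkl
    induction l, hkl using Nat.le_induction with
    | base => intros; rfl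
    | succ l hl ih => intro m hm; rw [(rel l).2.1 m (hm.trans_le (mono hl)), ih m hm]
  have eq : ∀ k, ∀ j ≤ k, (s j).q j = (s k).q j := fun k j hj => (agq k j hj j le_rfl).symm
  have eβ : ∀ k, ∀ m < (s k).b, (s m).β m = (s k).β m := fun k m hm => by
    rcases le_total k m with h | h
    · exact agb m k h m hm
    · exact (agb k m h m (inv m).2.2.1).symm
  have loc : ∀ k M, (s k).b ≤ M → ∃ l, k ≤ l ∧ (s l).b ≤ M ∧ M < (s (l + 1)).b := by
    intro k M hM
    have ex : ∃ l, M < (s (l + 1)).b := ⟨M, (inv M).2.2.1.trans_le (mono (Nat.le_succ M))⟩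
    by_cases h : Nat.find ex < k
    · exact absurd (mono h) (by have := Nat.find_spec ex; simp only [Nat.succ_eq_add_one]; omega)
    · refine ⟨Nat.find ex, not_lt.mp h, ?_, Nat.find_spec ex⟩
      rcases Nat.eq_zero_or_pos (Nat.find ex) with h0 | h0
      · obtain rfl : k = 0 := by omega
        rwa [h0]
      · have := Nat.find_min ex (m := Nat.find ex - 1) (by omega)
        rw [Nat.sub_add_cancel h0] at this
        exact not_lt.mp this
  have lim : ∀ (g : ℕ → ℝ) (k0 : ℕ), (∀ k, k0 ≤ k → ∀ M, (s k).b ≤ M → M < (s (k + 1)).b →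
      |g M| ≤ 2 / (k + 1)) → Tendsto g atTop (𝓝 0) := by
    intro g k0 hg
    refine Metric.tendsto_atTop.mpr fun ε hε => ?_
    obtain ⟨K, hK⟩ := exists_nat_gt (2 / ε)
    refine ⟨(s (max K k0)).b, fun M hM => ?_⟩
    obtain ⟨l, h1, h2, h3⟩ := loc _ M hM
    rw [Real.dist_eq, sub_zero]
    refine (hg l ((le_max_right _ _).trans h1) M h2 h3).trans_lt ?_
    have : (K:ℝ) ≤ l := by exact_mod_cast (le_max_left _ _).trans h1
    rw [div_lt_iff₀ hε] at hK
    rw [div_lt_iff₀ (by positivity)]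
    nlinarith
  refine ⟨fun j => (s j).q j, fun m => (s m).β m, fun k => (s k).b, fun j => (inv j).1 j le_rfl,
    by simp [s, s0], lim _ 0 fun k _ M h1 h2 => ?_, mono, fun m hm => ?_, fun k u hu =>
    lim _ k fun l hl M h1 h2 => ?_, fun k => ?_⟩
  · rw [eβ (k + 1) M h2]
    exact ((rel k).2.2.2.1 M h1).1.trans (by gcongr; norm_num)
  · have tyc : ∀ k, Ty (s k).q k m → Ty (fun j => (s j).q j) k m := by
      rintro k ⟨i, hi, a1, a2, a3⟩
      exact ⟨i, hi, fun j hj => by simp only [eq k j (by omega)]; exact a1 j hj,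
        by simp only [eq k i hi]; exact a2, fun j h1 h2 => by simp only [eq k j h2]; exact a3 j h1 h2⟩
    rcases Nat.lt_or_ge m (s 0).b with h | h
    · refine ⟨0, h, tyc 0 ⟨0, le_rfl, fun j hj => by omega, ?_, fun j h1 h2 => by omega⟩⟩
      simp only [eβ 0 m h] at hm
      obtain rfl : m = 4 := by
        by_contra hc; simp [s, s0, hc] at hm
      simp [s, s0, xx]
    · obtain ⟨l, -, h2, h3⟩ := loc 0 m h
      simp only [eβ (l + 1) m h3] at hm
      exact ⟨l + 1, h3, tyc _ (((rel l).2.2.2.1 m h2).2 hm)⟩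
  · simp only
    rw [sum_congr rfl fun m hm => by rw [eβ (l + 1) m ((mem_range.mp hm).trans h2)]]
    refine (rel l).2.2.2.2.1 M h1 u ?_
    rcases hu with rfl | ⟨j, hj, rfl⟩
    · exact Or.inl rfl
    · exact Or.inr ⟨j, by omega, by simp only [eq l j (by omega)]⟩
  · simp only
    rw [sum_congr rfl fun m hm => by rw [eβ k m (mem_range.mp hm)]]
    exact (rel k).2.2.2.2.2

theorem exists_mass (q : ℕ → ℕ) (hq : ∀ j, Odd (q j) ∧ 9 + j ≤ q j) :
    ∃ (c : ℕ → ℝ) (m0 : ℝ), c 0 = 1 ∧ (∀ j, 0 < c j) ∧ (∀ j, c j ≤ (1 / 2) ^ j) ∧ 0 ≤ m0 ∧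
      ∀ k m, Ty q k m → m0 + ∑' j, c j * cs (q j) m =
        ∑' j, if j ≤ k then 0 else c j * (cs (q j) m - 1) := by
  have hx := fun j => xd (hq j).1 (by have := (hq j).2; omega)
  let c : ℕ → ℝ := fun k => Nat.rec 1 (fun j cj => cj * (dd (q j) - xx (q j)) / (1 - xx (q (j + 1)))) k
  have cs' : ∀ j, c (j + 1) = c j * (dd (q j) - xx (q j)) / (1 - xx (q (j + 1))) := fun _ => rfl
  have hc : ∀ j, 0 < c j ∧ c j ≤ (1 / 2) ^ j := by
    intro j
    induction j with
    | zero => simp [c]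
    | succ j ih =>
      have a := hx j
      have a' := hx (j + 1)
      rw [cs']
      refine ⟨div_pos (mul_pos ih.1 (by linarith)) (by linarith), ?_⟩
      rw [div_le_iff₀ (by linarith), pow_succ]
      calc _ ≤ (1 / 2) ^ j * (1 / 2) := mul_le_mul ih.2 (by linarith) (by linarith) (by positivity)
        _ ≤ _ := le_mul_of_one_le_right (by positivity) (by linarith)
  have sm : ∀ u : ℕ → ℝ, (∀ j, |u j| ≤ 2) → Summable fun j => c j * u j := fun u hu =>
    Summable.of_norm_bounded (summable_geometric_two.mul_right 2) fun j => by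
      rw [norm_mul, Real.norm_of_nonneg (hc j).1.le]
      exact mul_le_mul (hc j).2 (hu j) (norm_nonneg _) (by positivity)
  have bd : ∀ y, |cos y - 1| ≤ 2 := fun y => by
    rw [abs_le]; constructor <;> linarith [cos_le_one y, neg_one_le_cos y]
  have D : ∀ i, ∑ j ∈ range i, c j * (dd (q j) - 1) + c i * (xx (q i) - 1) = xx (q 0) - 1 := by
    intro i
    induction i with
    | zero => simp [c]
    | succ i ih =>
      have : 1 - xx (q (i + 1)) ≠ 0 := by linarith [hx (i + 1)]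
      rw [sum_range_succ, cs', ← ih]; field_simp; ring
  have D' : ∑' j, c j * (dd (q j) - 1) = xx (q 0) - 1 := by
    have t1 := (sm (fun j => dd (q j) - 1) fun j => bd _).hasSum.tendsto_sum_nat
    have t2 := (sm (fun j => xx (q j) - 1) fun j => bd _).tendsto_atTop_zero
    have t3 := t1.add t2
    simp only [D, add_zero] at t3
    exact (tendsto_const_nhds_iff.mp t3).symm
  have s1 : ∀ u : ℕ → ℝ, Summable fun j => c j * cos (u j) := fun u =>
    sm _ fun j => (abs_cos_le_one _).trans one_le_two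
  refine ⟨c, -∑' j, c j * dd (q j), rfl, fun j => (hc j).1, fun j => (hc j).2, ?_, ?_⟩
  · exact neg_nonneg.mpr (tsum_nonpos fun j => mul_nonpos_of_nonneg_of_nonpos (hc j).1.le
      (by linarith [hx j]))
  · rintro k m ⟨i, hi, a1, a2, a3⟩
    have e1 : -∑' j, c j * dd (q j) + ∑' j, c j * cs (q j) m =
        ∑' j, c j * (cs (q j) m - 1) - ∑' j, c j * (dd (q j) - 1) := by
      unfold dd cs
      rw [← (sm _ fun j => bd _).tsum_sub (sm _ fun j => bd _), neg_add_eq_sub, ← (s1 _).tsum_sub (s1 _)]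
      congr 1; ext j; ring
    have e2 : ∑ j ∈ range (k + 1), c j * (cs (q j) m - 1) = xx (q 0) - 1 := by
      rw [← D i, ← sum_range_add_sum_Ico _ (show i + 1 ≤ k + 1 by omega), sum_range_succ, a2,
        sum_eq_zero (s := Ico _ _) fun j hj => by
          have := mem_Ico.mp hj
          rw [a3 j (by omega) (by omega)]; simp,
        sum_congr rfl fun j hj => by rw [a1 j (mem_range.mp hj)], add_zero]
    have s2 : Summable fun j => if j ≤ k then 0 else c j * (cs (q j) m - 1) :=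
      (sm (fun j => if j ≤ k then 0 else cs (q j) m - 1) fun j => by
        split_ifs
        · simp
        · exact bd _).congr fun j => by split_ifs <;> simp
    rw [e1, D', ← (sm (fun j => cs (q j) m - 1) fun j => bd _).sum_add_tsum_nat_add (k + 1), ← s2.sum_add_tsum_nat_add (k + 1),
      sum_eq_zero (s := range (k + 1)) (f := fun j => if j ≤ k then 0 else c j * (cs (q j) m - 1))
        fun j hj => if_pos (by simpa [Nat.lt_succ_iff] using hj)]
    simp only [show ∀ j, ¬ (j + (k + 1) ≤ k) from fun j => by omega, if_false]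
    rw [e2]; ring

theorem exists_all : ∃ (q : ℕ → ℕ) (β c : ℕ → ℝ) (m0 : ℝ), (∀ j, 9 + j ≤ q j) ∧
    β 0 = 0 ∧ Tendsto β atTop (𝓝 0) ∧
    (∀ k u, Pt q k u → Tendsto (fun M => 1 + ∑ m ∈ range M, β m * u m) atTop (𝓝 0)) ∧
    c 0 = 1 ∧ (∀ j, 0 < c j) ∧ Summable c ∧ 0 ≤ m0 ∧
    ∀ M, ∑ m ∈ range M, |β m| * |m0 + ∑' j, c j * cs (q j) m| ≤ 1 / 4 := by
  obtain ⟨q, β, b, h1, h2, h3, h4, h5, h6, h7⟩ := exists_data
  obtain ⟨c, m0, c1, c2, c3, c4, c5⟩ := exists_mass q h1
  have cs0 : Summable c := Summable.of_nonneg_of_le (fun j => (c2 j).le) c3 summable_geometric_two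
  refine ⟨q, β, c, m0, fun j => (h1 j).2, h2, h3, h6, c1, c2, cs0, c4, fun M => ?_⟩
  let w : ℕ → ℕ → ℝ := fun m j => if 1 ≤ j ∧ m < b (j - 1) then
    c j / 2 * ((2 * π / q j) ^ 2 * (|β m| * m ^ 2)) else 0
  have w0 : ∀ m j, 0 ≤ w m j := fun m j => by
    have := c2 j
    simp only [w]; split_ifs <;> positivity
  have w1 : ∀ M j, ∑ m ∈ range M, w m j ≤ c j / 8 := by
    intro M j
    have := c2 j
    rcases j with _ | j
    · simp [w]; positivity
    · simp only [w, Nat.le_add_left, true_and, Nat.add_sub_cancel, ← sum_filter, ← mul_sum]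
      calc _ ≤ c (j + 1) / 2 * ((2 * π / q (j + 1)) ^ 2 * ∑ m ∈ range (b j), |β m| * m ^ 2) := by
            gcongr
            intro m hm
            exact mem_range.mpr (mem_filter.mp hm).2
        _ ≤ c (j + 1) / 2 * (1 / 4) := by gcongr; exact h7 j
        _ = _ := by ring
  have ws : ∀ m, Summable (w m) := fun m => Summable.of_nonneg_of_le (w0 m) (fun j =>
    (single_le_sum (f := fun m => w m j) (fun m _ => w0 m j) (self_mem_range_succ m)).trans (w1 _ j))
    (cs0.div_const 8)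
  calc _ ≤ ∑ m ∈ range M, ∑' j, w m j := by
        refine sum_le_sum fun m _ => ?_
        by_cases hm : β m = 0
        · rw [hm]; simpa using tsum_nonneg (w0 m)
        obtain ⟨k, k1, k2⟩ := h5 m hm
        rw [c5 k m k2, ← abs_mul, ← tsum_mul_left]
        rw [← Real.norm_eq_abs]
        refine tsum_of_norm_bounded (ws m).hasSum fun j => ?_
        split_ifs with hj
        · simpa using w0 m j
        · simp only [w]
          rw [if_pos ⟨by omega, k1.trans_le (h4 (by omega))⟩, Real.norm_eq_abs, abs_mul, abs_mul,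
            abs_of_pos (c2 j), abs_sub_comm, cs, abs_of_nonneg (sub_nonneg.mpr (cos_le_one _))]
          have := one_sub_sq_div_two_le_cos (x := m * (2 * π / q j))
          have := c2 j
          calc _ ≤ |β m| * (c j * ((m * (2 * π / q j)) ^ 2 / 2)) := by gcongr; linarith
            _ = _ := by ring
    _ = ∑' j, ∑ m ∈ range M, w m j := (Summable.tsum_finsetSum fun m _ => ws m).symm
    _ ≤ ∑' j : ℕ, (1 / 2 : ℝ) ^ j / 8 := Summable.tsum_le_tsum
        (fun j => (w1 M j).trans (by gcongr; exact c3 j)) (summable_sum fun m _ => ws m)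
        (summable_geometric_two.div_const 8)
    _ = _ := by rw [tsum_div_const, tsum_geometric_two]; norm_num

end Pool.Agent.H92.NullPair
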