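import Pool.Agent.H92.NullPair

set_option autoImplicit false
open Finset Filter Topology Real MeasureTheory

namespace Pool.Agent.H92.NullPair

lemma four (n : ℤ) (y : ℝ) : fourier n (y : AddCircle (2 * π)) = Complex.exp (n * y * Complex.I) := by
  rw [fourier_coe_apply]
  congr 1
  have : (π:ℂ) ≠ 0 := by exact_mod_cast pi_ne_zero
  push_cast; field_simp

lemma four2 (n : ℤ) (y : ℝ) : fourier n (y : AddCircle (2 * π)) + fourier (-n) (y : AddCircle (2 * π)) =
    (2 * cos (n.natAbs * y) : ℝ) := by
  have : cos (n.natAbs * y) = cos (n * y) := by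
    rw [Nat.cast_natAbs, Int.cast_abs]
    rcases abs_choice (n:ℝ) with h | h <;> rw [h]
    rw [neg_mul, cos_neg]
  rw [four, four, this]
  push_cast
  rw [Complex.two_cos]; congr 2; ring

lemma symm_sum (β : ℕ → ℝ) (h0 : β 0 = 0) (y : ℝ) (N : ℕ) :
    ∑ n ∈ Icc (-(N : ℤ)) (N : ℤ), ((β n.natAbs + if n = 0 then 2 else 0 : ℝ) : ℂ) *
      fourier n (y : AddCircle (2 * π)) = (2 * (1 + ∑ m ∈ range (N + 1), β m * cos (m * y)) : ℝ) := by
  induction N with
  | zero => simp [h0]
  | succ N ih =>
    rw [Nat.cast_add, Nat.cast_one, sum_Icc_succ_eq_add_endpoints, ih, sum_range_succ _ (N + 1),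
      if_neg (by omega), if_neg (by omega), Int.natAbs_neg, ← mul_add, four2,
      show ((N:ℤ) + 1).natAbs = N + 1 by omega]
    push_cast; ring

theorem main :
    ¬ (∀ (a : ℤ → ℂ) (F : Set (AddCircle (2 * π))) (μ : MeasureTheory.Measure (AddCircle (2 * π))),
      Filter.Tendsto a Filter.cofinite (nhds 0) →
      IsClosed F →
      (∀ t ∈ F, Filter.Tendsto
        (fun N : ℕ => ∑ n ∈ Finset.Icc (-(N : ℤ)) (N : ℤ), a n * fourier n t)
        Filter.atTop (nhds 0)) →
      MeasureTheory.IsFiniteMeasure μ →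
      μ Fᶜ = 0 →
      Summable (fun n : ℤ => ‖∫ t, fourier (-n) t ∂μ‖ * ‖a (-n)‖) →
      ∑' n : ℤ, (∫ t, fourier (-n) t ∂μ) * a (-n) = 0) := by
  intro H
  have : Fact (0 < 2 * π) := ⟨two_pi_pos⟩
  obtain ⟨q, β, c, m0, h1, h2, h3, h4, c1, c2, c3, c4, c5⟩ := exists_all
  let t : ℕ → ℝ := fun j => 2 * π / q j
  have t0 : Tendsto t atTop (𝓝 0) := by
    refine Tendsto.const_div_atTop (tendsto_natCast_atTop_atTop.comp ?_) _
    exact tendsto_atTop_mono (fun j => by have := h1 j; simp only [id]; omega) tendsto_id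
  have co : Continuous fun y : ℝ => (y : AddCircle (2 * π)) := continuous_quotient_mk'
  let F : Set (AddCircle (2 * π)) := insert ((0:ℝ) : AddCircle (2 * π)) (Set.range fun j => (t j : AddCircle (2 * π))) ∪
    insert ((0:ℝ) : AddCircle (2 * π)) (Set.range fun j => ((-t j : ℝ) : AddCircle (2 * π)))
  have Fc : IsClosed F := ((co.tendsto 0).comp t0).isCompact_insert_range.isClosed.union
    ((co.tendsto 0).comp (by simpa using t0.neg)).isCompact_insert_range.isClosed
  let ν : (ℕ → ℝ) → Measure (AddCircle (2 * π)) := fun y =>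
    Measure.sum fun j => ENNReal.ofReal (c j / 2) • Measure.dirac (y j : AddCircle (2 * π))
  have ν1 : ∀ y, IsFiniteMeasure (ν y) := fun y => ⟨by
    simp only [ν, Measure.sum_apply _ MeasurableSet.univ, Measure.smul_apply, measure_univ, smul_eq_mul, mul_one]
    rw [← ENNReal.ofReal_tsum_of_nonneg (fun j => by have := c2 j; positivity) (c3.div_const 2)]
    exact ENNReal.ofReal_lt_top⟩
  have ν2 : ∀ y : ℕ → ℝ, (∀ j, (y j : AddCircle (2 * π)) ∈ F) → ν y Fᶜ = 0 := fun y hy => by
    simp only [ν, Measure.sum_apply _ Fc.measurableSet.compl, Measure.smul_apply, smul_eq_mul,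
      ENNReal.tsum_eq_zero]
    intro j
    rw [Measure.dirac_apply, Set.indicator_of_notMem (by simpa using hy j), mul_zero]
  have ν3 : ∀ (y : ℕ → ℝ) (n : ℤ), HasSum (fun j => ((c j / 2 : ℝ) : ℂ) * fourier n (y j : AddCircle (2 * π)))
      (∫ x, fourier n x ∂ν y) := fun y n => by
    have := ν1 y
    have hi : Integrable (fun x => fourier n x) (ν y) :=
      (fourier n).continuous.integrable_of_hasCompactSupport (HasCompactSupport.of_compactSpace _)
    have e := hasSum_integral_measure hi
    simp only [integral_smul_measure, integral_dirac, Complex.real_smul,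
      fun j => ENNReal.toReal_ofReal (show 0 ≤ c j / 2 by have := c2 j; positivity)] at e
    exact e
  let μ : Measure (AddCircle (2 * π)) :=
    ENNReal.ofReal m0 • Measure.dirac ((0:ℝ) : AddCircle (2 * π)) + (ν t + ν fun j => -t j)
  let g : ℕ → ℝ := fun m => m0 + ∑' j, c j * cs (q j) m
  have sc : ∀ m, Summable fun j => c j * cs (q j) m := fun m =>
    Summable.of_norm_bounded c3 fun j => by
      rw [norm_mul, Real.norm_of_nonneg (c2 j).le]
      exact mul_le_of_le_one_right (c2 j).le (abs_cos_le_one _)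
  have f0 : IsFiniteMeasure (ENNReal.ofReal m0 • Measure.dirac ((0:ℝ) : AddCircle (2 * π))) :=
    ⟨by simp⟩
  have f1 := ν1 t
  have f2 := ν1 fun j => -t j
  have hat : ∀ n : ℤ, ∫ x, fourier n x ∂μ = g n.natAbs := fun n => by
    have hi : ∀ (ρ : Measure (AddCircle (2 * π))) [IsFiniteMeasure ρ], Integrable (fun x => fourier n x) ρ :=
      fun ρ _ => (fourier n).continuous.integrable_of_hasCompactSupport (HasCompactSupport.of_compactSpace _)
    rw [integral_add_measure (hi _) (hi _), integral_add_measure (hi _) (hi _), integral_smul_measure,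
      integral_dirac, ENNReal.toReal_ofReal c4]
    have a1 := (ν3 t n).add (ν3 (fun j => -t j) n)
    have a2 := Complex.hasSum_ofReal.mpr (sc n.natAbs).hasSum
    rw [a1.unique (by
      convert a2 using 2 with j
      have e : fourier n ((-t j : ℝ) : AddCircle (2 * π)) = fourier (-n) (t j : AddCircle (2 * π)) := by
        rw [four, four]; push_cast; ring_nf
      rw [e, ← mul_add, four2]; simp only [cs, t]; push_cast; ring)]
    simp [g]
  have S : Summable fun m => |β m| * |g m| :=
    summable_of_sum_range_le (fun m => by positivity) c5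
  have S' : ∑' m, |β m| * |g m| ≤ 1 / 4 := S.tsum_le_of_sum_range_le c5
  have S1 : Summable fun m => g m * β m := Summable.of_norm (by simpa [mul_comm] using S)
  have S2 : |∑' m, g m * β m| ≤ 1 / 4 := by
    refine le_trans ?_ S'
    rw [← Real.norm_eq_abs]
    exact tsum_of_norm_bounded S.hasSum fun m => by simp [mul_comm]
  have g0 : 1 ≤ g 0 := by
    have := c3.le_tsum 0 fun j _ => (c2 j).le
    simp only [g, cs, Nat.cast_zero, zero_mul, cos_zero, mul_one]; linarith
  have HS : HasSum (fun n : ℤ => g n.natAbs * (β n.natAbs + if n = 0 then 2 else 0))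
      (∑' m, g m * β m + ∑' m, g m * β m - 0 + g 0 * 2) := by
    simp only [mul_add]
    refine HasSum.add ?_ ?_
    · have e := HasSum.of_nat_of_neg (f := fun n : ℤ => g n.natAbs * β n.natAbs)
        (by simpa using S1.hasSum) (by simpa using S1.hasSum)
      simp only [Int.natAbs_zero, h2, mul_zero] at e
      exact e
    · convert hasSum_ite_eq (0:ℤ) (g 0 * 2) using 2 with n
      split_ifs with h <;> simp [h]
  have key := H (fun n => ((β n.natAbs + if n = 0 then 2 else 0 : ℝ) : ℂ)) F μ ?_ Fc ?_ inferInstance ?_ ?_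
  · simp only [hat, Int.natAbs_neg, neg_eq_zero, ← Complex.ofReal_mul, ← Complex.ofReal_tsum,
      Complex.ofReal_eq_zero, HS.tsum_eq] at key
    linarith [abs_le.mp S2]
  · rw [← Complex.ofReal_zero]
    refine (Complex.continuous_ofReal.tendsto 0).comp ?_
    rw [← add_zero (0:ℝ)]
    refine Tendsto.add (h3.comp ?_) ?_
    · rw [← Nat.cofinite_eq_atTop]
      exact Tendsto.cofinite_of_finite_preimage_singleton fun m =>
        Set.Finite.to_subtype ((Set.finite_Icc (-(m:ℤ)) m).subset fun n hn => by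
          simp at hn ⊢; omega)
    · refine tendsto_const_nhds.congr' ?_
      filter_upwards [eventually_cofinite_ne 0] with n hn
      simp [hn]
  · have aux : ∀ (y : ℝ) (u : ℕ → ℝ) (k : ℕ), Pt q k u → (∀ m : ℕ, cos (m * y) = u m) → Tendsto
        (fun N : ℕ => ∑ n ∈ Icc (-(N : ℤ)) (N : ℤ), ((β n.natAbs + if n = 0 then 2 else 0 : ℝ) : ℂ) *
          fourier n (y : AddCircle (2 * π))) atTop (𝓝 0) := by
      intro y u k hu hy
      simp only [symm_sum β h2, hy]
      rw [← Complex.ofReal_zero]
      refine (Complex.continuous_ofReal.tendsto 0).comp ?_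
      simpa using ((h4 k u hu).comp (tendsto_add_atTop_nat 1)).const_mul 2
    rintro x ((rfl | ⟨j, rfl⟩) | (rfl | ⟨j, rfl⟩))
    · exact aux 0 _ 0 (Or.inl rfl) (by simp)
    · exact aux _ _ (j + 1) (Or.inr ⟨j, by omega, rfl⟩) fun m => rfl
    · exact aux 0 _ 0 (Or.inl rfl) (by simp)
    · exact aux _ _ (j + 1) (Or.inr ⟨j, by omega, rfl⟩) fun m => by rw [mul_neg, cos_neg]; rfl
  · simp only [μ, Measure.add_apply, Measure.smul_apply]
    rw [ν2 t fun j => Or.inl (Or.inr ⟨j, rfl⟩), ν2 _ fun j => Or.inr (Or.inr ⟨j, rfl⟩),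
      Measure.dirac_apply, Set.indicator_of_notMem (by simp [F])]
    simp
  · simp only [hat, Int.natAbs_neg, neg_eq_zero, ← norm_mul, ← Complex.ofReal_mul, Complex.norm_real]
    exact HS.summable.norm

end Pool.Agent.H92.NullPair
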