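import Mathlib

open MeasureTheory Filter Topology Set Complex

namespace Pool.Agent.H92.Pat

theorem weak (μ : Measure ℝ) [IsFiniteMeasure μ] {a : ℕ → ℝ → UnitAddCircle} {w : ℕ → ℝ → ℂ}
    (ha : ∀ n, Continuous (a n)) (hw : ∀ n, Continuous (w n)) {C : ℝ} (hC : ∀ n x, ‖w n x‖ ≤ C)
    (c : ℂ) (h : ∀ k : ℤ, Tendsto (fun n => ∫ x, fourier k (a n x) * w n x ∂μ) atTop
      (𝓝 (if k = 0 then c else 0))) (φ : C(UnitAddCircle, ℂ)) :
    Tendsto (fun n => ∫ x, φ (a n x) * w n x ∂μ) atTop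
      (𝓝 ((∫ z, φ z ∂AddCircle.haarAddCircle) * c)) := by
  have C0 : 0 ≤ C := (norm_nonneg _).trans (hC 0 0)
  have bd : ∀ (φ : C(UnitAddCircle, ℂ)) n x, ‖φ (a n x) * w n x‖ ≤ ‖φ‖ * C := fun φ n x => by
    rw [norm_mul]
    exact mul_le_mul (φ.norm_coe_le_norm _) (hC n x) (norm_nonneg _) (norm_nonneg _)
  have i1 : ∀ (φ : C(UnitAddCircle, ℂ)) n, Integrable (fun x => φ (a n x) * w n x) μ :=
    fun φ n => .of_bound ((φ.continuous.comp (ha n)).mul (hw n)).aestronglyMeasurable _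
      (.of_forall (bd φ n))
  have i2 : ∀ φ : C(UnitAddCircle, ℂ), Integrable φ AddCircle.haarAddCircle := fun φ =>
    .of_bound φ.continuous.aestronglyMeasurable _ (.of_forall φ.norm_coe_le_norm)
  have sp : ∀ φ ∈ Submodule.span ℂ (range (@fourier 1)),
      Tendsto (fun n => ∫ x, φ (a n x) * w n x ∂μ) atTop
        (𝓝 ((∫ z, φ z ∂AddCircle.haarAddCircle) * c)) := by
    intro φ hφ
    induction hφ using Submodule.span_induction with
    | mem φ hφ =>
      obtain ⟨k, rfl⟩ := hφ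
      convert h k using 2
      have := congrFun (fourierCoeff_fourier (T := 1) k) 0
      simp only [fourierCoeff, neg_zero, fourier_zero, one_smul] at this
      rw [this]
      by_cases hk : k = 0 <;> simp [hk]
    | zero => simp
    | add φ ψ _ _ p q =>
      simp only [ContinuousMap.add_apply, add_mul, integral_add (i1 φ _) (i1 ψ _),
        integral_add (i2 φ) (i2 ψ)]
      exact p.add q
    | smul t φ _ p =>
      simp only [ContinuousMap.smul_apply, smul_eq_mul, mul_assoc, integral_const_mul]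
      exact p.const_mul t
  refine Metric.tendsto_atTop.mpr fun ε hε => ?_
  obtain ⟨δ, ⟨d1, d2⟩, d0⟩ : ∃ δ : ℝ, (δ * C * μ.real univ < ε / 3 ∧ δ * ‖c‖ < ε / 3) ∧ 0 < δ := by
    have : ∀ᶠ δ in 𝓝 (0 : ℝ), δ * C * μ.real univ < ε / 3 ∧ δ * ‖c‖ < ε / 3 :=
      (ContinuousAt.eventually_lt (by fun_prop) (by fun_prop) (by simpa using hε)).and
        (ContinuousAt.eventually_lt (by fun_prop) (by fun_prop) (by simpa using hε))
    exact ((this.filter_mono nhdsWithin_le_nhds).and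
      (self_mem_nhdsWithin (s := Ioi (0 : ℝ)))).exists
  have hφ : φ ∈ (Submodule.span ℂ (range (@fourier 1))).topologicalClosure := by
    rw [span_fourier_closure_eq_top]; trivial
  obtain ⟨ψ, hψ, d⟩ := Metric.mem_closure_iff.mp hφ δ d0
  rw [dist_eq_norm] at d
  obtain ⟨N, hN⟩ := Metric.tendsto_atTop.mp (sp ψ hψ) (ε / 3) (by positivity)
  refine ⟨N, fun n hn => ?_⟩
  have b1 : dist (∫ x, φ (a n x) * w n x ∂μ) (∫ x, ψ (a n x) * w n x ∂μ) < ε / 3 := by
    rw [dist_eq_norm, ← integral_sub (i1 _ _) (i1 _ _)]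
    refine lt_of_le_of_lt (norm_integral_le_of_norm_le_const (C := δ * C)
      (.of_forall fun x => ?_)) d1
    rw [← sub_mul]
    exact (bd (φ - ψ) n x).trans (mul_le_mul_of_nonneg_right d.le C0)
  have b2 : dist ((∫ z, ψ z ∂AddCircle.haarAddCircle) * c)
      ((∫ z, φ z ∂AddCircle.haarAddCircle) * c) < ε / 3 := by
    rw [dist_comm, dist_eq_norm, ← sub_mul, ← integral_sub (i2 _) (i2 _), norm_mul]
    refine lt_of_le_of_lt (mul_le_mul_of_nonneg_right ?_ (norm_nonneg _)) d2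
    simpa using norm_integral_le_of_norm_le_const (μ := AddCircle.haarAddCircle (T := 1))
      (f := fun z => φ z - ψ z) (C := δ)
      (.of_forall fun z => ((φ - ψ).norm_coe_le_norm z).trans d.le)
  linarith [dist_triangle4 (∫ x, φ (a n x) * w n x ∂μ) (∫ x, ψ (a n x) * w n x ∂μ)
    ((∫ z, ψ z ∂AddCircle.haarAddCircle) * c) ((∫ z, φ z ∂AddCircle.haarAddCircle) * c), hN n hn]

noncomputable def tent (m r : ℝ) (z : UnitAddCircle) : ℝ := max 0 (r - ‖z - (m : UnitAddCircle)‖)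

theorem tent_cont (m r : ℝ) : Continuous (tent m r) := by unfold tent; fun_prop

theorem null (μ : Measure ℝ) [IsFiniteMeasure μ]
    (h : Tendsto (fun ξ : ℝ => ∫ x, exp (-2 * Real.pi * I * x * ξ) ∂μ) (cocompact ℝ) (𝓝 0))
    {l : ℕ → ℝ} (hl : Tendsto l atTop atTop) {m r m' r' : ℝ} (r0 : 0 < r)
    (hz : ∀ n, ∀ᵐ x ∂μ, tent m r (l n * x : ℝ) * tent m' r' (x : ℝ) = 0) :
    ∀ᵐ x ∂μ, tent m' r' (x : ℝ) = 0 := by
  let g : C(UnitAddCircle, ℂ) := ⟨fun z => tent m' r' z, continuous_ofReal.comp (tent_cont _ _)⟩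
  let φ : C(UnitAddCircle, ℂ) := ⟨fun z => tent m r z, continuous_ofReal.comp (tent_cont _ _)⟩
  have cc : Continuous fun x : ℝ => (x : UnitAddCircle) := continuous_quot_mk
  have nf : ∀ (k : ℤ) (z : UnitAddCircle), ‖fourier k z‖ ≤ 1 := fun k z =>
    ((fourier k).norm_coe_le_norm z).trans (fourier_norm k).le
  have s2 := weak μ (a := fun n x => (l n * x : ℝ)) (w := fun _ x => g (x : ℝ))
    (fun n => cc.comp (by fun_prop)) (fun _ => g.continuous.comp cc)
    (fun _ _ => g.norm_coe_le_norm _) (∫ x, g (x : ℝ) ∂μ) (fun k => by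
      split_ifs with hk
      · simp [hk]
      have := weak μ (a := fun _ x => (x : ℝ)) (w := fun n x => fourier k (l n * x : ℝ))
        (fun _ => cc) (fun n => (fourier k).continuous.comp (cc.comp (by fun_prop)))
        (fun _ _ => nf _ _) 0 (fun j => by
          have t : Tendsto (fun n => -(j + k * l n : ℝ)) atTop (cocompact ℝ) := by
            rw [← Metric.cobounded_eq_cocompact, ← tendsto_norm_atTop_iff_cobounded]
            have k1 : (1 : ℝ) ≤ |(k : ℝ)| := by exact_mod_cast Int.one_le_abs hk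
            refine tendsto_atTop_mono (fun n => ?_) (tendsto_atTop_add_const_right _ (-|(j : ℝ)|) hl)
            have := abs_sub (j + k * l n : ℝ) j
            rw [add_sub_cancel_left, abs_mul] at this
            rw [norm_neg, Real.norm_eq_abs]
            nlinarith [le_abs_self (l n), abs_nonneg (l n)]
          rw [ite_self]
          refine (h.comp t).congr fun n => integral_congr_ae (.of_forall fun x => ?_)
          simp only [fourier_coe_apply, ← exp_add]
          congr 1; push_cast; ring) g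
      rw [mul_zero] at this
      simpa only [mul_comm] using this) φ
  have e : ∀ n, ∫ x, φ (l n * x : ℝ) * g (x : ℝ) ∂μ = 0 := fun n =>
    integral_eq_zero_of_ae (by
      filter_upwards [hz n] with x hx
      show ((tent m r _ : ℝ) : ℂ) * (tent m' r' _ : ℝ) = 0
      exact_mod_cast hx)
  simp only [e] at s2
  have z := tendsto_nhds_unique s2 tendsto_const_nhds
  have p : 0 < ∫ z, tent m r z ∂AddCircle.haarAddCircle :=
    (tent_cont m r).integral_pos_of_hasCompactSupport_nonneg_nonzero (x := (m : ℝ))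
      (HasCompactSupport.of_compactSpace _) (fun _ => le_max_left _ _) (by simpa [tent] using r0)
  simp only [φ, g, ContinuousMap.coe_mk, integral_complex_ofReal, mul_eq_zero, ofReal_eq_zero,
    p.ne', false_or] at z
  refine (integral_eq_zero_iff_of_nonneg (fun _ => le_max_left _ _) ?_).mp z
  exact .of_bound ((tent_cont _ _).comp cc).aestronglyMeasurable ‖g‖ (.of_forall fun x =>
    (norm_real _).symm.trans_le (g.norm_coe_le_norm (x : ℝ)))

variable {B : ℕ}

theorem shift (B0 : 0 < B) (d : ℕ → Fin B) (n : ℕ) : ∃ k : ℤ, ∃ r ∈ Icc (0 : ℝ) 1,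
    B ^ n * Real.ofDigits d = k + ((d n : ℕ) + r) / B := by
  have : (B : ℝ) ≠ 0 := by positivity
  refine ⟨∑ i ∈ Finset.range n, (d i : ℕ) * B ^ (n - (i + 1)), _,
    ⟨Real.ofDigits_nonneg fun i => d (i + (n + 1)), Real.ofDigits_le_one _⟩, ?_⟩
  rw [Real.ofDigits_eq_sum_add_ofDigits d (n + 1), Finset.sum_range_succ, mul_add, mul_add,
    Finset.mul_sum]
  push_cast
  rw [add_assoc]
  congr 1
  · refine Finset.sum_congr rfl fun i hi => ?_
    obtain ⟨j, rfl⟩ := Nat.exists_eq_add_of_le (Finset.mem_range.mp hi)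
    simp only [Real.ofDigitsTerm, Nat.succ_eq_add_one, Nat.add_sub_cancel_left]
    field_simp
    ring
  · simp only [Real.ofDigitsTerm]
    field_simp
    ring

def K (B : ℕ) : Set ℝ := Real.ofDigits '' {d : ℕ → Fin B | ∀ n, (d n : ℕ) ≠ 0}

theorem K_sub : K B ⊆ Icc 0 1 := by
  rintro _ ⟨d, -, rfl⟩; exact ⟨Real.ofDigits_nonneg d, Real.ofDigits_le_one d⟩

theorem K_compact : IsCompact (K B) := by
  refine (IsClosed.isCompact ?_).image Real.continuous_ofDigits
  simp only [ofPred_forall]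
  exact isClosed_iInter fun n =>
    (isClosed_discrete {i : Fin B | (i : ℕ) ≠ 0}).preimage
      (continuous_apply (A := fun _ : ℕ => Fin B) n)

theorem K_gap (B0 : 0 < B) {y : ℝ} (hy : y ∈ K B) (n : ℕ) :
    ∃ k : ℤ, 1 / (B : ℝ) ≤ B ^ n * y - k ∧ B ^ n * y - k ≤ 1 := by
  obtain ⟨d, hd, rfl⟩ := hy
  obtain ⟨k, r, hr, e⟩ := shift B0 d n
  have b0 : (0 : ℝ) < B := by positivity
  have a1 : (1 : ℝ) ≤ (d n : ℕ) := by exact_mod_cast Nat.one_le_iff_ne_zero.mpr (hd n)
  have a2 : ((d n : ℕ) : ℝ) + 1 ≤ B := by exact_mod_cast (d n).2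
  refine ⟨k, ?_, ?_⟩ <;> rw [e, add_sub_cancel_left]
  · gcongr; linarith [hr.1]
  · rw [div_le_one b0]; linarith [hr.2]

theorem mem_K (B1 : 1 < B) {y : ℝ} (hy : y ∈ Ico (0 : ℝ) 1)
    (h : ∀ n : ℕ, ∃ k : ℤ, 1 / (B : ℝ) ≤ B ^ n * y - k ∧ B ^ n * y - k < 1) : y ∈ K B := by
  have : NeZero B := ⟨by omega⟩
  have b0 : (0 : ℝ) < B := by positivity
  refine ⟨Real.digits y B, fun n h0 => ?_, Real.ofDigits_digits B1 hy⟩
  obtain ⟨k, h1, h2⟩ := h n
  obtain ⟨m, hm⟩ := Nat.dvd_of_mod_eq_zero (show ⌊y * B ^ (n + 1)⌋₊ % B = 0 from h0)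
  have a1 := Nat.floor_le (show 0 ≤ y * B ^ (n + 1) by have := hy.1; positivity)
  have a2 := Nat.lt_floor_add_one (y * B ^ (n + 1))
  rw [hm, pow_succ] at a1 a2
  push_cast at a1 a2
  rw [div_le_iff₀ b0] at h1
  have c1 : ((m : ℤ) : ℝ) < (k + 1 : ℤ) := by push_cast; nlinarith
  have c2 : (k : ℝ) < ((m : ℤ) : ℝ) := by push_cast; nlinarith
  have := Int.cast_lt.mp c1
  have := Int.cast_lt.mp c2
  omega

theorem K_acc (B2 : 2 < B) {y : ℝ} (hy : y ∈ K B) {ε : ℝ} (hε : 0 < ε) :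
    ∃ z ∈ K B, z ≠ y ∧ |z - y| < ε := by
  obtain ⟨d, hd, rfl⟩ := hy
  have b1 : (1 : ℝ) < B := by exact_mod_cast (by omega : 1 < B)
  obtain ⟨n, hn⟩ := exists_pow_lt_of_lt_one hε (inv_lt_one_of_one_lt₀ b1)
  obtain ⟨v, v0, v1⟩ : ∃ v : Fin B, (v : ℕ) ≠ 0 ∧ (v : ℕ) ≠ d n := by
    by_cases h : (d n : ℕ) = 1
    · exact ⟨⟨2, B2⟩, by simp, by simp [h]⟩
    · exact ⟨⟨1, by omega⟩, by simp, by simpa using Ne.symm h⟩
  refine ⟨_, ⟨Function.update d n v, fun i => ?_, rfl⟩, fun e => ?_, ?_⟩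
  · rcases eq_or_ne i n with rfl | h
    · simpa using v0
    · simpa [h] using hd i
  · rw [Real.ofDigits_eq_sum_add_ofDigits _ (n + 1), Real.ofDigits_eq_sum_add_ofDigits d (n + 1),
      Finset.sum_range_succ, Finset.sum_range_succ,
      Finset.sum_congr rfl (g := Real.ofDigitsTerm d) fun i hi => by
        simp [Real.ofDigitsTerm, (Finset.mem_range.mp hi).ne],
      show (fun i => Function.update d n v (i + (n + 1))) = fun i => d (i + (n + 1)) from
        funext fun i => Function.update_of_ne (by omega) _ _] at e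
    simp only [Real.ofDigitsTerm, Function.update_self, add_left_inj, add_right_inj] at e
    exact v1 (by exact_mod_cast mul_right_cancel₀ (by positivity) e)
  · refine (Real.abs_ofDigits_sub_ofDigits_le (n := n) fun i hi => ?_).trans_lt (by rwa [← inv_pow])
    exact Function.update_of_ne hi.ne _ _

theorem K_pat (F : Finset ℝ) (hB : 3 * F.card + 3 < B) :
    ∃ a b : ℝ, 0 < b ∧ ∀ x ∈ F, a + b * x ∈ K B := by
  classical
  have B0 : 0 < B := by omega
  have b3 : (3 : ℝ) < B := by exact_mod_cast (by omega : 3 < B)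
  set R := ∑ x ∈ F, |x| with hR
  have R0 : 0 ≤ R := Finset.sum_nonneg fun _ _ => abs_nonneg _
  let s : ℝ → ℝ := fun x => 1 / 2 + 1 / (2 * (R + 1)) * x
  have hs : ∀ x ∈ F, 0 ≤ s x ∧ s x < 1 := fun x hx => by
    have h1 : |x| ≤ R := Finset.single_le_sum (f := fun x => |x|) (fun _ _ => abs_nonneg _) hx
    have h2 : |1 / (2 * (R + 1)) * x| < 1 / 2 := by
      rw [abs_mul, abs_of_pos (by positivity), div_mul_eq_mul_div,
        div_lt_div_iff₀ (by positivity) two_pos]; linarith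
    constructor <;> simp only [s] <;> linarith [abs_lt.mp h2]
  let e : ℕ → ℝ → ℤ := fun n x => ⌊(B : ℝ) ^ (n + 1) * s x⌋
  have ex : ∀ n, ∃ t : Fin B, ∀ x ∈ F, ∀ i < 3, ¬ (B : ℤ) ∣ t + e n x + (i : ℕ) := fun n => by
    let S := (F ×ˢ Finset.range 3).image fun p : ℝ × ℕ => ((-(e n p.1 + p.2)) % B).toNat
    obtain ⟨t, h1, h2⟩ := Finset.exists_mem_notMem_of_card_lt_card (s := S) (t := Finset.range B)
      (Finset.card_image_le.trans_lt (by simp; omega))
    refine ⟨⟨t, Finset.mem_range.mp h1⟩, fun x hx i hi hd => h2 (Finset.mem_image.mpr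
      ⟨(x, i), Finset.mem_product.mpr ⟨hx, Finset.mem_range.mpr hi⟩, ?_⟩)⟩
    have : (-(e n x + i)) % B = t := by
      rw [← Int.emod_eq_of_lt (a := (t : ℤ)) (b := B) (by positivity)
        (by exact_mod_cast Finset.mem_range.mp h1)]
      exact (Int.modEq_iff_dvd.mpr (by convert hd using 1; push_cast; ring))
    simp only [this, Int.toNat_natCast]
  choose t ht using ex
  have a0 := Real.ofDigits_nonneg t
  have a1 := Real.ofDigits_le_one t
  refine ⟨(1 + Real.ofDigits t + 1 / 2) / B, 1 / (2 * (R + 1)) / B, by positivity, fun x hx => ?_⟩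
  have e0 : (1 + Real.ofDigits t + 1 / 2) / B + 1 / (2 * (R + 1)) / B * x =
      (1 + Real.ofDigits t + s x) / B := by simp only [s]; ring
  obtain ⟨s0, s1⟩ := hs x hx
  have l1 : (1 + Real.ofDigits t + s x) / B < 1 := by rw [div_lt_one (by linarith)]; linarith
  rw [e0]
  refine mem_K (by omega) ⟨by positivity, l1⟩ fun n => ?_
  rcases n with _ | n
  · refine ⟨0, ?_, by simpa using l1⟩
    simp only [pow_zero, one_mul, Int.cast_zero, sub_zero]
    gcongr; linarith
  obtain ⟨k, r, hr, hk⟩ := shift B0 t n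
  have f1 := Int.floor_le ((B : ℝ) ^ (n + 1) * s x)
  have f2 := Int.lt_floor_add_one ((B : ℝ) ^ (n + 1) * s x)
  set u : ℤ := (t n : ℕ) + e n x with hu
  have q0 := Int.emod_nonneg u (show (B : ℤ) ≠ 0 by omega)
  have q1 := Int.emod_lt_of_pos u (show (0 : ℤ) < B by omega)
  have q2 := Int.mul_ediv_add_emod u B
  have n0 : u % B ≠ 0 := fun h => ht n x hx 0 (by omega) ⟨u / B, by simp; omega⟩
  have n1 : u % B ≠ B - 1 := fun h => ht n x hx 1 (by omega) ⟨u / B + 1, by
    rw [mul_add]; simp; omega⟩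
  have r1 : (1 : ℝ) ≤ (u % B : ℤ) := by exact_mod_cast (by omega : 1 ≤ u % B)
  have r2 : ((u % B : ℤ) : ℝ) + 2 ≤ B := by exact_mod_cast (by omega : u % B + 2 ≤ B)
  have r3 : (B : ℝ) * (u / B : ℤ) + (u % B : ℤ) = (t n : ℕ) + ⌊(B : ℝ) ^ (n + 1) * s x⌋ := by
    have : ((B * (u / B) + u % B : ℤ) : ℝ) = ((t n : ℕ) + e n x : ℤ) := by rw [q2]
    simpa only [Int.cast_add, Int.cast_mul, Int.cast_natCast] using this
  have e1 : (B : ℝ) ^ (n + 1) * ((1 + Real.ofDigits t + s x) / B) - (B ^ n + k + u / B : ℤ) =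
      ((u % B : ℤ) + r + ((B : ℝ) ^ (n + 1) * s x - ⌊(B : ℝ) ^ (n + 1) * s x⌋)) / B := by
    have : (B : ℝ) ≠ 0 := by positivity
    rw [Int.cast_add, Int.cast_add, Int.cast_pow, Int.cast_natCast]
    field_simp at hk ⊢
    linear_combination hk - r3
  refine ⟨B ^ n + k + u / B, ?_, ?_⟩ <;> rw [e1]
  · gcongr; linarith [hr.1]
  · rw [div_lt_one (by linarith)]; linarith [hr.2]

end Pool.Agent.H92.Pat
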