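import Mathlib

set_option autoImplicit false

/-! Independent bond percolation on a finite vertex set: finite sums, and a bound on the mean
cluster size. -/

namespace Pool.Agent.H92.Perc

open Finset Classical

section Ex
variable {ι : Type} [DecidableEq ι]

/-- expectation of `f` for the random subset of `U` containing each `e` with probability `q e` -/
noncomputable def Ex (q : ι → ℝ) (U : Finset ι) (f : Finset ι → ℝ) : ℝ :=
  ∑ ω ∈ U.powerset, (∏ e ∈ ω, q e) * (∏ e ∈ U \ ω, (1 - q e)) * f ω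

variable {q : ι → ℝ} {U : Finset ι}

lemma Ex_const (c : ℝ) : Ex q U (fun _ => c) = c := by
  unfold Ex
  rw [← sum_mul, ← prod_add]
  simp

lemma Ex_add (f g : Finset ι → ℝ) : Ex q U (fun ω => f ω + g ω) = Ex q U f + Ex q U g := by
  simp only [Ex, mul_add, sum_add_distrib]

lemma Ex_sub (f g : Finset ι → ℝ) : Ex q U (fun ω => f ω - g ω) = Ex q U f - Ex q U g := by
  simp only [Ex, mul_sub, sum_sub_distrib]

lemma Ex_mul (c : ℝ) (f : Finset ι → ℝ) : Ex q U (fun ω => c * f ω) = c * Ex q U f := by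
  simp only [Ex, mul_sum]
  exact sum_congr rfl fun _ _ => by ring

lemma Ex_sum {κ : Type} (s : Finset κ) (f : κ → Finset ι → ℝ) :
    Ex q U (fun ω => ∑ k ∈ s, f k ω) = ∑ k ∈ s, Ex q U (f k) := by
  simp only [Ex, mul_sum]
  exact sum_comm

lemma Ex_mono (h0 : ∀ e, 0 ≤ q e) (h1 : ∀ e, q e ≤ 1) {f g : Finset ι → ℝ}
    (h : ∀ ω ⊆ U, f ω ≤ g ω) : Ex q U f ≤ Ex q U g :=
  sum_le_sum fun ω hω => mul_le_mul_of_nonneg_left (h ω (mem_powerset.1 hω))
    (mul_nonneg (prod_nonneg fun e _ => h0 e) (prod_nonneg fun e _ => sub_nonneg.2 (h1 e)))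

lemma Ex_congr {f g : Finset ι → ℝ} (h : ∀ ω ⊆ U, f ω = g ω) : Ex q U f = Ex q U g :=
  sum_congr rfl fun ω hω => by rw [h ω (mem_powerset.1 hω)]

lemma Ex_insert {e : ι} (he : e ∉ U) (f : Finset ι → ℝ) :
    Ex q (insert e U) f = q e * Ex q U (fun ω => f (insert e ω)) + (1 - q e) * Ex q U f := by
  unfold Ex
  rw [sum_powerset_insert he, add_comm, mul_sum, mul_sum]
  congr 1
  · refine sum_congr rfl fun ω hω => ?_
    have h1 : e ∉ ω := fun h => he (mem_powerset.1 hω h)
    have h2 : insert e U \ insert e ω = U \ ω := by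
      ext x
      simp only [mem_sdiff, mem_insert]
      constructor
      · rintro ⟨a | a, b⟩
        · exact absurd (Or.inl a) b
        · exact ⟨a, fun c => b (Or.inr c)⟩
      · rintro ⟨a, b⟩
        exact ⟨Or.inr a, fun c => c.elim (fun c => he (c ▸ a)) b⟩
    rw [prod_insert h1, h2]
    ring
  · refine sum_congr rfl fun ω hω => ?_
    have h1 : e ∉ ω := fun h => he (mem_powerset.1 hω h)
    rw [insert_sdiff_of_notMem _ h1, prod_insert fun h => he (mem_sdiff.1 h).1]
    ring

lemma Ex_indep {e : ι} (he : e ∈ U) (g : Finset ι → ℝ) (hg : ∀ ω, g (insert e ω) = g ω) :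
    Ex q U (fun ω => if e ∈ ω then g ω else 0) = q e * Ex q U g := by
  rw [← insert_erase he, Ex_insert (notMem_erase e U), Ex_insert (notMem_erase e U)]
  have h1 : Ex q (U.erase e) (fun ω => if e ∈ ω then g ω else 0) = 0 := by
    exact (Ex_congr fun ω hω => if_neg fun h => notMem_erase e U (hω h)).trans (Ex_const 0)
  simp only [h1, mem_insert_self, if_true, hg]
  ring

lemma Ex_cyl {D T : Finset ι} (hT : T ⊆ D) (hD : D ⊆ U) :
    Ex q U (fun ω => if ω ∩ D = T then 1 else 0) = (∏ e ∈ T, q e) * ∏ e ∈ D \ T, (1 - q e) := by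
  obtain ⟨R, hR, rfl⟩ : ∃ R, Disjoint R D ∧ U = R ∪ D :=
    ⟨U \ D, sdiff_disjoint, (sdiff_union_of_subset hD).symm⟩
  clear hD
  induction R using Finset.induction_on with
  | empty =>
    rw [empty_union, Ex, sum_eq_single T]
    · simp [inter_eq_left.2 hT]
    · intro ω hω hne
      rw [inter_eq_left.2 (mem_powerset.1 hω), if_neg hne, mul_zero]
    · exact fun h => absurd (mem_powerset.2 hT) h
  | insert a R ha ih =>
    rw [disjoint_insert_left] at hR
    have h1 : a ∉ R ∪ D := by simp [ha, hR.1]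
    rw [insert_union, Ex_insert h1]
    simp only [insert_inter_of_notMem hR.1]
    rw [ih hR.2]
    ring

end Ex

variable {V : Type} [Fintype V] [DecidableEq V]

/-- the possible edges -/
noncomputable def E (V : Type) [Fintype V] [DecidableEq V] : Finset (Sym2 V) := univ.filter fun e => ¬ e.IsDiag

/-- the cluster of `v` -/
noncomputable def C (ω : Finset (Sym2 V)) (v : V) : Finset V :=
  univ.filter fun u => (SimpleGraph.fromEdgeSet (ω : Set (Sym2 V))).Reachable v u

lemma mem_C {ω : Finset (Sym2 V)} {v u : V} :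
    u ∈ C ω v ↔ (SimpleGraph.fromEdgeSet (ω : Set (Sym2 V))).Reachable v u := by
  simp [C]

lemma C_ind {ω : Finset (Sym2 V)} {v : V} (P : V → Prop) (h0 : P v)
    (h1 : ∀ x y, x ∈ C ω v → P x → s(x, y) ∈ ω → P y) : ∀ u ∈ C ω v, P u := by
  intro u hu
  rw [mem_C, SimpleGraph.reachable_iff_reflTransGen] at hu
  induction hu with
  | refl => exact h0
  | tail a b ih =>
    refine h1 _ _ (mem_C.2 ((SimpleGraph.reachable_iff_reflTransGen _ _).2 a)) ih ?_
    exact mem_coe.1 ((SimpleGraph.fromEdgeSet_adj _).1 b).1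

lemma C_self (ω : Finset (Sym2 V)) (v : V) : v ∈ C ω v := mem_C.2 (SimpleGraph.Reachable.refl _)

lemma C_step {ω : Finset (Sym2 V)} {v x y : V} (hx : x ∈ C ω v) (h : s(x, y) ∈ ω) :
    y ∈ C ω v := by
  by_cases hxy : x = y
  · exact hxy ▸ hx
  · exact mem_C.2 ((mem_C.1 hx).trans (SimpleGraph.Adj.reachable
      ((SimpleGraph.fromEdgeSet_adj _).2 ⟨mem_coe.2 h, hxy⟩)))

lemma C_mono {ω ω' : Finset (Sym2 V)} (h : ω ⊆ ω') (v : V) : C ω v ⊆ C ω' v :=
  C_ind (fun u => u ∈ C ω' v) (C_self _ _) fun _ _ _ hx hxy => C_step hx (h hxy)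

lemma C_eq {ω : Finset (Sym2 V)} {v u : V} (h : u ∈ C ω v) : C ω u = C ω v := by
  ext w
  rw [mem_C, mem_C]
  exact ⟨fun a => (mem_C.1 h).trans a, fun a => (mem_C.1 h).symm.trans a⟩

/-- `e` touches the cluster of `v` -/
def Tch (ω : Finset (Sym2 V)) (v : V) (e : Sym2 V) : Prop := ∃ x ∈ e, x ∈ C ω v

lemma Tch_insert (ω : Finset (Sym2 V)) (v : V) (e : Sym2 V) :
    Tch (insert e ω) v e ↔ Tch ω v e := by
  constructor
  · rintro ⟨x, hx, hx'⟩
    have := C_ind (fun u => u ∈ C ω v ∨ Tch ω v e) (Or.inl (C_self _ _)) (ω := insert e ω)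
      (v := v) (fun a b _ ha hab => by
        rcases ha with ha | ha
        · rcases mem_insert.1 hab with h | h
          · exact Or.inr ⟨a, h ▸ Sym2.mem_mk_left a b, ha⟩
          · exact Or.inl (C_step ha h)
        · exact Or.inr ha) x hx'
    exact this.elim (fun h => ⟨x, hx, h⟩) id
  · rintro ⟨x, hx, hx'⟩
    exact ⟨x, hx, C_mono (subset_insert _ _) v hx'⟩

lemma card_le (ω : Finset (Sym2 V)) (v : V) :
    (C ω v).card ≤ ((E V).filter fun e => e ∈ ω ∧ Tch ω v e).card + 1 := by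
  set G := SimpleGraph.fromEdgeSet (ω : Set (Sym2 V))
  have h : ∀ u ∈ (C ω v).erase v, ∃ w, G.Adj u w ∧ G.dist w v < G.dist u v := by
    intro u hu
    obtain ⟨p, hp⟩ := (mem_C.1 (mem_of_mem_erase hu)).symm.exists_walk_length_eq_dist
    cases p with
    | nil => exact absurd rfl (ne_of_mem_erase hu)
    | cons a p =>
      refine ⟨_, a, ?_⟩
      have := SimpleGraph.dist_le p
      rw [SimpleGraph.Walk.length_cons] at hp
      exact lt_of_le_of_lt this (by rw [← hp]; exact Nat.lt_succ_self _)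
  choose! w hw using h
  rw [← card_erase_add_one (C_self ω v)]
  refine Nat.add_le_add_right (card_le_card_of_injOn (fun u => s(u, w u)) ?_ ?_) 1
  · intro u hu
    have h1 := (hw u hu).1
    have h2 := (SimpleGraph.fromEdgeSet_adj _).1 h1
    simp only [coe_filter, E, mem_filter, mem_univ, true_and, Set.mem_ofPred_eq,
      Sym2.mk_isDiag_iff]
    exact ⟨h2.2, mem_coe.1 h2.1, u, Sym2.mem_mk_left _ _, mem_of_mem_erase hu⟩
  · intro a ha b hb hab
    rcases Sym2.eq_iff.1 hab with h | h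
    · exact h.1
    · have h1 := (hw a ha).2
      have h2 := (hw b hb).2
      rw [h.2] at h1
      rw [← h.1] at h2
      omega

lemma dbl (g : Sym2 V → ℝ) (S : Finset V) :
    ∑ e ∈ E V, g e * (S.filter fun x => x ∈ e).card = ∑ x ∈ S, ∑ y ∈ univ.erase x, g s(x, y) := by
  simp only [card_filter, Nat.cast_sum, mul_sum]
  rw [sum_comm]
  refine sum_congr rfl fun x _ => ?_
  simp only [Nat.cast_ite, Nat.cast_one, Nat.cast_zero, mul_ite, mul_one, mul_zero]
  rw [← sum_filter]
  symm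
  refine sum_bij (fun y _ => s(x, y)) ?_ ?_ ?_ fun _ _ => rfl
  · intro y hy
    simp [E, (ne_of_mem_erase hy).symm]
  · intro a _ b _ h
    exact Sym2.congr_right.1 h
  · intro e he
    simp only [E, mem_filter, mem_univ, true_and] at he
    obtain ⟨y, rfl⟩ := Sym2.mem_iff_exists.1 he.2
    exact ⟨y, mem_erase.2 ⟨fun h => he.1 (by simp [h]), mem_univ _⟩, rfl⟩

lemma cnt_le (S : Finset V) (e : Sym2 V) : (S.filter fun x => x ∈ e).card ≤ 2 := by
  induction e using Sym2.ind with
  | h a b =>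
    refine (card_le_card (t := {a, b}) fun x hx => ?_).trans card_le_two
    simpa using (mem_filter.1 hx).2

/-- mean cluster size -/
theorem chi {q : Sym2 V → ℝ} (h0 : ∀ e, 0 ≤ q e) (h1 : ∀ e, q e ≤ 1) {m s : ℝ}
    (hm : ∀ x, ∑ y ∈ univ.erase x, q s(x, y) ≤ m)
    (hs : ∀ x, s ≤ ∑ y ∈ univ.erase x, q s(x, y) ^ 2) (v : V) :
    (1 - m + s / 2) * Ex q (E V) (fun ω => (C ω v).card) ≤ 1 := by
  set t : Sym2 V → Finset (Sym2 V) → ℝ := fun e ω => if Tch ω v e then 1 else 0 with ht
  have ti : ∀ e ω, t e (insert e ω) = t e ω := fun e ω => by simp only [ht, Tch_insert]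
  have a1 : Ex q (E V) (fun ω => (C ω v).card - 1) ≤
      Ex q (E V) (fun ω => ∑ e ∈ E V, if e ∈ ω then t e ω else 0) := by
    refine Ex_mono h0 h1 fun ω _ => ?_
    have := card_le ω v
    rw [card_filter] at this
    have h2 : ((C ω v).card : ℝ) ≤ _ := Nat.cast_le.2 this
    push_cast at h2
    have h3 : ∀ e, (if e ∈ ω then t e ω else 0) = if e ∈ ω ∧ Tch ω v e then 1 else 0 := by
      intro e
      by_cases a : e ∈ ω <;> simp [ht, a]
    simp only [h3]
    linarith
  have a2 : Ex q (E V) (fun ω => ∑ e ∈ E V, if e ∈ ω then t e ω else 0) =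
      Ex q (E V) (fun ω => ∑ e ∈ E V, q e * t e ω) := by
    rw [Ex_sum, Ex_sum]
    exact sum_congr rfl fun e he => by rw [Ex_indep he _ (ti e), Ex_mul]
  have a3 : Ex q (E V) (fun ω => ∑ e ∈ E V, q e * t e ω) ≤
      Ex q (E V) (fun ω => m * (C ω v).card - ∑ e ∈ E V, q e * if e ∈ ω then t e ω else 0) := by
    refine Ex_mono h0 h1 fun ω _ => ?_
    have b1 : ∑ e ∈ E V, q e * ((C ω v).filter fun x => x ∈ e).card ≤ m * (C ω v).card := by
      rw [dbl, mul_comm, ← nsmul_eq_mul]
      exact sum_le_card_nsmul _ _ _ fun x _ => hm x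
    rw [le_sub_iff_add_le, ← sum_add_distrib]
    refine (sum_le_sum fun e he => ?_).trans b1
    rw [← mul_add]
    refine mul_le_mul_of_nonneg_left ?_ (h0 e)
    by_cases c1 : Tch ω v e
    · by_cases c2 : e ∈ ω
      · simp only [ht, c1, c2, if_true]
        induction e using Sym2.ind with
        | h a b =>
          have hab : a ≠ b := by simpa [E] using he
          have hh : a ∈ C ω v ∧ b ∈ C ω v := by
            obtain ⟨x, hx, hx'⟩ := c1
            rcases Sym2.mem_iff.1 hx with rfl | rfl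
            · exact ⟨hx', C_step hx' c2⟩
            · exact ⟨C_step hx' (Sym2.eq_swap ▸ c2), hx'⟩
          have : ({a, b} : Finset V) ⊆ (C ω v).filter fun x => x ∈ s(a, b) := by
            intro x hx
            rcases mem_insert.1 hx with rfl | hx
            · simp [hh.1]
            · rw [mem_singleton.1 hx]
              simp [hh.2]
          have := card_le_card this
          rw [card_pair hab] at this
          exact_mod_cast this
      · simp only [ht, c1, c2, if_true, if_false, add_zero]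
        obtain ⟨x, hx, hx'⟩ := c1
        exact_mod_cast card_pos.2 ⟨x, mem_filter.2 ⟨hx', hx⟩⟩
    · simp [ht, c1]
  have a4 : Ex q (E V) (fun ω => ∑ e ∈ E V, q e * if e ∈ ω then t e ω else 0) =
      Ex q (E V) (fun ω => ∑ e ∈ E V, q e ^ 2 * t e ω) := by
    rw [Ex_sum, Ex_sum]
    exact sum_congr rfl fun e he => by rw [Ex_mul, Ex_indep he _ (ti e), Ex_mul]; ring
  have a5 : Ex q (E V) (fun ω => s / 2 * (C ω v).card) ≤
      Ex q (E V) (fun ω => ∑ e ∈ E V, q e ^ 2 * t e ω) := by
    refine Ex_mono h0 h1 fun ω _ => ?_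
    have b1 : s * (C ω v).card ≤
        ∑ e ∈ E V, q e ^ 2 * ((C ω v).filter fun x => x ∈ e).card := by
      rw [dbl (fun e => q e ^ 2), mul_comm, ← nsmul_eq_mul]
      exact card_nsmul_le_sum _ _ _ fun x _ => hs x
    have b2 : ∑ e ∈ E V, q e ^ 2 * ((C ω v).filter fun x => x ∈ e).card ≤
        ∑ e ∈ E V, 2 * (q e ^ 2 * t e ω) := by
      refine sum_le_sum fun e _ => ?_
      rw [mul_left_comm]
      refine mul_le_mul_of_nonneg_left ?_ (sq_nonneg _)
      by_cases c1 : Tch ω v e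
      · simp only [ht, c1, if_true, mul_one]
        exact_mod_cast cnt_le _ e
      · have : ((C ω v).filter fun x => x ∈ e) = ∅ :=
          filter_eq_empty_iff.2 fun x hx hx' => c1 ⟨x, hx', hx⟩
        simp [ht, c1, this]
    rw [← mul_sum] at b2
    linarith
  rw [Ex_sub, Ex_const] at a1
  rw [Ex_sub, Ex_mul] at a3
  rw [Ex_mul] at a5
  linarith

/-- size of the largest cluster -/
noncomputable def mx (ω : Finset (Sym2 V)) : ℕ := univ.sup fun v => (C ω v).card

theorem big_le {q : Sym2 V → ℝ} (h0 : ∀ e, 0 ≤ q e) (h1 : ∀ e, q e ≤ 1) {χ t : ℝ} (ht : 0 < t)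
    (hχ : ∀ v, Ex q (E V) (fun ω => (C ω v).card) ≤ χ) :
    Ex q (E V) (fun ω => if t ≤ mx ω then 1 else 0) ≤ Fintype.card V * χ / t ^ 2 := by
  have a1 : Ex q (E V) (fun ω => if t ≤ mx ω then 1 else 0) ≤
      Ex q (E V) (fun ω => (t ^ 2)⁻¹ * ∑ v, ((C ω v).card : ℝ)) := by
    refine Ex_mono h0 h1 fun ω _ => ?_
    split_ifs with h
    · have hne : (univ : Finset V).Nonempty := by
        rw [nonempty_iff_ne_empty]
        intro h'
        simp only [mx, h', sup_empty, bot_eq_zero', Nat.cast_zero] at h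
        linarith
      obtain ⟨v, -, hv⟩ := exists_mem_eq_sup _ hne fun v => (C ω v).card
      rw [mx, hv] at h
      have b1 : ∑ u ∈ C ω v, ((C ω u).card : ℝ) ≤ ∑ u, ((C ω u).card : ℝ) :=
        sum_le_sum_of_subset_of_nonneg (subset_univ _) fun _ _ _ => Nat.cast_nonneg _
      rw [sum_congr rfl fun u hu => by rw [C_eq hu], sum_const, nsmul_eq_mul] at b1
      rw [inv_mul_eq_div, le_div_iff₀ (by positivity)]
      nlinarith
    · positivity
  rw [Ex_mul, Ex_sum] at a1
  refine a1.trans ?_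
  rw [inv_mul_eq_div]
  refine div_le_div_of_nonneg_right ?_ (by positivity)
  rw [← nsmul_eq_mul, ← card_univ]
  exact sum_le_card_nsmul _ _ _ fun v _ => hχ v

end Pool.Agent.H92.Perc
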