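import Pool.Agent.H92.Perc
import Pool.Agent.H32.MTree

set_option autoImplicit false

/-! Critical Erdos-Renyi graphs have, with probability bounded below, a component of size
`N^(2/3)`. -/

namespace Pool.Agent.H92.Perc

open Finset

lemma cayley (W : Type) [Fintype W] [Nonempty W] : ∃ F : Finset (Finset (Sym2 W)),
    (Fintype.card W : ℝ) ^ 2 * F.card = (Fintype.card W : ℝ) ^ Fintype.card W ∧
    ∀ T ∈ F, (∀ e ∈ T, ¬ e.IsDiag) ∧ T.card + 1 = Fintype.card W ∧
      ∀ x y, (SimpleGraph.fromEdgeSet (T : Set (Sym2 W))).Reachable x y := by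
  classical
  set m : Sym2 W → ℝ := fun e => if e.IsDiag then 0 else 1 with hm
  have h := Pool.Agent.H32.MTree.det_LJ m fun e he => by simp [hm, he]
  have h1 : Pool.Agent.H32.MTree.LJ m = Matrix.diagonal fun _ => (Fintype.card W : ℝ) := by
    ext v x
    have : ∑ u, m s(v, u) = Fintype.card W - 1 := by
      rw [← add_sum_erase _ _ (mem_univ v), sum_congr rfl fun u hu =>
        show m s(v, u) = 1 by simp [hm, (ne_of_mem_erase hu).symm]]
      simp [hm, Nat.cast_sub (Nat.succ_le_of_lt Fintype.card_pos)]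
    by_cases hx : x = v
    · subst hx
      simp only [Pool.Agent.H32.MTree.LJ, Matrix.of_apply, if_true, this, Matrix.diagonal_apply_eq]
      simp [hm]
    · simp [Pool.Agent.H32.MTree.LJ, hx, hm, Ne.symm hx]
  refine ⟨univ.filter fun T : Finset (Sym2 W) =>
    (SimpleGraph.fromEdgeSet (T : Set (Sym2 W))).IsTree ∧ ∀ e ∈ T, ¬ e.IsDiag, ?_, ?_⟩
  · have h2 : (Pool.Agent.H32.MTree.LJ m).det = (Fintype.card W : ℝ) ^ Fintype.card W := by
      rw [h1]
      convert Matrix.det_diagonal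
      simp
    rw [← h2]
    convert h.symm using 2
    rw [Pool.Agent.H32.MTree.tau, ← filter_filter, card_filter]
    push_cast
    refine sum_congr (by congr) fun T _ => ?_
    split_ifs with a
    · exact (prod_eq_one fun e he => by simp [hm, a e he]).symm
    · push Not at a
      obtain ⟨e, he, hd⟩ := a
      exact (prod_eq_zero he (by simp [hm, hd])).symm
  · intro T hT
    obtain ⟨h2, h3⟩ := (mem_filter.1 hT).2
    refine ⟨h3, ?_, h2.connected.preconnected⟩
    have h4 := (SimpleGraph.isTree_iff_connected_and_card.1 h2).2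
    rwa [Pool.Agent.H32.MTree.card_edge _ h3, Nat.card_eq_fintype_card] at h4

variable {V : Type} [Fintype V] [DecidableEq V]

lemma fam (S : Finset V) : ∃ F : Finset (Finset (Sym2 V)), S.Nonempty →
    (S.card : ℝ) ^ 2 * F.card = (S.card : ℝ) ^ S.card ∧
    ∀ T ∈ F, (∀ e ∈ T, ¬ e.IsDiag ∧ ∀ x ∈ e, x ∈ S) ∧ T.card + 1 = S.card ∧
      ∀ x ∈ S, S ⊆ C T x := by
  by_cases hS : S.Nonempty
  swap
  · exact ⟨∅, fun h => absurd h hS⟩
  have : Nonempty S := hS.to_subtype
  obtain ⟨F, h1, h2⟩ := cayley S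
  have hi : Function.Injective (Sym2.map (Subtype.val : S → V)) :=
    Sym2.map.injective Subtype.val_injective
  refine ⟨F.image fun T => T.image (Sym2.map Subtype.val), fun _ => ⟨?_, ?_⟩⟩
  · rw [card_image_of_injective _ (image_injective hi)]
    simpa using h1
  · intro T hT
    obtain ⟨T, hT', rfl⟩ := mem_image.1 hT
    obtain ⟨a, b, c⟩ := h2 T hT'
    refine ⟨?_, by rw [card_image_of_injective _ hi, b, Fintype.card_coe], ?_⟩
    · intro e he
      obtain ⟨e, he', rfl⟩ := mem_image.1 he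
      refine ⟨fun h => a e he' ((Sym2.isDiag_map Subtype.val_injective).1 h), fun x hx => ?_⟩
      obtain ⟨y, -, rfl⟩ := Sym2.mem_map.1 hx
      exact y.2
    · intro x hx y hy
      have := C_ind (ω := T) (v := ⟨x, hx⟩)
        (fun u => u.1 ∈ C (T.image (Sym2.map Subtype.val)) x) (C_self _ _)
        (fun u w _ hu huw => C_step hu (mem_image.2 ⟨_, huw, rfl⟩)) ⟨y, hy⟩ (mem_C.2 (c _ _))
      exact this

open Classical in
/-- the edges touching `S` -/
noncomputable def D (S : Finset V) : Finset (Sym2 V) := (E V).filter fun e => ∃ x ∈ e, x ∈ S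

lemma card_D (S : Finset V) : ((D S).card : ℝ) =
    S.card * Fintype.card V - S.card * (S.card + 1) / 2 := by
  classical
  have h1 : E V = (univ : Finset V).offDiag.image Sym2.mk.uncurry := by
    ext e
    induction e using Sym2.ind with
    | h a b =>
      simp only [E, mem_filter, mem_univ, true_and, Sym2.mk_isDiag_iff, mem_image, mem_offDiag]
      constructor
      · exact fun h => ⟨(a, b), h, rfl⟩
      · rintro ⟨⟨x, y⟩, h, h'⟩
        rcases Sym2.eq_iff.1 h' with ⟨rfl, rfl⟩ | ⟨rfl, rfl⟩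
        · exact h
        · exact Ne.symm h
  have h2 : ((E V).filter fun e => ¬ ∃ x ∈ e, x ∈ S) = Sᶜ.offDiag.image Sym2.mk.uncurry := by
    ext e
    induction e using Sym2.ind with
    | h a b =>
      simp only [E, mem_filter, mem_univ, true_and, Sym2.mk_isDiag_iff, mem_image, mem_offDiag,
        mem_compl]
      constructor
      · exact fun h => ⟨(a, b), ⟨fun c => h.2 ⟨a, by simp, c⟩, fun c => h.2 ⟨b, by simp, c⟩, h.1⟩,
          rfl⟩
      · rintro ⟨⟨x, y⟩, h, h'⟩
        rcases Sym2.eq_iff.1 h' with ⟨rfl, rfl⟩ | ⟨rfl, rfl⟩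
        · exact ⟨h.2.2, by simpa using ⟨h.1, h.2.1⟩⟩
        · exact ⟨Ne.symm h.2.2, by simpa using ⟨h.2.1, h.1⟩⟩
  have h3 := card_filter_add_card_filter_not (s := E V) fun e => ∃ x ∈ e, x ∈ S
  rw [h2, Sym2.card_image_offDiag, card_compl] at h3
  conv_rhs at h3 => rw [h1, Sym2.card_image_offDiag, card_univ]
  have h4 : ((D S).card : ℝ) + ((Fintype.card V - S.card).choose 2 : ℕ) =
      ((Fintype.card V).choose 2 : ℕ) := by exact_mod_cast h3
  rw [Nat.cast_choose_two, Nat.cast_choose_two, Nat.cast_sub (card_le_univ S)] at h4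
  linarith

lemma card_DD {S S' : Finset V} (h : Disjoint S S') : (D S ∩ D S').card ≤ S.card * S'.card := by
  rw [← card_product]
  refine card_le_card_of_surjOn (fun z => s(z.1, z.2)) fun e he => ?_
  simp only [D, coe_inter, coe_filter, Set.mem_inter_iff, Set.mem_ofPred_eq] at he
  obtain ⟨⟨-, x, hx, hx'⟩, -, y, hy, hy'⟩ := he
  have : x ≠ y := fun c => disjoint_left.1 h hx' (c ▸ hy')
  exact ⟨(x, y), by simp [hx', hy'], ((Sym2.mem_and_mem_iff this).1 ⟨hx, hy⟩).symm⟩

lemma choose_le (N k l : ℕ) (hN : 0 < N) (hk : k ≤ N) :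
    ((N - k).choose l : ℝ) ≤ N.choose l * (1 - (N : ℝ)⁻¹) ^ (k * l) := by
  have hN' : (0 : ℝ) < N := by exact_mod_cast hN
  have hp : (N : ℝ)⁻¹ ≤ 1 := inv_le_one_of_one_le₀ (by exact_mod_cast hN)
  have h1 : 1 - k * (N : ℝ)⁻¹ ≤ (1 - (N : ℝ)⁻¹) ^ k := by
    have := one_add_mul_le_pow (a := -(N : ℝ)⁻¹) (by linarith) k
    simpa [sub_eq_add_neg] using this
  have h2 : ∀ l : ℕ, ((N - k).descFactorial l : ℝ) ≤
      N.descFactorial l * (1 - (N : ℝ)⁻¹) ^ (k * l) := by
    intro l
    induction l with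
    | zero => simp
    | succ l ih =>
      rw [Nat.descFactorial_succ, Nat.descFactorial_succ, Nat.mul_succ, pow_add]
      push_cast
      have h3 : ((N - k - l : ℕ) : ℝ) ≤ (N - l : ℕ) * (1 - (N : ℝ)⁻¹) ^ k := by
        rcases le_total (k + l) N with c | c
        · refine le_trans ?_ (mul_le_mul_of_nonneg_left h1 (Nat.cast_nonneg _))
          rw [Nat.sub_sub, Nat.cast_sub c, Nat.cast_sub (by omega)]
          push_cast
          have : (N - l : ℝ) * (N : ℝ)⁻¹ ≤ 1 := by
            rw [← div_eq_mul_inv, div_le_one hN']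
            have : (0 : ℝ) ≤ l := Nat.cast_nonneg _
            linarith
          have : (0 : ℝ) ≤ k := Nat.cast_nonneg _
          nlinarith
        · rw [show N - k - l = 0 by omega, Nat.cast_zero]
          exact mul_nonneg (Nat.cast_nonneg _) (pow_nonneg (by linarith) _)
      calc _ ≤ ((N - l : ℕ) * (1 - (N : ℝ)⁻¹) ^ k) *
            (N.descFactorial l * (1 - (N : ℝ)⁻¹) ^ (k * l)) :=
            mul_le_mul h3 ih (Nat.cast_nonneg _)
              (mul_nonneg (Nat.cast_nonneg _) (pow_nonneg (by linarith) _))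
        _ = _ := by ring
  have h3 := h2 l
  rw [Nat.descFactorial_eq_factorial_mul_choose, Nat.descFactorial_eq_factorial_mul_choose] at h3
  push_cast at h3
  rw [mul_assoc] at h3
  exact le_of_mul_le_mul_left h3 (by exact_mod_cast l.factorial_pos)

lemma cyl_const {ι : Type} [DecidableEq ι] {p : ℝ} (hp : p < 1) {U A T : Finset ι} (hT : T ⊆ A)
    (hA : A ⊆ U) : Ex (fun _ => p) U (fun ω => if ω ∩ A = T then 1 else 0) =
      p ^ T.card * Real.exp ((A.card - T.card) * Real.log (1 - p)) := by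
  rw [Ex_cyl hT hA, prod_const, prod_const, card_sdiff_of_subset hT,
    ← Nat.cast_sub (card_le_card hT), Real.exp_nat_mul, Real.exp_log (by linarith)]

/-- expected number of tree components on a given `k`-set -/
noncomputable def al (N k : ℕ) : ℝ := (k : ℝ) ^ k / k ^ 2 * (((N : ℝ)⁻¹) ^ (k - 1) *
  Real.exp ((k * N - k * (k + 1) / 2 - (k - 1 : ℕ)) * Real.log (1 - (N : ℝ)⁻¹)))

lemma al_nonneg (N k : ℕ) : 0 ≤ al N k := by unfold al; positivity

theorem second (hN : 2 ≤ Fintype.card V) (K : Finset ℕ) (t : ℝ)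
    (hK : ∀ k ∈ K, 0 < k ∧ t ≤ k) {μ : ℝ}
    (hμ : μ = ∑ k ∈ K, (Fintype.card V).choose k * al (Fintype.card V) k) :
    μ / (1 + μ) ≤ Ex (fun _ => (Fintype.card V : ℝ)⁻¹) (E V)
      (fun ω => if t ≤ mx ω then 1 else 0) := by
  classical
  set N := Fintype.card V with hNd
  set p : ℝ := (N : ℝ)⁻¹ with hpd
  have hN' : (2 : ℝ) ≤ N := by exact_mod_cast hN
  have p0 : 0 ≤ p := by positivity
  have p1 : p < 1 := inv_lt_one_of_one_lt₀ (by linarith)
  have l0 : Real.log (1 - p) ≤ 0 := Real.log_nonpos (by linarith) (by linarith)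
  choose F hF using fam (V := V)
  set SS : Finset (Finset V) := univ.filter fun S => S.card ∈ K with hSS
  have hne : ∀ S ∈ SS, S.Nonempty := fun S hS => card_pos.1 (hK _ (mem_filter.1 hS).2).1
  have hsub : ∀ S ∈ SS, ∀ T ∈ F S, T ⊆ D S := by
    intro S hS T hT e he
    obtain ⟨a, b⟩ := ((hF S (hne S hS)).2 T hT).1 e he
    simp only [D, E, mem_filter, mem_univ, true_and]
    exact ⟨a, e.out.1, Sym2.out_fst_mem e, b _ (Sym2.out_fst_mem e)⟩
  have hDE : ∀ S : Finset V, D S ⊆ E V := fun S => filter_subset _ _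
  set I : Finset V → Finset (Sym2 V) → Finset (Sym2 V) → ℝ :=
    fun S T ω => if ω ∩ D S = T then 1 else 0 with hI
  set b : ℕ → ℝ := fun k => p ^ (k - 1) *
    Real.exp ((k * N - k * (k + 1) / 2 - (k - 1 : ℕ)) * Real.log (1 - p)) with hb
  have hTc : ∀ S ∈ SS, ∀ T ∈ F S, T.card = S.card - 1 := fun S hS T hT => by
    have := ((hF S (hne S hS)).2 T hT).2.1
    omega
  have hFc : ∀ S ∈ SS, (F S).card * b S.card = al N S.card := by
    intro S hS
    have h1 := (hF S (hne S hS)).1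
    have h2 : (0 : ℝ) < S.card := by exact_mod_cast (hne S hS).card_pos
    rw [al, ← h1]
    congr 1
    field_simp
  have e1 : ∀ S ∈ SS, ∀ T ∈ F S, Ex (fun _ => p) (E V) (I S T) = b S.card := by
    intro S hS T hT
    rw [hI]
    simp only
    rw [cyl_const p1 (hsub S hS T hT) (hDE S), hTc S hS T hT, card_D]
  have sumS : ∀ (A : Finset V) (g : ℕ → ℝ), ∑ S ∈ SS.filter (fun S => S ⊆ A), g S.card =
      ∑ k ∈ K, A.card.choose k * g k := by
    intro A g
    rw [← sum_fiberwise_of_maps_to (g := card) (t := K)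
      fun S hS => (mem_filter.1 (mem_filter.1 hS).1).2]
    refine sum_congr rfl fun k hk => ?_
    rw [sum_congr rfl fun S hS => by rw [(mem_filter.1 hS).2], sum_const, nsmul_eq_mul,
      ← card_powersetCard]
    congr 3
    ext S
    simp only [hSS, mem_filter, mem_univ, true_and, mem_powersetCard]
    exact ⟨fun h => ⟨h.1.2, h.2⟩, fun h => ⟨⟨h.2 ▸ hk, h.1⟩, h.2⟩⟩
  have hμ' : μ = ∑ S ∈ SS, al N S.card := by
    rw [hμ, hNd, ← card_univ, ← sumS univ, filter_true_of_mem fun _ _ => subset_univ _]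
  have μ0 : 0 ≤ μ := hμ' ▸ sum_nonneg fun _ _ => al_nonneg _ _
  set X : Finset (Sym2 V) → ℝ := fun ω => ∑ S ∈ SS, ∑ T ∈ F S, I S T ω with hX
  have m1 : Ex (fun _ => p) (E V) X = μ := by
    rw [hX, Ex_sum, hμ']
    refine sum_congr rfl fun S hS => ?_
    rw [Ex_sum, sum_congr rfl (e1 S hS), sum_const, nsmul_eq_mul, hFc S hS]
  have I0 : ∀ S T ω, 0 ≤ I S T ω := fun S T ω => by
    simp only [hI]
    split_ifs <;> norm_num
  have hcl : ∀ S ∈ SS, ∀ T ∈ F S, ∀ ω ⊆ E V, ω ∩ D S = T → ∀ x ∈ S, C ω x = S := by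
    intro S hS T hT ω hω h x hx
    obtain ⟨a, -, c⟩ := (hF S (hne S hS)).2 T hT
    refine Subset.antisymm (C_ind (fun u => u ∈ S) hx fun u w _ hu huw => ?_)
      ((c x hx).trans (C_mono (h ▸ inter_subset_left) x))
    have : s(u, w) ∈ T := h ▸ mem_inter.2 ⟨huw, mem_filter.2 ⟨hω huw, u, by simp, hu⟩⟩
    exact (a _ this).2 w (by simp)
  have m2 : Ex (fun _ => p) (E V) (fun ω => X ω ^ 2) ≤ μ + μ ^ 2 := by
    have d1 : ∀ ω ⊆ E V, X ω ^ 2 ≤ X ω + ∑ S ∈ SS, ∑ T ∈ F S,
        ∑ S' ∈ SS.filter (fun S' => S' ⊆ Sᶜ), ∑ T' ∈ F S', I S T ω * I S' T' ω := by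
      intro ω hω
      rw [sq, hX]
      simp only
      rw [sum_mul, ← sum_add_distrib]
      refine sum_le_sum fun S hS => ?_
      rw [sum_mul, ← sum_add_distrib]
      refine sum_le_sum fun T hT => ?_
      simp only [← mul_sum]
      by_cases h : ω ∩ D S = T
      swap
      · simp [hI, h]
      have hI1 : I S T ω = 1 := by simp [hI, h]
      rw [hI1, one_mul, one_mul, ← sum_filter_add_sum_filter_not SS (fun S' => S' ⊆ Sᶜ), add_comm]
      refine add_le_add_left ?_ _
      have : ∀ S' ∈ SS.filter (fun S' => ¬ S' ⊆ Sᶜ), ∑ T' ∈ F S', I S' T' ω ≤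
          if S' = S then 1 else 0 := by
        intro S' hS'
        obtain ⟨h1, h2⟩ := mem_filter.1 hS'
        obtain ⟨x, hx, hx'⟩ := not_subset.1 h2
        rw [mem_compl, not_not] at hx'
        split_ifs with c
        · simp only [hI]
          rw [sum_ite_eq]
          split_ifs <;> norm_num
        · refine (sum_eq_zero fun T' hT' => if_neg fun h' => c ?_).le
          rw [← hcl S' h1 T' hT' ω hω h' x hx, hcl S hS T hT ω hω h x hx']
      refine (sum_le_sum this).trans ?_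
      rw [sum_ite_eq']
      split_ifs <;> norm_num
    refine (Ex_mono (fun _ => p0) (fun _ => p1.le) d1).trans ?_
    rw [Ex_add, m1, Ex_sum]
    refine add_le_add_right ?_ _
    rw [sq]
    nth_rw 1 [hμ']
    rw [sum_mul]
    refine sum_le_sum fun S hS => ?_
    rw [Ex_sum, ← hFc S hS, mul_assoc, ← nsmul_eq_mul]
    refine sum_le_card_nsmul _ _ _ fun T hT => ?_
    have d2 : ∀ S' ∈ SS.filter (fun S' => S' ⊆ Sᶜ), Ex (fun _ => p) (E V)
        (fun ω => ∑ T' ∈ F S', I S T ω * I S' T' ω) ≤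
        b S.card * (al N S'.card * Real.exp (-(S.card * S'.card) * Real.log (1 - p))) := by
      intro S' hS'
      obtain ⟨h1, h2⟩ := mem_filter.1 hS'
      have hd : Disjoint S S' := disjoint_left.2 fun x hx hx' => mem_compl.1 (h2 hx') hx
      rw [Ex_sum]
      refine (sum_le_card_nsmul _ _ (b S.card * (b S'.card *
        Real.exp (-(S.card * S'.card) * Real.log (1 - p)))) fun T' hT' => ?_).trans
        (le_of_eq (by rw [nsmul_eq_mul, ← hFc S' h1]; ring))
      have f1 : ∀ {A A' : Finset V} {B : Finset (Sym2 V)}, A ∈ SS → B ∈ F A → Disjoint A A' →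
          Disjoint B (D A') := by
        intro A A' B hA hB hd
        refine disjoint_left.2 fun e he he' => ?_
        obtain ⟨-, x, hx, hx'⟩ := mem_filter.1 he'
        exact disjoint_left.1 hd ((((hF A (hne A hA)).2 B hB).1 e he).2 x hx) hx'
      have f2 := f1 hS hT hd
      have f3 := f1 h1 hT' hd.symm
      have f4 : Disjoint T T' := f2.mono_right (hsub S' h1 T' hT')
      have f5 : ∀ ω ⊆ E V, I S T ω * I S' T' ω ≤
          if ω ∩ (D S ∪ D S') = T ∪ T' then 1 else 0 := by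
        intro ω _
        simp only [hI]
        by_cases c : ω ∩ D S = T
        · by_cases c' : ω ∩ D S' = T'
          · simp [c, c', inter_union_distrib_left]
          · simp only [c', if_false, mul_zero]
            split_ifs <;> norm_num
        · simp only [c, if_false, zero_mul]
          split_ifs <;> norm_num
      refine (Ex_mono (fun _ => p0) (fun _ => p1.le) f5).trans ?_
      rw [cyl_const p1 (union_subset_union (hsub S hS T hT) (hsub S' h1 T' hT'))
        (union_subset (hDE S) (hDE S')), card_union_of_disjoint f4, hTc S hS T hT,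
        hTc S' h1 T' hT', hb]
      simp only
      rw [pow_add, mul_assoc, mul_assoc, mul_assoc]
      refine mul_le_mul_of_nonneg_left ?_ (by positivity)
      rw [mul_left_comm]
      refine mul_le_mul_of_nonneg_left ?_ (by positivity)
      rw [← Real.exp_add, ← Real.exp_add, Real.exp_le_exp, ← add_mul, ← add_mul]
      refine mul_le_mul_of_nonpos_right ?_ l0
      have g1 : ((D S ∪ D S').card : ℝ) + (D S ∩ D S').card = (D S).card + (D S').card := by
        exact_mod_cast card_union_add_card_inter _ _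
      have g2 : ((D S ∩ D S').card : ℝ) ≤ S.card * S'.card := by exact_mod_cast card_DD hd
      rw [card_D, card_D] at g1
      push_cast
      linarith
    rw [Ex_sum]
    refine (sum_le_sum d2).trans ?_
    rw [← mul_sum]
    refine mul_le_mul_of_nonneg_left ?_ (by simp only [hb]; positivity)
    rw [sumS Sᶜ fun l => al N l * Real.exp (-(S.card * l) * Real.log (1 - p)), hμ]
    refine sum_le_sum fun l _ => ?_
    rw [card_compl, mul_left_comm, mul_comm _ (al N l)]
    refine mul_le_mul_of_nonneg_left ?_ (al_nonneg _ _)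
    have g := choose_le N S.card l (by omega) (card_le_univ S)
    rw [neg_mul, Real.exp_neg, ← Nat.cast_mul, Real.exp_nat_mul, Real.exp_log (by linarith),
      ← div_eq_mul_inv, div_le_iff₀ (pow_pos (by linarith) _)]
    exact g
  have m3 : Ex (fun _ => p) (E V) (fun ω => 2 / (1 + μ) * X ω - 1 / (1 + μ) ^ 2 * X ω ^ 2) ≤
      Ex (fun _ => p) (E V) (fun ω => if t ≤ mx ω then 1 else 0) := by
    refine Ex_mono (fun _ => p0) (fun _ => p1.le) fun ω hω => ?_
    split_ifs with h
    · have : 2 / (1 + μ) * X ω - 1 / (1 + μ) ^ 2 * X ω ^ 2 = 1 - (1 - X ω / (1 + μ)) ^ 2 := by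
        field_simp
        ring
      rw [this]
      nlinarith [sq_nonneg (1 - X ω / (1 + μ))]
    · have : X ω = 0 := by
        refine sum_eq_zero fun S hS => sum_eq_zero fun T hT => if_neg fun h' => h ?_
        obtain ⟨x, hx⟩ := hne S hS
        refine (hK _ (mem_filter.1 hS).2).2.trans (Nat.cast_le.2 ?_)
        rw [← hcl S hS T hT ω hω h' x hx]
        exact le_sup (f := fun v => (C ω v).card) (mem_univ x)
      simp [this]
  refine le_trans ?_ m3
  rw [Ex_sub, Ex_mul, Ex_mul, m1]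
  have : 1 / (1 + μ) ^ 2 * Ex (fun _ => p) (E V) (fun ω => X ω ^ 2) ≤
      1 / (1 + μ) ^ 2 * (μ + μ ^ 2) := mul_le_mul_of_nonneg_left m2 (by positivity)
  have h2 : μ / (1 + μ) = 2 / (1 + μ) * μ - 1 / (1 + μ) ^ 2 * (μ + μ ^ 2) := by
    field_simp
    ring
  linarith

lemma exp_le {x : ℝ} (h0 : 0 ≤ x) (h1 : x ≤ 1 / 2) : Real.exp (-x - x ^ 2) ≤ 1 - x := by
  have h := Real.quadratic_le_exp_of_nonneg (x := x + x ^ 2) (by positivity)
  rw [show -x - x ^ 2 = -(x + x ^ 2) by ring, Real.exp_neg, inv_le_iff_one_le_mul₀ (Real.exp_pos _)]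
  refine le_trans ?_ (mul_le_mul_of_nonneg_left h (by linarith))
  have : 0 ≤ x ^ 2 * ((1 - x) * (1 + x) ^ 2 - 2 * x) :=
    mul_nonneg (sq_nonneg _) (by nlinarith [mul_nonneg h0 (sub_nonneg.2 h1)])
  nlinarith

lemma desc_ge (N : ℕ) (hN : 0 < N) (k : ℕ) (hk : 2 * k ≤ N) :
    (N : ℝ) ^ k * Real.exp (-(k ^ 2 / (2 * N)) - k ^ 3 / N ^ 2) ≤ N.descFactorial k := by
  have hN' : (0 : ℝ) < N := by exact_mod_cast hN
  induction k with
  | zero => simp
  | succ k ih =>
    have h1 := ih (by omega)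
    have h2 : (2 * (k + 1) : ℝ) ≤ N := by exact_mod_cast hk
    have k0 : (0 : ℝ) ≤ k := Nat.cast_nonneg _
    have h3 := exp_le (x := k / N) (by positivity) (by rw [div_le_iff₀ hN']; linarith)
    rw [Nat.descFactorial_succ, Nat.cast_mul, Nat.cast_sub (by omega)]
    have h4 : (N - k : ℝ) = N * (1 - k / N) := by field_simp
    calc _ ≤ N * Real.exp (-(k / N) - (k / N) ^ 2) *
          ((N : ℝ) ^ k * Real.exp (-(k ^ 2 / (2 * N)) - k ^ 3 / N ^ 2)) := by
          rw [mul_mul_mul_comm, ← pow_succ', ← Real.exp_add]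
          refine mul_le_mul_of_nonneg_left (Real.exp_le_exp.2 ?_) (by positivity)
          push_cast
          rw [← sub_nonneg]
          have : -((k : ℝ) / N) - (k / N) ^ 2 + (-(k ^ 2 / (2 * N)) - k ^ 3 / N ^ 2) -
              (-((k + 1) ^ 2 / (2 * N)) - (k + 1) ^ 3 / N ^ 2) =
              1 / (2 * N) + (2 * k ^ 2 + 3 * k + 1) / N ^ 2 := by
            field_simp
            ring
          rw [this]
          positivity
      _ ≤ _ := by
          rw [h4]
          exact mul_le_mul (mul_le_mul_of_nonneg_left h3 hN'.le) h1 (by positivity)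
            (by rw [← h4]; linarith)

lemma fact_le (k : ℕ) (hk : 0 < k) :
    (k.factorial : ℝ) ≤ Real.exp 1 * √k * (k ^ k * Real.exp (-k)) := by
  obtain ⟨j, rfl⟩ := Nat.exists_eq_succ_of_ne_zero hk.ne'
  have h := Stirling.stirlingSeq'_antitone (Nat.zero_le j)
  simp only [Function.comp, Nat.succ_eq_add_one, zero_add, Stirling.stirlingSeq_one] at h
  rw [Stirling.stirlingSeq, div_le_iff₀ (by positivity)] at h
  refine h.trans (le_of_eq ?_)
  rw [Real.sqrt_mul (by norm_num), div_pow, Real.exp_neg, ← Real.exp_nat_mul, mul_one]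
  field_simp

lemma term_ge {m k : ℕ} (hm : 4 ≤ m) (h1 : m ^ 2 ≤ k) (h2 : k ≤ 2 * m ^ 2) :
    Real.exp (-10) / (8 * m ^ 2) ≤ (m ^ 3).choose k * al (m ^ 3) k := by
  have hm' : (4 : ℝ) ≤ m := by exact_mod_cast hm
  have hk0 : 0 < k := lt_of_lt_of_le (by positivity) h1
  have hkN : 2 * k ≤ m ^ 3 := by nlinarith
  have k0 : (0 : ℝ) < k := by exact_mod_cast hk0
  have k2 : (k : ℝ) ≤ 2 * m ^ 2 := by exact_mod_cast h2
  have a1 := desc_ge (m ^ 3) (by positivity) k hkN
  have a2 := fact_le k hk0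
  have hkN' : (2 * k : ℝ) ≤ (m ^ 3 : ℕ) := by exact_mod_cast hkN
  have hNm : ((m ^ 3 : ℕ) : ℝ) = m ^ 3 := by push_cast; rfl
  rw [Nat.descFactorial_eq_factorial_mul_choose, Nat.cast_mul] at a1
  unfold al
  generalize ((m ^ 3).choose k : ℝ) = c at *
  generalize ((m ^ 3 : ℕ) : ℝ) = N at *
  have N0 : 0 < N := by linarith
  have k1 : (1 : ℝ) ≤ k := by exact_mod_cast hk0
  have a3 : -N⁻¹ - N⁻¹ ^ 2 ≤ Real.log (1 - N⁻¹) := by
    have : N⁻¹ ≤ 1 / 2 := by
      rw [inv_le_comm₀ N0 (by norm_num)]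
      linarith
    rw [Real.le_log_iff_exp_le (by linarith)]
    exact exp_le (by positivity) this
  have a4 : -(k : ℝ) + k ^ 2 / (2 * N) - 1 ≤
      (k * N - k * (k + 1) / 2 - (k - 1 : ℕ)) * Real.log (1 - N⁻¹) := by
    rw [Nat.cast_sub hk0, Nat.cast_one]
    refine le_trans ?_ (mul_le_mul_of_nonneg_left a3 (by nlinarith))
    rw [← sub_nonneg]
    have : (k * N - k * (k + 1) / 2 - (k - 1)) * (-N⁻¹ - N⁻¹ ^ 2) - (-(k : ℝ) + k ^ 2 / (2 * N) - 1)
        = (1 - k / N) + (3 * k / 2 - 1) / N + (k * (k + 1) / 2 + (k - 1)) / N ^ 2 := by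
      field_simp
      ring
    rw [this]
    have : k / N ≤ 1 := by rw [div_le_one N0]; linarith
    have : 0 ≤ (3 * k / 2 - 1) / N := div_nonneg (by linarith) N0.le
    have : 0 ≤ (k * (k + 1) / 2 + (k - 1)) / N ^ 2 := div_nonneg (by nlinarith) (by positivity)
    linarith
  have a5 : (k : ℝ) ^ 3 / N ^ 2 ≤ 8 := by
    rw [div_le_iff₀ (by positivity), hNm]
    calc _ ≤ (2 * (m : ℝ) ^ 2) ^ 3 := by gcongr
      _ = _ := by ring
  have a6 : √k ≤ 2 * m := by
    rw [Real.sqrt_le_left (by positivity)]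
    nlinarith
  have a7 : N ^ k * Real.exp (-(k ^ 2 / (2 * N)) - 8) /
      (Real.exp 1 * (2 * m) * (k ^ k * Real.exp (-k))) ≤ c := by
    have c0 : 0 ≤ c := by
      by_contra hc
      push Not at hc
      have : (k.factorial : ℝ) * c < 0 := mul_neg_of_pos_of_neg (by exact_mod_cast k.factorial_pos) hc
      have : 0 < N ^ k * Real.exp (-(k ^ 2 / (2 * N)) - k ^ 3 / N ^ 2) := by positivity
      linarith
    rw [div_le_iff₀ (by positivity)]
    calc _ ≤ N ^ k * Real.exp (-(k ^ 2 / (2 * N)) - k ^ 3 / N ^ 2) := by gcongr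
      _ ≤ k.factorial * c := a1
      _ ≤ Real.exp 1 * √k * (k ^ k * Real.exp (-k)) * c := by gcongr
      _ ≤ Real.exp 1 * (2 * m) * (k ^ k * Real.exp (-k)) * c := by gcongr
      _ = _ := by ring
  calc _ = N ^ k * Real.exp (-(k ^ 2 / (2 * N)) - 8) /
        (Real.exp 1 * (2 * m) * (k ^ k * Real.exp (-k))) * ((k : ℝ) ^ k / (2 * m ^ 2) ^ 2 *
        (N⁻¹ ^ (k - 1) * Real.exp (-(k : ℝ) + k ^ 2 / (2 * N) - 1))) := by
        have e1 : Real.exp (-10) * Real.exp 1 * Real.exp (-k) =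
            Real.exp (-(k ^ 2 / (2 * N)) - 8) * Real.exp (-(k : ℝ) + k ^ 2 / (2 * N) - 1) := by
          simp only [← Real.exp_add]
          congr 1
          ring
        have e2 : N ^ k * N⁻¹ ^ (k - 1) = m ^ 3 := by
          obtain ⟨j, rfl⟩ := Nat.exists_eq_succ_of_ne_zero hk0.ne'
          rw [← hNm, Nat.succ_sub_one, pow_succ, inv_pow]
          field_simp
        generalize Real.exp (-(k ^ 2 / (2 * N)) - 8) = A at *
        generalize Real.exp (-(k : ℝ) + k ^ 2 / (2 * N) - 1) = B at *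
        generalize N⁻¹ ^ (k - 1) = P at *
        have : (0 : ℝ) < k ^ k := by positivity
        field_simp
        linear_combination (8 * m ^ 3) * e1 - 8 * A * B * e2
    _ ≤ _ := by
        refine mul_le_mul a7 ?_ (by positivity) (le_trans (by positivity) a7)
        gcongr

theorem er (m : ℕ) (hm : 4 ≤ m) : Real.exp (-10) / 16 ≤
    Ex (fun _ => ((m ^ 3 : ℕ) : ℝ)⁻¹) (E (Fin (m ^ 3)))
      (fun ω => if (m : ℝ) ^ 2 ≤ mx ω then 1 else 0) := by
  have hm' : (4 : ℝ) ≤ m := by exact_mod_cast hm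
  have h := second (V := Fin (m ^ 3)) (by rw [Fintype.card_fin]; nlinarith [sq_nonneg m])
    (Icc (m ^ 2) (2 * m ^ 2)) ((m : ℝ) ^ 2)
    (fun k hk => ⟨lt_of_lt_of_le (by positivity) (mem_Icc.1 hk).1,
      by exact_mod_cast (mem_Icc.1 hk).1⟩) rfl
  rw [Fintype.card_fin] at h
  refine le_trans ?_ h
  have h1 := card_nsmul_le_sum (Icc (m ^ 2) (2 * m ^ 2)) _ _
    fun k hk => term_ge hm (mem_Icc.1 hk).1 (mem_Icc.1 hk).2
  generalize ∑ k ∈ Icc (m ^ 2) (2 * m ^ 2), ((m ^ 3).choose k : ℝ) * al (m ^ 3) k = μ at *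
  rw [Nat.card_Icc, show 2 * m ^ 2 + 1 - m ^ 2 = m ^ 2 + 1 by omega, nsmul_eq_mul] at h1
  push_cast at h1
  have e0 := Real.exp_pos (-10)
  have e1 : Real.exp (-10) ≤ 1 := Real.exp_le_one_iff.2 (by norm_num)
  have h2 : Real.exp (-10) / 8 ≤ μ := by
    refine le_trans ?_ h1
    rw [← mul_div_assoc, div_le_div_iff₀ (by norm_num) (by positivity)]
    nlinarith
  rw [div_le_div_iff₀ (by norm_num) (by linarith)]
  nlinarith

end Pool.Agent.H92.Perc
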