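import Pool.Agent.H92.QDefs

open MeasureTheory Filter Topology Set Metric
open scoped ENNReal NNReal

namespace Pool.Agent.H92.Q

/-- Pairs (u, G) of a real L2 function and an L2 vector field. -/
abbrev P (N : ℕ) : Type :=
  Lp ℝ 2 (volume : Measure (E N)) × Lp (E N) 2 (volume : Measure (E N))

/-- The Sobolev space with zero boundary values as a set of L2 classes. -/
def H10 {N : ℕ} (Ω : Set (E N)) : Set (P N) :=
  closure {p | ∃ φ, Test Ω φ ∧ (p.1 : E N → ℝ) =ᵐ[volume] φ ∧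
    (p.2 : E N → E N) =ᵐ[volume] gradient φ}

/-- The Dirichlet integral. -/
noncomputable def energy {N : ℕ} (p : P N) : ℝ := ∫ x, ‖p.2 x‖ ^ 2

/-- The unit Lq sphere of the Sobolev space. -/
def Sph {N : ℕ} (Ω : Set (E N)) (q : ℝ) : Set (P N) :=
  {p | p ∈ H10 Ω ∧ eLpNorm p.1 (ENNReal.ofReal q) volume = 1}

/-- The pair p is a nonzero weak solution of the q-eigenvalue equation with eigenvalue lam. -/
def IsEigen {N : ℕ} (Ω : Set (E N)) (q lam : ℝ) (p : P N) : Prop :=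
  p ∈ H10 Ω ∧ p.1 ≠ 0 ∧ ∀ φ, Test Ω φ →
    ∫ x, inner ℝ (p.2 x) (gradient φ x) =
      lam * (eLpNorm p.1 (ENNReal.ofReal q) volume).toReal ^ (2 - q) *
        ∫ x, |p.1 x| ^ (q - 2) * p.1 x * φ x

/-- The q-spectrum. -/
def Spec {N : ℕ} (Ω : Set (E N)) (q : ℝ) : Set ℝ := {lam | ∃ p, IsEigen Ω q lam p}

/-- The first q-eigenvalue. -/
noncomputable def lam1 {N : ℕ} (Ω : Set (E N)) (q : ℝ) : ℝ := sInf (energy '' Sph Ω q)

variable {N : ℕ}

theorem norm_grad (φ : E N → ℝ) (x : E N) : ‖gradient φ x‖ = ‖fderiv ℝ φ x‖ := by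
  simp [gradient]

theorem grad_of {φ : E N → ℝ} {x v : E N} {L : E N →L[ℝ] ℝ} (h : HasFDerivAt φ L x)
    (hv : ∀ y, L y = inner ℝ v y) : gradient φ x = v := by
  apply ext_inner_right ℝ
  intro y
  rw [inner_gradient_left, h.fderiv, hv]

theorem Test.cd1 {Ω : Set (E N)} {φ : E N → ℝ} (h : Test Ω φ) : ContDiff ℝ 1 φ :=
  h.1.of_le (by simp)

theorem Test.diff {Ω : Set (E N)} {φ : E N → ℝ} (h : Test Ω φ) : Differentiable ℝ φ :=
  h.cd1.differentiable one_ne_zero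

theorem Test.cont {Ω : Set (E N)} {φ : E N → ℝ} (h : Test Ω φ) : Continuous φ := h.1.continuous

theorem cont_grad {φ : E N → ℝ} (h : ContDiff ℝ 1 φ) : Continuous (gradient φ) := by
  have := h.continuous_fderiv one_ne_zero
  unfold gradient
  fun_prop

theorem supp_grad (φ : E N → ℝ) : Function.support (gradient φ) ⊆ tsupport φ := by
  intro x hx
  by_contra h
  apply hx
  have : φ =ᶠ[𝓝 x] fun _ => 0 := notMem_tsupport_iff_eventuallyEq.mp h
  rw [this.gradient_eq]; simp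

theorem hcs_grad {φ : E N → ℝ} (h : HasCompactSupport φ) : HasCompactSupport (gradient φ) :=
  HasCompactSupport.of_support_subset_isCompact h (supp_grad φ)

theorem Test.memLp {Ω : Set (E N)} {φ : E N → ℝ} (h : Test Ω φ) (r : ℝ≥0∞) :
    MemLp φ r volume := h.cont.memLp_of_hasCompactSupport h.2.1

theorem Test.memLp_grad {Ω : Set (E N)} {φ : E N → ℝ} (h : Test Ω φ) (r : ℝ≥0∞) :
    MemLp (gradient φ) r volume := (cont_grad h.cd1).memLp_of_hasCompactSupport (hcs_grad h.2.1)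

theorem Test.mono {Ω Ω' : Set (E N)} {φ : E N → ℝ} (h : Test Ω φ) (hs : Ω ⊆ Ω') : Test Ω' φ :=
  ⟨h.1, h.2.1, h.2.2.trans hs⟩

theorem Test.zero_off {Ω : Set (E N)} {φ : E N → ℝ} (h : Test Ω φ) {x : E N} (hx : x ∉ Ω) :
    φ x = 0 := image_eq_zero_of_notMem_tsupport fun h' => hx (h.2.2 h')

theorem Test.add {Ω : Set (E N)} {φ ψ : E N → ℝ} (h : Test Ω φ) (h' : Test Ω ψ) :
    Test Ω (fun x => φ x + ψ x) :=
  ⟨h.1.add h'.1, h.2.1.add h'.2.1, (tsupport_add φ ψ).trans (union_subset h.2.2 h'.2.2)⟩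

theorem Test.of_supp {Ω : Set (E N)} {φ ψ : E N → ℝ} (h : Test Ω φ)
    (hψ : ContDiff ℝ (⊤ : ℕ∞) ψ) (hs : ∀ x, φ x = 0 → ψ x = 0) : Test Ω ψ := by
  have : Function.support ψ ⊆ Function.support φ := fun x hx h0 => hx (hs x h0)
  exact ⟨hψ, h.2.1.mono this, (closure_mono this).trans h.2.2⟩

theorem Test.smul {Ω : Set (E N)} {φ : E N → ℝ} (h : Test Ω φ) (c : ℝ) :
    Test Ω (fun x => c * φ x) :=
  h.of_supp (contDiff_const.mul h.1) fun x hx => by simp [hx]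

theorem grad_add {φ ψ : E N → ℝ} {x : E N} (h : DifferentiableAt ℝ φ x)
    (h' : DifferentiableAt ℝ ψ x) :
    gradient (fun x => φ x + ψ x) x = gradient φ x + gradient ψ x :=
  grad_of (h.hasFDerivAt.fun_add h'.hasFDerivAt) fun y => by
    simp [inner_add_left, inner_gradient_left]

theorem grad_mul {φ ψ : E N → ℝ} {x : E N} (h : DifferentiableAt ℝ φ x)
    (h' : DifferentiableAt ℝ ψ x) :
    gradient (fun x => φ x * ψ x) x = φ x • gradient ψ x + ψ x • gradient φ x :=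
  grad_of (h.hasFDerivAt.fun_mul h'.hasFDerivAt) fun y => by
    simp [inner_add_left, inner_smul_left, inner_gradient_left]

theorem grad_comp {φ : E N → ℝ} {f : ℝ → ℝ} {f' : ℝ} {x : E N} (h : DifferentiableAt ℝ φ x)
    (hf : HasDerivAt f f' (φ x)) :
    gradient (fun x => f (φ x)) x = f' • gradient φ x :=
  grad_of (hf.comp_hasFDerivAt x h.hasFDerivAt) fun y => by
    simp [inner_smul_left, inner_gradient_left]

theorem grad_smul {φ : E N → ℝ} {x : E N} (h : DifferentiableAt ℝ φ x) (c : ℝ) :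
    gradient (fun x => c * φ x) x = c • gradient φ x :=
  grad_comp (f := fun t => c * t) h (by simpa using (hasDerivAt_id (φ x)).const_mul c)

/-- test pairs -/
def TP (Ω : Set (E N)) : Set (P N) :=
  {p | ∃ φ, Test Ω φ ∧ (p.1 : E N → ℝ) =ᵐ[volume] φ ∧
    (p.2 : E N → E N) =ᵐ[volume] gradient φ}

/-- nonnegative test pairs -/
def TPn (Ω : Set (E N)) : Set (P N) :=
  {p | ∃ φ, Test Ω φ ∧ (∀ x, 0 ≤ φ x) ∧ (p.1 : E N → ℝ) =ᵐ[volume] φ ∧
    (p.2 : E N → E N) =ᵐ[volume] gradient φ}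

theorem TPn_sub (Ω : Set (E N)) : TPn Ω ⊆ TP Ω := fun _ ⟨φ, h1, _, h3⟩ => ⟨φ, h1, h3⟩

theorem H10_eq (Ω : Set (E N)) : H10 Ω = closure (TP Ω) := rfl

open Classical in
/-- the pair of a function -/
noncomputable def tp (φ : E N → ℝ) : P N :=
  if h : MemLp φ 2 volume ∧ MemLp (gradient φ) 2 volume then (h.1.toLp φ, h.2.toLp _) else 0

theorem Test.tp1 {Ω : Set (E N)} {φ : E N → ℝ} (h : Test Ω φ) :
    ((tp φ).1 : E N → ℝ) =ᵐ[volume] φ := by
  rw [tp, dif_pos ⟨h.memLp 2, h.memLp_grad 2⟩]; exact (h.memLp 2).coeFn_toLp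

theorem Test.tp2 {Ω : Set (E N)} {φ : E N → ℝ} (h : Test Ω φ) :
    ((tp φ).2 : E N → E N) =ᵐ[volume] gradient φ := by
  rw [tp, dif_pos ⟨h.memLp 2, h.memLp_grad 2⟩]; exact (h.memLp_grad 2).coeFn_toLp

theorem Test.tp_mem {Ω : Set (E N)} {φ : E N → ℝ} (h : Test Ω φ) : tp φ ∈ TP Ω :=
  ⟨φ, h, h.tp1, h.tp2⟩

theorem Test.tp_H {Ω : Set (E N)} {φ : E N → ℝ} (h : Test Ω φ) : tp φ ∈ H10 Ω :=
  subset_closure h.tp_mem

theorem comb_ae {Ω : Set (E N)} {p r : P N} {φ ψ : E N → ℝ} (h : Test Ω φ) (h' : Test Ω ψ)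
    (h1 : (p.1 : E N → ℝ) =ᵐ[volume] φ) (h2 : (p.2 : E N → E N) =ᵐ[volume] gradient φ)
    (h3 : (r.1 : E N → ℝ) =ᵐ[volume] ψ) (h4 : (r.2 : E N → E N) =ᵐ[volume] gradient ψ)
    (a b : ℝ) :
    ((a • p + b • r).1 : E N → ℝ) =ᵐ[volume] (fun x => a * φ x + b * ψ x) ∧
    ((a • p + b • r).2 : E N → E N) =ᵐ[volume] gradient (fun x => a * φ x + b * ψ x) := by
  constructor
  · filter_upwards [Lp.coeFn_add (a • p.1) (b • r.1), Lp.coeFn_smul a p.1, Lp.coeFn_smul b r.1,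
      h1, h3] with x e1 e2 e3 e4 e5
    simp only [Prod.fst_add, Prod.smul_fst]
    rw [e1, Pi.add_apply, e2, e3]; simp [e4, e5]
  · filter_upwards [Lp.coeFn_add (a • p.2) (b • r.2), Lp.coeFn_smul a p.2, Lp.coeFn_smul b r.2,
      h2, h4] with x e1 e2 e3 e4 e5
    simp only [Prod.snd_add, Prod.smul_snd]
    rw [e1, Pi.add_apply, e2, e3, grad_add ((h.smul a).diff x) ((h'.smul b).diff x),
      grad_smul (h.diff x), grad_smul (h'.diff x)]
    simp [e4, e5]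

theorem test_zero (Ω : Set (E N)) : Test Ω (fun _ => (0 : ℝ)) :=
  ⟨contDiff_const, by simp [HasCompactSupport, tsupport], by simp [tsupport]⟩

/-- test pairs as a submodule -/
def TS (Ω : Set (E N)) : Submodule ℝ (P N) where
  carrier := TP Ω
  add_mem' := by
    rintro p r ⟨φ, h, h1, h2⟩ ⟨ψ, h', h3, h4⟩
    have := comb_ae h h' h1 h2 h3 h4 1 1
    simp only [one_smul] at this
    exact ⟨_, (h.smul 1).add (h'.smul 1), this⟩
  zero_mem' := ⟨_, test_zero Ω, Lp.coeFn_zero _ _ _, by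
    filter_upwards [Lp.coeFn_zero (E N) 2 (volume : Measure (E N))] with x hx
    simpa using hx⟩
  smul_mem' := by
    rintro c p ⟨φ, h, h1, h2⟩
    have := comb_ae h h h1 h2 h1 h2 c 0
    simp only [zero_smul, add_zero] at this
    exact ⟨_, (h.smul c).add (h.smul 0), by simpa using this⟩

theorem convex_TPn (Ω : Set (E N)) : Convex ℝ (TPn Ω) := by
  rintro p ⟨φ, h, h0, h1, h2⟩ r ⟨ψ, h', h0', h3, h4⟩ a b ha hb -
  exact ⟨_, (h.smul a).add (h'.smul b), fun x => by have := h0 x; have := h0' x; positivity,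
    comb_ae h h' h1 h2 h3 h4 a b⟩

theorem H10_sm (Ω : Set (E N)) : H10 Ω = ((TS Ω).topologicalClosure : Set (P N)) := rfl

theorem H10.add {Ω : Set (E N)} {p r : P N} (hp : p ∈ H10 Ω) (hr : r ∈ H10 Ω) :
    p + r ∈ H10 Ω := (TS Ω).topologicalClosure.add_mem hp hr

theorem H10.sub {Ω : Set (E N)} {p r : P N} (hp : p ∈ H10 Ω) (hr : r ∈ H10 Ω) :
    p - r ∈ H10 Ω := (TS Ω).topologicalClosure.sub_mem hp hr

theorem H10.neg {Ω : Set (E N)} {p : P N} (hp : p ∈ H10 Ω) :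
    -p ∈ H10 Ω := (TS Ω).topologicalClosure.neg_mem hp

theorem H10.smul {Ω : Set (E N)} {p : P N} (hp : p ∈ H10 Ω) (c : ℝ) :
    c • p ∈ H10 Ω := (TS Ω).topologicalClosure.smul_mem c hp

theorem convex_H10 (Ω : Set (E N)) : Convex ℝ (H10 Ω) := (TS Ω).topologicalClosure.convex

theorem H10.mono {Ω Ω' : Set (E N)} (hs : Ω ⊆ Ω') : H10 Ω ⊆ H10 Ω' :=
  closure_mono fun _ ⟨φ, h, h1⟩ => ⟨φ, h.mono hs, h1⟩

theorem energy_eq (p : P N) : energy p = ‖p.2‖ ^ 2 := by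
  rw [energy, ← real_inner_self_eq_norm_sq, L2.inner_def]
  simp only [real_inner_self_eq_norm_sq]

theorem norm2_of_ae {p : P N} {φ : E N → ℝ} (h : (p.2 : E N → E N) =ᵐ[volume] gradient φ) :
    ‖p.2‖ ^ 2 = ∫ x, ‖gradient φ x‖ ^ 2 := by
  rw [← energy_eq, energy]
  exact integral_congr_ae (by filter_upwards [h] with x hx; rw [hx])

/-- the Sobolev inequality for smooth functions supported in a bounded set -/
theorem sob_test (hN : 2 ≤ N) {Ω : Set (E N)} (hb : Bornology.IsBounded Ω) {s : ℝ} (hs : 1 ≤ s)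
    (hsN : ((N : ℝ) - 2) * s ≤ 2 * N) : ∃ C : ℝ≥0, ∀ φ, Test Ω φ →
      eLpNorm φ (ENNReal.ofReal s) volume ≤ C * eLpNorm (gradient φ) 2 volume := by
  have hN' : (2 : ℝ) ≤ N := by exact_mod_cast hN
  have hs0 : 0 < s := by linarith
  set p0 : ℝ := max 1 (s⁻¹ + (N : ℝ)⁻¹)⁻¹ with hp0
  have hp1 : 1 ≤ p0 := le_max_left _ _
  have hpos : 0 < s⁻¹ + (N : ℝ)⁻¹ := by positivity
  have hpN : p0 < N := by
    refine max_lt (by linarith) ?_
    rw [inv_lt_comm₀ hpos (by linarith)]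
    have : 0 < s⁻¹ := by positivity
    linarith
  have hp2 : p0 ≤ 2 := by
    refine max_le (by norm_num) ?_
    rw [inv_le_comm₀ hpos (by norm_num)]
    have : s⁻¹ + (N : ℝ)⁻¹ = (N + s) / (s * N) := by field_simp
    rw [this, le_div_iff₀ (by positivity)]
    nlinarith
  have hpq : p0⁻¹ - (N : ℝ)⁻¹ ≤ s⁻¹ := by
    have : p0⁻¹ ≤ s⁻¹ + (N : ℝ)⁻¹ := by
      rw [inv_le_comm₀ (by linarith) hpos]; exact le_max_right _ _
    linarith
  let pp : ℝ≥0 := ⟨p0, by linarith⟩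
  let qq : ℝ≥0 := ⟨s, hs0.le⟩
  have hfr : Module.finrank ℝ (E N) = N := by simp
  have hcl : volume (closure Ω) ≠ ⊤ := hb.closure.measure_lt_top.ne
  have hex : 0 ≤ 1 / (pp : ℝ≥0∞).toReal - 1 / (2 : ℝ≥0∞).toReal := by
    have : (pp : ℝ≥0∞).toReal = p0 := rfl
    rw [this]; simp only [ENNReal.toReal_ofNat]
    have := one_div_le_one_div_of_le (by linarith : 0 < p0) hp2
    linarith
  refine ⟨eLpNormLESNormFDerivOfLeConst ℝ volume Ω pp qq *
    (volume (closure Ω) ^ (1 / (pp : ℝ≥0∞).toReal - 1 / (2 : ℝ≥0∞).toReal)).toNNReal,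
    fun φ h => ?_⟩
  have e : ENNReal.ofReal s = (qq : ℝ≥0∞) := by
    rw [ENNReal.ofReal, Real.toNNReal_of_nonneg hs0.le]; rfl
  have h1 := eLpNorm_le_eLpNorm_fderiv_of_le volume h.cd1 (s := Ω)
    ((subset_tsupport φ).trans h.2.2) (p := pp) (q := qq) hp1
    (by rw [hfr]; exact_mod_cast hpN) (by rw [hfr]; exact hpq) hb
  have h2 : eLpNorm (fderiv ℝ φ) pp volume = eLpNorm (gradient φ) pp volume :=
    eLpNorm_congr_norm_ae (Eventually.of_forall fun x => (norm_grad φ x).symm)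
  have hsup : Function.support (gradient φ) ⊆ closure Ω :=
    (supp_grad φ).trans (h.2.2.trans subset_closure)
  have h3 := eLpNorm_le_eLpNorm_mul_rpow_measure_univ (μ := volume.restrict (closure Ω))
    (f := gradient φ) (p := pp) (q := 2) (by exact_mod_cast hp2)
    (cont_grad h.cd1).aestronglyMeasurable
  rw [eLpNorm_restrict_eq_of_support_subset hsup, eLpNorm_restrict_eq_of_support_subset hsup,
    Measure.restrict_apply_univ] at h3
  rw [e]
  refine h1.trans ?_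
  rw [h2, ENNReal.coe_mul, ENNReal.coe_toNNReal (ENNReal.rpow_ne_top_of_nonneg hex hcl),
    mul_assoc, mul_comm (volume (closure Ω) ^ _)]
  gcongr

theorem enorm_Lp {F : Type*} [NormedAddCommGroup F] (f : Lp F 2 (volume : Measure (E N))) :
    eLpNorm f 2 volume = ‖f‖ₑ := (Lp.enorm_def f).symm

theorem sob (hN : 2 ≤ N) {Ω : Set (E N)} (hb : Bornology.IsBounded Ω) {s : ℝ} (hs : 1 ≤ s)
    (hsN : ((N : ℝ) - 2) * s ≤ 2 * N) : ∃ C : ℝ, 0 < C ∧ ∀ p ∈ H10 Ω,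
      eLpNorm p.1 (ENNReal.ofReal s) volume ≤ ENNReal.ofReal (C * ‖p.2‖) := by
  obtain ⟨C, hC⟩ := sob_test hN hb hs hsN
  refine ⟨C + 1, by positivity, fun p hp => ?_⟩
  obtain ⟨r, hr, hlim⟩ := mem_closure_iff_seq_limit.mp hp
  have h1 : Tendsto (fun n => (r n).1) atTop (𝓝 p.1) := (continuous_fst.tendsto p).comp hlim
  have h2 : Tendsto (fun n => ‖(r n).2‖) atTop (𝓝 ‖p.2‖) :=
    ((continuous_snd.tendsto p).comp hlim).norm
  refine le_of_forall_gt_imp_ge_of_dense fun b hb => ?_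
  refine eLpNorm_le_of_tendstoInMeasure ?_ (tendstoInMeasure_of_tendsto_Lp h1)
    (fun n => Lp.aestronglyMeasurable _)
  have h3 : Tendsto (fun n => ENNReal.ofReal ((C + 1) * ‖(r n).2‖)) atTop
      (𝓝 (ENNReal.ofReal ((C + 1) * ‖p.2‖))) := ENNReal.tendsto_ofReal (h2.const_mul _)
  filter_upwards [h3.eventually (gt_mem_nhds hb)] with n hn
  obtain ⟨φ, h, e1, e2⟩ := hr n
  refine le_trans ?_ hn.le
  rw [eLpNorm_congr_ae e1]
  refine (hC φ h).trans ?_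
  rw [← eLpNorm_congr_ae e2, enorm_Lp, ENNReal.ofReal_mul (by positivity), ofReal_norm]
  gcongr
  rw [← ENNReal.ofReal_coe_nnreal]
  exact ENNReal.ofReal_le_ofReal (by linarith)

theorem H10.zero_off {Ω : Set (E N)} (hm : MeasurableSet Ω) {p : P N} (hp : p ∈ H10 Ω) :
    ∀ᵐ x, x ∉ Ω → p.1 x = 0 := by
  obtain ⟨r, hr, hlim⟩ := mem_closure_iff_seq_limit.mp hp
  have h1 : Tendsto (fun n => (r n).1) atTop (𝓝 p.1) := (continuous_fst.tendsto p).comp hlim
  obtain ⟨l, -, hl⟩ := (tendstoInMeasure_of_tendsto_Lp h1).exists_seq_tendsto_ae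
  have : ∀ᵐ x, ∀ n, x ∉ Ω → (r n).1 x = 0 := ae_all_iff.mpr fun n => by
    obtain ⟨φ, h, e1, -⟩ := hr n
    filter_upwards [e1] with x hx hx'
    rw [hx, h.zero_off hx']
  filter_upwards [hl, this] with x hx hx' hx''
  simp only [hx' _ hx''] at hx
  exact tendsto_nhds_unique hx tendsto_const_nhds

theorem TPn_nonneg {Ω : Set (E N)} {p : P N} (hp : p ∈ closure (TPn Ω)) :
    ∀ᵐ x, 0 ≤ p.1 x := by
  obtain ⟨r, hr, hlim⟩ := mem_closure_iff_seq_limit.mp hp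
  have h1 : Tendsto (fun n => (r n).1) atTop (𝓝 p.1) := (continuous_fst.tendsto p).comp hlim
  obtain ⟨l, -, hl⟩ := (tendstoInMeasure_of_tendsto_Lp h1).exists_seq_tendsto_ae
  have : ∀ᵐ x, ∀ n, 0 ≤ (r n).1 x := ae_all_iff.mpr fun n => by
    obtain ⟨φ, h, h0, e1, -⟩ := hr n
    filter_upwards [e1] with x hx
    rw [hx]; exact h0 x
  filter_upwards [hl, this] with x hx hx'
  exact ge_of_tendsto' hx fun n => hx' _

/-- the Lq norm of g(f) on A -/
noncomputable def nf (q : ℝ) (A : Set (E N)) (g : ℝ → ℝ) (f : E N → ℝ) : ℝ :=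
  (eLpNorm (fun x => g (f x)) (ENNReal.ofReal q) (volume.restrict A)).toReal

/-- contractions of the line fixing 0 -/
def Con (g : ℝ → ℝ) : Prop := g 0 = 0 ∧ ∀ a b, |g a - g b| ≤ |a - b|

theorem Con.cont {g : ℝ → ℝ} (h : Con g) : Continuous g :=
  (LipschitzWith.of_dist_le_mul (K := 1) fun a b => by
    simpa [Real.dist_eq] using h.2 a b).continuous

theorem Con.le {g : ℝ → ℝ} (h : Con g) (a : ℝ) : |g a| ≤ |a| := by
  simpa [h.1] using h.2 a 0

theorem con_id : Con (fun t => t) := ⟨rfl, fun _ _ => le_rfl⟩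
theorem con_pos : Con (fun t => max t 0) := ⟨by simp, fun a b => abs_max_sub_max_le_abs a b 0⟩
theorem con_neg : Con (fun t => max (-t) 0) := ⟨by simp, fun a b => by
  refine (abs_max_sub_max_le_abs _ _ 0).trans_eq ?_
  rw [← abs_neg]; congr 1; ring⟩
theorem con_abs : Con (fun t => |t|) := ⟨by simp, fun a b => abs_abs_sub_abs_le_abs_sub a b⟩

theorem nf_nonneg (q : ℝ) (A : Set (E N)) (g : ℝ → ℝ) (f : E N → ℝ) : 0 ≤ nf q A g f :=
  ENNReal.toReal_nonneg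

theorem nf_congr {q : ℝ} {A : Set (E N)} {g : ℝ → ℝ} {f f' : E N → ℝ} (h : f =ᵐ[volume] f') :
    nf q A g f = nf q A g f' := by
  unfold nf
  exact congrArg ENNReal.toReal (eLpNorm_congr_ae (ae_restrict_of_ae (h.fun_comp g)))

theorem Con.memLp {q : ℝ≥0∞} (A : Set (E N)) {g : ℝ → ℝ} (hg : Con g) {f : E N → ℝ}
    (hf : MemLp f q volume) : MemLp (fun x => g (f x)) q (volume.restrict A) :=
  (hf.restrict A).of_le (hg.cont.comp_aestronglyMeasurable (hf.restrict A).1)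
    (Eventually.of_forall fun x => hg.le _)

theorem nf_le_of_le {q : ℝ} {A B : Set (E N)} {g g' : ℝ → ℝ} {f f' : E N → ℝ} (hAB : A ⊆ B)
    (hf : MemLp (fun x => g' (f' x)) (ENNReal.ofReal q) (volume.restrict B))
    (h : ∀ᵐ x ∂(volume.restrict A), |g (f x)| ≤ |g' (f' x)|) :
    nf q A g f ≤ nf q B g' f' :=
  ENNReal.toReal_mono hf.2.ne ((eLpNorm_mono_ae h).trans
    (eLpNorm_mono_measure _ (Measure.restrict_mono hAB le_rfl)))

theorem nf_tri {q : ℝ} (hq : 1 ≤ q) (A : Set (E N)) {g : ℝ → ℝ} (hg : Con g) {f f' : E N → ℝ}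
    (hf : MemLp f (ENNReal.ofReal q) volume) (hf' : MemLp f' (ENNReal.ofReal q) volume) :
    nf q A g f ≤ nf q A g f' + nf q A (fun t => t) (fun x => f x - f' x) := by
  have h1 := hg.memLp A hf
  have h2 := hg.memLp A hf'
  have h3 : MemLp (fun x => f x - f' x) (ENNReal.ofReal q) (volume.restrict A) :=
    con_id.memLp A (hf.sub hf')
  unfold nf
  beta_reduce
  rw [← ENNReal.toReal_add h2.2.ne h3.2.ne]
  refine ENNReal.toReal_mono (ENNReal.add_ne_top.mpr ⟨h2.2.ne, h3.2.ne⟩) ?_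
  have : (fun x => g (f x)) = (fun x => g (f' x)) + fun x => g (f x) - g (f' x) := by
    ext x; simp
  rw [this]
  refine (eLpNorm_add_le h2.1 (h1.1.sub h2.1) (ENNReal.one_le_ofReal.mpr hq)).trans ?_
  gcongr
  exact eLpNorm_mono_ae (Eventually.of_forall fun x => hg.2 _ _)

theorem nf_lip {q : ℝ} (hq : 1 ≤ q) (A : Set (E N)) {g : ℝ → ℝ} (hg : Con g) {f f' : E N → ℝ}
    (hf : MemLp f (ENNReal.ofReal q) volume) (hf' : MemLp f' (ENNReal.ofReal q) volume) :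
    |nf q A g f - nf q A g f'| ≤ nf q univ (fun t => t) (fun x => f x - f' x) := by
  have h1 := nf_tri hq A hg hf hf'
  have h2 := nf_tri hq A hg hf' hf
  have h3 : nf q A (fun t => t) (fun x => f x - f' x) ≤
      nf q univ (fun t => t) (fun x => f x - f' x) :=
    nf_le_of_le (subset_univ _) (con_id.memLp _ (hf.sub hf')) (Eventually.of_forall fun _ => le_rfl)
  have h4 : nf q A (fun t => t) (fun x => f' x - f x) ≤
      nf q univ (fun t => t) (fun x => f x - f' x) :=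
    nf_le_of_le (subset_univ _) (con_id.memLp _ (hf.sub hf'))
      (Eventually.of_forall fun _ => (abs_sub_comm _ _).le)
  rw [abs_le]; constructor <;> linarith

theorem nf_pow {q : ℝ} (hq : 0 < q) (A : Set (E N)) {g : ℝ → ℝ} {f : E N → ℝ}
    (hf : MemLp (fun x => g (f x)) (ENNReal.ofReal q) (volume.restrict A)) :
    nf q A g f ^ q = ∫ x in A, |g (f x)| ^ q := by
  have h0 : 0 ≤ ∫ x in A, |g (f x)| ^ q := integral_nonneg fun x => by positivity
  rw [nf, hf.eLpNorm_eq_integral_rpow_norm (by simpa using hq) ENNReal.ofReal_ne_top,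
    ENNReal.toReal_ofReal hq.le, ENNReal.toReal_ofReal (by positivity)]
  simp only [Real.norm_eq_abs]
  rw [← Real.rpow_mul h0, inv_mul_cancel₀ hq.ne', Real.rpow_one]

theorem nf_smul {q : ℝ} (A : Set (E N)) {g : ℝ → ℝ} {f f' : E N → ℝ} {c : ℝ}
    (h : ∀ᵐ x, g (f' x) = c * g (f x)) : nf q A g f' = |c| * nf q A g f := by
  unfold nf
  have : (fun x => g (f' x)) =ᵐ[volume.restrict A] c • fun x => g (f x) := ae_restrict_of_ae h
  rw [eLpNorm_congr_ae this, eLpNorm_const_smul, ENNReal.toReal_mul]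
  simp

/-- Setting: a bounded set and an exponent with a Sobolev constant. -/
structure Sob (Ω : Set (E N)) (q C : ℝ) : Prop where
  q1 : 1 ≤ q
  pos : 0 < C
  le : ∀ p ∈ H10 Ω, eLpNorm p.1 (ENNReal.ofReal q) volume ≤ ENNReal.ofReal (C * ‖p.2‖)

theorem Sob.memLp {Ω : Set (E N)} {q C : ℝ} (h : Sob Ω q C) {p : P N} (hp : p ∈ H10 Ω) :
    MemLp p.1 (ENNReal.ofReal q) volume :=
  ⟨Lp.aestronglyMeasurable _, (h.le p hp).trans_lt ENNReal.ofReal_lt_top⟩

theorem Sob.mono {Ω Ω' : Set (E N)} {q C : ℝ} (h : Sob Ω q C) (hs : Ω' ⊆ Ω) : Sob Ω' q C :=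
  ⟨h.q1, h.pos, fun p hp => h.le p (H10.mono hs hp)⟩

theorem nf_univ (q : ℝ) (f : E N → ℝ) :
    nf q univ (fun t => t) f = (eLpNorm f (ENNReal.ofReal q) volume).toReal := by
  simp [nf]

theorem Sob.nf_le {Ω : Set (E N)} {q C : ℝ} (h : Sob Ω q C) {p : P N} (hp : p ∈ H10 Ω) :
    nf q univ (fun t => t) p.1 ≤ C * ‖p.2‖ := by
  rw [nf_univ]
  exact ENNReal.toReal_le_of_le_ofReal (by have := h.pos; positivity) (h.le p hp)

theorem nf_sub (q : ℝ) (p r : P N) : nf q univ (fun t => t) (fun x => p.1 x - r.1 x) =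
    nf q univ (fun t => t) (p - r).1 := (nf_congr (Lp.coeFn_sub p.1 r.1)).symm

theorem Sob.lip {Ω : Set (E N)} {q C : ℝ} (h : Sob Ω q C) (A : Set (E N)) {g : ℝ → ℝ}
    (hg : Con g) {p r : P N} (hp : p ∈ H10 Ω) (hr : r ∈ H10 Ω) :
    |nf q A g p.1 - nf q A g r.1| ≤ nf q univ (fun t => t) (p - r).1 := by
  rw [← nf_sub]; exact nf_lip h.q1 A hg (h.memLp hp) (h.memLp hr)

theorem Sob.cont {Ω : Set (E N)} {q C : ℝ} (h : Sob Ω q C) (A : Set (E N)) {g : ℝ → ℝ}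
    (hg : Con g) : ContinuousOn (fun p : P N => nf q A g p.1) (H10 Ω) := by
  refine (LipschitzOnWith.of_dist_le_mul (K := ⟨C, h.pos.le⟩) fun p hp r hr => ?_).continuousOn
  rw [Real.dist_eq]
  refine (h.lip A hg hp hr).trans ((h.nf_le (H10.sub hp hr)).trans ?_)
  rw [dist_eq_norm]
  exact mul_le_mul_of_nonneg_left (norm_snd_le _) h.pos.le

theorem exists_sob (hN : 2 ≤ N) {Ω : Set (E N)} (hb : Bornology.IsBounded Ω) {s : ℝ} (hs : 1 ≤ s)
    (hsN : ((N : ℝ) - 2) * s ≤ 2 * N) : ∃ C, Sob Ω s C := by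
  obtain ⟨C, h1, h2⟩ := sob hN hb hs hsN
  exact ⟨C, hs, h1, h2⟩

/-- inequalities extend from test pairs to the closure -/
theorem le_of_dense {S : Set (P N)} {f g : P N → ℝ} (hf : ContinuousOn f (closure S))
    (hg : ContinuousOn g (closure S)) (h : ∀ p ∈ S, f p ≤ g p) {p : P N} (hp : p ∈ closure S) :
    f p ≤ g p :=
  ContinuousWithinAt.closure_le hp ((hf p hp).mono subset_closure)
    ((hg p hp).mono subset_closure) h

/-- functions of a pair of classes -/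
noncomputable def ofP (p : P N) : Pair N := (p.1, p.2)

open Classical in
/-- classes of a pair of functions -/
noncomputable def toP (p : Pair N) : P N :=
  if h : MemLp p.1 2 volume ∧ MemLp p.2 2 volume then (h.1.toLp p.1, h.2.toLp p.2) else 0

theorem toP1 {Ω : Set (E N)} {p : Pair N} (h : p ∈ Sob0 Ω) :
    ((toP p).1 : E N → ℝ) =ᵐ[volume] p.1 := by
  rw [toP, dif_pos ⟨h.1, h.2.1⟩]; exact h.1.coeFn_toLp

theorem toP2 {Ω : Set (E N)} {p : Pair N} (h : p ∈ Sob0 Ω) :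
    ((toP p).2 : E N → E N) =ᵐ[volume] p.2 := by
  rw [toP, dif_pos ⟨h.1, h.2.1⟩]; exact h.2.1.coeFn_toLp

theorem mem_iff {Ω : Set (E N)} {p : P N} {r : Pair N} (h1 : (p.1 : E N → ℝ) =ᵐ[volume] r.1)
    (h2 : (p.2 : E N → E N) =ᵐ[volume] r.2) : p ∈ H10 Ω ↔ r ∈ Sob0 Ω := by
  have key : ∀ (s : ℕ → P N) (φ : ℕ → E N → ℝ), (∀ n, ((s n).1 : E N → ℝ) =ᵐ[volume] φ n) →
      (∀ n, ((s n).2 : E N → E N) =ᵐ[volume] gradient (φ n)) →
      (Tendsto s atTop (𝓝 p) ↔ Tendsto (fun n => Lq 2 (φ n - r.1)) atTop (𝓝 0) ∧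
        Tendsto (fun n => L2v (gradient (φ n) - r.2)) atTop (𝓝 0)) := fun s φ e1 e2 => by
    rw [Prod.tendsto_iff, Lp.tendsto_Lp_iff_tendsto_eLpNorm', Lp.tendsto_Lp_iff_tendsto_eLpNorm']
    simp only [Lq, L2v, ENNReal.ofReal_ofNat]
    exact and_congr (tendsto_congr fun n => eLpNorm_congr_ae ((e1 n).sub h1))
      (tendsto_congr fun n => eLpNorm_congr_ae ((e2 n).sub h2))
  constructor
  · intro hp
    obtain ⟨s, hs, hlim⟩ := mem_closure_iff_seq_limit.mp hp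
    choose φ hφ e1 e2 using hs
    exact ⟨(Lp.memLp _).ae_eq h1, (Lp.memLp _).ae_eq h2, φ, hφ, (key s φ e1 e2).mp hlim⟩
  · rintro ⟨-, -, φ, hφ, h⟩
    exact mem_closure_iff_seq_limit.mpr ⟨fun n => tp (φ n), fun n => (hφ n).tp_mem,
      (key _ φ (fun n => (hφ n).tp1) fun n => (hφ n).tp2).mpr h⟩

theorem sph_iff {Ω : Set (E N)} {q : ℝ} {p : P N} {r : Pair N}
    (h1 : (p.1 : E N → ℝ) =ᵐ[volume] r.1) (h2 : (p.2 : E N → E N) =ᵐ[volume] r.2) :
    p ∈ Sph Ω q ↔ r ∈ Sphere Ω q :=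
  and_congr (mem_iff h1 h2) (by rw [eLpNorm_congr_ae h1]; rfl)

theorem dir_eq {p : P N} {r : Pair N} (h2 : (p.2 : E N → E N) =ᵐ[volume] r.2) :
    dir r = ‖p.2‖ ^ 2 := by
  rw [← energy_eq, energy, dir]
  exact integral_congr_ae (by filter_upwards [h2] with x hx; rw [hx])

theorem eigen_iff {Ω : Set (E N)} {q lam : ℝ} {p : P N} {r : Pair N}
    (h1 : (p.1 : E N → ℝ) =ᵐ[volume] r.1) (h2 : (p.2 : E N → E N) =ᵐ[volume] r.2) :
    IsEigen Ω q lam p ↔ Eigen Ω q lam r := by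
  refine and_congr (mem_iff h1 h2) (and_congr (not_congr ?_) (forall₂_congr fun φ _ => ?_))
  · rw [Lp.eq_zero_iff_ae_eq_zero]
    exact ⟨fun h => h1.symm.trans h, fun h => h1.trans h⟩
  · rw [eLpNorm_congr_ae h1, Lq,
      integral_congr_ae (g := fun x => inner ℝ (r.2 x) (gradient φ x))
        (by filter_upwards [h2] with x hx; rw [hx]),
      integral_congr_ae (f := fun x => |p.1 x| ^ (q - 2) * p.1 x * φ x)
        (g := fun x => |r.1 x| ^ (q - 2) * r.1 x * φ x)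
        (by filter_upwards [h1] with x hx; rw [hx])]

theorem spec_eq (Ω : Set (E N)) (q : ℝ) : QSpec Ω q = Spec Ω q := by
  ext lam
  exact ⟨fun ⟨r, h⟩ => ⟨toP r, (eigen_iff (toP1 h.1) (toP2 h.1)).mpr h⟩,
    fun ⟨p, h⟩ => ⟨ofP p, (eigen_iff (r := ofP p) .rfl .rfl).mp h⟩⟩

theorem lam1_eq (Ω : Set (E N)) (q : ℝ) : lambda1 Ω q = lam1 Ω q := by
  unfold lambda1 lam1
  congr 1; ext t
  constructor
  · rintro ⟨r, h, rfl⟩
    exact ⟨toP r, (sph_iff (toP1 h.1) (toP2 h.1)).mpr h, by rw [energy_eq, dir_eq (toP2 h.1)]⟩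
  · rintro ⟨p, h, rfl⟩
    exact ⟨ofP p, (sph_iff (r := ofP p) .rfl .rfl).mp h, rfl⟩

theorem Sob0.neg {Ω : Set (E N)} {r : Pair N} (h : r ∈ Sob0 Ω) :
    ((-toP r).1 : E N → ℝ) =ᵐ[volume] (-r).1 ∧ ((-toP r).2 : E N → E N) =ᵐ[volume] (-r).2 :=
  ⟨(Lp.coeFn_neg _).trans (toP1 h).neg, (Lp.coeFn_neg _).trans (toP2 h).neg⟩

theorem toP_neg {Ω : Set (E N)} {r : Pair N} (h : r ∈ Sob0 Ω) : toP (-r) = -toP r := by
  have h' := (mem_iff (Sob0.neg h).1 (Sob0.neg h).2).mp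
    (H10.neg ((mem_iff (toP1 h) (toP2 h)).mpr h))
  exact Prod.ext (Lp.ext ((toP1 h').trans (Sob0.neg h).1.symm))
    (Lp.ext ((toP2 h').trans (Sob0.neg h).2.symm))

end Pool.Agent.H92.Q
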