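import Pool.Agent.H92.Q9

open MeasureTheory Filter Topology Set Metric
open scoped ENNReal NNReal

namespace Pool.Agent.H92.Q

variable {N : ℕ}

/-- the weighted norm on small subsets of B is small -/
def Tiny (Ω : Set (E N)) (W : E N → ℝ) (B : Set (E N)) : Prop :=
  ∀ ε : ℝ, 0 < ε → ∃ δ : ℝ, 0 < δ ∧ ∀ A, MeasurableSet A → volume A ≤ ENNReal.ofReal δ →
    ∀ r ∈ H10 Ω, ∫ x in A ∩ B, W x * r.1 x ^ 2 ≤ ε * ‖r.2‖ ^ 2

theorem Tiny.union {Ω B B' : Set (E N)} {W : E N → ℝ} (h0 : ∀ x, 0 ≤ W x)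
    (hi : ∀ r ∈ H10 Ω, Integrable fun x => W x * r.1 x ^ 2) (h : Tiny Ω W B) (h' : Tiny Ω W B') :
    Tiny Ω W (B ∪ B') := fun ε hε => by
  obtain ⟨δ, δ0, H⟩ := h (ε / 2) (by positivity)
  obtain ⟨δ', δ0', H'⟩ := h' (ε / 2) (by positivity)
  refine ⟨min δ δ', lt_min δ0 δ0', fun A mA hA r hr => ?_⟩
  have k := integral_mono_measure (Measure.restrict_union_le (μ := volume) (A ∩ B) (A ∩ B'))
    (Eventually.of_forall fun x => mul_nonneg (h0 x) (sq_nonneg (r.1 x)))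
    ((hi r hr).restrict.add_measure (hi r hr).restrict)
  rw [integral_add_measure (hi r hr).restrict (hi r hr).restrict, ← inter_union_distrib_left] at k
  linarith [H A mA (hA.trans (ENNReal.ofReal_le_ofReal (min_le_left _ _))) r hr,
    H' A mA (hA.trans (ENNReal.ofReal_le_ofReal (min_le_right _ _))) r hr]

theorem IsMin1.tiny {Ω : Set (E N)} {q : ℝ} (h : St Ω q) {p : P N} (hp : IsMin1 Ω q p)
    {c : E N} {ρ : ℝ} (hρ : 0 < ρ) (hB : ball c ρ ⊆ Ω) :
    Tiny Ω (fun x => lam1 Ω q * |p.1 x| ^ (q - 2)) (ball c ρ) := fun ε hε => by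
  have hN' : (2 : ℝ) ≤ N := by exact_mod_cast h.hN
  have q1 := h.q1
  have q2 := h.q2
  have l0 := h.min.1
  set γ := (3 - q) / 2 with hγ
  set β := γ / (2 - q) with hβ
  have β1 : 1 < β := by rw [hβ, lt_div_iff₀ (by linarith)]; linarith
  have βγ : β * (q - 2) = -γ := by
    have : 2 - q ≠ 0 := by linarith
    rw [hβ]; field_simp; ring
  set α := (1 + γ) / 2 with hα
  obtain ⟨κ, κ0, hκ⟩ := hp.lower h hρ hB β1
  obtain ⟨C2, hC2⟩ := exists_sob h.hN h.hb (s := 2) (by norm_num) (by linarith)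
  obtain ⟨C, C0, hC⟩ := wt hC2 c hρ (α := α) (by linarith)
  set c1 := lam1 Ω q * κ ^ (q - 2) with hc1
  have c0 : 0 < c1 := by positivity
  obtain ⟨η, ⟨η1, η2⟩, η0⟩ : ∃ η : ℝ, (c1 * η ^ (α - γ) * C < ε / 2 ∧ η < ρ ^ 2 / 2) ∧ 0 < η := by
    have c : ContinuousAt (fun τ : ℝ => τ ^ (α - γ)) 0 :=
      Real.continuousAt_rpow_const _ _ (Or.inr (by linarith))
    exact ex_pos ((((c.const_mul c1).mul_const C).eventually_lt continuousAt_const (by
      rw [Real.zero_rpow (by linarith)]; simpa using hε)).and (gt_mem_nhds (by positivity)))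
  obtain ⟨δ, δ0, hδ⟩ := small_nf h.hN h.hb (q := 2) (by norm_num) (by linarith)
    (κ := √(ε / 2 / (c1 * η ^ (-γ)))) (by positivity)
  refine ⟨δ, δ0, fun A mA hA r hr => ?_⟩
  have k1 := pow_le_pow_left₀ (nf_nonneg _ _ _ _) (hδ A hA r hr) 2
  rw [mul_pow, Real.sq_sqrt (by positivity), ← Real.rpow_two,
    nf_pow two_pos _ (con_id.memLp _ (hC2.memLp hr))] at k1
  simp only [Real.rpow_two, sq_abs] at k1
  obtain ⟨i1, k2⟩ := hC r hr
  have i2 : Integrable fun x => r.1 x ^ 2 := (Lp.memLp r.1).integrable_sq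
  set W := {x | x ∈ ball c ρ ∧ ρ ^ 2 - ‖x - c‖ ^ 2 < ρ ^ 2 / 2}.indicator
    (fun x => (ρ ^ 2 - ‖x - c‖ ^ 2) ^ (-α)) with hW
  have W0 : ∀ x, 0 ≤ W x := fun x => indicator_nonneg (fun y hy => Real.rpow_nonneg
    ((sig_pos hρ).mpr hy.1).le _) x
  have k3 : ∫ x in A ∩ ball c ρ, lam1 Ω q * |p.1 x| ^ (q - 2) * r.1 x ^ 2 ≤
      ∫ x in A ∩ ball c ρ, (c1 * η ^ (α - γ) * (W x * r.1 x ^ 2) + c1 * η ^ (-γ) * r.1 x ^ 2) := by
    refine integral_mono_ae (hp.pic h hr).1.restrict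
      ((i1.const_mul _).add (i2.const_mul _)).restrict
      ((ae_restrict_iff' (mA.inter measurableSet_ball)).mpr ?_)
    filter_upwards [hκ] with x a b
    have sp := (sig_pos hρ).mpr b.2
    have a1 : |p.1 x| ^ (q - 2) ≤ κ ^ (q - 2) * (ρ ^ 2 - ‖x - c‖ ^ 2) ^ (-γ) := by
      rw [← βγ, Real.rpow_mul sp.le, ← Real.mul_rpow κ0.le (by positivity)]
      exact Real.rpow_le_rpow_of_nonpos (by positivity) (a b.2) (by linarith)
    have a2 : (ρ ^ 2 - ‖x - c‖ ^ 2) ^ (-γ) ≤ η ^ (α - γ) * W x + η ^ (-γ) := by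
      rcases le_total η (ρ ^ 2 - ‖x - c‖ ^ 2) with h1 | h1
      · have := Real.rpow_le_rpow_of_nonpos η0 h1 (by linarith : -γ ≤ 0)
        have := W0 x
        have : 0 ≤ η ^ (α - γ) * W x := by positivity
        linarith
      · rw [hW, indicator_of_mem (show x ∈ {x | x ∈ ball c ρ ∧ ρ ^ 2 - ‖x - c‖ ^ 2 < ρ ^ 2 / 2}
          from ⟨b.2, by linarith⟩), show -γ = α - γ + -α by ring, Real.rpow_add sp]
        refine le_add_of_le_of_nonneg ?_ (by positivity)
        gcongr; linarith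
    have a3 := mul_le_mul_of_nonneg_right (mul_le_mul_of_nonneg_left (a1.trans
      (mul_le_mul_of_nonneg_left a2 (by positivity))) l0.le) (sq_nonneg (r.1 x))
    simp only [hc1]
    linarith
  rw [integral_add (i1.const_mul _).restrict (i2.const_mul _).restrict, integral_const_mul,
    integral_const_mul] at k3
  have k4 := (setIntegral_le_integral (s := A ∩ ball c ρ) i1
    (Eventually.of_forall fun x => mul_nonneg (W0 x) (sq_nonneg _))).trans k2
  have k5 := (setIntegral_mono_set (s := A ∩ ball c ρ) i2.integrableOn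
    (Eventually.of_forall fun x => sq_nonneg _) inter_subset_left.eventuallyLE).trans k1
  have k6 := mul_le_mul_of_nonneg_left k4 (by positivity : 0 ≤ c1 * η ^ (α - γ))
  have k7 := mul_le_mul_of_nonneg_left k5 (by positivity : 0 ≤ c1 * η ^ (-γ))
  rw [← mul_assoc, mul_div_cancel₀ _ (by positivity)] at k7
  nlinarith [sq_nonneg ‖r.2‖]

theorem gq_ineq {q : ℝ} (q1 : 1 < q) (q2 : q < 2) : ∃ δ : ℝ, 0 < δ ∧ ∀ a b : ℝ, b ≠ 0 →
    (gq q a - gq q b) * (a - b) ≤ 2 * (|b| ^ (q - 2) * (a - b) ^ 2) ∧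
    (|a - b| ≤ δ * |b| → (gq q a - gq q b) * (a - b) ≤ q / 2 * (|b| ^ (q - 2) * (a - b) ^ 2)) := by
  have d : HasDerivAt (fun s : ℝ => s ^ (q - 1)) (q - 1) 1 := by
    simpa using Real.hasDerivAt_rpow_const (x := 1) (p := q - 1) (Or.inl one_ne_zero)
  have v := (hasDerivAt_iff_tendsto_slope.mp d).eventually (gt_mem_nhds (by linarith : q - 1 < q / 2))
  obtain ⟨δ, δ0, hδ⟩ := Metric.eventually_nhds_iff.mp (eventually_nhdsWithin_iff.mp v)
  refine ⟨min (δ / 2) 1, lt_min (by linarith) one_pos, fun a b hb => ?_⟩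
  obtain ⟨s, rfl⟩ : ∃ s, a = b * s := ⟨a / b, by field_simp⟩
  have e1 : (gq q (b * s) - gq q b) * (b * s - b) = |b| ^ q * ((gq q s - 1) * (s - 1)) := by
    rw [gq_mul, ← gq_self q1]; ring
  have e2 : |b| ^ (q - 2) * (b * s - b) ^ 2 = |b| ^ q * (s - 1) ^ 2 := by
    rw [← gq_self q1, gq]; ring
  have b0 : 0 < |b| := abs_pos.mpr hb
  have b1 : 0 ≤ |b| ^ q := by positivity
  rw [e1, e2, mul_left_comm 2, mul_left_comm (q / 2)]
  refine ⟨mul_le_mul_of_nonneg_left ?_ b1, fun hs => mul_le_mul_of_nonneg_left ?_ b1⟩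
  · rcases le_total 1 s with h | h
    · rw [gq_of_nonneg q1 (by linarith)]
      nlinarith [Real.rpow_le_self_of_one_le h (by linarith : q - 1 ≤ 1)]
    · rcases le_total 0 s with h' | h'
      · rw [gq_of_nonneg q1 h']
        nlinarith [Real.self_le_rpow_of_le_one h' h (by linarith : q - 1 ≤ 1)]
      · have k : |gq q s| ≤ 1 - s := by
          rw [abs_gq q1, abs_of_nonpos h']
          rcases le_total (-s) 1 with h1 | h1
          · linarith [Real.rpow_le_one (by linarith) h1 (by linarith : 0 ≤ q - 1)]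
          · linarith [Real.rpow_le_self_of_one_le h1 (by linarith : q - 1 ≤ 1)]
        nlinarith [(abs_le.mp k).1]
  · rw [← mul_sub_one, abs_mul, mul_comm, mul_le_mul_iff_left₀ b0] at hs
    rcases eq_or_ne s 1 with rfl | h1
    · simp
    have k := hδ (y := s) (by rw [Real.dist_eq]; linarith [min_le_left (δ / 2) 1]) h1
    rw [slope_def_field, Real.one_rpow] at k
    rw [gq_of_nonneg q1 (by linarith [(abs_le.mp hs).1, min_le_right (δ / 2) 1])]
    have := mul_le_mul_of_nonneg_right k.le (sq_nonneg (s - 1))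
    refine le_trans (le_of_eq ?_) this
    have : s - 1 ≠ 0 := sub_ne_zero.mpr h1
    field_simp

theorem Sol.smul {Ω : Set (E N)} {q c t : ℝ} (q1 : 1 < q) {p : P N} (h : Sol Ω q c p) (ht : 0 < t) :
    Sol Ω q (c * t ^ (2 - q)) (t • p) := by
  refine ⟨H10.smul h.1 t, fun r hr => ?_⟩
  rw [Prod.smul_snd, real_inner_smul_left, h.2 r hr, integral_congr_ae
    (f := fun x => gq q ((t • p).1 x) * r.1 x) (g := fun x => t ^ (q - 1) * (gq q (p.1 x) * r.1 x))
    (by filter_upwards [Lp.coeFn_smul t p.1] with x hx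
        rw [Prod.smul_fst, hx, Pi.smul_apply, smul_eq_mul, gq_mul, gq_of_nonneg q1 ht.le, mul_assoc]),
    integral_const_mul, mul_assoc c, ← mul_assoc (t ^ _), ← Real.rpow_add ht,
    show 2 - q + (q - 1) = 1 by ring, Real.rpow_one]
  ring

theorem isolated {Ω : Set (E N)} {q : ℝ} (h : St Ω q)
    (ht : ∀ p, IsMin1 Ω q p → Tiny Ω (fun x => lam1 Ω q * |p.1 x| ^ (q - 2)) Ω) :
    ¬ AccPt (lam1 Ω q) (𝓟 (Spec Ω q)) := fun hacc => by
  have q1 := h.q1
  have q2 := h.q2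
  obtain ⟨C, hC⟩ := h.sob
  obtain ⟨l0, lo, -⟩ := h.min
  obtain ⟨μ, tμ, hμ⟩ := exists_seq_forall_of_frequently (accPt_iff_frequently.mp hacc)
  have : ∀ n, ∃ p, Sol Ω q (μ n) p ∧ nq q p = 1 ∧ ‖p.2‖ ^ 2 = μ n := fun n => by
    obtain ⟨p, hp⟩ := (hμ n).2
    have n0 : 0 < nq q p := by
      rw [nq, nf_univ]
      refine ENNReal.toReal_pos (fun h0 => hp.2.1 ?_) (hC.memLp hp.1).2.ne
      rwa [eLpNorm_eq_zero_iff (Lp.aestronglyMeasurable _) (by simp; linarith),
        ← Lp.eq_zero_iff_ae_eq_zero] at h0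
    have s := (hp.sol h.ho h.hb q1 q2).smul q1 (inv_pos.mpr n0)
    rw [mul_assoc, ← Real.mul_rpow n0.le (by positivity), mul_inv_cancel₀ n0.ne', Real.one_rpow,
      mul_one] at s
    have n1 : nq q ((nq q p)⁻¹ • p) = 1 := by
      rw [nq_smul, abs_of_pos (inv_pos.mpr n0), inv_mul_cancel₀ n0.ne']
    refine ⟨_, s, n1, ?_⟩
    rw [← real_inner_self_eq_norm_sq, s.2 _ s.1]
    simp only [gq_self q1]
    rw [← hC.nq_pow s.1, n1, Real.one_rpow, mul_one]
  choose p s1 s2 s3 using this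
  have μ0 : ∀ n, 0 < μ n := fun n => l0.trans_le (by simpa [s2, s3] using lo _ (s1 n).1)
  obtain ⟨K, hK⟩ := tμ.bddAbove_range
  obtain ⟨p0, m0, l, hl, t1, t2, w⟩ := compact_seq h.hN h.ho h.hb q1.le h.sub subset_rfl
    (TS Ω).convex (p := p) (fun n => (s1 n).1) (K := √K)
    fun n => Real.le_sqrt_of_sq_le ((s3 n).le.trans (hK ⟨n, rfl⟩))
  have tl := tμ.comp hl.tendsto_atTop
  have n0 : nq q p0 = 1 := by
    have : Tendsto (fun n => nq q (p (l n)) - nq q p0) atTop (𝓝 0) :=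
      squeeze_zero_norm (fun n => hC.lip univ con_id (s1 _).1 m0) t2
    simp only [s2] at this
    linarith [tendsto_nhds_unique this tendsto_const_nhds]
  have hp0 : IsMin1 Ω q p0 := ⟨m0, n0, le_antisymm (norm_le_of_weak w tl fun n => (s3 _).le)
    (by simpa [n0] using lo _ m0)⟩
  set c : ℕ → ℝ := fun n => (lam1 Ω q / μ (l n)) ^ (2 - q)⁻¹ with hc
  have c0 : ∀ n, 0 < c n := fun n => by have := μ0 (l n); positivity
  have tc : Tendsto c atTop (𝓝 1) := by
    have := ((tendsto_const_nhds (x := lam1 Ω q)).div tl l0.ne').rpow_const (p := (2 - q)⁻¹)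
      (Or.inl (div_pos l0 l0).ne')
    rwa [div_self l0.ne', Real.one_rpow] at this
  have s4 : ∀ n, Sol Ω q (lam1 Ω q) (c n • p (l n)) := fun n => by
    have := (s1 (l n)).smul q1 (c0 n)
    rwa [hc, Real.rpow_inv_rpow (div_pos l0 (μ0 _)).le (by linarith),
      mul_div_cancel₀ _ (μ0 _).ne'] at this
  have t3 : Tendsto (fun n => (c n • p (l n) - p0).1) atTop (𝓝 0) := by
    simpa using (tc.smul t1).sub_const p0.1
  obtain ⟨m, -, t4⟩ := (tendstoInMeasure_of_tendsto_Lp t3).exists_seq_tendsto_ae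
  set v : ℕ → P N := fun n => c (m n) • p (l (m n)) - p0 with hv
  have mv : ∀ n, v n ∈ H10 Ω := fun n => H10.sub (s4 _).1 m0
  obtain ⟨δ0, d0, hd⟩ := gq_ineq q1 q2
  obtain ⟨δ, d1, hδ⟩ := ht p0 hp0 ((1 - q / 2) / 4) (by linarith)
  have mm : ∀ r : P N, Measurable (r.1 : E N → ℝ) := fun r => (Lp.stronglyMeasurable r.1).measurable
  set A : ℕ → Set (E N) := fun n => Ω ∩ ⋃ k, {x | n ≤ k ∧ δ0 * |p0.1 x| < |(v k).1 x|} with hA
  have mA : ∀ n, MeasurableSet (A n) := fun n => h.ho.measurableSet.inter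
    (MeasurableSet.iUnion fun k => (MeasurableSet.const _).inter
      (measurableSet_lt ((mm p0).abs.const_mul δ0) (mm (v k)).abs))
  have tm := tendsto_measure_iInter_atTop (μ := (volume : Measure (E N))) (s := A)
    (fun i => (mA i).nullMeasurableSet)
    (fun i j hij => inter_subset_inter_right _ (iUnion_mono fun k x hx => ⟨hij.trans hx.1, hx.2⟩))
    ⟨0, (h.hb.subset inter_subset_left).measure_lt_top.ne⟩
  have emp : volume (⋂ n, A n) = 0 := by
    refine measure_eq_zero_iff_ae_notMem.mpr ?_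
    filter_upwards [t4, hp0.ne h, Lp.coeFn_zero ℝ 2 (volume : Measure (E N))] with x a b e hx
    rw [mem_iInter] at hx
    rw [e] at a
    obtain ⟨n, hn⟩ := eventually_atTop.mp (a.abs.eventually (gt_mem_nhds (show |(0 : E N → ℝ) x| <
      δ0 * |p0.1 x| by simpa using mul_pos d0 (abs_pos.mpr (b (hx 0).1)))))
    obtain ⟨k, h1, h2⟩ := mem_iUnion.mp (hx n).2
    exact lt_asymm h2 (hn k h1)
  rw [emp] at tm
  obtain ⟨n, hn⟩ := (tm.eventually (gt_mem_nhds (ENNReal.ofReal_pos.mpr d1))).exists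
  have k1 := hδ _ (mA n) hn.le _ (mv n)
  obtain ⟨i1, k2⟩ := hp0.pic h (mv n)
  have g1 : Integrable fun x => gq q ((c (m n) • p (l (m n))).1 x) * (v n).1 x :=
    (gq_memLp h.ho h.hb q1 q2 (s4 (m n)).1).integrable_mul (Lp.memLp (v n).1)
  have g2 : Integrable fun x => gq q (p0.1 x) * (v n).1 x :=
    (gq_memLp h.ho h.hb q1 q2 m0).integrable_mul (Lp.memLp (v n).1)
  have k3 : ‖(v n).2‖ ^ 2 = ∫ x, lam1 Ω q * ((gq q ((c (m n) • p (l (m n))).1 x) - gq q (p0.1 x)) *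
      (v n).1 x) := by
    rw [← real_inner_self_eq_norm_sq, integral_const_mul]
    simp only [sub_mul]
    rw [integral_sub g1 g2, mul_sub, ← (s4 _).2 _ (mv n), ← (hp0.sol h).2 _ (mv n),
      ← inner_sub_left]
    rfl
  have i2 := i1.indicator ((mA n).inter h.ho.measurableSet)
  have k4 := integral_mono_ae (f := fun x => lam1 Ω q * ((gq q ((c (m n) • p (l (m n))).1 x) -
      gq q (p0.1 x)) * (v n).1 x))
    (by simpa only [sub_mul] using (g1.sub' g2).const_mul (lam1 Ω q))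
    ((i1.const_mul (q / 2)).fun_add (i2.const_mul 2)) (by
    filter_upwards [Lp.coeFn_sub (c (m n) • p (l (m n))).1 p0.1, hp0.ne h,
      H10.zero_off h.ho.measurableSet (mv n)] with x a b e
    have a' : (v n).1 x = (c (m n) • p (l (m n))).1 x - p0.1 x := a
    by_cases hx : x ∈ Ω
    swap
    · simp [e hx, indicator_of_notMem (fun h : x ∈ A n ∩ Ω => hx h.2)]
    obtain ⟨b1, b2⟩ := hd ((c (m n) • p (l (m n))).1 x) _ (b hx)
    rw [← a'] at b1 b2
    have : 0 ≤ lam1 Ω q * |p0.1 x| ^ (q - 2) * (v n).1 x ^ 2 := by positivity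
    by_cases hA' : x ∈ A n
    · rw [indicator_of_mem (show x ∈ A n ∩ Ω from ⟨hA', hx⟩)]
      nlinarith [mul_le_mul_of_nonneg_left b1 l0.le]
    · rw [indicator_of_notMem fun h => hA' h.1]
      have := mul_le_mul_of_nonneg_left (b2 (not_lt.mp fun h =>
        hA' ⟨hx, mem_iUnion.mpr ⟨n, le_rfl, h⟩⟩)) l0.le
      linarith)
  rw [← k3, integral_add (i1.const_mul _) (i2.const_mul _), integral_const_mul, integral_const_mul,
    integral_indicator ((mA n).inter h.ho.measurableSet)] at k4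
  have k5 : ‖(v n).2‖ ^ 2 ≤ 0 := by nlinarith
  have k6 : ‖(v n).2‖ = 0 := by nlinarith [norm_nonneg (v n).2]
  have k7 := (hC.lip univ con_id (s4 (m n)).1 m0).trans (hC.nf_le (mv n))
  rw [k6, mul_zero, abs_nonpos_iff, sub_eq_zero] at k7
  have k8 : c (m n) = 1 := by
    have := nq_smul q (c (m n)) (p (l (m n)))
    rw [s2, abs_of_pos (c0 _), mul_one] at this
    rw [← this]; exact k7.trans n0
  have k9 := Real.rpow_inv_rpow (div_pos l0 (μ0 (l (m n)))).le (by linarith : 2 - q ≠ 0)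
  rw [show (lam1 Ω q / μ (l (m n))) ^ (2 - q)⁻¹ = 1 from k8, Real.one_rpow, eq_div_iff (μ0 _).ne',
    one_mul] at k9
  exact (hμ _).1 k9

end Pool.Agent.H92.Q
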