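import Pool.Agent.H92.Q10

open MeasureTheory Filter Topology Set Metric
open scoped ENNReal NNReal

namespace Pool.Agent.H92.Q

variable {N : ℕ}

/-- difference of the norms of the positive and negative parts on U -/
noncomputable def Ld (q : ℝ) (U : Set (E N)) (p : P N) : ℝ :=
  nf q U (fun t => max t 0) p.1 - nf q U (fun t => max (-t) 0) p.1

theorem Sob.Ld_lip {Ω : Set (E N)} {q C : ℝ} (h : Sob Ω q C) (U : Set (E N)) {p r : P N}
    (hp : p ∈ H10 Ω) (hr : r ∈ H10 Ω) : |Ld q U p - Ld q U r| ≤ 2 * nq q (p - r) := by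
  have a := abs_le.mp (h.lip U con_pos hp hr)
  have b := abs_le.mp (h.lip U con_neg hp hr)
  rw [abs_le, Ld, Ld]; constructor <;> linarith [a.1, a.2, b.1, b.2]

theorem Ld_neg (q : ℝ) (U : Set (E N)) (p : P N) : Ld q U (-p) = -Ld q U p := by
  rw [Ld, Ld, (nf_neg_pos q U p).1, (nf_neg_pos q U p).2]; ring

theorem Ld_smul (q : ℝ) (U : Set (E N)) (p : P N) {c : ℝ} (hc : 0 ≤ c) :
    Ld q U (c • p) = c * Ld q U p := by
  have h1 : nf q U (fun t => max t 0) (c • p).1 = |c| * nf q U (fun t => max t 0) p.1 :=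
    nf_smul U (by
      filter_upwards [Lp.coeFn_smul c p.1] with x hx
      rw [Prod.smul_fst, hx, Pi.smul_apply, smul_eq_mul, mul_max_of_nonneg _ _ hc]; simp)
  have h2 : nf q U (fun t => max (-t) 0) (c • p).1 = |c| * nf q U (fun t => max (-t) 0) p.1 :=
    nf_smul U (by
      filter_upwards [Lp.coeFn_smul c p.1] with x hx
      rw [Prod.smul_fst, hx, Pi.smul_apply, smul_eq_mul, mul_max_of_nonneg _ _ hc]; simp)
  rw [Ld, Ld, h1, h2, abs_of_nonneg hc, mul_sub]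

theorem nf_congr_on {q : ℝ} {U : Set (E N)} (hU : MeasurableSet U) {g g' : ℝ → ℝ}
    {f f' : E N → ℝ} (h : ∀ᵐ x, x ∈ U → |g (f x)| = |g' (f' x)|) : nf q U g f = nf q U g' f' :=
  congrArg ENNReal.toReal (eLpNorm_congr_norm_ae ((ae_restrict_iff' hU).mpr h))

theorem nf_zero {q : ℝ} {U : Set (E N)} (hU : MeasurableSet U) {g : ℝ → ℝ}
    {f : E N → ℝ} (h : ∀ᵐ x, x ∈ U → g (f x) = 0) : nf q U g f = 0 := by
  rw [nf, eLpNorm_congr_ae (g := 0) ((ae_restrict_iff' hU).mpr h)]; simp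

theorem nf_sup {q : ℝ} {A U : Set (E N)} (hA : MeasurableSet A) (hU : MeasurableSet U)
    (hAU : A ⊆ U) {p : P N} (hp : p ∈ H10 A) : nf q U (fun t => t) p.1 = nq q p := by
  rw [← nf_ind hU rfl]
  refine nf_congr ?_
  filter_upwards [H10.zero_off hA hp] with w hw
  by_cases h : w ∈ U
  · exact indicator_of_mem h _
  · rw [indicator_of_notMem h, hw fun h' => h (hAU h')]

theorem gap {A : Set (E N)} {q : ℝ} (h : St A q) (hc : IsPreconnected A) :
    ∃ μ, lam1 A q < μ ∧ ∀ p ∈ H10 A, |Ld q univ p| ≤ nq q p / 2 → μ * nq q p ^ 2 ≤ ‖p.2‖ ^ 2 := by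
  obtain ⟨C, hC⟩ := h.sob
  suffices ∃ μ, lam1 A q < μ ∧ ∀ p ∈ H10 A, nq q p = 1 → 0 ≤ 1 / 2 - |Ld q univ p| →
      μ ≤ ‖p.2‖ ^ 2 by
    obtain ⟨μ, h1, h2⟩ := this
    refine ⟨μ, h1, fun r hr h3 => ?_⟩
    rcases (nf_nonneg q univ (fun t => t) r.1).eq_or_lt with h0 | h0
    · rw [nq, ← h0]; simp
    have := h2 _ (H10.smul hr (nq q r)⁻¹)
      (by rw [nq_smul, abs_of_pos (inv_pos.mpr h0), inv_mul_cancel₀ h0.ne']) (by
        rw [Ld_smul _ _ _ (inv_pos.mpr h0).le, abs_mul, abs_of_pos (inv_pos.mpr h0), sub_nonneg,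
          inv_mul_le_iff₀ h0]; linarith)
    rw [Prod.smul_snd, norm_smul, mul_pow, Real.norm_eq_abs, sq_abs, inv_pow,
      le_inv_mul_iff₀ (by positivity)] at this
    linarith
  by_cases hn : ∃ p ∈ H10 A, nq q p = 1 ∧ 0 ≤ 1 / 2 - |Ld q univ p|
  swap
  · exact ⟨_, lt_add_one _, fun p a b c => (hn ⟨p, a, b, c⟩).elim⟩
  obtain ⟨p1, a, b, c⟩ := hn
  obtain ⟨p, m, n, f, k⟩ := local_min h.hN h.ho h.hb h.q1.le h.sub
    (Φ := fun p => 1 / 2 - |Ld q univ p|) (fun p hp r hr => by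
      rw [sub_sub_sub_cancel_left, abs_sub_comm]
      exact (abs_abs_sub_abs_le_abs_sub _ _).trans (hC.Ld_lip univ hp hr)) a b c
  refine ⟨_, lt_of_le_of_ne (by simpa [n] using h.min.2.1 p m) fun e => ?_, k⟩
  rcases IsMin1.sign h hc ⟨m, n, e.symm⟩ with s | s
  · rw [Ld, nf_zero (g := fun t => max (-t) 0) .univ (by
      filter_upwards [s] with x hx _ using max_eq_right (by linarith)),
      nf_congr' (g' := fun t => t) (f' := p.1) (by
        filter_upwards [s] with x hx; rw [max_eq_left hx]), show nf q univ _ p.1 = 1 from n] at f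
    norm_num at f
  · rw [Ld, nf_zero (g := fun t => max t 0) .univ (by
      filter_upwards [s] with x hx _ using max_eq_right hx),
      nf_congr' (g' := fun t => t) (f' := p.1) (by
        filter_upwards [s] with x hx; rw [max_eq_left (by linarith), abs_neg]),
      show nf q univ _ p.1 = 1 from n] at f
    norm_num at f

theorem orth {A B : Set (E N)} (hAB : Disjoint A B) {p r : P N} (hp : p ∈ H10 A) (hr : r ∈ H10 B) :
    inner ℝ p.2 r.2 = 0 := by
  refine (isClosed_eq (f := fun p : P N => inner ℝ p.2 r.2) (by fun_prop)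
    continuous_const).closure_subset_iff.mpr ?_ hp
  rintro p ⟨φ, hφ, -, e⟩
  refine (isClosed_eq (f := fun r : P N => inner ℝ p.2 r.2) (by fun_prop)
    continuous_const).closure_subset_iff.mpr ?_ hr
  rintro r ⟨ψ, hψ, -, e'⟩
  rw [mem_ofPred_eq, L2.inner_def]
  refine integral_eq_zero_of_ae ?_
  filter_upwards [e, e'] with x a b
  rw [a, b]
  by_cases hx : x ∈ A
  · rw [grad_zero_off fun h => hAB.ne_of_mem hx (hψ.2.2 h) rfl]; simp
  · rw [grad_zero_off fun h => hx (hφ.2.2 h)]; simp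

theorem real_bar {a μ q : ℝ} (a0 : 0 < a) (hμ : a < μ) (q1 : 1 < q) (q2 : q < 2) :
    ∃ η : ℝ, 0 < η ∧ ∀ x y : ℝ, 0 ≤ x → 0 ≤ y → x ^ q + y ^ q = 1 →
      a * (2 * (1 / 2) ^ (2 / q)) + η ≤ μ * x ^ 2 + a * y ^ 2 := by
  have q0 : 0 < q := by linarith
  have r1 : 1 < 2 / q := by rw [lt_div_iff₀ q0]; linarith
  have c1 : 2 * (1 / 2 : ℝ) ^ (2 / q) < 1 := by
    have : (1 / 2 : ℝ) ^ (2 / q) < (1 / 2) ^ (1 : ℝ) :=
      Real.rpow_lt_rpow_of_exponent_gt (by norm_num) (by norm_num) r1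
    rw [Real.rpow_one] at this; linarith
  set c := 2 * (1 / 2 : ℝ) ^ (2 / q) with hc
  have e : ∀ x : ℝ, 0 ≤ x → x ^ 2 = (x ^ q) ^ (2 / q) := fun x hx => by
    rw [← Real.rpow_mul hx, mul_div_cancel₀ _ q0.ne', Real.rpow_two]
  set x0 := ((1 - c) / 4) ^ q⁻¹ with hx0
  have x00 : 0 < x0 := Real.rpow_pos_of_pos (by linarith) _
  refine ⟨min ((μ - a) * x0 ^ 2) (a * ((1 - c) / 2)), lt_min (by have := sub_pos.mpr hμ; positivity)
    (by have := sub_pos.mpr c1; positivity), fun x y hx hy h => ?_⟩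
  rcases le_total x0 x with h1 | h1
  · have k := (convexOn_rpow r1.le).2 (Real.rpow_nonneg hx q) (Real.rpow_nonneg hy q)
      (by norm_num : (0 : ℝ) ≤ 1 / 2) (by norm_num : (0 : ℝ) ≤ 1 / 2) (by norm_num)
    simp only [smul_eq_mul] at k
    rw [← mul_add, h, mul_one, ← e x hx, ← e y hy] at k
    have := mul_le_mul_of_nonneg_left (pow_le_pow_left₀ x00.le h1 2) (sub_pos.mpr hμ).le
    nlinarith [min_le_left ((μ - a) * x0 ^ 2) (a * ((1 - c) / 2))]
  · have k1 : x ^ q ≤ (1 - c) / 4 := by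
      rw [← Real.rpow_inv_rpow (by linarith : 0 ≤ (1 - c) / 4) q0.ne']
      exact Real.rpow_le_rpow hx h1 q0.le
    have k2 := one_add_mul_self_le_rpow_one_add (s := -x ^ q)
      (by linarith [Real.rpow_nonneg hy q]) r1.le
    rw [show 1 + -x ^ q = y ^ q by linarith, ← e y hy] at k2
    have k3 : 2 / q ≤ 2 := by rw [div_le_iff₀ q0]; linarith
    have k4 : 1 - (1 - c) / 2 ≤ y ^ 2 := by nlinarith [Real.rpow_nonneg hx q]
    nlinarith [min_le_right ((μ - a) * x0 ^ 2) (a * ((1 - c) / 2)), sq_nonneg x]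

theorem bar_real {a μ k x y n1 n2 d E1 E2 : ℝ} (a0 : 0 < a) (μ0 : 0 < μ) (k0 : 0 ≤ k)
    (x0 : 0 ≤ x) (x1 : x ≤ 1) (y0 : 0 ≤ y) (y1 : y ≤ 1) (h2 : 0 ≤ n2)
    (e1 : |x - n1| ≤ k) (e2 : |y - n2| ≤ k) (hd : |d| ≤ 2 * k) (E0 : 0 ≤ E1)
    (g : |d| ≤ n1 / 2 → μ * n1 ^ 2 ≤ E1) (l : a * n2 ^ 2 ≤ E2) :
    μ * x ^ 2 + a * y ^ 2 - (μ * (2 * k + 25 * k ^ 2) + a * (2 * k)) ≤ E1 + E2 := by
  obtain ⟨e1, e1'⟩ := abs_le.mp e1
  obtain ⟨e2, e2'⟩ := abs_le.mp e2
  have b2 : y ^ 2 - 2 * k ≤ n2 ^ 2 := by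
    rcases le_total y n2 with h | h <;> nlinarith
  have b3 := mul_le_mul_of_nonneg_left b2 a0.le
  rcases le_total (5 * k) x with h | h
  · have := g (by linarith)
    have b1 : x ^ 2 - 2 * k ≤ n1 ^ 2 := by
      rcases le_total x n1 with h | h <;> nlinarith
    nlinarith [mul_le_mul_of_nonneg_left b1 μ0.le, mul_nonneg μ0.le (sq_nonneg k)]
  · nlinarith [mul_le_mul_of_nonneg_left (pow_le_pow_left₀ x0 h 2) μ0.le, mul_nonneg μ0.le k0]

theorem second (hN : 2 ≤ N) {q : ℝ} (q1 : 1 < q) (q2 : q < 2) :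
    ∃ Ω : Set (E N), IsOpen Ω ∧ Bornology.IsBounded Ω ∧ IsConnected Ω ∧
      ¬ AccPt (lam1 Ω q) (𝓟 (Spec Ω q)) ∧ ∃ lam ∈ Spec Ω q, lam1 Ω q < lam ∧
        ENNReal.ofReal lam < LS Ω q 2 := by
  obtain ⟨e, he⟩ := exists_e hN
  have q0 : 0 < q := by linarith
  have SA : St (ball e 1) q := ⟨hN, isOpen_ball, isBounded_ball, nonempty_ball.mpr one_pos, q1, q2⟩
  have SB : St (ball ((1 : ℝ) • -e) 1) q :=
    ⟨hN, isOpen_ball, isBounded_ball, nonempty_ball.mpr one_pos, q1, q2⟩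
  have hs := lam1_scale hN q1.le SA.sub e one_pos
  rw [Real.one_rpow, mul_one] at hs
  obtain ⟨a0, lA, p1', m1'⟩ := SA.min
  obtain ⟨-, lB, p2', m2'⟩ := SB.min
  obtain ⟨p1, n1, m1, -⟩ := m1'.abs SA
  obtain ⟨p2, n2, m2, -⟩ := m2'.abs SB
  obtain ⟨μ1, g1, G1⟩ := gap SA (convex_ball _ _).isPreconnected
  obtain ⟨μ2, g2, G2⟩ := gap SB (convex_ball _ _).isPreconnected
  rw [hs] at lB g2
  set a := lam1 (ball e 1) q with ha
  set μ := min μ1 μ2
  have hμ : a < μ := lt_min g1 g2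
  obtain ⟨η, η0, hη⟩ := real_bar a0 hμ q1 q2
  set Λ := a * (2 * (1 / 2) ^ (2 / q)) with hΛ
  have Λ0 : 0 < Λ := by positivity
  set s := √(Λ + η) with hs'
  obtain ⟨κ, k1, k0⟩ : ∃ κ : ℝ, (1 + κ) ^ 2 * (Λ + η / 2) <
      Λ + η - (μ * (2 * (κ * s) + 25 * (κ * s) ^ 2) + a * (2 * (κ * s))) ∧ 0 < κ :=
    ex_pos (ContinuousAt.eventually_lt (by fun_prop) (by fun_prop) (by simpa using η0))
  obtain ⟨ε1, e1, H⟩ := barrier hN (isBounded_ball (x := (0 : E N)) (r := 2 * 1)) q1.le SA.sub 0 k0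
  set ε := min ε1 1
  have e0 : 0 < ε := lt_min e1 one_pos
  have sub := dumb_sub he le_rfl (min_le_right _ _ : ε ≤ 1)
  set U := {x : E N | 0 < inner ℝ e x}
  have oU : IsOpen U := isOpen_lt continuous_const (by fun_prop)
  have mU := oU.measurableSet
  have oV : IsOpen {x : E N | 0 < inner ℝ (-e) x} := isOpen_lt continuous_const (by fun_prop)
  have dUV : Disjoint U {x : E N | 0 < inner ℝ (-e) x} :=
    disjoint_left.mpr fun x (h1 : 0 < inner ℝ e x) h2 => by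
      simp only [mem_ofPred_eq, inner_neg_left] at h2; linarith
  set Ω := dumb e 1 ε
  have sA : ball e 1 ⊆ Ω := fun x hx => Or.inl (Or.inl hx)
  have sD : ball 0 ε ⊆ Ω := fun x hx => Or.inl (Or.inr hx)
  have sB : ball ((1 : ℝ) • -e) 1 ⊆ Ω := fun x hx => Or.inr hx
  have hA : ball e 1 ⊆ U := fun x hx => ball_half he (t := 1) (by simpa using hx)
  have hB : ball ((1 : ℝ) • -e) 1 ⊆ {x : E N | 0 < inner ℝ (-e) x} := fun x hx =>
    ball_half (by simpa using he) hx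
  have hB' : ball ((1 : ℝ) • -e) 1 ⊆ Uᶜ := hB.trans dUV.subset_compl_left
  have conn : IsConnected Ω := dumb_conn he le_rfl e0
  have S : St Ω q := ⟨hN, dumb_open _ _ _, isBounded_ball.subset sub, conn.nonempty, q1, q2⟩
  obtain ⟨C, hC⟩ := S.sob
  have bar : ∀ p ∈ H10 Ω, nq q p = 1 → Ld q U p = 0 ∨ Ld q Uᶜ p = 0 → Λ + η / 2 ≤ ‖p.2‖ ^ 2 := by
    intro p m n h0
    by_contra hE
    push Not at hE
    have hk : κ * ‖p.2‖ ≤ κ * s :=
      mul_le_mul_of_nonneg_left (Real.le_sqrt_of_sq_le (by linarith)) k0.le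
    obtain ⟨r1, mr1, r2, mr2, hr, hg⟩ := H Ω _ _ _ _ sub oU oV dUV isOpen_ball isOpen_ball
      (sA.trans sub) (sB.trans sub) hA hB (by
        rintro x ((hx | hx) | hx) h'
        · exact Or.inl hx
        · exact (h' (ball_subset_ball (min_le_left _ _) hx)).elim
        · exact Or.inr hx) p m
    have c := hC.add_compl m mU
    rw [n, Real.one_rpow] at c
    have z1 := nf_nonneg q U (fun t => t) p.1
    have z2 := nf_nonneg q Uᶜ (fun t => t) p.1
    have one : ∀ u v : ℝ, 0 ≤ v → u ^ q + v ^ q = 1 → u ≤ 1 := fun u v hv h => by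
      by_contra h'
      linarith [Real.one_lt_rpow (not_le.mp h') q0, Real.rpow_nonneg hv q]
    have u1 := one _ _ z2 c
    have u2 := one _ _ z1 ((add_comm _ _).trans c)
    have ks : 0 ≤ κ * s := by positivity
    have a1 := abs_le.mp ((hg _ con_pos).1.trans hk)
    have a2 := abs_le.mp ((hg _ con_neg).1.trans hk)
    have a3 := abs_le.mp ((hg _ con_pos).2.trans hk)
    have a4 := abs_le.mp ((hg _ con_neg).2.trans hk)
    rw [mul_pow] at hr
    have hE' := mul_le_mul_of_nonneg_left hE.le (sq_nonneg (1 + κ))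
    rcases h0 with h0 | h0
    · have := bar_real (d := Ld q univ r1) a0 (a0.trans hμ) ks z1 u1 z2 u2 (nf_nonneg _ _ _ _)
        ((hg _ con_id).1.trans hk) ((hg _ con_id).2.trans hk)
        (by rw [Ld] at h0 ⊢; rw [abs_le]; constructor <;> linarith [a1.1, a1.2, a2.1, a2.2])
        (sq_nonneg _) (fun h => (mul_le_mul_of_nonneg_right (min_le_left _ _) (sq_nonneg _)).trans
          (G1 r1 mr1 h)) (lB r2 mr2)
      linarith [hη _ _ z1 z2 c]
    · have := bar_real (d := Ld q univ r2) a0 (a0.trans hμ) ks z2 u2 z1 u1 (nf_nonneg _ _ _ _)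
        ((hg _ con_id).2.trans hk) ((hg _ con_id).1.trans hk)
        (by rw [Ld] at h0 ⊢; rw [abs_le]; constructor <;> linarith [a3.1, a3.2, a4.1, a4.2])
        (sq_nonneg _) (fun h => (mul_le_mul_of_nonneg_right (min_le_right _ _) (sq_nonneg _)).trans
          (G2 r2 mr2 h)) (lA r1 mr1)
      linarith [hη _ _ z2 z1 ((add_comm _ _).trans c)]
  set c : ℝ := (1 / 2) ^ q⁻¹ with hc
  have c0 : 0 < c := by positivity
  have mt := H10.sub (H10.mono sA m1.1) (H10.mono sB m2.1)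
  have v1 : ∀ᵐ x, x ∈ U → (p1 - p2).1 x = p1.1 x := by
    filter_upwards [Lp.coeFn_sub p1.1 p2.1, H10.zero_off measurableSet_ball m2.1] with x a b hx
    rw [Prod.fst_sub, a, Pi.sub_apply, b fun h => hB' h hx, sub_zero]
  have v2 : ∀ᵐ x, x ∈ Uᶜ → (p1 - p2).1 x = -p2.1 x := by
    filter_upwards [Lp.coeFn_sub p1.1 p2.1, H10.zero_off measurableSet_ball m1.1] with x a b hx
    rw [Prod.fst_sub, a, Pi.sub_apply, b fun h => hx (hA h), zero_sub]
  have nt : nq q (c • (p1 - p2)) = 1 := by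
    have k := hC.add_compl mt mU
    rw [nf_congr_on (g' := fun t => t) (f' := p1.1) mU (by
        filter_upwards [v1] with x a b; rw [a b]),
      nf_congr_on (g' := fun t => t) (f' := p2.1) mU.compl (by
        filter_upwards [v2] with x a b; rw [a b, abs_neg]),
      nf_sup measurableSet_ball mU hA m1.1, nf_sup measurableSet_ball mU.compl hB' m2.1,
      m1.2.1, m2.2.1, Real.one_rpow] at k
    have z : 0 ≤ nq q (p1 - p2) := nf_nonneg q univ (fun t => t) (p1 - p2).1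
    rw [nq_smul, abs_of_pos c0, ← Real.rpow_rpow_inv z
      q0.ne', ← k, hc, ← Real.mul_rpow (by norm_num) (by norm_num)]
    norm_num
  have Et : ‖(c • (p1 - p2)).2‖ ^ 2 = Λ := by
    rw [Prod.smul_snd, norm_smul, mul_pow, Prod.snd_sub, norm_sub_sq_real, m1.2.2, m2.2.2, hs,
      orth (dUV.mono hA hB) m1.1 m2.1, Real.norm_eq_abs, sq_abs, hc, ← Real.rpow_two,
      ← Real.rpow_mul (by norm_num), hΛ, inv_mul_eq_div]
    ring
  have hΦ : ∀ p ∈ H10 Ω, ∀ r ∈ H10 Ω, |min (Ld q U p) (-Ld q Uᶜ p) -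
      min (Ld q U r) (-Ld q Uᶜ r)| ≤ 2 * nq q (p - r) := fun p hp r hr =>
    (abs_min_sub_min_le_max _ _ _ _).trans (max_le (hC.Ld_lip U hp hr) (by
      rw [neg_sub_neg, abs_sub_comm]; exact hC.Ld_lip Uᶜ hp hr))
  have ft : 0 ≤ min (Ld q U (c • (p1 - p2))) (-Ld q Uᶜ (c • (p1 - p2))) := by
    rw [Ld_smul _ _ _ c0.le, Ld_smul _ _ _ c0.le, Ld, Ld,
      nf_zero (g := fun t => max (-t) 0) mU (by
        filter_upwards [v1, TPn_nonneg n1] with x a b h; rw [a h]; exact max_eq_right (by linarith)),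
      nf_zero (g := fun t => max t 0) mU.compl (by
        filter_upwards [v2, TPn_nonneg n2] with x a b h; rw [a h]; exact max_eq_right (by linarith))]
    have := nf_nonneg q U (fun t => max t 0) (p1 - p2).1
    have := nf_nonneg q Uᶜ (fun t => max (-t) 0) (p1 - p2).1
    exact le_min (by nlinarith) (by nlinarith)
  obtain ⟨p, m, n, f, k⟩ := local_min hN S.ho S.hb q1.le S.sub hΦ (H10.smul mt c) nt ft
  have hE := (k _ (H10.smul mt c) nt ft).trans Et.le
  have f' : 0 < min (Ld q U p) (-Ld q Uᶜ p) := f.lt_of_ne fun h => by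
    have := bar p m n ((min_choice (Ld q U p) (-Ld q Uᶜ p)).imp (fun h' => h'.symm.trans h.symm)
      fun h' => neg_eq_zero.mp (h'.symm.trans h.symm))
    linarith
  refine ⟨Ω, S.ho, S.hb, conn, isolated S fun w hw => ?_, _,
    ⟨p, eigen_of_min hC q1 (hC.contΦ hΦ) m n f' k⟩,
    lt_of_le_of_ne (by simpa [n] using S.min.2.1 p m) fun h => ?_, ?_⟩
  · have w0 : ∀ x, 0 ≤ lam1 Ω q * |w.1 x| ^ (q - 2) := fun x => by have := S.min.1; positivity
    exact Tiny.union w0 (fun r hr => (hw.pic S hr).1) (Tiny.union w0 (fun r hr => (hw.pic S hr).1)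
      (hw.tiny S one_pos sA) (hw.tiny S e0 sD)) (hw.tiny S one_pos sB)
  · rcases IsMin1.sign S conn.isPreconnected ⟨m, n, h.symm⟩ with s | s
    · have := (lt_min_iff.mp f').2
      rw [Ld, nf_zero (g := fun t => max (-t) 0) mU.compl (by
        filter_upwards [s] with x hx _ using max_eq_right (by linarith))] at this
      linarith [nf_nonneg q Uᶜ (fun t => max t 0) p.1]
    · have := (lt_min_iff.mp f').1
      rw [Ld, nf_zero (g := fun t => max t 0) mU (by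
        filter_upwards [s] with x hx _ using max_eq_right hx)] at this
      linarith [nf_nonneg q U (fun t => max (-t) 0) p.1]
  · refine lt_of_lt_of_le ?_ (LS_ge hN S.hb (L := Ld q U) (hC.contΦ fun p hp r hr =>
      hC.Ld_lip U hp hr) (Ld_neg q U) (fun p hp h => bar p hp.1 (hC.sph.mp hp).2 (Or.inl h)) le_rfl)
    rw [ENNReal.ofReal_lt_ofReal_iff_of_nonneg (by positivity)]
    linarith

end Pool.Agent.H92.Q
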