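import Pool.Agent.H92.Q1

open MeasureTheory Filter Topology Set Metric
open scoped ENNReal NNReal

namespace Pool.Agent.H92.Q

variable {N : ℕ}

theorem weak_subseq {H : Type*} [NormedAddCommGroup H] [InnerProductSpace ℝ H] [CompleteSpace H]
    [TopologicalSpace.SeparableSpace H] (x : ℕ → H) {K : ℝ} (hK : ∀ n, ‖x n‖ ≤ K) :
    ∃ y : H, ∃ l : ℕ → ℕ, StrictMono l ∧
      ∀ z, Tendsto (fun n => inner ℝ (x (l n)) z) atTop (𝓝 (inner ℝ y z)) := by
  obtain ⟨a, -, l, hl, h⟩ := WeakDual.isSeqCompact_closedBall ℝ H (0 : StrongDual ℝ H) K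
    (x := fun n => StrongDual.toWeakDual (InnerProductSpace.toDual ℝ H (x n)))
    (fun n => by simpa using hK n)
  refine ⟨(InnerProductSpace.toDual ℝ H).symm (WeakDual.toStrongDual a), l, hl, fun z => ?_⟩
  have := ((WeakDual.eval_continuous z).tendsto a).comp h
  rw [InnerProductSpace.toDual_symm_apply]
  exact this

theorem jensen2 {α : Type*} [MeasurableSpace α] (μ : Measure α) [IsProbabilityMeasure μ]
    {f : α → ℝ≥0∞} (hf : AEMeasurable f μ) : (∫⁻ a, f a ∂μ) ^ 2 ≤ ∫⁻ a, f a ^ 2 ∂μ := by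
  have h := ENNReal.lintegral_mul_le_Lp_mul_Lq μ Real.HolderConjugate.two_two hf
    (g := fun _ => 1) aemeasurable_const
  simp only [Pi.mul_apply, mul_one, ENNReal.one_rpow, lintegral_const, measure_univ,
    ENNReal.rpow_two, one_pow] at h
  refine (pow_le_pow_left' h 2).trans_eq ?_
  rw [← ENNReal.rpow_natCast, ← ENNReal.rpow_mul]; norm_num

theorem eLp2 {α F : Type*} [MeasurableSpace α] (μ : Measure α) [NormedAddCommGroup F] (f : α → F) :
    eLpNorm f 2 μ ^ 2 = ∫⁻ a, ‖f a‖ₑ ^ 2 ∂μ := by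
  have := eLpNorm_nnreal_pow_eq_lintegral (f := f) (μ := μ) (p := 2) (by norm_num)
  simpa using this

theorem trans_le {φ : E N → ℝ} (h : ContDiff ℝ 1 φ) {K : Set (E N)} (hK : Convex ℝ K)
    (hm : MeasurableSet K) (y : E N) :
    ∫⁻ x in {x | x ∈ K ∧ x + y ∈ K}, ‖φ (x + y) - φ x‖ₑ ^ 2 ≤
      ‖y‖ₑ ^ 2 * ∫⁻ x in K, ‖gradient φ x‖ₑ ^ 2 := by
  have hc := cont_grad h
  have hd := h.differentiable one_ne_zero
  have : IsProbabilityMeasure (volume.restrict (Ioc (0 : ℝ) 1)) := ⟨by simp⟩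
  set g : E N → ℝ≥0∞ := K.indicator fun x => ‖gradient φ x‖ₑ ^ 2 with hg
  have hgm : Measurable g := (hc.measurable.enorm.pow_const 2).indicator hm
  have hS : MeasurableSet {x | x ∈ K ∧ x + y ∈ K} :=
    hm.inter ((measurable_add_const y) hm)
  have key : ∀ x, x ∈ K ∧ x + y ∈ K → ‖φ (x + y) - φ x‖ₑ ^ 2 ≤
      ‖y‖ₑ ^ 2 * ∫⁻ t in Ioc (0 : ℝ) 1, g (x + t • y) := by
    rintro x ⟨hx, hxy⟩
    have h1 : ∀ t : ℝ, HasDerivAt (fun t : ℝ => φ (x + t • y))
        (inner ℝ (gradient φ (x + t • y)) y) t := fun t => by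
      rw [inner_gradient_left]
      exact (hd _).hasFDerivAt.comp_hasDerivAt t
        (by simpa using ((hasDerivAt_id t).smul_const y).const_add x)
    have h2 := intervalIntegral.integral_eq_sub_of_hasDerivAt (a := 0) (b := 1)
      (fun t _ => h1 t) (Continuous.intervalIntegrable (by fun_prop) _ _)
    simp only [one_smul, zero_smul, add_zero] at h2
    rw [← h2, intervalIntegral.integral_of_le zero_le_one]
    have h3 : ‖∫ t in Ioc (0 : ℝ) 1, inner ℝ (gradient φ (x + t • y)) y‖ₑ ≤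
        ∫⁻ t in Ioc (0 : ℝ) 1, ‖y‖ₑ * ‖gradient φ (x + t • y)‖ₑ := by
      refine (enorm_integral_le_lintegral_enorm _).trans (lintegral_mono fun t => ?_)
      rw [mul_comm, ← ofReal_norm, ← ofReal_norm, ← ofReal_norm,
        ← ENNReal.ofReal_mul (norm_nonneg _)]
      exact ENNReal.ofReal_le_ofReal (norm_inner_le_norm _ _)
    have hm' : Measurable fun t : ℝ => ‖gradient φ (x + t • y)‖ₑ :=
      (by fun_prop : Continuous fun t : ℝ => gradient φ (x + t • y)).measurable.enorm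
    rw [lintegral_const_mul _ hm'] at h3
    refine (pow_le_pow_left' h3 2).trans ?_
    rw [mul_pow]
    gcongr
    refine (jensen2 _ hm'.aemeasurable).trans (setLIntegral_mono' measurableSet_Ioc fun t ht => ?_)
    have : x + t • y ∈ K := hK.add_smul_mem hx hxy ⟨ht.1.le, ht.2⟩
    rw [hg, indicator_of_mem this]
  calc _ ≤ ∫⁻ x in {x | x ∈ K ∧ x + y ∈ K}, ‖y‖ₑ ^ 2 * ∫⁻ t in Ioc (0 : ℝ) 1, g (x + t • y) :=
        setLIntegral_mono' hS key
    _ ≤ ∫⁻ x, ‖y‖ₑ ^ 2 * ∫⁻ t in Ioc (0 : ℝ) 1, g (x + t • y) := setLIntegral_le_lintegral _ _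
    _ = _ := by
      have hm2 : Measurable (Function.uncurry fun (x : E N) (t : ℝ) => g (x + t • y)) :=
        hgm.comp (by fun_prop)
      rw [lintegral_const_mul' _ _ (by finiteness), lintegral_lintegral_swap hm2.aemeasurable]
      simp only [lintegral_add_right_eq_self, lintegral_const, measure_univ, mul_one]
      rw [hg, lintegral_indicator hm]

/-- average over a ball -/
noncomputable def avg (δ : ℝ) (φ : E N → ℝ) (x : E N) : ℝ :=
  ∫ y, φ (x + y) ∂(ProbabilityTheory.cond volume (ball (0 : E N) δ))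

theorem avg_meas (δ : ℝ) {φ : E N → ℝ} (h : Continuous φ) : StronglyMeasurable (avg δ φ) :=
  StronglyMeasurable.integral_prod_right' (f := fun z : E N × E N => φ (z.1 + z.2))
    (by fun_prop : Continuous fun z : E N × E N => φ (z.1 + z.2)).stronglyMeasurable

theorem avg_eq (δ : ℝ) {φ : E N → ℝ} {u : Lp ℝ 2 (volume : Measure (E N))}
    (h : (u : E N → ℝ) =ᵐ[volume] φ) (x : E N) :
    avg δ φ x = (volume (ball (0 : E N) δ))⁻¹.toReal *
      inner ℝ u (indicatorConstLp 2 measurableSet_ball (measure_ball_lt_top (x := x) (r := δ)).ne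
        (1 : ℝ)) := by
  rw [real_inner_comm, L2.inner_indicatorConstLp_one, avg, ProbabilityTheory.cond,
    integral_smul_measure, smul_eq_mul, integral_congr_ae (ae_restrict_of_ae h),
    ← integral_indicator measurableSet_ball, ← integral_indicator measurableSet_ball,
    ← integral_add_left_eq_self ((ball x δ).indicator φ) x]
  congr 2
  ext y
  by_cases hy : y ∈ ball (0 : E N) δ
  · rw [indicator_of_mem hy, indicator_of_mem (by simpa using hy)]
  · rw [indicator_of_notMem hy, indicator_of_notMem (by simpa using hy)]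

theorem avg_close {δ : ℝ} (hδ : 0 < δ) {φ : E N → ℝ} (h : ContDiff ℝ 1 φ) :
    eLpNorm (fun x => avg δ φ x - φ x) 2 volume ≤
      ENNReal.ofReal δ * eLpNorm (gradient φ) 2 volume := by
  set ν := ProbabilityTheory.cond (volume : Measure (E N)) (ball (0 : E N) δ) with hν
  have : IsProbabilityMeasure ν := ProbabilityTheory.cond_isProbabilityMeasure_of_finite
    (measure_ball_pos _ _ hδ).ne' measure_ball_lt_top.ne
  have hc := h.continuous
  have hae : ∀ᵐ y ∂ν, y ∈ ball (0 : E N) δ := ProbabilityTheory.ae_cond_mem measurableSet_ball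
  rw [← ENNReal.pow_le_pow_left_iff two_ne_zero, mul_pow, eLp2, eLp2]
  have hm2 : Measurable (Function.uncurry fun (x y : E N) => ‖φ (x + y) - φ x‖ₑ ^ 2) :=
    ((by fun_prop : Continuous fun z : E N × E N =>
      φ (z.1 + z.2) - φ z.1).measurable.enorm.pow_const 2)
  have key : ∀ x, ‖avg δ φ x - φ x‖ₑ ^ 2 ≤ ∫⁻ y, ‖φ (x + y) - φ x‖ₑ ^ 2 ∂ν := fun x => by
    have hi : Integrable (fun y => φ (x + y)) ν := by
      rw [hν, ProbabilityTheory.cond]
      refine Integrable.smul_measure ?_ (ENNReal.inv_ne_top.mpr (measure_ball_pos _ _ hδ).ne')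
      exact ((by fun_prop : Continuous fun y => φ (x + y)).continuousOn.integrableOn_compact
        (isCompact_closedBall 0 δ)).mono_set ball_subset_closedBall
    have e : avg δ φ x - φ x = ∫ y, (φ (x + y) - φ x) ∂ν := by
      rw [integral_sub hi (integrable_const _)]; simp [avg, hν]
    rw [e]
    refine (pow_le_pow_left' (enorm_integral_le_lintegral_enorm _) 2).trans (jensen2 _ ?_)
    exact (by fun_prop : Continuous fun y => φ (x + y) - φ x).measurable.enorm.aemeasurable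
  refine (lintegral_mono key).trans ?_
  rw [lintegral_lintegral_swap hm2.aemeasurable]
  refine (lintegral_mono_ae (g := fun _ => ENNReal.ofReal δ ^ 2 *
    ∫⁻ a, ‖gradient φ a‖ₑ ^ 2) ?_).trans (by simp)
  filter_upwards [hae] with y hy
  have := trans_le h convex_univ MeasurableSet.univ y
  simp only [mem_univ, and_self, ofPred_true, Measure.restrict_univ] at this
  refine this.trans ?_
  gcongr
  rw [← ofReal_norm]
  exact ENNReal.ofReal_le_ofReal (by simpa using (mem_ball_zero_iff.mp hy).le)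

theorem cauchy_test {Ω : Set (E N)} (hb : Bornology.IsBounded Ω) {r : ℕ → P N}
    (hr : ∀ n, r n ∈ TP Ω) {K : ℝ} (hK1 : ∀ n, ‖(r n).1‖ ≤ K) (hK2 : ∀ n, ‖(r n).2‖ ≤ K)
    {u : Lp ℝ 2 (volume : Measure (E N))}
    (hu : ∀ z, Tendsto (fun n => inner ℝ (r n).1 z) atTop (𝓝 (inner ℝ u z))) :
    CauchySeq fun n => (r n).1 := by
  choose φ hφ e1 e2 using hr
  have hK : 0 ≤ K := (norm_nonneg _).trans (hK1 0)
  refine Metric.cauchySeq_iff.mpr fun ε hε => ?_
  set δ := ε / (4 * (K + 1)) with hδ'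
  have hδ : 0 < δ := by positivity
  set c := (volume (ball (0 : E N) δ))⁻¹.toReal
  let I : E N → Lp ℝ 2 (volume : Measure (E N)) := fun x =>
    indicatorConstLp 2 measurableSet_ball (measure_ball_lt_top (x := x) (r := δ)).ne (1 : ℝ)
  have hw : ∀ n x, avg δ (φ n) x = c * inner ℝ (r n).1 (I x) := fun n x => avg_eq δ (e1 n) x
  set B := c * (K * (volume.real (ball (0 : E N) δ)) ^ (1 / (2 : ℝ≥0∞).toReal))
  have hB : ∀ n x, |avg δ (φ n) x| ≤ B := fun n x => by
    rw [hw, abs_mul, abs_of_nonneg ENNReal.toReal_nonneg]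
    refine mul_le_mul_of_nonneg_left ((abs_real_inner_le_norm _ _).trans ?_) ENNReal.toReal_nonneg
    refine mul_le_mul (hK1 n) (norm_indicatorConstLp_le.trans ?_) (norm_nonneg _) hK
    simp [Measure.real, Measure.addHaar_ball_center volume x]
  have hlim : Tendsto (fun nm : ℕ × ℕ => ∫⁻ x in Ω, ‖avg δ (φ nm.1) x - avg δ (φ nm.2) x‖ₑ ^ 2)
      (atTop ×ˢ atTop) (𝓝 (∫⁻ _ in Ω, 0)) := by
    refine tendsto_lintegral_filter_of_dominated_convergence
      (fun _ => ENNReal.ofReal (B + B) ^ 2) (Eventually.of_forall fun nm => ?_)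
      (Eventually.of_forall fun nm => Eventually.of_forall fun x => ?_) ?_
      (Eventually.of_forall fun x => ?_)
    · exact (((avg_meas δ (hφ _).cont).sub (avg_meas δ (hφ _).cont)).measurable.enorm.pow_const 2)
    · refine pow_le_pow_left' ?_ 2
      rw [← ofReal_norm]
      exact ENNReal.ofReal_le_ofReal ((abs_sub _ _).trans (add_le_add (hB _ _) (hB _ _)))
    · rw [lintegral_const, Measure.restrict_apply_univ]
      exact ENNReal.mul_ne_top (by finiteness) hb.measure_lt_top.ne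
    · have h1 : Tendsto (fun n => avg δ (φ n) x) atTop (𝓝 (c * inner ℝ u (I x))) := by
        simp only [hw]; exact (hu _).const_mul c
      have h2 := (h1.comp (tendsto_fst (g := atTop))).sub (h1.comp (tendsto_snd (f := atTop)))
      rw [sub_self] at h2
      have h3 := ENNReal.Tendsto.pow (n := 2) h2.enorm
      simpa using h3
  rw [lintegral_zero] at hlim
  have hpos : (0 : ℝ≥0∞) < ENNReal.ofReal (ε / 4) ^ 2 := by
    have : 0 < ENNReal.ofReal (ε / 4) := by simpa using hε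
    positivity
  obtain ⟨M, hM⟩ := eventually_atTop_prod_self'.mp
    (by simpa only [prod_atTop_atTop_eq] using hlim.eventually (gt_mem_nhds hpos))
  refine ⟨M, fun m hm n hn => ?_⟩
  have h1 := hM m hm n hn
  rw [← eLp2, ENNReal.pow_lt_pow_left_iff two_ne_zero] at h1
  have hcl : ∀ n, eLpNorm (fun x => avg δ (φ n) x - φ n x) 2 (volume.restrict Ω) ≤
      ENNReal.ofReal (ε / 4) := fun n => by
    refine (eLpNorm_mono_measure _ Measure.restrict_le_self).trans
      ((avg_close hδ (hφ n).cd1).trans ?_)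
    rw [← eLpNorm_congr_ae (e2 n), enorm_Lp, ← ofReal_norm, ← ENNReal.ofReal_mul hδ.le]
    refine ENNReal.ofReal_le_ofReal ?_
    calc δ * ‖(r n).2‖ ≤ δ * (K + 1) := by gcongr; linarith [hK2 n]
      _ = ε / 4 := by rw [hδ']; field_simp
  have hms : ∀ n, AEStronglyMeasurable (avg δ (φ n)) (volume.restrict Ω) := fun n =>
    (avg_meas δ (hφ n).cont).aestronglyMeasurable
  have hms' : ∀ n, AEStronglyMeasurable (φ n) (volume.restrict Ω) := fun n =>
    (hφ n).cont.aestronglyMeasurable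
  have h2 : ‖(r m).1 - (r n).1‖ₑ ≤ ENNReal.ofReal (ε / 4) + ENNReal.ofReal (ε / 4) +
      ENNReal.ofReal (ε / 4) := by
    have e : ((r m).1 - (r n).1 : Lp ℝ 2 _) =ᵐ[volume] fun x => φ m x - φ n x := by
      filter_upwards [Lp.coeFn_sub (r m).1 (r n).1, e1 m, e1 n] with x a b c
      rw [a, Pi.sub_apply, b, c]
    rw [← enorm_Lp, eLpNorm_congr_ae e, ← eLpNorm_restrict_eq_of_support_subset (s := Ω)
      (fun x hx => by_contra fun h => hx (by simp [(hφ m).zero_off h, (hφ n).zero_off h]))]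
    have e' : (fun x => φ m x - φ n x) = ((fun x => avg δ (φ m) x - avg δ (φ n) x) +
        (fun x => avg δ (φ n) x - φ n x)) - fun x => avg δ (φ m) x - φ m x := by
      ext x; simp
    rw [e']
    refine (eLpNorm_sub_le (((hms m).sub (hms n)).add ((hms n).sub (hms' n)))
      ((hms m).sub (hms' m)) one_le_two).trans (add_le_add ?_ (hcl m))
    exact (eLpNorm_add_le ((hms m).sub (hms n)) ((hms n).sub (hms' n)) one_le_two).trans
      (add_le_add h1.le (hcl n))
  rw [← ENNReal.ofReal_add (by positivity) (by positivity),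
    ← ENNReal.ofReal_add (by positivity) (by positivity), ← ofReal_norm,
    ENNReal.ofReal_le_ofReal_iff (by positivity)] at h2
  rw [dist_eq_norm]; linarith

/-- the Lq norm on a small set is small -/
theorem small_set (hN : 2 ≤ N) {Ω : Set (E N)} (hb : Bornology.IsBounded Ω) {q : ℝ} (hq : 1 ≤ q)
    (hqN : ((N : ℝ) - 2) * q < 2 * N) {κ : ℝ} (hκ : 0 < κ) : ∃ δ : ℝ, 0 < δ ∧
      ∀ A : Set (E N), volume A ≤ ENNReal.ofReal δ → ∀ p ∈ H10 Ω,
        eLpNorm p.1 (ENNReal.ofReal q) (volume.restrict A) ≤ ENNReal.ofReal (κ * ‖p.2‖) := by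
  have hN' : (2 : ℝ) ≤ N := by exact_mod_cast hN
  set η := (2 * N - ((N : ℝ) - 2) * q) / N with hη'
  have hη : 0 < η := div_pos (by linarith) (by linarith)
  have hη2 : η * N = 2 * N - ((N : ℝ) - 2) * q := by rw [hη']; field_simp
  obtain ⟨C, hC⟩ := exists_sob hN hb (s := q + η) (by linarith) (by nlinarith)
  have hCp := hC.pos
  set γ := 1 / q - 1 / (q + η) with hγ'
  have hγ : 0 < γ := sub_pos.mpr (one_div_lt_one_div_of_lt (by linarith) (by linarith))
  refine ⟨(κ / C) ^ γ⁻¹, by positivity, fun A hA p hp => ?_⟩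
  refine (eLpNorm_le_eLpNorm_mul_rpow_measure_univ (q := ENNReal.ofReal (q + η))
    (ENNReal.ofReal_le_ofReal (by linarith)) (Lp.aestronglyMeasurable _).restrict).trans ?_
  rw [Measure.restrict_apply_univ, ENNReal.toReal_ofReal (by linarith),
    ENNReal.toReal_ofReal (by linarith), ← hγ']
  refine (mul_le_mul' ((eLpNorm_mono_measure _ Measure.restrict_le_self).trans (hC.le p hp))
    (ENNReal.rpow_le_rpow hA hγ.le)).trans (le_of_eq ?_)
  rw [ENNReal.ofReal_rpow_of_nonneg (by positivity) hγ.le, ← Real.rpow_mul (by positivity),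
    inv_mul_cancel₀ hγ.ne', Real.rpow_one, ← ENNReal.ofReal_mul (by positivity)]
  congr 1; field_simp

theorem small_nf (hN : 2 ≤ N) {Ω : Set (E N)} (hb : Bornology.IsBounded Ω) {q : ℝ} (hq : 1 ≤ q)
    (hqN : ((N : ℝ) - 2) * q < 2 * N) {κ : ℝ} (hκ : 0 < κ) : ∃ δ : ℝ, 0 < δ ∧
      ∀ A : Set (E N), volume A ≤ ENNReal.ofReal δ → ∀ p ∈ H10 Ω,
        nf q A (fun t => t) p.1 ≤ κ * ‖p.2‖ := by
  obtain ⟨δ, h1, h2⟩ := small_set hN hb hq hqN hκ
  exact ⟨δ, h1, fun A hA p hp => ENNReal.toReal_le_of_le_ofReal (by positivity) (h2 A hA p hp)⟩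

/-- Rellich compactness together with weak lower semicontinuity -/
theorem compact_seq (hN : 2 ≤ N) {Ω : Set (E N)} (ho : IsOpen Ω) (hb : Bornology.IsBounded Ω)
    {q : ℝ} (hq : 1 ≤ q) (hqN : ((N : ℝ) - 2) * q < 2 * N) {S : Set (P N)} (hS : S ⊆ TP Ω)
    (hc : Convex ℝ S) {p : ℕ → P N} (hp : ∀ n, p n ∈ closure S) {K : ℝ}
    (hK : ∀ n, ‖(p n).2‖ ≤ K) : ∃ p0 ∈ closure S, ∃ l : ℕ → ℕ, StrictMono l ∧
      Tendsto (fun n => (p (l n)).1) atTop (𝓝 p0.1) ∧
      Tendsto (fun n => nf q univ (fun t => t) (p (l n) - p0).1) atTop (𝓝 0) ∧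
      ∀ z, Tendsto (fun n => inner ℝ (p (l n)).2 z) atTop (𝓝 (inner ℝ p0.2 z)) := by
  have hN' : (2 : ℝ) ≤ N := by exact_mod_cast hN
  have hH : closure S ⊆ H10 Ω := closure_mono hS
  obtain ⟨C, hC⟩ := exists_sob hN hb (s := 2) (by norm_num) (by linarith)
  have h2 : ∀ r ∈ H10 Ω, ‖r.1‖ ≤ C * ‖r.2‖ := fun r hr => by
    have := hC.le r hr
    rwa [ENNReal.ofReal_ofNat, enorm_Lp, ← ofReal_norm,
      ENNReal.ofReal_le_ofReal_iff (by have := hC.pos; positivity)] at this
  have : ∀ n : ℕ, ∃ r ∈ S, dist (p n) r < 1 / ((n : ℝ) + 1) := fun n =>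
    Metric.mem_closure_iff.mp (hp n) _ (by positivity)
  choose r hr hd using this
  have hd0 : Tendsto (fun n => p n - r n) atTop (𝓝 0) := by
    rw [tendsto_zero_iff_norm_tendsto_zero]
    exact squeeze_zero (fun _ => norm_nonneg _) (fun n => by rw [← dist_eq_norm]; exact (hd n).le)
      tendsto_one_div_add_atTop_nhds_zero_nat
  have hr2 : ∀ n, ‖(r n).2‖ ≤ K + 1 := fun n => by
    have h1 : ‖(p n - r n).2‖ ≤ 1 := (norm_snd_le _).trans (by
      rw [← dist_eq_norm]
      exact (hd n).le.trans (by rw [div_le_one (by positivity)]; simp))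
    have : (r n).2 = (p n).2 - (p n - r n).2 := by simp
    rw [this]; exact (norm_sub_le _ _).trans (add_le_add (hK n) h1)
  have hK0 : 0 ≤ K + 1 := (norm_nonneg _).trans (hr2 0)
  have hCp := hC.pos
  have hr1 : ∀ n, ‖(r n).1‖ ≤ (C + 1) * (K + 1) := fun n =>
    (h2 _ (subset_closure (hS (hr n)))).trans (by gcongr; linarith; exact hr2 n)
  have : Fact ((2 : ℝ≥0∞) ≠ ⊤) := ⟨by simp⟩
  obtain ⟨u, l1, hl1, hu⟩ := weak_subseq (fun n => (r n).1) hr1
  obtain ⟨G, l2, hl2, hG⟩ := weak_subseq (fun n => (r (l1 n)).2) fun n => hr2 _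
  have hcau := cauchy_test hb (r := fun n => r (l1 (l2 n))) (fun n => hS (hr _))
    (fun n => hr1 _) (fun n => (hr2 _).trans (by nlinarith))
    (fun z => (hu z).comp hl2.tendsto_atTop)
  obtain ⟨u', hu'⟩ := cauchySeq_tendsto_of_complete hcau
  have hl := hl1.comp hl2
  have hd1 := hd0.comp hl.tendsto_atTop
  have t1 : Tendsto (fun n => (p (l1 (l2 n))).1) atTop (𝓝 u') := by
    have := ((continuous_fst.tendsto _).comp hd1).add hu'
    simpa [Function.comp_def] using this
  have t2 : ∀ z, Tendsto (fun n => inner ℝ (p (l1 (l2 n))).2 z) atTop (𝓝 (inner ℝ G z)) :=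
    fun z => by
    have := (((continuous_snd.tendsto _).comp hd1).inner (𝕜 := ℝ)
      (tendsto_const_nhds (x := z))).add (hG z)
    simpa [Function.comp_def, inner_sub_left] using this
  have hmem : (u', G) ∈ closure S := by
    by_contra hn
    obtain ⟨f, c, hf1, hf2⟩ := geometric_hahn_banach_closed_point hc.closure isClosed_closure hn
    have e : ∀ w : P N, f w = f.comp (ContinuousLinearMap.inl ℝ _ _) w.1 + inner ℝ w.2
        ((InnerProductSpace.toDual ℝ _).symm (f.comp (ContinuousLinearMap.inr ℝ _ _))) :=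
      fun w => by
      rw [real_inner_comm, InnerProductSpace.toDual_symm_apply]
      simp [← map_add]
    have t3 : Tendsto (fun n => f (p (l1 (l2 n)))) atTop (𝓝 (f (u', G))) := by
      simp only [e]
      exact (((f.comp (ContinuousLinearMap.inl ℝ _ _)).continuous.tendsto _).comp t1).add (t2 _)
    exact absurd (le_of_tendsto' t3 fun n => (hf1 _ (hp _)).le) (not_le.mpr hf2)
  refine ⟨(u', G), hmem, fun n => l1 (l2 n), hl, t1, ?_, t2⟩
  obtain ⟨Cq, hCq⟩ := exists_sob hN hb hq hqN.le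
  have : IsFiniteMeasure (volume.restrict Ω) := isFiniteMeasure_restrict.mpr hb.measure_lt_top.ne
  have t4 := tendsto_Lp_finite_of_tendstoInMeasure (μ := volume.restrict Ω)
    (f := fun n => (p (l1 (l2 n))).1) (g := u') (ENNReal.one_le_ofReal.mpr hq)
    ENNReal.ofReal_ne_top (fun n => (Lp.aestronglyMeasurable _).restrict)
    ((hCq.memLp (hH hmem)).restrict _) ?_ ?_
  · have t5 := (ENNReal.tendsto_toReal ENNReal.zero_ne_top).comp t4
    refine (t5.congr fun n => ?_).trans (by simp)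
    have hm := H10.sub (hH (hp (l1 (l2 n)))) (hH hmem)
    rw [nf_univ, Function.comp_apply]
    congr 1
    rw [← eLpNorm_congr_ae (ae_restrict_of_ae (Lp.coeFn_sub (p (l1 (l2 n))).1 u')),
      ← eLpNorm_indicator_eq_eLpNorm_restrict ho.measurableSet]
    refine eLpNorm_congr_ae ?_
    filter_upwards [H10.zero_off ho.measurableSet hm] with x hx
    by_cases h : x ∈ Ω
    · rw [indicator_of_mem h]; rfl
    · rw [indicator_of_notMem h, hx h]
  · intro ε hε
    obtain ⟨δ, hδ, h⟩ := small_set hN hb hq hqN (κ := ε / (K + 1 + 1)) (by positivity)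
    refine ⟨δ, hδ, fun i s hs hsδ => ?_⟩
    rw [eLpNorm_indicator_eq_eLpNorm_restrict hs, Measure.restrict_restrict hs]
    rw [Measure.restrict_apply hs] at hsδ
    refine (h _ hsδ _ (hH (hp _))).trans (ENNReal.ofReal_le_ofReal ?_)
    rw [div_mul_eq_mul_div, div_le_iff₀ (by positivity)]
    nlinarith [hK (l1 (l2 i))]
  · refine tendstoInMeasure_of_tendsto_eLpNorm (p := 2) two_ne_zero
      (fun n => (Lp.aestronglyMeasurable _).restrict) (Lp.aestronglyMeasurable _).restrict ?_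
    exact tendsto_of_tendsto_of_tendsto_of_le_of_le tendsto_const_nhds
      ((Lp.tendsto_Lp_iff_tendsto_eLpNorm' _ _).mp t1) (fun _ => zero_le)
      fun n => eLpNorm_mono_measure _ Measure.restrict_le_self

theorem norm_le_of_weak {H : Type*} [NormedAddCommGroup H] [InnerProductSpace ℝ H] {x : ℕ → H}
    {y : H} (h : ∀ z, Tendsto (fun n => inner ℝ (x n) z) atTop (𝓝 (inner ℝ y z))) {b : ℕ → ℝ}
    {m : ℝ} (hb : Tendsto b atTop (𝓝 m)) (hx : ∀ n, ‖x n‖ ^ 2 ≤ b n) : ‖y‖ ^ 2 ≤ m := by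
  have h1 := ((h y).const_mul 2).sub_const (‖y‖ ^ 2)
  rw [real_inner_self_eq_norm_sq] at h1
  have := le_of_tendsto_of_tendsto' h1 hb fun n => by
    have := norm_sub_sq_real (x n) y
    nlinarith [hx n, sq_nonneg ‖x n - y‖]
  linarith

theorem strong_of_weak {H : Type*} [NormedAddCommGroup H] [InnerProductSpace ℝ H] {x : ℕ → H}
    {y : H} (h : ∀ z, Tendsto (fun n => inner ℝ (x n) z) atTop (𝓝 (inner ℝ y z))) {b : ℕ → ℝ}
    (hb : Tendsto b atTop (𝓝 (‖y‖ ^ 2))) (hx : ∀ n, ‖x n‖ ^ 2 ≤ b n) :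
    Tendsto x atTop (𝓝 y) := by
  have h1 := (hb.sub ((h y).const_mul 2)).add_const (‖y‖ ^ 2)
  rw [real_inner_self_eq_norm_sq] at h1
  have e : ‖y‖ ^ 2 - 2 * ‖y‖ ^ 2 + ‖y‖ ^ 2 = 0 := by ring
  rw [e] at h1
  have h2 : Tendsto (fun n => ‖x n - y‖ ^ 2) atTop (𝓝 0) :=
    squeeze_zero (fun _ => by positivity) (fun n => by rw [norm_sub_sq_real]; linarith [hx n]) h1
  rw [tendsto_iff_norm_sub_tendsto_zero]
  simpa using h2.sqrt

end Pool.Agent.H92.Q
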