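import Pool.Agent.H92.Q2

open MeasureTheory Filter Topology Set Metric
open scoped ENNReal NNReal

namespace Pool.Agent.H92.Q

variable {N : ℕ}

/-- derivative of the smooth truncation -/
noncomputable def tr' (ε t : ℝ) : ℝ := Real.smoothTransition (t / ε - 1)

/-- smooth truncation -/
noncomputable def tr (ε t : ℝ) : ℝ := ∫ s in (0 : ℝ)..t, tr' ε s

theorem tr'_smooth (ε : ℝ) : ContDiff ℝ (⊤ : ℕ∞) (tr' ε) :=
  Real.smoothTransition.contDiff.comp (by fun_prop)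

theorem tr'_nonneg (ε t : ℝ) : 0 ≤ tr' ε t := Real.smoothTransition.nonneg _
theorem tr'_le (ε t : ℝ) : tr' ε t ≤ 1 := Real.smoothTransition.le_one _
theorem tr'_zero {ε t : ℝ} (hε : 0 < ε) (ht : t ≤ ε) : tr' ε t = 0 :=
  Real.smoothTransition.zero_of_nonpos (by rw [sub_nonpos, div_le_one hε]; exact ht)
theorem tr'_one {ε t : ℝ} (hε : 0 < ε) (ht : 2 * ε ≤ t) : tr' ε t = 1 :=
  Real.smoothTransition.one_of_one_le (by rw [le_sub_iff_add_le, le_div_iff₀ hε]; linarith)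

theorem tr_deriv (ε t : ℝ) : HasDerivAt (tr ε) (tr' ε t) t :=
  ((tr'_smooth ε).continuous.integral_hasStrictDerivAt 0 t).hasDerivAt

theorem tr_smooth (ε : ℝ) : ContDiff ℝ (⊤ : ℕ∞) (tr ε) := by
  refine contDiff_infty_iff_deriv.mpr ⟨fun t => (tr_deriv ε t).differentiableAt, ?_⟩
  rw [show deriv (tr ε) = tr' ε from funext fun t => (tr_deriv ε t).deriv]
  exact tr'_smooth ε

theorem tr_zero {ε t : ℝ} (hε : 0 < ε) (ht : t ≤ ε) : tr ε t = 0 := by
  rw [tr, intervalIntegral.integral_congr (g := fun _ => 0) fun s hs =>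
    tr'_zero hε (hs.2.trans (max_le hε.le ht))]
  simp

theorem tr_nonneg {ε : ℝ} (hε : 0 < ε) (t : ℝ) : 0 ≤ tr ε t := by
  rcases le_total t ε with h | h
  · rw [tr_zero hε h]
  · exact intervalIntegral.integral_nonneg (by linarith) fun s _ => tr'_nonneg _ _

theorem tr_le {ε : ℝ} (hε : 0 < ε) (t : ℝ) : tr ε t ≤ max t 0 := by
  rcases le_total t ε with h | h
  · rw [tr_zero hε h]; exact le_max_right _ _
  · have := intervalIntegral.integral_mono_on (μ := volume) (a := 0) (b := t) (by linarith)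
      ((tr'_smooth ε).continuous.intervalIntegrable _ _)
      (continuous_const.intervalIntegrable _ _) fun s _ => tr'_le ε s
    exact this.trans (by simp)

theorem tr_ge {ε : ℝ} (hε : 0 < ε) (t : ℝ) : max t 0 - 2 * ε ≤ tr ε t := by
  rcases le_total t (2 * ε) with h | h
  · have := tr_nonneg hε t
    have : max t 0 ≤ 2 * ε := max_le h (by linarith)
    linarith
  · have hc := (tr'_smooth ε).continuous
    rw [tr, ← intervalIntegral.integral_add_adjacent_intervals (b := 2 * ε)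
      (hc.intervalIntegrable _ _) (hc.intervalIntegrable _ _),
      intervalIntegral.integral_congr (a := 2 * ε) (g := fun _ => 1) fun s hs =>
        tr'_one hε (by rw [uIcc_of_le h] at hs; exact hs.1), max_eq_left (by linarith)]
    have := tr_nonneg hε (2 * ε)
    rw [tr] at this
    simp only [intervalIntegral.integral_const, smul_eq_mul, mul_one]
    linarith

theorem tr_close {ε : ℝ} (hε : 0 < ε) (t : ℝ) : |tr ε t - max t 0| ≤ 2 * ε := by
  rw [abs_le]; constructor <;> linarith [tr_le hε t, tr_ge hε t]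

theorem tr'_mul {ε : ℝ} (hε : 0 < ε) (t : ℝ) : tr' ε t * tr' ε (-t) = 0 := by
  rcases le_total t 0 with h | h
  · rw [tr'_zero hε (by linarith), zero_mul]
  · rw [tr'_zero (t := -t) hε (by linarith), mul_zero]

theorem ae_ident {x y : ℕ → Lp ℝ 2 (volume : Measure (E N))} {a b : Lp ℝ 2 (volume : Measure (E N))}
    (hx : Tendsto x atTop (𝓝 a)) (hy : Tendsto y atTop (𝓝 b)) {g : E N → ℝ → ℝ}
    (hg : ∀ z, Continuous (g z)) {c : ℕ → ℝ} (hc : Tendsto c atTop (𝓝 0))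
    (h : ∀ n, ∀ᵐ z, |x n z - g z (y n z)| ≤ c n) : ∀ᵐ z, a z = g z (b z) := by
  obtain ⟨l, hl, h1⟩ := (tendstoInMeasure_of_tendsto_Lp hx).exists_seq_tendsto_ae
  obtain ⟨m, hm, h2⟩ :=
    (tendstoInMeasure_of_tendsto_Lp (hy.comp hl.tendsto_atTop)).exists_seq_tendsto_ae
  filter_upwards [h1, h2, ae_all_iff.mpr h] with z e1 e2 e3
  have t1 := (e1.comp hm.tendsto_atTop).sub (((hg z).tendsto _).comp e2)
  have t2 : Tendsto (fun n => x (l (m n)) z - g z (y (l (m n)) z)) atTop (𝓝 0) :=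
    squeeze_zero_norm (fun n => e3 _) (hc.comp (hl.comp hm).tendsto_atTop)
  exact sub_eq_zero.mp (tendsto_nhds_unique t1 t2)

theorem Test.int_sq {Ω : Set (E N)} {φ : E N → ℝ} (h : Test Ω φ) :
    Integrable fun x => ‖gradient φ x‖ ^ 2 := (h.memLp_grad 2).integrable_norm_pow two_ne_zero

theorem comp2 (hN : 2 ≤ N) {Ω : Set (E N)} (ho : IsOpen Ω) (hb : Bornology.IsBounded Ω)
    {p : P N} (hp : p ∈ H10 Ω) {f1 f2 d1 d2 : ℕ → ℝ → ℝ} {g1 g2 : ℝ → ℝ} {c : ℕ → ℝ}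
    (hc : Tendsto c atTop (𝓝 0)) (hg1 : Continuous g1) (hg2 : Continuous g2)
    (s1 : ∀ n, ContDiff ℝ (⊤ : ℕ∞) (f1 n)) (s2 : ∀ n, ContDiff ℝ (⊤ : ℕ∞) (f2 n))
    (z1 : ∀ n, f1 n 0 = 0) (z2 : ∀ n, f2 n 0 = 0)
    (n1 : ∀ n t, 0 ≤ f1 n t) (n2 : ∀ n t, 0 ≤ f2 n t)
    (hd1 : ∀ n t, HasDerivAt (f1 n) (d1 n t) t) (hd2 : ∀ n t, HasDerivAt (f2 n) (d2 n t) t)
    (hd : ∀ n t, d1 n t ^ 2 + d2 n t ^ 2 ≤ 1)
    (c1 : ∀ n t, |f1 n t - g1 t| ≤ c n) (c2 : ∀ n t, |f2 n t - g2 t| ≤ c n) :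
    ∃ p1 ∈ closure (TPn Ω), ∃ p2 ∈ closure (TPn Ω), (∀ᵐ x, p1.1 x = g1 (p.1 x)) ∧
      (∀ᵐ x, p2.1 x = g2 (p.1 x)) ∧ ‖p1.2‖ ^ 2 + ‖p2.2‖ ^ 2 ≤ ‖p.2‖ ^ 2 := by
  have hN' : (2 : ℝ) ≤ N := by exact_mod_cast hN
  obtain ⟨r, hr, hlim⟩ := mem_closure_iff_seq_limit.mp hp
  choose φ hφ e1 e2 using hr
  have T1 : ∀ n, Test Ω fun x => f1 n (φ n x) := fun n =>
    (hφ n).of_supp ((s1 n).comp (hφ n).1) fun x hx => by rw [hx, z1]
  have T2 : ∀ n, Test Ω fun x => f2 n (φ n x) := fun n =>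
    (hφ n).of_supp ((s2 n).comp (hφ n).1) fun x hx => by rw [hx, z2]
  have hE : ∀ n, ‖(tp fun x => f1 n (φ n x)).2‖ ^ 2 + ‖(tp fun x => f2 n (φ n x)).2‖ ^ 2 ≤
      ‖(r n).2‖ ^ 2 := fun n => by
    rw [norm2_of_ae (T1 n).tp2, norm2_of_ae (T2 n).tp2, norm2_of_ae (e2 n),
      ← integral_add (T1 n).int_sq (T2 n).int_sq]
    refine integral_mono ((T1 n).int_sq.add (T2 n).int_sq) (hφ n).int_sq fun x => ?_
    simp only
    rw [grad_comp ((hφ n).diff x) (hd1 n _), grad_comp ((hφ n).diff x) (hd2 n _), norm_smul,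
      norm_smul, mul_pow, mul_pow, Real.norm_eq_abs, Real.norm_eq_abs, sq_abs, sq_abs]
    nlinarith [hd n (φ n x), sq_nonneg ‖gradient (φ n) x‖]
  have t2 : Tendsto (fun n => ‖(r n).2‖) atTop (𝓝 ‖p.2‖) :=
    ((continuous_snd.tendsto p).comp hlim).norm
  have t1 : Tendsto (fun n => (r n).1) atTop (𝓝 p.1) := (continuous_fst.tendsto p).comp hlim
  obtain ⟨K, hK⟩ := t2.bddAbove_range
  have hK' : ∀ n, ‖(r n).2‖ ≤ K := fun n => hK ⟨n, rfl⟩
  obtain ⟨p1, m1, l1, hl1, a1, -, w1⟩ := compact_seq hN ho hb (q := 1) le_rfl (by linarith)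
    (TPn_sub Ω) (convex_TPn Ω) (p := fun n => tp fun x => f1 n (φ n x)) (K := K)
    (fun n => subset_closure ⟨_, T1 n, fun x => n1 n _, (T1 n).tp1, (T1 n).tp2⟩)
    fun n => (sq_le_sq₀ (norm_nonneg _) (norm_nonneg _)).mp
      (le_trans (le_add_of_nonneg_right (sq_nonneg _)) (hE n)) |>.trans (hK' n)
  obtain ⟨p2, m2, l2, hl2, a2, -, w2⟩ := compact_seq hN ho hb (q := 1) le_rfl (by linarith)
    (TPn_sub Ω) (convex_TPn Ω) (p := fun n => tp fun x => f2 (l1 n) (φ (l1 n) x)) (K := K)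
    (fun n => subset_closure ⟨_, T2 _, fun x => n2 _ _, (T2 _).tp1, (T2 _).tp2⟩)
    fun n => (sq_le_sq₀ (norm_nonneg _) (norm_nonneg _)).mp
      (le_trans (le_add_of_nonneg_left (sq_nonneg _)) (hE _)) |>.trans (hK' _)
  have hl := (hl1.comp hl2).tendsto_atTop
  refine ⟨p1, m1, p2, m2, ?_, ?_, ?_⟩
  · refine ae_ident a1 (t1.comp hl1.tendsto_atTop) (g := fun _ => g1) (fun _ => hg1)
      (hc.comp hl1.tendsto_atTop) fun n => ?_
    filter_upwards [(T1 (l1 n)).tp1, e1 (l1 n)] with x h1 h2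
    rw [Function.comp_apply, h1, h2]; exact c1 _ _
  · refine ae_ident a2 (t1.comp hl) (g := fun _ => g2) (fun _ => hg2) (hc.comp hl) fun n => ?_
    filter_upwards [(T2 (l1 (l2 n))).tp1, e1 (l1 (l2 n))] with x h1 h2
    rw [Function.comp_apply, Function.comp_apply, h1, h2]; exact c2 _ _
  · have h1 := ((((w1 p1.2).comp hl2.tendsto_atTop).const_mul 2).sub_const (‖p1.2‖ ^ 2)).add
      (((w2 p2.2).const_mul 2).sub_const (‖p2.2‖ ^ 2))
    rw [real_inner_self_eq_norm_sq, real_inner_self_eq_norm_sq] at h1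
    have := le_of_tendsto_of_tendsto' h1 ((t2.comp hl).pow 2) fun n => by
      have h3 := norm_sub_sq_real (tp fun x => f1 (l1 (l2 n)) (φ (l1 (l2 n)) x)).2 p1.2
      have h4 := norm_sub_sq_real (tp fun x => f2 (l1 (l2 n)) (φ (l1 (l2 n)) x)).2 p2.2
      have h5 := hE (l1 (l2 n))
      simp only [Function.comp_apply]
      nlinarith [sq_nonneg ‖(tp fun x => f1 (l1 (l2 n)) (φ (l1 (l2 n)) x)).2 - p1.2‖,
        sq_nonneg ‖(tp fun x => f2 (l1 (l2 n)) (φ (l1 (l2 n)) x)).2 - p2.2‖]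
    linarith

theorem tend2 : Tendsto (fun n : ℕ => 4 * (1 / ((n : ℝ) + 1))) atTop (𝓝 0) := by
  simpa using tendsto_one_div_add_atTop_nhds_zero_nat.const_mul (4 : ℝ)

theorem split (hN : 2 ≤ N) {Ω : Set (E N)} (ho : IsOpen Ω) (hb : Bornology.IsBounded Ω)
    {p : P N} (hp : p ∈ H10 Ω) :
    ∃ p1 ∈ H10 Ω, ∃ p2 ∈ H10 Ω, (∀ᵐ x, p1.1 x = max (p.1 x) 0) ∧
      (∀ᵐ x, p2.1 x = max (-p.1 x) 0) ∧ ‖p1.2‖ ^ 2 + ‖p2.2‖ ^ 2 ≤ ‖p.2‖ ^ 2 := by
  have hp0 : ∀ n : ℕ, 0 < 1 / ((n : ℝ) + 1) := fun n => by positivity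
  obtain ⟨p1, h1, p2, h2, h3⟩ := comp2 hN ho hb hp (f1 := fun n t => tr (1 / ((n : ℝ) + 1)) t)
    (f2 := fun n t => tr (1 / ((n : ℝ) + 1)) (-t)) (d1 := fun n t => tr' (1 / ((n : ℝ) + 1)) t)
    (d2 := fun n t => tr' (1 / ((n : ℝ) + 1)) (-t) * -1) (g1 := fun t => max t 0)
    (g2 := fun t => max (-t) 0) tend2 (by fun_prop) (by fun_prop) (fun n => tr_smooth _)
    (fun n => (tr_smooth _).comp contDiff_neg) (fun n => tr_zero (hp0 n) (hp0 n).le)
    (fun n => tr_zero (hp0 n) (by simpa using (hp0 n).le)) (fun n t => tr_nonneg (hp0 n) _)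
    (fun n t => tr_nonneg (hp0 n) _) (fun n t => tr_deriv _ _)
    (fun n t => (tr_deriv _ _).comp t (hasDerivAt_neg t))
    (fun n t => by
      nlinarith [tr'_mul (hp0 n) t, tr'_le (1 / ((n : ℝ) + 1)) t, tr'_nonneg (1 / ((n : ℝ) + 1)) t,
        tr'_le (1 / ((n : ℝ) + 1)) (-t), tr'_nonneg (1 / ((n : ℝ) + 1)) (-t)])
    (fun n t => (tr_close (hp0 n) t).trans (by linarith [hp0 n]))
    (fun n t => (tr_close (hp0 n) (-t)).trans (by linarith [hp0 n]))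
  exact ⟨p1, closure_mono (TPn_sub Ω) h1, p2, closure_mono (TPn_sub Ω) h2, h3⟩

theorem abs_mem (hN : 2 ≤ N) {Ω : Set (E N)} (ho : IsOpen Ω) (hb : Bornology.IsBounded Ω)
    {p : P N} (hp : p ∈ H10 Ω) :
    ∃ p1 ∈ closure (TPn Ω), (∀ᵐ x, p1.1 x = |p.1 x|) ∧ ‖p1.2‖ ^ 2 ≤ ‖p.2‖ ^ 2 := by
  have hp0 : ∀ n : ℕ, 0 < 1 / ((n : ℝ) + 1) := fun n => by positivity
  obtain ⟨p1, h1, p2, h2, h3, -, h4⟩ := comp2 hN ho hb hp
    (f1 := fun n t => tr (1 / ((n : ℝ) + 1)) t + tr (1 / ((n : ℝ) + 1)) (-t))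
    (f2 := fun n t => 0)
    (d1 := fun n t => tr' (1 / ((n : ℝ) + 1)) t + tr' (1 / ((n : ℝ) + 1)) (-t) * -1)
    (d2 := fun n t => 0) (g1 := fun t => |t|)
    (g2 := fun t => 0) tend2 (by fun_prop) (by fun_prop)
    (fun n => (tr_smooth _).add ((tr_smooth _).comp contDiff_neg))
    (fun n => contDiff_const) (fun n => by simp [tr_zero (hp0 n) (hp0 n).le, -one_div])
    (fun n => rfl) (fun n t => add_nonneg (tr_nonneg (hp0 n) _) (tr_nonneg (hp0 n) _))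
    (fun n t => le_rfl) (fun n t => (tr_deriv _ _).add ((tr_deriv _ _).comp t (hasDerivAt_neg t)))
    (fun n t => hasDerivAt_const _ _)
    (fun n t => by
      nlinarith [tr'_mul (hp0 n) t, tr'_le (1 / ((n : ℝ) + 1)) t, tr'_nonneg (1 / ((n : ℝ) + 1)) t,
        tr'_le (1 / ((n : ℝ) + 1)) (-t), tr'_nonneg (1 / ((n : ℝ) + 1)) (-t)])
    (fun n t => by
      have a := abs_le.mp (tr_close (hp0 n) t)
      have b := abs_le.mp (tr_close (hp0 n) (-t))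
      have : |t| = max t 0 + max (-t) 0 := by
        rcases le_total t 0 with h | h
        · rw [abs_of_nonpos h, max_eq_right h, max_eq_left (by linarith), zero_add]
        · rw [abs_of_nonneg h, max_eq_left h, max_eq_right (by linarith), add_zero]
      rw [abs_le]; constructor <;> linarith [a.1, a.2, b.1, b.2])
    (fun n t => by simp; positivity)
  exact ⟨p1, h1, h3, by nlinarith [sq_nonneg ‖p2.2‖]⟩

/-- the Lq norm of the first component -/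
noncomputable abbrev nq (q : ℝ) (p : P N) : ℝ := nf q univ (fun t => t) p.1

theorem nq_smul (q c : ℝ) (p : P N) : nq q (c • p) = |c| * nq q p :=
  nf_smul _ (Lp.coeFn_smul c p.1)

theorem Sob.nq_pow {Ω : Set (E N)} {q C : ℝ} (h : Sob Ω q C) {p : P N} (hp : p ∈ H10 Ω) :
    nq q p ^ q = ∫ x, |p.1 x| ^ q := by
  rw [nf_pow (by linarith [h.q1]) univ (con_id.memLp _ (h.memLp hp)), Measure.restrict_univ]

theorem inner_tp {Ω : Set (E N)} {φ : E N → ℝ} (h : Test Ω φ) (p : P N) :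
    inner ℝ p.2 (tp φ).2 = ∫ x, inner ℝ (p.2 x) (gradient φ x) := by
  rw [L2.inner_def]
  exact integral_congr_ae (by filter_upwards [h.tp2] with x hx; rw [hx])

theorem deriv_mass {q : ℝ} (hq : 1 < q) {u φ : E N → ℝ} (hu : MemLp u (ENNReal.ofReal q) volume)
    (hφ : MemLp φ (ENNReal.ofReal q) volume) :
    Integrable (fun x => |u x| ^ (q - 2) * u x * φ x) ∧
    HasDerivAt (fun t : ℝ => ∫ x, |u x + t * φ x| ^ q)
      (q * ∫ x, |u x| ^ (q - 2) * u x * φ x) 0 := by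
  have h0 : ENNReal.ofReal q ≠ 0 := by simp; linarith
  have hi : ∀ {f : E N → ℝ}, MemLp f (ENNReal.ofReal q) volume → Integrable fun x => |f x| ^ q :=
    fun hf => by
      simpa [ENNReal.toReal_ofReal (by linarith : 0 ≤ q)] using
        hf.integrable_norm_rpow h0 ENNReal.ofReal_ne_top
  have m1 := hu.1.aemeasurable
  have m2 := hφ.1.aemeasurable
  have := hasDerivAt_integral_of_dominated_loc_of_deriv_le (μ := volume)
    (F := fun (t : ℝ) x => |u x + t * φ x| ^ q)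
    (F' := fun (t : ℝ) x => q * |u x + t * φ x| ^ (q - 2) * (u x + t * φ x) * φ x)
    (bound := fun x => q * |(|u x| + |φ x|)| ^ q) (x₀ := 0) (ball_mem_nhds 0 one_pos)
    (Eventually.of_forall fun t => (by fun_prop : AEMeasurable _ _).aestronglyMeasurable)
    (by simpa using hi hu) (by fun_prop : AEMeasurable _ _).aestronglyMeasurable
    (Eventually.of_forall fun x t ht => ?_) ((hi (hu.abs.add hφ.abs)).const_mul q)
    (Eventually.of_forall fun x t _ => ?_)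
  · simp only [zero_mul, add_zero, mul_assoc] at this
    rw [integral_const_mul] at this
    refine ⟨?_, by simpa only [mul_assoc] using this.2⟩
    simpa only [mul_assoc] using
      (integrable_const_mul_iff (IsUnit.mk0 q (by linarith)) _).mp this.1
  · have ht' : |t| ≤ 1 := by simpa using (mem_ball_zero_iff.mp ht).le
    set a := |u x + t * φ x| with ha
    have h1 : a ≤ |u x| + |φ x| := (abs_add_le _ _).trans (by
      rw [abs_mul]; nlinarith [abs_nonneg (φ x)])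
    have h2 : a ^ (q - 2) * a = a ^ (q - 1) := by
      rw [← Real.rpow_add_one' (abs_nonneg _) (by linarith)]; congr 1; ring
    have h3 : (|u x| + |φ x|) ^ q = (|u x| + |φ x|) ^ (q - 1) * (|u x| + |φ x|) := by
      rw [← Real.rpow_add_one' (by positivity) (by linarith)]; congr 1; ring
    rw [Real.norm_eq_abs, abs_mul, abs_mul, abs_mul, abs_of_pos (by linarith : 0 < q),
      abs_of_nonneg (by positivity : 0 ≤ a ^ (q - 2)), ← ha, mul_assoc q, h2,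
      abs_of_nonneg (by positivity : 0 ≤ |u x| + |φ x|), h3, mul_assoc]
    gcongr
    linarith [abs_nonneg (u x)]
  · exact (hasDerivAt_abs_rpow _ hq).comp t
      (by simpa using ((hasDerivAt_id t).mul_const (φ x)).const_add (u x))

theorem euler {Ω : Set (E N)} {q C : ℝ} (h : Sob Ω q C) (hq : 1 < q) {p : P N} (hp : p ∈ H10 Ω)
    (h1 : nq q p = 1) (hmin : ∀ φ, Test Ω φ → ∀ᶠ t : ℝ in 𝓝 0,
      ‖p.2‖ ^ 2 * nq q (p + t • tp φ) ^ 2 ≤ ‖(p + t • tp φ).2‖ ^ 2) :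
    IsEigen Ω q (‖p.2‖ ^ 2) p := by
  have h1' := h1
  rw [nq, nf_univ] at h1'
  refine ⟨hp, fun h0 => ?_, fun φ hφ => ?_⟩
  · rw [h0, eLpNorm_congr_ae (Lp.coeFn_zero _ _ _)] at h1'; simp at h1'
  rw [h1', Real.one_rpow, mul_one, ← inner_tp hφ]
  obtain ⟨-, hd⟩ := deriv_mass hq (h.memLp hp) (hφ.memLp _)
  have hM : ∀ t : ℝ, nq q (p + t • tp φ) ^ 2 = (∫ x, |p.1 x + t * φ x| ^ q) ^ (2 / q) := fun t => by
    have : ∫ x, |p.1 x + t * φ x| ^ q = nq q (p + t • tp φ) ^ q := by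
      rw [h.nq_pow (H10.add hp (H10.smul hφ.tp_H t))]
      refine integral_congr_ae ?_
      filter_upwards [Lp.coeFn_add p.1 (t • (tp φ).1), Lp.coeFn_smul t (tp φ).1, hφ.tp1]
        with x a b c
      simp only [Prod.fst_add, Prod.smul_fst]
      rw [a, Pi.add_apply, b, Pi.smul_apply, c, smul_eq_mul]
    rw [this, ← Real.rpow_mul (nf_nonneg _ _ _ _), mul_div_cancel₀ _ (by linarith),
      Real.rpow_two]
  have hM0 : ∫ x, |p.1 x + 0 * φ x| ^ q = 1 := by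
    simp only [zero_mul, add_zero]; rw [← h.nq_pow hp, h1, Real.one_rpow]
  have d1 := (hd.rpow_const (p := 2 / q) (Or.inl (by rw [hM0]; norm_num))).const_mul (‖p.2‖ ^ 2)
  have d2 : HasDerivAt (fun t : ℝ => ‖(p + t • tp φ).2‖ ^ 2) (2 * inner ℝ p.2 (tp φ).2) 0 := by
    have := (((hasDerivAt_id (0 : ℝ)).smul_const (tp φ).2).const_add p.2).norm_sq
    simpa using this
  have hloc : IsLocalMin (fun t : ℝ => ‖(p + t • tp φ).2‖ ^ 2 -
      ‖p.2‖ ^ 2 * (∫ x, |p.1 x + t * φ x| ^ q) ^ (2 / q)) 0 := by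
    filter_upwards [hmin φ hφ] with t ht
    rw [hM0, ← hM]; simp only [zero_smul, add_zero, Real.one_rpow]; linarith
  have := hloc.hasDerivAt_eq_zero (d2.sub d1)
  rw [hM0, Real.one_rpow] at this
  field_simp at this
  linarith

theorem eigen_of_min {Ω : Set (E N)} {q C : ℝ} (h : Sob Ω q C) (hq : 1 < q) {Φ : P N → ℝ}
    (hΦ : ContinuousOn Φ (H10 Ω)) {p : P N} (hp : p ∈ H10 Ω) (h1 : nq q p = 1) (h2 : 0 < Φ p)
    (hmin : ∀ r ∈ H10 Ω, nq q r = 1 → 0 ≤ Φ r → ‖p.2‖ ^ 2 ≤ ‖r.2‖ ^ 2) :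
    IsEigen Ω q (‖p.2‖ ^ 2) p := by
  refine euler h hq hp h1 fun φ hφ => ?_
  have hm : ∀ t : ℝ, p + t • tp φ ∈ H10 Ω := fun t => H10.add hp (H10.smul hφ.tp_H t)
  have c0 : Continuous fun t : ℝ => p + t • tp φ := by fun_prop
  have c1 : Continuous fun t : ℝ => nq q (p + t • tp φ) :=
    (h.cont univ con_id).comp_continuous c0 hm
  have e0 : nq q (p + (0 : ℝ) • tp φ) = 1 := by simpa using h1
  have c2 : ContinuousAt (fun t : ℝ => (nq q (p + t • tp φ))⁻¹ • (p + t • tp φ)) 0 :=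
    (c1.continuousAt.inv₀ (by rw [e0]; norm_num)).smul c0.continuousAt
  have c3 : ContinuousAt (fun t : ℝ => Φ ((nq q (p + t • tp φ))⁻¹ • (p + t • tp φ))) 0 := by
    refine ContinuousWithinAt.continuousAt (s := univ) ?_ univ_mem
    exact (hΦ _ (H10.smul (hm 0) _)).comp (f := fun t : ℝ =>
      (nq q (p + t • tp φ))⁻¹ • (p + t • tp φ)) c2.continuousWithinAt fun t _ => H10.smul (hm t) _
  have v1 := c1.continuousAt.eventually (lt_mem_nhds (show 0 < nq q (p + (0 : ℝ) • tp φ) by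
    rw [e0]; norm_num))
  have v2 := c3.eventually (lt_mem_nhds (show 0 < Φ ((nq q (p + (0 : ℝ) • tp φ))⁻¹ •
    (p + (0 : ℝ) • tp φ)) by rw [e0]; simpa using h2))
  filter_upwards [v1, v2] with t a b
  have := hmin _ (H10.smul (hm t) _)
    (by rw [nq_smul, abs_of_pos (inv_pos.mpr a), inv_mul_cancel₀ a.ne']) b.le
  rw [Prod.smul_snd, norm_smul, mul_pow, Real.norm_eq_abs, sq_abs, inv_pow,
    le_inv_mul_iff₀ (by positivity)] at this
  linarith

theorem local_min (hN : 2 ≤ N) {Ω : Set (E N)} (ho : IsOpen Ω) (hb : Bornology.IsBounded Ω)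
    {q : ℝ} (hq : 1 ≤ q) (hqN : ((N : ℝ) - 2) * q < 2 * N) {Φ : P N → ℝ}
    (hΦ : ∀ p ∈ H10 Ω, ∀ r ∈ H10 Ω, |Φ p - Φ r| ≤ 2 * nq q (p - r))
    {p1 : P N} (hp : p1 ∈ H10 Ω) (h1 : nq q p1 = 1) (h2 : 0 ≤ Φ p1) :
    ∃ p ∈ H10 Ω, nq q p = 1 ∧ 0 ≤ Φ p ∧
      ∀ r ∈ H10 Ω, nq q r = 1 → 0 ≤ Φ r → ‖p.2‖ ^ 2 ≤ ‖r.2‖ ^ 2 := by
  obtain ⟨C, hC⟩ := exists_sob hN hb hq hqN.le
  set S := (fun r : P N => ‖r.2‖ ^ 2) '' {r | r ∈ H10 Ω ∧ nq q r = 1 ∧ 0 ≤ Φ r}
  have hbd : BddBelow S := ⟨0, by rintro _ ⟨r, -, rfl⟩; positivity⟩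
  obtain ⟨u, hu1, hu2, hu3⟩ := exists_seq_tendsto_sInf (S := S) ⟨_, p1, ⟨hp, h1, h2⟩, rfl⟩ hbd
  choose r hr e using hu3
  obtain ⟨p, m, l, hl, -, t, w⟩ := compact_seq hN ho hb hq hqN (S := TP Ω) subset_rfl
    (TS Ω).convex (p := r) (fun n => (hr n).1) (K := √(u 0))
    fun n => Real.le_sqrt_of_sq_le ((e n).le.trans (hu1 (Nat.zero_le n)))
  refine ⟨p, m, ?_, ?_, fun r' a b c => ?_⟩
  · have : Tendsto (fun n => nq q (r (l n)) - nq q p) atTop (𝓝 0) :=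
      squeeze_zero_norm (fun n => hC.lip univ con_id (hr _).1 m) t
    simp only [fun n => (hr n).2.1] at this
    linarith [tendsto_nhds_unique this tendsto_const_nhds]
  · have : Tendsto (fun n => Φ (r (l n)) - Φ p) atTop (𝓝 0) :=
      squeeze_zero_norm (fun n => hΦ _ (hr _).1 _ m) (by simpa only [mul_zero] using t.const_mul 2)
    have := ge_of_tendsto' this (b := -Φ p) fun n => by linarith [(hr (l n)).2.2]
    linarith
  · exact (norm_le_of_weak w (hu2.comp hl.tendsto_atTop) fun n => (e _).le).trans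
      (csInf_le hbd ⟨r', ⟨a, b, c⟩, rfl⟩)

theorem Sob.contΦ {Ω : Set (E N)} {q C : ℝ} (h : Sob Ω q C) {Φ : P N → ℝ}
    (hΦ : ∀ p ∈ H10 Ω, ∀ r ∈ H10 Ω, |Φ p - Φ r| ≤ 2 * nq q (p - r)) :
    ContinuousOn Φ (H10 Ω) := by
  have := h.pos
  refine (LipschitzOnWith.of_dist_le_mul (K := ⟨2 * C, by positivity⟩)
    fun p hp r hr => ?_).continuousOn
  rw [Real.dist_eq, dist_eq_norm]
  refine (hΦ p hp r hr).trans ?_
  have h1 := h.nf_le (H10.sub hp hr)
  have h2 := mul_le_mul_of_nonneg_left (norm_snd_le (p - r)) h.pos.le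
  change _ ≤ 2 * C * _
  linarith

end Pool.Agent.H92.Q
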