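import Pool.Agent.H92.Q3

open MeasureTheory Filter Topology Set Metric
open scoped ENNReal NNReal

namespace Pool.Agent.H92.Q

variable {N : ℕ}

theorem int_hcs {ψ f : E N → ℝ} (hc : HasCompactSupport ψ) (hf : Continuous f)
    (h : ∀ x, x ∉ tsupport ψ → f x = 0) : Integrable f :=
  hf.integrable_of_hasCompactSupport (HasCompactSupport.intro hc h)

theorem grad_zero_off {ψ : E N → ℝ} {x : E N} (h : x ∉ tsupport ψ) : gradient ψ x = 0 :=
  by_contra fun h' => h (supp_grad ψ h')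

theorem div_zero {ψ : E N → ℝ} (h : ContDiff ℝ 1 ψ) (hc : HasCompactSupport ψ) (z : E N) :
    Integrable (fun x => N * ψ x + inner ℝ (gradient ψ x) (x - z)) ∧
    ∫ x, (N * ψ x + inner ℝ (gradient ψ x) (x - z)) = 0 := by
  have c0 := h.continuous
  have c1 := cont_grad h
  have z0 : ∀ x, x ∉ tsupport ψ → ψ x = 0 := fun x => image_eq_zero_of_notMem_tsupport
  have i0 : Integrable ψ := int_hcs hc c0 z0
  have i1 : ∀ i : Fin N, Integrable fun x : E N => (x i - z i) * gradient ψ x i := fun i =>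
    int_hcs hc (by fun_prop) fun x hx => by simp [grad_zero_off hx]
  have e : ∀ x, inner ℝ (gradient ψ x) (x - z) = ∑ i, (x i - z i) * gradient ψ x i := fun x => by
    rw [PiLp.inner_apply]; simp
  have k : ∀ i : Fin N, ∫ x : E N, (x i - z i) * gradient ψ x i = -∫ x, ψ x := fun i => by
    have d : ∀ x : E N, HasFDerivAt (fun x : E N => x i - z i)
        (EuclideanSpace.proj i : E N →L[ℝ] ℝ) x :=
      fun x => ((EuclideanSpace.proj i : E N →L[ℝ] ℝ).hasFDerivAt).sub_const (z i)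
    have e1 : ∀ x, fderiv ℝ ψ x (EuclideanSpace.single i 1) = gradient ψ x i := fun x => by
      rw [← inner_gradient_left, EuclideanSpace.inner_single_right]; simp
    have e2 : ∀ x : E N, fderiv ℝ (fun x : E N => x i - z i) x (EuclideanSpace.single i 1) = 1 :=
      fun x => by rw [(d x).fderiv]; simp
    have := integral_mul_fderiv_eq_neg_fderiv_mul_of_integrable (μ := volume)
      (f := fun x : E N => x i - z i) (g := ψ) (v := EuclideanSpace.single i 1)
      (by simpa only [e2, one_mul] using i0) (by simpa only [e1] using i1 i)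
      (int_hcs hc (by fun_prop) fun x hx => by simp [z0 x hx])
      (fun x _ => (d x).differentiableAt) (fun x _ => h.differentiable one_ne_zero x)
    simpa only [e1, e2, one_mul] using this
  simp only [e]
  have i2 := integrable_finsetSum Finset.univ fun i _ => i1 i
  refine ⟨(i0.const_mul _).add i2, ?_⟩
  rw [integral_add (i0.const_mul _) i2, integral_finsetSum _ fun i _ => i1 i, integral_const_mul]
  simp [k]

theorem sq_smooth (z : E N) : ContDiff ℝ (⊤ : ℕ∞) fun x : E N => ‖x - z‖ ^ 2 :=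
  (contDiff_id.sub contDiff_const).norm_sq ℝ

theorem grad_rad {k : ℝ → ℝ} {k' : ℝ} {x z : E N} (h : HasDerivAt k k' (‖x - z‖ ^ 2)) :
    DifferentiableAt ℝ (fun x => k (‖x - z‖ ^ 2)) x ∧
    gradient (fun x => k (‖x - z‖ ^ 2)) x = (2 * k') • (x - z) := by
  have d : DifferentiableAt ℝ (fun x : E N => ‖x - z‖ ^ 2) x :=
    (sq_smooth z).differentiable (by simp) x
  refine ⟨h.differentiableAt.comp (f := fun x : E N => ‖x - z‖ ^ 2) x d, ?_⟩
  rw [grad_comp d h, grad_of (v := (2 : ℝ) • (x - z)) (φ := fun x => ‖x - z‖ ^ 2)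
    (((hasFDerivAt_id x).sub_const z).norm_sq) fun y => by simp [inner_smul_left, inner_sub_left],
    smul_smul, mul_comm]

theorem log_facts {a s : ℝ} (ha : 0 < a) (hs : 0 ≤ s) :
    0 < Real.log (1 + (s + a)⁻¹) ∧
    HasDerivAt (fun s => Real.log (1 + (s + a)⁻¹)) (-((s + a) * (s + a + 1))⁻¹) s := by
  have h : 0 < s + a := by linarith
  refine ⟨Real.log_pos (by simpa using h), ?_⟩
  have := ((((hasDerivAt_id s).add_const a).fun_inv h.ne').const_add 1).log
    (by positivity : (0 : ℝ) < 1 + (s + a)⁻¹).ne'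
  refine this.congr_deriv ?_
  simp only [id]; field_simp

theorem hardy (hN : 2 ≤ N) {Ω : Set (E N)} {z : E N} {D a : ℝ} (ha : 0 < a)
    (hD : ∀ x ∈ Ω, ‖x - z‖ ^ 2 + a + 1 ≤ D) (hD0 : 0 < D) {φ : E N → ℝ} (h : Test Ω φ) :
    ∫ x, φ x ^ 2 * (‖x - z‖ ^ 2 / ((‖x - z‖ ^ 2 + a) ^ 2 * (‖x - z‖ ^ 2 + a + 1) *
      Real.log (1 + (‖x - z‖ ^ 2 + a)⁻¹) ^ 2)) ≤ D * ∫ x, ‖gradient φ x‖ ^ 2 := by
  have hN' : (2 : ℝ) ≤ N := by exact_mod_cast hN
  set k : ℝ → ℝ := fun s => ((s + a) * Real.log (1 + (s + a)⁻¹))⁻¹ with hk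
  have hρ : ∀ x : E N, 0 < ‖x - z‖ ^ 2 + a := fun x => by positivity
  have hL : ∀ x : E N, 0 < Real.log (1 + (‖x - z‖ ^ 2 + a)⁻¹) := fun x =>
    (log_facts ha (by positivity)).1
  have s1 : ContDiff ℝ (⊤ : ℕ∞) fun x : E N => ‖x - z‖ ^ 2 + a := (sq_smooth z).add contDiff_const
  have s2 : ContDiff ℝ (⊤ : ℕ∞) fun x : E N => Real.log (1 + (‖x - z‖ ^ 2 + a)⁻¹) :=
    (contDiff_const.add (s1.inv fun x => (hρ x).ne')).log fun x =>
      (add_pos one_pos (inv_pos.mpr (hρ x))).ne'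
  have s3 : ContDiff ℝ (⊤ : ℕ∞) fun x : E N => k (‖x - z‖ ^ 2) :=
    (s1.mul s2).inv fun x => (mul_pos (hρ x) (hL x)).ne'
  have T : Test Ω fun x => (φ x * φ x) * k (‖x - z‖ ^ 2) :=
    h.of_supp ((h.1.mul h.1).mul s3) fun x hx => by simp [hx]
  obtain ⟨i1, i2⟩ := div_zero T.cd1 T.2.1 z
  rw [← integral_const_mul, ← zero_add (∫ x, D * _), ← i2,
    ← integral_add i1 (h.int_sq.const_mul _)]
  refine integral_mono_of_nonneg (Eventually.of_forall fun x => ?_)
    (i1.add (h.int_sq.const_mul _)) (Eventually.of_forall fun x => ?_)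
  · have := hρ x; positivity
  have hx := hρ x
  have hl := hL x
  obtain ⟨-, dL⟩ := log_facts ha (sq_nonneg ‖x - z‖)
  have dk := (((hasDerivAt_id (‖x - z‖ ^ 2)).add_const a).fun_mul dL).fun_inv
    (mul_pos hx hl).ne'
  obtain ⟨d1, g1⟩ := grad_rad (k := k) dk
  simp only
  rw [grad_mul ((h.diff x).fun_mul (h.diff x)) d1, g1, grad_mul (h.diff x) (h.diff x)]
  simp only [inner_add_left, inner_smul_left, real_inner_self_eq_norm_sq, conj_trivial, id, hk]
  by_cases hΩ : x ∈ Ω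
  swap
  · rw [h.zero_off hΩ]; simp; positivity
  have hD' := hD x hΩ
  have hcs := abs_le.mp (abs_real_inner_le_norm (gradient φ x) (x - z))
  set I := inner ℝ (gradient φ x) (x - z)
  set r := ‖x - z‖
  set G := ‖gradient φ x‖
  set L := Real.log (1 + (r ^ 2 + a)⁻¹)
  set ρ := r ^ 2 + a with hρ'
  set f := φ x
  have hr : 0 ≤ r := norm_nonneg _
  have hG : 0 ≤ G := norm_nonneg _
  set W := r ^ 2 / (ρ ^ 2 * (ρ + 1) * L ^ 2) with hW
  have hW0 : 0 ≤ W := by positivity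
  have e1 : f * f * (2 * (-(1 * L + ρ * -(ρ * (ρ + 1))⁻¹) / (ρ * L) ^ 2) * r ^ 2) =
      f ^ 2 * (2 * W - 2 * (r ^ 2 / ρ) * (ρ * L)⁻¹) := by rw [hW]; field_simp; ring
  have e2 : ((ρ * L)⁻¹ * r) ^ 2 = (ρ + 1) * W := by rw [hW]; field_simp
  have e3 : r ^ 2 / ρ ≤ 1 := by rw [div_le_one hx]; linarith
  have hκ : 0 < (ρ * L)⁻¹ := by positivity
  rw [e1]
  set κ := (ρ * L)⁻¹
  have b1 : 0 ≤ f ^ 2 * κ * (N - 2 * (r ^ 2 / ρ)) := mul_nonneg (by positivity) (by linarith)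
  have b2 : -(2 * κ * f * I) ≤ D * G ^ 2 + f ^ 2 * W := by
    have c1 : |f * I| ≤ |f| * (G * r) := by
      rw [abs_mul]; exact mul_le_mul_of_nonneg_left (abs_le.mpr hcs) (abs_nonneg _)
    have c2 : -(2 * κ * f * I) ≤ 2 * (|f| * (κ * r)) * G := by
      nlinarith [neg_abs_le (f * I)]
    have c3 : (|f| * (κ * r)) ^ 2 ≤ D * (f ^ 2 * W) := by
      rw [mul_pow, e2, sq_abs]; nlinarith [mul_nonneg (sq_nonneg f) hW0]
    refine c2.trans (le_of_mul_le_mul_left ?_ hD0)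
    nlinarith [sq_nonneg (|f| * (κ * r) - D * G)]
  nlinarith

theorem cutoff (hN : 2 ≤ N) {Ω : Set (E N)} (hb : Bornology.IsBounded Ω) (z : E N) {κ r : ℝ}
    (hκ : 0 < κ) (hr : 0 < r) : ∃ ε : ℝ, 0 < ε ∧ ∃ η : E N → ℝ, ContDiff ℝ (⊤ : ℕ∞) η ∧
      (∀ x, 0 ≤ η x ∧ η x ≤ 1) ∧ (∀ x ∈ ball z ε, η x = 0) ∧ (∀ x, x ∉ ball z r → η x = 1) ∧
      ∀ φ, Test Ω φ → ∫ x, φ x ^ 2 * ‖gradient η x‖ ^ 2 ≤ κ ^ 2 * ∫ x, ‖gradient φ x‖ ^ 2 := by
  obtain ⟨R, hR⟩ := hb.subset_closedBall z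
  have sT : ContDiff ℝ (⊤ : ℕ∞) Real.smoothTransition := Real.smoothTransition.contDiff
  obtain ⟨C0, hC0⟩ : ∃ C0, ∀ t, ‖deriv Real.smoothTransition t‖ ≤ C0 := by
    refine HasCompactSupport.exists_bound_of_continuous
      (HasCompactSupport.intro (isCompact_Icc (a := 0) (b := 1)) fun t ht => ?_)
      (sT.continuous_deriv (by simp))
    rcases not_and_or.mp ht with h | h
    · have : Real.smoothTransition =ᶠ[𝓝 t] fun _ => 0 := by
        filter_upwards [gt_mem_nhds (not_le.mp h)] with s hs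
        exact Real.smoothTransition.zero_of_nonpos hs.le
      rw [this.deriv_eq]; simp
    · have : Real.smoothTransition =ᶠ[𝓝 t] fun _ => 1 := by
        filter_upwards [lt_mem_nhds (not_le.mp h)] with s hs
        exact Real.smoothTransition.one_of_one_le hs.le
      rw [this.deriv_eq]; simp
  have hC : 0 ≤ C0 := (norm_nonneg _).trans (hC0 0)
  set D := R ^ 2 + 2 with hD
  have hD0 : 0 < D := by positivity
  set T := |Real.log (Real.log (1 + (r ^ 2)⁻¹))| + C0 * (D + 1) / κ + 1 with hT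
  have hT0 : 0 < T := by positivity
  set M := Real.exp (Real.exp (4 * T)) with hM
  have hM1 : 1 ≤ M := Real.one_le_exp (Real.exp_pos _).le
  set ε := (2 * M)⁻¹ with hε
  have hε0 : 0 < ε := by positivity
  have hε1 : ε ≤ 1 := inv_le_one_of_one_le₀ (by linarith)
  set a := ε ^ 2 with ha'
  have ha : 0 < a := by positivity
  have hρ : ∀ x : E N, 0 < ‖x - z‖ ^ 2 + a := fun x => by positivity
  have hL : ∀ x : E N, 0 < Real.log (1 + (‖x - z‖ ^ 2 + a)⁻¹) := fun x =>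
    (log_facts ha (by positivity)).1
  have s1 : ContDiff ℝ (⊤ : ℕ∞) fun x : E N => ‖x - z‖ ^ 2 + a := (sq_smooth z).add contDiff_const
  have s2 : ContDiff ℝ (⊤ : ℕ∞) fun x : E N => Real.log (1 + (‖x - z‖ ^ 2 + a)⁻¹) :=
    (contDiff_const.add (s1.inv fun x => (hρ x).ne')).log fun x =>
      (add_pos one_pos (inv_pos.mpr (hρ x))).ne'
  set k : ℝ → ℝ := fun s =>
    Real.smoothTransition (2 - Real.log (Real.log (1 + (s + a)⁻¹)) / (2 * T)) with hk
  have s3 : ContDiff ℝ (⊤ : ℕ∞) fun x : E N => k (‖x - z‖ ^ 2) :=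
    sT.comp (contDiff_const.sub ((s2.log fun x => (hL x).ne').div_const _))
  refine ⟨ε, hε0, fun x => k (‖x - z‖ ^ 2), s3,
    fun x => ⟨Real.smoothTransition.nonneg _, Real.smoothTransition.le_one _⟩,
    fun x hx => ?_, fun x hx => ?_, fun φ h => ?_⟩
  · refine Real.smoothTransition.zero_of_nonpos ?_
    rw [sub_nonpos, le_div_iff₀ (by positivity), Real.le_log_iff_exp_le (hL x),
      Real.le_log_iff_exp_le (by have := hρ x; positivity), show 2 * (2 * T) = 4 * T by ring, ← hM]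
    have h1 : ‖x - z‖ ^ 2 ≤ a := by
      rw [ha']; gcongr; exact (mem_ball_iff_norm.mp hx).le
    have h2 : M ≤ (‖x - z‖ ^ 2 + a)⁻¹ := by
      rw [le_inv_comm₀ (by linarith) (hρ x)]
      have : ε * M = 1 / 2 := by rw [hε]; field_simp
      have : a * M ≤ 1 / 2 := by rw [ha']; nlinarith
      rw [← one_div, le_div_iff₀ (by linarith)]; nlinarith
    linarith
  · refine Real.smoothTransition.one_of_one_le ?_
    have h1 : r ^ 2 ≤ ‖x - z‖ ^ 2 + a := by
      have : r ≤ ‖x - z‖ := not_lt.mp fun h => hx (mem_ball_iff_norm.mpr h)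
      nlinarith
    have h2 : Real.log (Real.log (1 + (‖x - z‖ ^ 2 + a)⁻¹)) ≤ Real.log (Real.log (1 + (r ^ 2)⁻¹)) := by
      have := hρ x
      gcongr
      exact hL x
    have h3 : Real.log (Real.log (1 + (‖x - z‖ ^ 2 + a)⁻¹)) / (2 * T) ≤ 1 := by
      rw [div_le_one (by positivity)]
      have := le_abs_self (Real.log (Real.log (1 + (r ^ 2)⁻¹)))
      have : 0 ≤ C0 * (D + 1) / κ := by positivity
      linarith
    linarith
  · have H := hardy hN ha (D := D) (Ω := Ω) (z := z) (fun x hx => by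
      have h1 : ‖x - z‖ ≤ R := mem_closedBall_iff_norm.mp (hR hx)
      have : ‖x - z‖ ^ 2 ≤ R ^ 2 := by gcongr
      have : a ≤ 1 := by rw [ha']; nlinarith
      linarith) hD0 h
    have hE : 0 ≤ ∫ x, ‖gradient φ x‖ ^ 2 := integral_nonneg fun x => by positivity
    have b : (C0 / T) ^ 2 * D ≤ κ ^ 2 := by
      have h1 : C0 * (D + 1) / κ ≤ T := by
        have := abs_nonneg (Real.log (Real.log (1 + (r ^ 2)⁻¹))); linarith
      rw [div_le_iff₀ hκ] at h1
      have h2 : C0 / T * (D + 1) ≤ κ := by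
        rw [div_mul_eq_mul_div, div_le_iff₀ hT0]; linarith
      have h3 : (C0 / T * (D + 1)) ^ 2 ≤ κ ^ 2 := by gcongr
      nlinarith [sq_nonneg (C0 / T), sq_nonneg D]
    refine le_trans ?_ ((mul_le_mul_of_nonneg_left H (sq_nonneg (C0 / T))).trans
      (by rw [← mul_assoc]; exact mul_le_mul_of_nonneg_right b hE))
    rw [← integral_const_mul]
    have cφ := h.cont
    have c1 := s1.continuous
    have c2 := s2.continuous
    refine integral_mono_of_nonneg (Eventually.of_forall fun x => by positivity)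
      ((int_hcs h.2.1 ((cφ.pow 2).mul (Continuous.div (by fun_prop) (by fun_prop) fun x => ?_))
        fun x hx => by simp [image_eq_zero_of_notMem_tsupport hx]).const_mul _)
      (Eventually.of_forall fun x => ?_)
    · have := hρ x; have := hL x; positivity
    have hx := hρ x
    have hl := hL x
    obtain ⟨-, dL⟩ := log_facts ha (sq_nonneg ‖x - z‖)
    have dk := (sT.differentiable (by simp) _).hasDerivAt.comp (‖x - z‖ ^ 2)
      (((dL.log hl.ne').div_const (2 * T)).const_sub 2)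
    simp only
    rw [(grad_rad (k := k) dk).2, norm_smul, mul_pow, Real.norm_eq_abs, sq_abs]
    have hc := hC0 (2 - Real.log (Real.log (1 + (‖x - z‖ ^ 2 + a)⁻¹)) / (2 * T))
    set c := deriv Real.smoothTransition (2 - Real.log (Real.log (1 + (‖x - z‖ ^ 2 + a)⁻¹)) / (2 * T))
    have hc2 : c ^ 2 ≤ C0 ^ 2 := by rw [← sq_abs]; gcongr; exact hc
    set L := Real.log (1 + (‖x - z‖ ^ 2 + a)⁻¹)
    set ρ := ‖x - z‖ ^ 2 + a
    have e : (2 * (c * -(-(ρ * (ρ + 1))⁻¹ / L / (2 * T)))) ^ 2 * ‖x - z‖ ^ 2 =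
        c ^ 2 / T ^ 2 * (‖x - z‖ ^ 2 / (ρ ^ 2 * (ρ + 1) * L ^ 2)) * (ρ + 1)⁻¹ := by
      field_simp
    rw [e, mul_left_comm ((C0 / T) ^ 2), div_pow]
    refine mul_le_mul_of_nonneg_left ?_ (sq_nonneg _)
    refine (mul_le_of_le_one_right (by positivity) (inv_le_one_of_one_le₀ (by linarith))).trans ?_
    gcongr

theorem cut_ind {ψ : E N → ℝ} {U V A B : Set (E N)} (hU : IsOpen U) (hV : IsOpen V)
    (hUV : Disjoint U V) (hA : A ⊆ U) (hB : B ⊆ V) (h : Test (A ∪ B) ψ) :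
    Test A (U.indicator ψ) ∧ (∀ x ∈ U, gradient (U.indicator ψ) x = gradient ψ x) ∧
      ∀ x, x ∉ U → gradient (U.indicator ψ) x = 0 := by
  have e1 : ∀ x ∈ U, U.indicator ψ =ᶠ[𝓝 x] ψ := fun x hx => by
    filter_upwards [hU.mem_nhds hx] with y hy using indicator_of_mem hy _
  have e2 : ∀ x, x ∉ U → U.indicator ψ =ᶠ[𝓝 x] fun _ => 0 := fun x hx => by
    by_cases h1 : x ∈ V
    · filter_upwards [hV.mem_nhds h1] with y hy
      exact indicator_of_notMem (fun h => hUV.ne_of_mem h hy rfl) _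
    · have : x ∉ tsupport ψ := fun h2 => (h.2.2 h2).elim (fun a => hx (hA a)) fun a => h1 (hB a)
      filter_upwards [notMem_tsupport_iff_eventuallyEq.mp this] with y hy
      by_cases h3 : y ∈ U <;> simp [h3, hy]
  have hs : Function.support (U.indicator ψ) ⊆ Function.support ψ := by
    rw [support_indicator]; exact inter_subset_right
  refine ⟨⟨contDiff_iff_contDiffAt.mpr fun x => ?_, h.2.1.mono hs, fun x hx => ?_⟩,
    fun x hx => (e1 x hx).gradient_eq, fun x hx => by rw [(e2 x hx).gradient_eq]; simp⟩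
  · by_cases hx : x ∈ U
    · exact h.1.contDiffAt.congr_of_eventuallyEq (e1 x hx)
    · exact contDiffAt_const.congr_of_eventuallyEq (e2 x hx)
  · have h1 : x ∈ U := by_contra fun h1 => notMem_tsupport_iff_eventuallyEq.mpr (e2 x h1) hx
    exact (h.2.2 (closure_mono hs hx)).elim id fun a => (hUV.ne_of_mem h1 (hB a) rfl).elim

theorem nf_ind {q : ℝ} {U : Set (E N)} (hU : MeasurableSet U) {g : ℝ → ℝ} (hg : g 0 = 0)
    (f : E N → ℝ) : nf q univ g (U.indicator f) = nf q U g f := by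
  unfold nf
  rw [Measure.restrict_univ, ← eLpNorm_indicator_eq_eLpNorm_restrict hU]
  congr 2; ext x
  by_cases h : x ∈ U <;> simp [h, hg]

theorem barrier_test (hN : 2 ≤ N) {Ω0 : Set (E N)} (hb : Bornology.IsBounded Ω0) {q : ℝ}
    (hq : 1 ≤ q) (hqN : ((N : ℝ) - 2) * q < 2 * N) (z : E N) {κ : ℝ} (hκ : 0 < κ) :
    ∃ ε : ℝ, 0 < ε ∧ ∀ Ω U V A B : Set (E N), Ω ⊆ Ω0 → IsOpen U → IsOpen V → Disjoint U V →
      A ⊆ U → B ⊆ V → (∀ x ∈ Ω, x ∉ ball z ε → x ∈ A ∪ B) → ∀ p ∈ TP Ω,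
      ∃ p1 ∈ TP A, ∃ p2 ∈ TP B, ‖p1.2‖ ^ 2 + ‖p2.2‖ ^ 2 ≤ ((1 + κ) * ‖p.2‖) ^ 2 ∧
        ∀ g, Con g → |nf q U g p.1 - nf q univ g p1.1| ≤ κ * ‖p.2‖ ∧
          |nf q Uᶜ g p.1 - nf q univ g p2.1| ≤ κ * ‖p.2‖ := by
  obtain ⟨δ, hδ, hsm⟩ := small_nf hN hb hq hqN hκ
  have : Nontrivial (E N) := Module.nontrivial_of_finrank_pos (R := ℝ) (by simp; omega)
  obtain ⟨r, hr, hrδ⟩ : ∃ r : ℝ, 0 < r ∧ volume (ball z r) ≤ ENNReal.ofReal δ := by
    have t := tendsto_measure_cthickening_of_isCompact (μ := (volume : Measure (E N)))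
      (isCompact_singleton (x := z))
    rw [measure_singleton] at t
    obtain ⟨r, h1, h2⟩ := (((t.eventually (gt_mem_nhds (ENNReal.ofReal_pos.mpr hδ))).filter_mono
      nhdsWithin_le_nhds).and (self_mem_nhdsWithin (s := Ioi (0 : ℝ)))).exists
    rw [cthickening_singleton _ (le_of_lt h2)] at h1
    exact ⟨r, h2, (measure_mono ball_subset_closedBall).trans h1.le⟩
  obtain ⟨ε, hε, η, s, h01, h0, h1, hH⟩ := cutoff hN hb z hκ hr
  refine ⟨ε, hε, fun Ω U V A B hΩ hU hV hUV hA hB hc p ⟨φ, h, e1, e2⟩ => ?_⟩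
  have T0 : Test Ω fun x => η x * φ x := h.of_supp (s.mul h.1) fun x hx => by simp [hx]
  have T : Test (A ∪ B) fun x => η x * φ x := ⟨T0.1, T0.2.1, fun x hx => hc x (T0.2.2 hx) fun hb =>
    notMem_tsupport_iff_eventuallyEq.mpr (by
      filter_upwards [isOpen_ball.mem_nhds hb] with y hy
      simp [h0 y hy]) hx⟩
  obtain ⟨a1, a2, a3⟩ := cut_ind hU hV hUV hA hB T
  obtain ⟨b1, b2, b3⟩ := cut_ind hV hU hUV.symm hB hA (by rwa [union_comm])
  have cη := cont_grad (s.of_le (by simp : (1 : WithTop ℕ∞) ≤ (⊤ : ℕ∞)))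
  have cφ := h.cont
  refine ⟨_, a1.tp_mem, _, b1.tp_mem, ?_, fun g hg => ?_⟩
  · have i3 : Integrable fun x => φ x ^ 2 * ‖gradient η x‖ ^ 2 :=
      int_hcs h.2.1 (by fun_prop) fun x hx => by simp [image_eq_zero_of_notMem_tsupport hx]
    have k : ∫ x, (‖gradient (U.indicator fun x => η x * φ x) x‖ ^ 2 +
        ‖gradient (V.indicator fun x => η x * φ x) x‖ ^ 2) ≤
        ∫ x, ((1 + κ) * ‖gradient φ x‖ ^ 2 + (1 + κ⁻¹) * (φ x ^ 2 * ‖gradient η x‖ ^ 2)) := by
      refine integral_mono (a1.int_sq.add b1.int_sq) ((h.int_sq.const_mul _).add (i3.const_mul _))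
        fun x => ?_
      have k1 : ‖gradient (U.indicator fun x => η x * φ x) x‖ ^ 2 +
          ‖gradient (V.indicator fun x => η x * φ x) x‖ ^ 2 ≤
          ‖gradient (fun x => η x * φ x) x‖ ^ 2 := by
        by_cases hx : x ∈ U
        · rw [a2 x hx, b3 x fun h => hUV.ne_of_mem hx h rfl]; simp
        · by_cases hy : x ∈ V
          · rw [a3 x hx, b2 x hy]; simp
          · rw [a3 x hx, b3 x hy]; simp
      refine k1.trans ?_
      rw [grad_mul (s.differentiable (by simp) x) (h.diff x)]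
      have k2 : ‖η x • gradient φ x + φ x • gradient η x‖ ≤
          ‖gradient φ x‖ + |φ x| * ‖gradient η x‖ := by
        refine (norm_add_le _ _).trans ?_
        rw [norm_smul, norm_smul, Real.norm_eq_abs, Real.norm_eq_abs, abs_of_nonneg (h01 x).1]
        nlinarith [(h01 x).2, norm_nonneg (gradient φ x)]
      refine (pow_le_pow_left₀ (norm_nonneg _) k2 2).trans ?_
      rw [← sq_abs (φ x), ← mul_pow]
      set a := ‖gradient φ x‖
      set b := |φ x| * ‖gradient η x‖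
      have : (1 + κ) * a ^ 2 + (1 + κ⁻¹) * b ^ 2 - (a + b) ^ 2 = κ⁻¹ * (κ * a - b) ^ 2 := by
        field_simp; ring
      have : 0 ≤ κ⁻¹ * (κ * a - b) ^ 2 := by positivity
      linarith
    rw [integral_add a1.int_sq b1.int_sq, integral_add (h.int_sq.const_mul _) (i3.const_mul _),
      integral_const_mul, integral_const_mul] at k
    rw [norm2_of_ae a1.tp2, norm2_of_ae b1.tp2, mul_pow, norm2_of_ae e2]
    have k3 := mul_le_mul_of_nonneg_left (hH φ (h.mono hΩ)) (by positivity : 0 ≤ 1 + κ⁻¹)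
    have : (1 + κ⁻¹) * (κ ^ 2 * ∫ x, ‖gradient φ x‖ ^ 2) =
        (κ ^ 2 + κ) * ∫ x, ‖gradient φ x‖ ^ 2 := by field_simp
    nlinarith
  · have k : ∀ W, |nf q W g p.1 - nf q W g fun x => η x * φ x| ≤ κ * ‖p.2‖ := fun W => by
      rw [nf_congr e1]
      refine (nf_lip hq W hg (h.memLp _) (T.memLp _)).trans (le_trans ?_
        (hsm _ hrδ p (subset_closure ⟨φ, h.mono hΩ, e1, e2⟩)))
      rw [nf_congr e1, ← nf_ind measurableSet_ball rfl]
      refine nf_le_of_le subset_rfl (by simpa using (h.memLp _).indicator measurableSet_ball)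
        (Eventually.of_forall fun x => ?_)
      by_cases hx : x ∈ ball z r
      · rw [indicator_of_mem hx, ← one_sub_mul, abs_mul, abs_of_nonneg (by linarith [(h01 x).2])]
        nlinarith [(h01 x).1, abs_nonneg (φ x)]
      · simp [h1 x hx]
    have e : V.indicator (fun x => η x * φ x) = Uᶜ.indicator fun x => η x * φ x := by
      ext x
      by_cases hx : x ∈ V
      · rw [indicator_of_mem hx, 
          indicator_of_mem (show x ∈ Uᶜ from fun h => hUV.ne_of_mem h hx rfl)]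
      · by_cases hy : x ∈ U
        · rw [indicator_of_notMem hx, indicator_of_notMem (not_not.mpr hy)]
        · rw [indicator_of_notMem hx, indicator_of_mem hy]
          exact (T.zero_off fun h => h.elim (fun a => hy (hA a)) fun a => hx (hB a)).symm
    rw [nf_congr a1.tp1, nf_congr b1.tp1, e, nf_ind hU.measurableSet hg.1,
      nf_ind hU.measurableSet.compl hg.1]
    exact ⟨k _, k _⟩

theorem barrier (hN : 2 ≤ N) {Ω0 : Set (E N)} (hb : Bornology.IsBounded Ω0) {q : ℝ}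
    (hq : 1 ≤ q) (hqN : ((N : ℝ) - 2) * q < 2 * N) (z : E N) {κ : ℝ} (hκ : 0 < κ) :
    ∃ ε : ℝ, 0 < ε ∧ ∀ Ω U V A B : Set (E N), Ω ⊆ Ω0 → IsOpen U → IsOpen V → Disjoint U V →
      IsOpen A → IsOpen B → A ⊆ Ω0 → B ⊆ Ω0 →
      A ⊆ U → B ⊆ V → (∀ x ∈ Ω, x ∉ ball z ε → x ∈ A ∪ B) → ∀ p ∈ H10 Ω,
      ∃ p1 ∈ H10 A, ∃ p2 ∈ H10 B, ‖p1.2‖ ^ 2 + ‖p2.2‖ ^ 2 ≤ ((1 + κ) * ‖p.2‖) ^ 2 ∧
        ∀ g, Con g → |nf q U g p.1 - nf q univ g p1.1| ≤ κ * ‖p.2‖ ∧
          |nf q Uᶜ g p.1 - nf q univ g p2.1| ≤ κ * ‖p.2‖ := by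
  obtain ⟨ε, hε, H⟩ := barrier_test hN hb hq hqN z hκ
  obtain ⟨C, hC⟩ := exists_sob hN hb hq hqN.le
  refine ⟨ε, hε, fun Ω U V A B hΩ hU hV hUV oA oB sA sB hA hB hc p hp => ?_⟩
  obtain ⟨r, hr, hlim⟩ := mem_closure_iff_seq_limit.mp hp
  choose a ha b hb' hE hg using fun n => H Ω U V A B hΩ hU hV hUV hA hB hc (r n) (hr n)
  have t2 : Tendsto (fun n => ‖(r n).2‖) atTop (𝓝 ‖p.2‖) :=
    ((continuous_snd.tendsto p).comp hlim).norm
  obtain ⟨K, hK⟩ := (t2.const_mul (1 + κ)).bddAbove_range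
  have hK' : ∀ n, (1 + κ) * ‖(r n).2‖ ≤ K := fun n => hK ⟨n, rfl⟩
  obtain ⟨p1, m1, l1, hl1, -, a1, w1⟩ := compact_seq hN oA (hb.subset sA) hq hqN subset_rfl
    (TS A).convex (p := a) (K := K) (fun n => subset_closure (ha n))
    fun n => (sq_le_sq₀ (norm_nonneg _) (by positivity)).mp
      (le_trans (le_add_of_nonneg_right (sq_nonneg _)) (hE n)) |>.trans (hK' n)
  obtain ⟨p2, m2, l2, hl2, -, a2, w2⟩ := compact_seq hN oB (hb.subset sB) hq hqN subset_rfl
    (TS B).convex (p := fun n => b (l1 n)) (K := K) (fun n => subset_closure (hb' _))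
    fun n => (sq_le_sq₀ (norm_nonneg _) (by positivity)).mp
      (le_trans (le_add_of_nonneg_left (sq_nonneg _)) (hE _)) |>.trans (hK' _)
  have hl := (hl1.comp hl2).tendsto_atTop
  refine ⟨p1, m1, p2, m2, ?_, fun g hg' => ?_⟩
  · have h1 := ((((w1 p1.2).comp hl2.tendsto_atTop).const_mul 2).sub_const (‖p1.2‖ ^ 2)).add
      (((w2 p2.2).const_mul 2).sub_const (‖p2.2‖ ^ 2))
    rw [real_inner_self_eq_norm_sq, real_inner_self_eq_norm_sq] at h1
    have := le_of_tendsto_of_tendsto' h1 (((t2.comp hl).const_mul (1 + κ)).pow 2) fun n => by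
      have h3 := norm_sub_sq_real (a (l1 (l2 n))).2 p1.2
      have h4 := norm_sub_sq_real (b (l1 (l2 n))).2 p2.2
      have h5 := hE (l1 (l2 n))
      simp only [Function.comp_apply]
      nlinarith [sq_nonneg ‖(a (l1 (l2 n))).2 - p1.2‖, sq_nonneg ‖(b (l1 (l2 n))).2 - p2.2‖]
    linarith
  · have t3 : ∀ W, Tendsto (fun n => nf q W g (r n).1) atTop (𝓝 (nf q W g p.1)) := fun W =>
      ((hC.mono hΩ).cont W hg' p hp).tendsto.comp
        (tendsto_nhdsWithin_iff.mpr ⟨hlim, Eventually.of_forall fun n => subset_closure (hr n)⟩)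
    have t4 : Tendsto (fun n => nf q univ g (a (l1 n)).1) atTop (𝓝 (nf q univ g p1.1)) :=
      tendsto_sub_nhds_zero_iff.mp (squeeze_zero_norm
        (fun n => (hC.mono sA).lip univ hg' (subset_closure (ha _)) m1) a1)
    have t5 : Tendsto (fun n => nf q univ g (b (l1 (l2 n))).1) atTop (𝓝 (nf q univ g p2.1)) :=
      tendsto_sub_nhds_zero_iff.mp (squeeze_zero_norm
        (fun n => (hC.mono sB).lip univ hg' (subset_closure (hb' _)) m2) a2)
    exact ⟨le_of_tendsto_of_tendsto' (((t3 U).comp hl1.tendsto_atTop).sub t4).abs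
      ((t2.comp hl1.tendsto_atTop).const_mul κ) fun n => (hg _ g hg').1,
      le_of_tendsto_of_tendsto' (((t3 Uᶜ).comp hl).sub t5).abs
      ((t2.comp hl).const_mul κ) fun n => (hg _ g hg').2⟩

end Pool.Agent.H92.Q
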