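import Pool.Agent.H92.Q4

open MeasureTheory Filter Topology Set Metric
open scoped ENNReal NNReal

namespace Pool.Agent.H92.Q

variable {N : ℕ}

/-- a is a lower bound of the Rayleigh quotient -/
def Low (Ω : Set (E N)) (q a : ℝ) : Prop := ∀ r ∈ H10 Ω, a * nq q r ^ 2 ≤ ‖r.2‖ ^ 2

theorem Sob.sph {Ω : Set (E N)} {q C : ℝ} (h : Sob Ω q C) {p : P N} :
    p ∈ Sph Ω q ↔ p ∈ H10 Ω ∧ nq q p = 1 := by
  refine and_congr_right fun hp => ?_
  rw [nq, nf_univ, ← ENNReal.toReal_eq_one_iff]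

theorem low_of_unit {Ω : Set (E N)} {q a : ℝ}
    (h : ∀ r ∈ H10 Ω, nq q r = 1 → a ≤ ‖r.2‖ ^ 2) : Low Ω q a := fun r hr => by
  rcases (nf_nonneg q univ (fun t => t) r.1).eq_or_lt with h0 | h0
  · rw [nq, ← h0]; simp
  have := h _ (H10.smul hr (nq q r)⁻¹)
    (by rw [nq_smul, abs_of_pos (inv_pos.mpr h0), inv_mul_cancel₀ h0.ne'])
  rw [Prod.smul_snd, norm_smul, mul_pow, Real.norm_eq_abs, sq_abs, inv_pow,
    le_inv_mul_iff₀ (by positivity)] at this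
  linarith

theorem Sob.low {Ω : Set (E N)} {q C : ℝ} (h : Sob Ω q C) : Low Ω q (C ^ 2)⁻¹ := fun r hr => by
  have := h.pos
  rw [inv_mul_le_iff₀ (by positivity), ← mul_pow]
  exact pow_le_pow_left₀ (nf_nonneg _ _ _ _) (h.nf_le hr) 2

theorem Low.mono {Ω Ω' : Set (E N)} {q a : ℝ} (h : Low Ω q a) (hs : Ω' ⊆ Ω) : Low Ω' q a :=
  fun r hr => h r (H10.mono hs hr)

theorem Low.le {Ω : Set (E N)} {q a b : ℝ} (h : Low Ω q a) (hs : b ≤ a) : Low Ω q b :=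
  fun r hr => (mul_le_mul_of_nonneg_right hs (sq_nonneg _)).trans (h r hr)

theorem exists_bump {Ω : Set (E N)} (ho : IsOpen Ω) {x : E N} (hx : x ∈ Ω) :
    ∃ φ, Test Ω φ ∧ (∀ y, 0 ≤ φ y) ∧ φ x = 1 := by
  obtain ⟨φ, h1, h2, h3, h4, h5⟩ := exists_contDiff_tsupport_subset (ho.mem_nhds hx)
  exact ⟨φ, ⟨h3, h2, h1⟩, fun y => (h4 ⟨y, rfl⟩).1, h5⟩

theorem exists_unit {Ω : Set (E N)} (ho : IsOpen Ω) (hn : Ω.Nonempty) {q : ℝ} (hq : 1 ≤ q) :
    ∃ p ∈ H10 Ω, nq q p = 1 := by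
  obtain ⟨x, hx⟩ := hn
  obtain ⟨φ, h, -, h1⟩ := exists_bump ho hx
  have h0 : 0 < nq q (tp φ) := by
    rw [nq, nf_congr h.tp1, nf_univ]
    refine ENNReal.toReal_pos (fun h0 => ?_) (h.memLp _).2.ne
    rw [eLpNorm_eq_zero_iff h.cont.aestronglyMeasurable (by simp; linarith),
      Continuous.ae_eq_iff_eq _ h.cont continuous_zero] at h0
    simp [h0] at h1
  exact ⟨_, H10.smul h.tp_H (nq q (tp φ))⁻¹,
    by rw [nq_smul, abs_of_pos (inv_pos.mpr h0), inv_mul_cancel₀ h0.ne']⟩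

theorem exists_min (hN : 2 ≤ N) {Ω : Set (E N)} (ho : IsOpen Ω) (hb : Bornology.IsBounded Ω)
    (hn : Ω.Nonempty) {q : ℝ} (hq : 1 ≤ q) (hqN : ((N : ℝ) - 2) * q < 2 * N) :
    0 < lam1 Ω q ∧ Low Ω q (lam1 Ω q) ∧ ∃ p ∈ H10 Ω, nq q p = 1 ∧ ‖p.2‖ ^ 2 = lam1 Ω q := by
  obtain ⟨C, hC⟩ := exists_sob hN hb hq hqN.le
  obtain ⟨p1, a, b⟩ := exists_unit ho hn hq
  obtain ⟨p, h1, h2, -, h4⟩ := local_min hN ho hb hq hqN (Φ := fun _ => 0)
    (fun p _ r _ => by simpa using nf_nonneg _ _ _ _) a b le_rfl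
  have e : lam1 Ω q = ‖p.2‖ ^ 2 := IsLeast.csInf_eq
    ⟨⟨p, hC.sph.mpr ⟨h1, h2⟩, energy_eq p⟩, by
      rintro _ ⟨r, hr, rfl⟩
      rw [energy_eq]; exact h4 r hr.1 (hC.sph.mp hr).2 le_rfl⟩
  refine ⟨?_, e ▸ low_of_unit fun r a b => h4 r a b le_rfl, p, h1, h2, e.symm⟩
  have := hC.low p h1
  have := hC.pos
  rw [h2] at *
  rw [e]; refine lt_of_lt_of_le ?_ ‹_›; positivity

theorem Sob.add_compl {Ω : Set (E N)} {q C : ℝ} (h : Sob Ω q C) {p : P N} (hp : p ∈ H10 Ω)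
    {U : Set (E N)} (hU : MeasurableSet U) :
    nf q U (fun t => t) p.1 ^ q + nf q Uᶜ (fun t => t) p.1 ^ q = nq q p ^ q := by
  have hq : 0 < q := by linarith [h.q1]
  rw [h.nq_pow hp, nf_pow hq U (con_id.memLp _ (h.memLp hp)),
    nf_pow hq Uᶜ (con_id.memLp _ (h.memLp hp)), integral_add_compl hU]
  simpa [ENNReal.toReal_ofReal hq.le] using
    (h.memLp hp).integrable_norm_rpow (by simpa using hq) ENNReal.ofReal_ne_top

theorem Sob.add_sign {Ω : Set (E N)} {q C : ℝ} (h : Sob Ω q C) {p : P N} (hp : p ∈ H10 Ω)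
    (U : Set (E N)) : nf q U (fun t => max t 0) p.1 ^ q + nf q U (fun t => max (-t) 0) p.1 ^ q =
      nf q U (fun t => t) p.1 ^ q := by
  have hq : 0 < q := by linarith [h.q1]
  have hi : ∀ {g}, Con g → Integrable (fun x => |g (p.1 x)| ^ q) (volume.restrict U) := fun hg => by
    simpa [ENNReal.toReal_ofReal hq.le] using
      (hg.memLp U (h.memLp hp)).integrable_norm_rpow (by simpa using hq) ENNReal.ofReal_ne_top
  rw [nf_pow (g := fun t => max t 0) hq U (con_pos.memLp _ (h.memLp hp)),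
    nf_pow (g := fun t => max (-t) 0) hq U (con_neg.memLp _ (h.memLp hp)),
    nf_pow hq U (con_id.memLp _ (h.memLp hp)), ← integral_add (hi con_pos) (hi con_neg)]
  congr 1; ext x
  rcases le_total (p.1 x) 0 with h | h
  · rw [max_eq_right h, max_eq_left (by linarith)]; simp [hq.ne']
  · rw [max_eq_left h, max_eq_right (by linarith)]; simp [hq.ne']

theorem nf_congr' {q : ℝ} {A : Set (E N)} {g g' : ℝ → ℝ} {f f' : E N → ℝ}
    (h : ∀ᵐ x, |g (f x)| = |g' (f' x)|) : nf q A g f = nf q A g' f' :=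
  congrArg ENNReal.toReal (eLpNorm_congr_norm_ae (ae_restrict_of_ae h))

theorem nf_neg_pos (q : ℝ) (A : Set (E N)) (p : P N) :
    nf q A (fun t => max t 0) (-p).1 = nf q A (fun t => max (-t) 0) p.1 ∧
    nf q A (fun t => max (-t) 0) (-p).1 = nf q A (fun t => max t 0) p.1 := by
  constructor <;> refine nf_congr' ?_ <;> filter_upwards [Lp.coeFn_neg p.1] with x hx <;>
    rw [Prod.fst_neg, hx] <;> simp

theorem exists_zero {Ω : Set (E N)} {C : ℝ} (hC : Sob Ω 2 C) {F : Set (Pair N)} {L : P N → ℝ}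
    (hF : F ⊆ Sob0 Ω) (hL : ContinuousOn L (H10 Ω))
    (ho : ∀ p, L (-p) = -L p) {k : ℕ} (hk : 2 ≤ k) (hg : (k : ℕ∞) ≤ genus F) :
    ∃ p ∈ F, L (toP p) = 0 := by
  by_contra hn
  push Not at hn
  have hm : ∀ p ∈ F, toP p ∈ H10 Ω := fun p hp => (mem_iff (toP1 (hF hp)) (toP2 (hF hp))).mpr (hF hp)
  have C0 := hC.pos
  have : genus F ≤ (1 : ℕ) := by
    refine iInf_le_of_le 1 (iInf_le_of_le le_rfl (iInf_le_of_le
      ⟨fun p => (L (toP p) / |L (toP p)|) • EuclideanSpace.single 0 1, fun p hp ε hε => ?_,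
        fun p hp => ?_, fun p hp => ?_⟩ le_rfl))
    · have c : ContinuousWithinAt (fun r => (L r / |L r|) •
          (EuclideanSpace.single 0 1 : EuclideanSpace ℝ (Fin 1))) (H10 Ω) (toP p) :=
        ((hL _ (hm p hp)).div (hL _ (hm p hp)).abs (abs_ne_zero.mpr (hn p hp))).smul
          continuousWithinAt_const
      obtain ⟨δ, δ0, hδ⟩ := Metric.continuousWithinAt_iff.mp c ε hε
      refine ⟨ENNReal.ofReal (δ / (C + 1)), by simp; positivity, fun r hr h => ?_⟩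
      rw [← dist_eq_norm]
      refine hδ (hm r hr) ?_
      have e : L2v (r.2 - p.2) = ENNReal.ofReal ‖(toP r - toP p).2‖ := by
        rw [ofReal_norm, ← enorm_Lp, L2v]
        exact eLpNorm_congr_ae ((Lp.coeFn_sub _ _).trans ((toP2 (hF hr)).sub (toP2 (hF hp)))).symm
      rw [e, ENNReal.ofReal_lt_ofReal_iff (by positivity), lt_div_iff₀ (by positivity)] at h
      have h1 := hC.le _ (H10.sub (hm r hr) (hm p hp))
      rw [ENNReal.ofReal_ofNat, enorm_Lp, ← ofReal_norm,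
        ENNReal.ofReal_le_ofReal_iff (by positivity)] at h1
      rw [dist_eq_norm, Prod.norm_def]
      have := norm_nonneg (toP r - toP p).2
      exact max_lt (by nlinarith) (by nlinarith)
    · simp [norm_smul, hn p hp]
    · simp [toP_neg (hF hp), ho, neg_div]
  have := hg.trans this
  norm_cast at this; omega

theorem LS_ge (hN : 2 ≤ N) {Ω : Set (E N)} (bd : Bornology.IsBounded Ω) {q b : ℝ} {L : P N → ℝ}
    (hL : ContinuousOn L (H10 Ω))
    (ho : ∀ p, L (-p) = -L p) (hb : ∀ p ∈ Sph Ω q, L p = 0 → b ≤ ‖p.2‖ ^ 2) {k : ℕ} (hk : 2 ≤ k) :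
    ENNReal.ofReal b ≤ LS Ω q k := by
  have hN' : (2 : ℝ) ≤ N := by exact_mod_cast hN
  obtain ⟨C, hC⟩ := exists_sob hN bd (s := 2) (by norm_num) (by linarith)
  refine le_iInf fun F => le_iInf fun h1 => le_iInf fun _ => le_iInf fun _ => le_iInf fun _ =>
    le_iInf fun hg => ?_
  obtain ⟨p, hp, h0⟩ := exists_zero hC (fun p hp => (h1 hp).1) hL ho hk hg
  refine le_iSup₂_of_le p hp (ENNReal.ofReal_le_ofReal ?_)
  rw [dir_eq (toP2 (h1 hp).1)]
  exact hb _ ((sph_iff (toP1 (h1 hp).1) (toP2 (h1 hp).1)).mpr (h1 hp)) h0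

theorem LS_one_le {Ω : Set (E N)} {q : ℝ} {p : P N} (hp : p ∈ Sph Ω q) :
    LS Ω q 1 ≤ ENNReal.ofReal (‖p.2‖ ^ 2) := by
  have hn : -p ∈ Sph Ω q := ⟨H10.neg hp.1, by
    rw [Prod.fst_neg, eLpNorm_congr_ae (Lp.coeFn_neg p.1), eLpNorm_neg]; exact hp.2⟩
  have h1 : ofP p ∈ Sphere Ω q := (sph_iff (r := ofP p) .rfl .rfl).mp hp
  have h2 : -ofP p ∈ Sphere Ω q :=
    (sph_iff (r := -ofP p) (Lp.coeFn_neg p.1) (Lp.coeFn_neg p.2)).mp hn
  refine iInf_le_of_le {ofP p, -ofP p} (iInf_le_of_le (by rintro _ (rfl | rfl) <;> assumption)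
    (iInf_le_of_le (by simp) (iInf_le_of_le (fun r hr => ?_) (iInf_le_of_le
      (by rintro _ (rfl | rfl) <;> simp) (iInf_le_of_le ?_ ?_)))))
  · have : (∃ᶠ n in atTop, r n = ofP p) ∨ ∃ᶠ n in atTop, r n = -ofP p :=
      frequently_or_distrib.mp (Eventually.of_forall hr).frequently
    rcases this with h | h <;> obtain ⟨l, a, b⟩ := extraction_of_frequently_atTop h
    · exact ⟨_, Or.inl rfl, l, a, by simp [b, L2v]⟩
    · exact ⟨_, Or.inr rfl, l, a, by simp [b, L2v]⟩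
  · exact le_iInf fun k => le_iInf fun hk => le_iInf fun _ => by exact_mod_cast hk
  · refine iSup₂_le ?_
    rintro _ (rfl | rfl)
    · rw [dir_eq (p := p) .rfl]
    · rw [dir_eq (p := -p) (Lp.coeFn_neg p.2)]; simp

theorem LS_two (hN : 2 ≤ N) {Ω : Set (E N)} (ho : IsOpen Ω) (hb : Bornology.IsBounded Ω)
    {q C a : ℝ} (hC : Sob Ω q C) (ha : Low Ω q a) {k : ℕ} (hk : 2 ≤ k) :
    ENNReal.ofReal (a * (2 * (1 / 2) ^ (2 / q))) ≤ LS Ω q k := by
  have hq : 0 < q := by linarith [hC.q1]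
  refine LS_ge hN hb (L := fun p => nf q univ (fun t => max t 0) p.1 - nf q univ (fun t => max (-t) 0) p.1)
    ((hC.cont _ con_pos).sub (hC.cont _ con_neg))
    (fun p => by rw [(nf_neg_pos q univ p).1, (nf_neg_pos q univ p).2]; ring) (fun p hp h0 => ?_) hk
  obtain ⟨p1, m1, p2, m2, e1, e2, h⟩ := split hN ho hb hp.1
  have k1 : nq q p1 = nf q univ (fun t => max t 0) p.1 :=
    nf_congr' (by filter_upwards [e1] with x hx; rw [hx])
  have k2 : nq q p2 = nf q univ (fun t => max (-t) 0) p.1 :=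
    nf_congr' (by filter_upwards [e2] with x hx; rw [hx])
  have k3 := hC.add_sign hp.1 univ
  have k4 : nf q univ (fun t => t) p.1 = 1 := (hC.sph.mp hp).2
  rw [k4, Real.one_rpow, ← k1, ← k2] at k3
  rw [← k1, ← k2, sub_eq_zero] at h0
  have k5 : nq q p1 ^ 2 = (1 / 2) ^ (2 / q) := by
    rw [show (1 / 2 : ℝ) = nq q p1 ^ q by rw [← h0] at k3; linarith,
      ← Real.rpow_mul (nf_nonneg _ _ _ _), mul_div_cancel₀ _ hq.ne', Real.rpow_two]
  have l1 := ha p1 m1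
  have l2 := ha p2 m2
  rw [← h0] at l2
  rw [k5] at l1 l2
  linarith

theorem ex_pos {p : ℝ → Prop} (h : ∀ᶠ t in 𝓝 (0 : ℝ), p t) : ∃ t, p t ∧ 0 < t :=
  ((h.filter_mono nhdsWithin_le_nhds).and (self_mem_nhdsWithin (s := Ioi (0 : ℝ)))).exists

theorem sq_ge_of_abs {x y k : ℝ} (h : |x - y| ≤ k) (hk : k ≤ x) : (x - k) ^ 2 ≤ y ^ 2 :=
  pow_le_pow_left₀ (by linarith) (by linarith [(abs_le.mp h).2]) 2

theorem room (hN : 2 ≤ N) {Ω0 : Set (E N)} (hb : Bornology.IsBounded Ω0) {q : ℝ}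
    (hq : 2 < q) (hqN : ((N : ℝ) - 2) * q < 2 * N) (z : E N) {a' b σ : ℝ} (ha' : 0 < a')
    (hb0 : 0 < b) (hσ : σ < 1) :
    ∃ ε : ℝ, 0 < ε ∧ ∀ Ω U V A B : Set (E N), Ω ⊆ Ω0 → IsOpen Ω → IsOpen U → IsOpen V →
      Disjoint U V → IsOpen A → IsOpen B → A ⊆ Ω → B ⊆ Ω → A.Nonempty →
      A ⊆ U → B ⊆ V → (∀ x ∈ Ω, x ∉ ball z ε → x ∈ A ∪ B) → lam1 A q ≤ a' → Low B q b →
      ∃ p ∈ Sph Ω q, IsEigen Ω q (‖p.2‖ ^ 2) p ∧ (∀ᵐ x, 0 ≤ p.1 x) ∧
        σ * lam1 A q ≤ ‖p.2‖ ^ 2 ∧ ‖p.2‖ ^ 2 ≤ lam1 A q := by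
  have hq0 : 0 < q := by linarith
  have h2q : 2 / q < 1 := by rw [div_lt_one hq0]; exact hq
  obtain ⟨τ, ⟨t1, t2, t4⟩, t3⟩ : ∃ τ : ℝ, (τ ^ (1 - 2 / q) < b / a' ∧ τ < 1 - σ ∧ τ < 1) ∧
      0 < τ := by
    have c : ContinuousAt (fun τ : ℝ => τ ^ (1 - 2 / q)) 0 :=
      Real.continuousAt_rpow_const _ _ (Or.inr (by linarith))
    exact ex_pos ((c.eventually_lt continuousAt_const (by
      rw [Real.zero_rpow (by linarith)]; positivity)).and
      (Eventually.and (gt_mem_nhds (by linarith)) (gt_mem_nhds one_pos)))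
  set x := (1 - τ) ^ q⁻¹ with hx
  set y := τ ^ q⁻¹ with hy
  have x0 : 0 < x := Real.rpow_pos_of_pos (by linarith) _
  have y0 : 0 < y := by positivity
  have xq : x ^ q = 1 - τ := Real.rpow_inv_rpow (by linarith) hq0.ne'
  have x1 : x ≤ 1 := Real.rpow_le_one (by linarith) (by linarith) (by positivity)
  have x2 : 1 - τ ≤ x ^ 2 := by
    rw [← xq, ← Real.rpow_two]; exact Real.rpow_le_rpow_of_exponent_ge x0 x1 hq.le
  have y2 : a' * τ < b * y ^ 2 := by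
    have : τ = τ ^ (1 - 2 / q) * y ^ 2 := by
      rw [hy, ← Real.rpow_two, ← Real.rpow_mul t3.le, ← Real.rpow_add t3]
      rw [show 1 - 2 / q + q⁻¹ * 2 = 1 by field_simp; ring, Real.rpow_one]
    rw [lt_div_iff₀ ha'] at t1
    calc a' * τ = τ ^ (1 - 2 / q) * a' * y ^ 2 := by nth_rw 1 [this]; ring
      _ < _ := by gcongr
  set s := √a' with hs
  obtain ⟨κ, ⟨k1, k2, k3, k4⟩, k0⟩ : ∃ κ : ℝ,
      (a' * ((1 + κ) ^ 2 - (x - κ * s) ^ 2) < b * (y - κ * s) ^ 2 ∧ κ * s < x ∧ κ * s < y ∧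
        σ * (1 + κ) ^ 2 < (x - κ * s) ^ 2) ∧ 0 < κ := by
    refine ex_pos ?_
    refine (ContinuousAt.eventually_lt (by fun_prop) (by fun_prop) (by simp; nlinarith)).and
      ((ContinuousAt.eventually_lt (by fun_prop) (by fun_prop) (by simpa using x0)).and
      ((ContinuousAt.eventually_lt (by fun_prop) (by fun_prop) (by simpa using y0)).and
      (ContinuousAt.eventually_lt (by fun_prop) (by fun_prop) (by simp; linarith))))
  obtain ⟨ε, hε, H⟩ := barrier hN hb (by linarith : 1 ≤ q) hqN z k0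
  refine ⟨ε, hε, fun Ω U V A B hΩ oΩ hU hV hUV oA oB sA sB nA hA hB hc haa lB => ?_⟩
  have bΩ := hb.subset hΩ
  obtain ⟨C, hC⟩ := exists_sob hN bΩ (by linarith : 1 ≤ q) hqN.le
  obtain ⟨a0, lA, p1, m1, n1, e1⟩ := exists_min hN oA (bΩ.subset sA) nA (by linarith : 1 ≤ q) hqN
  set a := lam1 A q
  have hΦ : ∀ p ∈ H10 Ω, ∀ r ∈ H10 Ω, |(nf q U (fun t => t) p.1 - x) -
      (nf q U (fun t => t) r.1 - x)| ≤ 2 * nq q (p - r) := fun p hp r hr => by
    rw [sub_sub_sub_cancel_right]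
    linarith [hC.lip U con_id hp hr, nf_nonneg q univ (fun t => t) (p - r).1]
  have n2 : nf q U (fun t => t) p1.1 = 1 := by
    rw [← n1, ← nf_ind hU.measurableSet rfl]
    refine nf_congr ?_
    filter_upwards [H10.zero_off oA.measurableSet m1] with w hw
    by_cases h : w ∈ U
    · exact indicator_of_mem h _
    · rw [indicator_of_notMem h, hw fun h' => h (hA h')]
  obtain ⟨p0, m0, n0, f0, h0⟩ := local_min hN oΩ bΩ (by linarith : 1 ≤ q) hqN hΦ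
    (H10.mono sA m1) n1 (by simp only [n2]; linarith)
  obtain ⟨p, mp, ep, lp⟩ := abs_mem hN oΩ bΩ m0
  have m : p ∈ H10 Ω := closure_mono (TPn_sub Ω) mp
  have e : ∀ W, nf q W (fun t => t) p.1 = nf q W (fun t => t) p0.1 := fun W =>
    nf_congr' (by filter_upwards [ep] with w hw; rw [hw, abs_abs])
  have n : nq q p = 1 := (e _).trans n0
  have hE : ‖p.2‖ ^ 2 ≤ a := lp.trans ((h0 p1 (H10.mono sA m1) n1
    (by simp only [n2]; linarith)).trans e1.le)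
  have hs' : κ * ‖p.2‖ ≤ κ * s :=
    mul_le_mul_of_nonneg_left (Real.le_sqrt_of_sq_le (hE.trans haa)) k0.le
  obtain ⟨r1, mr1, r2, mr2, hr, hg⟩ := H Ω U V A B hΩ hU hV hUV oA oB (sA.trans hΩ) (sB.trans hΩ)
    hA hB hc p m
  obtain ⟨g1, g2⟩ := hg _ con_id
  have f1 : x ≤ nf q U (fun t => t) p.1 := by rw [e]; linarith
  have b1 : (x - κ * s) ^ 2 ≤ nq q r1 ^ 2 :=
    pow_le_pow_left₀ (by linarith) (by linarith [(abs_le.mp g1).2]) 2
  have l1 := (mul_le_mul_of_nonneg_left b1 a0.le).trans (lA r1 mr1)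
  rw [mul_pow] at hr
  refine ⟨p, hC.sph.mpr ⟨m, n⟩, eigen_of_min hC (by linarith) (hC.contΦ hΦ) m n ?_
    fun r a b c => lp.trans (h0 r a b c), TPn_nonneg mp, ?_, hE⟩
  · refine sub_pos.mpr (f1.lt_of_ne fun f2 => ?_)
    have c := hC.add_compl m hU.measurableSet
    rw [n, ← f2, xq, Real.one_rpow] at c
    have c2 : nf q Uᶜ (fun t => t) p.1 = y := by
      rw [hy, show τ = nf q Uᶜ (fun t => t) p.1 ^ q by linarith,
        Real.rpow_rpow_inv (nf_nonneg _ _ _ _) hq0.ne']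
    rw [c2] at g2
    have l2 := (mul_le_mul_of_nonneg_left (sq_ge_of_abs (g2.trans hs') k3.le) hb0.le).trans
      (lB r2 mr2)
    have c3 : (x - κ * s) ^ 2 ≤ (1 + κ) ^ 2 :=
      pow_le_pow_left₀ (by linarith) (by nlinarith [Real.sqrt_nonneg a']) 2
    have c4 := mul_le_mul_of_nonneg_right haa (sub_nonneg.mpr c3)
    have c5 := mul_le_mul_of_nonneg_left hE (sq_nonneg (1 + κ))
    linarith
  · refine le_of_mul_le_mul_left ?_ (by positivity : 0 < (1 + κ) ^ 2)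
    have c4 := mul_le_mul_of_nonneg_left k4.le a0.le
    linarith [sq_nonneg ‖r2.2‖]

theorem room_low (hN : 2 ≤ N) {Ω0 : Set (E N)} (hb : Bornology.IsBounded Ω0) {q : ℝ}
    (hq : 2 ≤ q) (hqN : ((N : ℝ) - 2) * q < 2 * N) (z : E N) {b σ : ℝ}
    (hb0 : 0 < b) (hσ : σ < 1) :
    ∃ ε : ℝ, 0 < ε ∧ ∀ Ω U V A B : Set (E N), Ω ⊆ Ω0 → IsOpen U → IsOpen V →
      Disjoint U V → IsOpen A → IsOpen B → A ⊆ Ω → B ⊆ Ω →
      A ⊆ U → B ⊆ V → (∀ x ∈ Ω, x ∉ ball z ε → x ∈ A ∪ B) → Low A q b → Low B q b →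
      Low Ω q (σ * b) := by
  have hq0 : 0 < q := by linarith
  set s := √b with hs
  obtain ⟨κ, k1, k0⟩ : ∃ κ : ℝ, σ * (1 + κ) ^ 2 < 1 - 4 * (κ * s) ∧ 0 < κ := by
    refine ex_pos ?_
    exact ContinuousAt.eventually_lt (by fun_prop) (by fun_prop) (by simpa using hσ)
  obtain ⟨ε, hε, H⟩ := barrier hN hb (by linarith : 1 ≤ q) hqN z k0
  refine ⟨ε, hε, fun Ω U V A B hΩ hU hV hUV oA oB sA sB hA hB hc lA lB =>
    low_of_unit fun p m n => ?_⟩
  obtain ⟨C, hC⟩ := exists_sob hN (hb.subset hΩ) (by linarith : 1 ≤ q) hqN.le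
  rcases le_total b (‖p.2‖ ^ 2) with hE | hE
  · nlinarith
  have hs' : κ * ‖p.2‖ ≤ κ * s := mul_le_mul_of_nonneg_left (Real.le_sqrt_of_sq_le hE) k0.le
  obtain ⟨r1, mr1, r2, mr2, hr, hg⟩ := H Ω U V A B hΩ hU hV hUV oA oB (sA.trans hΩ) (sB.trans hΩ)
    hA hB hc p m
  obtain ⟨g1, g2⟩ := hg _ con_id
  have c := hC.add_compl m hU.measurableSet
  rw [n, Real.one_rpow] at c
  have key : ∀ u v : ℝ, 0 ≤ u → 0 ≤ v → u ^ q ≤ 1 → |u - v| ≤ κ * s →
      u ^ q - 2 * (κ * s) ≤ v ^ 2 := fun u v hu hv h1 h2 => by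
    have u1 : u ≤ 1 := by
      by_contra h
      exact absurd (Real.one_lt_rpow (not_le.mp h) hq0) (not_lt.mpr h1)
    have u2 : u ^ q ≤ u ^ 2 := by
      rw [← Real.rpow_two]; exact Real.rpow_le_rpow_of_exponent_ge' hu u1 (by norm_num) hq
    obtain ⟨h3, h4⟩ := abs_le.mp h2
    rcases le_total u v with h | h
    · nlinarith
    · nlinarith
  have z1 := Real.rpow_nonneg (nf_nonneg q U (fun t => t) p.1) q
  have z2 := Real.rpow_nonneg (nf_nonneg q Uᶜ (fun t => t) p.1) q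
  have b1 := key _ _ (nf_nonneg _ _ _ _) (nf_nonneg _ _ _ _) (by linarith) (g1.trans hs')
  have b2 := key _ _ (nf_nonneg _ _ _ _) (nf_nonneg _ _ _ _) (by linarith) (g2.trans hs')
  have l1 := (mul_le_mul_of_nonneg_left b1 hb0.le).trans (lA r1 mr1)
  have l2 := (mul_le_mul_of_nonneg_left b2 hb0.le).trans (lB r2 mr2)
  rw [mul_pow] at hr
  refine le_of_mul_le_mul_left ?_ (by positivity : 0 < (1 + κ) ^ 2)
  nlinarith

theorem Low.scale {A B : Set (E N)} {q C a R : ℝ} (hC : Sob B q C) (h : Low A q a) (hR : R ≠ 0)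
    (hAB : ∀ x, R • x ∈ B → x ∈ A) : Low B q (a * |R| ^ ((N : ℝ) - 2 - 2 * N / q)) := by
  have hq : 0 < q := by linarith [hC.q1]
  have hR' : 0 < |R| := abs_pos.mpr hR
  intro p hp
  refine le_of_dense (f := fun r => a * |R| ^ ((N : ℝ) - 2 - 2 * N / q) * nq q r ^ 2)
    (g := fun r => ‖r.2‖ ^ 2) (continuousOn_const.mul ((hC.cont univ con_id).pow 2))
    (by fun_prop) ?_ hp
  rintro r ⟨ψ, hψ, e1, e2⟩
  have T : Test A fun x => ψ (R • x) := ⟨hψ.1.comp (by fun_prop),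
    hψ.2.1.comp_homeomorph (Homeomorph.smulOfNeZero R hR), fun x hx => hAB x (hψ.2.2
      (tsupport_comp_subset_preimage ψ (f := fun x => R • x) (by fun_prop) hx))⟩
  have k := h _ T.tp_H
  have g : ∀ x, ‖gradient (fun x => ψ (R • x)) x‖ ^ 2 = R ^ 2 * ‖gradient ψ (R • x)‖ ^ 2 :=
    fun x => by
    rw [grad_of (φ := fun x => ψ (R • x)) (v := R • gradient ψ (R • x))
      ((hψ.diff _).hasFDerivAt.comp x ((hasFDerivAt_id x).fun_const_smul R)) fun y => by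
        simp [inner_smul_left], norm_smul, mul_pow, Real.norm_eq_abs, sq_abs]
  have n1 : nq q (tp fun x => ψ (R • x)) ^ q = |R| ^ (-(N : ℝ)) * nq q r ^ q := by
    rw [nq, nq, nf_congr T.tp1, nf_congr e1, nf_pow hq _ (con_id.memLp _ (T.memLp _)),
      nf_pow hq _ (con_id.memLp _ (hψ.memLp _)), Measure.restrict_univ,
      Measure.integral_comp_smul volume (fun x => |ψ x| ^ q) R]
    simp [Real.rpow_neg hR'.le, abs_inv, abs_pow]
  have n2 : nq q (tp fun x => ψ (R • x)) ^ 2 = |R| ^ (-(2 * N / q)) * nq q r ^ 2 := by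
    have := congrArg (fun t => t ^ (2 / q)) n1
    rw [Real.mul_rpow (by positivity) (Real.rpow_nonneg (nf_nonneg _ _ _ _) _),
      ← Real.rpow_mul (nf_nonneg _ _ _ _), ← Real.rpow_mul (nf_nonneg _ _ _ _),
      ← Real.rpow_mul hR'.le, mul_div_cancel₀ _ hq.ne', Real.rpow_two, Real.rpow_two] at this
    rw [this]; congr 2; ring
  rw [norm2_of_ae T.tp2, n2] at k
  simp only [g] at k
  rw [integral_const_mul, Measure.integral_comp_smul volume (fun x => ‖gradient ψ x‖ ^ 2) R,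
    ← norm2_of_ae e2] at k
  have e : |R| ^ ((N : ℝ) - 2 - 2 * N / q) = |R| ^ (-(2 * N / q)) * (|R| ^ N / R ^ 2) := by
    rw [show (N : ℝ) - 2 - 2 * N / q = -(2 * N / q) + (N - 2) by ring, Real.rpow_add hR',
      Real.rpow_sub hR', Real.rpow_natCast, Real.rpow_two, sq_abs]
  simp only [finrank_euclideanSpace, Fintype.card_fin, abs_inv, abs_pow, smul_eq_mul] at k
  have k2 := mul_le_mul_of_nonneg_left k (by positivity : 0 ≤ |R| ^ N / R ^ 2)
  simp only [e]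
  refine le_trans (le_of_eq (by ring)) (k2.trans (le_of_eq ?_))
  field_simp

end Pool.Agent.H92.Q
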