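import Pool.Agent.H92.Q5

open MeasureTheory Filter Topology Set Metric
open scoped ENNReal NNReal

namespace Pool.Agent.H92.Q

variable {N : ℕ}

theorem exists_e (hN : 2 ≤ N) : ∃ e : E N, ‖e‖ = 1 :=
  ⟨EuclideanSpace.single ⟨0, by omega⟩ 1, by simp⟩

theorem ball_half {e : E N} (he : ‖e‖ = 1) {t : ℝ} {x : E N} (hx : x ∈ ball (t • e) t) :
    0 < inner ℝ e x := by
  have h1 : inner ℝ e x = t + inner ℝ e (x - t • e) := by
    rw [inner_sub_right, inner_smul_right, real_inner_self_eq_norm_sq, he]; ring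
  have h2 := abs_real_inner_le_norm e (x - t • e)
  rw [he, one_mul] at h2
  have := mem_ball_iff_norm.mp hx
  linarith [(abs_le.mp h2).1]

/-- two tangent balls joined by a small ball -/
def dumb (e : E N) (t ε : ℝ) : Set (E N) := ball e 1 ∪ ball 0 ε ∪ ball (t • -e) t

theorem dumb_open (e : E N) (t ε : ℝ) : IsOpen (dumb e t ε) :=
  (isOpen_ball.union isOpen_ball).union isOpen_ball

theorem dumb_conn {e : E N} (he : ‖e‖ = 1) {t ε : ℝ} (ht : 1 ≤ t) (hε : 0 < ε) :
    IsConnected (dumb e t ε) := by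
  set s := min (ε / 2) 1 with hs
  have s0 : 0 < s := lt_min (by linarith) one_pos
  have s1 : s < ε := (min_le_left _ _).trans_lt (by linarith)
  have s2 : s ≤ 1 := min_le_right _ _
  have k : ∀ (v : E N) (t : ℝ), ‖v‖ = 1 → 1 ≤ t → s • v ∈ ball (t • v) t ∧ s • v ∈ ball 0 ε :=
    fun v t hv ht => by
    rw [mem_ball_iff_norm, ← sub_smul, mem_ball_zero_iff, norm_smul, norm_smul, hv,
      Real.norm_eq_abs, Real.norm_eq_abs, abs_of_pos s0, abs_of_nonpos (by linarith)]
    constructor <;> linarith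
  have c : ∀ (x : E N) (r : ℝ), 0 < r → IsConnected (ball x r) := fun x r hr =>
    (convex_ball x r).isConnected (nonempty_ball.mpr hr)
  refine IsConnected.union ⟨s • -e, Or.inr (k _ t (by simpa using he) ht).2,
    (k _ t (by simpa using he) ht).1⟩ (IsConnected.union ⟨s • e, by simpa using (k e 1 he le_rfl).1,
      (k e 1 he le_rfl).2⟩ (c _ _ one_pos) (c _ _ hε)) (c _ _ (by linarith))

theorem dumb_sub {e : E N} (he : ‖e‖ = 1) {t ε : ℝ} (ht : 1 ≤ t) (hε : ε ≤ 1) :
    dumb e t ε ⊆ ball 0 (2 * t) := by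
  rintro x ((h | h) | h)
  · exact ball_subset_ball' (by simp [he]; linarith) h
  · exact ball_subset_ball (by linarith) h
  · exact ball_subset_ball' (by simp [he, norm_smul, abs_of_pos (by linarith : 0 < t)]; linarith) h

theorem scale_ball {e : E N} {t : ℝ} (ht : 0 < t) (x : E N) :
    (-t) • x ∈ ball (t • -e) t ↔ x ∈ ball e 1 := by
  rw [mem_ball_iff_norm, mem_ball_iff_norm, show (-t) • x - t • -e = (-t) • (x - e) by module,
    norm_smul, Real.norm_eq_abs, abs_neg, abs_of_pos ht, mul_lt_iff_lt_one_right ht]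

theorem lam1_scale (hN : 2 ≤ N) {q : ℝ} (hq : 1 ≤ q) (hqN : ((N : ℝ) - 2) * q < 2 * N) (e : E N)
    {t : ℝ} (ht : 0 < t) :
    lam1 (ball (t • -e) t) q = lam1 (ball e 1) q * t ^ ((N : ℝ) - 2 - 2 * N / q) := by
  obtain ⟨a0, lA, p, mp, np, ep⟩ := exists_min hN isOpen_ball (isBounded_ball (x := e))
    (nonempty_ball.mpr one_pos) hq hqN
  obtain ⟨b0, lB, r, mr, nr, er⟩ := exists_min hN isOpen_ball (isBounded_ball (x := t • -e))
    (nonempty_ball.mpr ht) hq hqN
  obtain ⟨C, hC⟩ := exists_sob hN (isBounded_ball (x := e) (r := 1)) hq hqN.le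
  obtain ⟨C', hC'⟩ := exists_sob hN (isBounded_ball (x := t • -e) (r := t)) hq hqN.le
  have h1 := lA.scale hC' (R := -t) (by linarith) (fun x => (scale_ball ht x).mp) r mr
  have h2 := lB.scale hC (R := (-t)⁻¹) (inv_ne_zero (by linarith)) (fun x hx => by
    have := (scale_ball ht _).mpr hx
    rwa [smul_inv_smul₀ (by linarith)] at this) p mp
  rw [nr, er, abs_neg, abs_of_pos ht] at h1
  rw [np, ep, abs_inv, abs_neg, abs_of_pos ht, Real.inv_rpow ht.le] at h2
  have h3 : 0 < t ^ ((N : ℝ) - 2 - 2 * N / q) := by positivity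
  refine le_antisymm ?_ (by linarith)
  rw [← div_le_iff₀ h3, div_eq_mul_inv]; linarith

theorem not_LS (hN : 2 ≤ N) {q : ℝ} (hq : 2 < q) (hqN : ((N : ℝ) - 2) * q < 2 * N) :
    ∃ Ω : Set (E N), IsOpen Ω ∧ Bornology.IsBounded Ω ∧ IsConnected Ω ∧
      ∃ lam ∈ Spec Ω q, LS Ω q 1 < ENNReal.ofReal lam ∧
        ∀ k, 2 ≤ k → ENNReal.ofReal lam < LS Ω q k := by
  obtain ⟨e, he⟩ := exists_e hN
  have hq0 : 0 < q := by linarith
  have hq1 : 1 ≤ q := by linarith
  set c : ℝ := 2 * (1 / 2) ^ (2 / q) with hc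
  have c1 : 1 < c := by
    have : (1 / 2 : ℝ) ^ (1 : ℝ) < (1 / 2) ^ (2 / q) :=
      Real.rpow_lt_rpow_of_exponent_gt (by norm_num) (by norm_num) (by rw [div_lt_one hq0]; exact hq)
    rw [Real.rpow_one] at this; linarith
  set γ := (N : ℝ) - 2 - 2 * N / q with hγ
  have γ0 : γ < 0 := by rw [hγ, sub_neg, lt_div_iff₀ hq0]; exact hqN
  obtain ⟨s, ⟨s1, s2⟩, s0⟩ : ∃ s : ℝ, (1 < c * ((1 - s) * (1 - 2 * s)) ∧ 2 * s < 1) ∧ 0 < s :=
    ex_pos ((ContinuousAt.eventually_lt (by fun_prop) (by fun_prop) (by simpa using c1)).and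
      (ContinuousAt.eventually_lt (by fun_prop) (by fun_prop) (by simp)))
  set t := (1 - 2 * s) ^ γ⁻¹ with ht
  have tγ : t ^ γ = 1 - 2 * s := Real.rpow_inv_rpow (by linarith) γ0.ne
  have t1 : 1 ≤ t := Real.one_le_rpow_of_pos_of_le_one_of_nonpos (by linarith) (by linarith)
    (inv_nonpos.mpr γ0.le)
  have t0 : 0 < t := by linarith
  have hs := lam1_scale hN hq1 hqN e t0
  rw [← hγ, tγ] at hs
  obtain ⟨a0, lA, -⟩ := exists_min hN isOpen_ball (isBounded_ball (x := e))
    (nonempty_ball.mpr one_pos) hq1 hqN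
  obtain ⟨b0, lB, r, mr, nr, er⟩ := exists_min hN isOpen_ball (isBounded_ball (x := t • -e))
    (nonempty_ball.mpr t0) hq1 hqN
  obtain ⟨ε1, e1, H1⟩ := room hN (isBounded_ball (x := (0 : E N)) (r := 2 * t)) hq hqN 0 a0 b0
    (σ := 1 - s) (by linarith)
  obtain ⟨ε2, e2, H2⟩ := room_low hN (isBounded_ball (x := (0 : E N)) (r := 2 * t)) hq.le hqN 0 b0
    (σ := 1 - s) (by linarith)
  set ε := min (min ε1 ε2) 1
  have e0 : 0 < ε := lt_min (lt_min e1 e2) one_pos
  have sub := dumb_sub he t1 (min_le_right _ _ : ε ≤ 1)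
  have oU : IsOpen {x : E N | 0 < inner ℝ e x} := isOpen_lt continuous_const (by fun_prop)
  have oV : IsOpen {x : E N | 0 < inner ℝ (-e) x} := isOpen_lt continuous_const (by fun_prop)
  have dUV : Disjoint {x : E N | 0 < inner ℝ e x} {x : E N | 0 < inner ℝ (-e) x} :=
    disjoint_left.mpr fun x h1 h2 => by
      simp only [mem_ofPred_eq, inner_neg_left] at h1 h2; linarith
  have sA : ball e 1 ⊆ dumb e t ε := fun x hx => Or.inl (Or.inl hx)
  have sB : ball (t • -e) t ⊆ dumb e t ε := fun x hx => Or.inr hx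
  have hA : ball e 1 ⊆ {x : E N | 0 < inner ℝ e x} := fun x hx =>
    ball_half he (t := 1) (by simpa using hx)
  have hB : ball (t • -e) t ⊆ {x : E N | 0 < inner ℝ (-e) x} := fun x hx =>
    ball_half (by simpa using he) hx
  have cov : ∀ ε', ε ≤ ε' → ∀ x ∈ dumb e t ε, x ∉ ball 0 ε' → x ∈ ball e 1 ∪ ball (t • -e) t := by
    rintro ε' h x ((hx | hx) | hx) h'
    · exact Or.inl hx
    · exact (h' (ball_subset_ball h hx)).elim
    · exact Or.inr hx
  obtain ⟨p, -, p1, -, p2, p3⟩ := H1 _ _ _ _ _ sub (dumb_open _ _ _) oU oV dUV isOpen_ball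
    isOpen_ball sA sB (nonempty_ball.mpr one_pos) hA hB
    (cov _ ((min_le_left _ _).trans (min_le_left _ _))) le_rfl lB
  have L := H2 _ _ _ _ _ sub oU oV dUV isOpen_ball isOpen_ball sA sB hA hB
    (cov _ ((min_le_left _ _).trans (min_le_right _ _))) (lA.le (by rw [hs]; nlinarith)) lB
  have bd := isBounded_ball.subset sub
  obtain ⟨C, hC⟩ := exists_sob hN bd hq1 hqN.le
  refine ⟨_, dumb_open _ _ _, bd, dumb_conn he t1 e0, _, ⟨p, p1⟩, ?_, fun k hk => ?_⟩
  · refine (LS_one_le (hC.sph.mpr ⟨H10.mono sB mr, nr⟩)).trans_lt ?_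
    rw [ENNReal.ofReal_lt_ofReal_iff_of_nonneg (by positivity), er, hs]
    nlinarith
  · refine lt_of_lt_of_le ?_ (LS_two hN (dumb_open _ _ _) bd hC L hk)
    rw [ENNReal.ofReal_lt_ofReal_iff_of_nonneg (by positivity), ← hc, hs]
    nlinarith

theorem many (hN : 2 ≤ N) {q : ℝ} (hq : 2 < q) (hqN : ((N : ℝ) - 2) * q < 2 * N) :
    ∃ Ω : Set (E N), IsOpen Ω ∧ Bornology.IsBounded Ω ∧ IsConnected Ω ∧
      ¬ BddAbove {lam | ∃ p ∈ Sph Ω q, IsEigen Ω q lam p ∧ ∀ᵐ x, 0 ≤ p.1 x} := by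
  obtain ⟨e, he⟩ := exists_e hN
  have hq1 : 1 ≤ q := by linarith
  have bd : Bornology.IsBounded (ball (0 : E N) 1) := isBounded_ball
  obtain ⟨C, hC⟩ := exists_sob hN bd hq1 hqN.le
  have C0 := hC.pos
  set s : ℕ → ℝ := fun i => -(1 / ((i : ℝ) + 2)) with hs
  have s0 : ∀ i, s i < 0 := fun i => by simp only [hs]; exact neg_neg_of_pos (by positivity)
  have s1 : ∀ i, -1 < s i := fun i => by
    simp only [hs]; rw [neg_lt_neg_iff, div_lt_one (by positivity)]; linarith [Nat.cast_nonneg (α := ℝ) i]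
  have sm : StrictMono s := fun i j h => by
    simp only [hs]
    exact neg_lt_neg (one_div_lt_one_div_of_lt (by positivity) (by exact_mod_cast (by omega)))
  have st : Tendsto s atTop (𝓝 0) := by
    have := ((tendsto_one_div_add_atTop_nhds_zero_nat (𝕜 := ℝ)).comp (tendsto_add_atTop_nat 1)).neg
    rw [neg_zero] at this
    refine this.congr fun i => ?_
    simp only [hs, Function.comp_apply]; push_cast; ring
  have cl : Continuous fun x : E N => inner ℝ e x := by fun_prop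
  have ie : ∀ t : ℝ, inner ℝ e (t • e) = t := fun t => by
    rw [inner_smul_right, real_inner_self_eq_norm_sq, he]; ring
  have be : ∀ t : ℝ, -1 < t → t < 0 → t • e ∈ ball (0 : E N) 1 := fun t a b => by
    rw [mem_ball_zero_iff, norm_smul, he, Real.norm_eq_abs, abs_of_neg b]; linarith
  set R : ℕ → Set (E N) := fun i => ball 0 1 ∩ {x | s i < inner ℝ e x ∧ inner ℝ e x < s (i + 1)}
  have oR : ∀ i, IsOpen (R i) := fun i => isOpen_ball.inter
    ((isOpen_lt continuous_const cl).inter (isOpen_lt cl continuous_const))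
  have nR : ∀ i, (R i).Nonempty := fun i => by
    have := sm (Nat.lt_succ_self i)
    refine ⟨((s i + s (i + 1)) / 2) • e, be _ (by linarith [s1 i, s1 (i + 1)])
      (by linarith [s0 i, s0 (i + 1)]), ?_⟩
    simp only [mem_ofPred_eq, ie]; constructor <;> linarith
  have mR := fun i => exists_min hN (oR i) (bd.subset inter_subset_left) (nR i) hq1 hqN
  choose ε ε0 H using fun i => room hN bd hq hqN (s i • e) (mR i).1
    (by positivity : 0 < (C ^ 2)⁻¹) (σ := 1 / 2) (by norm_num)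
  set Ω : Set (E N) := {x | x ∈ ball 0 1 ∧ inner ℝ e x < 0 ∧
    ∀ i, inner ℝ e x = s i → x ∈ ball (s i • e) (ε i)} with hΩ
  have sub : Ω ⊆ ball 0 1 := fun x hx => hx.1
  have oΩ : IsOpen Ω := by
    refine isOpen_iff_mem_nhds.mpr fun x hx => ?_
    obtain ⟨n, hn⟩ := eventually_atTop.mp (st.eventually (lt_mem_nhds
      (show inner ℝ e x / 2 < 0 by linarith [hx.2.1])))
    have v1 : ∀ᶠ y in 𝓝 x, inner ℝ e y < inner ℝ e x / 2 :=
      cl.continuousAt.eventually (gt_mem_nhds (by linarith [hx.2.1]))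
    have v2 : ∀ i, ∀ᶠ y in 𝓝 x, inner ℝ e y = s i → y ∈ ball (s i • e) (ε i) := fun i => by
      by_cases h : inner ℝ e x = s i
      · filter_upwards [isOpen_ball.mem_nhds (hx.2.2 i h)] with y hy _ using hy
      · filter_upwards [cl.continuousAt.eventually_ne h] with y hy hy' using (hy hy').elim
    filter_upwards [isOpen_ball.mem_nhds hx.1, v1, (Finset.range n).eventually_all.mpr
      fun i _ => v2 i] with y a b c
    refine ⟨a, by linarith [hx.2.1], fun i hi => ?_⟩
    rcases lt_or_ge i n with h | h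
    · exact c i (Finset.mem_range.mpr h) hi
    · linarith [hn i h]
  have ax : ∀ t : ℝ, -1 < t → t < 0 → t • e ∈ Ω := fun t a b =>
    ⟨be t a b, by rwa [ie], fun i hi => by rw [ie] at hi; rw [hi]; exact mem_ball_self (ε0 i)⟩
  have conn : IsConnected Ω := by
    refine IsPathConnected.isConnected ⟨(-1 / 2 : ℝ) • e, ax _ (by norm_num) (by norm_num),
      fun {x} hx => ?_⟩
    have h1 : -1 < inner ℝ e x := by
      have := abs_real_inner_le_norm e x
      rw [he, one_mul] at this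
      linarith [(abs_le.mp this).1, mem_ball_zero_iff.mp hx.1]
    refine (JoinedIn.of_segment_subset (y := inner ℝ e x • e) ?_).trans
      (JoinedIn.of_segment_subset ?_)
    · rintro _ ⟨a, b, ha, hb, hab, rfl⟩
      rw [smul_smul, smul_smul, ← add_smul]
      refine ax _ ?_ ?_ <;> nlinarith [hx.2.1]
    · intro y hy
      have h2 : inner ℝ e y = inner ℝ e x := by
        obtain ⟨a, b, ha, hb, hab, rfl⟩ := hy
        rw [inner_add_right, inner_smul_right, inner_smul_right e x, ie, ← add_mul, hab, one_mul]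
      refine ⟨(convex_ball _ _).segment_subset (be _ h1 hx.2.1) hx.1 hy, h2 ▸ hx.2.1,
        fun i hi => (convex_ball _ _).segment_subset ?_ (hx.2.2 i (h2 ▸ hi)) hy⟩
      rw [← h2, hi]; exact mem_ball_self (ε0 i)
  refine ⟨Ω, oΩ, bd.subset sub, conn, ?_⟩
  rintro ⟨M, hM⟩
  obtain ⟨δ, δ0, hδ⟩ := small_nf hN bd hq1 hqN (κ := (2 * |M| + 1)⁻¹) (by positivity)
  have tm := tendsto_measure_iInter_atTop (μ := (volume : Measure (E N)))
    (s := fun i => Ω ∩ {x | s i < inner ℝ e x})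
    (fun i => (oΩ.inter (isOpen_lt continuous_const cl)).measurableSet.nullMeasurableSet)
    (fun i j h => inter_subset_inter_right _ fun x hx => (sm.monotone h).trans_lt hx)
    ⟨0, (bd.subset (inter_subset_left.trans sub)).measure_lt_top.ne⟩
  have emp : ⋂ i, Ω ∩ {x | s i < inner ℝ e x} = ∅ := by
    refine eq_empty_of_forall_notMem fun x hx => ?_
    rw [mem_iInter] at hx
    exact absurd (le_of_tendsto' st fun i => le_of_lt (hx i).2) (not_le.mpr (hx 0).1.2.1)
  rw [emp, measure_empty] at tm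
  obtain ⟨i, hi⟩ := (tm.eventually (gt_mem_nhds (ENNReal.ofReal_pos.mpr δ0))).exists
  have oU : IsOpen {x : E N | s i < inner ℝ e x} := isOpen_lt continuous_const cl
  have oV : IsOpen {x : E N | inner ℝ e x < s i} := isOpen_lt cl continuous_const
  have RA : R i ⊆ Ω ∩ {x | s i < inner ℝ e x} := fun x hx =>
    ⟨⟨hx.1, hx.2.2.trans (s0 _), fun j hj => by
      have a := sm.lt_iff_lt.mp (hj ▸ hx.2.1)
      have b := sm.lt_iff_lt.mp (hj ▸ hx.2.2)
      omega⟩, hx.2.1⟩
  obtain ⟨a0, lA, p1, m1, n1, e1⟩ := exists_min hN (oΩ.inter oU)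
    (bd.subset (inter_subset_left.trans sub)) ((nR i).mono RA) hq1 hqN
  obtain ⟨p, p0, p2, p3, p4, -⟩ := H i Ω _ _ _ (Ω ∩ {x | inner ℝ e x < s i}) sub oΩ oU oV
    (disjoint_left.mpr fun x (h1 : s i < _) (h2 : _ < s i) => lt_asymm h1 h2) (oΩ.inter oU)
    (oΩ.inter oV) inter_subset_left inter_subset_left ((nR i).mono RA) inter_subset_right
    inter_subset_right (fun x hx h => by
      rcases lt_trichotomy (s i) (inner ℝ e x) with h1 | h1 | h1
      · exact Or.inl ⟨hx, h1⟩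
      · exact (h (hx.2.2 i h1.symm)).elim
      · exact Or.inr ⟨hx, h1⟩)
    (by
      obtain ⟨r, mr, nr, er⟩ := (mR i).2.2
      simpa [nr, er] using lA r (H10.mono RA mr))
    (hC.low.mono (inter_subset_left.trans sub))
  have k1 := hM ⟨p, p0, p2, p3⟩
  have k2 := hδ _ hi.le p1 (H10.mono (inter_subset_left.trans sub) m1)
  have k3 : nf q (Ω ∩ {x | s i < inner ℝ e x}) (fun t => t) p1.1 = 1 := by
    rw [← n1, ← nf_ind (oΩ.inter oU).measurableSet rfl]
    refine nf_congr ?_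
    filter_upwards [H10.zero_off (oΩ.inter oU).measurableSet m1] with w hw
    by_cases h : w ∈ Ω ∩ {x | s i < inner ℝ e x}
    · exact indicator_of_mem h _
    · rw [indicator_of_notMem h, hw h]
  rw [k3, le_inv_mul_iff₀ (by positivity), mul_one] at k2
  rw [← e1] at p4
  nlinarith [le_abs_self M, abs_nonneg M]

end Pool.Agent.H92.Q
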