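import Pool.Agent.H92.Q6

open MeasureTheory Filter Topology Set Metric
open scoped ENNReal NNReal

namespace Pool.Agent.H92.Q

variable {N : ℕ}

theorem fatou {α : Type*} [MeasurableSpace α] {μ : Measure α} {f : ℕ → α → ℝ} {g : α → ℝ}
    (hi : ∀ n, Integrable (f n) μ) (h0 : ∀ n, ∀ᵐ x ∂μ, 0 ≤ f n x)
    (hl : ∀ᵐ x ∂μ, Tendsto (fun n => f n x) atTop (𝓝 (g x))) {b : ℕ → ℝ} {c : ℝ}
    (hb : ∀ n, ∫ x, f n x ∂μ ≤ b n) (hc : Tendsto b atTop (𝓝 c)) :
    Integrable g μ ∧ ∫ x, g x ∂μ ≤ c := by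
  have g0 : ∀ᵐ x ∂μ, 0 ≤ g x := by
    filter_upwards [hl, ae_all_iff.mpr h0] with x a b using ge_of_tendsto' a b
  have gm : AEStronglyMeasurable g μ := aestronglyMeasurable_of_tendsto_ae atTop (fun n => (hi n).1) hl
  have c0 : 0 ≤ c := ge_of_tendsto' hc fun n => (integral_nonneg_of_ae (h0 n)).trans (hb n)
  have k : ∫⁻ x, ENNReal.ofReal (g x) ∂μ ≤ ENNReal.ofReal c := by
    have := lintegral_liminf_le' (μ := μ) (f := fun n x => ENNReal.ofReal (f n x)) (u := atTop)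
      fun n => (hi n).1.aemeasurable.ennreal_ofReal
    rw [lintegral_congr_ae (g := fun x => ENNReal.ofReal (g x)) (by
      filter_upwards [hl] with x hx using (ENNReal.tendsto_ofReal hx).liminf_eq)] at this
    refine this.trans ((liminf_le_liminf (Eventually.of_forall fun n => ?_)).trans
      (ENNReal.tendsto_ofReal hc).liminf_eq.le)
    rw [← ofReal_integral_eq_lintegral_ofReal (hi n) (h0 n)]
    exact ENNReal.ofReal_le_ofReal (hb n)
  have gi : Integrable g μ := ⟨gm, (hasFiniteIntegral_iff_ofReal g0).mpr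
    (k.trans_lt ENNReal.ofReal_lt_top)⟩
  rw [← ofReal_integral_eq_lintegral_ofReal gi g0, ENNReal.ofReal_le_ofReal_iff c0] at k
  exact ⟨gi, k⟩

theorem approx {S : Set (P N)} {p : P N} (hp : p ∈ closure S) : ∃ r : ℕ → P N, (∀ n, r n ∈ S) ∧
    Tendsto (fun n => (r n).2) atTop (𝓝 p.2) ∧
    ∀ᵐ x, Tendsto (fun n => (r n).1 x) atTop (𝓝 (p.1 x)) := by
  obtain ⟨r, hr, hlim⟩ := mem_closure_iff_seq_limit.mp hp
  obtain ⟨l, hl, h⟩ := (tendstoInMeasure_of_tendsto_Lp
    ((continuous_fst.tendsto p).comp hlim)).exists_seq_tendsto_ae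
  exact ⟨fun n => r (l n), fun n => hr _,
    ((continuous_snd.tendsto p).comp hlim).comp hl.tendsto_atTop, h⟩

theorem approx' {Ω : Set (E N)} {p : P N} (hp : p ∈ closure (TPn Ω)) : ∃ φ : ℕ → E N → ℝ,
    (∀ n, Test Ω (φ n)) ∧ (∀ n x, 0 ≤ φ n x) ∧
    Tendsto (fun n => ∫ x, ‖gradient (φ n) x - p.2 x‖ ^ 2) atTop (𝓝 0) ∧
    ∀ᵐ x, Tendsto (fun n => φ n x) atTop (𝓝 (p.1 x)) := by
  obtain ⟨r, hr, h1, h2⟩ := approx hp
  choose φ hφ h0 e1 e2 using hr
  refine ⟨φ, hφ, h0, ?_, ?_⟩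
  · have := (tendsto_iff_norm_sub_tendsto_zero.mp h1).pow 2
    rw [zero_pow two_ne_zero] at this
    refine this.congr fun n => ?_
    rw [← Prod.snd_sub, ← energy_eq, energy]
    refine integral_congr_ae ?_
    filter_upwards [Lp.coeFn_sub (r n).2 p.2, e2 n] with x a b
    rw [Prod.snd_sub, a, Pi.sub_apply, b]
  · filter_upwards [h2, ae_all_iff.mpr e1] with x a b
    simpa only [b] using a

theorem ext_weight {Ω : Set (E N)} {W : E N → ℝ} (h0 : ∀ x, 0 ≤ W x) {C : ℝ}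
    (h : ∀ φ, Test Ω φ → Integrable (fun x => W x * φ x ^ 2) ∧
      ∫ x, W x * φ x ^ 2 ≤ C * ∫ x, ‖gradient φ x‖ ^ 2) {p : P N} (hp : p ∈ H10 Ω) :
    Integrable (fun x => W x * p.1 x ^ 2) ∧ ∫ x, W x * p.1 x ^ 2 ≤ C * ‖p.2‖ ^ 2 := by
  obtain ⟨r, hr, h1, h2⟩ := approx hp
  choose φ hφ e1 e2 using hr
  refine fatou (f := fun n x => W x * φ n x ^ 2) (fun n => (h _ (hφ n)).1)
    (fun n => Eventually.of_forall fun x => mul_nonneg (h0 x) (sq_nonneg _)) ?_
    (b := fun n => C * ‖(r n).2‖ ^ 2) (fun n => ?_) ((h1.norm.pow 2).const_mul C)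
  · filter_upwards [h2, ae_all_iff.mpr e1] with x a b
    simpa only [b] using (a.pow 2).const_mul (W x)
  · rw [norm2_of_ae (e2 n)]; exact (h _ (hφ n)).2

/-- the nonlinearity -/
noncomputable def gq (q t : ℝ) : ℝ := |t| ^ (q - 2) * t

theorem abs_gq {q : ℝ} (hq : 1 < q) (t : ℝ) : |gq q t| = |t| ^ (q - 1) := by
  rw [gq, abs_mul, abs_of_nonneg (by positivity : 0 ≤ |t| ^ (q - 2)),
    ← Real.rpow_add_one' (abs_nonneg _) (by linarith)]
  congr 1; ring

theorem gq_of_nonneg {q t : ℝ} (hq : 1 < q) (ht : 0 ≤ t) : gq q t = t ^ (q - 1) := by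
  rw [← abs_of_nonneg (show 0 ≤ gq q t by unfold gq; positivity), abs_gq hq, abs_of_nonneg ht]

theorem gq_mul (q a b : ℝ) : gq q (a * b) = gq q a * gq q b := by
  unfold gq; rw [abs_mul, Real.mul_rpow (abs_nonneg _) (abs_nonneg _)]; ring

theorem gq_self {q : ℝ} (hq : 1 < q) (t : ℝ) : gq q t * t = |t| ^ q := by
  rw [← abs_of_nonneg (show 0 ≤ gq q t * t by
    rw [gq, mul_assoc]; exact mul_nonneg (by positivity) (mul_self_nonneg _)), abs_mul, abs_gq hq,
    ← Real.rpow_add_one' (abs_nonneg _) (by linarith)]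
  congr 1; ring

theorem gq_meas (q : ℝ) : Measurable (gq q) := by unfold gq; fun_prop

theorem gq_memLp {Ω : Set (E N)} (ho : IsOpen Ω) (hb : Bornology.IsBounded Ω) {q : ℝ} (hq : 1 < q)
    (hq2 : q < 2) {p : P N} (hp : p ∈ H10 Ω) : MemLp (fun x => gq q (p.1 x)) 2 volume := by
  refine ((memLp_indicator_const 2 ho.measurableSet (1 : ℝ) (Or.inr hb.measure_lt_top.ne)).add
    (Lp.memLp p.1).abs).of_le
    ((gq_meas q).comp_aemeasurable (Lp.aestronglyMeasurable _).aemeasurable).aestronglyMeasurable ?_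
  filter_upwards [H10.zero_off ho.measurableSet hp] with x hx
  rw [Real.norm_eq_abs, Real.norm_eq_abs, abs_gq hq]
  refine le_trans ?_ (le_abs_self _)
  by_cases h : x ∈ Ω
  · simp only [Pi.add_apply, indicator_of_mem h, Pi.abs_apply]
    rcases le_total |p.1 x| 1 with h1 | h1
    · linarith [Real.rpow_le_one (abs_nonneg _) h1 (by linarith : 0 ≤ q - 1), abs_nonneg (p.1 x)]
    · linarith [Real.rpow_le_self_of_one_le h1 (by linarith : q - 1 ≤ 1)]
  · simp [indicator_of_notMem h, hx h, Real.zero_rpow (by linarith : q - 1 ≠ 0)]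

/-- weak solutions of the Lane-Emden equation with coefficient c -/
def Sol (Ω : Set (E N)) (q c : ℝ) (p : P N) : Prop :=
  p ∈ H10 Ω ∧ ∀ r ∈ H10 Ω, inner ℝ p.2 r.2 = c * ∫ x, gq q (p.1 x) * r.1 x

theorem IsEigen.sol {Ω : Set (E N)} (ho : IsOpen Ω) (hb : Bornology.IsBounded Ω) {q lam : ℝ}
    (hq : 1 < q) (hq2 : q < 2) {p : P N} (h : IsEigen Ω q lam p) :
    Sol Ω q (lam * nq q p ^ (2 - q)) p := by
  have hm := gq_memLp ho hb hq hq2 h.1
  have e : ∀ r : P N, ∫ x, gq q (p.1 x) * r.1 x = inner ℝ (hm.toLp _) r.1 := fun r => by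
    rw [L2.inner_def]
    refine integral_congr_ae ?_
    filter_upwards [hm.coeFn_toLp] with x hx
    rw [hx]; simp [mul_comm]
  refine ⟨h.1, fun r hr => ?_⟩
  rw [e]
  refine (isClosed_eq (f := fun r : P N => inner ℝ p.2 r.2)
    (g := fun r : P N => lam * nq q p ^ (2 - q) * inner ℝ (hm.toLp _) r.1) (by fun_prop)
    (by fun_prop)).closure_subset_iff.mpr ?_ hr
  rintro r ⟨φ, hφ, e1, e2⟩
  have : r = tp φ := Prod.ext (Lp.ext (e1.trans hφ.tp1.symm)) (Lp.ext (e2.trans hφ.tp2.symm))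
  rw [mem_ofPred_eq, ← e, this, inner_tp hφ, h.2.2 φ hφ, nq, nf_univ]
  congr 1
  exact integral_congr_ae (by filter_upwards [hφ.tp1] with x hx; rw [hx, gq])

theorem Sol.test {Ω : Set (E N)} {q c : ℝ} {p : P N} (h : Sol Ω q c p) {φ : E N → ℝ}
    (hφ : Test Ω φ) : ∫ x, inner ℝ (p.2 x) (gradient φ x) = c * ∫ x, gq q (p.1 x) * φ x := by
  rw [← inner_tp hφ, h.2 _ hφ.tp_H]
  congr 1
  exact integral_congr_ae (by filter_upwards [hφ.tp1] with x hx; rw [hx])

/-- minimisers -/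
def IsMin1 (Ω : Set (E N)) (q : ℝ) (p : P N) : Prop :=
  p ∈ H10 Ω ∧ nq q p = 1 ∧ ‖p.2‖ ^ 2 = lam1 Ω q

/-- the standing assumptions -/
structure St (Ω : Set (E N)) (q : ℝ) : Prop where
  hN : 2 ≤ N
  ho : IsOpen Ω
  hb : Bornology.IsBounded Ω
  hn : Ω.Nonempty
  q1 : 1 < q
  q2 : q < 2

theorem St.sub {Ω : Set (E N)} {q : ℝ} (h : St Ω q) : ((N : ℝ) - 2) * q < 2 * N := by
  have : (2 : ℝ) ≤ N := by exact_mod_cast h.hN
  nlinarith [h.q1, h.q2]

theorem St.min {Ω : Set (E N)} {q : ℝ} (h : St Ω q) :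
    0 < lam1 Ω q ∧ Low Ω q (lam1 Ω q) ∧ ∃ p, IsMin1 Ω q p :=
  exists_min h.hN h.ho h.hb h.hn h.q1.le h.sub

theorem St.sob {Ω : Set (E N)} {q : ℝ} (h : St Ω q) : ∃ C, Sob Ω q C :=
  exists_sob h.hN h.hb h.q1.le h.sub.le

theorem IsMin1.sol {Ω : Set (E N)} {q : ℝ} (h : St Ω q) {p : P N} (hp : IsMin1 Ω q p) :
    Sol Ω q (lam1 Ω q) p := by
  obtain ⟨C, hC⟩ := h.sob
  have := (eigen_of_min hC h.q1 (Φ := fun _ => 1) continuousOn_const hp.1 hp.2.1 one_pos
    fun r a b _ => by simpa [hp.2.2, b] using h.min.2.1 r a).sol h.ho h.hb h.q1 h.q2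
  simpa [hp.2.1, hp.2.2] using this

theorem IsMin1.abs {Ω : Set (E N)} {q : ℝ} (h : St Ω q) {p : P N} (hp : IsMin1 Ω q p) :
    ∃ w ∈ closure (TPn Ω), IsMin1 Ω q w ∧ ∀ᵐ x, w.1 x = |p.1 x| := by
  obtain ⟨w, a, b, c⟩ := abs_mem h.hN h.ho h.hb hp.1
  have m : w ∈ H10 Ω := closure_mono (TPn_sub Ω) a
  have n : nq q w = 1 := by
    rw [← hp.2.1]; exact nf_congr' (by filter_upwards [b] with x hx; rw [hx, abs_abs])
  exact ⟨w, a, ⟨m, n, le_antisymm (c.trans hp.2.2.le) (by simpa [n] using h.min.2.1 w m)⟩, b⟩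

theorem IsMin1.pos {Ω : Set (E N)} {q : ℝ} (h : St Ω q) {w : P N} (hw : IsMin1 Ω q w)
    (h0 : ∀ᵐ x, 0 ≤ w.1 x) : ∀ᵐ x, x ∈ Ω → 0 < w.1 x := by
  obtain ⟨C, hC⟩ := h.sob
  obtain ⟨l0, lo, -⟩ := h.min
  have q1 := h.q1
  have q2 := h.q2
  have q0 : 0 < q := by linarith
  have hZ : MeasurableSet {x | w.1 x = 0} :=
    (Lp.stronglyMeasurable w.1).measurable (measurableSet_singleton 0)
  have hi : ∀ {f : E N → ℝ}, MemLp f (ENNReal.ofReal q) volume → Integrable fun x => |f x| ^ q :=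
    fun hf => by
      simpa [ENNReal.toReal_ofReal q0.le] using
        hf.integrable_norm_rpow (by simpa using q0) ENNReal.ofReal_ne_top
  have key : ∀ φ, Test Ω φ → (∀ x, 0 ≤ φ x) → ∀ᵐ x, w.1 x = 0 → φ x = 0 := fun φ hφ φ0 => by
    have i1 := (hi (hφ.memLp _)).indicator hZ
    have i2 : Integrable fun x => gq q (w.1 x) * φ x :=
      (deriv_mass q1 (hC.memLp hw.1) (hφ.memLp _)).1
    set c := ∫ x, {x | w.1 x = 0}.indicator (fun x => |φ x| ^ q) x with hc
    set I := ∫ x, gq q (w.1 x) * φ x with hI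
    have n1 : ∀ x, 0 ≤ {x | w.1 x = 0}.indicator (fun x => |φ x| ^ q) x := fun x =>
      indicator_nonneg (fun _ _ => by positivity) x
    have c0 : 0 ≤ c := integral_nonneg n1
    have I0 : 0 ≤ I := integral_nonneg_of_ae (by
      filter_upwards [h0] with x hx
      rw [gq_of_nonneg q1 hx]; exact mul_nonneg (by positivity) (φ0 x))
    have k : ∀ t : ℝ, 0 < t → lam1 Ω q * (2 / q) * c ≤ t ^ (2 - q) * ‖(tp φ).2‖ ^ 2 := fun t ht => by
      have m := H10.add hw.1 (H10.smul hφ.tp_H t)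
      have k1 : 1 + (q * t * I + t ^ q * c) ≤ nq q (w + t • tp φ) ^ q := by
        have e : (1 : ℝ) = ∫ x, |w.1 x| ^ q := by rw [← hC.nq_pow hw.1, hw.2.1, Real.one_rpow]
        rw [hC.nq_pow m, e, ← integral_const_mul, ← integral_const_mul,
          ← integral_add (i2.const_mul _) (i1.const_mul _),
          ← integral_add (hi (hC.memLp hw.1)) ((i2.const_mul _).fun_add (i1.const_mul _))]
        refine integral_mono_ae ((hi (hC.memLp hw.1)).add ((i2.const_mul _).add (i1.const_mul _)))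
          (hi (hC.memLp m)) ?_
        filter_upwards [Lp.coeFn_add w.1 (t • (tp φ).1), Lp.coeFn_smul t (tp φ).1, hφ.tp1, h0]
          with x a b c d
        simp only [Prod.fst_add, Prod.smul_fst]
        rw [a, Pi.add_apply, b, Pi.smul_apply, c, smul_eq_mul, gq_of_nonneg q1 d]
        have := φ0 x
        rcases d.eq_or_lt with d | d
        · rw [indicator_of_mem (show x ∈ {x | w.1 x = 0} from d.symm), ← d,
            Real.zero_rpow (by linarith), zero_add, abs_mul, Real.mul_rpow (abs_nonneg _) (abs_nonneg _),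
            abs_of_pos ht]
          simp [q0.ne']
        · rw [indicator_of_notMem (show x ∉ {x | w.1 x = 0} from d.ne'), abs_of_pos d,
            abs_of_pos (by positivity), show w.1 x + t * φ x = w.1 x * (1 + t * φ x / w.1 x) by
              field_simp, Real.mul_rpow d.le (by positivity), Real.rpow_sub_one d.ne']
          have := mul_le_mul_of_nonneg_left (one_add_mul_self_le_rpow_one_add
            (s := t * φ x / w.1 x) (le_trans (by norm_num) (by positivity : 0 ≤ t * φ x / w.1 x))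
              q1.le)
            (Real.rpow_nonneg d.le q)
          refine le_trans (le_of_eq ?_) this
          field_simp; ring
      have k2 : 1 + 2 / q * (q * t * I + t ^ q * c) ≤ nq q (w + t • tp φ) ^ 2 := by
        refine (one_add_mul_self_le_rpow_one_add (le_trans (by norm_num)
          (by positivity : 0 ≤ q * t * I + t ^ q * c)) (by rw [le_div_iff₀ q0]; linarith)).trans ?_
        refine (Real.rpow_le_rpow (by positivity) k1 (by positivity)).trans_eq ?_
        rw [← Real.rpow_mul (nf_nonneg _ _ _ _), mul_div_cancel₀ _ q0.ne', Real.rpow_two]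
      have k3 := (mul_le_mul_of_nonneg_left k2 l0.le).trans (lo _ m)
      rw [Prod.snd_add, norm_add_sq_real, hw.2.2, Prod.smul_snd, inner_smul_right, inner_tp hφ,
        (hw.sol h).test hφ, ← hI, norm_smul, mul_pow, Real.norm_eq_abs, sq_abs] at k3
      have e : t ^ 2 = t ^ (2 - q) * t ^ q := by
        rw [← Real.rpow_add ht]; simp
      refine le_of_mul_le_mul_right ?_ (by positivity : 0 < t ^ q)
      have e2 : 2 / q * (q * t * I) = 2 * t * I := by field_simp
      rw [mul_add (2 / q), e2, e] at k3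
      linarith
    have t0 : Tendsto (fun t : ℝ => t ^ (2 - q) * ‖(tp φ).2‖ ^ 2) (𝓝[>] 0) (𝓝 0) := by
      have c : ContinuousAt (fun t : ℝ => t ^ (2 - q)) 0 :=
        Real.continuousAt_rpow_const _ _ (Or.inr (by linarith))
      have := (c.tendsto.mul_const (‖(tp φ).2‖ ^ 2)).mono_left (nhdsWithin_le_nhds (s := Ioi 0))
      rwa [Real.zero_rpow (by linarith), zero_mul] at this
    have k4 := ge_of_tendsto t0 (eventually_nhdsWithin_of_forall k)
    have k5 : c = 0 := le_antisymm (nonpos_of_mul_nonpos_right k4 (by positivity)) c0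
    filter_upwards [(integral_eq_zero_iff_of_nonneg n1 i1).mp k5] with x hx hx'
    rw [indicator_of_mem (show x ∈ {x | w.1 x = 0} from hx')] at hx
    simpa [q0.ne'] using hx
  have : volume (Ω ∩ {x | w.1 x = 0}) = 0 := by
    refine measure_null_of_locally_null _ fun x hx => ?_
    obtain ⟨φ, a, b, c⟩ := exists_bump h.ho hx.1
    refine ⟨{y | φ y ≠ 0} ∩ {x | w.1 x = 0}, inter_mem (mem_nhdsWithin_of_mem_nhds
      (a.cont.continuousAt.eventually_ne (by rw [c]; norm_num)))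
      (mem_of_superset self_mem_nhdsWithin inter_subset_right), ?_⟩
    refine measure_mono_null (fun y hy => ?_) (ae_iff.mp (key φ a b))
    exact fun h' => hy.1 (h' hy.2)
  filter_upwards [measure_eq_zero_iff_ae_notMem.mp this, h0] with x a b c
  exact b.lt_of_ne fun d => a ⟨c, d.symm⟩

theorem Test.int_inner {Ω : Set (E N)} {φ : E N → ℝ} (h : Test Ω φ) (w : P N) :
    Integrable fun x => inner ℝ (w.2 x) (gradient φ x) := by
  refine (L2.integrable_inner (𝕜 := ℝ) w.2 (tp φ).2).congr ?_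
  filter_upwards [h.tp2] with x hx
  rw [hx]

theorem picone {Ω : Set (E N)} {q c : ℝ} (h : St Ω q) {w : P N} (hw : w ∈ closure (TPn Ω))
    (hs : Sol Ω q c w) (c0 : 0 ≤ c) (hp : ∀ᵐ x, x ∈ Ω → 0 < w.1 x) {p : P N} (m : p ∈ H10 Ω) :
    Integrable (fun x => c * |w.1 x| ^ (q - 2) * p.1 x ^ 2) ∧
      ∫ x, c * |w.1 x| ^ (q - 2) * p.1 x ^ 2 ≤ ‖p.2‖ ^ 2 := by
  rw [← one_mul (‖p.2‖ ^ 2)]
  refine ext_weight (fun x => by positivity) (fun φ hφ => ?_) m
  obtain ⟨ψ, hψ, ψ0, t1, t2⟩ := approx' hw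
  have w0 := TPn_nonneg hw
  obtain ⟨M, hM⟩ := hφ.2.1.exists_bound_of_continuous hφ.cont
  set d : ℕ → ℝ := fun n => ∫ x, ‖gradient (ψ n) x - w.2 x‖ ^ 2
  have d0 : ∀ n, 0 ≤ d n := fun n => integral_nonneg fun x => by positivity
  set δ : ℕ → ℝ := fun n => (d n + 1 / ((n : ℝ) + 1)) ^ (6⁻¹ : ℝ)
  have δ0 : ∀ n, 0 < δ n := fun n => by have := d0 n; positivity
  have δt : Tendsto δ atTop (𝓝 0) := by
    have := (t1.add tendsto_one_div_add_atTop_nhds_zero_nat).rpow_const (p := 6⁻¹)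
      (Or.inr (by norm_num))
    rwa [add_zero, Real.zero_rpow (by norm_num)] at this
  have δ6 : ∀ n, d n ≤ δ n ^ 6 := fun n => by
    have : δ n ^ 6 = d n + 1 / ((n : ℝ) + 1) := by
      have := d0 n
      simpa only [Nat.cast_ofNat] using Real.rpow_inv_natCast_pow (n := 6)
        (x := d n + 1 / ((n : ℝ) + 1)) (by positivity) (by norm_num)
    rw [this]; simp; positivity
  have pos : ∀ n x, 0 < ψ n x + δ n := fun n x => by have := ψ0 n x; have := δ0 n; positivity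
  have T : ∀ n, Test Ω fun x => φ x * φ x * (ψ n x + δ n)⁻¹ := fun n =>
    hφ.of_supp ((hφ.1.mul hφ.1).mul (((hψ n).1.add contDiff_const).inv fun x => (pos n x).ne'))
      fun x hx => by simp [hx]
  have gm := gq_memLp h.ho h.hb h.q1 h.q2 hs.1
  have iG := (Lp.memLp w.2).integrable_norm_pow two_ne_zero
  refine fatou (f := fun n x => c * (gq q (w.1 x) * (φ x * φ x * (ψ n x + δ n)⁻¹)))
    (fun n => (gm.integrable_mul ((T n).memLp 2)).const_mul c) (fun n => ?_) ?_
    (b := fun n => (∫ x, ‖gradient φ x‖ ^ 2) + M ^ 2 * (δ n * ((∫ x, ‖w.2 x‖ ^ 2) + 1)))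
    (fun n => ?_) (by simpa using ((δt.mul_const _).const_mul (M ^ 2)).const_add _)
  · filter_upwards [w0] with x hx
    rw [gq_of_nonneg h.q1 hx]
    have := pos n x
    have := mul_self_nonneg (φ x)
    positivity
  · filter_upwards [t2, hp] with x a b
    by_cases hx : x ∈ Ω
    · have b := b hx
      have := ((((a.add δt).inv₀ (by simpa using b.ne')).const_mul (φ x * φ x)).const_mul
        (gq q (w.1 x))).const_mul c
      convert this using 2
      rw [gq]; field_simp; simp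
    · simp [hφ.zero_off hx]
  · have id : Integrable fun x => ‖gradient (ψ n) x - w.2 x‖ ^ 2 :=
      (((hψ n).memLp_grad 2).sub (Lp.memLp w.2)).integrable_norm_pow two_ne_zero
    have δn := δ0 n
    rw [integral_const_mul, ← hs.test (T n)]
    refine le_trans (integral_mono_ae (g := fun x => ‖gradient φ x‖ ^ 2 + M ^ 2 *
      (δ n * ‖w.2 x‖ ^ 2 + (δ n ^ 5)⁻¹ * ‖gradient (ψ n) x - w.2 x‖ ^ 2)) ?_
      (hφ.int_sq.add (((iG.const_mul _).add (id.const_mul _)).const_mul _))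
      (Eventually.of_forall fun x => ?_)) ?_
    · exact (T n).int_inner w
    · have hx := pos n x
      simp only
      rw [grad_mul ((hφ.diff x).fun_mul (hφ.diff x))
        ((((hψ n).diff x).add_const _).fun_inv hx.ne'), grad_mul (hφ.diff x) (hφ.diff x),
        grad_comp (f := fun t => (t + δ n)⁻¹) ((hψ n).diff x)
          (((hasDerivAt_id _).add_const _).fun_inv hx.ne')]
      have e : gradient (ψ n) x = w.2 x + (gradient (ψ n) x - w.2 x) := by simp
      set D := gradient (ψ n) x - w.2 x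
      rw [e]
      simp only [inner_add_right, inner_smul_right, real_inner_self_eq_norm_sq, _root_.id]
      set k := φ x * (ψ n x + δ n)⁻¹ with hk
      have e2 : ∀ A B C : ℝ, φ x * φ x * (-1 / (ψ n x + δ n) ^ 2 * (A + B)) +
          (ψ n x + δ n)⁻¹ * (φ x * C + φ x * C) = -(k ^ 2 * A) - k ^ 2 * B + 2 * k * C :=
        fun A B C => by rw [hk]; field_simp; ring
      rw [e2]
      have b1 : 2 * k * inner ℝ (w.2 x) (gradient φ x) ≤ k ^ 2 * ‖w.2 x‖ ^ 2 +
          ‖gradient φ x‖ ^ 2 := by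
        have := norm_sub_sq_real (k • w.2 x) (gradient φ x)
        rw [inner_smul_left, norm_smul, mul_pow, Real.norm_eq_abs, sq_abs, conj_trivial] at this
        nlinarith [sq_nonneg ‖k • w.2 x - gradient φ x‖]
      have b2 : k ^ 2 ≤ M ^ 2 / δ n ^ 2 := by
        rw [hk, mul_pow, inv_pow, ← div_eq_mul_inv, ← sq_abs (φ x)]
        gcongr
        · exact hM x
        · linarith [ψ0 n x]
      have b3 : -inner ℝ (w.2 x) D ≤ δ n ^ 3 * ‖w.2 x‖ ^ 2 + (δ n ^ 3)⁻¹ * ‖D‖ ^ 2 := by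
        refine (neg_le_abs _).trans ((abs_real_inner_le_norm _ _).trans ?_)
        refine le_of_mul_le_mul_left ?_ (by positivity : 0 < δ n ^ 3)
        rw [mul_add, mul_inv_cancel_left₀ (by positivity)]
        nlinarith [sq_nonneg (δ n ^ 3 * ‖w.2 x‖ - ‖D‖), mul_nonneg (mul_nonneg
          (by positivity : 0 ≤ δ n ^ 3) (norm_nonneg (w.2 x))) (norm_nonneg D)]
      have b4 := (mul_le_mul_of_nonneg_left b3 (sq_nonneg k)).trans
        (mul_le_mul_of_nonneg_right b2 (by positivity))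
      have e3 : M ^ 2 / δ n ^ 2 * (δ n ^ 3 * ‖w.2 x‖ ^ 2 + (δ n ^ 3)⁻¹ * ‖D‖ ^ 2) =
          M ^ 2 * (δ n * ‖w.2 x‖ ^ 2 + (δ n ^ 5)⁻¹ * ‖D‖ ^ 2) := by field_simp
      linarith
    · rw [integral_add hφ.int_sq (((iG.const_mul _).fun_add (id.const_mul _)).const_mul _),
        integral_const_mul, integral_add (iG.const_mul _) (id.const_mul _), integral_const_mul,
        integral_const_mul, mul_add (δ n), mul_one]
      gcongr
      rw [inv_mul_le_iff₀ (by positivity)]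
      exact (δ6 n).trans_eq (by ring)

end Pool.Agent.H92.Q
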