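import Pool.Agent.H92.Q7

open MeasureTheory Filter Topology Set Metric
open scoped ENNReal NNReal

namespace Pool.Agent.H92.Q

variable {N : ℕ}

theorem le_of_div {I f g : E N → ℝ} (i : Integrable I ∧ ∫ x, I x = 0) (hf : Integrable f)
    (hg : Integrable g) (h : ∀ x, f x ≤ I x + g x) : ∫ x, f x ≤ ∫ x, g x := by
  have := integral_mono hf (i.1.add hg) h
  rwa [integral_add' i.1 hg, i.2, zero_add] at this

theorem sig_pos {c x : E N} {ρ : ℝ} (hρ : 0 < ρ) : 0 < ρ ^ 2 - ‖x - c‖ ^ 2 ↔ x ∈ ball c ρ := by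
  rw [mem_ball_iff_norm, sub_pos, sq_lt_sq₀ (norm_nonneg _) hρ.le]

theorem sig_deriv (ρ β t : ℝ) (h : 0 < ρ ^ 2 - t) :
    HasDerivAt (fun t => (ρ ^ 2 - t) ^ β) (-(β * (ρ ^ 2 - t) ^ (β - 1))) t :=
  (((hasDerivAt_id t).const_sub (ρ ^ 2)).rpow_const (p := β) (Or.inl h.ne')).congr_deriv
    (by simp)

theorem sig_smooth {c x : E N} {ρ : ℝ} (β : ℝ) (h : 0 < ρ ^ 2 - ‖x - c‖ ^ 2) :
    ContDiffAt ℝ (⊤ : ℕ∞) (fun x => (ρ ^ 2 - ‖x - c‖ ^ 2) ^ β) x :=
  (contDiff_const.sub (sq_smooth c)).contDiffAt.rpow_const_of_ne h.ne'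

theorem sub_sol (hN : 2 ≤ N) (c : E N) {ρ β lam q : ℝ} (hρ : 0 < ρ) (hβ : 1 < β) (hl : 0 < lam)
    (q1 : 1 < q) (q2 : q < 2) : ∃ κ : ℝ, 0 < κ ∧ ∀ ψ, Test (ball c ρ) ψ → (∀ x, 0 ≤ ψ x) →
      ∫ x, inner ℝ ((-(2 * κ * β * max (ρ ^ 2 - ‖x - c‖ ^ 2) 0 ^ (β - 1))) • (x - c))
        (gradient ψ x) ≤ lam * ∫ x, (κ * max (ρ ^ 2 - ‖x - c‖ ^ 2) 0 ^ β) ^ (q - 1) * ψ x := by
  have hN' : (2 : ℝ) ≤ N := by exact_mod_cast hN
  have β1 : 0 < β - 1 := by linarith
  set σ0 := min (ρ ^ 2 / 2) ((β - 1) * ρ ^ 2 / N) with hσ0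
  have σp : 0 < σ0 := lt_min (by positivity) (by positivity)
  set A := 2 * N * β * (ρ ^ 2) ^ (β - 1) with hA
  have A0 : 0 < A := by positivity
  set B := lam * (σ0 ^ β) ^ (q - 1) with hB
  have B0 : 0 < B := by positivity
  set κ := (B / A) ^ (2 - q)⁻¹ with hκ
  have κ0 : 0 < κ := by positivity
  have κe : κ * A = κ ^ (q - 1) * B := by
    have : κ ^ (2 - q) = B / A := Real.rpow_inv_rpow (by positivity) (by linarith)
    have h2 : κ = κ ^ (q - 1) * κ ^ (2 - q) := by
      rw [← Real.rpow_add κ0, show q - 1 + (2 - q) = 1 by ring, Real.rpow_one]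
    nth_rw 1 [h2]; rw [this]; field_simp
  refine ⟨κ, κ0, fun ψ h ψ0 => ?_⟩
  have off : ∀ x, x ∉ ball c ρ → x ∉ tsupport ψ := fun x hx h' => hx (h.2.2 h')
  have T : Test (ball c ρ) fun x => ψ x * (-(2 * κ * β) * (ρ ^ 2 - ‖x - c‖ ^ 2) ^ (β - 1)) := by
    refine h.of_supp (contDiff_iff_contDiffAt.mpr fun x => ?_) fun x hx => by simp [hx]
    by_cases hx : x ∈ ball c ρ
    · exact h.1.contDiffAt.mul (contDiffAt_const.mul (sig_smooth _ ((sig_pos hρ).mpr hx)))
    · refine (contDiffAt_const (c := 0)).congr_of_eventuallyEq ?_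
      filter_upwards [notMem_tsupport_iff_eventuallyEq.mp (off x hx)] with y hy
      simp [hy]
  have cψ := h.cont
  have cg := cont_grad h.cd1
  have cm : Continuous fun x : E N => max (ρ ^ 2 - ‖x - c‖ ^ 2) 0 := by fun_prop
  have i3 : Integrable fun x => (κ * max (ρ ^ 2 - ‖x - c‖ ^ 2) 0 ^ β) ^ (q - 1) * ψ x :=
    int_hcs h.2.1 (((continuous_const.mul (cm.rpow_const fun _ => Or.inr (by linarith))).rpow_const
      fun _ => Or.inr (by linarith)).mul cψ)
      fun x hx => by simp [image_eq_zero_of_notMem_tsupport hx]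
  rw [← integral_const_mul]
  refine le_of_div (div_zero T.cd1 T.2.1 c) (int_hcs h.2.1 (((continuous_const.mul
    (cm.rpow_const fun _ => Or.inr β1.le)).neg.smul (by fun_prop)).inner cg)
    fun x hx => by simp [grad_zero_off hx]) (i3.const_mul _) fun x => ?_
  by_cases hx : x ∈ ball c ρ
  swap
  · have := grad_zero_off (fun h' => hx (T.2.2 h'))
    simp only [this, grad_zero_off (off x hx), h.zero_off hx]; simp
  have sp := (sig_pos hρ).mpr hx
  obtain ⟨d1, g1⟩ := grad_rad (k := fun t => -(2 * κ * β) * (ρ ^ 2 - t) ^ (β - 1))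
    ((sig_deriv ρ (β - 1) _ sp).const_mul _)
  rw [grad_mul (h.diff x) d1, g1, max_eq_left sp.le]
  simp only [inner_add_left, inner_smul_left, real_inner_self_eq_norm_sq, conj_trivial]
  rw [real_inner_comm (x - c) (gradient ψ x)]
  set t := ‖x - c‖ ^ 2
  set σ := ρ ^ 2 - t with hσ
  have t0 : 0 ≤ t := by positivity
  have e : σ ^ (β - 1) = σ ^ (β - 1 - 1) * σ := by
    rw [← Real.rpow_add_one sp.ne']; congr 1; ring
  have key : κ * (2 * β * (N * σ ^ (β - 1) - 2 * (β - 1) * t * σ ^ (β - 1 - 1))) ≤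
      lam * (κ * σ ^ β) ^ (q - 1) := by
    rcases le_total σ σ0 with h1 | h1
    · refine le_trans (mul_nonpos_of_nonneg_of_nonpos κ0.le (mul_nonpos_of_nonneg_of_nonpos
        (by positivity) ?_)) (by positivity)
      have a1 : σ ≤ ρ ^ 2 / 2 := h1.trans (min_le_left _ _)
      have a2 : σ * N ≤ (β - 1) * ρ ^ 2 := (le_div_iff₀ (by linarith)).mp (h1.trans (min_le_right _ _))
      have a3 : N * σ - 2 * (β - 1) * t ≤ 0 := by nlinarith
      rw [e]
      nlinarith [Real.rpow_pos_of_pos sp (β - 1 - 1)]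
    · calc _ ≤ κ * A := by
            refine mul_le_mul_of_nonneg_left ?_ κ0.le
            have a1 : σ ^ (β - 1) ≤ (ρ ^ 2) ^ (β - 1) := by gcongr; linarith
            have a2 : 0 ≤ 2 * (β - 1) * t * σ ^ (β - 1 - 1) := by positivity
            have a3 := mul_le_mul_of_nonneg_left a1 (by positivity : (0 : ℝ) ≤ N)
            rw [hA]; nlinarith
        _ ≤ _ := by
            rw [κe, hB, Real.mul_rpow κ0.le (by positivity), mul_left_comm]
            gcongr
  nlinarith [mul_le_mul_of_nonneg_right key (ψ0 x)]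

theorem compare {Ω : Set (E N)} {q lam : ℝ} (h : St Ω q) {w : P N} (hw : w ∈ closure (TPn Ω))
    (hs : Sol Ω q lam w) (l0 : 0 < lam) (hp : ∀ᵐ x, x ∈ Ω → 0 < w.1 x) {c : E N} {ρ β : ℝ}
    (hρ : 0 < ρ) (hB : ball c ρ ⊆ Ω) (hβ : 1 < β) :
    ∃ κ : ℝ, 0 < κ ∧ ∀ᵐ x, x ∈ ball c ρ → κ * (ρ ^ 2 - ‖x - c‖ ^ 2) ^ β ≤ w.1 x := by
  have q1 := h.q1
  have q2 := h.q2
  obtain ⟨κ, κ0, H⟩ := sub_sol h.hN c hρ hβ l0 q1 q2
  obtain ⟨φ, hφ, φ0, t1, t2⟩ := approx' hw
  have w0 := TPn_nonneg hw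
  set s : E N → ℝ := fun x => κ * max (ρ ^ 2 - ‖x - c‖ ^ 2) 0 ^ β with hs'
  set S : E N → E N := fun x => (-(2 * κ * β * max (ρ ^ 2 - ‖x - c‖ ^ 2) 0 ^ (β - 1))) • (x - c)
  have cm : Continuous fun x : E N => max (ρ ^ 2 - ‖x - c‖ ^ 2) 0 := by fun_prop
  have cs : Continuous s := continuous_const.mul (cm.rpow_const fun _ => Or.inr (by linarith))
  have cS : Continuous S := (continuous_const.mul (cm.rpow_const fun _ =>
    Or.inr (by linarith))).neg.smul (by fun_prop)
  have s0 : ∀ x, 0 ≤ s x := fun x => by positivity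
  have soff : ∀ x, x ∉ ball c ρ → s x = 0 := fun x hx => by
    simp only [hs']
    rw [max_eq_right (not_lt.mp fun h => hx ((sig_pos hρ).mp h)), Real.zero_rpow (by linarith),
      mul_zero]
  have sin : ∀ x ∈ ball c ρ, s =ᶠ[𝓝 x] fun x => κ * (ρ ^ 2 - ‖x - c‖ ^ 2) ^ β := fun x hx => by
    filter_upwards [isOpen_ball.mem_nhds hx] with y hy
    simp only [hs']; rw [max_eq_left ((sig_pos hρ).mpr hy).le]
  have sc : HasCompactSupport s := HasCompactSupport.intro (isCompact_closedBall c ρ)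
    fun x hx => soff x fun h => hx (ball_subset_closedBall h)
  have e0 : ∀ n : ℕ, 0 < 1 / ((n : ℝ) + 1) := fun n => by positivity
  set ψ : ℕ → E N → ℝ := fun n x => tr (1 / ((n : ℝ) + 1)) (s x - φ n x) with hψ
  have z : ∀ (n : ℕ) x, s x < 1 / ((n : ℝ) + 1) → ψ n =ᶠ[𝓝 x] fun _ => 0 := fun n x hx => by
    filter_upwards [cs.continuousAt.eventually (gt_mem_nhds hx)] with y hy
    exact tr_zero (e0 n) (by linarith [φ0 n y])
  have sm : ∀ x ∈ ball c ρ, ContDiffAt ℝ (⊤ : ℕ∞) s x := fun x hx =>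
    (contDiffAt_const.mul (sig_smooth β ((sig_pos hρ).mpr hx))).congr_of_eventuallyEq (sin x hx)
  have T : ∀ n, Test (ball c ρ) (ψ n) := fun n => by
    have k : tsupport (ψ n) ⊆ ball c ρ := fun x hx => by_contra fun h' =>
      notMem_tsupport_iff_eventuallyEq.mpr (z n x (by rw [soff x h']; exact e0 n)) hx
    refine ⟨contDiff_iff_contDiffAt.mpr fun x => ?_, (isCompact_closedBall c ρ).of_isClosed_subset
      (isClosed_tsupport _) (k.trans ball_subset_closedBall), k⟩
    by_cases hx : x ∈ ball c ρ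
    · exact (tr_smooth _).contDiffAt.comp x ((sm x hx).sub (hφ n).1.contDiffAt)
    · exact contDiffAt_const.congr_of_eventuallyEq (z n x (by rw [soff x hx]; exact e0 n))
  have ψ0 : ∀ n x, 0 ≤ ψ n x := fun n x => tr_nonneg (e0 n) _
  have ψle : ∀ n x, ψ n x ≤ s x := fun n x =>
    (tr_le (e0 n) _).trans (max_le (by linarith [φ0 n x]) (s0 x))
  have g : ∀ n x, gradient (ψ n) x =
      tr' (1 / ((n : ℝ) + 1)) (s x - φ n x) • (S x - gradient (φ n) x) := fun n x => by
    by_cases hx : x ∈ ball c ρ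
    · have sp := (sig_pos hρ).mpr hx
      have d1 := (sm x hx).differentiableAt (by simp)
      rw [grad_comp (φ := fun x => s x - φ n x) (d1.fun_sub ((hφ n).diff x)) (tr_deriv _ _),
        grad_of (d1.hasFDerivAt.fun_sub ((hφ n).diff x).hasFDerivAt)
          (v := gradient s x - gradient (φ n) x) fun y => by simp [inner_sub_left],
        (sin x hx).gradient_eq, (grad_rad (k := fun t => κ * (ρ ^ 2 - t) ^ β)
          ((sig_deriv ρ β _ sp).const_mul κ)).2]
      simp only [S]; rw [max_eq_left sp.le]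
      congr 3; ring
    · rw [grad_zero_off fun h => hx ((T n).2.2 h), soff x hx,
        tr'_zero (e0 n) (by linarith [φ0 n x, e0 n]), zero_smul]
  set η := (2 - q) / 2 with hη
  have η0 : 0 < η := by rw [hη]; linarith
  have gm := gq_memLp h.ho h.hb q1 q2 hs.1
  have cq : Continuous fun x => s x ^ (q - 1) := cs.rpow_const fun _ => Or.inr (by linarith)
  have is : ∀ n, Integrable fun x => s x ^ (q - 1) * ψ n x := fun n =>
    int_hcs (T n).2.1 (cq.mul (T n).cont) fun x hx => by simp [image_eq_zero_of_notMem_tsupport hx]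
  have ig : ∀ n, Integrable fun x => gq q (w.1 x) * ψ n x := fun n =>
    gm.integrable_mul ((T n).memLp 2)
  set v : E N → ℝ := fun x => max (s x - w.1 x) 0 with hv
  have tv : ∀ᵐ x, Tendsto (fun n => ψ n x) atTop (𝓝 (v x)) := by
    filter_upwards [t2] with x hx
    have a : Tendsto (fun n => ψ n x - max (s x - φ n x) 0) atTop (𝓝 0) :=
      squeeze_zero_norm (fun n => (tr_close (e0 n) _).trans (by linarith [e0 n])) tend2
    simpa using a.add ((hx.const_sub (s x)).max (tendsto_const_nhds (x := 0)))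
  have bd : Integrable fun x => s x ^ (q - 1) * s x + |gq q (w.1 x)| * s x :=
    (int_hcs sc (cq.mul cs) fun x hx => by simp [image_eq_zero_of_notMem_tsupport hx]).add
      (gm.abs.integrable_mul (cs.memLp_of_hasCompactSupport (p := 2) sc))
  have bnd : ∀ (a : ℝ) x, 0 ≤ a → a ≤ s x → ‖(s x ^ (q - 1) - gq q (w.1 x)) * a‖ ≤
      s x ^ (q - 1) * s x + |gq q (w.1 x)| * s x := fun a x a0 a1 => by
    rw [Real.norm_eq_abs, abs_mul, abs_of_nonneg a0, ← add_mul]
    refine mul_le_mul ((abs_sub _ _).trans_eq ?_) a1 a0 (by have := s0 x; positivity)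
    rw [abs_of_nonneg (by have := s0 x; positivity)]
  have ii : ∀ n, Integrable fun x => (s x ^ (q - 1) - gq q (w.1 x)) * ψ n x := fun n => by
    simpa only [sub_mul] using (is n).sub' (ig n)
  have t3 := tendsto_integral_of_dominated_convergence _ (fun n => (ii n).1) bd
    (fun n => Eventually.of_forall fun x => bnd _ x (ψ0 n x) (ψle n x))
    (f := fun x => (s x ^ (q - 1) - gq q (w.1 x)) * v x)
    (by filter_upwards [tv] with x hx using hx.const_mul _)
  have pc := fun n => picone h hw hs l0.le hp ((T n).mono hB).tp_H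
  have pc' : ∀ n, (fun x => lam * |w.1 x| ^ (q - 2) * (tp (ψ n)).1 x ^ 2) =ᵐ[volume]
      fun x => lam * |w.1 x| ^ (q - 2) * ψ n x ^ 2 := fun n => by
    filter_upwards [(T n).tp1] with x hx; rw [hx]
  obtain ⟨i4, k⟩ := fatou (f := fun n x => lam * |w.1 x| ^ (q - 2) * ψ n x ^ 2)
    (g := fun x => lam * |w.1 x| ^ (q - 2) * v x ^ 2) (fun n => (pc n).1.congr (pc' n))
    (fun n => Eventually.of_forall fun x => by positivity)
    (by filter_upwards [tv] with x hx using (hx.pow 2).const_mul _)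
    (b := fun n => (1 - η)⁻¹ * (lam * (∫ x, (s x ^ (q - 1) - gq q (w.1 x)) * ψ n x) +
      η⁻¹ * ∫ x, ‖gradient (φ n) x - w.2 x‖ ^ 2)) (fun n => by
      rw [← integral_congr_ae (pc' n), le_inv_mul_iff₀ (by rw [hη]; linarith)]
      refine (mul_le_mul_of_nonneg_left (pc n).2 (by rw [hη]; linarith)).trans ?_
      have id : Integrable fun x => ‖gradient (φ n) x - w.2 x‖ ^ 2 :=
        (((hφ n).memLp_grad 2).sub (Lp.memLp w.2)).integrable_norm_pow two_ne_zero
      have iS : Integrable fun x => inner ℝ (S x) (gradient (ψ n) x) :=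
        int_hcs (T n).2.1 (cS.inner (cont_grad (T n).cd1)) fun x hx => by simp [grad_zero_off hx]
      have k1 := H _ (T n) (ψ0 n)
      have k2 := hs.test ((T n).mono hB)
      have k3 : ∫ x, (1 - η) * ‖gradient (ψ n) x‖ ^ 2 ≤ ∫ x, (inner ℝ (S x) (gradient (ψ n) x) -
          inner ℝ (w.2 x) (gradient (ψ n) x) + η⁻¹ * ‖gradient (φ n) x - w.2 x‖ ^ 2) := by
        refine integral_mono ((T n).int_sq.const_mul _)
          ((iS.sub ((T n).int_inner w)).add (id.const_mul _)) fun x => ?_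
        have a1 : ‖gradient (ψ n) x‖ ^ 2 ≤ inner ℝ (S x - gradient (φ n) x) (gradient (ψ n) x) := by
          rw [g, inner_smul_right, real_inner_self_eq_norm_sq, norm_smul, mul_pow,
            Real.norm_eq_abs, sq_abs]
          have := tr'_nonneg (1 / ((n : ℝ) + 1)) (s x - φ n x)
          have := tr'_le (1 / ((n : ℝ) + 1)) (s x - φ n x)
          exact mul_le_mul_of_nonneg_right (by nlinarith) (sq_nonneg _)
        have a2 : -inner ℝ (gradient (φ n) x - w.2 x) (gradient (ψ n) x) ≤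
            η * ‖gradient (ψ n) x‖ ^ 2 + η⁻¹ * ‖gradient (φ n) x - w.2 x‖ ^ 2 := by
          refine (neg_le_abs _).trans ((abs_real_inner_le_norm _ _).trans ?_)
          refine le_of_mul_le_mul_left ?_ η0
          rw [mul_add, mul_inv_cancel_left₀ η0.ne']
          nlinarith [sq_nonneg (η * ‖gradient (ψ n) x‖ - ‖gradient (φ n) x - w.2 x‖),
            mul_nonneg (mul_nonneg η0.le (norm_nonneg (gradient (ψ n) x)))
              (norm_nonneg (gradient (φ n) x - w.2 x))]
        rw [inner_sub_left] at a1 a2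
        simp only
        linarith
      rw [integral_const_mul, integral_add (iS.sub' ((T n).int_inner w)) (id.const_mul _),
        integral_sub iS ((T n).int_inner w), integral_const_mul, k2] at k3
      have k4 : ∫ x, (s x ^ (q - 1) - gq q (w.1 x)) * ψ n x =
          (∫ x, s x ^ (q - 1) * ψ n x) - ∫ x, gq q (w.1 x) * ψ n x := by
        rw [← integral_sub (is n) (ig n)]; simp only [sub_mul]
      rw [norm2_of_ae (T n).tp2, k4]
      linarith)
    (((t3.const_mul lam).add (t1.const_mul η⁻¹)).const_mul _)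
  have vle : ∀ᵐ x, v x ≤ s x := by
    filter_upwards [w0] with x hx using max_le (by linarith) (s0 x)
  have k4 : ∫ x, lam * ((s x ^ (q - 1) - gq q (w.1 x)) * v x) ≤
      ∫ x, (q - 1) * (lam * |w.1 x| ^ (q - 2) * v x ^ 2) := by
    refine integral_mono_ae (Integrable.const_mul (bd.mono'
      (aestronglyMeasurable_of_tendsto_ae atTop (fun n => (ii n).1)
        (by filter_upwards [tv] with x hx using hx.const_mul _)) ?_) _) (i4.const_mul _) ?_
    · filter_upwards [vle] with x hx using bnd _ x (le_max_right _ _) hx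
    filter_upwards [w0, hp] with x a b
    rcases le_or_gt (s x) (w.1 x) with h1 | h1
    · simp [hv, max_eq_right (sub_nonpos.mpr h1)]
    have b := b (hB (by_contra fun h' => by rw [soff x h'] at h1; linarith))
    have a3 := mul_le_mul_of_nonneg_left (rpow_one_add_le_one_add_mul_self
      (s := (s x - w.1 x) / w.1 x) (le_trans (by norm_num) (div_nonneg (by linarith) a))
      (by linarith : 0 ≤ q - 1) (by linarith)) (Real.rpow_nonneg a (q - 1))
    rw [← Real.mul_rpow a (by have := div_nonneg (sub_nonneg.mpr h1.le) a; positivity),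
      show w.1 x * (1 + (s x - w.1 x) / w.1 x) = s x by field_simp; ring] at a3
    have a4 : w.1 x ^ (q - 1) = w.1 x ^ (q - 2) * w.1 x := by
      rw [← Real.rpow_add_one b.ne']; congr 1; ring
    simp only [hv]
    rw [max_eq_left (by linarith), gq_of_nonneg q1 a, abs_of_pos b]
    have a5 : s x ^ (q - 1) - w.1 x ^ (q - 1) ≤ (q - 1) * w.1 x ^ (q - 2) * (s x - w.1 x) := by
      rw [sub_le_iff_le_add]
      refine a3.trans_eq ?_
      rw [a4]; field_simp; ring
    nlinarith [mul_le_mul_of_nonneg_left (mul_le_mul_of_nonneg_right a5 (sub_nonneg.mpr h1.le)) l0.le]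
  rw [integral_const_mul, integral_const_mul] at k4
  rw [mul_zero, add_zero, le_inv_mul_iff₀ (by rw [hη]; linarith)] at k
  have n0 : ∀ x, 0 ≤ lam * |w.1 x| ^ (q - 2) * v x ^ 2 := fun x => by positivity
  have k5 : ∫ x, lam * |w.1 x| ^ (q - 2) * v x ^ 2 = 0 :=
    le_antisymm (by nlinarith) (integral_nonneg n0)
  refine ⟨κ, κ0, ?_⟩
  filter_upwards [(integral_eq_zero_iff_of_nonneg n0 i4).mp k5, hp] with x a b hx
  have b := b (hB hx)
  have : v x = 0 := by
    have p1 : 0 < lam * |w.1 x| ^ (q - 2) := by positivity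
    exact pow_eq_zero_iff two_ne_zero |>.mp ((mul_eq_zero.mp a).resolve_left p1.ne')
  have e : s x = κ * (ρ ^ 2 - ‖x - c‖ ^ 2) ^ β := (sin x hx).self_of_nhds
  linarith [le_max_left (s x - w.1 x) 0]

end Pool.Agent.H92.Q
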