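import Pool.Agent.H92.Q8

open MeasureTheory Filter Topology Set Metric
open scoped ENNReal NNReal

namespace Pool.Agent.H92.Q

variable {N : ℕ}

theorem IsMin1.lower {Ω : Set (E N)} {q : ℝ} (h : St Ω q) {p : P N} (hp : IsMin1 Ω q p)
    {c : E N} {ρ β : ℝ} (hρ : 0 < ρ) (hB : ball c ρ ⊆ Ω) (hβ : 1 < β) :
    ∃ κ : ℝ, 0 < κ ∧ ∀ᵐ x, x ∈ ball c ρ → κ * (ρ ^ 2 - ‖x - c‖ ^ 2) ^ β ≤ |p.1 x| := by
  obtain ⟨w, a, b, e⟩ := hp.abs h
  obtain ⟨κ, k0, k⟩ := compare h a (b.sol h) h.min.1 (b.pos h (TPn_nonneg a)) hρ hB hβ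
  exact ⟨κ, k0, by filter_upwards [k, e] with x h1 h2; rwa [← h2]⟩

theorem IsMin1.ne {Ω : Set (E N)} {q : ℝ} (h : St Ω q) {p : P N} (hp : IsMin1 Ω q p) :
    ∀ᵐ x, x ∈ Ω → p.1 x ≠ 0 := by
  obtain ⟨w, a, b, e⟩ := hp.abs h
  filter_upwards [b.pos h (TPn_nonneg a), e] with x h1 h2 h3
  exact abs_pos.mp (h2 ▸ h1 h3)

theorem IsMin1.pic {Ω : Set (E N)} {q : ℝ} (h : St Ω q) {p : P N} (hp : IsMin1 Ω q p)
    {r : P N} (hr : r ∈ H10 Ω) :
    Integrable (fun x => lam1 Ω q * |p.1 x| ^ (q - 2) * r.1 x ^ 2) ∧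
      ∫ x, lam1 Ω q * |p.1 x| ^ (q - 2) * r.1 x ^ 2 ≤ ‖r.2‖ ^ 2 := by
  obtain ⟨w, a, b, e⟩ := hp.abs h
  have := picone h a (b.sol h) h.min.1.le (b.pos h (TPn_nonneg a)) hr
  have e' : (fun x => lam1 Ω q * |w.1 x| ^ (q - 2) * r.1 x ^ 2) =ᵐ[volume]
      fun x => lam1 Ω q * |p.1 x| ^ (q - 2) * r.1 x ^ 2 := by
    filter_upwards [e] with x hx; rw [hx, abs_abs]
  exact ⟨this.1.congr e', integral_congr_ae e' ▸ this.2⟩

theorem approx2 {Ω : Set (E N)} {p : P N} (hp : p ∈ H10 Ω) : ∃ φ : ℕ → E N → ℝ,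
    (∀ n, Test Ω (φ n)) ∧
    Tendsto (fun n => ∫ x, ‖gradient (φ n) x - p.2 x‖ ^ 2) atTop (𝓝 0) ∧
    ∀ᵐ x, Tendsto (fun n => φ n x) atTop (𝓝 (p.1 x)) := by
  obtain ⟨r, hr, h1, h2⟩ := approx hp
  choose φ hφ e1 e2 using hr
  refine ⟨φ, hφ, ?_, ?_⟩
  · have := (tendsto_iff_norm_sub_tendsto_zero.mp h1).pow 2
    rw [zero_pow two_ne_zero] at this
    refine this.congr fun n => ?_
    rw [← Prod.snd_sub, ← energy_eq, energy]
    refine integral_congr_ae ?_
    filter_upwards [Lp.coeFn_sub (r n).2 p.2, e2 n] with x a b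
    rw [Prod.snd_sub, a, Pi.sub_apply, b]
  · filter_upwards [h2, ae_all_iff.mpr e1] with x a b
    simpa only [b] using a

theorem sign_convex {Ω : Set (E N)} {p : P N} (hp : p ∈ H10 Ω) {K : Set (E N)} (hK : Convex ℝ K)
    (hm : MeasurableSet K) {m : ℝ} (m0 : 0 < m) (hl : ∀ᵐ x, x ∈ K → m ≤ |p.1 x|) :
    (∀ᵐ x, x ∈ K → 0 < p.1 x) ∨ ∀ᵐ x, x ∈ K → p.1 x < 0 := by
  obtain ⟨φ, hφ, t1, t2⟩ := approx2 hp
  have ε0 : 0 < m / 4 := by positivity
  have sm := tr'_smooth (m / 4)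
  have cd : Continuous (deriv (tr' (m / 4))) := sm.continuous_deriv (by simp)
  have dz : ∀ t, t ∉ Icc (m / 4) (2 * (m / 4)) → deriv (tr' (m / 4)) t = 0 := fun t ht => by
    rcases not_and_or.mp ht with h | h
    · have : tr' (m / 4) =ᶠ[𝓝 t] fun _ => 0 := by
        filter_upwards [gt_mem_nhds (not_le.mp h)] with s hs using tr'_zero ε0 hs.le
      rw [this.deriv_eq]; simp
    · have : tr' (m / 4) =ᶠ[𝓝 t] fun _ => 1 := by
        filter_upwards [lt_mem_nhds (not_le.mp h)] with s hs using tr'_one ε0 hs.le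
      rw [this.deriv_eq]; simp
  obtain ⟨C, hC⟩ := (HasCompactSupport.intro isCompact_Icc dz).exists_bound_of_continuous cd
  have hC2 : ∀ t, deriv (tr' (m / 4)) t ^ 2 ≤ C ^ 2 := fun t => by
    rw [← sq_abs]; exact pow_le_pow_left₀ (abs_nonneg _) (hC t) 2
  have T : ∀ n, Test Ω fun x => tr' (m / 4) (φ n x) := fun n =>
    (hφ n).of_supp (sm.comp (hφ n).1) fun x hx => by rw [hx, tr'_zero ε0 ε0.le]
  have iG := (Lp.memLp p.2).integrable_norm_pow two_ne_zero
  have ms : ∀ n, AEStronglyMeasurable (fun x => deriv (tr' (m / 4)) (φ n x) ^ 2 * ‖p.2 x‖ ^ 2)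
      (volume.restrict K) := fun n =>
    ((cd.comp (hφ n).cont).pow 2).aestronglyMeasurable.mul iG.1.restrict
  have bd : ∀ n, ∀ᵐ x ∂(volume.restrict K), ‖deriv (tr' (m / 4)) (φ n x) ^ 2 * ‖p.2 x‖ ^ 2‖ ≤
      C ^ 2 * ‖p.2 x‖ ^ 2 := fun n => Eventually.of_forall fun x => by
    rw [Real.norm_eq_abs, abs_of_nonneg (by positivity)]
    exact mul_le_mul_of_nonneg_right (hC2 _) (sq_nonneg _)
  have t3 := tendsto_integral_of_dominated_convergence (μ := volume.restrict K) _ ms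
    (iG.const_mul (C ^ 2)).restrict bd (f := fun _ => 0) (by
      filter_upwards [ae_restrict_of_ae t2, (ae_restrict_iff' hm).mpr hl] with x a b
      have := (((cd.tendsto _).comp a).pow 2).mul_const (‖p.2 x‖ ^ 2)
      rwa [dz _ fun h => by rw [abs_of_pos (by linarith [h.1])] at b; linarith [h.2],
        zero_pow two_ne_zero, zero_mul] at this)
  have t4 : Tendsto (fun n => ∫ x in K, ‖gradient (fun x => tr' (m / 4) (φ n x)) x‖ ^ 2) atTop
      (𝓝 0) := by
    have := ((t1.const_mul (C ^ 2)).add t3).const_mul 2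
    simp only [mul_zero, integral_zero, add_zero] at this
    refine squeeze_zero (fun n => integral_nonneg fun x => by positivity) (fun n => ?_) this
    have id : Integrable fun x => ‖gradient (φ n) x - p.2 x‖ ^ 2 :=
      (((hφ n).memLp_grad 2).sub (Lp.memLp p.2)).integrable_norm_pow two_ne_zero
    have i2 := (iG.const_mul (C ^ 2)).restrict.mono' (ms n) (bd n)
    refine (integral_mono (T n).int_sq.restrict (((id.const_mul (C ^ 2)).restrict.fun_add
      i2).const_mul 2) fun x => ?_).trans ?_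
    · simp only
      rw [grad_comp ((hφ n).diff x) (sm.differentiable (by simp) _).hasDerivAt, norm_smul, mul_pow,
        Real.norm_eq_abs, sq_abs]
      have a : ‖gradient (φ n) x‖ ≤ ‖gradient (φ n) x - p.2 x‖ + ‖p.2 x‖ := by
        simpa using norm_add_le (gradient (φ n) x - p.2 x) (p.2 x)
      have b : ‖gradient (φ n) x‖ ^ 2 ≤ 2 * (‖gradient (φ n) x - p.2 x‖ ^ 2 + ‖p.2 x‖ ^ 2) :=
        (pow_le_pow_left₀ (norm_nonneg _) a 2).trans add_sq_le
      nlinarith [mul_le_mul_of_nonneg_left b (sq_nonneg (deriv (tr' (m / 4)) (φ n x))),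
        mul_le_mul_of_nonneg_right (hC2 (φ n x)) (sq_nonneg ‖gradient (φ n) x - p.2 x‖)]
    · rw [integral_const_mul, integral_add (id.const_mul _).restrict i2, integral_const_mul]
      gcongr
      · exact Eventually.of_forall fun x => by positivity
      · exact Measure.restrict_le_self
  have mu := (Lp.stronglyMeasurable p.1).measurable
  set A := {x | x ∈ K ∧ m ≤ p.1 x} with hA
  set B := {x | x ∈ K ∧ p.1 x ≤ 0} with hB
  have mA : MeasurableSet A := hm.inter (measurableSet_le measurable_const mu)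
  have mB : MeasurableSet B := hm.inter (measurableSet_le mu measurable_const)
  have key : ∀ y, ∫⁻ x, B.indicator 1 x * A.indicator 1 (x + y) = 0 := fun y => by
    have mS : MeasurableSet {x | x ∈ K ∧ x + y ∈ K} := hm.inter ((measurable_add_const y) hm)
    have f := lintegral_liminf_le' (μ := volume.restrict {x | x ∈ K ∧ x + y ∈ K}) (u := atTop)
      (f := fun n x => ‖tr' (m / 4) (φ n (x + y)) - tr' (m / 4) (φ n x)‖ₑ ^ 2) fun n =>
        ((((T n).cont.comp (continuous_add_const y)).sub (T n).cont).measurable.enorm.pow_const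
          2).aemeasurable
    have t5 : Tendsto (fun n => ‖y‖ₑ ^ 2 *
        ∫⁻ x in K, ‖gradient (fun x => tr' (m / 4) (φ n x)) x‖ₑ ^ 2) atTop (𝓝 0) := by
      have := ENNReal.Tendsto.const_mul (a := ‖y‖ₑ ^ 2) (ENNReal.tendsto_ofReal t4)
        (Or.inr (by finiteness))
      rw [ENNReal.ofReal_zero, mul_zero] at this
      refine this.congr fun n => ?_
      rw [ofReal_integral_eq_lintegral_ofReal (T n).int_sq.restrict
        (Eventually.of_forall fun x => by positivity)]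
      simp only [ENNReal.ofReal_pow (norm_nonneg _), ofReal_norm]
    have f2 := f.trans ((liminf_le_liminf (Eventually.of_forall fun n =>
      trans_le (T n).cd1 hK hm y)).trans t5.liminf_eq.le)
    refine le_antisymm (le_trans ?_ f2) zero_le
    rw [← lintegral_indicator mS]
    refine lintegral_mono_ae ?_
    filter_upwards [t2, (measurePreserving_add_right volume y).quasiMeasurePreserving.ae t2]
      with x a b
    by_cases h1 : x ∈ B
    swap; · simp [h1]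
    by_cases h2 : x + y ∈ A
    swap; · simp [h2]
    have tt : Tendsto (fun i => ‖tr' (m / 4) (φ i (x + y)) - tr' (m / 4) (φ i x)‖ₑ ^ 2) atTop _ :=
      ENNReal.Tendsto.pow (((sm.continuous.tendsto _).comp b).sub
        ((sm.continuous.tendsto _).comp a)).enorm
    rw [indicator_of_mem (show x ∈ {x | x ∈ K ∧ x + y ∈ K} from ⟨h1.1, h2.1⟩), tt.liminf_eq,
      tr'_one ε0 (by linarith [h2.2]), tr'_zero ε0 (by linarith [h1.2])]
    simp [h1, h2]
  have fub : volume B * volume A = 0 := by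
    have := lintegral_lintegral_swap (μ := volume) (ν := volume)
      (f := fun (y x : E N) => B.indicator (1 : E N → ℝ≥0∞) x * A.indicator 1 (x + y))
      (((measurable_one.indicator mB).comp measurable_snd).mul
        ((measurable_one.indicator mA).comp (measurable_snd.add measurable_fst))).aemeasurable
    simp only [key, lintegral_zero] at this
    rw [this]
    have e : ∀ x, ∫⁻ y, B.indicator (1 : E N → ℝ≥0∞) x * A.indicator 1 (x + y) =
        B.indicator 1 x * volume A := fun x => by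
      rw [lintegral_const_mul (f := fun y => A.indicator 1 (x + y)) _
        ((measurable_one.indicator mA).comp (measurable_const_add x)),
        lintegral_add_left_eq_self (A.indicator 1) x, lintegral_indicator_one mA]
    simp only [e]
    rw [lintegral_mul_const _ (measurable_one.indicator mB), lintegral_indicator_one mB]
  rcases mul_eq_zero.mp fub with h | h
  · left
    filter_upwards [measure_eq_zero_iff_ae_notMem.mp h] with x a b
    exact not_le.mp fun c => a ⟨b, c⟩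
  · right
    filter_upwards [measure_eq_zero_iff_ae_notMem.mp h, hl] with x a b c
    by_contra d
    exact a ⟨c, by simpa [abs_of_nonneg (not_lt.mp d)] using b c⟩

theorem IsMin1.sign {Ω : Set (E N)} {q : ℝ} (h : St Ω q) (hc : IsPreconnected Ω) {p : P N}
    (hp : IsMin1 Ω q p) : (∀ᵐ x, 0 ≤ p.1 x) ∨ ∀ᵐ x, p.1 x ≤ 0 := by
  have glob : ∀ Q : E N → Prop, Ω ⊆ ⋃₀ {O | IsOpen O ∧ ∀ᵐ y, y ∈ O → Q y} →
      ∀ᵐ y, y ∈ Ω → Q y := fun Q hQ => by
    refine ae_iff.mpr (measure_null_of_locally_null _ fun x hx => ?_)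
    obtain ⟨O, ⟨o1, o2⟩, o3⟩ := hQ (Classical.not_imp.mp hx).1
    refine ⟨O ∩ {a | ¬(a ∈ Ω → Q a)}, inter_mem (mem_nhdsWithin_of_mem_nhds (o1.mem_nhds o3))
      self_mem_nhdsWithin, measure_mono_null (fun y hy => ?_) (ae_iff.mp o2)⟩
    exact fun h' => hy.2 fun _ => h' hy.1
  have z := H10.zero_off h.ho.measurableSet hp.1
  refine (hc.subset_or_subset (u := ⋃₀ {O | IsOpen O ∧ ∀ᵐ y, y ∈ O → 0 < p.1 y})
    (v := ⋃₀ {O | IsOpen O ∧ ∀ᵐ y, y ∈ O → p.1 y < 0}) (isOpen_sUnion fun O hO => hO.1)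
    (isOpen_sUnion fun O hO => hO.1) (disjoint_left.mpr ?_) ?_).elim (fun k => ?_) fun k => ?_
  rotate_left 2
  · left
    filter_upwards [glob _ k, z] with x a b
    by_cases hx : x ∈ Ω
    exacts [(a hx).le, (b hx).ge]
  · right
    filter_upwards [glob _ k, z] with x a b
    by_cases hx : x ∈ Ω
    exacts [(a hx).le, (b hx).le]
  · rintro x ⟨O, ⟨a1, a2⟩, a3⟩ ⟨O', ⟨b1, b2⟩, b3⟩
    refine ((a1.inter b1).measure_pos volume ⟨x, a3, b3⟩).ne' (measure_eq_zero_iff_ae_notMem.mpr ?_)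
    filter_upwards [a2, b2] with y c d e using lt_asymm (c e.1) (d e.2)
  · intro x hx
    obtain ⟨ρ, ρ0, hρ⟩ := Metric.isOpen_iff.mp h.ho x hx
    obtain ⟨κ, κ0, hκ⟩ := hp.lower h ρ0 hρ one_lt_two
    have := sign_convex hp.1 (convex_ball x (ρ / 2)) measurableSet_ball
      (m := κ * (ρ ^ 2 / 2) ^ (2 : ℝ)) (by positivity) (by
        filter_upwards [hκ] with y a b
        refine le_trans ?_ (a (ball_subset_ball (by linarith) b))
        have := mem_ball_iff_norm.mp b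
        gcongr
        nlinarith [norm_nonneg (y - x)])
    exact this.imp (fun a => ⟨_, ⟨isOpen_ball, a⟩, mem_ball_self (by linarith)⟩)
      fun a => ⟨_, ⟨isOpen_ball, a⟩, mem_ball_self (by linarith)⟩

theorem wt {Ω : Set (E N)} {C2 : ℝ} (hC : Sob Ω 2 C2) (c : E N) {ρ α : ℝ} (hρ : 0 < ρ)
    (α1 : α < 1) : ∃ C : ℝ, 0 ≤ C ∧ ∀ p ∈ H10 Ω,
      Integrable (fun x => {x | x ∈ ball c ρ ∧ ρ ^ 2 - ‖x - c‖ ^ 2 < ρ ^ 2 / 2}.indicator
        (fun x => (ρ ^ 2 - ‖x - c‖ ^ 2) ^ (-α)) x * p.1 x ^ 2) ∧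
      ∫ x, {x | x ∈ ball c ρ ∧ ρ ^ 2 - ‖x - c‖ ^ 2 < ρ ^ 2 / 2}.indicator
        (fun x => (ρ ^ 2 - ‖x - c‖ ^ 2) ^ (-α)) x * p.1 x ^ 2 ≤ C * ‖p.2‖ ^ 2 := by
  set K := (ρ ^ 2) ^ (1 - α) with hK
  have K0 : 0 ≤ K := by positivity
  have a0 : 0 < 1 - α := by linarith
  set S := {x : E N | x ∈ ball c ρ ∧ ρ ^ 2 - ‖x - c‖ ^ 2 < ρ ^ 2 / 2} with hS
  have mS : MeasurableSet S := measurableSet_ball.inter (isOpen_lt
    (f := fun x : E N => ρ ^ 2 - ‖x - c‖ ^ 2) (by fun_prop) continuous_const).measurableSet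
  refine ⟨(ρ ^ 2 * (1 - α))⁻¹ * ((N * K + K * ρ) * C2 ^ 2 + K * ρ), by positivity, fun p hp =>
    ext_weight (fun x => indicator_nonneg (fun y hy => Real.rpow_nonneg
      ((sig_pos hρ).mpr hy.1).le _) x) (fun φ h => ?_) hp⟩
  have e0 : ∀ n : ℕ, 0 < 1 / ((n : ℝ) + 1) := fun n => by positivity
  have cm : Continuous fun x : E N => max (ρ ^ 2 - ‖x - c‖ ^ 2) 0 ^ (1 - α) :=
    (by fun_prop : Continuous fun x : E N => max (ρ ^ 2 - ‖x - c‖ ^ 2) 0).rpow_const
      fun _ => Or.inr a0.le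
  set k : ℕ → E N → ℝ := fun n x => tr (1 / ((n : ℝ) + 1)) (max (ρ ^ 2 - ‖x - c‖ ^ 2) 0 ^ (1 - α))
  have kin : ∀ n, ∀ x ∈ ball c ρ, k n =ᶠ[𝓝 x]
      fun x => tr (1 / ((n : ℝ) + 1)) ((ρ ^ 2 - ‖x - c‖ ^ 2) ^ (1 - α)) := fun n x hx => by
    filter_upwards [isOpen_ball.mem_nhds hx] with y hy
    simp only [k]; rw [max_eq_left ((sig_pos hρ).mpr hy).le]
  have kout : ∀ n x, x ∉ ball c ρ → k n =ᶠ[𝓝 x] fun _ => 0 := fun n x hx => by
    filter_upwards [cm.continuousAt.eventually (gt_mem_nhds (a := 1 / ((n : ℝ) + 1)) (by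
      simp only []
      rw [max_eq_right (not_lt.mp fun h => hx ((sig_pos hρ).mp h)), Real.zero_rpow a0.ne']
      exact e0 n))] with y hy using tr_zero (e0 n) hy.le
  have ks : ∀ n, ContDiff ℝ (⊤ : ℕ∞) (k n) := fun n => contDiff_iff_contDiffAt.mpr fun x => by
    by_cases hx : x ∈ ball c ρ
    · exact ((tr_smooth _).contDiffAt.comp x
        (sig_smooth _ ((sig_pos hρ).mpr hx))).congr_of_eventuallyEq (kin n x hx)
    · exact contDiffAt_const.congr_of_eventuallyEq (kout n x hx)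
  have i0 : Integrable fun x => φ x ^ 2 := (h.memLp 2).integrable_sq
  have n2 : ∫ x, φ x ^ 2 ≤ C2 ^ 2 * ∫ x, ‖gradient φ x‖ ^ 2 := by
    have := pow_le_pow_left₀ (nf_nonneg _ _ _ _) (hC.nf_le h.tp_H) 2
    rw [mul_pow, norm2_of_ae h.tp2, nf_congr h.tp1, ← Real.rpow_two,
      nf_pow two_pos _ (con_id.memLp _ (h.memLp _))] at this
    simpa using this
  have main : ∀ n : ℕ, Integrable (fun x => S.indicator (fun x => tr' (1 / ((n : ℝ) + 1))
      ((ρ ^ 2 - ‖x - c‖ ^ 2) ^ (1 - α)) * (ρ ^ 2 - ‖x - c‖ ^ 2) ^ (-α)) x * φ x ^ 2) ∧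
      ∫ x, S.indicator (fun x => tr' (1 / ((n : ℝ) + 1)) ((ρ ^ 2 - ‖x - c‖ ^ 2) ^ (1 - α)) *
        (ρ ^ 2 - ‖x - c‖ ^ 2) ^ (-α)) x * φ x ^ 2 ≤
      (ρ ^ 2 * (1 - α))⁻¹ * ((N * K + K * ρ) * C2 ^ 2 + K * ρ) * ∫ x, ‖gradient φ x‖ ^ 2 :=
      fun n => by
    have T : Test Ω fun x => φ x * φ x * k n x :=
      h.of_supp ((h.1.mul h.1).mul (ks n)) fun x hx => by simp [hx]
    obtain ⟨i1, i2⟩ := div_zero T.cd1 T.2.1 c
    have ig := ((i0.const_mul (N * K + K * ρ)).fun_add (h.int_sq.const_mul (K * ρ))).const_mul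
      (ρ ^ 2 * (1 - α))⁻¹
    have pt : ∀ x, S.indicator (fun x => tr' (1 / ((n : ℝ) + 1))
        ((ρ ^ 2 - ‖x - c‖ ^ 2) ^ (1 - α)) * (ρ ^ 2 - ‖x - c‖ ^ 2) ^ (-α)) x * φ x ^ 2 ≤
        -(ρ ^ 2 * (1 - α))⁻¹ * (N * (φ x * φ x * k n x) +
          inner ℝ (gradient (fun x => φ x * φ x * k n x) x) (x - c)) +
        (ρ ^ 2 * (1 - α))⁻¹ * ((N * K + K * ρ) * φ x ^ 2 + K * ρ * ‖gradient φ x‖ ^ 2) := fun x => by
      rw [neg_mul, ← mul_neg, ← mul_add, le_inv_mul_iff₀ (by positivity),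
        grad_mul ((h.diff x).fun_mul (h.diff x)) ((ks n).differentiable (by simp) x),
        grad_mul (h.diff x) (h.diff x)]
      by_cases hx : x ∈ ball c ρ
      swap
      · rw [indicator_of_notMem fun h => hx h.1, (kout n x hx).gradient_eq,
          (kout n x hx).self_of_nhds]
        simp; positivity
      have sp := (sig_pos hρ).mpr hx
      rw [(kin n x hx).gradient_eq, (grad_rad (k := fun t => tr (1 / ((n : ℝ) + 1))
        ((ρ ^ 2 - t) ^ (1 - α))) ((tr_deriv _ _).comp _ (sig_deriv ρ (1 - α) _ sp))).2]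
      simp only [inner_add_left, inner_smul_left, real_inner_self_eq_norm_sq, conj_trivial,
        show 1 - α - 1 = -α by ring]
      have k0 : 0 ≤ k n x := tr_nonneg (e0 n) _
      have k1 : k n x ≤ K := (tr_le (e0 n) _).trans (max_le (by
        rw [max_eq_left sp.le, hK]; gcongr; linarith [sq_nonneg ‖x - c‖]) K0)
      have r1 : ‖x - c‖ ≤ ρ := (mem_ball_iff_norm.mp hx).le
      have c1 : |inner ℝ (gradient φ x) (x - c)| ≤ ‖gradient φ x‖ * ρ :=
        (abs_real_inner_le_norm _ _).trans (by gcongr)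
      set I := inner ℝ (gradient φ x) (x - c)
      have c2 : 2 * (φ x * I) ≤ ρ * (φ x ^ 2 + ‖gradient φ x‖ ^ 2) := by
        have := mul_le_mul_of_nonneg_left c1 (abs_nonneg (φ x))
        rw [← abs_mul, ← sq_abs (φ x)] at *
        nlinarith [le_abs_self (φ x * I), sq_nonneg (|φ x| - ‖gradient φ x‖)]
      have c3 := (mul_le_mul_of_nonneg_left c2 k0).trans
        (mul_le_mul_of_nonneg_right k1 (by positivity))
      have c4 := mul_le_mul_of_nonneg_left k1 (by positivity : 0 ≤ N * φ x ^ 2)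
      set w := tr' (1 / ((n : ℝ) + 1)) ((ρ ^ 2 - ‖x - c‖ ^ 2) ^ (1 - α)) *
        (ρ ^ 2 - ‖x - c‖ ^ 2) ^ (-α) with hw
      have w0 : 0 ≤ w := mul_nonneg (tr'_nonneg _ _) (by positivity)
      have c5 : ρ ^ 2 * (1 - α) * (S.indicator (fun x => tr' (1 / ((n : ℝ) + 1))
          ((ρ ^ 2 - ‖x - c‖ ^ 2) ^ (1 - α)) * (ρ ^ 2 - ‖x - c‖ ^ 2) ^ (-α)) x * φ x ^ 2) ≤
          2 * ‖x - c‖ ^ 2 * ((1 - α) * w * φ x ^ 2) := by
        by_cases hS' : x ∈ S
        · rw [indicator_of_mem hS', ← hw]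
          nlinarith [hS'.2, mul_nonneg (mul_nonneg a0.le w0) (sq_nonneg (φ x))]
        · rw [indicator_of_notMem hS']; simp; positivity
      rw [hw] at c5
      linarith
    have n0 : ∀ x, 0 ≤ S.indicator (fun x => tr' (1 / ((n : ℝ) + 1))
        ((ρ ^ 2 - ‖x - c‖ ^ 2) ^ (1 - α)) * (ρ ^ 2 - ‖x - c‖ ^ 2) ^ (-α)) x * φ x ^ 2 := fun x =>
      mul_nonneg (indicator_nonneg (fun y hy => mul_nonneg (tr'_nonneg _ _) (Real.rpow_nonneg
        ((sig_pos hρ).mpr hy.1).le _)) x) (sq_nonneg _)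
    have ct := (tr'_smooth (1 / ((n : ℝ) + 1))).continuous.measurable
    have cφ := h.cont.measurable
    have m3 : Measurable fun x => S.indicator (fun x => tr' (1 / ((n : ℝ) + 1))
        ((ρ ^ 2 - ‖x - c‖ ^ 2) ^ (1 - α)) * (ρ ^ 2 - ‖x - c‖ ^ 2) ^ (-α)) x * φ x ^ 2 :=
      Measurable.mul (Measurable.indicator (by fun_prop) mS) (by fun_prop)
    have i3 := ((i1.const_mul (-(ρ ^ 2 * (1 - α))⁻¹)).add ig).mono' m3.aestronglyMeasurable
      (Eventually.of_forall fun x => by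
          rw [Real.norm_eq_abs, abs_of_nonneg (n0 x)]; exact pt x)
    refine ⟨i3, (le_of_div ⟨i1.const_mul (-(ρ ^ 2 * (1 - α))⁻¹), by
      rw [integral_const_mul, i2, mul_zero]⟩ i3 ig pt).trans ?_⟩
    rw [integral_const_mul, integral_add (i0.const_mul _) (h.int_sq.const_mul _),
      integral_const_mul, integral_const_mul, mul_assoc (ρ ^ 2 * (1 - α))⁻¹]
    refine mul_le_mul_of_nonneg_left ?_ (by positivity)
    linarith [mul_le_mul_of_nonneg_left n2 (by positivity : 0 ≤ N * K + K * ρ)]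
  refine fatou (fun n => (main n).1) (fun n => Eventually.of_forall fun x =>
    mul_nonneg (indicator_nonneg (fun y hy => mul_nonneg (tr'_nonneg _ _) (Real.rpow_nonneg
      ((sig_pos hρ).mpr hy.1).le _)) x) (sq_nonneg _)) (Eventually.of_forall fun x => ?_)
    (fun n => (main n).2) tendsto_const_nhds
  by_cases hx : x ∈ S
  · simp only [indicator_of_mem hx]
    refine tendsto_const_nhds.congr' ?_
    filter_upwards [tend2.eventually (gt_mem_nhds
      (Real.rpow_pos_of_pos ((sig_pos hρ).mpr hx.1) (1 - α)))] with n hn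
    rw [tr'_one (e0 n) (by linarith [e0 n]), one_mul]
  · simp [indicator_of_notMem hx]

end Pool.Agent.H92.Q
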