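import Mathlib

/-! Definitions for the q-eigenvalue problem of the Dirichlet Laplacian on an open set. -/

open MeasureTheory Filter
open scoped ENNReal

namespace Pool.Agent.H92.Q

/-- Euclidean space of dimension N. -/
abbrev E (N : ℕ) : Type := EuclideanSpace ℝ (Fin N)

/-- Pairs (u, G) of a real function and a vector field. -/
abbrev Pair (N : ℕ) : Type := (E N → ℝ) × (E N → E N)

/-- Smooth functions with compact support in the set. -/
def Test {N : ℕ} (Ω : Set (E N)) (φ : E N → ℝ) : Prop :=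
  ContDiff ℝ (⊤ : ℕ∞) φ ∧ HasCompactSupport φ ∧ tsupport φ ⊆ Ω

/-- The Lq norm of a function. -/
noncomputable def Lq {N : ℕ} (q : ℝ) (u : E N → ℝ) : ℝ≥0∞ := eLpNorm u (ENNReal.ofReal q) volume

/-- The L2 norm of a vector field. -/
noncomputable def L2v {N : ℕ} (G : E N → E N) : ℝ≥0∞ := eLpNorm G 2 volume

/-- The Sobolev space with zero boundary values: L2 pairs (u, G) that are limits in L2 x L2 of
pairs (test function, its gradient). -/
def Sob0 {N : ℕ} (Ω : Set (E N)) : Set (Pair N) :=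
  {p | MemLp p.1 2 volume ∧ MemLp p.2 2 volume ∧ ∃ φ : ℕ → E N → ℝ, (∀ n, Test Ω (φ n)) ∧
    Tendsto (fun n => Lq 2 (φ n - p.1)) atTop (nhds 0) ∧
    Tendsto (fun n => L2v (gradient (φ n) - p.2)) atTop (nhds 0)}

/-- The Dirichlet integral. -/
noncomputable def dir {N : ℕ} (p : Pair N) : ℝ := ∫ x, ‖p.2 x‖ ^ 2

/-- The unit Lq sphere of the Sobolev space. -/
def Sphere {N : ℕ} (Ω : Set (E N)) (q : ℝ) : Set (Pair N) := {p | p ∈ Sob0 Ω ∧ Lq q p.1 = 1}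

/-- The pair p is a nonzero weak solution of the q-eigenvalue equation with eigenvalue lam. -/
def Eigen {N : ℕ} (Ω : Set (E N)) (q lam : ℝ) (p : Pair N) : Prop :=
  p ∈ Sob0 Ω ∧ ¬ (p.1 =ᵐ[volume] 0) ∧ ∀ φ, Test Ω φ →
    ∫ x, inner ℝ (p.2 x) (gradient φ x) =
      lam * (Lq q p.1).toReal ^ (2 - q) * ∫ x, |p.1 x| ^ (q - 2) * p.1 x * φ x

/-- The q-spectrum. -/
def QSpec {N : ℕ} (Ω : Set (E N)) (q : ℝ) : Set ℝ := {lam | ∃ p, Eigen Ω q lam p}

/-- Continuity on F for the Dirichlet distance, the L2 distance of gradients. -/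
def Cont {N k : ℕ} (f : Pair N → EuclideanSpace ℝ (Fin k)) (F : Set (Pair N)) : Prop :=
  ∀ p ∈ F, ∀ ε : ℝ, 0 < ε → ∃ δ : ℝ≥0∞, 0 < δ ∧ ∀ r ∈ F, L2v (r.2 - p.2) < δ → ‖f r - f p‖ < ε

/-- Sequential compactness for the Dirichlet distance. -/
def Cpt {N : ℕ} (F : Set (Pair N)) : Prop :=
  ∀ r : ℕ → Pair N, (∀ n, r n ∈ F) → ∃ p ∈ F, ∃ l : ℕ → ℕ, StrictMono l ∧
    Tendsto (fun n => L2v ((r (l n)).2 - p.2)) atTop (nhds 0)

/-- The Krasnoselskii genus: the least k at least 1 with a continuous odd map of F to the unit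
sphere of R^k, and infinity if there is none. -/
noncomputable def genus {N : ℕ} (F : Set (Pair N)) : ℕ∞ :=
  ⨅ (k : ℕ) (_ : 1 ≤ k) (_ : ∃ f : Pair N → EuclideanSpace ℝ (Fin k),
    Cont f F ∧ (∀ p ∈ F, ‖f p‖ = 1) ∧ ∀ p ∈ F, f (-p) = -f p), (k : ℕ∞)

/-- The k-th Lusternik-Schnirelmann value. -/
noncomputable def LS {N : ℕ} (Ω : Set (E N)) (q : ℝ) (k : ℕ) : ℝ≥0∞ :=
  ⨅ (F : Set (Pair N)) (_ : F ⊆ Sphere Ω q) (_ : F.Nonempty) (_ : Cpt F)
    (_ : ∀ p ∈ F, -p ∈ F) (_ : (k : ℕ∞) ≤ genus F), ⨆ p ∈ F, ENNReal.ofReal (dir p)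

/-- The first q-eigenvalue. -/
noncomputable def lambda1 {N : ℕ} (Ω : Set (E N)) (q : ℝ) : ℝ := sInf (dir '' Sphere Ω q)

/-- The second q-eigenvalue. -/
noncomputable def lambda2 {N : ℕ} (Ω : Set (E N)) (q : ℝ) : ℝ :=
  sInf {lam | lam ∈ QSpec Ω q ∧ lambda1 Ω q < lam}

end Pool.Agent.H92.Q
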