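import Mathlib

open Set Filter Topology MeasureTheory

namespace Pool.Agent.H92.RI

variable {P : Type} [NormedAddCommGroup P] [NormedSpace ℝ P] [FiniteDimensional ℝ P]

lemma per_bound {Q : Type} [NormedAddCommGroup Q] {h : ℝ → Q} {T : ℝ} (hT : 0 < T)
    (hp : Function.Periodic h T) {B : ℝ} (hB : ∀ t ∈ Icc 0 T, ‖h t‖ ≤ B) (t : ℝ) : ‖h t‖ ≤ B := by
  obtain ⟨y, hy, e⟩ := hp.exists_mem_Ico₀ hT t
  rw [e]; exact hB y (Ico_subset_Icc_self hy)

lemma per_bdd {Q : Type} [NormedAddCommGroup Q] {h : ℝ → Q} {T : ℝ} (hT : 0 < T)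
    (hp : Function.Periodic h T) (hc : Continuous h) : ∃ B, 0 < B ∧ ∀ t, ‖h t‖ ≤ B := by
  obtain ⟨B, hB⟩ := (isCompact_Icc (a := 0) (b := T)).exists_bound_of_continuousOn hc.continuousOn
  refine ⟨max B 1, by positivity, per_bound hT hp fun t ht => (hB t ht).trans (le_max_left _ _)⟩

lemma lin_unique {A : ℝ → P →L[ℝ] P} {B : ℝ} (hB : ∀ t, ‖A t‖ ≤ B) {z : ℝ → P}
    (hz : ∀ t, HasDerivAt z (A t (z t)) t) {t0 : ℝ} (h0 : z t0 = 0) (t : ℝ) : z t = 0 := by
  have hB0 : 0 ≤ B := (norm_nonneg _).trans (hB 0)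
  have := ODE_solution_unique_univ (v := fun t y => A t y) (s := fun _ => univ) (K := ⟨B, hB0⟩)
    (f := z) (g := fun _ => 0) (t₀ := t0)
    (fun t => ((A t).lipschitz.weaken (by exact_mod_cast hB t)).lipschitzOnWith)
    (fun t => ⟨hz t, trivial⟩) (fun t => ⟨by simpa using hasDerivAt_const t (0 : P), trivial⟩) h0
  exact congrFun this t

/-- nondegeneracy from a simple root of the characteristic polynomial -/
lemma nd_of_simple (M : P →L[ℝ] P) (v : P) (hv : v ≠ 0) (hM : M v = v)
    (h : (LinearMap.charpoly (M : P →ₗ[ℝ] P)).rootMultiplicity 1 = 1) (b : P) :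
    ∃ a : P, ∃ m : ℝ, M a - a + m • v = b := by
  set φ : Module.End ℝ P := (M : P →ₗ[ℝ] P) with hφ
  have h1 := LinearMap.finrank_maxGenEigenspace_eq φ 1
  rw [h] at h1
  set g : Module.End ℝ P := φ - (1 : ℝ) • (1 : Module.End ℝ P) with hg
  have hc := LinearMap.isCompl_iSup_ker_pow_iInf_range_pow g
  have hvm : v ∈ φ.maxGenEigenspace 1 := by
    rw [Module.End.mem_maxGenEigenspace]
    exact ⟨1, by simp [hφ, hM]⟩
  have hsp : φ.maxGenEigenspace 1 = Submodule.span ℝ {v} := by
    symm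
    apply Submodule.eq_of_le_of_finrank_eq
    · rw [Submodule.span_singleton_le_iff_mem]; exact hvm
    · rw [h1, finrank_span_singleton hv]
  have hb : b ∈ (⨆ n, LinearMap.ker (g ^ n)) ⊔ (⨅ n, LinearMap.range (g ^ n)) := by
    rw [hc.sup_eq_top]; trivial
  obtain ⟨k, hk, r, hr, e⟩ := Submodule.mem_sup.1 hb
  have hk' : k ∈ φ.maxGenEigenspace 1 := by
    have : (⨆ n, LinearMap.ker (g ^ n)) ≤ φ.maxGenEigenspace 1 := by
      refine iSup_le fun n y hy => ?_
      rw [Module.End.mem_maxGenEigenspace]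
      exact ⟨n, hy⟩
    exact this hk
  rw [hsp, Submodule.mem_span_singleton] at hk'
  obtain ⟨m, rfl⟩ := hk'
  have hr1 := (Submodule.mem_iInf _).1 hr 1
  obtain ⟨a, ha⟩ := hr1
  refine ⟨a, m, ?_⟩
  rw [← e, ← ha]
  simp [hg, hφ, add_comm]

lemma green {A : ℝ → P →L[ℝ] P} {T : ℝ} (hT : 0 < T) (hA : Continuous A)
    (hAp : Function.Periodic A T) {Φ : ℝ → P →L[ℝ] P} (h0 : Φ 0 = 1)
    (hΦ : ∀ t, HasDerivAt Φ ((A t).comp (Φ t)) t) {v : ℝ → P}
    (hv : ∀ t, HasDerivAt v (A t (v t)) t) (hvp : Function.Periodic v T)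
    (nd : ∀ b : P, ∃ a : P, ∃ m : ℝ, Φ T a - a + m • v 0 = b) :
    ∃ C, 0 < C ∧ ∃ S : (ℝ → P) → (ℝ → P) × ℝ,
      (∀ h, Continuous h → Function.Periodic h T → Function.Periodic (S h).1 T ∧
        (∀ t, HasDerivAt (S h).1 (A t ((S h).1 t) + (S h).2 • v t + h t) t) ∧
        (∀ t, ‖(S h).1 t‖ ≤ C * ∫ s in (0:ℝ)..T, ‖h s‖) ∧
        |(S h).2| ≤ C * ∫ s in (0:ℝ)..T, ‖h s‖) ∧
      (∀ h1 h2, Continuous h1 → Continuous h2 → S (h1 - h2) = S h1 - S h2) := by
  have : CompleteSpace P := FiniteDimensional.complete ℝ P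
  obtain ⟨B, hB0, hB⟩ := per_bdd hT hAp hA
  have hΦc : Continuous Φ := continuous_iff_continuousAt.2 fun t => (hΦ t).continuousAt
  have hvc : Continuous v := continuous_iff_continuousAt.2 fun t => (hv t).continuousAt
  have hΦa : ∀ a t, HasDerivAt (fun t => Φ t a) (A t (Φ t a)) t := by
    intro a t
    simpa using (hΦ t).clm_apply (hasDerivAt_const t a)
  have hu : ∀ t, IsUnit (Φ t) := by
    intro t
    rw [ContinuousLinearMap.isUnit_iff_bijective]
    have hi : Function.Injective (Φ t) := by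
      rw [injective_iff_map_eq_zero]
      intro a ha
      have := lin_unique hB (hΦa a) ha 0
      simpa [h0] using this
    exact ⟨hi, (LinearMap.injective_iff_surjective (f := (Φ t : P →ₗ[ℝ] P))).1 hi⟩
  set Ψ : ℝ → P →L[ℝ] P := fun t => Ring.inverse (Φ t) with hΨ
  have hΨc : Continuous Ψ := by
    refine continuous_iff_continuousAt.2 fun t => ?_
    have := NormedRing.inverse_continuousAt (hu t).unit
    exact ContinuousAt.comp (f := Φ) (g := Ring.inverse) (by simpa using this) hΦc.continuousAt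
  have hΦΨ : ∀ t a, Φ t (Ψ t a) = a := by
    intro t a
    have := Ring.mul_inverse_cancel _ (hu t)
    have h2 := congrArg (fun L : P →L[ℝ] P => L a) this
    simpa using h2
  let N : (P × ℝ) →L[ℝ] P := (Φ T - 1).comp (ContinuousLinearMap.fst ℝ P ℝ) +
    (ContinuousLinearMap.snd ℝ P ℝ).smulRight (T • v 0)
  have hN : ∀ w : P × ℝ, N w = Φ T w.1 - w.1 + w.2 • T • v 0 := by intro w; simp [N]
  have hNs : (N : (P × ℝ) →ₗ[ℝ] P).range = ⊤ := by
    rw [LinearMap.range_eq_top]
    intro b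
    obtain ⟨a, m, e⟩ := nd b
    refine ⟨(a, m / T), ?_⟩
    change N _ = b
    rw [hN, smul_smul, div_mul_cancel₀ _ hT.ne', e]
  obtain ⟨R, hR⟩ := ContinuousLinearMap.exists_rightInverse_of_surjective N hNs
  have hR' : ∀ b, N (R b) = b := fun b => by simpa using congrArg (fun L : P →L[ℝ] P => L b) hR
  obtain ⟨B1, hB1⟩ := (isCompact_Icc (a := 0) (b := T)).exists_bound_of_continuousOn
    hΦc.continuousOn
  obtain ⟨B2, hB2⟩ := (isCompact_Icc (a := 0) (b := T)).exists_bound_of_continuousOn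
    hΨc.continuousOn
  obtain ⟨B3, hB30, hB3⟩ := per_bdd hT hvp hvc
  have hB10 : 0 ≤ B1 := (norm_nonneg _).trans (hB1 0 ⟨le_rfl, hT.le⟩)
  have hB20 : 0 ≤ B2 := (norm_nonneg _).trans (hB2 0 ⟨le_rfl, hT.le⟩)
  let I : (ℝ → P) → ℝ → P := fun h t => ∫ s in (0:ℝ)..t, Ψ s (h s)
  let w : (ℝ → P) → P × ℝ := fun h => R (-(Φ T (I h T)))
  let S : (ℝ → P) → (ℝ → P) × ℝ := fun h =>
    (fun t => Φ t ((w h).1 + I h t) + ((w h).2 * t) • v t, (w h).2)
  set D := ‖R‖ * B1 * B2 with hD
  have hD0 : 0 ≤ D := by positivity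
  refine ⟨B1 * (D + B2) + D * T * B3 + D + 1, by positivity, S, ?_, ?_⟩
  · intro h hc hp
    have hic : Continuous fun s => Ψ s (h s) := hΨc.clm_apply hc
    have hId : ∀ t, HasDerivAt (I h) (Ψ t (h t)) t := fun t =>
      (hic.integral_hasStrictDerivAt 0 t).hasDerivAt
    have hd : ∀ t, HasDerivAt (S h).1 (A t ((S h).1 t) + (S h).2 • v t + h t) t := by
      intro t
      have e1 := (hΦ t).clm_apply ((hId t).const_add (w h).1)
      have e2 := (((hasDerivAt_id t).const_mul (w h).2)).smul (hv t)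
      refine HasDerivAt.congr_deriv (e1.add e2) ?_
      simp only [S, map_add, map_smul, hΦΨ, ContinuousLinearMap.comp_apply, id, mul_one]
      abel
    have hT0 : (S h).1 T = (S h).1 0 := by
      have e := hR' (-(Φ T (I h T)))
      rw [hN] at e
      have hI0 : I h 0 = 0 := by simp [I]
      have hvT : v T = v 0 := by simpa using hvp 0
      simp only [S, hI0, h0, map_add, hvT, mul_zero, zero_smul, add_zero,
        one_apply_eq_self]
      change Φ T (w h).1 - (w h).1 + (w h).2 • T • v 0 = _ at e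
      rw [smul_smul] at e
      have : Φ T (w h).1 + Φ T (I h T) + ((w h).2 * T) • v 0 - (w h).1 =
        (Φ T (w h).1 - (w h).1 + ((w h).2 * T) • v 0) + Φ T (I h T) := by abel
      rw [e] at this
      exact sub_eq_zero.1 (by rw [this]; simp)
    have hper : Function.Periodic (S h).1 T := by
      intro t
      have := lin_unique (z := fun t => (S h).1 (t + T) - (S h).1 t) hB (t0 := 0) (fun t => by
        have e1 := ((hd (t + T)).comp_add_const t T).sub (hd t)
        refine HasDerivAt.congr_deriv e1 ?_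
        rw [hAp t, hvp t, hp t, map_sub]; abel) (by simp [hT0]) t
      exact sub_eq_zero.1 this
    set n := ∫ s in (0:ℝ)..T, ‖h s‖ with hn
    have hn0 : 0 ≤ n := intervalIntegral.integral_nonneg hT.le fun _ _ => norm_nonneg _
    have hI : ∀ t ∈ Icc 0 T, ‖I h t‖ ≤ B2 * n := by
      intro t ht
      calc ‖I h t‖ ≤ ∫ s in (0:ℝ)..t, ‖Ψ s (h s)‖ :=
            intervalIntegral.norm_integral_le_integral_norm ht.1
        _ ≤ ∫ s in (0:ℝ)..T, ‖Ψ s (h s)‖ :=
            intervalIntegral.integral_mono_interval le_rfl ht.1 ht.2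
              (Eventually.of_forall fun _ => norm_nonneg _) (hic.norm.intervalIntegrable _ _)
        _ ≤ ∫ s in (0:ℝ)..T, B2 * ‖h s‖ :=
            intervalIntegral.integral_mono_on hT.le (hic.norm.intervalIntegrable _ _)
              ((continuous_const.mul hc.norm).intervalIntegrable _ _) fun s hs =>
              ((Ψ s).le_opNorm _).trans (by gcongr; exact hB2 s hs)
        _ = B2 * n := by rw [intervalIntegral.integral_const_mul]
    have hw : ‖w h‖ ≤ D * n := by
      calc ‖w h‖ ≤ ‖R‖ * ‖-(Φ T (I h T))‖ := R.le_opNorm _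
        _ ≤ ‖R‖ * (B1 * (B2 * n)) := by
          gcongr
          rw [norm_neg]
          exact ((Φ T).le_opNorm _).trans (by
            gcongr
            · exact hB1 T ⟨hT.le, le_rfl⟩
            · exact hI T ⟨hT.le, le_rfl⟩)
        _ = D * n := by rw [hD]; ring
    have hw1 : ‖(w h).1‖ ≤ D * n := (norm_fst_le _).trans hw
    have hw2 : |(w h).2| ≤ D * n := (norm_snd_le (w h)).trans hw
    refine ⟨hper, hd, per_bound hT hper fun t ht => ?_, ?_⟩
    · calc ‖(S h).1 t‖ ≤ ‖Φ t ((w h).1 + I h t)‖ + ‖((w h).2 * t) • v t‖ := norm_add_le _ _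
        _ ≤ B1 * (D * n + B2 * n) + D * n * T * B3 := by
          gcongr
          · exact ((Φ t).le_opNorm _).trans (by
              gcongr
              · exact hB1 t ht
              · exact (norm_add_le _ _).trans (add_le_add hw1 (hI t ht)))
          · rw [norm_smul, Real.norm_eq_abs, abs_mul, abs_of_nonneg ht.1]
            gcongr
            · exact ht.1
            · exact ht.2
            · exact hB3 t
        _ ≤ _ := by nlinarith [mul_nonneg hD0 hn0]
    · refine hw2.trans ?_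
      have : 0 ≤ B1 * (D + B2) + D * T * B3 + 1 := by positivity
      nlinarith [mul_nonneg this hn0]
  · intro h1 h2 c1 c2
    have hI : ∀ t, I (h1 - h2) t = I h1 t - I h2 t := by
      intro t
      simp only [I, Pi.sub_apply, map_sub]
      exact intervalIntegral.integral_sub ((hΨc.clm_apply c1).intervalIntegrable _ _)
        ((hΨc.clm_apply c2).intervalIntegrable _ _)
    have hw : w (h1 - h2) = w h1 - w h2 := by
      simp only [w, hI]
      rw [← map_sub R, map_sub (Φ T)]
      congr 1; abel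
    refine Prod.ext (funext fun t => ?_) ?_
    · simp only [S, hI, hw, Prod.fst_sub, Prod.snd_sub, Pi.sub_apply, map_add, map_sub, sub_mul,
        sub_smul]
      abel
    · simp only [S, hw, Prod.snd_sub]

end Pool.Agent.H92.RI
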