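import Pool.Agent.H92.RI1

open Set Filter Topology MeasureTheory Metric
open scoped BoundedContinuousFunction

namespace Pool.Agent.H92.RI

variable {P : Type} [NormedAddCommGroup P] [NormedSpace ℝ P] [FiniteDimensional ℝ P]

lemma unif_near {Q : Type} [NormedAddCommGroup Q] {F : P → Q} (hF : Continuous F) {x : ℝ → P}
    {B : ℝ} (hB : ∀ t, ‖x t‖ ≤ B) {κ : ℝ} (hκ : 0 < κ) :
    ∃ r, 0 < r ∧ ∀ t, ∀ z ∈ closedBall (x t) r, ‖F z - F (x t)‖ ≤ κ := by
  have : ProperSpace P := FiniteDimensional.proper_real P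
  have h := (isCompact_closedBall (0 : P) (B + 1)).uniformContinuousOn_of_continuous
    hF.continuousOn
  obtain ⟨δ, hδ, h⟩ := Metric.uniformContinuousOn_iff_le.1 h κ hκ
  refine ⟨min δ 1, by positivity, fun t z hz => ?_⟩
  rw [mem_closedBall] at hz
  rw [← dist_eq_norm]
  refine h z ?_ (x t) ?_ (hz.trans (min_le_left _ _))
  · rw [mem_closedBall_zero_iff]
    have := hz.trans (min_le_right _ _)
    rw [dist_eq_norm] at this
    have h2 := norm_add_le (z - x t) (x t)
    rw [sub_add_cancel] at h2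
    linarith [hB t]
  · rw [mem_closedBall_zero_iff]; linarith [hB t]

lemma persist {f : P → P} (hf : ContDiff ℝ 1 f) {x : ℝ → P} {T : ℝ} (hT : 0 < T)
    (hx : ∀ t, HasDerivAt x (f (x t)) t) (hxp : Function.Periodic x T) {Φ : ℝ → P →L[ℝ] P}
    (h0 : Φ 0 = 1) (hΦ : ∀ t, HasDerivAt Φ ((fderiv ℝ f (x t)).comp (Φ t)) t)
    (nd : ∀ b : P, ∃ a : P, ∃ m : ℝ, Φ T a - a + m • f (x 0) = b) :
    ∃ C, 0 < C ∧ ∃ η, 0 < η ∧ η ≤ 1 / 2 ∧ ∀ g g' : P → P, Continuous g → ContDiff ℝ 1 g' →
      (∀ t, ∀ z ∈ closedBall (x t) η, ‖g' z - f z‖ ≤ η ∧ ‖fderiv ℝ g' z - fderiv ℝ f z‖ ≤ η) →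
      ∀ (u : ℝ → P) (lam r ρ : ℝ), Function.Periodic u T →
      (∀ t, HasDerivAt u (lam • g (u t)) t) → (∀ t, ‖u t - x t‖ ≤ r) → |lam - 1| ≤ r → 0 ≤ ρ →
      r + ρ ≤ η → C * ∫ s in (0:ℝ)..T, ‖g' (u s) - g (u s)‖ ≤ ρ →
      ∃ (u' : ℝ → P) (lam' : ℝ), Function.Periodic u' T ∧
        (∀ t, HasDerivAt u' (lam' • g' (u' t)) t) ∧ (∀ t, ‖u' t - u t‖ ≤ ρ) ∧ |lam' - lam| ≤ ρ := by
  have : CompleteSpace P := FiniteDimensional.complete ℝ P
  have hxc : Continuous x := continuous_iff_continuousAt.2 fun t => (hx t).continuousAt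
  have hDc : Continuous (fderiv ℝ f) := hf.continuous_fderiv one_ne_zero
  have hfd : Differentiable ℝ f := hf.differentiable one_ne_zero
  set A : ℝ → P →L[ℝ] P := fun t => fderiv ℝ f (x t) with hA
  have hAc : Continuous A := hDc.comp hxc
  have hAp : Function.Periodic A T := fun t => by simp only [hA, hxp t]
  have hv : ∀ t, HasDerivAt (fun t => f (x t)) (A t (f (x t))) t := fun t =>
    (hfd (x t)).hasFDerivAt.comp_hasDerivAt t (hx t)
  have hvp : Function.Periodic (fun t => f (x t)) T := fun t => by simp only [hxp t]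
  obtain ⟨C, hC, S, hS, hSl⟩ := green hT hAc hAp h0 hΦ hv hvp nd
  obtain ⟨B, hB0, hB⟩ := per_bdd hT hAp hAc
  obtain ⟨Bx, -, hBx⟩ := per_bdd hT hxp hxc
  set κ := 1 / (2 * (C * T * (6 + B))) with hκ
  have hκ0 : 0 < κ := by positivity
  have hκ1 : C * T * ((6 + B) * κ) = 1 / 2 := by rw [hκ]; field_simp
  obtain ⟨r1, hr1, h1⟩ := unif_near hf.continuous hBx hκ0
  obtain ⟨r2, hr2, h2⟩ := unif_near hDc hBx hκ0
  set η := min (min κ (1 / 2)) (min r1 r2) with hη
  have hηκ : η ≤ κ := (min_le_left _ _).trans (min_le_left _ _)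
  have hη2 : η ≤ 1 / 2 := (min_le_left _ _).trans (min_le_right _ _)
  have hη1' : η ≤ r1 := (min_le_right _ _).trans (min_le_left _ _)
  have hη2' : η ≤ r2 := (min_le_right _ _).trans (min_le_right _ _)
  refine ⟨4 * C, by positivity, η, by positivity, hη2, ?_⟩
  intro g g' hg hg' hcl u lam r ρ hup hu hux hlam hρ hrρ hint
  have huc : Continuous u := continuous_iff_continuousAt.2 fun t => (hu t).continuousAt
  have hg'd : Differentiable ℝ g' := hg'.differentiable one_ne_zero
  let s : Set ((ℝ →ᵇ P) × ℝ) := {w | Function.Periodic w.1 T ∧ ‖w‖ ≤ ρ}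
  have hsc : IsClosed s := by
    refine IsClosed.inter ?_ (isClosed_le continuous_norm continuous_const)
    have : {w : (ℝ →ᵇ P) × ℝ | Function.Periodic w.1 T} = ⋂ t, {w | w.1 (t + T) = w.1 t} := by
      ext w; simp [Function.Periodic]
    change IsClosed {w : (ℝ →ᵇ P) × ℝ | Function.Periodic w.1 T}
    rw [this]
    exact isClosed_iInter fun t => isClosed_eq (by fun_prop) (by fun_prop)
  let H : (ℝ →ᵇ P) × ℝ → ℝ → P := fun w t =>
    (lam + w.2) • g' (u t + w.1 t) - lam • g (u t) - A t (w.1 t) - w.2 • f (x t)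
  have hHc : ∀ w, Continuous (H w) := by
    intro w
    have := hg'.continuous
    have := hf.continuous
    have := w.1.continuous
    simp only [H]
    fun_prop
  have hHp : ∀ w ∈ s, Function.Periodic (H w) T := fun w hw t => by
    simp only [H, hup t, hw.1 t, hAp t, hxp t]
  have hw1 : ∀ w : (ℝ →ᵇ P) × ℝ, ∀ t, ‖w.1 t‖ ≤ ‖w‖ := fun w t =>
    (w.1.norm_coe_le_norm t).trans (norm_fst_le w)
  have hw2 : ∀ w : (ℝ →ᵇ P) × ℝ, |w.2| ≤ ‖w‖ := fun w => norm_snd_le w
  have hin : ∀ w ∈ s, ∀ t, u t + w.1 t ∈ closedBall (x t) η := by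
    intro w hw t
    rw [mem_closedBall, dist_eq_norm]
    have : u t + w.1 t - x t = (u t - x t) + w.1 t := by abel
    rw [this]
    exact (norm_add_le _ _).trans (by linarith [hux t, hw1 w t, hw.2])
  have E1 : ∀ w ∈ s, ∀ w' ∈ s, ∀ t, ‖H w t - H w' t‖ ≤ (6 + B) * κ * ‖w - w'‖ := by
    intro w hw w' hw' t
    set d := ‖w - w'‖ with hd
    have hd0 : 0 ≤ d := norm_nonneg _
    have hy : ‖w.1 t - w'.1 t‖ ≤ d := by simpa using hw1 (w - w') t
    have hm : |w.2 - w'.2| ≤ d := by simpa using hw2 (w - w')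
    have a1 : ‖g' (u t + w.1 t) - g' (u t + w'.1 t) - A t (w.1 t - w'.1 t)‖ ≤ 2 * κ * d := by
      have := (convex_closedBall (x t) η).norm_image_sub_le_of_norm_fderiv_le' (𝕜 := ℝ) (f := g')
        (C := 2 * κ) (φ := A t) (fun z _ => hg'd z) (fun z hz => by
          have e : fderiv ℝ g' z - A t = (fderiv ℝ g' z - fderiv ℝ f z) +
            (fderiv ℝ f z - fderiv ℝ f (x t)) := by simp [hA]
          rw [e]
          refine (norm_add_le _ _).trans ?_
          linarith [(hcl t z hz).2, h2 t z (closedBall_subset_closedBall hη2' hz)])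
        (hin w' hw' t) (hin w hw t)
      rw [add_sub_add_left_eq_sub] at this
      exact this.trans (by gcongr)
    have a2 : ‖g' (u t + w'.1 t) - f (x t)‖ ≤ 2 * κ := by
      have hz := hin w' hw' t
      have e : g' (u t + w'.1 t) - f (x t) = (g' (u t + w'.1 t) - f (u t + w'.1 t)) +
        (f (u t + w'.1 t) - f (x t)) := by abel
      rw [e]
      refine (norm_add_le _ _).trans ?_
      linarith [(hcl t _ hz).1, h1 t _ (closedBall_subset_closedBall hη1' hz)]
    have a3 : |lam + w.2 - 1| ≤ κ := by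
      have : lam + w.2 - 1 = (lam - 1) + w.2 := by ring
      rw [this]
      exact (abs_add_le _ _).trans (by linarith [hw2 w, hw.2])
    have a4 : |lam + w.2| ≤ 2 := by
      have : lam + w.2 = ((lam - 1) + w.2) + 1 := by ring
      rw [this]
      refine (abs_add_le _ _).trans ?_
      have := abs_add_le (lam - 1) w.2
      rw [abs_one]
      linarith [hw2 w, hw.2]
    have a5 : ‖A t (w.1 t - w'.1 t)‖ ≤ B * d := ((A t).le_opNorm _).trans (by gcongr; exact hB t)
    have e : H w t - H w' t =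
        (lam + w.2) • (g' (u t + w.1 t) - g' (u t + w'.1 t) - A t (w.1 t - w'.1 t)) +
        (lam + w.2 - 1) • A t (w.1 t - w'.1 t) + (w.2 - w'.2) • (g' (u t + w'.1 t) - f (x t)) := by
      simp only [H, map_sub]
      module
    rw [e]
    calc _ ≤ 2 * (2 * κ * d) + κ * (B * d) + d * (2 * κ) := by
          refine (norm_add₃_le).trans ?_
          simp only [norm_smul, Real.norm_eq_abs]
          gcongr
      _ = _ := by ring
  have h0s : (0 : (ℝ →ᵇ P) × ℝ) ∈ s := ⟨fun t => by simp, by simpa using hρ⟩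
  have E2 : ∀ w ∈ s, C * ∫ t in (0:ℝ)..T, ‖H w t‖ ≤ ρ := by
    intro w hw
    have hlam2 : |lam| ≤ 2 := by
      have : lam = (lam - 1) + 1 := by ring
      rw [this]
      refine (abs_add_le _ _).trans ?_
      rw [abs_one]; linarith
    have hc : Continuous fun t => ‖g' (u t) - g (u t)‖ := by
      have := hg'.continuous
      fun_prop
    have : ∫ t in (0:ℝ)..T, ‖H w t‖ ≤
        ∫ t in (0:ℝ)..T, (2 * ‖g' (u t) - g (u t)‖ + (6 + B) * κ * ρ) := by
      refine intervalIntegral.integral_mono_on hT.le ((hHc w).norm.intervalIntegrable _ _)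
        (((continuous_const.mul hc).add continuous_const).intervalIntegrable _ _) fun t _ => ?_
      have e1 := E1 w hw 0 h0s t
      have e2 : H 0 t = lam • (g' (u t) - g (u t)) := by simp [H, smul_sub]
      have e3 : ‖H 0 t‖ ≤ 2 * ‖g' (u t) - g (u t)‖ := by
        rw [e2, norm_smul, Real.norm_eq_abs]; gcongr
      have e4 := norm_add_le (H w t - H 0 t) (H 0 t)
      rw [sub_add_cancel] at e4
      rw [sub_zero] at e1
      have e5 : (6 + B) * κ * ‖w‖ ≤ (6 + B) * κ * ρ := by gcongr; exact hw.2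
      linarith
    have hc2 : Continuous fun t => 2 * ‖g' (u t) - g (u t)‖ := continuous_const.mul hc
    rw [intervalIntegral.integral_add (hc2.intervalIntegrable _ _)
      (continuous_const.intervalIntegrable _ _), intervalIntegral.integral_const_mul,
      intervalIntegral.integral_const, sub_zero, smul_eq_mul] at this
    have e6 : C * (T * ((6 + B) * κ * ρ)) = ρ / 2 := by
      rw [show C * (T * ((6 + B) * κ * ρ)) = C * T * ((6 + B) * κ) * ρ by ring, hκ1]; ring
    nlinarith [mul_le_mul_of_nonneg_left this hC.le]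
  have hSc : ∀ w ∈ s, Continuous (S (H w)).1 := fun w hw =>
    continuous_iff_continuousAt.2 fun t => ((hS _ (hHc w) (hHp w hw)).2.1 t).continuousAt
  let Γ : s → s := fun w => ⟨(BoundedContinuousFunction.ofNormedAddCommGroup (S (H w.1)).1
      (hSc w.1 w.2) ρ (fun t => ((hS _ (hHc w) (hHp w w.2)).2.2.1 t).trans (E2 w w.2)),
      (S (H w.1)).2), (hS _ (hHc w) (hHp w w.2)).1, by
        rw [Prod.norm_def]
        refine max_le ((BoundedContinuousFunction.norm_le hρ).2 fun t => ?_) ?_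
        · exact ((hS _ (hHc w) (hHp w w.2)).2.2.1 t).trans (E2 w w.2)
        · exact ((hS _ (hHc w) (hHp w w.2)).2.2.2).trans (E2 w w.2)⟩
  have hΓ : ContractingWith (1 / 2) Γ := by
    refine ⟨by norm_num, LipschitzWith.of_dist_le_mul fun w w' => ?_⟩
    have hcc := (hHc w.1).sub (hHc w'.1)
    have hpp : Function.Periodic (H w.1 - H w'.1) T := (hHp w w.2).sub (hHp w' w'.2)
    obtain ⟨-, -, b1, b2⟩ := hS _ hcc hpp
    rw [hSl _ _ (hHc w.1) (hHc w'.1)] at b1 b2
    have b3 : C * ∫ t in (0:ℝ)..T, ‖(H w.1 - H w'.1) t‖ ≤ 1 / 2 * ‖w.1 - w'.1‖ := by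
      have : ∫ t in (0:ℝ)..T, ‖(H w.1 - H w'.1) t‖ ≤
          ∫ t in (0:ℝ)..T, (6 + B) * κ * ‖w.1 - w'.1‖ :=
        intervalIntegral.integral_mono_on hT.le (hcc.norm.intervalIntegrable _ _)
          (continuous_const.intervalIntegrable _ _) fun t _ => E1 w w.2 w' w'.2 t
      rw [intervalIntegral.integral_const, sub_zero, smul_eq_mul] at this
      rw [← hκ1]
      nlinarith [mul_le_mul_of_nonneg_left this hC.le]
    rw [Subtype.dist_eq, Subtype.dist_eq, dist_eq_norm w.1, Prod.dist_eq]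
    push_cast
    refine max_le ((BoundedContinuousFunction.dist_le (by positivity)).2 fun t => ?_) ?_
    · rw [dist_eq_norm]; exact (b1 t).trans b3
    · rw [Real.dist_eq]; exact b2.trans b3
  have := hsc.completeSpace_coe
  have : Nonempty s := ⟨⟨0, h0s⟩⟩
  obtain ⟨w, hw⟩ : ∃ w, Γ w = w := ⟨_, hΓ.fixedPoint_isFixedPt⟩
  have e1 : ∀ t, (S (H w.1)).1 t = w.1.1 t := fun t => by
    have := congrArg (fun a : s => a.1.1 t) hw
    exact this
  have e2 : (S (H w.1)).2 = w.1.2 := congrArg (fun a : s => a.1.2) hw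
  refine ⟨fun t => u t + w.1.1 t, lam + w.1.2, fun t => by simp only [hup t, w.2.1 t], fun t => ?_,
    fun t => by simpa using (hw1 w t).trans w.2.2, by simpa using (hw2 w).trans w.2.2⟩
  have hd := (hS _ (hHc w) (hHp w w.2)).2.1 t
  rw [show (S (H w.1)).1 = fun t => w.1.1 t from funext e1, e2] at hd
  refine HasDerivAt.congr_deriv ((hu t).add hd) ?_
  simp only [H]
  abel

end Pool.Agent.H92.RI
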