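import Pool.Agent.H92.RID

open Set Filter Topology MeasureTheory Metric
open scoped ContDiff

namespace Pool.Agent.H92.RI

variable {C A N M W : Type} [Fintype C] [DecidableEq C] [Fintype A]
  [NormedAddCommGroup W] [NormedSpace ℝ W] [FiniteDimensional ℝ W]
  {G : Net C A N M} {V : N → Submodule ℝ W}

def Net.Iso.rfl' (G : Net C A N M) (c : C) : G.Iso c c := ⟨Equiv.refl _, fun _ => rfl⟩
def Net.Iso.sym {c d : C} (β : G.Iso c d) : G.Iso d c :=
  ⟨β.1.symm, fun e => by have := β.2 (β.1.symm e); simpa using this.symm⟩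
def Net.Iso.tr {c d k : C} (β : G.Iso c d) (γ : G.Iso d k) : G.Iso c k :=
  ⟨β.1.trans γ.1, fun e => by simp [γ.2, β.2]⟩

instance (c d : C) : Finite (G.Iso c d) := by unfold Net.Iso; infer_instance

lemma Comp.self {f : St G V → St G V} {fh} (h : Comp G V f fh) (x : St G V) (c : C) :
    (f x c : W) = fh c ((x c : W), fun e => (x (G.tl e.1) : W)) :=
  h c c rfl (Net.Iso.rfl' G c) x

lemma SAdm.adm {p : St G V → St G V} (h : SAdm G V p) : Adm G V p := ⟨h.choose, h.choose_spec.2⟩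

lemma Adm.add {f g : St G V → St G V} (hf : Adm G V f) (hg : Adm G V g) : Adm G V (f + g) := by
  obtain ⟨fh, hf⟩ := hf
  obtain ⟨gh, hg⟩ := hg
  exact ⟨fun c z => fh c z + gh c z, fun c d h β x => by simp [hf c d h β x, hg c d h β x]⟩

lemma SAdm.add {f g : St G V → St G V} (hf : SAdm G V f) (hg : SAdm G V g) :
    SAdm G V (f + g) := by
  obtain ⟨fh, hf1, hf⟩ := hf
  obtain ⟨gh, hg1, hg⟩ := hg
  exact ⟨fun c z => fh c z + gh c z, fun c => (hf1 c).add (hg1 c),
    fun c d h β x => by simp [hf c d h β x, hg c d h β x]⟩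

lemma SAdm.smul {f : St G V → St G V} (hf : SAdm G V f) (a : ℝ) : SAdm G V (a • f) := by
  obtain ⟨fh, hf1, hf⟩ := hf
  exact ⟨fun c z => a • fh c z, fun c => (hf1 c).const_smul a,
    fun c d h β x => by simp [hf c d h β x]⟩

lemma SAdm.zero : SAdm G V 0 := ⟨fun _ _ => 0, fun _ => contDiff_const, fun c d h β x => by simp⟩

lemma SAdm.sum {ι : Type} (s : Finset ι) {f : ι → St G V → St G V} (hf : ∀ i, SAdm G V (f i)) :
    SAdm G V (∑ i ∈ s, f i) := by
  classical
  induction s using Finset.induction_on with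
  | empty => simpa using SAdm.zero
  | insert a s ha ih => rw [Finset.sum_insert ha]; exact (hf a).add ih

/-- coordinate as a continuous linear map to `W` -/
noncomputable def co (G : Net C A N M) (V : N → Submodule ℝ W) (c : C) : St G V →L[ℝ] W :=
  (V (G.τ c)).subtypeL.comp (ContinuousLinearMap.proj c)

@[simp] lemma co_apply (c : C) (x : St G V) : co G V c x = (x c : W) := rfl

lemma co_le (c : C) (x : St G V) : ‖(x c : W)‖ ≤ ‖x‖ := norm_le_pi_norm x c

lemma co_sub_le (c : C) (x y : St G V) : ‖(x c : W) - (y c : W)‖ ≤ ‖x - y‖ := by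
  simpa using co_le c (x - y)

lemma SAdm.contDiff {p : St G V → St G V} (h : SAdm G V p) : ContDiff ℝ 1 p := by
  obtain ⟨ph, h1, h2⟩ := h
  refine contDiff_pi.2 fun c => ?_
  obtain ⟨π, hπ⟩ := Submodule.ClosedComplemented.of_finiteDimensional (V (G.τ c))
  have : (fun x => p x c) = fun x : St G V =>
      π (ph c (co G V c x, fun e => co G V (G.tl e.1) x)) := by
    funext x
    simp only [co_apply]
    rw [← h2.self x c, hπ]
  rw [this]
  refine π.contDiff.comp (((h1 c).of_le (by exact_mod_cast le_top)).comp ?_)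
  exact (co G V c).contDiff.prodMk (contDiff_pi.2 fun e => (co G V (G.tl e.1)).contDiff)

lemma exists_bump (i : C) (x0 : St G V) {ρ : ℝ} (hρ : 0 < ρ) {v : W} (hv : v ∈ V (G.τ i)) :
    ∃ p, SAdm G V p ∧ (∀ x, ‖p x‖ ≤ ‖v‖) ∧
      (∀ j, G.τ i = G.τ j → ∀ (β : G.Iso i j) (x : St G V), ‖(x j : W) - x0 i‖ ≤ ρ / 2 →
        (∀ e, ‖(x (G.tl (β.1 e).1) : W) - x0 (G.tl e.1)‖ ≤ ρ / 2) → (p x j : W) = v) ∧
      (∀ j (x : St G V), (p x j : W) ≠ 0 → G.τ i = G.τ j ∧ ∃ β : G.Iso i j,
        ‖(x j : W) - x0 i‖ < ρ ∧ ∀ e, ‖(x (G.tl (β.1 e).1) : W) - x0 (G.tl e.1)‖ < ρ) := by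
  classical
  let φ : ContDiffBump (0 : W) := ⟨ρ / 2, ρ, by positivity, by linarith⟩
  have : ∀ j, Fintype (G.Iso i j) := fun j => Fintype.ofFinite _
  let ψ : (j : C) → W × (G.I j → W) → ℝ := fun j z =>
    ∑ β : G.Iso i j, φ (z.1 - x0 i) * ∏ e : G.I i, φ (z.2 (β.1 e) - x0 (G.tl e.1))
  let ph : (j : C) → W × (G.I j → W) → W := fun j z =>
    if G.τ i = G.τ j then Real.smoothTransition (ψ j z) • v else 0
  have hmem : ∀ j z, ph j z ∈ V (G.τ j) := by
    intro j z
    simp only [ph]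
    split_ifs with h
    · exact Submodule.smul_mem _ _ (h ▸ hv)
    · exact Submodule.zero_mem _
  have hψ : ∀ j, ContDiff ℝ ∞ (ψ j) := by
    intro j
    refine ContDiff.sum fun β _ => ContDiff.mul ?_ (contDiff_prod fun e _ => ?_)
    · exact φ.contDiff.comp (contDiff_fst.sub contDiff_const)
    · exact φ.contDiff.comp (((contDiff_apply ℝ W (β.1 e)).comp contDiff_snd).sub contDiff_const)
  refine ⟨fun x j => ⟨ph j ((x j : W), fun e => (x (G.tl e.1) : W)), hmem _ _⟩,
    ⟨ph, fun j => ?_, fun c d h γ x => ?_⟩, fun x => ?_, fun j h β x h1 h2 => ?_,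
    fun j x h => ?_⟩
  · simp only [ph]
    split_ifs with h
    · exact (Real.smoothTransition.contDiff.comp (hψ j)).smul contDiff_const
    · exact contDiff_const
  · simp only [ph, h]
    split_ifs with h'
    · congr 2
      let E : G.Iso i c ≃ G.Iso i d := ⟨fun β => β.tr γ, fun β => β.tr γ.sym,
        fun β => Subtype.ext (Equiv.ext fun e => by simp [Net.Iso.tr, Net.Iso.sym]),
        fun β => Subtype.ext (Equiv.ext fun e => by simp [Net.Iso.tr, Net.Iso.sym])⟩
      exact (Fintype.sum_equiv E _ _ fun β => rfl).symm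
    · rfl
  · refine (pi_norm_le_iff_of_nonneg (norm_nonneg _)).2 fun j => ?_
    change ‖ph j _‖ ≤ _
    simp only [ph]
    split_ifs
    · rw [norm_smul, Real.norm_eq_abs, abs_of_nonneg (Real.smoothTransition.nonneg _)]
      exact mul_le_of_le_one_left (norm_nonneg _) (Real.smoothTransition.le_one _)
    · simp
  · simp only [ph, h, if_true]
    rw [Real.smoothTransition.one_of_one_le, one_smul]
    refine le_trans ?_ (Finset.single_le_sum (fun β _ => mul_nonneg φ.nonneg
      (Finset.prod_nonneg fun e _ => φ.nonneg)) (Finset.mem_univ β))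
    rw [φ.one_of_mem_closedBall (by simpa using h1), one_mul, Finset.prod_eq_one]
    intro e _
    exact φ.one_of_mem_closedBall (by simpa using h2 e)
  · simp only [ph] at h
    split_ifs at h with h'
    · refine ⟨h', ?_⟩
      have h2 : ψ j ((x j : W), fun e => (x (G.tl e.1) : W)) ≠ 0 := by
        intro h3; rw [h3] at h; simp at h
      obtain ⟨β, -, hβ⟩ := Finset.exists_ne_zero_of_sum_ne_zero h2
      have hs : ∀ a : W, φ a ≠ 0 → ‖a‖ < ρ := by
        intro a ha
        have : a ∈ Function.support φ := ha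
        rw [φ.support_eq] at this
        simpa using this
      exact ⟨β, hs _ (left_ne_zero_of_mul hβ), fun e =>
        hs _ (Finset.prod_ne_zero_iff.1 (right_ne_zero_of_mul hβ) e (Finset.mem_univ _))⟩
    · exact absurd rfl h

lemma exists_sep (x0 : St G V) : ∃ ρ, 0 < ρ ∧ ∀ a b : C, ‖(x0 a : W) - x0 b‖ < 2 * ρ →
    (x0 a : W) = x0 b := by
  have : ∀ᶠ ρ in 𝓝[>] (0 : ℝ), ∀ a b : C, ‖(x0 a : W) - x0 b‖ < 2 * ρ → (x0 a : W) = x0 b := by
    refine eventually_all.2 fun a => eventually_all.2 fun b => ?_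
    by_cases h : (x0 a : W) = x0 b
    · exact Eventually.of_forall fun _ _ => h
    · have hp : 0 < ‖(x0 a : W) - x0 b‖ / 2 := by
        have := norm_pos_iff.2 (sub_ne_zero.2 h); positivity
      filter_upwards [nhdsWithin_le_nhds (Iio_mem_nhds hp)] with ρ h1 h2
      exact absurd h2 (by simp only [mem_Iio] at h1; linarith)
  obtain ⟨ρ, h1, h2⟩ := (this.and self_mem_nhdsWithin).exists
  exact ⟨ρ, h2, h1⟩

lemma exists_nonatom {u : ℝ → St G V} (hu : Continuous u) {J : Set ℝ} (hJ : IsPreconnected J)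
    {k : C} {a b : ℝ} (ha : a ∈ J) (hb : b ∈ J) (hab : (u a k : W) ≠ u b k) :
    ∃ s1 ∈ J, ∀ j, volume {s | (u s j : W) = u s1 k} = 0 := by
  borelize W
  have hc : ∀ j, Continuous fun s => (u s j : W) := fun j => (co G V j).continuous.comp hu
  by_contra hcon
  push Not at hcon
  have hcount : (⋃ j, {w : W | 0 < volume {s | (u s j : W) = w}}).Countable :=
    countable_iUnion fun j => Measure.countable_meas_level_set_pos (hc j).measurable
  have hsub : (fun s => (u s k : W)) '' J ⊆ ⋃ j, {w : W | 0 < volume {s | (u s j : W) = w}} := by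
    rintro _ ⟨s, hs, rfl⟩
    obtain ⟨j, hj⟩ := hcon s hs
    exact mem_iUnion.2 ⟨j, pos_iff_ne_zero.2 hj⟩
  exact hab (hcount.isTotallyDisconnected _ hsub (hJ.image _ (hc k).continuousOn)
    ⟨a, ha, rfl⟩ ⟨b, hb, rfl⟩)

/-- a bump that is seen by the orbit only for a short time -/
lemma exists_short {u : ℝ → St G V} (hu : Continuous u) (T : ℝ) (i k : C) (s1 : ℝ)
    (hk : k = i ∨ ∃ e : G.I i, k = G.tl e.1) (hna : ∀ j, volume {s | (u s j : W) = u s1 k} = 0)
    {v : W} (hv : v ∈ V (G.τ i)) {b ρ0 : ℝ} (hb : 0 < b) (hρ0 : 0 < ρ0) :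
    ∃ q, SAdm G V q ∧ ∫ s in (0:ℝ)..T, ‖q (u s)‖ < b ∧
      (∀ᶠ z in 𝓝 (u s1), (q z i : W) = v) ∧
      (∀ j (x : St G V), (q x j : W) ≠ 0 → G.τ i = G.τ j ∧ ∃ β : G.Iso i j,
        ∀ e, ‖(x (G.tl (β.1 e).1) : W) - u s1 (G.tl e.1)‖ < ρ0) := by
  have hρ : ∀ n : ℕ, 0 < ρ0 / ((n : ℝ) + 1) := fun n => by positivity
  choose q h1 h2 h3 h4 using fun n : ℕ => exists_bump i (u s1) (hρ n) hv
  have hlim : Tendsto (fun n => ∫ s in (0:ℝ)..T, ‖q n (u s)‖) atTop
      (𝓝 (∫ s in (0:ℝ)..T, (0:ℝ))) := by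
    refine intervalIntegral.tendsto_integral_filter_of_dominated_convergence (fun _ => ‖v‖)
      (Eventually.of_forall fun n =>
        ((h1 n).contDiff.continuous.comp hu).norm.aestronglyMeasurable)
      (Eventually.of_forall fun n => Eventually.of_forall fun s _ => by simpa using h2 n (u s))
      (continuous_const.intervalIntegrable _ _) ?_
    have : ∀ᵐ s : ℝ, ∀ j, (u s j : W) ≠ u s1 k := by
      rw [ae_all_iff]; intro j; exact measure_eq_zero_iff_ae_notMem.1 (hna j)
    filter_upwards [this] with s hs _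
    have hρl : Tendsto (fun n : ℕ => ρ0 / ((n : ℝ) + 1)) atTop (𝓝 0) :=
      tendsto_const_nhds.div_atTop (tendsto_atTop_add_const_right _ _ tendsto_natCast_atTop_atTop)
    have : ∀ᶠ n : ℕ in atTop, ∀ j, ρ0 / ((n : ℝ) + 1) < ‖(u s j : W) - u s1 k‖ :=
      eventually_all.2 fun j => hρl.eventually_lt_const (norm_pos_iff.2 (sub_ne_zero.2 (hs j)))
    refine tendsto_const_nhds.congr' ?_
    filter_upwards [this] with n hn
    symm
    rw [norm_eq_zero]
    funext j
    by_contra hne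
    obtain ⟨-, β, b1, b2⟩ := h4 n j (u s) (fun h => hne (Subtype.ext h))
    rcases hk with rfl | ⟨e, rfl⟩
    · exact absurd b1 (hn j).not_gt
    · exact absurd (b2 e) (hn _).not_gt
  rw [intervalIntegral.integral_zero] at hlim
  obtain ⟨n, hn⟩ := (hlim.eventually_lt_const hb).exists
  refine ⟨q n, h1 n, hn, ?_, fun j x h => ?_⟩
  · filter_upwards [closedBall_mem_nhds (u s1) (half_pos (hρ n))] with z hz
    rw [mem_closedBall, dist_eq_norm] at hz
    exact h3 n i rfl (Net.Iso.rfl' G i) z ((co_sub_le _ _ _).trans hz)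
      fun e => (co_sub_le _ _ _).trans hz
  · obtain ⟨a, β, -, b2⟩ := h4 n j x h
    refine ⟨a, β, fun e => (b2 e).trans_le ?_⟩
    rw [div_le_iff₀ (by positivity)]
    nlinarith [(Nat.cast_nonneg n : (0:ℝ) ≤ n)]

end Pool.Agent.H92.RI
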