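import Pool.Agent.H92.RI2
import Pool.Agent.H92.RI3

open Set Filter Topology MeasureTheory Metric

namespace Pool.Agent.H92.RI

variable {P : Type} [NormedAddCommGroup P] [NormedSpace ℝ P] [FiniteDimensional ℝ P]

structure Sys (f : P → P) (x : ℝ → P) (T : ℝ) (𝒜 : (P → P) → Prop) (K : Set P) (δ : ℝ)
    (S : (P → P) → (ℝ → P) → ℝ → Prop) (C L : ℝ) : Prop where
  Cpos : 0 < C
  Lpos : 0 < L
  base : S 0 x 1
  adm : ∀ p u l, S p u l → 𝒜 p
  small : ∀ p u l, S p u l → ∀ z ∈ K, ‖p z‖ < δ ∧ ‖fderiv ℝ p z‖ < δ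
  per : ∀ p u l, S p u l → Function.Periodic u T
  ode : ∀ p u l, S p u l → ∀ t, HasDerivAt u (l • (f (u t) + p (u t))) t
  near : ∀ p u l, S p u l → ∀ t, ‖u t - x t‖ < δ
  lam : ∀ p u l, S p u l → |l - 1| < δ ∧ 0 < l
  lip : ∀ p u l, S p u l → ∀ p' u' l', S p' u' l' → ∀ t,
    ‖(f (u' t) + p (u' t)) - (f (u t) + p (u t))‖ ≤ L * ‖u' t - u t‖
  step : ∀ p u l, S p u l → ∀ q, 𝒜 q → ∀ γ, 0 < γ → ∀ᶠ ε in 𝓝[>] (0 : ℝ), ∃ u' l',
    S (p + ε • q) u' l' ∧ (∀ t, ‖u' t - u t‖ ≤ ε * (C * ∫ s in (0:ℝ)..T, ‖q (u s)‖)) ∧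
    (∀ t, ‖u' t - u t‖ < γ) ∧
    ∀ t, ‖(f (u' t) + (p + ε • q) (u' t)) - (f (u t) + p (u t))‖ < γ

lemma exists_sys {f : P → P} (hf : ContDiff ℝ 1 f) {x : ℝ → P} {T : ℝ} (hx : HypOrbit f x T)
    {𝒜 : (P → P) → Prop} (a0 : 𝒜 0) (a1 : ∀ p q (ε : ℝ), 𝒜 p → 𝒜 q → 𝒜 (p + ε • q))
    (a2 : ∀ p, 𝒜 p → ContDiff ℝ 1 p) {K : Set P} (hK : IsCompact K) {δ : ℝ} (hδ : 0 < δ) :
    ∃ S C L, Sys f x T 𝒜 K δ S C L := by
  have : ProperSpace P := FiniteDimensional.proper_real P
  obtain ⟨hT, hxd, hxp, hnc, Φ, h0, hΦ, hsim, -⟩ := hx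
  have hxc : Continuous x := continuous_iff_continuousAt.2 fun t => (hxd t).continuousAt
  have hDc : Continuous (fderiv ℝ f) := hf.continuous_fderiv one_ne_zero
  have hfd : Differentiable ℝ f := hf.differentiable one_ne_zero
  have hAp : Function.Periodic (fun t => fderiv ℝ f (x t)) T := fun t => by simp only [hxp t]
  obtain ⟨B, hB0, hB⟩ := per_bdd hT hAp (hDc.comp hxc)
  have hv : ∀ t, HasDerivAt (fun t => f (x t)) (fderiv ℝ f (x t) (f (x t))) t := fun t =>
    (hfd (x t)).hasFDerivAt.comp_hasDerivAt t (hxd t)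
  have hne : f (x 0) ≠ 0 := by
    intro h
    have hz := lin_unique hB hv h
    obtain ⟨s, t, hst⟩ := hnc
    exact hst (is_const_of_deriv_eq_zero (fun t => (hxd t).differentiableAt)
      (fun t => by rw [(hxd t).deriv, hz t]) s t)
  have hM : Φ T (f (x 0)) = f (x 0) := by
    have := lin_unique (z := fun t => Φ t (f (x 0)) - f (x t)) hB (t0 := 0) (fun t => by
      have e1 := ((hΦ t).clm_apply (hasDerivAt_const t (f (x 0)))).sub (hv t)
      refine HasDerivAt.congr_deriv e1 ?_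
      simp) (by simp [h0]) T
    have e : x T = x 0 := by simpa using hxp 0
    simpa [e, sub_eq_zero] using this
  obtain ⟨C, hC, η, hη, hη2, hp⟩ := persist hf hT hxd hxp h0 hΦ (nd_of_simple _ _ hne hM hsim)
  obtain ⟨Bx, -, hBx⟩ := per_bdd hT hxp hxc
  set K' := K ∪ closedBall (0 : P) (Bx + 1) with hK'
  have hK'c : IsCompact K' := hK.union (isCompact_closedBall _ _)
  have hsub : ∀ t, closedBall (x t) η ⊆ K' := by
    intro t z hz
    right
    rw [mem_closedBall, dist_eq_norm] at hz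
    rw [mem_closedBall_zero_iff]
    have h2 := norm_add_le (z - x t) (x t)
    rw [sub_add_cancel] at h2
    linarith [hBx t]
  obtain ⟨L0, hL0⟩ := hK'c.exists_bound_of_continuousOn hDc.continuousOn
  set m := min η δ with hm
  have hm0 : 0 < m := by positivity
  have hmη : m ≤ η := min_le_left _ _
  have hmδ : m ≤ δ := min_le_right _ _
  let S : (P → P) → (ℝ → P) → ℝ → Prop := fun p u l => 𝒜 p ∧ Function.Periodic u T ∧
    (∀ t, HasDerivAt u (l • (f (u t) + p (u t))) t) ∧ ∃ r, r < m ∧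
    (∀ z ∈ K', ‖p z‖ ≤ r ∧ ‖fderiv ℝ p z‖ ≤ r) ∧ (∀ t, ‖u t - x t‖ ≤ r) ∧ |l - 1| ≤ r
  have hin : ∀ p u l, S p u l → ∀ t, u t ∈ closedBall (x t) η := by
    rintro p u l ⟨-, -, -, r, hr, -, h, -⟩ t
    rw [mem_closedBall, dist_eq_norm]; linarith [h t]
  have hlip : ∀ p u l, S p u l → ∀ p' u' l', S p' u' l' → ∀ t,
      ‖(f (u' t) + p (u' t)) - (f (u t) + p (u t))‖ ≤ (|L0| + 1) * ‖u' t - u t‖ := by
    intro p u l h p' u' l' h' t
    have hpd := (a2 p h.1).differentiable one_ne_zero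
    obtain ⟨r, hr, h1, -⟩ := h.2.2.2
    exact (convex_closedBall (x t) η).norm_image_sub_le_of_norm_fderiv_le (𝕜 := ℝ)
      (f := fun z => f z + p z) (fun z _ => (hfd z).add (hpd z)) (fun z hz => by
        rw [fderiv_fun_add (hfd z) (hpd z)]
        refine (norm_add_le _ _).trans ?_
        linarith [hL0 z (hsub t hz), (h1 z (hsub t hz)).2, le_abs_self L0])
      (hin _ _ _ h t) (hin _ _ _ h' t)
  refine ⟨S, C, |L0| + 1, hC, by positivity, ⟨a0, hxp, by simpa using hxd, 0, hm0, by simp,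
    by simp, by simp⟩, fun p u l h => h.1, ?_, fun p u l h => h.2.1, fun p u l h => h.2.2.1,
    ?_, ?_, hlip, ?_⟩
  · rintro p u l ⟨-, -, -, r, hr, h, -⟩ z hz
    exact ⟨by linarith [(h z (Or.inl hz)).1], by linarith [(h z (Or.inl hz)).2]⟩
  · rintro p u l ⟨-, -, -, r, hr, -, h, -⟩ t
    linarith [h t]
  · rintro p u l ⟨-, -, -, r, hr, -, -, h⟩
    exact ⟨by linarith, by linarith [(abs_le.1 h).1]⟩
  · intro p u l h q hq γ hγ
    obtain ⟨hpA, hup, hu, r, hr, h1, h2, h3⟩ := id h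
    have hpc := a2 p hpA
    have hqc := a2 q hq
    have hpd := hpc.differentiable one_ne_zero
    have hqd := hqc.differentiable one_ne_zero
    obtain ⟨Q1, hQ1⟩ := hK'c.exists_bound_of_continuousOn hqc.continuous.continuousOn
    obtain ⟨Q2, hQ2⟩ := hK'c.exists_bound_of_continuousOn
      (hqc.continuous_fderiv one_ne_zero).continuousOn
    set I := C * ∫ s in (0:ℝ)..T, ‖q (u s)‖ with hI
    have hI0 : 0 ≤ I := mul_nonneg hC.le
      (intervalIntegral.integral_nonneg hT.le fun _ _ => norm_nonneg _)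
    set Q := |Q1| + |Q2| + I with hQ
    have key : ∀ a b : ℝ, 0 < b → ∀ᶠ ε in 𝓝[>] (0 : ℝ), ε * a < b := fun a b hb =>
      nhdsWithin_le_nhds ((by fun_prop : Continuous fun ε : ℝ => ε * a).continuousAt.eventually_lt
        continuousAt_const (by simpa using hb))
    filter_upwards [key Q (m - r) (by linarith), key I γ hγ,
      key ((|L0| + 1) * I + |Q1|) γ hγ, self_mem_nhdsWithin] with ε e1 e2 e3 hε
    rw [mem_Ioi] at hε
    have b1 : ε * |Q1| ≤ ε * Q := by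
      gcongr; linarith [abs_nonneg Q2]
    have b2 : ε * |Q2| ≤ ε * Q := by
      gcongr; linarith [abs_nonneg Q1]
    have b3 : ε * I ≤ ε * Q := by
      gcongr; linarith [abs_nonneg Q1, abs_nonneg Q2]
    have hq1 : ∀ z ∈ K', ‖ε • q z‖ ≤ ε * |Q1| := fun z hz => by
      rw [norm_smul, Real.norm_eq_abs, abs_of_pos hε]
      gcongr; exact (hQ1 z hz).trans (le_abs_self _)
    have hsm : ∀ z ∈ K', ‖(p + ε • q) z‖ ≤ r + ε * Q ∧ ‖fderiv ℝ (p + ε • q) z‖ ≤ r + ε * Q := by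
      intro z hz
      constructor
      · exact (norm_add_le (p z) (ε • q z)).trans (by linarith [(h1 z hz).1, hq1 z hz])
      · rw [fderiv_add (hpd z) ((hqd z).const_smul ε), fderiv_const_smul (hqd z)]
        refine (norm_add_le _ _).trans ?_
        rw [norm_smul, Real.norm_eq_abs, abs_of_pos hε]
        have : ε * ‖fderiv ℝ q z‖ ≤ ε * |Q2| := by
          gcongr; exact (hQ2 z hz).trans (le_abs_self _)
        linarith [(h1 z hz).2]
    have hpq : ContDiff ℝ 1 (p + ε • q) := a2 _ (a1 p q ε hpA hq)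
    obtain ⟨u', l', c1, c2, c3, c4⟩ := hp (fun z => f z + p z) (fun z => f z + (p + ε • q) z)
      (hf.continuous.add hpc.continuous) (hf.add hpq) (fun t z hz => by
        rw [fderiv_fun_add (hfd z) (hpq.differentiable one_ne_zero z), add_sub_cancel_left,
          add_sub_cancel_left]
        exact ⟨by linarith [(hsm z (hsub t hz)).1], by linarith [(hsm z (hsub t hz)).2]⟩)
      u l r (ε * I) hup hu h2 h3 (by positivity) (by linarith) (by
        have : ∀ s, ‖f (u s) + (p + ε • q) (u s) - (f (u s) + p (u s))‖ = ε * ‖q (u s)‖ := by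
          intro s
          simp [norm_smul, abs_of_pos hε]
        simp only [this]
        rw [intervalIntegral.integral_const_mul, hI]
        exact le_of_eq (by ring))
    have hS' : S (p + ε • q) u' l' := ⟨a1 p q ε hpA hq, c1, c2, r + ε * Q, by linarith, hsm,
      fun t => by
        have := norm_add_le (u' t - u t) (u t - x t)
        rw [sub_add_sub_cancel] at this
        linarith [c3 t, h2 t],
      by
        have := abs_add_le (l' - l) (l - 1)
        rw [sub_add_sub_cancel] at this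
        linarith⟩
    refine ⟨u', l', hS', c3, fun t => by linarith [c3 t], fun t => ?_⟩
    have e : f (u' t) + (p + ε • q) (u' t) - (f (u t) + p (u t)) =
        (f (u' t) + p (u' t) - (f (u t) + p (u t))) + ε • q (u' t) := by
      simp only [Pi.add_apply, Pi.smul_apply]; abel
    rw [e]
    refine (norm_add_le _ _).trans_lt ?_
    have d1 := hlip _ _ _ h _ _ _ hS' t
    have d2 := hq1 _ (hsub t (hin _ _ _ hS' t))
    have d3 : (|L0| + 1) * ‖u' t - u t‖ ≤ (|L0| + 1) * (ε * I) := by gcongr; exact c3 t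
    nlinarith

/-- the key estimate: a persistent identity between velocities bounds the size of a bump -/
lemma Sys.key {f : P → P} {x : ℝ → P} {T : ℝ} {𝒜 : (P → P) → Prop} {K : Set P} {δ : ℝ}
    {S : (P → P) → (ℝ → P) → ℝ → Prop} {C L : ℝ} (h : Sys f x T 𝒜 K δ S C L)
    {W : Type} [NormedAddCommGroup W] [NormedSpace ℝ W] (l1 l2 : P →L[ℝ] W)
    (n1 : ∀ z, ‖l1 z‖ ≤ ‖z‖) (n2 : ∀ z, ‖l2 z‖ ≤ ‖z‖) {p : P → P} {u : ℝ → P} {l : ℝ}
    (hS : S p u l) {γ : ℝ} (hγ : 0 < γ) (s1 s2 : ℝ)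
    (hid : ∀ p' u' l', S p' u' l' → (∀ t, ‖u' t - u t‖ < γ) →
      (∀ t, ‖(f (u' t) + p' (u' t)) - (f (u t) + p (u t))‖ < γ) →
      l1 (f (u' s1) + p' (u' s1)) = l2 (f (u' s2) + p' (u' s2)))
    {q : P → P} (hq : 𝒜 q) {v : W} (q1 : ∀ᶠ z in 𝓝 (u s1), l1 (q z) = v)
    (q2 : ∀ᶠ z in 𝓝 (u s2), l2 (q z) = 0) :
    ‖v‖ ≤ 2 * L * C * ∫ s in (0:ℝ)..T, ‖q (u s)‖ := by
  obtain ⟨r1, hr1, q1⟩ := Metric.eventually_nhds_iff.1 q1
  obtain ⟨r2, hr2, q2⟩ := Metric.eventually_nhds_iff.1 q2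
  obtain ⟨ε, ⟨u', l', c1, c2, c3, c4⟩, hε⟩ := ((h.step p u l hS q hq (min γ (min r1 r2))
    (by positivity)).and self_mem_nhdsWithin).exists
  replace hε : 0 < ε := hε
  have e0 := hid p u l hS (by simpa using hγ) (by simpa using hγ)
  have e1 := hid _ u' l' c1 (fun t => (c3 t).trans_le (min_le_left _ _))
    (fun t => (c4 t).trans_le (min_le_left _ _))
  have f1 := q1 (y := u' s1) (by
    rw [dist_eq_norm]; exact (c3 s1).trans_le ((min_le_right _ _).trans (min_le_left _ _)))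
  have f2 := q2 (y := u' s2) (by
    rw [dist_eq_norm]; exact (c3 s2).trans_le ((min_le_right _ _).trans (min_le_right _ _)))
  have e : ε • v = l2 (f (u' s2) + p (u' s2) - (f (u s2) + p (u s2))) -
      l1 (f (u' s1) + p (u' s1) - (f (u s1) + p (u s1))) := by
    simp only [Pi.add_apply, Pi.smul_apply, map_add, map_smul, f1, f2, smul_zero, add_zero] at e1
    simp only [map_add] at e0
    simp only [map_sub, map_add]
    rw [← e0, ← e1]; abel
  have d1 := (n1 _).trans (h.lip _ _ _ hS _ _ _ c1 s1)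
  have d2 := (n2 _).trans (h.lip _ _ _ hS _ _ _ c1 s2)
  have d3 := norm_sub_le (l2 (f (u' s2) + p (u' s2) - (f (u s2) + p (u s2))))
    (l1 (f (u' s1) + p (u' s1) - (f (u s1) + p (u s1))))
  rw [← e, norm_smul, Real.norm_eq_abs, abs_of_pos hε] at d3
  have g1 := mul_le_mul_of_nonneg_left (c2 s1) h.Lpos.le
  have g2 := mul_le_mul_of_nonneg_left (c2 s2) h.Lpos.le
  have : ε * ‖v‖ ≤ ε * (2 * L * C * ∫ s in (0:ℝ)..T, ‖q (u s)‖) := by nlinarith
  exact le_of_mul_le_mul_left this hε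

end Pool.Agent.H92.RI
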