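import Pool.Agent.H92.RI4

open Set Filter Topology MeasureTheory Metric

namespace Pool.Agent.H92.RI

variable {C A N M W : Type} [Fintype C] [DecidableEq C] [Fintype A]
  [NormedAddCommGroup W] [NormedSpace ℝ W] [FiniteDimensional ℝ W]
  {G : Net C A N M} {V : N → Submodule ℝ W}
  {f : St G V → St G V} {x : ℝ → St G V} {T : ℝ} {K : Set (St G V)} {δ : ℝ}
  {S : (St G V → St G V) → (ℝ → St G V) → ℝ → Prop} {Cc L : ℝ}

open Classical in
noncomputable def Zs (b : St G V) : Finset C := Finset.univ.filter fun i => (b i : W) = 0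

open Classical in
noncomputable def Es (a : St G V) : Finset (C × C) :=
  Finset.univ.filter fun ij => (a ij.1 : W) = a ij.2

lemma mem_Zs {b : St G V} {i : C} : i ∈ Zs b ↔ (b i : W) = 0 := by simp [Zs]
lemma mem_Es {a : St G V} {i j : C} : (i, j) ∈ Es a ↔ (a i : W) = a j := by simp [Es]

lemma ev_sub (a b : St G V) :
    ∀ᶠ w : St G V × St G V in 𝓝 (a, b), Es w.1 ⊆ Es a ∧ Zs w.2 ⊆ Zs b := by
  have h1 : ∀ᶠ w : St G V × St G V in 𝓝 (a, b), ∀ ij : C × C, ij ∈ Es w.1 → ij ∈ Es a := by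
    refine eventually_all.2 fun ⟨i, j⟩ => ?_
    by_cases h : (a i : W) = a j
    · exact Eventually.of_forall fun _ _ => mem_Es.2 h
    · have hc : Continuous fun w : St G V × St G V => co G V i w.1 - co G V j w.1 := by fun_prop
      filter_upwards [(hc.continuousAt (x := (a, b))).eventually_ne (y := 0) (sub_ne_zero.2 h)] with w h1 h2
      exact absurd (sub_eq_zero.2 (mem_Es.1 h2)) h1
  have h2 : ∀ᶠ w : St G V × St G V in 𝓝 (a, b), ∀ i : C, i ∈ Zs w.2 → i ∈ Zs b := by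
    refine eventually_all.2 fun i => ?_
    by_cases h : (b i : W) = 0
    · exact Eventually.of_forall fun _ _ => mem_Zs.2 h
    · have hc : Continuous fun w : St G V × St G V => co G V i w.2 := by fun_prop
      filter_upwards [(hc.continuousAt (x := (a, b))).eventually_ne (y := 0) h] with w h1 h2
      exact absurd (mem_Zs.1 h2) h1
  filter_upwards [h1, h2] with w a1 a2 using ⟨a1, a2⟩

/-- a generic state and time -/
lemma exists_generic (hf : ContDiff ℝ 1 f) (h : Sys f x T (SAdm G V) K δ S Cc L) :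
    ∃ p u l s0 γ, S p u l ∧ 0 < γ ∧ ∀ p' u' l', S p' u' l' → (∀ t, ‖u' t - u t‖ < γ) →
      (∀ t, ‖(f (u' t) + p' (u' t)) - (f (u t) + p (u t))‖ < γ) → ∀ s ∈ ball s0 γ,
      Es (u' s) = Es (u s0) ∧ Zs (f (u' s) + p' (u' s)) = Zs (f (u s0) + p (u s0)) := by
  classical
  have hex : ∃ n, ∃ p u l s, S p u l ∧ (Es (u s)).card + (Zs (f (u s) + p (u s))).card = n :=
    ⟨_, 0, x, 1, 0, h.base, rfl⟩
  obtain ⟨p, u, l, s0, hS, hn⟩ := Nat.find_spec hex
  have huc : Continuous u := continuous_iff_continuousAt.2 fun t => (h.ode _ _ _ hS t).continuousAt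
  have hpc := (h.adm _ _ _ hS).contDiff.continuous
  have hfc := hf.continuous
  obtain ⟨r, hr, h1⟩ := Metric.eventually_nhds_iff.1 (ev_sub (u s0) (f (u s0) + p (u s0)))
  have hc : Continuous fun s => (u s, f (u s) + p (u s)) := by fun_prop
  obtain ⟨r2, hr2, h2⟩ := Metric.continuousAt_iff.1 (hc.continuousAt (x := s0)) (r / 2)
    (by positivity)
  refine ⟨p, u, l, s0, min (r / 2) r2, hS, by positivity, fun p' u' l' hS' a1 a2 s hs => ?_⟩
  have b1 := h2 (x := s) (lt_of_lt_of_le hs (min_le_right _ _))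
  have b2 : dist (u' s, f (u' s) + p' (u' s)) (u s, f (u s) + p (u s)) < r / 2 := by
    rw [Prod.dist_eq, dist_eq_norm, dist_eq_norm]
    exact max_lt ((a1 s).trans_le (min_le_left _ _)) ((a2 s).trans_le (min_le_left _ _))
  have b3 := dist_triangle (u' s, f (u' s) + p' (u' s)) (u s, f (u s) + p (u s))
    (u s0, f (u s0) + p (u s0))
  obtain ⟨c1, c2⟩ := h1 (y := (u' s, f (u' s) + p' (u' s))) (by linarith)
  have hmin := Nat.find_min' hex ⟨p', u', l', s, hS', rfl⟩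
  have d1 := Finset.card_le_card c1
  have d2 := Finset.card_le_card c2
  simp only at d1 d2 c1 c2
  exact ⟨Finset.eq_of_subset_of_card_le c1 (by omega), Finset.eq_of_subset_of_card_le c2 (by omega)⟩

lemma vel_eq (h : Sys f x T (SAdm G V) K δ S Cc L) {p u l} (hS : S p u l) {i j : C} {s θ : ℝ}
    (he : ∀ᶠ t in 𝓝 s, (u t i : W) = u (t + θ) j) :
    co G V i (f (u s) + p (u s)) = co G V j (f (u (s + θ)) + p (u (s + θ))) := by
  have e1 := (co G V i).hasFDerivAt.comp_hasDerivAt s (h.ode _ _ _ hS s)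
  have e2 := (co G V j).hasFDerivAt.comp_hasDerivAt s
    ((h.ode _ _ _ hS (s + θ)).comp_add_const s θ)
  have e3 := e1.unique (e2.congr_of_eventuallyEq he)
  rw [map_smul, map_smul] at e3
  exact smul_right_injective W (h.lam _ _ _ hS).2.ne' e3

lemma nonconst (h : Sys f x T (SAdm G V) K δ S Cc L) {p u l} (hS : S p u l) {k : C} {s0 γ : ℝ}
    (hγ : 0 < γ) (hk : k ∉ Zs (f (u s0) + p (u s0))) :
    ∃ a ∈ ball s0 γ, (u a k : W) ≠ u s0 k := by
  by_contra hc
  push Not at hc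
  have e1 := (co G V k).hasFDerivAt.comp_hasDerivAt s0 (h.ode _ _ _ hS s0)
  have e2 : HasDerivAt ((co G V k) ∘ u) 0 s0 :=
    (hasDerivAt_const s0 (u s0 k : W)).congr_of_eventuallyEq
      (by filter_upwards [ball_mem_nhds s0 hγ] with a ha using hc a ha)
  have e3 := e1.unique e2
  rw [map_smul, smul_eq_zero] at e3
  exact hk (mem_Zs.2 (e3.resolve_left (h.lam _ _ _ hS).2.ne'))

/-- the short-bump contradiction -/
lemma bump_contra (h : Sys f x T (SAdm G V) K δ S Cc L) (hV : ∀ n, V n ≠ ⊥) {p u l}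
    (hS : S p u l) {γ : ℝ} (hγ : 0 < γ) (i k : C) (s1 s2 : ℝ)
    (hk : k = i ∨ ∃ e : G.I i, k = G.tl e.1) (hna : ∀ j, volume {s | (u s j : W) = u s1 k} = 0)
    (l2 : St G V →L[ℝ] W) (n2 : ∀ z, ‖l2 z‖ ≤ ‖z‖) {ρ0 : ℝ} (hρ0 : 0 < ρ0)
    (hl2 : ∀ q : St G V → St G V, (∀ j (z : St G V), (q z j : W) ≠ 0 → G.τ i = G.τ j ∧
      ∃ β : G.Iso i j, ∀ e, ‖(z (G.tl (β.1 e).1) : W) - u s1 (G.tl e.1)‖ < ρ0) →
      ∀ᶠ z in 𝓝 (u s2), l2 (q z) = 0)
    (hid : ∀ p' u' l', S p' u' l' → (∀ t, ‖u' t - u t‖ < γ) →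
      (∀ t, ‖(f (u' t) + p' (u' t)) - (f (u t) + p (u t))‖ < γ) →
      co G V i (f (u' s1) + p' (u' s1)) = l2 (f (u' s2) + p' (u' s2))) : False := by
  obtain ⟨v, hv, hv0⟩ := Submodule.exists_mem_ne_zero_of_ne_bot (hV (G.τ i))
  have huc : Continuous u := continuous_iff_continuousAt.2 fun t => (h.ode _ _ _ hS t).continuousAt
  have hL := h.Lpos
  have hC := h.Cpos
  have hvp := norm_pos_iff.2 hv0
  obtain ⟨q, q1, q2, q3, q4⟩ := exists_short huc T i k s1 hk hna hv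
    (b := ‖v‖ / (2 * L * Cc)) (by positivity) hρ0
  have := h.key (co G V i) l2 (co_le i) n2 hS hγ s1 s2 hid q1 q3 (hl2 q q4)
  rw [lt_div_iff₀ (by positivity)] at q2
  linarith

end Pool.Agent.H92.RI
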