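import Pool.Agent.H92.RI5

open Set Filter Topology MeasureTheory Metric

namespace Pool.Agent.H92.RI

variable {C A N M W : Type} [Fintype C] [DecidableEq C] [Fintype A]
  [NormedAddCommGroup W] [NormedSpace ℝ W] [FiniteDimensional ℝ W]
  {G : Net C A N M} {V : N → Submodule ℝ W}
  {f : St G V → St G V} {x : ℝ → St G V} {T : ℝ} {K : Set (St G V)} {δ : ℝ}
  {S : (St G V → St G V) → (ℝ → St G V) → ℝ → Prop} {Cc L : ℝ}

/-- nodes with the same type, state and inputs at the point `a` -/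
def Rel (a : St G V) (i j : C) : Prop :=
  G.τ i = G.τ j ∧ (a i : W) = a j ∧
    ∃ β : G.Iso i j, ∀ e, (a (G.tl (β.1 e).1) : W) = a (G.tl e.1)

def relS (a : St G V) : Setoid C where
  r := Rel a
  iseqv := ⟨fun i => ⟨rfl, rfl, Net.Iso.rfl' G i, fun _ => rfl⟩,
    fun ⟨h1, h2, β, h3⟩ => ⟨h1.symm, h2.symm, β.sym, fun e => by
      have := h3 (β.1.symm e)
      rw [Equiv.apply_symm_apply] at this
      exact this.symm⟩,
    fun ⟨h1, h2, β, h3⟩ ⟨h4, h5, γ, h6⟩ => ⟨h1.trans h4, h2.trans h5, β.tr γ,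
      fun e => (h6 (β.1 e)).trans (h3 e)⟩⟩

/-- an admissible perturbation that is locally constant with a prescribed compatible value -/
lemma exists_const (a q : St G V) (hq : ∀ i j, Rel a i j → (q i : W) = q j) :
    ∃ p, SAdm G V p ∧ ∀ᶠ z in 𝓝 a, p z = q := by
  classical
  obtain ⟨ρ, hρ, hsep⟩ := exists_sep a
  choose p h1 _ h3 h4 using fun c : Quotient (relS a) => exists_bump c.out a hρ (q c.out).2
  have : Fintype (Quotient (relS a)) := Fintype.ofFinite _
  refine ⟨∑ c, p c, SAdm.sum _ h1, ?_⟩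
  filter_upwards [closedBall_mem_nhds a (half_pos hρ)] with z hz
  rw [mem_closedBall, dist_eq_norm] at hz
  funext j
  apply Subtype.ext
  have e : ((∑ c, p c) z j : W) = ∑ c, (p c z j : W) := by
    rw [Finset.sum_apply, Finset.sum_apply]; push_cast; rfl
  have near : ∀ (k k' : C), ‖(z k : W) - a k'‖ < ρ → (a k : W) = a k' := by
    intro k k' hk
    apply hsep
    have := norm_sub_le ((z k : W) - a k') ((z k : W) - a k)
    rw [sub_sub_sub_cancel_left] at this
    linarith [co_sub_le k z a]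
  rw [e, Finset.sum_eq_single (Quotient.mk (relS a) j)]
  · have hr : Rel a (Quotient.mk (relS a) j).out j := Quotient.mk_out (s := relS a) j
    obtain ⟨r1, r2, β, r3⟩ := id hr
    rw [h3 _ j r1 β z (by rw [r2]; exact (co_sub_le _ _ _).trans hz)
      (fun e => by rw [← r3 e]; exact (co_sub_le _ _ _).trans hz)]
    exact hq _ _ hr
  · intro c _ hc
    by_contra hne
    obtain ⟨r1, β, r2, r3⟩ := h4 c j z hne
    have hr : Rel a c.out j := ⟨r1, (near _ _ r2).symm, β, fun e => near _ _ (r3 e)⟩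
    apply hc
    rw [← Quotient.out_eq c]
    exact Quotient.sound hr
  · simp

lemma balanced (hV : ∀ n, V n ≠ ⊥) (hf : ContDiff ℝ 1 f) (hA : Adm G V f)
    (h : Sys f x T (SAdm G V) K δ S Cc L) :
    ∃ p u l s0, S p u l ∧ ∀ i j, (u s0 i : W) = u s0 j → Rel (u s0) i j := by
  classical
  obtain ⟨p, u, l, s0, γ, hS, hγ, hg⟩ := exists_generic hf h
  refine ⟨p, u, l, s0, hS, ?_⟩
  have huc : Continuous u := continuous_iff_continuousAt.2 fun t => (h.ode _ _ _ hS t).continuousAt
  set Z := Zs (f (u s0) + p (u s0)) with hZ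
  have hg0 := hg p u l hS (by simpa using hγ) (by simpa using hγ)
  have F2 : ∀ p' u' l', S p' u' l' → (∀ t, ‖u' t - u t‖ < γ) →
      (∀ t, ‖(f (u' t) + p' (u' t)) - (f (u t) + p (u t))‖ < γ) → ∀ s ∈ ball s0 γ, ∀ i j,
      (u s0 i : W) = u s0 j →
      co G V i (f (u' s) + p' (u' s)) = co G V j (f (u' s) + p' (u' s)) := by
    intro p' u' l' hS' a1 a2 s hs i j hij
    have := vel_eq h hS' (i := i) (j := j) (s := s) (θ := 0) (by
      filter_upwards [isOpen_ball.mem_nhds hs] with t ht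
      rw [add_zero, ← mem_Es, (hg p' u' l' hS' a1 a2 t ht).1, mem_Es]
      exact hij)
    simpa only [add_zero] using this
  have hZE : ∀ i j, (u s0 i : W) = u s0 j → i ∈ Z → j ∈ Z := by
    intro i j hij hi
    have := F2 p u l hS (by simpa using hγ) (by simpa using hγ) s0 (mem_ball_self hγ) i j hij
    rw [hZ, mem_Zs] at hi ⊢
    exact this.symm.trans hi
  have na : ∀ k, k ∉ Z → ∃ s1 ∈ ball s0 γ, ∀ j, volume {s | (u s j : W) = u s1 k} = 0 := by
    intro k hk
    obtain ⟨a, ha, hne⟩ := nonconst h hS hγ hk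
    exact exists_nonatom huc (convex_ball s0 γ).isPreconnected ha (mem_ball_self hγ) hne
  have CA : ∀ i ∈ Z, ∀ e : G.I i, G.tl e.1 ∈ Z := by
    intro i hi e
    by_contra hk
    obtain ⟨s1, hs1, hna⟩ := na _ hk
    refine bump_contra h hV hS hγ i _ s1 s1 (Or.inr ⟨e, rfl⟩) hna 0 (by simp) one_pos
      (fun q _ => Eventually.of_forall fun _ => rfl) fun p' u' l' hS' a1 a2 => ?_
    have := (hg p' u' l' hS' a1 a2 s1 hs1).2
    rw [← this, mem_Zs] at hi
    exact hi
  intro i j hij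
  by_cases hi : i ∈ Z
  swap
  · obtain ⟨s1, hs1, hna⟩ := na _ hi
    obtain ⟨ρ, hρ, hsep⟩ := exists_sep (u s1)
    by_contra hcon
    refine bump_contra h hV hS hγ i i s1 s1 (Or.inl rfl) hna (co G V j) (co_le j) hρ
      (fun q hq => ?_) fun p' u' l' hS' a1 a2 => F2 p' u' l' hS' a1 a2 s1 hs1 i j hij
    filter_upwards [ball_mem_nhds (u s1) hρ] with z hz
    rw [mem_ball, dist_eq_norm] at hz
    by_contra hne
    obtain ⟨r1, β, r2⟩ := hq j z hne
    refine hcon ⟨r1, hij, β, fun e => ?_⟩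
    rw [← mem_Es, ← (hg0 s1 hs1).1, mem_Es]
    apply hsep
    have := norm_sub_le ((z (G.tl (β.1 e).1) : W) - u s1 (G.tl e.1))
      ((z (G.tl (β.1 e).1) : W) - u s1 (G.tl (β.1 e).1))
    rw [sub_sub_sub_cancel_left] at this
    linarith [co_sub_le (G.tl (β.1 e).1) z (u s1), r2 e]
  -- the steady part
  let D : Submodule ℝ (St G V) :=
    { carrier := {y | (∀ k ∉ Z, (y k : W) = 0) ∧
        ∀ k k', (u s0 k : W) = u s0 k' → (y k : W) = y k'}
      add_mem' := fun {a b} ha hb => ⟨fun k hk => by simp [ha.1 k hk, hb.1 k hk],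
        fun k k' hk => by simp [ha.2 k k' hk, hb.2 k k' hk]⟩
      zero_mem' := ⟨by simp, by simp⟩
      smul_mem' := fun c a ha => ⟨fun k hk => by simp [ha.1 k hk],
        fun k k' hk => by simp [ha.2 k k' hk]⟩ }
  let Q : Submodule ℝ (St G V) :=
    { carrier := {y | (∀ k ∉ Z, (y k : W) = 0) ∧ ∀ k k', Rel (u s0) k k' → (y k : W) = y k'}
      add_mem' := fun {a b} ha hb => ⟨fun k hk => by simp [ha.1 k hk, hb.1 k hk],
        fun k k' hk => by simp [ha.2 k k' hk, hb.2 k k' hk]⟩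
      zero_mem' := ⟨by simp, by simp⟩
      smul_mem' := fun c a ha => ⟨fun k hk => by simp [ha.1 k hk],
        fun k k' hk => by simp [ha.2 k k' hk]⟩ }
  have hDQ : D ≤ Q := fun y hy => ⟨hy.1, fun k k' hk => hy.2 k k' hk.2.1⟩
  let πZ : St G V →L[ℝ] St G V :=
    ContinuousLinearMap.pi fun k => if k ∈ Z then ContinuousLinearMap.proj k else 0
  have hπ1 : ∀ y, ∀ k ∈ Z, πZ y k = y k := fun y k hk => by simp [πZ, hk]
  have hπ0 : ∀ y, ∀ k ∉ Z, πZ y k = 0 := fun y k hk => by simp [πZ, hk]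
  have hpc := (h.adm _ _ _ hS).contDiff
  obtain ⟨gh, hgh⟩ := hA.add (h.adm _ _ _ hS).adm
  let F : ℕ → D → St G V := fun n a => (-((n : ℝ) + 1)) • πZ (f (u s0 + a) + p (u s0 + a))
  have hF : ∀ n, ContDiff ℝ 1 (F n) := by
    intro n
    have e : ContDiff ℝ 1 fun a : D => u s0 + a := contDiff_const.add D.subtypeL.contDiff
    exact (πZ.contDiff.comp ((hf.comp e).add (hpc.comp e))).const_smul _
  have hsub : (Q : Set (St G V)) ⊆ ⋃ n, range (F n) := by
    intro q hq
    obtain ⟨pq, b1, b2⟩ := exists_const (u s0) q hq.2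
    obtain ⟨r, hr, b2⟩ := Metric.eventually_nhds_iff.1 b2
    have hl : Tendsto (fun n : ℕ => 1 / ((n : ℝ) + 1)) atTop (𝓝[>] 0) :=
      tendsto_nhdsWithin_iff.2 ⟨tendsto_one_div_add_atTop_nhds_zero_nat,
        Eventually.of_forall fun n => mem_Ioi.2 Nat.one_div_pos_of_nat⟩
    obtain ⟨n, u', l', c1, -, c3, c4⟩ :=
      (hl.eventually (h.step p u l hS pq b1 (min γ r) (by positivity))).exists
    obtain ⟨d1, d2⟩ := hg _ u' l' c1 (fun t => (c3 t).trans_le (min_le_left _ _))
      (fun t => (c4 t).trans_le (min_le_left _ _)) s0 (mem_ball_self hγ)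
    have d3 : pq (u' s0) = q := b2 (by rw [dist_eq_norm]; exact (c3 s0).trans_le (min_le_right _ _))
    have ha : πZ (u' s0 - u s0) ∈ D := by
      refine ⟨fun k hk => by rw [hπ0 _ k hk]; rfl, fun k k' hk => ?_⟩
      by_cases hkZ : k ∈ Z
      · rw [hπ1 _ k hkZ, hπ1 _ k' (hZE _ _ hk hkZ)]
        have : (u' s0 k : W) = u' s0 k' := by rw [← mem_Es, d1, mem_Es]; exact hk
        simp [hk, this]
      · rw [hπ0 _ k hkZ, hπ0 _ k' (fun h' => hkZ (hZE _ _ hk.symm h'))]; rfl
    refine mem_iUnion.2 ⟨n, ⟨_, ha⟩, funext fun k => Subtype.ext ?_⟩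
    by_cases hk : k ∈ Z
    · have e1 : ∀ k' ∈ Z, ((u s0 + πZ (u' s0 - u s0)) k' : W) = u' s0 k' := by
        intro k' hk'
        rw [Pi.add_apply, hπ1 _ k' hk']; simp
      have e2 : ((f + p) (u s0 + πZ (u' s0 - u s0)) k : W) = (f + p) (u' s0) k := by
        rw [hgh.self, hgh.self, e1 k hk]
        congr 2
        funext e
        exact e1 _ (CA k hk e)
      have e3 : k ∈ Zs (f (u' s0) + (p + (1 / ((n : ℝ) + 1)) • pq) (u' s0)) := by rw [d2]; exact hk
      rw [mem_Zs] at e3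
      simp only [Pi.add_apply, Pi.smul_apply, d3, Submodule.coe_add, Submodule.coe_smul] at e2 e3
      simp only [F, Pi.smul_apply, hπ1 _ k hk, Pi.add_apply, Submodule.coe_add,
        Submodule.coe_smul, e2]
      rw [← add_assoc, add_eq_zero_iff_eq_neg] at e3
      rw [e3, smul_neg, neg_smul, neg_neg, smul_smul, mul_one_div_cancel (by positivity), one_smul]
    · simp only [F, Pi.smul_apply, hπ0 _ k hk, smul_zero]
      exact (hq.1 k hk).symm
  have hdim : Module.finrank ℝ Q ≤ Module.finrank ℝ D := by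
    have e1 : dimH (Q : Set (St G V)) = Module.finrank ℝ Q := by
      rw [← Real.dimH_univ_eq_finrank Q, ← (isometry_subtype_coe (s := (Q : Set (St G V)))).dimH_image]
      congr 1
      ext y; simp
    have e2 := dimH_mono hsub
    rw [dimH_iUnion, e1] at e2
    exact_mod_cast e2.trans (iSup_le fun n => (hF n).dimH_range_le)
  have hDQ' : D = Q := Submodule.eq_of_le_of_finrank_le hDQ hdim
  obtain ⟨v, hv, hv0⟩ := Submodule.exists_mem_ne_zero_of_ne_bot (hV (G.τ i))
  let q : St G V := fun k => if hk : Rel (u s0) i k then ⟨v, hk.1 ▸ hv⟩ else 0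
  have q1 : ∀ k, Rel (u s0) i k → (q k : W) = v := fun k hk => by simp [q, hk]
  have q0 : ∀ k, ¬ Rel (u s0) i k → (q k : W) = 0 := fun k hk => by simp [q, hk]
  have hq : q ∈ Q := by
    refine ⟨fun k hk => q0 k fun hr => hk (hZE _ _ hr.2.1 hi), fun k k' hk => ?_⟩
    by_cases hr : Rel (u s0) i k
    · rw [q1 k hr, q1 k' ((relS (u s0)).iseqv.trans hr hk)]
    · rw [q0 k hr, q0 k' fun h' => hr ((relS (u s0)).iseqv.trans h' ((relS (u s0)).iseqv.symm hk))]
  rw [← hDQ'] at hq
  by_contra hcon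
  have := hq.2 i j hij
  rw [q1 i ((relS (u s0)).iseqv.refl i), q0 j hcon] at this
  exact hv0 this

/-- a balanced pattern at one time persists along the whole periodic orbit -/
lemma invariant {g : St G V → St G V} (hg : ContDiff ℝ 1 g) (hA : Adm G V g) {u : ℝ → St G V}
    {l : ℝ} (hT : 0 < T) (hp : Function.Periodic u T) (hu : ∀ t, HasDerivAt u (l • g (u t)) t)
    {s0 : ℝ} (hb : ∀ i j, (u s0 i : W) = u s0 j → Rel (u s0) i j) (s : ℝ) (i j : C)
    (hij : (u s0 i : W) = u s0 j) : (u s i : W) = u s j := by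
  have : ProperSpace (St G V) := FiniteDimensional.proper_real _
  let D : Submodule ℝ (St G V) :=
    { carrier := {y | ∀ k k', (u s0 k : W) = u s0 k' → (y k : W) = y k'}
      add_mem' := fun {a b} ha hb k k' hk => by simp [ha k k' hk, hb k k' hk]
      zero_mem' := by simp
      smul_mem' := fun c a ha k k' hk => by simp [ha k k' hk] }
  obtain ⟨gh, hgh⟩ := hA
  have hgD : ∀ y ∈ D, g y ∈ D := by
    intro y hy k k' hk
    obtain ⟨r1, r2, β, r3⟩ := hb k k' hk
    rw [hgh k k' r1 β y, hgh.self y k, hy k k' hk]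
    congr 2
    funext e
    exact (hy _ _ (r3 e)).symm
  obtain ⟨π, hπ⟩ := Submodule.ClosedComplemented.of_finiteDimensional D
  let π' : St G V →L[ℝ] St G V := D.subtypeL.comp π
  have hπ' : ∀ y ∈ D, π' y = y := fun y hy => congrArg Subtype.val (hπ ⟨y, hy⟩)
  have hπD : ∀ y, π' y ∈ D := fun y => (π y).2
  let ρ : St G V →L[ℝ] St G V := 1 - π'
  have hρ : ∀ y, ρ y = y - π' y := fun y => rfl
  have huc : Continuous u := continuous_iff_continuousAt.2 fun t => (hu t).continuousAt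
  obtain ⟨B, hB0, hB⟩ := per_bdd hT hp huc
  set R := B + ‖π'‖ * B with hR
  obtain ⟨L0, hL0⟩ := (isCompact_closedBall (0 : St G V) R).exists_bound_of_continuousOn
    (hg.continuous_fderiv one_ne_zero).continuousOn
  have hz := eq_zero_of_abs_deriv_le_mul_abs_self_of_eq_zero_right (f := fun t => ρ (u t))
    (f' := fun t => ρ (l • g (u t))) (K := |l| * ‖ρ‖ * L0) (a := s0) (b := s0 + T)
    (ρ.continuous.comp huc).continuousOn
    (fun t _ => (ρ.hasFDerivAt.comp_hasDerivAt t (hu t)).hasDerivWithinAt)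
    (by rw [hρ, hπ' _ (fun k k' hk => hk), sub_self]) (fun t _ => by
      have e1 : ρ (g (u t)) = ρ (g (u t) - g (π' (u t))) := by
        rw [map_sub, hρ (g (π' (u t))), hπ' _ (hgD _ (hπD _)), sub_self, sub_zero]
      have m1 : u t ∈ closedBall (0 : St G V) R := by
        rw [mem_closedBall_zero_iff]; nlinarith [hB t, norm_nonneg π']
      have m2 : π' (u t) ∈ closedBall (0 : St G V) R := by
        rw [mem_closedBall_zero_iff]
        have := π'.le_opNorm (u t)
        nlinarith [hB t, norm_nonneg π']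
      have e2 := (convex_closedBall (0 : St G V) R).norm_image_sub_le_of_norm_fderiv_le (𝕜 := ℝ)
        (fun z _ => hg.differentiable one_ne_zero z) hL0 m2 m1
      rw [map_smul, norm_smul, e1, Real.norm_eq_abs, mul_assoc, mul_assoc, hρ (u t)]
      gcongr
      exact (ρ.le_opNorm _).trans (by gcongr))
  obtain ⟨y, hy, e⟩ := hp.exists_mem_Ico hT s s0
  have h0 := hz y (Ico_subset_Icc_self hy)
  simp only [hρ, sub_eq_zero] at h0
  rw [e, h0]
  exact hπD _ i j hij

/-- states satisfy every rigid property, after rescaling time -/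
lemma rigid_state (hT : 0 < T) {δ0 : ℝ} (hδ0 : δ ≤ δ0) (hδT : δ * T ≤ δ0)
    (h : Sys f x T (SAdm G V) K δ S Cc L) {R : (ℝ → St G V) → ℝ → Prop}
    (hR : ∀ p, SAdm G V p →
      (∀ z ∈ K, ‖p z‖ < δ0 ∧ ‖fderiv ℝ p z‖ < δ0) → ∀ (y : ℝ → St G V) (T' : ℝ), 0 < T' →
      |T' - T| < δ0 → (∀ t, HasDerivAt y (f (y t) + p (y t)) t) → Function.Periodic y T' →
      (∀ t, ‖y (t * T' / T) - x t‖ < δ0) → R y T') {p u l} (hS : S p u l) :
    R (fun t => u (t / l)) (l * T) := by
  obtain ⟨l1, l0⟩ := h.lam _ _ _ hS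
  refine hR p (h.adm _ _ _ hS) (fun z hz => ⟨(h.small _ _ _ hS z hz).1.trans_le hδ0,
    (h.small _ _ _ hS z hz).2.trans_le hδ0⟩) _ _ (by positivity) ?_ (fun t => ?_) (fun t => ?_)
    fun t => ?_
  · rw [show l * T - T = (l - 1) * T by ring, abs_mul, abs_of_pos hT]
    exact (mul_lt_mul_of_pos_right l1 hT).trans_le hδT
  · have := (h.ode _ _ _ hS (t / l)).scomp t ((hasDerivAt_id t).div_const l)
    refine HasDerivAt.congr_deriv this ?_
    rw [smul_smul, one_div_mul_cancel l0.ne', one_smul]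
  · have := h.per _ _ _ hS (t / l)
    rw [← this]
    congr 1
    field_simp
  · rw [show t * (l * T) / T / l = t by field_simp]
    exact (h.near _ _ _ hS t).trans_le hδ0

end Pool.Agent.H92.RI
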