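import Mathlib

open scoped ContDiff

namespace Pool.Agent.H92.RI

/-- A network: nodes `C`, arrows `A`, node types `N`, arrow types `M`. -/
structure Net (C A N M : Type) where
  τ : C → N
  σ : A → M
  hd : A → C
  tl : A → C
  hh : ∀ e e', σ e = σ e' → τ (hd e) = τ (hd e')
  ht : ∀ e e', σ e = σ e' → τ (tl e) = τ (tl e')

variable {C A N M W : Type} [Fintype C] [DecidableEq C] [Fintype A]
  [NormedAddCommGroup W] [NormedSpace ℝ W] [FiniteDimensional ℝ W]

/-- The input set `I(c)`. -/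
abbrev Net.I (G : Net C A N M) (c : C) : Type := {e : A // G.hd e = c}

/-- Type-preserving bijections `I(c) → I(d)`. -/
def Net.Iso (G : Net C A N M) (c d : C) : Type :=
  {β : G.I c ≃ G.I d // ∀ e, G.σ (β e).1 = G.σ e.1}

/-- The total state space; a node of type `n` has state space `V n`. -/
abbrev St (G : Net C A N M) (V : N → Submodule ℝ W) : Type := (c : C) → V (G.τ c)

/-- `fh c` is the component function of node `c`, conditions (i) and (ii). -/
def Comp (G : Net C A N M) (V : N → Submodule ℝ W) (f : St G V → St G V)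
    (fh : (c : C) → W × (G.I c → W) → W) : Prop :=
  ∀ c d, G.τ c = G.τ d → ∀ β : G.Iso c d, ∀ x : St G V,
    (f x d : W) = fh c ((x d : W), fun e => (x (G.tl (β.1 e).1) : W))

/-- Admissible maps (no regularity asked of the component functions). -/
def Adm (G : Net C A N M) (V : N → Submodule ℝ W) (f : St G V → St G V) : Prop :=
  ∃ fh, Comp G V f fh

/-- Admissible maps with smooth component functions. -/
def SAdm (G : Net C A N M) (V : N → Submodule ℝ W) (p : St G V → St G V) : Prop :=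
  ∃ ph, (∀ c, ContDiff ℝ ∞ (ph c)) ∧ Comp G V p ph

/-- `x` is a nonconstant `T`-periodic solution of `x' = f x` whose Floquet multiplier `1` is
simple and whose other multipliers are off the unit circle. -/
def HypOrbit {P : Type} [NormedAddCommGroup P] [NormedSpace ℝ P] [FiniteDimensional ℝ P]
    (f : P → P) (x : ℝ → P) (T : ℝ) : Prop :=
  0 < T ∧ (∀ t, HasDerivAt x (f (x t)) t) ∧ Function.Periodic x T ∧ (∃ s t, x s ≠ x t) ∧
  ∃ Φ : ℝ → P →L[ℝ] P, Φ 0 = 1 ∧ (∀ t, HasDerivAt Φ ((fderiv ℝ f (x t)).comp (Φ t)) t) ∧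
    (LinearMap.charpoly (Φ T : P →ₗ[ℝ] P)).rootMultiplicity 1 = 1 ∧
    ∀ z : ℂ, Polynomial.aeval z (LinearMap.charpoly (Φ T : P →ₗ[ℝ] P)) = 0 → ‖z‖ = 1 → z = 1

/-- The property `R` (of a solution and its period) holds for the nearby periodic orbit of every
admissible field `f + p` that is `C¹`-close to `f` on a compact set `K`. -/
def Rigid (G : Net C A N M) (V : N → Submodule ℝ W) (f : St G V → St G V) (x : ℝ → St G V)
    (T : ℝ) (R : (ℝ → St G V) → ℝ → Prop) : Prop :=
  ∃ K : Set (St G V), IsCompact K ∧ ∃ δ : ℝ, 0 < δ ∧ ∀ p, SAdm G V p →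
    (∀ z ∈ K, ‖p z‖ < δ ∧ ‖fderiv ℝ p z‖ < δ) → ∀ (y : ℝ → St G V) (T' : ℝ), 0 < T' →
    |T' - T| < δ → (∀ t, HasDerivAt y (f (y t) + p (y t)) t) → Function.Periodic y T' →
    (∀ t, ‖y (t * T' / T) - x t‖ < δ) → R y T'

end Pool.Agent.H92.RI
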