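import Mathlib

namespace Pool.Agent.H92.RP
open MeasureTheory Complex Filter Topology
open scoped FourierTransform ComplexConjugate

/-- Fourier integral of a real function. -/
noncomputable def FI (φ : ℝ → ℝ) (t : ℝ) : ℂ := ∫ x, (φ x : ℂ) * exp (t * x * I)

noncomputable def bump : ContDiffBump (0 : ℝ) := ⟨1/200, 1/100, by norm_num, by norm_num⟩

noncomputable def Bs (u : ℝ) : SchwartzMap ℝ ℂ :=
  HasCompactSupport.toSchwartzMap (f := fun y => ((bump (y + u) : ℝ) : ℂ))
    (by
      have h1 : HasCompactSupport (fun y : ℝ => bump (y + u)) :=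
        bump.hasCompactSupport.comp_homeomorph (Homeomorph.addRight u)
      exact h1.comp_left (g := fun r : ℝ => (r : ℂ)) (by simp))
    (Complex.ofRealCLM.contDiff.comp (bump.contDiff.comp (by fun_prop)))

lemma Bs_apply (u y : ℝ) : Bs u y = ((bump (y + u) : ℝ) : ℂ) := rfl

lemma four_Bs (u x : ℝ) : 𝓕 (Bs u) x = exp (2 * Real.pi * u * x * I) * 𝓕 (Bs 0) x := by
  rw [SchwartzMap.fourier_coe, SchwartzMap.fourier_coe, Real.fourier_real_eq_integral_exp_smul,
    Real.fourier_real_eq_integral_exp_smul, ← integral_const_mul]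
  rw [← integral_add_right_eq_self _ (-u)]
  congr 1; ext y
  simp only [Bs_apply, smul_eq_mul, neg_add_cancel_right, add_zero]
  rw [← mul_assoc, ← Complex.exp_add]
  congr 2; push_cast; ring

lemma exists_phi0 : ∃ φ : ℝ → ℝ, Continuous φ ∧ Integrable φ ∧ (∀ x, 0 ≤ φ x) ∧ 0 < φ 0 ∧
    ∀ t, 1/5 < |t| → FI φ t = 0 := by
  refine ⟨fun x => ‖𝓕 (Bs 0) x‖ ^ 2, by fun_prop, ?_, fun x => by positivity, ?_, ?_⟩
  · have := ((𝓕 (Bs 0)).memLp 2 (volume : Measure ℝ)).integrable_norm_pow (by norm_num)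
    simpa using this
  · have h0 : 𝓕 (Bs 0) 0 = ((∫ y, bump y : ℝ) : ℂ) := by
      rw [SchwartzMap.fourier_coe, Real.fourier_real_eq_integral_exp_smul, ← integral_complex_ofReal]
      simp [Bs_apply]
    have := bump.integral_pos (μ := (volume : Measure ℝ))
    have h2 : 0 < ‖𝓕 (Bs 0) 0‖ := by
      rw [h0, Complex.norm_real, Real.norm_eq_abs]; exact abs_pos.2 this.ne'
    positivity
  · intro t ht
    set u := t / (2 * Real.pi) with hu
    have hP := SchwartzMap.integral_inner_fourier_fourier (Bs 0) (Bs u)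
    have hpi := Real.pi_pos
    have hR : ∫ y, inner ℂ (Bs 0 y) (Bs u y) = (0 : ℂ) := by
      have : ∀ y, inner ℂ (Bs 0 y) (Bs u y) = (0 : ℂ) := by
        intro y
        by_cases hy : |y| < 1/100
        · have : bump (y + u) = 0 := by
            apply bump.zero_of_le_dist
            have hu2 : 1/50 ≤ |u| := by
              rw [hu, abs_div, abs_of_pos (by positivity : 0 < 2 * Real.pi), le_div_iff₀ (by positivity)]
              have := Real.pi_le_four
              linarith
            have : |u| ≤ |y + u| + |y| := by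
              have := abs_sub (y + u) y
              simpa using this
            simp only [bump, Real.dist_eq, sub_zero]
            linarith
          simp [Bs_apply, this]
        · have : bump y = 0 := by
            apply bump.zero_of_le_dist
            simp only [bump, Real.dist_eq, sub_zero]
            linarith
          simp [Bs_apply, this]
      simp_rw [this]; simp
    rw [hR] at hP
    rw [FI, ← hP]
    congr 1; ext x
    rw [four_Bs u x]
    simp only [RCLike.inner_apply]
    have h2 : (2 * Real.pi * u * x * I : ℂ) = t * x * I := by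
      have : (Real.pi : ℂ) ≠ 0 := by exact_mod_cast hpi.ne'
      rw [hu]; push_cast; field_simp
    rw [h2, mul_assoc (cexp _), Complex.mul_conj, Complex.normSq_eq_norm_sq]
    push_cast; ring

lemma FI_scale (φ : ℝ → ℝ) (e : ℝ) (he : 0 < e) (t : ℝ) :
    FI (fun x => φ (e * x)) t = (e⁻¹ : ℝ) * FI φ (t / e) := by
  have := Measure.integral_comp_mul_left (fun y : ℝ => (φ y : ℂ) * exp ((t / e : ℝ) * y * I)) e
  rw [FI, FI, ← Complex.real_smul, ← abs_of_pos (inv_pos.2 he), ← this]
  congr 1; ext x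
  have : (e : ℂ) ≠ 0 := by exact_mod_cast he.ne'
  congr 2; push_cast; field_simp

lemma FI_smul (φ : ℝ → ℝ) (c t : ℝ) : FI (fun x => c * φ x) t = c * FI φ t := by
  rw [FI, FI, ← integral_const_mul]; congr 1; ext x; push_cast; ring

/-- probability density with compact spectrum -/
lemma exists_phi1 : ∃ φ : ℝ → ℝ, Continuous φ ∧ Integrable φ ∧ (∀ x, 0 ≤ φ x) ∧ ∫ x, φ x = 1 ∧
    ∀ t, 1/5 < |t| → FI φ t = 0 := by
  obtain ⟨φ, hc, hi, h0, hp, hF⟩ := exists_phi0
  have hpos : 0 < ∫ x, φ x := by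
    rw [integral_pos_iff_support_of_nonneg h0 hi]
    exact (hc.isOpen_support).measure_pos _ ⟨0, hp.ne'⟩
  refine ⟨fun x => (∫ x, φ x)⁻¹ * φ x, by fun_prop, hi.const_mul _, fun x => by have := h0 x; positivity, ?_, ?_⟩
  · rw [integral_const_mul]; field_simp
  · intro t ht; rw [FI_smul, hF t ht, mul_zero]

/-- majorant of an interval with compact spectrum -/
lemma exists_phiR (R : ℝ) : ∃ φ : ℝ → ℝ, Continuous φ ∧ Integrable φ ∧ (∀ x, 0 ≤ φ x) ∧
    (∀ x, |x| ≤ R → 1 ≤ φ x) ∧ ∀ t, 1/5 < |t| → FI φ t = 0 := by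
  obtain ⟨φ, hc, hi, h0, hp, hF⟩ := exists_phi0
  obtain ⟨δ, hδ, hδ2⟩ := Metric.continuous_iff.1 hc 0 (φ 0 / 2) (by linarith)
  set e := min 1 (δ / (|R| + 1)) with he
  have hR1 : 0 < |R| + 1 := by positivity
  have he0 : 0 < e := lt_min one_pos (by positivity)
  have he1 : e ≤ 1 := min_le_left _ _
  have he2 : e ≤ δ / (|R| + 1) := min_le_right _ _
  refine ⟨fun x => (2 / φ 0) * φ (e * x), by fun_prop, (hi.comp_mul_left' he0.ne').const_mul _,
    fun x => by have := h0 (e * x); positivity, ?_, ?_⟩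
  · intro x hx
    have h1 : dist (e * x) 0 < δ := by
      rw [Real.dist_eq, sub_zero, abs_mul, abs_of_pos he0]
      have : e * (|R| + 1) ≤ δ := by rwa [le_div_iff₀ hR1] at he2
      have h3 : |x| < |R| + 1 := by linarith [le_abs_self R]
      nlinarith
    have h2 := hδ2 _ h1
    rw [Real.dist_eq, abs_lt] at h2
    show 1 ≤ 2 / φ 0 * φ (e * x)
    rw [div_mul_eq_mul_div, le_div_iff₀ hp]
    linarith [h2.1]
  · intro t ht
    rw [FI_smul, FI_scale φ e he0, hF, mul_zero, mul_zero]
    rw [abs_div, abs_of_pos he0, lt_div_iff₀ he0]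
    nlinarith

end Pool.Agent.H92.RP
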