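import Pool.Agent.H92.RP1

namespace Pool.Agent.H92.RP
open MeasureTheory Complex Filter Topology

lemma int_exp {φ : ℝ → ℝ} (hi : Integrable φ) (t : ℝ) :
    Integrable (fun x : ℝ => (φ x : ℂ) * exp (t * x * I)) := by
  refine Integrable.mul_bdd (c := 1) hi.ofReal (by fun_prop) (.of_forall fun x => ?_)
  rw [← Complex.ofReal_mul, Complex.norm_exp_ofReal_mul_I]

lemma FI_mul {φ : ℝ → ℝ} (hi : Integrable φ) (a b c N t : ℝ) :
    FI (fun x => φ x * (a + b * Real.cos (N * x) + c * Real.cos (2 * N * x))) t =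
      a * FI φ t + b / 2 * (FI φ (t + N) + FI φ (t - N)) +
        c / 2 * (FI φ (t + 2 * N) + FI φ (t - 2 * N)) := by
  unfold FI
  have i2 : ∀ (k : ℂ) (s1 s2 : ℝ), Integrable (fun x : ℝ => k * ((φ x : ℂ) * exp (s1 * x * I) +
      (φ x : ℂ) * exp (s2 * x * I))) := fun k s1 s2 =>
    ((int_exp hi _).add (int_exp hi _)).const_mul _
  have i3 : Integrable (fun x : ℝ => (a : ℂ) * ((φ x : ℂ) * exp (t * x * I)) +
      b / 2 * ((φ x : ℂ) * exp ((t + N : ℝ) * x * I) + (φ x : ℂ) * exp ((t - N : ℝ) * x * I))) :=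
    ((int_exp hi _).const_mul _).add (i2 _ _ _)
  rw [← integral_add (int_exp hi _) (int_exp hi _), ← integral_add (int_exp hi _) (int_exp hi _),
    ← integral_const_mul, ← integral_const_mul, ← integral_const_mul,
    ← integral_add ((int_exp hi _).const_mul _) (i2 _ _ _), ← integral_add i3 (i2 _ _ _)]
  congr 1; ext x
  have e1 : cexp (((t + N : ℝ) : ℂ) * x * I) = cexp (t * x * I) * cexp ((N * x) * I) := by
    rw [← Complex.exp_add]; congr 1; push_cast; ring
  have e2 : cexp (((t - N : ℝ) : ℂ) * x * I) = cexp (t * x * I) * cexp (-(N * x) * I) := by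
    rw [← Complex.exp_add]; congr 1; push_cast; ring
  have e3 : cexp (((t + 2 * N : ℝ) : ℂ) * x * I) = cexp (t * x * I) * cexp ((2 * N * x) * I) := by
    rw [← Complex.exp_add]; congr 1; push_cast; ring
  have e4 : cexp (((t - 2 * N : ℝ) : ℂ) * x * I) = cexp (t * x * I) * cexp (-(2 * N * x) * I) := by
    rw [← Complex.exp_add]; congr 1; push_cast; ring
  rw [e1, e2, e3, e4]
  push_cast
  rw [Complex.cos, Complex.cos]
  ring

/-- lacunary product -/
noncomputable def PP (a b c : ℕ → ℝ) (J : ℕ) (x : ℝ) : ℝ :=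
  ∏ j ∈ Finset.range J, (a j + b j * Real.cos (8 ^ j * x) + c j * Real.cos (2 * 8 ^ j * x))

lemma PP_cont (a b c : ℕ → ℝ) (J : ℕ) : Continuous (PP a b c J) := by
  unfold PP; fun_prop

lemma PP_bdd (a b c : ℕ → ℝ) (J : ℕ) (x : ℝ) :
    |PP a b c J x| ≤ ∏ j ∈ Finset.range J, (|a j| + |b j| + |c j|) := by
  unfold PP
  rw [Finset.abs_prod]
  refine Finset.prod_le_prod (fun _ _ => abs_nonneg _) fun j _ => ?_
  have h1 : |b j * Real.cos (8 ^ j * x)| ≤ |b j| := by
    rw [abs_mul]; exact mul_le_of_le_one_right (abs_nonneg _) (Real.abs_cos_le_one _)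
  have h2 : |c j * Real.cos (2 * 8 ^ j * x)| ≤ |c j| := by
    rw [abs_mul]; exact mul_le_of_le_one_right (abs_nonneg _) (Real.abs_cos_le_one _)
  have := abs_add_three (a j) (b j * Real.cos (8 ^ j * x)) (c j * Real.cos (2 * 8 ^ j * x))
  linarith

lemma int_PP {φ : ℝ → ℝ} (hi : Integrable φ) (a b c : ℕ → ℝ) (J : ℕ) :
    Integrable (fun x => φ x * PP a b c J x) :=
  Integrable.mul_bdd hi (PP_cont a b c J).aestronglyMeasurable
    (.of_forall fun x => by rw [Real.norm_eq_abs]; exact PP_bdd a b c J x)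

lemma FI_succ {φ : ℝ → ℝ} (hi : Integrable φ) (a b c : ℕ → ℝ) (J : ℕ) (t : ℝ) :
    FI (fun x => φ x * PP a b c (J + 1) x) t =
      a J * FI (fun x => φ x * PP a b c J x) t +
      b J / 2 * (FI (fun x => φ x * PP a b c J x) (t + 8 ^ J) +
        FI (fun x => φ x * PP a b c J x) (t - 8 ^ J)) +
      c J / 2 * (FI (fun x => φ x * PP a b c J x) (t + 2 * 8 ^ J) +
        FI (fun x => φ x * PP a b c J x) (t - 2 * 8 ^ J)) := by
  rw [← FI_mul (int_PP hi a b c J)]
  congr 1; ext x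
  simp only [PP, Finset.prod_range_succ]; ring

lemma FI_PP_supp {φ : ℝ → ℝ} (hi : Integrable φ) (hF : ∀ t, 1/5 < |t| → FI φ t = 0)
    (a b c : ℕ → ℝ) (J : ℕ) : ∀ t, 8 ^ J / 3 < |t| → FI (fun x => φ x * PP a b c J x) t = 0 := by
  induction J with
  | zero => intro t ht; simp only [PP, Finset.range_zero, Finset.prod_empty, mul_one]
            apply hF; norm_num at ht ⊢; linarith
  | succ J ih =>
    intro t ht
    have h8 : (0 : ℝ) < 8 ^ J := by positivity
    rw [pow_succ] at ht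
    have k : ∀ s : ℝ, |s| ≤ 2 * 8 ^ J → FI (fun x => φ x * PP a b c J x) (t + s) = 0 := by
      intro s hs
      apply ih
      have : |t| ≤ |t + s| + |s| := by simpa using abs_sub (t + s) s
      linarith
    rw [FI_succ hi, ih t (by linarith), k _ (by rw [abs_of_pos h8]; linarith),
      sub_eq_add_neg, k _ (by rw [abs_neg, abs_of_pos h8]; linarith),
      k _ (by rw [abs_of_pos (by positivity)]), sub_eq_add_neg,
      k _ (by rw [abs_neg, abs_of_pos (by positivity)])]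
    simp

lemma FI_PP_small {φ : ℝ → ℝ} (hi : Integrable φ) (hF : ∀ t, 1/5 < |t| → FI φ t = 0)
    (a b c : ℕ → ℝ) (J : ℕ) (t : ℝ) (ht : |t| < 2 / 3 * 8 ^ J) :
    FI (fun x => φ x * PP a b c (J + 1) x) t = a J * FI (fun x => φ x * PP a b c J x) t := by
  have h8 : (0 : ℝ) < 8 ^ J := by positivity
  have k : ∀ s : ℝ, 8 ^ J ≤ |s| → FI (fun x => φ x * PP a b c J x) (t + s) = 0 := by
    intro s hs
    apply FI_PP_supp hi hF
    have : |s| ≤ |t + s| + |t| := by simpa using abs_sub (t + s) t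
    linarith
  rw [FI_succ hi, k _ (by rw [abs_of_pos h8]),
    sub_eq_add_neg, k _ (by rw [abs_neg, abs_of_pos h8]),
    k _ (by rw [abs_of_pos (by positivity)]; linarith), sub_eq_add_neg,
    k _ (by rw [abs_neg, abs_of_pos (by positivity)]; linarith)]
  simp

lemma FI_zero (φ : ℝ → ℝ) : FI φ 0 = ((∫ x, φ x : ℝ) : ℂ) := by
  simp [FI, integral_complex_ofReal]

lemma int_PP_eq {φ : ℝ → ℝ} (hi : Integrable φ) (hF : ∀ t, 1/5 < |t| → FI φ t = 0)
    (a b c : ℕ → ℝ) (J : ℕ) :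
    ∫ x, φ x * PP a b c J x = (∏ j ∈ Finset.range J, a j) * ∫ x, φ x := by
  induction J with
  | zero => simp [PP]
  | succ J ih =>
    have := FI_PP_small hi hF a b c J 0 (by simp)
    rw [FI_zero, FI_zero, ih] at this
    rw [Finset.prod_range_succ]
    have h2 : ∫ x, φ x * PP a b c (J + 1) x = a J * ((∏ j ∈ Finset.range J, a j) * ∫ x, φ x) := by
      exact_mod_cast this
    rw [h2]; ring

/-- Riesz product -/
noncomputable def RR (J : ℕ) (x : ℝ) : ℝ := PP (fun _ => 1) (fun _ => 1) (fun _ => 0) J x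

lemma RR_nonneg (J : ℕ) (x : ℝ) : 0 ≤ RR J x := by
  unfold RR PP
  refine Finset.prod_nonneg fun j _ => ?_
  have := Real.neg_one_le_cos (8 ^ j * x)
  linarith

def Spec (t : ℝ) : Prop := |t| ≤ 1/5 ∨ ∃ j : ℕ, 2 / 3 * 8 ^ j ≤ |t| ∧ |t| ≤ 4 / 3 * 8 ^ j

lemma RR_stable {φ : ℝ → ℝ} (hi : Integrable φ) (hF : ∀ t, 1/5 < |t| → FI φ t = 0)
    (J : ℕ) (t : ℝ) (ht : |t| < 2 / 3 * 8 ^ J) (K : ℕ) (hK : J ≤ K) :
    FI (fun x => φ x * RR K x) t = FI (fun x => φ x * RR J x) t := by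
  induction K, hK using Nat.le_induction with
  | base => rfl
  | succ K hK ih =>
    rw [← ih]
    have h8 : (8 : ℝ) ^ J ≤ 8 ^ K := pow_le_pow_right₀ (by norm_num) hK
    have := FI_PP_small hi hF (fun _ => 1) (fun _ => 1) (fun _ => 0) K t (by linarith)
    simpa [RR] using this

lemma RR_spec {φ : ℝ → ℝ} (hi : Integrable φ) (hF : ∀ t, 1/5 < |t| → FI φ t = 0)
    (J : ℕ) (t : ℝ) (ht : ¬ Spec t) : FI (fun x => φ x * RR J x) t = 0 := by
  unfold Spec at ht
  push Not at ht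
  induction J with
  | zero => simp only [RR, PP, Finset.range_zero, Finset.prod_empty, mul_one]
            exact hF t ht.1
  | succ J ih =>
    by_cases h : |t| < 2 / 3 * 8 ^ J
    · rw [RR_stable hi hF J t h (J + 1) (by omega), ih]
    · have h2 := ht.2 J (not_lt.1 h)
      have h8 : (0 : ℝ) < 8 ^ J := by positivity
      have k : ∀ s : ℝ, |s| ≤ 8 ^ J → FI (fun x => φ x * RR J x) (t + s) = 0 := by
        intro s hs
        apply FI_PP_supp hi hF
        have : |t| ≤ |t + s| + |s| := by simpa using abs_sub (t + s) s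
        linarith
      have := FI_succ hi (fun _ => 1) (fun _ => 1) (fun _ => 0) J t
      have k1 := k (8 ^ J) (by rw [abs_of_pos h8])
      have k2 := k (-8 ^ J) (by rw [abs_neg, abs_of_pos h8])
      rw [← sub_eq_add_neg] at k2
      unfold RR at k1 k2 ih ⊢
      rw [this, k1, k2, ih]; simp

end Pool.Agent.H92.RP
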