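import Pool.Agent.H92.RP2

namespace Pool.Agent.H92.RP
open MeasureTheory Complex Filter Topology

noncomputable def wd (f : ℝ → ℝ) : Measure ℝ := volume.withDensity (fun x => ENNReal.ofReal (f x))

lemma integral_wd {E : Type*} [NormedAddCommGroup E] [NormedSpace ℝ E] {f : ℝ → ℝ}
    (hc : Continuous f) (h0 : ∀ x, 0 ≤ f x) (g : ℝ → E) :
    ∫ x, g x ∂(wd f) = ∫ x, f x • g x := by
  rw [wd, integral_withDensity_eq_integral_toReal_smul (by fun_prop) (by simp)]
  simp_rw [ENNReal.toReal_ofReal (h0 _)]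

lemma wd_prob {f : ℝ → ℝ} (hi : Integrable f) (h0 : ∀ x, 0 ≤ f x) (h1 : ∫ x, f x = 1) :
    IsProbabilityMeasure (wd f) := by
  constructor
  rw [wd, withDensity_apply _ MeasurableSet.univ, Measure.restrict_univ,
    ← ofReal_integral_eq_lintegral_ofReal hi (.of_forall h0), h1, ENNReal.ofReal_one]

lemma charFun_wd {f : ℝ → ℝ} (hc : Continuous f) (h0 : ∀ x, 0 ≤ f x) (t : ℝ) :
    charFun (wd f) t = FI f t := by
  rw [charFun_apply_real, integral_wd hc h0, FI]
  simp_rw [Complex.real_smul]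

noncomputable def GG (J : ℕ) (x : ℝ) : ℝ := PP (fun _ => 1) (fun _ => -1/4) (fun _ => 0) J x
noncomputable def HH (J : ℕ) (x : ℝ) : ℝ := PP (fun _ => 1) (fun _ => 1/4) (fun _ => 0) J x

lemma RR_GG (J K : ℕ) (h : J ≤ K) (x : ℝ) : RR K x * GG J x =
    PP (fun j => if j < J then 7/8 else 1) (fun j => if j < J then 3/4 else 1)
      (fun j => if j < J then -1/8 else 0) K x := by
  induction K, h using Nat.le_induction with
  | base =>
    unfold RR GG PP
    rw [← Finset.prod_mul_distrib]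
    refine Finset.prod_congr rfl fun j hj => ?_
    rw [Finset.mem_range] at hj
    simp only [hj, if_true]
    rw [mul_assoc 2, Real.cos_two_mul]; ring
  | succ K hK ih =>
    unfold RR PP at *
    rw [Finset.prod_range_succ, Finset.prod_range_succ, ← ih]
    have : ¬ K < J := by omega
    simp only [this, if_false]; ring

lemma exists_nu {φ : ℝ → ℝ} (hc : Continuous φ) (hi : Integrable φ) (h0 : ∀ x, 0 ≤ φ x)
    (h1 : ∫ x, φ x = 1) (hF : ∀ t, 1/5 < |t| → FI φ t = 0) :
    ∃ ν : Measure ℝ, IsProbabilityMeasure ν ∧ (∀ t, |t| < 2/3 → charFun ν t = FI φ t) ∧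
      (∀ t, ¬ Spec t → charFun ν t = 0) ∧ ∀ J, ∫ x, GG J x ∂ν = (7/8) ^ J := by
  have hcR : ∀ J, Continuous (fun x => φ x * RR J x) := fun J => hc.mul (PP_cont _ _ _ _)
  have h0R : ∀ J x, 0 ≤ φ x * RR J x := fun J x => mul_nonneg (h0 x) (RR_nonneg J x)
  have hP : ∀ J, IsProbabilityMeasure (wd (fun x => φ x * RR J x)) := fun J =>
    wd_prob (int_PP hi _ _ _ _) (h0R J) (by unfold RR; rw [int_PP_eq hi hF]; simp [h1])
  let μ : ℕ → ProbabilityMeasure ℝ := fun J => ⟨wd (fun x => φ x * RR J x), hP J⟩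
  have hμ : ∀ J t, charFun (μ J : Measure ℝ) t = FI (fun x => φ x * RR J x) t := fun J t =>
    charFun_wd (hcR J) (h0R J) t
  have hex : ∀ t : ℝ, ∃ J : ℕ, |t| < 2 / 3 * 8 ^ J := by
    intro t
    obtain ⟨J, hJ⟩ := pow_unbounded_of_one_lt (3 / 2 * |t|) (by norm_num : (1 : ℝ) < 8)
    exact ⟨J, by linarith⟩
  choose Jt hJt using hex
  let f : ℝ → ℂ := fun t => FI (fun x => φ x * RR (Jt t) x) t
  have hlim : ∀ t, Tendsto (fun J => charFun (μ J : Measure ℝ) t) atTop (𝓝 (f t)) := by
    intro t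
    refine tendsto_const_nhds.congr' ?_
    filter_upwards [eventually_ge_atTop (Jt t)] with K hK
    rw [hμ, RR_stable hi hF (Jt t) t (hJt t) K hK]
  have hf0 : ∀ t, |t| < 2/3 → f t = FI φ t := by
    intro t ht
    have := RR_stable hi hF 0 t (by simpa using ht) (Jt t) (Nat.zero_le _)
    show FI (fun x => φ x * RR (Jt t) x) t = _
    rw [this]; simp [RR, PP]
  have hfc : ContinuousAt f 0 := by
    have := wd_prob hi h0 h1
    have h2 : ContinuousAt (charFun (wd φ)) 0 := continuous_charFun.continuousAt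
    refine h2.congr ?_
    have : ∀ᶠ t : ℝ in 𝓝 0, |t| < 2/3 :=
      (continuous_abs.tendsto' (0 : ℝ) 0 abs_zero).eventually (gt_mem_nhds (by norm_num))
    filter_upwards [this] with t ht
    rw [hf0 t ht, charFun_wd hc h0]
  have htight : IsTightMeasureSet (Set.range fun J => (μ J : Measure ℝ)) :=
    isTightMeasureSet_of_tendsto_charFun hfc hlim
  have hcomp : IsCompact (closure (Set.range μ)) := by
    apply isCompact_closure_of_isTightMeasureSet
    convert htight using 1
    ext m; simp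
  obtain ⟨ν, -, s, hs, hν⟩ := hcomp.tendsto_subseq (x := μ) (fun n => subset_closure ⟨n, rfl⟩)
  have hch : ∀ t, charFun (ν : Measure ℝ) t = f t := by
    intro t
    have h2 := ProbabilityMeasure.tendsto_iff_tendsto_charFun.1 hν t
    exact tendsto_nhds_unique h2 ((hlim t).comp hs.tendsto_atTop)
  refine ⟨ν, inferInstance, fun t ht => by rw [hch, hf0 t ht], fun t ht => ?_, fun J => ?_⟩
  · rw [hch]; exact RR_spec hi hF _ t ht
  · let g : BoundedContinuousFunction ℝ ℝ := BoundedContinuousFunction.ofNormedAddCommGroup (GG J)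
      (PP_cont _ _ _ _) _ (fun x => by rw [Real.norm_eq_abs]; exact PP_bdd _ _ _ _ x)
    have h2 := ProbabilityMeasure.tendsto_iff_forall_integral_tendsto.1 hν g
    refine tendsto_nhds_unique h2 (tendsto_const_nhds.congr' ?_)
    filter_upwards [eventually_ge_atTop J] with K hK
    have hK2 : J ≤ s K := hK.trans (hs.id_le K)
    show _ = ∫ x, GG J x ∂(wd (fun x => φ x * RR (s K) x))
    rw [integral_wd (hcR _) (h0R _)]
    simp_rw [smul_eq_mul, mul_assoc, RR_GG J _ hK2]
    rw [int_PP_eq hi hF, h1, mul_one, ← Finset.prod_range_mul_prod_Ico _ hK2]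
    rw [Finset.prod_congr rfl (g := fun _ => (7/8 : ℝ)) (fun j hj => by simp [Finset.mem_range.1 hj]),
      Finset.prod_eq_one (s := Finset.Ico J (s K))
        (fun j hj => by simp [not_lt.2 (Finset.mem_Ico.1 hj).1])]
    simp [div_pow]

end Pool.Agent.H92.RP
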