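import Pool.Agent.H92.RP3

namespace Pool.Agent.H92.RP
open MeasureTheory Filter Topology Set
open scoped ENNReal NNReal

lemma GG_succ (J : ℕ) (x : ℝ) : GG (J + 1) x = GG J x * (1 - Real.cos (8 ^ J * x) / 4) := by
  simp only [GG, PP, Finset.prod_range_succ]; ring

lemma HH_succ (J : ℕ) (x : ℝ) : HH (J + 1) x = HH J x * (1 + Real.cos (8 ^ J * x) / 4) := by
  simp only [HH, PP, Finset.prod_range_succ]; ring

lemma GG_pos (J : ℕ) (x : ℝ) : 0 < GG J x := by
  induction J with
  | zero => simp [GG, PP]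
  | succ J ih => rw [GG_succ]; have := Real.cos_le_one (8 ^ J * x); exact mul_pos ih (by linarith)

lemma HH_pos (J : ℕ) (x : ℝ) : 0 < HH J x := by
  induction J with
  | zero => simp [HH, PP]
  | succ J ih =>
    rw [HH_succ]; have := Real.neg_one_le_cos (8 ^ J * x); exact mul_pos ih (by linarith)

lemma GG_HH (J : ℕ) (x : ℝ) : (15/16) ^ J ≤ GG J x * HH J x := by
  induction J with
  | zero => simp [GG, HH, PP]
  | succ J ih =>
    rw [GG_succ, HH_succ, pow_succ]
    have h := Real.cos_sq_le_one (8 ^ J * x)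
    have h2 : (15/16 : ℝ) ≤ (1 - Real.cos (8 ^ J * x) / 4) * (1 + Real.cos (8 ^ J * x) / 4) := by
      nlinarith
    calc (15/16 : ℝ) ^ J * (15/16) ≤ (GG J x * HH J x) *
          ((1 - Real.cos (8 ^ J * x) / 4) * (1 + Real.cos (8 ^ J * x) / 4)) :=
          mul_le_mul ih h2 (by norm_num) (mul_pos (GG_pos J x) (HH_pos J x)).le
      _ = _ := by ring

lemma GG_lip (J : ℕ) (x y : ℝ) : GG J y ≤ Real.exp (|x - y| * 8 ^ J / 3) * GG J x := by
  induction J with
  | zero => simp only [GG, PP, Finset.range_zero, Finset.prod_empty, mul_one]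
            exact Real.one_le_exp (by positivity)
  | succ J ih =>
    rw [GG_succ, GG_succ]
    set δ := |x - y| * 8 ^ J with hδ
    have hδ0 : 0 ≤ δ := by positivity
    have h1 : |Real.cos (8 ^ J * x) - Real.cos (8 ^ J * y)| ≤ δ := by
      refine (Real.abs_cos_sub_cos_le _ _).trans (le_of_eq ?_)
      rw [← mul_sub, abs_mul, abs_of_pos (by positivity : (0 : ℝ) < 8 ^ J), mul_comm]
    have h2 := Real.cos_le_one (8 ^ J * x)
    have h2' := Real.cos_le_one (8 ^ J * y)
    have h3 : 1 - Real.cos (8 ^ J * y) / 4 ≤ Real.exp (δ / 3) * (1 - Real.cos (8 ^ J * x) / 4) := by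
      have h4 := Real.add_one_le_exp (δ / 3)
      have h5 := (abs_le.1 h1).2
      nlinarith
    have h6 : Real.exp (δ / 3) * Real.exp (δ / 3) ≤ Real.exp (|x - y| * 8 ^ (J + 1) / 3) := by
      rw [← Real.exp_add]; apply Real.exp_le_exp.2
      rw [pow_succ, ← mul_assoc, ← hδ]; linarith
    have h7 := GG_pos J x
    calc GG J y * (1 - Real.cos (8 ^ J * y) / 4)
        ≤ (Real.exp (δ / 3) * GG J x) * (Real.exp (δ / 3) * (1 - Real.cos (8 ^ J * x) / 4)) :=
          mul_le_mul ih h3 (by linarith) (by positivity)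
      _ = (Real.exp (δ / 3) * Real.exp (δ / 3)) * (GG J x * (1 - Real.cos (8 ^ J * x) / 4)) := by
          ring
      _ ≤ _ := mul_le_mul_of_nonneg_right h6 (mul_nonneg h7.le (by linarith))

def F1 (R : ℝ) : Set ℝ := {x | |x| ≤ R ∧ ∀ J : ℕ, GG J x ≤ 100 * (147/160) ^ J}

lemma F1_closed (R : ℝ) : IsClosed (F1 R) := by
  have : F1 R = {x | |x| ≤ R} ∩ ⋂ J : ℕ, {x | GG J x ≤ 100 * (147/160) ^ J} := by
    ext x; simp [F1]
  rw [this]
  exact (isClosed_le continuous_abs continuous_const).inter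
    (isClosed_iInter fun J => isClosed_le (PP_cont _ _ _ _) continuous_const)

lemma nu_F1 (ν : Measure ℝ) [IsProbabilityMeasure ν] (h : ∀ J, ∫ x, GG J x ∂ν = (7/8) ^ J) :
    ∃ R : ℝ, ν (F1 R) ≠ 0 := by
  by_contra hc
  push Not at hc
  let B : ℕ → Set ℝ := fun J => {x | 100 * (147/160) ^ J ≤ GG J x}
  have hB : ∀ J, ν (B J) ≤ ENNReal.ofReal (1 / 100 * (20/21) ^ J) := by
    intro J
    have hi : Integrable (GG J) ν :=
      Integrable.of_bound (PP_cont _ _ _ _).aestronglyMeasurable _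
        (.of_forall fun x => by rw [Real.norm_eq_abs]; exact PP_bdd _ _ _ _ x)
    have h1 := mul_meas_ge_le_integral_of_nonneg (.of_forall fun x => (GG_pos J x).le) hi
      (100 * (147/160) ^ J)
    rw [h] at h1
    rw [← ofReal_measureReal]
    apply ENNReal.ofReal_le_ofReal
    have h2 : (7/8 : ℝ) ^ J = (100 * (147/160) ^ J) * (1 / 100 * (20/21) ^ J) := by
      rw [show (7/8 : ℝ) = (147/160) * (20/21) by norm_num, mul_pow]; ring
    rw [h2] at h1
    exact le_of_mul_le_mul_left h1 (by positivity)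
  have hsum : ν (⋃ J, B J) ≤ ENNReal.ofReal (21/100) := by
    refine (measure_iUnion_le _).trans ((ENNReal.tsum_le_tsum hB).trans (le_of_eq ?_))
    have hs := (hasSum_geometric_of_lt_one (r := (20/21 : ℝ)) (by norm_num) (by norm_num)).mul_left
      (1 / 100)
    rw [← ENNReal.ofReal_tsum_of_nonneg (fun J => by positivity) hs.summable, hs.tsum_eq]
    norm_num
  have hU : (univ : Set ℝ) ⊆ (⋃ J, B J) ∪ ⋃ n : ℕ, F1 n := by
    intro x _
    by_cases hx : x ∈ ⋃ J, B J
    · exact Or.inl hx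
    · right
      obtain ⟨n, hn⟩ := exists_nat_ge |x|
      simp only [mem_iUnion, not_exists, B, mem_ofPred_eq, not_le] at hx
      exact mem_iUnion.2 ⟨n, hn, fun J => (hx J).le⟩
  have h1 := (measure_mono (μ := ν) hU).trans (measure_union_le _ _)
  rw [measure_iUnion_null (fun n : ℕ => hc n), add_zero, measure_univ] at h1
  have h2 := h1.trans hsum
  rw [← ENNReal.ofReal_one, ENNReal.ofReal_le_ofReal_iff (by norm_num)] at h2
  norm_num at h2

def cell (J : ℕ) (k : ℤ) : Set ℝ := Ico (k / 8 ^ J) ((k + 1) / 8 ^ J)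

lemma mem_cell (J : ℕ) (k : ℤ) (y : ℝ) : y ∈ cell J k ↔ ⌊8 ^ J * y⌋ = k := by
  have h8 : (0 : ℝ) < 8 ^ J := by positivity
  rw [cell, mem_Ico, Int.floor_eq_iff, div_le_iff₀ h8, lt_div_iff₀ h8, mul_comm]

lemma count (R : ℝ) : ∃ C : ℝ, 0 ≤ C ∧ ∀ J : ℕ, ∃ S : Finset ℤ, (F1 R ⊆ ⋃ k ∈ S, cell J k) ∧
    (S.card : ℝ) ≤ C * (49/50 * 8) ^ J := by
  classical
  obtain ⟨φ, hc, hi, h0, h1, hF⟩ := exists_phiR (R + 1)
  have hI : 0 ≤ ∫ x, φ x := integral_nonneg h0
  refine ⟨(∫ x, φ x) * (Real.exp (1/3) * 100), by positivity, fun J => ?_⟩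
  have h8 : (0 : ℝ) < 8 ^ J := by positivity
  have h81 : (1 : ℝ) ≤ 8 ^ J := one_le_pow₀ (by norm_num)
  let S := (Finset.Icc ⌊8 ^ J * (-R)⌋ ⌊8 ^ J * R⌋).filter (fun k => ∃ x ∈ F1 R, x ∈ cell J k)
  refine ⟨S, fun x hx => ?_, ?_⟩
  · simp only [mem_iUnion]
    refine ⟨⌊8 ^ J * x⌋, ?_, (mem_cell _ _ _).2 rfl⟩
    have := abs_le.1 hx.1
    refine Finset.mem_filter.2 ⟨Finset.mem_Icc.2 ⟨Int.floor_le_floor ?_, Int.floor_le_floor ?_⟩,
      x, hx, (mem_cell _ _ _).2 rfl⟩
    · exact mul_le_mul_of_nonneg_left this.1 h8.le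
    · exact mul_le_mul_of_nonneg_left this.2 h8.le
  · set U := ⋃ k ∈ S, cell J k with hU
    have hvol : volume.real U = S.card / 8 ^ J := by
      rw [hU, measureReal_biUnion_finset (f := cell J) _ (fun k _ => measurableSet_Ico)
        (fun k _ => by simp [cell])]
      · rw [Finset.sum_congr rfl (g := fun _ => 1 / (8 : ℝ) ^ J)]
        · simp [div_eq_mul_inv]
        · intro k _
          rw [cell, Real.volume_real_Ico_of_le (by gcongr; linarith)]; ring
      · intro k _ l _ hkl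
        refine Set.disjoint_left.2 fun y hy hy' => hkl ?_
        rw [← (mem_cell _ _ _).1 hy, ← (mem_cell _ _ _).1 hy']
    set c : ℝ := (15/16) ^ J / (Real.exp (1/3) * 100 * (147/160) ^ J) with hcdef
    have hlow : ∀ y ∈ U, c ≤ φ y * HH J y := by
      intro y hy
      simp only [hU, mem_iUnion] at hy
      obtain ⟨k, hk, hy⟩ := hy
      obtain ⟨x, hx, hxk⟩ := (Finset.mem_filter.1 hk).2
      have hxy : |x - y| * 8 ^ J ≤ 1 := by
        rw [cell, mem_Ico, div_le_iff₀ h8, lt_div_iff₀ h8] at hy hxk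
        rw [← abs_of_pos h8, ← abs_mul, abs_le]
        constructor <;> linarith [hy.1, hy.2, hxk.1, hxk.2]
      have hxy2 : |x - y| ≤ 1 := by nlinarith [abs_nonneg (x - y)]
      have hy1 : |y| ≤ R + 1 := by
        have : |y| ≤ |x| + |x - y| := by simpa using abs_sub x (x - y)
        linarith [hx.1]
      have hG : GG J y ≤ Real.exp (1/3) * 100 * (147/160) ^ J := by
        refine (GG_lip J x y).trans ?_
        rw [mul_assoc]
        exact mul_le_mul (Real.exp_le_exp.2 (by linarith)) (hx.2 J) (GG_pos J x).le (by positivity)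
      have hH : c ≤ HH J y := by
        rw [hcdef, div_le_iff₀ (by positivity)]
        refine (GG_HH J y).trans ?_
        rw [mul_comm]
        exact mul_le_mul_of_nonneg_left hG (HH_pos J y).le
      exact hH.trans (le_mul_of_one_le_left (HH_pos J y).le (h1 y hy1))
    have hint : Integrable (fun y => φ y * HH J y) := int_PP hi _ _ _ _
    have hUm : MeasurableSet U := Finset.measurableSet_biUnion _ fun k _ => measurableSet_Ico
    have hUf : volume U ≠ ∞ := by
      refine (measure_biUnion_lt_top S.finite_toSet fun k _ => ?_).ne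
      simp [cell]
    have h2 := (setIntegral_ge_of_const_le_real hUm hUf hlow hint.integrableOn).trans
      (setIntegral_le_integral hint (.of_forall fun y => mul_nonneg (h0 y) (HH_pos J y).le))
    have h3 : ∫ y, φ y * HH J y = ∫ y, φ y := by unfold HH; rw [int_PP_eq hi hF]; simp
    rw [h3, hvol, hcdef, div_mul_div_comm, div_le_iff₀ (by positivity)] at h2
    have h4 : (147/160 : ℝ) ^ J * 8 ^ J = (15/16) ^ J * (49/50 * 8) ^ J := by
      rw [← mul_pow, ← mul_pow]; norm_num
    have h5 : (0 : ℝ) < (15/16) ^ J := by positivity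
    refine le_of_mul_le_mul_left ?_ h5
    calc _ ≤ _ := h2
      _ = (∫ x, φ x) * (Real.exp (1/3) * 100) * ((147/160 : ℝ) ^ J * 8 ^ J) := by ring
      _ = _ := by rw [h4]; ring

lemma vol_F1 (R : ℝ) : volume (F1 R) = 0 := by
  obtain ⟨C, hC, h⟩ := count R
  have hle : ∀ J : ℕ, volume (F1 R) ≤ ENNReal.ofReal (C * (49/50) ^ J) := by
    intro J
    obtain ⟨S, hS, hcard⟩ := h J
    have h8 : (0 : ℝ) < 8 ^ J := by positivity
    refine (measure_mono hS).trans ((measure_biUnion_finset_le _ _).trans ?_)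
    rw [Finset.sum_congr rfl (g := fun _ => ENNReal.ofReal (1 / (8 : ℝ) ^ J))
      (fun k _ => by rw [cell, Real.volume_Ico]; congr 1; ring)]
    rw [Finset.sum_const, nsmul_eq_mul, ← ENNReal.ofReal_natCast,
      ← ENNReal.ofReal_mul (by positivity)]
    apply ENNReal.ofReal_le_ofReal
    rw [mul_one_div, div_le_iff₀ h8, mul_assoc, ← mul_pow]; exact hcard
  have ht : Tendsto (fun J : ℕ => ENNReal.ofReal (C * (49/50) ^ J)) atTop (𝓝 0) := by
    have := ((tendsto_pow_atTop_nhds_zero_of_lt_one (r := (49/50 : ℝ)) (by norm_num)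
      (by norm_num)).const_mul C)
    simpa using ENNReal.tendsto_ofReal this
  exact le_antisymm (ge_of_tendsto' ht hle) (zero_le)

lemma dim_F (R : ℝ) (n : ℕ) (hn : (49/50 : ℝ) ^ (n + 2) * 64 ≤ 1) :
    dimH (Set.pi univ (fun _ : Fin (n + 2) => F1 R)) ≤ n := by
  classical
  obtain ⟨C, hC, h⟩ := count R
  choose S hS hcard using h
  have key := Measure.hausdorffMeasure_le_liminf_sum (X := Fin (n + 2) → ℝ) (l := atTop)
    (ι := fun J : ℕ => Fin (n + 2) → S J) (n : ℝ)
    (Set.pi univ (fun _ : Fin (n + 2) => F1 R)) (fun J => ENNReal.ofReal ((1/8) ^ J))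
    (by
      simpa using ENNReal.tendsto_ofReal (tendsto_pow_atTop_nhds_zero_of_lt_one (r := (1/8 : ℝ))
        (by norm_num) (by norm_num)))
    (fun J κ => Set.pi univ (fun l => cell J (κ l)))
    (.of_forall fun J κ => Metric.ediam_pi_le_of_le fun l => by
      rw [cell, Real.ediam_Ico]; apply le_of_eq; congr 1; rw [one_div, inv_pow]; ring)
    (.of_forall fun J x hx => by
      have : ∀ l, ∃ k : S J, x l ∈ cell J k := by
        intro l
        have := hS J (hx l (mem_univ l))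
        simp only [mem_iUnion] at this
        obtain ⟨k, hk, hx⟩ := this
        exact ⟨⟨k, hk⟩, hx⟩
      choose κ hκ using this
      exact mem_iUnion.2 ⟨κ, fun l _ => hκ l⟩)
  have hb : ∀ J : ℕ, ∑ κ : Fin (n + 2) → S J,
      Metric.ediam (Set.pi univ (fun l => cell J (κ l))) ^ (n : ℝ) ≤ ENNReal.ofReal (C ^ (n + 2)) := by
    intro J
    have h1 : ∀ κ : Fin (n + 2) → S J, Metric.ediam (Set.pi univ (fun l => cell J (κ l))) ^ (n : ℝ)
        ≤ ENNReal.ofReal (((1/8) ^ J) ^ n) := by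
      intro κ
      rw [ENNReal.rpow_natCast, ENNReal.ofReal_pow (by positivity)]
      refine pow_le_pow_left' (Metric.ediam_pi_le_of_le fun l => ?_) n
      rw [cell, Real.ediam_Ico]; apply le_of_eq; congr 1; rw [one_div, inv_pow]; ring
    refine (Finset.sum_le_sum fun κ _ => h1 κ).trans ?_
    rw [Finset.sum_const, Finset.card_univ, Fintype.card_fun, Fintype.card_fin, Fintype.card_coe,
      nsmul_eq_mul, ← ENNReal.ofReal_natCast, ← ENNReal.ofReal_mul (by positivity)]
    apply ENNReal.ofReal_le_ofReal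
    push_cast
    have h2 : ((S J).card : ℝ) ^ (n + 2) ≤ (C * (49/50 * 8) ^ J) ^ (n + 2) :=
      pow_le_pow_left₀ (by positivity) (hcard J) _
    have h3 : (C * (49/50 * 8) ^ J) ^ (n + 2) * ((1/8 : ℝ) ^ J) ^ n =
        C ^ (n + 2) * ((49/50 : ℝ) ^ (n + 2) * 64) ^ J := by
      have e : ((49/50 : ℝ) ^ (n + 2) * 64) = (49/50 * 8) ^ (n + 2) * (1/8) ^ n := by
        rw [mul_pow (49/50 : ℝ) 8, mul_assoc, pow_add (8 : ℝ), mul_right_comm ((8 : ℝ) ^ n),
          ← mul_pow]
        norm_num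
      rw [e, mul_pow C, mul_pow ((49/50 * 8 : ℝ) ^ (n + 2)), ← pow_mul, ← pow_mul, ← pow_mul,
        ← pow_mul, mul_comm J, mul_comm J, mul_assoc]
    calc _ ≤ (C * (49/50 * 8) ^ J) ^ (n + 2) * ((1/8 : ℝ) ^ J) ^ n :=
          mul_le_mul_of_nonneg_right h2 (by positivity)
      _ = _ := h3
      _ ≤ C ^ (n + 2) * 1 :=
          mul_le_mul_of_nonneg_left (pow_le_one₀ (by positivity) hn) (by positivity)
      _ = _ := mul_one _
  have hfin : μH[(n : ℝ)] (Set.pi univ (fun _ : Fin (n + 2) => F1 R)) ≠ ∞ := by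
    refine ne_top_of_le_ne_top (ENNReal.ofReal_ne_top (r := C ^ (n + 2))) (key.trans ?_)
    exact liminf_le_of_frequently_le' (Frequently.of_forall hb)
  have := dimH_le_of_hausdorffMeasure_ne_top (d := (n : ℝ≥0)) (by simpa using hfin)
  simpa using this

end Pool.Agent.H92.RP
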