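import Pool.Agent.H92.RP4

namespace Pool.Agent.H92.RP
open MeasureTheory Filter Topology Set
open scoped ENNReal NNReal ContDiff

lemma exists_max {d : ℕ} (t : Fin (d + 1) → ℝ) : ∃ m, |t m| = ‖t‖ := by
  obtain ⟨m, -, hm⟩ := Finset.exists_max_image Finset.univ (fun l => |t l|) Finset.univ_nonempty
  refine ⟨m, le_antisymm (norm_le_pi_norm t m) ?_⟩
  exact (pi_norm_le_iff_of_nonneg (abs_nonneg _)).2 fun l => hm l (Finset.mem_univ l)

def Bad {d : ℕ} (t : Fin d → ℝ) : Prop := ∃ l, 3/10 * ‖t‖ < |t l| ∧ |t l| < 1/2 * ‖t‖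

lemma Bad.smul {d : ℕ} {t : Fin d → ℝ} (h : Bad t) {c : ℝ} (hc : c ≠ 0) : Bad (c • t) := by
  obtain ⟨l, h1, h2⟩ := h
  have : 0 < |c| := abs_pos.2 hc
  refine ⟨l, ?_, ?_⟩ <;> rw [norm_smul, Pi.smul_apply, smul_eq_mul, abs_mul, Real.norm_eq_abs] <;>
    nlinarith

lemma spec_bad {d : ℕ} (a b : ℝ → ℂ) (h1 : ∀ t, |t| < 2/3 → a t = b t)
    (h2 : ∀ t, ¬ Spec t → a t = 0) (h3 : ∀ t, 1/5 < |t| → b t = 0) (t : Fin (d + 1) → ℝ)
    (ht : Bad t) : ∏ l, a (t l) = ∏ l, b (t l) := by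
  obtain ⟨l, hl1, hl2⟩ := ht
  by_cases hn : ‖t‖ < 2/3
  · exact Finset.prod_congr rfl fun i _ => h1 _ (lt_of_le_of_lt (norm_le_pi_norm t i) hn)
  push Not at hn
  obtain ⟨m, hm⟩ := exists_max t
  rw [Finset.prod_eq_zero (f := fun l => b (t l)) (Finset.mem_univ m) (h3 _ (by linarith))]
  by_cases hsm : Spec (t m)
  swap
  · exact Finset.prod_eq_zero (Finset.mem_univ m) (h2 _ hsm)
  refine Finset.prod_eq_zero (Finset.mem_univ l) (h2 _ fun hsl => ?_)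
  rcases hsm with h | ⟨j, hj1, hj2⟩
  · linarith
  rcases hsl with h | ⟨i, hi1, hi2⟩
  · linarith
  rcases le_or_gt j i with hij | hij
  · have : (8 : ℝ) ^ j ≤ 8 ^ i := pow_le_pow_right₀ (by norm_num) hij
    linarith
  · have : (8 : ℝ) ^ (i + 1) ≤ 8 ^ j := pow_le_pow_right₀ (by norm_num) hij
    rw [pow_succ] at this
    have h8 : (0 : ℝ) < 8 ^ i := by positivity
    linarith

lemma isOpen_bad (d : ℕ) : IsOpen {ξ : EuclideanSpace ℝ (Fin d) | Bad ξ.ofLp} := by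
  have : {ξ : EuclideanSpace ℝ (Fin d) | Bad ξ.ofLp} = ⋃ l, ({ξ | 3/10 * ‖ξ.ofLp‖ < |ξ.ofLp l|} ∩
      {ξ | |ξ.ofLp l| < 1/2 * ‖ξ.ofLp‖}) := by
    ext ξ; simp [Bad]
  rw [this]
  exact isOpen_iUnion fun l => (isOpen_lt (by fun_prop) (by fun_prop)).inter
    (isOpen_lt (by fun_prop) (by fun_prop))

lemma plane_bad {d : ℕ} (L : Submodule ℝ (EuclideanSpace ℝ (Fin (d + 1))))
    (hL : Module.finrank ℝ L = 2) : ∃ ξ ∈ L, ‖ξ‖ = 1 ∧ Bad ξ.ofLp := by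
  have hL0 : L ≠ ⊥ := by rintro rfl; simp at hL
  obtain ⟨u, hu, hu0⟩ := Submodule.exists_mem_ne_zero_of_ne_bot hL0
  obtain ⟨l, hl⟩ := exists_max u.ofLp
  let f : L →ₗ[ℝ] ℝ := (EuclideanSpace.projₗ l).comp L.subtype
  have hk : LinearMap.ker f ≠ ⊥ := LinearMap.ker_ne_bot_of_finrank_lt (by simp [hL])
  obtain ⟨v, hv, hv0⟩ := Submodule.exists_mem_ne_zero_of_ne_bot hk
  have hvl : (v : EuclideanSpace ℝ (Fin (d + 1))).ofLp l = 0 := hv
  have hun : 0 < ‖u.ofLp‖ := norm_pos_iff.2 (by simpa using hu0)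
  have hvn : 0 < ‖(v : EuclideanSpace ℝ (Fin (d + 1))).ofLp‖ :=
    norm_pos_iff.2 (by simpa using hv0)
  let γ : ℝ → EuclideanSpace ℝ (Fin (d + 1)) := fun s => (1 - s) • u + s • (v : _)
  let g : ℝ → ℝ := fun s => |(γ s).ofLp l| - 2/5 * ‖(γ s).ofLp‖
  have hg : Continuous g := by fun_prop
  have hg0 : 0 < g 0 := by simp only [g, γ]; simp [hl]; linarith
  have hg1 : g 1 < 0 := by simp only [g, γ]; simpa [hvl] using hv0
  obtain ⟨s, hs, hgs⟩ := intermediate_value_Icc' (zero_le_one) hg.continuousOn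
    (show (0 : ℝ) ∈ Icc (g 1) (g 0) from ⟨hg1.le, hg0.le⟩)
  have hs1 : s ≠ 1 := by rintro rfl; linarith
  have hγl : (γ s).ofLp l ≠ 0 := by
    simp only [γ, PiLp.add_apply, PiLp.smul_apply, hvl, smul_eq_mul, mul_zero, add_zero]
    refine mul_ne_zero (sub_ne_zero.2 hs1.symm) ?_
    intro h; rw [h, abs_zero] at hl; linarith
  have hγ0 : γ s ≠ 0 := by intro h; rw [h] at hγl; simp at hγl
  have hpos : 0 < |(γ s).ofLp l| := abs_pos.2 hγl
  have hb : Bad (γ s).ofLp := by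
    simp only [g] at hgs
    exact ⟨l, by linarith, by linarith⟩
  have hn : ‖γ s‖ ≠ 0 := norm_ne_zero_iff.2 hγ0
  refine ⟨‖γ s‖⁻¹ • γ s, L.smul_mem _ (L.add_mem (L.smul_mem _ hu) (L.smul_mem _ v.2)), ?_, ?_⟩
  · rw [norm_smul, norm_inv, norm_norm, inv_mul_cancel₀ hn]
  · exact hb.smul (inv_ne_zero hn)

lemma bad_ne {d : ℕ} {t : Fin (d + 1) → ℝ} (h : Bad t) : ∃ i, i ≠ 0 ∧ t i ≠ 0 := by
  obtain ⟨l, h1, h2⟩ := h
  obtain ⟨m, hm⟩ := exists_max t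
  have h0 := norm_nonneg t
  have hl : t l ≠ 0 := abs_pos.1 (by linarith)
  have hm0 : t m ≠ 0 := abs_pos.1 (by linarith [abs_nonneg (t l)])
  by_cases hl0 : l = 0
  · refine ⟨m, ?_, hm0⟩
    rintro rfl; subst hl0; linarith
  · exact ⟨l, hl0, hl⟩

lemma exists_omega (d : ℕ) : ∃ w : EuclideanSpace ℝ (Fin (d + 1)) → (Fin (d + 1) → ℂ),
    ContDiff ℝ ∞ w ∧ (∀ ξ, w ξ 0 = 1) ∧ (∀ ξ, ¬ Bad ξ.ofLp → w ξ = Pi.single 0 1) ∧
    ∀ ξ, Bad ξ.ofLp → Submodule.span ℂ {w ξ} ⊓ Submodule.span ℂ {w (-ξ)} = ⊥ := by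
  obtain ⟨ψ, hs, hψ, hr⟩ := (isOpen_bad (d + 1)).exists_contDiff_support_eq (n := ⊤)
  have h0 : ∀ ξ, 0 ≤ ψ ξ := fun ξ => (hr ⟨ξ, rfl⟩).1
  refine ⟨fun ξ i => if i = 0 then 1 else ((ψ ξ * ξ.ofLp i : ℝ) : ℂ), ?_, fun ξ => by simp, ?_, ?_⟩
  · refine contDiff_pi.2 fun i => ?_
    by_cases hi : i = 0
    · simp only [hi, if_true]; exact contDiff_const
    · simp only [hi, if_false]
      exact Complex.ofRealCLM.contDiff.comp (hψ.mul (EuclideanSpace.proj (𝕜 := ℝ) i).contDiff)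
  · intro ξ hξ
    have : ψ ξ = 0 := by
      by_contra h
      exact hξ (show ξ ∈ {ξ : EuclideanSpace ℝ (Fin (d + 1)) | Bad ξ.ofLp} from hs ▸ h)
    ext i
    by_cases hi : i = 0
    · simp [hi]
    · simp [hi, this]
  · intro ξ hξ
    have hp : 0 < ψ ξ := by
      have : ξ ∈ Function.support ψ := by rw [hs]; exact hξ
      exact lt_of_le_of_ne (h0 ξ) (Ne.symm this)
    obtain ⟨i, hi, hξi⟩ := bad_ne hξ
    rw [eq_bot_iff]
    rintro v ⟨hv1, hv2⟩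
    obtain ⟨a, rfl⟩ := Submodule.mem_span_singleton.1 hv1
    obtain ⟨b, hb⟩ := Submodule.mem_span_singleton.1 hv2
    have e0 := congrFun hb 0
    have ei := congrFun hb i
    simp only [Pi.smul_apply, if_true, smul_eq_mul, mul_one, hi, if_false, PiLp.neg_apply] at e0 ei
    subst e0
    have h3 : b * (((ψ ξ + ψ (-ξ)) * ξ.ofLp i : ℝ) : ℂ) = 0 := by
      push_cast at ei ⊢; linear_combination -ei
    have h4 : (((ψ ξ + ψ (-ξ)) * ξ.ofLp i : ℝ) : ℂ) ≠ 0 := by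
      have := h0 (-ξ)
      exact_mod_cast mul_ne_zero (by linarith) hξi
    have : b = 0 := (mul_eq_zero.1 h3).resolve_right h4
    simp [this]

lemma exists_PQ (n : ℕ) (hn : (49/50 : ℝ) ^ (n + 2) * 64 ≤ 1) :
    ∃ (P Q : Measure (EuclideanSpace ℝ (Fin (n + 2)))) (F : Set (EuclideanSpace ℝ (Fin (n + 2)))),
      IsProbabilityMeasure P ∧ IsProbabilityMeasure Q ∧
      (∀ ξ : EuclideanSpace ℝ (Fin (n + 2)), Bad ξ.ofLp → charFun P ξ = charFun Q ξ) ∧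
      MeasurableSet F ∧ P F ≠ 0 ∧ Q F = 0 ∧ dimH F ≤ n := by
  obtain ⟨φ, hc, hi, h0, h1, hF⟩ := exists_phi1
  obtain ⟨ν, hν, hν1, hν2, hν3⟩ := exists_nu hc hi h0 h1 hF
  obtain ⟨R, hR⟩ := nu_F1 ν hν3
  have := wd_prob hi h0 h1
  have hm : MeasurableSet (Set.pi univ (fun _ : Fin (n + 2) => F1 R)) :=
    MeasurableSet.univ_pi fun _ => (F1_closed R).measurableSet
  have hm2 : MeasurableSet ((WithLp.ofLp : EuclideanSpace ℝ (Fin (n + 2)) → _) ⁻¹'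
      (Set.pi univ (fun _ : Fin (n + 2) => F1 R))) := hm.preimage (by fun_prop)
  refine ⟨(Measure.pi fun _ => ν).map (WithLp.toLp 2), (Measure.pi fun _ => wd φ).map (WithLp.toLp 2),
    WithLp.ofLp ⁻¹' (Set.pi univ (fun _ : Fin (n + 2) => F1 R)),
    Measure.isProbabilityMeasure_map (by fun_prop), Measure.isProbabilityMeasure_map (by fun_prop),
    fun ξ hξ => ?_, hm2, ?_, ?_, ?_⟩
  · rw [charFun_pi, charFun_pi]
    simp_rw [charFun_wd hc h0]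
    exact spec_bad _ _ hν1 hν2 hF _ hξ
  · rw [Measure.map_apply (by fun_prop) hm2]
    show (Measure.pi fun _ => ν) (Set.pi univ (fun _ : Fin (n + 2) => F1 R)) ≠ 0
    rw [Measure.pi_pi]
    exact Finset.prod_ne_zero_iff.2 fun _ _ => hR
  · rw [Measure.map_apply (by fun_prop) hm2]
    show (Measure.pi fun _ => wd φ) (Set.pi univ (fun _ : Fin (n + 2) => F1 R)) = 0
    rw [Measure.pi_pi]
    exact Finset.prod_eq_zero (Finset.mem_univ 0)
      (withDensity_absolutelyContinuous _ _ (vol_F1 R))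
  · have := (PiLp.continuousLinearEquiv 2 ℝ (fun _ : Fin (n + 2) => ℝ)).dimH_preimage
      (Set.pi univ (fun _ : Fin (n + 2) => F1 R))
    exact this.le.trans (dim_F R n hn)

end Pool.Agent.H92.RP
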