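import Mathlib

set_option autoImplicit false
open Finset

namespace Pool.Agent.H92.RapidDecay

variable {Γ : Type} [Group Γ] [DecidableEq Γ]

/-- triples with product one -/
def Tr (A B C : Finset Γ) : Finset (Γ × Γ × Γ) :=
  (A ×ˢ B ×ˢ C).filter (fun t => t.1 * t.2.1 * t.2.2 = 1)

lemma mem_Tr {A B C : Finset Γ} {t : Γ × Γ × Γ} :
    t ∈ Tr A B C ↔ t.1 ∈ A ∧ t.2.1 ∈ B ∧ t.2.2 ∈ C ∧ t.1 * t.2.1 * t.2.2 = 1 := by
  simp [Tr, and_assoc]

lemma sum_le_sum_of_injOn {α β : Type} [DecidableEq β] {s : Finset α} {t : Finset β} {u : β → ℝ}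
    (e : α → β) (h1 : Set.InjOn e s) (h2 : s.image e ⊆ t) (hu : ∀ x, 0 ≤ u x) :
    ∑ a ∈ s, u (e a) ≤ ∑ b ∈ t, u b := by
  rw [← sum_image h1]
  exact sum_le_sum_of_subset_of_nonneg h2 fun _ _ _ => hu _

lemma sum_mid (A B C : Finset Γ) (u : Γ → ℝ) (hu : ∀ x, 0 ≤ u x) :
    ∑ t ∈ Tr A B C, u t.2.1 ≤ A.card * ∑ y ∈ B, u y := by
  have : ∑ p ∈ A ×ˢ B, u p.2 = A.card * ∑ y ∈ B, u y := by simp [sum_product]
  rw [← this]
  refine sum_le_sum_of_injOn (u := fun p : Γ × Γ => u p.2) (fun t : Γ × Γ × Γ => (t.1, t.2.1)) ?_ ?_ (fun _ => hu _)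
  · intro s hs t ht h
    have h1 := (mem_Tr.mp hs).2.2.2
    have h2 := (mem_Tr.mp ht).2.2.2
    simp only [Prod.mk.injEq] at h
    refine Prod.ext h.1 (Prod.ext h.2 ?_)
    rw [← h2, h.1, h.2] at h1
    exact mul_left_cancel h1
  · intro p hp
    obtain ⟨t, ht, rfl⟩ := mem_image.mp hp
    exact mem_product.mpr ⟨(mem_Tr.mp ht).1, (mem_Tr.mp ht).2.1⟩

lemma sum_last (A B C : Finset Γ) (u : Γ → ℝ) (hu : ∀ x, 0 ≤ u x) :
    ∑ t ∈ Tr A B C, u t.2.2 ≤ A.card * ∑ y ∈ C, u y := by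
  have : ∑ p ∈ A ×ˢ C, u p.2 = A.card * ∑ y ∈ C, u y := by simp [sum_product]
  rw [← this]
  refine sum_le_sum_of_injOn (u := fun p : Γ × Γ => u p.2) (fun t : Γ × Γ × Γ => (t.1, t.2.2)) ?_ ?_ (fun _ => hu _)
  · intro s hs t ht h
    have h1 := (mem_Tr.mp hs).2.2.2
    have h2 := (mem_Tr.mp ht).2.2.2
    simp only [Prod.mk.injEq] at h
    refine Prod.ext h.1 (Prod.ext ?_ h.2)
    rw [← h2, h.1, h.2] at h1
    exact mul_left_cancel (mul_right_cancel h1)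
  · intro p hp
    obtain ⟨t, ht, rfl⟩ := mem_image.mp hp
    exact mem_product.mpr ⟨(mem_Tr.mp ht).1, (mem_Tr.mp ht).2.2.1⟩

/-- dyadic level sets -/
noncomputable def Lv (A : Finset Γ) (u : Γ → ℝ) (j : ℤ) : Finset Γ :=
  A.filter (fun x => 0 < u x ∧ Int.log 2 (u x) = j)

lemma lo {a : ℝ} (ha : 0 < a) : (2:ℝ) ^ Int.log 2 a ≤ a := by
  exact_mod_cast Int.zpow_log_le_self (R := ℝ) (b := 2) (by norm_num) ha

lemma hi (a : ℝ) : a < 2 * (2:ℝ) ^ Int.log 2 a := by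
  have := Int.lt_zpow_succ_log_self (R := ℝ) (b := 2) (by norm_num) a
  rw [zpow_add₀ (by norm_num)] at this
  simpa [mul_comm] using this

lemma lv_sum (A : Finset Γ) (u : Γ → ℝ) (J : Finset ℤ) (φ : ℤ → ℤ) (hφ : Function.Injective φ) :
    ∑ j ∈ J, ((2:ℝ) ^ φ j) ^ 2 * (Lv A u (φ j)).card ≤ ∑ x ∈ A, u x ^ 2 := by
  calc _ ≤ ∑ j ∈ J, ∑ x ∈ Lv A u (φ j), u x ^ 2 := by
        refine sum_le_sum fun j _ => ?_
        rw [mul_comm, ← nsmul_eq_mul]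
        refine card_nsmul_le_sum _ _ _ fun x hx => ?_
        obtain ⟨-, h1, h2⟩ := mem_filter.mp hx
        rw [← h2]
        exact pow_le_pow_left₀ (by positivity) (lo h1) 2
    _ = ∑ x ∈ J.biUnion (fun j => Lv A u (φ j)), u x ^ 2 := by
        rw [sum_biUnion]
        intro i _ j _ hij
        refine disjoint_left.mpr fun x h1 h2 => hij (hφ ?_)
        rw [← (mem_filter.mp h1).2.2, (mem_filter.mp h2).2.2]
    _ ≤ _ := sum_le_sum_of_subset_of_nonneg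
        (biUnion_subset.mpr fun j _ => filter_subset _ _) fun _ _ _ => sq_nonneg _

lemma block {F G H : Finset Γ} {p : ℝ} (hp : 0 ≤ p)
    (hN : ∀ A ⊆ F, ∀ B C : Finset Γ, ((Tr A B C).card : ℝ) ≤ p * √((A.card : ℝ) * B.card * C.card))
    (f g h : Γ → ℝ) (hf : ∑ x ∈ F, f x ^ 2 ≤ 1) (hg : ∑ x ∈ G, g x ^ 2 ≤ 1)
    (hh : ∑ x ∈ H, h x ^ 2 ≤ 1) (i d : ℤ) :
    ∑ t ∈ (Tr F G H).filter (fun t => (0 < f t.1 ∧ 0 < g t.2.1 ∧ 0 < h t.2.2) ∧
      (Int.log 2 (f t.1), Int.log 2 (h t.2.2) - Int.log 2 (g t.2.1)) = (i, d)),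
      f t.1 * g t.2.1 * h t.2.2 ≤ 8 * p := by
  set J := G.image (fun y => Int.log 2 (g y))
  rw [← sum_fiberwise_of_maps_to (t := J) (g := fun t => Int.log 2 (g t.2.1))
    (fun t ht => mem_image_of_mem _ (mem_Tr.mp (mem_filter.mp ht).1).2.1)]
  have a1 : ((2:ℝ) ^ i) ^ 2 * (Lv F f i).card ≤ 1 := by
    simpa using (lv_sum F f {i} id Function.injective_id).trans hf
  have a2 := (lv_sum G g J id Function.injective_id).trans hg
  have a3 := (lv_sum H h J (· + d) (add_left_injective d)).trans hh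
  simp only [id] at a2
  refine le_trans (sum_le_sum (g := fun j => 4 * p * (((2:ℝ) ^ j) ^ 2 * (Lv G g j).card +
    ((2:ℝ) ^ (j + d)) ^ 2 * (Lv H h (j + d)).card)) fun j _ => ?_) ?_
  · have b1 : ∀ t ∈ ((Tr F G H).filter (fun t => (0 < f t.1 ∧ 0 < g t.2.1 ∧ 0 < h t.2.2) ∧
        (Int.log 2 (f t.1), Int.log 2 (h t.2.2) - Int.log 2 (g t.2.1)) = (i, d))).filter
        (fun t => Int.log 2 (g t.2.1) = j), t ∈ Tr (Lv F f i) (Lv G g j) (Lv H h (j + d)) ∧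
        f t.1 * g t.2.1 * h t.2.2 ≤ 8 * ((2:ℝ) ^ i * 2 ^ j * 2 ^ (j + d)) := by
      intro t ht
      simp only [mem_filter, mem_Tr, Prod.mk.injEq] at ht
      obtain ⟨⟨⟨m1, m2, m3, m4⟩, ⟨p1, p2, p3⟩, e1, e2⟩, e3⟩ := ht
      have e4 : Int.log 2 (h t.2.2) = j + d := by omega
      refine ⟨mem_Tr.mpr ⟨mem_filter.mpr ⟨m1, p1, e1⟩, mem_filter.mpr ⟨m2, p2, e3⟩,
        mem_filter.mpr ⟨m3, p3, e4⟩, m4⟩, ?_⟩
      have c1 := hi (f t.1)
      have c2 := hi (g t.2.1)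
      have c3 := hi (h t.2.2)
      rw [e1] at c1; rw [e3] at c2; rw [e4] at c3
      calc _ ≤ (2 * (2:ℝ) ^ i) * (2 * 2 ^ j) * (2 * 2 ^ (j + d)) := by gcongr
        _ = _ := by ring
    refine (sum_le_card_nsmul _ _ _ fun t ht => (b1 t ht).2).trans ?_
    rw [nsmul_eq_mul]
    have b2 := (Nat.cast_le (α := ℝ)).mpr (card_le_card fun t ht => (b1 t ht).1)
    have b3 := b2.trans (hN (Lv F f i) (filter_subset _ _) (Lv G g j) (Lv H h (j + d)))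
    refine (mul_le_mul_of_nonneg_right b3 (by positivity)).trans ?_
    rw [Real.sqrt_mul (by positivity), Real.sqrt_mul (by positivity)]
    have hα := (Real.sq_sqrt (Nat.cast_nonneg (α := ℝ) (Lv F f i).card)).symm
    have hβ := (Real.sq_sqrt (Nat.cast_nonneg (α := ℝ) (Lv G g j).card)).symm
    have hγ := (Real.sq_sqrt (Nat.cast_nonneg (α := ℝ) (Lv H h (j + d)).card)).symm
    have pα := Real.sqrt_nonneg ((Lv F f i).card : ℝ)
    have pβ := Real.sqrt_nonneg ((Lv G g j).card : ℝ)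
    have pγ := Real.sqrt_nonneg ((Lv H h (j + d)).card : ℝ)
    generalize √((Lv F f i).card : ℝ) = α at *
    generalize √((Lv G g j).card : ℝ) = β at *
    generalize √((Lv H h (j + d)).card : ℝ) = γ at *
    rw [hβ, hγ]
    rw [hα, ← mul_pow] at a1
    clear b1 b2 b3 a2 a3 hα hβ hγ
    have a4 : (2:ℝ) ^ i * α ≤ 1 := by
      have : 0 ≤ (2:ℝ) ^ i * α := by positivity
      nlinarith
    have a5 : 2 * (((2:ℝ) ^ j * β) * (2 ^ (j + d) * γ)) ≤ (2 ^ j * β) ^ 2 + (2 ^ (j + d) * γ) ^ 2 := by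
      nlinarith [sq_nonneg ((2:ℝ) ^ j * β - 2 ^ (j + d) * γ)]
    calc _ = 4 * p * ((2:ℝ) ^ i * α) * (2 * (((2:ℝ) ^ j * β) * (2 ^ (j + d) * γ))) := by ring
      _ ≤ 4 * p * 1 * ((2 ^ j * β) ^ 2 + (2 ^ (j + d) * γ) ^ 2) := by gcongr
      _ = _ := by ring
  · rw [← mul_sum, sum_add_distrib]; nlinarith

lemma log_range {a b : ℝ} {L : ℕ} (ha : 0 < a) (hb : 0 < b) (h : b < 2 ^ L * a) :
    Int.log 2 b - Int.log 2 a ≤ L := by
  have h1 := lo hb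
  have h2 := hi a
  have : (2:ℝ) ^ Int.log 2 b < 2 ^ (Int.log 2 a + L + 1) := by
    rw [zpow_add₀ (by norm_num), zpow_add₀ (by norm_num), zpow_natCast, zpow_one]
    have : (0:ℝ) < 2 ^ L := by positivity
    nlinarith
  have := (zpow_lt_zpow_iff_right₀ (by norm_num : (1:ℝ) < 2)).mp this
  omega

theorem main {F G H : Finset Γ} {p : ℝ} (hp : 0 ≤ p) {L : ℕ} (hL : F.card ≤ 2 ^ L)
    (hN : ∀ A ⊆ F, ∀ B C : Finset Γ, ((Tr A B C).card : ℝ) ≤ p * √((A.card : ℝ) * B.card * C.card))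
    (f g h : Γ → ℝ) (f0 : ∀ x, 0 ≤ f x) (g0 : ∀ x, 0 ≤ g x) (h0 : ∀ x, 0 ≤ h x)
    (hf : ∑ x ∈ F, f x ^ 2 ≤ 1) (hg : ∑ x ∈ G, g x ^ 2 ≤ 1) (hh : ∑ x ∈ H, h x ^ 2 ≤ 1) :
    ∑ t ∈ Tr F G H, f t.1 * g t.2.1 * h t.2.2 ≤ 2 + (2 * L + 1) ^ 2 * (8 * p) := by
  have h2L : (0:ℝ) < 2 ^ L := by positivity
  rw [← sum_filter_add_sum_filter_not (Tr F G H) (fun t => 1 < 2 ^ L * f t.1 ∧
    g t.2.1 < 2 ^ L * h t.2.2 ∧ h t.2.2 < 2 ^ L * g t.2.1), add_comm]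
  have f1 : ∀ x ∈ F, f x ≤ 1 := fun x hx => by
    have := (single_le_sum (f := fun x => f x ^ 2) (fun _ _ => sq_nonneg _) hx).trans hf
    nlinarith [f0 x]
  refine add_le_add ?_ ?_
  · have c : ∀ t ∈ (Tr F G H).filter (fun t => ¬(1 < 2 ^ L * f t.1 ∧
        g t.2.1 < 2 ^ L * h t.2.2 ∧ h t.2.2 < 2 ^ L * g t.2.1)),
        f t.1 * g t.2.1 * h t.2.2 ≤ (g t.2.1 ^ 2 + h t.2.2 ^ 2) / 2 ^ L := by
      intro t ht
      obtain ⟨ht, hc⟩ := mem_filter.mp ht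
      have := f1 _ (mem_Tr.mp ht).1
      have a0 := f0 t.1
      have b0 := g0 t.2.1
      have c0 := h0 t.2.2
      have bc := mul_nonneg b0 c0
      rw [le_div_iff₀ h2L]
      simp only [not_and_or, not_lt] at hc
      have e : f t.1 * g t.2.1 * h t.2.2 * 2 ^ L ≤ 1 * g t.2.1 * h t.2.2 * 2 ^ L := by gcongr
      rcases hc with hc | hc | hc
      · nlinarith [mul_le_mul_of_nonneg_right hc bc, sq_nonneg (g t.2.1 - h t.2.2)]
      · nlinarith [mul_le_mul_of_nonneg_right hc b0]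
      · nlinarith [mul_le_mul_of_nonneg_right hc c0]
    refine (sum_le_sum c).trans ((sum_le_sum_of_subset_of_nonneg (filter_subset _ _)
      fun _ _ _ => by positivity).trans ?_)
    rw [← sum_div, sum_add_distrib, div_le_iff₀ h2L]
    have d1 := sum_mid F G H (fun y => g y ^ 2) fun _ => sq_nonneg _
    have d2 := sum_last F G H (fun y => h y ^ 2) fun _ => sq_nonneg _
    have d3 : (F.card : ℝ) ≤ 2 ^ L := by exact_mod_cast hL
    have d4 : (0:ℝ) ≤ F.card := by positivity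
    nlinarith
  · set I := Icc (-(L:ℤ)) L
    have c : ∀ t ∈ (Tr F G H).filter (fun t => 1 < 2 ^ L * f t.1 ∧
        g t.2.1 < 2 ^ L * h t.2.2 ∧ h t.2.2 < 2 ^ L * g t.2.1),
        (0 < f t.1 ∧ 0 < g t.2.1 ∧ 0 < h t.2.2) ∧
        (Int.log 2 (f t.1), Int.log 2 (h t.2.2) - Int.log 2 (g t.2.1)) ∈ I ×ˢ I := by
      intro t ht
      obtain ⟨ht, c1, c2, c3⟩ := mem_filter.mp ht
      have p1 : 0 < f t.1 := pos_of_mul_pos_right (zero_lt_one.trans c1) h2L.le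
      have p2 : 0 < g t.2.1 := pos_of_mul_pos_right ((h0 _).trans_lt c3) h2L.le
      have p3 : 0 < h t.2.2 := pos_of_mul_pos_right ((g0 _).trans_lt c2) h2L.le
      have q1 := log_range p1 one_pos c1
      have q2 := log_range p3 p2 c2
      have q3 := log_range p2 p3 c3
      have q4 := Int.log_mono_right (b := 2) p1 (f1 _ (mem_Tr.mp ht).1)
      simp only [Int.log_one_right] at q1 q4
      refine ⟨⟨p1, p2, p3⟩, ?_⟩
      simp only [I, mem_product, mem_Icc]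
      omega
    rw [← sum_fiberwise_of_maps_to (fun t ht => (c t ht).2)]
    refine (sum_le_card_nsmul _ _ (8 * p) fun q _ => ?_).trans (le_of_eq ?_)
    · refine le_trans (sum_le_sum_of_subset_of_nonneg ?_ fun t _ _ =>
        mul_nonneg (mul_nonneg (f0 _) (g0 _)) (h0 _)) (block hp hN f g h hf hg hh q.1 q.2)
      intro t ht
      obtain ⟨ht, e⟩ := mem_filter.mp ht
      exact mem_filter.mpr ⟨(mem_filter.mp ht).1, (c t ht).1, e⟩
    · have : (I.card : ℝ) = 2 * L + 1 := by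
        have : (I.card : ℤ) = 2 * L + 1 := by simp only [I, Int.card_Icc]; omega
        exact_mod_cast this
      rw [nsmul_eq_mul, card_product, Nat.cast_mul, this]; ring

lemma normalize (A : Finset Γ) (f : Γ → ℂ) : ∃ u : Γ → ℝ, (∀ x, 0 ≤ u x) ∧ ∑ x ∈ A, u x ^ 2 ≤ 1 ∧
    ∀ x ∈ A, ‖f x‖ = √(∑ x ∈ A, ‖f x‖ ^ 2) * u x := by
  set s := ∑ x ∈ A, ‖f x‖ ^ 2 with hs
  have s0 : 0 ≤ s := sum_nonneg fun _ _ => sq_nonneg _
  refine ⟨fun x => ‖f x‖ / √s, fun x => by positivity, ?_, fun x hx => ?_⟩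
  · simp only [div_pow, Real.sq_sqrt s0, ← sum_div, ← hs]
    exact div_self_le_one s
  · rcases s0.eq_or_lt with h | h
    · have := (sum_eq_zero_iff_of_nonneg (fun _ _ => sq_nonneg _)).mp (hs ▸ h.symm) x hx
      simp [pow_eq_zero_iff (two_ne_zero) |>.mp this]
    · have := Real.sqrt_pos.mpr h
      field_simp

lemma sum_eq (F G H : Finset Γ) (f g h : Γ → ℂ) :
    ∑ x ∈ F, ∑ y ∈ G, ∑ z ∈ H, (if x * y * z = 1 then f x * g y * h z else 0) =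
      ∑ t ∈ Tr F G H, f t.1 * g t.2.1 * h t.2.2 := by
  rw [Tr, sum_filter, sum_product]
  exact sum_congr rfl fun x _ => by rw [sum_product]

theorem main' {F G H : Finset Γ} {p : ℝ} (hp : 0 ≤ p) {L : ℕ} (hL : F.card ≤ 2 ^ L)
    (hN : ∀ A ⊆ F, ∀ B C : Finset Γ, ((Tr A B C).card : ℝ) ≤ p * √((A.card : ℝ) * B.card * C.card))
    (f g h : Γ → ℂ) :
    ‖∑ x ∈ F, ∑ y ∈ G, ∑ z ∈ H, (if x * y * z = 1 then f x * g y * h z else 0)‖ ≤
      (2 + (2 * L + 1) ^ 2 * (8 * p)) * (√(∑ x ∈ F, ‖f x‖ ^ 2) * √(∑ y ∈ G, ‖g y‖ ^ 2) *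
        √(∑ z ∈ H, ‖h z‖ ^ 2)) := by
  obtain ⟨u, u0, u1, u2⟩ := normalize F f
  obtain ⟨v, v0, v1, v2⟩ := normalize G g
  obtain ⟨w, w0, w1, w2⟩ := normalize H h
  rw [sum_eq]
  refine (norm_sum_le _ _).trans (le_trans (le_of_eq ?_)
    (mul_le_mul_of_nonneg_right (main hp hL hN u v w u0 v0 w0 u1 v1 w1) (by positivity)))
  rw [sum_mul]
  refine sum_congr rfl fun t ht => ?_
  obtain ⟨m1, m2, m3, -⟩ := mem_Tr.mp ht
  rw [norm_mul, norm_mul, u2 _ m1, v2 _ m2, w2 _ m3]; ring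

end Pool.Agent.H92.RapidDecay
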