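import Mathlib

set_option autoImplicit false
open Filter Topology Finset

namespace Pool.Agent.H92.Rep

/-- start index of block `j` -/
def st (m : ℕ → ℕ) (j : ℕ) : ℕ := ∑ i ∈ range j, m i

/-- block containing the index `n` -/
def bl (m : ℕ → ℕ) (n : ℕ) : ℕ := Nat.findGreatest (fun j => st m j ≤ n) n

/-- position of the index `n` in its block -/
def ps (m : ℕ → ℕ) (n : ℕ) : ℕ := n - st m (bl m n)

variable {m : ℕ → ℕ}

lemma st_succ (j : ℕ) : st m (j + 1) = st m j + m j := by
  unfold st; rw [sum_range_succ]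

lemma st_zero : st m 0 = 0 := by simp [st]

lemma st_strictMono (hm : ∀ j, 0 < m j) : StrictMono (st m) := by
  refine strictMono_nat_of_lt_succ fun j => ?_
  rw [st_succ]; have := hm j; omega

lemma st_bl_le (n : ℕ) : st m (bl m n) ≤ n :=
  Nat.findGreatest_spec (P := fun j => st m j ≤ n) (Nat.zero_le n) (by simp [st_zero])

lemma lt_st_bl (hm : ∀ j, 0 < m j) (n : ℕ) : n < st m (bl m n + 1) := by
  by_contra h
  push Not at h
  have h1 : bl m n + 1 ≤ n := le_trans (st_strictMono hm).le_apply h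
  have := Nat.le_findGreatest (P := fun j => st m j ≤ n) h1 h
  unfold bl at this h1; omega

lemma bl_eq (hm : ∀ j, 0 < m j) {n j : ℕ} (h1 : st m j ≤ n) (h2 : n < st m (j + 1)) :
    bl m n = j := by
  have a1 := st_bl_le (m := m) n
  have a2 := lt_st_bl hm n
  have b1 : j < bl m n + 1 := (st_strictMono hm).lt_iff_lt.mp (lt_of_le_of_lt h1 a2)
  have b2 : bl m n < j + 1 := (st_strictMono hm).lt_iff_lt.mp (lt_of_le_of_lt a1 h2)
  omega

lemma ps_lt (hm : ∀ j, 0 < m j) (n : ℕ) : ps m n < m (bl m n) := by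
  have a1 := st_bl_le (m := m) n
  have a2 := lt_st_bl hm n
  rw [st_succ] at a2
  unfold ps; omega

lemma st_add_ps (n : ℕ) : st m (bl m n) + ps m n = n := by
  have a1 := st_bl_le (m := m) n
  unfold ps; omega

lemma bl_st_add (hm : ∀ j, 0 < m j) {j i : ℕ} (hi : i < m j) : bl m (st m j + i) = j :=
  bl_eq hm (by omega) (by rw [st_succ]; omega)

lemma ps_st_add (hm : ∀ j, 0 < m j) {j i : ℕ} (hi : i < m j) : ps m (st m j + i) = i := by
  unfold ps; rw [bl_st_add hm hi]; omega

lemma bl_tendsto (hm : ∀ j, 0 < m j) : Tendsto (bl m) atTop atTop := by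
  refine tendsto_atTop_atTop.mpr fun j => ⟨st m j, fun n hn => ?_⟩
  have a2 := lt_st_bl hm n
  have : j < bl m n + 1 := (st_strictMono hm).lt_iff_lt.mp (lt_of_le_of_lt hn a2)
  omega

lemma inj_of (hm : ∀ j, 0 < m j) {P : Type*} (pts : ℕ → ℕ → P)
    (h : ∀ j j' i i', i < m j → i' < m j' → pts j i = pts j' i' → j = j' ∧ i = i') :
    Function.Injective (fun n => pts (bl m n) (ps m n)) := by
  intro n n' hn
  obtain ⟨h1, h2⟩ := h _ _ _ _ (ps_lt hm n) (ps_lt hm n') hn
  rw [← st_add_ps (m := m) n, ← st_add_ps (m := m) n', h2, h1]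

variable {X : Type*} [NormedAddCommGroup X] [NormedSpace ℂ X]

lemma sum_block (hm : ∀ j, 0 < m j) (F : ℕ → ℕ → X) (j p : ℕ) (hp : p ≤ m j) :
    ∑ n ∈ range (st m j + p), F (bl m n) (ps m n) =
      ∑ j' ∈ range j, ∑ i ∈ range (m j'), F j' i + ∑ i ∈ range p, F j i := by
  induction j generalizing p with
  | zero =>
    simp only [st_zero, zero_add, range_zero, sum_empty]
    refine sum_congr rfl fun i hi => ?_
    have hi' : i < m 0 := lt_of_lt_of_le (mem_range.mp hi) hp
    have h1 := bl_st_add hm hi'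
    have h2 := ps_st_add hm hi'
    rw [st_zero, zero_add] at h1 h2
    rw [h1, h2]
  | succ j ih =>
    rw [sum_range_add, st_succ, ih (m j) le_rfl, sum_range_succ]
    congr 1
    refine sum_congr rfl fun i hi => ?_
    have hi' : i < m (j + 1) := lt_of_lt_of_le (mem_range.mp hi) hp
    rw [← st_succ, bl_st_add hm hi', ps_st_add hm hi']

open Classical in
/-- greedy residuals -/
noncomputable def res (f : X) (g h : ℕ → X) (ε : ℕ → ℝ) : ℕ → X
  | 0 => f
  | j + 1 => if ‖res f g h ε j - g j‖ ≤ ‖res f g h ε j‖ / 4 ∧ ε j ≤ ‖res f g h ε j‖ / 4 then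
      res f g h ε j - h j else res f g h ε j

theorem rep (hm : ∀ j, 0 < m j) (V : Submodule ℂ X) (x : ℕ → ℕ → X) (d : ℕ → ℕ → ℂ)
    (g : ℕ → X) (ε : ℕ → ℝ) (hε : Tendsto ε atTop (𝓝 0))
    (hV : ∀ j, ∑ i ∈ range (m j), d j i • x j i ∈ V)
    (h1 : ∀ j, ‖g j - ∑ i ∈ range (m j), d j i • x j i‖ ≤ ε j)
    (h2 : ∀ j p, p ≤ m j → ‖∑ i ∈ range p, d j i • x j i‖ ≤ ‖g j‖ + ε j)
    (h3 : ∀ f ∈ V, ∀ δ > 0, ∀ J, ∃ j ≥ J, ‖f - g j‖ ≤ δ) :
    ∀ f ∈ V, ∃ c : ℕ → ℂ,
      Tendsto (fun N => ∑ n ∈ range N, c n • x (bl m n) (ps m n)) atTop (𝓝 f) := by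
  classical
  intro f hf
  set h : ℕ → X := fun j => ∑ i ∈ range (m j), d j i • x j i with hh
  set r := res f g h ε with hr
  let use : ℕ → Prop := fun j => ‖r j - g j‖ ≤ ‖r j‖ / 4 ∧ ε j ≤ ‖r j‖ / 4
  have r_succ : ∀ j, r (j + 1) = if use j then r j - h j else r j := fun j => rfl
  have rV : ∀ j, r j ∈ V := by
    intro j
    induction j with
    | zero => exact hf
    | succ j ih =>
      rw [r_succ]; split_ifs
      · exact V.sub_mem ih (hV j)
      · exact ih
  have half : ∀ j, use j → ‖r (j + 1)‖ ≤ ‖r j‖ / 2 := by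
    intro j hj
    rw [r_succ, if_pos hj]
    have : r j - h j = (r j - g j) + (g j - h j) := by abel
    rw [this]
    have := norm_add_le (r j - g j) (g j - h j)
    have := h1 j
    have := hj.1
    have := hj.2
    linarith
  have anti : Antitone (fun j => ‖r j‖) := by
    refine antitone_nat_of_succ_le fun j => ?_
    by_cases hj : use j
    · have := half j hj
      have := norm_nonneg (r j)
      linarith
    · rw [r_succ, if_neg hj]
  have step : ∀ j, ∃ j' ≥ j, ‖r j'‖ ≤ ‖r j‖ / 2 := by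
    intro j
    by_cases h0 : r j = 0
    · exact ⟨j, le_rfl, by simp [h0]⟩
    by_cases hu : ∃ j' ≥ j, use j'
    · obtain ⟨j', hj', hu⟩ := hu
      refine ⟨j' + 1, by omega, (half j' hu).trans ?_⟩
      have := anti hj'
      simp only at this
      linarith
    · exfalso
      push Not at hu
      have hc : ∀ k, r (j + k) = r j := by
        intro k
        induction k with
        | zero => rfl
        | succ k ih => rw [← add_assoc, r_succ, if_neg (hu _ (by omega)), ih]
      have hpos : 0 < ‖r j‖ / 4 := by have := norm_pos_iff.mpr h0; linarith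
      obtain ⟨J, hJ⟩ := eventually_atTop.mp (hε.eventually (ge_mem_nhds hpos))
      obtain ⟨j', hj', hg⟩ := h3 (r j) (rV j) _ hpos (max j J)
      have e : r j' = r j := by
        have := hc (j' - j)
        rwa [Nat.add_sub_cancel' (le_trans (le_max_left _ _) hj')] at this
      apply hu j' (le_trans (le_max_left _ _) hj')
      refine ⟨by rw [e]; exact hg, by rw [e]; exact hJ j' (le_trans (le_max_right _ _) hj')⟩
  have lim : Tendsto (fun j => ‖r j‖) atTop (𝓝 0) := by
    have pw : ∀ k : ℕ, ∃ j, ‖r j‖ ≤ ‖f‖ * (1 / 2) ^ k := by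
      intro k
      induction k with
      | zero => exact ⟨0, by simp [hr, res]⟩
      | succ k ih =>
        obtain ⟨j, hj⟩ := ih
        obtain ⟨j', -, hj'⟩ := step j
        exact ⟨j', by rw [pow_succ]; linarith⟩
    have t0 : Tendsto (fun k : ℕ => ‖f‖ * (1 / 2 : ℝ) ^ k) atTop (𝓝 0) := by
      simpa using (tendsto_pow_atTop_nhds_zero_of_lt_one (r := (1 / 2 : ℝ)) (by norm_num)
        (by norm_num)).const_mul ‖f‖
    rw [Metric.tendsto_atTop]
    intro δ hδ
    obtain ⟨k, hk⟩ := (t0.eventually (gt_mem_nhds hδ)).exists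
    obtain ⟨j, hj⟩ := pw k
    refine ⟨j, fun n hn => ?_⟩
    have := anti hn
    simp only at this
    rw [Real.dist_eq, sub_zero, abs_of_nonneg (norm_nonneg _)]
    linarith
  let c' : ℕ → ℕ → ℂ := fun j i => if use j then d j i else 0
  have full : ∀ j, ∑ j' ∈ range j, ∑ i ∈ range (m j'), c' j' i • x j' i = f - r j := by
    intro j
    induction j with
    | zero => simp [hr, res]
    | succ j ih =>
      rw [sum_range_succ, ih, r_succ]
      by_cases hj : use j
      · simp only [c', if_pos hj, hh]; abel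
      · simp [c', if_neg hj]
  refine ⟨fun n => c' (bl m n) (ps m n), ?_⟩
  rw [tendsto_iff_norm_sub_tendsto_zero]
  have bound : ∀ N, ‖∑ n ∈ range N, c' (bl m n) (ps m n) • x (bl m n) (ps m n) - f‖ ≤
      3 * ‖r (bl m N)‖ := by
    intro N
    have := sum_block hm (fun j i => c' j i • x j i) (bl m N) (ps m N) (ps_lt hm N).le
    rw [st_add_ps] at this
    rw [this, full]
    set j := bl m N
    have e : f - r j + ∑ i ∈ range (ps m N), c' j i • x j i - f =
        ∑ i ∈ range (ps m N), c' j i • x j i - r j := by abel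
    rw [e]
    refine (norm_sub_le _ _).trans ?_
    have hn := norm_nonneg (r j)
    by_cases hj : use j
    · simp only [c', if_pos hj]
      have a1 := h2 j (ps m N) (ps_lt hm N).le
      have a2 : ‖g j‖ ≤ ‖r j‖ + ‖r j - g j‖ := by
        have := norm_sub_le (r j) (r j - g j)
        rwa [sub_sub_cancel] at this
      have := hj.1
      have := hj.2
      linarith
    · simp only [c', if_neg hj, zero_smul, sum_const_zero, norm_zero]
      linarith
  refine squeeze_zero (fun _ => norm_nonneg _) bound ?_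
  simpa using (lim.comp (bl_tendsto hm)).const_mul 3

/-- a sequence visiting a countable set infinitely often -/
lemma dense_seq (V : Submodule ℂ X) (D : ℕ → X) (hD : ∀ f ∈ V, ∀ δ > 0, ∃ j, ‖f - D j‖ ≤ δ) :
    ∀ f ∈ V, ∀ δ > 0, ∀ J, ∃ j ≥ J, ‖f - D (Nat.unpair j).1‖ ≤ δ := by
  intro f hf δ hδ J
  obtain ⟨j, hj⟩ := hD f hf δ hδ
  exact ⟨Nat.pair j J, Nat.right_le_pair _ _, by simpa using hj⟩

end Pool.Agent.H92.Rep
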