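import Pool.Agent.H92.Rep

set_option autoImplicit false
open Filter Topology Finset

namespace Pool.Agent.H92.RepArc
open Pool.Agent.H92.Rep

variable {X : Type*} [NormedAddCommGroup X] [NormedSpace ℂ X]

lemma block (κ : ℝ → X) (U : Set ℝ) (hU : IsOpen U) (hne : U.Nonempty) (hκ : ContinuousOn κ U)
    (hd : (Submodule.span ℂ (κ '' U)).topologicalClosure = ⊤) (g : X) (ε : ℝ) (hε : 0 < ε) :
    ∃ (m : ℕ) (pts : ℕ → ℝ) (d : ℕ → ℂ), 0 < m ∧ (∀ i < m, pts i ∈ U) ∧
      (∀ i < m, ∀ i' < m, pts i = pts i' → i = i') ∧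
      ‖g - ∑ i ∈ range m, d i • κ (pts i)‖ ≤ ε ∧
      ∀ p ≤ m, ‖∑ i ∈ range p, d i • κ (pts i)‖ ≤ ‖g‖ + ε := by
  have hg : g ∈ closure ((Submodule.span ℂ (κ '' U) : Submodule ℂ X) : Set X) := by
    rw [← Submodule.topologicalClosure_coe, hd]; trivial
  obtain ⟨h, hh, hgh⟩ := Metric.mem_closure_iff.mp hg (ε / 3) (by positivity)
  obtain ⟨r0, a0, v0, hsum⟩ := Submodule.mem_span_set'.mp hh
  choose ν0 hν0 hν0' using fun i => (v0 i).2
  obtain ⟨u0, hu0⟩ := hne
  let r := r0 + 1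
  let ν : ℕ → ℝ := fun i => if h : i < r0 then ν0 ⟨i, h⟩ else u0
  let a : ℕ → ℂ := fun i => if h : i < r0 then a0 ⟨i, h⟩ else 0
  have hνU : ∀ i, ν i ∈ U := by
    intro i; simp only [ν]; split_ifs
    · exact hν0 _
    · exact hu0
  have hsum' : ∑ i ∈ range r, a i • κ (ν i) = h := by
    rw [sum_range_succ, ← hsum, Finset.sum_range]
    simp [a, ν, hν0']
  set B : ℝ := ∑ i ∈ range r, (‖a i • κ (ν i)‖ + 1) with hB
  obtain ⟨K, hK⟩ := exists_nat_gt (B / (ε / 3))
  have hB0 : 0 ≤ B := sum_nonneg fun i _ => by positivity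
  have hK0 : (0:ℝ) < K := lt_of_le_of_lt (by positivity) hK
  have hK0' : 0 < K := by exact_mod_cast hK0
  have hBK : B / K ≤ ε / 3 := by
    rw [div_le_iff₀ hK0]
    rw [div_lt_iff₀ (by positivity)] at hK
    linarith
  let m : ℕ → ℕ := fun _ => r
  have hm : ∀ j, 0 < m j := fun _ => Nat.succ_pos _
  have tends : ∀ (i n : ℕ), Tendsto (fun η : ℝ => ν i + η * n) (𝓝[>] 0) (𝓝 (ν i)) := by
    intro i n
    have : Tendsto (fun η : ℝ => ν i + η * n) (𝓝 0) (𝓝 (ν i + 0 * n)) :=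
      (continuous_const.add (continuous_id.mul continuous_const)).tendsto 0
    simp only [zero_mul, add_zero] at this
    exact this.mono_left nhdsWithin_le_nhds
  have tendsκ : ∀ (i n : ℕ), Tendsto (fun η : ℝ => κ (ν i + η * n)) (𝓝[>] 0) (𝓝 (κ (ν i))) :=
    fun i n => (hκ.continuousAt (hU.mem_nhds (hνU i))).tendsto.comp (tends i n)
  have E1 : ∀ᶠ η : ℝ in 𝓝[>] 0, ∀ n ∈ range (st m K), ν (ps m n) + η * n ∈ U := by
    rw [eventually_all_finset]
    intro n _
    exact (tends _ n).eventually (hU.mem_nhds (hνU _))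
  have E2 : ∀ᶠ η : ℝ in 𝓝[>] 0, ∀ n ∈ range (st m K), ∀ n' ∈ range (st m K),
      ν (ps m n) + η * n = ν (ps m n') + η * n' → n = n' := by
    simp only [eventually_all_finset]
    intro n _ n' _
    by_cases hν : ν (ps m n) = ν (ps m n')
    · filter_upwards [self_mem_nhdsWithin] with η hη heq
      rw [hν] at heq
      have hη' : (0:ℝ) < η := hη
      have : (n:ℝ) = n' := by
        have := add_left_cancel heq
        exact mul_left_cancel₀ hη'.ne' this
      exact_mod_cast this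
    · have := ((tends (ps m n) n).sub (tends (ps m n') n')).eventually_ne (sub_ne_zero.mpr hν)
      filter_upwards [this] with η hη heq
      exact absurd (sub_eq_zero.mpr heq) hη
  have E3 : ∀ᶠ η : ℝ in 𝓝[>] 0, ∀ k ∈ range (K + 1),
      ‖∑ i ∈ range r, a i • κ (ν i + η * (st m k + i : ℕ)) - h‖ ≤ ε / 3 := by
    rw [eventually_all_finset]
    intro k _
    have : Tendsto (fun η : ℝ => ∑ i ∈ range r, a i • κ (ν i + η * (st m k + i : ℕ))) (𝓝[>] 0)
        (𝓝 (∑ i ∈ range r, a i • κ (ν i))) :=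
      tendsto_finsetSum _ fun i _ => (tendsκ i _).const_smul _
    rw [hsum', tendsto_iff_norm_sub_tendsto_zero] at this
    exact this.eventually (ge_mem_nhds (by positivity))
  have E4 : ∀ᶠ η : ℝ in 𝓝[>] 0, ∀ k ∈ range (K + 1), ∀ i ∈ range r,
      ‖a i • κ (ν i + η * (st m k + i : ℕ))‖ ≤ ‖a i • κ (ν i)‖ + 1 := by
    simp only [eventually_all_finset]
    intro k _ i _
    exact (((tendsκ i _).const_smul (a i)).norm).eventually (ge_mem_nhds (by linarith))
  obtain ⟨η, e1, e2, e3, e4⟩ := (E1.and (E2.and (E3.and E4))).exists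
  let F : ℕ → ℕ → X := fun k i => ((K:ℂ)⁻¹ * a i) • κ (ν i + η * (st m k + i : ℕ))
  have hF : ∀ n, ((K:ℂ)⁻¹ * a (ps m n)) • κ (ν (ps m n) + η * n) = F (bl m n) (ps m n) := by
    intro n; simp only [F, st_add_ps]
  have hFk : ∀ k p, ∑ i ∈ range p, F k i =
      (K:ℂ)⁻¹ • ∑ i ∈ range p, a i • κ (ν i + η * (st m k + i : ℕ)) := by
    intro k p
    rw [smul_sum]
    exact sum_congr rfl fun i _ => by simp only [F, mul_smul]
  have nK : ‖(K:ℂ)⁻¹‖ = (K:ℝ)⁻¹ := by simp
  have hgh' : ‖g - h‖ ≤ ε / 3 := by rw [← dist_eq_norm]; exact hgh.le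
  refine ⟨st m K, fun n => ν (ps m n) + η * n, fun n => (K:ℂ)⁻¹ * a (ps m n), ?_,
    fun i hi => e1 i (mem_range.mpr hi),
    fun i hi i' hi' => e2 i (mem_range.mpr hi) i' (mem_range.mpr hi'), ?_, ?_⟩
  · have := st_strictMono hm hK0'
    rwa [st_zero] at this
  · simp only [hF]
    have := sum_block hm F K 0 (Nat.zero_le _)
    simp only [add_zero, range_zero, sum_empty] at this
    rw [this]
    have e : g = ∑ _k ∈ range K, (K:ℂ)⁻¹ • g := by
      rw [sum_const, card_range, ← Nat.cast_smul_eq_nsmul ℂ, smul_smul, mul_inv_cancel₀, one_smul]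
      exact_mod_cast hK0'.ne'
    rw [e, ← sum_sub_distrib]
    refine (norm_sum_le _ _).trans ?_
    have : ∀ k ∈ range K, ‖(K:ℂ)⁻¹ • g - ∑ i ∈ range (m k), F k i‖ ≤ (K:ℝ)⁻¹ * ε := by
      intro k hk
      rw [hFk, ← smul_sub, norm_smul, nK]
      refine mul_le_mul_of_nonneg_left ?_ (by positivity)
      have a1 := e3 k (mem_range.mpr (by have := mem_range.mp hk; omega))
      have a2 := norm_sub_le_norm_sub_add_norm_sub g h
        (∑ i ∈ range r, a i • κ (ν i + η * (st m k + i : ℕ)))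
      rw [norm_sub_rev] at a1
      simp only [m] at *
      linarith
    refine (sum_le_sum this).trans ?_
    rw [sum_const, card_range, nsmul_eq_mul, ← mul_assoc, mul_inv_cancel₀ hK0.ne', one_mul]
  · intro p hp
    simp only [hF]
    have hb : bl m p ≤ K := by
      have a1 := st_bl_le (m := m) p
      exact (st_strictMono hm).le_iff_le.mp (a1.trans hp)
    have := sum_block hm F (bl m p) (ps m p) (ps_lt hm p).le
    rw [st_add_ps] at this
    rw [this]
    refine (norm_add_le _ _).trans ?_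
    have b1 : ‖∑ k ∈ range (bl m p), ∑ i ∈ range (m k), F k i‖ ≤ ‖g‖ + 2 * ε / 3 := by
      refine (norm_sum_le _ _).trans ?_
      have : ∀ k ∈ range (bl m p), ‖∑ i ∈ range (m k), F k i‖ ≤ (K:ℝ)⁻¹ * (‖g‖ + 2 * ε / 3) := by
        intro k hk
        rw [hFk, norm_smul, nK]
        refine mul_le_mul_of_nonneg_left ?_ (by positivity)
        have a1 := e3 k (mem_range.mpr (by have := mem_range.mp hk; omega))
        have a2 := norm_le_norm_add_norm_sub' (∑ i ∈ range r, a i • κ (ν i + η * (st m k + i : ℕ))) h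
        have a3 := norm_le_norm_add_norm_sub' h g
        rw [norm_sub_rev] at hgh'
        simp only [m] at *
        linarith
      refine (sum_le_sum this).trans ?_
      rw [sum_const, card_range, nsmul_eq_mul, ← mul_assoc]
      have c1 : ((bl m p : ℕ) : ℝ) * (K:ℝ)⁻¹ ≤ 1 := by
        rw [← div_eq_mul_inv, div_le_one hK0]; exact_mod_cast hb
      have c2 : 0 ≤ ‖g‖ + 2 * ε / 3 := by positivity
      nlinarith
    have b2 : ‖∑ i ∈ range (ps m p), F (bl m p) i‖ ≤ ε / 3 := by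
      rw [hFk, norm_smul, nK]
      refine le_trans ?_ hBK
      rw [div_eq_inv_mul]
      refine mul_le_mul_of_nonneg_left ((norm_sum_le _ _).trans ?_) (by positivity)
      refine le_trans (sum_le_sum_of_subset_of_nonneg
        (range_subset_range.mpr (ps_lt hm p).le) (fun _ _ _ => norm_nonneg _)) ?_
      exact sum_le_sum fun i hi => e4 _ (mem_range.mpr (by omega)) i hi
    linarith

/-- abstract theorem -/
theorem exists_rep [TopologicalSpace.SeparableSpace X] (κ : ℝ → X) (U : ℕ → Set ℝ)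
    (hU : ∀ j, IsOpen (U j)) (hne : ∀ j, (U j).Nonempty) (hκ : ∀ j, ContinuousOn κ (U j))
    (hd : ∀ j, (Submodule.span ℂ (κ '' U j)).topologicalClosure = ⊤)
    (hdisj : ∀ j j' t, t ∈ U j → t ∈ U j' → j = j') :
    ∃ (Λ : ℕ → ℝ) (b : ℕ → ℕ), Function.Injective Λ ∧ Tendsto b atTop atTop ∧ (∀ n, Λ n ∈ U (b n)) ∧
      ∀ f : X, ∃ c : ℕ → ℂ, Tendsto (fun N => ∑ n ∈ range N, c n • κ (Λ n)) atTop (𝓝 f) := by
  obtain ⟨D, hD⟩ := TopologicalSpace.exists_dense_seq X
  have hD' : ∀ f ∈ (⊤ : Submodule ℂ X), ∀ δ > 0, ∃ j, ‖f - D j‖ ≤ δ := by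
    intro f _ δ hδ
    obtain ⟨j, hj⟩ := hD.exists_dist_lt f hδ
    exact ⟨j, by rw [← dist_eq_norm]; exact hj.le⟩
  choose m pts d hm h1 h2 h3 h4 using fun j : ℕ => block κ (U j) (hU j) (hne j) (hκ j) (hd j)
    (D (Nat.unpair j).1) (1 / ((j:ℝ) + 1)) (by positivity)
  refine ⟨fun n => pts (bl m n) (ps m n), bl m, inj_of hm pts ?_, bl_tendsto hm,
    fun n => h1 _ _ (ps_lt hm n), fun f => ?_⟩
  · intro j j' i i' hi hi' he
    have : j = j' := hdisj j j' _ (h1 j i hi) (he ▸ h1 j' i' hi')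
    subst this
    exact ⟨rfl, h2 j i hi i' hi' he⟩
  · exact rep hm ⊤ (fun j i => κ (pts j i)) d (fun j => D (Nat.unpair j).1)
      (fun j => 1 / ((j:ℝ) + 1)) tendsto_one_div_add_atTop_nhds_zero_nat (fun _ => trivial) h3 h4
      (dense_seq ⊤ D hD') f trivial

end Pool.Agent.H92.RepArc
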