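import Pool.Agent.H92.RepArc

set_option autoImplicit false
open Filter Topology Finset

namespace Pool.Agent.H92.RepH2
open Pool.Agent.H92.RepArc

noncomputable abbrev L2 := lp (fun _ : ℕ => ℂ) 2

lemma mem_of {f : ℕ → ℂ} (hf : Summable (fun n => ‖f n‖ ^ 2)) : Memℓp f 2 := by
  apply memℓp_gen
  simpa using hf

lemma normsq (f : L2) : ‖f‖ ^ 2 = ∑' n, ‖f n‖ ^ 2 := by
  have := lp.norm_rpow_eq_tsum (p := 2) (by norm_num) f
  simpa using this

lemma sep : TopologicalSpace.SeparableSpace L2 := by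
  classical
  rw [← TopologicalSpace.isSeparable_univ_iff]
  have h1 : TopologicalSpace.IsSeparable
      (Set.range fun i : ℕ => (lp.single 2 i (1:ℂ) : L2)) := (Set.countable_range _).isSeparable
  refine (h1.span (R := ℂ)).closure.mono (fun f _ => ?_)
  have := lp.hasSum_single (p := 2) (by norm_num) f
  refine mem_closure_of_tendsto this (Eventually.of_forall fun s => ?_)
  refine Submodule.sum_mem _ fun i _ => ?_
  have e : (lp.single 2 i (f i) : L2) = f i • lp.single 2 i (1:ℂ) := by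
    rw [← lp.single_smul]; simp
  rw [e]
  exact Submodule.smul_mem _ _ (Submodule.subset_span ⟨i, rfl⟩)

lemma summ {t : ℝ} (ht : |t| < 1) : Summable (fun n : ℕ => ‖(t:ℂ) ^ n‖ ^ 2) := by
  have : ∀ n : ℕ, ‖(t:ℂ) ^ n‖ ^ 2 = (t ^ 2) ^ n := by
    intro n
    rw [norm_pow, Complex.norm_real, Real.norm_eq_abs, ← pow_mul, mul_comm, pow_mul, sq_abs]
  simp_rw [this]
  exact summable_geometric_of_lt_one (by positivity) (by rw [← sq_abs]; nlinarith [abs_nonneg t])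

noncomputable def κ (t : ℝ) : L2 :=
  if h : |t| < 1 then ⟨fun n => (t:ℂ) ^ n, mem_of (summ h)⟩ else 0

lemma κ_apply {t : ℝ} (ht : |t| < 1) (n : ℕ) : κ t n = (t:ℂ) ^ n := by
  unfold κ; rw [dif_pos ht]

lemma κ_dist {s t : ℝ} (hs : |s| < 1) (ht : |t| < 1) :
    ‖κ s - κ t‖ ^ 2 = (1 - s ^ 2)⁻¹ - 2 * (1 - s * t)⁻¹ + (1 - t ^ 2)⁻¹ := by
  rw [normsq]
  have e : ∀ n : ℕ, ‖(κ s - κ t) n‖ ^ 2 = (s ^ 2) ^ n - 2 * (s * t) ^ n + (t ^ 2) ^ n := by
    intro n
    have : (κ s - κ t) n = ((s ^ n - t ^ n : ℝ) : ℂ) := by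
      rw [lp.coeFn_sub, Pi.sub_apply, κ_apply hs, κ_apply ht]; push_cast; ring
    rw [this, Complex.norm_real, Real.norm_eq_abs, sq_abs, mul_pow, ← pow_mul, ← pow_mul]
    ring
  simp_rw [e]
  have a1 : HasSum (fun n : ℕ => (s ^ 2) ^ n) (1 - s ^ 2)⁻¹ :=
    hasSum_geometric_of_abs_lt_one (by rw [abs_pow]; nlinarith [abs_nonneg s])
  have a2 : HasSum (fun n : ℕ => (t ^ 2) ^ n) (1 - t ^ 2)⁻¹ :=
    hasSum_geometric_of_abs_lt_one (by rw [abs_pow]; nlinarith [abs_nonneg t])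
  have a3 : HasSum (fun n : ℕ => (s * t) ^ n) (1 - s * t)⁻¹ :=
    hasSum_geometric_of_abs_lt_one (by rw [abs_mul]; nlinarith [abs_nonneg s, abs_nonneg t])
  exact ((a1.sub (a3.mul_left 2)).add a2).tsum_eq

lemma κ_cont : ContinuousOn κ (Set.Ioo (-1) 1) := by
  intro t ht
  have ht' : |t| < 1 := abs_lt.mpr ht
  have hne : 1 - t ^ 2 ≠ 0 := by nlinarith [abs_nonneg t, sq_abs t]
  rw [ContinuousWithinAt, tendsto_iff_norm_sub_tendsto_zero]
  have h1 : Tendsto (fun s : ℝ => (1 - s ^ 2)⁻¹ - 2 * (1 - s * t)⁻¹ + (1 - t ^ 2)⁻¹) (𝓝 t)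
      (𝓝 ((1 - t ^ 2)⁻¹ - 2 * (1 - t * t)⁻¹ + (1 - t ^ 2)⁻¹)) := by
    refine ContinuousAt.tendsto (f := fun s : ℝ => (1 - s ^ 2)⁻¹ - 2 * (1 - s * t)⁻¹ + (1 - t ^ 2)⁻¹) ?_
    have hne' : 1 - t * t ≠ 0 := by rwa [← sq]
    fun_prop (disch := assumption)
  rw [← sq, show (1 - t ^ 2)⁻¹ - 2 * (1 - t ^ 2)⁻¹ + (1 - t ^ 2)⁻¹ = 0 by ring] at h1
  have h2 := (h1.mono_left (nhdsWithin_le_nhds (s := Set.Ioo (-1) 1))).sqrt
  rw [Real.sqrt_zero] at h2
  refine h2.congr' ?_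
  filter_upwards [self_mem_nhdsWithin] with s hs
  rw [← κ_dist (abs_lt.mpr hs) ht', Real.sqrt_sq (norm_nonneg _)]

lemma coeff_zero (c : ℕ → ℂ) (C : ℝ) (hc : ∀ n, ‖c n‖ ≤ C) {a b : ℝ} (ha : -1 ≤ a) (hab : a < b)
    (hb : b ≤ 1) (h : ∀ t ∈ Set.Ioo a b, ∑' n, c n * (t:ℂ) ^ n = 0) : c = 0 := by
  let p := FormalMultilinearSeries.ofScalars ℂ c
  have hr : ((1:NNReal) : ENNReal) ≤ p.radius :=
    p.le_radius_of_bound C (r := 1) (fun n => by
      simpa [p, FormalMultilinearSeries.ofScalars_norm] using hc n)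
  have hpos : 0 < p.radius := lt_of_lt_of_le (by simp) hr
  have hp := p.hasFPowerSeriesOnBall hpos
  have han : AnalyticOnNhd ℂ p.sum (Metric.ball 0 1) := by
    refine hp.analyticOnNhd.mono fun z hz => ?_
    refine lt_of_lt_of_le ?_ hr
    rw [edist_zero_right]
    have h1 : ‖z‖ < 1 := by simpa using hz
    have : ‖z‖₊ < 1 := by exact_mod_cast h1
    rw [enorm_eq_nnnorm]
    exact_mod_cast this
  set t0 : ℝ := (a + b) / 2
  have ht0 : t0 ∈ Set.Ioo a b := ⟨by simp only [t0]; linarith, by simp only [t0]; linarith⟩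
  have hz0 : (t0 : ℂ) ∈ Metric.ball (0:ℂ) 1 := by
    simp only [mem_ball_zero_iff, Complex.norm_real, Real.norm_eq_abs]
    rw [abs_lt]; constructor <;> linarith [ht0.1, ht0.2]
  have hfr : ∃ᶠ z in 𝓝[≠] (t0:ℂ), p.sum z = 0 := by
    have t1 : Tendsto (fun t : ℝ => (t:ℂ)) (𝓝[≠] t0) (𝓝[≠] (t0:ℂ)) := by
      refine tendsto_nhdsWithin_iff.mpr ⟨Complex.continuous_ofReal.continuousAt.tendsto.mono_left
        nhdsWithin_le_nhds, ?_⟩
      filter_upwards [self_mem_nhdsWithin] with t ht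
      simpa using ht
    refine t1.frequently (Eventually.frequently ?_)
    filter_upwards [mem_nhdsWithin_of_mem_nhds (isOpen_Ioo.mem_nhds ht0)] with t ht
    have := FormalMultilinearSeries.ofScalars_sum_eq c (t:ℂ)
    unfold FormalMultilinearSeries.ofScalarsSum at this
    rw [this]
    simpa using h t ht
  have hz := han.eqOn_zero_of_preconnected_of_frequently_eq_zero
    (convex_ball (0:ℂ) 1).isPreconnected hz0 hfr
  have := hp.hasFPowerSeriesAt.eq_zero_of_eventually (by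
    filter_upwards [Metric.ball_mem_nhds (0:ℂ) one_pos] with z hz' using hz hz')
  exact (FormalMultilinearSeries.ofScalars_series_eq_zero ℂ).mp this

lemma κ_dense {a b : ℝ} (ha : -1 ≤ a) (hab : a < b) (hb : b ≤ 1) :
    (Submodule.span ℂ (κ '' Set.Ioo a b)).topologicalClosure = ⊤ := by
  rw [Submodule.topologicalClosure_eq_top_iff, Submodule.eq_bot_iff]
  intro f hf
  have h := coeff_zero (fun n => f n) ‖f‖ (fun n => lp.norm_apply_le_norm (by norm_num) f n) ha hab hb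
    (by
      intro t ht
      have ht' : |t| < 1 := abs_lt.mpr ⟨by linarith [ht.1], by linarith [ht.2]⟩
      have := (Submodule.mem_orthogonal _ _).mp hf (κ t) (Submodule.subset_span ⟨t, ht, rfl⟩)
      rw [lp.inner_eq_tsum] at this
      rw [← this]
      congr 1; ext n
      rw [κ_apply ht']
      simp)
  ext n
  exact congrFun h n

theorem main : ∃ Λ : ℕ → ℝ, Function.Injective Λ ∧ (∀ n, 0 < Λ n ∧ Λ n < 1) ∧
    Tendsto Λ atTop (𝓝 1) ∧
    ∀ f : ℕ → ℂ, Summable (fun n => ‖f n‖ ^ 2) →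
      ∃ c : ℕ → ℂ, Tendsto
        (fun N : ℕ => ∑' n : ℕ, ‖f n - ∑ k ∈ range N, c k * ((Λ k : ℝ) : ℂ) ^ n‖ ^ 2)
        atTop (𝓝 0) := by
  have := sep
  let u : ℕ → ℝ := fun j => 1 - 1 / ((j:ℝ) + 1)
  have u_mono : StrictMono u := by
    refine strictMono_nat_of_lt_succ fun j => ?_
    simp only [u]
    have : 1 / (((j + 1 : ℕ):ℝ) + 1) < 1 / ((j:ℝ) + 1) :=
      one_div_lt_one_div_of_lt (by positivity) (by push_cast; linarith)
    linarith
  have u0 : ∀ j, 0 ≤ u j := by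
    intro j
    have := u_mono.monotone (Nat.zero_le j)
    simpa [u] using this
  have u1 : ∀ j, u j < 1 := by
    intro j
    have : 0 < 1 / ((j:ℝ) + 1) := by positivity
    simp only [u]; linarith
  have ut : Tendsto u atTop (𝓝 1) := by
    have := (tendsto_one_div_add_atTop_nhds_zero_nat (𝕜 := ℝ)).const_sub (1:ℝ)
    rwa [sub_zero] at this
  obtain ⟨Λ, b, hinj, hb, hmem, hrep⟩ := exists_rep κ (fun j => Set.Ioo (u j) (u (j + 1)))
    (fun _ => isOpen_Ioo) (fun j => Set.nonempty_Ioo.mpr (u_mono (Nat.lt_succ_self j)))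
    (fun j => κ_cont.mono (Set.Ioo_subset_Ioo (by linarith [u0 j]) (u1 _).le))
    (fun j => κ_dense (by linarith [u0 j]) (u_mono (Nat.lt_succ_self j)) (u1 _).le)
    (by
      intro j j' t h1 h2
      have a1 := u_mono.lt_iff_lt.mp (h1.1.trans h2.2)
      have a2 := u_mono.lt_iff_lt.mp (h2.1.trans h1.2)
      omega)
  have hpos : ∀ n, 0 < Λ n ∧ Λ n < 1 := fun n =>
    ⟨lt_of_le_of_lt (u0 _) (hmem n).1, (hmem n).2.trans (u1 _)⟩
  refine ⟨Λ, hinj, hpos, ?_, fun f hf => ?_⟩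
  · exact tendsto_of_tendsto_of_tendsto_of_le_of_le (ut.comp hb) tendsto_const_nhds
      (fun n => (hmem n).1.le) (fun n => (hpos n).2.le)
  · obtain ⟨c, hc⟩ := hrep ⟨f, mem_of hf⟩
    refine ⟨c, ?_⟩
    rw [tendsto_iff_norm_sub_tendsto_zero] at hc
    have := hc.pow 2
    rw [zero_pow two_ne_zero] at this
    refine this.congr fun N => ?_
    rw [norm_sub_rev, normsq]
    congr 1; ext n
    rw [lp.coeFn_sub, Pi.sub_apply, lp.coeFn_sum, Finset.sum_apply]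
    congr 3
    refine sum_congr rfl fun k _ => ?_
    rw [lp.coeFn_smul, Pi.smul_apply, κ_apply (abs_lt.mpr ⟨by linarith [(hpos k).1], (hpos k).2⟩)]
    rfl

end Pool.Agent.H92.RepH2
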