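import Pool.Agent.H92.RingBase
import Pool.Agent.H92.Rep

set_option autoImplicit false
set_option linter.unusedSectionVars false
open MeasureTheory AddCircle Filter Topology Finset
open scoped ENNReal

namespace Pool.Agent.H92.Ring
open Pool.Agent.H92.RingBase Pool.Agent.H92.Fourier1 Pool.Agent.H92.Rep

lemma ex_pow (s x : ℝ) (n : ℕ) : ex s x ^ n = ex (n * s) x := by
  induction n with
  | zero => simp [ex_zero_left]
  | succ n ih => rw [pow_succ, ih, ← ex_add_left]; congr 1; push_cast; ring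

lemma ex_congr {s x s' x' : ℝ} (h : s * x = s' * x') : ex s x = ex s' x' := by
  unfold ex; rw [h]

lemma ex_half : ex 1 (1 / 2) = -1 := by
  unfold ex
  rw [← Complex.exp_pi_mul_I]; congr 1; push_cast; ring

noncomputable def gco (m : ℕ) (r : ℝ) (i : ℕ) (θ : ℝ) (n : ℕ) : ℂ :=
  if (2 ^ i : ℤ) ∣ ((m:ℤ) - n) then 2 ^ i * (r:ℂ) ^ n * ex (((m:ℤ) - n : ℤ) : ℝ) (θ / 2 ^ i) else 0

lemma gco_norm (m : ℕ) {r : ℝ} (hr : 0 ≤ r) (i : ℕ) (θ : ℝ) (n : ℕ) :
    ‖gco m r i θ n‖ = if (2 ^ i : ℤ) ∣ ((m:ℤ) - n) then 2 ^ i * r ^ n else 0 := by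
  unfold gco
  split_ifs
  · simp [ex_norm, abs_of_nonneg hr]
  · simp

lemma gco_summable (m : ℕ) {r : ℝ} (hr : 0 ≤ r) (hr1 : r < 1) (i : ℕ) (θ : ℝ) :
    Summable fun n => ‖gco m r i θ n‖ := by
  refine Summable.of_nonneg_of_le (fun _ => norm_nonneg _) (fun n => ?_)
    ((summable_geometric_of_lt_one hr hr1).mul_left (2 ^ i))
  rw [gco_norm m hr]; split_ifs
  · exact le_rfl
  · positivity

lemma gco_succ (m : ℕ) (r : ℝ) (i : ℕ) (θ : ℝ) (n : ℕ) :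
    gco m r (i + 1) θ n = gco m r i (θ / 2) n + gco m r i ((θ + 1) / 2) n := by
  unfold gco
  set t : ℤ := (m:ℤ) - n
  have h2 : (2:ℝ) ^ i ≠ 0 := by positivity
  have e1 : ex (t:ℝ) (θ / 2 / 2 ^ i) = ex (t:ℝ) (θ / 2 ^ (i + 1)) := by
    congr 1; rw [pow_succ]; field_simp
  have e2 : ex (t:ℝ) ((θ + 1) / 2 / 2 ^ i) = ex (t:ℝ) (θ / 2 ^ (i + 1)) * ex t (1 / 2 ^ (i + 1)) := by
    rw [← ex_add_right]; congr 1; rw [pow_succ]; field_simp
  by_cases h : (2 ^ i : ℤ) ∣ t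
  · rw [if_pos h, if_pos h, e1, e2]
    obtain ⟨u, hu⟩ := h
    rcases Int.even_or_odd' u with ⟨v, hv | hv⟩
    · rw [if_pos ⟨v, by rw [hu, hv]; ring⟩]
      have : ex (t:ℝ) (1 / 2 ^ (i + 1)) = 1 := by
        rw [← ex_int v 1]; apply ex_congr
        rw [hu, hv]; push_cast; rw [pow_succ]; field_simp
      rw [this]; ring
    · rw [if_neg]
      · have : ex (t:ℝ) (1 / 2 ^ (i + 1)) = -1 := by
          have e3 : ex (t:ℝ) (1 / 2 ^ (i + 1)) = ex 1 ((v:ℝ) + 1 / 2) := by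
            apply ex_congr
            rw [hu, hv]; push_cast; rw [pow_succ]; field_simp
          have e4 := ex_int 1 v
          push_cast at e4
          rw [e3, ex_add_right, e4, ex_half, one_mul]
        rw [this]; ring
      · rintro ⟨w, hw⟩
        rw [hu, pow_succ, mul_assoc] at hw
        have := mul_left_cancel₀ (by positivity : (2 ^ i : ℤ) ≠ 0) hw
        omega
  · rw [if_neg h, if_neg h, if_neg, add_zero]
    intro h'
    exact h ((pow_dvd_pow 2 (Nat.le_succ i)).trans h')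

noncomputable def G (m : ℕ) (r : ℝ) (i : ℕ) (θ : ℝ) : C := S (gco m r i θ)

lemma G_succ (m : ℕ) {r : ℝ} (hr : 0 ≤ r) (hr1 : r < 1) (i : ℕ) (θ : ℝ) :
    G m r (i + 1) θ = G m r i (θ / 2) + G m r i ((θ + 1) / 2) := by
  unfold G
  rw [← S_add (gco_summable m hr hr1 _ _) (gco_summable m hr hr1 _ _)]
  congr 1; ext n; exact gco_succ m r i θ n

noncomputable def kern (w : ℂ) : C := S (fun n => (starRingEnd ℂ w) ^ n)

lemma kern_summable {w : ℂ} (hw : ‖w‖ < 1) : Summable fun n : ℕ => ‖(starRingEnd ℂ w) ^ n‖ := by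
  simpa using summable_geometric_of_lt_one (norm_nonneg w) hw

lemma kern_apply {w : ℂ} (hw : ‖w‖ < 1) (x : AddCircle (1:ℝ)) :
    kern w x = (1 - starRingEnd ℂ w * fourier 1 x)⁻¹ := by
  unfold kern
  rw [S_apply (kern_summable hw)]
  simp_rw [← mul_pow]
  refine tsum_geometric_of_norm_lt_one ?_
  rw [norm_mul, HardyDense.fourier_norm']
  simpa using hw

lemma pt_norm {r : ℝ} (hr : 0 ≤ r) (θ : ℝ) : ‖(r:ℂ) * ex 1 θ‖ = r := by
  simp [ex_norm, abs_of_nonneg hr]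

lemma G_zero (m : ℕ) {r : ℝ} (hr : 0 ≤ r) (hr1 : r < 1) (θ : ℝ) :
    G m r 0 θ = ex m θ • kern (r * ex 1 θ) := by
  unfold G kern
  rw [← S_smul _ (kern_summable (by rw [pt_norm hr]; exact hr1))]
  congr 1; ext n
  unfold gco
  rw [if_pos (by simp)]
  simp only [pow_zero, one_mul, div_one, map_mul, Complex.conj_ofReal, ex_conj, mul_pow, ex_pow]
  rw [mul_left_comm, ← ex_add_left]; congr 2; push_cast; ring

lemma cls {r : ℝ} (hr : 0 ≤ r) (hr1 : r < 1) (M m : ℕ) (hM : 0 < M) (s : Finset ℕ) :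
    ∑ n ∈ s, (if (M : ℤ) ∣ ((m:ℤ) - n) then r ^ n else 0) ≤ (1 - r ^ M)⁻¹ := by
  rw [← sum_filter]
  refine le_trans (sum_le_sum fun n _ => ?_) (sum_pow_le (ρ := r ^ M) (by positivity)
    (pow_lt_one₀ hr hr1 hM.ne') _ (fun n => n / M) ?_)
  · rw [← pow_mul]
    exact pow_le_pow_of_le_one hr hr1.le (Nat.mul_div_le n M)
  · intro n hn n' hn' h
    simp only [coe_filter, Set.mem_ofPred_eq] at hn hn' h
    have h1 : (M:ℤ) ∣ (n:ℤ) - n' := by
      have := dvd_sub hn'.2 hn.2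
      rwa [show (m:ℤ) - n' - (m - n) = n - n' by ring] at this
    have h2 : n' % M = n % M := (Nat.modEq_iff_dvd).mpr h1
    rw [← Nat.div_add_mod n M, ← Nat.div_add_mod n' M, h, h2]

/-- radius of the ring of level `s` -/
noncomputable def rad (ε : ℝ) (s : ℕ) : ℝ := 1 - ε / 2 ^ s

section
variable {ε : ℝ} (h0 : 0 < ε) (h1 : ε ≤ 1 / 2)
include h0 h1

lemma x_le (s : ℕ) : ε / 2 ^ s ≤ 1 / 2 :=
  (div_le_self h0.le (one_le_pow₀ (by norm_num))).trans h1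

lemma rad_ge (s : ℕ) : 1 / 2 ≤ rad ε s := by
  have := x_le h0 h1 s; unfold rad; linarith

lemma rad_nonneg (s : ℕ) : 0 ≤ rad ε s := by linarith [rad_ge h0 h1 s]

lemma rad_lt (s : ℕ) : rad ε s < 1 := by
  have : 0 < ε / 2 ^ s := by positivity
  unfold rad; linarith

lemma rad_pow (s M : ℕ) : rad ε s ^ M ≤ 1 / (1 + M * (ε / 2 ^ s)) :=
  pow_le_inv (by positivity) (by linarith [x_le h0 h1 s]) M

lemma inv_le (s i : ℕ) (hi : i ≤ s) : (1 - rad ε s ^ 2 ^ i)⁻¹ ≤ 2 / ε * 2 ^ s / 2 ^ i := by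
  have a1 := rad_pow h0 h1 s (2 ^ i)
  set y : ℝ := ((2 ^ i : ℕ) : ℝ) * (ε / 2 ^ s) with hy
  have y0 : 0 < y := by positivity
  have y1 : y ≤ 1 := by
    rw [hy]; push_cast
    rw [mul_div_assoc', div_le_one (by positivity)]
    have : (2:ℝ) ^ i ≤ 2 ^ s := pow_le_pow_right₀ (by norm_num) hi
    nlinarith [show (0:ℝ) < 2 ^ i by positivity]
  have e : 2 / ε * 2 ^ s / 2 ^ i = (y / 2)⁻¹ := by
    rw [hy]; push_cast; field_simp
  rw [e]
  refine inv_anti₀ (by positivity) ?_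
  have : 1 / (1 + y) ≤ 1 - y / 2 := by
    rw [div_le_iff₀ (by positivity)]; nlinarith
  linarith

lemma G_sup (m s i : ℕ) (hi : i ≤ s) (θ : ℝ) : ‖G m (rad ε s) i θ‖ ≤ 2 / ε * 2 ^ s := by
  have r0 := rad_nonneg h0 h1 s
  have r1 := rad_lt h0 h1 s
  refine (S_norm (gco_summable m r0 r1 i θ)).trans ?_
  refine (gco_summable m r0 r1 i θ).tsum_le_of_sum_le fun t => ?_
  have a1 := (cls r0 r1 (2 ^ i) m (by positivity) t).trans (inv_le h0 h1 s i hi)
  have e : ∑ n ∈ t, ‖gco m (rad ε s) i θ n‖ =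
      2 ^ i * ∑ n ∈ t, (if ((2 ^ i : ℕ) : ℤ) ∣ ((m:ℤ) - n) then rad ε s ^ n else 0) := by
    rw [mul_sum]
    refine sum_congr rfl fun n _ => ?_
    rw [gco_norm m r0]; push_cast; split_ifs <;> simp
  rw [e]
  rw [le_div_iff₀ (by positivity)] at a1
  linarith

lemma G_L2 (m s i : ℕ) (hi : i ≤ s) (θ : ℝ) :
    ‖ι 2 (G m (rad ε s) i θ)‖ ^ 2 ≤ 2 / ε * 2 ^ s * 2 ^ i := by
  have r0 := rad_nonneg h0 h1 s
  have r1 := rad_lt h0 h1 s
  refine S_L2 (gco_summable m r0 r1 i θ) fun t => ?_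
  have a1 := (cls r0 r1 (2 ^ i) m (by positivity) t).trans (inv_le h0 h1 s i hi)
  have e : ∑ n ∈ t, ‖gco m (rad ε s) i θ n‖ ^ 2 ≤
      2 ^ i * 2 ^ i * ∑ n ∈ t, (if ((2 ^ i : ℕ) : ℤ) ∣ ((m:ℤ) - n) then rad ε s ^ n else 0) := by
    rw [mul_sum]
    refine sum_le_sum fun n _ => ?_
    rw [gco_norm m r0]; push_cast; split_ifs
    · have b1 : rad ε s ^ n ≤ 1 := pow_le_one₀ r0 r1.le
      have b2 : 0 ≤ rad ε s ^ n := by positivity
      have b3 : (0:ℝ) ≤ 2 ^ i * 2 ^ i * rad ε s ^ n := by positivity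
      nlinarith
    · simp
  refine e.trans ?_
  rw [le_div_iff₀ (by positivity)] at a1
  nlinarith [show (0:ℝ) < 2 ^ i by positivity]

end

noncomputable def th (q : ℕ) : ℝ := (1 / 2 : ℝ) ^ (((q + 2 : ℕ) : ℝ)⁻¹)

lemma th_pow (q : ℕ) : th q ^ (q + 2) = 1 / 2 :=
  Real.rpow_inv_natCast_pow (by norm_num) (by omega)

lemma th_nonneg (q : ℕ) : 0 ≤ th q := Real.rpow_nonneg (by norm_num) _

lemma th_lt (q : ℕ) : th q < 1 :=
  Real.rpow_lt_one (by norm_num) (by norm_num) (by positivity)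

section
variable {ε : ℝ} (h0 : 0 < ε) (h1 : ε ≤ 1 / 2) (p : ℝ≥0∞) [Fact (1 ≤ p)] (q : ℕ)
  (hpq : p ≤ (q + 2 : ℕ))
include h0 h1 hpq

lemma G_Lp (m s i : ℕ) (hi : i ≤ s) (θ : ℝ) :
    ‖ι p (G m (rad ε s) i θ)‖ ≤ 2 / ε * 2 ^ s * th q ^ (s - i) := by
  have a1 := interp p q hpq _ (G_sup h0 h1 m s i hi θ) (G_L2 h0 h1 m s i hi θ)
  have t0 := th_nonneg q
  refine le_of_pow_le_pow_left₀ (n := q + 2) (by omega) (by positivity) (a1.trans ?_)
  rw [mul_pow _ (th q ^ (s - i)), ← pow_mul, mul_comm (s - i), pow_mul, th_pow, pow_add, mul_assoc _ (_ ^ 2)]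
  refine mul_le_mul_of_nonneg_left ?_ (by positivity)
  obtain ⟨k, rfl⟩ := Nat.exists_eq_add_of_le hi
  rw [Nat.add_sub_cancel_left]
  have a : (1:ℝ) ≤ 2 / ε := by rw [le_div_iff₀ h0]; linarith
  have e : (2 / ε * 2 ^ (i + k)) ^ 2 * (1 / 2 : ℝ) ^ k = (2 / ε) * (2 / ε * 2 ^ (i + k) * 2 ^ i) := by
    rw [one_div_pow, pow_add]; field_simp
  rw [e]
  exact le_mul_of_one_le_left (by positivity) a

lemma R2 (m s P : ℕ) (hP : P < 2 ^ s) :
    ‖ι p (∑ n ∈ range P, G m (rad ε s) 0 (vdc n))‖ ≤ 2 / ε * 2 ^ s * (1 - th q)⁻¹ := by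
  rw [map_sum]
  have := vsum_part (fun i θ => ι p (G m (rad ε s) i θ)) (fun i θ => by
    rw [G_succ m (rad_nonneg h0 h1 s) (rad_lt h0 h1 s), map_add])
    (fun i => 2 / ε * 2 ^ s * th q ^ (s - i)) s (fun i hi θ => G_Lp h0 h1 p q hpq m s i hi θ)
    s 0 P (by omega) hP
  refine this.trans ?_
  rw [← mul_sum]
  refine mul_le_mul_of_nonneg_left ?_ (by positivity)
  refine sum_pow_le (th_nonneg q) (th_lt q) _ (fun l => s - (0 + l)) ?_
  intro l hl l' hl' h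
  simp only [coe_range, Set.mem_Iio] at hl hl' h
  omega

end

noncomputable def u (m : ℕ) (r : ℝ) (s n : ℕ) : ℝ :=
  if m < n ∧ 2 ^ s ∣ n - m then r ^ (n - m) else 0

lemma u_nonneg (m : ℕ) {r : ℝ} (hr : 0 ≤ r) (s n : ℕ) : 0 ≤ u m r s n := by
  unfold u; split_ifs <;> positivity

section
variable {ε : ℝ} (h0 : 0 < ε) (h1 : ε ≤ 1 / 2)
include h0 h1

lemma u_le (m s n : ℕ) : u m (rad ε s) s n ≤
    if m < n ∧ 2 ^ s ∣ n - m then (1 / (1 + ε)) ^ ((n - m) / 2 ^ s) else 0 := by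
  unfold u; split_ifs with h
  · obtain ⟨c, hc⟩ := h.2
    rw [hc, Nat.mul_div_cancel_left _ (by positivity), pow_mul]
    refine pow_le_pow_left₀ (pow_nonneg (rad_nonneg h0 h1 s) _) ?_ _
    have := rad_pow h0 h1 s (2 ^ s)
    push_cast at this
    rwa [mul_div_cancel₀ _ (by positivity)] at this
  · exact le_rfl

lemma rho_inv : (1 - 1 / (1 + ε))⁻¹ ≤ 2 / ε := by
  have : 1 - 1 / (1 + ε) = ε / (1 + ε) := by field_simp; ring
  rw [this, inv_div]
  exact div_le_div_of_nonneg_right (by linarith) h0.le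

lemma rho_lt : 1 / (1 + ε) < 1 := by rw [div_lt_one (by positivity)]; linarith

lemma u_sum1 (m s : ℕ) (t : Finset ℕ) : ∑ n ∈ t, u m (rad ε s) s n ≤ 2 / ε := by
  refine (sum_le_sum fun n _ => u_le h0 h1 m s n).trans ?_
  rw [← sum_filter]
  refine (sum_pow_le (by positivity) (rho_lt h0 h1) _ _ ?_).trans (rho_inv h0 h1)
  intro n hn n' hn' h
  simp only [coe_filter, Set.mem_ofPred_eq] at hn hn' h
  have a1 := Nat.div_mul_cancel hn.2.2
  have a2 := Nat.div_mul_cancel hn'.2.2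
  rw [h] at a1
  omega

lemma u_sum2 (m σ n j : ℕ) : ∑ k ∈ range j, u m (rad ε (σ + k)) (σ + k) n ≤ 2 / ε := by
  refine (sum_le_sum fun k _ => u_le h0 h1 m (σ + k) n).trans ?_
  rw [← sum_filter]
  refine (sum_pow_le (by positivity) (rho_lt h0 h1) _ _ ?_).trans (rho_inv h0 h1)
  intro k hk k' hk' h
  simp only [coe_filter, Set.mem_ofPred_eq] at hk hk' h
  have a1 := Nat.div_mul_cancel hk.2.2
  have a2 := Nat.div_mul_cancel hk'.2.2
  rw [h] at a1
  have a3 : (n - m) / 2 ^ (σ + k') ≠ 0 := by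
    intro h0; rw [h0] at a2; omega
  have a4 := mul_left_cancel₀ a3 (a1.trans a2.symm)
  have := Nat.pow_right_injective (le_refl 2) a4
  omega

lemma u_summable (m s : ℕ) : Summable fun n => ‖((u m (rad ε s) s n : ℝ) : ℂ)‖ := by
  refine summable_of_sum_le (c := 2 / ε) (fun _ => norm_nonneg _) fun t => ?_
  refine le_trans (le_of_eq ?_) (u_sum1 h0 h1 m s t)
  refine sum_congr rfl fun n _ => ?_
  rw [Complex.norm_real, Real.norm_of_nonneg (u_nonneg m (rad_nonneg h0 h1 s) s n)]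

end

noncomputable def U (m : ℕ) (ε : ℝ) (s : ℕ) : C := S (fun n => ((u m (rad ε s) s n : ℝ) : ℂ))

lemma R1 {ε : ℝ} (h0 : 0 < ε) (h1 : ε ≤ 1 / 2) (m s : ℕ) (hm : m < 2 ^ s) :
    ∑ n ∈ range (2 ^ s), G m (rad ε s) 0 (vdc n) =
      ((2 ^ s * rad ε s ^ m : ℝ) : ℂ) • (e m + U m ε s) := by
  have r0 := rad_nonneg h0 h1 s
  have r1 := rad_lt h0 h1 s
  rw [vsum_full (G m (rad ε s)) (G_succ m r0 r1), zero_add, ← S_single]
  have hs1 : Summable fun n : ℕ => ‖(if n = m then 1 else 0 : ℂ)‖ :=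
    summable_of_ne_finset_zero (s := {m}) (by intro b hb; simp at hb; simp [hb])
  unfold U G
  rw [← S_add hs1 (u_summable h0 h1 m s), ← S_smul]
  · congr 1; ext n
    unfold gco u
    rw [zero_div, ex_zero_right]
    rcases lt_trichotomy n m with h | h | h
    · rw [if_neg, if_neg h.ne, if_neg (by omega)]
      · simp
      · intro hd
        have := Int.le_of_dvd (by omega) hd
        have h2 : ((2 ^ s : ℕ) : ℤ) ≤ m - n := by push_cast; exact this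
        omega
    · subst h; simp
    · obtain ⟨c, rfl⟩ := Nat.exists_eq_add_of_le h.le
      rw [if_neg h.ne', Nat.add_sub_cancel_left]
      have : ((2 ^ s : ℤ) ∣ (m:ℤ) - ((m + c : ℕ) : ℤ)) ↔ (m < m + c ∧ 2 ^ s ∣ c) := by
        rw [show (m:ℤ) - ((m + c : ℕ) : ℤ) = -(c:ℤ) by push_cast; ring, dvd_neg]
        constructor
        · intro h'; exact ⟨h, by exact_mod_cast h'⟩
        · intro h'; exact_mod_cast h'.2
      by_cases hd : m < m + c ∧ 2 ^ s ∣ c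
      · rw [if_pos (this.mpr hd), if_pos hd]; push_cast; ring
      · rw [if_neg (this.not.mpr hd), if_neg hd]; simp
  · exact Summable.of_nonneg_of_le (fun _ => norm_nonneg _) (fun n => norm_add_le _ _)
      (hs1.add (u_summable h0 h1 m s))

lemma R3 {ε : ℝ} (h0 : 0 < ε) (h1 : ε ≤ 1 / 2) (p : ℝ≥0∞) [Fact (1 ≤ p)] (q : ℕ)
    (hpq : p ≤ (q + 2 : ℕ)) (m σ j K : ℕ) (hj : j ≤ K) :
    ‖ι p (∑ k ∈ range j, U m ε (σ + k))‖ ^ (q + 2) ≤ (2 / ε) ^ (q + 2) * K ^ (q + 1) := by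
  unfold U
  rw [← S_sum _ (fun k => u_summable h0 h1 m (σ + k))]
  have hn : ∀ n, ‖∑ k ∈ range j, ((u m (rad ε (σ + k)) (σ + k) n : ℝ) : ℂ)‖ =
      ∑ k ∈ range j, u m (rad ε (σ + k)) (σ + k) n := by
    intro n
    rw [← Complex.ofReal_sum, Complex.norm_real, Real.norm_of_nonneg]
    exact sum_nonneg fun k _ => u_nonneg m (rad_nonneg h0 h1 _) _ _
  have hK : (j:ℝ) ≤ K := by exact_mod_cast hj
  have b1 : ∀ t : Finset ℕ, ∑ n ∈ t, ‖∑ k ∈ range j, ((u m (rad ε (σ + k)) (σ + k) n : ℝ) : ℂ)‖ ≤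
      K * (2 / ε) := by
    intro t
    simp only [hn]
    rw [sum_comm]
    refine (sum_le_sum fun k _ => u_sum1 h0 h1 m (σ + k) t).trans ?_
    rw [sum_const, card_range, nsmul_eq_mul]
    exact mul_le_mul_of_nonneg_right hK (by positivity)
  have hs := summable_of_sum_le (fun _ => norm_nonneg _) b1
  have a1 := (S_norm hs).trans (hs.tsum_le_of_sum_le b1)
  have a2 := S_L2 hs (B := 2 / ε * (K * (2 / ε))) (by
    intro t
    refine le_trans ?_ (mul_le_mul_of_nonneg_left (b1 t) (by positivity))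
    rw [mul_sum]
    refine sum_le_sum fun n _ => ?_
    rw [sq]
    refine mul_le_mul_of_nonneg_right ?_ (norm_nonneg _)
    rw [hn]; exact u_sum2 h0 h1 m σ n j)
  refine (interp p q hpq _ a1 a2).trans (le_of_eq ?_)
  ring

end Pool.Agent.H92.Ring
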