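import Pool.Agent.H92.HardyDense
import Pool.Agent.H92.Fourier1

set_option autoImplicit false
set_option linter.unusedSectionVars false
open MeasureTheory Set AddCircle Filter Topology Finset
open scoped ENNReal

namespace Pool.Agent.H92.RingBase
open Pool.Agent.H92.HardyDense

abbrev C := C(AddCircle (1:ℝ), ℂ)
noncomputable instance (priority := high) smulC : SMul ℂ C := (inferInstance : Module ℂ C).toSMul
noncomputable abbrev μ : Measure (AddCircle (1:ℝ)) := haarAddCircle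
noncomputable abbrev ι (p : ℝ≥0∞) [Fact (1 ≤ p)] : C →L[ℂ] Lp ℂ p μ := ContinuousMap.toLp p μ ℂ

noncomputable def e (n : ℕ) : C := fourier (n : ℤ)

lemma e_norm (n : ℕ) : ‖e n‖ = 1 := fourier_norm _

noncomputable def S (a : ℕ → ℂ) : C := ∑' n, a n • e n

lemma S_summable {a : ℕ → ℂ} (ha : Summable fun n => ‖a n‖) : Summable fun n => a n • e n :=
  Summable.of_norm (by simpa [norm_smul, e_norm] using ha)

lemma S_norm {a : ℕ → ℂ} (ha : Summable fun n => ‖a n‖) : ‖S a‖ ≤ ∑' n, ‖a n‖ := by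
  have := norm_tsum_le_tsum_norm (f := fun n => a n • e n) (by simpa [norm_smul, e_norm] using ha)
  simpa [norm_smul, e_norm, S] using this

lemma S_add {a b : ℕ → ℂ} (ha : Summable fun n => ‖a n‖) (hb : Summable fun n => ‖b n‖) :
    S (fun n => a n + b n) = S a + S b := by
  unfold S
  rw [← (S_summable ha).tsum_add (S_summable hb)]
  simp only [add_smul]

lemma S_smul (c : ℂ) {a : ℕ → ℂ} (ha : Summable fun n => ‖a n‖) :
    S (fun n => c * a n) = c • S a := by
  unfold S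
  rw [← (S_summable ha).tsum_const_smul]
  simp only [mul_smul]

lemma S_sum {κ : Type*} (s : Finset κ) {a : κ → ℕ → ℂ} (ha : ∀ k, Summable fun n => ‖a k n‖) :
    S (fun n => ∑ k ∈ s, a k n) = ∑ k ∈ s, S (a k) := by
  unfold S
  rw [← Summable.tsum_finsetSum (fun k _ => S_summable (ha k))]
  simp only [Finset.sum_smul]

lemma S_single (m : ℕ) : S (fun n => if n = m then 1 else 0) = e m := by
  unfold S
  rw [tsum_eq_single m]
  · simp
  · intro n hn; simp [hn]

lemma S_L2 {a : ℕ → ℂ} (ha : Summable fun n => ‖a n‖) {B : ℝ}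
    (hB : ∀ s : Finset ℕ, ∑ n ∈ s, ‖a n‖ ^ 2 ≤ B) : ‖ι 2 (S a)‖ ^ 2 ≤ B := by
  have h1 := (ι 2).hasSum (S_summable ha).hasSum
  have h2 : Orthonormal ℂ (fun n : ℕ => ι 2 (e n)) :=
    (orthonormal_fourier (T := 1)).comp (fun n : ℕ => (n:ℤ)) Nat.cast_injective
  have h3 := (Tendsto.norm h1).pow 2
  refine le_of_tendsto' h3 fun s => ?_
  have := h2.orthogonalFamily.norm_sum (fun n => a n) s
  simp only [LinearIsometry.toSpanSingleton_apply] at this
  simp only [map_smul]
  rw [this]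
  exact hB s

lemma S_apply {a : ℕ → ℂ} (ha : Summable fun n => ‖a n‖) (x : AddCircle (1:ℝ)) :
    S a x = ∑' n, a n * (fourier 1 x) ^ n := by
  have := (ContinuousMap.evalCLM ℂ x).hasSum (S_summable ha).hasSum
  rw [← show _ = S a x from this.tsum_eq]
  congr 1; ext n
  simp only [ContinuousMap.evalCLM_apply, ContinuousMap.smul_apply, smul_eq_mul, e]
  congr 1
  induction n with
  | zero => simp
  | succ n ih => rw [pow_succ, ← ih]; push_cast; rw [fourier_add]

lemma S_mem (p : ℝ≥0∞) [Fact (1 ≤ p)] {a : ℕ → ℂ} (ha : Summable fun n => ‖a n‖) :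
    ι p (S a) ∈ (Submodule.span ℂ (Set.range fun n : ℕ =>
      @fourierLp 1 _ p _ (n:ℤ))).topologicalClosure := by
  have h1 := (ι p).hasSum (S_summable ha).hasSum
  refine mem_closure_of_tendsto h1 (Eventually.of_forall fun s => ?_)
  refine Submodule.sum_mem _ fun n _ => ?_
  rw [map_smul]
  exact Submodule.smul_mem _ _ (Submodule.subset_span ⟨n, rfl⟩)

lemma norm_pow_eq (q : ℕ) (hq : q ≠ 0) (F : C) :
    (eLpNorm F q μ).toReal ^ q = ∫ x, ‖F x‖ ^ q ∂μ := by
  have : Fact (1 ≤ (q : ℝ≥0∞)) := ⟨by exact_mod_cast Nat.one_le_iff_ne_zero.mpr hq⟩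
  have hm : MemLp F q μ := ContinuousMap.memLp μ ℂ F
  rw [hm.eLpNorm_eq_integral_rpow_norm (by exact_mod_cast hq) (by simp), ENNReal.toReal_ofReal]
  · simp only [ENNReal.toReal_natCast, Real.rpow_natCast]
    rw [Real.rpow_inv_natCast_pow (integral_nonneg fun x => by positivity) hq]
  · exact Real.rpow_nonneg (integral_nonneg fun x => by positivity) _

lemma ι_norm (p : ℝ≥0∞) [Fact (1 ≤ p)] (F : C) : ‖ι p F‖ = (eLpNorm F p μ).toReal := by
  rw [Lp.norm_def, eLpNorm_congr_ae (ContinuousMap.coeFn_toLp μ F)]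

lemma ι_le (p : ℝ≥0∞) [Fact (1 ≤ p)] (F : C) : ‖ι p F‖ ≤ ‖F‖ := by
  have := (ι p).le_opNorm F
  have h2 : ‖ι p‖ ≤ 1 := by
    have := ContinuousMap.toLp_norm_le (p := p) (E := ℂ) (𝕜 := ℂ) μ
    simpa [measureUnivNNReal] using this
  nlinarith [norm_nonneg F]

lemma interp (p : ℝ≥0∞) [Fact (1 ≤ p)] (q : ℕ) (hpq : p ≤ (q + 2 : ℕ)) (F : C) {A B : ℝ}
    (hA : ‖F‖ ≤ A) (hB : ‖ι 2 F‖ ^ 2 ≤ B) : ‖ι p F‖ ^ (q + 2) ≤ A ^ q * B := by
  have : Fact (1 ≤ ((q + 2 : ℕ) : ℝ≥0∞)) := ⟨by exact_mod_cast (by omega : 1 ≤ q + 2)⟩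
  have hm : MemLp F (q + 2 : ℕ) μ := ContinuousMap.memLp μ ℂ F
  have h1 : ‖ι p F‖ ≤ (eLpNorm F (q + 2 : ℕ) μ).toReal := by
    rw [ι_norm]
    exact ENNReal.toReal_mono hm.eLpNorm_ne_top
      (eLpNorm_le_eLpNorm_of_exponent_le hpq F.continuous.aestronglyMeasurable)
  refine (pow_le_pow_left₀ (norm_nonneg _) h1 _).trans ?_
  rw [norm_pow_eq _ (by omega)]
  have h2 := norm_pow_eq 2 two_ne_zero F
  rw [ι_norm] at hB
  have hB' : ∫ x, ‖F x‖ ^ 2 ∂μ ≤ B := by rw [← h2]; exact hB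
  have hA0 : 0 ≤ A := (norm_nonneg _).trans hA
  have hi : ∀ k : ℕ, Integrable (fun x => ‖F x‖ ^ k) μ := fun k =>
    (F.continuous.norm.pow k).integrable_of_hasCompactSupport (HasCompactSupport.of_compactSpace _)
  calc ∫ x, ‖F x‖ ^ (q + 2) ∂μ ≤ ∫ x, A ^ q * ‖F x‖ ^ 2 ∂μ := by
        refine integral_mono (hi _) ((hi 2).const_mul _) fun x => ?_
        simp only [pow_add]
        exact mul_le_mul_of_nonneg_right
          (pow_le_pow_left₀ (norm_nonneg _) ((F.norm_coe_le_norm x).trans hA) _) (by positivity)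
    _ = A ^ q * ∫ x, ‖F x‖ ^ 2 ∂μ := integral_const_mul _ _
    _ ≤ A ^ q * B := mul_le_mul_of_nonneg_left hB' (by positivity)

/-- van der Corput sequence -/
noncomputable def vdc : ℕ → ℝ
  | 0 => 0
  | n + 1 => (vdc ((n + 1) / 2) + ((n + 1) % 2 : ℕ)) / 2

lemma vdc_zero : vdc 0 = 0 := by rw [vdc]

lemma vdc_eq (n : ℕ) : vdc n = (vdc (n / 2) + (n % 2 : ℕ)) / 2 := by
  cases n with
  | zero => simp [vdc_zero]
  | succ n => rw [vdc]

lemma vdc_even (n : ℕ) : vdc (2 * n) = vdc n / 2 := by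
  rw [vdc_eq (2 * n)]; simp

lemma vdc_odd (n : ℕ) : vdc (2 * n + 1) = (vdc n + 1) / 2 := by
  rw [vdc_eq (2 * n + 1), show (2 * n + 1) / 2 = n by omega, show (2 * n + 1) % 2 = 1 by omega]
  simp

lemma vdc_mem (n : ℕ) : 0 ≤ vdc n ∧ vdc n < 1 := by
  induction n using Nat.strong_induction_on with
  | _ n ih =>
    rcases Nat.eq_zero_or_pos n with rfl | hn
    · simp [vdc_zero]
    · have := ih (n / 2) (by omega)
      rw [vdc_eq]
      rcases Nat.mod_two_eq_zero_or_one n with h | h <;> rw [h] <;> push_cast <;>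
        constructor <;> linarith [this.1, this.2]

lemma vdc_inj : Function.Injective vdc := by
  intro n
  induction n using Nat.strong_induction_on with
  | _ n ih =>
    intro m h
    have a1 := vdc_mem (n / 2)
    have a2 := vdc_mem (m / 2)
    have h' := h
    rw [vdc_eq n, vdc_eq m] at h'
    have hmod : n % 2 = m % 2 := by
      rcases Nat.mod_two_eq_zero_or_one n with h1 | h1 <;>
        rcases Nat.mod_two_eq_zero_or_one m with h2 | h2 <;> rw [h1, h2] at h' ⊢ <;>
        push_cast at h' <;> linarith [a1.1, a1.2, a2.1, a2.2]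
    rw [hmod] at h'
    have h3 : vdc (n / 2) = vdc (m / 2) := by linarith
    rcases Nat.eq_zero_or_pos n with rfl | hn
    · -- n = 0
      clear ih h3 h' a1 a2 hmod
      rw [vdc_zero] at h
      induction m using Nat.strong_induction_on with
      | _ m ihm =>
        rcases Nat.eq_zero_or_pos m with rfl | hm
        · rfl
        · have a2 := vdc_mem (m / 2)
          rw [vdc_eq] at h
          rcases Nat.mod_two_eq_zero_or_one m with h2 | h2 <;> rw [h2] at h <;> push_cast at h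
          · have := ihm (m / 2) (by omega) (by linarith)
            omega
          · linarith [a2.1]
    · have := ih (n / 2) (by omega) h3
      omega

section vsum
variable {X : Type*} [NormedAddCommGroup X] (G : ℕ → ℝ → X)
  (hG : ∀ i θ, G (i + 1) θ = G i (θ / 2) + G i ((θ + 1) / 2))
include hG

lemma vsum_two (i p : ℕ) :
    ∑ n ∈ range (2 * p), G i (vdc n) = ∑ n ∈ range p, G (i + 1) (vdc n) := by
  induction p with
  | zero => simp
  | succ p ih =>
    rw [show 2 * (p + 1) = 2 * p + 1 + 1 by ring, sum_range_succ, sum_range_succ, ih,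
      sum_range_succ, hG, vdc_even, vdc_odd, add_assoc]

lemma vsum_full (s i : ℕ) : ∑ n ∈ range (2 ^ s), G i (vdc n) = G (i + s) 0 := by
  induction s generalizing i with
  | zero => simp [vdc_zero]
  | succ s ih => rw [pow_succ', vsum_two G hG, ih]; congr 1; ring

lemma vsum_part (b : ℕ → ℝ) (s : ℕ) (hb : ∀ i ≤ s, ∀ θ, ‖G i θ‖ ≤ b i) (t i p : ℕ) (hs : i + t ≤ s)
    (hp : p < 2 ^ t) :
    ‖∑ n ∈ range p, G i (vdc n)‖ ≤ ∑ l ∈ range t, b (i + l) := by
  induction t generalizing i p with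
  | zero =>
    have : p = 0 := by omega
    subst this
    rw [range_zero, sum_empty, sum_empty, norm_zero]
  | succ t ih =>
    have h1 := ih (i + 1) (p / 2) (by omega) (by rw [pow_succ] at hp; omega)
    rw [sum_range_succ']
    have e : ∑ l ∈ range t, b (i + (l + 1)) = ∑ l ∈ range t, b (i + 1 + l) :=
      sum_congr rfl fun l _ => by congr 1; ring
    rw [e, add_zero]
    have hb0 : 0 ≤ b i := (norm_nonneg _).trans (hb i (by omega) 0)
    rcases Nat.mod_two_eq_zero_or_one p with h | h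
    · rw [show p = 2 * (p / 2) by omega, vsum_two G hG]
      linarith
    · rw [show p = 2 * (p / 2) + 1 by omega, sum_range_succ, vsum_two G hG]
      refine (norm_add_le _ _).trans ?_
      linarith [hb i (by omega) (vdc (2 * (p / 2)))]

end vsum

lemma pow_le_inv {x : ℝ} (h0 : 0 ≤ x) (h1 : x ≤ 1) (M : ℕ) : (1 - x) ^ M ≤ 1 / (1 + M * x) := by
  rw [le_div_iff₀ (by positivity)]
  have a1 : 1 + M * x ≤ (1 + x) ^ M := one_add_mul_le_pow (by linarith) M
  have a2 : (1 - x) ^ M * (1 + x) ^ M ≤ 1 := by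
    rw [← mul_pow]
    exact pow_le_one₀ (by nlinarith) (by nlinarith)
  have a3 : 0 ≤ (1 - x) ^ M := pow_nonneg (by linarith) _
  nlinarith

lemma sum_pow_le {ρ : ℝ} (h0 : 0 ≤ ρ) (h1 : ρ < 1) {κ : Type*} (s : Finset κ) (φ : κ → ℕ)
    (hφ : Set.InjOn φ s) : ∑ k ∈ s, ρ ^ φ k ≤ (1 - ρ)⁻¹ := by
  classical
  rw [← sum_image (f := fun i => ρ ^ i) hφ, ← tsum_geometric_of_lt_one h0 h1]
  exact (summable_geometric_of_lt_one h0 h1).sum_le_tsum _ fun _ _ => by positivity

end Pool.Agent.H92.RingBase
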