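import Pool.Agent.H92.RingMain

set_option autoImplicit false
open MeasureTheory AddCircle Filter Topology Finset
open scoped ENNReal

namespace Pool.Agent.H92.RingFinal
open Pool.Agent.H92.RingBase Pool.Agent.H92.Ring

lemma sub_range {Λ : ℕ → ℂ} {δ : ℝ} {N : ℕ} (h : ∀ n ≥ N, ((n:ℝ) + 1) * (1 - ‖Λ n‖) ≤ δ) {r : ℝ}
    (hr : r < 1) :
    Set.range Λ ∩ Metric.ball 0 r ⊆ Λ '' (range (N + ⌊δ / (1 - r)⌋₊) : Finset ℕ) := by
  rintro _ ⟨⟨n, rfl⟩, hn⟩
  refine ⟨n, ?_, rfl⟩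
  simp only [coe_range, Set.mem_Iio]
  rcases lt_or_ge n N with h1 | h1
  · omega
  · have a1 := h n h1
    rw [mem_ball_zero_iff] at hn
    have a2 : ((n + 1 : ℕ) : ℝ) ≤ δ / (1 - r) := by
      rw [le_div_iff₀ (by linarith)]
      push_cast
      nlinarith [show (0:ℝ) ≤ n by positivity]
    have := Nat.le_floor a2
    omega

theorem final : ∃ Λ : ℕ → ℂ, Function.Injective Λ ∧ (∀ n, ‖Λ n‖ < 1) ∧
    (∀ r : ℝ, r < 1 → (Set.range Λ ∩ Metric.ball 0 r).Finite) ∧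
    Tendsto (fun r : ℝ => (1 - r) * ((Set.range Λ ∩ Metric.ball 0 r).ncard : ℝ)) (𝓝[<] 1) (𝓝 0) ∧
    ∀ p : ℝ≥0∞, 1 ≤ p → p ≠ ∞ → ∀ f : AddCircle (1:ℝ) → ℂ, MemLp f p haarAddCircle →
      (∀ n : ℤ, n < 0 → fourierCoeff f n = 0) →
      ∃ c : ℕ → ℂ, Tendsto (fun N : ℕ => eLpNorm (fun x => f x - ∑ k ∈ range N,
        c k * (1 - starRingEnd ℂ (Λ k) * fourier 1 x)⁻¹) p haarAddCircle) atTop (𝓝 0) := by
  obtain ⟨Λ, hinj, hlt, hden, hrep⟩ := RingMain.main
  refine ⟨Λ, hinj, hlt, fun r hr => ?_, ?_, fun p hp1 hp f hf hf0 => ?_⟩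
  · obtain ⟨N, hN⟩ := hden 1 one_pos
    exact ((Finset.finite_toSet _).image Λ).subset (sub_range hN hr)
  · rw [Metric.tendsto_nhds]
    intro ε hε
    obtain ⟨N, hN⟩ := hden (ε / 3) (by positivity)
    have t1 : Tendsto (fun r : ℝ => (1 - r) * N) (𝓝[<] 1) (𝓝 ((1 - 1) * N)) :=
      (((continuous_const.sub continuous_id).mul continuous_const).tendsto 1).mono_left
        nhdsWithin_le_nhds
    rw [sub_self, zero_mul] at t1
    filter_upwards [t1.eventually (gt_mem_nhds (show 0 < ε / 3 by positivity)), self_mem_nhdsWithin]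
      with r h1 h2
    have hr : r < 1 := h2
    have x0 : 0 < 1 - r := by linarith
    have a1 := Set.ncard_le_ncard (sub_range hN hr) ((Finset.finite_toSet _).image Λ)
    have a2 := a1.trans (Set.ncard_image_le (Finset.finite_toSet _))
    rw [Set.ncard_coe_finset, card_range] at a2
    have a3 : ((Set.range Λ ∩ Metric.ball 0 r).ncard : ℝ) ≤ N + ε / 3 / (1 - r) := by
      have b1 : ((Set.range Λ ∩ Metric.ball 0 r).ncard : ℝ) ≤ N + ⌊ε / 3 / (1 - r)⌋₊ := by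
        exact_mod_cast a2
      have := Nat.floor_le (show 0 ≤ ε / 3 / (1 - r) by positivity)
      linarith
    rw [Real.dist_eq, sub_zero, abs_of_nonneg (by positivity)]
    have a4 := mul_le_mul_of_nonneg_left a3 x0.le
    rw [mul_add, mul_div_cancel₀ _ x0.ne'] at a4
    linarith
  · have : Fact (1 ≤ p) := ⟨hp1⟩
    obtain ⟨c, hc⟩ := hrep p hp (hf.toLp f) (by
      intro n hn
      rw [fourierCoeff_congr_ae hf.coeFn_toLp]; exact hf0 n hn)
    refine ⟨c, ?_⟩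
    rw [tendsto_iff_norm_sub_tendsto_zero] at hc
    have h2 := (ENNReal.continuous_ofReal.tendsto 0).comp hc
    rw [ENNReal.ofReal_zero] at h2
    refine h2.congr fun N => ?_
    have e : ∑ n ∈ range N, c n • ι p (kern (Λ n)) = ι p (∑ n ∈ range N, c n • kern (Λ n)) := by
      simp only [map_sum, map_smul]
    simp only [Function.comp]
    rw [norm_sub_rev, e, Lp.norm_def, ENNReal.ofReal_toReal (Lp.eLpNorm_ne_top _)]
    refine eLpNorm_congr_ae ?_
    filter_upwards [Lp.coeFn_sub (hf.toLp f) (ι p (∑ n ∈ range N, c n • kern (Λ n))), hf.coeFn_toLp,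
      ContinuousMap.coeFn_toLp (p := p) (𝕜 := ℂ) μ (∑ n ∈ range N, c n • kern (Λ n))] with x h1 h2 h3
    rw [h1, Pi.sub_apply, h2, h3, ContinuousMap.coe_sum, Finset.sum_apply]
    congr 1
    refine sum_congr rfl fun k _ => ?_
    rw [← kern_apply (hlt k)]
    rfl

end Pool.Agent.H92.RingFinal
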