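import Pool.Agent.H92.Ring

set_option autoImplicit false
set_option linter.unusedSectionVars false
open MeasureTheory AddCircle Filter Topology Finset
open scoped ENNReal

namespace Pool.Agent.H92.RingMain
open Pool.Agent.H92.RingBase Pool.Agent.H92.Fourier1 Pool.Agent.H92.Rep Pool.Agent.H92.Ring

def mm (σ : ℕ) (k : ℕ) : ℕ := 2 ^ (σ + k)

lemma mm_pos (σ : ℕ) : ∀ k, 0 < mm σ k := fun k => by unfold mm; positivity

lemma st_mm (σ k : ℕ) : st (mm σ) k + 2 ^ σ = 2 ^ (σ + k) := by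
  induction k with
  | zero => simp [st_zero]
  | succ k ih => rw [st_succ, ← add_assoc σ, pow_succ]; unfold mm at *; omega

noncomputable def pt (ε : ℝ) (σ k i : ℕ) : ℂ := (rad ε (σ + k) : ℂ) * ex 1 (vdc i)

noncomputable def wt (ε : ℝ) (σ K k m : ℕ) : ℂ :=
  (K:ℂ)⁻¹ * (((2 ^ (σ + k) * rad ε (σ + k) ^ m : ℝ) : ℂ))⁻¹

noncomputable def cf (γ : ℕ → ℂ) (d : ℕ) (ε : ℝ) (σ K k i : ℕ) : ℂ :=
  ∑ m ∈ range d, γ m * wt ε σ K k m * ex m (vdc i)

noncomputable def poly (γ : ℕ → ℂ) (d : ℕ) : C := ∑ m ∈ range d, γ m • e m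

lemma ring_sum {ε : ℝ} (h0 : 0 < ε) (h1 : ε ≤ 1 / 2) (γ : ℕ → ℂ) (d σ K k P : ℕ) :
    ∑ i ∈ range P, cf γ d ε σ K k i • kern (pt ε σ k i) =
      ∑ m ∈ range d, (γ m * wt ε σ K k m) • ∑ i ∈ range P, G m (rad ε (σ + k)) 0 (vdc i) := by
  unfold cf pt
  simp only [Finset.sum_smul, smul_sum, G_zero _ (rad_nonneg h0 h1 _) (rad_lt h0 h1 _), smul_smul]
  exact sum_comm

lemma C_smul_add (c : ℂ) (a b : C) : c • (a + b) = c • a + c • b := smul_add c a b

lemma ring_full {ε : ℝ} (h0 : 0 < ε) (h1 : ε ≤ 1 / 2) (γ : ℕ → ℂ) (d σ K k : ℕ) (hd : d ≤ 2 ^ σ) :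
    ∑ i ∈ range (mm σ k), cf γ d ε σ K k i • kern (pt ε σ k i) =
      (K:ℂ)⁻¹ • poly γ d + (K:ℂ)⁻¹ • ∑ m ∈ range d, γ m • U m ε (σ + k) := by
  rw [ring_sum h0 h1, poly, ← C_smul_add, ← sum_add_distrib, smul_sum]
  refine sum_congr rfl fun m hm => ?_
  have hm' : m < 2 ^ (σ + k) := lt_of_lt_of_le (mem_range.mp hm)
    (hd.trans (Nat.pow_le_pow_right (by norm_num) (by omega)))
  unfold mm
  rw [R1 h0 h1 m _ hm', ← C_smul_add, smul_smul, smul_smul]
  congr 1
  unfold wt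
  have : (((2 ^ (σ + k) * rad ε (σ + k) ^ m : ℝ) : ℂ)) ≠ 0 := by
    have : 0 < rad ε (σ + k) := by linarith [rad_ge h0 h1 (σ + k)]
    exact_mod_cast (by positivity : (2 ^ (σ + k) * rad ε (σ + k) ^ m : ℝ) ≠ 0)
  rw [mul_assoc, mul_assoc, inv_mul_cancel₀ this]; ring

lemma block {ε : ℝ} (h0 : 0 < ε) (h1 : ε ≤ 1 / 2) (γ : ℕ → ℂ) (d q : ℕ) {η : ℝ} (hη : 0 < η) :
    ∃ K : ℕ, 0 < K ∧ ∀ σ, d ≤ 2 ^ σ → ∀ (p : ℝ≥0∞) [Fact (1 ≤ p)], p ≤ (q + 2 : ℕ) →
      ‖ι p (poly γ d) - ∑ n ∈ range (st (mm σ) K), cf γ d ε σ K (bl (mm σ) n) (ps (mm σ) n) •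
        ι p (kern (pt ε σ (bl (mm σ) n) (ps (mm σ) n)))‖ ≤ η ∧
      ∀ P ≤ st (mm σ) K, ‖∑ n ∈ range P, cf γ d ε σ K (bl (mm σ) n) (ps (mm σ) n) •
        ι p (kern (pt ε σ (bl (mm σ) n) (ps (mm σ) n)))‖ ≤ ‖ι p (poly γ d)‖ + η := by
  set Γ : ℝ := ∑ m ∈ range d, ‖γ m‖ * 2 ^ m with hΓ
  have Γ0 : 0 ≤ Γ := sum_nonneg fun _ _ => by positivity
  set η' : ℝ := η / (2 * (Γ + 1)) with hη'
  have η'0 : 0 < η' := by positivity
  have t1 : 0 < 1 - th q := by linarith [th_lt q]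
  obtain ⟨K, hK⟩ := exists_nat_gt (max ((2 / ε / η') ^ (q + 2)) (Γ * (2 / ε * (1 - th q)⁻¹) / (η / 2)))
  have hK1 := (le_max_left _ _).trans_lt hK
  have hK2 := (le_max_right _ _).trans_lt hK
  have hK0 : (0:ℝ) < K := lt_of_le_of_lt (by positivity) hK1
  have hK0' : 0 < K := by exact_mod_cast hK0
  refine ⟨K, hK0', fun σ hd p _ hpq => ?_⟩
  let F : ℕ → ℕ → C := fun k i => cf γ d ε σ K k i • kern (pt ε σ k i)
  have hF : ∀ P, ∑ n ∈ range P, cf γ d ε σ K (bl (mm σ) n) (ps (mm σ) n) •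
      ι p (kern (pt ε σ (bl (mm σ) n) (ps (mm σ) n))) =
      ι p (∑ n ∈ range P, F (bl (mm σ) n) (ps (mm σ) n)) := by
    intro P; simp only [map_sum, F, map_smul]
  have nK : ‖(K:ℂ)⁻¹‖ = (K:ℝ)⁻¹ := by simp
  have full : ∀ j, ∑ k ∈ range j, ∑ i ∈ range (mm σ k), F k i =
      ((j:ℂ) * (K:ℂ)⁻¹) • poly γ d +
        (K:ℂ)⁻¹ • ∑ m ∈ range d, γ m • ∑ k ∈ range j, U m ε (σ + k) := by
    intro j
    simp only [F, ring_full h0 h1 γ d σ K _ hd]
    rw [sum_add_distrib, sum_const, card_range, ← Nat.cast_smul_eq_nsmul ℂ, smul_smul, ← smul_sum,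
      sum_comm]
    simp only [smul_sum]
  have err1 : ∀ j ≤ K, ‖ι p ((K:ℂ)⁻¹ • ∑ m ∈ range d, γ m • ∑ k ∈ range j, U m ε (σ + k))‖
      ≤ η / 2 := by
    intro j hj
    have W : ∀ m, ‖ι p (∑ k ∈ range j, U m ε (σ + k))‖ ≤ η' * K := by
      intro m
      refine le_of_pow_le_pow_left₀ (n := q + 2) (by omega) (by positivity)
        ((R3 h0 h1 p q hpq m σ j K hj).trans ?_)
      rw [mul_pow, pow_succ (K:ℝ) (q + 1), mul_comm ((K:ℝ) ^ (q + 1)), ← mul_assoc]
      refine mul_le_mul_of_nonneg_right ?_ (by positivity)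
      rw [div_pow, div_lt_iff₀ (by positivity)] at hK1
      linarith
    rw [map_smul, norm_smul, nK, map_sum]
    have : ‖∑ m ∈ range d, ι p (γ m • ∑ k ∈ range j, U m ε (σ + k))‖ ≤ Γ * (η' * K) := by
      refine (norm_sum_le _ _).trans ?_
      rw [hΓ, sum_mul]
      refine sum_le_sum fun m _ => ?_
      rw [map_smul, norm_smul]
      refine mul_le_mul (le_mul_of_one_le_right (norm_nonneg _) (one_le_pow₀ (by norm_num)))
        (W m) (norm_nonneg _) (by positivity)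
    refine (mul_le_mul_of_nonneg_left this (by positivity)).trans ?_
    have e : (K:ℝ)⁻¹ * (Γ * (η' * K)) = η / 2 * (Γ / (Γ + 1)) := by
      rw [hη']; field_simp
    rw [e]
    exact mul_le_of_le_one_right (by positivity) (by rw [div_le_one (by positivity)]; linarith)
  have err2 : ∀ k P, P < mm σ k → ‖ι p (∑ i ∈ range P, F k i)‖ ≤ η / 2 := by
    intro k P hP
    simp only [F]
    rw [ring_sum h0 h1, map_sum]
    refine (norm_sum_le _ _).trans ?_
    have : ∀ m ∈ range d, ‖ι p ((γ m * wt ε σ K k m) •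
        ∑ i ∈ range P, G m (rad ε (σ + k)) 0 (vdc i))‖ ≤
        ‖γ m‖ * 2 ^ m * ((K:ℝ)⁻¹ * (2 / ε * (1 - th q)⁻¹)) := by
      intro m _
      rw [map_smul, norm_smul, norm_mul]
      have a1 := R2 h0 h1 p q hpq m (σ + k) P hP
      have r0 : 0 < rad ε (σ + k) := by linarith [rad_ge h0 h1 (σ + k)]
      have a2 : ‖wt ε σ K k m‖ ≤ (K:ℝ)⁻¹ * (2 ^ m / 2 ^ (σ + k)) := by
        unfold wt
        rw [norm_mul, nK, norm_inv, Complex.norm_real, Real.norm_of_nonneg (by positivity)]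
        refine mul_le_mul_of_nonneg_left ?_ (by positivity)
        rw [mul_inv, div_eq_mul_inv, mul_comm]
        refine mul_le_mul_of_nonneg_right ?_ (by positivity)
        rw [← inv_pow]
        refine pow_le_pow_left₀ (by positivity) ?_ _
        rw [inv_le_comm₀ r0 (by norm_num)]
        simpa using rad_ge h0 h1 (σ + k)
      calc _ ≤ ‖γ m‖ * ((K:ℝ)⁻¹ * (2 ^ m / 2 ^ (σ + k))) * (2 / ε * 2 ^ (σ + k) * (1 - th q)⁻¹) :=
            mul_le_mul (mul_le_mul_of_nonneg_left a2 (norm_nonneg _)) a1 (norm_nonneg _)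
              (by positivity)
        _ = _ := by field_simp
    refine (sum_le_sum this).trans ?_
    rw [← sum_mul, ← hΓ]
    rw [div_lt_iff₀ (by positivity)] at hK2
    rw [mul_left_comm, inv_mul_le_iff₀ hK0]
    linarith
  constructor
  · rw [hF]
    have := sum_block (mm_pos σ) F K 0 (Nat.zero_le _)
    simp only [add_zero, range_zero, sum_empty] at this
    rw [this, full, mul_inv_cancel₀ (by exact_mod_cast hK0'.ne'), one_smul, map_add,
      sub_add_cancel_left, norm_neg]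
    linarith [err1 K le_rfl]
  · intro P hP
    rw [hF]
    have hb : bl (mm σ) P ≤ K := by
      have a1 := st_bl_le (m := mm σ) P
      exact (st_strictMono (mm_pos σ)).le_iff_le.mp (a1.trans hP)
    have := sum_block (mm_pos σ) F (bl (mm σ) P) (ps (mm σ) P) (ps_lt (mm_pos σ) P).le
    rw [st_add_ps] at this
    rw [this, full, map_add, map_add]
    refine (norm_add_le _ _).trans ?_
    have b1 := err1 _ hb
    have b2 := err2 _ _ (ps_lt (mm_pos σ) P)
    have b3 : ‖ι p ((((bl (mm σ) P : ℕ) : ℂ) * (K:ℂ)⁻¹) • poly γ d)‖ ≤ ‖ι p (poly γ d)‖ := by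
      rw [map_smul, norm_smul, norm_mul, nK]
      refine mul_le_of_le_one_left (norm_nonneg _) ?_
      rw [Complex.norm_natCast, ← div_eq_mul_inv, div_le_one hK0]
      exact_mod_cast hb
    have b4 := norm_add_le (ι p ((((bl (mm σ) P : ℕ) : ℂ) * (K:ℂ)⁻¹) • poly γ d))
      (ι p ((K:ℂ)⁻¹ • ∑ m ∈ range d, γ m • ∑ k ∈ range (bl (mm σ) P), U m ε (σ + k)))
    linarith

lemma exists_poly {g : C} (hg : g ∈ Submodule.span ℂ (Set.range e)) : ∃ γ d, g = poly γ d := by
  obtain ⟨c, rfl⟩ := Finsupp.mem_span_range_iff_exists_finsupp.mp hg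
  refine ⟨c, c.support.sup id + 1, ?_⟩
  unfold poly
  rw [Finsupp.sum_of_support_subset c (s := range (c.support.sup id + 1))]
  · intro n hn
    have := Finset.le_sup (f := id) hn
    simp only [id] at this
    exact mem_range.mpr (by omega)
  · intro n _; simp

lemma exists_seq : ∃ (γ : ℕ → ℕ → ℂ) (d : ℕ → ℕ), ∀ g ∈ Submodule.span ℂ (Set.range e), ∀ δ > 0,
    ∃ j, ‖g - poly (γ j) (d j)‖ < δ := by
  have h1 : TopologicalSpace.IsSeparable (Submodule.span ℂ (Set.range e) : Set C) :=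
    (Set.countable_range e).isSeparable.span
  obtain ⟨t, hts, htc, hst⟩ := h1.exists_countable_dense_subset
  have hne : t.Nonempty := closure_nonempty_iff.mp ⟨0, hst (Submodule.zero_mem _)⟩
  obtain ⟨D, rfl⟩ := htc.exists_eq_range hne
  choose γ d h using fun j => exists_poly (hts ⟨j, rfl⟩)
  refine ⟨γ, d, fun g hg δ hδ => ?_⟩
  obtain ⟨_, ⟨j, rfl⟩, hj⟩ := Metric.mem_closure_iff.mp (hst hg) δ hδ
  exact ⟨j, by rw [← h j, ← dist_eq_norm]; exact hj⟩

lemma ex_inj {a b : ℝ} (ha : 0 ≤ a ∧ a < 1) (hb : 0 ≤ b ∧ b < 1) (h : ex 1 a = ex 1 b) : a = b := by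
  unfold ex at h
  obtain ⟨n, hn⟩ := Complex.exp_eq_exp_iff_exists_int.mp h
  have h2 : (2 * Real.pi * Complex.I : ℂ) ≠ 0 := by
    simp [Real.pi_ne_zero]
  have h3 : (a:ℂ) = b + n := by
    apply mul_left_cancel₀ h2
    push_cast at hn
    linear_combination hn
  have h4 : a = b + n := by exact_mod_cast h3
  have h5 : (n:ℝ) < 1 := by linarith [ha.2, hb.1]
  have h6 : (-1:ℝ) < n := by linarith [ha.1, hb.2]
  have h7 : n < 1 := by exact_mod_cast h5
  have h8 : -1 < n := by exact_mod_cast h6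
  have : n = 0 := by omega
  rw [h4, this]; simp


noncomputable def eps (j : ℕ) : ℝ := 1 / 2 ^ (j + 1)

lemma eps_pos (j : ℕ) : 0 < eps j := by unfold eps; positivity

lemma eps_le (j : ℕ) : eps j ≤ 1 / 2 := by
  unfold eps
  refine one_div_le_one_div_of_le (by norm_num) ?_
  rw [pow_succ]
  nlinarith [one_le_pow₀ (n := j) (show (1:ℝ) ≤ 2 by norm_num)]

lemma eps_anti {j j' : ℕ} (h : j ≤ j') : eps j' ≤ eps j :=
  one_div_le_one_div_of_le (by positivity) (pow_le_pow_right₀ (by norm_num) (by omega))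

theorem main : ∃ Λ : ℕ → ℂ, Function.Injective Λ ∧ (∀ n, ‖Λ n‖ < 1) ∧
    (∀ δ > 0, ∃ N : ℕ, ∀ n ≥ N, ((n:ℝ) + 1) * (1 - ‖Λ n‖) ≤ δ) ∧
    ∀ (p : ℝ≥0∞) [Fact (1 ≤ p)], p ≠ ∞ → ∀ f : Lp ℂ p μ, (∀ n < 0, fourierCoeff f n = 0) →
      ∃ c : ℕ → ℂ, Tendsto (fun N => ∑ n ∈ range N, c n • ι p (kern (Λ n))) atTop (𝓝 f) := by
  obtain ⟨γ0, d0, hD⟩ := exists_seq
  let γ : ℕ → ℕ → ℂ := fun j => γ0 (Nat.unpair j).1
  let d : ℕ → ℕ := fun j => if d0 (Nat.unpair j).1 ≤ j then d0 (Nat.unpair j).1 else 0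
  have hdj : ∀ j, d j ≤ j := by
    intro j; simp only [d]; split_ifs with h
    · exact h
    · exact Nat.zero_le _
  choose K hK0 hK using fun j : ℕ => block (eps_pos j) (eps_le j) (γ j) (d j) j
    (η := 1 / ((j:ℝ) + 1)) (by positivity)
  let σ : ℕ → ℕ := st K
  have hσ : StrictMono σ := st_strictMono hK0
  have hdσ : ∀ j, d j ≤ 2 ^ σ j := fun j =>
    (hdj j).trans (hσ.le_apply.trans Nat.lt_two_pow_self.le)
  let m : ℕ → ℕ := fun j => st (mm (σ j)) (K j)
  have hm : ∀ j, 0 < m j := by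
    intro j
    have := st_strictMono (mm_pos (σ j)) (hK0 j)
    rwa [st_zero] at this
  have hst : ∀ j, st m j + 1 = 2 ^ σ j := by
    intro j
    induction j with
    | zero => simp [σ, st_zero]
    | succ j ih =>
      have := st_mm (σ j) (K j)
      rw [st_succ]
      simp only [σ, st_succ, m] at *
      omega
  let pts : ℕ → ℕ → ℂ := fun j i => pt (eps j) (σ j) (bl (mm (σ j)) i) (ps (mm (σ j)) i)
  have hnorm : ∀ j i, ‖pts j i‖ = rad (eps j) (σ j + bl (mm (σ j)) i) := fun j i =>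
    pt_norm (rad_nonneg (eps_pos j) (eps_le j) _) _
  have hbl : ∀ j i, i < m j → bl (mm (σ j)) i < K j := by
    intro j i hi
    exact (st_strictMono (mm_pos (σ j))).lt_iff_lt.mp (lt_of_le_of_lt (st_bl_le i) hi)
  refine ⟨fun n => pts (bl m n) (ps m n), inj_of hm pts ?_, fun n => ?_, ?_, ?_⟩
  · intro j j' i i' hi hi' he
    have h1 := congrArg norm he
    rw [hnorm, hnorm] at h1
    have b1 := hbl j i hi
    have b2 := hbl j' i' hi'
    have h2 : j + 1 + (σ j + bl (mm (σ j)) i) = j' + 1 + (σ j' + bl (mm (σ j')) i') := by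
      unfold rad eps at h1
      have h3 : (2:ℝ) ^ (j + 1 + (σ j + bl (mm (σ j)) i)) =
          2 ^ (j' + 1 + (σ j' + bl (mm (σ j')) i')) := by
        rw [div_div, div_div, ← pow_add, ← pow_add, sub_right_inj, one_div, one_div, inv_inj] at h1
        exact h1
      exact pow_right_injective₀ (by norm_num) (by norm_num) h3
    have key : ∀ a b, a < b → σ a + K a ≤ σ b := by
      intro a b hab
      have := hσ.monotone (show a + 1 ≤ b from hab)
      simpa only [σ, st_succ] using this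
    have hj : j = j' := by
      rcases lt_trichotomy j j' with h | h | h
      · have := key _ _ h; omega
      · exact h
      · have := key _ _ h; omega
    subst hj
    have hb : bl (mm (σ j)) i = bl (mm (σ j)) i' := by omega
    refine ⟨rfl, ?_⟩
    simp only [pts, pt, hb] at he
    have r0 : (rad (eps j) (σ j + bl (mm (σ j)) i') : ℂ) ≠ 0 := by
      have := rad_ge (eps_pos j) (eps_le j) (σ j + bl (mm (σ j)) i')
      exact_mod_cast (by linarith : rad (eps j) (σ j + bl (mm (σ j)) i') ≠ 0)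
    have := vdc_inj (ex_inj (vdc_mem _) (vdc_mem _) (mul_left_cancel₀ r0 he))
    rw [← st_add_ps (m := mm (σ j)) i, ← st_add_ps (m := mm (σ j)) i', this, hb]
  · simp only [hnorm]
    exact rad_lt (eps_pos _) (eps_le _) _
  · intro δ hδ
    obtain ⟨J, hJ⟩ := exists_pow_lt_of_lt_one hδ (show (1 / 2 : ℝ) < 1 by norm_num)
    obtain ⟨N, hN⟩ := eventually_atTop.mp ((bl_tendsto hm).eventually (eventually_ge_atTop J))
    refine ⟨N, fun n hn => ?_⟩
    simp only [hnorm, rad, sub_sub_cancel]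
    set j := bl m n
    set k := bl (mm (σ j)) (ps m n)
    have a1 : n + 1 ≤ 2 ^ (σ j + k + 1) := by
      have c1 := st_add_ps (m := m) n
      have c2 := hst j
      have c3 := lt_st_bl (mm_pos (σ j)) (ps m n)
      have c4 := st_mm (σ j) (k + 1)
      rw [← add_assoc] at c4
      simp only [j, k] at *
      omega
    have a2 : (n:ℝ) + 1 ≤ 2 ^ (σ j + k) * 2 := by
      rw [← pow_succ]; exact_mod_cast a1
    have a3 := eps_anti (hN n hn)
    have a4 : eps J * 2 = (1 / 2) ^ J := by unfold eps; rw [pow_succ, one_div_pow]; field_simp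
    have a5 := eps_pos j
    calc ((n:ℝ) + 1) * (eps j / 2 ^ (σ j + k)) ≤ 2 ^ (σ j + k) * 2 * (eps j / 2 ^ (σ j + k)) :=
          mul_le_mul_of_nonneg_right a2 (by positivity)
      _ = eps j * 2 := by field_simp
      _ ≤ δ := by linarith
  · intro p _ hp f hf
    obtain ⟨J, hJ⟩ := ENNReal.exists_nat_gt hp
    have hpq : ∀ j, J ≤ j → p ≤ (j + 2 : ℕ) := fun j hj =>
      hJ.le.trans (by exact_mod_cast (by omega : J ≤ j + 2))
    let x : ℕ → ℕ → Lp ℂ p μ := fun j i => ι p (kern (pts j i))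
    let c : ℕ → ℕ → ℂ := fun j i =>
      cf (γ j) (d j) (eps j) (σ j) (K j) (bl (mm (σ j)) i) (ps (mm (σ j)) i)
    let g : ℕ → Lp ℂ p μ := fun j => ι p (poly (γ j) (d j))
    let ε : ℕ → ℝ := fun j => if J ≤ j then 1 / ((j:ℝ) + 1) else
      ‖g j‖ + ∑ i ∈ range (m j), ‖c j i • x j i‖
    refine rep hm _ x c g ε ?_ ?_ ?_ ?_ ?_ f (HardyDense.mem_closure hp f hf)
    · refine tendsto_one_div_add_atTop_nhds_zero_nat.congr' ?_
      filter_upwards [eventually_ge_atTop J] with j hj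
      simp only [ε, if_pos hj]
    · intro j
      refine Submodule.sum_mem _ fun i _ => Submodule.smul_mem _ _ (S_mem p (kern_summable ?_))
      rw [hnorm]; exact rad_lt (eps_pos _) (eps_le _) _
    · intro j
      simp only [ε]; split_ifs with hj
      · exact (hK j (σ j) (hdσ j) p (hpq j hj)).1
      · exact (norm_sub_le _ _).trans (add_le_add le_rfl (norm_sum_le _ _))
    · intro j P hP
      simp only [ε]; split_ifs with hj
      · exact (hK j (σ j) (hdσ j) p (hpq j hj)).2 P hP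
      · have := (norm_sum_le (range P) (fun i => c j i • x j i)).trans
          (sum_le_sum_of_subset_of_nonneg (range_subset_range.mpr hP) (fun _ _ _ => norm_nonneg _))
        linarith [norm_nonneg (g j)]
    · intro f hf δ hδ J'
      obtain ⟨y, hy, hfy⟩ := Metric.mem_closure_iff.mp
        (show f ∈ closure _ from hf) (δ / 2) (by positivity)
      have : y ∈ Submodule.map (ι p : C →ₗ[ℂ] Lp ℂ p μ) (Submodule.span ℂ (Set.range e)) := by
        rw [Submodule.map_span, ← Set.range_comp]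
        exact hy
      obtain ⟨w, hw, rfl⟩ := this
      obtain ⟨j0, hj0⟩ := hD w hw (δ / 2) (by positivity)
      refine ⟨Nat.pair j0 (max J' (d0 j0)), (le_max_left _ _).trans (Nat.right_le_pair _ _), ?_⟩
      have e1 : g (Nat.pair j0 (max J' (d0 j0))) = ι p (poly (γ0 j0) (d0 j0)) := by
        simp only [g, γ, d, Nat.unpair_pair]
        rw [if_pos ((le_max_right _ _).trans (Nat.right_le_pair _ _))]
      rw [e1]
      have a1 := ι_le p (w - poly (γ0 j0) (d0 j0))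
      rw [map_sub] at a1
      rw [dist_eq_norm] at hfy
      have a2 := norm_sub_le_norm_sub_add_norm_sub f (ι p w) (ι p (poly (γ0 j0) (d0 j0)))
      have a3 : ‖f - ι p w‖ < δ / 2 := hfy
      linarith

end Pool.Agent.H92.RingMain
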