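import Pool.Agent.H92.Fourier1

set_option autoImplicit false
open Filter Topology Finset

namespace Pool.Agent.H92.Ritt
open Pool.Agent.H92.Fourier1

noncomputable def hat (p : ℤ → ℝ) (t : ℝ) : ℂ := ∑' n : ℤ, (p n : ℂ) * ex t n

lemma norm_term (p : ℤ → ℝ) (t : ℝ) (n : ℤ) : ‖(p n : ℂ) * ex t n‖ = ‖p n‖ := by
  simp [ex_norm]

lemma hat_summable {p : ℤ → ℝ} (hp : Summable p) (t : ℝ) :
    Summable fun n : ℤ => ‖(p n : ℂ) * ex t n‖ := by
  simpa only [norm_term] using hp.norm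

noncomputable def conv (p f : ℤ → ℝ) : ℤ → ℝ := fun m => ∑' j, f j * p (m - j)

def shear : ℤ × ℤ ≃ ℤ × ℤ where
  toFun q := (q.2, q.1 - q.2)
  invFun q := (q.1 + q.2, q.1)
  left_inv q := by simp
  right_inv q := by simp

lemma conv_summable {p f : ℤ → ℝ} (hp : Summable p) (hf : Summable f) : Summable (conv p f) := by
  have h1 := (summable_mul_of_summable_norm hf.norm hp.norm)
  have h2 := (shear.summable_iff.mpr h1).prod
  exact h2

lemma hat_conv {p f : ℤ → ℝ} (hp : Summable p) (hf : Summable f) (t : ℝ) :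
    hat (conv p f) t = hat f t * hat p t := by
  unfold hat
  rw [tsum_mul_tsum_of_summable_norm (hat_summable hf t) (hat_summable hp t), ← shear.tsum_eq]
  have h1 := summable_mul_of_summable_norm (hat_summable hf t) (hat_summable hp t)
  refine Eq.trans ?_ (shear.summable_iff.mpr h1).tsum_prod.symm
  congr 1; ext m
  unfold conv
  rw [Complex.ofReal_tsum, ← tsum_mul_right]
  congr 1; ext j
  simp only [Function.comp, shear, Equiv.coe_fn_mk]
  have : ex t m = ex t j * ex t ((m - j : ℤ) : ℝ) := by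
    rw [← ex_add_right]; congr 1; push_cast; ring
  rw [this]; push_cast; ring

noncomputable def pw (p : ℤ → ℝ) (n : ℕ) : ℤ → ℝ :=
  (conv p)^[n] (fun m : ℤ => if m = 0 then (1 : ℝ) else 0)

lemma pw_spec {p : ℤ → ℝ} (hp : Summable p) (n : ℕ) :
    Summable (pw p n) ∧ ∀ t, hat (pw p n) t = hat p t ^ n := by
  induction n with
  | zero =>
    refine ⟨summable_of_ne_finset_zero (s := {0}) (by intro b hb; simp at hb; simp [pw, hb]), fun t => ?_⟩
    unfold hat
    rw [tsum_eq_single 0]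
    · simp [pw, ex_zero_right]
    · intro b hb; simp [pw, hb]
  | succ n ih =>
    have : pw p (n + 1) = conv p (pw p n) := Function.iterate_succ_apply' _ _ _
    rw [this]
    exact ⟨conv_summable hp ih.1, fun t => by rw [hat_conv hp ih.1, ih.2, pow_succ]⟩

lemma test {p : ℤ → ℝ} (hp : Summable p) (n : ℕ) {ι : Type} [Fintype ι] (c : ι → ℂ) (θ : ι → ℝ)
    (h : ∀ x : ℤ, ‖∑ s, c s * ex (θ s) x‖ ≤ 2) :
    ‖∑ s, c s * (hat p (θ s) ^ n * (1 - hat p (θ s)))‖ ≤ 2 * ∑' k, |pw p n k - pw p (n + 1) k| := by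
  have h1 := pw_spec hp n
  have h2 := pw_spec hp (n + 1)
  have hs : Summable fun k => pw p n k - pw p (n + 1) k := h1.1.sub h2.1
  have e1 : ∀ t, hat p t ^ n * (1 - hat p t) = hat (fun k => pw p n k - pw p (n + 1) k) t := by
    intro t
    rw [mul_sub, mul_one, ← pow_succ, ← h1.2, ← h2.2]
    unfold hat
    rw [← (hat_summable h1.1 t).of_norm.tsum_sub (hat_summable h2.1 t).of_norm]
    congr 1; ext k; push_cast; ring
  simp only [e1]
  unfold hat
  simp only [← tsum_mul_left]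
  rw [← Summable.tsum_finsetSum (fun s _ => (hat_summable hs (θ s)).of_norm.mul_left (c s))]
  refine tsum_of_norm_bounded (hs.abs.mul_left 2).hasSum fun k => ?_
  have : ∑ s, c s * (((pw p n k - pw p (n + 1) k : ℝ) : ℂ) * ex (θ s) k) =
      (∑ s, c s * ex (θ s) k) * ((pw p n k - pw p (n + 1) k : ℝ) : ℂ) := by
    rw [sum_mul]; exact sum_congr rfl fun s _ => by ring
  rw [this, norm_mul, Complex.norm_real, Real.norm_eq_abs]
  exact mul_le_mul_of_nonneg_right (h k) (abs_nonneg _)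

lemma hat_cont {p : ℤ → ℝ} (hp : Summable p) : Continuous (hat p) := by
  refine continuous_tsum (u := fun n => ‖p n‖) (fun n => ?_) hp.norm (fun n t => (norm_term p t n).le)
  have : (fun t : ℝ => (p n : ℂ) * ex t n) = fun t => (p n : ℂ) * ex n t := by
    ext t; rw [ex_comm]
  rw [this]; fun_prop

lemma hat_zero (p : ℤ → ℝ) : hat p 0 = ((∑' n, p n : ℝ) : ℂ) := by
  unfold hat; simp [ex_zero_left, Complex.ofReal_tsum]

noncomputable abbrev L1 := lp (fun _ : ℤ => ℝ) 1

lemma L1_summable (p : L1) : Summable p := by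
  have := (lp.memℓp p).summable (by norm_num)
  simp only [ENNReal.toReal_one, Real.rpow_one] at this
  exact this.of_norm

lemma L1_norm (p : L1) : ‖p‖ = ∑' n, ‖p n‖ := by
  have := lp.norm_rpow_eq_tsum (p := 1) (by norm_num) p
  simpa using this

noncomputable def hatL (t : ℝ) : L1 →L[ℝ] ℂ :=
  LinearMap.mkContinuous
    { toFun := fun p => hat p t
      map_add' := by
        intro p q
        unfold hat
        rw [← (hat_summable (L1_summable p) t).of_norm.tsum_add (hat_summable (L1_summable q) t).of_norm]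
        congr 1; ext k; simp [add_mul]
      map_smul' := by
        intro c p
        unfold hat
        simp only [lp.coeFn_smul, Pi.smul_apply, smul_eq_mul, RingHom.id_apply, Complex.real_smul]
        rw [← tsum_mul_left]
        congr 1; ext k; push_cast; ring } 1 (by
      intro p
      rw [one_mul, L1_norm]
      refine (norm_tsum_le_tsum_norm (hat_summable (L1_summable p) t)).trans (le_of_eq ?_)
      simp only [norm_term])

lemma hatL_apply (t : ℝ) (p : L1) : hatL t p = hat p t := rfl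

lemma hatL_single (t : ℝ) (k : ℤ) (a : ℝ) : hatL t (lp.single 1 k a) = a * ex t k := by
  rw [hatL_apply]; unfold hat
  rw [tsum_eq_single k]
  · simp
  · intro b hb; simp [Pi.single_eq_of_ne hb]

/-- lazy symmetric probability measures -/
def X : Set L1 := {p | (∀ n, 0 ≤ p n) ∧ hatL 0 p = 1 ∧ (∀ n, p (-n) = p n) ∧ 1 / 2 ≤ p 0}

lemma ev_cont (n : ℤ) : Continuous fun p : L1 => (p n : ℝ) :=
  (lp.evalCLM ℝ (fun _ : ℤ => ℝ) 1 n).continuous

lemma X_closed : IsClosed X := by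
  unfold X
  simp only [Set.ofPred_and, Set.ofPred_forall]
  refine (isClosed_iInter fun n => isClosed_le continuous_const (ev_cont n)).inter
    ((isClosed_eq (hatL 0).continuous continuous_const).inter
    ((isClosed_iInter fun n => isClosed_eq (X := ℝ) (ev_cont (-n)) (ev_cont n)).inter
    (isClosed_le continuous_const (ev_cont 0))))

lemma X_norm {p : L1} (hp : p ∈ X) : ‖p‖ = 1 := by
  have := hp.2.1
  rw [hatL_apply, hat_zero] at this
  rw [L1_norm]
  simp only [Real.norm_of_nonneg (hp.1 _)]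
  exact_mod_cast this

lemma X_conv {p q : L1} (hp : p ∈ X) (hq : q ∈ X) {ε : ℝ} (h0 : 0 ≤ ε) (h1 : ε ≤ 1) :
    (1 - ε) • p + ε • q ∈ X ∧ dist ((1 - ε) • p + ε • q) p ≤ 2 * ε := by
  have h2 : 0 ≤ 1 - ε := by linarith
  refine ⟨⟨fun n => ?_, ?_, fun n => ?_, ?_⟩, ?_⟩
  · simp only [lp.coeFn_add, lp.coeFn_smul, Pi.add_apply, Pi.smul_apply, smul_eq_mul]
    exact add_nonneg (mul_nonneg h2 (hp.1 n)) (mul_nonneg h0 (hq.1 n))
  · rw [map_add, map_smul, map_smul, hp.2.1, hq.2.1]; simp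
  · simp only [lp.coeFn_add, lp.coeFn_smul, Pi.add_apply, Pi.smul_apply, hp.2.2.1, hq.2.2.1]
  · simp only [lp.coeFn_add, lp.coeFn_smul, Pi.add_apply, Pi.smul_apply, smul_eq_mul]
    nlinarith [hp.2.2.2, hq.2.2.2]
  · rw [dist_eq_norm, show (1 - ε) • p + ε • q - p = ε • (q - p) by module, norm_smul,
      Real.norm_of_nonneg h0]
    have := norm_sub_le q p
    rw [X_norm hp, X_norm hq] at this
    nlinarith

noncomputable def lam {j : ℕ} (v : Fin j → ℤ) : L1 :=
  lp.single 1 0 (1 / 2 : ℝ) +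
    ∑ k, (lp.single 1 (v k) (1 / (4 * j) : ℝ) + lp.single 1 (-v k) (1 / (4 * j) : ℝ))

lemma hat_lam {j : ℕ} (v : Fin j → ℤ) (t : ℝ) :
    hatL t (lam v) = 1 / 2 + 1 / (4 * j) * ∑ k, (ex t (v k) + starRingEnd ℂ (ex t (v k))) := by
  unfold lam
  simp only [map_add, map_sum, hatL_single, mul_sum]
  congr 1
  · simp [ex_zero_right]
  · refine sum_congr rfl fun k _ => ?_
    rw [ex_comm t (v k), ex_conj, ex_comm t]; push_cast; ring

lemma lam_apply {j : ℕ} (v : Fin j → ℤ) (n : ℤ) : lam v n = (if n = 0 then 1 / 2 else 0) +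
    ∑ k, ((if n = v k then 1 / (4 * (j:ℝ)) else 0) + if n = -v k then 1 / (4 * (j:ℝ)) else 0) := by
  unfold lam
  simp only [lp.coeFn_add, Pi.add_apply, lp.coeFn_sum, Finset.sum_apply, lp.single_apply,
    Pi.single_apply]

lemma lam_mem {j : ℕ} (hj : 0 < j) (v : Fin j → ℤ) : lam v ∈ X := by
  have hs : ∀ n : ℤ, 0 ≤ ∑ k, ((if n = v k then 1 / (4 * (j:ℝ)) else 0) +
      if n = -v k then 1 / (4 * (j:ℝ)) else 0) := fun n =>
    sum_nonneg fun k _ => by split_ifs <;> positivity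
  refine ⟨fun n => ?_, ?_, fun n => ?_, ?_⟩
  · rw [lam_apply]
    refine add_nonneg (by split_ifs <;> positivity) (hs n)
  · rw [hat_lam]
    have : (j:ℂ) ≠ 0 := by exact_mod_cast hj.ne'
    simp [ex_zero_left]; field_simp; norm_num
  · rw [lam_apply, lam_apply]
    simp only [neg_eq_iff_eq_neg, neg_zero, neg_neg, add_comm]
  · rw [lam_apply, if_pos rfl]
    linarith [hs 0]

def sg : Fin 3 → ℤ := ![0, 1, -1]
def wt : Fin 3 → ℕ := ![0, 1, 1]
noncomputable def cf (β : ℝ) : Fin 3 → ℂ := ![1, Complex.I * β / 2, Complex.I * β / 2]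

noncomputable def th {j : ℕ} (M : ℕ) (s : Fin j → Fin 3) : ℝ :=
  ∑ l, sg (s l) * (1 / (2 * (2 * M : ℝ) ^ ((l:ℕ) + 1)))

lemma ex_sum {ι : Type} (S : Finset ι) (a : ι → ℝ) (x : ℝ) :
    ex (∑ l ∈ S, a l) x = ∏ l ∈ S, ex (a l) x := by
  classical
  induction S using Finset.induction_on with
  | empty => simp [ex_zero_left]
  | insert i S hi ih => rw [sum_insert hi, prod_insert hi, ex_add_left, ih]

lemma phi_bound {J : ℕ} (hJ : 0 < J) (M : ℕ) (x : ℝ) :
    ‖∑ s : Fin (J ^ 2) → Fin 3, (∏ l, cf (1 / J) (s l)) * ex (th M s) x‖ ≤ 2 := by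
  unfold th
  simp only [ex_sum, ← prod_mul_distrib]
  rw [← Fintype.piFinset_univ, ← Finset.prod_univ_sum (fun _ => univ)
    (fun (l : Fin (J ^ 2)) (σ : Fin 3) => cf (1 / J) σ *
      ex (sg σ * (1 / (2 * (2 * M : ℝ) ^ ((l:ℕ) + 1)))) x)]
  refine le_of_pow_le_pow_left₀ two_ne_zero (by norm_num) ?_
  rw [norm_prod, ← prod_pow]
  have hJ' : (0:ℝ) < J := by exact_mod_cast hJ
  have h1 : ∀ u : ℝ, ‖∑ σ : Fin 3, cf (1 / J) σ * ex (sg σ * u) x‖ ^ 2 ≤
      Real.exp (1 / (J:ℝ) ^ 2) := by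
    intro u
    have e : ∑ σ : Fin 3, cf (1 / J) σ * ex (sg σ * u) x =
        (1:ℝ) + (((ex u x).re / J : ℝ) : ℂ) * Complex.I := by
      have := Complex.add_conj (ex u x)
      rw [ex_conj] at this
      simp only [Fin.sum_univ_three, cf, sg, Matrix.cons_val_zero, Matrix.cons_val_one,
        Matrix.cons_val]
      push_cast at this ⊢
      simp only [zero_mul, ex_zero_left, one_mul, neg_mul]
      linear_combination (Complex.I / J / 2) * this
    rw [e, Complex.norm_add_mul_I, Real.sq_sqrt (by positivity)]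
    have h2 : |(ex u x).re| ≤ 1 := (Complex.abs_re_le_norm _).trans (ex_norm u x).le
    have h3 : ((ex u x).re / J) ^ 2 ≤ 1 / (J:ℝ) ^ 2 := by
      rw [div_pow]
      refine div_le_div_of_nonneg_right ?_ (by positivity)
      rw [← sq_abs]; nlinarith [abs_nonneg (ex u x).re]
    linarith [Real.add_one_le_exp (1 / (J:ℝ) ^ 2)]
  refine (prod_le_prod (fun _ _ => by positivity) fun l _ => h1 _).trans ?_
  rw [prod_const, card_univ, Fintype.card_fin, ← Real.exp_nat_mul]
  push_cast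
  rw [mul_one_div_cancel (by positivity)]
  linarith [Real.exp_one_lt_d9]

lemma tends_inv (c : ℝ) (m : ℕ) :
    Tendsto (fun M : ℕ => c * (1 / (2 * (2 * M : ℝ) ^ (m + 1)))) atTop (𝓝 0) := by
  have h1 : Tendsto (fun M : ℕ => 2 * (2 * M : ℝ) ^ (m + 1)) atTop atTop :=
    Tendsto.const_mul_atTop two_pos ((tendsto_pow_atTop (by omega)).comp
      (Tendsto.const_mul_atTop two_pos tendsto_natCast_atTop_atTop))
  simpa using (h1.inv_tendsto_atTop).const_mul c

lemma th_tends {j : ℕ} (s : Fin j → Fin 3) : Tendsto (fun M => th M s) atTop (𝓝 0) := by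
  unfold th
  simpa using tendsto_finsetSum univ fun l _ => tends_inv (sg (s l)) l

lemma ex_congr {s x s' x' : ℝ} (h : s * x = s' * x') : ex s x = ex s' x' := by
  unfold ex; rw [h]

lemma ex_half : ex 1 (1 / 2) = -1 := by
  unfold ex
  rw [← Complex.exp_pi_mul_I]; congr 1; push_cast; ring

lemma ex_sg (σ : Fin 3) : ex (sg σ) (1 / 2) = 1 - 2 * wt σ := by
  fin_cases σ
  · simp [sg, wt, ex_zero_left]
  · simp only [sg, wt]; have := ex_half; simp at this ⊢; rw [this]; norm_num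
  · simp only [sg, wt]
    have := congrArg (starRingEnd ℂ) ex_half
    rw [ex_conj] at this
    simp at this ⊢; rw [this]; norm_num

lemma ex_th_tends {j : ℕ} (s : Fin j → Fin 3) (k : Fin j) :
    Tendsto (fun M : ℕ => ex (th M s) (((2 * M : ℤ) ^ ((k:ℕ) + 1) : ℤ) : ℝ)) atTop
      (𝓝 (1 - 2 * wt (s k))) := by
  unfold th
  simp only [ex_sum]
  have : (1 - 2 * wt (s k) : ℂ) = ∏ l : Fin j, if l = k then (1 - 2 * wt (s k) : ℂ) else 1 := by simp
  rw [this]
  refine tendsto_finsetProd _ fun l _ => ?_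
  rcases lt_trichotomy l k with h | h | h
  · rw [if_neg h.ne]
    refine tendsto_const_nhds.congr' ?_
    filter_upwards [eventually_gt_atTop 0] with M hM
    obtain ⟨d, hd⟩ := Nat.exists_eq_add_of_lt (show (l:ℕ) < k from h)
    rw [← ex_int (sg (s l)) (M * (2 * M) ^ d)]
    apply ex_congr
    have : (M:ℝ) ≠ 0 := by positivity
    rw [hd]; push_cast; field_simp; ring
  · subst h
    rw [if_pos rfl]
    refine tendsto_const_nhds.congr' ?_
    filter_upwards [eventually_gt_atTop 0] with M hM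
    rw [← ex_sg]
    apply ex_congr
    have : (M:ℝ) ≠ 0 := by positivity
    push_cast; field_simp
  · rw [if_neg h.ne']
    obtain ⟨d, hd⟩ := Nat.exists_eq_add_of_lt (show (k:ℕ) < l from h)
    have h1 := ((ex_cont 1).tendsto 0).comp (tends_inv (sg (s l)) d)
    rw [ex_zero_right] at h1
    refine h1.congr' ?_
    filter_upwards [eventually_gt_atTop 0] with M hM
    apply ex_congr
    have : (M:ℝ) ≠ 0 := by positivity
    rw [hd]; push_cast; field_simp; ring

lemma lam_tends {j : ℕ} (hj : 0 < j) (s : Fin j → Fin 3) :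
    Tendsto (fun M : ℕ => hatL (th M s) (lam fun k : Fin j => (2 * M : ℤ) ^ ((k:ℕ) + 1))) atTop
      (𝓝 (1 - ((∑ k, wt (s k) : ℕ) : ℂ) / j)) := by
  simp only [hat_lam]
  have h1 := ((tendsto_finsetSum univ fun k _ => (ex_th_tends s k).add
    ((Complex.continuous_conj.tendsto _).comp (ex_th_tends s k))).const_mul
      (1 / (4 * (j:ℂ)))).const_add (1 / 2)
  have e : (1 - ((∑ k, wt (s k) : ℕ) : ℂ) / j) = 1 / 2 + 1 / (4 * (j:ℂ)) *
      ∑ k, ((1 - 2 * (wt (s k) : ℂ)) + starRingEnd ℂ (1 - 2 * (wt (s k) : ℂ))) := ?_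
  · rw [e]; exact h1
  have : (j:ℂ) ≠ 0 := by exact_mod_cast hj.ne'
  simp only [map_sub, map_one, map_mul, map_ofNat, map_natCast, sum_add_distrib, sum_sub_distrib,
    sum_const, card_univ, Fintype.card_fin, ← mul_sum]
  push_cast
  simp only [nsmul_eq_mul]
  field_simp; ring

lemma limit_val {J : ℕ} (hJ : 0 < J) : (J:ℝ) / 3 ≤ ‖∑ s : Fin (J ^ 2) → Fin 3,
    (∏ l, cf (1 / J) (s l)) * (((∑ k, wt (s k) : ℕ) : ℂ) *
      Complex.exp (-((∑ k, wt (s k) : ℕ) : ℂ)))‖ := by
  set b : ℂ := Complex.I * ((1 / J * Real.exp (-1) : ℝ) : ℂ) with hb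
  have e1 : ∀ s : Fin (J ^ 2) → Fin 3, (∏ l, cf (1 / J) (s l)) * (((∑ k, wt (s k) : ℕ) : ℂ) *
      Complex.exp (-((∑ k, wt (s k) : ℕ) : ℂ))) = ∑ k, ∏ l,
        (cf (1 / J) (s l) * Complex.exp (-(wt (s l) : ℂ)) * if l = k then (wt (s l) : ℂ) else 1) := by
    intro s
    simp only [prod_mul_distrib, prod_ite_eq', mem_univ, if_true, ← mul_sum]
    push_cast
    rw [← sum_neg_distrib, Complex.exp_sum]; ring
  simp only [e1]
  rw [sum_comm]
  have e2 : ∀ k : Fin (J ^ 2), ∑ s : Fin (J ^ 2) → Fin 3, ∏ l,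
      (cf (1 / J) (s l) * Complex.exp (-(wt (s l) : ℂ)) * if l = k then (wt (s l) : ℂ) else 1) =
      b * (1 + b) ^ (J ^ 2 - 1) := by
    intro k
    rw [← Fintype.piFinset_univ, ← Finset.prod_univ_sum (fun _ => univ)
      (fun (l : Fin (J ^ 2)) (σ : Fin 3) =>
        cf (1 / J) σ * Complex.exp (-(wt σ : ℂ)) * if l = k then (wt σ : ℂ) else 1),
      ← mul_prod_erase univ _ (mem_univ k)]
    congr 1
    · simp [Fin.sum_univ_three, cf, wt, hb]; ring
    · rw [prod_congr rfl (g := fun _ => 1 + b), prod_const, card_erase_of_mem (mem_univ k), card_univ,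
        Fintype.card_fin]
      intro l hl
      simp [Fin.sum_univ_three, cf, wt, hb, ne_of_mem_erase hl]; ring
  simp only [e2]
  rw [sum_const, card_univ, Fintype.card_fin, nsmul_eq_mul, norm_mul, norm_mul, norm_pow]
  have hJ' : (0:ℝ) < J := by exact_mod_cast hJ
  have h1 : 1 ≤ ‖1 + b‖ := by
    refine le_trans ?_ (Complex.re_le_norm _)
    rw [hb, Complex.add_re, Complex.I_mul_re, Complex.ofReal_im]; simp
  have h2 : ‖b‖ = 1 / J * Real.exp (-1) := by
    rw [hb, norm_mul, Complex.norm_I, one_mul, Complex.norm_real, Real.norm_of_nonneg (by positivity)]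
  have h3 : 1 / 3 ≤ Real.exp (-1) := by
    rw [Real.exp_neg, one_div]
    exact inv_anti₀ (Real.exp_pos 1) (by linarith [Real.exp_one_lt_d9])
  have h4 := one_le_pow₀ (n := J ^ 2 - 1) h1
  rw [h2, Complex.norm_natCast]
  push_cast
  calc (J:ℝ) / 3 = J ^ 2 * (1 / J * (1 / 3) * 1) := by field_simp
    _ ≤ _ := by gcongr

def U (C : ℝ) : Set L1 := {p | ∃ (n j : ℕ) (c : (Fin j → Fin 3) → ℂ) (θ : (Fin j → Fin 3) → ℝ),
  (∀ x : ℤ, ‖∑ s, c s * ex (θ s) x‖ ≤ 2) ∧
    C < ‖∑ s, c s * (n * (hatL (θ s) p ^ n * (1 - hatL (θ s) p)))‖}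

lemma U_open (C : ℝ) : IsOpen (U C) := by
  unfold U
  simp only [Set.ofPred_exists]
  refine isOpen_iUnion fun n => isOpen_iUnion fun j => isOpen_iUnion fun c =>
    isOpen_iUnion fun θ => ?_
  simp only [Set.ofPred_and]
  refine IsOpen.inter isOpen_const (isOpen_lt continuous_const ?_)
  fun_prop

lemma U_dense (C : ℝ) {p : L1} (hp : p ∈ X) {η : ℝ} (hη : 0 < η) :
    ∃ q ∈ X, q ∈ U C ∧ dist q p < η := by
  obtain ⟨J, hJ⟩ := exists_nat_gt (max (3 * C) 0)
  have hJ0 : 0 < J := by exact_mod_cast (le_max_right _ _).trans_lt hJ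
  have hC : C < J / 3 := by linarith [(le_max_left _ _).trans_lt hJ]
  have hj : 0 < J ^ 2 := by positivity
  let c : (Fin (J ^ 2) → Fin 3) → ℂ := fun s => ∏ l, cf (1 / J) (s l)
  let w : (Fin (J ^ 2) → Fin 3) → ℂ := fun s => ((∑ k, wt (s k) : ℕ) : ℂ)
  have t1 : Tendsto (fun n : ℕ => ‖∑ s, c s * (w s * (1 + -w s / n) ^ n)‖) atTop
      (𝓝 ‖∑ s, c s * (w s * Complex.exp (-w s))‖) :=
    (tendsto_finsetSum univ fun s _ =>
      ((Complex.tendsto_one_add_div_pow_exp (-w s)).const_mul _).const_mul _).norm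
  have t2 : Tendsto (fun n : ℕ => ((J ^ 2 : ℕ) : ℝ) / n) atTop (𝓝 0) :=
    tendsto_const_div_atTop_nhds_zero_nat _
  obtain ⟨n, hn1, hn2, hn3⟩ := ((t1.eventually (lt_mem_nhds (hC.trans_le (limit_val hJ0)))).and
    ((t2.eventually (gt_mem_nhds (lt_min (half_pos hη) one_pos))).and (eventually_gt_atTop 0))).exists
  set ε : ℝ := ((J ^ 2 : ℕ) : ℝ) / n with hε
  have ε0 : 0 ≤ ε := by positivity
  have ε1 := (lt_min_iff.mp hn2).2
  have ε2 := (lt_min_iff.mp hn2).1
  let q : ℕ → L1 := fun M => (1 - ε) • p + ε • lam fun k : Fin (J ^ 2) => (2 * M : ℤ) ^ ((k:ℕ) + 1)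
  have t3 : ∀ s, Tendsto (fun M => hatL (th M s) (q M)) atTop (𝓝 (1 + -w s / n)) := by
    intro s
    simp only [q, map_add, map_smul]
    have a1 : Tendsto (fun M => hatL (th M s) p) atTop (𝓝 1) := by
      have := ((hat_cont (L1_summable p)).tendsto 0).comp (th_tends s)
      rwa [← hatL_apply, hp.2.1] at this
    convert (a1.const_smul (1 - ε)).add ((lam_tends hj s).const_smul ε) using 2
    have : (n:ℂ) ≠ 0 := by exact_mod_cast hn3.ne'
    have : (J:ℂ) ≠ 0 := by exact_mod_cast hJ0.ne'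
    simp only [Complex.real_smul, hε, w]
    push_cast; field_simp; ring
  have t4 : Tendsto (fun M => ‖∑ s, c s * (n * (hatL (th M s) (q M) ^ n *
      (1 - hatL (th M s) (q M))))‖) atTop
      (𝓝 ‖∑ s, c s * (n * ((1 + -w s / n) ^ n * (1 - (1 + -w s / n))))‖) :=
    (tendsto_finsetSum univ fun s _ =>
      ((((t3 s).pow n).mul ((t3 s).const_sub 1)).const_mul _).const_mul _).norm
  have e : ∀ s, (n:ℂ) * ((1 + -w s / n) ^ n * (1 - (1 + -w s / n))) = w s * (1 + -w s / n) ^ n := by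
    intro s
    have : (n:ℂ) ≠ 0 := by exact_mod_cast hn3.ne'
    generalize (1 + -w s / n) ^ n = z
    field_simp; ring
  simp only [e] at t4
  obtain ⟨M, hM⟩ := (t4.eventually (lt_mem_nhds hn1)).exists
  have hq := X_conv hp (lam_mem hj fun k : Fin (J ^ 2) => (2 * M : ℤ) ^ ((k:ℕ) + 1)) ε0 ε1.le
  exact ⟨q M, hq.1, ⟨n, J ^ 2, c, th M, fun x => phi_bound hJ0 M x, hM⟩, by linarith [hq.2]⟩

theorem exists_bad : ∃ p ∈ X, 0 < p 1 ∧ ∀ C : ℕ, p ∈ U C := by
  have : CompleteSpace X := X_closed.completeSpace_coe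
  have hne : Nonempty X := ⟨⟨lam (j := 1) fun _ => 1, lam_mem one_pos _⟩⟩
  have h1 : Dense (⋂ C : ℕ, ((↑) : X → L1) ⁻¹' U C) := by
    refine dense_iInter_of_isOpen (fun C => (U_open C).preimage continuous_subtype_val) fun C => ?_
    intro p
    rw [Metric.mem_closure_iff]
    intro η hη
    obtain ⟨q, hq, hqU, hd⟩ := U_dense C p.2 hη
    exact ⟨⟨q, hq⟩, hqU, by rw [dist_comm]; exact hd⟩
  have h2 : IsOpen {p : X | 0 < (p : L1) 1} :=
    isOpen_lt continuous_const ((ev_cont 1).comp continuous_subtype_val)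
  obtain ⟨p, hp1, hp2⟩ := h1.inter_open_nonempty _ h2
    ⟨⟨lam (j := 1) fun _ => 1, lam_mem one_pos _⟩, by
      show 0 < lam (j := 1) (fun _ => 1) 1
      rw [lam_apply]; norm_num⟩
  exact ⟨p, p.2, hp1, fun C => Set.mem_iInter.mp hp2 C⟩

lemma hat_real {p : L1} (hp : p ∈ X) (h1 : 0 < p 1) (t : ℝ) (ht : (ex t 1).re < 1) :
    ∃ r : ℝ, 0 ≤ r ∧ r < 1 ∧ hat p t = r := by
  have hs := L1_summable p
  have hsum : ∑' n, p n = 1 := by
    have := hp.2.1
    rw [hatL_apply, hat_zero] at this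
    exact_mod_cast this
  have hconj : starRingEnd ℂ (hat p t) = hat p t := by
    unfold hat
    rw [Complex.conj_tsum, ← (Equiv.neg ℤ).tsum_eq]
    congr 1; ext n
    simp only [Equiv.neg_apply, map_mul, Complex.conj_ofReal, ex_conj, hp.2.2.1]
    congr 1; apply ex_congr; push_cast; ring
  have hre : (hat p t).re = ∑' n : ℤ, p n * (ex t n).re := by
    unfold hat
    rw [Complex.re_tsum (hat_summable hs t).of_norm]
    simp
  have hb : ∀ n : ℤ, |(ex t n).re| ≤ 1 := fun n => (Complex.abs_re_le_norm _).trans (ex_norm _ _).le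
  have hs2 : Summable fun n : ℤ => p n * (ex t n).re := by
    refine Summable.of_norm_bounded hs.norm fun n => ?_
    rw [norm_mul]
    exact mul_le_of_le_one_right (norm_nonneg _) (hb n)
  refine ⟨(hat p t).re, ?_, ?_, (Complex.conj_eq_iff_re.mp hconj).symm⟩
  · have a1 := (hs.add hs2).le_tsum 0 (fun n _ => by nlinarith [hp.1 n, abs_le.mp (hb n)])
    rw [hs.tsum_add hs2, hsum, ← hre] at a1
    simp only [Int.cast_zero, ex_zero_right, Complex.one_re] at a1
    linarith [hp.2.2.2]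
  · have a1 := (hs.sub hs2).le_tsum 1 (fun n _ => by nlinarith [hp.1 n, abs_le.mp (hb n)])
    rw [hs.tsum_sub hs2, hsum, ← hre] at a1
    simp only [Int.cast_one] at a1
    nlinarith

end Pool.Agent.H92.Ritt
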