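import Mathlib

set_option autoImplicit false
open MeasureTheory Filter Topology Set
open scoped ContDiff

namespace Pool.Agent.H92.Robin

variable {d : ℕ}

/-- the half space measure -/
noncomputable def μ (d : ℕ) : Measure ((Fin d → ℝ) × ℝ) := volume.prod (volume.restrict (Ioi 0))

lemma int_cs {G : (Fin d → ℝ) × ℝ → ℝ} (h1 : Continuous G) (h2 : HasCompactSupport G) :
    Integrable G (μ d) := by
  unfold μ
  exact h1.integrable_of_hasCompactSupport h2

lemma dir_cont {G : (Fin d → ℝ) × ℝ → ℝ} (h1 : ContDiff ℝ 1 G) (v : (Fin d → ℝ) × ℝ) :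
    Continuous fun p => fderiv ℝ G p v := (h1.continuous_fderiv one_ne_zero).clm_apply continuous_const

lemma dir_int {G : (Fin d → ℝ) × ℝ → ℝ} (h1 : ContDiff ℝ 1 G) (h2 : HasCompactSupport G)
    (v : (Fin d → ℝ) × ℝ) : Integrable (fun p => fderiv ℝ G p v) (μ d) :=
  int_cs (dir_cont h1 v) (h2.fderiv_apply ℝ v)

lemma tang {G : (Fin d → ℝ) × ℝ → ℝ} (h1 : ContDiff ℝ 1 G) (h2 : HasCompactSupport G) (v : Fin d → ℝ) :
    ∫ p, fderiv ℝ G p (v, 0) ∂μ d = 0 := by
  have hi := dir_int h1 h2 (v, 0)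
  unfold μ at *
  rw [integral_prod_symm _ hi]
  have : ∀ s : ℝ, ∫ x : Fin d → ℝ, fderiv ℝ G (x, s) (v, 0) = 0 := by
    intro s
    have c1 : ContDiff ℝ 1 fun x : Fin d → ℝ => G (x, s) := by fun_prop
    have c2 : HasCompactSupport fun x : Fin d → ℝ => G (x, s) :=
      h2.comp_isClosedEmbedding (Function.LeftInverse.isClosedEmbedding (f := Prod.fst)
        (g := fun x : Fin d → ℝ => (x, s)) (fun _ => rfl) continuous_fst (by fun_prop))
    have e : ∀ x, fderiv ℝ G (x, s) (v, 0) = fderiv ℝ (fun x : Fin d → ℝ => G (x, s)) x v := by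
      intro x
      have := HasFDerivAt.comp (f := fun x : Fin d → ℝ => (x, s)) x
        ((h1.differentiable one_ne_zero) (x, s)).hasFDerivAt (hasFDerivAt_prodMk_left (𝕜 := ℝ) x s)
      rw [show (fun x : Fin d → ℝ => G (x, s)) = G ∘ fun x => (x, s) from rfl, this.fderiv]
      simp
    have c3 : Integrable fun x => fderiv ℝ (fun x : Fin d → ℝ => G (x, s)) x v :=
      ((c1.continuous_fderiv one_ne_zero).clm_apply continuous_const).integrable_of_hasCompactSupport
        (c2.fderiv_apply ℝ v)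
    have := integral_mul_fderiv_eq_neg_fderiv_mul_of_integrable (μ := volume) (f := fun _ => (1 : ℝ))
      (g := fun x : Fin d → ℝ => G (x, s)) (v := v) (by simp) (by simpa using c3)
      (by simpa using c1.continuous.integrable_of_hasCompactSupport c2) (fun _ _ => by fun_prop)
      (fun x _ => c1.differentiable one_ne_zero x)
    simpa [e] using this
  simp [this]

lemma normal {G : (Fin d → ℝ) × ℝ → ℝ} (h1 : ContDiff ℝ 1 G) (h2 : HasCompactSupport G) :
    ∫ p, fderiv ℝ G p (0, 1) ∂μ d = -∫ x, G (x, 0) := by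
  have hi := dir_int h1 h2 (0, 1)
  unfold μ at *
  rw [integral_prod _ hi, ← integral_neg]
  congr 1
  funext x
  have c1 : ContDiff ℝ 1 fun s : ℝ => G (x, s) := by fun_prop
  have c2 : HasCompactSupport fun s : ℝ => G (x, s) :=
    h2.comp_isClosedEmbedding (Function.LeftInverse.isClosedEmbedding (f := Prod.snd)
      (g := fun s : ℝ => (x, s)) (fun _ => rfl) continuous_snd (by fun_prop))
  rw [← c2.integral_Ioi_deriv_eq c1 0]
  congr 1
  funext s
  have := ((h1.differentiable one_ne_zero) (x, s)).hasFDerivAt.comp s (hasFDerivAt_prodMk_right x s)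
  rw [show (fun s : ℝ => G (x, s)) = G ∘ fun s => (x, s) from rfl, this.hasDerivAt.deriv]
  simp

/-- the shear -/
def shear {f : (Fin d → ℝ) → ℝ} (hf : Continuous f) : ((Fin d → ℝ) × ℝ) ≃ₜ ((Fin d → ℝ) × ℝ) where
  toFun p := (p.1, f p.1 + p.2)
  invFun p := (p.1, p.2 - f p.1)
  left_inv p := by simp
  right_inv p := by simp

lemma shear_int {f : (Fin d → ℝ) → ℝ} (hf : Continuous f) (F : (Fin d → ℝ) × ℝ → ℝ) :
    ∫ p in {p : (Fin d → ℝ) × ℝ | f p.1 < p.2}, F p = ∫ p, F (shear hf p) ∂μ d := by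
  have mp : MeasurePreserving (shear hf) (volume.prod volume) (volume.prod volume) :=
    (MeasurePreserving.id volume).skew_product (g := fun x s => f x + s) (by fun_prop)
      (Eventually.of_forall fun x => (measurePreserving_add_left volume (f x)).map_eq)
  have := mp.setIntegral_preimage_emb (shear hf).measurableEmbedding F {p | f p.1 < p.2}
  rw [Measure.volume_eq_prod, ← this, μ, ← Measure.restrict_univ (μ := (volume : Measure (Fin d → ℝ))),
    Measure.prod_restrict, Measure.restrict_univ]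
  congr 2
  ext p
  simp [shear]

lemma rho (x : Fin d → ℝ) : ∃ L : (Fin d → ℝ) →L[ℝ] ℝ, HasFDerivAt (fun x : Fin d → ℝ => ∑ j, x j ^ 2) L x ∧
    ∀ i, L (Pi.single i 1) = 2 * x i := by
  refine ⟨_, HasFDerivAt.fun_sum fun j _ => (hasFDerivAt_apply (𝕜 := ℝ) j x).pow 2, fun i => ?_⟩
  simp [Pi.single_apply]

/-- the vector field -/
noncomputable def Y (i : Fin d) (x : Fin d → ℝ) : ℝ := -x i * (1 + ∑ j, x j ^ 2)⁻¹

lemma Y_smooth (i : Fin d) : ContDiff ℝ 1 (Y i) := by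
  unfold Y
  exact ContDiff.mul (by fun_prop) (ContDiff.inv (by fun_prop) fun x => by positivity)

lemma Y_div (hd : 3 ≤ d) (x : Fin d → ℝ) :
    ∑ i, fderiv ℝ (Y i) x (Pi.single i 1) + ∑ i, Y i x ^ 2 ≤ 0 := by
  obtain ⟨L, h1, h2⟩ := rho x
  set r := ∑ j, x j ^ 2 with hr
  have r0 : 0 ≤ r := by positivity
  have e : ∀ i, fderiv ℝ (Y i) x (Pi.single i 1) = 2 * x i ^ 2 / (1 + r) ^ 2 - (1 + r)⁻¹ := by
    intro i
    have := (hasFDerivAt_apply (𝕜 := ℝ) i x).neg.mul
      ((hasDerivAt_inv (x := 1 + r) (by positivity)).comp_hasFDerivAt x (h1.const_add 1))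
    rw [show Y i = _ from rfl]
    erw [this.fderiv]
    simp [h2, ← hr]
    field_simp
    ring
  simp only [e, Y, mul_pow, Finset.sum_sub_distrib, ← Finset.sum_div, ← Finset.mul_sum, ← Finset.sum_mul,
    even_two.neg_pow, ← hr, Finset.sum_const, Finset.card_univ, Fintype.card_fin, nsmul_eq_mul]
  have : (3 : ℝ) ≤ d := by exact_mod_cast hd
  have h3 : 2 * r / (1 + r) ^ 2 - d * (1 + r)⁻¹ + r * (1 + r)⁻¹ ^ 2 = (3 * r - d * (1 + r)) / (1 + r) ^ 2 := by
    field_simp; ring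
  rw [h3]
  exact div_nonpos_of_nonpos_of_nonneg (by nlinarith) (by positivity)

lemma bump {β : ℝ} (hβ : 0 < β) : ∃ f : (Fin d → ℝ) → ℝ, ContDiff ℝ ∞ f ∧ HasCompactSupport f ∧ f ≠ 0 ∧
    ∀ x, β * √(1 + ∑ i, fderiv ℝ f x (Pi.single i 1) ^ 2) ≤
      β + ∑ i, Y i x * fderiv ℝ f x (Pi.single i 1) := by
  have sm : ContDiff ℝ ∞ expNegInvGlue := expNegInvGlue.contDiff
  obtain ⟨M, hM⟩ := isCompact_Icc.exists_bound_of_continuousOn
    ((sm.continuous_deriv (by simp)).continuousOn (s := Icc 0 1))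
  have M0 : 0 ≤ M := (norm_nonneg _).trans (hM 0 (by simp))
  set ε := 1 / (2 * β * (M + 1)) with hε
  have ε0 : 0 < ε := by positivity
  refine ⟨fun x => ε * expNegInvGlue (1 - ∑ j, x j ^ 2), by fun_prop, ?_, fun h => ?_, fun x => ?_⟩
  · refine HasCompactSupport.intro (isCompact_closedBall 0 1) fun x hx => ?_
    rw [mem_closedBall_zero_iff, pi_norm_le_iff_of_nonneg zero_le_one] at hx
    push Not at hx
    obtain ⟨i, hi⟩ := hx
    have := Finset.single_le_sum (f := fun j => x j ^ 2) (fun _ _ => sq_nonneg _) (Finset.mem_univ i)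
    rw [Real.norm_eq_abs] at hi
    rw [expNegInvGlue.zero_of_nonpos (by nlinarith [sq_abs (x i)]), mul_zero]
  · have := congrFun h 0
    simp at this
    rcases this with h | h <;> linarith
  · obtain ⟨L, h1, h2⟩ := rho x
    set r := ∑ j, x j ^ 2 with hr
    have r0 : 0 ≤ r := by positivity
    set k := deriv expNegInvGlue (1 - r)
    have k0 : 0 ≤ k := expNegInvGlue.monotone.deriv_nonneg
    have e : ∀ i, fderiv ℝ (fun x : Fin d → ℝ => ε * expNegInvGlue (1 - ∑ j, x j ^ 2)) x (Pi.single i 1) =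
        -(2 * ε * k) * x i := by
      intro i
      have := ((sm.differentiable (by simp) (1 - r)).hasDerivAt.comp_hasFDerivAt x (h1.const_sub 1)).const_mul ε
      erw [this.fderiv]
      simp [h2, k]
      ring
    have e2 : ∀ i, Y i x * (-(2 * ε * k) * x i) = 2 * ε * k * (1 + r)⁻¹ * x i ^ 2 := by
      intro i; simp only [Y, ← hr]; ring
    simp only [e, e2, mul_pow, ← Finset.mul_sum, ← hr, even_two.neg_pow]
    have hk : β * (ε * k) * (1 + r) ≤ 1 := by
      rcases le_or_gt r 1 with h | h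
      · have k1 : k ≤ M := (le_abs_self _).trans (hM _ ⟨by linarith, by linarith⟩)
        have : β * ε * (2 * (M + 1)) = 1 := by rw [hε]; field_simp
        nlinarith [mul_pos hβ ε0, mul_le_mul k1 (show 1 + r ≤ 2 by linarith) (by linarith) M0]
      · have : k = 0 := by
          have : expNegInvGlue =ᶠ[𝓝 (1 - r)] fun _ => 0 := by
            filter_upwards [Iio_mem_nhds (show 1 - r < 0 by linarith)] with y hy
            exact expNegInvGlue.zero_of_nonpos hy.le
          simp [k, this.deriv_eq]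
        simp [this]
    have s1 : √(1 + 2 ^ 2 * ε ^ 2 * k ^ 2 * r) ≤ 1 + 2 * ε ^ 2 * k ^ 2 * r :=
      Real.sqrt_le_iff.2 ⟨by positivity, by nlinarith [sq_nonneg (ε ^ 2 * k ^ 2 * r)]⟩
    have s2 : β * (ε * k) ≤ (1 + r)⁻¹ := by rwa [← one_div, le_div_iff₀ (by positivity)]
    refine (mul_le_mul_of_nonneg_left s1 hβ.le).trans ?_
    have := mul_le_mul_of_nonneg_left s2 (show 0 ≤ 2 * ε * k * r by positivity)
    calc β * (1 + 2 * ε ^ 2 * k ^ 2 * r) = β + 2 * ε * k * r * (β * (ε * k)) := by ring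
      _ ≤ β + 2 * ε * k * r * (1 + r)⁻¹ := by gcongr
      _ = _ := by ring

lemma sq_low (D v : ℂ) (y : ℝ) : 2 * y * inner ℝ v D - y ^ 2 * ‖v‖ ^ 2 ≤ ‖D‖ ^ 2 := by
  have := norm_sub_sq_real (y • v) D
  rw [norm_smul, inner_smul_left, mul_pow, Real.norm_eq_abs, sq_abs] at this
  simp only [conj_trivial] at this
  nlinarith [sq_nonneg ‖y • v - D‖]

theorem main (hd : 3 ≤ d) {β : ℝ} {f : (Fin d → ℝ) → ℝ} (hf : ContDiff ℝ ∞ f)
    (hb : ∀ x, β * √(1 + ∑ i, fderiv ℝ f x (Pi.single i 1) ^ 2) ≤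
      β + ∑ i, Y i x * fderiv ℝ f x (Pi.single i 1))
    {u : (Fin d → ℝ) × ℝ → ℂ} (h1 : ContDiff ℝ 1 u) (h2 : HasCompactSupport u) :
    β * ∫ x, ‖u (x, f x)‖ ^ 2 * √(1 + ∑ i, fderiv ℝ f x (Pi.single i 1) ^ 2) ≤
      (∫ p in {p : (Fin d → ℝ) × ℝ | f p.1 < p.2},
        (∑ i, ‖fderiv ℝ u p (Pi.single i 1, 0)‖ ^ 2 + ‖fderiv ℝ u p (0, 1)‖ ^ 2)) +
      β ^ 2 * ∫ p in {p : (Fin d → ℝ) × ℝ | f p.1 < p.2}, ‖u p‖ ^ 2 := by
  have fc := hf.continuous
  have f1 : ContDiff ℝ 1 f := hf.of_le (by simp)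
  have f2 : ∀ v, ContDiff ℝ 1 fun x => fderiv ℝ f x v := fun v =>
    (hf.fderiv_right (m := 1) (by norm_cast)).clm_apply contDiff_const
  set W : (Fin d → ℝ) × ℝ → ℝ := fun p => ‖u (p.1, f p.1 + p.2)‖ ^ 2 with hW
  have W1 : ContDiff ℝ 1 W := ContDiff.norm_sq ℝ (by fun_prop)
  have W2 : HasCompactSupport W :=
    (h2.comp_homeomorph (shear fc)).comp_left (g := fun z : ℂ => ‖z‖ ^ 2) (by simp)
  set h : (Fin d → ℝ) → ℝ := fun x => β + ∑ i, Y i x * fderiv ℝ f x (Pi.single i 1) with hh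
  have hh1 : ContDiff ℝ 1 h := contDiff_const.add (ContDiff.sum fun i _ => (Y_smooth i).mul (f2 _))
  have dW : ∀ (p : (Fin d → ℝ) × ℝ) (v : Fin d → ℝ) (s : ℝ), fderiv ℝ W p (v, s) =
      2 * inner ℝ (u (p.1, f p.1 + p.2)) (fderiv ℝ u (p.1, f p.1 + p.2) (v, fderiv ℝ f p.1 v + s)) := by
    intro p v s
    have a1 : HasFDerivAt (fun p : (Fin d → ℝ) × ℝ => (p.1, f p.1 + p.2)) _ p :=
      hasFDerivAt_fst.prodMk (((f1.differentiable one_ne_zero p.1).hasFDerivAt.comp p hasFDerivAt_fst).add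
        hasFDerivAt_snd)
    have a2 := (HasFDerivAt.comp (f := fun p : (Fin d → ℝ) × ℝ => (p.1, f p.1 + p.2)) p
      (h1.differentiable one_ne_zero _).hasFDerivAt a1).norm_sq
    erw [a2.fderiv]
    simp
    ring
  have dM : ∀ {a : (Fin d → ℝ) → ℝ}, ContDiff ℝ 1 a → ∀ (p : (Fin d → ℝ) × ℝ) (v : Fin d → ℝ) (s : ℝ),
      fderiv ℝ (fun p : (Fin d → ℝ) × ℝ => a p.1 * W p) p (v, s) =
        a p.1 * fderiv ℝ W p (v, s) + W p * fderiv ℝ a p.1 v := by
    intro a ha p v s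
    have := ((ha.differentiable one_ne_zero p.1).hasFDerivAt.comp p hasFDerivAt_fst).mul
      (W1.differentiable one_ne_zero p).hasFDerivAt
    erw [this.fderiv]
    simp
  have cM : ∀ {a : (Fin d → ℝ) → ℝ}, ContDiff ℝ 1 a →
      ContDiff ℝ 1 (fun p : (Fin d → ℝ) × ℝ => a p.1 * W p) ∧
      HasCompactSupport (fun p : (Fin d → ℝ) × ℝ => a p.1 * W p) := fun ha =>
    ⟨(ha.comp contDiff_fst).mul W1, W2.mul_left⟩
  have du : ∀ v, Continuous (fun p => ‖fderiv ℝ u p v‖ ^ 2) ∧ HasCompactSupport fun p => ‖fderiv ℝ u p v‖ ^ 2 :=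
    fun v => ⟨((h1.continuous_fderiv one_ne_zero).clm_apply continuous_const).norm.pow 2,
      (h2.fderiv_apply ℝ v).comp_left (g := fun z : ℂ => ‖z‖ ^ 2) (by simp)⟩
  have di : ∀ v, Integrable (fun p => ‖fderiv ℝ u (shear fc p) v‖ ^ 2) (μ d) := fun v =>
    int_cs ((du v).1.comp (shear fc).continuous) ((du v).2.comp_homeomorph (shear fc))
  have i1 : Integrable (fun p => ∑ i, ‖fderiv ℝ u (shear fc p) (Pi.single i 1, 0)‖ ^ 2 +
      ‖fderiv ℝ u (shear fc p) (0, 1)‖ ^ 2) (μ d) := (integrable_finsetSum _ fun i _ => di _).fun_add (di _)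
  have i2 : Integrable (fun p => β ^ 2 * ‖u (shear fc p)‖ ^ 2) (μ d) :=
    (int_cs W1.continuous W2).const_mul _
  have i3 : ∀ i, Integrable (fun p => fderiv ℝ (fun p : (Fin d → ℝ) × ℝ => Y i p.1 * W p) p
      (Pi.single i 1, 0)) (μ d) := fun i => dir_int (cM (Y_smooth i)).1 (cM (Y_smooth i)).2 _
  have i4 := dir_int (cM hh1).1 (cM hh1).2 (0, 1)
  rw [shear_int fc, shear_int fc, ← integral_const_mul (β ^ 2), ← integral_add i1 i2, ← integral_const_mul]
  have i5 : Integrable (fun p => ∑ i, fderiv ℝ (fun p : (Fin d → ℝ) × ℝ => Y i p.1 * W p) p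
      (Pi.single i 1, 0) - fderiv ℝ (fun p : (Fin d → ℝ) × ℝ => h p.1 * W p) p (0, 1)) (μ d) :=
    (integrable_finsetSum Finset.univ fun i _ => i3 i).sub i4
  have key := integral_mono i5 (i1.fun_add i2) (fun p => ?_)
  · rw [integral_sub (integrable_finsetSum Finset.univ fun i _ => i3 i) i4,
      integral_finsetSum _ fun i _ => i3 i, normal (cM hh1).1 (cM hh1).2] at key
    simp only [tang (cM (Y_smooth _)).1 (cM (Y_smooth _)).2, Finset.sum_const_zero, zero_sub, neg_neg] at key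
    refine le_trans (integral_mono ?_ ?_ fun x => ?_) key
    · have c2 : HasCompactSupport fun x : Fin d → ℝ => W (x, 0) :=
        W2.comp_isClosedEmbedding (Function.LeftInverse.isClosedEmbedding (f := Prod.fst)
          (g := fun x : Fin d → ℝ => (x, (0 : ℝ))) (fun _ => rfl) continuous_fst (by fun_prop))
      simp only [hW, add_zero] at c2
      refine Integrable.const_mul (Continuous.integrable_of_hasCompactSupport ?_ c2.mul_right) _
      have := h1.continuous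
      have := fun v => (f2 v).continuous
      fun_prop
    · have c1 : Continuous fun x : Fin d → ℝ => h x * W (x, 0) :=
        hh1.continuous.mul (W1.continuous.comp (Continuous.prodMk_left 0))
      have c2 : HasCompactSupport fun x : Fin d → ℝ => W (x, 0) :=
        W2.comp_isClosedEmbedding (Function.LeftInverse.isClosedEmbedding (f := Prod.fst)
          (g := fun x : Fin d → ℝ => (x, (0 : ℝ))) (fun _ => rfl) continuous_fst (by fun_prop))
      exact c1.integrable_of_hasCompactSupport c2.mul_left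
    · simp only [hW, add_zero]
      rw [mul_left_comm, mul_comm (h x)]
      exact mul_le_mul_of_nonneg_left (hb x) (sq_nonneg _)
  · simp only [dM (Y_smooth _), dM hh1, dW, map_zero, add_zero, zero_add, mul_zero]
    have e : ∀ i, fderiv ℝ u (p.1, f p.1 + p.2) (Pi.single i 1, fderiv ℝ f p.1 (Pi.single i 1)) =
        fderiv ℝ u (p.1, f p.1 + p.2) (Pi.single i 1, 0) +
          fderiv ℝ f p.1 (Pi.single i 1) • fderiv ℝ u (p.1, f p.1 + p.2) (0, 1) := by
      intro i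
      rw [← map_smul, ← map_add]
      simp
    have b1 := Finset.sum_le_sum fun i (_ : i ∈ Finset.univ) =>
      sq_low (fderiv ℝ u (p.1, f p.1 + p.2) (Pi.single i 1, 0)) (u (p.1, f p.1 + p.2)) (Y i p.1)
    have b2 := sq_low (fderiv ℝ u (p.1, f p.1 + p.2) (0, 1)) (u (p.1, f p.1 + p.2)) (-β)
    have b3 := mul_nonpos_of_nonneg_of_nonpos (sq_nonneg ‖u (p.1, f p.1 + p.2)‖) (Y_div hd p.1)
    change _ ≤ ∑ i, ‖fderiv ℝ u (p.1, f p.1 + p.2) (Pi.single i 1, 0)‖ ^ 2 +
      ‖fderiv ℝ u (p.1, f p.1 + p.2) (0, 1)‖ ^ 2 + β ^ 2 * ‖u (p.1, f p.1 + p.2)‖ ^ 2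
    simp only [e, inner_add_right, inner_smul_right, hh, hW]
    generalize inner ℝ (u (p.1, f p.1 + p.2)) (fderiv ℝ u (p.1, f p.1 + p.2) (0, 1)) = T at *
    have e2 : ∀ i, Y i p.1 * (2 * (inner ℝ (u (p.1, f p.1 + p.2))
        (fderiv ℝ u (p.1, f p.1 + p.2) (Pi.single i 1, 0)) + fderiv ℝ f p.1 (Pi.single i 1) * T)) +
        ‖u (p.1, f p.1 + p.2)‖ ^ 2 * fderiv ℝ (Y i) p.1 (Pi.single i 1) =
        (2 * Y i p.1 * inner ℝ (u (p.1, f p.1 + p.2)) (fderiv ℝ u (p.1, f p.1 + p.2) (Pi.single i 1, 0)) -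
          Y i p.1 ^ 2 * ‖u (p.1, f p.1 + p.2)‖ ^ 2) + (2 * T * (Y i p.1 * fderiv ℝ f p.1 (Pi.single i 1)) +
          ‖u (p.1, f p.1 + p.2)‖ ^ 2 * (fderiv ℝ (Y i) p.1 (Pi.single i 1) + Y i p.1 ^ 2)) := fun i => by ring
    simp only [e2]
    rw [Finset.sum_add_distrib, Finset.sum_add_distrib, ← Finset.mul_sum, ← Finset.mul_sum,
      Finset.sum_add_distrib]
    nlinarith

end Pool.Agent.H92.Robin
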