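import Mathlib

open Finset Real

namespace H92.SM

structure Des {P C : Type} [Fintype P] [Fintype C] (L : C → Finset P) (d D : ℝ) : Prop where
  d1 : 1 ≤ d
  D1 : 1 ≤ D
  card : ∀ c, ((L c).card : ℝ) = d
  deg : ∀ f : P → ℝ, ∑ c, ∑ i ∈ L c, f i = D * ∑ i, f i
  l2 : ∀ f : P → ℝ, ∑ c, (∑ i ∈ L c, f i - (∑ i, f i) / d) ^ 2 ≤ d * ∑ i, f i ^ 2
  cP : (Fintype.card P : ℝ) = d ^ 2
  cC : (Fintype.card C : ℝ) = d * D

lemma add3 {x y w ρ : ℝ} (hx : 0 ≤ x) (hy : 0 ≤ y) (hw : 0 ≤ w) (hρ : 0 ≤ ρ) :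
    (x + y + w) ^ ρ ≤ 3 ^ ρ * (x ^ ρ + y ^ ρ + w ^ ρ) := by
  have k (m : ℝ) (h0 : 0 ≤ m) (h : x + y + w ≤ 3 * m) (h' : m ^ ρ ≤ x ^ ρ + y ^ ρ + w ^ ρ) :
      (x + y + w) ^ ρ ≤ 3 ^ ρ * (x ^ ρ + y ^ ρ + w ^ ρ) :=
    (rpow_le_rpow (by positivity) h hρ).trans (by rw [mul_rpow (by norm_num) h0]; gcongr)
  have a := rpow_nonneg hx ρ
  have b := rpow_nonneg hy ρ
  have c := rpow_nonneg hw ρ
  rcases le_total x y with h1 | h1 <;> rcases le_total y w with h2 | h2 <;>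
    rcases le_total x w with h3 | h3
  all_goals first
    | exact k w hw (by linarith) (by linarith)
    | exact k y hy (by linarith) (by linarith)
    | exact k x hx (by linarith) (by linarith)

lemma young {z ρ t a b c : ℝ} (hz : 0 ≤ z) (h : ρ * t = 1) (t0 : 0 < t) (t1 : t ≤ 1)
    (e : t ^ 2 * a + 2 * t * (1 - t) * b + (1 - t) ^ 2 * c = 0) :
    z ≤ t ^ 2 * (exp a * z ^ ρ) + 2 * t * (1 - t) * (exp b * z ^ (ρ / 2)) + (1 - t) ^ 2 * exp c := by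
  have t2 := sub_nonneg.2 t1
  rcases hz.eq_or_lt with rfl | hz
  · positivity
  have := geom_mean_le_arith_mean3_weighted (w₁ := t ^ 2) (w₂ := 2 * t * (1 - t))
    (w₃ := (1 - t) ^ 2) (p₁ := exp a * z ^ ρ) (p₂ := exp b * z ^ (ρ / 2)) (p₃ := exp c)
    (by positivity) (by positivity) (by positivity) (by positivity) (by positivity)
    (by positivity) (by ring)
  refine le_trans (le_of_eq ?_) this
  simp only [rpow_def_of_pos hz, ← exp_add, ← exp_mul]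
  rw [← exp_log hz, log_exp]; congr 1
  linear_combination (-1) * e - log z * h

lemma line {ι : Type} (s : Finset ι) (z : ι → ℝ) (hz : ∀ i, 0 ≤ z i) {ρ d μ : ℝ} (hρ : 1 < ρ)
    (hd : 0 < d) (hs : (s.card : ℝ) = d) (hμ : 0 < μ) :
    (∑ i ∈ s, z i) ^ ρ ≤ d ^ (ρ - 1 - (1 - 1 / ρ)) * (μ ^ (1 - 1 / ρ) * ∑ i ∈ s, z i ^ ρ +
      μ ^ (1 - 1 / ρ - 1) * (∑ i ∈ s, z i ^ (ρ / 2)) ^ 2) := by
  set t := 1 / ρ with ht
  have h : ρ * t = 1 := by rw [ht]; field_simp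
  have t0 : 0 < t := by positivity
  have t1 : t < 1 := by rw [ht, div_lt_one (by linarith)]; exact hρ
  have a0 : 0 ≤ ∑ i ∈ s, z i ^ ρ := sum_nonneg fun i _ => rpow_nonneg (hz i) _
  have b0 : 0 ≤ ∑ i ∈ s, z i ^ (ρ / 2) := sum_nonneg fun i _ => rpow_nonneg (hz i) _
  rcases (sum_nonneg fun i (_ : i ∈ s) => hz i).eq_or_lt with h0 | h0
  · rw [← h0, zero_rpow (by linarith)]; positivity
  by_contra hc
  push Not at hc
  obtain ⟨x, hx⟩ : ∃ x, ∑ i ∈ s, z i = exp x := ⟨_, (exp_log h0).symm⟩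
  obtain ⟨y, rfl⟩ : ∃ y, d = exp y := ⟨_, (exp_log hd).symm⟩
  obtain ⟨m, rfl⟩ : ∃ m, μ = exp m := ⟨_, (exp_log hμ).symm⟩
  have k := sum_le_sum fun i (_ : i ∈ s) => young (a := x - (x * ρ - y * (ρ - 1 - (1 - t)) - m * (1 - t)))
    (b := x - (x * ρ - y * (ρ - 1 - (1 - t)) - m * (1 - t - 1)) / 2) (c := x - y) (hz i) h t0 t1.le
    (by linear_combination (y - x) * h)
  simp only [sum_add_distrib, ← mul_sum, sum_const, nsmul_eq_mul, hs] at k
  rw [hx] at k hc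
  simp only [← exp_mul] at hc
  set A := ∑ i ∈ s, z i ^ ρ
  set B := ∑ i ∈ s, z i ^ (ρ / 2)
  have a1 : exp (x - (x * ρ - y * (ρ - 1 - (1 - t)) - m * (1 - t))) * A < exp x := by
    have : exp (y * (ρ - 1 - (1 - t))) * (exp (m * (1 - t)) * A) < exp (x * ρ) :=
      lt_of_le_of_lt (by gcongr; exact le_add_of_nonneg_right (by positivity)) hc
    rw [← mul_assoc, ← exp_add, ← lt_div_iff₀' (exp_pos _), ← exp_sub] at this
    rw [← lt_div_iff₀' (exp_pos _), ← exp_sub]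
    convert this using 2; ring
  have a2 : exp (x - (x * ρ - y * (ρ - 1 - (1 - t)) - m * (1 - t - 1)) / 2) * B ≤ exp x := by
    have : exp (y * (ρ - 1 - (1 - t))) * (exp (m * (1 - t - 1)) * B ^ 2) ≤ exp (x * ρ) :=
      le_trans (by gcongr; exact le_add_of_nonneg_left (by positivity)) hc.le
    rw [← mul_assoc, ← exp_add, ← le_div_iff₀' (exp_pos _), ← exp_sub] at this
    rw [← le_div_iff₀' (exp_pos _), ← exp_sub]
    refine (pow_le_pow_iff_left₀ b0 (exp_pos _).le two_ne_zero).1 ?_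
    rw [← exp_nat_mul]
    convert this using 2; push_cast; ring
  have a3 : exp y * ((1 - t) ^ 2 * exp (x - y)) = (1 - t) ^ 2 * exp x := by
    rw [mul_left_comm, ← exp_add]; congr 2; ring
  have a4 := mul_lt_mul_of_pos_left a1 (pow_pos t0 2)
  have a5 := mul_le_mul_of_nonneg_left a2 (by have := sub_nonneg.2 t1.le; positivity :
    0 ≤ 2 * t * (1 - t))
  nlinarith

variable {P C : Type} [Fintype P] [Fintype C] {L : C → Finset P} {d D : ℝ}

lemma Des.sq (H : Des L d D) (f : P → ℝ) : ∑ c, (∑ i ∈ L c, f i) ^ 2 ≤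
    2 * (d * ∑ i, f i ^ 2) + 2 * (d * D * ((∑ i, f i) / d) ^ 2) := by
  have := sum_le_sum fun c (_ : c ∈ univ) => show (∑ i ∈ L c, f i) ^ 2 ≤
    2 * (∑ i ∈ L c, f i - (∑ i, f i) / d) ^ 2 + 2 * ((∑ i, f i) / d) ^ 2 by
      nlinarith [sq_nonneg (∑ i ∈ L c, f i - 2 * ((∑ i, f i) / d))]
  simp only [sum_add_distrib, ← mul_sum, sum_const, nsmul_eq_mul, card_univ, H.cC] at this
  linarith [H.l2 f]

lemma Des.big (H : Des L d D) {ρ v E τ : ℝ} (hρ : 1 < ρ) (v0 : 0 < v) (v1 : v ≤ 1)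
    (hv : 1 ≤ v ^ 8 * D) (z : P → ℝ) (hz : ∀ i, 0 ≤ z i) (hE : ∑ i, z i ^ ρ ≤ E) (τ0 : 0 < τ)
    (hτ : τ ^ ρ = E / (v * d ^ 2)) (hz' : ∀ i, z i = 0 ∨ τ ≤ z i) :
    ∑ c, (∑ i ∈ L c, z i) ^ ρ ≤ 5 * (v ^ (1 - 1 / ρ) * D * d ^ (ρ - 1) * E) := by
  have d0 : 0 < d := by linarith [H.d1]
  have D0 : 0 < D := by linarith [H.D1]
  have E0 : 0 ≤ E := le_trans (sum_nonneg fun i _ => rpow_nonneg (hz i) _) hE
  have μ0 : 0 < d * v := by positivity
  have k := sum_le_sum fun c (_ : c ∈ univ) => line (L c) z hz hρ d0 (H.card c) μ0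
  simp only [sum_add_distrib, ← mul_sum, H.deg] at k
  have sq (i) : (z i ^ (ρ / 2)) ^ 2 = z i ^ ρ := by
    rw [← rpow_natCast, ← rpow_mul (hz i)]; congr 1; push_cast; ring
  have b1 := H.sq fun i => z i ^ (ρ / 2)
  simp only [sq] at b1
  have t0 := rpow_pos_of_pos τ0 (ρ / 2)
  have t2 : (τ ^ (ρ / 2)) ^ 2 = τ ^ ρ := by
    rw [← rpow_natCast, ← rpow_mul τ0.le]; congr 1; push_cast; ring
  have b2 : τ ^ (ρ / 2) * ∑ i, z i ^ (ρ / 2) ≤ E := by
    rw [mul_sum]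
    refine le_trans (sum_le_sum fun i _ => ?_) hE
    rcases hz' i with h | h
    · rw [h, zero_rpow (by linarith), zero_rpow (by linarith), mul_zero]
    · rw [← sq i, _root_.sq]
      have := rpow_nonneg (hz i) (ρ / 2)
      gcongr
  have b0 : 0 ≤ ∑ i, z i ^ (ρ / 2) := sum_nonneg fun i _ => rpow_nonneg (hz i) _
  have b3 : ((∑ i, z i ^ (ρ / 2)) / d) ^ 2 ≤ E * v := by
    have := pow_le_pow_left₀ (by positivity) b2 2
    rw [mul_pow, t2, hτ] at this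
    have E1 : 0 < E := by
      have := rpow_pos_of_pos τ0 ρ
      rw [hτ] at this
      exact (div_pos_iff_of_pos_right (by positivity)).1 this
    rw [div_pow, div_le_iff₀ (by positivity)]
    rw [div_mul_eq_mul_div, div_le_iff₀ (by positivity)] at this
    refine le_of_mul_le_mul_left ?_ E1
    linarith
  have b4 : ∑ c, (∑ i ∈ L c, z i ^ (ρ / 2)) ^ 2 ≤ 4 * (d * v * (D * E)) := by
    have : v ^ 8 ≤ v := pow_le_of_le_one v0.le v1 (by norm_num)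
    have h1 : 1 ≤ v * D := hv.trans (by gcongr)
    have h2 : d * ∑ i, z i ^ ρ ≤ d * (v * D * E) := by
      gcongr; exact hE.trans (le_mul_of_one_le_left E0 h1)
    have h3 := mul_le_mul_of_nonneg_left b3 (by positivity : 0 ≤ d * D)
    linarith
  refine k.trans ?_
  have e1 : (d * v) ^ (1 - 1 / ρ - 1) * (d * v) = (d * v) ^ (1 - 1 / ρ) := by
    rw [rpow_sub_one μ0.ne']; field_simp
  have e2 : d ^ (ρ - 1 - (1 - 1 / ρ)) * (d * v) ^ (1 - 1 / ρ) = v ^ (1 - 1 / ρ) * d ^ (ρ - 1) := by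
    rw [mul_rpow d0.le v0.le, ← mul_assoc, ← rpow_add d0, mul_comm]; congr 2; ring
  calc _ ≤ d ^ (ρ - 1 - (1 - 1 / ρ)) * ((d * v) ^ (1 - 1 / ρ) * (D * E) +
        (d * v) ^ (1 - 1 / ρ - 1) * (4 * (d * v * (D * E)))) := by gcongr
    _ = d ^ (ρ - 1 - (1 - 1 / ρ)) * (d * v) ^ (1 - 1 / ρ) * (5 * (D * E)) := by
      rw [← e1]; ring
    _ = _ := by rw [e2]; ring

lemma Des.small (H : Des L d D) {ρ v τ : ℝ} (hρ : 1 < ρ) (v0 : 0 < v) (v1 : v ≤ 1)
    (hv : 1 ≤ v ^ 8 * D) (z : P → ℝ) (hz : ∀ i, 0 ≤ z i) (τ0 : 0 < τ) (hz' : ∀ i, z i ≤ τ) :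
    ∑ c, |∑ i ∈ L c, z i - (∑ i, z i) / d| ^ ρ ≤ 2 * ((d * τ) ^ ρ * (d * D * v ^ 2)) := by
  have d0 : 0 < d := by linarith [H.d1]
  have D0 : 0 < D := by linarith [H.D1]
  have M0 := rpow_pos_of_pos (mul_pos d0 τ0) ρ
  have k (c) : |∑ i ∈ L c, z i - (∑ i, z i) / d| ^ ρ ≤ (d * τ) ^ ρ * v ^ 2 +
      (d * τ) ^ ρ / (d * τ * v ^ 2) ^ 2 * (∑ i ∈ L c, z i - (∑ i, z i) / d) ^ 2 := by
    have h1 : |∑ i ∈ L c, z i - (∑ i, z i) / d| ≤ d * τ := by
      have a1 := sum_le_card_nsmul (L c) z τ fun i _ => hz' i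
      have a2 := sum_le_card_nsmul univ z τ fun i _ => hz' i
      rw [nsmul_eq_mul, H.card] at a1
      rw [nsmul_eq_mul, card_univ, H.cP] at a2
      have a3 : (∑ i, z i) / d ≤ d * τ := by rw [div_le_iff₀ d0]; linarith
      have a4 : 0 ≤ (∑ i, z i) / d := div_nonneg (sum_nonneg fun i _ => hz i) d0.le
      have a5 : 0 ≤ ∑ i ∈ L c, z i := sum_nonneg fun i _ => hz i
      exact abs_le.2 ⟨by linarith, by linarith⟩
    generalize ∑ i ∈ L c, z i - (∑ i, z i) / d = w at *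
    rcases le_total |w| (d * τ * v ^ 2) with h | h
    · refine le_add_of_le_of_nonneg ((rpow_le_rpow (abs_nonneg _) h (by linarith)).trans ?_)
        (by positivity)
      rw [mul_rpow (by positivity) (by positivity)]
      gcongr
      simpa using rpow_le_rpow_of_exponent_ge (by positivity) (pow_le_one₀ v0.le v1) hρ.le
    · refine le_add_of_nonneg_of_le (by positivity)
        ((rpow_le_rpow (abs_nonneg _) h1 (by linarith)).trans ?_)
      rw [div_mul_eq_mul_div, le_div_iff₀ (by positivity), ← sq_abs w]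
      gcongr
  have k2 := sum_le_sum fun c (_ : c ∈ univ) => k c
  simp only [sum_add_distrib, ← mul_sum, sum_const, nsmul_eq_mul, card_univ, H.cC] at k2
  have a1 : ∑ i, z i ^ 2 ≤ d ^ 2 * τ ^ 2 := by
    have := sum_le_card_nsmul univ (fun i => z i ^ 2) (τ ^ 2) fun i _ => by
      have := hz i; have := hz' i; gcongr
    rwa [nsmul_eq_mul, card_univ, H.cP] at this
  have a2 := (H.l2 z).trans (mul_le_mul_of_nonneg_left a1 d0.le)
  have a3 : (d * τ) ^ ρ / (d * τ * v ^ 2) ^ 2 * (d * (d ^ 2 * τ ^ 2)) ≤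
      (d * τ) ^ ρ * (d * D * v ^ 2) := by
    have : v ^ 8 ≤ v ^ 6 := pow_le_pow_of_le_one v0.le v1 (by norm_num)
    have h1 : 1 ≤ v ^ 6 * D := hv.trans (by gcongr)
    calc _ = (d * τ) ^ ρ * (d / v ^ 4 * 1) := by field_simp
      _ ≤ (d * τ) ^ ρ * (d / v ^ 4 * (v ^ 6 * D)) := by gcongr
      _ = _ := by field_simp
  have a4 := mul_le_mul_of_nonneg_left a2 (by positivity : 0 ≤ (d * τ) ^ ρ / (d * τ * v ^ 2) ^ 2)
  linarith

lemma Des.fluct (H : Des L d D) {ρ v : ℝ} (hρ : 1 < ρ) (v0 : 0 < v) (v1 : v ≤ 1)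
    (hv : 1 ≤ v ^ 8 * D) (z : P → ℝ) (hz : ∀ i, 0 ≤ z i) :
    ∑ c, (∑ i ∈ L c, z i) ^ ρ ≤ 3 ^ ρ * (d * D * ((∑ i, z i) / d) ^ ρ +
      7 * (v ^ (1 - 1 / ρ) * D * d ^ (ρ - 1) * ∑ i, z i ^ ρ)) := by
  have d0 : 0 < d := by linarith [H.d1]
  have D0 : 0 < D := by linarith [H.D1]
  have s0 : 0 ≤ ∑ i, z i := sum_nonneg fun i _ => hz i
  rcases (sum_nonneg fun i (_ : i ∈ univ) => rpow_nonneg (hz i) ρ).eq_or_lt with h0 | h0
  · have this (i : P) : z i = 0 := (rpow_eq_zero (hz i) (by linarith)).1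
      ((sum_eq_zero_iff_of_nonneg fun i _ => rpow_nonneg (hz i) ρ).1 h0.symm i (mem_univ i))
    simp [this, zero_rpow (show ρ ≠ 0 by linarith)]
  set E := ∑ i, z i ^ ρ
  set τ := (E / (v * d ^ 2)) ^ ρ⁻¹
  have τ0 : 0 < τ := by positivity
  have hτ : τ ^ ρ = E / (v * d ^ 2) := rpow_inv_rpow (by positivity) (by linarith)
  let a : P → ℝ := fun i => if z i ≤ τ then z i else 0
  let b : P → ℝ := fun i => if z i ≤ τ then 0 else z i
  have a0 (i) : 0 ≤ a i ∧ a i ≤ τ ∧ a i ≤ z i ∧ 0 ≤ b i ∧ b i ≤ z i ∧ z i = b i + a i ∧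
      (b i = 0 ∨ τ ≤ b i) := by
    have := hz i
    simp only [a, b]; split_ifs with h
    · simp [*]
    · simp [*, τ0.le, (not_le.1 h).le]
  have h1 := H.big hρ v0 v1 hv b (fun i => (a0 i).2.2.2.1) (E := E) (sum_le_sum fun i _ =>
    rpow_le_rpow (a0 i).2.2.2.1 (a0 i).2.2.2.2.1 (by linarith)) τ0 hτ fun i => (a0 i).2.2.2.2.2.2
  have h2 := H.small hρ v0 v1 hv a (fun i => (a0 i).1) τ0 fun i => (a0 i).2.1
  have k (c) : (∑ i ∈ L c, z i) ^ ρ ≤ 3 ^ ρ * ((∑ i ∈ L c, b i) ^ ρ +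
      |∑ i ∈ L c, a i - (∑ i, a i) / d| ^ ρ + ((∑ i, z i) / d) ^ ρ) := by
    refine le_trans (rpow_le_rpow (sum_nonneg fun i _ => hz i) ?_ (by linarith))
      (add3 (sum_nonneg fun i _ => (a0 i).2.2.2.1) (abs_nonneg _) (by positivity) (by linarith))
    have : (∑ i, a i) / d ≤ (∑ i, z i) / d := by gcongr with i; exact (a0 i).2.2.1
    rw [sum_congr rfl fun i _ => (a0 i).2.2.2.2.2.1, sum_add_distrib]
    linarith [le_abs_self (∑ i ∈ L c, a i - (∑ i, a i) / d)]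
  have k2 := sum_le_sum fun c (_ : c ∈ univ) => k c
  simp only [sum_add_distrib, ← mul_sum, sum_const, nsmul_eq_mul, card_univ, H.cC] at k2
  refine k2.trans (mul_le_mul_of_nonneg_left ?_ (by positivity))
  have : (d * τ) ^ ρ * (d * D * v ^ 2) ≤ v ^ (1 - 1 / ρ) * D * d ^ (ρ - 1) * E := by
    rw [mul_rpow d0.le τ0.le, hτ, rpow_sub_one d0.ne']
    have : v ≤ v ^ (1 - 1 / ρ) := by
      simpa using rpow_le_rpow_of_exponent_ge v0 v1 (show 1 - 1 / ρ ≤ 1 by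
        have : 0 < 1 / ρ := by positivity
        linarith)
    calc _ = v * D * (d ^ ρ / d) * E := by field_simp
      _ ≤ _ := by gcongr
  linarith

lemma Des.anorm (H : Des L d D) {r s F : ℝ} (hs : 2 ≤ s) (hr : s ≤ r) (hD : d * D ≤ d ^ (r / s))
    (ξ : P → ℝ) (hF : ∑ i, |ξ i| ^ s ≤ F) :
    ∑ c, |∑ i ∈ L c, ξ i| ^ r ≤ 2 * 3 ^ r * d ^ (r - r / s) * F ^ (r / s) := by
  have d0 : 0 < d := by linarith [H.d1]
  have D0 : 0 < D := by linarith [H.D1]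
  have s0 : 0 < s := by linarith
  have F0 : 0 ≤ F := le_trans (sum_nonneg fun i _ => by positivity) hF
  have σ1 : 1 ≤ r / s := (one_le_div s0).2 hr
  set ζ : P → ℝ := fun i => |ξ i| ^ (s / 2)
  have sq (i) : ζ i ^ 2 = |ξ i| ^ s := by
    rw [← rpow_natCast, ← rpow_mul (abs_nonneg _)]; congr 1; push_cast; ring
  have z0 : 0 ≤ (∑ i, ζ i) / d := div_nonneg (sum_nonneg fun i _ => by positivity) d0.le
  have l2 : ∑ c, (∑ i ∈ L c, ζ i - (∑ i, ζ i) / d) ^ 2 ≤ d * F :=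
    (H.l2 ζ).trans (by simp only [sq]; gcongr)
  have sσ {x : ℝ} (hx : 0 ≤ x) : x ^ (2 * (r / s)) = (x ^ 2) ^ (r / s) := by
    rw [rpow_mul hx, rpow_two]
  have k (c) : |∑ i ∈ L c, ξ i| ^ r ≤ d ^ (r - 2 * (r / s)) * (3 ^ r *
      ((∑ i ∈ L c, ζ i - (∑ i, ζ i) / d) ^ 2 * (d * F) ^ (r / s - 1) + F ^ (r / s))) := by
    have a1 := rpow_sum_le_const_mul_sum_rpow (L c) ξ (show 1 ≤ s / 2 by linarith)
    have a2 := rpow_le_rpow (by positivity) ((rpow_le_rpow (abs_nonneg _)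
      (abs_sum_le_sum_abs ξ (L c)) (by positivity)).trans a1) (show 0 ≤ 2 * (r / s) by positivity)
    rw [← rpow_mul (abs_nonneg _), mul_rpow (by positivity) (by positivity), H.card,
      ← rpow_mul d0.le, show s / 2 * (2 * (r / s)) = r by field_simp,
      show (s / 2 - 1) * (2 * (r / s)) = r - 2 * (r / s) by field_simp] at a2
    refine a2.trans (mul_le_mul_of_nonneg_left ?_ (by positivity))
    have a3 := add3 (abs_nonneg (∑ i ∈ L c, ζ i - (∑ i, ζ i) / d)) z0 le_rfl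
      (show 0 ≤ 2 * (r / s) by positivity)
    rw [zero_rpow (by positivity), add_zero, add_zero] at a3
    refine le_trans (rpow_le_rpow (by positivity) (by
      linarith [le_abs_self (∑ i ∈ L c, ζ i - (∑ i, ζ i) / d)]) (by positivity)) (a3.trans ?_)
    have a4 : 2 * (r / s) ≤ r := by rw [← mul_div_assoc, div_le_iff₀ s0]; nlinarith
    gcongr
    · norm_num
    · rw [sσ (abs_nonneg _), sq_abs]
      have := (single_le_sum (f := fun c => (∑ i ∈ L c, ζ i - (∑ i, ζ i) / d) ^ 2)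
        (fun _ _ => sq_nonneg _) (mem_univ c)).trans l2
      generalize (∑ i ∈ L c, ζ i - (∑ i, ζ i) / d) = w at *
      calc (w ^ 2) ^ (r / s) = w ^ 2 * (w ^ 2) ^ (r / s - 1) := by
            rw [← rpow_one_add' (sq_nonneg _) (by linarith)]; congr 1; ring
        _ ≤ _ := by gcongr
    · rw [sσ z0]
      gcongr
      have := sq_sum_le_card_mul_sum_sq (s := univ) (f := ζ)
      rw [card_univ, H.cP] at this
      rw [div_pow, div_le_iff₀' (by positivity)]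
      exact this.trans (by simp only [sq]; gcongr)
  have k2 := sum_le_sum fun c (_ : c ∈ univ) => k c
  simp only [sum_add_distrib, ← mul_sum, ← sum_mul, sum_const, nsmul_eq_mul, card_univ, H.cC] at k2
  refine k2.trans ?_
  have e1 : d * F * (d * F) ^ (r / s - 1) = d ^ (r / s) * F ^ (r / s) := by
    rw [← rpow_one_add' (by positivity) (by linarith), ← mul_rpow d0.le F0]; congr 1; ring
  calc _ ≤ d ^ (r - 2 * (r / s)) * (3 ^ r * (d * F * (d * F) ^ (r / s - 1) +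
      d ^ (r / s) * F ^ (r / s))) := by gcongr
    _ = 2 * 3 ^ r * (d ^ (r - 2 * (r / s)) * d ^ (r / s)) * F ^ (r / s) := by rw [e1]; ring
    _ = _ := by rw [← rpow_add d0]; congr 3; ring

end H92.SM
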