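import Mathlib
import Pool.Agent.H92.SM1

open Finset Real

namespace H92.SM

def sg (b : Bool) : ℝ := if b then 1 else -1

lemma abs_sg (b : Bool) : |sg b| = 1 := by cases b <;> simp [sg]

variable {P : Type} [Fintype P] [DecidableEq P]

lemma khin_up {r : ℝ} (hr : 0 < r) : ∃ K > 0, ∀ (P : Type) [Fintype P] [DecidableEq P]
    (s : Finset P) (a : P → ℝ), ∑ ε : P → Bool, |∑ i ∈ s, sg (ε i) * a i| ^ r ≤
      K * Fintype.card (P → Bool) * (∑ i ∈ s, a i ^ 2) ^ (r / 2) := by
  refine ⟨(1 + (⌈r⌉₊).factorial) * (2 * exp (1 / 2)), by positivity, fun P _ _ s a => ?_⟩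
  rcases (sum_nonneg fun i (_ : i ∈ s) => sq_nonneg (a i)).eq_or_lt with h0 | h0
  · have this (i : P) (hi : i ∈ s) : a i = 0 := pow_eq_zero_iff two_ne_zero |>.1
      ((sum_eq_zero_iff_of_nonneg fun i _ => sq_nonneg (a i)).1 h0.symm i hi)
    rw [sum_eq_zero fun ε _ => by
      rw [sum_eq_zero fun i hi => by rw [this i hi, mul_zero], abs_zero, zero_rpow hr.ne']]
    positivity
  set σ := √(∑ i ∈ s, a i ^ 2)
  have σ0 : 0 < σ := sqrt_pos.2 h0
  have σ2 : σ ^ 2 = ∑ i ∈ s, a i ^ 2 := sq_sqrt h0.le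
  have mgf (t : ℝ) (ht : t ^ 2 = 1) : ∑ ε : P → Bool, exp (t * ((∑ i ∈ s, sg (ε i) * a i) / σ)) ≤
      Fintype.card (P → Bool) * exp (1 / 2) := by
    let g : P → Bool → ℝ := fun i b => exp (if i ∈ s then t * (sg b * a i / σ) else 0)
    have e (ε : P → Bool) : exp (t * ((∑ i ∈ s, sg (ε i) * a i) / σ)) = ∏ i, g i (ε i) := by
      rw [← exp_sum, sum_ite_mem, univ_inter, ← mul_sum, ← sum_div]
    simp only [e]
    rw [← Fintype.piFinset_univ, ← prod_univ_sum]
    have : ∏ i, ∑ b, g i b ≤ ∏ i, 2 * exp (if i ∈ s then a i ^ 2 / σ ^ 2 / 2 else 0) := by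
      refine prod_le_prod (fun i _ => by positivity) fun i _ => ?_
      simp only [g, Fintype.sum_bool, sg, if_true, Bool.false_eq_true, if_false]
      split_ifs with h
      · have := cosh_le_exp_half_sq (t * (a i / σ))
        rw [cosh_eq, mul_pow, ht, one_mul, div_pow] at this
        simp only [one_mul, neg_mul, neg_div, mul_neg]
        linarith
      · simp; norm_num
    refine this.trans (le_of_eq ?_)
    rw [prod_mul_distrib, ← exp_sum, sum_ite_mem, univ_inter, ← sum_div, ← sum_div, ← σ2,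
      div_self (by positivity)]
    simp
  have k (y : ℝ) : |y| ^ r ≤ (1 + (⌈r⌉₊).factorial) * (exp (1 * y) + exp (-1 * y)) := by
    have h1 : exp |y| ≤ exp (1 * y) + exp (-1 * y) := by
      cases abs_cases y <;> simp only [*, one_mul, neg_mul] <;> linarith [exp_pos y, exp_pos (-y)]
    refine le_trans ?_ (mul_le_mul_of_nonneg_left h1 (by positivity))
    have h2 := pow_div_factorial_le_exp _ (abs_nonneg y) ⌈r⌉₊
    rw [div_le_iff₀' (by positivity)] at h2
    have h3 := one_le_exp (abs_nonneg y)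
    rcases le_total |y| 1 with h | h
    · have := rpow_le_one (abs_nonneg y) h hr.le
      have := pow_nonneg (abs_nonneg y) ⌈r⌉₊
      linarith
    · have := rpow_le_rpow_of_exponent_le h (Nat.le_ceil r)
      rw [rpow_natCast] at this
      linarith
  have k2 := sum_le_sum fun (ε : P → Bool) (_ : ε ∈ univ) => k ((∑ i ∈ s, sg (ε i) * a i) / σ)
  simp only [sum_add_distrib, ← mul_sum, abs_div, abs_of_pos σ0,
    div_rpow (abs_nonneg _) σ0.le, ← sum_div] at k2
  rw [div_le_iff₀ (by positivity)] at k2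
  refine k2.trans ?_
  rw [← σ2, ← rpow_natCast, ← rpow_mul σ0.le, show ((2 : ℕ) : ℝ) * (r / 2) = r by push_cast; ring]
  gcongr ?_ * _
  have := add_le_add (mgf 1 (by norm_num)) (mgf (-1) (by norm_num))
  calc _ ≤ (1 + (⌈r⌉₊).factorial : ℝ) * (Fintype.card (P → Bool) * exp (1 / 2) +
      Fintype.card (P → Bool) * exp (1 / 2)) := by gcongr
    _ = _ := by ring

lemma khin_two (a : P → ℝ) : ∑ ε : P → Bool, (∑ i, sg (ε i) * a i) ^ 2 =
    Fintype.card (P → Bool) * ∑ i, a i ^ 2 := by
  have o (i j : P) : ∑ ε : P → Bool, sg (ε i) * sg (ε j) =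
      if i = j then (Fintype.card (P → Bool) : ℝ) else 0 := by
    split_ifs with h
    · rw [sum_congr rfl (g := fun _ => 1) fun ε _ => by rw [h]; cases ε j <;> simp [sg]]
      simp
    · let e : Equiv.Perm (P → Bool) := Function.Involutive.toPerm
        (fun ε => Function.update ε i (!ε i)) fun ε => by simp
      have := Equiv.sum_comp e fun ε : P → Bool => sg (ε i) * sg (ε j)
      rw [sum_congr rfl (g := fun ε : P → Bool => -(sg (ε i) * sg (ε j))) fun ε _ => by
        simp only [e, Function.Involutive.coe_toPerm, Function.update_self,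
          Function.update_of_ne (Ne.symm h)]
        cases ε i <;> cases ε j <;> simp [sg], sum_neg_distrib] at this
      linarith
  simp only [_root_.sq, sum_mul_sum]
  rw [sum_comm, mul_sum]
  refine sum_congr rfl fun i _ => ?_
  rw [sum_comm, sum_congr rfl (g := fun j => a i * a j * ∑ ε : P → Bool, sg (ε i) * sg (ε j))
    fun j _ => by rw [mul_sum]; exact sum_congr rfl fun _ _ => by ring]
  simp [o, mul_comm]

lemma khin_low {r : ℝ} (hr : 2 ≤ r) (a : P → ℝ) : Fintype.card (P → Bool) *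
    (∑ i, a i ^ 2) ^ (r / 2) ≤ ∑ ε : P → Bool, |∑ i, sg (ε i) * a i| ^ r := by
  have N0 : (0 : ℝ) < Fintype.card (P → Bool) := by exact_mod_cast Fintype.card_pos
  have := rpow_sum_le_const_mul_sum_rpow_of_nonneg (univ : Finset (P → Bool))
    (f := fun ε => (∑ i, sg (ε i) * a i) ^ 2) (show 1 ≤ r / 2 by linarith) fun _ _ => sq_nonneg _
  rw [khin_two, mul_rpow N0.le (sum_nonneg fun _ _ => sq_nonneg _), card_univ,
    rpow_sub_one N0.ne', div_mul_eq_mul_div, le_div_iff₀ N0, mul_assoc,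
    mul_le_mul_iff_right₀ (rpow_pos_of_pos N0 _), mul_comm] at this
  refine this.trans (le_of_eq (sum_congr rfl fun ε _ => ?_))
  rw [← sq_abs, ← rpow_natCast, ← rpow_mul (abs_nonneg _)]; congr 1; push_cast; ring

section
variable (d : ℕ) [Fact d.Prime]

def ln (s b : ZMod d) : Finset (ZMod d × ZMod d) := univ.filter fun i => i.2 - s * i.1 = b

lemma ln_sum (s : ZMod d) (f : ZMod d × ZMod d → ℝ) : ∑ b, ∑ i ∈ ln d s b, f i = ∑ i, f i :=
  sum_fiberwise univ (fun i : ZMod d × ZMod d => i.2 - s * i.1) f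

lemma ln_l2 (f : ZMod d × ZMod d → ℝ) :
    ∑ s, ∑ b, (∑ i ∈ ln d s b, f i - (∑ i, f i) / d) ^ 2 ≤ d * ∑ i, f i ^ 2 := by
  have d0 : (0 : ℝ) < d := by exact_mod_cast (Fact.out : d.Prime).pos
  have e1 (g : ZMod d × ZMod d → ZMod d) : ∑ b, (∑ i ∈ univ.filter (g · = b), f i) ^ 2 =
      ∑ i, ∑ j, if g i = g j then f i * f j else 0 := by
    rw [← sum_fiberwise univ g fun i => ∑ j, if g i = g j then f i * f j else 0]
    refine sum_congr rfl fun b _ => ?_
    rw [_root_.sq, sum_mul_sum]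
    refine sum_congr rfl fun i hi => ?_
    rw [(mem_filter.1 hi).2, sum_filter]
    exact sum_congr rfl fun j _ => by simp only [eq_comm]
  have e2 (i j : ZMod d × ZMod d) : ∑ s : ZMod d, (if i.2 - s * i.1 = j.2 - s * j.1 then f i * f j
      else 0) = (if i = j then d * (f i * f j) else 0) + f i * f j -
        if i.1 = j.1 then f i * f j else 0 := by
    by_cases h : i.1 = j.1
    · by_cases h2 : i = j
      · simp [h2, ZMod.card]
      · have : i.2 ≠ j.2 := fun h3 => h2 (Prod.ext h h3)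
        simp [h, h2, this]
    · have h2 : i ≠ j := fun h3 => h (by rw [h3])
      have h3 := sub_ne_zero.2 h
      rw [sum_eq_single ((i.2 - j.2) / (i.1 - j.1)) (fun s _ hs => if_neg fun h4 => hs (by
        field_simp; linear_combination -h4)) (by simp), if_pos (by field_simp; ring)]
      simp [h, h2]
  have e3 : ∑ s, ∑ b, (∑ i ∈ ln d s b, f i) ^ 2 ≤ d * ∑ i, f i ^ 2 + (∑ i, f i) ^ 2 := by
    simp only [ln, e1]
    rw [sum_comm, sum_congr rfl fun i _ => sum_comm]
    simp only [e2, sum_sub_distrib, sum_add_distrib, ← e1 Prod.fst, sum_ite_eq, mem_univ, if_true,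
      ← mul_sum, ← sum_mul, ← _root_.sq]
    exact sub_le_self _ (by positivity)
  simp only [sub_sq, sum_add_distrib, sum_sub_distrib, ← sum_mul, ← mul_sum, ln_sum, sum_const,
    card_univ, ZMod.card, nsmul_eq_mul]
  have : d * (2 * ∑ i, f i) * ((∑ i, f i) / d) = 2 * (∑ i, f i) ^ 2 := by field_simp
  have : d * (d * ((∑ i, f i) / d) ^ 2) = (∑ i, f i) ^ 2 := by field_simp
  linarith

lemma exists_des (D : ℕ) (D1 : 1 ≤ D) (hD : D ≤ d) : ∃ (P C : Type) (_ : Fintype P)
    (_ : DecidableEq P) (_ : Fintype C) (L : C → Finset P), Des L d D := by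
  obtain ⟨S, -, hS⟩ := exists_subset_card_eq (s := (univ : Finset (ZMod d))) (n := D)
    (by simpa [ZMod.card] using hD)
  refine ⟨ZMod d × ZMod d, S × ZMod d, inferInstance, inferInstance, inferInstance,
    fun c => ln d c.1 c.2, by exact_mod_cast (Fact.out : d.Prime).one_le, by exact_mod_cast D1,
    fun c => ?_, fun f => ?_, fun f => ?_, by simp [ZMod.card, _root_.sq],
    by simp [ZMod.card, hS, mul_comm]⟩
  · have : ln d c.1 c.2 = univ.map ⟨fun x => (x, c.2 + c.1 * x), fun x y h => congrArg Prod.fst h⟩ := by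
      ext ⟨x, y⟩; simp [ln, eq_sub_iff_add_eq, eq_comm]
    simp [this, ZMod.card]
  · simp [Fintype.sum_prod_type, ln_sum, hS]
  · rw [Fintype.sum_prod_type]
    refine le_trans ?_ (ln_l2 d f)
    rw [sum_coe_sort S fun s => ∑ b, (∑ i ∈ ln d s b, f i - (∑ i, f i) / d) ^ 2]
    exact sum_le_sum_of_subset_of_nonneg (subset_univ _) fun _ _ _ => by positivity

end

end H92.SM
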