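import Mathlib

open Finset Real MeasureTheory
open scoped ENNReal Function

namespace H92.SM

noncomputable abbrev μ0 : Measure ℝ := volume.restrict (Set.Icc 0 1)

structure Pt {ι : Type} [Fintype ι] (I : ι → Set ℝ) : Prop where
  meas : ∀ i, MeasurableSet (I i)
  disj : Pairwise (Disjoint on I)
  vol : ∀ i, μ0.real (I i) = (Fintype.card ι : ℝ)⁻¹

lemma exists_pt (ι : Type) [Fintype ι] : ∃ I : ι → Set ℝ, Pt I := by
  let e := Fintype.equivFin ι
  set N : ℝ := (Fintype.card ι : ℝ)
  have N0 (i : ι) : 0 < N := by have := (e i).pos; positivity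
  refine ⟨fun i => Set.Ico ((e i : ℕ) / N) (((e i : ℕ) + 1) / N), fun _ => measurableSet_Ico,
    fun i j h => ?_, fun i => ?_⟩
  · have k (i j : ι) (h : (e i : ℕ) < e j) : Disjoint (Set.Ico ((e i : ℕ) / N) (((e i : ℕ) + 1) / N))
        (Set.Ico ((e j : ℕ) / N) (((e j : ℕ) + 1) / N)) := by
      have : ((e i : ℕ) + 1 : ℝ) / N ≤ (e j : ℕ) / N := by
        have := N0 i; gcongr; exact_mod_cast h
      exact Set.disjoint_left.2 fun x h1 h2 => by linarith [h1.2, h2.1]
    rcases lt_or_gt_of_ne (fun h' => h (e.injective (Fin.ext h'))) with h1 | h1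
    · exact k i j h1
    · exact (k j i h1).symm
  · have := N0 i
    rw [Measure.real, Measure.restrict_apply measurableSet_Ico, Set.inter_eq_left.2, volume_Ico,
      ENNReal.toReal_ofReal (by rw [sub_nonneg]; gcongr; linarith)]
    · change _ = N⁻¹; field_simp; ring
    · refine fun x hx => ⟨le_trans (by positivity) hx.1, hx.2.le.trans ?_⟩
      rw [div_le_one this]; simp only [N]; exact_mod_cast (e i).2

variable {ι : Type} [Fintype ι] {I : ι → Set ℝ} (H : Pt I) (p : ℝ≥0∞) [Fact (1 ≤ p)]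

noncomputable def F (I : ι → Set ℝ) (c : ι → ℝ) (x : ℝ) : ℝ := ∑ i, (I i).indicator (fun _ => c i) x

include H in
lemma F_mem (c : ι → ℝ) {x i} (hx : x ∈ I i) : F I c x = c i := by
  rw [F, sum_eq_single i (fun j _ h => Set.indicator_of_notMem
    (fun h' => Set.disjoint_left.1 (H.disj h) h' hx) _) (by simp), Set.indicator_of_mem hx]

include H in
lemma F_map (c : ι → ℝ) (g : ℝ → ℝ) (hg : g 0 = 0) (x) : g (F I c x) = F I (fun i => g (c i)) x := by
  by_cases h : ∃ i, x ∈ I i
  · obtain ⟨i, hi⟩ := h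
    rw [F_mem H _ hi, F_mem H _ hi]
  · push Not at h
    simp [F, h, hg]

noncomputable def St : (ι → ℝ) →ₗ[ℝ] Lp ℝ p μ0 :=
  ∑ i, (LinearMap.proj i).smulRight (indicatorConstLp p (H.meas i) (measure_ne_top _ _) (1 : ℝ))

lemma St_ae (c : ι → ℝ) : St H p c =ᵐ[μ0] F I c := by
  simp only [St, LinearMap.coe_sum, Finset.sum_apply, LinearMap.smulRight_apply, LinearMap.proj_apply]
  refine (Lp.coeFn_fun_finsetSum _ _).trans ?_
  have (i : ι) : ∀ᵐ x ∂μ0, (c i • indicatorConstLp p (H.meas i) (measure_ne_top μ0 _) (1 : ℝ)) x =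
      (I i).indicator (fun _ => c i) x := by
    filter_upwards [Lp.coeFn_smul (c i) (indicatorConstLp p (H.meas i) (measure_ne_top μ0 _) (1 : ℝ)),
      indicatorConstLp_coeFn (p := p) (hs := H.meas i) (hμs := measure_ne_top μ0 _) (c := (1 : ℝ))]
      with x h1 h2
    rw [h1, Pi.smul_apply, h2]
    by_cases h : x ∈ I i <;> simp [h]
  filter_upwards [ae_all_iff.2 this] with x hx
  exact sum_congr rfl fun i _ => hx i

lemma St_norm (hp : p ≠ ∞) (c : ι → ℝ) :
    ‖St H p c‖ = ((∑ i, |c i| ^ p.toReal) / Fintype.card ι) ^ p.toReal⁻¹ := by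
  have p0 : p ≠ 0 := (zero_lt_one.trans_le (Fact.out : 1 ≤ p)).ne'
  rw [Lp.norm_def, toReal_eLpNorm (Lp.aestronglyMeasurable _),
    lpNorm_eq_integral_norm_rpow_toReal p0 hp (Lp.aestronglyMeasurable _),
    integral_congr_ae (g := F I fun i => |c i| ^ p.toReal)]
  · unfold F
    rw [integral_finsetSum _ fun i _ => (integrable_const _).indicator (H.meas i)]
    simp only [integral_indicator_const _ (H.meas _), H.vol, smul_eq_mul, ← mul_sum]
    rw [div_eq_inv_mul]
  · filter_upwards [St_ae H p c] with x hx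
    rw [hx, ← F_map H c (fun y => |y| ^ p.toReal)
      (by simp [zero_rpow (ENNReal.toReal_pos p0 hp).ne']), norm_eq_abs]

lemma St_mono {c c' : ι → ℝ} (h : c ≤ c') : St H p c ≤ St H p c' := by
  rw [← Lp.coeFn_le]
  filter_upwards [St_ae H p c, St_ae H p c'] with x h1 h2
  rw [h1, h2]
  exact sum_le_sum fun i _ => Set.indicator_le_indicator (h i)

lemma St_abs (c : ι → ℝ) : |St H p c| = St H p fun i => |c i| := by
  refine Lp.ext ?_
  filter_upwards [St_ae H p c, St_ae H p fun i => |c i|, Lp.coeFn_abs (St H p c)] with x h1 h2 h3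
  rw [h3, h1, h2, F_map H c _ abs_zero]

lemma int_le (A : Set ℝ) (f : Lp ℝ p μ0) :
    ∫ x in A, |f x| ∂μ0 ≤ μ0.real A ^ (1 - 1 / p.toReal) * ‖f‖ := by
  have hf : AEStronglyMeasurable f (μ0.restrict A) := (Lp.aestronglyMeasurable f).restrict
  have h := (eLpNorm_le_eLpNorm_mul_rpow_measure_univ (Fact.out : 1 ≤ p) hf).trans
    (mul_le_mul_left (eLpNorm_mono_measure f Measure.restrict_le_self) _)
  have e : 0 ≤ 1 - 1 / p.toReal := by
    rcases eq_or_ne p ∞ with rfl | hp
    · simp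
    · have := ENNReal.toReal_mono hp (Fact.out : 1 ≤ p)
      rw [sub_nonneg, div_le_one (by simp at this; linarith)]; simpa using this
  rw [ENNReal.toReal_one, div_one, Measure.restrict_apply_univ] at h
  have := ENNReal.toReal_mono (ENNReal.mul_ne_top (Lp.eLpNorm_ne_top f)
    (ENNReal.rpow_ne_top_of_nonneg e (measure_ne_top _ _))) h
  rw [toReal_eLpNorm hf, lpNorm_one_eq_integral_norm hf, ENNReal.toReal_mul, ← Lp.norm_def,
    ← ENNReal.toReal_rpow, mul_comm] at this
  exact this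

lemma intg (f : Lp ℝ p μ0) : Integrable f μ0 := (Lp.memLp f).integrable Fact.out

noncomputable def φ (A : Set ℝ) : Lp ℝ p μ0 →L[ℝ] ℝ :=
  LinearMap.mkContinuous ⟨⟨fun f => ∫ x in A, f x ∂μ0, fun f g => by
    rw [← integral_add (intg p f).restrict (intg p g).restrict]
    exact integral_congr_ae (ae_restrict_of_ae (Lp.coeFn_add f g))⟩, fun c f => by
    rw [RingHom.id_apply, ← integral_smul]
    exact integral_congr_ae (ae_restrict_of_ae (Lp.coeFn_smul c f))⟩
    (μ0.real A ^ (1 - 1 / p.toReal)) fun f => abs_integral_le_integral_abs.trans (int_le p A f)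

lemma φ_apply (A : Set ℝ) (f : Lp ℝ p μ0) : φ p A f = ∫ x in A, f x ∂μ0 := rfl

lemma φ_norm (A : Set ℝ) : ‖φ p A‖ ≤ μ0.real A ^ (1 - 1 / p.toReal) :=
  LinearMap.mkContinuous_norm_le _ (by positivity) _

include H in
lemma φ_sum (f : Lp ℝ p μ0) : ∑ i, |φ p (I i) f| ≤ ‖f‖ := by
  have h1 := int_le p Set.univ f
  rw [Measure.restrict_univ, show μ0.real Set.univ = 1 by simp [Measure.real], one_rpow,
    one_mul] at h1
  refine (sum_le_sum fun i _ => abs_integral_le_integral_abs).trans (le_trans ?_ h1)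
  rw [← integral_iUnion_fintype H.meas H.disj fun i => (intg p f).abs.integrableOn]
  exact setIntegral_le_integral (intg p f).abs (Filter.Eventually.of_forall fun _ => abs_nonneg _)

lemma φ_St (c : ι → ℝ) (i : ι) : φ p (I i) (St H p c) = c i / Fintype.card ι := by
  rw [φ_apply, integral_congr_ae (ae_restrict_of_ae (St_ae H p c)),
    setIntegral_congr_fun (H.meas i) (g := fun _ => c i) fun x hx => F_mem H c hx,
    setIntegral_const, H.vol, smul_eq_mul, div_eq_inv_mul]

end H92.SM
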