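import Mathlib
import Pool.Agent.H92.SM2
import Pool.Agent.H92.SM3

open Finset Real MeasureTheory
open scoped ENNReal Function

namespace H92.SM

variable {P C : Type} [Fintype P] [DecidableEq P] [Fintype C] {L : C → Finset P} {d D : ℝ}
  (H : Des L d D) {I : P → Set ℝ} (hI : Pt I) {J : C × (P → Bool) → Set ℝ} (hJ : Pt J)
  (p q : ℝ≥0∞) [Fact (1 ≤ p)] [Fact (1 ≤ q)]

def col (L : C → Finset P) (i : P) (j : C × (P → Bool)) : ℝ := if i ∈ L j.1 then sg (j.2 i) else 0

noncomputable def UU (L : C → Finset P) (I : P → Set ℝ) : Lp ℝ p μ0 →L[ℝ] Lp ℝ q μ0 :=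
  ∑ i, (φ p (I i)).smulRight (St hJ q (col L i))

lemma UU_apply (f : Lp ℝ p μ0) : UU hJ p q L I f =
    St hJ q fun j => ∑ i ∈ L j.1, sg (j.2 i) * φ p (I i) f := by
  simp only [UU, _root_.sum_apply, ContinuousLinearMap.smulRight_apply, ← map_smul,
    ← map_sum]
  congr 1; ext j
  simp [col, mul_comm]

include H hI in
lemma upper {r v K : ℝ} (hr : 2 < r) (hq : q ≠ ∞) (hqr : q.toReal ≤ r) (v0 : 0 < v) (v1 : v ≤ 1)
    (hv : 1 ≤ v ^ 8 * D) (K0 : 0 < K) (hK : ∀ (s : Finset P) (a : P → ℝ),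
      ∑ ε : P → Bool, |∑ i ∈ s, sg (ε i) * a i| ^ r ≤
      K * Fintype.card (P → Bool) * (∑ i ∈ s, a i ^ 2) ^ (r / 2)) {κ : Type} [Fintype κ]
    (f : κ → Lp ℝ p μ0) {w : ℝ}
    (hw : ∀ ψ : StrongDual ℝ (Lp ℝ p μ0), ‖ψ‖ ≤ 1 → ∑ k, |ψ (f k)| ^ r ≤ w) :
    ∑ k, ‖UU hJ p q L I (f k)‖ ^ r ≤ K * 3 ^ (r / 2) * (d ^ (-(r / 2)) +
      7 * v ^ (1 - 1 / (r / 2)) * d ^ (r / 2 - 2 * (r * (1 - 1 / p.toReal)))) * w := by
  have d0 : 0 < d := by linarith [H.d1]
  have D0 : 0 < D := by linarith [H.D1]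
  have N0 : (0 : ℝ) < Fintype.card (P → Bool) := by exact_mod_cast Fintype.card_pos
  have q0 : 0 < q.toReal := ENNReal.toReal_pos (zero_lt_one.trans_le (Fact.out : 1 ≤ q)).ne' hq
  have w0 : 0 ≤ w := le_trans (sum_nonneg fun _ _ => by positivity) (hw 0 (by simp))
  let x : κ → P → ℝ := fun k i => φ p (I i) (f k)
  have a1 (k) : ‖UU hJ p q L I (f k)‖ ^ r ≤ K / (d * D) * ∑ c, (∑ i ∈ L c, x k i ^ 2) ^ (r / 2) := by
    have M : (Fintype.card (C × (P → Bool)) : ℝ) = d * D * Fintype.card (P → Bool) := by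
      rw [Fintype.card_prod, Nat.cast_mul, H.cC]
    rw [UU_apply, St_norm _ _ hq, ← rpow_mul (by positivity), inv_mul_eq_div,
      div_rpow (by positivity) (by positivity), div_le_iff₀ (by rw [M]; positivity)]
    refine (rpow_sum_le_const_mul_sum_rpow_of_nonneg _ ((one_le_div q0).2 hqr)
      fun _ _ => by positivity).trans ?_
    simp only [← rpow_mul (abs_nonneg _), mul_div_cancel₀ r q0.ne']
    rw [card_univ, rpow_sub_one (by rw [M]; positivity), Fintype.sum_prod_type, mul_comm,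
      mul_div_left_comm, mul_comm]
    gcongr ?_ * _
    rw [M, div_le_iff₀ (by positivity)]
    refine (sum_le_sum fun c _ => hK (L c) (x k)).trans (le_of_eq ?_)
    rw [← mul_sum]; field_simp
  have a2 : ∑ k, (∑ i, x k i ^ 2) ^ (r / 2) ≤ w := by
    refine le_of_mul_le_mul_left ?_ N0
    rw [mul_sum]
    refine (sum_le_sum fun k _ => khin_low hr.le (x k)).trans ?_
    rw [sum_comm, ← nsmul_eq_mul, ← card_univ]
    refine sum_le_card_nsmul _ _ _ fun ε _ => ?_
    have := hw (∑ i, sg (ε i) • φ p (I i)) (ContinuousLinearMap.opNorm_le_bound _ zero_le_one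
      fun g => by
        simp only [_root_.sum_apply, _root_.smul_apply, smul_eq_mul,
          norm_eq_abs, one_mul]
        refine (abs_sum_le_sum_abs _ _).trans ?_
        simpa only [abs_mul, abs_sg, one_mul] using φ_sum hI p g)
    simpa only [_root_.sum_apply, _root_.smul_apply, smul_eq_mul]
  have a3 (i) : ∑ k, (x k i ^ 2) ^ (r / 2) ≤ d ^ (-(2 * (r * (1 - 1 / p.toReal)))) * w := by
    have h := φ_norm p (I i)
    rw [hI.vol, H.cP] at h
    set t := (d ^ 2)⁻¹ ^ (1 - 1 / p.toReal) with ht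
    have t0 : 0 < t := by positivity
    have := hw (t⁻¹ • φ p (I i)) (by
      rw [norm_smul, norm_of_nonneg (by positivity), inv_mul_le_iff₀ t0]; simpa using h)
    simp only [_root_.smul_apply, smul_eq_mul, abs_mul, abs_of_pos (inv_pos.2 t0),
      mul_rpow (inv_pos.2 t0).le (abs_nonneg _), ← mul_sum, inv_rpow t0.le] at this
    rw [inv_mul_le_iff₀ (by positivity), ht, ← rpow_two, ← rpow_neg d0.le, ← rpow_mul d0.le,
      ← rpow_mul d0.le] at this
    refine le_trans (le_of_eq (sum_congr rfl fun k _ => ?_)) (this.trans_eq (by congr 2; ring))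
    rw [← sq_abs, ← rpow_natCast, ← rpow_mul (abs_nonneg _)]; congr 1; push_cast; ring
  have a4 : ∑ k, ∑ i, (x k i ^ 2) ^ (r / 2) ≤
      d ^ 2 * (d ^ (-(2 * (r * (1 - 1 / p.toReal)))) * w) := by
    rw [sum_comm, ← H.cP, ← nsmul_eq_mul, ← card_univ]
    exact sum_le_card_nsmul _ _ _ fun i _ => a3 i
  have a5 := sum_le_sum fun k (_ : k ∈ univ) => (a1 k).trans (mul_le_mul_of_nonneg_left
    (H.fluct (show 1 < r / 2 by linarith) v0 v1 hv (fun i => x k i ^ 2) fun i => sq_nonneg _)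
    (by positivity))
  simp only [sum_add_distrib, ← mul_sum, div_rpow (sum_nonneg fun _ _ => sq_nonneg _) d0.le,
    ← sum_div] at a5
  refine a5.trans ?_
  have e1 : d ^ (r / 2 - 2 * (r * (1 - 1 / p.toReal))) =
      d ^ (r / 2 - 1) * d * d ^ (-(2 * (r * (1 - 1 / p.toReal)))) := by
    rw [← rpow_add_one d0.ne', ← rpow_add d0]; congr 1; ring
  calc _ ≤ K / (d * D) * (3 ^ (r / 2) * (d * D * (w / d ^ (r / 2)) + 7 * (v ^ (1 - 1 / (r / 2)) * D *
      d ^ (r / 2 - 1) * (d ^ 2 * (d ^ (-(2 * (r * (1 - 1 / p.toReal)))) * w))))) := by gcongr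
    _ = _ := by rw [e1, rpow_neg d0.le (r / 2)]; field_simp

include H hI in
lemma lower [DecidableEq C] {r s : ℝ} (hs : 2 ≤ s) (hr : s ≤ r) (hp : p ≠ ∞) (hq : q ≠ ∞)
    (hps : p.toReal⁻¹ + s⁻¹ = 1) (hD : d * D ≤ d ^ (r / s)) (W : Lp ℝ p μ0 →L[ℝ] Lp ℝ q μ0)
    (hW : ∀ f, 0 ≤ f → UU hJ p q L I f ≤ W f ∧ -UU hJ p q L I f ≤ W f) :
    ∃ f : C → Lp ℝ p μ0, (∀ ψ : StrongDual ℝ (Lp ℝ p μ0), ‖ψ‖ ≤ 1 →
      ∑ k, |ψ (f k)| ^ r ≤ 2 * 3 ^ r * d ^ (r / s - r)) ∧
      d ^ (-r) * (d * D) ^ (1 - r / q.toReal) ≤ ∑ k, ‖W (f k)‖ ^ r := by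
  have d0 : 0 < d := by linarith [H.d1]
  have D0 : 0 < D := by linarith [H.D1]
  have s0 : 0 < s := by linarith
  have N0 : (0 : ℝ) < Fintype.card (P → Bool) := by exact_mod_cast Fintype.card_pos
  have q0 : 0 < q.toReal := ENNReal.toReal_pos (zero_lt_one.trans_le (Fact.out : 1 ≤ q)).ne' hq
  have p0 : 0 < p.toReal := ENNReal.toReal_pos (zero_lt_one.trans_le (Fact.out : 1 ≤ p)).ne' hp
  let e : P → Lp ℝ p μ0 := fun i => St hI p (Pi.single i 1)
  refine ⟨fun c => ∑ i ∈ L c, e i, fun ψ hψ => ?_, ?_⟩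
  · simp only [map_sum]
    set T := ∑ i, |ψ (e i)| ^ s with hT
    have h1 : T ≤ (T / d ^ 2) ^ p.toReal⁻¹ := by
      let c : P → ℝ := fun i => SignType.sign (ψ (e i)) * |ψ (e i)| ^ (s - 1)
      have a1 : St hI p c = ∑ i, c i • e i := by
        simp only [e, ← map_smul, ← map_sum]; congr 1; ext j; simp [Pi.single_apply]
      have a2 : ψ (St hI p c) = T := by
        rw [a1, map_sum]
        refine sum_congr rfl fun i _ => ?_
        rw [map_smul, smul_eq_mul, mul_right_comm, sign_mul_self, mul_comm,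
          ← rpow_add_one' (abs_nonneg _) (by linarith), sub_add_cancel]
      have a3 := le_of_abs_le (ψ.le_of_opNorm_le hψ (St hI p c))
      rw [a2, one_mul, St_norm _ _ hp, H.cP] at a3
      refine a3.trans (rpow_le_rpow (by positivity) ?_ (by positivity))
      refine div_le_div_of_nonneg_right (sum_le_sum fun i _ => ?_) (by positivity)
      have : |c i| ≤ |ψ (e i)| ^ (s - 1) := by
        rw [abs_mul, abs_of_nonneg (rpow_nonneg (abs_nonneg _) _)]
        refine mul_le_of_le_one_left (by positivity) ?_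
        cases SignType.sign (ψ (e i)) <;> simp
      refine (rpow_le_rpow (abs_nonneg _) this p0.le).trans (le_of_eq ?_)
      rw [← rpow_mul (abs_nonneg _)]; congr 1
      field_simp at hps; linarith
    have h2 : T ≤ d ^ (2 - 2 * s) := by
      rcases (show 0 ≤ T by positivity).eq_or_lt with h | h
      · rw [← h]; positivity
      obtain ⟨t, ht⟩ : ∃ t, T = exp t := ⟨_, (exp_log h).symm⟩
      obtain ⟨y, rfl⟩ : ∃ y, d = exp y := ⟨_, (exp_log d0).symm⟩
      rw [ht, ← exp_nat_mul, ← exp_sub, ← exp_mul, exp_le_exp, eq_sub_of_add_eq hps] at h1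
      rw [ht, ← exp_mul, exp_le_exp]
      have := mul_le_mul_of_nonneg_left h1 s0.le
      field_simp at this
      push_cast at this
      linarith
    refine (H.anorm hs hr hD _ h2).trans (le_of_eq ?_)
    rw [← rpow_mul d0.le, mul_assoc, ← rpow_add d0]; congr 2; field_simp; ring
  · have a1 (i) : St hJ q (fun j => if i ∈ L j.1 then 1 / d ^ 2 else 0) ≤ W (e i) := by
      have e0 : 0 ≤ e i := by
        simpa using St_mono hI p (c := 0) (c' := Pi.single i 1) (Pi.single_nonneg.2 zero_le_one)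
      have := abs_le'.2 (hW _ e0)
      rw [UU_apply, St_abs] at this
      refine le_trans (le_of_eq ?_) this
      congr 1; ext j
      simp only [e, φ_St, Pi.single_apply, H.cP, ite_div, mul_ite, zero_div, mul_zero, sum_ite_eq']
      split_ifs
      · rw [abs_mul, abs_sg, one_mul, abs_of_pos (by positivity)]
      · simp
    have a2 (c) : d ^ (-r) * (d * D) ^ (-(r / q.toReal)) ≤ ‖W (∑ i ∈ L c, e i)‖ ^ r := by
      have b1 : St hJ q (fun j => if j.1 = c then d⁻¹ else 0) ≤ W (∑ i ∈ L c, e i) := by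
        rw [map_sum]
        refine le_trans ?_ (sum_le_sum fun i _ => a1 i)
        rw [← map_sum]
        refine St_mono _ _ fun j => ?_
        simp only [Finset.sum_apply]
        split_ifs with h
        · rw [sum_congr rfl fun i hi => if_pos (h ▸ hi), sum_const, nsmul_eq_mul, H.card]
          exact le_of_eq (by field_simp)
        · exact sum_nonneg fun _ _ => by positivity
      have b0 : 0 ≤ St hJ q (fun j => if j.1 = c then d⁻¹ else 0) := by
        simpa using St_mono hJ q (c := 0) (c' := fun j => if j.1 = c then d⁻¹ else 0)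
          fun j => by simp only [Pi.zero_apply]; positivity
      have b2 := norm_le_norm_of_abs_le_abs (by rwa [abs_of_nonneg b0, abs_of_nonneg (b0.trans b1)] :
        |St hJ q (fun j => if j.1 = c then d⁻¹ else 0)| ≤ |W (∑ i ∈ L c, e i)|)
      refine le_trans (le_of_eq ?_) (rpow_le_rpow (norm_nonneg _) b2 (by linarith))
      rw [St_norm _ _ hq, Fintype.sum_prod_type, sum_eq_single c (fun c' _ h => by
        simp [h, zero_rpow q0.ne']) (by simp), Fintype.card_prod, Nat.cast_mul, H.cC]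
      simp only [if_true, sum_const, card_univ, nsmul_eq_mul, abs_of_pos (inv_pos.2 d0)]
      rw [mul_comm (d * D), mul_div_mul_left _ _ N0.ne', ← rpow_mul (by positivity),
        div_rpow (by positivity) (by positivity), ← rpow_mul (by positivity), inv_rpow d0.le,
        rpow_neg d0.le, rpow_neg (by positivity), inv_mul_eq_div q.toReal, mul_div_cancel₀ r q0.ne',
        div_eq_mul_inv (d ^ r)⁻¹]
    have := card_nsmul_le_sum univ _ _ fun c _ => a2 c
    rw [nsmul_eq_mul, card_univ, H.cC] at this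
    refine le_trans (le_of_eq ?_) this
    rw [sub_eq_add_neg, rpow_add (by positivity), rpow_one]; ring

end H92.SM
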