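import Mathlib

open Set Filter Topology

namespace H92.SS

abbrev N := List (Bool × Bool)

def sg (e : Bool) : ℝ := if e then 1 else -1

def Mart (z : N → ℝ) (a : ℕ → ℝ) : Prop :=
  ∀ s e, z ((e, true) :: s) + z ((e, false) :: s) = 2 * z s + 2 * sg e * a s.length

def BM (z : N → ℝ) : Prop := (∃ a, Mart z a) ∧ ∃ C, ∀ s, |z s| ≤ C

def Sup (W : N → ℝ) (s : N) : Prop :=
  ∀ t, s <:+ t → ∀ e, W ((e, true) :: t) + W ((e, false) :: t) ≤ 2 * W t

def Good (z : N → ℝ) (δ : ℝ) : Set N :=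
  {s | ∃ W, Sup W s ∧ (∀ t, s <:+ t → z t ^ 2 ≤ W t) ∧ W s < z s ^ 2 + δ}

lemma climb {z a} (h : Mart z a) (n : ℕ) :
    ∃ s : N, s.length = n ∧ z [] + ∑ i ∈ Finset.range n, |a i| ≤ z s := by
  induction n with
  | zero => exact ⟨[], rfl, by simp⟩
  | succ n ih =>
    obtain ⟨s, hs, h1⟩ := ih
    obtain ⟨e, he⟩ : ∃ e, sg e * a n = |a n| := by
      rcases le_total 0 (a n) with h0 | h0
      · exact ⟨true, by simp [sg, abs_of_nonneg h0]⟩
      · exact ⟨false, by simp [sg, abs_of_nonpos h0]⟩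
    have := h s e
    rw [hs, mul_assoc, he] at this
    rw [Finset.sum_range_succ]
    rcases le_total (z ((e, true) :: s)) (z ((e, false) :: s)) with h2 | h2
    · exact ⟨(e, false) :: s, by simp [hs], by linarith⟩
    · exact ⟨(e, true) :: s, by simp [hs], by linarith⟩

lemma sub_exists {z} (h : BM z) : ∃ σ : N → ℝ, Sup (fun t => -σ t) [] ∧ (∃ B, ∀ t, σ t ≤ B) ∧
    ∀ s, ∃ c, σ s + c = z s ^ 2 ∧ ∀ t, s <:+ t → z t ^ 2 ≤ σ t + c := by
  obtain ⟨⟨a, ha⟩, C, hC⟩ := h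
  have C0 : 0 ≤ C := (abs_nonneg _).trans (hC [])
  refine ⟨fun s => z s ^ 2 + 2 * C * ∑ i ∈ Finset.range s.length, |a i|, fun t _ e => ?_,
    ⟨C ^ 2 + 2 * C * (2 * C), fun t => ?_⟩,
    fun s => ⟨-(2 * C * ∑ i ∈ Finset.range s.length, |a i|), by ring, fun t ht => ?_⟩⟩
  · have h1 := ha t e
    simp only [List.length_cons, Finset.sum_range_succ]
    have h2 : |z t * (sg e * a t.length)| ≤ C * |a t.length| := by
      rw [abs_mul, abs_mul, show |sg e| = 1 by cases e <;> simp [sg], one_mul]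
      gcongr; exact hC t
    have h3 := (abs_le.1 h2).1
    have h4 : z ((e, false) :: t) = 2 * z t + 2 * (sg e * a t.length) - z ((e, true) :: t) := by
      linarith
    rw [h4]
    nlinarith [sq_nonneg (z ((e, true) :: t) - z t - sg e * a t.length),
      sq_nonneg (sg e * a t.length)]
  · obtain ⟨s, -, hs⟩ := climb ha t.length
    have h1 := abs_le.1 (hC s)
    have h2 := abs_le.1 (hC [])
    have h3 : z t ^ 2 ≤ C ^ 2 := by rw [← sq_abs]; gcongr; exact hC t
    have h4 : ∑ i ∈ Finset.range t.length, |a i| ≤ 2 * C := by linarith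
    dsimp only; gcongr
  · have : ∑ i ∈ Finset.range s.length, |a i| ≤ ∑ i ∈ Finset.range t.length, |a i| :=
      Finset.sum_le_sum_of_subset_of_nonneg (Finset.range_mono ht.length_le)
        fun _ _ _ => abs_nonneg _
    nlinarith

lemma fip {ι : Type} (F : Finset ι) (z : ι → N → ℝ) (δ : ι → ℝ) (hz : ∀ i ∈ F, BM (z i))
    (hδ : ∀ i ∈ F, 0 < δ i) : ∃ s, ∀ i ∈ F, s ∈ Good (z i) (δ i) := by
  classical
  choose! σ h1 h2 h3 using fun i hi => sub_exists (hz i hi)
  choose! B hB using h2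
  obtain ⟨d, d0, hd⟩ : ∃ d > 0, ∀ i ∈ F, d ≤ δ i := by
    rcases F.eq_empty_or_nonempty with rfl | hF
    · exact ⟨1, one_pos, by simp⟩
    · obtain ⟨i, hi, h⟩ := F.exists_min_image δ hF
      exact ⟨δ i, hδ i hi, h⟩
  let S : N → ℝ := fun t => ∑ i ∈ F, σ i t
  have hb : BddAbove (range S) :=
    ⟨∑ i ∈ F, B i, by rintro _ ⟨t, rfl⟩; exact Finset.sum_le_sum fun i hi => hB i hi t⟩
  obtain ⟨s, hs⟩ := exists_lt_of_lt_ciSup (sub_lt_self (iSup S) d0)
  refine ⟨s, fun i hi => ?_⟩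
  obtain ⟨c, c1, c2⟩ := h3 i hi s
  have e (t) : S t = σ i t + ∑ l ∈ F.erase i, σ l t := (Finset.add_sum_erase F (σ · t) hi).symm
  refine ⟨fun t => iSup S - ∑ l ∈ F.erase i, σ l t + c, fun t _ e => ?_, fun t ht => ?_, ?_⟩
  · have : ∑ l ∈ F.erase i, (-σ l ((e, true) :: t) + -σ l ((e, false) :: t)) ≤
        ∑ l ∈ F.erase i, 2 * -σ l t :=
      Finset.sum_le_sum fun l hl => h1 l (Finset.mem_of_mem_erase hl) t List.nil_suffix e
    simp only [Finset.sum_add_distrib, Finset.sum_neg_distrib, ← Finset.mul_sum] at this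
    dsimp only; linarith
  · have := le_ciSup hb t
    have := c2 t ht
    have := e t
    dsimp only; linarith
  · have := e s
    have := hd i hi
    dsimp only; linarith

lemma exists_ultra : ∃ U : Ultrafilter N, ∀ z δ, BM z → 0 < δ → Good z δ ∈ U := by
  obtain ⟨U, hU⟩ := Ultrafilter.exists_ultrafilter_of_finite_inter_nonempty
    {A | ∃ z δ, BM z ∧ 0 < δ ∧ A = Good z δ} fun T hT => by
      choose! z δ h1 h2 h3 using fun A (hA : A ∈ T) => hT hA
      obtain ⟨s, hs⟩ := fip T z δ h1 h2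
      exact ⟨s, fun A hA => by rw [h3 A hA]; exact hs A hA⟩
  exact ⟨U, fun z δ h1 h2 => hU ⟨z, δ, h1, h2, rfl⟩⟩

lemma exists_M (U : Ultrafilter N) (hU : ∀ z δ, BM z → 0 < δ → Good z δ ∈ U) {ι : Type}
    (F : Finset ι) (j : ι → N → ℝ) (h1 : ∀ i, BM (j i)) (h2 : ∀ i s, |j i s| ≤ 1)
    (h3 : ∀ i, Tendsto (j i) U (𝓝 0)) {η : ℝ} (hη : 0 < η) :
    ∃ M : N → ℝ, Sup M [] ∧ (∀ s, 0 ≤ M s ∧ M s ≤ 1 ∧ ∀ i ∈ F, |j i s| ≤ M s) ∧
      ∀ᶠ s in U, M s < η := by
  let A : N → Set ℝ := fun s => {x | ∃ W, Sup W s ∧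
    (∀ t, s <:+ t → 0 ≤ W t ∧ ∀ i ∈ F, |j i t| ≤ W t) ∧ x = W s}
  have one (s) : (1 : ℝ) ∈ A s :=
    ⟨fun _ => 1, fun _ _ _ => by norm_num, fun t _ => ⟨zero_le_one, fun i _ => h2 i t⟩, rfl⟩
  have lb (s) : 0 ∈ lowerBounds (A s) := by
    rintro _ ⟨W, -, h, rfl⟩; exact (h s List.suffix_rfl).1
  refine ⟨fun s => sInf (A s), fun t _ e => ?_, fun s => ⟨le_csInf ⟨_, one s⟩ (lb s),
    csInf_le ⟨_, lb s⟩ (one s), fun i hi => le_csInf ⟨_, one s⟩ ?_⟩, ?_⟩
  · rw [← div_le_iff₀' two_pos]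
    refine le_csInf ⟨_, one t⟩ ?_
    rintro _ ⟨W, a1, a2, rfl⟩
    have k (c) : sInf (A ((e, c) :: t)) ≤ W ((e, c) :: t) := csInf_le ⟨_, lb _⟩
      ⟨W, fun u hu => a1 u ((List.suffix_cons _ _).trans hu),
        fun u hu => a2 u ((List.suffix_cons _ _).trans hu), rfl⟩
    have := a1 t List.suffix_rfl e
    linarith [k true, k false]
  · rintro _ ⟨W, -, h, rfl⟩; exact (h s List.suffix_rfl).2 i hi
  · have hd : 0 < η ^ 2 / (8 * (F.card + 1)) := by positivity
    set d := η ^ 2 / (8 * (F.card + 1)) with hd'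
    have e1 : ∀ᶠ s in U, ∀ i ∈ F, s ∈ Good (j i) d ∧ j i s ^ 2 < d :=
      (eventually_all_finset F).2 fun i _ => Eventually.and (hU _ _ (h1 i) hd)
        (((h3 i).pow 2).eventually (gt_mem_nhds (by simpa using hd)))
    filter_upwards [e1] with s hs
    choose! W w1 w2 w3 using fun i hi => (hs i hi).1
    have w0 (t) (ht : s <:+ t) (i) (hi : i ∈ F) : 0 ≤ W i t := (sq_nonneg _).trans (w2 i hi t ht)
    refine (csInf_le ⟨_, lb s⟩ ⟨fun t => η / 2 + (∑ i ∈ F, W i t) / η, fun t ht e => ?_,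
      fun t ht => ⟨?_, fun i hi => ?_⟩, rfl⟩).trans_lt ?_
    · have : ∑ i ∈ F, (W i ((e, true) :: t) + W i ((e, false) :: t)) ≤ ∑ i ∈ F, 2 * W i t :=
        Finset.sum_le_sum fun i hi => w1 i hi t ht e
      rw [Finset.sum_add_distrib, ← Finset.mul_sum] at this
      have := div_le_div_of_nonneg_right this hη.le
      rw [add_div, mul_div_assoc] at this
      dsimp only; linarith
    · have := Finset.sum_nonneg (w0 t ht)
      positivity
    · have a1 := Finset.single_le_sum (w0 t ht) hi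
      have a2 := w2 i hi t ht
      rw [← sq_abs] at a2
      rw [← sub_le_iff_le_add', le_div_iff₀ hη]
      nlinarith [sq_nonneg (|j i t| - η / 2)]
    · have : ∑ i ∈ F, W i s ≤ F.card • (2 * d) := Finset.sum_le_card_nsmul _ _ _ fun i hi => by
        linarith [w3 i hi, (hs i hi).2]
      rw [nsmul_eq_mul] at this
      rw [← lt_sub_iff_add_lt', div_lt_iff₀ hη]
      have e : 8 * (F.card + 1) * d = η ^ 2 := by rw [hd']; field_simp
      nlinarith

lemma bet (U : Ultrafilter N) (hU : ∀ z δ, BM z → 0 < δ → Good z δ ∈ U) {ι : Type}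
    (F : Finset ι) (j : ι → N → ℝ) (h1 : ∀ i, BM (j i)) (h2 : ∀ i s, |j i s| ≤ 1)
    (h3 : ∀ i, Tendsto (j i) U (𝓝 0)) {η : ℝ} (hη : 0 < η) :
    ∃ w : N → ℝ, Mart w 0 ∧ (∀ s, |w s| ≤ 1 ∧ ∀ i ∈ F, |w s| + |j i s| ≤ 1) ∧
      ∀ᶠ s in U, 1 - η ≤ w s := by
  obtain ⟨M, m1, m2, m3⟩ := exists_M U hU F j h1 h2 h3 (by positivity : 0 < η / 4)
  have step (t : N) (e : Bool) (v : ℝ) : ∃ φ, |v| ≤ 1 - M t → |v + φ| ≤ 1 - M ((e, true) :: t) ∧
      |v - φ| ≤ 1 - M ((e, false) :: t) ∧ (M t < η / 4 → |v| ≤ 1 - η → φ = η / 2) := by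
    have a := m1 t List.nil_suffix e
    obtain ⟨a1, a2, -⟩ := m2 ((e, true) :: t)
    obtain ⟨b1, b2, -⟩ := m2 ((e, false) :: t)
    by_cases h : M t < η / 4 ∧ |v| ≤ 1 - η
    · have := abs_le.1 h.2
      exact ⟨η / 2, fun _ => ⟨abs_le.2 ⟨by linarith, by linarith⟩,
        abs_le.2 ⟨by linarith, by linarith⟩, fun _ _ => rfl⟩⟩
    · refine ⟨max (-(1 - M ((e, true) :: t)) - v) (v - (1 - M ((e, false) :: t))), fun hv => ?_⟩
      have := abs_le.1 hv
      refine ⟨?_, ?_, fun a b => absurd ⟨a, b⟩ h⟩ <;>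
      rcases le_total (-(1 - M ((e, true) :: t)) - v) (v - (1 - M ((e, false) :: t))) with k | k <;>
      simp only [max_eq_right, max_eq_left, k] <;> exact abs_le.2 ⟨by linarith, by linarith⟩
  choose φ hφ using step
  let w : N → ℝ := List.rec 0 fun x t v => v + sg x.2 * φ t x.1 v
  have wt (t e) : w ((e, true) :: t) = w t + φ t e (w t) := by simp [w, sg]
  have wf (t e) : w ((e, false) :: t) = w t - φ t e (w t) := by simp [w, sg, sub_eq_add_neg]
  have hm : Mart w 0 := fun t e => by rw [wt, wf]; simp; ring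
  have hb (t) : |w t| ≤ 1 - M t := by
    induction t with
    | nil => simpa [w] using (m2 []).2.1
    | cons x t ih =>
      rcases x with ⟨e, _ | _⟩
      · rw [wf]; exact (hφ t e _ ih).2.1
      · rw [wt]; exact (hφ t e _ ih).1
  have hb' (s) : |w s| ≤ 1 ∧ ∀ i ∈ F, |w s| + |j i s| ≤ 1 :=
    ⟨by linarith [hb s, (m2 s).1], fun i hi => by linarith [hb s, (m2 s).2.2 i hi]⟩
  have ev : ∀ᶠ s in U, 1 - η ≤ w s ∨ 1 - η ≤ -w s := by
    filter_upwards [m3, hU w (η ^ 2 / 4) ⟨⟨0, hm⟩, 1, fun s => (hb' s).1⟩ (by positivity)]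
      with s a ⟨W, w1, w2, w3⟩
    rw [← le_abs]
    by_contra hc
    have e := (hφ s true _ (hb s)).2.2 a (not_le.1 hc).le
    have b1 := w2 _ (List.suffix_cons (true, true) s)
    have b2 := w2 _ (List.suffix_cons (true, false) s)
    have b3 := w1 s List.suffix_rfl true
    rw [wt, e] at b1
    rw [wf, e] at b2
    nlinarith
  rcases Ultrafilter.eventually_or.1 ev with h | h
  · exact ⟨w, hm, hb', h⟩
  · exact ⟨fun s => -w s, fun t e => by have := hm t e; simp at this ⊢; linarith,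
      by simpa only [abs_neg] using hb', h⟩

lemma push {z a} (h : Mart z a) (s : N) (n : ℕ) (hn : s.length ≤ n) :
    ∃ t : N, t.length = n ∧ |z s| ≤ |z t| := by
  induction n, hn using Nat.le_induction with
  | base => exact ⟨s, rfl, le_rfl⟩
  | succ n _ ih =>
    obtain ⟨t, h1, h2⟩ := ih
    by_contra hc
    push Not at hc
    have a1 := h t true
    have a2 := h t false
    have k (x) := abs_lt.1 ((hc (x :: t) (by simp [h1])).trans_le h2)
    have k1 := k (true, true)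
    have k2 := k (true, false)
    have k3 := k (false, true)
    have k4 := k (false, false)
    simp only [sg, if_true, Bool.false_eq_true, if_false] at a1 a2
    cases abs_cases (z t) <;> linarith

lemma coord (n : ℕ) : ∃ z a, Mart z a ∧ a n = 1 ∧ ∀ s, |z s| ≤ 1 := by
  let z : N → ℝ := List.rec 0 fun x t v => v + if t.length = n then sg x.1 else 0
  have e (x t) : z (x :: t) = z t + if t.length = n then sg x.1 else 0 := rfl
  have k (s : N) : (s.length ≤ n → z s = 0) ∧ |z s| ≤ 1 := by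
    induction s with
    | nil => simp [z]
    | cons x t ih =>
      rw [e, List.length_cons]
      refine ⟨fun h => by rw [ih.1 (by omega), if_neg (by omega), add_zero], ?_⟩
      split_ifs with h
      · rw [ih.1 h.le]; cases x.1 <;> simp [sg]
      · simpa using ih.2
  refine ⟨z, fun m => if m = n then 1 else 0, fun s c => ?_, by simp, fun s => (k s).2⟩
  simp only [e]; split_ifs <;> ring

end H92.SS
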