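import Mathlib
import Pool.Agent.H92.SS1

open Set Filter Topology
open scoped ENNReal

namespace H92.SS

abbrev L := lp (fun _ : N => ℝ) ∞

def Z : Submodule ℝ L where
  carrier := {f | ∃ a, Mart f a}
  add_mem' := by
    rintro f g ⟨a, ha⟩ ⟨b, hb⟩
    exact ⟨a + b, fun s e => by have := ha s e; have := hb s e; simp; linarith⟩
  zero_mem' := ⟨0, fun s e => by simp⟩
  smul_mem' := by
    rintro c f ⟨a, ha⟩
    exact ⟨c • a, fun s e => by have := ha s e; simp; linear_combination c * this⟩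

noncomputable def dl (s : N) : StrongDual ℝ Z := (lp.evalCLM ℝ (fun _ : N => ℝ) ∞ s).comp Z.subtypeL

lemma dl_apply (s : N) (z : Z) : dl s z = z.1 s := rfl

def mkZ (z : N → ℝ) (a : ℕ → ℝ) (C : ℝ) (h : Mart z a) (hC : ∀ s, |z s| ≤ C) : Z :=
  ⟨⟨z, memℓp_infty ⟨C, by rintro _ ⟨s, rfl⟩; exact hC s⟩⟩, a, h⟩

theorem predual {Z : Type} [NormedAddCommGroup Z] [NormedSpace ℝ Z] (dl : N → StrongDual ℝ Z)
    (d1 : ∀ s, ‖dl s‖ ≤ 1) (d2 : ∀ z, ∃ a, Mart (fun s => dl s z) a)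
    (d3 : ∀ z a C, Mart z a → (∀ s, |z s| ≤ C) → ∃ f : Z, ‖f‖ ≤ C ∧ ∀ s, dl s f = z s) :
    ∃ (X : Type) (_ : NormedAddCommGroup X) (_ : NormedSpace ℝ X)
    (_ : CompleteSpace X) (δ : N → X) (y : ℕ → X), TopologicalSpace.SeparableSpace X ∧
    (∀ s, ‖δ s‖ ≤ 1) ∧
    (∀ s e, δ ((e, true) :: s) + δ ((e, false) :: s) = (2 : ℝ) • δ s + (2 * sg e) • y s.length) ∧
    (∀ (φ : StrongDual ℝ X) C, (∀ s, |φ (δ s)| ≤ C) → ‖φ‖ ≤ C) ∧
    ∀ z, BM z → ∃ φ : StrongDual ℝ X, ∀ s, φ (δ s) = z s := by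
  let XX : Submodule ℝ (Z →L[ℝ] ℝ) := (Submodule.span ℝ (range dl)).topologicalClosure
  let δ : N → XX := fun s =>
    ⟨dl s, Submodule.le_topologicalClosure _ (Submodule.subset_span ⟨s, rfl⟩)⟩
  let r : ℕ → N := fun n => List.replicate n (true, true)
  let y : ℕ → XX := fun n =>
    (1 / 2 : ℝ) • (δ ((true, true) :: r n) + δ ((true, false) :: r n)) - δ (r n)
  have h2 (s e) : δ ((e, true) :: s) + δ ((e, false) :: s) =
      (2 : ℝ) • δ s + (2 * sg e) • y s.length := by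
    refine Subtype.ext (ContinuousLinearMap.ext fun z => ?_)
    obtain ⟨a, ha⟩ := d2 z
    have a1 := ha s e
    have a2 := ha (r s.length) true
    simp only [r, List.length_replicate, sg, if_true] at a2
    change dl _ z + dl _ z = 2 * dl s z + (2 * sg e) * (1 / 2 * (dl _ z + dl _ z) - dl _ z)
    dsimp only at a1
    rw [a1, a2]; ring
  refine ⟨XX, inferInstance, inferInstance,
    (Submodule.isClosed_topologicalClosure _).completeSpace_coe,
    δ, y, ((countable_range dl).isSeparable.span.closure).separableSpace, d1, h2,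
    fun φ C hC => ?_, ?_⟩
  · have C0 : 0 ≤ C := (abs_nonneg _).trans (hC [])
    obtain ⟨z, hz, hz'⟩ := d3 (fun s => φ (δ s)) (fun n => φ (y n)) C
      (fun s e => by simpa using congrArg φ (h2 s e)) hC
    have key (x : XX) : φ x = x.1 z := by
      have hd : Dense (Submodule.span ℝ (range δ) : Set XX) := by
        rw [Subtype.dense_iff]
        have : Subtype.val '' (Submodule.span ℝ (range δ) : Set XX) =
            Submodule.span ℝ (range dl) := by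
          rw [← Submodule.coe_subtype, ← Submodule.map_coe, Submodule.map_span, ← range_comp]
          rfl
        exact subset_of_eq (congrArg closure this.symm)
      exact DFunLike.congr_fun (ContinuousLinearMap.ext_on hd (f := φ)
        (g := (ContinuousLinearMap.apply ℝ ℝ z).comp XX.subtypeL)
        (by rintro _ ⟨s, rfl⟩; exact (hz' s).symm)) x
    refine φ.opNorm_le_bound C0 fun x => ?_
    rw [key, mul_comm]
    exact (x.1.le_opNorm z).trans (mul_le_mul_of_nonneg_left hz (norm_nonneg _))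
  · rintro z ⟨⟨a, ha⟩, C, hC⟩
    obtain ⟨f, -, hf⟩ := d3 z a C ha hC
    exact ⟨(ContinuousLinearMap.apply ℝ ℝ f).comp XX.subtypeL, hf⟩

theorem exists_space : ∃ (X : Type) (_ : NormedAddCommGroup X) (_ : NormedSpace ℝ X)
    (_ : CompleteSpace X) (δ : N → X) (y : ℕ → X), TopologicalSpace.SeparableSpace X ∧
    (∀ s, ‖δ s‖ ≤ 1) ∧
    (∀ s e, δ ((e, true) :: s) + δ ((e, false) :: s) = (2 : ℝ) • δ s + (2 * sg e) • y s.length) ∧
    (∀ (φ : StrongDual ℝ X) C, (∀ s, |φ (δ s)| ≤ C) → ‖φ‖ ≤ C) ∧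
    ∀ z, BM z → ∃ φ : StrongDual ℝ X, ∀ s, φ (δ s) = z s :=
  predual dl (fun s => (dl s).opNorm_le_bound zero_le_one fun z => by
    rw [one_mul]; exact lp.norm_apply_le_norm (by simp) z.1 s) (fun z => z.2)
    fun z a C h hC => ⟨mkZ z a C h hC, lp.norm_le_of_forall_le ((abs_nonneg _).trans (hC [])) hC,
      fun _ => rfl⟩

variable {W : Type} [NormedAddCommGroup W] [NormedSpace ℝ W] {d : N → W →L[ℝ] ℝ}

lemma exists_lim (U : Ultrafilter N) (b : ∀ φ s, |d s φ| ≤ ‖φ‖) :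
    ∃ p : StrongDual ℝ W, ‖p‖ ≤ 1 ∧ ∀ φ, Tendsto (fun s => d s φ) U (𝓝 (p φ)) := by
  have (φ : W) : ∃ l, Tendsto (fun s => d s φ) U (𝓝 l) := by
    obtain ⟨l, -, hl⟩ := (isCompact_closedBall (0 : ℝ) ‖φ‖).ultrafilter_le_nhds
      (U.map fun s => d s φ) (by
        rw [Ultrafilter.coe_map, le_principal_iff, mem_map]
        exact univ_mem' fun s => mem_closedBall_zero_iff.2 (b φ s))
    exact ⟨l, hl⟩
  choose l hl using this
  let p : W →ₗ[ℝ] ℝ := ⟨⟨l, fun φ ψ => tendsto_nhds_unique (hl _) (by simpa using (hl φ).add (hl ψ))⟩,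
    fun c φ => tendsto_nhds_unique (hl _) (by simpa using (hl φ).const_mul c)⟩
  have hb (φ) : ‖p φ‖ ≤ 1 * ‖φ‖ := by
    rw [one_mul]; exact le_of_tendsto' (hl φ).norm (b φ)
  exact ⟨p.mkContinuous 1 hb, p.mkContinuous_norm_le zero_le_one hb, hl⟩

theorem exposed (b : ∀ φ s, |d s φ| ≤ ‖φ‖) (bm : ∀ φ, BM fun s => d s φ)
    (h3 : ∀ φ C, (∀ s, |d s φ| ≤ C) → ‖φ‖ ≤ C) (h4 : ∀ z, BM z → ∃ φ, ∀ s, d s φ = z s) :
    ∃ (p : StrongDual ℝ W) (G : StrongDual ℝ (StrongDual ℝ W)),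
      ‖G‖ = 1 ∧ ∀ Ψ, ‖Ψ‖ ≤ 1 → ‖Ψ - p‖ ≤ 5 * (1 - G Ψ) := by
  obtain ⟨U, hU⟩ := exists_ultra
  obtain ⟨p, p1, hp⟩ := exists_lim U b
  let ι := {j : W // ‖j‖ ≤ 1 ∧ p j = 0} × {η : ℝ // 0 < η}
  let t : ι → Set (WeakDual ℝ (StrongDual ℝ W)) := fun i =>
    {G | 1 - i.2.1 ≤ G p} ∩ ⋂ Ψ, {G | G Ψ ≤ ‖Ψ‖ - |Ψ i.1.1|}
  obtain ⟨G, g1, g2⟩ := (WeakDual.isCompact_closedBall (0 : StrongDual ℝ _) 1).inter_iInter_nonempty
    t (fun i => (isClosed_le continuous_const (WeakDual.eval_continuous _)).inter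
      (isClosed_iInter fun Ψ => isClosed_le (WeakDual.eval_continuous _) continuous_const))
    fun F : Finset ι => by
      obtain ⟨η, η0, hη⟩ : ∃ d > 0, ∀ i ∈ F, d ≤ i.2.1 := by
        rcases F.eq_empty_or_nonempty with rfl | hF
        · exact ⟨1, one_pos, by simp⟩
        · obtain ⟨i, hi, h⟩ := F.exists_min_image (fun i => i.2.1) hF
          exact ⟨_, i.2.2, h⟩
      obtain ⟨w, w1, w2, w3⟩ := bet U hU F (fun i s => d s i.1.1) (fun i => bm _)
        (fun i s => (b _ s).trans i.1.2.1) (fun i => by simpa only [i.1.2.2] using hp i.1.1) η0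
      obtain ⟨φ, hφ⟩ := h4 w ⟨⟨0, w1⟩, 1, fun s => (w2 s).1⟩
      refine ⟨StrongDual.toWeakDual (NormedSpace.inclusionInDoubleDual ℝ _ φ), ?_,
        mem_iInter₂.2 fun i hi => ⟨?_, mem_iInter.2 fun Ψ => ?_⟩⟩
      · exact mem_closedBall_zero_iff.2 ((NormedSpace.double_dual_bound ℝ _ φ).trans
          (h3 φ 1 fun s => hφ s ▸ (w2 s).1))
      · have : 1 - η ≤ p φ := ge_of_tendsto (hp φ) (by simpa only [hφ] using w3)
        change _ ≤ p φ
        linarith [hη i hi]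
      · change Ψ φ ≤ _
        have a1 : ‖φ + i.1.1‖ ≤ 1 := h3 _ _ fun s => by
          rw [map_add, hφ]; exact (abs_add_le _ _).trans ((w2 s).2 i hi)
        have a2 : ‖φ - i.1.1‖ ≤ 1 := h3 _ _ fun s => by
          rw [map_sub, hφ]; exact (abs_sub _ _).trans ((w2 s).2 i hi)
        have a3 := le_of_abs_le (Ψ.le_of_opNorm_le_of_le le_rfl a1)
        have a4 := le_of_abs_le (Ψ.le_of_opNorm_le_of_le le_rfl a2)
        rw [map_add] at a3
        rw [map_sub] at a4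
        cases abs_cases (Ψ i.1.1) <;> linarith
  set G' : StrongDual ℝ (StrongDual ℝ W) := WeakDual.toStrongDual G
  have G1 : ‖G'‖ ≤ 1 := mem_closedBall_zero_iff.1 g1
  have G2 : 1 ≤ G' p := le_of_forall_pos_le_add fun η h => by
    have : 1 - η ≤ G' p := (mem_iInter.1 g2 (⟨0, by simp, by simp⟩, ⟨η, h⟩)).1
    linarith
  have G3 (Ψ j) (a : ‖j‖ ≤ 1) (c : p j = 0) : G' Ψ ≤ ‖Ψ‖ - |Ψ j| :=
    mem_iInter.1 (mem_iInter.1 g2 (⟨j, a, c⟩, ⟨1, one_pos⟩)).2 Ψ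
  have G4 : G' p ≤ ‖G'‖ := by simpa using le_of_abs_le (G'.le_of_opNorm_le_of_le le_rfl p1)
  refine ⟨p, G', by linarith, fun Ψ hΨ => ?_⟩
  obtain ⟨e, he⟩ := h4 (fun _ => 1) ⟨⟨0, fun s e => by norm_num⟩, 1, by simp⟩
  have e1 : ‖e‖ ≤ 1 := h3 _ _ (by simp [he])
  have e2 : p e = 1 := tendsto_nhds_unique (hp e) (by simpa only [he] using tendsto_const_nhds)
  have k : ‖Ψ - Ψ e • p‖ ≤ 2 * (1 - G' Ψ) := by
    have a0 := G3 Ψ 0 (by simp) (by simp)
    simp only [map_zero, abs_zero] at a0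
    refine ContinuousLinearMap.opNorm_le_of_unit_norm (by linarith) fun φ hφ => ?_
    have a1 : |p φ| ≤ 1 := by simpa using p.le_of_opNorm_le_of_le p1 hφ.le
    have a2 := G3 Ψ ((1 / 2 : ℝ) • (φ - p φ • e)) (by
      have := norm_sub_le φ (p φ • e)
      rw [norm_smul, Real.norm_eq_abs] at this
      rw [norm_smul, Real.norm_of_nonneg (by norm_num)]
      nlinarith [abs_nonneg (p φ), norm_nonneg e]) (by simp [e2])
    have a3 : (Ψ - Ψ e • p) φ = 2 * Ψ ((1 / 2 : ℝ) • (φ - p φ • e)) := by simp; ring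
    rw [a3, Real.norm_eq_abs, abs_mul, abs_two]
    linarith
  have k1 : G' Ψ - Ψ e * G' p ≤ 1 * (2 * (1 - G' Ψ)) := by
    simpa using le_of_abs_le (G'.le_of_opNorm_le_of_le G1 k)
  have k2 : Ψ e ≤ 1 := by simpa using le_of_abs_le (Ψ.le_of_opNorm_le_of_le hΨ e1)
  rw [show G' p = 1 by linarith] at k1
  have k3 : ‖(Ψ e - 1) • p‖ ≤ 1 - Ψ e := by
    rw [norm_smul, Real.norm_eq_abs, abs_of_nonpos (by linarith)]
    nlinarith [norm_nonneg p]
  have := norm_add_le (Ψ - Ψ e • p) ((Ψ e - 1) • p)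
  rw [show Ψ - Ψ e • p + (Ψ e - 1) • p = Ψ - p by ext; simp; ring] at this
  linarith

end H92.SS
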