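import Mathlib

set_option autoImplicit false
open MeasureTheory Filter Topology Set

namespace Pool.Agent.H92.Scaling

/-- the refinement operator -/
def T (a b : ℝ) (f : ℝ → ℝ) (x : ℝ) : ℝ :=
  (1 - a) * f (2 * x) + (1 + b) * f (2 * x - 1) + a * f (2 * x - 2) - b * f (2 * x - 3)

/-- admissible functions with periodisation `c` -/
structure Adm (c : ℝ) (f : ℝ → ℝ) : Prop where
  cont : Continuous f
  left : ∀ x ≤ 0, f x = 0
  right : ∀ x, 3 ≤ x → f x = 0
  sum : ∀ t ∈ Icc (0 : ℝ) 1, f t + f (t + 1) + f (t + 2) = c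

variable {a b c : ℝ} {f : ℝ → ℝ}

lemma lowH (h : Adm c f) {s : ℝ} (hs : s ∈ Icc (0 : ℝ) 1) :
    T a b f (s / 2) = (1 - a) * f s ∧
    T a b f (s / 2 + 1) = (1 - a) * f (s + 2) + (1 + b) * f (s + 1) + a * f s ∧
    T a b f (s / 2 + 2) = a * f (s + 2) - b * f (s + 1) := by
  obtain ⟨h0, h1⟩ := hs
  refine ⟨?_, ?_, ?_⟩
  · rw [T, h.left (2 * (s / 2) - 1) (by linarith), h.left (2 * (s / 2) - 2) (by linarith),
      h.left (2 * (s / 2) - 3) (by linarith), show 2 * (s / 2) = s by ring]; ring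
  · rw [T, h.left (2 * (s / 2 + 1) - 3) (by linarith), show 2 * (s / 2 + 1) - 1 = s + 1 by ring,
      show 2 * (s / 2 + 1) - 2 = s by ring, show 2 * (s / 2 + 1) = s + 2 by ring]; ring
  · rw [T, h.right (2 * (s / 2 + 2)) (by linarith), h.right (2 * (s / 2 + 2) - 1) (by linarith),
      show 2 * (s / 2 + 2) - 2 = s + 2 by ring, show 2 * (s / 2 + 2) - 3 = s + 1 by ring]; ring

lemma highH (h : Adm c f) {s : ℝ} (hs : s ∈ Icc (0 : ℝ) 1) :
    T a b f ((s + 1) / 2) = (1 - a) * f (s + 1) + (1 + b) * f s ∧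
    T a b f ((s + 1) / 2 + 1) = (1 + b) * f (s + 2) + a * f (s + 1) - b * f s ∧
    T a b f ((s + 1) / 2 + 2) = - b * f (s + 2) := by
  obtain ⟨h0, h1⟩ := hs
  refine ⟨?_, ?_, ?_⟩
  · rw [T, h.left (2 * ((s + 1) / 2) - 2) (by linarith), h.left (2 * ((s + 1) / 2) - 3) (by linarith),
      show 2 * ((s + 1) / 2) - 1 = s by ring, show 2 * ((s + 1) / 2) = s + 1 by ring]; ring
  · rw [T, h.right (2 * ((s + 1) / 2 + 1)) (by linarith), show 2 * ((s + 1) / 2 + 1) - 1 = s + 2 by ring,
      show 2 * ((s + 1) / 2 + 1) - 2 = s + 1 by ring, show 2 * ((s + 1) / 2 + 1) - 3 = s by ring]; ring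
  · rw [T, h.right (2 * ((s + 1) / 2 + 2)) (by linarith), h.right (2 * ((s + 1) / 2 + 2) - 1) (by linarith),
      h.right (2 * ((s + 1) / 2 + 2) - 2) (by linarith),
      show 2 * ((s + 1) / 2 + 2) - 3 = s + 2 by ring]; ring

lemma halves {t : ℝ} (ht : t ∈ Icc (0 : ℝ) 1) :
    (∃ s ∈ Icc (0 : ℝ) 1, t = s / 2) ∨ ∃ s ∈ Icc (0 : ℝ) 1, t = (s + 1) / 2 := by
  rcases le_total t (1 / 2) with h | h
  · exact Or.inl ⟨2 * t, ⟨by linarith [ht.1], by linarith⟩, by ring⟩
  · exact Or.inr ⟨2 * t - 1, ⟨by linarith, by linarith [ht.2]⟩, by ring⟩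

lemma Adm.T (h : Adm c f) (a b : ℝ) : Adm c (T a b f) := by
  refine ⟨?_, fun x hx => ?_, fun x hx => ?_, fun t ht => ?_⟩
  · have := h.cont
    unfold Scaling.T; fun_prop
  · rw [Scaling.T, h.left _ (by linarith), h.left _ (by linarith), h.left _ (by linarith),
      h.left _ (by linarith)]; ring
  · rw [Scaling.T, h.right _ (by linarith), h.right _ (by linarith), h.right _ (by linarith),
      h.right _ (by linarith)]; ring
  · rcases halves ht with ⟨s, hs, rfl⟩ | ⟨s, hs, rfl⟩
    · obtain ⟨e1, e2, e3⟩ := lowH (a := a) (b := b) h hs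
      rw [e1, e2, e3, ← h.sum s hs]; ring
    · obtain ⟨e1, e2, e3⟩ := highH (a := a) (b := b) h hs
      rw [e1, e2, e3, ← h.sum s hs]; ring

/-- the contraction gauge -/
def Bd (M : ℝ) (f : ℝ → ℝ) : Prop := ∀ t ∈ Icc (0 : ℝ) 1, |f t| ≤ M ∧ 2 * |f (t + 2)| ≤ M

lemma contr (ha : a ∈ Icc (0.352 : ℝ) 0.353) (hb : b ∈ Icc (0.19 : ℝ) 0.193) (h : Adm 0 f) {M : ℝ}
    (hM : Bd M f) : Bd (0.95 * M) (T a b f) := by
  intro t ht
  obtain ⟨a1, a2⟩ := ha
  obtain ⟨b1, b2⟩ := hb
  rcases halves ht with ⟨s, hs, rfl⟩ | ⟨s, hs, rfl⟩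
  · obtain ⟨e1, -, e3⟩ := lowH (a := a) (b := b) h hs
    obtain ⟨m1, m2⟩ := hM s hs
    have e : f (s + 1) = -f s - f (s + 2) := by linarith [h.sum s hs]
    rw [e1, e3, e, abs_mul, abs_of_pos (by linarith : 0 < 1 - a),
      show a * f (s + 2) - b * (-f s - f (s + 2)) = b * f s + (a + b) * f (s + 2) by ring]
    have := abs_add_le (b * f s) ((a + b) * f (s + 2))
    rw [abs_mul, abs_mul, abs_of_pos (by linarith : 0 < b), abs_of_pos (by linarith : 0 < a + b)] at this
    constructor <;> nlinarith [abs_nonneg (f s), abs_nonneg (f (s + 2))]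
  · obtain ⟨e1, -, e3⟩ := highH (a := a) (b := b) h hs
    obtain ⟨m1, m2⟩ := hM s hs
    have e : f (s + 1) = -f s - f (s + 2) := by linarith [h.sum s hs]
    rw [e1, e3, e, abs_mul, abs_neg, abs_of_pos (by linarith : 0 < b),
      show (1 - a) * (-f s - f (s + 2)) + (1 + b) * f s = (a + b) * f s - (1 - a) * f (s + 2) by ring]
    have := abs_sub ((a + b) * f s) ((1 - a) * f (s + 2))
    rw [abs_mul, abs_mul, abs_of_pos (by linarith : 0 < 1 - a), abs_of_pos (by linarith : 0 < a + b)] at this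
    constructor <;> nlinarith [abs_nonneg (f s), abs_nonneg (f (s + 2))]

lemma Bd.sup (h : Adm 0 f) {M : ℝ} (hM : Bd M f) (x : ℝ) : |f x| ≤ 2 * M := by
  have M0 : 0 ≤ M := (abs_nonneg _).trans (hM 0 (by simp)).1
  rcases le_total x 0 with h0 | h0
  · rw [h.left x h0, abs_zero]; positivity
  rcases le_total x 1 with h1 | h1
  · linarith [(hM x ⟨h0, h1⟩).1]
  rcases le_total x 2 with h2 | h2
  · have hs : x - 1 ∈ Icc (0 : ℝ) 1 := ⟨by linarith, by linarith⟩
    obtain ⟨m1, m2⟩ := hM _ hs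
    have e := h.sum _ hs
    rw [sub_add_cancel] at e
    rw [show f x = -f (x - 1) - f (x - 1 + 2) by linarith]
    have := abs_sub (-f (x - 1)) (f (x - 1 + 2))
    rw [abs_neg] at this
    linarith
  rcases le_total x 3 with h3 | h3
  · have := (hM (x - 2) ⟨by linarith, by linarith⟩).2
    rw [sub_add_cancel] at this
    linarith
  · rw [h.right x h3, abs_zero]; positivity

lemma hat_adm : Adm 1 (fun x => max 0 (1 - |x - 1|)) := by
  refine ⟨by fun_prop, fun x hx => ?_, fun x hx => ?_, fun t ht => ?_⟩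
  · rw [abs_of_neg (by linarith), max_eq_left (by linarith)]
  · rw [abs_of_pos (by linarith), max_eq_left (by linarith)]
  · obtain ⟨h0, h1⟩ := ht
    rw [abs_of_nonpos (by linarith), abs_of_nonneg (by linarith : 0 ≤ t + 1 - 1),
      abs_of_nonneg (by linarith : 0 ≤ t + 2 - 1), max_eq_right (by linarith),
      max_eq_right (by linarith), max_eq_left (by linarith)]
    ring

lemma Adm.bdd (h : Adm c f) : ∃ M, 0 ≤ M ∧ ∀ x, |f x| ≤ M := by
  obtain ⟨C, hC⟩ := isCompact_Icc.exists_bound_of_continuousOn (h.cont.continuousOn (s := Icc 0 3))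
  have C0 : 0 ≤ C := (norm_nonneg _).trans (hC 0 (by simp))
  refine ⟨C, C0, fun x => ?_⟩
  rcases le_total x 0 with h0 | h0
  · rw [h.left x h0, abs_zero]; exact C0
  rcases le_total x 3 with h3 | h3
  · exact hC x ⟨h0, h3⟩
  · rw [h.right x h3, abs_zero]; exact C0

theorem exists_fixed (ha : a ∈ Icc (0.352 : ℝ) 0.353) (hb : b ∈ Icc (0.19 : ℝ) 0.193) :
    ∃ φ, Adm 1 φ ∧ T a b φ = φ := by
  set f : ℕ → ℝ → ℝ := fun n => (T a b)^[n] (fun x => max 0 (1 - |x - 1|)) with hf
  have hs : ∀ n, f (n + 1) = T a b (f n) := fun n => Function.iterate_succ_apply' _ _ _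
  have h1 : ∀ n, Adm 1 (f n) := by
    intro n
    induction n with
    | zero => exact hat_adm
    | succ n ih => rw [hs]; exact ih.T a b
  set g : ℕ → ℝ → ℝ := fun n x => f (n + 1) x - f n x with hg
  have h2 : ∀ n, Adm 0 (g n) := fun n =>
    ⟨(h1 _).cont.sub (h1 _).cont, fun x hx => by simp only [hg, (h1 _).left x hx, sub_self],
      fun x hx => by simp only [hg, (h1 _).right x hx, sub_self],
      fun t ht => by simp only [hg]; linarith [(h1 n).sum t ht, (h1 (n + 1)).sum t ht]⟩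
  obtain ⟨M, M0, hM⟩ := (h2 0).bdd
  have h3 : ∀ n, Bd (0.95 ^ n * (2 * M)) (g n) := by
    intro n
    induction n with
    | zero => exact fun t _ => ⟨by linarith [hM t], by linarith [hM (t + 2)]⟩
    | succ n ih =>
      have e : g (n + 1) = T a b (g n) := by
        funext x
        simp only [hg]
        rw [hs (n + 1), hs n]
        simp only [T]
        ring
      rw [e, pow_succ, mul_comm _ (0.95 : ℝ), mul_assoc]
      exact contr ha hb (h2 n) ih
  have hsum : Summable fun n : ℕ => 2 * ((0.95 : ℝ) ^ n * (2 * M)) :=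
    ((summable_geometric_of_lt_one (by norm_num) (by norm_num)).mul_right _).mul_left _
  have h4 : ∀ n x, ‖g n x‖ ≤ 2 * (0.95 ^ n * (2 * M)) := fun n x => Bd.sup (h2 n) (h3 n) x
  set φ : ℝ → ℝ := fun x => f 0 x + ∑' n, g n x
  have lim : ∀ x, Tendsto (fun n => f n x) atTop (𝓝 (φ x)) := by
    intro x
    have := ((Summable.of_norm_bounded hsum fun n => h4 n x).hasSum.tendsto_sum_nat).const_add (f 0 x)
    simp only [hg, Finset.sum_range_sub (fun n => f n x), add_sub_cancel] at this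
    exact this
  refine ⟨φ, ⟨(h1 0).cont.add (continuous_tsum (fun n => (h2 n).cont) hsum h4), fun x hx => ?_,
    fun x hx => ?_, fun t ht => ?_⟩, funext fun x => ?_⟩
  · exact tendsto_nhds_unique (lim x) (by simp only [(h1 _).left x hx]; exact tendsto_const_nhds)
  · exact tendsto_nhds_unique (lim x) (by simp only [(h1 _).right x hx]; exact tendsto_const_nhds)
  · exact tendsto_nhds_unique (((lim t).add (lim (t + 1))).add (lim (t + 2)))
      (by simp only [(h1 _).sum t ht]; exact tendsto_const_nhds)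
  · refine tendsto_nhds_unique ?_ ((tendsto_add_atTop_iff_nat 1).2 (lim x))
    simp only [hs, T]
    exact ((((lim _).const_mul _).add ((lim _).const_mul _)).add ((lim _).const_mul _)).sub
      ((lim _).const_mul _)

lemma exists_ab : ∃ a b : ℝ, a ∈ Icc (0.352 : ℝ) 0.353 ∧ b ∈ Icc (0.19 : ℝ) 0.193 ∧
    b * (1 - a) = a ^ 2 ∧ a * (1 - a) = b * (1 + b) := by
  obtain ⟨a, ha, h⟩ := intermediate_value_Icc (a := (0.352 : ℝ)) (b := 0.353) (by norm_num)
    (f := fun a => 2 * a ^ 3 - 4 * a ^ 2 + 4 * a - 1) (by fun_prop) (show (0 : ℝ) ∈ _ by norm_num)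
  have h0 : 0 < 1 - a := by linarith [ha.2]
  refine ⟨a, a ^ 2 / (1 - a), ha, ⟨?_, ?_⟩, div_mul_cancel₀ _ h0.ne', ?_⟩
  · rw [le_div_iff₀ h0]; nlinarith [ha.1, ha.2]
  · rw [div_le_iff₀ h0]; nlinarith [ha.1, ha.2]
  · field_simp
    simp only at h
    have : a ≠ 0 := by linarith [ha.1]
    linear_combination (-a) * h

lemma cardinal (ha : a ∈ Icc (0.352 : ℝ) 0.353) (hb : b ∈ Icc (0.19 : ℝ) 0.193)
    (h1 : b * (1 - a) = a ^ 2) (h : Adm 1 f) (hT : T a b f = f) (k : ℤ) :
    f (2 / 3 + k) = if k = 0 then 1 else 0 := by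
  obtain ⟨l1, l2, l3⟩ := lowH (a := a) (b := b) h (s := 2 / 3) (by norm_num)
  obtain ⟨r1, -, r3⟩ := highH (a := a) (b := b) h (s := 1 / 3) (by norm_num)
  have s1 := h.sum (2 / 3) (by norm_num)
  rw [hT] at l1 l2 l3 r1 r3
  norm_num at l1 l2 l3 r1 r3 s1
  obtain ⟨u, hu⟩ : ∃ u, f (2 / 3) = u + 1 := ⟨f (2 / 3) - 1, by ring⟩
  have e5 : f (5 / 3) = -u - f (8 / 3) := by linarith
  rw [l1, l2, e5, hu] at r1
  rw [l3, e5] at r3
  obtain ⟨w, hw⟩ : ∃ w, f (8 / 3) = w := ⟨_, rfl⟩
  rw [hw] at r1 r3 e5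
  have k1 : u * (1 - (1 - a) * a) = -(1 - a) * (a + b) * w := by linear_combination r1 + h1
  have k2 : w * (1 + b * (a + b)) = -b ^ 2 * u := by linear_combination r3
  have k3 : u * ((1 - (1 - a) * a) * (1 + b * (a + b)) - (1 - a) * (a + b) * b ^ 2) = 0 := by
    linear_combination (1 + b * (a + b)) * k1 - (1 - a) * (a + b) * k2
  obtain ⟨a1, a2⟩ := ha
  obtain ⟨b1, b2⟩ := hb
  have p1 : 0 < b * (a + b) := by nlinarith
  have u0 : u = 0 := by
    refine (mul_eq_zero.1 k3).resolve_right (ne_of_gt ?_)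
    have q1 : (1 - a) * a ≤ 1 / 4 := by nlinarith [sq_nonneg (a - 1 / 2)]
    have q2 : (1 - a) * (a + b) ≤ 1 := by nlinarith
    have q3 : b ^ 2 ≤ 1 / 4 := by nlinarith
    nlinarith [sq_nonneg b]
  have w0 : w = 0 := by
    rw [u0, mul_zero] at k2
    exact (mul_eq_zero.1 k2).resolve_right (by linarith)
  rcases lt_trichotomy k 0 with k0 | rfl | k0
  · have : (k : ℝ) ≤ -1 := by exact_mod_cast (by omega : k ≤ -1)
    rw [if_neg k0.ne, h.left _ (by linarith)]
  · simp [hu, u0]
  · rw [if_neg k0.ne']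
    rcases (by omega : k = 1 ∨ k = 2 ∨ 3 ≤ k) with rfl | rfl | k3
    · norm_num; linarith
    · norm_num; linarith
    · have : (3 : ℝ) ≤ k := by exact_mod_cast k3
      exact h.right _ (by linarith)

lemma Adm.cs (h : Adm c f) : HasCompactSupport f :=
  HasCompactSupport.intro (isCompact_Icc (a := 0) (b := 3)) fun x hx => by
    rcases le_total x 0 with h0 | h0
    · exact h.left x h0
    · exact h.right x (by by_contra h3; exact hx ⟨h0, by linarith⟩)

lemma Adm.int (h : Adm c f) {g : ℝ → ℝ} (hg : Continuous g) : Integrable fun x => f x * g x :=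
  (h.cont.mul hg).integrable_of_hasCompactSupport h.cs.mul_right

/-- autocorrelation -/
noncomputable def A (f : ℝ → ℝ) (s : ℝ) : ℝ := ∫ x, f x * f (x - s)

lemma A_neg (s : ℝ) : A f (-s) = A f s := by
  rw [A, A, ← integral_sub_right_eq_self _ s]
  simp [mul_comm]

lemma A_far (h : Adm c f) {s : ℝ} (hs : 3 ≤ s) : A f s = 0 := by
  have : ∀ x, f x * f (x - s) = 0 := by
    intro x
    rcases le_total x 3 with h3 | h3
    · rw [h.left (x - s) (by linarith), mul_zero]
    · rw [h.right x h3, zero_mul]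
  simp [A, this]

lemma A_two (p q : ℝ) : ∫ x, f (2 * x - p) * f (2 * x - q) = A f (q - p) / 2 := by
  have := Measure.integral_comp_mul_left (fun y => f (y - p) * f (y - q)) 2
  rw [this, A, ← integral_add_right_eq_self _ p]
  simp only [add_sub_cancel_right, smul_eq_mul, show ∀ x : ℝ, x + p - q = x - (q - p) from fun x => by ring]
  rw [abs_of_pos (by norm_num)]
  ring

lemma A_rec (h : Adm c f) (hT : T a b f = f) (s : ℝ) :
    A f s = ∑ m : Fin 4, ∑ n : Fin 4, ![1 - a, 1 + b, a, -b] m * ![1 - a, 1 + b, a, -b] n *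
      (A f (2 * s + n - m) / 2) := by
  have e : ∀ x, f x = ∑ m : Fin 4, ![1 - a, 1 + b, a, -b] m * f (2 * x - m) := by
    intro x
    conv_lhs => rw [← hT]
    simp [T, Fin.sum_univ_four]
    ring
  have hi : ∀ p q : ℝ, Integrable fun x => f (2 * x - p) * f (2 * x - q) := by
    intro p q
    have := ((h.int (g := fun y => f (y + p - q)) (by have := h.cont; fun_prop)).comp_sub_right p).comp_mul_left'
      (R := 2) (by norm_num)
    simpa using this
  have e2 : ∀ x, f x * f (x - s) = ∑ m : Fin 4, ∑ n : Fin 4, ![1 - a, 1 + b, a, -b] m *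
      ![1 - a, 1 + b, a, -b] n * (f (2 * x - m) * f (2 * x - (2 * s + n))) := by
    intro x
    rw [e x, e (x - s), Finset.sum_mul_sum]
    refine Finset.sum_congr rfl fun m _ => Finset.sum_congr rfl fun n _ => ?_
    rw [show 2 * (x - s) - n = 2 * x - (2 * s + n) by ring]
    ring
  rw [A]
  simp only [e2]
  rw [integral_finsetSum _ fun m _ => integrable_finsetSum _ fun n _ => (hi _ _).const_mul _]
  refine Finset.sum_congr rfl fun m _ => ?_
  rw [integral_finsetSum _ fun n _ => (hi _ _).const_mul _]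
  refine Finset.sum_congr rfl fun n _ => ?_
  rw [integral_const_mul, A_two]

lemma Adm.pou (h : Adm c f) (x : ℝ) {s : Finset ℤ} (hs : ∀ k : ℤ, (k : ℝ) < x → x < k + 3 → k ∈ s) :
    ∑ k ∈ s, f (x - k) = c := by
  have h1 := Int.floor_le x
  have h2 := Int.lt_floor_add_one x
  have h3 := h.sum (x - ⌊x⌋) ⟨by linarith, by linarith⟩
  have e : ∑ k ∈ ({⌊x⌋, ⌊x⌋ - 1, ⌊x⌋ - 2} : Finset ℤ), f (x - k) = c := by
    rw [Finset.sum_insert (by simp; omega), Finset.sum_pair (by omega), ← h3]
    push_cast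
    ring_nf
  rw [← e]
  refine Finset.sum_congr_of_eq_on_inter (fun k _ hk => ?_) (fun k _ hk => ?_) fun _ _ _ => rfl
  · simp only [Finset.mem_insert, Finset.mem_singleton, not_or] at hk
    rcases (by omega : ⌊x⌋ + 1 ≤ k ∨ k ≤ ⌊x⌋ - 3) with k1 | k1
    · have : (⌊x⌋ : ℝ) + 1 ≤ k := by exact_mod_cast k1
      exact h.left _ (by linarith)
    · have : (k : ℝ) ≤ ⌊x⌋ - 3 := by exact_mod_cast k1
      exact h.right _ (by linarith)
  · by_contra hne
    apply hk
    apply hs
    · by_contra h4; exact hne (h.left _ (by linarith))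
    · by_contra h4; exact hne (h.right _ (by linarith))

lemma Adm.integral (h : Adm c f) : ∫ x, f x = c := by
  have hs : Function.support f ⊆ Ioc 0 3 := fun x hx =>
    ⟨by by_contra h4; exact hx (h.left _ (by linarith)), by by_contra h4; exact hx (h.right _ (by linarith))⟩
  have hi : ∀ p q : ℝ, IntervalIntegrable f volume p q := fun p q => h.cont.intervalIntegrable p q
  have hc := h.cont
  rw [← intervalIntegral.integral_eq_integral_of_support_subset hs,
    ← intervalIntegral.integral_add_adjacent_intervals (hi 0 2) (hi 2 3),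
    ← intervalIntegral.integral_add_adjacent_intervals (hi 0 1) (hi 1 2)]
  have e1 := intervalIntegral.integral_comp_add_right (a := 0) (b := 1) f 1
  have e2 := intervalIntegral.integral_comp_add_right (a := 0) (b := 1) f 2
  norm_num at e1 e2
  have : ∫ x in (0 : ℝ)..1, (f x + f (x + 1) + f (x + 2)) = c := by
    rw [intervalIntegral.integral_congr (g := fun _ => c) fun t ht => h.sum t (by simpa using ht)]
    simp
  rw [intervalIntegral.integral_add (Continuous.intervalIntegrable (by fun_prop) _ _)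
    (Continuous.intervalIntegrable (by fun_prop) _ _), intervalIntegral.integral_add (hi _ _)
    (Continuous.intervalIntegrable (by fun_prop) _ _), intervalIntegral.integral_comp_add_right f,
    intervalIntegral.integral_comp_add_right f] at this
  norm_num at this
  exact this

theorem orth (ha : a ∈ Icc (0.352 : ℝ) 0.353) (hb : b ∈ Icc (0.19 : ℝ) 0.193)
    (h2 : a * (1 - a) = b * (1 + b)) (h : Adm 1 f) (hT : T a b f = f) (k : ℤ) :
    A f k = if k = 0 then 1 else 0 := by
  have r1 := A_rec h hT 1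
  have r2 := A_rec h hT 2
  simp only [Fin.sum_univ_four] at r1 r2
  simp at r1 r2
  norm_num at r1 r2
  simp only [A_neg, A_far h (s := 3) (by norm_num), A_far h (s := 4) (by norm_num),
    A_far h (s := 5) (by norm_num), A_far h (s := 6) (by norm_num), A_far h (s := 7) (by norm_num)] at r1 r2
  have k2 : A f 2 = -b * (1 - a) * A f 1 / 2 := by linear_combination r2 + A f 2 / 2 * h2
  have k1 : A f 1 = 2 * A f 2 := by linear_combination 2 * r1 + (A f 0 - 2 * A f 2) * h2
  have a1 : A f 1 = 0 := by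
    have : A f 1 * (1 + b * (1 - a)) = 0 := by linear_combination k1 + 2 * k2
    exact (mul_eq_zero.1 this).resolve_right (by nlinarith [ha.2, hb.1])
  have a2 : A f 2 = 0 := by linarith
  have a0 : A f 0 = 1 := by
    have e : ∀ x, ∑ k ∈ ({-2, -1, 0, 1, 2} : Finset ℤ), f x * f (x - k) = f x := by
      intro x
      by_cases hx : f x = 0
      · simp [hx]
      rw [← Finset.mul_sum, h.pou x, mul_one]
      intro k k1 k2
      have x0 : 0 < x := by by_contra h4; exact hx (h.left _ (by linarith))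
      have x3 : x < 3 := by by_contra h4; exact hx (h.right _ (by linarith))
      have : k < 3 := by exact_mod_cast k1.trans x3
      have : -3 < k := by exact_mod_cast (by linarith : (-3 : ℝ) < k)
      simp only [Finset.mem_insert, Finset.mem_singleton]
      omega
    have := integral_finsetSum (μ := volume) ({-2, -1, 0, 1, 2} : Finset ℤ)
      (f := fun k x => f x * f (x - k)) fun k _ => h.int (by have := h.cont; fun_prop)
    simp only [e, h.integral] at this
    change 1 = ∑ k ∈ ({-2, -1, 0, 1, 2} : Finset ℤ), A f k at this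
    simpa [A_neg, a1, a2] using this.symm
  have key : ∀ n : ℕ, A f n = if n = 0 then 1 else 0 := by
    intro n
    rcases (by omega : n = 0 ∨ n = 1 ∨ n = 2 ∨ 3 ≤ n) with rfl | rfl | rfl | k3
    · simpa using a0
    · simpa using a1
    · simpa using a2
    · rw [if_neg (by omega), A_far h (by exact_mod_cast k3)]
  obtain ⟨n, rfl | rfl⟩ := k.eq_nat_or_neg
  · simpa using key n
  · simpa [A_neg] using key n

end Pool.Agent.H92.Scaling
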