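import Pool.Agent.H92.Scaling

set_option autoImplicit false
open MeasureTheory Filter Topology Set

namespace Pool.Agent.H92.Scaling

variable {a b c : ℝ} {f : ℝ → ℝ}

/-- dilates and translates -/
noncomputable def dl (f : ℝ → ℝ) (j k : ℤ) (x : ℝ) : ℂ :=
  (((2 : ℝ) ^ ((j : ℝ) / 2) : ℝ) : ℂ) * (f ((2 : ℝ) ^ j * x - k) : ℂ)

lemma rp_sq (j : ℤ) : (2 : ℝ) ^ ((j : ℝ) / 2) * (2 : ℝ) ^ ((j : ℝ) / 2) = 2 ^ j := by
  rw [← Real.rpow_add two_pos, add_halves, Real.rpow_intCast]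

lemma dl_cont (h : Adm c f) (j k : ℤ) : Continuous (dl f j k) := by
  have := h.cont
  unfold dl; fun_prop

lemma dl_supp (h : Adm c f) {j k : ℤ} {x : ℝ} (hx : dl f j k x ≠ 0) :
    (k : ℝ) < 2 ^ j * x ∧ 2 ^ j * x < k + 3 := by
  constructor
  · by_contra h4; exact hx (by rw [dl, h.left _ (by linarith)]; simp)
  · by_contra h4; exact hx (by rw [dl, h.right _ (by linarith)]; simp)

lemma dl_mem (h : Adm c f) (j k : ℤ) : MemLp (dl f j k) 2 volume := by
  have hp : (0 : ℝ) < 2 ^ j := by positivity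
  refine (dl_cont h j k).memLp_of_hasCompactSupport
    (HasCompactSupport.intro (isCompact_Icc (a := (k : ℝ) / 2 ^ j) (b := ((k : ℝ) + 3) / 2 ^ j)) fun x hx => ?_)
  by_contra h4
  obtain ⟨h1, h2⟩ := dl_supp h h4
  exact hx ⟨by rw [div_le_iff₀' hp]; exact h1.le, by rw [le_div_iff₀' hp]; exact h2.le⟩

lemma dl_orth (ho : ∀ k : ℤ, A f k = if k = 0 then 1 else 0) (j k l : ℤ) :
    ∫ x, dl f j k x * (starRingEnd ℂ) (dl f j l x) = if k = l then 1 else 0 := by
  have hp : (0 : ℝ) < 2 ^ j := by positivity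
  have e : ∀ x, dl f j k x * (starRingEnd ℂ) (dl f j l x) =
      ((2 ^ j * (f (2 ^ j * x - k) * f (2 ^ j * x - l)) : ℝ) : ℂ) := by
    intro x
    rw [dl, dl, ← rp_sq, map_mul, Complex.conj_ofReal, Complex.conj_ofReal, rp_sq]
    have := congrArg Complex.ofReal (rp_sq j)
    push_cast at this ⊢
    rw [← this]; ring
  simp only [e]
  have h1 := Measure.integral_comp_mul_left (fun y => f (y - k) * f (y - l)) (2 ^ j)
  rw [integral_complex_ofReal, integral_const_mul, h1, ← integral_add_right_eq_self _ (k : ℝ)]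
  simp only [add_sub_cancel_right, smul_eq_mul,
    show ∀ x : ℝ, x + k - l = x - ((l - k : ℤ) : ℝ) from fun x => by push_cast; ring]
  rw [abs_of_pos (inv_pos.2 hp), mul_inv_cancel_left₀ hp.ne']
  change ((A f _ : ℝ) : ℂ) = _
  rw [ho]
  simp only [sub_eq_zero, eq_comm (a := l)]
  split_ifs <;> simp

lemma nested (hT : T a b f = f) (j : ℤ) :
    Submodule.span ℂ (range (dl f j)) ≤ Submodule.span ℂ (range (dl f (j + 1))) := by
  rw [Submodule.span_le]
  rintro _ ⟨k, rfl⟩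
  set r : ℂ := (((2 : ℝ) ^ ((j : ℝ) / 2) : ℝ) : ℂ) / (((2 : ℝ) ^ (((j + 1 : ℤ) : ℝ) / 2) : ℝ) : ℂ) with hr
  have e : dl f j k = (r * (1 - a)) • dl f (j + 1) (2 * k) + (r * (1 + b)) • dl f (j + 1) (2 * k + 1) +
      (r * a) • dl f (j + 1) (2 * k + 2) - (r * b) • dl f (j + 1) (2 * k + 3) := by
    funext x
    have h0 : (((2 : ℝ) ^ (((j + 1 : ℤ) : ℝ) / 2) : ℝ) : ℂ) ≠ 0 := by
      rw [Complex.ofReal_ne_zero]; positivity
    have e1 : ∀ m : ℝ, (2 : ℝ) ^ (j + 1) * x - (2 * k + m) = 2 * (2 ^ j * x - k) - m := fun m => by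
      rw [zpow_add_one₀ two_ne_zero]; ring
    have e0 := e1 0
    simp only [add_zero, sub_zero] at e0
    simp only [dl, Pi.add_apply, Pi.sub_apply, Pi.smul_apply, smul_eq_mul, hr]
    conv_lhs => rw [← hT]
    simp only [Int.cast_mul, Int.cast_add (2 * k), Int.cast_ofNat, Int.cast_one, e0, e1, T]
    field_simp
    push_cast
    ring
  rw [SetLike.mem_coe, e]
  have m : ∀ l, dl f (j + 1) l ∈ Submodule.span ℂ (range (dl f (j + 1))) := fun l =>
    Submodule.subset_span ⟨l, rfl⟩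
  exact sub_mem (add_mem (add_mem (Submodule.smul_mem _ _ (m _)) (Submodule.smul_mem _ _ (m _)))
    (Submodule.smul_mem _ _ (m _))) (Submodule.smul_mem _ _ (m _))

lemma span_mem (h : Adm c f) (j : ℤ) {g : ℝ → ℂ} (hg : g ∈ Submodule.span ℂ (range (dl f j))) :
    MemLp g 2 volume := by
  induction hg using Submodule.span_induction with
  | mem x hx => obtain ⟨k, rfl⟩ := hx; exact dl_mem h j k
  | zero => exact MemLp.zero
  | add x y _ _ hx hy => exact hx.add hy
  | smul r x _ hx => exact hx.const_smul r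

lemma window (h : Adm c f) {M : ℝ} (hM : ∀ x, |f x| ≤ M) (y : ℝ) (s : Finset ℤ) {u : ℤ → ℂ} {B : ℝ}
    (hB : 0 ≤ B) (hu : ∀ k ∈ s, (k : ℝ) < y → y < k + 3 → ‖u k‖ ≤ B) :
    ‖∑ k ∈ s, u k * f (y - k)‖ ≤ 3 * (B * M) := by
  classical
  have M0 : 0 ≤ M := (abs_nonneg _).trans (hM 0)
  have h1 := Int.floor_le y
  have h2 := Int.lt_floor_add_one y
  rw [← Finset.sum_filter_of_ne (p := fun k => k ∈ Finset.Icc (⌊y⌋ - 2) ⌊y⌋)]
  · refine (norm_sum_le_of_le (n := fun _ => B * M) _ fun k hk => ?_).trans ?_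
    · by_cases h0 : f (y - k) = 0
      · simp [h0]; positivity
      rw [norm_mul, Complex.norm_real]
      refine mul_le_mul (hu k (Finset.mem_filter.1 hk).1 ?_ ?_) (hM _) (norm_nonneg _) hB
      · by_contra h4; exact h0 (h.left _ (by linarith))
      · by_contra h4; exact h0 (h.right _ (by linarith))
    · rw [Finset.sum_const, nsmul_eq_mul]
      gcongr
      have : (Finset.filter (fun k => k ∈ Finset.Icc (⌊y⌋ - 2) ⌊y⌋) s).card ≤
          (Finset.Icc (⌊y⌋ - 2) ⌊y⌋).card :=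
        Finset.card_le_card fun k hk => (Finset.mem_filter.1 hk).2
      rw [Int.card_Icc] at this
      exact_mod_cast this.trans (by omega)
  · intro k _ hk
    have h0 : f (y - k) ≠ 0 := fun h0 => hk (by simp [h0])
    have k1 : (k : ℝ) < ⌊y⌋ + 1 := by by_contra h4; exact h0 (h.left _ (by linarith))
    have k2 : (⌊y⌋ : ℝ) < k + 3 := by by_contra h4; exact h0 (h.right _ (by linarith))
    have : k < ⌊y⌋ + 1 := by exact_mod_cast k1
    have : ⌊y⌋ < k + 3 := by exact_mod_cast k2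
    rw [Finset.mem_Icc]; omega

theorem dense (h : Adm 1 f) {F : ℝ → ℂ} (hF : MemLp F 2 volume) {ε : ENNReal} (hε : 0 < ε) :
    ∃ j : ℤ, ∃ G ∈ Submodule.span ℂ (range (dl f j)), eLpNorm (F - G) 2 volume < ε := by
  obtain ⟨δ, δ0, hδ⟩ : ∃ δ : ENNReal, 0 < δ ∧ δ + δ < ε := by
    obtain ⟨δ, h1, h2⟩ := ENNReal.exists_nnreal_pos_mul_lt (a := 2) (by simp) hε.ne'
    exact ⟨δ, by simpa using h1, by rwa [← mul_two]⟩
  obtain ⟨g, g1, g2, g3, g4⟩ := hF.exists_hasCompactSupport_eLpNorm_sub_le (by simp) δ0.ne'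
  obtain ⟨R, hR⟩ := g1.isCompact.isBounded.subset_closedBall 0
  have gz : ∀ x, R < |x| → g x = 0 := fun x hx => by
    by_contra h0
    have := hR (subset_tsupport _ h0)
    simp at this
    linarith
  obtain ⟨M, M0, hM⟩ := h.bdd
  set V := volume (Icc (-(R + 3)) (R + 3)) ^ (1 / (2 : ENNReal).toReal)
  have hV : V ≠ ⊤ := ENNReal.rpow_ne_top_of_nonneg (by norm_num) measure_Icc_lt_top.ne
  obtain ⟨η, η0, hη⟩ := ENNReal.exists_nnreal_pos_mul_lt hV δ0.ne'
  have η1 : (0 : ℝ) < η / (3 * M + 1) := by positivity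
  obtain ⟨ρ, ρ0, hρ⟩ := Metric.uniformContinuous_iff.1 (g1.uniformContinuous_of_continuous g3) _ η1
  obtain ⟨n, hn⟩ := pow_unbounded_of_one_lt (3 / ρ) (one_lt_two (α := ℝ))
  have hp : (1 : ℝ) ≤ 2 ^ n := one_le_pow₀ one_le_two
  obtain ⟨N, hN⟩ := exists_nat_gt (2 ^ n * (|R| + 3) + 3 : ℝ)
  set s := Finset.Icc (-(N : ℤ)) N
  set G : ℝ → ℂ := fun x => ∑ k ∈ s, g (k / 2 ^ n) * f (2 ^ n * x - k) with hG
  have hGs : G ∈ Submodule.span ℂ (range (dl f n)) := by
    have : G = ∑ k ∈ s, (g (k / 2 ^ n) / (((2 : ℝ) ^ (((n : ℤ) : ℝ) / 2) : ℝ) : ℂ)) • dl f n k := by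
      funext x
      have h0 : (((2 : ℝ) ^ (((n : ℤ) : ℝ) / 2) : ℝ) : ℂ) ≠ 0 := by
        rw [Complex.ofReal_ne_zero]; positivity
      simp only [hG, Finset.sum_apply, Pi.smul_apply, dl, smul_eq_mul, zpow_natCast]
      refine Finset.sum_congr rfl fun k _ => ?_
      field_simp
    rw [this]
    exact Submodule.sum_mem _ fun k _ => Submodule.smul_mem _ _ (Submodule.subset_span ⟨k, rfl⟩)
  have near : ∀ (k : ℤ) (x : ℝ), (k : ℝ) < 2 ^ n * x → 2 ^ n * x < k + 3 →
      |k / 2 ^ n - x| < 3 / 2 ^ n := by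
    intro k x k1 k2
    rw [show k / 2 ^ n - x = (k - 2 ^ n * x) / 2 ^ n by field_simp, abs_div, abs_of_pos (by positivity : (0 : ℝ) < 2 ^ n)]
    gcongr
    rw [abs_lt]; constructor <;> linarith
  have t3 : (3 : ℝ) / 2 ^ n ≤ 3 := div_le_self (by norm_num) hp
  have Gz : ∀ x, R + 3 < |x| → G x = 0 := by
    intro x hx
    have := window h hM (2 ^ n * x) s (u := fun k => g (k / 2 ^ n)) le_rfl fun k _ k1 k2 => by
      rw [gz, norm_zero]
      linarith [near k x k1 k2, abs_sub_abs_le_abs_sub x (k / 2 ^ n), abs_sub_comm x (k / 2 ^ n)]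
    simpa using this
  have hd : ∀ x, dist (g x) (G x) ≤ η := by
    intro x
    rcases lt_or_ge (R + 3) |x| with hx | hx
    · rw [Gz x hx, gz x (by linarith), dist_self]; positivity
    have p1 := h.pou (2 ^ n * x) (s := s) fun k k1 k2 => by
      have b1 : |2 ^ n * x| ≤ 2 ^ n * (|R| + 3) := by
        rw [abs_mul, abs_of_pos (by positivity : (0 : ℝ) < 2 ^ n)]
        gcongr
        linarith [le_abs_self R]
      have b2 := abs_le.1 b1
      have c1 : (k : ℝ) < N := by linarith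
      have c2 : -(N : ℝ) < k := by linarith
      have : k < N := by exact_mod_cast c1
      have : -(N : ℤ) < k := by exact_mod_cast c2
      rw [Finset.mem_Icc]; omega
    have e : G x - g x = ∑ k ∈ s, (g (k / 2 ^ n) - g x) * f (2 ^ n * x - k) := by
      simp only [sub_mul, Finset.sum_sub_distrib, ← Finset.mul_sum, ← Complex.ofReal_sum, p1, hG]
      simp
    rw [dist_comm, dist_eq_norm, e]
    refine (window h hM (2 ^ n * x) s η1.le fun k _ k1 k2 => ?_).trans ?_
    · rw [← dist_eq_norm]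
      refine (hρ ((near k x k1 k2).trans ?_)).le
      rw [div_lt_iff₀ (by positivity)]
      rwa [div_lt_iff₀' ρ0] at hn
    · rw [← mul_assoc, mul_div_assoc', div_mul_eq_mul_div, div_le_iff₀ (by positivity)]
      nlinarith [η.2]
  have sub : ∀ u : ℝ → ℂ, (∀ x, R + 3 < |x| → u x = 0) → u.support ⊆ Icc (-(R + 3)) (R + 3) :=
    fun u hu x hx => abs_le.1 (not_lt.1 fun h0 => hx (hu x h0))
  have h5 := eLpNorm_sub_le_of_dist_bdd volume (p := 2) (by simp) measurableSet_Icc η.coe_nonneg hd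
    (sub g fun x hx => gz x (by linarith)) (sub G Gz)
  refine ⟨n, G, hGs, lt_of_le_of_lt ?_ hδ⟩
  rw [show F - G = (F - g) + (g - G) by abel]
  refine (eLpNorm_add_le (hF.sub g4).1 (g4.sub (span_mem h _ hGs)).1 one_le_two).trans
    (add_le_add g2 (h5.trans ?_))
  rw [ENNReal.ofReal_coe_nnreal]
  exact hη.le

lemma span_bd (h : Adm c f) (ho : ∀ k : ℤ, A f k = if k = 0 then 1 else 0) {M : ℝ} (hM : ∀ x, |f x| ≤ M)
    (j : ℤ) {g : ℝ → ℂ} (hg : g ∈ Submodule.span ℂ (range (dl f j))) (x : ℝ) :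
    ‖g x‖ ≤ 3 * ((eLpNorm g 2 volume).toReal * 2 ^ ((j : ℝ) / 2) * M) := by
  have gm := span_mem h j hg
  obtain ⟨u, hu⟩ := Finsupp.mem_span_range_iff_exists_finsupp.1 hg
  have e : ∀ x, g x = ∑ k ∈ u.support, u k * dl f j k x := by
    intro x; rw [← hu, Finsupp.sum, Finset.sum_apply]; rfl
  have hc : ∀ l ∈ u.support, ‖u l‖ ≤ (eLpNorm g 2 volume).toReal := by
    intro l hl
    have i1 : inner ℂ (dl_mem h j l).toLp gm.toLp = u l := by
      rw [L2.inner_def, integral_congr_ae (g := fun x => ∑ k ∈ u.support,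
        u k * (dl f j k x * (starRingEnd ℂ) (dl f j l x)))]
      · rw [integral_finsetSum (f := fun k x => u k * (dl f j k x * (starRingEnd ℂ) (dl f j l x))) _
          fun k _ => Integrable.const_mul ((dl_mem h j k).integrable_mul (dl_mem h j l).star) _]
        simp only [integral_const_mul, dl_orth ho]
        simp [hl]
      · filter_upwards [(dl_mem h j l).coeFn_toLp, gm.coeFn_toLp] with x a1 a2
        rw [a1, a2, e x, RCLike.inner_apply, Finset.sum_mul]
        simp only [mul_assoc]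
    have i2 : inner ℂ (dl_mem h j l).toLp (dl_mem h j l).toLp = 1 := by
      rw [L2.inner_def, integral_congr_ae (g := fun x => dl f j l x * (starRingEnd ℂ) (dl f j l x))]
      · rw [dl_orth ho, if_pos rfl]
      · filter_upwards [(dl_mem h j l).coeFn_toLp] with x a1
        rw [a1, RCLike.inner_apply]
    have i3 : ‖(dl_mem h j l).toLp‖ = 1 := by
      rw [norm_eq_sqrt_re_inner (𝕜 := ℂ), i2]; simp
    have := norm_inner_le_norm (𝕜 := ℂ) (dl_mem h j l).toLp gm.toLp
    rwa [i1, i3, one_mul, Lp.norm_toLp] at this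
  rw [e]
  simp only [dl, ← mul_assoc]
  rw [mul_assoc, mul_assoc, ← mul_assoc (eLpNorm g 2 volume).toReal]
  refine window h hM _ _ (by positivity) fun k hk _ _ => ?_
  rw [norm_mul, Complex.norm_real, Real.norm_of_nonneg (by positivity)]
  gcongr
  exact hc k hk

theorem inter (h : Adm c f) (ho : ∀ k : ℤ, A f k = if k = 0 then 1 else 0) {F : ℝ → ℂ}
    (hF : MemLp F 2 volume) (H : ∀ j : ℤ, ∀ ε : ENNReal, 0 < ε →
      ∃ g ∈ Submodule.span ℂ (range (dl f j)), eLpNorm (F - g) 2 volume < ε) : F =ᵐ[volume] 0 := by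
  obtain ⟨M, M0, hM⟩ := h.bdd
  have key : ∀ n : ℕ, F =ᵐ[volume.restrict (Icc (-(n : ℝ)) n)] 0 := by
    intro n
    rw [← eLpNorm_eq_zero_iff hF.1.restrict two_ne_zero, ← nonpos_iff_eq_zero]
    refine ENNReal.le_of_forall_pos_le_add fun ε ε0 _ => ?_
    set V := (volume.restrict (Icc (-(n : ℝ)) n)) univ ^ ((2 : ENNReal).toReal⁻¹)
    have hV : V ≠ ⊤ := ENNReal.rpow_ne_top_of_nonneg (by norm_num) (measure_ne_top _ _)
    obtain ⟨η, η0, hη⟩ := ENNReal.exists_nnreal_pos_mul_lt hV (b := (ε / 2 : NNReal)) (by simpa using ε0.ne')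
    set B := ((eLpNorm F 2 volume).toReal + ε / 2)
    have lim : Tendsto (fun j : ℤ => 3 * (B * 2 ^ ((j : ℝ) / 2) * M)) atBot (𝓝 0) := by
      have := (tendsto_rpow_atBot_of_base_gt_one 2 one_lt_two).comp
        ((tendsto_intCast_atBot_iff (R := ℝ) (f := id) (l := atBot)).2 tendsto_id |>.atBot_div_const two_pos)
      simpa using ((this.const_mul B).mul_const M).const_mul 3
    obtain ⟨j, hj⟩ := (lim.eventually (gt_mem_nhds (show (0 : ℝ) < η from η0))).exists
    obtain ⟨g, g1, g2⟩ := H j (ε / 2 : NNReal) (by simpa using ε0.ne')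
    have gm := span_mem h j g1
    have g3 : (eLpNorm g 2 volume).toReal ≤ B := by
      have : eLpNorm g 2 volume ≤ eLpNorm F 2 volume + (ε / 2 : NNReal) := by
        have := eLpNorm_sub_le hF.1 (hF.sub gm).1 (p := 2) one_le_two
        rw [sub_sub_cancel] at this
        exact this.trans (by gcongr)
      refine (ENNReal.toReal_mono (ENNReal.add_ne_top.2 ⟨hF.2.ne, ENNReal.coe_ne_top⟩) this).trans_eq ?_
      rw [ENNReal.toReal_add hF.2.ne ENNReal.coe_ne_top]
      simp [B]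
    have g4 : eLpNorm g 2 (volume.restrict (Icc (-(n : ℝ)) n)) ≤ V * ENNReal.ofReal η :=
      eLpNorm_le_of_ae_bound (Eventually.of_forall fun x =>
        (span_bd h ho hM j g1 x).trans (le_trans (by gcongr) hj.le))
    rw [zero_add, show F = (F - g) + g by abel]
    refine (eLpNorm_add_le (hF.sub gm).1.restrict gm.1.restrict one_le_two).trans ?_
    rw [← add_halves ε, ENNReal.coe_add]
    refine add_le_add ((eLpNorm_mono_measure _ Measure.restrict_le_self).trans g2.le) (g4.trans ?_)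
    rw [ENNReal.ofReal_coe_nnreal, mul_comm]
    exact hη.le
  have : (univ : Set ℝ) = ⋃ n : ℕ, Icc (-(n : ℝ)) n := by
    refine (eq_univ_of_forall fun x => ?_).symm
    obtain ⟨n, hn⟩ := exists_nat_ge |x|
    exact mem_iUnion.2 ⟨n, abs_le.1 hn⟩
  rw [← Measure.restrict_univ (μ := volume), this]
  exact (ae_restrict_iUnion_iff _ _).2 key

end Pool.Agent.H92.Scaling
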