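import Mathlib

set_option autoImplicit false
open Set Metric Filter Topology BoundedContinuousFunction

namespace H92.Shift

def An : Set ℂ := {z | 1 / 2 ≤ ‖z‖ ∧ ‖z‖ ≤ 1}
def An0 : Set ℂ := {z | 1 / 2 < ‖z‖ ∧ ‖z‖ < 1}
def Bd : Set ℂ := {z | ‖z‖ = 1 / 2 ∨ ‖z‖ = 1}
def Q : Set (ℂ × ℂ) := An ×ˢ closedBall 0 1

lemma An0_open : IsOpen An0 :=
  (isOpen_lt continuous_const continuous_norm).inter (isOpen_lt continuous_norm continuous_const)
lemma An_closed : IsClosed An :=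
  (isClosed_le continuous_const continuous_norm).inter (isClosed_le continuous_norm continuous_const)
lemma An_comp : IsCompact An :=
  (isCompact_closedBall (0:ℂ) 1).of_isClosed_subset An_closed fun z hz => by simpa using hz.2
lemma Bd_sub : Bd ⊆ An := by
  rintro z (h | h) <;> constructor <;> norm_num [h]
lemma Bd_comp : IsCompact Bd := An_comp.of_isClosed_subset
  ((isClosed_eq continuous_norm continuous_const).union (isClosed_eq continuous_norm continuous_const))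
  Bd_sub
lemma An0_sub : An0 ⊆ An := fun _ h => ⟨h.1.le, h.2.le⟩
lemma cl_An0 : closure An0 ⊆ An := closure_minimal An0_sub An_closed
lemma mem_or {z : ℂ} (h : z ∈ An) : z ∈ Bd ∨ z ∈ An0 := by
  by_cases h1 : z ∈ Bd
  · exact Or.inl h1
  · simp only [Bd, Set.mem_ofPred_eq, not_or] at h1
    exact Or.inr ⟨lt_of_le_of_ne h.1 (Ne.symm h1.1), lt_of_le_of_ne h.2 h1.2⟩

lemma maxA {f : ℂ → ℂ} (hc : ContinuousOn f An) (hd : DifferentiableOn ℂ f An0) {C : ℝ}
    (h : ∀ z ∈ Bd, ‖f z‖ ≤ C) : ∀ z ∈ An, ‖f z‖ ≤ C := by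
  intro z hz
  rcases mem_or hz with h1 | h1
  · exact h z h1
  refine Complex.norm_le_of_forall_mem_frontier_norm_le (An_comp.isBounded.subset An0_sub)
    ⟨hd, hc.mono cl_An0⟩ (fun y hy => h y ?_) (subset_closure h1)
  rw [An0_open.frontier_eq] at hy
  exact (mem_or (cl_An0 hy.1)).resolve_right hy.2

structure Hol (F : ℂ × ℂ → ℂ) : Prop where
  c : ContinuousOn F Q
  d1 : ∀ w ∈ closedBall (0:ℂ) 1, DifferentiableOn ℂ (fun z => F (z, w)) An0
  d2 : ∀ z ∈ An, DifferentiableOn ℂ (fun w => F (z, w)) (ball 0 1)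

lemma Hol.c1 {F : ℂ × ℂ → ℂ} (h : Hol F) {w : ℂ} (hw : w ∈ closedBall (0:ℂ) 1) :
    ContinuousOn (fun z => F (z, w)) An :=
  h.c.comp (Continuous.continuousOn (by fun_prop)) fun z hz => ⟨hz, hw⟩
lemma Hol.c2 {F : ℂ × ℂ → ℂ} (h : Hol F) {z : ℂ} (hz : z ∈ An) :
    ContinuousOn (fun w => F (z, w)) (closedBall 0 1) :=
  h.c.comp (Continuous.continuousOn (by fun_prop)) fun w hw => ⟨hz, hw⟩

lemma Hol.max {F : ℂ × ℂ → ℂ} (h : Hol F) {C : ℝ} (hC : ∀ z ∈ Bd, ∀ w ∈ sphere (0:ℂ) 1, ‖F (z, w)‖ ≤ C) :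
    ∀ p ∈ Q, ‖F p‖ ≤ C := by
  rintro ⟨z, w⟩ ⟨hz, hw⟩
  refine maxA (h.c1 hw) (h.d1 w hw) (fun y hy => ?_) z hz
  refine Complex.norm_le_of_forall_mem_frontier_norm_le (f := fun w => F (y, w)) isBounded_ball
    ⟨h.d2 y (Bd_sub hy), ?_⟩ (fun v hv => hC y hy v ?_) (z := w) ?_
  · rw [closure_ball _ one_ne_zero]; exact h.c2 (Bd_sub hy)
  · rwa [frontier_ball _ one_ne_zero] at hv
  · rwa [closure_ball _ one_ne_zero]

lemma Hol.ne {F : ℂ × ℂ → ℂ} (h : Hol F) (h1 : ∀ z ∈ Bd, ∀ w ∈ closedBall (0:ℂ) 1, F (z, w) ≠ 0)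
    (h2 : ∀ z ∈ An, F (z, 0) ≠ 0) : ∀ p ∈ Q, F p ≠ 0 := by
  have hK : IsCompact (Bd ×ˢ closedBall (0:ℂ) 1) := Bd_comp.prod (isCompact_closedBall _ _)
  obtain ⟨δ, δ0, hδ⟩ := hK.exists_forall_le' (f := fun p => ‖F p‖) (a := 0)
    (h.c.mono (prod_mono Bd_sub subset_rfl)).norm fun p hp => norm_pos_iff.2 (h1 _ hp.1 _ hp.2)
  have hQ : IsCompact Q := An_comp.prod (isCompact_closedBall _ _)
  -- dichotomy
  have di : ∀ w ∈ closedBall (0:ℂ) 1, (∃ z ∈ An, F (z, w) = 0) ∨ ∀ z ∈ An, δ ≤ ‖F (z, w)‖ := by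
    intro w hw
    by_cases hz : ∃ z ∈ An, F (z, w) = 0
    · exact Or.inl hz
    push Not at hz
    refine Or.inr fun z hz' => ?_
    have := maxA (f := fun z => (F (z, w))⁻¹) ((h.c1 hw).inv₀ hz)
      ((h.d1 w hw).inv fun z hz' => hz z (An0_sub hz')) (C := δ⁻¹) (fun y hy => by
        rw [norm_inv]; exact inv_anti₀ δ0 (hδ (y, w) ⟨hy, hw⟩)) z hz'
    rw [norm_inv] at this
    exact (inv_le_inv₀ (norm_pos_iff.2 (hz z hz')) δ0).1 this
  have c1 : IsClosed (Prod.snd '' (Q ∩ F ⁻¹' {0})) :=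
    ((hQ.of_isClosed_subset (h.c.preimage_isClosed_of_isClosed hQ.isClosed isClosed_singleton)
      inter_subset_left).image continuous_snd).isClosed
  have c2 : IsClosed (⋂ z ∈ An, closedBall (0:ℂ) 1 ∩ (fun w => ‖F (z, w)‖) ⁻¹' Ici δ) :=
    isClosed_biInter fun z hz => (h.c2 hz).norm.preimage_isClosed_of_isClosed isClosed_closedBall
      isClosed_Ici
  have := isPreconnected_iff_subset_of_disjoint_closed.1 (convex_closedBall (0:ℂ) 1).isPreconnected
    _ _ c1 c2 (fun w hw => by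
      rcases di w hw with ⟨z, hz, e⟩ | h3
      · exact Or.inl ⟨(z, w), ⟨⟨hz, hw⟩, e⟩, rfl⟩
      · exact Or.inr (mem_iInter₂.2 fun z hz => ⟨hw, h3 z hz⟩)) (by
      rw [eq_empty_iff_forall_notMem]
      rintro w ⟨-, ⟨⟨z, w'⟩, ⟨hq, e⟩, rfl⟩, h3⟩
      have h4 : δ ≤ ‖F (z, w')‖ := (mem_iInter₂.1 h3 z hq.1).2
      rw [show F (z, w') = 0 from e, norm_zero] at h4
      linarith)
  rcases this with h3 | h3
  · obtain ⟨⟨z, w⟩, ⟨hq, e⟩, rfl⟩ := h3 (mem_closedBall_self zero_le_one)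
    exact absurd e (h2 z hq.1)
  · rintro ⟨z, w⟩ hp e
    have h4 : δ ≤ ‖F (z, w)‖ := (mem_iInter₂.1 (h3 hp.2) z hp.1).2
    rw [e, norm_zero] at h4
    linarith

def Z : Type := {p : ℂ × ℂ // p ∈ Q ∧ (p.1 ∈ Bd ∨ p.2 = 0)}
instance : TopologicalSpace Z := ⊥
instance : DiscreteTopology Z := ⟨rfl⟩
abbrev X := Z →ᵇ ℂ

def rot (l : Circle) (p : Z) : Z := ⟨(p.1.1, l * p.1.2), ⟨p.2.1.1, by simpa using p.2.1.2⟩,
  p.2.2.imp id fun h => by simp [h]⟩

noncomputable def V (l : Circle) : X →L[ℂ] X :=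
  compContinuousCLM ℂ ℂ ⟨rot l, continuous_of_discreteTopology⟩
noncomputable def M (g : X) : X →L[ℂ] X := ContinuousLinearMap.mul ℂ X g
@[simp] lemma V_apply (l : Circle) (f : X) (p : Z) : V l f p = f (rot l p) := rfl
@[simp] lemma M_apply (g f : X) (p : Z) : M g f p = g p * f p := rfl
lemma rot_rot (l : Circle) (p : Z) : rot l (rot l⁻¹ p) = p := Subtype.ext (by simp [rot])
lemma rot_rot' (l : Circle) (p : Z) : rot l⁻¹ (rot l p) = p := Subtype.ext (by simp [rot])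
lemma op_ext {a b : X →L[ℂ] X} (h : ∀ f p, a f p = b f p) : a = b := by ext f p; exact h f p

noncomputable def mk (g : Z → ℂ) (C : ℝ) (h : ∀ p, ‖g p‖ ≤ C) : X := ofNormedAddCommGroupDiscrete g C h
@[simp] lemma mk_apply (g : Z → ℂ) (C : ℝ) (h : ∀ p, ‖g p‖ ≤ C) (p : Z) : mk g C h p = g p := rfl

lemma z_ne (p : Z) : p.1.1 ≠ 0 := norm_pos_iff.1 (by linarith [p.2.1.1.1])

noncomputable def u : X := mk (fun p => ‖p.1.1‖ / p.1.1) 1 fun p => by
  simp [norm_ne_zero_iff.2 (z_ne p)]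
noncomputable def u' : X := mk (fun p => p.1.1 / ‖p.1.1‖) 1 fun p => by
  simp [norm_ne_zero_iff.2 (z_ne p)]

noncomputable def U (l : Circle) : (X →L[ℂ] X)ˣ where
  val := M u * V l
  inv := M u' * V l⁻¹
  val_inv := op_ext fun f p => by
    have := z_ne p
    have : (‖p.1.1‖ : ℂ) ≠ 0 := by simpa using this
    simp only [mul_apply_eq_comp, M_apply, V_apply, rot_rot', one_apply_eq_self, u, u', mk_apply, rot]
    field_simp
    congr 1; exact Subtype.ext (by simp)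
  inv_val := op_ext fun f p => by
    have := z_ne p
    have : (‖p.1.1‖ : ℂ) ≠ 0 := by simpa using this
    simp only [mul_apply_eq_comp, M_apply, V_apply, one_apply_eq_self, u, u', mk_apply, rot]
    field_simp
    congr 1; exact Subtype.ext (by simp)

def Rep (a : X →L[ℂ] X) (F : ℂ × ℂ → ℂ) : Prop := ∀ f p, a f p = F p.1 * f p

noncomputable def A : Subalgebra ℂ (X →L[ℂ] X) where
  carrier := {a | ∃ F, Hol F ∧ Rep a F}
  mul_mem' := by
    rintro a b ⟨F, hF, rF⟩ ⟨G, hG, rG⟩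
    exact ⟨fun p => F p * G p, ⟨hF.c.mul hG.c, fun w hw => (hF.d1 w hw).mul (hG.d1 w hw),
      fun w hw => (hF.d2 w hw).mul (hG.d2 w hw)⟩, fun f p => by
        rw [mul_apply_eq_comp, rF, rG, mul_assoc]⟩
  add_mem' := by
    rintro a b ⟨F, hF, rF⟩ ⟨G, hG, rG⟩
    exact ⟨fun p => F p + G p, ⟨hF.c.add hG.c, fun w hw => (hF.d1 w hw).add (hG.d1 w hw),
      fun w hw => (hF.d2 w hw).add (hG.d2 w hw)⟩, fun f p => by
        rw [_root_.add_apply, BoundedContinuousFunction.add_apply, rF, rG, add_mul]⟩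
  algebraMap_mem' := fun c => ⟨fun _ => c, ⟨continuousOn_const, fun _ _ => differentiableOn_const _,
    fun _ _ => differentiableOn_const _⟩, fun f p => rfl⟩

lemma Rep.le {a : X →L[ℂ] X} {F : ℂ × ℂ → ℂ} (h : Rep a F) (p : Z) : ‖F p.1‖ ≤ ‖a‖ := by
  have h1 := h 1 p
  simp only [BoundedContinuousFunction.coe_one, Pi.one_apply, mul_one] at h1
  rw [← h1]
  refine ((a 1).norm_coe_le_norm p).trans ((a.le_opNorm 1).trans ?_)
  exact mul_le_of_le_one_right (norm_nonneg _) ((norm_le zero_le_one).2 fun _ => by simp)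

lemma Rep.ge {a : X →L[ℂ] X} {F : ℂ × ℂ → ℂ} (h : Rep a F) {C : ℝ} (h0 : 0 ≤ C)
    (hC : ∀ p : Z, ‖F p.1‖ ≤ C) : ‖a‖ ≤ C :=
  a.opNorm_le_bound h0 fun f => (norm_le (by positivity)).2 fun p => by
    rw [h, norm_mul]; exact mul_le_mul (hC p) (f.norm_coe_le_norm p) (norm_nonneg _) h0

lemma Rep.leQ {a : X →L[ℂ] X} {F : ℂ × ℂ → ℂ} (h : Rep a F) (hF : Hol F) : ∀ p ∈ Q, ‖F p‖ ≤ ‖a‖ :=
  hF.max fun z hz w hw => h.le ⟨(z, w), ⟨Bd_sub hz, sphere_subset_closedBall hw⟩, Or.inl hz⟩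

lemma A_closed : IsClosed (A : Set (X →L[ℂ] X)) := by
  refine isClosed_of_closure_subset fun a ha => ?_
  obtain ⟨b, hb, hl⟩ := mem_closure_iff_seq_limit.1 ha
  choose F hF rF using hb
  have hc : UniformCauchySeqOn F atTop Q := by
    rw [Metric.uniformCauchySeqOn_iff]
    intro ε hε
    obtain ⟨N, hN⟩ := Metric.cauchySeq_iff.1 hl.cauchySeq ε hε
    refine ⟨N, fun m hm n hn p hp => lt_of_le_of_lt ?_ (hN m hm n hn)⟩
    rw [dist_eq_norm, dist_eq_norm]
    exact Rep.leQ (F := fun p => F m p - F n p) (fun f p => by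
      rw [_root_.sub_apply, BoundedContinuousFunction.sub_apply, rF, rF, sub_mul])
      ⟨(hF m).c.sub (hF n).c, fun w hw => ((hF m).d1 w hw).sub ((hF n).d1 w hw),
        fun w hw => ((hF m).d2 w hw).sub ((hF n).d2 w hw)⟩ p hp
  have ht : ∀ p ∈ Q, Tendsto (fun n => F n p) atTop (𝓝 (limUnder atTop fun n => F n p)) :=
    fun p hp => (hc.cauchySeq hp).tendsto_limUnder
  have hu := hc.tendstoUniformlyOn_of_tendsto ht
  refine ⟨fun p => limUnder atTop fun n => F n p, ⟨hu.continuousOn (Frequently.of_forall fun n => (hF n).c),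
    fun w hw => ?_, fun z hz => ?_⟩, fun f p => ?_⟩
  · exact ((hu.comp fun z => (z, w)).mono fun z hz => ⟨An0_sub hz, hw⟩).tendstoLocallyUniformlyOn.differentiableOn
      (Eventually.of_forall fun n => (hF n).d1 w hw) An0_open
  · exact ((hu.comp fun w => (z, w)).mono fun w hw =>
      ⟨hz, ball_subset_closedBall hw⟩).tendstoLocallyUniformlyOn.differentiableOn
      (Eventually.of_forall fun n => (hF n).d2 z hz) isOpen_ball
  · have t1 : Tendsto (fun n => b n f p) atTop (𝓝 (a f p)) :=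
      ((continuous_eval_const p).comp ((ContinuousLinearMap.apply ℂ X f).continuous)).continuousAt.tendsto.comp hl
    simp only [rF _ f p] at t1
    exact tendsto_nhds_unique t1 ((ht p.1 p.2.1).mul_const _)

lemma conj {a : X →L[ℂ] X} {F : ℂ × ℂ → ℂ} (h : Rep a F) (l : Circle) :
    Rep ((U l).val * a * (U l).inv) (fun p => F (p.1, l * p.2)) ∧
    Rep ((U l).inv * a * (U l).val) (fun p => F (p.1, (l⁻¹ : Circle) * p.2)) := by
  constructor <;> intro f p
  · have := congr($((U l).val_inv) f p)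
    simp only [U, mul_apply_eq_comp, M_apply, V_apply, one_apply_eq_self, h _ _] at this ⊢
    rw [← this, mul_left_comm]; rfl
  · have := congr($((U l).inv_val) f p)
    simp only [U, mul_apply_eq_comp, M_apply, V_apply, one_apply_eq_self, h _ _] at this ⊢
    rw [← this, mul_left_comm]; rfl

lemma Hol.rot {F : ℂ × ℂ → ℂ} (h : Hol F) (l : Circle) : Hol fun p => F (p.1, l * p.2) :=
  ⟨h.c.comp (Continuous.continuousOn (by fun_prop)) fun p hp => ⟨hp.1, by simpa using hp.2⟩,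
    fun w hw => h.d1 (l * w) (by simpa using hw),
    fun z hz => (h.d2 z hz).comp (Differentiable.differentiableOn (by fun_prop)) fun w hw => by
      simpa using hw⟩

noncomputable def lam : Circle := Circle.exp 1

lemma lam_pow {n : ℕ} (hn : 0 < n) : (lam : ℂ) ^ n ≠ 1 := by
  intro h
  rw [lam, Circle.coe_exp, ← Complex.exp_nat_mul, Complex.exp_eq_one_iff] at h
  obtain ⟨k, hk⟩ := h
  have h1 : (n:ℝ) = k * (2 * Real.pi) := by simpa using congrArg Complex.im hk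
  have k0 : k ≠ 0 := by
    rintro rfl
    simp at h1; omega
  refine irrational_pi ⟨n / (2 * k), ?_⟩
  have : (k:ℝ) ≠ 0 := by exact_mod_cast k0
  push_cast; field_simp; linarith

lemma conj_pow {a : X →L[ℂ] X} (l : Circle) (n : ℕ) : ∀ {F : ℂ × ℂ → ℂ}, Rep a F →
    Rep ((U l ^ n).val * a * (U l ^ n).inv) (fun p => F (p.1, l ^ n * p.2)) := by
  induction n with
  | zero => intro F h f p; simpa using h f p
  | succ n ih =>
    intro F h
    have := (conj (ih h) l).1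
    have e : (U l ^ (n+1)).val * a * (U l ^ (n+1)).inv =
        (U l).val * ((U l ^ n).val * a * (U l ^ n).inv) * (U l).inv := by
      simp only [Units.inv_eq_val_inv, pow_succ', mul_inv_rev, Units.val_mul, mul_assoc]
    rw [e]
    intro f p
    rw [this f p]
    simp only [pow_succ, mul_assoc]

noncomputable def ev (p : Z) : WeakDual.characterSpace ℂ A :=
  ⟨(((evalCLM ℂ p).comp (ContinuousLinearMap.apply ℂ X (1:X))).comp A.toSubmodule.subtypeL :
      A →L[ℂ] ℂ), fun h => (one_ne_zero : (1:ℂ) ≠ 0) congr($h 1), by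
    rintro ⟨a, F, -, rF⟩ ⟨b, hb⟩
    change a (b 1) p = a 1 p * b 1 p
    rw [rF, rF]; simp⟩

lemma ev_apply (p : Z) {a : X →L[ℂ] X} (ha : a ∈ A) {F : ℂ × ℂ → ℂ} (h : Rep a F) :
    ev p ⟨a, ha⟩ = F p.1 := by
  change a 1 p = _
  rw [h]; simp

def K0 : Set (ℂ × ℂ) := Bd ×ˢ sphere 0 1
lemma K0_comp : IsCompact K0 := Bd_comp.prod (isCompact_sphere _ _)
lemma K0_sub : K0 ⊆ Q := prod_mono Bd_sub sphere_subset_closedBall
def inc (p : K0) : Z := ⟨p.1, K0_sub p.2, Or.inl p.2.1⟩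

lemma K_closed : IsClosed (range fun p : K0 => ev (inc p)) := by
  have : CompactSpace K0 := isCompact_iff_compactSpace.1 K0_comp
  refine (isCompact_range (Continuous.subtype_mk (WeakDual.continuous_of_continuous_eval ?_) _)).isClosed
  rintro ⟨a, F, hF, rF⟩
  refine ((hF.c.mono K0_sub).domRestrict).congr fun p => ?_
  exact (ev_apply (inc p) ⟨F, hF, rF⟩ rF).symm

lemma char_le {Y : Type} [NormedAddCommGroup Y] [NormedSpace ℂ Y] [CompleteSpace Y]
    (B : Subalgebra ℂ (Y →L[ℂ] Y)) (hB : IsClosed (B : Set (Y →L[ℂ] Y)))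
    (ψ : WeakDual.characterSpace ℂ B) (a : B) : ‖ψ a‖ ≤ ‖(a : Y →L[ℂ] Y)‖ := by
  have : CompleteSpace B := hB.completeSpace_coe
  have h1 : ‖(1 : B)‖ ≤ 1 := ContinuousLinearMap.norm_id_le
  exact (spectrum.norm_le_norm_mul_of_mem (WeakDual.CharacterSpace.apply_mem_spectrum ψ a)).trans
    (mul_le_of_le_one_right (norm_nonneg _) h1)

lemma K_bd (a : A) : ∃ χ ∈ range fun p : K0 => ev (inc p),
    ∀ ψ : WeakDual.characterSpace ℂ A, ‖ψ a‖ ≤ ‖χ a‖ := by
  obtain ⟨a, F, hF, rF⟩ := a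
  obtain ⟨p, hp, hm⟩ := K0_comp.exists_isMaxOn ⟨(1, 1), Or.inr (by simp), by simp⟩
    (hF.c.mono K0_sub).norm
  refine ⟨_, ⟨⟨p, hp⟩, rfl⟩, fun ψ => ?_⟩
  refine (char_le A A_closed ψ _).trans ?_
  rw [ev_apply _ _ rF]
  exact rF.ge (norm_nonneg _) fun q => hF.max (fun z hz w hw => hm (a := (z, w)) ⟨hz, hw⟩) _ q.2.1

noncomputable def zz : X →L[ℂ] X := M (mk (fun p => p.1.1) 1 fun p => p.2.1.1.2)
noncomputable def ww : X →L[ℂ] X := M (mk (fun p => p.1.2) 1 fun p => by simpa using p.2.1.2)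
lemma zz_rep : Rep zz fun p => p.1 := fun _ _ => rfl
lemma ww_rep : Rep ww fun p => p.2 := fun _ _ => rfl
lemma zz_mem : zz ∈ A := ⟨_, ⟨continuousOn_fst, fun _ _ => differentiableOn_id,
  fun _ _ => differentiableOn_const _⟩, zz_rep⟩
lemma ww_mem : ww ∈ A := ⟨_, ⟨continuousOn_snd, fun _ _ => differentiableOn_const _,
  fun _ _ => differentiableOn_id⟩, ww_rep⟩

lemma V_le (l : Circle) : ‖V l‖ ≤ 1 := (V l).opNorm_le_bound zero_le_one fun f => by
  rw [one_mul]; exact (norm_le (norm_nonneg _)).2 fun p => f.norm_coe_le_norm _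

lemma M_le {g : X} {C : ℝ} (h0 : 0 ≤ C) (h : ∀ p, ‖g p‖ ≤ C) : ‖M g‖ ≤ C :=
  (M g).opNorm_le_bound h0 fun f => (norm_le (by positivity)).2 fun p => by
    rw [M_apply, norm_mul]; exact mul_le_mul (h p) (f.norm_coe_le_norm p) (norm_nonneg _) h0

lemma spec_gen {B : Type} [NormedRing B] [NormedAlgebra ℂ B] [CompleteSpace B] (o : ‖(1 : B)‖ ≤ 1)
    (W : Bˣ) (h1 : ‖W.val‖ ≤ 1) (h2 : ‖W.inv‖ ≤ 1) : spectrum ℂ W.val ⊆ sphere 0 1 := by
  have b : ∀ (T : B), ‖T‖ ≤ 1 → ∀ μ ∈ spectrum ℂ T, ‖μ‖ ≤ 1 := fun T hT μ hμ =>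
    (spectrum.norm_le_norm_mul_of_mem hμ).trans (mul_le_one₀ hT (norm_nonneg _) o)
  intro μ hμ
  have m0 : μ ≠ 0 := spectrum.ne_zero_of_mem_of_unit hμ
  have h3 := b _ h2 μ⁻¹ (by
    have := (spectrum.inv_mem_iff (r := Units.mk0 μ m0) (a := W)).1 hμ
    simpa using this)
  rw [norm_inv, inv_le_one₀ (norm_pos_iff.2 m0)] at h3
  simpa using le_antisymm (b _ h1 μ hμ) h3

lemma spec_unit {Y : Type} [NormedAddCommGroup Y] [NormedSpace ℂ Y] [CompleteSpace Y]
    (W : (Y →L[ℂ] Y)ˣ) (h1 : ‖W.val‖ ≤ 1) (h2 : ‖W.inv‖ ≤ 1) :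
    spectrum ℂ W.val ⊆ sphere 0 1 := spec_gen ContinuousLinearMap.norm_id_le W h1 h2

noncomputable def VU (l : Circle) : (X →L[ℂ] X)ˣ where
  val := V l
  inv := V l⁻¹
  val_inv := op_ext fun f p => by simp [mul_apply_eq_comp, rot_rot']
  inv_val := op_ext fun f p => by simp [mul_apply_eq_comp, rot_rot]

lemma res (l : Circle) {μ : ℂ} (h : ‖μ‖ ≠ 1) : ∃ R : X →L[ℂ] X,
    (∀ f p, μ * R f p - R f (rot l p) = f p) ∧ ∀ f : X, (∀ p, μ * f p = f (rot l p)) → f = 0 := by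
  have : μ ∉ spectrum ℂ (V l) := fun hh => h (by simpa using spec_unit (VU l) (V_le _) (V_le _) hh)
  obtain ⟨W, hW⟩ := spectrum.notMem_iff.1 this
  refine ⟨W.inv, fun f p => ?_, fun f hf => ?_⟩
  · have := congr($(W.val_inv) f p)
    rw [hW] at this
    exact this
  · have h1 : W.val f = 0 := by
      rw [hW]; ext p; exact sub_eq_zero.2 (hf p)
    have := congr($(W.inv_val) f)
    rw [mul_apply_eq_comp, h1, map_zero] at this
    exact this.symm

lemma S_apply (l : Circle) (f : X) (p : Z) : (zz * (U l).val) f p = ‖p.1.1‖ * f (rot l p) := by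
  have := z_ne p
  simp only [U, mul_apply_eq_comp, zz, M_apply, V_apply, u, mk_apply]
  field_simp

open Classical in
noncomputable def cut (s : Set Z) (f : X) : X := mk (fun p => if p ∈ s then f p else 0) ‖f‖ fun p => by
  split_ifs
  · exact f.norm_coe_le_norm p
  · simp

lemma not_spec (l : Circle) : (-3 / 4 : ℂ) ∉ spectrum ℂ (zz * (U l).val) := by
  classical
  rw [spectrum.notMem_iff, ContinuousLinearMap.isUnit_iff_bijective]
  obtain ⟨R1, a1, b1⟩ := res l (μ := -3 / 2) (by norm_num)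
  obtain ⟨R2, a2, b2⟩ := res l (μ := -3 / 4) (by norm_num)
  have ap : ∀ (f : X) p, (algebraMap ℂ (X →L[ℂ] X) (-3 / 4) - zz * (U l).val) f p =
      -3 / 4 * f p - ‖p.1.1‖ * f (rot l p) := fun f p => by rw [← S_apply]; rfl
  have r0 : ∀ p : Z, p.1.2 = 0 → rot l p = p := fun p h => Subtype.ext (Prod.ext rfl (by simp [rot, h]))
  have r1 : ∀ p : Z, (rot l p).1.1 = p.1.1 := fun p => rfl
  have nz : ∀ p : Z, (-3 / 4 - ‖p.1.1‖ : ℂ) ≠ 0 := fun p h => by
    have := congrArg Complex.re h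
    simp at this
    linarith [norm_nonneg p.1.1]
  constructor
  · rw [injective_iff_map_eq_zero]
    intro f hf
    have h0 : ∀ p, -3 / 4 * f p - ‖p.1.1‖ * f (rot l p) = 0 := fun p => by rw [← ap, hf]; rfl
    have c1 := b1 (cut {p | ‖p.1.1‖ = 1 / 2} f) fun p => by
      simp only [cut, mk_apply, Set.mem_ofPred_eq, r1]
      split_ifs with h
      · have := h0 p; rw [h] at this; push_cast at this; linear_combination 2 * this
      · simp
    have c2 := b2 (cut {p | ‖p.1.1‖ = 1} f) fun p => by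
      simp only [cut, mk_apply, Set.mem_ofPred_eq, r1]
      split_ifs with h
      · have := h0 p; rw [h] at this; push_cast at this; linear_combination this
      · simp
    ext p
    rcases p.2.2 with (h | h) | h
    · simpa [cut, h] using congr($c1 p)
    · simpa [cut, h] using congr($c2 p)
    · have := h0 p
      rw [r0 p h, ← sub_mul] at this
      simpa using (mul_eq_zero.1 this).resolve_left (nz p)
  · intro c
    refine ⟨mk (fun p => if ‖p.1.1‖ = 1 / 2 then 2 * R1 c p else if ‖p.1.1‖ = 1 then R2 c p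
      else c p / (-3 / 4 - ‖p.1.1‖)) (2 * ‖R1 c‖ + ‖R2 c‖ + 2 * ‖c‖) fun p => ?_, ?_⟩
    · have := (R1 c).norm_coe_le_norm p
      have := (R2 c).norm_coe_le_norm p
      have := c.norm_coe_le_norm p
      have := norm_nonneg (R1 c)
      have := norm_nonneg (R2 c)
      have := norm_nonneg c
      split_ifs
      · rw [norm_mul]; simp; linarith
      · linarith
      · have e : ‖(-3 / 4 - ‖p.1.1‖ : ℂ)‖ = 3 / 4 + ‖p.1.1‖ := by
          rw [show (-3 / 4 - ‖p.1.1‖ : ℂ) = ((-(3 / 4 + ‖p.1.1‖) : ℝ) : ℂ) by push_cast; ring,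
            Complex.norm_real, norm_neg, Real.norm_of_nonneg (by positivity)]
        rw [norm_div, e, div_le_iff₀ (by positivity)]
        nlinarith [norm_nonneg p.1.1]
    · ext p
      rw [ap]
      simp only [mk_apply, r1]
      split_ifs with h1 h2
      · rw [h1]; push_cast; linear_combination a1 c p
      · rw [h2]; push_cast; linear_combination a2 c p
      · rw [r0 p ((p.2.2.resolve_left fun h => h.elim h1 h2))]
        rw [← sub_mul, mul_div_cancel₀ _ (nz p)]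

lemma inv_closed (a : X →L[ℂ] X) (ha : a ∈ A) (h : IsUnit a) : IsUnit (⟨a, ha⟩ : A) := by
  classical
  obtain ⟨F, hF, rF⟩ := id ha
  obtain ⟨W, rfl⟩ := h
  have h1 : ∀ p : Z, F p.1 * W.inv 1 p = 1 := fun p => by
    rw [← rF]; exact congr($(W.val_inv) 1 p)
  have h2 := hF.ne (fun z hz w hw => left_ne_zero_of_mul_eq_one (h1 ⟨(z, w), ⟨Bd_sub hz, hw⟩, Or.inl hz⟩))
    fun z hz => left_ne_zero_of_mul_eq_one (h1 ⟨(z, 0), ⟨hz, by simp⟩, Or.inr rfl⟩)
  have hb : W.inv ∈ A := ⟨fun p => (F p)⁻¹, ⟨hF.c.inv₀ h2,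
    fun w hw => (hF.d1 w hw).inv fun z hz => h2 _ ⟨An0_sub hz, hw⟩,
    fun z hz => (hF.d2 z hz).inv fun w hw => h2 _ ⟨hz, ball_subset_closedBall hw⟩⟩, fun f p => by
      have h3 : F p.1 * W.inv f p = f p := by rw [← rF]; exact congr($(W.val_inv) f p)
      rw [← h3, inv_mul_cancel_left₀ (h2 _ p.2.1)]⟩
  exact ⟨⟨⟨_, ha⟩, ⟨_, hb⟩, Subtype.ext W.val_inv, Subtype.ext W.inv_val⟩, rfl⟩

lemma sq_norm (a : X →L[ℂ] X) (ha : a ∈ A) : ‖a * a‖ = ‖a‖ ^ 2 := by
  obtain ⟨F, hF, rF⟩ := ha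
  refine le_antisymm ((norm_mul_le _ _).trans (sq ‖a‖).ge) ?_
  have r2 : Rep (a * a) fun p => F p * F p := fun f p => by
    rw [mul_apply_eq_comp, rF, rF, mul_assoc]
  rw [← Real.le_sqrt (norm_nonneg _) (norm_nonneg _)]
  refine rF.ge (Real.sqrt_nonneg _) fun p => Real.le_sqrt_of_sq_le ?_
  simpa [sq] using r2.le p

end H92.Shift
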