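import Mathlib

set_option autoImplicit false
open MeasureTheory Set Filter
open scoped ENNReal InnerProductSpace ComplexConjugate Topology

namespace Pool.Agent.H92.Sp

variable {d : ℕ}

noncomputable def ex (l x : Fin d → ℝ) : ℂ :=
  Complex.exp (2 * Real.pi * Complex.I * ((∑ i, l i * x i : ℝ) : ℂ))

lemma ex_add (l x t : Fin d → ℝ) : ex l (x + t) = ex l x * ex l t := by
  simp only [ex, ← Complex.exp_add, Pi.add_apply, mul_add, Finset.sum_add_distrib]
  push_cast; ring_nf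

lemma ex_norm (l x : Fin d → ℝ) : ‖ex l x‖ = 1 := by
  rw [ex, show (2 * Real.pi * Complex.I * ((∑ i, l i * x i : ℝ) : ℂ))
    = ((2 * Real.pi * ∑ i, l i * x i : ℝ) : ℂ) * Complex.I by push_cast; ring]
  exact Complex.norm_exp_ofReal_mul_I _

lemma ex_cont (l : Fin d → ℝ) : Continuous (ex l) := by unfold ex; fun_prop

def Spectral (μ : Measure (Fin d → ℝ)) : Prop :=
  ∃ (Λ : Set (Fin d → ℝ)) (e : Λ → Lp ℂ 2 μ),
    (∀ l : Λ, (e l : (Fin d → ℝ) → ℂ) =ᵐ[μ] ex l) ∧ Orthonormal ℂ e ∧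
      (Submodule.span ℂ (Set.range e)).topologicalClosure = ⊤

variable {μ : Measure (Fin d → ℝ)} [IsProbabilityMeasure μ]

lemma memLp_of {f : (Fin d → ℝ) → ℝ≥0∞} (hf : Measurable f) (h1 : ∀ᵐ x ∂μ, f x ≤ 1) :
    MemLp (fun x => ((f x).toReal : ℂ)) 2 μ := by
  refine MemLp.of_bound (C := 1)
    (Complex.measurable_ofReal.comp hf.ennreal_toReal).aestronglyMeasurable (h1.mono fun x hx => ?_)
  rw [Complex.norm_real, Real.norm_of_nonneg ENNReal.toReal_nonneg]
  exact ENNReal.toReal_le_of_le_ofReal zero_le_one (by simpa using hx)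

lemma inner_toLp {f : (Fin d → ℝ) → ℝ≥0∞} (hf : Measurable f) (h1 : ∀ᵐ x ∂μ, f x ≤ 1)
    (e : Lp ℂ 2 μ) (l : Fin d → ℝ) (he : (e : (Fin d → ℝ) → ℂ) =ᵐ[μ] ex l) :
    ⟪e, (memLp_of hf h1).toLp _⟫_ℂ = ∫ x, conj (ex l x) ∂(μ.withDensity f) := by
  rw [integral_withDensity_eq_integral_toReal_smul hf
    (h1.mono fun x hx => hx.trans_lt ENNReal.one_lt_top), L2.inner_def]
  refine integral_congr_ae ?_
  filter_upwards [he, (memLp_of hf h1).coeFn_toLp] with x h2 h3
  rw [h2, h3]; simp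

lemma self_toLp {f : (Fin d → ℝ) → ℝ≥0∞} (hf : Measurable f) (h1 : ∀ᵐ x ∂μ, f x ≤ 1) :
    ⟪(memLp_of hf h1).toLp _, (memLp_of hf h1).toLp _⟫_ℂ
      = ((∫⁻ x, f x * f x ∂μ).toReal : ℂ) := by
  rw [← integral_toReal (f := fun x => f x * f x) (hf.mul hf).aemeasurable
    (h1.mono fun x hx => (mul_le_one' hx hx).trans_lt ENNReal.one_lt_top), L2.inner_def,
    ← integral_complex_ofReal]
  refine integral_congr_ae ?_
  filter_upwards [(memLp_of hf h1).coeFn_toLp] with x h3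
  rw [h3]; simp [sq]

lemma shift (ν : Measure (Fin d → ℝ)) (l t : Fin d → ℝ) :
    ∫ x, conj (ex l x) ∂(ν.map (· + t)) = (∫ x, conj (ex l x) ∂ν) * conj (ex l t) := by
  have hc : Measurable fun x => conj (ex l x) :=
    (Complex.continuous_conj.comp (ex_cont l)).measurable
  have hm : Measurable fun x : Fin d → ℝ => x + t := by fun_prop
  rw [integral_map hm.aemeasurable hc.aestronglyMeasurable, ← integral_mul_const]
  simp only [ex_add, map_mul]

lemma energy (hμ : Spectral μ) {f g : (Fin d → ℝ) → ℝ≥0∞} (hf : Measurable f) (hg : Measurable g)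
    (h1 : ∀ᵐ x ∂μ, f x ≤ 1) (h2 : ∀ᵐ x ∂μ, g x ≤ 1) (t : Fin d → ℝ)
    (h : (μ.withDensity f).map (· + t) = μ.withDensity g) :
    ∫⁻ x, f x * f x ∂μ = ∫⁻ x, g x * g x ∂μ := by
  obtain ⟨Λ, e, he, hon, hsp⟩ := hμ
  set b := HilbertBasis.mk hon hsp.ge with hb
  have hbe : ∀ l, b l = e l := fun l => by rw [hb, HilbertBasis.coe_mk]
  have a1 := b.tsum_inner_mul_inner ((memLp_of hf h1).toLp _) ((memLp_of hf h1).toLp _)
  have a2 := b.tsum_inner_mul_inner ((memLp_of hg h2).toLp _) ((memLp_of hg h2).toLp _)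
  rw [self_toLp hf h1] at a1
  rw [self_toLp hg h2] at a2
  have e1 : ∀ l : Λ, ⟪b l, (memLp_of hg h2).toLp _⟫_ℂ
      = ⟪b l, (memLp_of hf h1).toLp _⟫_ℂ * conj (ex l t) := by
    intro l
    rw [hbe, inner_toLp hf h1 _ _ (he l), inner_toLp hg h2 _ _ (he l), ← h, shift]
  have e2 : ∀ l : Λ, ⟪(memLp_of hg h2).toLp _, b l⟫_ℂ * ⟪b l, (memLp_of hg h2).toLp _⟫_ℂ
      = ⟪(memLp_of hf h1).toLp _, b l⟫_ℂ * ⟪b l, (memLp_of hf h1).toLp _⟫_ℂ := by
    intro l
    rw [← inner_conj_symm ((memLp_of hg h2).toLp _), ← inner_conj_symm ((memLp_of hf h1).toLp _),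
      e1, map_mul, Complex.conj_conj]
    have : ex l t * conj (ex l t) = 1 := by
      rw [Complex.mul_conj, Complex.normSq_eq_norm_sq, ex_norm]; simp
    linear_combination (conj ⟪b l, (memLp_of hf h1).toLp _⟫_ℂ *
      ⟪b l, (memLp_of hf h1).toLp _⟫_ℂ) * this
  simp only [e2] at a2
  rw [a1] at a2
  have fin : ∀ {f : (Fin d → ℝ) → ℝ≥0∞}, (∀ᵐ x ∂μ, f x ≤ 1) → ∫⁻ x, f x * f x ∂μ ≠ ⊤ := by
    intro f h1
    refine ne_top_of_le_ne_top (b := ∫⁻ _, 1 ∂μ) (by simp) ?_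
    exact lintegral_mono_ae (h1.mono fun x hx => mul_le_one' hx hx)
  exact (ENNReal.toReal_eq_toReal_iff' (fin h1) (fin h2)).mp (by exact_mod_cast a2)

/-- Uniformity of spectral measures. -/
lemma uniform (hμ : Spectral μ) {f g : (Fin d → ℝ) → ℝ≥0∞} (hf : Measurable f)
    (hg : Measurable g) (h1 : ∀ᵐ x ∂μ, f x ≤ 1) (h2 : ∀ᵐ x ∂μ, g x ≤ 1) (t : Fin d → ℝ)
    (h : (μ.withDensity f).map (· + t) = μ.withDensity g) :
    ∀ᵐ x ∂(μ.withDensity f), f x = g (x + t) := by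
  have hm : Measurable fun x : Fin d → ℝ => x + t := by fun_prop
  have : IsFiniteMeasure (μ.withDensity f) := isFiniteMeasure_withDensity
    (ne_top_of_le_ne_top (b := ∫⁻ _, 1 ∂μ) (by simp) (lintegral_mono_ae h1))
  refine ae_eq_of_forall_setLIntegral_eq_of_sigmaFinite hf (hg.comp hm) fun s hs _ => ?_
  set s' : Set (Fin d → ℝ) := (fun x => x - t) ⁻¹' s with hs'
  have hs'm : MeasurableSet s' := hs.preimage (by fun_prop)
  have hpre : (fun x => x + t) ⁻¹' s' = s := by ext x; simp [hs']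
  have key := energy hμ (hf.indicator hs) (hg.indicator hs'm)
    (h1.mono fun x hx => (indicator_le_self s f x).trans hx)
    (h2.mono fun x hx => (indicator_le_self s' g x).trans hx) t (by
      rw [withDensity_indicator hs, withDensity_indicator hs'm, ← restrict_withDensity hs,
        ← restrict_withDensity hs'm, ← h, Measure.restrict_map hm hs'm, hpre])
  have e1 : ∀ {f : (Fin d → ℝ) → ℝ≥0∞} {s : Set (Fin d → ℝ)}, Measurable f → MeasurableSet s →
      ∫⁻ x, s.indicator f x * s.indicator f x ∂μ = ∫⁻ x in s, f x ∂(μ.withDensity f) := by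
    intro f s hf hs
    rw [setLIntegral_withDensity_eq_setLIntegral_mul μ hf hf hs, ← lintegral_indicator hs]
    refine lintegral_congr fun x => ?_
    by_cases hx : x ∈ s <;> simp [hx]
  rw [e1 hf hs, e1 hg hs'm] at key
  rw [key, ← h, Measure.restrict_map hm hs'm, hpre, lintegral_map hg hm]

lemma map_withDensity_equiv {X : Type*} [MeasurableSpace X] (ν : Measure X) (e : X ≃ᵐ X)
    {f : X → ℝ≥0∞} (hf : Measurable f) :
    (ν.withDensity f).map e = (ν.map e).withDensity (f ∘ e.symm) := by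
  ext s hs
  rw [Measure.map_apply e.measurable hs, withDensity_apply _ (e.measurable hs),
    withDensity_apply _ hs, Measure.restrict_map e.measurable hs,
    lintegral_map (hf.comp e.symm.measurable) e.measurable]
  simp

end Pool.Agent.H92.Sp
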