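import Pool.Agent.H92.Sp1

set_option autoImplicit false
open MeasureTheory Set Filter Metric
open scoped ENNReal Topology

namespace Pool.Agent.H92.Sp

variable {d : ℕ}

def io (p : Fin d → ℤ) : Fin d → ℝ := fun i => (p i : ℝ)

lemma io_add (p q : Fin d → ℤ) : io (p + q) = io p + io q := by ext i; simp [io]
lemma io_sub (p q : Fin d → ℤ) : io (p - q) = io p - io q := by ext i; simp [io]
lemma io_zero : io (0 : Fin d → ℤ) = 0 := by ext i; simp [io]
lemma io_inj {p q : Fin d → ℤ} (h : io p = io q) : p = q := by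
  ext i; have : (p i : ℝ) = q i := congrFun h i
  exact_mod_cast this

def W (B : Finset (Fin d → ℤ)) : ℕ → Type
  | 0 => Unit
  | n + 1 => B × W B n

instance finW (B : Finset (Fin d → ℤ)) : ∀ n, Fintype (W B n)
  | 0 => inferInstanceAs (Fintype Unit)
  | n + 1 => @instFintypeProd B (W B n) _ (finW B n)

def D {B : Finset (Fin d → ℤ)} (ρ : (Fin d → ℤ) → (Fin d → ℤ)) : ∀ n, W B n → (Fin d → ℤ)
  | 0, _ => 0
  | n + 1, w => D ρ n w.2 + ρ^[n] w.1

structure Data (d : ℕ) where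
  L : (Fin d → ℝ) ≃L[ℝ] (Fin d → ℝ)
  ρ : (Fin d → ℤ) → (Fin d → ℤ)
  B : Finset (Fin d → ℤ)
  μ : Measure (Fin d → ℝ)
  T : Set (Fin d → ℝ)
  hρ : ∀ p, L (io (ρ p)) = io p
  hL : Tendsto (fun n => ‖(L : (Fin d → ℝ) →L[ℝ] (Fin d → ℝ)) ^ n‖) atTop (𝓝 0)
  prob : IsProbabilityMeasure μ
  hμ : μ = ∑ b ∈ B, ((B.card : ℝ≥0∞)⁻¹) • μ.map (fun x => L (x + io b))
  cpt : IsCompact T
  ne : T.Nonempty
  hT : T = ⋃ b ∈ B, (fun x => L (x + io b)) '' T

namespace Data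
variable (S : Data d)

instance : IsProbabilityMeasure S.μ := S.prob

noncomputable def P (n : ℕ) : (Fin d → ℝ) →L[ℝ] (Fin d → ℝ) :=
  (S.L : (Fin d → ℝ) →L[ℝ] (Fin d → ℝ)) ^ n

lemma P_succ (n : ℕ) (x : Fin d → ℝ) : S.P (n + 1) x = S.L (S.P n x) := by
  simp [P, pow_succ']

lemma P_succ' (n : ℕ) (x : Fin d → ℝ) : S.P (n + 1) x = S.P n (S.L x) := by
  simp [P, pow_succ]

lemma P_zero (x : Fin d → ℝ) : S.P 0 x = x := by simp [P]

lemma P_io (n : ℕ) (p : Fin d → ℤ) : S.P n (io (S.ρ^[n] p)) = io p := by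
  induction n with
  | zero => simp [P_zero]
  | succ n ih => rw [P_succ', Function.iterate_succ_apply', S.hρ, ih]

lemma P_inj (n : ℕ) : Function.Injective (S.P n) := by
  induction n with
  | zero => intro x y h; simpa [P_zero] using h
  | succ n ih => intro x y h; rw [P_succ, P_succ] at h; exact ih (S.L.injective h)

noncomputable def φ (b : Fin d → ℤ) : (Fin d → ℝ) ≃ᵐ (Fin d → ℝ) :=
  ((Homeomorph.addRight (io b)).trans S.L.toHomeomorph).toMeasurableEquiv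

lemma φ_apply (b : Fin d → ℤ) (x : Fin d → ℝ) : S.φ b x = S.L (x + io b) := rfl

lemma φ_cont (b : Fin d → ℤ) : Continuous (S.φ b) :=
  ((Homeomorph.addRight (io b)).trans S.L.toHomeomorph).continuous

noncomputable def τ (n : ℕ) (w : W S.B n) (y : Fin d → ℝ) : Fin d → ℝ :=
  S.P n (y + io (D S.ρ n w))

lemma τ_meas (n : ℕ) (w : W S.B n) : Measurable (S.τ n w) := by
  have : Continuous (S.τ n w) := by unfold τ; fun_prop
  exact this.measurable

lemma τ_zero (w : W S.B 0) (y : Fin d → ℝ) : S.τ 0 w y = y := by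
  simp [τ, D, io_zero, P_zero]

lemma τ_succ (n : ℕ) (w : W S.B (n + 1)) (y : Fin d → ℝ) :
    S.τ (n + 1) w y = S.φ w.1 (S.τ n w.2 y) := by
  rw [φ_apply, τ, τ, P_succ, D, io_add, ← add_assoc, map_add, P_io]

noncomputable def c : ℝ≥0∞ := (S.B.card : ℝ≥0∞)⁻¹

lemma c_ne : S.c ≠ 0 := by simp [c]

lemma B_ne : S.B.Nonempty := by
  obtain ⟨x, hx⟩ := S.ne
  rw [S.hT] at hx
  simp only [mem_iUnion] at hx
  obtain ⟨b, hb, _⟩ := hx
  exact ⟨b, hb⟩

lemma c_mul : (S.B.card : ℝ≥0∞) * S.c = 1 :=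
  ENNReal.mul_inv_cancel (by simpa using S.B_ne.ne_empty) (by simp)

lemma dec1 {s : Set (Fin d → ℝ)} (hs : MeasurableSet s) :
    S.μ s = ∑ b : S.B, S.c * S.μ (S.φ b ⁻¹' s) := by
  conv_lhs => rw [S.hμ]
  rw [Measure.finsetSum_apply, ← Finset.sum_coe_sort]
  refine Finset.sum_congr rfl fun b _ => ?_
  rw [Measure.smul_apply, smul_eq_mul]
  exact congrArg _ (Measure.map_apply (S.φ b).measurable hs)

lemma dec (n : ℕ) {s : Set (Fin d → ℝ)} (hs : MeasurableSet s) :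
    S.μ s = ∑ w : W S.B n, S.c ^ n * S.μ (S.τ n w ⁻¹' s) := by
  induction n generalizing s with
  | zero =>
    have : ∀ w : W S.B 0, S.τ 0 w ⁻¹' s = s := fun w => by ext y; simp [τ_zero]
    simp only [this, pow_zero, one_mul]
    exact (Fintype.sum_unique (ι := Unit) fun _ => S.μ s).symm
  | succ n ih =>
    rw [S.dec1 hs]
    refine Eq.trans ?_ (Fintype.sum_prod_type (α₁ := S.B) (α₂ := W S.B n)
      (fun w => S.c ^ (n + 1) * S.μ (S.τ (n + 1) w ⁻¹' s))).symm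
    refine Finset.sum_congr rfl fun b _ => ?_
    rw [ih ((S.φ b).measurable hs), Finset.mul_sum]
    refine Finset.sum_congr rfl fun w _ => ?_
    rw [pow_succ', mul_assoc]
    congr 3
    ext y; simp [τ_succ]

lemma sum_c (n : ℕ) : ∑ _w : W S.B n, S.c ^ n = 1 := by
  simpa using (S.dec n MeasurableSet.univ).symm

lemma φ_mem {b : Fin d → ℤ} (hb : b ∈ S.B) {y : Fin d → ℝ} (hy : y ∈ S.T) : S.φ b y ∈ S.T := by
  rw [S.hT]
  exact mem_biUnion (t := fun b => (fun x => S.L (x + io b)) '' S.T) hb ⟨y, hy, rfl⟩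

lemma τ_mem (n : ℕ) (w : W S.B n) {y : Fin d → ℝ} (hy : y ∈ S.T) : S.τ n w y ∈ S.T := by
  induction n with
  | zero => rwa [τ_zero]
  | succ n ih => rw [τ_succ]; exact S.φ_mem w.1.2 (ih _)

lemma τ_surj (n : ℕ) {x : Fin d → ℝ} (hx : x ∈ S.T) : ∃ w, ∃ y ∈ S.T, S.τ n w y = x := by
  induction n generalizing x with
  | zero => exact ⟨(), x, hx, S.τ_zero _ _⟩
  | succ n ih =>
    rw [S.hT] at hx
    simp only [mem_iUnion] at hx
    obtain ⟨b, hb, z, hz, rfl⟩ := hx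
    obtain ⟨w, y, hy, rfl⟩ := ih hz
    exact ⟨(⟨b, hb⟩, w), y, hy, S.τ_succ n _ y⟩

lemma τ_dist (n : ℕ) (w : W S.B n) (x y : Fin d → ℝ) :
    dist (S.τ n w x) (S.τ n w y) ≤ ‖S.P n‖ * dist x y := by
  rw [dist_eq_norm, dist_eq_norm, τ, τ, ← map_sub, add_sub_add_right_eq_sub]
  exact (S.P n).le_opNorm _

lemma small (M : ℝ) {r : ℝ} (hr : 0 < r) : ∃ n, ‖S.P n‖ * M < r := by
  have := S.hL.mul_const M
  rw [zero_mul] at this
  exact (this.eventually (gt_mem_nhds hr)).exists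

lemma conc : ∀ᵐ y ∂S.μ, y ∈ S.T := by
  obtain ⟨t, ht⟩ := S.ne
  have h1 : ∀ r, 0 < r → ∀ M : ℝ, S.μ (closedBall t M) ≤ S.μ (cthickening r S.T) := by
    intro r hr M
    obtain ⟨n, hn⟩ := S.small M hr
    rw [S.dec n isClosed_cthickening.measurableSet, ← one_mul (S.μ (closedBall t M)),
      ← S.sum_c n, Finset.sum_mul]
    refine Finset.sum_le_sum fun w _ => mul_le_mul_right (measure_mono fun y hy => ?_) _
    have a1 : dist y t ≤ M := hy
    have a2 : dist (S.τ n w y) (S.τ n w t) ≤ r := (S.τ_dist n w y t).trans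
      ((mul_le_mul_of_nonneg_left a1 (norm_nonneg _)).trans hn.le)
    exact mem_cthickening_of_dist_le (S.τ n w y) (S.τ n w t) r S.T (S.τ_mem n w ht) a2
  have h2 : ∀ M : ℝ, S.μ (closedBall t M) ≤ S.μ S.T := by
    intro M
    have := tendsto_measure_cthickening_of_isClosed (μ := S.μ) (s := S.T)
      ⟨1, one_pos, measure_ne_top _ _⟩ S.cpt.isClosed
    refine ge_of_tendsto (this.mono_left (nhdsWithin_le_nhds (s := Ioi 0))) ?_
    filter_upwards [self_mem_nhdsWithin] with r hr using h1 r hr M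
  have h3 : S.μ univ ≤ S.μ S.T := by
    have := tendsto_measure_iUnion_atTop (μ := S.μ) (s := fun n : ℕ => closedBall t n)
      (fun m n h => closedBall_subset_closedBall (by exact_mod_cast h))
    rw [iUnion_closedBall_nat] at this
    exact le_of_tendsto' this fun n => h2 n
  rw [measure_univ] at h3
  exact (mem_ae_iff_prob_eq_one S.cpt.isClosed.measurableSet).mpr (le_antisymm prob_le_one h3)

noncomputable def ν (n : ℕ) (w : W S.B n) : Measure (Fin d → ℝ) := S.c ^ n • S.μ.map (S.τ n w)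

lemma ν_apply (n : ℕ) (w : W S.B n) {s : Set (Fin d → ℝ)} (hs : MeasurableSet s) :
    S.ν n w s = S.c ^ n * S.μ (S.τ n w ⁻¹' s) := by
  rw [ν, Measure.smul_apply, smul_eq_mul, Measure.map_apply (S.τ_meas n w) hs]

lemma ν_le (n : ℕ) (w : W S.B n) : S.ν n w ≤ S.μ := by
  refine Measure.le_iff.mpr fun s hs => ?_
  rw [S.ν_apply n w hs, S.dec n hs]
  exact Finset.single_le_sum (f := fun w => S.c ^ n * S.μ (S.τ n w ⁻¹' s))
    (fun _ _ => zero_le) (Finset.mem_univ w)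

lemma ae_ν {n : ℕ} {w : W S.B n} {p : (Fin d → ℝ) → Prop} (h : ∀ᵐ x ∂S.ν n w, p x) :
    ∀ᵐ y ∂S.μ, p (S.τ n w y) := by
  rw [ν, Measure.ae_ennreal_smul_measure_iff (pow_ne_zero n S.c_ne)] at h
  exact ae_of_ae_map (S.τ_meas n w).aemeasurable h

lemma ae_τ {n : ℕ} (w : W S.B n) {p : (Fin d → ℝ) → Prop} (h : ∀ᵐ x ∂S.μ, p x) :
    ∀ᵐ y ∂S.μ, p (S.τ n w y) :=
  S.ae_ν ((Measure.absolutelyContinuous_of_le (S.ν_le n w)).ae_le h)

noncomputable def ν1 (b : Fin d → ℤ) : Measure (Fin d → ℝ) := S.c • S.μ.map (S.φ b)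

lemma ν1_apply (b : Fin d → ℤ) {s : Set (Fin d → ℝ)} (hs : MeasurableSet s) :
    S.ν1 b s = S.c * S.μ (S.φ b ⁻¹' s) := by
  rw [ν1, Measure.smul_apply, smul_eq_mul, Measure.map_apply (S.φ b).measurable hs]

lemma ν1_le (b : S.B) : S.ν1 b ≤ S.μ := by
  refine Measure.le_iff.mpr fun s hs => ?_
  rw [S.ν1_apply b hs, S.dec1 hs]
  exact Finset.single_le_sum (f := fun b : S.B => S.c * S.μ (S.φ b ⁻¹' s))
    (fun _ _ => zero_le) (Finset.mem_univ b)

noncomputable def f1 (b : Fin d → ℤ) : (Fin d → ℝ) → ℝ≥0∞ := (S.ν1 b).rnDeriv S.μ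

lemma f1_meas (b : Fin d → ℤ) : Measurable (S.f1 b) := Measure.measurable_rnDeriv _ _

lemma ν1_eq (b : S.B) : S.μ.withDensity (S.f1 b) = S.ν1 b := by
  have : IsFiniteMeasure (S.ν1 (b : Fin d → ℤ)) := isFiniteMeasure_of_le S.μ (S.ν1_le b)
  have h2 : SigmaFinite S.μ := inferInstance
  have h3 : SFinite (S.ν1 (b : Fin d → ℤ)) := inferInstance
  exact Measure.withDensity_rnDeriv_eq _ _ (Measure.absolutelyContinuous_of_le (S.ν1_le b))

noncomputable def f : ∀ n, W S.B n → (Fin d → ℝ) → ℝ≥0∞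
  | 0, _ => fun _ => 1
  | n + 1, w => S.f1 w.1 * (f n w.2 ∘ (S.φ w.1).symm)

lemma f_meas (n : ℕ) (w : W S.B n) : Measurable (S.f n w) := by
  induction n with
  | zero => exact measurable_const
  | succ n ih => exact (S.f1_meas _).mul ((ih _).comp (S.φ _).symm.measurable)

lemma ν_eq (n : ℕ) (w : W S.B n) : S.μ.withDensity (S.f n w) = S.ν n w := by
  induction n with
  | zero =>
    have : S.τ 0 w = id := funext fun y => S.τ_zero w y
    rw [ν, this]; simp [f]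
  | succ n ih =>
    have h1 : S.τ (n + 1) w = S.φ w.1 ∘ S.τ n w.2 := funext fun y => S.τ_succ n w y
    rw [f, withDensity_mul _ (S.f1_meas _) ((S.f_meas _ _).comp (S.φ _).symm.measurable),
      S.ν1_eq, ν1, withDensity_smul_measure, ← map_withDensity_equiv _ _ (S.f_meas _ _), ih,
      ν, ν, Measure.map_smul, smul_smul, pow_succ', h1,
      Measure.map_map (S.φ _).measurable (S.τ_meas _ _)]

lemma f_le (n : ℕ) (w : W S.B n) : ∀ᵐ x ∂S.μ, S.f n w x ≤ 1 := by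
  refine ae_le_of_forall_setLIntegral_le_of_sigmaFinite (S.f_meas n w) fun s hs _ => ?_
  rw [← withDensity_apply _ hs, ν_eq]
  simpa using S.ν_le n w s

lemma f_succ (n : ℕ) (w : W S.B (n + 1)) (y : Fin d → ℝ) :
    S.f (n + 1) w (S.τ (n + 1) w y)
      = S.f1 w.1 (S.φ w.1 (S.τ n w.2 y)) * S.f n w.2 (S.τ n w.2 y) := by
  rw [τ_succ]; simp [f]

lemma f_unif (hs : Spectral S.μ) (n : ℕ) (w w' : W S.B n) :
    ∀ᵐ y ∂S.μ, S.f n w (S.τ n w y) = S.f n w' (S.τ n w' y) := by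
  set t := S.P n (io (D S.ρ n w') - io (D S.ρ n w)) with ht
  have h1 : ∀ y, S.τ n w y + t = S.τ n w' y := fun y => by
    rw [ht, τ, τ, ← map_add]; congr 1; abel
  have h := uniform hs (S.f_meas n w) (S.f_meas n w') (S.f_le n w) (S.f_le n w') t (by
    rw [ν_eq, ν_eq, ν, ν, Measure.map_smul, Measure.map_map (by fun_prop) (S.τ_meas _ _)]
    congr 2
    exact funext h1)
  rw [ν_eq] at h
  simpa only [h1] using S.ae_ν h

lemma f_pos (n : ℕ) (w : W S.B n) : ∀ᵐ y ∂S.μ, S.f n w (S.τ n w y) ≠ 0 := by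
  refine S.ae_ν (p := fun x => S.f n w x ≠ 0) ?_
  rw [← ν_eq, ae_withDensity_iff (S.f_meas n w)]
  exact Eventually.of_forall fun _ h => h

end Data

end Pool.Agent.H92.Sp
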