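import Pool.Agent.H92.Sp2

set_option autoImplicit false
open MeasureTheory Set Filter Metric
open scoped ENNReal Topology

namespace Pool.Agent.H92.Sp

variable {d : ℕ}

namespace Data
variable (S : Data d)

lemma img_cpt (b : Fin d → ℤ) : IsCompact (S.φ b '' S.T) := S.cpt.image (S.φ_cont b)

lemma corner : ∃ b : S.B, ∃ y ∈ S.T, ∀ c : S.B, c ≠ b → S.φ b y ∉ S.φ c '' S.T := by
  obtain ⟨b, hb, hmax⟩ := Finset.exists_max_image S.B
    (fun b => S.L (io b) ⬝ᵥ S.L (io b)) S.B_ne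
  set v := S.L (io b) with hv
  obtain ⟨y, hy, hym⟩ := S.cpt.exists_isMaxOn S.ne (f := fun y => S.L y ⬝ᵥ v) (by fun_prop)
  refine ⟨⟨b, hb⟩, y, hy, ?_⟩
  rintro c hc ⟨z, hz, h⟩
  have h1 : S.L z ⬝ᵥ v ≤ S.L y ⬝ᵥ v := hym hz
  have h2 := hmax c c.2
  set u := S.L (io c) with hu
  have h3 : S.L z ⬝ᵥ v + u ⬝ᵥ v = S.L y ⬝ᵥ v + v ⬝ᵥ v := by
    have := congrArg (· ⬝ᵥ v) h
    simpa [φ_apply, add_dotProduct] using this
  have h4 : (u - v) ⬝ᵥ (u - v) ≤ 0 := by
    simp only [sub_dotProduct, dotProduct_sub, dotProduct_comm v u]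
    linarith
  have h5 : (u - v) ⬝ᵥ (u - v) = 0 :=
    le_antisymm h4 (Finset.sum_nonneg fun i _ => mul_self_nonneg _)
  rw [dotProduct_self_eq_zero, sub_eq_zero] at h5
  exact hc (Subtype.ext (io_inj (S.L.injective h5)))

lemma f1_corner (b : S.B) :
    ∀ᵐ x ∂S.μ, (∀ c : S.B, c ≠ b → x ∉ S.φ c '' S.T) → S.f1 b x = 1 := by
  set O : Set (Fin d → ℝ) := {x | ∀ c : S.B, c ≠ b → x ∉ S.φ c '' S.T} with hO
  have hOm : MeasurableSet O := by
    have : O = ⋂ c : S.B, ⋂ _ : c ≠ b, (S.φ c '' S.T)ᶜ := by ext x; simp [hO]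
    rw [this]
    exact MeasurableSet.iInter fun c => MeasurableSet.iInter fun _ =>
      (S.img_cpt c).isClosed.measurableSet.compl
  refine (ae_restrict_iff' hOm).mp ?_
  refine ae_eq_of_forall_setLIntegral_eq_of_sigmaFinite (S.f1_meas b) measurable_const
    fun s hs _ => ?_
  rw [Measure.restrict_restrict hs, ← withDensity_apply _ (hs.inter hOm), S.ν1_eq,
    S.ν1_apply _ (hs.inter hOm)]
  simp only [lintegral_const, one_mul, MeasurableSet.univ, Measure.restrict_apply, univ_inter]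
  rw [S.dec1 (hs.inter hOm), Finset.sum_eq_single b]
  · intro c _ hc
    refine mul_eq_zero_of_right _ (measure_mono_null (fun y hy => ?_) S.conc)
    exact fun hT => hy.2 c hc ⟨y, hT, rfl⟩
  · simp

lemma f1_one (hs : Spectral S.μ) (b : S.B) : ∀ᵐ x ∂S.μ, S.f1 b (S.φ b x) = 1 := by
  obtain ⟨a, y₀, hy₀, ha⟩ := S.corner
  have hopen : IsOpen {y | ∀ c : S.B, c ≠ a → S.φ a y ∉ S.φ c '' S.T} := by
    have : {y | ∀ c : S.B, c ≠ a → S.φ a y ∉ S.φ c '' S.T}
        = ⋂ c : S.B, ⋂ _ : c ≠ a, S.φ a ⁻¹' (S.φ c '' S.T)ᶜ := by ext x; simp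
    rw [this]
    exact isOpen_iInter_of_finite fun c => isOpen_iInter_of_finite fun _ =>
      (S.img_cpt c).isClosed.isOpen_compl.preimage (S.φ_cont a)
  obtain ⟨r, hr, hball⟩ := Metric.isOpen_iff.mp hopen y₀ ha
  obtain ⟨n, hn⟩ := S.small (diam S.T) hr
  obtain ⟨w', z, hz, rfl⟩ := S.τ_surj n hy₀
  have h1 : ∀ᵐ y ∂S.μ, S.f1 a (S.φ a (S.τ n w' y)) = 1 := by
    filter_upwards [S.ae_τ (n := n + 1) (a, w') (S.f1_corner a), S.conc] with y hy hT
    rw [τ_succ] at hy
    refine hy (hball ?_)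
    have a1 := S.τ_dist n w' y z
    have a2 := mul_le_mul_of_nonneg_left (dist_le_diam_of_mem S.cpt.isBounded hT hz)
      (norm_nonneg (S.P n))
    exact (a1.trans a2).trans_lt hn
  have h2 : ∀ w : W S.B n, ∀ᵐ y ∂S.μ, S.f1 b (S.φ b (S.τ n w y)) = 1 := by
    intro w
    filter_upwards [h1, S.f_unif hs (n + 1) (b, w) (a, w'), S.f_unif hs n w w', S.f_pos n w,
      S.ae_τ w (S.f_le n w)] with y e1 e2 e3 e4 e5
    rw [f_succ, f_succ] at e2
    dsimp only at e2
    rw [e1, ← e3] at e2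
    exact (ENNReal.mul_left_inj e4 (ne_top_of_le_ne_top ENNReal.one_ne_top e5)).mp e2
  have hm : MeasurableSet {x | ¬ S.f1 b (S.φ b x) = 1} :=
    (((S.f1_meas b).comp (S.φ b).measurable) (measurableSet_singleton 1)).compl
  rw [ae_iff, S.dec n hm]
  exact Finset.sum_eq_zero fun w _ => mul_eq_zero_of_right _ (ae_iff.mp (h2 w))

lemma f_one (hs : Spectral S.μ) (n : ℕ) (w : W S.B n) :
    ∀ᵐ y ∂S.μ, S.f n w (S.τ n w y) = 1 := by
  induction n with
  | zero => exact Eventually.of_forall fun _ => rfl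
  | succ n ih =>
    filter_upwards [ih w.2, S.ae_τ w.2 (S.f1_one hs w.1)] with y h1 h2
    rw [f_succ, h1, h2, one_mul]

lemma sing {n : ℕ} {w w' : W S.B n} (h : w ≠ w') :
    S.μ (S.τ n w' ⁻¹' {x | S.f n w x = 1}) = 0 := by
  classical
  set G := {x | S.f n w x = 1} with hG
  have hGm : MeasurableSet G := S.f_meas n w (measurableSet_singleton 1)
  have h1 : S.ν n w G = S.μ G := by
    rw [← ν_eq, withDensity_apply _ hGm, setLIntegral_congr_fun hGm (g := fun _ => 1)
      fun x hx => hx]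
    simp
  have h2 : S.ν n w G + S.ν n w' G ≤ S.μ G := by
    rw [S.dec n hGm, S.ν_apply n w hGm, S.ν_apply n w' hGm,
      ← Finset.sum_pair (f := fun w => S.c ^ n * S.μ (S.τ n w ⁻¹' G)) h]
    exact Finset.sum_le_sum_of_subset (Finset.subset_univ _)
  rw [h1] at h2
  have h3 : S.ν n w' G = 0 := by
    have := (ENNReal.add_le_add_iff_left (measure_ne_top S.μ G)).mp (h2.trans_eq (add_zero _).symm)
    exact le_antisymm this zero_le
  rw [S.ν_apply n w' hGm] at h3
  exact (mul_eq_zero.mp h3).resolve_left (pow_ne_zero n S.c_ne)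

lemma D_inj (hs : Spectral S.μ) (n : ℕ) : Function.Injective (D S.ρ n : W S.B n → _) := by
  intro w w' h
  by_contra hne
  have h1 := S.sing hne
  have h2 : S.τ n w' = S.τ n w := by funext y; rw [τ, τ, h]
  rw [h2] at h1
  have h3 := S.f_one hs n w
  have h4 : ∀ᵐ y ∂S.μ, False := by
    filter_upwards [h3, measure_eq_zero_iff_ae_notMem.mp h1] with y a1 a2 using a2 a1
  exact (IsProbabilityMeasure.ne_zero S.μ) (ae_eq_bot.mp (eventually_false_iff_eq_bot.mp h4))

lemma lattice : ∃ F : Finset (Fin d → ℤ), ∀ p, ∀ y ∈ S.T, ∀ z ∈ S.T, io p = y - z → p ∈ F := by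
  obtain ⟨m, hm⟩ := exists_nat_ge (diam S.T)
  refine ⟨Fintype.piFinset fun _ => Finset.Icc (-(m : ℤ)) m, fun p y hy z hz h => ?_⟩
  rw [Fintype.mem_piFinset]
  intro i
  have h1 : ‖io p‖ ≤ m := by
    rw [h, ← dist_eq_norm]
    exact (dist_le_diam_of_mem S.cpt.isBounded hy hz).trans hm
  have h2 : |(p i : ℝ)| ≤ m := (norm_le_pi_norm (io p) i).trans h1
  rw [abs_le] at h2
  rw [Finset.mem_Icc]
  exact ⟨by exact_mod_cast h2.1, by exact_mod_cast h2.2⟩

lemma dom (hs : Spectral S.μ) (s : Fin d → ℤ) {K : Set (Fin d → ℝ)} (hK : IsClosed K)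
    (hKT : ∀ x ∈ K, x - io s ∈ S.T) (h0 : S.μ ((fun z => z + io s) ⁻¹' K) = 0) : S.μ K = 0 := by
  classical
  obtain ⟨F, hF⟩ := S.lattice
  set K' := (fun z => z + io s) ⁻¹' K with hK'
  have hK'c : IsClosed K' := hK.preimage (by fun_prop)
  have h1 : ∀ r, 0 < r → S.μ K ≤ F.card * S.μ (cthickening r K') := by
    intro r hr
    obtain ⟨n, hn⟩ := S.small (diam S.T) hr
    set X : W S.B n → ℝ≥0∞ := fun w => S.c ^ n * S.μ (S.τ n w ⁻¹' cthickening r K') with hX
    have a1 : ∀ w : W S.B n, S.c ^ n * S.μ (S.τ n w ⁻¹' K) ≤ ∑ p ∈ F, ∑ w' : W S.B n,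
        if D S.ρ n w = D S.ρ n w' + S.ρ^[n] s + p then X w' else 0 := by
      intro w
      by_cases hw : ∃ y ∈ S.T, S.τ n w y ∈ K
      · obtain ⟨y, hy, hyK⟩ := hw
        obtain ⟨w', y', hy', e⟩ := S.τ_surj n (hKT _ hyK)
        set p := D S.ρ n w - D S.ρ n w' - S.ρ^[n] s with hp
        have e1 : io p = y' - y := by
          have : S.P n (y' + io (D S.ρ n w') + io (S.ρ^[n] s)) = S.P n (y + io (D S.ρ n w)) := by
            rw [map_add, P_io]
            exact (eq_sub_iff_add_eq.mp e)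
          have := S.P_inj n this
          rw [hp, io_sub, io_sub]
          linear_combination -this
        have e2 : D S.ρ n w = D S.ρ n w' + S.ρ^[n] s + p := by rw [hp]; abel
        refine le_trans ?_ (Finset.single_le_sum (fun _ _ => zero_le) (hF p y' hy' y hy e1))
        refine le_trans ?_ (Finset.single_le_sum (fun _ _ => zero_le) (Finset.mem_univ w'))
        rw [if_pos e2]
        refine mul_le_mul_right (measure_mono fun z hz => ?_) _
        have e3 : S.τ n w' z + S.P n (io p) ∈ K' := by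
          have : S.τ n w' z + S.P n (io p) + io s = S.τ n w z := by
            rw [τ, τ, e2, io_add, io_add, ← S.P_io n s, ← map_add, ← map_add]
            congr 1; abel
          change _ + io s ∈ K
          rw [this]; exact hz
        have e4 : dist (S.τ n w' z) (S.τ n w' z + S.P n (io p)) ≤ r := by
          rw [dist_self_add_right, e1]
          refine ((S.P n).le_opNorm _).trans (le_trans ?_ hn.le)
          rw [← dist_eq_norm]
          exact mul_le_mul_of_nonneg_left (dist_le_diam_of_mem S.cpt.isBounded hy' hy)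
            (norm_nonneg _)
        exact mem_cthickening_of_dist_le (S.τ n w' z) _ r K' e3 e4
      · have : S.μ (S.τ n w ⁻¹' K) = 0 :=
          measure_mono_null (fun y hy hT => hw ⟨y, hT, hy⟩) S.conc
        rw [this, mul_zero]; exact zero_le
    have a2 : ∀ (q : Fin d → ℤ) (x : ℝ≥0∞),
        (∑ w : W S.B n, if D S.ρ n w = q then x else 0) ≤ x := by
      intro q x
      by_cases hq : ∃ w : W S.B n, D S.ρ n w = q
      · obtain ⟨w, rfl⟩ := hq
        simp only [(S.D_inj hs n).eq_iff]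
        simp
      · push Not at hq
        simp [hq]
    rw [S.dec n hK.measurableSet, S.dec n isClosed_cthickening.measurableSet]
    refine (Finset.sum_le_sum fun w _ => a1 w).trans ?_
    rw [Finset.sum_comm, ← nsmul_eq_mul, ← Finset.sum_const]
    refine Finset.sum_le_sum fun p _ => ?_
    rw [Finset.sum_comm]
    exact Finset.sum_le_sum fun w' _ => a2 _ _
  have h2 := tendsto_measure_cthickening_of_isClosed (μ := S.μ) (s := K')
    ⟨1, one_pos, measure_ne_top _ _⟩ hK'c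
  have h3 := ENNReal.Tendsto.const_mul (a := (F.card : ℝ≥0∞))
    (h2.mono_left (nhdsWithin_le_nhds (s := Ioi 0))) (Or.inr (by simp))
  rw [h0, mul_zero] at h3
  refine le_antisymm (ge_of_tendsto h3 ?_) zero_le
  filter_upwards [self_mem_nhdsWithin] with r hr using h1 r hr

lemma null (hs : Spectral S.μ) {b c : S.B} (h : b ≠ c) : S.μ (S.φ c ⁻¹' (S.φ b '' S.T)) = 0 := by
  set s : Fin d → ℤ := b - c with hsd
  have e : ∀ z, S.φ c (z + io s) = S.φ b z := fun z => by
    rw [φ_apply, φ_apply, hsd, io_sub]; congr 1; abel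
  set wb : W S.B 1 := (b, ())
  set wc : W S.B 1 := (c, ())
  have hne : wc ≠ wb := fun h' => h (congrArg Prod.fst h').symm
  have t1 : ∀ y, S.τ 1 wb y = S.φ b y := fun y => by rw [τ_succ, τ_zero]
  have t2 : ∀ y, S.τ 1 wc y = S.φ c y := fun y => by rw [τ_succ, τ_zero]
  have h1 := S.sing hne
  have h2 := S.f_one hs 1 wc
  set G := {x | S.f 1 wc x = 1} with hG
  have hGm : MeasurableSet G := S.f_meas 1 wc (measurableSet_singleton 1)
  set A := S.φ c ⁻¹' (S.φ b '' S.T ∩ G) with hA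
  have hAm : MeasurableSet A :=
    (S.φ c).measurable ((S.img_cpt b).isClosed.measurableSet.inter hGm)
  have h3 : S.μ A = 0 := by
    by_contra hc
    obtain ⟨K, hKA, hK, hpos⟩ := hAm.exists_lt_isCompact_of_ne_top (measure_ne_top S.μ A)
      (pos_iff_ne_zero.mpr hc)
    refine hpos.ne' (S.dom hs s hK.isClosed (fun x hx => ?_) (measure_mono_null (fun z hz => ?_) h1))
    · obtain ⟨z, hz, h4⟩ := (hKA hx).1
      rw [← e] at h4
      rw [← (S.φ c).injective h4]
      simpa using hz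
    · have := (hKA hz).2
      rw [e, ← t1] at this
      exact this
  refine measure_mono_null (t := A ∪ {y | ¬ S.f 1 wc (S.τ 1 wc y) = 1}) (fun y hy => ?_)
    (measure_union_null h3 (ae_iff.mp h2))
  by_cases h5 : S.f 1 wc (S.τ 1 wc y) = 1
  · exact Or.inl ⟨hy, by rw [← t2]; exact h5⟩
  · exact Or.inr h5

theorem main (hs : Spectral S.μ) {b b' : Fin d → ℤ} (hb : b ∈ S.B) (hb' : b' ∈ S.B)
    (h : b ≠ b') : S.μ (S.φ b '' S.T ∩ S.φ b' '' S.T) = 0 := by
  rw [S.dec1 ((S.img_cpt b).isClosed.inter (S.img_cpt b').isClosed).measurableSet]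
  refine Finset.sum_eq_zero fun c _ => mul_eq_zero_of_right _ ?_
  by_cases hc : (⟨b, hb⟩ : S.B) = c
  · have : (⟨b', hb'⟩ : S.B) ≠ c := fun h' => h (congrArg Subtype.val (hc.trans h'.symm))
    have h1 : S.μ (S.φ c ⁻¹' (S.φ b' '' S.T)) = 0 := S.null (b := ⟨b', hb'⟩) (c := c) hs this
    exact measure_mono_null (preimage_mono inter_subset_right) h1
  · have h1 : S.μ (S.φ c ⁻¹' (S.φ b '' S.T)) = 0 := S.null (b := ⟨b, hb⟩) (c := c) hs hc
    exact measure_mono_null (preimage_mono inter_subset_left) h1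

end Data

end Pool.Agent.H92.Sp
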