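import Pool.Agent.H92.Sp3

set_option autoImplicit false
open MeasureTheory Set Filter Metric Matrix
open scoped ENNReal NNReal Topology Matrix.Norms.Operator

namespace Pool.Agent.H92.Sp

lemma pow_tendsto {A : Type*} [NormedRing A] [NormedAlgebra ℂ A] [CompleteSpace A] (a : A)
    (h : ∀ z ∈ spectrum ℂ a, ‖z‖ < 1) : Tendsto (fun n => ‖a ^ n‖) atTop (𝓝 0) := by
  have h1 : spectralRadius ℂ a < 1 := by
    by_cases hne : (spectrum ℂ a).Nonempty
    · exact spectrum.spectralRadius_lt_of_forall_lt_of_nonempty hne (r := 1)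
        fun z hz => by exact_mod_cast h z hz
    · rw [Set.not_nonempty_iff_eq_empty] at hne
      simp [spectralRadius, hne]
  obtain ⟨r, hr1, hr2⟩ := ENNReal.lt_iff_exists_real_btwn.mp h1
  have hr0 := hr1
  have hr3 : r < 1 := by simpa using hr2.2
  have h2 := (spectrum.pow_norm_pow_one_div_tendsto_nhds_spectralRadius a).eventually
    (gt_mem_nhds hr2.1)
  refine squeeze_zero' (Eventually.of_forall fun _ => norm_nonneg _) ?_
    (tendsto_pow_atTop_nhds_zero_of_lt_one hr0 hr3)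
  filter_upwards [h2, eventually_gt_atTop 0] with n hn hn0
  have h3 : ‖a ^ n‖ ^ (1 / n : ℝ) ≤ r :=
    ((ENNReal.ofReal_lt_ofReal_iff_of_nonneg (by positivity)).mp hn).le
  have h4 := pow_le_pow_left₀ (by positivity) h3 n
  rwa [one_div, Real.rpow_inv_natCast_pow (norm_nonneg _) hn0.ne'] at h4

variable {d : ℕ}

lemma mat (R : Matrix (Fin d) (Fin d) ℤ)
    (h : ∀ z : ℂ, (R.map (Int.castRingHom ℂ)).charpoly.IsRoot z → 1 < ‖z‖) :
    IsUnit (R.map (Int.castRingHom ℝ)).det ∧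
      Tendsto (fun n => ‖((R.map (Int.castRingHom ℝ))⁻¹) ^ n‖) atTop (𝓝 0) := by
  set Rc := R.map (Int.castRingHom ℂ) with hRc
  set Rr := R.map (Int.castRingHom ℝ) with hRr
  have hsp : ∀ z ∈ spectrum ℂ Rc, 1 < ‖z‖ := fun z hz =>
    h z (Matrix.mem_spectrum_iff_isRoot_charpoly.mp hz)
  have hu : IsUnit Rc := by
    rw [← spectrum.zero_notMem_iff ℂ]
    intro h0
    have := hsp 0 h0
    norm_num at this
  have hmap : Rr.map Complex.ofRealHom = Rc := by ext i j; simp [hRr, hRc]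
  have hdet : IsUnit Rr.det := by
    rw [Matrix.isUnit_iff_isUnit_det, ← hmap] at hu
    have : (Rr.map Complex.ofRealHom).det = Complex.ofRealHom Rr.det :=
      (RingHom.map_det Complex.ofRealHom Rr).symm
    rw [this] at hu
    simpa using hu
  refine ⟨hdet, ?_⟩
  obtain ⟨u, hu'⟩ := hu
  have hinv : (Rr⁻¹).map Complex.ofRealHom = (↑u⁻¹ : Matrix (Fin d) (Fin d) ℂ) := by
    symm
    apply Units.inv_eq_of_mul_eq_one_right
    rw [hu', ← hmap, ← Matrix.map_mul, Matrix.mul_nonsing_inv _ hdet]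
    simp
  have h1 := pow_tendsto (↑u⁻¹ : Matrix (Fin d) (Fin d) ℂ) fun z hz => by
    by_cases hz0 : z = 0
    · simp [hz0]
    · have : ((Units.mk0 z hz0)⁻¹ : ℂˣ).val ∈ spectrum ℂ (u : Matrix (Fin d) (Fin d) ℂ) := by
        rw [spectrum.inv_mem_iff]; simpa using hz
      have := hsp _ (hu' ▸ this)
      simp only [Units.val_inv_eq_inv_val, Units.val_mk0, norm_inv] at this
      exact (one_lt_inv₀ (norm_pos_iff.mpr hz0)).mp this
  refine h1.congr fun n => ?_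
  rw [← hinv, ← Matrix.map_pow, linfty_opNorm_def, linfty_opNorm_def]
  simp

noncomputable def mkL (A : Matrix (Fin d) (Fin d) ℝ) (h : IsUnit A.det) :
    (Fin d → ℝ) ≃L[ℝ] (Fin d → ℝ) :=
  LinearEquiv.toContinuousLinearEquiv
    (LinearEquiv.ofLinearMap (Matrix.toLin' A⁻¹) (Matrix.toLin' A)
      (by rw [← Matrix.toLin'_mul, Matrix.nonsing_inv_mul _ h, Matrix.toLin'_one])
      (by rw [← Matrix.toLin'_mul, Matrix.mul_nonsing_inv _ h, Matrix.toLin'_one]))

lemma mkL_apply (A : Matrix (Fin d) (Fin d) ℝ) (h : IsUnit A.det) (x : Fin d → ℝ) :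
    mkL A h x = A⁻¹ *ᵥ x := rfl

lemma mkL_pow (A : Matrix (Fin d) (Fin d) ℝ) (h : IsUnit A.det) (n : ℕ) :
    ‖(mkL A h : (Fin d → ℝ) →L[ℝ] (Fin d → ℝ)) ^ n‖ ≤ ‖A⁻¹ ^ n‖ := by
  have : ∀ x, ((mkL A h : (Fin d → ℝ) →L[ℝ] (Fin d → ℝ)) ^ n) x = (A⁻¹ ^ n) *ᵥ x := by
    induction n with
    | zero => simp
    | succ n ih => intro x; rw [pow_succ, pow_succ, ← mulVec_mulVec, ← ih]; rfl
  refine ContinuousLinearMap.opNorm_le_bound _ (norm_nonneg _) fun x => ?_
  rw [this]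
  exact linfty_opNorm_mulVec _ _

lemma io_mulVec (R : Matrix (Fin d) (Fin d) ℤ) (p : Fin d → ℤ) :
    io (R *ᵥ p) = R.map (Int.castRingHom ℝ) *ᵥ io p := by
  ext i; simp [io, mulVec, dotProduct]

end Pool.Agent.H92.Sp
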