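import Mathlib

set_option autoImplicit false
open MvPolynomial

namespace Pool.Agent.H92.SphHull

def InHull (E : Set (Fin 2 → ℂ)) (z : Fin 2 → ℂ) : Prop :=
  ∀ p : MvPolynomial (Fin 2) ℂ, ∀ c : ℝ, (∀ w ∈ E, ‖eval w p‖ ≤ c) → ‖eval z p‖ ≤ c

lemma re_le {E : Set (Fin 2 → ℂ)} (hE : IsCompact E) {z : Fin 2 → ℂ} (hz : InHull E z)
    (p : MvPolynomial (Fin 2) ℂ) (c : ℝ) (h : ∀ w ∈ E, (eval w p).re ≤ c) : (eval z p).re ≤ c := by
  by_contra hlt
  push Not at hlt
  obtain ⟨M, hM⟩ := hE.exists_bound_of_continuousOn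
    (f := fun w => eval w p - (c : ℂ)) ((p.continuous_eval.sub continuous_const).continuousOn)
  set d := (eval z p).re - c with hd
  have hd0 : 0 < d := by linarith
  set ε := d / (M ^ 2 + 1) with hε
  have hε0 : 0 < ε := by positivity
  have key := hz (1 + C (ε : ℂ) * (p - C (c : ℂ))) (Real.sqrt (1 + ε ^ 2 * M ^ 2)) (by
    intro w hw
    apply Real.le_sqrt_of_sq_le
    simp only [map_add, map_one, map_mul, eval_C, map_sub]
    have h1 := hM w hw
    have h2 := h w hw
    set u := eval w p - (c : ℂ) with hu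
    have h3 : u.re ≤ 0 := by simp [hu]; linarith
    have h4 : ‖u‖ ^ 2 ≤ M ^ 2 := pow_le_pow_left₀ (norm_nonneg _) h1 2
    rw [Complex.sq_norm, Complex.normSq_apply] at h4 ⊢
    simp only [Complex.add_re, Complex.one_re, Complex.mul_re, Complex.ofReal_re,
      Complex.ofReal_im, Complex.add_im, Complex.one_im, Complex.mul_im]
    nlinarith [mul_le_mul_of_nonneg_left h4 (sq_nonneg ε), mul_nonneg hε0.le (neg_nonneg.2 h3)])
  have h5 := (Complex.re_le_norm _).trans key
  simp only [map_add, map_one, map_mul, eval_C, map_sub, Complex.add_re, Complex.one_re,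
    Complex.mul_re, Complex.ofReal_re, Complex.ofReal_im, Complex.sub_re, zero_mul,
    sub_zero] at h5
  rw [← hd] at h5
  have h6 : (1 + ε * d) ^ 2 ≤ 1 + ε ^ 2 * M ^ 2 := by
    have := Real.sq_sqrt (show 0 ≤ 1 + ε ^ 2 * M ^ 2 by positivity)
    rw [← this]
    exact pow_le_pow_left₀ (by positivity) h5 2
  have h7 : ε * (M ^ 2 + 1) = d := by rw [hε]; field_simp
  have h8 : 2 * d ≤ ε * M ^ 2 := by
    have : ε * (2 * d) ≤ ε * (ε * M ^ 2) := by nlinarith [sq_nonneg (ε * d)]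
    exact le_of_mul_le_mul_left this hε0
  nlinarith

lemma level {E : Set (Fin 2 → ℂ)} (hE : IsCompact E) (hr : ∀ w ∈ E, (w 1).im = 0)
    {z : Fin 2 → ℂ} (hz : InHull E z) (hz1 : (z 1).im = 0) (G : MvPolynomial (Fin 2) ℂ)
    (h : ∀ w ∈ E, w 1 = z 1 → (eval w G).re < (eval z G).re) : False := by
  let U : ℕ → Set (Fin 2 → ℂ) := fun N =>
    {w | (eval w G).re - N * ((w 1).re - (z 1).re) ^ 2 < (eval z G).re - 1 / ((N : ℝ) + 1)}
  have hUo : ∀ N, IsOpen (U N) := fun N => by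
    have h1 : Continuous fun w : Fin 2 → ℂ => (eval w G).re :=
      Complex.continuous_re.comp G.continuous_eval
    exact isOpen_lt (by fun_prop) continuous_const
  have hmono : Monotone U := by
    intro m n hmn w hw
    have h1 : (m : ℝ) ≤ n := by exact_mod_cast hmn
    have h2 : 1 / ((n : ℝ) + 1) ≤ 1 / ((m : ℝ) + 1) :=
      one_div_le_one_div_of_le (by positivity) (by linarith)
    have h3 := mul_le_mul_of_nonneg_right h1 (sq_nonneg ((w 1).re - (z 1).re))
    simp only [U, Set.mem_ofPred_eq] at hw ⊢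
    linarith
  have hcov : E ⊆ ⋃ N, U N := by
    intro w hw
    rw [Set.mem_iUnion]
    by_cases h1 : w 1 = z 1
    · obtain ⟨N, hN⟩ := exists_nat_one_div_lt (sub_pos.2 (h w hw h1))
      refine ⟨N, ?_⟩
      simp only [U, Set.mem_ofPred_eq, h1, sub_self]
      norm_num at hN ⊢
      linarith
    · have h2 : (w 1).re - (z 1).re ≠ 0 := by
        intro h3
        exact h1 (Complex.ext (sub_eq_zero.1 h3) (by rw [hr w hw, hz1]))
      have h3 : 0 < ((w 1).re - (z 1).re) ^ 2 := by positivity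
      obtain ⟨N, hN⟩ := exists_nat_gt
        (((eval w G).re - (eval z G).re + 1) / ((w 1).re - (z 1).re) ^ 2)
      rw [div_lt_iff₀ h3] at hN
      refine ⟨N, ?_⟩
      have h4 : 1 / ((N : ℝ) + 1) ≤ 1 := by
        rw [div_le_one (by positivity)]; linarith [(Nat.cast_nonneg N : (0 : ℝ) ≤ N)]
      simp only [U, Set.mem_ofPred_eq]
      linarith
  obtain ⟨N, hN⟩ := hE.elim_directed_cover U hUo hcov hmono.directed_le
  have key := re_le hE hz (G - C (N : ℂ) * (X 1 - C (z 1)) ^ 2)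
    ((eval z G).re - 1 / ((N : ℝ) + 1)) (by
      intro w hw
      have h1 := hN hw
      simp only [U, Set.mem_ofPred_eq] at h1
      simp only [map_sub, map_mul, eval_C, map_pow, eval_X, Complex.sub_re, Complex.mul_re,
        Complex.natCast_re, Complex.natCast_im, zero_mul, sub_zero, sq, Complex.sub_im, hr w hw,
        hz1, mul_zero] at h1 ⊢
      exact h1.le)
  simp only [map_sub, map_mul, eval_C, map_pow, eval_X, sub_self] at key
  have : 0 < 1 / ((N : ℝ) + 1) := by positivity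
  norm_num at key this
  linarith

lemma fejer (N : ℕ) (u : ℂ) :
    (1 - u) ^ 2 * ∑ k ∈ Finset.range N, ∑ n ∈ Finset.range (k + 1), u ^ n =
      N * (1 - u) - u * (1 - u ^ N) := by
  induction N with
  | zero => simp
  | succ N ih =>
    rw [Finset.sum_range_succ, mul_add, ih]
    have := mul_neg_geom_sum u (N + 1)
    push_cast
    linear_combination (1 - u) * this

lemma fejer_re (N : ℕ) (u : ℂ) (hu : ‖u‖ ≤ 1) (δ : ℝ) (hδ : 0 < δ) (h1 : δ ≤ ‖1 - u‖) :
    |(∑ k ∈ Finset.range N, ∑ n ∈ Finset.range (k + 1), u ^ n).re -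
      N * (1 / 2 + (1 - ‖u‖ ^ 2) / (2 * ‖1 - u‖ ^ 2))| ≤ 2 / δ ^ 2 := by
  have h0 : 1 - u ≠ 0 := by
    intro h; rw [h, norm_zero] at h1; linarith
  have h2 : (∑ k ∈ Finset.range N, ∑ n ∈ Finset.range (k + 1), u ^ n) =
      N * (1 - u)⁻¹ - u * (1 - u ^ N) / (1 - u) ^ 2 := by
    have := fejer N u
    field_simp
    linear_combination this
  have h3 : ((1 - u)⁻¹).re = 1 / 2 + (1 - ‖u‖ ^ 2) / (2 * ‖1 - u‖ ^ 2) := by
    have h4 : Complex.normSq (1 - u) ≠ 0 := by simpa using h0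
    rw [Complex.inv_re, Complex.sq_norm, Complex.sq_norm]
    field_simp
    simp only [Complex.normSq_apply, Complex.sub_re, Complex.one_re, Complex.sub_im,
      Complex.one_im]
    ring
  rw [h2, Complex.sub_re, Complex.mul_re, h3]
  simp only [Complex.natCast_re, Complex.natCast_im, zero_mul, sub_zero, sub_sub_cancel_left,
    abs_neg]
  refine (Complex.abs_re_le_norm _).trans ?_
  rw [norm_div, norm_mul, norm_pow]
  have h5 : ‖1 - u ^ N‖ ≤ 2 := by
    refine (norm_sub_le _ _).trans ?_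
    rw [norm_one, norm_pow]
    linarith [pow_le_one₀ (n := N) (norm_nonneg u) hu]
  have h6 : ‖u‖ * ‖1 - u ^ N‖ ≤ 2 := by
    nlinarith [norm_nonneg u, norm_nonneg (1 - u ^ N)]
  gcongr

theorem main {E : Set (Fin 2 → ℂ)} (hE : IsCompact E)
    (hS : ∀ w ∈ E, (w 1).im = 0 ∧ ‖w 0‖ ^ 2 + (w 1).re ^ 2 = 1)
    {z : Fin 2 → ℂ} (hz : InHull E z) (hzE : z ∉ E) :
    ∃ g : ℂ → (Fin 2 → ℂ), Differentiable ℂ g ∧
      (∀ ζ ∈ Metric.ball (0 : ℂ) 1, InHull E (g ζ) ∧ g ζ ∉ E) ∧ g 0 ≠ g (1 / 2) := by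
  have hr : ∀ w ∈ E, (w 1).im = 0 := fun w hw => (hS w hw).1
  have hz1 : (z 1).im = 0 := by
    have := re_le hE hz (-(X 1 - C ((z 1).re : ℂ)) ^ 2) 0 (by
      intro w hw
      simp only [map_neg, map_pow, map_sub, eval_X, eval_C, sq, Complex.neg_re, Complex.mul_re,
        Complex.sub_re, Complex.sub_im, Complex.ofReal_re, Complex.ofReal_im, hr w hw, map_mul]
      nlinarith [mul_self_nonneg ((w 1).re - (z 1).re)])
    simp only [map_neg, map_pow, map_sub, eval_X, eval_C, sq, Complex.neg_re, Complex.mul_re,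
      Complex.sub_re, Complex.sub_im, Complex.ofReal_re, Complex.ofReal_im, map_mul] at this
    nlinarith [mul_self_nonneg (z 1).im]
  have hext : ∀ w v : Fin 2 → ℂ, w 0 = v 0 → w 1 = v 1 → w = v := by
    intro w v h0 h1
    funext i; fin_cases i
    · exact h0
    · exact h1
  have hin : ‖z 0‖ ^ 2 + (z 1).re ^ 2 < 1 := by
    by_contra hge
    push Not at hge
    refine level hE hr hz hz1 (C ((starRingEnd ℂ) (z 0)) * X 0) fun w hw h1 => ?_
    have h2 := (hS w hw).2
    rw [h1] at h2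
    have h3 : w 0 ≠ z 0 := fun h => hzE (hext w z h h1 ▸ hw)
    have h4 : 0 < Complex.normSq (w 0 - z 0) := Complex.normSq_pos.2 (sub_ne_zero.2 h3)
    rw [Complex.sq_norm] at hge h2
    simp only [Complex.normSq_apply, Complex.sub_re, Complex.sub_im] at h4 hge h2
    simp only [map_mul, eval_C, eval_X, Complex.mul_re, Complex.conj_re, Complex.conj_im]
    nlinarith
  set ρ := Real.sqrt (1 - (z 1).re ^ 2) with hρ
  have hρ2 : ρ ^ 2 = 1 - (z 1).re ^ 2 := Real.sq_sqrt (by nlinarith [sq_nonneg ‖z 0‖])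
  have hρ0 : 0 < ρ := Real.sqrt_pos.2 (by nlinarith [sq_nonneg ‖z 0‖])
  have hzρ : ‖z 0‖ < ρ := by
    apply lt_of_pow_lt_pow_left₀ 2 hρ0.le
    linarith
  have hcirc : ∀ b : ℂ, ‖b‖ = ρ → (![b, z 1] : Fin 2 → ℂ) ∈ E := by
    intro b hb
    by_contra hbE
    have hb0 : b ≠ 0 := by
      intro h; rw [h, norm_zero] at hb; linarith
    obtain ⟨δ, hδ, hball⟩ := Metric.isOpen_iff.1 hE.isClosed.isOpen_compl _ hbE
    set α := z 0 / b with hα
    have hα1 : ‖α‖ < 1 := by rw [hα, norm_div, hb, div_lt_one hρ0]; exact hzρ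
    have hα2 : 0 < 1 - ‖α‖ := by linarith
    have hα3 : 1 - ‖α‖ ≤ ‖1 - α‖ := by simpa using norm_sub_norm_le (1 : ℂ) α
    have hα4 : ‖1 - α‖ ≤ 2 := by
      refine (norm_sub_le _ _).trans ?_
      rw [norm_one]; linarith
    have hκ : 0 < (1 - ‖α‖ ^ 2) / (2 * ‖1 - α‖ ^ 2) := by
      have : 0 < ‖1 - α‖ := by linarith
      have : 0 < 1 - ‖α‖ ^ 2 := by nlinarith [norm_nonneg α]
      positivity
    obtain ⟨N, hN⟩ := exists_nat_gt ((2 / (1 - ‖α‖) ^ 2 + 2 / (δ / ρ) ^ 2) /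
      ((1 - ‖α‖ ^ 2) / (2 * ‖1 - α‖ ^ 2)))
    rw [div_lt_iff₀ hκ] at hN
    refine level hE hr hz hz1 (∑ k ∈ Finset.range N, ∑ n ∈ Finset.range (k + 1),
      (C b⁻¹ * X 0) ^ n) fun w hw h1 => ?_
    simp only [map_sum, map_pow, map_mul, eval_C, eval_X]
    have e1 : b⁻¹ * z 0 = α := by rw [hα]; field_simp
    rw [e1]
    have k1 := fejer_re N α hα1.le _ hα2 hα3
    have hw0 : ‖w 0‖ = ρ := by
      have h2 := (hS w hw).2
      rw [h1] at h2
      apply (pow_left_inj₀ (norm_nonneg _) hρ0.le two_ne_zero).1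
      linarith
    have hu : ‖b⁻¹ * w 0‖ = 1 := by
      rw [norm_mul, norm_inv, hb, hw0]; field_simp
    have hd : δ ≤ ‖b - w 0‖ := by
      by_contra hlt
      push Not at hlt
      refine hball (a := w) ?_ hw
      rw [Metric.mem_ball, dist_pi_lt_iff hδ]
      intro i; fin_cases i
      · simpa [dist_eq_norm, norm_sub_rev] using hlt
      · simpa [h1] using hδ
    have hd2 : δ / ρ ≤ ‖1 - b⁻¹ * w 0‖ := by
      have : 1 - b⁻¹ * w 0 = (b - w 0) / b := by field_simp
      rw [this, norm_div, hb]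
      exact div_le_div_of_nonneg_right hd hρ0.le
    have k2 := fejer_re N _ hu.le _ (div_pos hδ hρ0) hd2
    rw [hu] at k2
    have k3 := (abs_le.1 k1).1
    have k4 := (abs_le.1 k2).2
    simp only [one_pow, sub_self, zero_div, add_zero] at k4
    rw [mul_add] at k3
    linarith
  have hg : Differentiable ℂ (fun ζ : ℂ => (![(ρ : ℂ) * ζ, z 1] : Fin 2 → ℂ)) := by
    rw [differentiable_pi]
    intro i; fin_cases i
    · simp only [Fin.zero_eta, Matrix.cons_val_zero]; fun_prop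
    · simp
  refine ⟨_, hg, fun ζ hζ => ⟨?_, ?_⟩, ?_⟩
  · intro p c hc
    have hd : Differentiable ℂ fun ζ : ℂ => eval (![(ρ : ℂ) * ζ, z 1] : Fin 2 → ℂ) p := by
      have : Differentiable ℂ fun w : Fin 2 → ℂ => eval w p :=
        (AnalyticOnNhd.eval_mvPolynomial p).differentiableOn |> differentiableOn_univ.1
      exact this.comp hg
    refine Complex.norm_le_of_forall_mem_frontier_norm_le (U := Metric.ball (0 : ℂ) 1)
      Metric.isBounded_ball hd.diffContOnCl ?_ (subset_closure hζ)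
    intro u hu
    rw [frontier_ball _ one_ne_zero, mem_sphere_zero_iff_norm] at hu
    exact hc _ (hcirc _ (by rw [norm_mul, hu, Complex.norm_real, Real.norm_of_nonneg hρ0.le,
      mul_one]))
  · intro hmem
    have h2 := (hS _ hmem).2
    simp only [Matrix.cons_val_zero, Matrix.cons_val_one, norm_mul, Complex.norm_real,
      Real.norm_of_nonneg hρ0.le, Matrix.cons_val_fin_one] at h2
    rw [mem_ball_zero_iff] at hζ
    have h3 : ‖ζ‖ ^ 2 < 1 := by nlinarith [norm_nonneg ζ]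
    nlinarith [mul_pos (pow_pos hρ0 2) (sub_pos.2 h3)]
  · intro h
    have := congrFun h 0
    simp [hρ0.ne'] at this

end Pool.Agent.H92.SphHull
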