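import Mathlib

namespace Pool.Agent.H92.TN
open Set Filter Topology
open scoped ENNReal

/-- the segments `x = a y + b a` are covered by slanted strips of total half-width `≤ c` -/
def Cov (b : ℝ → ℝ) (c : ℝ) : Prop :=
  ∃ (ι : Type) (_ : Fintype ι) (s t w : ι → ℝ), (∀ i, 0 ≤ w i) ∧ ∑ i, w i ≤ c ∧
    ∀ a ∈ Icc (0 : ℝ) 1, ∀ y ∈ Icc (0 : ℝ) 1, ∃ i, |a * y + b a - s i * y - t i| ≤ w i

lemma Cov.mono {b : ℝ → ℝ} {c c' : ℝ} (h : Cov b c) (hc : c ≤ c') : Cov b c' := by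
  obtain ⟨ι, hι, s, t, w, h0, h1, h2⟩ := h
  exact ⟨ι, hι, s, t, w, h0, h1.trans hc, h2⟩

lemma Cov.nonneg {b : ℝ → ℝ} {c : ℝ} (h : Cov b c) : 0 ≤ c := by
  obtain ⟨ι, hι, s, t, w, h0, h1, h2⟩ := h
  exact (Finset.sum_nonneg fun i _ => h0 i).trans h1

lemma exists_idx (N : ℕ) (hN : 0 < N) (a : ℝ) (ha : a ∈ Icc (0 : ℝ) 1) :
    ∃ i : Fin N, N * a - i ∈ Icc (0 : ℝ) 1 := by
  have hN' : (0 : ℝ) < N := by exact_mod_cast hN
  have h0 : 0 ≤ N * a := mul_nonneg hN'.le ha.1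
  by_cases h : ⌊N * a⌋₊ < N
  · refine ⟨⟨_, h⟩, ?_, ?_⟩
    · simp only; linarith [Nat.floor_le h0]
    · simp only; linarith [Nat.lt_floor_add_one (N * a)]
  · have h1 : (N : ℝ) ≤ N * a := by
      have : (N : ℝ) ≤ ⌊N * a⌋₊ := by exact_mod_cast not_lt.1 h
      linarith [Nat.floor_le h0]
    have h2 : N * a ≤ N := by nlinarith [ha.2]
    refine ⟨⟨N - 1, by omega⟩, ?_, ?_⟩ <;> simp only <;> rw [Nat.cast_sub hN] <;> push_cast <;>
      linarith

lemma step (N : ℕ) (hN : 0 < N) {b : ℝ → ℝ} {c : ℝ} (hb : ∀ a, |b a| ≤ 1) (h : Cov b c) :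
    ∃ b' : ℝ → ℝ, (∀ a, |b' a| ≤ 2 / N) ∧
      Cov b' (3 / N + (1 - (∑ i ∈ Finset.range N, 1 / ((i : ℝ) + 1)) / N) * c) := by
  classical
  obtain ⟨ι, hι, s, t, w, h0, h1, h2⟩ := h
  have hN' : (0 : ℝ) < N := by exact_mod_cast hN
  have hex : ∀ a : ℝ, ∃ (i : Fin N) (a' : ℝ), a' ∈ Icc (0 : ℝ) 1 ∧
      (a ∈ Icc (0 : ℝ) 1 → a = (i + a') / N) := by
    intro a
    by_cases ha : a ∈ Icc (0 : ℝ) 1
    · obtain ⟨i, hi⟩ := exists_idx N hN a ha
      exact ⟨i, N * a - i, hi, fun _ => by field_simp; ring⟩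
    · exact ⟨⟨0, hN⟩, 0, ⟨le_rfl, zero_le_one⟩, fun h => absurd h ha⟩
  choose idx a' ha' hidx using hex
  let v : Fin N → ℝ := fun i => 1 / ((i : ℝ) + 1)
  have hv0 : ∀ i, 0 < v i := fun i => by simp only [v]; positivity
  have hv1 : ∀ i, v i ≤ 1 := fun i => by
    simp only [v]; rw [div_le_one (by positivity)]; linarith [(i : ℕ).cast_nonneg (α := ℝ)]
  have hbd : ∀ a, |(-(a' a * v (idx a)) + (1 - v (idx a)) * b (a' a)) / N| ≤ 2 / N := by
    intro a
    rw [abs_div, abs_of_pos hN']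
    gcongr
    have h3 := abs_le.1 (hb (a' a))
    have h4 := ha' a
    have h5 := hv0 (idx a)
    have h6 := hv1 (idx a)
    rw [abs_le]
    constructor <;> nlinarith [h4.1, h4.2, h3.1, h3.2]
  refine ⟨fun a => (-(a' a * v (idx a)) + (1 - v (idx a)) * b (a' a)) / N, hbd,
    Option (Fin N × ι), inferInstance,
    fun o => o.elim 0 (fun p => (p.1 + s p.2) / N),
    fun o => o.elim 0 (fun p => (-(s p.2 * v p.1) + (1 - v p.1) * t p.2) / N),
    fun o => o.elim (3 / N) (fun p => (1 - v p.1) / N * w p.2), ?_, ?_, ?_⟩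
  · rintro (_ | ⟨i, j⟩)
    · simp only [Option.elim]; positivity
    · simp only [Option.elim]
      exact mul_nonneg (div_nonneg (by linarith [hv1 i]) hN'.le) (h0 j)
  · rw [Fintype.sum_option, Fintype.sum_prod_type]
    simp only [Option.elim]
    have e1 : ∑ i : Fin N, (1 - v i) / N = 1 - (∑ i ∈ Finset.range N, 1 / ((i : ℝ) + 1)) / N := by
      rw [← Finset.sum_div, Finset.sum_sub_distrib, ← Fin.sum_univ_eq_sum_range
        (fun i : ℕ => 1 / ((i : ℝ) + 1))]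
      simp only [v, Finset.sum_const, Finset.card_univ, Fintype.card_fin, nsmul_eq_mul, mul_one]
      field_simp
    simp_rw [← Finset.mul_sum]
    rw [← Finset.sum_mul, ← e1]
    have : 0 ≤ ∑ i : Fin N, (1 - v i) / N :=
      Finset.sum_nonneg fun i _ => div_nonneg (by linarith [hv1 i]) hN'.le
    gcongr
  · intro a ha y hy
    have e := hidx a ha
    have h4 := ha' a
    set i := idx a
    set x := a' a
    by_cases hyv : y ≤ v i
    · refine ⟨none, ?_⟩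
      simp only [Option.elim, zero_mul, sub_zero]
      have h5 := hbd a
      have h6 : a * y ≤ 1 / N := by
        have h7 : a ≤ (i + 1) / N := by rw [e]; gcongr; exact h4.2
        have h8 : ((i : ℝ) + 1) / N * v i = 1 / N := by simp only [v]; field_simp
        rw [← h8]; exact mul_le_mul h7 hyv hy.1 (by positivity)
      have h7 : 0 ≤ a * y := mul_nonneg ha.1 hy.1
      refine (abs_add_le _ _).trans ?_
      rw [abs_of_nonneg h7]
      have : (3 : ℝ) / N = 1 / N + 2 / N := by ring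
      rw [this]; exact add_le_add h6 h5
    · push Not at hyv
      have hv : 0 < 1 - v i := by linarith [hy.2]
      obtain ⟨j, hj⟩ := h2 x h4 ((y - v i) / (1 - v i))
        ⟨div_nonneg (by linarith) hv.le, (div_le_one hv).2 (by linarith [hy.2])⟩
      refine ⟨some (i, j), ?_⟩
      simp only [Option.elim]
      have e2 : a * y + (-(x * v i) + (1 - v i) * b x) / N - (i + s j) / N * y -
          (-(s j * v i) + (1 - v i) * t j) / N = (1 - v i) / N *
          (x * ((y - v i) / (1 - v i)) + b x - s j * ((y - v i) / (1 - v i)) - t j) := by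
        rw [e]; field_simp; ring
      rw [e2, abs_mul, abs_of_pos (div_pos hv hN')]
      exact mul_le_mul_of_nonneg_left hj (div_pos hv hN').le

lemma H_bd (N : ℕ) : 0 ≤ ∑ i ∈ Finset.range N, 1 / ((i : ℝ) + 1) ∧
    ∑ i ∈ Finset.range N, 1 / ((i : ℝ) + 1) ≤ N := by
  refine ⟨Finset.sum_nonneg fun i _ => by positivity, ?_⟩
  have := Finset.sum_le_card_nsmul (Finset.range N) (fun i : ℕ => 1 / ((i : ℝ) + 1)) 1
    (fun i _ => by rw [div_le_one (by positivity)]; linarith [i.cast_nonneg (α := ℝ)])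
  simpa using this

lemma small (ε : ℝ) (hε : 0 < ε) : ∃ b : ℝ → ℝ, (∀ a, |b a| ≤ 1) ∧ Cov b ε := by
  let A : Set ℝ := {c | ∃ b : ℝ → ℝ, (∀ a, |b a| ≤ 1) ∧ Cov b c}
  have hne : A.Nonempty := by
    refine ⟨1, fun _ => 0, by simp, Unit, inferInstance, fun _ => 0, fun _ => 0, fun _ => 1,
      by simp, by simp, fun a ha y hy => ⟨(), ?_⟩⟩
    simp only [add_zero, zero_mul, sub_zero]
    rw [abs_of_nonneg (mul_nonneg ha.1 hy.1)]
    exact mul_le_one₀ ha.2 hy.1 hy.2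
  have hbdd : BddBelow A := ⟨0, fun c ⟨b, _, hb⟩ => hb.nonneg⟩
  have key : ∀ N : ℕ, 2 ≤ N → sInf A * ∑ i ∈ Finset.range N, 1 / ((i : ℝ) + 1) ≤ 3 := by
    intro N hN
    have hN' : (2 : ℝ) ≤ N := by exact_mod_cast hN
    set H := ∑ i ∈ Finset.range N, 1 / ((i : ℝ) + 1)
    have hH := H_bd N
    have hθ0 : 0 ≤ 1 - H / N := by rw [sub_nonneg, div_le_one (by linarith)]; exact hH.2
    have hθ1 : 1 - H / N ≤ 1 := by have : 0 ≤ H / N := div_nonneg hH.1 (by linarith); linarith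
    have h1 : sInf A ≤ 3 / N + (1 - H / N) * sInf A := by
      refine le_of_forall_pos_le_add fun δ hδ => ?_
      obtain ⟨c, ⟨b, hb, hc⟩, hcδ⟩ := exists_lt_of_csInf_lt hne (lt_add_of_pos_right _ hδ)
      obtain ⟨b', hb', hc'⟩ := step N (by omega) hb hc
      have h2 : sInf A ≤ 3 / N + (1 - H / N) * c :=
        csInf_le hbdd ⟨b', fun a => (hb' a).trans ((div_le_one (by linarith)).2 hN'), hc'⟩
      nlinarith
    have h3 : sInf A * H / N ≤ 3 / N := by rw [mul_div_assoc]; linarith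
    rwa [div_le_div_iff_of_pos_right (by linarith)] at h3
  have h0 : sInf A < ε := by
    by_contra hc
    push Not at hc
    obtain ⟨N, hN1, hN2⟩ := ((Real.tendsto_sum_range_one_div_nat_succ_atTop.eventually
      (eventually_gt_atTop (3 / ε))).and (eventually_ge_atTop 2)).exists
    have := key N hN2
    rw [div_lt_iff₀ hε] at hN1
    nlinarith [(H_bd N).1]
  obtain ⟨c, ⟨b, hb, hc⟩, hcε⟩ := exists_lt_of_csInf_lt hne h0
  exact ⟨b, hb, hc.mono hcε.le⟩

lemma small2 (r ε : ℝ) (hr : 0 < r) (hε : 0 < ε) : ∃ b : ℝ → ℝ, (∀ a, |b a| ≤ r) ∧ Cov b ε := by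
  obtain ⟨b, hb, hc⟩ := small (ε / 2) (by linarith)
  obtain ⟨N, hN⟩ := exists_nat_gt (max (2 / r) (6 / ε))
  have h1 : 2 / r < N := lt_of_le_of_lt (le_max_left _ _) hN
  have h2 : 6 / ε < N := lt_of_le_of_lt (le_max_right _ _) hN
  have hN' : (0 : ℝ) < N := lt_trans (by positivity) h1
  obtain ⟨b', hb', hc'⟩ := step N (by exact_mod_cast hN') hb hc
  refine ⟨b', fun a => (hb' a).trans ?_, hc'.mono ?_⟩
  · rw [div_lt_iff₀ hr] at h1; rw [div_le_iff₀ hN']; linarith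
  · have h3 : (3 : ℝ) / N ≤ ε / 2 := by
      rw [div_lt_iff₀ hε] at h2; rw [div_le_iff₀ hN']; linarith
    have h4 : 0 ≤ (∑ i ∈ Finset.range N, 1 / ((i : ℝ) + 1)) / N := div_nonneg (H_bd N).1 hN'.le
    nlinarith

lemma widen {b : ℝ → ℝ} {c : ℝ} (h : Cov b c) (δ : ℝ) (hδ : 0 < δ) :
    ∃ τ > 0, ∀ b' : ℝ → ℝ, (∀ a, |b' a - b a| ≤ τ) → Cov b' (c + δ) := by
  obtain ⟨ι, hι, s, t, w, h0, h1, h2⟩ := h
  have hp : (0 : ℝ) < Fintype.card ι + 1 := by positivity
  refine ⟨δ / (Fintype.card ι + 1), by positivity, fun b' hb' => ⟨ι, hι, s, t,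
    fun i => w i + δ / (Fintype.card ι + 1), fun i => by have := h0 i; positivity, ?_, ?_⟩⟩
  · rw [Finset.sum_add_distrib, Finset.sum_const, Finset.card_univ, nsmul_eq_mul]
    have : (Fintype.card ι : ℝ) * (δ / (Fintype.card ι + 1)) ≤ δ := by
      rw [mul_div_assoc', div_le_iff₀ hp]; nlinarith
    linarith
  · intro a ha y hy
    obtain ⟨i, hi⟩ := h2 a ha y hy
    refine ⟨i, ?_⟩
    have h3 := abs_le.1 (hb' a)
    have h4 := abs_le.1 hi
    rw [abs_le]; constructor <;> linarith [h3.1, h3.2, h4.1, h4.2]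

lemma approx (b₀ : ℝ → ℝ) (M : ℝ) (hM : ∀ a, |b₀ a| ≤ M) (r ε : ℝ) (hr : 0 < r) (hε : 0 < ε) :
    ∃ b : ℝ → ℝ, (∀ a, |b a - b₀ a| ≤ 2 * r) ∧ Cov b ε := by
  classical
  let S : Finset ℤ := Finset.Icc ⌊-M / r⌋ ⌊M / r⌋
  have hp : (0 : ℝ) < S.card + 1 := by positivity
  obtain ⟨β, hβ, ι, hι, s, t, w, h0, h1, h2⟩ := small2 r (ε / (S.card + 1)) hr (by positivity)
  refine ⟨fun a => r * ⌊b₀ a / r⌋ + β a, fun a => ?_, S × ι, inferInstance, fun p => s p.2,
    fun p => t p.2 + r * (p.1 : ℤ), fun p => w p.2, fun p => h0 _, ?_, ?_⟩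
  · have h3 := abs_le.1 (hβ a)
    have h4 := Int.floor_le (b₀ a / r)
    have h5 := Int.lt_floor_add_one (b₀ a / r)
    rw [le_div_iff₀ hr] at h4
    rw [div_lt_iff₀ hr] at h5
    rw [abs_le]; constructor <;> linarith [h3.1, h3.2]
  · rw [Fintype.sum_prod_type]
    simp only [Finset.sum_const, Finset.card_univ, Fintype.card_coe, nsmul_eq_mul]
    have : (S.card : ℝ) * (ε / (S.card + 1)) ≤ ε := by
      rw [mul_div_assoc', div_le_iff₀ hp]; nlinarith
    exact (mul_le_mul_of_nonneg_left h1 (by positivity)).trans this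
  · intro a ha y hy
    obtain ⟨i, hi⟩ := h2 a ha y hy
    have h3 := abs_le.1 (hM a)
    refine ⟨(⟨⌊b₀ a / r⌋, Finset.mem_Icc.2 ⟨Int.floor_le_floor ?_, Int.floor_le_floor ?_⟩⟩, i), ?_⟩
    · gcongr; exact h3.1
    · gcongr; exact h3.2
    · convert hi using 2; ring

lemma exists_b : ∃ (b : ℝ → ℝ) (M : ℝ), (∀ a, |b a| ≤ M) ∧ ∀ ε > 0, Cov b ε := by
  let X := lp (fun _ : ℝ => ℝ) ∞
  let G : ℕ → Set X := fun n => interior {b | Cov (fun a => b a) (1 / ((n : ℝ) + 1))}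
  have hG : ∀ n, Dense (G n) := by
    intro n
    rw [Metric.dense_iff]
    intro b₀ r hr
    have hb₀ : ∀ a, |b₀ a| ≤ ‖b₀‖ := fun a => lp.norm_apply_le_norm ENNReal.top_ne_zero b₀ a
    have hc : (0 : ℝ) < 1 / ((n : ℝ) + 1) / 2 := by positivity
    obtain ⟨b, hb, hcov⟩ := approx (fun a => b₀ a) _ hb₀ (r / 4) _ (by linarith) hc
    have hmem : Memℓp b ∞ := by
      refine memℓp_infty_iff.2 ⟨‖b₀‖ + 2 * (r / 4), ?_⟩
      rintro _ ⟨a, rfl⟩
      have h1 := abs_le.1 (hb a)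
      have h2 := abs_le.1 (hb₀ a)
      simp only [Real.norm_eq_abs]
      rw [abs_le]; constructor <;> linarith [h1.1, h1.2, h2.1, h2.2]
    let B : X := ⟨b, hmem⟩
    refine ⟨B, ?_, ?_⟩
    · rw [Metric.mem_ball, dist_eq_norm]
      refine lt_of_le_of_lt (lp.norm_le_of_forall_le (C := 2 * (r / 4)) (by linarith) fun a => ?_)
        (by linarith)
      exact hb a
    · obtain ⟨τ, hτ, h⟩ := widen hcov _ hc
      rw [mem_interior_iff_mem_nhds]
      filter_upwards [Metric.ball_mem_nhds B hτ] with b' hb'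
      rw [Metric.mem_ball, dist_eq_norm] at hb'
      refine (h (fun a => b' a) fun a => ?_).mono (by linarith)
      exact (lp.norm_apply_le_norm ENNReal.top_ne_zero (b' - B) a).trans hb'.le
  obtain ⟨b, hb⟩ := (dense_iInter_of_isOpen (fun n => isOpen_interior) hG).nonempty
  refine ⟨fun a => b a, ‖b‖, fun a => lp.norm_apply_le_norm ENNReal.top_ne_zero b a, fun ε hε => ?_⟩
  obtain ⟨n, hn⟩ := exists_nat_one_div_lt hε
  have h1 : b ∈ {b : X | Cov (fun a => b a) (1 / ((n : ℝ) + 1))} :=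
    interior_subset (mem_iInter.1 hb n)
  exact Cov.mono h1 hn.le

end Pool.Agent.H92.TN
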