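import Pool.Agent.H92.TN1

namespace Pool.Agent.H92.TN
open Set Filter Topology MeasureTheory
open scoped ENNReal

abbrev P := EuclideanSpace ℝ (Fin 2)

def Strip (u : P) (c w : ℝ) : Set P := {p | c ≤ inner ℝ u p ∧ inner ℝ u p ≤ c + w}

def PropS (E : Set P) : Prop :=
  ∀ ε : ℝ, 0 < ε → ∃ (ι : Type) (_ : Countable ι) (u : ι → P) (c w : ι → ℝ),
    (∀ i, ‖u i‖ = 1 ∧ 0 < w i) ∧ E ⊆ ⋃ i, Strip (u i) (c i) (w i) ∧
      ∑' i, ENNReal.ofReal (w i) < ENNReal.ofReal ε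

def Besi (E : Set P) : Prop :=
  Bornology.IsBounded E ∧ volume E = 0 ∧ ∀ e : P, ‖e‖ = 1 → ∃ q : P, segment ℝ q (q + e) ⊆ E

lemma inner_eq (u p : P) : inner ℝ u p = u 0 * p 0 + u 1 * p 1 := by
  simp [PiLp.inner_apply, Fin.sum_univ_two, mul_comm]

lemma normsq (u : P) : ‖u‖ ^ 2 = u 0 ^ 2 + u 1 ^ 2 := by
  rw [EuclideanSpace.real_norm_sq_eq, Fin.sum_univ_two]

lemma mp : MeasurePreserving (fun p : P => (p 0, p 1)) volume volume :=
  (volume_preserving_finTwoArrow ℝ).comp (PiLp.volume_preserving_ofLp (Fin 2))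

lemma exists_strip (α β t w τ : ℝ) (h : 1 ≤ α ^ 2 + β ^ 2) (hw : 0 ≤ w) (hτ : 0 ≤ τ) :
    ∃ (u : P) (c : ℝ), ‖u‖ = 1 ∧ ∀ p : P, |α * p 0 + β * p 1 - t| ≤ w → p ∈ Strip u c (2 * w + τ) := by
  set n := Real.sqrt (α ^ 2 + β ^ 2) with hn
  have hn1 : 1 ≤ n := Real.one_le_sqrt.2 h
  have hn2 : n ^ 2 = α ^ 2 + β ^ 2 := Real.sq_sqrt (by linarith)
  refine ⟨!₂[α / n, β / n], t / n - w, ?_, fun p hp => ?_⟩
  · have : ‖(!₂[α / n, β / n] : P)‖ ^ 2 = 1 := by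
      rw [normsq]; simp only [Matrix.cons_val_zero, Matrix.cons_val_one]
      field_simp; linarith
    nlinarith [norm_nonneg (!₂[α / n, β / n] : P)]
  · have e : inner ℝ (!₂[α / n, β / n] : P) p = t / n + (α * p 0 + β * p 1 - t) / n := by
      rw [inner_eq]; simp only [Matrix.cons_val_zero, Matrix.cons_val_one]; field_simp; ring
    have h1 : |(α * p 0 + β * p 1 - t) / n| ≤ w := by
      rw [abs_div, abs_of_pos (by linarith : 0 < n)]
      exact (div_le_self (abs_nonneg _) hn1).trans hp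
    have h2 := abs_le.1 h1
    refine ⟨?_, ?_⟩ <;> rw [e] <;> linarith [h2.1, h2.2]

def sg (k : Bool) : ℝ := if k then 1 else -1

lemma sg_sq (k : Bool) : sg k ^ 2 = 1 := by cases k <;> simp [sg]

def EE (b : ℝ → ℝ) : Set P := {p | ∃ a ∈ Icc (0 : ℝ) 1, ∃ k : Bool,
  (p 1 ∈ Icc (0 : ℝ) 1 ∧ sg k * p 0 = a * p 1 + b a) ∨
    (p 0 ∈ Icc (0 : ℝ) 1 ∧ sg k * p 1 = a * p 0 + b a)}

lemma EE_bdd {b : ℝ → ℝ} {M : ℝ} (hM : ∀ a, |b a| ≤ M) : Bornology.IsBounded (EE b) := by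
  have hM0 : 0 ≤ M := (abs_nonneg _).trans (hM 0)
  have key : ∀ (k : Bool) (a x y : ℝ), a ∈ Icc (0 : ℝ) 1 → y ∈ Icc (0 : ℝ) 1 →
      sg k * x = a * y + b a → x ^ 2 + y ^ 2 ≤ (M + 2) ^ 2 := by
    intro k a x y ha hy h
    have h1 : x ^ 2 = (a * y + b a) ^ 2 := by rw [← h, mul_pow, sg_sq, one_mul]
    have h2 := abs_le.1 (hM a)
    have h3 : 0 ≤ a * y := mul_nonneg ha.1 hy.1
    have h4 : a * y ≤ 1 := mul_le_one₀ ha.2 hy.1 hy.2
    have h5 : (a * y + b a) ^ 2 ≤ (M + 1) ^ 2 := sq_le_sq' (by linarith [h2.1]) (by linarith [h2.2])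
    nlinarith [hy.1, hy.2]
  rw [isBounded_iff_forall_norm_le]
  refine ⟨M + 2, ?_⟩
  rintro p ⟨a, ha, k, h | h⟩
  · exact le_of_sq_le_sq (by rw [normsq]; exact key k a _ _ ha h.1 h.2) (by linarith)
  · exact le_of_sq_le_sq (by rw [normsq, add_comm]; exact key k a _ _ ha h.1 h.2) (by linarith)

lemma seg_aux (b : ℝ → ℝ) (e0 e1 : ℝ) (h : e0 ^ 2 + e1 ^ 2 = 1) (h1 : |e0| ≤ |e1|) :
    ∃ q0 q1 : ℝ, ∃ a ∈ Icc (0 : ℝ) 1, ∃ k : Bool, ∀ t ∈ Icc (0 : ℝ) 1,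
      q1 + t * e1 ∈ Icc (0 : ℝ) 1 ∧ sg k * (q0 + t * e0) = a * (q1 + t * e1) + b a := by
  have he1 : e1 ≠ 0 := by
    rintro rfl
    have : e0 = 0 := by simpa using h1
    subst this; norm_num at h
  have hp : 0 < |e1| := abs_pos.2 he1
  have hle : |e1| ≤ 1 := by rw [← sq_le_one_iff_abs_le_one]; nlinarith [sq_nonneg e0]
  obtain ⟨k, hk⟩ : ∃ k : Bool, sg k * (e0 / e1) = |e0 / e1| := by
    rcases le_total 0 (e0 / e1) with h2 | h2
    · exact ⟨true, by simp [sg, abs_of_nonneg h2]⟩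
    · exact ⟨false, by simp [sg, abs_of_nonpos h2]⟩
  obtain ⟨y, hy⟩ : ∃ y : ℝ, ∀ t ∈ Icc (0 : ℝ) 1, y + t * e1 ∈ Icc (0 : ℝ) 1 := by
    have h3 := abs_le.1 hle
    rcases le_total 0 e1 with h2 | h2
    · exact ⟨0, fun t ht => ⟨by nlinarith [ht.1], by nlinarith [ht.1, ht.2]⟩⟩
    · exact ⟨1, fun t ht => ⟨by nlinarith [ht.1, ht.2], by nlinarith [ht.1]⟩⟩
  refine ⟨sg k * (|e0 / e1| * y + b |e0 / e1|), y, |e0 / e1|, ⟨abs_nonneg _, ?_⟩, k,
    fun t ht => ⟨hy t ht, ?_⟩⟩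
  · rw [abs_div, div_le_one hp]; exact h1
  · have h2 : sg k * e0 = |e0 / e1| * e1 := by rw [← hk]; field_simp
    have h3 := sg_sq k
    linear_combination (|e0 / e1| * y + b |e0 / e1|) * h3 + t * h2

lemma EE_seg (b : ℝ → ℝ) (e : P) (he : ‖e‖ = 1) : ∃ q : P, segment ℝ q (q + e) ⊆ EE b := by
  have h : e 0 ^ 2 + e 1 ^ 2 = 1 := by rw [← normsq, he]; norm_num
  rcases le_total |e 0| |e 1| with h1 | h1
  · obtain ⟨q0, q1, a, ha, k, hq⟩ := seg_aux b _ _ h h1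
    refine ⟨!₂[q0, q1], ?_⟩
    rw [segment_eq_image']
    rintro _ ⟨t, ht, rfl⟩
    exact ⟨a, ha, k, Or.inl (by simpa using hq t ht)⟩
  · obtain ⟨q0, q1, a, ha, k, hq⟩ := seg_aux b _ _ (by rw [add_comm]; exact h) h1
    refine ⟨!₂[q1, q0], ?_⟩
    rw [segment_eq_image']
    rintro _ ⟨t, ht, rfl⟩
    exact ⟨a, ha, k, Or.inr (by simpa using hq t ht)⟩

lemma EE_propS {b : ℝ → ℝ} (hb : ∀ ε > 0, Cov b ε) : PropS (EE b) := by
  intro ε hε
  obtain ⟨ι, hι, s, t, w, h0, h1, h2⟩ := hb (ε / 20) (by linarith)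
  have hp : (0 : ℝ) < Fintype.card ι + 1 := by positivity
  set τ := ε / 20 / (Fintype.card ι + 1) with hτ
  have hτ0 : 0 < τ := by positivity
  have hex : ∀ j : Bool × Bool × ι, ∃ (u : P) (c : ℝ), ‖u‖ = 1 ∧ ∀ p : P,
      |(if j.1 then sg j.2.1 else -s j.2.2) * p 0 + (if j.1 then -s j.2.2 else sg j.2.1) * p 1 -
        t j.2.2| ≤ w j.2.2 → p ∈ Strip u c (2 * w j.2.2 + τ) := by
    rintro ⟨l, k, i⟩
    refine exists_strip _ _ _ _ _ ?_ (h0 i) hτ0.le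
    cases l <;> simp [sg_sq, sq_nonneg]
  choose u c hu hc using hex
  refine ⟨Bool × Bool × ι, inferInstance, u, c, fun j => 2 * w j.2.2 + τ,
    fun j => ⟨hu j, by have := h0 j.2.2; positivity⟩, ?_, ?_⟩
  · rintro p ⟨a, ha, k, h | h⟩
    · obtain ⟨i, hi⟩ := h2 a ha _ h.1
      refine mem_iUnion.2 ⟨(true, k, i), hc _ p ?_⟩
      simp only [if_true]; rw [h.2]; convert hi using 2; ring
    · obtain ⟨i, hi⟩ := h2 a ha _ h.1
      refine mem_iUnion.2 ⟨(false, k, i), hc _ p ?_⟩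
      simp only [Bool.false_eq_true, if_false]; rw [h.2]; convert hi using 2; ring
  · rw [tsum_fintype, ← ENNReal.ofReal_sum_of_nonneg (fun j _ => by have := h0 j.2.2; positivity),
      ENNReal.ofReal_lt_ofReal_iff hε]
    simp only [Fintype.sum_prod_type, Finset.sum_const, Finset.card_univ, Fintype.card_bool,
      Finset.sum_add_distrib, nsmul_eq_mul, ← Finset.mul_sum]
    have : (Fintype.card ι : ℝ) * τ ≤ ε / 20 := by
      rw [hτ, mul_div_assoc', div_le_iff₀ hp]; nlinarith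
    simp only [Fintype.card_prod, Fintype.card_bool]
    push_cast; linarith

lemma meas_slab (k : Bool) (s t w : ℝ) :
    MeasurableSet {q : ℝ × ℝ | q.1 ∈ Icc (0 : ℝ) 1 ∧ |sg k * q.2 - s * q.1 - t| ≤ w} := by
  have h : MeasurableSet {q : ℝ × ℝ | |sg k * q.2 - s * q.1 - t| ≤ w} :=
    measurableSet_le (by fun_prop) (by fun_prop)
  exact (measurableSet_Icc.preimage measurable_fst).inter h

lemma vol_slab (k : Bool) (s t w : ℝ) :
    volume {q : ℝ × ℝ | q.1 ∈ Icc (0 : ℝ) 1 ∧ |sg k * q.2 - s * q.1 - t| ≤ w} ≤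
      ENNReal.ofReal (2 * w) := by
  have hm := meas_slab k s t w
  rw [Measure.volume_eq_prod, Measure.prod_apply hm]
  refine (lintegral_mono (g := (Icc (0 : ℝ) 1).indicator fun _ => ENNReal.ofReal (2 * w))
    fun y => ?_).trans (by simp)
  by_cases hy : y ∈ Icc (0 : ℝ) 1
  · rw [indicator_of_mem hy, ← Real.volume_closedBall (sg k * (s * y + t)) w]
    refine measure_mono fun x hx => ?_
    rw [Metric.mem_closedBall, Real.dist_eq]
    have h1 := hx.2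
    cases k
    · simp only [sg, Bool.false_eq_true, if_false] at h1 ⊢
      rw [← abs_neg]; convert h1 using 2; ring
    · simp only [sg, if_true] at h1 ⊢
      convert h1 using 2; ring
  · have : (Prod.mk y ⁻¹' {q : ℝ × ℝ | q.1 ∈ Icc (0 : ℝ) 1 ∧ |sg k * q.2 - s * q.1 - t| ≤ w}) = ∅ :=
      eq_empty_of_forall_notMem fun x hx => hy hx.1
    simp only [this, measure_empty, zero_le]

lemma EE_null {b : ℝ → ℝ} (hb : ∀ ε > 0, Cov b ε) : volume (EE b) = 0 := by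
  have key : ∀ ε : ℝ, 0 < ε → volume (EE b) ≤ ENNReal.ofReal ε := by
    intro ε hε
    obtain ⟨ι, hι, s, t, w, h0, h1, h2⟩ := hb (ε / 8) (by linarith)
    let A : Bool × ι → Set (ℝ × ℝ) := fun j =>
      {q | q.1 ∈ Icc (0 : ℝ) 1 ∧ |sg j.1 * q.2 - s j.2 * q.1 - t j.2| ≤ w j.2}
    have hm : ∀ j, MeasurableSet (A j) := fun j => meas_slab _ _ _ _
    have hU : volume (⋃ j, A j) ≤ ENNReal.ofReal (ε / 2) := by
      refine (measure_iUnion_le _).trans ((ENNReal.tsum_le_tsum fun j => vol_slab _ _ _ _).trans ?_)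
      rw [tsum_fintype, ← ENNReal.ofReal_sum_of_nonneg (fun j _ => by have := h0 j.2; positivity)]
      apply ENNReal.ofReal_le_ofReal
      simp only [Fintype.sum_prod_type, Finset.sum_const, Finset.card_univ, Fintype.card_bool,
        nsmul_eq_mul, ← Finset.mul_sum]
      push_cast; linarith
    have hmU : MeasurableSet (⋃ j, A j) := MeasurableSet.iUnion hm
    have mp2 : MeasurePreserving (fun p : P => (p 1, p 0)) volume volume :=
      (Measure.measurePreserving_swap (μ := (volume : Measure ℝ)) (ν := volume)).comp mp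
    have hsub : EE b ⊆ (fun p : P => (p 1, p 0)) ⁻¹' (⋃ j, A j) ∪
        (fun p : P => (p 0, p 1)) ⁻¹' (⋃ j, A j) := by
      rintro p ⟨a, ha, k, h | h⟩
      · obtain ⟨i, hi⟩ := h2 a ha _ h.1
        exact Or.inl (mem_iUnion.2 ⟨(k, i), h.1, by simp only [h.2]; exact hi⟩)
      · obtain ⟨i, hi⟩ := h2 a ha _ h.1
        exact Or.inr (mem_iUnion.2 ⟨(k, i), h.1, by simp only [h.2]; exact hi⟩)
    refine (measure_mono hsub).trans ((measure_union_le _ _).trans ?_)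
    rw [mp.measure_preimage hmU.nullMeasurableSet, mp2.measure_preimage hmU.nullMeasurableSet]
    refine (add_le_add hU hU).trans (le_of_eq ?_)
    rw [← ENNReal.ofReal_add (by linarith) (by linarith)]; congr 1; ring
  refine le_antisymm (ENNReal.le_of_forall_pos_le_add fun ε hε _ => ?_) zero_le
  simpa using key ε hε

theorem exists_besi : ∃ E : Set P, Besi E ∧ PropS E := by
  obtain ⟨b, M, hM, hb⟩ := exists_b
  exact ⟨EE b, ⟨EE_bdd hM, EE_null hb, EE_seg b⟩, EE_propS hb⟩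

end Pool.Agent.H92.TN
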