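import Mathlib

open MeasureTheory Filter Topology Set Cardinal

namespace Pool.Agent.H92.Trif

/-- positions: a length m and a colouring of the binary words of length m -/
abbrev Pos : Type := Σ m : ℕ, ((Fin m → Bool) → Fin 27)

open Classical in
noncomputable def fs (D : Set Pos) (m : ℕ) : Finset ((Fin m → Bool) → Fin 27) :=
  Finset.univ.filter fun f => (⟨m, f⟩ : Pos) ∈ D

theorem mem_fs {D : Set Pos} {m : ℕ} {f : (Fin m → Bool) → Fin 27} :
    f ∈ fs D m ↔ (⟨m, f⟩ : Pos) ∈ D := by simp [fs]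

/-- relative size of D among the positions of length m -/
noncomputable def dens (D : Set Pos) (m : ℕ) : ℝ := ((fs D m).card : ℝ) / 27 ^ (2 ^ m)

def Small (D : Set Pos) : Prop := Tendsto (dens D) atTop (𝓝 0)

def res (y : ℕ → Bool) (m : ℕ) : Fin m → Bool := fun i => y i

def dig (y : ℕ → Bool) (π : Pos) : Fin 27 := π.2 (res y π.1)

theorem dens_nonneg (D : Set Pos) (m : ℕ) : 0 ≤ dens D m := by unfold dens; positivity

theorem Small.mono {D D' : Set Pos} (h : Small D') (s : D ⊆ D') : Small D := by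
  refine squeeze_zero (dens_nonneg D) (fun m => ?_) h
  unfold dens
  gcongr
  exact fun f h => mem_fs.mpr (s (mem_fs.mp h))

theorem not_small_univ : ¬ Small univ := by
  intro h
  have : dens univ = fun _ => 1 := by
    funext m; simp [dens, fs]
  rw [Small, this] at h
  exact one_ne_zero (tendsto_nhds_unique tendsto_const_nhds h)

theorem small_empty : Small ∅ := by
  have : dens ∅ = fun _ => 0 := by
    funext m; simp [dens, fs]
  rw [Small, this]; exact tendsto_const_nhds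

theorem count (m : ℕ) (U : Finset (Fin m → Bool)) (v : Fin 27) :
    ((Finset.univ.filter fun f : (Fin m → Bool) → Fin 27 => ∀ u ∈ U, f u ≠ v).card : ℝ) =
      (26 / 27) ^ U.card * 27 ^ (2 ^ m) := by
  classical
  have : (Finset.univ.filter fun f : (Fin m → Bool) → Fin 27 => ∀ u ∈ U, f u ≠ v) =
      Fintype.piFinset fun u => if u ∈ U then Finset.univ.erase v else Finset.univ := by
    ext f
    simp only [Finset.mem_filter, Finset.mem_univ, true_and, Fintype.mem_piFinset]
    refine forall_congr' fun u => ?_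
    by_cases h : u ∈ U <;> simp [h]
  rw [this, Fintype.card_piFinset, Nat.cast_prod]
  have e : ∀ u : Fin m → Bool, (((if u ∈ U then Finset.univ.erase v else Finset.univ :
      Finset (Fin 27)).card : ℕ) : ℝ) = (if u ∈ U then (26 / 27 : ℝ) else 1) * 27 := by
    intro u; by_cases h : u ∈ U <;> simp [h]
  simp only [e, Finset.prod_mul_distrib, Finset.prod_ite_mem, Finset.univ_inter, Finset.prod_const]
  simp

theorem key {D : Set Pos} (hD : ¬ Small D) (a : Pos → Fin 27) :
    {y | Small (D ∩ {π | dig y π = a π})}.Finite := by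
  classical
  by_contra hi
  refine hD (tendsto_order.2 ⟨fun c hc => .of_forall fun m => hc.trans_le (dens_nonneg _ _),
    fun ε hε => ?_⟩)
  obtain ⟨k, hk⟩ := exists_pow_lt_of_lt_one (show 0 < ε / 2 / 27 by positivity)
    (show (26 / 27 : ℝ) < 1 by norm_num)
  obtain ⟨T, hT, hc⟩ := Set.Infinite.exists_subset_card_eq hi k
  have h1 : Tendsto (fun m => ∑ y ∈ T, dens (D ∩ {π | dig y π = a π}) m) atTop (𝓝 0) := by
    simpa using tendsto_finsetSum T fun y hy => hT hy
  have h2 : ∀ᶠ m in atTop, ∀ y ∈ T, ∀ y' ∈ T, res y m = res y' m → y = y' := by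
    simp only [eventually_all_finset]
    intro y _ y' _
    by_cases e : y = y'
    · exact .of_forall fun _ _ => e
    obtain ⟨i, hi⟩ := Function.ne_iff.mp e
    filter_upwards [eventually_gt_atTop i] with m hm h
    exact (hi (congrFun h ⟨i, hm⟩)).elim
  filter_upwards [h1.eventually (gt_mem_nhds (half_pos hε)), h2] with m a1 a2
  have cU : (T.image fun y => res y m).card = k := by
    rw [Finset.card_image_of_injOn fun y hy y' hy' h => a2 y hy y' hy' h, hc]
  have sub : fs D m ⊆ (T.biUnion fun y => fs (D ∩ {π | dig y π = a π}) m) ∪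
      Finset.univ.biUnion fun v : Fin 27 => Finset.univ.filter
        fun f : (Fin m → Bool) → Fin 27 => ∀ u ∈ T.image fun y => res y m, f u ≠ v := by
    intro f hf
    simp only [Finset.mem_filter, Finset.mem_univ, true_and, Finset.mem_union, Finset.mem_biUnion,
      Finset.mem_image, mem_inter_iff, mem_ofPred_eq, mem_fs] at hf ⊢
    by_cases h : ∃ y ∈ T, dig y ⟨m, f⟩ = a ⟨m, f⟩
    · obtain ⟨y, hy, h⟩ := h
      exact Or.inl ⟨y, hy, hf, h⟩
    · refine Or.inr ⟨a ⟨m, f⟩, ?_⟩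
      rintro u ⟨y, hy, rfl⟩ e
      exact h ⟨y, hy, e⟩
  have c1 := (Finset.card_le_card sub).trans ((Finset.card_union_le _ _).trans
    (add_le_add Finset.card_biUnion_le Finset.card_biUnion_le))
  have c2 := (Nat.cast_le (α := ℝ)).mpr c1
  simp only [Nat.cast_add, Nat.cast_sum, count, cU, Finset.sum_const, Finset.card_univ,
    Fintype.card_fin, nsmul_eq_mul] at c2
  have p : (0 : ℝ) < 27 ^ (2 ^ m) := by positivity
  simp only [dens, ← Finset.sum_div] at a1 ⊢
  rw [div_lt_iff₀ p] at a1 ⊢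
  rw [lt_div_iff₀ (by norm_num)] at hk
  push_cast at c2
  nlinarith [mul_lt_mul_of_pos_right hk p]

/-- the index of a position -/
noncomputable def ix (π : Pos) : ℕ := (exists_injective_nat Pos).choose π

theorem ix_inj : Function.Injective ix := (exists_injective_nat Pos).choose_spec

noncomputable def pt (y : ℕ → Bool) : ℝ := Real.ofDigits (Function.extend ix (dig y) 0)

theorem pt_cont : Continuous pt := by
  refine Real.continuous_ofDigits.comp (continuous_pi fun i => ?_)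
  by_cases h : ∃ π, ix π = i
  · obtain ⟨π, rfl⟩ := h
    simp only [ix_inj.extend_apply]
    exact (continuous_of_discreteTopology (f := π.2)).comp
      (continuous_pi fun j => continuous_apply _)
  · simp only [Function.extend_apply' _ _ _ h]
    exact continuous_const

theorem shift (d : ℕ → Fin 27) (n : ℕ) :
    ∃ k : ℤ, ∃ r ∈ Icc (0 : ℝ) 1, 27 ^ n * Real.ofDigits d = k + ((d n : ℕ) + r) / 27 := by
  refine ⟨∑ i ∈ Finset.range n, (d i : ℕ) * 27 ^ (n - (i + 1)), _,
    ⟨Real.ofDigits_nonneg fun i => d (i + (n + 1)), Real.ofDigits_le_one _⟩, ?_⟩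
  rw [Real.ofDigits_eq_sum_add_ofDigits d (n + 1), Finset.sum_range_succ, mul_add, mul_add,
    Finset.mul_sum]
  push_cast
  rw [add_assoc]
  congr 1
  · refine Finset.sum_congr rfl fun i hi => ?_
    obtain ⟨j, rfl⟩ := Nat.exists_eq_add_of_le (Finset.mem_range.mp hi)
    simp only [Real.ofDigitsTerm, Nat.succ_eq_add_one, Nat.add_sub_cancel_left, Nat.cast_ofNat]
    field_simp
    ring
  · simp only [Real.ofDigitsTerm, Nat.cast_ofNat]
    field_simp
    ring

theorem digit (c : ℝ) :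
    ∃ a : Fin 27, ∃ k : ℤ, ∃ r ∈ Icc (0 : ℝ) 1, c = k + ((a : ℕ) + r) / 27 := by
  have h0 := Int.fract_nonneg c
  have h1 := Int.fract_lt_one c
  have p : 0 ≤ 27 * Int.fract c := by linarith
  refine ⟨⟨⌊27 * Int.fract c⌋₊, (Nat.floor_lt p).mpr (by push_cast; linarith)⟩, ⌊c⌋,
    27 * Int.fract c - ⌊27 * Int.fract c⌋₊, ⟨by linarith [Nat.floor_le p],
      by linarith [Nat.lt_floor_add_one (27 * Int.fract c)]⟩, ?_⟩
  have := Int.floor_add_fract c
  simp only
  linarith

def Nr (w τ : ℝ) : Set Pos := {π | ∃ k : ℤ, |27 ^ ix π * w - τ - k| ≤ 1 / 27}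

theorem key2 {D : Set Pos} (hD : ¬ Small D) (s τ : ℝ) :
    {y | Small (D ∩ Nr (s + pt y) τ)}.Finite := by
  choose a k r hr e using fun π : Pos => digit (τ - 27 ^ ix π * s)
  refine (key hD a).subset fun y hy => Small.mono hy (inter_subset_inter_right _ fun π h => ?_)
  obtain ⟨k', r', hr', e'⟩ := shift (Function.extend ix (dig y) 0) (ix π)
  rw [ix_inj.extend_apply, show dig y π = a π from h] at e'
  refine ⟨k' - k π, ?_⟩
  have e1 := e π
  have := hr π
  rw [mul_add, pt, e', abs_le]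
  push_cast
  constructor <;> linarith [this.1, this.2, hr'.1, hr'.2]

theorem big {Z : Set ℝ} (hZ : volume Z = 0) : ∃ s : ℝ, 𝔠 ≤ #{y | s + pt y ∉ Z} := by
  obtain ⟨Z', sub, m, h0⟩ := exists_measurable_superset_of_null hZ
  let g := PolishSpace.measurableEquivNatBoolOfNotCountable (α := ℝ) not_countable
  have mg : Measurable fun y => pt (g y) := pt_cont.measurable.comp g.measurable
  have h1 : ∀ᵐ y : ℝ, ∀ᵐ s : ℝ, s + pt (g y) ∉ Z' := .of_forall fun y => by
    have := measure_preimage_add_right volume (pt (g y)) Z'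
    rw [h0] at this
    exact measure_eq_zero_iff_ae_notMem.mp this
  obtain ⟨s, hs⟩ := ((Measure.ae_ae_comm (p := fun s y : ℝ => s + pt (g y) ∉ Z')
    ((measurable_fst.add (mg.comp measurable_snd)) m).compl).mpr h1).exists
  refine ⟨s, ?_⟩
  have mA : MeasurableSet {y : ℝ | s + pt (g y) ∉ Z'} := ((measurable_const.add mg) m).compl
  have nc : ¬ Countable {y : ℝ | s + pt (g y) ∉ Z'} := fun h => by
    have := (Set.countable_coe_iff.mp h).measure_zero volume
    have h2 := measure_union_null this (ae_iff.mp hs)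
    rw [show ({y : ℝ | s + pt (g y) ∉ Z'} ∪ {y | ¬ s + pt (g y) ∉ Z'}) = Set.univ from
      union_compl_self _] at h2
    simp at h2
  have := mA.standardBorel
  have e := Cardinal.mk_congr (PolishSpace.measurableEquivNatBoolOfNotCountable nc).toEquiv
  have : #{y : ℝ | s + pt (g y) ∉ Z'} ≤ #{y | s + pt y ∉ Z} :=
    mk_le_of_injective (f := fun y => ⟨g y.1, fun h => y.2 (sub h)⟩)
      fun y y' h => Subtype.ext (g.injective (congrArg Subtype.val h))
  rw [e] at this
  simpa using this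

def Inv (S : Set ℝ) (z : ℝ) : Prop := ∀ x1 ∈ S, ¬ Small (Nr (z - x1) (1 / 4)) ∧ ∀ x2 ∈ S,
  (¬ Small (Nr (x2 - x1) (1 / 4)) → ¬ Small (Nr (x2 - x1) (1 / 4) ∩ Nr (z - x1) (1 / 2))) ∧
  ∀ x3 ∈ S, ¬ Small (Nr (x2 - x1) (1 / 4) ∩ Nr (x3 - x1) (1 / 2)) →
    ¬ Small (Nr (x2 - x1) (1 / 4) ∩ Nr (x3 - x1) (1 / 2) ∩ Nr (z - x1) (3 / 4))

theorem step (S Z : Set ℝ) (hS : #S < 𝔠) (hZ : volume Z = 0) : ∃ z, z ∉ Z ∧ Inv S z := by
  obtain ⟨s, hs⟩ := big hZ
  let B : Set Pos → ℝ → ℝ → Set (ℕ → Bool) := fun D x τ =>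
    {y | ¬ Small D ∧ Small (D ∩ Nr (s - x + pt y) τ)}
  have hB : ∀ D x τ, (B D x τ).Finite := fun D x τ => by
    by_cases h : Small D
    · exact finite_empty.subset fun y hy => hy.1 h
    · exact (key2 h _ _).subset fun y hy => hy.2
  let A : S × S × S → Set (ℕ → Bool) := fun p => B univ p.1 (1 / 4) ∪
    B (Nr (p.2.1 - p.1) (1 / 4)) p.1 (1 / 2) ∪
    B (Nr (p.2.1 - p.1) (1 / 4) ∩ Nr (p.2.2 - p.1) (1 / 2)) p.1 (3 / 4)
  have hA : #(⋃ p, A p) < 𝔠 := by
    refine (mk_iUnion_le_sum_mk.trans (sum_le_sum _ (fun _ => ℵ₀) fun p =>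
      (((hB _ _ _).union (hB _ _ _)).union (hB _ _ _)).countable.le_aleph0)).trans_lt ?_
    rw [sum_const']
    simp only [mk_prod, lift_id]
    exact mul_lt_of_lt aleph0_le_continuum (mul_lt_of_lt aleph0_le_continuum hS
      (mul_lt_of_lt aleph0_le_continuum hS hS)) aleph0_lt_continuum
  obtain ⟨y, hy, hy'⟩ : ∃ y, s + pt y ∉ Z ∧ y ∉ ⋃ p, A p := by
    by_contra h
    push Not at h
    exact (hs.trans (mk_le_mk_of_subset h)).not_gt hA
  simp only [mem_iUnion, not_exists, A, mem_union, not_or, B, mem_ofPred_eq, not_and] at hy'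
  have e : ∀ x, s + pt y - x = s - x + pt y := fun x => by ring
  refine ⟨_, hy, fun x1 h1 => ⟨?_, fun x2 h2 => ⟨?_, fun x3 h3 => ?_⟩⟩⟩
  · have := (hy' (⟨x1, h1⟩, ⟨x1, h1⟩, ⟨x1, h1⟩)).1.1 not_small_univ
    rwa [univ_inter, ← e] at this
  · rw [e]; exact (hy' (⟨x1, h1⟩, ⟨x2, h2⟩, ⟨x1, h1⟩)).1.2
  · rw [e]; exact (hy' (⟨x1, h1⟩, ⟨x2, h2⟩, ⟨x3, h3⟩)).2

theorem cantor_pow {x : ℝ} (hx : x ∈ cantorSet) (n : ℕ) : ∃ k : ℤ, 3 ^ n * x - k ∈ cantorSet := by
  induction n with
  | zero => exact ⟨0, by simpa using hx⟩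
  | succ n ih =>
    obtain ⟨k, hk⟩ := ih
    rw [cantorSet_eq_union_halves] at hk
    rcases hk with ⟨u, hu, e⟩ | ⟨u, hu, e⟩
    · refine ⟨3 * k, ?_⟩
      convert hu using 1
      simp only at e; push_cast; rw [pow_succ]; linarith
    · refine ⟨3 * k + 2, ?_⟩
      convert hu using 1
      simp only at e; push_cast; rw [pow_succ]; linarith

theorem cantor_gap {x : ℝ} (hx : x ∈ cantorSet) (n : ℕ) (k : ℤ) (h1 : 1 / 3 < 27 ^ n * x - k)
    (h2 : 27 ^ n * x - k < 2 / 3) : False := by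
  obtain ⟨j, hj⟩ := cantor_pow hx (3 * n)
  rw [pow_mul, show (3 : ℝ) ^ 3 = 27 by norm_num] at hj
  have b := cantorSet_subset_unitInterval hj
  have e : j = k := by
    have a1 : ((k - 1 : ℤ) : ℝ) < j := by push_cast; linarith [b.2]
    have a2 : (j : ℝ) < (k + 1 : ℤ) := by push_cast; linarith [b.1]
    have := Int.cast_lt.mp a1
    have := Int.cast_lt.mp a2
    omega
  subst e
  rw [cantorSet_eq_union_halves] at hj
  rcases hj with ⟨u, hu, e⟩ | ⟨u, hu, e⟩
  · have := cantorSet_subset_unitInterval hu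
    simp only at e; linarith [this.2]
  · have := cantorSet_subset_unitInterval hu
    simp only at e; linarith [this.1]

theorem four {x1 x2 x3 x4 t : ℝ} (h1 : x1 + t ∈ cantorSet) (h2 : x2 + t ∈ cantorSet)
    (h3 : x3 + t ∈ cantorSet) (h4 : x4 + t ∈ cantorSet) :
    Nr (x2 - x1) (1 / 4) ∩ Nr (x3 - x1) (1 / 2) ∩ Nr (x4 - x1) (3 / 4) = ∅ := by
  refine eq_empty_of_forall_notMem ?_
  rintro π ⟨⟨⟨k2, a2⟩, k3, a3⟩, k4, a4⟩
  rw [abs_le] at a2 a3 a4
  set n := ix π
  set u := (27 : ℝ) ^ n * (x1 + t) with hu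
  have f0 := Int.floor_le (u + 1 / 8)
  have f1 := Int.lt_floor_add_one (u + 1 / 8)
  set j := ⌊u + 1 / 8⌋
  rcases lt_or_ge (u + 1 / 8 - j) (1 / 4) with c | c
  · exact cantor_gap h3 n (j + k3) (by push_cast; linarith) (by push_cast; linarith)
  rcases lt_or_ge (u + 1 / 8 - j) (1 / 2) with c' | c'
  · exact cantor_gap h2 n (j + k2) (by push_cast; linarith) (by push_cast; linarith)
  rcases lt_or_ge (u + 1 / 8 - j) (3 / 4) with c'' | c''
  · exact cantor_gap h1 n j (by linarith) (by linarith)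
  · exact cantor_gap h4 n (j + k4 + 1) (by push_cast; linarith) (by push_cast; linarith)

theorem main : ∃ X : Set ℝ, 0 < volume X ∧
    ∀ t : ℝ, (((fun x => x + t) '' X) ∩ cantorSet).encard ≤ 3 := by
  let I := (𝔠 : Cardinal.{0}).ord.ToType
  let N := {Z : Set ℝ // MeasurableSet Z ∧ volume Z = 0}
  have hN : #N ≤ #I := by
    rw [mk_ord_toType]
    have := MeasurableSpace.cardinal_measurableSet_le_continuum
      ((MeasurableSpace.countable_countableGeneratingSet (α := ℝ)).le_aleph0.trans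
        aleph0_le_continuum)
    rw [MeasurableSpace.generateFrom_countableGeneratingSet] at this
    exact (mk_le_mk_of_subset (s := {Z : Set ℝ | MeasurableSet Z ∧ volume Z = 0})
      fun Z h => h.1).trans this
  have : Nonempty N := ⟨⟨∅, .empty, measure_empty⟩⟩
  obtain ⟨e⟩ := hN
  obtain ⟨Z, hZ⟩ : ∃ Z : I → N, Function.Surjective Z :=
    ⟨_, Function.invFun_surjective e.injective⟩
  choose! F hF using step
  let x : I → ℝ := wellFounded_lt.fix fun i r => F (range fun j : Iio i => r j.1 j.2) (Z i).1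
  have hx : ∀ i, x i ∉ (Z i).1 ∧ Inv (range fun j : Iio i => x j) (x i) := fun i => by
    have : x i = F (range fun j : Iio i => x j) (Z i).1 := wellFounded_lt.fix_eq _ i
    rw [this]
    refine hF _ _ (mk_range_le.trans_lt ?_) (Z i).2.2
    simpa [I] using mk_Iio_lt i
  refine ⟨range x, pos_iff_ne_zero.mpr fun h => ?_, fun t => ?_⟩
  · obtain ⟨Z', sub, m, h0⟩ := exists_measurable_superset_of_null h
    obtain ⟨i, hi⟩ := hZ ⟨Z', m, h0⟩
    have := (hx i).1
    rw [hi] at this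
    exact this (sub ⟨i, rfl⟩)
  have sub : ((fun x => x + t) '' range x) ∩ cantorSet ⊆
      (fun i => x i + t) '' {i | x i + t ∈ cantorSet} := by
    rintro _ ⟨⟨_, ⟨i, rfl⟩, rfl⟩, h⟩
    exact ⟨i, h, rfl⟩
  refine (encard_le_encard sub).trans ((encard_image_le _ _).trans ?_)
  by_contra hc
  have h4 : ((4 : ℕ) : ℕ∞) ≤ {i | x i + t ∈ cantorSet}.encard :=
    Order.add_one_le_of_lt (not_le.mp hc)
  obtain ⟨T, hT, cT⟩ := exists_subset_encard_eq h4
  have fT : T.Finite := finite_of_encard_eq_coe cT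
  have c4 : fT.toFinset.card = 4 := by
    have := fT.encard_eq_coe_toFinset_card
    rw [cT] at this
    exact_mod_cast this.symm
  let o := fT.toFinset.orderEmbOfFin c4
  have mo : ∀ j, x (o j) + t ∈ cantorSet := fun j =>
    hT (fT.mem_toFinset.mp (Finset.orderEmbOfFin_mem _ c4 j))
  have r : ∀ a b : Fin 4, a < b → x (o a) ∈ range fun j : Iio (o b) => x j :=
    fun a b h => ⟨⟨o a, o.strictMono h⟩, rfl⟩
  have a2 := ((hx (o 1)).2 _ (r 0 1 (by decide))).1
  have a3 := (((hx (o 2)).2 _ (r 0 2 (by decide))).2 _ (r 1 2 (by decide))).1 a2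
  have a4 := (((hx (o 3)).2 _ (r 0 3 (by decide))).2 _ (r 1 3 (by decide))).2 _
    (r 2 3 (by decide)) a3
  rw [four (mo 0) (mo 1) (mo 2) (mo 3)] at a4
  exact a4 small_empty

end Pool.Agent.H92.Trif
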