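import Mathlib

namespace Pool.Agent.H92.WC

open Set Filter Topology Metric Submodule

variable {X : Type*} [NormedAddCommGroup X] [NormedSpace ℝ X]

/-- a dictionary: norm-one elements with dense linear span -/
def IsDict (D : Set X) : Prop := (∀ g ∈ D, ‖g‖ = 1) ∧ Dense (span ℝ D : Set X)

/-- `F` is a norming functional of `h` -/
def Norming (h : X) (F : StrongDual ℝ X) : Prop := ‖F‖ = 1 ∧ F h = ‖h‖

/-- a realization of WCGA(t): `G m` is the approximant after `m` steps, `F m` the chosen norming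
functional of the residual `f - G m`, `φ m` the dictionary element chosen at step `m + 1`;
once the residual vanishes the run has stopped and `G` stays constant -/
def Run (t : ℝ) (D : Set X) (f : X) (F : ℕ → StrongDual ℝ X) (φ G : ℕ → X) : Prop :=
  G 0 = 0 ∧ ∀ m, (f - G m = 0 → G (m + 1) = G m) ∧
    (f - G m ≠ 0 → Norming (f - G m) (F m) ∧ φ m ∈ D ∧ (∀ g ∈ D, t * |F m g| ≤ |F m (φ m)|) ∧
      G (m + 1) ∈ span ℝ (φ '' Iic m) ∧ ∀ p ∈ span ℝ (φ '' Iic m), ‖f - G (m + 1)‖ ≤ ‖f - p‖)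

/-- WCGA(t) converges for every dictionary, every element and every realization -/
def Conv (X : Type*) [NormedAddCommGroup X] [NormedSpace ℝ X] (t : ℝ) : Prop :=
  ∀ D : Set X, IsDict D → ∀ f F φ G, Run t D f F φ G → Tendsto (fun m => ‖f - G m‖) atTop (𝓝 0)

/-- smoothness: norming functionals are unique -/
def Smooth (X : Type*) [NormedAddCommGroup X] [NormedSpace ℝ X] : Prop :=
  ∀ h : X, h ≠ 0 → ∀ F G, Norming h F → Norming h G → F = G

/-- sequential weak-star Kadec-Klee property of the dual norm -/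
def DualKK (Y : Type*) [NormedAddCommGroup Y] [NormedSpace ℝ Y] : Prop :=
  ∀ (F : StrongDual ℝ Y) (G : ℕ → StrongDual ℝ Y), ‖F‖ = 1 → (∀ n, ‖G n‖ = 1) →
    (∀ y, Tendsto (fun n => G n y) atTop (𝓝 (F y))) → Tendsto (fun n => ‖G n - F‖) atTop (𝓝 0)

lemma ab {P : StrongDual ℝ X} (h : ‖P‖ ≤ 1) (x : X) : |P x| ≤ ‖x‖ :=
  (P.le_opNorm x).trans (mul_le_of_le_one_left (norm_nonneg _) h)

lemma le1 {P : StrongDual ℝ X} (h : ‖P‖ ≤ 1) (x : X) : P x ≤ ‖x‖ := (le_abs_self _).trans (ab h x)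

lemma hb (Φ : Submodule ℝ X) (z : X) :
    ∃ Q : StrongDual ℝ X, ‖Q‖ ≤ 1 ∧ (∀ p ∈ Φ, Q p = 0) ∧ Q z = infDist z Φ := by
  obtain ⟨g, g1, g2⟩ := exists_dual_vector'' ℝ (Submodule.Quotient.mk z : X ⧸ Φ)
  refine ⟨g.comp Φ.mkQL, ContinuousLinearMap.opNorm_le_bound _ zero_le_one fun x => ?_, fun p hp => ?_, ?_⟩
  · exact (g.le_opNorm _).trans (mul_le_mul g1 (Submodule.Quotient.norm_mk_le Φ x) (norm_nonneg _) zero_le_one)
  · show g (Submodule.Quotient.mk p) = 0
    rw [(Submodule.Quotient.mk_eq_zero Φ).2 hp, map_zero]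
  · exact g2.trans (QuotientAddGroup.norm_mk (S := Φ.toAddSubgroup) z)

lemma le_inf {Φ : Submodule ℝ X} {Q : StrongDual ℝ X} (h : ‖Q‖ ≤ 1) (h0 : ∀ p ∈ Φ, Q p = 0) (z : X) :
    Q z ≤ infDist z Φ := by
  refine (le_infDist ⟨0, Φ.zero_mem⟩).2 fun p hp => ?_
  have := le1 h (z - p)
  rwa [map_sub, h0 p hp, sub_zero, ← dist_eq_norm] at this

lemma norm_one {Q : StrongDual ℝ X} {z : X} (h : ‖Q‖ ≤ 1) (hz : z ≠ 0) (e : Q z = ‖z‖) : Norming z Q := by
  refine ⟨le_antisymm h ?_, e⟩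
  have := Q.le_opNorm z
  rw [e, norm_norm] at this
  exact one_le_of_le_mul_right₀ (norm_pos_iff.2 hz) this

lemma ann {Φ : Submodule ℝ X} {f g : X} (hg : g ∈ Φ) (hb' : ∀ p ∈ Φ, ‖f - g‖ ≤ ‖f - p‖) (h0 : f - g ≠ 0) :
    ∃ Q, Norming (f - g) Q ∧ ∀ p ∈ Φ, Q p = 0 := by
  obtain ⟨Q, q1, q2, q3⟩ := hb Φ f
  refine ⟨Q, norm_one q1 h0 (le_antisymm (le1 q1 _) ?_), q2⟩
  rw [map_sub, q2 g hg, sub_zero, q3]
  exact (le_infDist ⟨0, Φ.zero_mem⟩).2 fun p hp => by rw [dist_eq_norm]; exact hb' p hp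

lemma tend_span {F : ℕ → StrongDual ℝ X} (hF : ∀ m, ‖F m‖ ≤ 1) (Q : StrongDual ℝ X) {S : Set X}
    (h : ∀ x ∈ S, Tendsto (fun m => F m x) atTop (𝓝 (Q x))) :
    ∀ x ∈ closure (span ℝ S : Set X), Tendsto (fun m => F m x) atTop (𝓝 (Q x)) := by
  have e : Equicontinuous fun m (x : X) => F m x :=
    (LipschitzWith.uniformEquicontinuous (fun m (x : X) => F m x) 1 fun m =>
      (F m).lipschitz.weaken (by exact_mod_cast hF m)).equicontinuous
  refine fun x hx => closure_minimal (fun x hx => ?_) (e.isClosed_setOfPred_tendsto Q.continuous) hx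
  induction hx using span_induction with
  | mem x hx => exact h x hx
  | zero => simp
  | add x y _ _ a b => simpa using a.add b
  | smul c x _ a => simpa using a.const_mul c

theorem suff {t : ℝ} (ht : 0 < t) (hS : Smooth X)
    (hK : ∀ Y : Submodule ℝ X, IsClosed (Y : Set X) → DualKK Y) : Conv X t := by
  intro D hD f F φ G ⟨G0, hR⟩
  by_cases hz : ∃ m, f - G m = 0
  · obtain ⟨m, hm⟩ := hz
    have : ∀ k, f - G (m + k) = 0 := fun k => by
      induction k with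
      | zero => exact hm
      | succ k ih => rw [← add_assoc, (hR _).1 ih, ih]
    refine tendsto_const_nhds.congr' ?_
    filter_upwards [eventually_ge_atTop m] with k hk
    obtain ⟨j, rfl⟩ := Nat.exists_eq_add_of_le hk
    rw [this, norm_zero]
  push Not at hz
  have h := fun m => (hR m).2 (hz m)
  have F1 : ∀ m, ‖F m‖ ≤ 1 := fun m => (h m).1.1.le
  have an : ∀ m, ∀ p ∈ span ℝ (φ '' Iic m), F (m + 1) p = 0 := fun m => by
    obtain ⟨Q, q1, q2⟩ := ann (h m).2.2.2.1 (h m).2.2.2.2 (hz _)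
    rw [hS _ (hz _) _ _ (h (m + 1)).1 q1]; exact q2
  have Ff : ∀ m, F m f = ‖f - G m‖ := fun m => by
    rw [← (h m).1.2, map_sub]
    cases m with
    | zero => simp [G0]
    | succ m => rw [an m _ (h m).2.2.2.1, sub_zero]
  set Φ := span ℝ (range φ)
  have GΦ : ∀ m, G m ∈ Φ := fun m => by
    cases m with
    | zero => rw [G0]; exact Φ.zero_mem
    | succ m => exact span_mono (image_subset_range _ _) (h m).2.2.2.1
  obtain ⟨Q, q1, q2, q3⟩ := hb Φ f
  have ev : ∀ p ∈ Φ, ∀ᶠ m in atTop, p ∈ span ℝ (φ '' Iic m) := fun p hp => by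
    induction hp using span_induction with
    | mem x hx =>
      obtain ⟨j, rfl⟩ := hx
      filter_upwards [eventually_ge_atTop j] with m hm using subset_span ⟨j, hm, rfl⟩
    | zero => exact Eventually.of_forall fun _ => zero_mem _
    | add x y _ _ a b => filter_upwards [a, b] with m a b using add_mem a b
    | smul c x _ a => filter_upwards [a] with m a using smul_mem _ c a
  have lim : Tendsto (fun m => ‖f - G m‖) atTop (𝓝 (infDist f Φ)) := by
    rw [← tendsto_add_atTop_iff_nat 1]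
    refine tendsto_order.2 ⟨fun a ha => Eventually.of_forall fun m => ha.trans_le ?_, fun a ha => ?_⟩
    · rw [← dist_eq_norm]; exact infDist_le_dist_of_mem (GΦ _)
    · obtain ⟨p, hp, hp'⟩ := (infDist_lt_iff ⟨0, Φ.zero_mem⟩).1 ha
      filter_upwards [ev p hp] with m hm
      exact ((h m).2.2.2.2 p hm).trans_lt (by rwa [← dist_eq_norm])
  rcases (infDist_nonneg (x := f) (s := (Φ : Set X))).eq_or_lt with e | e
  · rwa [← e] at lim
  exfalso
  set Y := (span ℝ (insert f (range φ))).topologicalClosure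
  have fY : f ∈ Y := le_topologicalClosure _ (subset_span (mem_insert _ _))
  have ΦY : Φ ≤ Y := (span_mono (subset_insert _ _)).trans (le_topologicalClosure _)
  have rY : ∀ m, f - G m ∈ Y := fun m => sub_mem fY (ΦY (GΦ m))
  have res : ∀ P : StrongDual ℝ X, ‖P‖ ≤ 1 → ‖P.comp Y.subtypeL‖ ≤ 1 := fun P hP =>
    ContinuousLinearMap.opNorm_le_bound _ zero_le_one fun y => by
      rw [one_mul]; exact ab hP y
  have pt := tend_span F1 Q (S := insert f (range φ)) (by
    rintro x (rfl | ⟨j, rfl⟩)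
    · simpa only [Ff, q3] using lim
    · rw [q2 _ (subset_span ⟨j, rfl⟩), ← tendsto_add_atTop_iff_nat 1]
      refine tendsto_const_nhds.congr' ?_
      filter_upwards [eventually_ge_atTop j] with m hm using (an m _ (subset_span ⟨j, hm, rfl⟩)).symm)
  have kk := hK Y (isClosed_topologicalClosure _) (Q.comp Y.subtypeL) (fun m => (F m).comp Y.subtypeL)
    (le_antisymm (res Q q1) (by
      have : infDist f Φ ≤ ‖Q.comp Y.subtypeL‖ * infDist f Φ := by
        refine ge_of_tendsto' (lim.const_mul _) fun m => ?_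
        have := (Q.comp Y.subtypeL).le_opNorm ⟨_, rY m⟩
        refine le_trans ?_ ((le_abs_self _).trans this)
        simp [q2 _ (GΦ m), q3]
      exact one_le_of_le_mul_right₀ e this))
    (fun m => (norm_one (z := ⟨_, rY m⟩) (res _ (F1 m)) (fun e => hz m (congrArg Subtype.val e))
      (h m).1.2).1) fun y => pt y y.2
  have g0 : ∀ g ∈ D, Tendsto (fun m => F m g) atTop (𝓝 ((0 : StrongDual ℝ X) g)) := fun g hg => by
    refine squeeze_zero_norm (fun m => ?_) (by simpa using kk.div_const t)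
    rw [le_div_iff₀' ht]
    refine ((h m).2.2.1 g hg).trans ?_
    have := ((F m).comp Y.subtypeL - Q.comp Y.subtypeL).le_opNorm ⟨φ m, ΦY (subset_span ⟨m, rfl⟩)⟩
    simpa [q2 _ (subset_span ⟨m, rfl⟩), hD.1 _ (h m).2.1] using this
  have := tend_span F1 0 g0 f (hD.2 f)
  simp only [Ff] at this
  exact e.ne' (tendsto_nhds_unique lim this)

lemma nrm {P : StrongDual ℝ X} (hP : ‖P‖ ≤ 1) {e : X} (he : ‖e‖ = 1) (hb : 0 < P e) {x : X}
    (hx : ‖x‖ * (1 + 1 / P e) ≤ 1) : ∃ μ : ℝ, ‖x + μ • e‖ = 1 ∧ |P (x + μ • e)| ≤ P e := by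
  set y := x - (P x / P e) • e with hy
  have y0 : P y = 0 := by simp [hy]; field_simp; ring
  have y1 : ‖y‖ ≤ 1 := by
    refine (norm_sub_le _ _).trans (le_trans ?_ hx)
    rw [norm_smul, he, Real.norm_eq_abs, abs_div, abs_of_pos hb, mul_one, mul_add, mul_one,
      mul_one_div]
    gcongr; exact ab hP x
  have c : Continuous fun μ : ℝ => ‖y + μ • e‖ := by fun_prop
  have : ∃ μ ∈ Icc (-1 : ℝ) 1, ‖y + μ • e‖ = 1 := by
    have h2 : 2 ≤ ‖y + (1 : ℝ) • e‖ + ‖y + (-1 : ℝ) • e‖ := by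
      refine le_trans (le_of_eq ?_) (norm_sub_le _ _)
      rw [show y + (1 : ℝ) • e - (y + (-1 : ℝ) • e) = (2 : ℝ) • e by module, norm_smul, he]; simp
    by_cases h : 1 ≤ ‖y + (1 : ℝ) • e‖
    · obtain ⟨μ, a, b⟩ := intermediate_value_Icc zero_le_one c.continuousOn ⟨by simpa using y1, h⟩
      exact ⟨μ, ⟨by linarith [a.1], a.2⟩, b⟩
    · obtain ⟨μ, a, b⟩ := intermediate_value_Icc' (by norm_num : (-1 : ℝ) ≤ 0) c.continuousOn
        (⟨by simpa using y1, by linarith⟩ : (1 : ℝ) ∈ Icc _ _)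
      exact ⟨μ, ⟨a.1, by linarith [a.2]⟩, b⟩
  obtain ⟨μ, a, b⟩ := this
  have e1 : x + (μ - P x / P e) • e = y + μ • e := by rw [hy]; module
  refine ⟨μ - P x / P e, by rw [e1, b], ?_⟩
  rw [e1, map_add, y0, zero_add, map_smul, smul_eq_mul, abs_mul, abs_of_pos hb]
  exact mul_le_of_le_one_left hb.le (abs_le.2 a)

lemma dense_of {D : Set X} {e : X} (he : e ∈ D) (h : ∀ x : X, ∃ s : ℝ, s ≠ 0 ∧ ∃ μ : ℝ, s • x + μ • e ∈ D) :
    Dense (span ℝ D : Set X) := fun x => subset_closure <| by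
  obtain ⟨s, s0, μ, hm⟩ := h x
  have : x = s⁻¹ • (s • x + μ • e - μ • e) := by rw [add_sub_cancel_right, smul_smul, inv_mul_cancel₀ s0, one_smul]
  rw [this]
  exact smul_mem _ _ (sub_mem (subset_span hm) (smul_mem _ _ (subset_span he)))

lemma small (x : X) {a : ℝ} (ha : 0 < a) : ∃ s : ℝ, s ≠ 0 ∧ ‖s • x‖ ≤ a := by
  refine ⟨a / (‖x‖ + 1), by positivity, ?_⟩
  rw [norm_smul, Real.norm_eq_abs, abs_of_pos (by positivity), div_mul_eq_mul_div, div_le_iff₀ (by positivity)]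
  nlinarith

theorem nec_smooth {t : ℝ} (ht : t ≤ 1) (hC : Conv X t) : Smooth X := by
  intro h h0 F1 F2 n1 n2
  by_contra hne
  have hh : 0 < ‖h‖ := norm_pos_iff.2 h0
  obtain ⟨x, hx⟩ : ∃ x, F1 x ≠ F2 x := by
    by_contra hc; push Not at hc; exact hne (ContinuousLinearMap.ext hc)
  obtain ⟨y, y1, y2⟩ : ∃ y, F1 y = 0 ∧ 0 < F2 y := by
    refine ⟨(F2 x - F1 x) • (x - (F1 x / ‖h‖) • h), ?_, ?_⟩
    · simp [n1.2]; right; field_simp; ring
    · have : F2 x - F1 x / ‖h‖ * ‖h‖ = F2 x - F1 x := by field_simp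
      simp only [map_smul, map_sub, n2.2, smul_eq_mul, this]
      exact mul_self_pos.2 (sub_ne_zero.2 hx.symm)
  have y0 : y ≠ 0 := by rintro rfl; simp at y2
  have yn : 0 < ‖y‖ := norm_pos_iff.2 y0
  set e := ‖y‖⁻¹ • y with he
  have e1 : ‖e‖ = 1 := norm_smul_inv_norm y0
  have e2 : 0 < F2 e := by simp only [he, map_smul, smul_eq_mul]; positivity
  have e3 : F1 e = 0 := by simp [he, y1]
  have eD : e ∈ {g | ‖g‖ = 1 ∧ |F2 g| ≤ |F2 e|} := ⟨e1, le_rfl⟩
  have := hC {g | ‖g‖ = 1 ∧ |F2 g| ≤ |F2 e|} ⟨fun g hg => hg.1, dense_of eD fun x => ?_⟩ h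
    (fun _ => F2) (fun _ => e) (fun _ => 0) ⟨rfl, fun m => ⟨fun _ => rfl, fun _ => ⟨by simpa using n2, eD,
      fun g hg => (mul_le_of_le_one_left (abs_nonneg _) ht).trans hg.2, zero_mem _, fun p hp => ?_⟩⟩⟩
  · simp only [sub_zero, tendsto_const_nhds_iff] at this
    exact hh.ne' this
  · obtain ⟨s, s0, hs⟩ := small x (a := 1 / (1 + 1 / F2 e)) (by positivity)
    obtain ⟨μ, a, b⟩ := nrm n2.1.le e1 e2 (x := s • x) (by rwa [le_div_iff₀ (by positivity)] at hs)
    exact ⟨s, s0, μ, a, b.trans (le_abs_self _)⟩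
  · have : F1 p = 0 := by
      induction hp using span_induction with
      | mem x hx => obtain ⟨j, -, rfl⟩ := hx; exact e3
      | zero => simp
      | add x y _ _ a b => simp [a, b]
      | smul c x _ a => simp [a]
    have h2 := le1 n1.1.le (h - p)
    rw [map_sub, this, sub_zero, n1.2] at h2
    simpa using h2

end Pool.Agent.H92.WC
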