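import Pool.Agent.H92.WC1

namespace Pool.Agent.H92.WC

open Set Filter Topology Metric Submodule

variable {X : Type*} [NormedAddCommGroup X] [NormedSpace ℝ X]

lemma span0 {P : StrongDual ℝ X} {S : Set X} (h : ∀ x ∈ S, P x = 0) : ∀ p ∈ span ℝ S, P p = 0 := by
  intro p hp
  induction hp using span_induction with
  | mem x hx => exact h x hx
  | zero => simp
  | add x y _ _ a b => simp [a, b]
  | smul c x _ a => simp [a]

lemma bad {t : ℝ} (ht : t ≤ 1) (f : X) (ψ G : ℕ → X) (F : ℕ → StrongDual ℝ X) {c C : ℝ} (hc : 0 < c)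
    (G0 : G 0 = 0) (h1 : ∀ m, 1 ≤ ‖f - G m‖) (hN : ∀ m, Norming (f - G m) (F m))
    (h0 : ∀ m, ∀ j < m, F m (ψ j) = 0) (hG : ∀ m, G (m + 1) ∈ span ℝ (ψ '' Iic m))
    (hC : ∀ j, ‖ψ j‖ ≤ C) (hcF : ∀ m, c ≤ F m (ψ m)) (hT : ∀ i j, i < j → |F i (ψ j)| ≤ F i (ψ i)) :
    ¬ Conv X t := by
  intro hCv
  have y0 : ψ 0 ≠ 0 := by intro h; have := hcF 0; rw [h, map_zero] at this; linarith
  have yn : 0 < ‖ψ 0‖ := norm_pos_iff.2 y0
  have C0 : 0 < C := yn.trans_le (hC 0)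
  set e := ‖ψ 0‖⁻¹ • ψ 0 with he
  have e1 : ‖e‖ = 1 := norm_smul_inv_norm y0
  have e2 : 0 < F 0 e := by
    have := hc.trans_le (hcF 0)
    simp only [he, map_smul, smul_eq_mul]; positivity
  have e3 : ∀ i, 0 < i → F i e = 0 := fun i hi => by simp [he, h0 i 0 hi]
  set s := 1 / (C * (1 + 1 / F 0 e)) with hs
  have s0 : 0 < s := by positivity
  have : ∀ j, ∃ μ : ℝ, ‖s • ψ j + μ • e‖ = 1 ∧ |F 0 (s • ψ j + μ • e)| ≤ F 0 e := fun j =>
    nrm (hN 0).1.le e1 e2 (by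
      rw [norm_smul, Real.norm_eq_abs, abs_of_pos s0]
      calc s * ‖ψ j‖ * (1 + 1 / F 0 e) ≤ s * C * (1 + 1 / F 0 e) := by gcongr; exact hC j
        _ = 1 := by rw [hs]; field_simp)
  choose μ m1 m2 using this
  set φ : ℕ → X := fun j => if j = 0 then e else s • ψ j + μ j • e with hφ
  have φ0 : φ 0 = e := by simp [hφ]
  have φ1 : ∀ j, 0 < j → φ j = s • ψ j + μ j • e := fun j hj => by simp [hφ, hj.ne']
  have Fφ : ∀ i j, 0 < i → 0 < j → F i (φ j) = s * F i (ψ j) := fun i j hi hj => by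
    simp [φ1 j hj, e3 i hi]
  set D := {g : X | ‖g‖ = 1 ∧ ∀ i, |F i g| ≤ |F i (φ i)|}
  have φD : ∀ j, φ j ∈ D := fun j => by
    rcases j.eq_zero_or_pos with rfl | hj
    · refine ⟨by rw [φ0, e1], fun i => ?_⟩
      rcases i.eq_zero_or_pos with rfl | hi
      · exact le_rfl
      · rw [φ0, e3 i hi, abs_zero]; exact abs_nonneg _
    · refine ⟨by rw [φ1 j hj, m1], fun i => ?_⟩
      rcases i.eq_zero_or_pos with rfl | hi
      · rw [φ0, φ1 j hj]; exact (m2 j).trans (le_abs_self _)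
      · rw [Fφ i j hi hj, Fφ i i hi hi, abs_mul, abs_mul]
        refine mul_le_mul_of_nonneg_left ?_ (abs_nonneg _)
        rcases lt_trichotomy i j with h | rfl | h
        · exact (hT i j h).trans (le_abs_self _)
        · exact le_rfl
        · rw [h0 i j h, abs_zero]; exact abs_nonneg _
  have := hCv D ⟨fun g hg => hg.1, dense_of (φD 0) fun x => ?_⟩ f F φ G
    ⟨G0, fun m => ⟨fun h => ?_, fun _ => ⟨hN m, φD m,
      fun g hg => (mul_le_of_le_one_left (abs_nonneg _) ht).trans (hg.2 m), ?_, fun p hp => ?_⟩⟩⟩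
  · linarith [ge_of_tendsto' this h1]
  · obtain ⟨r, r0, hr⟩ := small x (a := min (1 / (1 + 1 / F 0 e)) (s * c)) (by positivity)
    obtain ⟨ν, a, b⟩ := nrm (hN 0).1.le e1 e2 (x := r • x)
      (by have := hr.trans (min_le_left _ _); rwa [le_div_iff₀ (by positivity)] at this)
    refine ⟨r, r0, ν, by rw [φ0]; exact a, fun i => ?_⟩
    rw [φ0]
    rcases i.eq_zero_or_pos with rfl | hi
    · rw [φ0]; exact b.trans (le_abs_self _)
    · rw [map_add, map_smul _ ν, e3 i hi, smul_zero, add_zero, Fφ i i hi hi]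
      refine (ab (hN i).1.le _).trans (hr.trans ((min_le_right _ _).trans (le_trans ?_ (le_abs_self _))))
      exact mul_le_mul_of_nonneg_left (hcF i) s0.le
  · have := h1 m; rw [h, norm_zero] at this; linarith
  · refine (span_le.2 ?_ : span ℝ (ψ '' Iic m) ≤ span ℝ (φ '' Iic m)) (hG m)
    rintro _ ⟨j, hj, rfl⟩
    have eφ : e ∈ span ℝ (φ '' Iic m) := subset_span ⟨0, Nat.zero_le m, φ0⟩
    rcases j.eq_zero_or_pos with rfl | hj0
    · have : ψ 0 = ‖ψ 0‖ • e := by rw [he, smul_smul, mul_inv_cancel₀ yn.ne', one_smul]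
      rw [this]; exact smul_mem _ _ eφ
    · have : ψ j = s⁻¹ • (φ j - μ j • e) := by
        rw [φ1 j hj0, add_sub_cancel_right, smul_smul, inv_mul_cancel₀ s0.ne', one_smul]
      rw [this]; exact smul_mem _ _ (sub_mem (subset_span ⟨j, hj, rfl⟩) (smul_mem _ _ eφ))
  · have a : F (m + 1) p = 0 := span0 (by
      rintro _ ⟨j, hj, rfl⟩
      rcases j.eq_zero_or_pos with rfl | hj0
      · rw [φ0, e3 _ m.succ_pos]
      · rw [Fφ _ _ m.succ_pos hj0, h0 _ _ (Nat.lt_succ_of_le hj), mul_zero]) p hp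
    have b : F (m + 1) (G (m + 1)) = 0 := span0 (by
      rintro _ ⟨j, hj, rfl⟩; exact h0 _ _ (Nat.lt_succ_of_le hj)) _ (hG m)
    have h2 := le1 (hN (m + 1)).1.le (f - p)
    rw [← (hN (m + 1)).2, map_sub, b]
    rwa [map_sub, a] at h2

def Base (H : Submodule ℝ X) (f : X) (Φ : Submodule ℝ X) (T : Set (StrongDual ℝ X × ℝ))
    (F : StrongDual ℝ X) : Prop :=
  FiniteDimensional ℝ Φ ∧ Φ ≤ H ∧ T.Finite ∧ ‖F‖ = 1 ∧ (∀ p ∈ Φ, F p = 0) ∧ ∃ g ∈ Φ, ‖f - g‖ = F f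

lemma Base.top {H : Submodule ℝ X} {f : X} {Φ T F} (h : Base H f Φ T F) {Q : StrongDual ℝ X}
    (q1 : ‖Q‖ ≤ 1) (q2 : ∀ p ∈ Φ, Q p = 0) : Q f ≤ F f := by
  obtain ⟨g, hg, e⟩ := h.2.2.2.2.2
  have := le1 q1 (f - g)
  rwa [map_sub, q2 g hg, sub_zero, e] at this

lemma resid {H : Submodule ℝ X} {f : X} (hH : ∀ p ∈ H, 1 ≤ ‖f - p‖) {Φ : Submodule ℝ X}
    (fd : FiniteDimensional ℝ Φ) (hΦ : Φ ≤ H) {T : Set (StrongDual ℝ X × ℝ)} (hT : T.Finite) :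
    ∃ F, Base H f Φ T F := by
  have : ProperSpace Φ := FiniteDimensional.proper ℝ Φ
  have ct : Tendsto (fun p : Φ => ‖f - p‖) (cocompact Φ) atTop := by
    have h1 : Tendsto (fun p : Φ => dist p 0 + -‖f‖) (cocompact Φ) atTop :=
      tendsto_atTop_add_const_right _ _ (tendsto_dist_right_cocompact_atTop 0)
    refine tendsto_atTop_mono (fun p => ?_) h1
    have := norm_sub_norm_le (p : X) f
    rw [norm_sub_rev] at this
    rw [dist_zero_right, ← norm_coe]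
    linarith
  obtain ⟨g, hg⟩ := (by fun_prop : Continuous fun p : Φ => ‖f - p‖).exists_forall_le ct
  obtain ⟨Q, q1, q2⟩ := ann (f := f) g.2 (fun p hp => hg ⟨p, hp⟩) (fun h => by
    have := hH g (hΦ g.2); rw [h, norm_zero] at this; linarith)
  exact ⟨Q, fd, hΦ, hT, q1.1, q2, g, g.2, by rw [← q1.2, map_sub, q2 g g.2, sub_zero]⟩

lemma build {t : ℝ} (ht : t ≤ 1) (H : Submodule ℝ X) (f : X) (hH : ∀ p ∈ H, 1 ≤ ‖f - p‖) {c C : ℝ}
    (hc : 0 < c) (P : Submodule ℝ X → Set (StrongDual ℝ X × ℝ) → StrongDual ℝ X → Prop)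
    (h0 : ∀ F, Base H f ⊥ ∅ F → P ⊥ ∅ F)
    (hs : ∀ Φ T F, Base H f Φ T F → P Φ T F → ∃ ψ ∈ H, ‖ψ‖ ≤ C ∧ c ≤ F ψ ∧ (∀ q ∈ T, |q.1 ψ| ≤ q.2) ∧
      ∀ F', Base H f (Φ ⊔ span ℝ {ψ}) (insert (F, F ψ) T) F' → P (Φ ⊔ span ℝ {ψ}) (insert (F, F ψ) T) F') :
    ¬ Conv X t := by
  let S := {s : Submodule ℝ X × Set (StrongDual ℝ X × ℝ) × StrongDual ℝ X //
    Base H f s.1 s.2.1 s.2.2 ∧ P s.1 s.2.1 s.2.2}
  have step : ∀ s : S, ∃ ψ : X, ∃ s' : S, ‖ψ‖ ≤ C ∧ c ≤ s.1.2.2 ψ ∧ (∀ q ∈ s.1.2.1, |q.1 ψ| ≤ q.2) ∧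
      s'.1.1 = s.1.1 ⊔ span ℝ {ψ} ∧ s'.1.2.1 = insert (s.1.2.2, s.1.2.2 ψ) s.1.2.1 := by
    rintro ⟨⟨Φ, T, F⟩, hB, hP⟩
    obtain ⟨ψ, a1, a2, a3, a4, a5⟩ := hs Φ T F hB hP
    have := hB.1
    obtain ⟨F', hF'⟩ := resid hH (Φ := Φ ⊔ span ℝ {ψ}) inferInstance
      (sup_le hB.2.1 (span_le.2 (singleton_subset_iff.2 a1))) (hB.2.2.1.insert (F, F ψ))
    exact ⟨ψ, ⟨⟨_, _, F'⟩, hF', a5 F' hF'⟩, a2, a3, a4, rfl, rfl⟩
  choose Ψ nx a2 a3 a4 a5 a6 using step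
  obtain ⟨F0, hF0⟩ := resid hH (Φ := ⊥) inferInstance bot_le finite_empty
  let s : ℕ → S := fun m => nx^[m] ⟨⟨⊥, ∅, F0⟩, hF0, h0 F0 hF0⟩
  have sn : ∀ m, s (m + 1) = nx (s m) := fun m => Function.iterate_succ_apply' _ _ _
  have sΦ : ∀ m, (s m).1.1 = span ℝ ((fun j => Ψ (s j)) '' Iio m) := fun m => by
    induction m with
    | zero => simp [s]
    | succ m ih =>
      rw [sn, a5, ih, ← span_union, ← image_singleton (f := fun j => Ψ (s j)), ← image_union]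
      congr 2; ext j; simp
  have sT : ∀ i j, i < j → ((s i).1.2.2, (s i).1.2.2 (Ψ (s i))) ∈ (s j).1.2.1 := fun i j hij => by
    induction j with
    | zero => omega
    | succ j ih =>
      rw [sn, a6]
      rcases (Nat.lt_succ_iff.1 hij).eq_or_lt with rfl | h
      · exact mem_insert _ _
      · exact mem_insert_of_mem _ (ih h)
  choose g g1 g2 using fun m => (s m).2.1.2.2.2.2.2
  refine bad ht f (fun j => Ψ (s j)) g (fun m => (s m).1.2.2) hc ?_ (fun m => hH _ ((s m).2.1.2.1 (g1 m)))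
    (fun m => ⟨(s m).2.1.2.2.2.1, by rw [map_sub, (s m).2.1.2.2.2.2.1 _ (g1 m), sub_zero, g2]⟩)
    (fun m j hj => (s m).2.1.2.2.2.2.1 _ (by rw [sΦ]; exact subset_span ⟨j, hj, rfl⟩))
    (fun m => ?_) (fun j => a2 _) (fun j => a3 _) fun i j hij => a4 _ _ (sT i j hij)
  · simpa [s] using g1 0
  · have := g1 (m + 1)
    rwa [sΦ, Iio_add_one_eq_Iic] at this

lemma ann_sup {Φ : Submodule ℝ X} {P : StrongDual ℝ X} {ψ : X} (h : ∀ p ∈ Φ, P p = 0) (h2 : P ψ = 0) :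
    ∀ p ∈ Φ ⊔ span ℝ {ψ}, P p = 0 := fun p hp => by
  obtain ⟨a, ha, b, hb, rfl⟩ := mem_sup.1 hp
  rw [map_add, h a ha, span0 (S := {ψ}) (by rintro _ rfl; exact h2) b hb, add_zero]

lemma mix {Q G : StrongDual ℝ X} (h1 : ‖Q‖ ≤ 1) (h2 : ‖G‖ ≤ 1) {ν : ℝ} (a : 0 ≤ ν) (b : ν ≤ 1) :
    ‖(1 - ν) • Q + ν • G‖ ≤ 1 := by
  refine (norm_add_le _ _).trans ?_
  rw [norm_smul, norm_smul, Real.norm_eq_abs, Real.norm_eq_abs, abs_of_nonneg a, abs_of_nonneg (by linarith)]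
  nlinarith

lemma corr {H : Submodule ℝ X} {G : ℕ → StrongDual ℝ X} (h1 : ∀ n, ‖G n‖ ≤ 1) {l : Filter ℕ}
    (h : ∀ x ∈ H, Tendsto (fun n => G n x) l (𝓝 0)) (E : Submodule ℝ X) [FiniteDimensional ℝ E]
    (hE : E ≤ H) {ζ : ℝ} (hζ : 0 < ζ) :
    ∀ᶠ n in l, ∃ G' : StrongDual ℝ X, ‖G'‖ ≤ 1 ∧ (∀ p ∈ E, G' p = 0) ∧ ‖G' - G n‖ ≤ ζ := by
  obtain ⟨C, C0, hC⟩ := (Module.finBasis ℝ E).exists_opNorm_le (F := ℝ)
  have : ∀ᶠ n in l, ∀ i, ‖G n (Module.finBasis ℝ E i)‖ ≤ ζ / 2 / C := eventually_all.2 fun i => by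
    have := (h _ (hE (Module.finBasis ℝ E i).2)).norm
    rw [norm_zero] at this
    exact this.eventually (eventually_le_nhds (by positivity))
  filter_upwards [this] with n hn
  have b := hC (u := (G n).comp E.subtypeL) (by positivity) hn
  rw [mul_div_cancel₀ _ C0.ne'] at b
  obtain ⟨P, p1, p2⟩ := exists_extension_norm_eq E ((G n).comp E.subtypeL)
  rw [← p2] at b
  have z : 0 < 1 + ζ / 2 := by positivity
  refine ⟨(1 + ζ / 2)⁻¹ • (G n - P), ?_, fun p hp => ?_, ?_⟩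
  · rw [norm_smul, norm_inv, Real.norm_eq_abs, abs_of_pos z, inv_mul_le_iff₀ z, mul_one]
    linarith [norm_sub_le (G n) P, h1 n]
  · have := p1 ⟨p, hp⟩
    simp at this
    simp [this]
  · have : (1 + ζ / 2)⁻¹ • (G n - P) - G n = (1 + ζ / 2)⁻¹ • (-P - (ζ / 2) • G n) := by
      ext x; simp; field_simp; ring
    rw [this, norm_smul, norm_inv, Real.norm_eq_abs, abs_of_pos z, inv_mul_le_iff₀ z]
    have := norm_sub_le (-P) ((ζ / 2) • G n)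
    rw [norm_neg, norm_smul, Real.norm_eq_abs, abs_of_pos (by positivity)] at this
    nlinarith [h1 n]

end Pool.Agent.H92.WC
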