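import Pool.Agent.H92.WC2

namespace Pool.Agent.H92.WC

open Set Filter Topology Metric Submodule

variable {X : Type*} [NormedAddCommGroup X] [NormedSpace ℝ X]

lemma stepB {H : Submodule ℝ X} {f : X} (hH : ∀ p ∈ H, 1 ≤ ‖f - p‖) {R γ : ℝ} (R1 : 1 ≤ R)
    {h : ℕ → X} (hR : ∀ k, ‖h k‖ ≤ R) {U : Filter ℕ} (γ0 : 0 < γ) (γR : γ ≤ R)
    (orc : ∀ E : Submodule ℝ X, FiniteDimensional ℝ E → E ≤ H → ∀ ζ, 0 < ζ → ∃ G : StrongDual ℝ X,
      ‖G‖ ≤ 1 ∧ (∀ p ∈ E, G p = 0) ∧ 1 - ζ ≤ G f ∧ ∀ᶠ k in U, γ ≤ G (h k))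
    (κ τ1 : ℝ) : ∃ ε, 0 < ε ∧ (0 < κ → 0 < τ1 → τ1 ≤ 1 → ∀ Φ : Submodule ℝ X, FiniteDimensional ℝ Φ → Φ ≤ H →
      ∀ Q0 : StrongDual ℝ X, ‖Q0‖ ≤ 1 → (∀ p ∈ Φ, Q0 p = 0) → 1 + κ ≤ Q0 f →
      ∀ v ∈ H, ‖v‖ ≤ R → ‖f - v‖ ≤ 1 + ε → ∃ τ, 0 < τ ∧ τ ≤ τ1 ∧ ∃ κ', 0 < κ' ∧ ∀ᶠ k in U,
        (∃ Q' : StrongDual ℝ X, ‖Q'‖ ≤ 1 ∧ (∀ p ∈ Φ, Q' p = 0) ∧ Q' (v - τ • h k) = 0 ∧ 1 + κ' ≤ Q' f) ∧
        ∀ F' : StrongDual ℝ X, ‖F'‖ ≤ 1 → (∀ p ∈ Φ, F' p = 0) → F' (v - τ • h k) = 0 → 1 + κ' ≤ F' f →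
          γ / 8 ≤ F' (h k)) := by
  by_cases hκ : 0 < κ ∧ 0 < τ1 ∧ τ1 ≤ 1
  swap
  · exact ⟨1, one_pos, fun a b c => absurd ⟨a, b, c⟩ hκ⟩
  obtain ⟨κ0, τ0, τ2⟩ := hκ
  have R0 : 0 < R := by linarith
  set M := 32 * R ^ 2 / (τ1 * γ) with hM
  have M2 : 2 ≤ M := by
    rw [hM, le_div_iff₀ (by positivity)]; nlinarith [mul_le_mul τ2 γR γ0.le zero_le_one]
  obtain ⟨J, hJ⟩ := exists_pow_lt_of_lt_one (show 0 < κ / (2 * R) by positivity) (show (1 / 2 : ℝ) < 1 by norm_num)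
  refine ⟨κ / (4 * M ^ J), by positivity, fun _ _ _ Φ fd hΦ Q0 q1 q2 q3 v hv vR vl => ?_⟩
  set k : ℝ → ℝ := fun s => infDist (f - s • v) Φ - 1 with hk
  have k0 : ∀ s, 0 ≤ k s := fun s => sub_nonneg.2 <| (le_infDist ⟨0, Φ.zero_mem⟩).2 fun p hp => by
    rw [dist_eq_norm, sub_sub]; exact hH _ (add_mem (smul_mem _ _ hv) (hΦ hp))
  have k1 : ∀ (P : StrongDual ℝ X), ‖P‖ ≤ 1 → (∀ p ∈ Φ, P p = 0) → ∀ s, P f - s * P v ≤ 1 + k s :=
    fun P a b s => by have := le_inf a b (f - s • v); simp only [map_sub, map_smul, smul_eq_mul] at this; simp only [hk]; linarith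
  have k2 : k 1 ≤ κ / (4 * M ^ J) := by
    have := infDist_le_dist_of_mem (x := f - (1 : ℝ) • v) (s := (Φ : Set X)) Φ.zero_mem
    rw [dist_zero_right, one_smul] at this
    simp only [hk, one_smul]; linarith
  obtain ⟨j, hj⟩ : ∃ j : ℕ, M * k ((1 / 2) ^ j) < k ((1 / 2) ^ j / 2) := by
    by_contra hc
    push Not at hc
    have : ∀ j : ℕ, k ((1 / 2) ^ j) ≤ M ^ j * (κ / (4 * M ^ J)) := fun j => by
      induction j with
      | zero => simpa using k2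
      | succ j ih =>
        rw [pow_succ, mul_one_div, pow_succ', mul_assoc]
        exact (hc j).trans (mul_le_mul_of_nonneg_left ih (by linarith))
    have h1 := this J
    rw [show M ^ J * (κ / (4 * M ^ J)) = κ / 4 by field_simp] at h1
    have h2 := k1 Q0 q1 q2 ((1 / 2) ^ J)
    have h3 : (1 / 2 : ℝ) ^ J * Q0 v ≤ κ / (2 * R) * R :=
      by
        calc (1 / 2 : ℝ) ^ J * Q0 v ≤ (1 / 2) ^ J * R := mul_le_mul_of_nonneg_left ((le1 q1 v).trans vR) (by positivity)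
          _ ≤ _ := mul_le_mul_of_nonneg_right hJ.le R0.le
    rw [show κ / (2 * R) * R = κ / 2 by field_simp] at h3
    linarith
  set σ : ℝ := (1 / 2) ^ j with hσ
  have σ0 : 0 < σ := by positivity
  set b := k (σ / 2) with hb'
  obtain ⟨Q, Q1, Q2, Q3⟩ := hb Φ (f - (σ / 2) • v)
  set q := Q v with hq
  have Q4 : Q f - σ / 2 * q = 1 + b := by
    simp only [map_sub, map_smul, smul_eq_mul] at Q3; simp only [hb', hk]; linarith
  have Q5 := k1 Q Q1 Q2 σ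
  have kσ := k0 σ
  have b0 : 0 < b := lt_of_le_of_lt (by positivity) hj
  have bq : b ≤ σ * q := by nlinarith
  have qR : q ≤ R := (le1 Q1 v).trans vR
  have q0 : 0 < q := by by_contra hc; nlinarith
  set τ := τ1 * b / (2 * σ * R ^ 2) with hτ
  have τp : 0 < τ := by positivity
  have τq : τ * R ≤ q / 2 := by
    rw [hτ, div_mul_eq_mul_div, div_le_iff₀ (by positivity)]
    have : τ1 * b ≤ σ * q * R := by nlinarith [mul_le_mul τ2 bq b0.le zero_le_one, mul_pos σ0 q0]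
    nlinarith
  have x16 : k σ ≤ τ * γ * σ / 16 := by
    have : τ * γ * σ / 16 * M = b := by rw [hτ, hM]; field_simp; ring
    nlinarith
  refine ⟨τ, τp, ?_, 3 * (τ * γ * σ) / 16, by positivity, ?_⟩
  · rw [hτ, div_le_iff₀ (by positivity)]
    have : b ≤ 2 * σ * R ^ 2 := by nlinarith [mul_le_mul_of_nonneg_left qR σ0.le, mul_pos σ0 R0]
    exact mul_le_mul_of_nonneg_left this τ0.le
  obtain ⟨G, G1, G2, G3, G4⟩ := orc (Φ ⊔ span ℝ {v}) inferInstance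
    (sup_le hΦ (span_le.2 (singleton_subset_iff.2 hv))) (τ * γ * σ / 16) (by positivity)
  have Gv : G v = 0 := G2 v (mem_sup_right (mem_span_singleton_self v))
  filter_upwards [G4] with n hn
  refine ⟨?_, fun F' a1 a2 a3 a4 => ?_⟩
  · set g := G (h n)
    have gR : g ≤ R := (le1 G1 _).trans (hR n)
    have hA := abs_le.1 ((ab Q1 (h n)).trans (hR n))
    set A := q - τ * Q (h n) with hA'
    have A1 : q / 2 ≤ A := by nlinarith
    have A2 : A + τ * g ≤ 2 * q := by nlinarith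
    have g0 : 0 < τ * g := mul_pos τp (γ0.trans_le hn)
    have d0 : 0 < A + τ * g := by linarith
    set ν := A / (A + τ * g) with hν
    have n1 : 1 - ν = τ * g / (A + τ * g) := by rw [hν]; field_simp; ring
    have n0 : 0 ≤ ν := by rw [hν]; exact div_nonneg (by linarith) d0.le
    have n2 : τ * γ ≤ (1 - ν) * (2 * q) := by
      rw [n1, div_mul_eq_mul_div (τ * g), le_div_iff₀ d0]
      exact mul_le_mul (mul_le_mul_of_nonneg_left hn τp.le) A2 d0.le g0.le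
    have n3 : ν ≤ 1 := by have : 0 ≤ 1 - ν := by rw [n1]; positivity
                          linarith
    refine ⟨(1 - ν) • Q + ν • G, mix Q1 G1 n0 n3, fun p hp => by simp [Q2 p hp, G2 p (mem_sup_left hp)], ?_, ?_⟩
    · simp only [add_apply, smul_apply, map_sub, map_smul,
        smul_eq_mul, Gv]
      have : (1 - ν) * A = ν * (τ * g) := by rw [n1, hν]; field_simp
      linear_combination this
    · simp only [add_apply, smul_apply, smul_eq_mul]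
      have z : 0 < τ * γ * σ := by positivity
      have e : Q f = 1 + b + σ / 2 * q := by linarith
      rw [e]
      linarith [mul_le_mul_of_nonneg_left n2 σ0.le, mul_le_mul_of_nonneg_left G3 n0,
        mul_nonneg (sub_nonneg.2 n3) b0.le, mul_nonneg (sub_nonneg.2 n3) z.le]
  · have := k1 F' a1 a2 σ
    simp only [map_sub, map_smul, smul_eq_mul] at a3
    have e : F' v = τ * F' (h n) := by linarith
    rw [e] at this
    by_contra hc
    nlinarith [mul_pos τp σ0]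

theorem caseB {t : ℝ} (ht : t ≤ 1) {H : Submodule ℝ X} {f : X} (hH : ∀ p ∈ H, 1 ≤ ‖f - p‖) {R γ : ℝ}
    (R1 : 1 ≤ R) {h : ℕ → X} (hh : ∀ k, h k ∈ H) (hR : ∀ k, ‖h k‖ ≤ R) (U : Ultrafilter ℕ)
    (hl : ∀ ε, 0 < ε → ∀ᶠ k in U, ‖f - h k‖ ≤ 1 + ε) (γ0 : 0 < γ) (γf : γ ≤ ‖f‖ - 1) (fR : ‖f‖ ≤ R)
    (orc : ∀ E : Submodule ℝ X, FiniteDimensional ℝ E → E ≤ H → ∀ ζ, 0 < ζ → ∃ G : StrongDual ℝ X,
      ‖G‖ ≤ 1 ∧ (∀ p ∈ E, G p = 0) ∧ 1 - ζ ≤ G f ∧ ∀ᶠ k in U, γ ≤ G (h k)) : ¬ Conv X t := by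
  have R0 : 0 < R := by linarith
  have γR : γ ≤ R := by linarith
  choose ε ε0 hε using stepB hH R1 hR γ0 γR orc
  set r := γ / 8 with hr
  have r0 : 0 < r := by positivity
  refine build ht H f hH (c := r / 2) (C := 4 * R) (by positivity)
    (fun Φ T F => ∃ κ, 0 < κ ∧ 1 + κ ≤ F f ∧
      (∀ q ∈ T, ∃ b < q.2, ∀ᶠ k in U, 0 ≤ q.1 (h k) ∧ q.1 (h k) ≤ b) ∧
      ((∀ᶠ k in U, r / 2 < F (h k)) ∨ ∃ v ∈ H, ‖v‖ ≤ R ∧ ‖f - v‖ ≤ 1 + ε κ (r / (4 * R)) ∧ r ≤ F v ∧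
        ∀ q ∈ T, 0 ≤ q.1 v ∧ q.1 v ≤ q.2)) ?_ ?_
  · rintro F ⟨-, -, -, F1, -, g, hg, e⟩
    rw [(mem_bot ℝ).1 hg, sub_zero] at e
    refine ⟨γ, γ0, by linarith, by simp, Or.inl ?_⟩
    filter_upwards [hl (γ / 2) (by positivity)] with k hk
    have := le1 F1.le (f - h k)
    rw [map_sub] at this
    linarith
  rintro Φ T F hB ⟨κ, κ0, κf, hT, alt⟩
  have F1 := hB.2.2.2.1.le
  have Fp : ∀ᶠ k in U, 0 ≤ F (h k) := by
    filter_upwards [hl κ κ0] with k hk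
    have := le1 F1 (f - h k)
    rw [map_sub] at this
    linarith
  have fin : ∀ (v : X) (τ1 l b0 : ℝ), v ∈ H → ‖v‖ ≤ R → 0 < τ1 → τ1 ≤ 1 → ‖f - v‖ ≤ 1 + ε κ τ1 →
      1 ≤ l → l ≤ 2 → (∀ q ∈ T, 0 ≤ q.1 v ∧ l * q.1 v ≤ q.2) →
      (∀ q ∈ T, ∀ᶠ k in U, 0 ≤ q.1 (h k) ∧ l * q.1 (h k) ≤ q.2) → r / 2 ≤ b0 →
      b0 < l * (F v - τ1 * R) → (∀ᶠ k in U, F (h k) ≤ b0) →
      ∃ ψ ∈ H, ‖ψ‖ ≤ 4 * R ∧ r / 2 ≤ F ψ ∧ (∀ q ∈ T, |q.1 ψ| ≤ q.2) ∧
      ∀ F', Base H f (Φ ⊔ span ℝ {ψ}) (insert (F, F ψ) T) F' → ∃ κ, 0 < κ ∧ 1 + κ ≤ F' f ∧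
      (∀ q ∈ insert (F, F ψ) T, ∃ b < q.2, ∀ᶠ k in U, 0 ≤ q.1 (h k) ∧ q.1 (h k) ≤ b) ∧
      ((∀ᶠ k in U, r / 2 < F' (h k)) ∨ ∃ v ∈ H, ‖v‖ ≤ R ∧ ‖f - v‖ ≤ 1 + ε κ (r / (4 * R)) ∧ r ≤ F' v ∧
        ∀ q ∈ insert (F, F ψ) T, 0 ≤ q.1 v ∧ q.1 v ≤ q.2) := by
    intro v τ1 l b0 vH vR t0 t1 vl l1 l2 Tv Th b1 b2 b3
    obtain ⟨τ, τ0, τ1', κ', κ'0, ev⟩ := hε κ τ1 κ0 t0 t1 Φ hB.1 hB.2.1 F F1 hB.2.2.2.2.1 κf v vH vR vl
    obtain ⟨k, ⟨⟨Q', Q1, Q2, Q3, Q4⟩, e2⟩, e3, e4, e5, e6⟩ := (ev.and (((eventually_all_finite hB.2.2.1).2 Th).and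
      (b3.and (Fp.and (hl _ (ε0 κ' (r / (4 * R)))))))).exists
    have Fψ : b0 < F (l • (v - τ • h k)) := by
      simp only [map_smul, map_sub, smul_eq_mul]
      refine b2.trans_le (mul_le_mul_of_nonneg_left ?_ (by linarith))
      nlinarith [(le1 F1 _).trans (hR k), mul_le_mul_of_nonneg_right τ1' R0.le]
    refine ⟨l • (v - τ • h k), smul_mem _ _ (sub_mem vH (smul_mem _ _ (hh k))), ?_, by linarith,
      fun q hq => ?_, fun F' hF' => ?_⟩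
    · rw [norm_smul, Real.norm_eq_abs, abs_of_pos (by linarith)]
      have := norm_sub_le v (τ • h k)
      rw [norm_smul, Real.norm_eq_abs, abs_of_pos τ0] at this
      have h2 : τ * ‖h k‖ ≤ 1 * R := mul_le_mul (by linarith) (hR k) (norm_nonneg _) zero_le_one
      nlinarith [norm_nonneg (v - τ • h k)]
    · simp only [map_smul, map_sub, smul_eq_mul]
      obtain ⟨a1, a2⟩ := Tv q hq
      obtain ⟨a3, a4⟩ := e3 q hq
      have : 0 ≤ l * q.1 (h k) := mul_nonneg (by linarith) a3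
      have : 0 ≤ l * q.1 v := mul_nonneg (by linarith) a1
      rw [abs_le]; constructor <;> nlinarith
    · have top := hF'.top Q1 (ann_sup Q2 (by rw [map_smul, Q3, smul_zero]))
      have z : F' (v - τ • h k) = 0 := by
        have := hF'.2.2.2.2.1 _ (mem_sup_right (mem_span_singleton_self _))
        rw [map_smul, smul_eq_mul] at this
        exact (mul_eq_zero.1 this).resolve_left (by linarith)
      refine ⟨κ', κ'0, by linarith, ?_, Or.inr ⟨h k, hh k, hR k, e6,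
        e2 F' hF'.2.2.2.1.le (fun p hp => hF'.2.2.2.2.1 p (mem_sup_left hp)) z (by linarith), ?_⟩⟩
      · rintro q (rfl | hq)
        · exact ⟨b0, Fψ, Fp.and b3⟩
        · exact hT q hq
      · rintro q (rfl | hq)
        · exact ⟨e5, e4.trans Fψ.le⟩
        · obtain ⟨a3, a4⟩ := e3 q hq
          exact ⟨a3, by nlinarith⟩
  by_cases h1 : ∀ᶠ k in U, r / 2 < F (h k)
  · obtain ⟨β, -, hβ⟩ := (isCompact_Icc (a := -R) (b := R)).ultrafilter_le_nhds (U.map fun k => F (h k))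
      (by rw [le_principal_iff]
          exact Eventually.of_forall (f := (U : Filter ℕ)) fun k => abs_le.1 ((ab F1 _).trans (hR k)))
    have hβ' : Tendsto (fun k => F (h k)) U (𝓝 β) := hβ
    have β1 : r / 2 ≤ β := ge_of_tendsto hβ' (h1.mono fun _ a => a.le)
    have : ∀ᶠ η in 𝓝[>] (0 : ℝ), ∀ q ∈ T, ∀ᶠ k in U, 0 ≤ q.1 (h k) ∧ (1 + η) * q.1 (h k) ≤ q.2 := by
      refine (eventually_all_finite hB.2.2.1).2 fun q hq => ?_
      obtain ⟨b, b1, b2⟩ := hT q hq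
      have c : Tendsto (fun η : ℝ => (1 + η) * b) (𝓝[>] 0) (𝓝 b) := by
        have : Continuous fun η : ℝ => (1 + η) * b := by fun_prop
        simpa using (this.tendsto 0).mono_left nhdsWithin_le_nhds
      filter_upwards [c.eventually (eventually_le_nhds b1), self_mem_nhdsWithin] with η a1 a2
      have : 0 < η := a2
      filter_upwards [b2] with k hk using ⟨hk.1, by nlinarith [hk.2]⟩
    obtain ⟨η, e1, η0, η1⟩ := (this.and (Ioc_mem_nhdsGT (zero_lt_one' ℝ))).exists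
    have z0 : 0 < η * r / 16 := by positivity
    have t1 : η * r / 16 / R ≤ 1 := by
      rw [div_le_one R0]; nlinarith
    obtain ⟨k, a1, a2, a3⟩ := (((eventually_all_finite hB.2.2.1).2 e1).and ((hl _ (ε0 κ (η * r / 16 / R))).and
      (hβ'.eventually (eventually_ge_nhds (show β - η * r / 16 < β by linarith))))).exists
    refine fin (h k) (η * r / 16 / R) (1 + η) (β + η * r / 16) (hh k) (hR k) (by positivity) t1 a2
      (by linarith) (by linarith) a1 e1 (by linarith) ?_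
      (hβ'.eventually (eventually_le_nhds (by linarith)))
    rw [div_mul_cancel₀ _ R0.ne']
    nlinarith [mul_le_mul_of_nonneg_left β1 η0.le, mul_le_mul_of_nonneg_left η1 z0.le]
  · obtain ⟨v, vH, vR, vl, vF, vT⟩ := alt.resolve_left h1
    refine fin v (r / (4 * R)) 1 (r / 2) vH vR (by positivity) (by rw [div_le_one (by positivity)]; linarith) vl
      le_rfl one_le_two (by simpa using vT) (fun q hq => ?_) le_rfl ?_
      ((Ultrafilter.eventually_not.2 h1).mono fun _ a => not_lt.1 a)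
    · obtain ⟨b, b1, b2⟩ := hT q hq
      filter_upwards [b2] with k hk using ⟨hk.1, by linarith [hk.2]⟩
    · rw [show r / (4 * R) * R = r / 4 by field_simp]; linarith

end Pool.Agent.H92.WC
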