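import Pool.Agent.H92.WC2

namespace Pool.Agent.H92.WC

open Set Filter Topology Metric Submodule

variable {X : Type*} [NormedAddCommGroup X] [NormedSpace ℝ X]

def OrA (H : Submodule ℝ X) (f : X) (h : ℕ → X) (U : Filter ℕ) (δ : ℝ) : Prop :=
  ∀ E : Submodule ℝ X, FiniteDimensional ℝ E → E ≤ H → ∀ S : Set (StrongDual ℝ X), S.Finite →
    ∀ ζ, 0 < ζ → ∃ (G : StrongDual ℝ X) (w : X), ‖G‖ ≤ 1 ∧ (∀ p ∈ E, G p = 0) ∧ 1 - ζ ≤ G f ∧ w ∈ H ∧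
      ‖w‖ ≤ 1 ∧ δ ≤ G w ∧ (∀ P ∈ S, |P w| ≤ ζ) ∧ ∀ᶠ k in U, G (h k) ≤ ζ

def Low (Φ : Submodule ℝ X) (x : X) (l : ℝ) : Prop :=
  ∀ P : StrongDual ℝ X, ‖P‖ ≤ 1 → (∀ p ∈ Φ, P p = 0) → P x ≤ 1 + l

lemma cut {H : Submodule ℝ X} {f : X} {h : ℕ → X} {U : Filter ℕ} {δ : ℝ} (δ0 : 0 < δ) (orc : OrA H f h U δ)
    {Φ : Submodule ℝ X} (fd : FiniteDimensional ℝ Φ) (hΦ : Φ ≤ H) {u y : X} (hu : u ∈ H) (hy : y ∈ H)
    {Q : StrongDual ℝ X} {a m Γ : ℝ} (Q1 : ‖Q‖ ≤ 1) (Q2 : ∀ p ∈ Φ, Q p = 0) (Q3 : Q f = 1 + a) (a0 : 0 < a)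
    (Γ0 : 0 < Γ) (hm : m < Γ * a) (Q4 : ∀ᶠ k in U, Q (h k) ≤ m) (c : ℝ) (q0 : 0 < Q y + c * Q u)
    {S : Set (StrongDual ℝ X)} (hS : S.Finite) {ζ0 : ℝ} (z0 : 0 < ζ0) :
    ∃ (w : X) (τ : ℝ) (Q' : StrongDual ℝ X) (a' m' : ℝ), w ∈ H ∧ ‖w‖ ≤ 1 ∧ (∀ P ∈ S, |P w| ≤ ζ0) ∧ 0 < τ ∧
      τ * δ ≤ 18 * (Q y + c * Q u) ∧ ‖Q'‖ ≤ 1 ∧ (∀ p ∈ Φ, Q' p = 0) ∧ Q' (y + c • u - τ • w) = 0 ∧
      Q' u = 9 / 10 * Q u ∧ Q' y = 9 / 10 * Q y ∧ Q' f = 1 + a' ∧ 4 / 5 * a ≤ a' ∧ 9 / 10 * m ≤ m' ∧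
      m' < Γ * a' ∧ ∀ᶠ k in U, Q' (h k) ≤ m' := by
  set ζ := min (min ζ0 (δ / 18)) (min a ((Γ * a - m) / (1 + Γ))) with hζ
  have ζ1 : ζ ≤ ζ0 := (min_le_left _ _).trans (min_le_left _ _)
  have ζ2 : ζ ≤ δ / 18 := (min_le_left _ _).trans (min_le_right _ _)
  have ζ3 : ζ ≤ a := (min_le_right _ _).trans (min_le_left _ _)
  have ζ4 : ζ * (1 + Γ) ≤ Γ * a - m :=
    (le_div_iff₀ (by positivity)).1 ((min_le_right _ _).trans (min_le_right _ _))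
  have ζp : 0 < ζ := lt_min (lt_min z0 (by positivity)) (lt_min a0 (div_pos (by linarith) (by positivity)))
  clear_value ζ
  have : FiniteDimensional ℝ (span ℝ ({u, y} : Set X)) := FiniteDimensional.span_of_finite ℝ (toFinite _)
  obtain ⟨G, w, G1, G2, G3, w1, w2, G4, w3, G5⟩ := orc (Φ ⊔ span ℝ {u, y}) inferInstance
    (sup_le hΦ (span_le.2 (by rintro _ (rfl | rfl); exacts [hu, hy]))) (insert Q S) (hS.insert Q) ζ ζp
  have Gu : G u = 0 := G2 u (mem_sup_right (subset_span (by simp)))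
  have Gy : G y = 0 := G2 y (mem_sup_right (subset_span (by simp)))
  have Qw := abs_le.1 (w3 Q (mem_insert _ _))
  have d0 : δ / 2 ≤ G w + 9 * Q w := by linarith [Qw.1]
  have d1 : 0 < G w + 9 * Q w := by linarith
  refine ⟨w, 9 * (Q y + c * Q u) / (G w + 9 * Q w), (1 - 1 / 10 : ℝ) • Q + (1 / 10 : ℝ) • G,
    9 / 10 * a + (G f - 1) / 10, 9 / 10 * m + ζ / 10, w1, w2,
    fun P hP => (w3 P (mem_insert_of_mem _ hP)).trans ζ1, by positivity, ?_,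
    mix Q1 G1 (by norm_num) (by norm_num), fun p hp => by simp [Q2 p hp, G2 p (mem_sup_left hp)], ?_,
    by simp [Gu]; norm_num, by simp [Gy]; norm_num, ?_, by linarith, by linarith, by nlinarith, ?_⟩
  · rw [div_mul_eq_mul_div, div_le_iff₀ d1]; nlinarith
  · simp only [add_apply, smul_apply, map_sub, map_add, map_smul, smul_eq_mul, Gu, Gy]
    field_simp; ring
  · simp only [add_apply, smul_apply, smul_eq_mul, Q3]; ring
  · filter_upwards [Q4, G5] with k a b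
    simp only [add_apply, smul_apply, smul_eq_mul]; linarith

lemma ee {z a R : ℝ} (z0 : 0 < z) (h : 4 / 5 * z ≤ a) (aR : a ≤ R) :
    (16 / 25 * z) ^ 3 / (8 * R ^ 2) ≤ a / 8 ∧ (16 / 25 * z) ^ 3 / (8 * R ^ 2) ≤ z / 2 := by
  have R0 : 0 < R := by linarith
  have h1 : (16 / 25 * z) ^ 2 ≤ R ^ 2 := pow_le_pow_left₀ (by positivity) (by linarith) 2
  constructor <;> rw [div_le_iff₀ (by positivity), pow_succ'] <;>
    nlinarith [mul_le_mul_of_nonneg_left h1 z0.le, sq_nonneg R]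

theorem caseA {t : ℝ} (ht : t ≤ 1) {H : Submodule ℝ X} {f : X} (hH : ∀ p ∈ H, 1 ≤ ‖f - p‖) {R δ : ℝ}
    (R1 : 1 ≤ R) {h : ℕ → X} (hh : ∀ k, h k ∈ H) (hR : ∀ k, ‖h k‖ ≤ R) (U : Filter ℕ) [U.NeBot]
    (hl : ∀ ε, 0 < ε → ∀ᶠ k in U, ‖f - h k‖ ≤ 1 + ε) (δ0 : 0 < δ) (δ1 : δ ≤ 1) (f1 : 1 < ‖f‖) (fR : ‖f‖ ≤ R)
    (orc : OrA H f h U δ) : ¬ Conv X t := by
  have R0 : 0 < R := by linarith
  obtain ⟨Γ, Γ1, ΓR⟩ : ∃ Γ : ℝ, 1 ≤ Γ ∧ R < Γ * (‖f‖ - 1) := by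
    refine ⟨R / (‖f‖ - 1) + 1, le_add_of_nonneg_left (div_nonneg R0.le (by linarith)), ?_⟩
    rw [add_mul, div_mul_cancel₀ _ (by linarith)]; linarith
  obtain ⟨K, K0, hK⟩ : ∃ K : ℝ, 0 < K ∧ K * δ = 25 * Γ := ⟨25 * Γ / δ, by positivity, by field_simp⟩
  have ΓK : Γ ≤ K := by nlinarith
  obtain ⟨B, B0, hB'⟩ : ∃ B : ℝ, 0 < B ∧ K * B = δ / 540 := ⟨δ / (540 * K), by positivity, by field_simp⟩
  have B1 : B ≤ 1 := by nlinarith
  obtain ⟨ρ, ρ0, hρ⟩ : ∃ ρ : ℝ, 0 < ρ ∧ K * ρ = 1 / 144 := ⟨1 / (144 * K), by positivity, by field_simp⟩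
  have low : ∀ (Φ : Submodule ℝ X) k l, ‖f - h k‖ ≤ 1 + l → ∀ s : ℝ, 0 < s → Low Φ (f - s • s⁻¹ • h k) l :=
    fun Φ k l hk s s0 P p1 _ => by
      rw [smul_smul, mul_inv_cancel₀ s0.ne', one_smul]; exact (le1 p1 _).trans hk
  have nh : ∀ k (s : ℝ), 0 < s → ‖(R / s)⁻¹ • h k‖ ≤ s := fun k s s0 => by
    rw [norm_smul, norm_inv, Real.norm_eq_abs, abs_of_pos (by positivity), inv_mul_le_iff₀ (by positivity),
      div_mul_cancel₀ _ s0.ne']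
    exact hR k
  have zz : ∀ a : ℝ, 0 < a → a ≤ R → 4 * B ^ 2 * (a ^ 3 / (4 * R ^ 2)) * (R / B) ^ 2 ≤ a ^ 3 ∧
      4 / 5 * (a ^ 3 / (4 * R ^ 2)) ≤ a := fun a a0 aR => by
    refine ⟨le_of_eq (by field_simp), ?_⟩
    rw [← mul_div_assoc, div_le_iff₀ (by positivity)]
    nlinarith [mul_le_mul_of_nonneg_left (pow_le_pow_left₀ a0.le aR 2) a0.le, mul_pos a0 (pow_pos R0 2)]
  refine build ht H f hH (c := 17 * B / 16) (C := 2 + 36 / δ) (by positivity)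
    (fun Φ T F => ∃ (Q : StrongDual ℝ X) (a m : ℝ) (u : X) (σ : ℝ) (y : X) (Λ z : ℝ),
      ‖Q‖ ≤ 1 ∧ (∀ p ∈ Φ, Q p = 0) ∧ Q f = 1 + a ∧ 0 < a ∧ m < Γ * a ∧ (∀ᶠ k in U, Q (h k) ≤ m) ∧
      u ∈ H ∧ y ∈ H ∧ ‖u‖ ≤ 1 ∧ ‖y‖ ≤ 1 ∧ 0 < σ ∧ 0 < Λ ∧ σ * Q u ≤ m ∧ Λ * Q y ≤ m ∧ σ ≤ K * a ∧
      0 < z ∧ 4 * B ^ 2 * z * Λ ^ 2 ≤ a ^ 3 ∧ 4 / 5 * z ≤ a ∧ Low Φ (f - σ • u) (z / 2) ∧
      Low Φ (f - Λ • y) ((16 / 25 * z) ^ 3 / (8 * R ^ 2)) ∧
      ∀ q ∈ T, 17 * B / 16 ≤ q.2 ∧ ‖q.1‖ ≤ 1 ∧ |q.1 u| ≤ ρ ∧ |q.1 y| ≤ B) ?_ ?_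
  · rintro F ⟨-, -, -, F1, -, g, hg, e⟩
    rw [(mem_bot ℝ).1 hg, sub_zero] at e
    have a0 : 0 < ‖f‖ - 1 := by linarith
    have aR : ‖f‖ - 1 ≤ R := by linarith
    set a := ‖f‖ - 1
    have z0 : 0 < a ^ 3 / (4 * R ^ 2) := by positivity
    obtain ⟨k, hk⟩ := (hl ((16 / 25 * (a ^ 3 / (4 * R ^ 2))) ^ 3 / (8 * R ^ 2)) (by positivity)).exists
    have hF : ∀ k, F (h k) ≤ R := fun k => (le1 F1.le _).trans (hR k)
    refine ⟨F, a, R, (R / 1)⁻¹ • h k, R / 1, (R / B)⁻¹ • h k, R / B, _, F1.le, by simp, by linarith, a0, ΓR,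
      Eventually.of_forall hF, smul_mem _ _ (hh k), smul_mem _ _ (hh k), nh k 1 one_pos,
      (nh k B B0).trans B1, by positivity, by positivity, ?_, ?_, by nlinarith, z0, (zz a a0 aR).1,
      (zz a a0 aR).2, low _ k _ (by linarith [(ee z0 (zz a a0 aR).2 aR).2]) _ (by positivity),
      low _ k _ hk _ (by positivity), by simp⟩ <;>
    · rw [map_smul, smul_eq_mul, mul_inv_cancel_left₀ (by positivity)]; exact hF k
  rintro Φ T F hB ⟨Q, a, m, u, σ, y, Λ, z, Q1, Q2, Q3, a0, hm, Q4, uH, yH, u1, y1, σ0, Λ0, mu, my, σK, z0, z1, z2,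
    Lu, Ly, hT⟩
  have F1 := hB.2.2.2.1.le
  have F2 := hB.2.2.2.2.1
  have top := hB.top Q1 Q2
  have aR : a ≤ R := by linarith [le1 Q1 f]
  obtain ⟨e1, e2⟩ := ee z0 z2 aR
  have val : ∀ (P : StrongDual ℝ X) (s : ℝ) (x : X), P (f - s • x) = P f - s * P x := fun P s x => by simp
  have Fy := Ly F F1 F2
  have Qy := Ly Q Q1 Q2
  rw [val] at Fy Qy
  have Fy0 : 0 < F y := (mul_pos_iff_of_pos_left Λ0).1 (by linarith : 0 < Λ * F y)
  have Qy0 : 0 < Q y := (mul_pos_iff_of_pos_left Λ0).1 (by linarith : 0 < Λ * Q y)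
  have hS : (insert F (Prod.fst '' T)).Finite := (hB.2.2.1.image _).insert F
  have ζ0 : 0 < min ρ (B * δ / 2304) := by positivity
  have sm : ∀ {τ x : ℝ}, 0 < τ → τ * δ ≤ 36 → |x| ≤ min ρ (B * δ / 2304) → |τ * x| ≤ B / 64 := by
    intro τ x a b c
    rw [abs_mul, abs_of_pos a]
    linarith [mul_le_mul_of_nonneg_left (c.trans (min_le_right _ _)) a.le, mul_le_mul_of_nonneg_left b B0.le]
  have nψ : ∀ {c τ : ℝ} {w : X}, 0 ≤ c → c ≤ 1 → 0 < τ → τ * δ ≤ 36 → ‖w‖ ≤ 1 →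
      ‖y + c • u - τ • w‖ ≤ 2 + 36 / δ := by
    intro c τ w c0 c1 τ0 τ1 w1
    have h1 := norm_sub_le (y + c • u) (τ • w)
    have h2 := norm_add_le y (c • u)
    rw [norm_smul, Real.norm_eq_abs, abs_of_nonneg c0] at h2
    rw [norm_smul, Real.norm_eq_abs, abs_of_pos τ0] at h1
    have := (le_div_iff₀ δ0).2 τ1
    linarith [mul_le_mul c1 u1 (norm_nonneg _) zero_le_one, mul_le_mul_of_nonneg_left w1 τ0.le]
  have vψ : ∀ (P : StrongDual ℝ X) (c τ : ℝ) (w : X), P (y + c • u - τ • w) = P y + c * P u - τ * P w :=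
    fun P c τ w => by simp
  have σn : ∀ {s τ q a' : ℝ}, 0 < s → τ * δ ≤ 18 * q → s * q ≤ m → 4 / 5 * a ≤ a' → s * τ ≤ K * a' := by
    intro s τ q a' s0 h1 h2 h3
    refine le_of_mul_le_mul_right ?_ δ0
    have : K * a' * δ = 25 * (Γ * a') := by rw [mul_right_comm, hK]; ring
    rw [this]
    linarith [mul_le_mul_of_nonneg_left h1 s0.le, mul_le_mul_of_nonneg_left h3 (by linarith : 0 ≤ Γ),
      mul_pos (by linarith : 0 < Γ) a0]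
  by_cases hc : 9 * B / 8 ≤ F y
  · obtain ⟨w, τ, Q', a', m', w1, w2, w3, τ0, τ1, R1', R2, R3, R4, R5, R6, R7, R8, R9, R10⟩ :=
      cut δ0 orc hB.1 hB.2.1 uH yH Q1 Q2 Q3 a0 (by linarith) hm Q4 0 (by linarith) hS ζ0
    have τ2 : τ * δ ≤ 36 := by linarith [(le1 Q1 y).trans y1]
    have Fw := abs_le.1 (sm τ0 τ2 (w3 F (mem_insert _ _)))
    have Fψ : 17 * B / 16 ≤ F (y + (0 : ℝ) • u - τ • w) := by rw [vψ]; linarith [Fw.2]
    refine ⟨y + (0 : ℝ) • u - τ • w, sub_mem (add_mem yH (smul_mem _ _ uH)) (smul_mem _ _ w1),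
      nψ le_rfl zero_le_one τ0 τ2 w2, Fψ, fun q hq => ?_, fun F' hF' => ?_⟩
    · obtain ⟨b1, -, -, b4⟩ := hT q hq
      have := abs_le.1 (sm τ0 τ2 (w3 q.1 (mem_insert_of_mem _ ⟨q, hq, rfl⟩)))
      have := abs_le.1 b4
      rw [vψ, abs_le]; constructor <;> linarith [this.1, this.2]
    have a0' : 0 < a' := by linarith
    have aR' : a' ≤ R := by linarith [le1 R1' f]
    have z0' : 0 < a' ^ 3 / (4 * R ^ 2) := by positivity
    obtain ⟨k, hk, hk2⟩ := ((hl ((16 / 25 * (a' ^ 3 / (4 * R ^ 2))) ^ 3 / (8 * R ^ 2)) (by positivity)).and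
      R10).exists
    rw [vψ] at R3
    refine ⟨Q', a', m', w, Λ * τ, (R / B)⁻¹ • h k, R / B, _, R1', ann_sup R2 (by rw [vψ, R3]), R6, a0', R9, R10,
      w1, smul_mem _ _ (hh k), w2, (nh k B B0).trans B1, by positivity, by positivity, ?_, ?_,
      σn Λ0 τ1 (by linarith) R7, z0', (zz a' a0' aR').1, (zz a' a0' aR').2, fun P p1 p2 => ?_,
      low _ k _ hk _ (by positivity), ?_⟩
    · have : τ * Q' w = 9 / 10 * Q y := by linarith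
      rw [mul_assoc, this]; linarith
    · rw [map_smul, smul_eq_mul, mul_inv_cancel_left₀ (by positivity)]; exact hk2
    · have b1 := Ly P p1 fun p hp => p2 p (mem_sup_left hp)
      have b2 := p2 _ (mem_sup_right (mem_span_singleton_self _))
      rw [vψ] at b2
      have b3 : τ * P w = P y := by linarith
      rw [val] at b1 ⊢
      rw [mul_assoc, b3]
      refine b1.trans (add_le_add le_rfl ?_)
      rw [div_div, show 4 * R ^ 2 * 2 = 8 * R ^ 2 by ring]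
      gcongr; linarith
    · have nb : ∀ P : StrongDual ℝ X, ‖P‖ ≤ 1 → |P ((R / B)⁻¹ • h k)| ≤ B := fun P hP => (ab hP _).trans (nh k B B0)
      rintro q (rfl | hq)
      · exact ⟨Fψ, F1, (w3 F (mem_insert _ _)).trans (min_le_left _ _), nb _ F1⟩
      · exact ⟨(hT q hq).1, (hT q hq).2.1, (w3 q.1 (mem_insert_of_mem _ ⟨q, hq, rfl⟩)).trans (min_le_left _ _),
          nb _ (hT q hq).2.1⟩
  push Not at hc
  have aΛ : a ≤ 2 * B * Λ := by linarith [mul_le_mul_of_nonneg_left hc.le Λ0.le, mul_pos B0 Λ0]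
  have za : z ≤ a := by
    refine le_of_mul_le_mul_right ?_ (show 0 < (2 * B * Λ) ^ 2 by positivity)
    linarith [mul_le_mul_of_nonneg_left (pow_le_pow_left₀ a0.le aΛ 2) a0.le]
  have Fu := Lu F F1 F2
  have Qu := Lu Q Q1 Q2
  rw [val] at Fu Qu
  have Fu0 : 0 < F u := (mul_pos_iff_of_pos_left σ0).1 (by linarith : 0 < σ * F u)
  have Qu0 : 0 < Q u := (mul_pos_iff_of_pos_left σ0).1 (by linarith : 0 < σ * Q u)
  have Fu1 : 1 ≤ 2 * K * F u := by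
    refine le_of_mul_le_mul_right ?_ a0
    linarith [mul_le_mul_of_nonneg_right σK Fu0.le]
  obtain ⟨c, c0, hc'⟩ : ∃ c : ℝ, 0 < c ∧ c * F u = 9 * B / 8 := ⟨9 * B / 8 / F u, by positivity, by field_simp⟩
  have c1 : c ≤ 9 / 4 * (K * B) := by
    have : c * (2 * K * F u) = 9 / 4 * (K * B) := by linear_combination (2 * K) * hc'
    linarith [mul_le_mul_of_nonneg_left Fu1 c0.le]
  have c2 : c * ρ ≤ B / 64 := by
    have : 9 / 4 * (K * B) * ρ = B / 64 := by linear_combination (9 / 4 * B) * hρ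
    linarith [mul_le_mul_of_nonneg_right c1 ρ0.le]
  rw [hB'] at c1
  have q1 : Q y ≤ δ / 270 := by
    refine le_of_mul_le_mul_left ?_ Λ0
    have : K * (2 * B * Λ) = Λ * (δ / 270) := by linear_combination (2 * Λ) * hB'
    linarith [mul_le_mul ΓK aΛ a0.le K0.le]
  have q2 : c * Q u ≤ c := mul_le_of_le_one_right c0.le ((le1 Q1 u).trans u1)
  have q0 : 0 < Q y + c * Q u := by positivity
  obtain ⟨w, τ, Q', a', m', w1, w2, w3, τ0, τ1, R1', R2, R3, R4, R5, R6, R7, R8, R9, R10⟩ :=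
    cut δ0 orc hB.1 hB.2.1 uH yH Q1 Q2 Q3 a0 (by linarith) hm Q4 c q0 hS ζ0
  have τ3 : τ ≤ 1 / 6 := le_of_mul_le_mul_right (by linarith) δ0
  have τ2 : τ * δ ≤ 36 := by linarith
  have Fw := abs_le.1 (sm τ0 τ2 (w3 F (mem_insert _ _)))
  have Fψ : 17 * B / 16 ≤ F (y + c • u - τ • w) := by rw [vψ]; linarith [Fw.2]
  have Tq : ∀ q ∈ T, |c * q.1 u| ≤ B / 64 := fun q hq => by
    rw [abs_mul, abs_of_pos c0]; exact (mul_le_mul_of_nonneg_left (hT q hq).2.2.1 c0.le).trans c2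
  refine ⟨y + c • u - τ • w, sub_mem (add_mem yH (smul_mem _ _ uH)) (smul_mem _ _ w1),
    nψ c0.le (by linarith) τ0 τ2 w2, Fψ, fun q hq => ?_, fun F' hF' => ?_⟩
  · obtain ⟨b1, -, -, b4⟩ := hT q hq
    have h1 := abs_le.1 (sm τ0 τ2 (w3 q.1 (mem_insert_of_mem _ ⟨q, hq, rfl⟩)))
    have h2 := abs_le.1 b4
    have h3 := abs_le.1 (Tq q hq)
    rw [vψ, abs_le]; constructor <;> linarith [h1.1, h1.2, h2.1, h2.2, h3.1, h3.2]
  obtain ⟨β, β0, β1, hβ⟩ : ∃ β : ℝ, 0 < β ∧ β ≤ 1 ∧ β * Λ * c = (1 - β) * σ :=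
    ⟨σ / (σ + c * Λ), by positivity, by rw [div_le_one (by positivity)]; linarith [mul_pos c0 Λ0],
      by field_simp; ring⟩
  have cmb : ∀ P : StrongDual ℝ X, β * Λ * (P y + c * P u) = (1 - β) * (σ * P u) + β * (Λ * P y) := fun P => by
    linear_combination (P u) * hβ
  have qm : β * Λ * (Q y + c * Q u) ≤ m := by
    rw [cmb]; linarith [mul_le_mul_of_nonneg_left mu (sub_nonneg.2 β1), mul_le_mul_of_nonneg_left my β0.le]
  have vy : ∀ P : StrongDual ℝ X, P ((3 / 4 : ℝ) • (y - c • u + τ • w)) = 3 / 4 * (P y - c * P u + τ * P w) :=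
    fun P => by simp; ring
  rw [vψ] at R3
  refine ⟨Q', a', m', w, β * Λ * τ, (3 / 4 : ℝ) • (y - c • u + τ • w), 2 / 3 * Λ, z, R1',
    ann_sup R2 (by rw [vψ, R3]), R6, by linarith, R9, R10, w1,
    smul_mem _ _ (add_mem (sub_mem yH (smul_mem _ _ uH)) (smul_mem _ _ w1)), w2, ?_, by positivity,
    by positivity, ?_, ?_, σn (by positivity) τ1 qm R7, z0, ?_, by linarith, fun P p1 p2 => ?_,
    fun P p1 p2 => ?_, ?_⟩
  · have h1 := norm_add_le (y - c • u) (τ • w)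
    have h2 := norm_sub_le y (c • u)
    rw [norm_smul, Real.norm_eq_abs, abs_of_pos c0] at h2
    rw [norm_smul, Real.norm_eq_abs, abs_of_pos τ0] at h1
    rw [norm_smul, Real.norm_eq_abs, abs_of_pos (by norm_num)]
    linarith [mul_le_mul_of_nonneg_left u1 c0.le, mul_le_mul_of_nonneg_left w2 τ0.le]
  · have : τ * Q' w = 9 / 10 * (Q y + c * Q u) := by rw [R4, R5] at R3; linarith
    rw [mul_assoc, this]; linarith
  · have : τ * Q' w = Q' y + c * Q' u := by linarith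
    rw [vy, this, R5]; linarith
  · have := pow_le_pow_left₀ (by positivity) R7 3
    linarith [pow_pos a0 3]
  · have b1 := Ly P p1 fun p hp => p2 p (mem_sup_left hp)
    have b0 := Lu P p1 fun p hp => p2 p (mem_sup_left hp)
    have b2 := p2 _ (mem_sup_right (mem_span_singleton_self _))
    rw [vψ] at b2
    have b3 : τ * P w = P y + c * P u := by linarith
    rw [val] at b0 b1 ⊢
    rw [mul_assoc, b3, cmb]
    linarith [mul_le_mul_of_nonneg_left b0 (sub_nonneg.2 β1), mul_le_mul_of_nonneg_left (b1.trans (add_le_add le_rfl e2)) β0.le]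
  · have b1 := Ly P p1 fun p hp => p2 p (mem_sup_left hp)
    have b2 := p2 _ (mem_sup_right (mem_span_singleton_self _))
    rw [vψ] at b2
    have b3 : τ * P w = P y + c * P u := by linarith
    rw [val] at b1 ⊢
    rw [vy, b3]; linarith
  · rintro q (rfl | hq)
    · refine ⟨Fψ, F1, (w3 F (mem_insert _ _)).trans (min_le_left _ _), ?_⟩
      rw [vy, abs_le]; constructor <;> linarith [Fw.1, Fw.2]
    · refine ⟨(hT q hq).1, (hT q hq).2.1, (w3 q.1 (mem_insert_of_mem _ ⟨q, hq, rfl⟩)).trans (min_le_left _ _), ?_⟩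
      have h1 := abs_le.1 (sm τ0 τ2 (w3 q.1 (mem_insert_of_mem _ ⟨q, hq, rfl⟩)))
      have h2 := abs_le.1 (hT q hq).2.2.2
      have h3 := abs_le.1 (Tq q hq)
      rw [vy, abs_le]; constructor <;> linarith [h1.1, h1.2, h2.1, h2.2, h3.1, h3.2]

end Pool.Agent.H92.WC
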