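import Mathlib

set_option autoImplicit false

/-! Renormalisation and a zero-one law for unions of random finite sets in `ℤ^d`. -/

namespace Pool.Agent.H92.WD

open MeasureTheory ProbabilityTheory Filter Topology
open scoped ENNReal

abbrev P (d : ℕ) := Fin d → ℤ

variable {d : ℕ}

def nm (p : P d) : ℕ := Finset.univ.sup fun i => (p i).natAbs

lemma nm_le {p : P d} {r : ℕ} : nm p ≤ r ↔ ∀ i, (p i).natAbs ≤ r := by simp [nm]

lemma le_nm (p : P d) (i : Fin d) : (p i).natAbs ≤ nm p := nm_le.1 le_rfl i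

@[simp] lemma nm_zero : nm (0 : P d) = 0 := by simp [nm]

def adj (p q : P d) : Prop := ∑ i, |p i - q i| = 1

lemma adj.symm {p q : P d} (h : adj p q) : adj q p := by
  simpa only [adj, abs_sub_comm] using h

def Path (S : Set (P d)) : P d → P d → Prop := Relation.ReflTransGen fun p q => adj p q ∧ q ∈ S

def Cross (S : Set (P d)) (c : P d) (R : ℕ) : Prop :=
  ∃ a b, a ∈ S ∧ nm (a - c) ≤ R ∧ nm (b - c) = 3 * R ∧ Path (S ∩ {y | nm (y - c) ≤ 3 * R}) a b

lemma tri (a b c : P d) : nm (a - c) ≤ nm (a - b) + nm (b - c) := nm_le.2 fun i => by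
  have := le_nm (a - b) i
  have := le_nm (b - c) i
  simp only [Pi.sub_apply] at *
  omega

lemma tri' (a b c : P d) : nm (a - c) ≤ nm (b - a) + nm (b - c) := nm_le.2 fun i => by
  have := le_nm (b - a) i
  have := le_nm (b - c) i
  simp only [Pi.sub_apply] at *
  omega

lemma adj_nm {p q : P d} (h : adj p q) : nm (p - q) ≤ 1 := nm_le.2 fun i => by
  have := Finset.single_le_sum (f := fun i => |p i - q i|) (fun _ _ => abs_nonneg _)
    (Finset.mem_univ i)
  rw [h, ← Int.natCast_natAbs] at this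
  exact_mod_cast this

lemma Path.mono {S T : Set (P d)} (h : S ⊆ T) {a b : P d} (hp : Path S a b) : Path T a b := by
  induction hp with
  | refl => exact .refl
  | tail _ k ih => exact .tail ih ⟨k.1, h k.2⟩

lemma Path.mem {S : Set (P d)} {a b : P d} (hp : Path S a b) (ha : a ∈ S) : b ∈ S := by
  induction hp with
  | refl => exact ha
  | tail _ h _ => exact h.2

lemma Path.rev {S : Set (P d)} {a b : P d} (hp : Path S a b) (ha : a ∈ S) : Path S b a := by
  induction hp with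
  | refl => exact .refl
  | tail h k ih => exact .head ⟨k.1.symm, Path.mem h ha⟩ ih

lemma Path.fin {S : Set (P d)} {a b : P d} (hp : Path S a b) :
    ∃ F : Finset (P d), (∀ y ∈ F, y ∈ S) ∧ Path F a b := by
  induction hp with
  | refl => exact ⟨∅, by simp, .refl⟩
  | @tail b c _ k ih =>
    obtain ⟨F, h1, h2⟩ := ih
    exact ⟨insert c F, by simpa [k.2] using h1,
      .tail (h2.mono (by simp)) ⟨k.1, by simp⟩⟩

lemma exit {S : Set (P d)} {a b : P d} (c : P d) (r : ℕ) (hp : Path S a b) (ha : nm (a - c) ≤ r)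
    (hb : r ≤ nm (b - c)) :
    ∃ z, nm (z - c) = r ∧ Path (S ∩ {y | nm (y - c) ≤ r}) a z ∧ Path S z b := by
  induction hp using Relation.ReflTransGen.head_induction_on with
  | refl => exact ⟨b, le_antisymm ha hb, .refl, .refl⟩
  | @head a a' h hp ih =>
    by_cases h1 : nm (a - c) = r
    · exact ⟨a, h1, .refl, .head h hp⟩
    · have h2 : nm (a' - c) ≤ r := by
        have := adj_nm h.1
        have := tri' a' a c
        clear ih
        omega
      obtain ⟨z, z1, z2, z3⟩ := ih h2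
      exact ⟨z, z1, .head ⟨h.1, h.2, h2⟩ z2, z3⟩

lemma cross_of {S : Set (P d)} {a b : P d} (c : P d) (R : ℕ) (hS : a ∈ S) (hp : Path S a b)
    (ha : nm (a - c) ≤ R) (hb : 3 * R ≤ nm (b - c)) : Cross S c R := by
  obtain ⟨z, z1, z2, -⟩ := exit c (3 * R) hp (by omega) hb
  exact ⟨a, z, hS, ha, z1, z2⟩

lemma Cross.loc {S T : Set (P d)} {c : P d} {R : ℕ} (h : Cross S c R)
    (hT : ∀ y ∈ S, nm (y - c) ≤ 3 * R → y ∈ T) : Cross T c R := by
  obtain ⟨a, b, h1, h2, h3, h4⟩ := h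
  exact ⟨a, b, hT a h1 (by omega), h2, h3,
    Path.mono (fun y hy => Set.mem_inter (hT y hy.1 hy.2) hy.2) h4⟩

noncomputable def grid (c : P d) (R n : ℕ) : Finset (P d) :=
  (Fintype.piFinset fun _ => Finset.Icc (-n : ℤ) n).image fun k i => c i + R * k i

lemma card_grid (c : P d) (R n : ℕ) : (grid c R n).card ≤ (2 * n + 1) ^ d := by
  refine Finset.card_image_le.trans ?_
  rw [Fintype.card_piFinset_const, Int.card_Icc]
  have : ((n : ℤ) + 1 - -n).toNat = 2 * n + 1 := by omega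
  rw [this]

lemma cover1 {R n : ℕ} (hR : 0 < R) {t : ℤ} (h : t.natAbs ≤ n * R) :
    ∃ i ∈ Finset.Icc (-n : ℤ) n, (t - R * i).natAbs ≤ R := by
  have hR' : (0 : ℤ) < R := by exact_mod_cast hR
  have h' : |t| ≤ n * R := by
    rw [← Int.natCast_natAbs]
    exact_mod_cast h
  refine ⟨t / R, Finset.mem_Icc.2 ⟨Int.le_ediv_of_mul_le hR' ?_, Int.ediv_le_of_le_mul hR' ?_⟩, ?_⟩
  · linarith [neg_abs_le t]
  · linarith [le_abs_self t]
  · have h1 := Int.emod_nonneg t hR'.ne'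
    have h2 := Int.emod_lt_of_pos t hR'
    rw [Int.emod_def] at h1 h2
    omega

lemma cover {R n : ℕ} (hR : 0 < R) {c y : P d} (h : nm (y - c) ≤ n * R) :
    ∃ c' ∈ grid c R n, nm (y - c') ≤ R := by
  choose k hk hk' using fun i => cover1 hR (nm_le.1 h i)
  refine ⟨_, Finset.mem_image.2 ⟨k, Fintype.mem_piFinset.2 hk, rfl⟩, nm_le.2 fun i => ?_⟩
  simpa only [Pi.sub_apply, sub_sub] using hk' i

lemma split {S : Set (P d)} {c : P d} {R : ℕ} (hR : 0 < R) (h : Cross S c (10 * R)) :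
    ∃ c₁ ∈ grid c R 10, ∃ c₂ ∈ grid c R 21, 9 * R ≤ nm (c₂ - c₁) ∧ Cross S c₁ R ∧ Cross S c₂ R := by
  obtain ⟨a, b, h1, h2, h3, h4⟩ := h
  have h5 : Path S a b := h4.mono Set.inter_subset_left
  obtain ⟨z, z1, z2, z3⟩ := exit c (21 * R) h5 (by omega) (by omega)
  obtain ⟨c₁, k1, k2⟩ := cover hR h2
  obtain ⟨c₂, k3, k4⟩ := cover hR z1.le
  refine ⟨c₁, k1, c₂, k3, ?_, cross_of _ _ h1 h5 k2 ?_,
    cross_of _ _ ((z2.mono Set.inter_subset_left).mem h1) z3 k4 ?_⟩
  · have := tri z c₂ c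
    have := tri c₂ c₁ c
    have := tri' c₁ a c
    omega
  · have := tri b c₁ c
    have := tri' c₁ a c
    omega
  · have := tri b c₂ c
    have := tri' c₂ z c
    omega

noncomputable def box (c : P d) (r : ℕ) : Finset (P d) :=
  Fintype.piFinset fun i => Finset.Icc (c i - r) (c i + r)

lemma mem_box {c y : P d} {r : ℕ} : y ∈ box c r ↔ nm (y - c) ≤ r := by
  simp only [box, nm_le, Fintype.mem_piFinset, Finset.mem_Icc, Pi.sub_apply]
  exact forall_congr' fun i => by omega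

lemma card_box (c : P d) (r : ℕ) : (box c r).card = (2 * r + 1) ^ d := by
  rw [box, Fintype.card_piFinset,
    Finset.prod_congr rfl fun i _ => show _ = 2 * r + 1 by rw [Int.card_Icc]; omega]
  simp

/-- `S` contains an infinite cluster -/
def Perc (S : Set (P d)) : Prop := ∃ a ∈ S, ∀ r, ∃ b, r ≤ nm b ∧ Path S a b

lemma perc_iff {S : Set (P d)} : Perc S ↔ ∃ a ∈ S, {b | Path S a b}.Infinite := by
  refine exists_congr fun a => and_congr_right fun _ => ⟨fun h hf => ?_, fun h r => ?_⟩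
  · obtain ⟨b, h1, h2⟩ := h (hf.toFinset.sup nm + 1)
    have := Finset.le_sup (f := nm) (hf.mem_toFinset.2 h2)
    omega
  · obtain ⟨b, h1, h2⟩ := h.exists_notMem_finset (box 0 r)
    rw [mem_box, sub_zero] at h2
    exact ⟨b, by omega, h1⟩

lemma Perc.mono {S T : Set (P d)} (h : Perc S) (hT : S ⊆ T) : Perc T := by
  obtain ⟨a, h1, h2⟩ := h
  exact ⟨a, hT h1, fun r => (h2 r).imp fun b hb => ⟨hb.1, hb.2.mono hT⟩⟩

lemma Perc.remove {S T F : Set (P d)} (h : Perc S) (hF : F.Finite) (hT : S ⊆ T ∪ F) : Perc T := by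
  rw [perc_iff] at h ⊢
  obtain ⟨a, h1, h2⟩ := h
  by_contra hc
  push Not at hc
  have hZ : (({a} ∪ ⋃ f ∈ F, (box f 1 : Set (P d))) ∩ T).Finite :=
    ((Set.finite_singleton a).union (hF.biUnion fun _ _ => Finset.finite_toSet _)).inter_of_left _
  refine h2 ((hF.union (hZ.biUnion fun z hz => hc z hz.2)).subset fun b hb => ?_)
  induction hb with
  | refl => exact (hT h1).elim (fun k => Or.inr (Set.mem_biUnion ⟨Or.inl rfl, k⟩ .refl)) Or.inl
  | @tail b c _ k ih =>
    rcases hT k.2 with k' | k'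
    · rcases ih with ih | ih
      · exact Or.inr (Set.mem_biUnion
          ⟨Or.inr (Set.mem_biUnion ih (mem_box.2 (adj_nm k.1.symm))), k'⟩ .refl)
      · obtain ⟨z, z1, z2⟩ := Set.mem_iUnion₂.1 ih
        exact Or.inr (Set.mem_biUnion z1 (.tail z2 ⟨k.1, k'⟩))
    · exact Or.inl k'

section
variable {Ω : Type} (m : MeasurableSpace Ω) (S : Ω → Set (P d))
  (h : ∀ y, MeasurableSet[m] {ω | y ∈ S ω})
include h

lemma meas_path (a b : P d) : MeasurableSet[m] {ω | Path (S ω) a b} := by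
  have : {ω | Path (S ω) a b} =
      ⋃ F : Finset (P d), ⋃ _ : Path F a b, ⋂ y ∈ F, {ω | y ∈ S ω} := by
    ext ω
    simp only [Set.mem_ofPred_eq, Set.mem_iUnion, Set.mem_iInter]
    exact ⟨fun hc => hc.fin.imp fun F hF => ⟨hF.2, hF.1⟩, fun ⟨F, h1, h2⟩ => h1.mono h2⟩
  rw [this]
  exact .iUnion fun F => .iUnion fun _ => Finset.measurableSet_biInter _ fun y _ => h y

lemma meas_cross (c : P d) (R : ℕ) : MeasurableSet[m] {ω | Cross (S ω) c R} := by
  simp only [Cross, Set.ofPred_exists, Set.ofPred_and]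
  exact .iUnion fun a => .iUnion fun b => (h a).inter ((MeasurableSet.const _).inter
    ((MeasurableSet.const _).inter
      (meas_path m _ (fun y => (h y).inter (MeasurableSet.const _)) a b)))

lemma meas_perc : MeasurableSet[m] {ω | Perc (S ω)} := by
  simp only [Perc, Set.ofPred_exists, Set.ofPred_and, Set.ofPred_forall]
  exact .iUnion fun a => (h a).inter (.iInter fun r => .iUnion fun b =>
    (MeasurableSet.const _).inter (meas_path m S h a b))

end

/-- random finite sets attached to the sites, independent for disjoint sets of sites -/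
structure Model (d : ℕ) {Ω : Type} [mΩ : MeasurableSpace Ω] (μ : Measure Ω) where
  G : Set (P d) → MeasurableSpace Ω
  le : ∀ T, G T ≤ mΩ
  mono : Monotone G
  ind : ∀ T T', Disjoint T T' → Indep (G T) (G T') μ
  O : P d → Finset (P d) → Set Ω
  meas : ∀ x A, MeasurableSet[G {x}] (O x A)

variable {Ω : Type} [mΩ : MeasurableSpace Ω] {μ : Measure Ω} (M : Model d μ)

namespace Model

def occ (I : Set (P d × Finset (P d))) (ω : Ω) : Set (P d) :=
  {y | ∃ i ∈ I, ω ∈ M.O i.1 i.2 ∧ y - i.1 ∈ i.2}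

lemma meas_occ {I : Set (P d × Finset (P d))} {T : Set (P d)}
    (h : ∀ i ∈ I, i.1 ∈ T) (y : P d) : MeasurableSet[M.G T] {ω | y ∈ M.occ I ω} := by
  have : {ω | y ∈ M.occ I ω} = ⋃ i, ⋃ _ : i ∈ I, ⋃ _ : y - i.1 ∈ i.2, M.O i.1 i.2 := by
    ext ω
    simp only [occ, Set.mem_ofPred_eq, Set.mem_iUnion]
    exact ⟨fun ⟨i, a, b, c⟩ => ⟨i, a, c, b⟩, fun ⟨i, a, c, b⟩ => ⟨i, a, b, c⟩⟩
  rw [this]
  exact .iUnion fun i => .iUnion fun hi => .iUnion fun _ =>
    M.mono (Set.singleton_subset_iff.2 (h i hi)) _ (M.meas _ _)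

def Big (c : P d) (R : ℕ) : Set Ω :=
  {ω | ∃ i : P d × Finset (P d), R ≤ i.2.sup nm + 1 ∧
    (∃ y, y - i.1 ∈ i.2 ∧ nm (y - c) ≤ 30 * R) ∧ ω ∈ M.O i.1 i.2}

variable [IsProbabilityMeasure μ]

lemma recur {R : ℕ} (hR : 0 < R) {p : ℝ}
    (hp : ∀ c, μ.real {ω | Cross (M.occ Set.univ ω) c R} ≤ p) (c : P d) :
    μ.real {ω | Cross (M.occ Set.univ ω) c (10 * R)} ≤ μ.real (M.Big c R) + 903 ^ d * p ^ 2 := by
  classical
  have p0 : 0 ≤ p := measureReal_nonneg.trans (hp 0)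
  set T : P d → Set (P d × Finset (P d)) := fun c => {i | nm (i.1 - c) ≤ 4 * R} with hT
  set X : P d → Set Ω := fun c => {ω | Cross (M.occ (T c) ω) c R} with hX
  obtain ⟨Q, hQ⟩ : ∃ Q : Finset (P d × P d),
    Q = (grid c R 10 ×ˢ grid c R 21).filter fun z => 9 * R ≤ nm (z.2 - z.1) := ⟨_, rfl⟩
  have h1 : {ω | Cross (M.occ Set.univ ω) c (10 * R)} ⊆ M.Big c R ∪ ⋃ z ∈ Q, X z.1 ∩ X z.2 := by
    intro ω hω
    by_cases hb : ω ∈ M.Big c R
    · exact Or.inl hb
    right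
    have h2 : Cross (M.occ {i | i.2.sup nm + 1 < R} ω) c (10 * R) := Cross.loc hω
      fun y ⟨i, _, a, b⟩ hy => ⟨i, not_le.1 fun h => hb ⟨i, h, ⟨y, b, by omega⟩, a⟩, a, b⟩
    obtain ⟨c₁, k1, c₂, k2, k3, k4, k5⟩ := split hR h2
    simp only [Set.mem_iUnion]
    have k6 : (c₁, c₂) ∈ Q := by
      rw [hQ, Finset.mem_filter, Finset.mem_product]
      exact ⟨⟨k1, k2⟩, k3⟩
    have k7 : ∀ c', Cross (M.occ {i | i.2.sup nm + 1 < R} ω) c' R → ω ∈ X c' := fun c' k =>
      k.loc fun y ⟨i, a, b, e⟩ hy => ⟨i, by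
        have := Finset.le_sup (f := nm) e
        have := tri' i.1 y c'
        simp only [hT, Set.mem_ofPred_eq] at *
        omega, b, e⟩
    exact ⟨(c₁, c₂), k6, k7 _ k4, k7 _ k5⟩
  have h2 : ∀ c, μ.real (X c) ≤ p := by
    intro c
    refine le_trans (measureReal_mono fun ω hω => ?_) (hp c)
    exact Cross.loc hω fun y ⟨i, _, b⟩ _ => ⟨i, trivial, b⟩
  have h3 : ∀ z ∈ Q, μ.real (X z.1 ∩ X z.2) ≤ p ^ 2 := by
    intro z hz
    have hd : Disjoint {x | nm (x - z.1) ≤ 4 * R} {x | nm (x - z.2) ≤ 4 * R} := by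
      refine Set.disjoint_left.2 fun x a b => ?_
      rw [hQ, Finset.mem_filter] at hz
      have := hz.2
      have := tri' z.2 x z.1
      simp only [Set.mem_ofPred_eq] at a b
      omega
    have hm : ∀ c, MeasurableSet[M.G {x | nm (x - c) ≤ 4 * R}] (X c) := fun c =>
      meas_cross _ _ (M.meas_occ fun i hi => hi) c R
    have := (Indep_iff _ _ _).1 (M.ind _ _ hd) _ _ (hm _) (hm _)
    rw [measureReal_def, this, ENNReal.toReal_mul, sq]
    exact mul_le_mul (h2 _) (h2 _) measureReal_nonneg p0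
  refine (measureReal_mono h1).trans ((measureReal_union_le _ _).trans (add_le_add_right ?_ _))
  refine (measureReal_biUnion_finset_le _ _).trans ((Finset.sum_le_card_nsmul _ _ _ h3).trans ?_)
  rw [nsmul_eq_mul]
  refine mul_le_mul_of_nonneg_right ?_ (sq_nonneg _)
  have : Q.card ≤ 903 ^ d := by
    rw [hQ]
    refine (Finset.card_filter_le _ _).trans ?_
    rw [Finset.card_product]
    exact (Nat.mul_le_mul (card_grid c R 10) (card_grid c R 21)).trans (by rw [← mul_pow]; norm_num)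
  exact_mod_cast this

lemma zero_one (hf : ∀ x, ∑' A, μ (M.O x A) ≠ ∞) (h : μ {ω | Perc (M.occ Set.univ ω)} ≠ 1) :
    μ {ω | Perc (M.occ Set.univ ω)} = 0 := by
  set E : ℕ → Set Ω := fun n => {ω | Perc (M.occ {i | n < nm i.1} ω)} with hE
  have hEa : Antitone E := fun a b hab ω hω => Perc.mono hω fun y ⟨i, k1, k2⟩ =>
    ⟨i, lt_of_le_of_lt hab k1, k2⟩
  have h1 : Indep (⨆ n : ℕ, M.G {x | nm x ≤ n}) (⨅ n : ℕ, M.G {x | n < nm x}) μ :=
    indep_iSup_of_monotone (fun n => indep_of_indep_of_le_right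
      (M.ind _ {x | n < nm x} (Set.disjoint_left.2 fun x a b => not_lt.2 (show nm x ≤ n from a) b)) (iInf_le _ n))
      (fun _ => M.le _) ((iInf_le _ 0).trans (M.le _))
      fun a b hab => M.mono fun x hx => le_trans hx hab
  have h2 : MeasurableSet[⨆ n : ℕ, M.G {x | nm x ≤ n}] (⋂ n, E n) :=
    .iInter fun n => meas_perc _ _ fun y => by
      have : {ω | y ∈ M.occ {i | n < nm i.1} ω} =
          ⋃ k, {ω | y ∈ M.occ {i | n < nm i.1 ∧ nm i.1 ≤ k} ω} := by
        ext ω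
        simp only [Set.mem_iUnion, occ, Set.mem_ofPred_eq]
        exact ⟨fun ⟨i, a, b⟩ => ⟨_, i, ⟨a, le_rfl⟩, b⟩, fun ⟨_, i, a, b⟩ => ⟨i, a.1, b⟩⟩
      rw [this]
      exact .iUnion fun k => le_iSup (fun n : ℕ => M.G {x | nm x ≤ n}) k _
        (M.meas_occ (fun i hi => hi.2) y)
  have h3 : MeasurableSet[⨅ n : ℕ, M.G {x | n < nm x}] (⋂ n, E n) := by
    rw [MeasurableSpace.measurableSet_iInf]
    intro n
    have : ⋂ k, E k = ⋂ k, E (n + k) := Set.Subset.antisymm
      (Set.subset_iInter fun k => Set.iInter_subset _ _)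
      (Set.iInter_mono fun k => hEa (Nat.le_add_left _ _))
    rw [this]
    exact .iInter fun k => meas_perc _ _ (M.meas_occ fun i hi =>
      lt_of_le_of_lt (Nat.le_add_right _ _) hi)
  have h4 := (Indep_iff _ _ _).1 h1 _ _ h2 h3
  have h5 : μ {ω | Perc (M.occ Set.univ ω)} = μ (⋂ n, E n) := by
    refine le_antisymm (measure_mono_ae ?_) (measure_mono fun ω hω =>
      Perc.mono (Set.mem_iInter.1 hω 0) fun y ⟨i, _, k⟩ => ⟨i, trivial, k⟩)
    filter_upwards [ae_all_iff.2 fun x => ae_finite_setOfPred_mem (hf x)] with ω hω hp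
    refine Set.mem_iInter.2 fun n => Perc.remove hp
      (F := ⋃ x ∈ box (0 : P d) n, ⋃ A ∈ {A | ω ∈ M.O x A}, (fun a => a + x) '' A)
      ((Finset.finite_toSet _).biUnion fun x _ => (hω x).biUnion fun A _ =>
        (Finset.finite_toSet _).image _) fun y ⟨i, _, k1, k2⟩ => ?_
    by_cases c : n < nm i.1
    · exact Or.inl ⟨i, c, k1, k2⟩
    · exact Or.inr (Set.mem_biUnion (mem_box.2 (by rw [sub_zero]; omega))
        (Set.mem_biUnion k1 ⟨_, k2, sub_add_cancel _ _⟩))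
  rw [Set.inter_self, ← h5] at h4
  by_contra h0
  nth_rw 1 [← one_mul (μ _)] at h4
  exact h ((ENNReal.mul_left_inj h0 (measure_ne_top _ _)).1 h4).symm

theorem no_perc (hf : ∀ x, ∑' A, μ (M.O x A) ≠ ∞)
    (h1 : ∀ R, 0 < R → ∀ c, μ.real (M.Big c R) ≤ 1 / (4 * 903 ^ d)) :
    μ {ω | Perc (M.occ Set.univ ω)} = 0 := by
  have K1 : (1 : ℝ) ≤ 903 ^ d := one_le_pow₀ (by norm_num)
  have a1 : ∀ k c, μ.real {ω | Cross (M.occ Set.univ ω) c (10 ^ k)} ≤ 1 / (2 * 903 ^ d) := by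
    intro k
    induction k with
    | zero =>
      intro c
      refine le_trans ((measureReal_mono ?_).trans (h1 1 one_pos c)) (by gcongr; norm_num)
      rintro ω ⟨a, b, ⟨i, -, k1, k2⟩, k3, -⟩
      exact ⟨i, by omega, ⟨a, k2, by omega⟩, k1⟩
    | succ k ih =>
      intro c
      have := M.recur (by positivity) ih c
      have h2 : (903 : ℝ) ^ d * (1 / (2 * 903 ^ d)) ^ 2 + 1 / (4 * 903 ^ d) = 1 / (2 * 903 ^ d) := by
        field_simp
        norm_num
      rw [pow_succ']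
      linarith [h1 (10 ^ k) (by positivity) c]
  refine M.zero_one hf (ne_of_lt ?_)
  set E : ℕ → Set Ω := fun k => {ω | ∃ a ∈ M.occ Set.univ ω, nm a ≤ 10 ^ k ∧
    ∀ r, ∃ b, r ≤ nm b ∧ Path (M.occ Set.univ ω) a b} with hE
  have a2 : Monotone E := fun a b hab ω ⟨x, k1, k2, k3⟩ =>
    ⟨x, k1, k2.trans (Nat.pow_le_pow_right (by norm_num) hab), k3⟩
  have a3 : {ω | Perc (M.occ Set.univ ω)} ⊆ ⋃ k, E k := fun ω ⟨a, k1, k2⟩ =>
    Set.mem_iUnion.2 ⟨nm a, a, k1, (Nat.lt_pow_self (by norm_num)).le, k2⟩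
  refine (measure_mono a3).trans_lt ?_
  rw [a2.measure_iUnion]
  refine lt_of_le_of_lt (iSup_le fun k => ?_) (show ENNReal.ofReal (1 / 2) < 1 by norm_num)
  rw [ENNReal.le_ofReal_iff_toReal_le (measure_ne_top _ _) (by norm_num)]
  refine le_trans ((measureReal_mono ?_).trans (a1 k 0)) (by gcongr; linarith)
  rintro ω ⟨a, k1, k2, k3⟩
  obtain ⟨b, k4, k5⟩ := k3 (3 * 10 ^ k)
  exact cross_of 0 _ k1 k5 (by simpa using k2) (by simpa using k4)

end Model

end Pool.Agent.H92.WD
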