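import Pool.Agent.H92.WD1

set_option autoImplicit false

/-! Simple random walk on `ℤ^d`: averages over step sequences, the Markov operator, the maximal
displacement and hitting estimates. -/

namespace Pool.Agent.H92.WD

open Finset
open scoped Pointwise

variable {d : ℕ}

def dir (e : Fin d × Bool) : P d := Pi.single e.1 (if e.2 then 1 else -1)

def trace {n : ℕ} (s : Fin n → Fin d × Bool) : Finset (P d) :=
  (range (n + 1)).image fun t : ℕ => ∑ i ∈ univ.filter (fun i : Fin n => (i : ℕ) < t), dir (s i)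

def sh (e : Fin d × Bool) (H : Finset (P d)) : Finset (P d) := insert 0 (H.image (dir e + ·))

lemma trace_zero (s : Fin 0 → Fin d × Bool) : trace s = {0} := by simp [trace]

lemma trace_cons {n : ℕ} (e : Fin d × Bool) (s : Fin n → Fin d × Bool) :
    trace (Fin.cons e s : Fin (n + 1) → Fin d × Bool) = sh e (trace s) := by
  rw [trace, range_add_one', image_insert, sh, trace, image_image, map_eq_image, image_image]
  congr 1
  · simp
  refine image_congr fun t _ => ?_
  simp only [sum_filter, Function.comp]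
  simp [Fin.sum_univ_succ]

lemma trace_ind (Q : ℕ → Finset (P d) → Prop) (h0 : Q 0 {0})
    (h1 : ∀ n e H, Q n H → Q (n + 1) (sh e H)) :
    ∀ {n : ℕ} (s : Fin n → Fin d × Bool), Q n (trace s) := by
  intro n
  induction n with
  | zero => intro s; rwa [trace_zero]
  | succ n ih =>
    intro s
    rw [← Fin.cons_self_tail s, trace_cons]
    exact h1 _ _ _ (ih _)

lemma adj_dir (x : P d) (e : Fin d × Bool) : adj x (x + dir e) := by
  rw [adj, sum_eq_single e.1]
  · simp only [dir, Pi.add_apply, Pi.single_eq_same]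
    split_ifs <;> simp
  · intro i _ hi
    simp [dir, hi]
  · simp

lemma zero_mem {n : ℕ} (s : Fin n → Fin d × Bool) : 0 ∈ trace s :=
  trace_ind (fun _ H => 0 ∈ H) (by simp) (fun _ _ _ _ => mem_insert_self _ _) s

lemma card_trace {n : ℕ} (s : Fin n → Fin d × Bool) : (trace s).card ≤ n + 1 :=
  card_image_le.trans (by simp)

lemma Path.shift {S : Set (P d)} {a b : P d} (h : Path S a b) (x : P d) :
    Path ((x + ·) '' S) (x + a) (x + b) := by
  induction h with
  | refl => exact .refl
  | tail _ k ih => exact .tail ih ⟨by simpa [adj] using k.1, _, k.2, rfl⟩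

def Conn (H : Finset (P d)) : Prop := 0 ∈ H ∧ ∀ y ∈ H, Path H 0 y

lemma conn_trace {n : ℕ} (s : Fin n → Fin d × Bool) : Conn (trace s) := by
  refine trace_ind (fun _ H => Conn H) ⟨by simp, by simp [Path, Relation.ReflTransGen.refl]⟩
    (fun _ e H h => ⟨mem_insert_self _ _, fun y hy => ?_⟩) s
  rcases mem_insert.1 hy with rfl | hy
  · exact .refl
  · obtain ⟨z, hz, rfl⟩ := mem_image.1 hy
    refine .head (b := dir e + 0) ⟨by simpa using adj_dir 0 e, ?_⟩
      (((h.2 z hz).shift _).mono (by simp [sh]))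
    simp only [sh, coe_insert, coe_image]
    exact Or.inr ⟨0, h.1, rfl⟩

lemma sup_trace {n : ℕ} (s : Fin n → Fin d × Bool) : (trace s).sup nm ≤ n := by
  refine trace_ind (fun n H => H.sup nm ≤ n) (by simp) (fun n e H h => ?_) s
  rw [sh, sup_insert, sup_image]
  refine sup_le (by simp) (Finset.sup_le fun y hy => ?_)
  have h1 := tri' (dir e + y) y 0
  have h2 := adj_nm (adj_dir y e)
  have h3 := le_sup (f := nm) hy
  simp only [sub_zero, add_comm y, Function.comp] at *
  omega

noncomputable def avg (n : ℕ) (F : Finset (P d) → ℝ) : ℝ :=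
  (∑ s : Fin n → Fin d × Bool, F (trace s)) / (2 * d) ^ n

lemma avg_zero (F : Finset (P d) → ℝ) : avg 0 F = F {0} := by simp [avg, trace_zero]

lemma avg_succ (n : ℕ) (F : Finset (P d) → ℝ) :
    avg (n + 1) F = (∑ e, avg n fun H => F (sh e H)) / (2 * d) := by
  unfold avg
  rw [← (Fin.consEquiv fun _ => Fin d × Bool).sum_comp, Fintype.sum_prod_type, ← sum_div, div_div,
    pow_succ]
  simp only [Fin.consEquiv_apply, ← trace_cons]
  rfl

lemma avg_mono {n : ℕ} {F G : Finset (P d) → ℝ}
    (h : ∀ s : Fin n → Fin d × Bool, F (trace s) ≤ G (trace s)) : avg n F ≤ avg n G :=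
  div_le_div_of_nonneg_right (sum_le_sum fun s _ => h s) (by positivity)

lemma avg_nonneg {n : ℕ} {F : Finset (P d) → ℝ} (h : ∀ H, 0 ≤ F H) : 0 ≤ avg n F :=
  div_nonneg (sum_nonneg fun _ _ => h _) (by positivity)

lemma avg_mul (n : ℕ) (c : ℝ) (F : Finset (P d) → ℝ) :
    avg n (fun H => c * F H) = c * avg n F := by
  simp only [avg, ← mul_sum, mul_div_assoc]

lemma avg_add (n : ℕ) (F G : Finset (P d) → ℝ) :
    avg n (fun H => F H + G H) = avg n F + avg n G := by
  simp only [avg, sum_add_distrib, add_div]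

lemma avg_sub (n : ℕ) (F G : Finset (P d) → ℝ) :
    avg n (fun H => F H - G H) = avg n F - avg n G := by
  simp only [avg, sum_sub_distrib, sub_div]

lemma avg_sum {κ : Type} (n : ℕ) (A : Finset κ) (F : κ → Finset (P d) → ℝ) :
    avg n (fun H => ∑ k ∈ A, F k H) = ∑ k ∈ A, avg n (F k) := by
  simp only [avg, ← sum_div]
  rw [sum_comm]

noncomputable def T (f : P d → ℝ) (x : P d) : ℝ := (∑ e, f (x + dir e)) / (2 * d)

lemma T_mono {f g : P d → ℝ} (h : ∀ y, f y ≤ g y) (x : P d) : T f x ≤ T g x :=
  div_le_div_of_nonneg_right (sum_le_sum fun _ _ => h _) (by positivity)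

lemma T_mul (c : ℝ) (f : P d → ℝ) (x : P d) : T (fun y => c * f y) x = c * T f x := by
  simp only [T, ← mul_sum, mul_div_assoc]

lemma T_sub (f g : P d → ℝ) (x : P d) : T (fun y => f y - g y) x = T f x - T g x := by
  simp only [T, sum_sub_distrib, sub_div]

lemma T_sum {κ : Type} (A : Finset κ) (f : κ → P d → ℝ) (x : P d) :
    T (fun y => ∑ k ∈ A, f k y) x = ∑ k ∈ A, T (f k) x := by
  simp only [T, ← sum_div]
  rw [sum_comm]

lemma It_succ (k : ℕ) (f : P d → ℝ) : T^[k + 1] f = T (T^[k] f) := Function.iterate_succ_apply' _ _ _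

lemma It_mono {f g : P d → ℝ} (h : ∀ y, f y ≤ g y) (k : ℕ) : ∀ x, T^[k] f x ≤ T^[k] g x := by
  induction k with
  | zero => exact h
  | succ k ih => simpa only [It_succ] using T_mono ih

lemma It_nonneg {f : P d → ℝ} (h : ∀ y, 0 ≤ f y) (k : ℕ) : ∀ x, 0 ≤ T^[k] f x := by
  induction k with
  | zero => exact h
  | succ k ih =>
    rw [It_succ]
    exact fun x => div_nonneg (sum_nonneg fun _ _ => ih _) (by positivity)

lemma It_lin {κ : Type} (A : Finset κ) (c : κ → ℝ) (f : κ → P d → ℝ) (k : ℕ) :
    T^[k] (fun y => ∑ i ∈ A, c i * f i y) = fun x => ∑ i ∈ A, c i * T^[k] (f i) x := by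
  induction k with
  | zero => rfl
  | succ k ih =>
    funext x
    simp only [It_succ, ih, T_sum, T_mul]

lemma It_shift (f : P d → ℝ) (z : P d) (k : ℕ) :
    T^[k] (fun y => f (y - z)) = fun x => T^[k] f (x - z) := by
  induction k with
  | zero => rfl
  | succ k ih =>
    funext x
    simp only [It_succ, ih, T, add_sub_right_comm]

lemma It_even {f : P d → ℝ} (h : ∀ y, f (-y) = f y) (k : ℕ) : ∀ x, T^[k] f (-x) = T^[k] f x := by
  induction k with
  | zero => exact h
  | succ k ih =>
    intro x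
    simp only [It_succ, T, Fintype.sum_prod_type, Fintype.sum_bool]
    congr 1
    refine sum_congr rfl fun i _ => ?_
    rw [add_comm, ← ih (x + _), ← ih (x + dir (i, false))]
    simp [dir, Pi.single_neg, add_comm]

noncomputable def Gs (n : ℕ) (f : P d → ℝ) (x : P d) : ℝ := ∑ k ∈ range (n + 1), T^[k] f x

lemma Gs_succ (n : ℕ) (f : P d → ℝ) (x : P d) : Gs (n + 1) f x = f x + T (Gs n f) x := by
  rw [Gs, sum_range_succ', add_comm]
  simp only [It_succ]
  rw [← T_sum]
  rfl

lemma Gs_nonneg {f : P d → ℝ} (h : ∀ y, 0 ≤ f y) (n : ℕ) (x : P d) : 0 ≤ Gs n f x :=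
  sum_nonneg fun _ _ => It_nonneg h _ _

lemma Gs_mono {f : P d → ℝ} (h : ∀ y, 0 ≤ f y) {a b : ℕ} (hab : a ≤ b) (x : P d) :
    Gs a f x ≤ Gs b f x :=
  sum_le_sum_of_subset_of_nonneg (range_mono (by omega)) fun _ _ _ => It_nonneg h _ _

variable [NeZero d]

lemma dpos : (0 : ℝ) < d := Nat.cast_pos.2 (NeZero.pos d)

lemma sum_e (c : ℝ) : (∑ _e : Fin d × Bool, c) / (2 * d) = c := by
  have := dpos (d := d)
  simp
  field_simp

lemma avg_const (n : ℕ) (c : ℝ) : avg (d := d) n (fun _ => c) = c := by
  have := dpos (d := d)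
  simp [avg, mul_comm]
  field_simp

lemma T_const (c : ℝ) (x : P d) : T (fun _ => c) x = c := sum_e c

lemma T_sq (f : P d → ℝ) (x : P d) : T f x ^ 2 ≤ T (fun y => f y ^ 2) x := by
  have := dpos (d := d)
  have h := sq_sum_le_card_mul_sum_sq (s := univ) (f := fun e => f (x + dir e))
  simp only [T]
  rw [div_pow, div_le_div_iff₀ (by positivity) (by positivity)]
  simp only [card_univ, Fintype.card_prod, Fintype.card_fin, Fintype.card_bool] at h
  push_cast at h
  nlinarith

lemma avg_split {g : Finset (P d) → ℝ} (g0 : ∀ H, 0 ≤ g H) (gs : ∀ e H, g H ≤ g (sh e H))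
    (b a : ℕ) : ∀ f : Finset (P d) → ℝ, (∀ H, 0 ≤ f H) → Monotone f →
      avg a f * avg b g ≤ avg (b + a) fun H => f H * g H := by
  induction a with
  | zero =>
    intro f _ fm
    rw [avg_zero, ← avg_mul]
    exact avg_mono fun s => mul_le_mul_of_nonneg_right
      (fm (singleton_subset_iff.2 (zero_mem s))) (g0 _)
  | succ a ih =>
    intro f f0 fm
    rw [← add_assoc, avg_succ, avg_succ, div_mul_eq_mul_div, sum_mul]
    refine div_le_div_of_nonneg_right (sum_le_sum fun e _ => ?_) (by positivity)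
    exact (ih _ (fun _ => f0 _) fun A B h => fm (insert_subset_insert _ (image_subset_image h))).trans
      (avg_mono fun s => mul_le_mul_of_nonneg_left (gs _ _) (f0 _))

lemma mass_le {f : P d → ℝ} {a : ℝ} (h : ∀ F : Finset (P d), ∑ x ∈ F, f x ≤ a) (k : ℕ) :
    ∀ F : Finset (P d), ∑ x ∈ F, T^[k] f x ≤ a := by
  induction k with
  | zero => exact h
  | succ k ih =>
    intro F
    simp only [It_succ, T]
    rw [← sum_div, sum_comm]
    refine le_trans (div_le_div_of_nonneg_right (sum_le_sum fun e _ => ?_) (by positivity))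
      (sum_e (d := d) a).le
    rw [← sum_image (f := T^[k] f) fun a _ b _ h => add_left_injective _ h]
    exact ih _

lemma mass_ge {f : P d → ℝ} (h : ∀ y, 0 ≤ f y) (r k : ℕ) :
    ∑ x ∈ box 0 r, f x ≤ ∑ x ∈ box 0 (r + k), T^[k] f x := by
  induction k with
  | zero => exact le_rfl
  | succ k ih =>
    simp only [It_succ, T]
    rw [← sum_div, sum_comm]
    refine le_trans (ih.trans (sum_e (d := d) _).ge)
      (div_le_div_of_nonneg_right (sum_le_sum fun e _ => ?_) (by positivity))
    rw [← sum_image (f := T^[k] f) fun a _ b _ h => add_left_injective _ h]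
    refine sum_le_sum_of_subset_of_nonneg (fun y hy => mem_image.2 ⟨y - dir e, ?_, by simp⟩)
      fun _ _ _ => It_nonneg h _ _
    have h1 := tri (y - dir e) y 0
    have h2 := adj_nm (adj_dir (y - dir e) e)
    rw [sub_add_cancel] at h2
    rw [mem_box] at hy ⊢
    omega

lemma Gs_mass {f : P d → ℝ} {a : ℝ} (h : ∀ F : Finset (P d), ∑ x ∈ F, f x ≤ a) (n : ℕ)
    (F : Finset (P d)) : ∑ x ∈ F, Gs n f x ≤ (n + 1) * a := by
  simp only [Gs]
  rw [sum_comm]
  exact (sum_le_card_nsmul _ _ a fun k _ => mass_le h k F).trans (by simp)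

/-- expected number of starting points from which an `n`-step walk hits `B` -/
noncomputable def hit (n : ℕ) (B : Finset (P d)) : ℝ := avg n fun H => (B - H).card

noncomputable def hp (n : ℕ) (B : Finset (P d)) (x : P d) : ℝ :=
  avg n fun H => if x ∈ B - H then 1 else 0

noncomputable def ind (B : Finset (P d)) (y : P d) : ℝ := if y ∈ B then 1 else 0

omit [NeZero d] in
lemma ind_nonneg (B : Finset (P d)) (y : P d) : 0 ≤ ind B y := by
  unfold ind; split_ifs <;> norm_num

omit [NeZero d] in
lemma ind_mass (B F : Finset (P d)) : ∑ x ∈ F, ind B x ≤ B.card := by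
  simp only [ind, sum_boole, Nat.cast_le]
  exact card_le_card fun x hx => (mem_filter.1 hx).2

lemma hp_mem (n : ℕ) {B : Finset (P d)} {x : P d} (h : x ∈ B) : hp n B x = 1 := by
  rw [← avg_const (d := d) n 1]
  exact le_antisymm (avg_mono fun s => by split_ifs <;> norm_num) (avg_mono fun s => by
    rw [if_pos (mem_sub.2 ⟨x, h, 0, zero_mem s, sub_zero _⟩)])

omit [NeZero d] in
lemma hp_zero {B : Finset (P d)} {x : P d} (h : x ∉ B) : hp 0 B x = 0 := by
  rw [hp, avg_zero, if_neg]
  simpa [mem_sub] using h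

omit [NeZero d] in
lemma hp_succ (n : ℕ) {B : Finset (P d)} {x : P d} (h : x ∉ B) :
    hp (n + 1) B x = T (hp n B) x := by
  rw [hp, avg_succ, T]
  refine congrArg (· / _) (sum_congr rfl fun e _ => congrArg _ (funext fun H => ?_))
  refine if_congr ?_ rfl rfl
  simp only [mem_sub, sh, mem_insert, mem_image]
  constructor
  · rintro ⟨b, hb, _, rfl | ⟨y, hy, rfl⟩, rfl⟩
    · exact absurd (by simpa using hb) h
    · exact ⟨b, hb, y, hy, by abel⟩
  · rintro ⟨b, hb, y, hy, k⟩
    exact ⟨b, hb, _, Or.inr ⟨y, hy, rfl⟩, by rw [← sub_sub, sub_right_comm, k]; simp⟩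

omit [NeZero d] in
lemma sum_hp_le (n : ℕ) (B F : Finset (P d)) : ∑ x ∈ F, hp n B x ≤ hit n B := by
  simp only [hp]
  rw [← avg_sum]
  exact avg_mono fun s => ind_mass _ F

omit [NeZero d] in
lemma hit_le_sum (n : ℕ) (B : Finset (P d)) : hit n B ≤ ∑ x ∈ B - box 0 n, hp n B x := by
  simp only [hp]
  rw [← avg_sum]
  refine avg_mono fun s => ?_
  rw [sum_boole, Nat.cast_le]
  refine card_le_card fun y hy => mem_filter.2 ⟨sub_subset_sub_left (fun z hz => ?_) hy, hy⟩
  rw [mem_box, sub_zero]
  exact (le_sup (f := nm) hz).trans (sup_trace s)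

lemma hit_upper {B B' : Finset (P d)} {γ : ℝ} {τ : ℕ} (γ0 : 0 ≤ γ)
    (h : ∀ z ∈ B, γ ≤ Gs τ (ind B') z) (n : ℕ) : hit n B * γ ≤ (τ + n + 1) * B'.card := by
  have h1 : ∀ x, hp n B x * γ ≤ Gs (τ + n) (ind B') x := by
    induction n with
    | zero =>
      intro x
      by_cases c : x ∈ B
      · simpa [hp_mem 0 c] using h x c
      · simpa [hp_zero c] using Gs_nonneg (ind_nonneg B') _ _
    | succ n ih =>
      intro x
      by_cases c : x ∈ B
      · rw [hp_mem _ c, one_mul]
        exact (h x c).trans (Gs_mono (ind_nonneg B') (by omega) x)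
      · rw [hp_succ _ c, ← add_assoc, Gs_succ, mul_comm, ← T_mul]
        exact le_add_of_nonneg_of_le (ind_nonneg _ _) (T_mono (fun y => by
          rw [mul_comm]; exact ih y) x)
  refine (mul_le_mul_of_nonneg_right (hit_le_sum n B) γ0).trans ?_
  rw [sum_mul]
  exact (sum_le_sum fun x _ => h1 x).trans ((Gs_mass (ind_mass B') _ _).trans (by simp))

lemma hit_box (c : P d) {r : ℕ} (hr : 0 < r) (n : ℕ) :
    hit n (box c r) * r ^ 2 ≤ 2 * (r ^ 2 + n) * (5 * r) ^ d := by
  have := dpos (d := d)
  have r1 : (1 : ℝ) ≤ r := by exact_mod_cast hr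
  obtain ⟨τ, hτ⟩ : ∃ τ, r ^ 2 = τ + 1 := Nat.exists_eq_add_one_of_ne_zero (by positivity)
  have hτ' : (r : ℝ) ^ 2 = τ + 1 := by exact_mod_cast hτ
  have h1 : ∀ z ∈ box c r, (r : ℝ) ^ 2 / 2 ≤ Gs τ (ind (box c (2 * r))) z := by
    intro z hz
    set q : P d → ℝ := fun y => ∑ i, ((y i - z i : ℤ) : ℝ) ^ 2 with hq
    have h2 : ∀ k : ℕ, T^[k] (fun y => 1 - q y / r ^ 2) = fun y => 1 - (q y + k) / r ^ 2 := by
      intro k
      induction k with
      | zero => simp
      | succ k ih =>
        funext y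
        have h3 : ∑ e, q (y + dir e) = 2 * d * (q y + 1) := by
          simp only [Fintype.sum_prod_type, Fintype.sum_bool, hq, ← sum_add_distrib]
          rw [sum_congr rfl fun i _ => show _ = ∑ j, (2 * ((y j - z j : ℤ) : ℝ) ^ 2 +
            if j = i then 2 else 0) from sum_congr rfl fun j _ => by
              by_cases hj : j = i
              · subst hj
                simp [dir]
                ring
              · simp [dir, hj]
                ring]
          simp [sum_add_distrib, ← mul_sum]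
          ring
        simp only [It_succ, ih, T, sum_sub_distrib, ← sum_div, sum_add_distrib, h3]
        simp
        field_simp
        ring
    have h3 : ∀ y, 1 - q y / r ^ 2 ≤ ind (box c (2 * r)) y := by
      intro y
      unfold ind
      split_ifs with hy
      · exact sub_le_self _ (div_nonneg (sum_nonneg fun _ _ => sq_nonneg _) (by positivity))
      · have h4 := tri y z c
        rw [mem_box] at hy hz
        obtain ⟨i, hi⟩ := not_forall.1 (mt nm_le.2 (show ¬ nm (y - z) ≤ r by omega))
        have h5 := single_le_sum (f := fun i => ((y i - z i : ℤ) : ℝ) ^ 2)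
          (fun _ _ => sq_nonneg _) (mem_univ i)
        have h6 : (r : ℝ) ≤ |((y i - z i : ℤ) : ℝ)| := by
          rw [← Int.cast_abs, ← Nat.cast_natAbs]
          exact_mod_cast (not_le.1 hi).le
        rw [sub_nonpos, one_le_div (by positivity)]
        exact le_trans (by rw [← sq_abs ((y i - z i : ℤ) : ℝ)]; gcongr) h5
    refine le_trans ?_ (sum_le_sum fun k _ => It_mono h3 k z)
    simp only [h2]
    have h4 : ∑ k ∈ range (τ + 1), (k : ℝ) = τ * (τ + 1) / 2 := by
      have := sum_range_id_mul_two (τ + 1)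
      rw [Nat.add_sub_cancel] at this
      have h5 := congrArg (Nat.cast : ℕ → ℝ) this
      push_cast at h5
      linarith
    have h5 : q z = 0 := by simp [hq]
    simp only [h5, zero_add]
    rw [sum_sub_distrib, ← sum_div, h4, hτ']
    simp
    field_simp
    linarith
  have h := hit_upper (by positivity) h1 n
  rw [card_box] at h
  have h2 : (((2 * (2 * r) + 1) ^ d : ℕ) : ℝ) ≤ (5 * r) ^ d := by
    push_cast
    gcongr
    linarith
  have h3 := mul_le_mul_of_nonneg_left h2 (show (0 : ℝ) ≤ τ + n + 1 by positivity)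
  rw [hτ'] at h ⊢
  linarith

lemma doob {θ : ℝ} (θ0 : 0 ≤ θ) (n : ℕ) : ∀ (x : P d) (m : ℝ), 0 ≤ m →
    avg n (fun H => (max m (Real.exp (θ * (H.sup fun y => nm (x + y) : ℕ)))) ^ 2) ≤
      2 * m ^ 2 - 4 * m * Real.exp (θ * nm x) +
        4 * Real.cosh (2 * θ) ^ n * ∑ i, 2 * Real.cosh (2 * θ * x i) := by
  have := dpos (d := d)
  have c1 := Real.one_le_cosh (2 * θ)
  induction n with
  | zero =>
    intro x m m0
    rw [avg_zero, sup_singleton, add_zero, pow_zero, mul_one]
    have h : Real.exp (θ * nm x) ^ 2 ≤ ∑ i, 2 * Real.cosh (2 * θ * x i) := by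
      obtain ⟨j, -, hj⟩ := exists_mem_eq_sup (univ : Finset (Fin d)) univ_nonempty
        fun i => (x i).natAbs
      refine le_trans ?_ (single_le_sum (f := fun i => 2 * Real.cosh (2 * θ * x i))
        (fun i _ => by have := Real.cosh_pos (2 * θ * x i); positivity) (mem_univ j))
      rw [nm, hj, ← Real.cosh_abs, abs_mul, abs_of_nonneg (by positivity : 0 ≤ 2 * θ),
        Real.cosh_eq, ← Real.exp_nat_mul, Nat.cast_natAbs, Int.cast_abs]
      have := Real.exp_pos (-(2 * θ * |(x j : ℝ)|))
      push_cast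
      rw [← mul_assoc]
      linarith
    rcases max_choice m (Real.exp (θ * nm x)) with k | k <;> rw [k] <;>
      nlinarith [sq_nonneg (m - 2 * Real.exp (θ * nm x)), sq_nonneg (m - Real.exp (θ * nm x))]
  | succ n ih =>
    intro x m m0
    rw [avg_succ]
    have hmo : Monotone fun k : ℕ => Real.exp (θ * k) := fun a b h => by
      simp only
      gcongr
    have h1 : ∀ e, avg n (fun H => (max m (Real.exp (θ * ((sh e H).sup
        fun y => nm (x + y) : ℕ)))) ^ 2) ≤ _ := fun e => by
      simp only [sh, sup_insert, sup_image, add_zero, Function.comp_def, ← add_assoc,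
        hmo.map_max, ← max_assoc]
      exact ih (x + dir e) _ (le_max_of_le_left m0)
    refine (div_le_div_of_nonneg_right (sum_le_sum fun e _ => h1 e) (by positivity)).trans ?_
    have h2 : 2 * d * Real.exp (θ * nm x) ≤ ∑ e, Real.exp (θ * nm (x + dir e)) := by
      rw [Fintype.sum_prod_type]
      refine le_trans (by simp; linarith) (card_nsmul_le_sum univ _ (2 * Real.exp (θ * nm x))
        fun i _ => ?_)
      rw [Fintype.sum_bool]
      have h3 : nm x ≤ (nm (x + dir (i, true)) + nm (x + dir (i, false))) / 2 := nm_le.2 fun j => by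
        have a := le_nm (x + dir (i, true)) j
        have b := le_nm (x + dir (i, false)) j
        generalize nm (x + dir (i, true)) = A at *
        generalize nm (x + dir (i, false)) = B at *
        by_cases hj : j = i
        · subst hj
          simp [dir] at a b
          omega
        · simp [dir, hj] at a b
          omega
      have h4 : (2 * nm x : ℝ) ≤ nm (x + dir (i, true)) + nm (x + dir (i, false)) := by
        exact_mod_cast (by omega : 2 * nm x ≤ _)
      generalize (nm (x + dir (i, true)) : ℝ) = a at *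
      generalize (nm (x + dir (i, false)) : ℝ) = b at *
      have k : ∀ a : ℝ, Real.exp (θ * nm x) * (θ * a - θ * nm x + 1) ≤ Real.exp (θ * a) :=
        fun a => (mul_le_mul_of_nonneg_left (Real.add_one_le_exp _) (Real.exp_pos _).le).trans_eq
          (by rw [← Real.exp_add]; congr 1; ring)
      nlinarith [k a, k b, mul_nonneg (Real.exp_pos (θ * nm x)).le
        (mul_nonneg θ0 (sub_nonneg.2 h4))]
    have h3 : ∑ e, ∑ i, 2 * Real.cosh (2 * θ * (x + dir e : P d) i) ≤
        2 * d * (Real.cosh (2 * θ) * ∑ i, 2 * Real.cosh (2 * θ * x i)) := by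
      rw [Fintype.sum_prod_type]
      refine (sum_le_card_nsmul univ _ (2 * (Real.cosh (2 * θ) *
        ∑ i, 2 * Real.cosh (2 * θ * x i))) fun j _ => ?_).trans (by simp; linarith)
      rw [Fintype.sum_bool, ← sum_add_distrib, mul_sum, mul_sum]
      refine sum_le_sum fun i _ => ?_
      have := Real.cosh_pos (2 * θ * x i)
      by_cases hj : i = j
      · subst hj
        simp [dir, mul_add, Real.cosh_add]
        linarith
      · simp [dir, hj]
        nlinarith
    have h4 : 2 * (max m (Real.exp (θ * nm x))) ^ 2 -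
        4 * max m (Real.exp (θ * nm x)) * Real.exp (θ * nm x) ≤
        2 * m ^ 2 - 4 * m * Real.exp (θ * nm x) := by
      rcases max_choice m (Real.exp (θ * nm x)) with k | k <;> rw [k]
      nlinarith [sq_nonneg (m - Real.exp (θ * nm x))]
    have h5 : 0 ≤ max m (Real.exp (θ * nm x)) := le_max_of_le_left m0
    generalize max m (Real.exp (θ * nm x)) = M at *
    rw [div_le_iff₀ (by positivity), sum_add_distrib, sum_sub_distrib, ← mul_sum, ← mul_sum,
      ← mul_sum, pow_succ (Real.cosh _)]
    have h6 := mul_le_mul_of_nonneg_left h2 h5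
    have h7 := mul_le_mul_of_nonneg_left h3 (show 0 ≤ Real.cosh (2 * θ) ^ n by positivity)
    have h8 := mul_le_mul_of_nonneg_left h4 this.le
    simp only [sum_const, card_univ, Fintype.card_prod, Fintype.card_fin, Fintype.card_bool,
      nsmul_eq_mul]
    push_cast
    nlinarith

lemma exp_mom {s : ℝ} (s0 : 0 < s) {n : ℕ} (hn : n ≤ s ^ 2) :
    avg (d := d) n (fun H => Real.exp ((H.sup nm : ℕ) / s)) ≤ 14 * d := by
  have := dpos (d := d)
  have h := doob (d := d) (θ := 1 / s / 2) (by positivity) n 0 0 le_rfl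
  simp only [zero_add, max_eq_right (Real.exp_pos _).le, ← Real.exp_nat_mul] at h
  refine le_trans (avg_mono fun t => le_of_eq (by congr 1; push_cast; ring)) (h.trans ?_)
  have h1 : Real.cosh (2 * (1 / s / 2)) ^ n ≤ Real.exp (1 / 2) := by
    refine (pow_le_pow_left₀ (Real.cosh_pos _).le (Real.cosh_le_exp_half_sq _) n).trans ?_
    rw [← Real.exp_nat_mul, Real.exp_le_exp]
    field_simp
    exact hn
  have h2 : Real.exp (1 / 2) ≤ 7 / 4 := by
    have := Real.exp_one_lt_d9
    have h3 : Real.exp (1 / 2) ^ 2 = Real.exp 1 := by rw [← Real.exp_nat_mul]; norm_num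
    nlinarith [Real.exp_pos (1 / 2)]
  generalize Real.cosh (2 * (1 / s / 2)) ^ n = C at *
  simp
  nlinarith

end Pool.Agent.H92.WD
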