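import Pool.Agent.H92.Worm1

set_option autoImplicit false

/-! Planar simple random walk: maximal displacement and range. -/

namespace Pool.Agent.H92.Worm

open Finset Filter Topology

/-- the four unit steps -/
def dir : Fin 4 → ℤ × ℤ := ![(1, 0), (-1, 0), (0, 1), (0, -1)]

/-- the vertices visited by the walk from `0` with steps `s` -/
def trace {l : ℕ} (s : Fin l → Fin 4) : Finset (ℤ × ℤ) :=
  (range (l + 1)).image fun t => ∑ j : Fin l, if j.val < t then dir (s j) else 0

lemma trace_zero (s : Fin 0 → Fin 4) : trace s = {0} := by simp [trace]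

lemma trace_cons {l : ℕ} (e : Fin 4) (s : Fin l → Fin 4) :
    trace (Fin.cons e s : Fin (l + 1) → Fin 4) = insert 0 ((trace s).image (dir e + ·)) := by
  rw [trace, range_add_one', image_insert, trace, image_image, map_eq_image, image_image]
  congr 1
  · simp
  · refine image_congr fun t _ => ?_
    simp [Fin.sum_univ_succ]

noncomputable def avg (l : ℕ) (F : Finset P → ℝ) : ℝ := (∑ s : Fin l → Fin 4, F (trace s)) / 4 ^ l

lemma avg_zero (F : Finset P → ℝ) : avg 0 F = F {0} := by simp [avg, trace_zero]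

lemma avg_succ (l : ℕ) (F : Finset P → ℝ) :
    avg (l + 1) F = (∑ e, avg l fun H => F (insert 0 (H.image (dir e + ·)))) / 4 := by
  unfold avg
  rw [← (Fin.consEquiv fun _ => Fin 4).sum_comp, Fintype.sum_prod_type, ← sum_div, div_div,
    pow_succ]
  simp only [Fin.consEquiv_apply, ← trace_cons]
  rfl

lemma avg_mono {l : ℕ} {F G : Finset P → ℝ} (h : ∀ s : Fin l → Fin 4, F (trace s) ≤ G (trace s)) :
    avg l F ≤ avg l G :=
  div_le_div_of_nonneg_right (sum_le_sum fun s _ => h s) (by positivity)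

lemma avg_const (l : ℕ) (c : ℝ) : avg l (fun _ => c) = c := by
  simp [avg]

lemma avg_mul (l : ℕ) (c : ℝ) (F : Finset P → ℝ) : avg l (fun H => c * F H) = c * avg l F := by
  simp only [avg, ← mul_sum, mul_div_assoc]

lemma avg_add (l : ℕ) (F G : Finset P → ℝ) : avg l (fun H => F H + G H) = avg l F + avg l G := by
  simp only [avg, sum_add_distrib, add_div]

lemma avg_sum {κ : Type} (l : ℕ) (T : Finset κ) (F : κ → Finset P → ℝ) :
    avg l (fun H => ∑ k ∈ T, F k H) = ∑ k ∈ T, avg l (F k) := by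
  simp only [avg, ← sum_div]
  rw [sum_comm]

lemma nm_dir (x : P) (e : Fin 4) : nm (dir e + x) ≤ nm x + 1 := by
  fin_cases e <;> simp [nm, dir] <;> omega

lemma sup_trace : ∀ {l : ℕ} (s : Fin l → Fin 4), (trace s).sup nm ≤ l := by
  intro l
  induction l with
  | zero => intro s; simp [trace_zero, nm]
  | succ l ih =>
    intro s
    rw [← Fin.cons_self_tail s, trace_cons, sup_insert, sup_image]
    refine sup_le (by simp [nm]) (Finset.sup_le fun y hy => (nm_dir y _).trans ?_)
    exact Nat.succ_le_succ ((le_sup (f := nm) hy).trans (ih _))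

lemma doob (l : ℕ) : ∀ (x : P) (m : ℕ),
    avg l (fun H => ((max m (H.sup fun y => nm (x + y)) : ℕ) : ℝ) ^ 2) ≤
      2 * m ^ 2 - 4 * m * nm x + 4 * (x.1 ^ 2 + x.2 ^ 2) + 4 * l := by
  have hn : ∀ x : P, (nm x : ℝ) ^ 2 ≤ x.1 ^ 2 + x.2 ^ 2 := by
    intro x
    have h : ∀ a : ℤ, (a.natAbs : ℝ) ^ 2 = a ^ 2 := fun a => by
      rw [Nat.cast_natAbs, Int.cast_abs, sq_abs]
    rcases max_choice x.1.natAbs x.2.natAbs with k | k <;> rw [nm, k, h] <;>
      nlinarith [sq_nonneg (x.1 : ℝ), sq_nonneg (x.2 : ℝ)]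
  induction l with
  | zero =>
    intro x m
    rw [avg_zero, sup_singleton, add_zero]
    have := hn x
    rcases max_choice m (nm x) with k | k <;> rw [k] <;> push_cast <;>
      nlinarith [sq_nonneg ((m : ℝ) - 2 * nm x), sq_nonneg ((m : ℝ) - nm x)]
  | succ l ih =>
    intro x m
    rw [avg_succ]
    have h1 : ∀ e, avg l (fun H => ((max m ((insert 0 (H.image (dir e + ·))).sup
        fun y => nm (x + y)) : ℕ) : ℝ) ^ 2) ≤ _ := fun e => by
      simp only [sup_insert, sup_image, add_zero, ← max_assoc, Function.comp_def, ← add_assoc]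
      exact ih (x + dir e) (max m (nm x))
    refine (div_le_div_of_nonneg_right (sum_le_sum fun e _ => h1 e) (by norm_num)).trans ?_
    have h2 : 4 * nm x ≤ ∑ e, nm (x + dir e) := by
      simp [Fin.sum_univ_four, dir, nm]
      omega
    have h3 : (4 * nm x : ℝ) ≤ ∑ e, (nm (x + dir e) : ℝ) := by exact_mod_cast h2
    have h4 : 2 * ((max m (nm x) : ℕ) : ℝ) ^ 2 - 4 * (max m (nm x) : ℕ) * nm x ≤
        2 * m ^ 2 - 4 * m * nm x := by
      rcases max_choice m (nm x) with k | k <;> rw [k]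
      nlinarith [sq_nonneg ((m : ℝ) - nm x)]
    have h5 : (0 : ℝ) ≤ (max m (nm x) : ℕ) := Nat.cast_nonneg _
    generalize ((max m (nm x) : ℕ) : ℝ) = M at *
    simp only [Fin.sum_univ_four] at h3 ⊢
    have h6 := mul_le_mul_of_nonneg_left h3 h5
    simp only [dir, Matrix.cons_val, Prod.fst_add, Prod.snd_add] at h6 ⊢
    push_cast
    nlinarith

lemma avg_D {l : ℕ} (hl : 1 ≤ l) : avg l (fun H => ((H.sup nm + 1 : ℕ) : ℝ) ^ 2) ≤ 10 * l := by
  have h := doob l 0 0
  simp only [zero_add, Nat.zero_max] at h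
  have h1 : avg l (fun H => ((H.sup nm + 1 : ℕ) : ℝ) ^ 2) ≤
      avg l (fun H => 2 * ((H.sup nm : ℕ) : ℝ) ^ 2 + 2) := avg_mono fun s => by
    push_cast
    nlinarith [sq_nonneg ((((trace s).sup nm : ℕ) : ℝ) - 1)]
  rw [avg_add, avg_mul, avg_const] at h1
  have : (1 : ℝ) ≤ l := by exact_mod_cast hl
  simp at h
  linarith

noncomputable def pr : ℕ → P → ℝ
  | 0, y => if y = 0 then 1 else 0
  | n + 1, y => (∑ e, pr n (y - dir e)) / 4

lemma pr_nonneg : ∀ n y, 0 ≤ pr n y
  | 0, y => by unfold pr; split_ifs <;> norm_num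
  | n + 1, y => div_nonneg (sum_nonneg fun _ _ => pr_nonneg n _) (by norm_num)

lemma pr_sum (n : ℕ) : ∀ T : Finset P, ∑ y ∈ T, pr n y ≤ 1 := by
  induction n with
  | zero =>
    intro T
    simp only [pr, sum_ite_eq']
    split_ifs <;> norm_num
  | succ n ih =>
    intro T
    simp only [pr]
    rw [← sum_div, sum_comm, div_le_one (by norm_num)]
    refine (sum_le_card_nsmul _ _ 1 fun e _ => ?_).trans (by simp)
    rw [← sum_image (f := pr n) fun a _ b _ h => sub_left_injective h]
    exact ih _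

noncomputable def gr (n : ℕ) (y : P) : ℝ := ∑ k ∈ range (n + 1), pr k y

lemma gr_mono {a b : ℕ} (h : a ≤ b) (y : P) : gr a y ≤ gr b y :=
  sum_le_sum_of_subset_of_nonneg (range_mono (by omega)) fun _ _ _ => pr_nonneg _ _

lemma gr_nonneg (n : ℕ) (y : P) : 0 ≤ gr n y := sum_nonneg fun _ _ => pr_nonneg _ _

lemma hit (n l : ℕ) : ∀ y, avg l (fun H => if y ∈ H then 1 else 0) * gr n 0 ≤ gr (n + l) y := by
  induction l with
  | zero =>
    intro y
    rw [avg_zero]
    split_ifs with h
    · rw [mem_singleton.1 h]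
      simp
    · simpa using gr_nonneg _ _
  | succ l ih =>
    intro y
    by_cases h : y = 0
    · rw [h]
      refine le_trans ?_ (gr_mono (Nat.le_add_right _ _) 0)
      refine mul_le_of_le_one_left (gr_nonneg _ _) ?_
      exact (avg_mono (G := fun _ => 1) fun s => by split_ifs <;> norm_num).trans_eq (avg_const _ _)
    · have h1 : gr (n + (l + 1)) y = (∑ e, gr (n + l) (y - dir e)) / 4 := by
        rw [gr, ← add_assoc, sum_range_succ']
        simp only [pr, if_neg h, add_zero, gr]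
        rw [← sum_div, sum_comm]
      rw [h1, avg_succ, div_mul_eq_mul_div, sum_mul]
      refine div_le_div_of_nonneg_right (sum_le_sum fun e _ => le_of_eq_of_le ?_ (ih _))
        (by norm_num)
      congr 3 with H
      simp only [mem_insert, h, false_or, mem_image]
      congr 1
      exact propext ⟨fun ⟨a, b, c⟩ => by rwa [← c, add_sub_cancel_left],
        fun a => ⟨_, a, by simp⟩⟩

lemma range_le (n l : ℕ) : avg l (fun H => H.card) * gr n 0 ≤ n + l + 1 := by
  have h1 : avg l (fun H => H.card) ≤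
      avg l (fun H => ∑ y ∈ box 0 l, if y ∈ H then 1 else 0) := avg_mono fun s => by
    rw [sum_boole, Nat.cast_le]
    refine card_le_card fun y hy => mem_filter.2 ⟨mem_box.2 ?_, hy⟩
    rw [sub_zero]
    exact (le_sup (f := nm) hy).trans (sup_trace s)
  refine (mul_le_mul_of_nonneg_right h1 (gr_nonneg _ _)).trans ?_
  rw [avg_sum, sum_mul]
  refine (sum_le_sum fun y _ => hit n l y).trans ?_
  simp only [gr]
  rw [sum_comm]
  refine (sum_le_card_nsmul _ _ 1 fun k _ => pr_sum _ _).trans (by simp)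

noncomputable def bn : ℕ → ℤ → ℝ
  | 0, z => if z = 0 then 1 else 0
  | n + 1, z => (bn n (z - 1) + bn n (z + 1)) / 2

lemma pr_eq (n : ℕ) : ∀ y : P, pr n y = bn n (y.1 + y.2) * bn n (y.1 - y.2) := by
  induction n with
  | zero =>
    rintro ⟨a, b⟩
    simp only [pr, bn, Prod.mk_eq_zero]
    by_cases h1 : a + b = 0 <;> by_cases h2 : a - b = 0 <;> simp [h1, h2] <;> omega
  | succ n ih =>
    rintro ⟨a, b⟩
    simp only [pr, bn, ih, Fin.sum_univ_four, dir, Matrix.cons_val, Prod.fst_sub, Prod.snd_sub]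
    ring_nf

lemma bn_zero (n : ℕ) : ∀ z : ℤ, z < -n → bn n z = 0 := by
  induction n with
  | zero => exact fun z hz => if_neg (by omega)
  | succ n ih =>
    intro z hz
    simp only [bn]
    rw [ih _ (by omega), ih _ (by omega)]
    simp

lemma bn_eq (n : ℕ) : ∀ j : ℕ, bn n (2 * j - n) = n.choose j / 2 ^ n := by
  induction n with
  | zero =>
    intro j
    cases j <;> simp [bn]
    omega
  | succ n ih =>
    intro j
    simp only [bn]
    rw [show (2 * j - (n + 1 : ℕ) + 1 : ℤ) = 2 * j - n by push_cast; ring, ih]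
    cases j with
    | zero =>
      rw [bn_zero _ _ (by omega)]
      simp
      ring
    | succ j =>
      rw [show (2 * (j + 1 : ℕ) - (n + 1 : ℕ) - 1 : ℤ) = 2 * j - n by push_cast; ring, ih,
        Nat.choose_succ_succ]
      push_cast
      ring

lemma pr_ge (k : ℕ) : 1 / (4 * (k + 1 : ℝ)) ≤ pr (2 * (k + 1)) 0 := by
  have h : ∀ k : ℕ, pr (2 * k) 0 = (k.centralBinom / 4 ^ k) ^ 2 := by
    intro k
    have := bn_eq (2 * k) k
    rw [show (2 * k - (2 * k : ℕ) : ℤ) = 0 by push_cast; ring, pow_mul] at this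
    rw [pr_eq]
    simp only [Prod.fst_zero, Prod.snd_zero, add_zero, sub_zero, this, Nat.centralBinom]
    norm_num [sq]
  rw [h]
  induction k with
  | zero => norm_num [Nat.centralBinom]
  | succ k ih =>
    have h1 : ((k + 1 + 1 : ℕ) : ℝ) * (k + 1 + 1).centralBinom =
        2 * (2 * (k + 1 : ℕ) + 1) * (k + 1).centralBinom := by
      exact_mod_cast Nat.succ_mul_centralBinom_succ (k + 1)
    have k0 : (0 : ℝ) ≤ k := Nat.cast_nonneg _
    have h2 : ((k + 1 + 1).centralBinom / 4 ^ (k + 1 + 1) : ℝ) =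
        (2 * k + 3) / (2 * (k + 2)) * ((k + 1).centralBinom / 4 ^ (k + 1)) := by
      push_cast at h1
      rw [pow_succ]
      field_simp
      linarith
    rw [h2, mul_pow]
    refine le_trans ?_ (mul_le_mul_of_nonneg_left ih (sq_nonneg _))
    push_cast
    rw [div_pow, div_mul_div_comm, div_le_div_iff₀ (by positivity) (by positivity)]
    nlinarith [mul_nonneg k0 k0]

lemma small_range {δ : ℝ} (hδ : 0 < δ) (L : ℕ) :
    ∃ l, L ≤ l ∧ avg l (fun H => H.card) ≤ δ * l := by
  obtain ⟨n, hn⟩ := (Real.tendsto_sum_range_one_div_nat_succ_atTop.eventually_ge_atTop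
    (12 / δ)).exists
  have h1 : 3 / δ ≤ gr (2 * n) 0 := by
    have : ∑ k ∈ (range n).image (fun k => 2 * (k + 1)), pr k 0 ≤ gr (2 * n) 0 :=
      sum_le_sum_of_subset_of_nonneg (fun k hk => by
        obtain ⟨j, hj, rfl⟩ := mem_image.1 hk
        rw [mem_range] at *
        omega) fun _ _ _ => pr_nonneg _ _
    rw [sum_image fun a _ b _ h => by simpa using h] at this
    refine le_trans ?_ ((sum_le_sum fun k _ => pr_ge k).trans this)
    have h2 : ∑ k ∈ range n, 1 / (4 * (k + 1 : ℝ)) = (∑ k ∈ range n, 1 / (k + 1 : ℝ)) / 4 := by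
      rw [sum_div]
      exact sum_congr rfl fun k _ => by rw [div_div, mul_comm]
    rw [h2, show 3 / δ = 12 / δ / 4 by ring]
    gcongr
  refine ⟨L + 2 * n + 1, by omega, ?_⟩
  have h2 := range_le (2 * n) (L + 2 * n + 1)
  have h3 : 0 ≤ avg (L + 2 * n + 1) (fun H => H.card) :=
    (avg_const _ 0).symm.trans_le (avg_mono fun _ => Nat.cast_nonneg _)
  have h4 := (mul_le_mul_of_nonneg_left h1 h3).trans h2
  rw [← mul_div_assoc, div_le_iff₀ hδ] at h4
  push_cast at h4 ⊢
  have : (0 : ℝ) ≤ L := Nat.cast_nonneg _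
  have : (0 : ℝ) ≤ n := Nat.cast_nonneg _
  nlinarith

end Pool.Agent.H92.Worm
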