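import Pool.Agent.H92.WD2
import Pool.Agent.H92.Worm2

set_option autoImplicit false

/-! Return probabilities and a lower bound for the difference set of two independent walks. -/

namespace Pool.Agent.H92.WD

open Finset
open scoped Pointwise
open Pool.Agent.H92.Worm (bn bn_eq bn_zero)

variable {d : ℕ}

lemma bn_cases (n : ℕ) : ∀ z : ℤ, bn n z = 0 ∨ ∃ j : ℕ, z = 2 * j - n := by
  induction n with
  | zero =>
    intro z
    by_cases h : z = 0
    · exact Or.inr ⟨0, by simp [h]⟩
    · exact Or.inl (if_neg h)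
  | succ n ih =>
    intro z
    rcases ih (z - 1) with a | ⟨j, a⟩
    · rcases ih (z + 1) with b | ⟨j, b⟩
      · left
        simp only [bn, a, b]
        simp
      · exact Or.inr ⟨j, by push_cast; omega⟩
    · exact Or.inr ⟨j + 1, by push_cast; omega⟩

lemma bn_nonneg (n : ℕ) (z : ℤ) : 0 ≤ bn n z := by
  rcases bn_cases n z with h | ⟨j, rfl⟩
  · exact h.ge
  · rw [bn_eq]
    positivity

lemma central (k : ℕ) : ((k.centralBinom : ℝ) / 4 ^ k) ^ 2 ≤ 1 / (2 * k + 1) := by
  induction k with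
  | zero => simp
  | succ k ih =>
    have h1 : ((k + 1 : ℕ) : ℝ) * (k + 1).centralBinom = 2 * (2 * k + 1) * k.centralBinom := by
      exact_mod_cast Nat.succ_mul_centralBinom_succ k
    have k0 : (0 : ℝ) ≤ k := Nat.cast_nonneg _
    have h2 : ((k + 1).centralBinom / 4 ^ (k + 1) : ℝ) =
        (2 * k + 1) / (2 * (k + 1)) * (k.centralBinom / 4 ^ k) := by
      push_cast at h1
      rw [pow_succ]
      field_simp
      linarith
    rw [h2, mul_pow]
    refine (mul_le_mul_of_nonneg_left ih (sq_nonneg _)).trans ?_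
    push_cast
    rw [div_pow, div_mul_div_comm, div_le_div_iff₀ (by positivity) (by positivity)]
    nlinarith [mul_nonneg k0 k0]

lemma bn_sq (n : ℕ) (z : ℤ) : bn n z ^ 2 ≤ 2 / (n + 1) := by
  have h : ∀ (k : ℕ) (z : ℤ), bn (2 * k) z ≤ k.centralBinom / 4 ^ k := by
    intro k z
    rcases bn_cases (2 * k) z with h | ⟨j, rfl⟩
    · rw [h]
      positivity
    · rw [bn_eq, pow_mul, show (2 : ℝ) ^ 2 = 4 by norm_num]
      gcongr
      exact Nat.choose_le_centralBinom j k
  obtain ⟨k, rfl | rfl⟩ := Nat.even_or_odd' n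
  · refine (pow_le_pow_left₀ (bn_nonneg _ _) (h k z) 2).trans ((central k).trans ?_)
    push_cast
    gcongr
    norm_num
  · have : bn (2 * k + 1) z ≤ k.centralBinom / 4 ^ k := by
      simp only [bn]
      linarith [h k (z - 1), h k (z + 1)]
    refine (pow_le_pow_left₀ (bn_nonneg _ _) this 2).trans ((central k).trans ?_)
    push_cast
    rw [div_le_div_iff₀ (by positivity) (by positivity)]
    linarith [(Nat.cast_nonneg k : (0 : ℝ) ≤ k)]

lemma prod_single {α : Type} [AddZeroClass α] (f : Fin d → α → ℝ) (x : Fin d → α) (i : Fin d)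
    (c : α) : ∏ j, f j ((x + Pi.single i c : Fin d → α) j) =
      f i (x i + c) * ∏ j ∈ univ.erase i, f j (x j) := by
  rw [← mul_prod_erase _ _ (mem_univ i)]
  simp only [Pi.add_apply, Pi.single_eq_same]
  congr 1
  exact prod_congr rfl fun j hj => by simp [ne_of_mem_erase hj]

lemma weier {κ : Type} (A : Finset κ) (t : κ → ℝ) (h0 : ∀ i, 0 ≤ t i) (h1 : ∀ i, t i ≤ 1) :
    1 - ∑ i ∈ A, t i ≤ ∏ i ∈ A, (1 - t i) := by
  classical
  induction A using Finset.induction_on with
  | empty => simp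
  | insert a A ha ih =>
    rw [sum_insert ha, prod_insert ha]
    nlinarith [mul_le_mul_of_nonneg_left ih (sub_nonneg.2 (h1 a)),
      mul_nonneg (h0 a) (sum_nonneg fun i (_ : i ∈ A) => h0 i)]

noncomputable def Bp (a : Fin d → ℕ) (x : P d) : ℝ := ∏ i, bn (a i) (x i)

variable [NeZero d]

lemma T_Bp (a : Fin d → ℕ) : T (Bp a) = fun x => ∑ i, (d : ℝ)⁻¹ * Bp (a + Pi.single i 1) x := by
  have := dpos (d := d)
  funext x
  rw [T, Fintype.sum_prod_type, sum_div]
  refine sum_congr rfl fun i _ => ?_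
  simp only [Fintype.sum_bool, Bp, dir, if_true, Bool.false_eq_true, if_false]
  rw [prod_single (fun j z => bn (a j) z), prod_single (fun j z => bn (a j) z),
    prod_single (fun j k => bn k (x j))]
  simp only [bn, sub_eq_add_neg]
  field_simp
  ring

lemma It_Bp (n : ℕ) : ∀ (a : Fin d → ℕ) (x : P d),
    T^[n] (Bp a) x ^ 2 ≤ 2 ^ d * ∏ i, 1 / (a i + 1 + n / (2 * d) : ℝ) := by
  have hd := dpos (d := d)
  induction n with
  | zero =>
    intro a x
    simp only [Function.iterate_zero, id, Bp, ← prod_pow]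
    refine (prod_le_prod (fun _ _ => sq_nonneg _) fun i _ => bn_sq _ _).trans (le_of_eq ?_)
    simp [div_eq_mul_inv, prod_mul_distrib]
  | succ n ih =>
    intro a x
    rw [Function.iterate_succ_apply, T_Bp, It_lin]
    simp only [← mul_sum]
    have h1 := sq_sum_le_card_mul_sum_sq (s := univ)
      (f := fun i => T^[n] (Bp (a + Pi.single i 1)) x)
    rw [card_univ, Fintype.card_fin] at h1
    have h2 := h1.trans (mul_le_mul_of_nonneg_left (sum_le_sum fun i _ => ih _ x) hd.le)
    set Y : Fin d → ℝ := fun i => a i + 1 + n / (2 * d) with hY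
    have Y1 : ∀ i, 1 ≤ Y i := fun i => by
      have : (0 : ℝ) ≤ a i + n / (2 * d) := by positivity
      simp only [hY]
      linarith
    have h3 : ∀ i, ∏ j, 1 / (((a + Pi.single i 1 : Fin d → ℕ) j : ℝ) + 1 + n / (2 * d)) =
        (1 - 1 / (Y i + 1)) * ∏ j, 1 / Y j := by
      intro i
      rw [prod_single (fun _ k => 1 / ((k : ℕ) + 1 + n / (2 * d) : ℝ)),
        ← mul_prod_erase _ _ (mem_univ i), ← mul_assoc]
      congr 1
      have := Y1 i
      rw [show ((a i + 1 : ℕ) : ℝ) + 1 + n / (2 * d) = Y i + 1 by simp only [hY]; push_cast; ring]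
      field_simp
      ring
    have h4 : ∏ j, 1 / (a j + 1 + (n + 1 : ℕ) / (2 * d) : ℝ) =
        (∏ j, (1 - 1 / (2 * d) / (Y j + 1 / (2 * d)))) * ∏ j, 1 / Y j := by
      rw [← prod_mul_distrib]
      refine prod_congr rfl fun j _ => ?_
      have := Y1 j
      rw [show (a j + 1 + (n + 1 : ℕ) / (2 * d) : ℝ) = Y j + 1 / (2 * d) by
        simp only [hY]; push_cast; ring]
      field_simp
      ring
    have h5 := weier univ (fun j => 1 / (2 * d) / (Y j + 1 / (2 * d)))
      (fun j => by have := Y1 j; positivity)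
      (fun j => by have := Y1 j; rw [div_le_one (by positivity)]; linarith)
    have h6 : ∑ j, 1 / (2 * d) / (Y j + 1 / (2 * d)) ≤ (∑ j, 1 / (Y j + 1)) / d := by
      rw [sum_div]
      refine sum_le_sum fun j _ => ?_
      have := Y1 j
      rw [div_div, div_div]
      refine one_div_le_one_div_of_le (by positivity) ?_
      have : (0 : ℝ) < 1 / (2 * d) := by positivity
      nlinarith
    simp only [h3] at h2
    rw [← mul_sum, ← sum_mul, sum_sub_distrib] at h2
    simp only [sum_const, card_univ, Fintype.card_fin, nsmul_eq_mul, mul_one] at h2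
    have h7 : 0 ≤ ∏ j, 1 / Y j := prod_nonneg fun j _ => by have := Y1 j; positivity
    rw [h4, mul_pow]
    refine (mul_le_mul_of_nonneg_left h2 (by positivity)).trans ?_
    refine le_trans (le_of_eq ?_) (mul_le_mul_of_nonneg_left (mul_le_mul_of_nonneg_right
      ((sub_le_sub_left h6 1).trans h5) h7) (by positivity))
    field_simp

noncomputable def pj (d n : ℕ) : ℝ := T^[n] (ind ({0} : Finset (P d))) 0

lemma pj_le (h4 : d ≤ 4) (n : ℕ) : pj d n ≤ 256 / √(n + 1) ^ d := by
  have hd := dpos (d := d)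
  have d1 : (1 : ℝ) ≤ d := by exact_mod_cast NeZero.pos d
  have d4 : (d : ℝ) ≤ 4 := by exact_mod_cast h4
  have h := It_Bp n (0 : Fin d → ℕ) 0
  have h1 : Bp (0 : Fin d → ℕ) = ind {0} := by
    funext x
    simp only [Bp, Pi.zero_apply, bn, ind, mem_singleton]
    by_cases c : x = 0
    · simp [c]
    · obtain ⟨i, hi⟩ := Function.ne_iff.1 c
      rw [if_neg c]
      exact prod_eq_zero (mem_univ i) (if_neg hi)
  rw [h1] at h
  refine le_of_sq_le_sq (h.trans ?_) (by positivity)
  have n0 : (0 : ℝ) ≤ n := Nat.cast_nonneg _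
  simp only [Pi.zero_apply, Nat.cast_zero, zero_add, prod_const, card_univ, Fintype.card_fin]
  rw [← mul_pow, div_pow, ← pow_mul, mul_comm d 2, pow_mul, Real.sq_sqrt (by positivity)]
  calc _ ≤ (16 / (n + 1) : ℝ) ^ d := by
        gcongr
        rw [mul_one_div, div_le_div_iff₀ (by positivity) (by positivity)]
        have : (n : ℝ) / (2 * 4) ≤ n / (2 * d) := by gcongr
        linarith
    _ ≤ _ := by
        rw [div_pow]
        gcongr
        exact (pow_le_pow_right₀ (by norm_num) h4).trans (by norm_num)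

lemma tail3 (a M : ℕ) : ∑ b ∈ range M, 1 / √((a + b : ℕ) + 1) ^ 3 ≤
    4 / √(a + 1) - 4 / √((a + M : ℕ) + 1) := by
  induction M with
  | zero => simp
  | succ M ih =>
    rw [sum_range_succ, ← add_assoc]
    push_cast at *
    have h0 : (0 : ℝ) ≤ a + M := by positivity
    have h1 := Real.sq_sqrt (show 0 ≤ (a : ℝ) + M + 1 by positivity)
    have h2 := Real.sq_sqrt (show 0 ≤ (a : ℝ) + M + 1 + 1 by positivity)
    have h3 : 0 < √((a : ℝ) + M + 1) := by positivity
    have h4 : 0 < √((a : ℝ) + M + 1 + 1) := by positivity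
    generalize √((a : ℝ) + M + 1) = x at *
    generalize √((a : ℝ) + M + 1 + 1) = y at *
    have h5 : y ≤ 3 / 2 * x := le_of_sq_le_sq (by nlinarith) (by positivity)
    have h6 : 1 / x ^ 3 ≤ 4 / x - 4 / y := by
      have : 4 / x - 4 / y = 4 / (x * (y * (x + y))) := by
        field_simp
        nlinarith
      rw [this, div_le_div_iff₀ (by positivity) (by positivity)]
      have : y * (x + y) ≤ 4 * x ^ 2 := by nlinarith
      nlinarith
    linarith

lemma pj_tail (h3 : 3 ≤ d) (h4 : d ≤ 4) (a M : ℕ) :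
    ∑ b ∈ range M, pj d (a + b) ≤ 1024 / √(a + 1) ^ (d - 2) := by
  obtain ⟨k, rfl⟩ := Nat.exists_eq_add_of_le' h3
  have a1 : 1 ≤ √((a : ℝ) + 1) := Real.one_le_sqrt.2 (by simp)
  have h1 : ∀ b ∈ range M, pj (k + 3) (a + b) ≤
      256 / √(a + 1) ^ k * (1 / √((a + b : ℕ) + 1) ^ 3) := by
    intro b _
    refine (pj_le h4 _).trans ?_
    rw [div_mul_div_comm, mul_one, pow_add]
    gcongr
    omega
  refine (sum_le_sum h1).trans ?_
  rw [← mul_sum]
  refine (mul_le_mul_of_nonneg_left ((tail3 a M).trans (sub_le_self _ (by positivity)))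
    (by positivity)).trans (le_of_eq ?_)
  rw [show k + 3 - 2 = k + 1 by omega, pow_succ]
  field_simp
  norm_num

noncomputable def Gr (N : ℕ) : P d → ℝ := Gs N (ind {0})

noncomputable def En (N : ℕ) (H : Finset (P d)) : ℝ := ∑ z ∈ H, ∑ y ∈ H, Gr N (z - y)

lemma hit_lower (N : ℕ) (H : Finset (P d)) {l : ℝ} (l0 : 0 ≤ l) :
    2 * l * ((N + 1) * H.card) - 2 * l ^ 2 * ((N + 1) * En N H) ≤ hit N H := by
  set v : P d → ℝ := fun y => ind H y * Gs N (ind H) y with hv
  have i0 := ind_nonneg H
  have v0 : ∀ y, 0 ≤ v y := fun y => mul_nonneg (i0 y) (Gs_nonneg i0 _ _)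
  have h1 : ∀ n ≤ N, ∀ x, Gs n (ind H) x ^ 2 ≤ 2 * Gs n v x := by
    intro n
    induction n with
    | zero =>
      intro _ x
      have := Gs_mono i0 (Nat.zero_le N) x
      simp only [Gs, zero_add, range_one, sum_singleton, Function.iterate_zero, id, hv] at this ⊢
      nlinarith [mul_le_mul_of_nonneg_left this (i0 x), i0 x]
    | succ n ih =>
      intro hn x
      have a1 := Gs_mono i0 hn x
      have a2 := (T_sq _ x).trans (T_mono (ih (by omega)) x)
      rw [T_mul] at a2
      rw [Gs_succ] at a1 ⊢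
      rw [Gs_succ]
      simp only [hv] at a2 ⊢
      nlinarith [mul_le_mul_of_nonneg_left a1 (i0 x), i0 x]
  have h2 : ∀ n ≤ N, ∀ x, 2 * l * Gs n (ind H) x - 2 * l ^ 2 * Gs n v x ≤ hp n H x := by
    intro n
    have k : n ≤ N → ∀ x ∈ H, 2 * l * Gs n (ind H) x - 2 * l ^ 2 * Gs n v x ≤ hp n H x := by
      intro hn x hx
      rw [hp_mem _ hx]
      nlinarith [mul_le_mul_of_nonneg_left (h1 n hn x) (sq_nonneg l),
        sq_nonneg (1 - l * Gs n (ind H) x)]
    induction n with
    | zero =>
      intro hn x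
      by_cases c : x ∈ H
      · exact k hn x c
      · simp [hp_zero c, Gs, hv, ind, c]
    | succ n ih =>
      intro hn x
      by_cases c : x ∈ H
      · exact k hn x c
      · rw [hp_succ _ c, Gs_succ, Gs_succ]
        simp only [hv, ind, c, if_false, zero_mul, zero_add]
        rw [← T_mul, ← T_mul, ← T_sub]
        refine T_mono (ih (fun hn x hx => ?_) (by omega)) x
        rw [hp_mem _ hx]
        nlinarith [mul_le_mul_of_nonneg_left (h1 n hn x) (sq_nonneg l),
          sq_nonneg (1 - l * Gs n (ind H) x)]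
  refine le_trans ?_ ((sum_le_sum fun x _ => h2 N le_rfl x).trans
    (sum_hp_le N H (box 0 (H.sup nm + N))))
  rw [sum_sub_distrib, ← mul_sum, ← mul_sum]
  refine sub_le_sub (mul_le_mul_of_nonneg_left ?_ (by positivity))
    (mul_le_mul_of_nonneg_left (Gs_mass (fun F => ?_) _ _) (by positivity))
  · simp only [Gs]
    rw [sum_comm]
    refine le_trans (by simp) (card_nsmul_le_sum _ _ (H.card : ℝ) fun k hk => ?_)
    refine le_trans ?_ ((mass_ge i0 (H.sup nm) k).trans (sum_le_sum_of_subset_of_nonneg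
      (fun y hy => ?_) fun _ _ _ => It_nonneg i0 _ _))
    · simp only [ind, sum_boole, Nat.cast_le]
      exact card_le_card fun y hy => mem_filter.2
        ⟨mem_box.2 (by rw [sub_zero]; exact le_sup (f := nm) hy), hy⟩
    · rw [mem_range] at hk
      rw [mem_box] at hy ⊢
      omega
  · have h3 : ∀ z, Gs N (ind H) z = ∑ y ∈ H, Gr N (z - y) := by
      intro z
      have : ind H = fun w => ∑ y ∈ H, 1 * ind {0} (w - y) := by
        funext w
        simp [ind, sub_eq_zero]
      rw [Gs, this]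
      simp only [It_lin]
      simp only [It_shift, one_mul, Gr, Gs]
      exact sum_comm
    simp only [hv, ind, ite_mul, one_mul, zero_mul, ← sum_filter, En, ← h3]
    exact sum_le_sum_of_subset_of_nonneg (fun y hy => (mem_filter.1 hy).2)
      fun _ _ _ => Gs_nonneg i0 _ _

omit [NeZero d] in
lemma sum_sh {f : P d → ℝ} (f0 : 0 ≤ f 0) (e : Fin d × Bool) (H : Finset (P d)) :
    ∑ y ∈ sh e H, f y ≤ f 0 + ∑ y ∈ H, f (dir e + y) := by
  rw [← sum_image (f := f) fun a _ b _ h => add_right_injective _ h, sh]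
  by_cases c : 0 ∈ H.image (dir e + ·)
  · rw [insert_eq_of_mem c]
    linarith
  · rw [sum_insert c]

lemma avg_occ {f : P d → ℝ} (f0 : ∀ y, 0 ≤ f y) (n : ℕ) :
    ∀ x, avg n (fun H => ∑ y ∈ H, f (x + y)) ≤ Gs n f x := by
  induction n with
  | zero => intro x; simp [avg_zero, Gs]
  | succ n ih =>
    intro x
    rw [avg_succ, Gs_succ, T, ← sum_e (d := d) (f x), ← add_div, ← sum_add_distrib]
    refine div_le_div_of_nonneg_right (sum_le_sum fun e _ => ?_) (by positivity)
    refine (avg_mono (G := fun H => f (x + 0) + ∑ y ∈ H, f (x + (dir e + y)))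
      fun s => sum_sh (f := fun y => f (x + y)) (f0 _) e _).trans ?_
    rw [avg_add, avg_const, add_zero]
    simpa only [add_assoc] using add_le_add_right (ih (x + dir e)) _

lemma avg_En (N n : ℕ) : avg (d := d) n (En N) ≤ 2 * (n + 1) * Gs n (Gr (d := d) N) 0 := by
  have g0 : ∀ y : P d, 0 ≤ Gr N y := Gs_nonneg (ind_nonneg _) _
  have ge : ∀ y : P d, Gr N (-y) = Gr N y := fun y => by
    unfold Gr Gs
    exact sum_congr rfl fun k _ => It_even (f := ind {0}) (fun y => by simp [ind]) k y
  induction n with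
  | zero =>
    have := g0 0
    simp [avg_zero, En, Gs]
    linarith
  | succ n ih =>
    have h1 : ∀ e (H : Finset (P d)), En N (sh e H) ≤
        (Gr (d := d) N 0 + 2 * ∑ y ∈ H, Gr N (dir e + y)) + En N H := by
      intro e H
      refine (sum_sh (f := fun z => ∑ y ∈ sh e H, Gr N (z - y)) (sum_nonneg fun _ _ => g0 _)
        e H).trans ?_
      have a1 := sum_sh (f := fun y => Gr N (0 - y)) (g0 _) e H
      have a2 := sum_le_sum fun z (_ : z ∈ H) =>
        sum_sh (f := fun y => Gr N (dir e + z - y)) (g0 _) e H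
      simp only [zero_sub, ge, sub_zero, sum_add_distrib, add_sub_add_left_eq_sub] at a1 a2 ⊢
      unfold En
      linarith
    have h2 : ∀ e : Fin d × Bool, avg n (fun H => En N (sh e H)) ≤
        (Gr (d := d) N 0 + avg (d := d) n (En N)) + 2 * Gs n (Gr N) (0 + dir e) := by
      intro e
      refine (avg_mono (G := fun H => (Gr (d := d) N 0 + 2 * ∑ y ∈ H, Gr N (dir e + y)) + En N H)
        fun s => h1 e _).trans ?_
      rw [avg_add, avg_add, avg_const, avg_mul, zero_add]
      linarith [avg_occ g0 n (dir e)]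
    rw [avg_succ]
    refine (div_le_div_of_nonneg_right (sum_le_sum fun e _ => h2 e) (by positivity)).trans ?_
    rw [sum_add_distrib, add_div, sum_e, ← mul_sum, mul_div_assoc, ← T]
    have h3 := Gs_succ n (Gr (d := d) N) 0
    have h4 := Gs_mono g0 (Nat.le_succ n) 0
    have h5 := mul_le_mul_of_nonneg_left h4 (show (0 : ℝ) ≤ 2 * (n + 1) by positivity)
    have := g0 0
    push_cast
    linarith

lemma range_ge (h3 : 3 ≤ d) (h4 : d ≤ 4) (n : ℕ) :
    (n + 1 : ℝ) / 2048 ≤ avg (d := d) n fun H => H.card := by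
  have h := hit_lower n ({0} : Finset (P d)) (l := 1 / 2048) (by norm_num)
  have h1 : En n ({0} : Finset (P d)) ≤ 1024 := by simpa [En, Gr, Gs, pj] using pj_tail h3 h4 0 (n + 1)
  have h2 : hit n ({0} : Finset (P d)) ≤ avg (d := d) n fun H => H.card :=
    avg_mono fun s => by exact_mod_cast card_sub_le.trans (by simp)
  have h5 := mul_le_mul_of_nonneg_left h1 (show (0 : ℝ) ≤ n + 1 by positivity)
  simp only [card_singleton, Nat.cast_one, mul_one] at h
  linarith

theorem mean_hit (h3 : 3 ≤ d) (h4 : d ≤ 4) (N n : ℕ) {σ : ℝ} (σ0 : 0 < σ)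
    (hσ : √(n + 1) ^ (4 - d) * ∑ a ∈ range (n + 1), 1 / (a + 1 : ℝ) ≤ σ) :
    (N + 1) * (n + 1) / (2 ^ 34 * σ) ≤ avg (d := d) n (hit N) := by
  have h1 : Gs n (Gr (d := d) N) 0 ≤ 1024 * σ := by
    refine le_trans ?_ (mul_le_mul_of_nonneg_left hσ (by norm_num))
    rw [mul_sum, mul_sum]
    refine sum_le_sum fun a ha => ?_
    have a1 := It_lin (range (N + 1)) (fun _ => 1) (fun k => T^[k] (ind ({0} : Finset (P d)))) a
    simp only [one_mul, ← Function.iterate_add_apply] at a1
    refine (congrFun a1 0).trans_le ((pj_tail h3 h4 a (N + 1)).trans ?_)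
    have a2 := Real.sq_sqrt (show 0 ≤ (a : ℝ) + 1 by positivity)
    have a3 : √((a : ℝ) + 1) ≤ √(n + 1) := by
      gcongr
      exact Nat.le_of_lt_succ (mem_range.1 ha)
    have a4 : 0 < √((a : ℝ) + 1) := by positivity
    calc _ = 1024 * (√((a : ℝ) + 1) ^ (4 - d) * (1 / (a + 1))) := by
          generalize √((a : ℝ) + 1) = x at *
          rw [← a2, show x ^ 2 = x ^ (4 - d) * x ^ (d - 2) by
            rw [← pow_add]; congr 1; omega]
          field_simp
      _ ≤ _ := by gcongr
  have h := avg_mono (d := d) (n := n) (G := hit N) (F := fun H => 2 * (1 / (2 ^ 23 * σ)) *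
    ((N + 1) * H.card) - 2 * (1 / (2 ^ 23 * σ)) ^ 2 * ((N + 1) * En N H))
    fun s => hit_lower N (trace s) (by positivity)
  rw [avg_sub, avg_mul, avg_mul, avg_mul, avg_mul] at h
  refine le_trans (le_trans (le_of_eq ?_) (sub_le_sub (mul_le_mul_of_nonneg_left
    (mul_le_mul_of_nonneg_left (range_ge h3 h4 n) (by positivity)) (by positivity))
    (mul_le_mul_of_nonneg_left (mul_le_mul_of_nonneg_left ((avg_En N n).trans
      (mul_le_mul_of_nonneg_left h1 (by positivity))) (by positivity)) (by positivity)))) h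
  field_simp
  norm_num

end Pool.Agent.H92.WD
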