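import Pool.Agent.H92.WD3

set_option autoImplicit false

/-! No percolation of worms at small intensity when `m(l) ≤ C l^(-(d+2)/2)`, `d = 3, 4`. -/

namespace Pool.Agent.H92.WD

open Finset MeasureTheory
open scoped Pointwise ENNReal

variable {d : ℕ}

/-- law of the trace when the number of steps has law `m` -/
noncomputable def nu (m : ℕ → ℝ) (A : Finset (P d)) : ℝ :=
  ∑' n, m n * avg n fun H => if H = A then 1 else 0

lemma nu_nonneg {m : ℕ → ℝ} (m0 : ∀ n, 0 ≤ m n) (A : Finset (P d)) : 0 ≤ nu m A :=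
  tsum_nonneg fun n => mul_nonneg (m0 n) (avg_nonneg fun _ => by split_ifs <;> norm_num)

lemma tsum_meas_le {Ω κ : Type} [MeasurableSpace Ω] {μ : Measure Ω} [IsFiniteMeasure μ]
    (s : κ → Set Ω) {b : ℝ} (h : ∀ F : Finset κ, ∑ k ∈ F, μ.real (s k) ≤ b) :
    ∑' k, μ (s k) ≤ ENNReal.ofReal b := by
  rw [ENNReal.tsum_eq_iSup_sum]
  refine iSup_le fun F => le_trans (le_of_eq ?_) (ENNReal.ofReal_le_ofReal (h F))
  rw [ENNReal.ofReal_sum_of_nonneg fun _ _ => measureReal_nonneg]
  simp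

variable [NeZero d]

lemma summable_avg {m : ℕ → ℝ} (m0 : ∀ n, 0 ≤ m n) (ms : Summable m) {F : Finset (P d) → ℝ}
    (F0 : ∀ H, 0 ≤ F H) {b : ℝ} (F1 : ∀ H, F H ≤ b) : Summable fun n => m n * avg n F :=
  .of_nonneg_of_le (fun n => mul_nonneg (m0 n) (avg_nonneg F0)) (fun n =>
    mul_le_mul_of_nonneg_left ((avg_mono fun _ => F1 _).trans_eq (avg_const n b)) (m0 n))
    (ms.mul_right b)

lemma sum_nu {m : ℕ → ℝ} (m0 : ∀ n, 0 ≤ m n) (ms : Summable m) {κ : Type} (F : Finset κ)
    (a : κ → Finset (P d)) :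
    ∑ k ∈ F, nu m (a k) = ∑' n, m n * avg n fun H => ∑ k ∈ F, if H = a k then 1 else 0 := by
  simp only [nu, avg_sum, mul_sum]
  exact (Summable.tsum_finsetSum fun k _ => summable_avg m0 ms (b := 1)
    (fun _ => by split_ifs <;> norm_num) fun _ => by split_ifs <;> norm_num).symm

lemma mom6 (h4 : d ≤ 4) (n : ℕ) :
    avg (d := d) n (fun H => ((H.sup nm : ℕ) + 1 : ℝ) ^ 6) ≤ 120960 * √(n + 1) ^ 6 := by
  have s1 : 1 ≤ √((n : ℝ) + 1) := Real.one_le_sqrt.2 (by simp)
  have h := exp_mom (d := d) (s := √(n + 1)) (n := n) (by positivity)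
    (by rw [Real.sq_sqrt (by positivity)]; simp)
  have d4 : (d : ℝ) ≤ 4 := by exact_mod_cast h4
  generalize √((n : ℝ) + 1) = s at *
  refine (avg_mono (G := fun H => 2160 * s ^ 6 * Real.exp ((H.sup nm : ℕ) / s))
    fun t => ?_).trans ?_
  · generalize (((trace t).sup nm : ℕ) : ℝ) = D, (Nat.cast_nonneg _ : (0 : ℝ) ≤ _) = D0
    have a := Real.pow_div_factorial_le_exp ((D + 1) / s) (by positivity) 6
    have b : Real.exp (1 / s) ≤ 3 := (Real.exp_le_exp.2 (div_le_one_of_le₀ s1 (by linarith))).trans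
      (by linarith [Real.exp_one_lt_d9])
    rw [add_div, Real.exp_add, ← add_div, div_pow, div_div, div_le_iff₀ (by positivity)] at a
    norm_num [Nat.factorial] at a b
    nlinarith [mul_le_mul_of_nonneg_left b (show 0 ≤ Real.exp (D / s) * s ^ 6 by positivity)]
  · rw [avg_mul]
    nlinarith [mul_le_mul_of_nonneg_left h (show 0 ≤ s ^ 6 by positivity),
      (show 0 ≤ s ^ 6 by positivity)]

noncomputable def cnt (c : P d) (R : ℕ) (H : Finset (P d)) : ℝ :=
  if R ≤ H.sup nm + 1 then (box c (30 * R) - H).card else 0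

lemma cnt_sum (h3 : 3 ≤ d) (h4 : d ≤ 4) {m : ℕ → ℝ} (m0 : ∀ n, 0 ≤ m n) {C : ℝ}
    (hm : ∀ n, m n ≤ C / √(n + 1) ^ (d + 2)) (c : P d) {R : ℕ} (hR : 0 < R) (M : ℕ) :
    ∑ n ∈ range M, m n * avg n (cnt c R) ≤ 10 ^ 13 * C := by
  have C0 : 0 ≤ C := by simpa using (m0 0).trans (hm 0)
  have R1 : (1 : ℝ) ≤ R := by exact_mod_cast hR
  have a0 : ∀ n, 0 ≤ avg n (cnt c R) := fun n =>
    avg_nonneg fun _ => by unfold cnt; split_ifs <;> positivity
  obtain ⟨a, ha⟩ : ∃ a, R ^ 2 = a + 1 := Nat.exists_eq_add_one_of_ne_zero (by positivity)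
  have ha' : (R : ℝ) ^ 2 = a + 1 := by exact_mod_cast ha
  have h1 : ∀ n ∈ range a, m n * avg n (cnt c R) ≤ 63 ^ 4 * 120960 * C / R ^ 2 := by
    intro n hn
    have k1 : avg n (cnt c R) ≤ 63 ^ 4 / R ^ (6 - d) * (120960 * √(n + 1) ^ 6) := by
      refine le_trans (avg_mono (G := fun H => 63 ^ 4 / R ^ (6 - d) *
        ((H.sup nm : ℕ) + 1 : ℝ) ^ 6) fun t => ?_) ?_
      · unfold cnt
        generalize trace t = H
        split_ifs with h
        · have b1 : (box c (30 * R) - H).card ≤ (63 * (H.sup nm + 1)) ^ d := by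
            refine (card_le_card (t := box c (30 * R + H.sup nm)) fun x hx => ?_).trans ?_
            · obtain ⟨y, hy, z, hz, rfl⟩ := mem_sub.1 hx
              have := tri' (y - z) y c
              have := le_sup (f := nm) hz
              rw [mem_box] at hy ⊢
              simp only [sub_sub_cancel] at *
              omega
            · rw [card_box]
              exact Nat.pow_le_pow_left (by omega) _
          have b2 : ((box c (30 * R) - H).card : ℝ) ≤ (63 * ((H.sup nm : ℕ) + 1)) ^ d := by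
            exact_mod_cast b1
          have b3 : (R : ℝ) ≤ (H.sup nm : ℕ) + 1 := by exact_mod_cast h
          generalize ((H.sup nm : ℕ) + 1 : ℝ) = D at *
          refine b2.trans ?_
          rw [div_mul_eq_mul_div, le_div_iff₀ (by positivity), mul_pow, mul_assoc,
            show D ^ 6 = D ^ d * D ^ (6 - d) by rw [← pow_add]; congr 1; omega]
          have : 0 ≤ D := by linarith
          gcongr
          norm_num
        · positivity
      · rw [avg_mul]
        exact mul_le_mul_of_nonneg_left (mom6 h4 n) (by positivity)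
    refine (mul_le_mul (hm n) k1 (a0 n) (by positivity)).trans ?_
    have k2 : √((n : ℝ) + 1) ≤ R := by
      rw [Real.sqrt_le_left (by positivity), ha']
      have : (n : ℝ) ≤ a := by exact_mod_cast (mem_range.1 hn).le
      linarith
    have k3 : 0 < √((n : ℝ) + 1) := by positivity
    generalize √((n : ℝ) + 1) = s at *
    calc _ = 63 ^ 4 * 120960 * C * s ^ (4 - d) / R ^ (6 - d) := by
          rw [show s ^ 6 = s ^ (d + 2) * s ^ (4 - d) by rw [← pow_add]; congr 1; omega]
          field_simp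
      _ ≤ 63 ^ 4 * 120960 * C * R ^ (4 - d) / R ^ (6 - d) := by gcongr
      _ = _ := by
          rw [show (R : ℝ) ^ (6 - d) = R ^ (4 - d) * R ^ 2 by rw [← pow_add]; congr 1; omega]
          field_simp
  have h2 : ∀ b ∈ range M, m (a + b) * avg (a + b) (cnt c R) ≤
      3 * 150 ^ 4 * C * R * (1 / √((a + b : ℕ) + 1) ^ 3) := by
    intro b _
    have k2 : R ≤ √(((a + b : ℕ) : ℝ) + 1) := by
      rw [Real.le_sqrt' (by positivity), ha']
      push_cast
      linarith [(Nat.cast_nonneg b : (0 : ℝ) ≤ b)]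
    have k4 := Real.sq_sqrt (show 0 ≤ ((a + b : ℕ) : ℝ) + 1 by positivity)
    have k5 := hm (a + b)
    generalize a + b = n at *
    generalize √((n : ℝ) + 1) = s at *
    have k1 : avg n (cnt c R) ≤ 3 * 150 ^ 4 * s ^ 2 * R ^ (d - 2) := by
      have b1 : avg n (cnt c R) ≤ hit n (box c (30 * R)) :=
        avg_mono fun t => by unfold cnt; split_ifs <;> simp
      have b2 := hit_box c (show 0 < 30 * R by omega) n
      refine b1.trans (le_of_mul_le_mul_right (b2.trans ?_) (by positivity))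
      push_cast
      have b3 : (30 * R : ℝ) ^ 2 + n ≤ 901 * s ^ 2 := by nlinarith
      have b4 : (5 * (30 * R) : ℝ) ^ d ≤ 150 ^ 4 * (R ^ (d - 2) * R ^ 2) := by
        rw [← pow_add, show d - 2 + 2 = d by omega, ← mul_assoc, mul_pow]
        norm_num
        gcongr
        exact (pow_le_pow_right₀ (by norm_num) h4).trans (by norm_num)
      refine (mul_le_mul (mul_le_mul_of_nonneg_left b3 (by norm_num)) b4 (by positivity)
        (by positivity)).trans ?_
      have : 0 ≤ s ^ 2 * (R ^ (d - 2) * R ^ 2) := by positivity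
      nlinarith
    have k3 : 0 < s := by linarith
    refine (mul_le_mul k5 k1 (a0 n) (by positivity)).trans ?_
    calc _ = 3 * 150 ^ 4 * C * R * (R ^ (d - 3) / s ^ (d - 3)) * (1 / s ^ 3) := by
          rw [show s ^ (d + 2) = s ^ (d - 3) * s ^ 5 by rw [← pow_add]; congr 1; omega,
            show (R : ℝ) ^ (d - 2) = R ^ (d - 3) * R by rw [← pow_succ]; congr 1; omega]
          field_simp
      _ ≤ 3 * 150 ^ 4 * C * R * 1 * (1 / s ^ 3) := by
          gcongr
          rw [div_le_one (by positivity)]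
          gcongr
      _ = _ := by ring
  refine (sum_le_sum_of_subset_of_nonneg (range_mono (Nat.le_add_left M a))
    fun n _ _ => mul_nonneg (m0 n) (a0 n)).trans ?_
  rw [sum_range_add]
  have h5 := sum_le_card_nsmul _ _ _ h1
  have h6 := sum_le_sum h2
  rw [← mul_sum] at h6
  have h7 := mul_le_mul_of_nonneg_left ((tail3 a M).trans (sub_le_self _ (by positivity)))
    (show 0 ≤ 3 * 150 ^ 4 * C * R by positivity)
  rw [← ha', Real.sqrt_sq (by positivity), mul_assoc _ (R : ℝ) (4 / R),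
    mul_div_cancel₀ _ (by positivity)] at h7
  rw [card_range, nsmul_eq_mul, ← mul_div_assoc] at h5
  have h8 : a * (63 ^ 4 * 120960 * C) / (R : ℝ) ^ 2 ≤ 63 ^ 4 * 120960 * C := by
    rw [div_le_iff₀ (by positivity), ha']
    nlinarith
  linarith

theorem upper (h3 : 3 ≤ d) (h4 : d ≤ 4) {m : ℕ → ℝ} (m0 : ∀ n, 0 ≤ m n) (ms : Summable m) {C : ℝ}
    (hm : ∀ n, m n ≤ C / √(n + 1) ^ (d + 2)) {v : ℝ} (v0 : 0 ≤ v)
    (hv : v * (10 ^ 13 * C) ≤ 1 / (4 * 903 ^ d)) {Ω : Type} [MeasurableSpace Ω] {μ : Measure Ω}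
    [IsProbabilityMeasure μ] (M : Model d μ) (hO : ∀ x A, μ.real (M.O x A) ≤ v * nu m A) :
    μ {ω | Perc (M.occ Set.univ ω)} = 0 := by
  classical
  refine M.no_perc (fun x => ne_top_of_le_ne_top ENNReal.ofReal_ne_top
    (tsum_meas_le _ (b := v * ∑' n, m n) fun F => (sum_le_sum fun A _ => hO x A).trans ?_))
    fun R hR c => ?_
  · rw [← mul_sum, sum_nu m0 ms F fun A => A]
    have k : ∀ H : Finset (P d), (∑ A ∈ F, if H = A then (1 : ℝ) else 0) ≤ 1 := fun H => by
      rw [sum_ite_eq]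
      split_ifs <;> norm_num
    refine mul_le_mul_of_nonneg_left ((summable_avg m0 ms (fun H => sum_nonneg fun _ _ => by
      split_ifs <;> norm_num) k).tsum_le_tsum (fun n => mul_le_of_le_one_right (m0 n) ?_) ms) v0
    exact (avg_mono fun _ => k _).trans_eq (avg_const n 1)
  · set I := {i : P d × Finset (P d) // R ≤ i.2.sup nm + 1 ∧
      ∃ y, y - i.1 ∈ i.2 ∧ nm (y - c) ≤ 30 * R}
    have h1 : M.Big c R ⊆ ⋃ i : I, M.O i.1.1 i.1.2 := fun ω ⟨i, a, b, e⟩ =>
      Set.mem_iUnion.2 ⟨⟨i, a, b⟩, e⟩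
    refine ENNReal.toReal_le_of_le_ofReal (by positivity) ((measure_mono h1).trans
      ((measure_iUnion_le _).trans (tsum_meas_le _ fun F =>
        (sum_le_sum fun i _ => hO _ _).trans (le_trans ?_ hv))))
    rw [← mul_sum, sum_nu m0 ms F fun i => i.1.2]
    refine mul_le_mul_of_nonneg_left (Real.tsum_le_of_sum_range_le (fun n => mul_nonneg (m0 n)
      (avg_nonneg fun H => sum_nonneg fun _ _ => by split_ifs <;> norm_num)) fun N => ?_) v0
    refine le_trans (sum_le_sum fun n _ => mul_le_mul_of_nonneg_left (avg_mono fun t => ?_) (m0 n))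
      (cnt_sum h3 h4 m0 hm c hR N)
    generalize trace t = H
    rw [sum_boole, cnt]
    split_ifs with h
    · refine Nat.cast_le.2 (card_le_card_of_injOn (fun i => i.1.1) (fun i hi => ?_)
        fun i hi j hj e => Subtype.ext (Prod.ext e ?_))
      · obtain ⟨y, a, b⟩ := i.2.2
        rw [coe_filter] at hi
        exact mem_coe.2 (mem_sub.2 ⟨y, mem_box.2 b, _, hi.2 ▸ a, by simp⟩)
      · rw [coe_filter] at hi hj
        exact hi.2.symm.trans hj.2
    · rw [filter_false_of_mem fun i _ e => h (by rw [e]; exact i.2.1)]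
      simp

end Pool.Agent.H92.WD
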