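import Pool.Agent.H92.WD4

set_option autoImplicit false

/-! Chains of worms of growing lengths. -/

namespace Pool.Agent.H92.WD

open Finset MeasureTheory ProbabilityTheory
open scoped Pointwise ENNReal

variable {d : ℕ}

lemma hit_mono (N : ℕ) {A B : Finset (P d)} (h : A ⊆ B) : hit N A ≤ hit N B :=
  avg_mono fun _ => Nat.cast_le.2 (card_le_card (sub_subset_sub_right h))

lemma hit_shift (N : ℕ) (x : P d) (A : Finset (P d)) : hit N A ≤ hit N (A.image (x + ·)) :=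
  avg_mono fun s => Nat.cast_le.2 (card_le_card_of_injOn (x + ·) (fun y hy => by
    obtain ⟨a, ha, b, hb, rfl⟩ := mem_sub.1 (mem_coe.1 hy)
    exact mem_coe.2 (mem_sub.2 ⟨x + a, mem_image_of_mem _ ha, b, hb, add_sub_assoc _ _ _⟩))
    (add_right_injective x).injOn)

lemma sub_box {H : Finset (P d)} {r : ℕ} : H ⊆ box 0 r ↔ H.sup nm ≤ r := by
  simp [subset_iff, mem_box]

noncomputable def gam (d u u' w : ℕ) : ℝ := u' ^ 2 * u ^ (d - 2) / (2 ^ 37 * w)

section chain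
variable {Ω : Type} [mΩ : MeasurableSpace Ω] {μ : Measure Ω} [IsProbabilityMeasure μ]
  (M : Model d μ)

lemma prod_sites (X : Finset (P d)) (E : P d → Set Ω) (h : ∀ x, MeasurableSet[M.G {x}] (E x)) :
    μ.real (⋂ x ∈ X, E x) = ∏ x ∈ X, μ.real (E x) := by
  induction X using Finset.induction_on with
  | empty => simp
  | insert a X ha ih =>
    rw [set_biInter_insert, prod_insert ha, ← ih, measureReal_def, (Indep_iff _ _ _).1
      (M.ind {a} X (by simpa using ha)) _ _ (h a) (Finset.measurableSet_biInter _ fun x hx =>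
        M.mono (by simpa using hx) _ (h x)), ENNReal.toReal_mul]
    rfl

lemma union_inter {κ : Type} [Countable κ] {T T' : Set (P d)} (hT : Disjoint T T')
    (Q : κ → Prop) (A B : κ → Set Ω) (hA : ∀ k, MeasurableSet[M.G T] (A k))
    (hB : ∀ k, MeasurableSet[M.G T'] (B k)) {δ : ℝ} (δ0 : 0 ≤ δ)
    (h : ∀ k, Q k → μ.real (B k)ᶜ ≤ δ) :
    μ.real (⋃ k, ⋃ _ : Q k, A k) ≤ μ.real (⋃ k, ⋃ _ : Q k, A k ∩ B k) + δ := by
  rcases isEmpty_or_nonempty {k // Q k} with he | he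
  · have : ∀ k, ¬ Q k := fun k hk => he.false ⟨k, hk⟩
    simp [this, δ0]
  obtain ⟨f, hf⟩ := exists_surjective_nat {k // Q k}
  set D := disjointed fun n => A (f n) with hD
  have h1 : (⋃ k, ⋃ _ : Q k, A k) ⊆
      (⋃ k, ⋃ _ : Q k, A k ∩ B k) ∪ ⋃ n, D n ∩ (B (f n))ᶜ := by
    intro ω hω
    obtain ⟨k, hk, h2⟩ := Set.mem_iUnion₂.1 hω
    obtain ⟨n, hn⟩ := hf ⟨k, hk⟩
    have h3 : ω ∈ ⋃ n, D n := by
      rw [hD, iUnion_disjointed]
      exact Set.mem_iUnion.2 ⟨n, by rwa [hn]⟩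
    obtain ⟨j, hj⟩ := Set.mem_iUnion.1 h3
    by_cases c : ω ∈ B (f j)
    · exact Or.inl (Set.mem_iUnion₂.2 ⟨f j, (f j).2, disjointed_subset (fun n => A (f n)) j hj, c⟩)
    · exact Or.inr (Set.mem_iUnion.2 ⟨j, hj, c⟩)
  have hm : ∀ n, MeasurableSet[M.G T] (D n) :=
    @MeasurableSet.disjointed _ (M.G T) _ fun n => hA _
  refine (measureReal_mono h1).trans ((measureReal_union_le _ _).trans (add_le_add_right ?_ _))
  refine ENNReal.toReal_le_of_le_ofReal δ0 ((measure_iUnion_le _).trans ?_)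
  calc _ ≤ ∑' n, μ (D n) * ENNReal.ofReal δ := ENNReal.tsum_le_tsum fun n => by
        rw [(Indep_iff _ _ _).1 (M.ind _ _ hT) _ _ (hm n) (hB _).compl]
        exact mul_le_mul_right ((ENNReal.le_ofReal_iff_toReal_le (measure_ne_top _ _) δ0).2
          (h _ (f n).2)) _
    _ ≤ _ := by
        rw [ENNReal.tsum_mul_right, ← measure_iUnion (disjoint_disjointed _)
          fun n => M.le _ _ (hm n)]
        exact mul_le_of_le_one_left' prob_le_one

theorem chain (ρ : ℕ → ℕ) (ρ1 : ∀ k, ρ k ≤ ρ (k + 1)) (ρ2 : ∀ k, k ≤ ρ k)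
    (Adm : ℕ → Finset (P d) → Prop) {H₀ : Finset (P d)} (h0 : Adm 0 H₀)
    (h : ∀ k H, Adm k H → μ.real {ω | ∃ x A, (ρ k < nm x ∧ nm x ≤ ρ (k + 1) ∧ Conn A ∧
      x ∈ H - A ∧ Adm (k + 1) (A.image (x + ·))) ∧ ω ∈ M.O x A}ᶜ ≤ (1 / 2) ^ (k + 2)) :
    μ {ω | Perc (M.occ Set.univ ω)} ≠ 0 := by
  set S : ℕ → Ω → Set (P d) := fun k => M.occ {i | nm i.1 ≤ ρ k} with hS
  set Ch : ℕ → Finset (P d) → Set Ω := fun k H =>
    {ω | ∀ y ∈ H, y ∈ H₀ ∨ ∃ a ∈ H₀, a ∈ S k ω ∧ Path (S k ω) a y} with hCh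
  set Hit : ℕ → Finset (P d) → Set Ω := fun k H => {ω | ∃ x A, (ρ k < nm x ∧ nm x ≤ ρ (k + 1) ∧
    Conn A ∧ x ∈ H - A ∧ Adm (k + 1) (A.image (x + ·))) ∧ ω ∈ M.O x A} with hHit
  set Far : ℕ → Set Ω := fun k => {ω | ∃ a ∈ H₀, a ∈ M.occ Set.univ ω ∧
    ∃ b, k ≤ nm b ∧ Path (M.occ Set.univ ω) a b} with hFar
  have a1 : ∀ k, (⋃ H, ⋃ _ : Adm k H, Ch k H ∩ Hit k H) ⊆
      (⋃ H, ⋃ _ : Adm (k + 1) H, Ch (k + 1) H) ∩ Far k := by
    intro k ω hω
    obtain ⟨H, -, b1, x, A, ⟨b2, b3, b4, b5, b6⟩, b7⟩ := Set.mem_iUnion₂.1 hω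
    obtain ⟨y, hy, z, hz, rfl⟩ := mem_sub.1 b5
    have c1 : ((y - z + ·) '' A) ⊆ S (k + 1) ω := by
      rintro _ ⟨a, ha, rfl⟩
      exact ⟨(y - z, A), b3, b7, by simpa using ha⟩
    have c2 : S k ω ⊆ S (k + 1) ω := fun a ⟨i, e1, e2⟩ => ⟨i, le_trans e1 (ρ1 k), e2⟩
    have c3 : ∀ a ∈ A, Path (S (k + 1) ω) (y - z + 0) (y - z + a) := fun a ha =>
      ((b4.2 a ha).shift _).mono c1
    have c4 : y - z + 0 ∈ S (k + 1) ω := c1 ⟨0, b4.1, rfl⟩
    have c5 : ∃ a ∈ H₀, a ∈ S (k + 1) ω ∧ Path (S (k + 1) ω) a (y - z + 0) := by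
      have e1 := c3 z hz
      rw [sub_add_cancel] at e1
      rcases b1 y hy with e | ⟨a, e2, e3, e4⟩
      · exact ⟨y, e, e1.mem c4, e1.rev c4⟩
      · exact ⟨a, e2, c2 e3, (e4.mono c2).trans (e1.rev c4)⟩
    obtain ⟨a, e2, e3, e4⟩ := c5
    have c6 : S (k + 1) ω ⊆ M.occ Set.univ ω := fun a ⟨i, _, e2⟩ => ⟨i, trivial, e2⟩
    refine ⟨Set.mem_iUnion₂.2 ⟨_, b6, fun t ht => ?_⟩, a, e2, c6 e3, _, ?_, e4.mono c6⟩
    · obtain ⟨b, hb, rfl⟩ := mem_image.1 ht
      exact Or.inr ⟨a, e2, e3, e4.trans (c3 b hb)⟩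
    · rw [add_zero]
      exact (ρ2 k).trans b2.le
  have a2 : ∀ k, μ.real (⋃ H, ⋃ _ : Adm k H, Ch k H) ≤
      μ.real ((⋃ H, ⋃ _ : Adm (k + 1) H, Ch (k + 1) H) ∩ Far k) + (1 / 2) ^ (k + 2) := by
    intro k
    refine (union_inter M (T := {x | nm x ≤ ρ k}) (T' := {x | ρ k < nm x})
      (Set.disjoint_left.2 fun x a b => not_lt.2 (show nm x ≤ ρ k from a) b) _ _ (Hit k)
      (fun H => ?_) (fun H => ?_) (by positivity) (h k)).trans
      (add_le_add_left (measureReal_mono (a1 k)) _)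
    · have b := M.meas_occ (I := {i | nm i.1 ≤ ρ k}) (T := {x | nm x ≤ ρ k}) fun i hi => hi
      simp only [hCh, Set.ofPred_forall, Set.ofPred_or, Set.ofPred_exists, Set.ofPred_and]
      exact .iInter fun y => .iInter fun _ => (MeasurableSet.const _).union
        (.iUnion fun a => (MeasurableSet.const _).inter ((b a).inter (meas_path _ _ b a y)))
    · have : Hit k H = ⋃ x, ⋃ A, ⋃ _ : (ρ k < nm x ∧ nm x ≤ ρ (k + 1) ∧
          Conn A ∧ x ∈ H - A ∧ Adm (k + 1) (A.image (x + ·))), M.O x A := by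
        ext ω
        simp only [hHit, Set.mem_ofPred_eq, Set.mem_iUnion, exists_prop]
      rw [this]
      exact .iUnion fun x => .iUnion fun A => .iUnion fun c =>
        M.mono (Set.singleton_subset_iff.2 c.1) _ (M.meas x A)
  have a3 : ∀ k, 1 / 2 + (1 / 2) ^ (k + 1) ≤ μ.real (⋃ H, ⋃ _ : Adm k H, Ch k H) := by
    intro k
    induction k with
    | zero =>
      have : (⋃ H, ⋃ _ : Adm 0 H, Ch 0 H) = Set.univ :=
        Set.eq_univ_of_forall fun ω => Set.mem_iUnion₂.2 ⟨H₀, h0, fun y hy => Or.inl hy⟩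
      rw [this]
      norm_num
    | succ k ih =>
      have := (a2 k).trans (add_le_add_left (measureReal_mono Set.inter_subset_left (measure_ne_top _ _)) _)
      rw [pow_succ _ (k + 1)] at this ⊢
      linarith
  have a4 : ∀ k, ENNReal.ofReal (1 / 2) ≤ μ (Far k) := by
    intro k
    have := (a2 k).trans (add_le_add_left (measureReal_mono Set.inter_subset_right (measure_ne_top _ _)) _)
    have b := a3 k
    have b' : (0 : ℝ) ≤ (1 / 2) ^ (k + 1) := by positivity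
    rw [pow_succ _ (k + 1)] at this
    exact ENNReal.ofReal_le_of_le_toReal (by rw [← measureReal_def]; linarith)
  have a5 : ∀ k, MeasurableSet (Far k) := by
    intro k
    have b := fun y => M.le _ _ (M.meas_occ (I := Set.univ) (T := Set.univ) (fun _ _ => trivial) y)
    simp only [hFar, Set.ofPred_exists, Set.ofPred_and]
    exact .iUnion fun a => (MeasurableSet.const _).inter ((b a).inter
      (.iUnion fun y => (MeasurableSet.const _).inter (meas_path _ _ b a y)))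
  have a6 : Antitone Far := fun j k hjk ω ⟨a, e1, e2, b, e3, e4⟩ =>
    ⟨a, e1, e2, b, hjk.trans e3, e4⟩
  have a7 : ⋂ k, Far k ⊆ {ω | Perc (M.occ Set.univ ω)} := by
    intro ω hω
    by_contra hc
    simp only [Perc, Set.mem_ofPred_eq, not_exists, not_and, not_forall] at hc
    choose! r hr using hc
    obtain ⟨a, e1, e2, b, e3, e4⟩ := Set.mem_iInter.1 hω (H₀.sup r)
    exact hr a e2 b ((le_sup e1).trans e3) e4
  refine ne_of_gt (lt_of_lt_of_le ?_ (measure_mono a7))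
  rw [a6.measure_iInter (fun k => (a5 k).nullMeasurableSet) ⟨0, measure_ne_top _ _⟩]
  exact lt_of_lt_of_le (by norm_num) (le_iInf a4)

end chain

variable [NeZero d]

lemma tailD (h4 : d ≤ 4) {s t : ℝ} (s0 : 0 < s) {n r : ℕ} (hn : n ≤ s ^ 2) (hr : s * t ≤ r) :
    avg (d := d) n (fun H => if r < H.sup nm then 1 else 0) ≤ 56 * Real.exp (-t) := by
  have d4 : (d : ℝ) ≤ 4 := by exact_mod_cast h4
  refine (avg_mono (G := fun H => Real.exp (-t) * Real.exp ((H.sup nm : ℕ) / s))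
    fun a => ?_).trans ?_
  · split_ifs with h
    · rw [← Real.exp_add, Real.one_le_exp_iff, neg_add_eq_sub, sub_nonneg, le_div_iff₀ s0]
      have : (r : ℝ) ≤ ((trace a).sup nm : ℕ) := by exact_mod_cast h.le
      linarith
    · positivity
  · rw [avg_mul]
    nlinarith [mul_le_mul_of_nonneg_left (exp_mom (d := d) s0 hn) (Real.exp_pos (-t)).le,
      Real.exp_pos (-t)]

lemma good_prob (h3 : 3 ≤ d) (h4 : d ≤ 4) {u u' w : ℕ} (u0 : 0 < u) (w0 : 0 < w)
    (hu : 2 * w * u ≤ u') (hH : ∑ a ∈ range (u ^ 2 + 1), 1 / (a + 1 : ℝ) ≤ w)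
    (hE : 2 ^ 42 * u ^ 2 * w * Real.exp (-w) ≤ 1) :
    1 / (2 ^ 51 * w ^ 3) ≤ avg (d := d) (u ^ 2) fun H =>
      if gam d u u' w ≤ hit (u' ^ 2) H ∧ H.sup nm ≤ 2 * w * u then 1 else 0 := by
  have u1 : (1 : ℝ) ≤ u := by exact_mod_cast u0
  have w1 : (1 : ℝ) ≤ w := by exact_mod_cast w0
  have hu' : (2 * w * u : ℝ) ≤ u' := by exact_mod_cast hu
  have u'0 : (0 : ℝ) < u' := lt_of_lt_of_le (by positivity) hu'
  have h1 := mean_hit h3 h4 (u' ^ 2) (u ^ 2) (σ := (2 * u) ^ (4 - d) * w) (by positivity) (by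
    gcongr
    rw [Real.sqrt_le_left (by positivity)]
    push_cast
    nlinarith)
  set Mx : ℝ := 10000 * u' ^ 2 * w ^ 2 * u ^ (d - 2) with hMx
  have h2 : avg (d := d) (u ^ 2) (hit (u' ^ 2)) ≤ avg (d := d) (u ^ 2) fun H => (gam d u u' w + Mx *
      if gam d u u' w ≤ hit (u' ^ 2) H ∧ H.sup nm ≤ 2 * w * u then 1 else 0) +
      ((u' ^ 2 + 1) * (u ^ 2 + 1)) * if 2 * w * u < H.sup nm then 1 else 0 := by
    refine avg_mono fun s => ?_
    have g0 : 0 ≤ gam d u u' w := by unfold gam; positivity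
    by_cases c : 2 * w * u < (trace s).sup nm
    · have : hit (u' ^ 2) (trace s) ≤ (u' ^ 2 + 1) * (u ^ 2 + 1) := by
        refine (avg_mono (G := fun _ => (u' ^ 2 + 1) * (u ^ 2 + 1)) fun t => ?_).trans_eq
          (avg_const _ _)
        exact_mod_cast card_sub_le.trans
          ((Nat.mul_le_mul (card_trace s) (card_trace t)).trans_eq (mul_comm _ _))
      simp only [c, if_true, not_le.2 c, and_false, if_false]
      linarith
    · simp only [c, if_false, not_lt.1 c, and_true]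
      split_ifs with e
      · have b1 := hit_mono (u' ^ 2) (sub_box.2 (not_lt.1 c))
        have b2 := hit_box (0 : P d) (show 0 < 2 * w * u by positivity) (u' ^ 2)
        have b3 : hit (u' ^ 2) (box (0 : P d) (2 * w * u)) ≤ Mx := by
          refine le_of_mul_le_mul_right (b2.trans ?_) (by positivity)
          push_cast
          have e1 : (2 * w * u : ℝ) ^ 2 ≤ u' ^ 2 := by gcongr
          have e2 : (5 * (2 * w * u) : ℝ) ^ d ≤ 2500 * w ^ 2 * u ^ (d - 2) * (2 * w * u) ^ 2 := by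
            calc _ = 5 ^ d * (2 * w) ^ (d - 2) * u ^ (d - 2) * (2 * w * u : ℝ) ^ 2 := by
                  rw [mul_pow, show (2 * w * u : ℝ) ^ d = (2 * w * u) ^ (d - 2) * (2 * w * u) ^ 2 by
                    rw [← pow_add]; congr 1; omega, mul_pow _ (u : ℝ) (d - 2)]
                  ring
              _ ≤ 5 ^ 4 * (2 * w) ^ 2 * u ^ (d - 2) * (2 * w * u : ℝ) ^ 2 := by
                  gcongr
                  · norm_num
                  · linarith
                  · omega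
              _ = _ := by ring
          calc _ ≤ 2 * (u' ^ 2 + u' ^ 2) *
                (2500 * w ^ 2 * u ^ (d - 2) * (2 * w * u : ℝ) ^ 2) := by gcongr
            _ = _ := by rw [hMx]; ring
        linarith
      · linarith [not_le.1 e]
  rw [avg_add, avg_add, avg_const, avg_mul, avg_mul] at h2
  have h5 := tailD h4 (s := u) (t := w) (n := u ^ 2) (r := 2 * w * u) (by positivity) (by simp)
    (by push_cast; nlinarith)
  have h6 := h1.trans h2
  push_cast at h6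
  set B : ℝ := (u' ^ 2 + 1) * (u ^ 2 + 1) / (2 ^ 34 * ((2 * u) ^ (4 - d) * w)) with hB
  have h7 : (2 * u : ℝ) ^ (4 - d) ≤ 2 * u := (pow_le_pow_right₀ (by linarith) (by omega : 4 - d ≤ 1)).trans_eq (pow_one _)
  have h8 : 4 * gam d u u' w ≤ B := by
    rw [hB, gam, ← mul_div_assoc, div_le_div_iff₀ (by positivity) (by positivity)]
    have e1 : (u : ℝ) ^ (d - 2) * (2 * u) ^ (4 - d) ≤ 2 * u ^ 2 := by
      rw [mul_pow, mul_left_comm, ← pow_add, show d - 2 + (4 - d) = 2 by omega]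
      gcongr
      exact (pow_le_pow_right₀ (by norm_num) (by omega : 4 - d ≤ 1)).trans_eq (pow_one _)
    calc _ = 2 ^ 36 * w * u' ^ 2 * ((u : ℝ) ^ (d - 2) * (2 * u) ^ (4 - d)) := by ring
      _ ≤ 2 ^ 36 * w * (u' ^ 2 + 1) * (2 * (u ^ 2 + 1)) :=
          mul_le_mul (by gcongr; linarith) (by linarith) (by positivity) (by positivity)
      _ = _ := by ring
  have h9 : (u' ^ 2 + 1) * (u ^ 2 + 1) * (56 * Real.exp (-w)) ≤ B / 2 := by
    rw [hB, div_div, div_eq_mul_inv _ (_ * 2)]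
    refine mul_le_mul_of_nonneg_left ?_ (by positivity)
    rw [← one_div, le_div_iff₀ (by positivity)]
    refine le_trans ?_ hE
    have := Real.exp_pos (-w)
    calc _ ≤ 56 * Real.exp (-w) * (2 ^ 34 * ((2 * u ^ 2) * w) * 2) := by gcongr; nlinarith
      _ ≤ _ := by nlinarith [show 0 ≤ Real.exp (-w) * (u ^ 2 * w) by positivity]
  have h10 := mul_le_mul_of_nonneg_left h5 (show (0 : ℝ) ≤ (u' ^ 2 + 1) * (u ^ 2 + 1) by positivity)
  refine le_of_mul_le_mul_left (le_trans ?_ (show gam d u u' w ≤ Mx * _ by linarith))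
    (show 0 < Mx by positivity)
  rw [hMx, gam, mul_one_div, div_le_div_iff₀ (by positivity) (by positivity)]
  nlinarith [show 0 ≤ (u' : ℝ) ^ 2 * w ^ 3 * u ^ (d - 2) by positivity]

end Pool.Agent.H92.WD
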