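import Pool.Agent.H92.WD5

set_option autoImplicit false

/-! Percolation of worms at every intensity when `m(l) ≥ c l^(-β)`, `2 β < d + 2`, `d = 3, 4`. -/

namespace Pool.Agent.H92.WD

open Finset MeasureTheory ProbabilityTheory
open scoped Pointwise ENNReal

variable {d : ℕ} [NeZero d]

lemma mass (h3 : 3 ≤ d) (h4 : d ≤ 4) {u u' u'' w : ℕ} (u0 : 0 < u) (w0 : 0 < w)
    (hu : 2 ^ 54 * w ^ 4 * u ≤ u') (hu' : 2 * (2 * w) * u' ≤ u'')
    (hH : ∑ a ∈ range (u' ^ 2 + 1), 1 / (a + 1 : ℝ) ≤ (2 * w : ℕ))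
    (hE : 2 ^ 42 * u' ^ 2 * (2 * w : ℕ) * Real.exp (-(2 * w : ℕ)) ≤ 1) {H : Finset (P d)}
    (h1 : gam d u u' w ≤ hit (u' ^ 2) H) (h2 : H.sup nm ≤ 3 * (2 * w * u)) {n : ℕ}
    (hn : 2 * u' ^ 2 ≤ n) (hn' : n < 3 * u' ^ 2) :
    gam d u u' w / (2 ^ 55 * w ^ 3) ≤ avg n fun A : Finset (P d) =>
      if gam d u' u'' (2 * w) ≤ hit (u'' ^ 2) A ∧ A.sup nm ≤ 2 * (2 * w) * u' then
        ((H - A) \ box 0 (3 * (2 * w * u))).card else 0 := by
  have u'0 : 0 < u' := lt_of_lt_of_le (by positivity) hu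
  have u1 : (1 : ℝ) ≤ u := by exact_mod_cast u0
  have w1 : (1 : ℝ) ≤ w := by exact_mod_cast w0
  have u'1 : (1 : ℝ) ≤ u' := by exact_mod_cast u'0
  have hur : (2 ^ 54 * w ^ 4 * u : ℝ) ≤ u' := by exact_mod_cast hu
  set B := box (0 : P d) (3 * (2 * w * u)) with hB
  set f : Finset (P d) → ℝ := fun A => ((H - A) \ B).card with hf
  set g : Finset (P d) → ℝ := fun A => if gam d u' u'' (2 * w) ≤ hit (u'' ^ 2) A then 1 else 0
    with hg
  have f0 : ∀ A, 0 ≤ f A := fun _ => Nat.cast_nonneg _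
  have g0 : ∀ A, 0 ≤ g A := fun _ => by simp only [hg]; split_ifs <;> norm_num
  have g1 : ∀ A, g A ≤ 1 := fun _ => by simp only [hg]; split_ifs <;> norm_num
  have fm : Monotone f := fun A A' h =>
    Nat.cast_le.2 (card_le_card (sdiff_subset_sdiff (sub_subset_sub_left h) le_rfl))
  have a1 : gam d u u' w ≤ avg (u' ^ 2) f + B.card := by
    rw [← avg_const (d := d) (u' ^ 2) (B.card : ℝ), ← avg_add]
    exact h1.trans (avg_mono fun s => by
      simp only [hf]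
      exact_mod_cast card_le_card_sdiff_add_card)
  have a2 := avg_split (g := fun _ => 1) (fun _ => zero_le_one) (fun _ _ => le_rfl)
    (n - 2 * u' ^ 2) (u' ^ 2) f f0 fm
  simp only [avg_const, mul_one] at a2
  have a3 := avg_split g0 (fun e A => by
    simp only [hg]
    split_ifs with c c'
    · rfl
    · exact absurd (c.trans ((hit_shift _ (dir e) A).trans (hit_mono _ (subset_insert _ _)))) c'
    all_goals norm_num) (u' ^ 2) (n - 2 * u' ^ 2 + u' ^ 2) f f0 fm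
  rw [show u' ^ 2 + (n - 2 * u' ^ 2 + u' ^ 2) = n by omega] at a3
  have a4 : 1 / (2 ^ 54 * w ^ 3) ≤ avg (u' ^ 2) g := by
    refine le_trans (le_of_eq ?_) ((good_prob h3 h4 u'0 (by omega) hu' hH hE).trans
      (avg_mono fun s => ?_))
    · push_cast
      ring
    · simp only [hg]
      split_ifs with c c'
      · rfl
      · exact absurd c.1 c'
      all_goals norm_num
  have a5 := avg_mono (n := n) (F := fun A => f A * g A) (G := fun A => (if gam d u' u'' (2 * w) ≤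
      hit (u'' ^ 2) A ∧ A.sup nm ≤ 2 * (2 * w) * u' then f A else 0) + B.card * (3 * u' ^ 2) *
      if 2 * (2 * w) * u' < A.sup nm then 1 else 0) fun s => by
    by_cases c : 2 * (2 * w) * u' < (trace s).sup nm
    · simp only [c, if_true, not_le.2 c, and_false, if_false, zero_add, mul_one]
      refine (mul_le_of_le_one_right (f0 _) (g1 _)).trans ?_
      simp only [hf]
      exact_mod_cast (card_le_card sdiff_subset).trans (card_sub_le.trans (Nat.mul_le_mul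
        (card_le_card (sub_box.2 h2)) ((card_trace s).trans hn')))
    · simp only [c, if_false, not_lt.1 c, and_true, mul_zero, add_zero, hg]
      split_ifs <;> simp
  rw [avg_add, avg_mul] at a5
  have a6 := tailD h4 (s := 2 * u') (t := (2 * w : ℕ)) (n := n) (r := 2 * (2 * w) * u')
    (by positivity) (by exact_mod_cast (by nlinarith : n ≤ (2 * u') ^ 2)) (by push_cast; linarith)
  have a7 : 3 * u' ^ 2 * (56 * Real.exp (-(2 * w : ℕ))) ≤ 1 := by
    refine le_trans ?_ hE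
    have := Real.exp_pos (-(2 * w : ℕ))
    generalize Real.exp (-(2 * w : ℕ)) = e at *
    push_cast
    nlinarith [mul_le_mul_of_nonneg_left w1 (show 0 ≤ (u' : ℝ) ^ 2 * e by positivity),
      show 0 ≤ (u' : ℝ) ^ 2 * e by positivity]
  have a8 : (B.card : ℝ) ≤ gam d u u' w / (2 ^ 56 * w ^ 3) := by
    rw [hB, card_box, gam, div_div, le_div_iff₀ (by positivity)]
    push_cast
    have e1 : (2 * (3 * (2 * w * u)) + 1 : ℝ) ^ d ≤ (13 * w) ^ 4 * (u ^ 2 * u ^ (d - 2)) := by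
      rw [← pow_add, show 2 + (d - 2) = d by omega]
      calc _ ≤ (13 * w * u : ℝ) ^ d := by gcongr; nlinarith
        _ ≤ _ := by
          rw [mul_pow]
          gcongr
          linarith
    calc _ ≤ (13 * w) ^ 4 * (u ^ 2 * u ^ (d - 2)) * (2 ^ 37 * w * (2 ^ 56 * w ^ 3) : ℝ) := by gcongr
      _ ≤ (2 ^ 54 * w ^ 4 * u) ^ 2 * u ^ (d - 2) := by
        nlinarith [show (0 : ℝ) ≤ w ^ 8 * u ^ 2 * u ^ (d - 2) by positivity]
      _ ≤ _ := by gcongr
  have b0 : (0 : ℝ) ≤ B.card := Nat.cast_nonneg _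
  have a9 := mul_le_mul_of_nonneg_left ((mul_le_mul_of_nonneg_left a6 (by positivity)).trans a7) b0
  have a10 : (1 : ℝ) / (2 ^ 54 * w ^ 3) ≤ 1 := by
    rw [div_le_one (by positivity)]
    nlinarith [one_le_pow₀ (n := 3) w1]
  have a11 := mul_le_mul a2 a4 (by positivity) (avg_nonneg f0)
  have a12 := mul_le_mul_of_nonneg_right a1 (show (0 : ℝ) ≤ 1 / (2 ^ 54 * w ^ 3) by positivity)
  have a13 := mul_le_mul_of_nonneg_left a10 b0
  have e2 : gam d u u' w * (1 / (2 ^ 54 * w ^ 3)) = 4 * (gam d u u' w / (2 ^ 56 * w ^ 3)) := by ring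
  have e3 : gam d u u' w / (2 ^ 55 * w ^ 3) = 2 * (gam d u u' w / (2 ^ 56 * w ^ 3)) := by ring
  simp only [hf] at a5
  linarith

lemma step {Ω : Type} [MeasurableSpace Ω] {μ : Measure Ω} [IsProbabilityMeasure μ]
    (M : Model d μ) {m : ℕ → ℝ} (m0 : ∀ n, 0 ≤ m n) (ms : Summable m) {ϱ : ℝ} (ϱ0 : 0 ≤ ϱ)
    (hL : ∀ x (F : Finset (Finset (P d))),
      μ.real (⋂ A ∈ F, (M.O x A)ᶜ) ≤ Real.exp (-(ϱ * ∑ A ∈ F, nu m A)))
    (Q : P d → Finset (P d) → Prop) [∀ x A, Decidable (Q x A)] (X : Finset (P d)) (r : ℕ)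
    (I : Finset ℕ) {b q : ℝ} (b0 : 0 ≤ b) (hq : ∀ n ∈ I, q ≤ m n)
    (hb : ∀ n ∈ I, b ≤ avg n fun A => if A.sup nm ≤ r then (X.filter (Q · A)).card else 0) :
    μ.real {ω | ∃ x A, Q x A ∧ ω ∈ M.O x A}ᶜ ≤ Real.exp (-(ϱ * (I.card * (q * b)))) := by
  set F : P d → Finset (Finset (P d)) := fun x => (box 0 r).powerset.filter (Q x) with hF
  have h1 : {ω | ∃ x A, Q x A ∧ ω ∈ M.O x A}ᶜ ⊆ ⋂ x ∈ X, ⋂ A ∈ F x, (M.O x A)ᶜ := fun ω hω =>
    Set.mem_iInter₂.2 fun x _ => Set.mem_iInter₂.2 fun A hA h => hω ⟨x, A, (mem_filter.1 hA).2, h⟩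
  refine (measureReal_mono h1).trans ?_
  rw [prod_sites M X _ fun x => Finset.measurableSet_biInter _ fun A _ => (M.meas x A).compl]
  refine (prod_le_prod (fun _ _ => measureReal_nonneg) fun x _ => hL x _).trans ?_
  rw [← Real.exp_sum, Real.exp_le_exp, sum_neg_distrib, neg_le_neg_iff, ← mul_sum]
  refine mul_le_mul_of_nonneg_left ?_ ϱ0
  have h2 : ∀ A : Finset (P d), ∑ n ∈ I, m n * avg n (fun H => if H = A then 1 else 0) ≤ nu m A :=
    fun A => (summable_avg m0 ms (b := 1) (fun _ => by split_ifs <;> norm_num)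
      fun _ => by split_ifs <;> norm_num).sum_le_tsum I
        fun n _ => mul_nonneg (m0 n) (avg_nonneg fun _ => by split_ifs <;> norm_num)
  refine le_trans ?_ (sum_le_sum fun x _ => sum_le_sum fun A _ => h2 A)
  simp only [sum_comm (t := I), ← mul_sum, ← avg_sum]
  rw [← nsmul_eq_mul]
  refine card_nsmul_le_sum _ _ _ fun n hn => mul_le_mul (hq n hn) ((hb n hn).trans
    (avg_mono fun s => ?_)) b0 (m0 n)
  simp only [sum_ite_eq, hF, mem_filter, mem_powerset, sub_box]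
  split_ifs with c <;> simp [c]

omit [NeZero d] in
lemma num (h3 : 3 ≤ d) (h4 : d ≤ 4) {β : ℝ} {j : ℕ} (hδ : 10 ≤ (d + 2 - 2 * β) * j) :
    (2 : ℝ) ^ j * 2 ^ j * (2 ^ j) ^ 4 ≤ (2 ^ (54 * (j + 1) ^ 2)) ^ 4 *
      ((2 ^ (54 * (j + 1) ^ 2)) ^ 2) ^ (-β) * (2 ^ (54 * j ^ 2)) ^ (d - 2) := by
  simp only [← pow_mul, ← pow_add]
  simp only [← Real.rpow_natCast (2 : ℝ)]
  rw [← Real.rpow_mul (by norm_num), ← Real.rpow_add (by norm_num), ← Real.rpow_add (by norm_num)]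
  refine Real.rpow_le_rpow_of_exponent_le (by norm_num) ?_
  push_cast [show 2 ≤ d by omega]
  have d4 : (d : ℝ) ≤ 4 := by exact_mod_cast h4
  have j0 : (0 : ℝ) ≤ j := Nat.cast_nonneg _
  have δ0 : 0 ≤ d + 2 - 2 * β := by
    by_contra h
    nlinarith
  nlinarith [mul_le_mul_of_nonneg_left hδ j0, mul_le_mul_of_nonneg_left d4 j0]

lemma num2 {j : ℕ} (hj : 15 ≤ j) : 108 * j ^ 2 + j + 42 ≤ 2 ^ j := by
  induction j, hj using Nat.le_induction with
  | base => norm_num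
  | succ j hj ih =>
    rw [pow_succ 2]
    nlinarith

theorem lower (h3 : 3 ≤ d) (h4 : d ≤ 4) {m : ℕ → ℝ} (m0 : ∀ n, 0 ≤ m n) (ms : Summable m)
    {c β : ℝ} (c0 : 0 < c) (β0 : 0 ≤ β) (hβ : 2 * β < d + 2)
    (hm : ∀ n : ℕ, c * (n + 1 : ℝ) ^ (-β) ≤ m n) {ϱ : ℝ} (ϱ0 : 0 < ϱ)
    {Ω : Type} [MeasurableSpace Ω] {μ : Measure Ω} [IsProbabilityMeasure μ] (M : Model d μ)
    (hL : ∀ x (F : Finset (Finset (P d))),
      μ.real (⋂ A ∈ F, (M.O x A)ᶜ) ≤ Real.exp (-(ϱ * ∑ A ∈ F, nu m A))) :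
    μ {ω | Perc (M.occ Set.univ ω)} ≠ 0 := by
  classical
  obtain ⟨κ, hκ⟩ : ∃ κ, κ = ϱ * c * 3 ^ (-β) / 2 ^ 92 := ⟨_, rfl⟩
  have κ0 : 0 < κ := by rw [hκ]; positivity
  obtain ⟨k₀, hk⟩ : ∃ k₀ : ℕ, ∀ j, k₀ ≤ j → 15 ≤ j ∧ 10 ≤ (d + 2 - 2 * β) * j ∧ 1 ≤ κ * 2 ^ j := by
    obtain ⟨a, ha⟩ := exists_nat_ge (10 / (d + 2 - 2 * β))
    obtain ⟨b, hb⟩ := exists_nat_ge (1 / κ)
    refine ⟨15 + a + b, fun j hj => ⟨by omega, ?_, ?_⟩⟩
    · rw [← div_le_iff₀' (by linarith)]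
      exact ha.trans (by exact_mod_cast (by omega))
    · rw [← div_le_iff₀' κ0]
      exact hb.trans (by exact_mod_cast (le_trans (by omega) (Nat.lt_two_pow_self (n := j)).le))
  obtain ⟨U, hU⟩ : ∃ U : ℕ → ℕ, ∀ j, U j = 2 ^ (54 * j ^ 2) := ⟨_, fun _ => rfl⟩
  have U0 : ∀ j, 0 < U j := fun j => by rw [hU]; positivity
  have F1 : ∀ j, 2 ^ 54 * (2 ^ j) ^ 4 * U j ≤ U (j + 1) := fun j => by
    simp only [hU, ← pow_mul, ← pow_add]
    exact Nat.pow_le_pow_right (by norm_num) (by nlinarith)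
  have F2 : ∀ j, 2 * 2 ^ j * U j ≤ U (j + 1) := fun j =>
    le_trans (Nat.mul_le_mul_right _ (Nat.mul_le_mul (by norm_num)
      (Nat.le_self_pow (by norm_num) _))) (F1 j)
  have F3 : ∀ j, k₀ ≤ j → ∑ a ∈ range (U j ^ 2 + 1), 1 / (a + 1 : ℝ) ≤ (2 ^ j : ℕ) := by
    intro j hj
    have h1 := harmonic_le_one_add_log (U j ^ 2 + 1)
    have h2 : ((U j ^ 2 + 1 : ℕ) : ℝ) ≤ 2 ^ (108 * j ^ 2 + 1) := by
      have := Nat.one_le_two_pow (n := 108 * j ^ 2)
      simp only [hU, ← pow_mul]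
      rw [pow_succ 2, show 54 * j ^ 2 * 2 = 108 * j ^ 2 by ring]
      exact_mod_cast (by omega)
    have h5 := Real.log_le_log (by positivity) h2
    have h6 : ((108 * j ^ 2 + j + 42 : ℕ) : ℝ) ≤ (2 ^ j : ℕ) := by exact_mod_cast num2 (hk j hj).1
    rw [Real.log_pow] at h5
    simp only [harmonic, Rat.cast_sum, Rat.cast_inv, Rat.cast_natCast] at h1
    simp only [one_div]
    push_cast at h1 h5 h6 ⊢
    nlinarith [Real.log_two_lt_d9, (Nat.cast_nonneg j : (0 : ℝ) ≤ j), sq_nonneg (j : ℝ)]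
  have F4 : ∀ j, k₀ ≤ j → 2 ^ 42 * U j ^ 2 * (2 ^ j : ℕ) * Real.exp (-(2 ^ j : ℕ)) ≤ 1 := by
    intro j hj
    rw [Real.exp_neg, ← div_eq_mul_inv, div_le_one (Real.exp_pos _), ← Real.exp_one_pow]
    refine le_trans ?_ (pow_le_pow_left₀ (a := 2) (by norm_num)
      (by linarith [Real.exp_one_gt_d9]) _)
    simp only [hU]
    push_cast
    simp only [← pow_mul, ← pow_add]
    exact pow_le_pow_right₀ (by norm_num) (by linarith [num2 (hk j hj).1])
  obtain ⟨ρ, hρ⟩ : ∃ ρ : ℕ → ℕ, ∀ k, ρ k = 3 * (2 * 2 ^ (k₀ + k) * U (k₀ + k)) :=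
    ⟨_, fun _ => rfl⟩
  have F5 : ∀ k, ρ k ≤ 2 * (2 * 2 ^ (k₀ + k)) * U (k₀ + k + 1) := fun k => by
    have := F2 (k₀ + k)
    have := Nat.le_mul_of_pos_left (U (k₀ + k + 1)) (Nat.two_pow_pos (k₀ + k))
    simp only [hρ]
    nlinarith
  have F6 : ∀ k, ρ (k + 1) = 3 * (2 * (2 * 2 ^ (k₀ + k)) * U (k₀ + k + 1)) := fun k => by
    simp only [hρ, ← add_assoc, pow_succ']
  obtain ⟨s, hs⟩ : ∃ s : Fin (U k₀ ^ 2) → Fin d × Bool, gam d (U k₀) (U (k₀ + 1)) (2 ^ k₀) ≤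
      hit (U (k₀ + 1) ^ 2) (trace s) ∧ (trace s).sup nm ≤ 2 * 2 ^ k₀ * U k₀ := by
    by_contra h
    have := (good_prob h3 h4 (U0 _) (by positivity) (F2 _) (F3 _ le_rfl) (F4 _ le_rfl)).trans
      ((avg_mono (G := fun _ => 0) fun s => by rw [if_neg fun c => h ⟨s, c⟩]).trans_eq
        (avg_const _ _))
    exact absurd this (not_le.2 (by positivity))
  refine chain M ρ (fun k => by have := F5 k; rw [F6]; omega) (fun k => ?_)
    (fun k H => gam d (U (k₀ + k)) (U (k₀ + k + 1)) (2 ^ (k₀ + k)) ≤ hit (U (k₀ + k + 1) ^ 2) H ∧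
      H.sup nm ≤ ρ k) (H₀ := trace s) ⟨hs.1, hs.2.trans (by simp only [hρ, add_zero]; omega)⟩
    fun k H hH => ?_
  · have := Nat.lt_two_pow_self (n := k₀ + k)
    have := U0 (k₀ + k)
    simp only [hρ]
    nlinarith
  have F7 := F5 k
  have F8 := F6 k
  have F9 := hk (k₀ + k) (by omega)
  simp only [← add_assoc]
  have hkj : k ≤ k₀ + k - 15 := by have := (hk k₀ le_rfl).1; omega
  have hj : k₀ ≤ k₀ + k + 1 := by omega
  simp only [hρ] at hH
  have hρk := hρ k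
  generalize k₀ + k = j at *
  have u0 : (0 : ℝ) < U (j + 1) := by exact_mod_cast U0 _
  refine (step M m0 ms ϱ0.le hL _ (box 0 (ρ (k + 1))) (2 * (2 * 2 ^ j) * U (j + 1))
    (Ico (2 * U (j + 1) ^ 2) (3 * U (j + 1) ^ 2)) (q := c * (3 * U (j + 1) ^ 2) ^ (-β))
    (b := gam d (U j) (U (j + 1)) (2 ^ j) / (2 ^ 55 * (2 ^ j : ℕ) ^ 3))
    (by unfold gam; positivity) (fun n hn => le_trans ?_ (hm n)) fun n hn => ?_).trans ?_
  · refine mul_le_mul_of_nonneg_left (Real.rpow_le_rpow_of_nonpos (by positivity) ?_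
      (by linarith)) c0.le
    exact_mod_cast (mem_Ico.1 hn).2
  · refine (mass h3 h4 (U0 _) (by positivity) (F1 j) (u'' := U (j + 1 + 1))
      (by simpa only [pow_succ'] using F2 (j + 1)) (by simpa only [pow_succ' 2 j] using F3 _ hj)
      (by simpa only [pow_succ' 2 j] using F4 _ hj) hH.1 hH.2 (mem_Ico.1 hn).1
      (mem_Ico.1 hn).2).trans (avg_mono fun t => ?_)
    have hc := conn_trace t
    generalize trace t = A at *
    split_ifs with c1 c2
    · refine Nat.cast_le.2 (card_le_card fun x hx => ?_)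
      obtain ⟨x1, x2⟩ := Finset.mem_sdiff.1 hx
      obtain ⟨y, hy, z, hz, e⟩ := mem_sub.1 x1
      have b1 := tri' x y 0
      have b2 := (le_sup (f := nm) hy).trans hH.2
      have b3 := (le_sup (f := nm) hz).trans c2
      rw [show y - x = z by rw [← e, sub_sub_cancel]] at b1
      rw [mem_box] at x2
      simp only [sub_zero] at b1 x2
      refine mem_filter.2 ⟨mem_box.2 (by rw [sub_zero]; omega), by omega, by omega, hc, x1,
        by rw [pow_succ']; exact c1.1.trans (hit_shift _ _ _), ?_⟩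
      rw [sup_image]
      refine Finset.sup_le fun a ha => ?_
      have b4 := tri (x + a) x 0
      have b5 := (le_sup (f := nm) ha).trans c2
      simp only [sub_zero, add_sub_cancel_left, Function.comp] at b4 ⊢
      omega
    · exact absurd c1.2 c2
    · exact Nat.cast_nonneg _
    · exact le_rfl
  · have b1 := num h3 h4 F9.2.1
    have b2 : ((k + 2 : ℕ) : ℝ) ≤ 2 ^ j := by
      exact_mod_cast le_trans (by omega) (Nat.lt_two_pow_self (n := j)).le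
    refine le_trans ?_ (pow_le_pow_left₀ (Real.exp_pos (-1)).le
      (by linarith [Real.exp_neg_one_lt_d9]) _)
    rw [← Real.exp_nat_mul, Real.exp_le_exp, mul_neg_one, neg_le_neg_iff, Nat.card_Ico,
      show 3 * U (j + 1) ^ 2 - 2 * U (j + 1) ^ 2 = U (j + 1) ^ 2 by omega,
      Real.mul_rpow (by norm_num) (by positivity), gam]
    simp only [hU]
    push_cast
    have b3 := mul_le_mul_of_nonneg_left b1 κ0.le
    have b4 := mul_le_mul_of_nonneg_right F9.2.2 (show (0 : ℝ) ≤ 2 ^ j * (2 ^ j) ^ 4 by positivity)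
    have b5 := mul_le_mul_of_nonneg_right b2 (show (0 : ℝ) ≤ (2 ^ j) ^ 4 by positivity)
    push_cast at b5
    refine le_of_mul_le_mul_right (a := (2 ^ j) ^ 4) (le_trans (by linarith) (b3.trans_eq ?_))
      (by positivity)
    rw [hκ]
    field_simp

end Pool.Agent.H92.WD
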