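import Pool.Agent.H92.WD6

set_option autoImplicit false

/-! The worm model given by independent indicators. -/

namespace Pool.Agent.H92.WD

open Finset MeasureTheory ProbabilityTheory
open scoped Pointwise ENNReal

variable {d : ℕ}

lemma rpow_up {β : ℝ} (hβ : d + 2 ≤ 2 * β) (n : ℕ) :
    ((n + 1 : ℕ) : ℝ) ^ (-β) ≤ 1 / √(n + 1) ^ (d + 2) := by
  rw [Real.sqrt_eq_rpow, ← Real.rpow_natCast, ← Real.rpow_mul (by positivity), one_div,
    ← Real.rpow_neg (by positivity)]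
  push_cast
  exact Real.rpow_le_rpow_of_exponent_le (by simp) (by linarith)

lemma reach_iff (S : Set (P d)) : (∃ y, {z | (SimpleGraph.fromRel fun a b : P d =>
    a ∈ S ∧ b ∈ S ∧ adj a b).Reachable y z}.Infinite) ↔ Perc S := by
  simp only [perc_iff, SimpleGraph.reachable_iff_reflTransGen, SimpleGraph.fromRel_adj]
  refine exists_congr fun y => ⟨fun h => ?_, fun h => h.2.mono fun z hz => ?_⟩
  · have k : ∀ z, Relation.ReflTransGen (fun a b : P d => a ≠ b ∧
        (a ∈ S ∧ b ∈ S ∧ adj a b ∨ b ∈ S ∧ a ∈ S ∧ adj b a)) y z →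
        (z = y ∨ y ∈ S) ∧ Path S y z := by
      intro z hz
      induction hz with
      | refl => exact ⟨Or.inl rfl, .refl⟩
      | @tail b c _ e ih =>
        have e' : b ∈ S ∧ c ∈ S ∧ adj b c := e.2.elim id fun f => ⟨f.2.1, f.1, f.2.2.symm⟩
        exact ⟨Or.inr (ih.1.elim (· ▸ e'.1) id), .tail ih.2 ⟨e'.2.2, e'.2.1⟩⟩
    obtain ⟨z, z1, z2⟩ := h.exists_notMem_finset {y}
    exact ⟨(k z z1).1.resolve_left (by simpa using z2), h.mono fun z hz => (k z hz).2⟩
  · induction hz with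
    | refl => exact .refl
    | @tail b c e f ih =>
      exact .tail ih ⟨fun g => by simpa [adj, g] using f.1, Or.inl ⟨Path.mem e h.1, f.2, f.1⟩⟩

variable {Ω : Type} [mΩ : MeasurableSpace Ω] {μ : Measure Ω}

def ofInd (ξ : P d × Finset (P d) → Ω → Bool) (hm : ∀ k, Measurable (ξ k)) (hi : iIndepFun ξ μ) :
    Model d μ where
  G T := ⨆ k ∈ {k : P d × Finset (P d) | k.1 ∈ T}, MeasurableSpace.comap (ξ k) inferInstance
  le _ := iSup₂_le fun k _ => (hm k).comap_le
  mono _ _ h := biSup_mono fun _ hk => h hk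
  ind _ _ h := indep_iSup_of_disjoint (fun k => (hm k).comap_le) hi.iIndep
    (Set.disjoint_left.2 fun _ a b => Set.disjoint_left.1 h a b)
  O x A := {ω | ξ (x, A) ω = true}
  meas x A := le_iSup₂ (f := fun k (_ : k ∈ {k : P d × Finset (P d) | k.1 ∈ ({x} : Set (P d))}) =>
    MeasurableSpace.comap (ξ k) inferInstance) (x, A) rfl _ ⟨{true}, trivial, rfl⟩

lemma ofInd_low [IsProbabilityMeasure μ] {ξ : P d × Finset (P d) → Ω → Bool}
    (hm : ∀ k, Measurable (ξ k)) (hi : iIndepFun ξ μ) {a : Finset (P d) → ℝ} (a0 : ∀ A, 0 ≤ a A)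
    {v : ℝ} (v0 : 0 ≤ v)
    (h : ∀ k, μ {ω | ξ k ω = true} = ENNReal.ofReal (1 - Real.exp (-(v * a k.2)))) (x : P d)
    (F : Finset (Finset (P d))) :
    μ.real (⋂ A ∈ F, ((ofInd ξ hm hi).O x A)ᶜ) ≤ Real.exp (-(v * ∑ A ∈ F, a A)) := by
  rw [measureReal_def, (hi.precomp (g := Prod.mk x) (Prod.mk_right_injective x)).meas_biInter
    (s := fun A => ((ofInd ξ hm hi).O x A)ᶜ) fun A _ => MeasurableSet.compl ⟨{true}, trivial, rfl⟩, ENNReal.toReal_prod, mul_sum,
    ← sum_neg_distrib, Real.exp_sum]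
  refine (prod_congr rfl fun A _ => ?_).le
  rw [← measureReal_def, probReal_compl_eq_one_sub ((ofInd ξ hm hi).le _ _
    ((ofInd ξ hm hi).meas x A)), measureReal_def]
  erw [h (x, A)]
  rw [ENNReal.toReal_ofReal, sub_sub_cancel]
  simpa using mul_nonneg v0 (a0 A)

end Pool.Agent.H92.WD
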