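import Pool.Agent.H92.WD7

set_option autoImplicit false

/-! The worm model on `ℤ³` given by counts, lengths and steps. -/

namespace Pool.Agent.H92.WD

open Finset MeasureTheory ProbabilityTheory
open scoped Pointwise ENNReal

lemma koenig {d : ℕ} {S : Set (P d)} : Perc S ↔
    ∃ p : ℕ → P d, Function.Injective p ∧ ∀ n, adj (p (n + 1)) (p n) ∧ p n ∈ S := by
  rw [perc_iff]
  refine ⟨fun ⟨a, h⟩ => ?_, fun ⟨p, h1, h2⟩ => ⟨p 0, (h2 0).2,
    Set.infinite_of_injective_forall_mem h1 fun n => ?_⟩⟩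
  · have key : ∀ z : {z : P d × Set (P d) // z.1 ∈ z.2 ∧ {b | Path z.2 z.1 b}.Infinite},
        ∃ z' : {z : P d × Set (P d) // z.1 ∈ z.2 ∧ {b | Path z.2 z.1 b}.Infinite},
          adj z'.1.1 z.1.1 ∧ z'.1.2 = z.1.2 \ {z.1.1} := by
      rintro ⟨⟨a, T⟩, -, h⟩
      by_contra hc
      refine h (((Set.finite_singleton a).union (Set.Finite.biUnion
        (s := {y | adj y a ∧ y ∈ T \ {a}}) (t := fun y => {b | Path (T \ {a}) y b})
        ((box a 1).finite_toSet.subset fun y hy => mem_box.2 (adj_nm hy.1)) fun y hy => ?_)).subset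
        fun b hb => ?_)
      · by_contra e
        exact hc ⟨⟨(y, T \ {a}), hy.2, e⟩, hy.1, rfl⟩
      · induction hb with
        | refl => exact Or.inl rfl
        | @tail b c _ k ih =>
          by_cases e : c = a
          · exact Or.inl e
          rcases ih with rfl | ih
          · exact Or.inr (Set.mem_biUnion ⟨k.1.symm, k.2, e⟩ .refl)
          · obtain ⟨y, y1, y2⟩ := Set.mem_iUnion₂.1 ih
            exact Or.inr (Set.mem_biUnion y1 (.tail y2 ⟨k.1, k.2, e⟩))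
    choose f f1 f2 using key
    set q := fun n => f^[n] ⟨(a, S), h⟩ with hq
    have q1 : ∀ n, q (n + 1) = f (q n) := fun n => Function.iterate_succ_apply' _ _ _
    have q2 : Antitone fun n => (q n).1.2 := antitone_nat_of_succ_le fun n => by
      rw [q1, f2]
      exact Set.sdiff_subset
    refine ⟨fun n => (q n).1.1, Function.Injective.of_lt_imp_ne fun i j hij e => ?_,
      fun n => ⟨by simp only [q1]; exact f1 _, q2 (Nat.zero_le n) (q n).2.1⟩⟩
    have := q2 (show i + 1 ≤ j from hij) (q j).2.1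
    simp only [q1, f2] at this
    exact this.2 e.symm
  · induction n with
    | zero => exact .refl
    | succ n ih => exact .tail ih ⟨(h2 n).1.symm, (h2 _).2⟩

lemma iIndep_sum {α β Ω₁ Ω₂ : Type} [MeasurableSpace Ω₁] [MeasurableSpace Ω₂] {μ₁ : Measure Ω₁}
    {μ₂ : Measure Ω₂} [IsProbabilityMeasure μ₁] [IsProbabilityMeasure μ₂] {X : α → Ω₁ → ℕ}
    {Y : β → Ω₂ → ℕ} (hX : iIndepFun X μ₁) (hY : iIndepFun Y μ₂) :
    iIndepFun (Sum.elim (fun a (ω : Ω₁ × Ω₂) => X a ω.1) fun b ω => Y b ω.2) (μ₁.prod μ₂) := by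
  rw [iIndepFun_iff_measure_inter_preimage_eq_mul] at *
  intro S s _
  have h1 : (⋂ i ∈ S, Sum.elim (fun a (ω : Ω₁ × Ω₂) => X a ω.1) (fun b ω => Y b ω.2) i ⁻¹' s i) =
      (⋂ a ∈ S.toLeft, X a ⁻¹' s (.inl a)) ×ˢ ⋂ b ∈ S.toRight, Y b ⁻¹' s (.inr b) := by
    ext ω
    simp
  rw [h1, Measure.prod_prod, hX _ fun _ _ => .of_discrete, hY _ fun _ _ => .of_discrete,
    prod_sum_eq_prod_toLeft_mul_prod_toRight]
  congr 1 <;> refine prod_congr rfl fun a _ => ?_
  · rw [show (Sum.elim (fun a (ω : Ω₁ × Ω₂) => X a ω.1) (fun b ω => Y b ω.2) (.inl a) ⁻¹' s (.inl a))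
      = (X a ⁻¹' s (.inl a)) ×ˢ Set.univ by ext; simp, Measure.prod_prod]
    simp
  · rw [show (Sum.elim (fun a (ω : Ω₁ × Ω₂) => X a ω.1) (fun b ω => Y b ω.2) (.inr a) ⁻¹' s (.inr a))
      = Set.univ ×ˢ (Y a ⁻¹' s (.inr a)) by ext; simp, Measure.prod_prod]
    simp

abbrev Z3 := ℤ × ℤ × ℤ

def psi : P 3 ≃+ Z3 where
  toFun p := (p 0, p 1, p 2)
  invFun z := ![z.1, z.2.1, z.2.2]
  left_inv p := by ext i; fin_cases i <;> rfl
  right_inv _ := rfl
  map_add' _ _ := rfl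

def e6 : Fin 6 ≃ Fin 3 × Bool where
  toFun := ![(0, true), (0, false), (1, true), (1, false), (2, true), (2, false)]
  invFun e := if e.2 then ![0, 2, 4] e.1 else ![1, 3, 5] e.1
  left_inv := by decide
  right_inv := by decide

lemma psi_dir (j : Fin 6) : psi (dir (e6 j)) =
    ![(1, 0, 0), (-1, 0, 0), (0, 1, 0), (0, -1, 0), (0, 0, 1), (0, 0, -1)] j := by
  fin_cases j <;> rfl

def st (x : P 3) (i n : ℕ) (ω : Z3 × ℕ × ℕ → Fin 6) (k : Fin n) : Fin 3 × Bool :=
  e6 (ω (psi x, i, k))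

lemma mem_st (x y : P 3) (i n : ℕ) (ω : Z3 × ℕ × ℕ → Fin 6) : y ∈ trace (st x i n ω) ↔
    ∃ j < n + 1, y = ∑ k ∈ range j, dir (e6 (ω (psi x, i, k))) := by
  simp only [trace, mem_image, mem_range, st]
  refine exists_congr fun j => and_congr_right fun hj => ?_
  rw [eq_comm, sum_filter,
    Fin.sum_univ_eq_sum_range fun k => if k < j then dir (e6 (ω (psi x, i, k))) else 0,
    ← sum_filter, show (range n).filter (· < j) = range j by ext; simp; omega]

noncomputable abbrev mu3 : Measure (Z3 × ℕ × ℕ → Fin 6) :=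
  Measure.infinitePi fun _ => (PMF.uniformOfFintype (Fin 6)).toMeasure

lemma mu3_st (x : P 3) (i n : ℕ) (F : Finset (Finset (P 3))) :
    mu3 {ω | trace (st x i n ω) ∈ F} = ENNReal.ofReal (avg n fun H => if H ∈ F then 1 else 0) := by
  have h := Measure.map_infinitePi_infinitePi_of_inj
    (P := fun _ : Z3 × ℕ × ℕ => (PMF.uniformOfFintype (Fin 6)).toMeasure)
    (f := fun k : Fin n => (psi x, i, (k : ℕ))) fun a b e => Fin.ext (by simpa using e)
  set Q := (univ.filter fun s : Fin n → Fin 3 × Bool => trace s ∈ F).map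
    (Equiv.piCongrRight fun _ => e6).symm.toEmbedding with hQ
  have h1 : {ω | trace (st x i n ω) ∈ F} =
      (fun ω (k : Fin n) => ω (psi x, i, (k : ℕ))) ⁻¹' (Q : Set (Fin n → Fin 6)) := by
    ext ω
    simp only [hQ, Set.mem_ofPred_eq, Set.mem_preimage, mem_coe, mem_map_equiv, mem_filter,
      mem_univ, true_and]
    rfl
  rw [h1, ← Measure.map_apply (by fun_prop) .of_discrete, h, ← sum_measure_singleton, avg,
    sum_boole, ENNReal.ofReal_div_of_pos (by positivity), ENNReal.ofReal_pow (by positivity)]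
  simp [hQ, div_eq_mul_inv, ENNReal.inv_pow]
  norm_num

abbrev Om := (Z3 → ℕ) × (Z3 × ℕ → ℕ) × (Z3 × ℕ × ℕ → Fin 6)

variable (π m : PMF ℕ)

noncomputable abbrev mu23 :=
  (Measure.infinitePi fun _ : Z3 × ℕ => m.toMeasure).prod mu3

noncomputable abbrev muW : Measure Om :=
  (Measure.infinitePi fun _ : Z3 => π.toMeasure).prod (mu23 m)

def V (x : P 3) (i : ℕ) (F : Finset (Finset (P 3))) : Set ((Z3 × ℕ → ℕ) × (Z3 × ℕ × ℕ → Fin 6)) :=
  ⋃ n, {ω | ω (psi x, i) = n + 1} ×ˢ {ω | trace (st x i n ω) ∈ F}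

lemma pi_eval {ι : Type} (a : ι) (k : ℕ) :
    (Measure.infinitePi fun _ : ι => m.toMeasure) {ω | ω a = k} = m k :=
  ((measurePreserving_eval_infinitePi (fun _ : ι => m.toMeasure) a).measure_preimage
    (s := {k}) MeasurableSet.of_discrete.nullMeasurableSet).trans
    (m.toMeasure_apply_singleton k .of_discrete)

lemma summ : Summable fun n => (m (n + 1)).toReal :=
  (summable_nat_add_iff 1).2 (ENNReal.summable_toReal m.tsum_coe_ne_top)

lemma mu_V (x : P 3) (i : ℕ) (F : Finset (Finset (P 3))) :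
    mu23 m (V x i F) = ENNReal.ofReal (∑ A ∈ F, nu (fun n => (m (n + 1)).toReal) A) := by
  have m0 : ∀ n, 0 ≤ (m (n + 1)).toReal := fun _ => ENNReal.toReal_nonneg
  have k0 : ∀ H : Finset (P 3), (0 : ℝ) ≤ if H ∈ F then 1 else 0 := fun H => by
    split_ifs <;> norm_num
  rw [sum_nu m0 (summ m) F fun A => A, V, measure_iUnion]
  · simp only [sum_ite_eq]
    rw [ENNReal.ofReal_tsum_of_nonneg (fun n => mul_nonneg (m0 n) (avg_nonneg k0))
      (summable_avg m0 (summ m) k0 (b := 1) fun H => by split_ifs <;> norm_num)]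
    refine tsum_congr fun n => ?_
    rw [Measure.prod_prod, pi_eval, mu3_st, ENNReal.ofReal_mul (m0 n),
      ENNReal.ofReal_toReal (m.apply_ne_top _)]
  · exact fun a b hab => Set.disjoint_left.2 fun ω h1 h2 => hab (Nat.succ_injective (h1.1.symm.trans h2.1))
  · intro n
    refine (measurableSet_eq_fun (by fun_prop) measurable_const).prod ?_
    exact (show Measurable (st x i n) from measurable_pi_lambda _ fun k =>
      (Measurable.of_discrete (f := e6)).comp (measurable_pi_apply _))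
      (MeasurableSet.of_discrete (s := {s | trace s ∈ F}))

def ZZ : P 3 ⊕ P 3 × ℕ ⊕ P 3 × ℕ × ℕ → Om → ℕ :=
  Sum.elim (fun a ω => ω.1 (psi a)) fun b ω => Sum.elim
    (fun (a : P 3 × ℕ) (ω : (Z3 × ℕ → ℕ) × (Z3 × ℕ × ℕ → Fin 6)) => ω.1 (psi a.1, a.2))
    (fun (a : P 3 × ℕ × ℕ) ω => (ω.2 (psi a.1, a.2) : ℕ)) b ω.2

def site : P 3 ⊕ P 3 × ℕ ⊕ P 3 × ℕ × ℕ → P 3 := Sum.elim id (Sum.elim Prod.fst Prod.fst)

lemma ZZ_meas (k : P 3 ⊕ P 3 × ℕ ⊕ P 3 × ℕ × ℕ) : Measurable (ZZ k) := by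
  rcases k with a | a | a <;> simp only [ZZ, Sum.elim_inl, Sum.elim_inr] <;> fun_prop

lemma ZZ_ind : iIndepFun ZZ (muW π m) :=
  iIndep_sum ((iIndepFun_infinitePi (X := fun _ (a : ℕ) => a) fun _ => measurable_id).precomp
    psi.injective) (iIndep_sum
    ((iIndepFun_infinitePi (X := fun _ (a : ℕ) => a) fun _ => measurable_id).precomp
      (psi.injective.prodMap Function.injective_id))
    ((iIndepFun_infinitePi (X := fun _ (a : Fin 6) => (a : ℕ)) fun _ => .of_discrete).precomp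
      (psi.injective.prodMap Function.injective_id)))

abbrev GG (T : Set (P 3)) : MeasurableSpace Om :=
  ⨆ k ∈ {k | site k ∈ T}, MeasurableSpace.comap (ZZ k) inferInstance

lemma GG_meas {T : Set (P 3)} {k : P 3 ⊕ P 3 × ℕ ⊕ P 3 × ℕ × ℕ} (h : site k ∈ T) :
    Measurable[GG T] (ZZ k) := fun s _ =>
  le_iSup₂ (f := fun k (_ : k ∈ {k | site k ∈ T}) => MeasurableSpace.comap (ZZ k) inferInstance)
    k h _ ⟨s, trivial, rfl⟩

def modW : Model 3 (muW π m) where
  G := GG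
  le _ := iSup₂_le fun k _ => (ZZ_meas k).comap_le
  mono _ _ h := biSup_mono fun _ hk => h hk
  ind _ _ h := indep_iSup_of_disjoint (fun k => (ZZ_meas k).comap_le) (ZZ_ind π m).iIndep
    (Set.disjoint_left.2 fun _ a b => Set.disjoint_left.1 h a b)
  O x A := ⋃ i, {ω | i < ω (psi x)} ×ˢ V x i {A}
  meas x A := by
    simp only [V, Set.prod_iUnion]
    refine .iUnion fun i => .iUnion fun n => .inter
      (GG_meas (T := {x}) (k := .inl x) rfl (t := {k | i < k}) trivial) (.inter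
      (GG_meas (T := {x}) (k := .inr (.inl (x, i))) rfl (t := {n + 1}) trivial) ?_)
    have : Measurable[GG {x}] fun ω : Om => st x i n ω.2.2 :=
      @measurable_pi_lambda _ _ _ (GG {x}) _ _ fun k => by
        have h := (Measurable.of_discrete (f := fun a : ℕ => e6 (Fin.ofNat 6 a))).comp
          (GG_meas (T := {x}) (k := .inr (.inr (x, i, k))) rfl)
        simpa [Function.comp_def, ZZ, st] using h
    exact this (MeasurableSet.of_discrete (s := {s | trace s ∈ ({A} : Finset _)}))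

lemma modW_low (x : P 3) (F : Finset (Finset (P 3))) :
    (muW π m).real (⋂ A ∈ F, ((modW π m).O x A)ᶜ) ≤
      Real.exp (-((π 1).toReal * ∑ A ∈ F, nu (fun n => (m (n + 1)).toReal) A)) := by
  have h1 : {ω | ω (psi x) = 1} ×ˢ V x 0 F ⊆ ⋃ A ∈ F, (modW π m).O x A := by
    rintro ω ⟨h1, h2⟩
    obtain ⟨n, h3, h4⟩ := Set.mem_iUnion.1 h2
    exact Set.mem_biUnion h4 (Set.mem_iUnion.2 ⟨0, h1.ge, Set.mem_iUnion.2
      ⟨n, h3, mem_singleton_self _⟩⟩)
  have h2 := measureReal_mono (μ := muW π m) h1 (measure_ne_top _ _)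
  rw [measureReal_def, Measure.prod_prod, pi_eval, mu_V, ENNReal.toReal_mul, ENNReal.toReal_ofReal
    (sum_nonneg fun _ _ => nu_nonneg (fun _ => ENNReal.toReal_nonneg) _)] at h2
  rw [← Set.compl_iUnion₂, probReal_compl_eq_one_sub (Finset.measurableSet_biUnion _ fun A _ =>
    (modW π m).le _ _ ((modW π m).meas x A))]
  linarith [Real.add_one_le_exp
    (-((π 1).toReal * ∑ A ∈ F, nu (fun n => (m (n + 1)).toReal) A))]

lemma modW_up {v : ℝ} (v0 : 0 ≤ v) (h : ∀ k, (k + 1) * π (k + 1) = ENNReal.ofReal v * π k)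
    (x : P 3) (A : Finset (P 3)) :
    (muW π m).real ((modW π m).O x A) ≤ v * nu (fun n => (m (n + 1)).toReal) A := by
  have n0 := nu_nonneg (m := fun n => (m (n + 1)).toReal) (fun _ => ENNReal.toReal_nonneg) A
  have h1 : (modW π m).O x A ⊆ ⋃ k, ⋃ i ∈ range (k + 1), {ω | ω (psi x) = k + 1} ×ˢ V x i {A} := by
    intro ω hω
    obtain ⟨i, h1, h2⟩ := Set.mem_iUnion.1 hω
    obtain ⟨k, hk⟩ := Nat.exists_eq_add_one_of_ne_zero (Nat.ne_zero_of_lt h1)
    exact Set.mem_iUnion.2 ⟨k, Set.mem_biUnion (mem_range.2 (hk ▸ h1)) ⟨hk, h2⟩⟩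
  refine ENNReal.toReal_le_of_le_ofReal (mul_nonneg v0 n0) ((measure_mono h1).trans
    ((measure_iUnion_le _).trans ((ENNReal.tsum_le_tsum fun k =>
      measure_biUnion_finset_le _ _).trans_eq ?_)))
  simp only [Measure.prod_prod, pi_eval, mu_V, sum_const, card_range, nsmul_eq_mul, ← mul_assoc,
    Nat.cast_succ, h, sum_singleton]
  rw [ENNReal.tsum_mul_right, ENNReal.tsum_mul_left, π.tsum_coe, mul_one, ENNReal.ofReal_mul v0]

lemma mem_occ (ω : Om) (y : P 3) : y ∈ (modW π m).occ Set.univ ω ↔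
    ∃ x : Z3, ∃ i : ℕ, i < ω.1 x ∧ ∃ j : ℕ, j < ω.2.1 (x, i) ∧ psi y = x + ∑ k ∈ range j,
      (![(1, 0, 0), (-1, 0, 0), (0, 1, 0), (0, -1, 0), (0, 0, 1), (0, 0, -1)] : Fin 6 → Z3)
        (ω.2.2 (x, i, k)) := by
  simp only [← psi_dir, ← map_sum, psi.surjective.exists, ← map_add, psi.injective.eq_iff]
  constructor
  · rintro ⟨⟨x, A⟩, -, h1, h2⟩
    obtain ⟨i, h3, h4⟩ := Set.mem_iUnion.1 h1
    obtain ⟨n, h5, h6⟩ := Set.mem_iUnion.1 h4
    rw [← mem_singleton.1 h6, mem_st] at h2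
    obtain ⟨j, h7, h8⟩ := h2
    exact ⟨x, i, h3, j, h7.trans_eq h5.symm, by rw [← h8]; simp⟩
  · rintro ⟨x, i, h1, j, h2, h3⟩
    obtain ⟨n, hn⟩ := Nat.exists_eq_add_one_of_ne_zero (Nat.ne_zero_of_lt h2)
    exact ⟨(x, trace (st x i n ω.2.2)), trivial, Set.mem_iUnion.2 ⟨i, h1, Set.mem_iUnion.2
      ⟨n, hn, mem_singleton_self _⟩⟩, (mem_st _ _ _ _ _).2 ⟨j, hn ▸ h2, by rw [h3]; simp⟩⟩

end Pool.Agent.H92.WD
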