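import Mathlib

set_option autoImplicit false

/-! Renormalisation for unions of independent random finite sets in `ℤ²`. -/

namespace Pool.Agent.H92.Worm

open MeasureTheory ProbabilityTheory Filter Topology
open scoped ENNReal

abbrev P := ℤ × ℤ

def nm (p : P) : ℕ := max p.1.natAbs p.2.natAbs

def adj (p q : P) : Prop := (p.1 - q.1).natAbs + (p.2 - q.2).natAbs = 1

def Path (S : Set P) : P → P → Prop := Relation.ReflTransGen fun p q => adj p q ∧ q ∈ S

def Cross (S : Set P) (c : P) (R : ℕ) : Prop :=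
  ∃ a b, a ∈ S ∧ nm (a - c) ≤ R ∧ nm (b - c) = 3 * R ∧ Path (S ∩ {y | nm (y - c) ≤ 3 * R}) a b

lemma tri (a b c : P) : nm (a - c) ≤ nm (a - b) + nm (b - c) := by
  simp only [nm, Prod.fst_sub, Prod.snd_sub]
  omega

lemma tri' (a b c : P) : nm (a - c) ≤ nm (b - a) + nm (b - c) := by
  simp only [nm, Prod.fst_sub, Prod.snd_sub]
  omega

lemma adj_nm {p q : P} (h : adj p q) : nm (p - q) ≤ 1 := by
  simp only [nm, adj, Prod.fst_sub, Prod.snd_sub] at *
  omega

lemma Path.mono {S T : Set P} (h : S ⊆ T) {a b : P} (hp : Path S a b) : Path T a b := by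
  induction hp with
  | refl => exact .refl
  | tail _ k ih => exact .tail ih ⟨k.1, h k.2⟩

lemma Path.mem {S : Set P} {a b : P} (hp : Path S a b) (ha : a ∈ S) : b ∈ S := by
  induction hp with
  | refl => exact ha
  | tail _ h _ => exact h.2

lemma exit {S : Set P} {a b : P} (c : P) (r : ℕ) (hp : Path S a b) (ha : nm (a - c) ≤ r)
    (hb : r ≤ nm (b - c)) :
    ∃ z, nm (z - c) = r ∧ Path (S ∩ {y | nm (y - c) ≤ r}) a z ∧ Path S z b := by
  induction hp using Relation.ReflTransGen.head_induction_on with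
  | refl => exact ⟨b, le_antisymm ha hb, .refl, .refl⟩
  | @head a a' h hp ih =>
    by_cases h1 : nm (a - c) = r
    · exact ⟨a, h1, .refl, .head h hp⟩
    · have h2 : nm (a' - c) ≤ r := by
        have := adj_nm h.1
        have := tri' a' a c
        clear ih
        omega
      obtain ⟨z, z1, z2, z3⟩ := ih h2
      exact ⟨z, z1, .head ⟨h.1, h.2, h2⟩ z2, z3⟩

lemma cross_of {S : Set P} {a b : P} (c : P) (R : ℕ) (hS : a ∈ S) (hp : Path S a b)
    (ha : nm (a - c) ≤ R) (hb : 3 * R ≤ nm (b - c)) : Cross S c R := by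
  obtain ⟨z, z1, z2, -⟩ := exit c (3 * R) hp (by omega) hb
  exact ⟨a, z, hS, ha, z1, z2⟩

lemma Cross.loc {S T : Set P} {c : P} {R : ℕ} (h : Cross S c R)
    (hT : ∀ y ∈ S, nm (y - c) ≤ 3 * R → y ∈ T) : Cross T c R := by
  obtain ⟨a, b, h1, h2, h3, h4⟩ := h
  exact ⟨a, b, hT a h1 (by omega), h2, h3, Path.mono (fun y hy => Set.mem_inter (hT y hy.1 hy.2) hy.2) h4⟩

noncomputable def grid (c : P) (R n : ℕ) : Finset P :=
  (Finset.Icc (-n : ℤ) n ×ˢ Finset.Icc (-n : ℤ) n).image fun k => c + ((R : ℤ) * k.1, (R : ℤ) * k.2)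

lemma card_grid (c : P) (R n : ℕ) : (grid c R n).card ≤ (2 * n + 1) ^ 2 := by
  refine Finset.card_image_le.trans ?_
  rw [Finset.card_product, Int.card_Icc, sq]
  have : ((n : ℤ) + 1 - -n).toNat = 2 * n + 1 := by omega
  rw [this]

lemma cover1 {R n : ℕ} (hR : 0 < R) {t : ℤ} (h : t.natAbs ≤ n * R) :
    ∃ i ∈ Finset.Icc (-n : ℤ) n, (t - R * i).natAbs ≤ R := by
  have hR' : (0 : ℤ) < R := by exact_mod_cast hR
  have h' : |t| ≤ n * R := by
    rw [← Int.natCast_natAbs]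
    exact_mod_cast h
  refine ⟨t / R, Finset.mem_Icc.2 ⟨Int.le_ediv_of_mul_le hR' ?_, Int.ediv_le_of_le_mul hR' ?_⟩, ?_⟩
  · linarith [neg_abs_le t]
  · linarith [le_abs_self t]
  · have h1 := Int.emod_nonneg t hR'.ne'
    have h2 := Int.emod_lt_of_pos t hR'
    rw [Int.emod_def] at h1 h2
    omega

lemma cover {R n : ℕ} (hR : 0 < R) {c y : P} (h : nm (y - c) ≤ n * R) :
    ∃ c' ∈ grid c R n, nm (y - c') ≤ R := by
  obtain ⟨i, hi, hi'⟩ := cover1 hR ((le_max_left _ _).trans h)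
  obtain ⟨j, hj, hj'⟩ := cover1 hR ((le_max_right _ _).trans h)
  refine ⟨_, Finset.mem_image.2 ⟨(i, j), Finset.mem_product.2 ⟨hi, hj⟩, rfl⟩, ?_⟩
  simp only [nm, Prod.fst_sub, Prod.snd_sub, Prod.fst_add, Prod.snd_add] at *
  generalize (R : ℤ) * i = u at *
  generalize (R : ℤ) * j = w at *
  omega

lemma split {S : Set P} {c : P} {R : ℕ} (hR : 0 < R) (h : Cross S c (10 * R)) :
    ∃ c₁ ∈ grid c R 10, ∃ c₂ ∈ grid c R 21, 9 * R ≤ nm (c₂ - c₁) ∧ Cross S c₁ R ∧ Cross S c₂ R := by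
  obtain ⟨a, b, h1, h2, h3, h4⟩ := h
  have h5 : Path S a b := h4.mono Set.inter_subset_left
  obtain ⟨z, z1, z2, z3⟩ := exit c (21 * R) h5 (by omega) (by omega)
  obtain ⟨c₁, k1, k2⟩ := cover hR h2
  obtain ⟨c₂, k3, k4⟩ := cover hR z1.le
  refine ⟨c₁, k1, c₂, k3, ?_, cross_of _ _ h1 h5 k2 ?_,
    cross_of _ _ ((z2.mono Set.inter_subset_left).mem h1) z3 k4 ?_⟩
  · have := tri z c₂ c
    have := tri c₂ c₁ c
    have := tri' c₁ a c
    omega
  · have := tri b c₁ c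
    have := tri' c₁ a c
    omega
  · have := tri b c₂ c
    have := tri' c₂ z c
    omega

noncomputable def box (c : P) (r : ℕ) : Finset P :=
  Finset.Icc (c.1 - r) (c.1 + r) ×ˢ Finset.Icc (c.2 - r) (c.2 + r)

lemma mem_box {c y : P} {r : ℕ} : y ∈ box c r ↔ nm (y - c) ≤ r := by
  simp only [box, nm, Finset.mem_product, Finset.mem_Icc, Prod.fst_sub, Prod.snd_sub]
  omega

lemma card_box (c : P) (r : ℕ) : (box c r).card = (2 * r + 1) ^ 2 := by
  rw [box, Finset.card_product, Int.card_Icc, Int.card_Icc, sq]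
  congr 1 <;> omega

lemma meas_cross {Ω : Type} (m : MeasurableSpace Ω) (S : Ω → Set P)
    (h : ∀ y, MeasurableSet[m] {ω | y ∈ S ω}) (c : P) (R : ℕ) :
    MeasurableSet[m] {ω | Cross (S ω) c R} := by
  classical
  have : {ω | Cross (S ω) c R} =
      ⋃ F : Finset P, ⋃ _ : Cross F c R, ⋂ y ∈ F, {ω | y ∈ S ω} := by
    ext ω
    simp only [Set.mem_ofPred_eq, Set.mem_iUnion, Set.mem_iInter]
    constructor
    · intro hc
      exact ⟨(box c (3 * R)).filter (· ∈ S ω), hc.loc fun y h1 h2 => by simp [mem_box, h1, h2],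
        fun y hy => (Finset.mem_filter.1 hy).2⟩
    · rintro ⟨F, h1, h2⟩
      exact h1.loc fun y hy _ => h2 y hy
  rw [this]
  exact .iUnion fun F => .iUnion fun _ => Finset.measurableSet_biInter _ fun y _ => h y

section
variable {Ω I : Type} [mΩ : MeasurableSpace Ω] {μ : Measure Ω} [IsProbabilityMeasure μ]
  [Countable I] (N : I → Ω → ℕ) (A : I → Set P)

def occ (T : Set I) (ω : Ω) : Set P := {y | ∃ i ∈ T, N i ω ≠ 0 ∧ y ∈ A i}

omit mΩ in
lemma meas_occ (T : Set I) (y : P) :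
    MeasurableSet[⨆ i ∈ T, MeasurableSpace.comap (N i) inferInstance] {ω | y ∈ occ N A T ω} := by
  have : {ω | y ∈ occ N A T ω} = ⋃ i, ⋃ _ : i ∈ T, ⋃ _ : y ∈ A i, N i ⁻¹' {n | n ≠ 0} := by
    ext ω
    simp only [occ, Set.mem_ofPred_eq, Set.mem_iUnion, Set.mem_preimage]
    exact ⟨fun ⟨i, a, b, c⟩ => ⟨i, a, c, b⟩, fun ⟨i, a, c, b⟩ => ⟨i, a, b, c⟩⟩
  rw [this]
  refine .iUnion fun i => .iUnion fun hi => .iUnion fun _ => ?_
  exact le_iSup₂_of_le (f := fun i (_ : i ∈ T) => MeasurableSpace.comap (N i) inferInstance) i hi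
    le_rfl _ ⟨_, trivial, rfl⟩

variable {N A} {x : I → P} {D : I → ℕ}

def Big (N : I → Ω → ℕ) (A : I → Set P) (D : I → ℕ) (c : P) (R : ℕ) : Set Ω :=
  {ω | ∃ i, R ≤ D i ∧ (∃ y ∈ A i, nm (y - c) ≤ 30 * R) ∧ N i ω ≠ 0}

lemma rec (hN : ∀ i, Measurable (N i)) (hI : iIndepFun N μ) (hD : ∀ i, ∀ y ∈ A i, nm (y - x i) ≤ D i)
    {R : ℕ} (hR : 0 < R) {p : ℝ} (hp : ∀ c, μ.real {ω | Cross (occ N A Set.univ ω) c R} ≤ p)
    (c : P) : μ.real {ω | Cross (occ N A Set.univ ω) c (10 * R)} ≤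
      μ.real (Big N A D c R) + 815409 * p ^ 2 := by
  classical
  have p0 : 0 ≤ p := measureReal_nonneg.trans (hp 0)
  set T : P → Set I := fun c => {i | D i < R ∧ ∃ y ∈ A i, nm (y - c) ≤ 3 * R} with hT
  set X : P → Set Ω := fun c => {ω | Cross (occ N A (T c) ω) c R} with hX
  obtain ⟨Q, hQ⟩ : ∃ Q : Finset (P × P),
    Q = (grid c R 10 ×ˢ grid c R 21).filter fun z => 9 * R ≤ nm (z.2 - z.1) := ⟨_, rfl⟩
  have h1 : {ω | Cross (occ N A Set.univ ω) c (10 * R)} ⊆
      Big N A D c R ∪ ⋃ z ∈ Q, X z.1 ∩ X z.2 := by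
    intro ω hω
    by_cases hb : ω ∈ Big N A D c R
    · exact Or.inl hb
    right
    have h2 : Cross (occ N A {i | D i < R} ω) c (10 * R) := Cross.loc hω
      fun y ⟨i, _, a, b⟩ hy => ⟨i, not_le.1 fun h => hb ⟨i, h, ⟨y, b, by omega⟩, a⟩, a, b⟩
    obtain ⟨c₁, k1, c₂, k2, k3, k4, k5⟩ := split hR h2
    simp only [Set.mem_iUnion]
    have k6 : (c₁, c₂) ∈ Q := by
      rw [hQ, Finset.mem_filter, Finset.mem_product]
      exact ⟨⟨k1, k2⟩, k3⟩
    have k7 : ∀ c', Cross (occ N A {i | D i < R} ω) c' R → ω ∈ X c' := fun c' k =>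
      k.loc fun y ⟨i, a, b, d⟩ hy => ⟨i, ⟨a, y, d, hy⟩, b, d⟩
    exact ⟨(c₁, c₂), k6, k7 _ k4, k7 _ k5⟩
  have h2 : ∀ c, μ.real (X c) ≤ p := by
    intro c
    refine le_trans (measureReal_mono fun ω hω => ?_) (hp c)
    exact Cross.loc hω fun y ⟨i, _, b⟩ _ => ⟨i, trivial, b⟩
  have h3 : ∀ z ∈ Q, μ.real (X z.1 ∩ X z.2) ≤ p ^ 2 := by
    intro z hz
    have hd : Disjoint (T z.1) (T z.2) := by
      refine Set.disjoint_left.2 fun i ⟨a, y, b, d⟩ ⟨_, y', b', d'⟩ => ?_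
      rw [hQ, Finset.mem_filter] at hz
      have := hz.2
      have := hD i y b
      have := hD i y' b'
      have := tri' z.2 y' z.1
      have := tri y' (x i) z.1
      have := tri' (x i) y z.1
      omega
    have hi := indep_iSup_of_disjoint (fun i => (hN i).comap_le) hI.iIndep hd
    have := (Indep_iff _ _ _).1 hi _ _ (meas_cross _ _ (meas_occ N A _) z.1 R)
      (meas_cross _ _ (meas_occ N A _) z.2 R)
    rw [measureReal_def, this, ENNReal.toReal_mul, sq]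
    exact mul_le_mul (h2 _) (h2 _) measureReal_nonneg p0
  refine (measureReal_mono h1).trans ((measureReal_union_le _ _).trans (add_le_add_right ?_ _))
  refine (measureReal_biUnion_finset_le _ _).trans ((Finset.sum_le_card_nsmul _ _ _ h3).trans ?_)
  rw [nsmul_eq_mul]
  refine mul_le_mul_of_nonneg_right ?_ (sq_nonneg _)
  have : Q.card ≤ 815409 := by
    rw [hQ]
    refine (Finset.card_filter_le _ _).trans ?_
    rw [Finset.card_product]
    exact (Nat.mul_le_mul (card_grid c R 10) (card_grid c R 21)).trans (by norm_num)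
  exact_mod_cast this

theorem no_perc (hN : ∀ i, Measurable (N i)) (hI : iIndepFun N μ)
    (hD : ∀ i, ∀ y ∈ A i, nm (y - x i) ≤ D i) (hD1 : ∀ i, 1 ≤ D i)
    (h1 : ∀ R, 0 < R → ∀ c, μ.real (Big N A D c R) ≤ 1 / (4 * 815409))
    (h2 : ∀ η > 0, ∀ᶠ R in atTop, ∀ c, μ.real (Big N A D c R) ≤ η) :
    μ {ω | ∃ a ∈ occ N A Set.univ ω, {b | Path (occ N A Set.univ ω) a b}.Infinite} = 0 := by
  set X : P → ℕ → Set Ω := fun c R => {ω | Cross (occ N A Set.univ ω) c R} with hX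
  have a1 : ∀ k c, μ.real (X c (10 ^ k)) ≤ 1 / (2 * 815409) := by
    intro k
    induction k with
    | zero =>
      intro c
      refine le_trans ((measureReal_mono ?_).trans (h1 1 one_pos c)) (by norm_num)
      rintro ω ⟨a, b, ⟨i, -, k1, k2⟩, k3, -⟩
      exact ⟨i, hD1 i, ⟨a, k2, by omega⟩, k1⟩
    | succ k ih =>
      intro c
      have := rec hN hI hD (by positivity) ih c
      rw [pow_succ']
      linarith [h1 (10 ^ k) (by positivity) c]
  have a2 : ∀ j : ℕ, ∀ᶠ k in atTop, ∀ c,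
      μ.real (X c (10 ^ k)) ≤ (3 / 4) ^ j * (1 / (2 * 815409)) := by
    intro j
    induction j with
    | zero => exact Eventually.of_forall fun k c => by simpa using a1 k c
    | succ j ih =>
      have b1 := (tendsto_pow_atTop_atTop_of_one_lt (show 1 < 10 by norm_num)).eventually
        (h2 ((3 / 4) ^ j * (1 / (2 * 815409)) / 4) (by positivity))
      obtain ⟨K, hK⟩ := eventually_atTop.1 (ih.and b1)
      refine eventually_atTop.2 ⟨K + 1, fun k hk c => ?_⟩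
      obtain ⟨k, rfl⟩ := Nat.exists_eq_add_of_le' (show 1 ≤ k by omega)
      obtain ⟨b2, b3⟩ := hK k (by omega)
      have := rec hN hI hD (by positivity) b2 c
      rw [pow_succ', pow_succ]
      have b4 : (3 / 4 : ℝ) ^ j ≤ 1 := pow_le_one₀ (by norm_num) (by norm_num)
      have b5 : (0 : ℝ) ≤ (3 / 4) ^ j := by positivity
      nlinarith [b3 c]
  have a3 : {ω | ∃ a ∈ occ N A Set.univ ω, {b | Path (occ N A Set.univ ω) a b}.Infinite} ⊆
      ⋃ a, ⋂ R, X a R := by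
    rintro ω ⟨a, k1, k2⟩
    refine Set.mem_iUnion.2 ⟨a, Set.mem_iInter.2 fun R => ?_⟩
    obtain ⟨b, k3, k4⟩ := k2.exists_notMem_finset (box a (3 * R))
    exact cross_of a R k1 k3 (by simp [nm]) (not_le.1 (mt mem_box.2 k4)).le
  refine measure_mono_null a3 (measure_iUnion_null fun a => ?_)
  rw [← measureReal_eq_zero_iff]
  refine le_antisymm (ge_of_tendsto' (((tendsto_pow_atTop_nhds_zero_of_lt_one
    (show (0 : ℝ) ≤ 3 / 4 by norm_num) (by norm_num)).mul_const (1 / (2 * 815409))).trans_eq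
    (by rw [zero_mul])) fun j => ?_) measureReal_nonneg
  obtain ⟨k, hk⟩ := (a2 j).exists
  exact (measureReal_mono (Set.iInter_subset _ _)).trans (hk a)

end

end Pool.Agent.H92.Worm
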