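import Mathlib

set_option autoImplicit false
open MeasureTheory Filter Topology Set Complex
open scoped Real

namespace Pool.Agent.H92.Zak

/-- geometric majorant -/
noncomputable def β (m : ℤ) : ℝ := (1 / 2) ^ m.natAbs

lemma β_pos (m : ℤ) : 0 < β m := by unfold β; positivity
lemma β_le (m : ℤ) : β m ≤ 1 := pow_le_one₀ (by norm_num) (by norm_num)
lemma β_neg (m : ℤ) : β (-m) = β m := by simp [β]

lemma β_sum : HasSum β 3 := by
  have h1 : HasSum (fun n : ℕ => β n) 2 := by simpa [β] using hasSum_geometric_two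
  have h2 : HasSum (fun n : ℕ => β (-(n + 1))) 1 := by
    have := hasSum_geometric_two.mul_right (1 / 2)
    have e : (fun n : ℕ => β (-(n + 1))) = fun n : ℕ => (1 / 2 : ℝ) ^ n * (1 / 2) := by
      funext n
      rw [β_neg, β, ← pow_succ]
      congr 1
    rw [e]
    simpa using this
  have := h1.of_nat_of_neg_add_one h2
  norm_num at this
  exact this

lemma exp_le_β (m : ℤ) : Real.exp (-|(m : ℝ)|) ≤ β m := by
  rw [β, ← Int.cast_abs, Int.abs_eq_natAbs, Int.cast_natCast,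
    show -((m.natAbs : ℕ) : ℝ) = (m.natAbs : ℕ) * (-1) by ring, Real.exp_nat_mul]
  apply pow_le_pow_left₀ (Real.exp_pos _).le
  rw [Real.exp_neg, inv_eq_one_div]
  exact one_div_le_one_div_of_le (by norm_num) (by linarith [Real.add_one_le_exp 1])

lemma tail {c : ℤ → ℂ} {K : ℝ} (hc : ∀ m, ‖c m‖ ≤ K * β m) (a : ℤ) :
    ‖(∑' n : ℕ, c (a + n)) - if a ≤ 0 then ∑' m, c m else 0‖ ≤ 2 * K * β a := by
  have hs : Summable c := Summable.of_norm_bounded (β_sum.summable.mul_left K) hc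
  split_ifs with h
  · have hs' : Summable fun m : ℤ => c (a + m) := hs.comp_injective (add_right_injective a)
    have h1 := tsum_of_nat_of_neg_add_one (f := fun m : ℤ => c (a + m))
      (hs'.comp_injective Nat.cast_injective)
      (hs'.comp_injective (i := fun n : ℕ => -((n : ℤ) + 1)) fun x y h => by simpa using h)
    rw [(Equiv.addLeft a).tsum_eq c |>.symm]
    simp only [Equiv.coe_addLeft]
    rw [h1, sub_add_cancel_left, norm_neg]
    refine (tsum_of_norm_bounded (hasSum_geometric_two.mul_left (K * β a)) fun n => ?_).trans_eq (by ring)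
    have hK : 0 ≤ K := nonneg_of_mul_nonneg_left ((norm_nonneg _).trans (hc 0)) (β_pos 0)
    refine (hc _).trans ?_
    rw [mul_assoc, β, β, ← pow_add]
    refine mul_le_mul_of_nonneg_left (pow_le_pow_of_le_one (by norm_num) (by norm_num) (by omega)) hK
  · rw [sub_zero]
    refine (tsum_of_norm_bounded (hasSum_geometric_two.mul_left (K * β a)) fun n => ?_).trans_eq (by ring)
    refine (hc _).trans_eq ?_
    rw [mul_assoc, β, β, ← pow_add]
    congr 2
    omega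

lemma three {w u v x a b : ℝ} (hx : 0 ≤ x) (h : x ≤ w + u + v) (h1 : u ^ 2 ≤ a) (h2 : v ^ 2 ≤ b) :
    x ^ 2 ≤ 3 * w ^ 2 + (3 * a + 3 * b) := by
  have := pow_le_pow_left₀ hx h 2
  nlinarith [sq_nonneg (w - u), sq_nonneg (w - v), sq_nonneg (u - v)]

lemma sqb {u K b : ℝ} (hu : 0 ≤ u) (h : u ≤ 2 * K * b) (h0 : 0 < b) (h1 : b ≤ 1) :
    u ^ 2 ≤ 4 * K ^ 2 * b := by
  have := pow_le_pow_left₀ hu h 2
  nlinarith [mul_nonneg (sq_nonneg K) (mul_nonneg h0.le (sub_nonneg.2 h1))]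

lemma conv_pt {c : ℤ → ℂ} {K : ℝ} (hc : ∀ m, ‖c m‖ ≤ K * β m) (N : ℕ) (j : ℤ) :
    ‖∑ m ∈ Finset.range N, c (m - j)‖ ^ 2 ≤
      (if j ∈ Finset.Ico (0 : ℤ) N then 3 * ‖∑' m, c m‖ ^ 2 else 0) +
        (12 * K ^ 2 * β (-j) + 12 * K ^ 2 * β (N - j)) := by
  have hs : Summable c := Summable.of_norm_bounded (β_sum.summable.mul_left K) hc
  have h1 := tail hc (-j)
  have h2 := tail hc (N - j)
  have h3 : Summable fun n : ℕ => c (-j + n) :=
    hs.comp_injective (i := fun n : ℕ => -j + n) fun x y h => by simpa using h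
  have h4 := h3.sum_add_tsum_nat_add N
  have e1 : ∀ i : ℕ, -j + ((i + N : ℕ) : ℤ) = N - j + i := fun i => by push_cast; ring
  have e2 : ∑ m ∈ Finset.range N, c (-j + m) = ∑ m ∈ Finset.range N, c (m - j) :=
    Finset.sum_congr rfl fun i _ => by rw [neg_add_eq_sub]
  simp only [e1] at h4
  rw [e2] at h4
  generalize ∑' m, c m = S at *
  generalize ∑' n : ℕ, c (-j + n) = A at *
  generalize ∑' n : ℕ, c (N - j + n) = B at *
  have h5 : ∑ m ∈ Finset.range N, c (m - j) =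
      (if j ∈ Finset.Ico (0 : ℤ) N then S else 0) + (A - if -j ≤ 0 then S else 0) -
        (B - if (N : ℤ) - j ≤ 0 then S else 0) := by
    rw [eq_sub_of_add_eq h4]
    simp only [Finset.mem_Ico]
    split_ifs <;> first | ring1 | omega
  generalize (A - if -j ≤ 0 then S else 0) = u at *
  generalize (B - if (N : ℤ) - j ≤ 0 then S else 0) = v at *
  have h6 : ‖(if j ∈ Finset.Ico (0 : ℤ) N then S else 0) + u - v‖ ≤
      ‖if j ∈ Finset.Ico (0 : ℤ) N then S else 0‖ + ‖u‖ + ‖v‖ :=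
    (norm_sub_le _ _).trans (add_le_add_left (norm_add_le _ _) _)
  have h7 : (if j ∈ Finset.Ico (0 : ℤ) N then 3 * ‖S‖ ^ 2 else 0) =
      3 * ‖if j ∈ Finset.Ico (0 : ℤ) N then S else 0‖ ^ 2 := by split_ifs <;> simp
  rw [h5, h7]
  refine (three (norm_nonneg _) h6 (sqb (norm_nonneg _) h1 (β_pos _) (β_le _))
    (sqb (norm_nonneg _) h2 (β_pos _) (β_le _))).trans_eq (by ring)

lemma conv {c : ℤ → ℂ} {K : ℝ} (hc : ∀ m, ‖c m‖ ≤ K * β m) (N : ℕ) :
    ∑' j : ℤ, ‖∑ m ∈ Finset.range N, c (m - j)‖ₑ ^ 2 ≤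
      ENNReal.ofReal (3 * N * ‖∑' m, c m‖ ^ 2 + 72 * K ^ 2) := by
  have hb := conv_pt hc N
  generalize ∑' m, c m = S at *
  have s1 : HasSum (fun j : ℤ => if j ∈ Finset.Ico (0 : ℤ) N then 3 * ‖S‖ ^ 2 else 0)
      (3 * N * ‖S‖ ^ 2) := by
    have := hasSum_sum_of_ne_finset_zero (f := fun j : ℤ => if j ∈ Finset.Ico (0 : ℤ) N then 3 * ‖S‖ ^ 2 else 0)
      (s := Finset.Ico (0 : ℤ) N) (L := SummationFilter.unconditional ℤ) (fun b hb => if_neg hb)
    rw [Finset.sum_congr rfl fun x hx => if_pos hx] at this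
    simp only [Finset.sum_const, Int.card_Ico, sub_zero, Int.toNat_natCast, nsmul_eq_mul] at this
    rwa [show 3 * N * ‖S‖ ^ 2 = N * (3 * ‖S‖ ^ 2) by ring]
  have s2 : HasSum (fun j : ℤ => β (-j)) 3 := by simpa only [β_neg] using β_sum
  have s3 : HasSum (fun j : ℤ => β (N - j)) 3 := by
    have := (Equiv.subLeft (N : ℤ)).hasSum_iff.2 β_sum
    simpa only [Function.comp_def, Equiv.subLeft_apply] using this
  have s4 := s1.add ((s2.mul_left (12 * K ^ 2)).add (s3.mul_left (12 * K ^ 2)))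
  rw [show 72 * K ^ 2 = 12 * K ^ 2 * 3 + 12 * K ^ 2 * 3 by ring, ← s4.tsum_eq,
    ENNReal.ofReal_tsum_of_nonneg (fun j => (sq_nonneg _).trans (hb j)) s4.summable]
  refine ENNReal.tsum_le_tsum fun j => ?_
  rw [← ofReal_norm, ← ENNReal.ofReal_pow (norm_nonneg _)]
  exact ENNReal.ofReal_le_ofReal (hb j)

lemma bessel {L ε : ℝ} (hε : 0 < ε) (hL : ε ≤ L) {Φ : ℝ → ℂ} (hΦ : Continuous Φ) :
    ∑' l : ℤ, ‖∫ t in Ioc 0 ε, cexp (-(2 * π * I * (l / L) * t)) * Φ t‖ₑ ^ 2 =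
      ENNReal.ofReal L * ∫⁻ t in Ioc 0 ε, ‖Φ t‖ₑ ^ 2 := by
  have hL0 : 0 < L := hε.trans_le hL
  have hm : MemLp (indicator (Ioc 0 ε) Φ) 2 (volume.restrict (Ioc 0 L)) := by
    apply MemLp.indicator measurableSet_Ioc
    obtain ⟨C, hC⟩ := isCompact_Icc.exists_bound_of_continuousOn (hΦ.continuousOn (s := Icc 0 L))
    refine MemLp.of_bound hΦ.aestronglyMeasurable C ?_
    filter_upwards [ae_restrict_mem measurableSet_Ioc] with t ht using hC t (Ioc_subset_Icc_self ht)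
  have h := (hasSum_sq_fourierCoeffOn hL0 hm).mul_left (L ^ 2)
  have hi : Ioc 0 L ∩ Ioc 0 ε = Ioc 0 ε := inter_eq_right.2 (Ioc_subset_Ioc_right hL)
  have e1 : ∀ l : ℤ, L ^ 2 * ‖fourierCoeffOn hL0 (indicator (Ioc 0 ε) Φ) l‖ ^ 2 =
      ‖∫ t in Ioc 0 ε, cexp (-(2 * π * I * (l / L) * t)) * Φ t‖ ^ 2 := by
    intro l
    rw [fourierCoeffOn_eq_integral, intervalIntegral.integral_of_le hL0.le, norm_smul, mul_pow]
    have : ∀ t : ℝ, fourier (-l) (t : AddCircle (L - 0)) • indicator (Ioc 0 ε) Φ t =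
        indicator (Ioc 0 ε) (fun t : ℝ => cexp (-(2 * π * I * (l / L) * t)) * Φ t) t := by
      intro t
      rw [fourier_coe_apply]
      simp only [indicator]
      split_ifs
      · rw [smul_eq_mul]; congr 2; push_cast; ring
      · simp
    simp_rw [this]
    rw [setIntegral_indicator measurableSet_Ioc, hi, Real.norm_eq_abs, sq_abs, sub_zero]
    field_simp
  have e2 : L ^ 2 * ((L - 0)⁻¹ • ∫ t in (0 : ℝ)..L, ‖indicator (Ioc 0 ε) Φ t‖ ^ 2) =
      L * ∫ t in Ioc 0 ε, ‖Φ t‖ ^ 2 := by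
    have : ∀ t : ℝ, ‖indicator (Ioc 0 ε) Φ t‖ ^ 2 = indicator (Ioc 0 ε) (fun t => ‖Φ t‖ ^ 2) t := by
      intro t; simp only [indicator]; split_ifs <;> simp
    simp_rw [this]
    rw [intervalIntegral.integral_of_le hL0.le, setIntegral_indicator measurableSet_Ioc, hi, smul_eq_mul,
      sub_zero]
    field_simp
  simp only [e1, e2] at h
  have hint : IntegrableOn (fun t => ‖Φ t‖ ^ 2) (Ioc 0 ε) :=
    (Continuous.integrableOn_Icc (by fun_prop)).mono_set Ioc_subset_Icc_self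
  simp only [← ofReal_norm, ← ENNReal.ofReal_pow (norm_nonneg _)]
  rw [← ENNReal.ofReal_tsum_of_nonneg (fun _ => sq_nonneg _) h.summable, h.tsum_eq,
    ENNReal.ofReal_mul hL0.le,
    ofReal_integral_eq_lintegral_ofReal hint (Eventually.of_forall fun _ => sq_nonneg _)]

/-- support of the test function -/
def U (N : ℕ) (L ε : ℝ) : Set ℝ := ⋃ m ∈ Finset.range N, Ioc (0 + m * L) (ε + m * L)

lemma U_disj (N : ℕ) {L ε : ℝ} (hL : ε ≤ L) (hL0 : 0 < L) :
    Set.Pairwise (↑(Finset.range N) : Set ℕ)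
      (Function.onFun Disjoint fun m : ℕ => Ioc (0 + m * L) (ε + m * L)) := by
  have key : ∀ a b : ℕ, a < b → Disjoint (Ioc (0 + a * L) (ε + a * L)) (Ioc (0 + b * L) (ε + b * L)) := by
    intro a b h
    rw [disjoint_left]
    intro t h1 h2
    have : (a : ℝ) + 1 ≤ b := by exact_mod_cast h
    nlinarith [h1.2, h2.1]
  intro a _ b _ h
  rcases lt_or_gt_of_ne h with h | h
  · exact key a b h
  · exact (key b a h).symm

lemma U_meas (N : ℕ) (L ε : ℝ) : MeasurableSet (U N L ε) :=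
  Finset.measurableSet_biUnion _ fun _ _ => measurableSet_Ioc

lemma U_vol (N : ℕ) {L ε : ℝ} (hε : 0 < ε) (hL : ε ≤ L) : volume (U N L ε) = ENNReal.ofReal (N * ε) := by
  rw [U, measure_biUnion_finset (U_disj N hL (hε.trans_le hL)) fun _ _ => measurableSet_Ioc]
  simp [ENNReal.ofReal_mul]

lemma U_int (N : ℕ) {L ε : ℝ} (hε : 0 < ε) (hL : ε ≤ L) {k : ℝ → ℂ} (hk : Continuous k) :
    ∫ t, indicator (U N L ε) (fun _ => (1 : ℂ)) t * k t =
      ∫ t in Ioc 0 ε, ∑ m ∈ Finset.range N, k (t + m * L) := by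
  have : ∀ t, indicator (U N L ε) (fun _ => (1 : ℂ)) t * k t = indicator (U N L ε) k t := by
    intro t; simp only [indicator]; split_ifs <;> simp
  simp_rw [this]
  rw [integral_indicator (U_meas N L ε), U, integral_biUnion_finset _ (fun _ _ => measurableSet_Ioc)
    (U_disj N hL (hε.trans_le hL)) (fun _ _ => hk.integrableOn_Icc.mono_set Ioc_subset_Icc_self),
    integral_finsetSum _ fun m _ =>
      (Continuous.integrableOn_Icc (by fun_prop)).mono_set Ioc_subset_Icc_self]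
  refine Finset.sum_congr rfl fun m _ => ?_
  rw [← intervalIntegral.integral_of_le (by linarith), ← intervalIntegral.integral_of_le hε.le,
    intervalIntegral.integral_comp_add_right]

lemma lat_bound {g : ℝ → ℝ} {K L : ℝ} (hg : ∀ s, |g s| ≤ K * Real.exp (-|s|)) (hL : 1 ≤ L)
    {y R : ℝ} (hy : |y| ≤ R) (m : ℤ) :
    |g (m * L + y)| ≤ K * Real.exp R * Real.exp (-(|(m : ℝ)| * L)) := by
  have hK : 0 ≤ K := nonneg_of_mul_nonneg_left ((abs_nonneg _).trans (hg 0)) (Real.exp_pos _)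
  refine (hg _).trans ?_
  rw [mul_assoc, ← Real.exp_add]
  gcongr
  have := abs_add_le (m * L + y) (-y)
  rw [add_neg_cancel_right, abs_neg, abs_mul, abs_of_pos (by linarith : 0 < L)] at this
  linarith

lemma lat_β {g : ℝ → ℝ} {K L : ℝ} (hg : ∀ s, |g s| ≤ K * Real.exp (-|s|)) (hL : 1 ≤ L)
    {y R : ℝ} (hy : |y| ≤ R) (m : ℤ) : |g (m * L + y)| ≤ K * Real.exp R * β m := by
  have hK : 0 ≤ K := nonneg_of_mul_nonneg_left ((abs_nonneg _).trans (hg 0)) (Real.exp_pos _)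
  refine (lat_bound hg hL hy m).trans ?_
  gcongr
  refine le_trans ?_ (exp_le_β m)
  gcongr
  nlinarith [abs_nonneg (m : ℝ)]

lemma one_coset {g : ℝ → ℝ} {K L : ℝ} (hgc : Continuous g) (hg : ∀ s, |g s| ≤ K * Real.exp (-|s|))
    (hL : 1 ≤ L) {x ω : ℝ} (h0 : ∑' m : ℤ, cexp (-(2 * π * I * ω * (m * L))) * g (m * L - x) = 0)
    {η : ℝ} (hη : 0 < η) : ∀ᶠ p : ℝ × ℕ in (𝓝[>] 0) ×ˢ atTop,
      ∑' q : ℤ × ℤ, ‖∫ t, indicator (U p.2 L p.1) (fun _ => (1 : ℂ)) t *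
        (starRingEnd ℂ) (cexp (2 * π * I * ((ω + q.2 / L : ℝ) : ℂ) * t) * g (t - (x + q.1 * L)))‖ₑ ^ 2 ≤
      ENNReal.ofReal (η * (p.2 * p.1)) := by
  set K' := K * Real.exp (1 + |x|)
  have hL0 : 0 < L := by linarith
  set c : ℝ → ℤ → ℂ := fun t m => cexp (-(2 * π * I * ω * (m * L))) * g (m * L + (t - x)) with hc
  have hn : ∀ a : ℝ, ‖cexp (-(2 * π * I * a))‖ = 1 := fun a => by
    rw [show -(2 * π * I * a : ℂ) = ((-(2 * π * a) : ℝ) : ℂ) * I by push_cast; ring, norm_exp_ofReal_mul_I]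
  have hcb : ∀ t ∈ Icc (-1 : ℝ) 1, ∀ m, ‖c t m‖ ≤ K' * β m := by
    intro t ht m
    simp only [hc]
    rw [norm_mul, show 2 * π * I * ω * (m * L) = 2 * π * I * ((ω * (m * L) : ℝ) : ℂ) by push_cast; ring, hn,
      one_mul, norm_real, Real.norm_eq_abs]
    exact lat_β hg hL ((abs_sub _ _).trans (by gcongr; exact abs_le.2 ht)) m
  have hS : ContinuousOn (fun t => ∑' m, c t m) (Icc (-1) 1) :=
    continuousOn_tsum (fun m => Continuous.continuousOn (by simp only [hc]; fun_prop))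
      (β_sum.summable.mul_left K') fun m t ht => hcb t ht m
  have hS0 : Tendsto (fun t => 3 * L * ‖∑' m, c t m‖ ^ 2) (𝓝 0) (𝓝 0) := by
    have := hS.continuousAt (Icc_mem_nhds (by norm_num : (-1 : ℝ) < 0) one_pos)
    have e : ∑' m, c 0 m = 0 := by simpa [hc, sub_eq_add_neg] using h0
    have h2 := ((this.tendsto.norm.pow 2).const_mul (3 * L))
    simpa [e] using h2
  obtain ⟨δ, hδ, hδ'⟩ := Metric.eventually_nhds_iff.1 (hS0.eventually (gt_mem_nhds (half_pos hη)))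
  have hN : ∀ᶠ N : ℕ in atTop, L * (72 * K' ^ 2) ≤ η / 2 * N :=
    (tendsto_natCast_atTop_atTop.const_mul_atTop (half_pos hη)).eventually_ge_atTop _
  have hε : ∀ᶠ ε : ℝ in 𝓝[>] 0, ε ∈ Ioo 0 (min δ 1) := Ioo_mem_nhdsGT (by positivity)
  filter_upwards [hε.prod_mk hN] with ⟨ε, N⟩ ⟨h1, h2⟩
  have h3 : ε < δ := h1.2.trans_le (min_le_left _ _)
  have h4 : ε < 1 := h1.2.trans_le (min_le_right _ _)
  set Φ : ℤ → ℝ → ℂ := fun j t => cexp (-(2 * π * I * ((ω * (t + j * L) : ℝ) : ℂ))) *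
    ∑ m ∈ Finset.range N, c t (m - j) with hΦ
  have hΦc : ∀ j, Continuous (Φ j) := fun j => by simp only [hΦ, hc]; fun_prop
  have e : ∀ j l : ℤ, ∫ t, indicator (U N L ε) (fun _ => (1 : ℂ)) t *
      (starRingEnd ℂ) (cexp (2 * π * I * ((ω + l / L : ℝ) : ℂ) * t) * g (t - (x + j * L))) =
      ∫ t in Ioc 0 ε, cexp (-(2 * π * I * (l / L) * t)) * Φ j t := by
    intro j l
    rw [U_int N h1.1 (by linarith) (by fun_prop)]
    congr 1
    funext t
    simp only [hΦ, hc, Finset.mul_sum]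
    refine Finset.sum_congr rfl fun m _ => ?_
    rw [map_mul, conj_ofReal, ← exp_conj, ← mul_assoc, ← mul_assoc, ← exp_add, ← exp_add]
    congr 1
    · rw [exp_eq_exp_iff_exists_int]
      refine ⟨-(l * m), ?_⟩
      have : (L : ℂ) ≠ 0 := by exact_mod_cast hL0.ne'
      simp only [map_mul, conj_ofReal, conj_I, map_ofNat]
      push_cast
      field_simp
      ring
    · push_cast; congr 2; ring
  rw [ENNReal.tsum_prod']
  simp only [e, bessel h1.1 (by linarith : ε ≤ L) (hΦc _)]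
  rw [ENNReal.tsum_mul_left, ← lintegral_tsum fun j => ((hΦc j).measurable.enorm.pow_const 2).aemeasurable]
  have hb : ∀ t ∈ Ioc 0 ε, ∑' j, ‖Φ j t‖ₑ ^ 2 ≤ ENNReal.ofReal (η * N / L) := by
    intro t ht
    have e2 : ∀ j, ‖Φ j t‖ₑ = ‖∑ m ∈ Finset.range N, c t (m - j)‖ₑ := by
      intro j
      simp only [hΦ]
      rw [← ofReal_norm, ← ofReal_norm, norm_mul, hn, one_mul]
    simp only [e2]
    refine (conv (hcb t ⟨by linarith [ht.1], by linarith [ht.2]⟩) N).trans (ENNReal.ofReal_le_ofReal ?_)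
    have h5 := hδ' (y := t) (by rw [Real.dist_eq, sub_zero, abs_of_pos ht.1]; linarith [ht.2])
    rw [le_div_iff₀ hL0]
    have : (0 : ℝ) ≤ N := Nat.cast_nonneg N
    nlinarith [mul_le_mul_of_nonneg_left h5.le this]
  calc ENNReal.ofReal L * ∫⁻ t in Ioc 0 ε, ∑' j, ‖Φ j t‖ₑ ^ 2
      ≤ ENNReal.ofReal L * ∫⁻ t in Ioc 0 ε, ENNReal.ofReal (η * N / L) := by
        gcongr 1
        exact setLIntegral_mono' measurableSet_Ioc hb
    _ = _ := by
        rw [setLIntegral_const, Real.volume_Ioc, ← ENNReal.ofReal_mul (by positivity),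
          ← ENNReal.ofReal_mul hL0.le]
        congr 1
        field_simp
        ring

theorem not_frame {g : ℝ → ℝ} {K L : ℝ} (hgc : Continuous g) (hg : ∀ s, |g s| ≤ K * Real.exp (-|s|))
    (hL : 1 ≤ L) (Z : Finset (ℝ × ℝ))
    (h0 : ∀ z ∈ Z, ∑' m : ℤ, cexp (-(2 * π * I * z.2 * (m * L))) * g (m * L - z.1) = 0)
    {A : ℝ} (hA : 0 < A) : ∃ f : ℝ → ℂ, MemLp f 2 volume ∧
      ∑' γ : {γ : ℝ × ℝ | ∃ z ∈ Z, ∃ j l : ℤ, γ = z + (j * L, l / L)},
        ‖∫ t, f t * (starRingEnd ℂ) (cexp (2 * π * I * γ.1.2 * t) * g (t - γ.1.1))‖ₑ ^ 2 <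
      ENNReal.ofReal A * ∫⁻ t, ‖f t‖ₑ ^ 2 := by
  have hη : 0 < A / (Z.card + 1) := by positivity
  have h1 := (Finset.eventually_all Z).2 fun z hz => one_coset hgc hg hL (h0 z hz) hη
  have hε : ∀ᶠ ε : ℝ in 𝓝[>] 0, ε ∈ Ioo 0 1 := Ioo_mem_nhdsGT one_pos
  obtain ⟨⟨ε, N⟩, h2, h3, h4⟩ := (h1.and (hε.prod_mk (eventually_gt_atTop 0))).exists
  have hv := U_vol N h3.1 (by linarith [h3.2] : ε ≤ L)
  refine ⟨indicator (U N L ε) (fun _ => (1 : ℂ)),
    memLp_indicator_const 2 (U_meas N L ε) 1 (Or.inr (hv.trans_ne ENNReal.ofReal_ne_top)), ?_⟩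
  have e : ∫⁻ t, ‖indicator (U N L ε) (fun _ => (1 : ℂ)) t‖ₑ ^ 2 = ENNReal.ofReal (N * ε) := by
    rw [← hv, ← lintegral_indicator_one (U_meas N L ε)]
    congr 1
    funext t
    simp only [indicator]; split_ifs <;> simp
  rw [e]
  let φ : Z × ℤ × ℤ → {γ : ℝ × ℝ | ∃ z ∈ Z, ∃ j l : ℤ, γ = z + (j * L, l / L)} :=
    fun q => ⟨q.1.1 + (q.2.1 * L, q.2.2 / L), q.1.1, q.1.2, q.2.1, q.2.2, rfl⟩
  have hφ : Function.Surjective φ := by
    rintro ⟨_, z, hz, j, l, rfl⟩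
    exact ⟨(⟨z, hz⟩, j, l), rfl⟩
  refine (ENNReal.tsum_le_tsum_comp_of_surjective hφ _).trans_lt ?_
  rw [ENNReal.tsum_prod', tsum_fintype]
  refine (Finset.sum_le_sum fun z _ => h2 z.1 z.2).trans_lt ?_
  have hN : (0 : ℝ) < N := by exact_mod_cast h4
  have h5 : 0 < N * ε := mul_pos hN h3.1
  rw [Finset.sum_const, nsmul_eq_mul, ← ENNReal.ofReal_natCast, ← ENNReal.ofReal_mul (by positivity),
    ← ENNReal.ofReal_mul hA.le, ENNReal.ofReal_lt_ofReal_iff (by positivity), ← mul_assoc]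
  gcongr
  simp only [Finset.univ_eq_attach, Finset.card_attach]
  rw [mul_div_assoc', div_lt_iff₀ (by positivity)]
  nlinarith

end Pool.Agent.H92.Zak
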