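import Pool.Agent.H92.Zak

set_option autoImplicit false
open MeasureTheory Filter Topology Set
open scoped Real

namespace Pool.Agent.H92.Zak

lemma alt_step {G G' : ℝ → ℝ} (hG : ∀ x, HasDerivAt G (G' x) x) (h1 : Tendsto G atBot (𝓝 0))
    (h2 : Tendsto G atTop (𝓝 0)) {n : ℕ} {t : ℕ → ℝ} (ht : ∀ i < n, t i < t (i + 1))
    (hs : ∀ i ≤ n, 0 < (-1) ^ i * G (t i)) :
    ∃ u : ℕ → ℝ, (∀ i < n + 1, u i < u (i + 1)) ∧ ∀ i ≤ n + 1, 0 < (-1) ^ i * G' (u i) := by
  obtain ⟨a, ha1, ha2⟩ : ∃ a, a < t 0 ∧ G a < G (t 0) :=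
    ((eventually_lt_atBot _).and (h1.eventually (gt_mem_nhds (by simpa using hs 0 n.zero_le)))).exists
  obtain ⟨b, hb1, hb2⟩ : ∃ b, t n < b ∧ (-1) ^ n * G b < (-1) ^ n * G (t n) :=
    ((eventually_gt_atTop _).and ((h2.const_mul ((-1) ^ n)).eventually
      (gt_mem_nhds (by simpa using hs n le_rfl)))).exists
  let s : ℕ → ℝ := fun i => if i = 0 then a else if i ≤ n + 1 then t (i - 1) else b
  have key : ∀ i ≤ n + 1, s i < s (i + 1) ∧ 0 < (-1) ^ i * (G (s (i + 1)) - G (s i)) := by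
    intro i hi
    rcases Nat.eq_zero_or_pos i with rfl | h0
    · simp [s, ha1, ha2]
    · obtain ⟨j, rfl⟩ : ∃ j, i = j + 1 := ⟨i - 1, by omega⟩
      rcases eq_or_lt_of_le hi with h | h
      · obtain rfl : j = n := by omega
        simp only [s, Nat.succ_ne_zero, if_false, le_refl, if_true, Nat.add_sub_cancel,
          show ¬ (j + 1 + 1 ≤ j + 1) by omega, hb1, true_and, pow_succ]
        linarith
      · have a1 := hs j (by omega)
        have a2 := hs (j + 1) (by omega)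
        simp only [s, Nat.succ_ne_zero, if_false, hi, if_true, Nat.add_sub_cancel,
          show j + 1 + 1 ≤ n + 1 by omega, ht j (by omega), true_and, pow_succ] at a2 ⊢
        linarith
  have : ∀ i, ∃ c, i ≤ n + 1 → c ∈ Ioo (s i) (s (i + 1)) ∧ 0 < (-1) ^ i * G' c := by
    intro i
    by_cases hi : i ≤ n + 1
    · obtain ⟨k1, k2⟩ := key i hi
      obtain ⟨c, c1, c2⟩ := exists_hasDerivAt_eq_slope G G' k1
        (fun x _ => (hG x).continuousAt.continuousWithinAt) fun x _ => hG x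
      refine ⟨c, fun _ => ⟨c1, ?_⟩⟩
      rw [c2, ← mul_div_assoc]
      exact div_pos k2 (sub_pos.2 k1)
    · exact ⟨0, fun h => absurd h hi⟩
  choose u hu using this
  exact ⟨u, fun i hi => (hu i hi.le).1.2.trans (hu (i + 1) hi).1.1, fun i hi => (hu i hi).2⟩

lemma poly_bd (P : Polynomial ℝ) : ∃ C, ∀ t : ℝ, |P.eval t| ≤ C * Real.exp |t| := by
  induction P using Polynomial.induction_on' with
  | add p q hp hq =>
    obtain ⟨a, ha⟩ := hp
    obtain ⟨b, hb⟩ := hq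
    refine ⟨a + b, fun t => ?_⟩
    rw [Polynomial.eval_add, add_mul]
    exact (abs_add_le _ _).trans (add_le_add (ha t) (hb t))
  | monomial k a =>
    refine ⟨|a| * k.factorial, fun t => ?_⟩
    rw [Polynomial.eval_monomial, abs_mul, abs_pow, mul_assoc]
    gcongr
    have := Real.pow_div_factorial_le_exp |t| (abs_nonneg t) k
    rwa [div_le_iff₀' (by positivity)] at this

lemma gauss_bd (P : Polynomial ℝ) {c : ℝ} (hc : 1 ≤ c) :
    ∃ K, ∀ t : ℝ, |P.eval t * Real.exp (-c * t ^ 2)| ≤ K * Real.exp (-|t|) := by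
  obtain ⟨C, hC⟩ := poly_bd P
  have hC0 : 0 ≤ C := nonneg_of_mul_nonneg_left ((abs_nonneg _).trans (hC 0)) (Real.exp_pos _)
  refine ⟨C * Real.exp 1, fun t => ?_⟩
  rw [abs_mul, abs_of_pos (Real.exp_pos _)]
  refine (mul_le_mul_of_nonneg_right (hC t) (Real.exp_pos _).le).trans ?_
  rw [mul_assoc, mul_assoc, ← Real.exp_add, ← Real.exp_add]
  refine mul_le_mul_of_nonneg_left (Real.exp_le_exp.2 ?_) hC0
  nlinarith [sq_abs t, sq_nonneg (|t| - 1), sq_nonneg t]

lemma gauss_deriv (P : Polynomial ℝ) (t : ℝ) :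
    HasDerivAt (fun t => P.eval t * Real.exp (-(2 * π) * t ^ 2))
      ((P.derivative - Polynomial.C (4 * π) * Polynomial.X * P).eval t * Real.exp (-(2 * π) * t ^ 2)) t := by
  have h := (P.hasDerivAt t).mul (((hasDerivAt_pow 2 t).const_mul (-(2 * π))).exp)
  refine HasDerivAt.congr_deriv h ?_
  simp
  ring

lemma gauss_alt (n : ℕ) : ∃ P : Polynomial ℝ,
    iteratedDeriv n (fun t : ℝ => Real.exp (-2 * π * t ^ 2)) =
      (fun t => P.eval t * Real.exp (-(2 * π) * t ^ 2)) ∧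
    ∃ t : ℕ → ℝ, (∀ i < n, t i < t (i + 1)) ∧
      ∀ i ≤ n, 0 < (-1) ^ i * (P.eval (t i) * Real.exp (-(2 * π) * (t i) ^ 2)) := by
  induction n with
  | zero =>
    refine ⟨1, by simp, fun _ => 0, by simp, fun i hi => ?_⟩
    obtain rfl : i = 0 := by omega
    simp
  | succ n ih =>
    obtain ⟨P, h1, t, h2, h3⟩ := ih
    obtain ⟨K, hK⟩ := gauss_bd P (c := 2 * π) (by linarith [Real.pi_gt_three])
    have lim : ∀ l : Filter ℝ, Tendsto (fun t : ℝ => |t|) l atTop →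
        Tendsto (fun t => P.eval t * Real.exp (-(2 * π) * t ^ 2)) l (𝓝 0) := by
      intro l hl
      refine squeeze_zero_norm hK ?_
      simpa using (Real.tendsto_exp_neg_atTop_nhds_zero.comp hl).const_mul K
    refine ⟨_, ?_, alt_step (gauss_deriv P) (lim _ tendsto_abs_atBot_atTop)
      (lim _ tendsto_abs_atTop_atTop) h2 h3⟩
    rw [iteratedDeriv_succ, h1]
    funext t
    exact (gauss_deriv P t).deriv

lemma zeros {φ : ℝ → ℝ} (hφ : Continuous φ) {n : ℕ} {t : ℕ → ℝ} (ht : ∀ i < n, t i < t (i + 1))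
    {s R : ℝ} (hs : ∀ i ≤ n, 0 < (-1) ^ i * s * φ (t i)) (hR : ∀ i ≤ n, |t i| ≤ R) :
    ∃ Y : Finset ℝ, Y.card = n ∧ ∀ y ∈ Y, |y| ≤ R ∧ φ y = 0 := by
  have : ∀ i, ∃ c, i < n → c ∈ Ioo (t i) (t (i + 1)) ∧ φ c = 0 := by
    intro i
    by_cases hi : i < n
    · have a1 := hs i hi.le
      have a2 := hs (i + 1) hi
      have hc : ContinuousOn (fun y => (-1) ^ i * s * φ y) (Icc (t i) (t (i + 1))) := by fun_prop
      obtain ⟨c, c1, c2⟩ := intermediate_value_Ioo' (ht i hi).le hc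
        (show (0 : ℝ) ∈ Ioo _ _ from ⟨by rw [pow_succ] at a2; linarith, a1⟩)
      refine ⟨c, fun _ => ⟨c1, ?_⟩⟩
      rcases mul_eq_zero.1 c2 with h | h
      · simp [h] at a1
      · exact h
    · exact ⟨0, fun h => absurd h hi⟩
  choose y hy using this
  have mono : ∀ j, ∀ i < j, j < n → y i < y j := by
    intro j
    induction j with
    | zero => simp
    | succ j ih =>
      intro i hi hj
      have := (hy j (by omega)).1.2.trans (hy (j + 1) hj).1.1
      rcases eq_or_lt_of_le (Nat.lt_succ_iff.1 hi) with rfl | h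
      · exact this
      · exact (ih i h (by omega)).trans this
  refine ⟨(Finset.range n).image y, ?_, ?_⟩
  · rw [Finset.card_image_of_injOn, Finset.card_range]
    intro i hi j hj h
    simp only [Finset.coe_range, mem_Iio] at hi hj
    rcases lt_trichotomy i j with k | k | k
    · exact absurd h (mono j i k hj).ne
    · exact k
    · exact absurd h (mono i j k hi).ne'
  · intro z hz
    obtain ⟨i, hi, rfl⟩ := Finset.mem_image.1 hz
    have hi := Finset.mem_range.1 hi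
    obtain ⟨⟨a1, a2⟩, a3⟩ := hy i hi
    have b1 := abs_le.1 (hR i hi.le)
    have b2 := abs_le.1 (hR (i + 1) hi)
    exact ⟨abs_le.2 ⟨by linarith, by linarith⟩, a3⟩

lemma zak_zeros {g : ℝ → ℝ} {K : ℝ} (hgc : Continuous g) (hg : ∀ s, |g s| ≤ K * Real.exp (-|s|))
    {n : ℕ} {t : ℕ → ℝ} (ht : ∀ i < n, t i < t (i + 1)) {s : ℝ}
    (hs : ∀ i ≤ n, 0 < (-1) ^ i * s * g (t i)) : ∃ R, ∀ᶠ L : ℝ in atTop, ∀ σ : ℤ → ℝ, (∀ m, |σ m| ≤ 1) →
      σ 0 = 1 → ∃ Y : Finset ℝ, Y.card = n ∧ ∀ y ∈ Y, |y| ≤ R ∧ ∑' m : ℤ, σ m * g (m * L + y) = 0 := by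
  have hK : 0 ≤ K := nonneg_of_mul_nonneg_left ((abs_nonneg _).trans (hg 0)) (Real.exp_pos _)
  set R := ∑ i ∈ Finset.range (n + 1), |t i|
  have hR : ∀ i ≤ n, |t i| ≤ R := fun i hi =>
    Finset.single_le_sum (f := fun i => |t i|) (fun _ _ => abs_nonneg _) (Finset.mem_range.2 (by omega))
  refine ⟨R, ?_⟩
  have lim : Tendsto (fun L : ℝ => |s| * (K * Real.exp R * Real.exp 1 * Real.exp (-L) * 3)) atTop (𝓝 0) := by
    simpa using ((Real.tendsto_exp_neg_atTop_nhds_zero.const_mul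
      (K * Real.exp R * Real.exp 1)).mul_const 3).const_mul |s|
  have h1 := (Finset.eventually_all (Finset.range (n + 1))).2 fun i hi =>
    lim.eventually (gt_mem_nhds (hs i (Nat.lt_succ_iff.1 (Finset.mem_range.1 hi))))
  filter_upwards [h1, eventually_ge_atTop 1] with L h1 hL σ hσ h0
  have hb : ∀ {y r : ℝ}, |y| ≤ r → ∀ m, ‖σ m * g (m * L + y)‖ ≤ K * Real.exp r * β m := by
    intro y r hy m
    rw [Real.norm_eq_abs, abs_mul]
    exact (mul_le_of_le_one_left (abs_nonneg _) (hσ m)).trans (lat_β hg hL hy m)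
  refine zeros (φ := fun y => ∑' m : ℤ, σ m * g (m * L + y)) ?_ ht (s := s) (fun i hi => ?_) hR
  · refine continuous_iff_continuousAt.2 fun y => ?_
    have : ContinuousOn (fun y => ∑' m : ℤ, σ m * g (m * L + y)) (Icc (-(|y| + 1)) (|y| + 1)) :=
      continuousOn_tsum (fun m => Continuous.continuousOn (by fun_prop))
        (β_sum.summable.mul_left _) fun m t ht => hb (abs_le.2 ht) m
    exact this.continuousAt (Icc_mem_nhds (by linarith [neg_abs_le y]) (by linarith [le_abs_self y]))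
  · have hsum := Summable.of_norm_bounded (β_sum.summable.mul_left _) (hb (hR i hi))
    rw [hsum.tsum_eq_add_tsum_ite 0]
    have h2 : ‖∑' m : ℤ, ite (m = 0) 0 (σ m * g (m * L + t i))‖ ≤
        K * Real.exp R * Real.exp 1 * Real.exp (-L) * 3 := by
      refine tsum_of_norm_bounded (β_sum.mul_left _) fun m => ?_
      split_ifs with h
      · have := β_pos m
        rw [norm_zero]; positivity
      · rw [Real.norm_eq_abs, abs_mul]
        refine (mul_le_of_le_one_left (abs_nonneg _) (hσ m)).trans ((lat_bound hg hL (hR i hi) m).trans ?_)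
        rw [mul_assoc (K * _), mul_assoc (K * _), ← Real.exp_add]
        gcongr
        refine le_trans ?_ (mul_le_mul_of_nonneg_left (exp_le_β m) (Real.exp_pos _).le)
        rw [← Real.exp_add]
        gcongr
        have : (1 : ℝ) ≤ |(m : ℝ)| := by exact_mod_cast Int.one_le_abs h
        nlinarith
    have h3 := h1 i (Finset.mem_range.2 (by omega))
    simp only [h0, Int.cast_zero, zero_mul, zero_add, one_mul]
    generalize ∑' m : ℤ, ite (m = 0) 0 (σ m * g (m * L + t i)) = E at *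
    have h4 : |(-1) ^ i * s * E| ≤ |s| * (K * Real.exp R * Real.exp 1 * Real.exp (-L) * 3) := by
      rw [abs_mul, abs_mul, abs_pow, abs_neg, abs_one, one_pow, one_mul]
      exact mul_le_mul_of_nonneg_left h2 (abs_nonneg _)
    rw [mul_add]
    linarith [neg_abs_le ((-1) ^ i * s * E)]

lemma sep1 (c : ℝ) {L : ℝ} (hL : 0 < L) :
    ∀ᶠ δ : ℝ in 𝓝[>] 0, ∀ k : ℤ, c + k * L ≠ 0 → δ ≤ |c + k * L| := by
  set k0 := ⌊-c / L⌋
  have h1 : k0 * L ≤ -c := by rw [← le_div_iff₀ hL]; exact Int.floor_le _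
  have h2 : -c < (k0 + 1) * L := by rw [← div_lt_iff₀ hL]; exact Int.lt_floor_add_one _
  have h3 : ∀ᶠ δ : ℝ in 𝓝[>] 0, c + k0 * L ≠ 0 → δ ≤ |c + k0 * L| := by
    by_cases h : c + k0 * L = 0
    · simp [h]
    · filter_upwards [Ioo_mem_nhdsGT (abs_pos.2 h)] with δ hδ _ using hδ.2.le
  filter_upwards [h3, Ioo_mem_nhdsGT hL, Ioo_mem_nhdsGT (show 0 < c + (k0 + 1) * L by linarith)]
    with δ a1 a2 a3 k hk
  rcases lt_trichotomy k k0 with h | rfl | h
  · have : (k : ℝ) + 1 ≤ k0 := by exact_mod_cast h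
    exact le_abs.2 (Or.inr (by nlinarith [a2.2]))
  · exact a1 hk
  · have : (k0 : ℝ) + 1 ≤ k := by exact_mod_cast h
    exact le_abs.2 (Or.inl (by nlinarith [a3.2]))

lemma sep (Z : Finset (ℝ × ℝ)) {L : ℝ} (hL : 0 < L) : ∃ δ : ℝ, 0 < δ ∧
    ∀ γ ∈ {γ : ℝ × ℝ | ∃ z ∈ Z, ∃ j l : ℤ, γ = z + (j * L, l / L)},
    ∀ γ' ∈ {γ : ℝ × ℝ | ∃ z ∈ Z, ∃ j l : ℤ, γ = z + (j * L, l / L)}, γ ≠ γ' → δ ≤ dist γ γ' := by
  have h := (Finset.eventually_all Z).2 fun z _ => (Finset.eventually_all Z).2 fun z' _ =>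
    (sep1 (z.1 - z'.1) hL).and (sep1 (z.2 - z'.2) (inv_pos.2 hL))
  obtain ⟨δ, h1, h2⟩ := (h.and self_mem_nhdsWithin).exists
  refine ⟨δ, h2, ?_⟩
  rintro _ ⟨z, hz, j, l, rfl⟩ _ ⟨z', hz', j', l', rfl⟩ hne
  obtain ⟨a1, a2⟩ := h1 z hz z' hz'
  have e1 : z.1 + j * L - (z'.1 + j' * L) = z.1 - z'.1 + ((j - j' : ℤ) : ℝ) * L := by push_cast; ring
  have e2 : z.2 + l / L - (z'.2 + l' / L) = z.2 - z'.2 + ((l - l' : ℤ) : ℝ) * L⁻¹ := by push_cast; ring
  rw [Prod.dist_eq, Real.dist_eq, Real.dist_eq]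
  simp only [Prod.fst_add, Prod.snd_add, e1, e2]
  by_contra hc
  rw [not_le, max_lt_iff] at hc
  apply hne
  refine Prod.ext ?_ ?_
  · simp only [Prod.fst_add]
    by_contra h
    exact absurd (a1 _ (e1 ▸ sub_ne_zero.2 h)) (not_le.2 hc.1)
  · simp only [Prod.snd_add]
    by_contra h
    exact absurd (a2 _ (e2 ▸ sub_ne_zero.2 h)) (not_le.2 hc.2)

lemma odd_zero {g : ℝ → ℝ} {L : ℝ} {σ : ℤ → ℝ} (h : ∀ m : ℤ, σ (1 - m) * g (-(m * L - L / 2)) = -(σ m * g (m * L - L / 2))) :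
    ∑' m : ℤ, σ m * g (m * L - L / 2) = 0 := by
  have := (Equiv.subLeft (1 : ℤ)).tsum_eq (fun m : ℤ => σ m * g (m * L - L / 2))
  simp only [Equiv.subLeft_apply] at this
  have e : ∀ m : ℤ, ((1 - m : ℤ) : ℝ) * L - L / 2 = -(m * L - L / 2) := fun m => by push_cast; ring
  simp only [e, h, tsum_neg] at this
  linarith

theorem config {g : ℝ → ℝ} {K : ℝ} (hgc : Continuous g) (hg : ∀ s, |g s| ≤ K * Real.exp (-|s|))
    {n : ℕ} {t : ℕ → ℝ} (ht : ∀ i < n, t i < t (i + 1)) {s : ℝ}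
    (hs : ∀ i ≤ n, 0 < (-1) ^ i * s * g (t i)) (hp : ∀ x, g (-x) = (-1) ^ n * g x) :
    ∃ (L : ℝ) (Z : Finset (ℝ × ℝ)), 1 ≤ L ∧ Z.card = 2 * n + 1 ∧
      (∀ z ∈ Z, ∀ z' ∈ Z, ∀ j l : ℤ, z = z' + (j * L, l / L) → z = z') ∧
      ∀ z ∈ Z, ∑' m : ℤ, Complex.exp (-(2 * π * Complex.I * z.2 * (m * L))) * g (m * L - z.1) = 0 := by
  classical
  obtain ⟨R, hR⟩ := zak_zeros hgc hg ht hs
  obtain ⟨L, h1, hL, hRL⟩ := (hR.and ((eventually_ge_atTop 1).and (eventually_gt_atTop (2 * R)))).exists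
  have hL0 : 0 < L := by linarith
  obtain ⟨Y1, a1, a2⟩ := h1 (fun _ => 1) (by simp) rfl
  obtain ⟨Y2, b1, b2⟩ := h1 (fun m => (-1) ^ m) (by simp [abs_zpow]) (by simp)
  have z0 : ∀ x : ℝ, ∑' m : ℤ, 1 * g (m * L - x) = 0 →
      ∑' m : ℤ, Complex.exp (-(2 * π * Complex.I * (0 : ℝ) * (m * L))) * g (m * L - x) = 0 := by
    intro x h
    have := congrArg Complex.ofReal h
    rw [Complex.ofReal_tsum] at this
    simpa using this
  have z1 : ∀ x : ℝ, ∑' m : ℤ, (-1) ^ m * g (m * L - x) = 0 →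
      ∑' m : ℤ, Complex.exp (-(2 * π * Complex.I * (1 / (2 * L) : ℝ) * (m * L))) * g (m * L - x) = 0 := by
    intro x h
    have := congrArg Complex.ofReal h
    rw [Complex.ofReal_tsum] at this
    have e : ∀ m : ℤ, Complex.exp (-(2 * π * Complex.I * (1 / (2 * L) : ℝ) * (m * L))) = (-1) ^ m := by
      intro m
      have : (L : ℂ) ≠ 0 := by exact_mod_cast hL0.ne'
      rw [← Complex.exp_neg_pi_mul_I, ← Complex.exp_int_mul]
      congr 1
      push_cast
      field_simp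
    simp only [e]
    simpa using this
  set w : ℝ := if Even n then 1 / (2 * L) else 0 with hw
  have hpos : 0 < 1 / (2 * L) := by positivity
  have hlt : 1 / (2 * L) < 1 / L := one_div_lt_one_div_of_lt hL0 (by linarith)
  set Z1 := Y1.image fun y => ((-y, 0) : ℝ × ℝ)
  set Z2 := Y2.image fun y => ((-y, 1 / (2 * L)) : ℝ × ℝ)
  have m1 : ∀ z ∈ Z1, |z.1| ≤ R ∧ z.2 = 0 ∧ ∑' m : ℤ, 1 * g (m * L - z.1) = 0 := by
    intro z hz
    obtain ⟨y, hy, rfl⟩ := Finset.mem_image.1 hz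
    simpa using a2 y hy
  have m2 : ∀ z ∈ Z2, |z.1| ≤ R ∧ z.2 = 1 / (2 * L) ∧ ∑' m : ℤ, (-1) ^ m * g (m * L - z.1) = 0 := by
    intro z hz
    obtain ⟨y, hy, rfl⟩ := Finset.mem_image.1 hz
    simpa using b2 y hy
  have box : ∀ z ∈ insert (L / 2, w) (Z1 ∪ Z2), -(L / 2) < z.1 ∧ z.1 ≤ L / 2 ∧ 0 ≤ z.2 ∧ z.2 < 1 / L := by
    intro z hz
    rcases Finset.mem_insert.1 hz with rfl | hz
    · refine ⟨by linarith, le_rfl, ?_, ?_⟩ <;> simp only [hw] <;> split_ifs <;> linarith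
    · rcases Finset.mem_union.1 hz with hz | hz
      · obtain ⟨c1, c2, -⟩ := m1 z hz
        have := abs_le.1 c1
        exact ⟨by linarith, by linarith, by linarith, by linarith⟩
      · obtain ⟨c1, c2, -⟩ := m2 z hz
        have := abs_le.1 c1
        exact ⟨by linarith, by linarith, by linarith, by linarith⟩
  refine ⟨L, insert (L / 2, w) (Z1 ∪ Z2), hL, ?_, ?_, ?_⟩
  · rw [Finset.card_insert_of_notMem, Finset.card_union_of_disjoint,
      Finset.card_image_of_injective _ fun x y h => by simpa using h,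
      Finset.card_image_of_injective _ fun x y h => by simpa using h, a1, b1, two_mul]
    · rw [Finset.disjoint_left]
      intro z c1 c2
      linarith [(m1 z c1).2.1, (m2 z c2).2.1]
    · intro h
      rcases Finset.mem_union.1 h with h | h
      · linarith [(abs_le.1 (m1 _ h).1).2]
      · linarith [(abs_le.1 (m2 _ h).1).2]
  · intro z hz z' hz' j l h
    obtain ⟨c1, c2, c3, c4⟩ := box z hz
    obtain ⟨d1, d2, d3, d4⟩ := box z' hz'
    have e1 : z.1 = z'.1 + j * L := congrArg Prod.fst h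
    have e2 : z.2 = z'.2 + l * (1 / L) := by rw [mul_one_div]; exact congrArg Prod.snd h
    have f1 : j = 0 := by
      have g1 : (j : ℝ) < 1 := by nlinarith
      have g2 : (-1 : ℝ) < j := by nlinarith
      have : j < 1 := by exact_mod_cast g1
      have : -1 < j := by exact_mod_cast g2
      omega
    have f2 : l = 0 := by
      have g1 : (l : ℝ) < 1 := by nlinarith
      have g2 : (-1 : ℝ) < l := by nlinarith
      have : l < 1 := by exact_mod_cast g1
      have : -1 < l := by exact_mod_cast g2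
      omega
    rw [h, f1, f2]
    simp
  · intro z hz
    rcases Finset.mem_insert.1 hz with rfl | hz
    · simp only [hw]
      split_ifs with h
      · refine z1 _ (odd_zero fun m => ?_)
        rw [hp, h.neg_one_pow, zpow_sub₀ (by norm_num), zpow_one]
        rcases Int.even_or_odd m with k | k <;> simp [k.neg_one_zpow]
      · refine z0 _ (odd_zero (σ := fun _ => 1) fun m => ?_)
        rw [hp, (Nat.not_even_iff_odd.1 h).neg_one_pow]
        ring
    · rcases Finset.mem_union.1 hz with hz | hz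
      · obtain ⟨-, c2, c3⟩ := m1 z hz
        rw [c2]; exact z0 _ c3
      · obtain ⟨-, c2, c3⟩ := m2 z hz
        rw [c2]; exact z1 _ c3

theorem hermite (n : ℕ) {C : ℝ} (hC : C ≠ 0) {g : ℝ → ℝ}
    (hg : g = fun t => C * Real.exp (π * t ^ 2) * iteratedDeriv n (fun t : ℝ => Real.exp (-2 * π * t ^ 2)) t) :
    Continuous g ∧ (∃ K, ∀ s, |g s| ≤ K * Real.exp (-|s|)) ∧
    (∃ t : ℕ → ℝ, (∀ i < n, t i < t (i + 1)) ∧ ∀ i ≤ n, 0 < (-1) ^ i * C * g (t i)) ∧
    ∀ x, g (-x) = (-1) ^ n * g x := by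
  obtain ⟨P, h1, t, h2, h3⟩ := gauss_alt n
  refine ⟨by rw [hg, h1]; fun_prop, ?_, ⟨t, h2, fun i hi => ?_⟩, fun x => ?_⟩
  · obtain ⟨K, hK⟩ := gauss_bd (Polynomial.C C * P) (c := π) (by linarith [Real.pi_gt_three])
    refine ⟨K, fun s => le_of_eq_of_le ?_ (hK s)⟩
    rw [hg, h1, show -π * s ^ 2 = π * s ^ 2 + -(2 * π) * s ^ 2 by ring, Real.exp_add]
    simp only [Polynomial.eval_mul, Polynomial.eval_C]
    ring_nf
  · have := mul_pos (mul_pos (sq_pos_of_ne_zero hC) (Real.exp_pos (π * t i ^ 2))) (h3 i hi)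
    rw [hg, h1]
    linarith
  · have := iteratedDeriv_comp_neg n (fun t : ℝ => Real.exp (-2 * π * t ^ 2)) (-x)
    simp only [even_two.neg_pow, neg_neg, smul_eq_mul] at this
    rw [hg]
    simp only [even_two.neg_pow, this]
    ring

end Pool.Agent.H92.Zak
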