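import Mathlib

set_option autoImplicit false
open Filter Topology InnerProductSpace Laplacian

namespace Pool.Agent.H92.Zonal

abbrev E := EuclideanSpace ℝ (Fin 3)

section mv
open MvPolynomial

noncomputable def ev (P : MvPolynomial (Fin 3) ℝ) (x : E) : ℝ := eval (fun i => x i) P

lemma ev_smooth (P : MvPolynomial (Fin 3) ℝ) {m : WithTop ℕ∞} : ContDiff ℝ m (ev P) := by
  induction P using MvPolynomial.induction_on with
  | C a => rw [show ev (C a) = fun _ => a from funext fun _ => eval_C _]; exact contDiff_const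
  | add p q hp hq => rw [show ev (p + q) = ev p + ev q from funext fun _ => map_add _ _ _]; exact hp.add hq
  | mul_X p i hp =>
    rw [show ev (p * X i) = fun x => ev p x * EuclideanSpace.proj (𝕜 := ℝ) i x from funext fun _ => by simp [ev]]
    exact hp.mul (ContinuousLinearMap.contDiff _)

lemma ev_fderiv (P : MvPolynomial (Fin 3) ℝ) (x : E) (j : Fin 3) :
    fderiv ℝ (ev P) x (EuclideanSpace.single j 1) = ev (pderiv j P) x := by
  have d : ∀ P, DifferentiableAt ℝ (ev P) x := fun P => (ev_smooth P (m := 1)).differentiable one_ne_zero x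
  induction P using MvPolynomial.induction_on with
  | C a => rw [show ev (C a) = fun _ => a from funext fun _ => eval_C _]; simp [ev]
  | add p q hp hq =>
    rw [show ev (p + q) = ev p + ev q from funext fun _ => map_add _ _ _, fderiv_add (d p) (d q)]
    simp [hp, hq, ev]
  | mul_X p i hp =>
    rw [show ev (p * X i) = ev p * (EuclideanSpace.proj (𝕜 := ℝ) i : E → ℝ) from funext fun _ => by simp [ev],
      fderiv_mul (d p) (ContinuousLinearMap.differentiableAt _), ContinuousLinearMap.fderiv]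
    simp only [add_apply, smul_apply, hp]
    by_cases h : i = j <;> simp [ev, h, Pi.single_apply]

noncomputable def D (P : MvPolynomial (Fin 3) ℝ) : MvPolynomial (Fin 3) ℝ := ∑ j, pderiv j (pderiv j P)

lemma lap (P : MvPolynomial (Fin 3) ℝ) : Δ (ev P) = ev (D P) := by
  rw [laplacian_eq_iteratedFDeriv_orthonormalBasis _ (EuclideanSpace.basisFun (Fin 3) ℝ)]
  ext x
  simp only [D, ev, map_sum]
  refine Finset.sum_congr rfl fun j _ => ?_
  have d : DifferentiableAt ℝ (fderiv ℝ (ev P)) x :=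
    ((ev_smooth P (m := 2)).fderiv_right (m := 1) le_rfl).differentiable one_ne_zero x
  have := ev_fderiv (pderiv j P) x j
  rw [← funext fun y => ev_fderiv P y j, fderiv_clm_apply d (differentiableAt_const _)] at this
  rw [iteratedFDeriv_two_apply]
  simpa [ev] using this

noncomputable def R : MvPolynomial (Fin 3) ℝ := X 0 ^ 2 + X 1 ^ 2 + X 2 ^ 2

lemma D_mono (b i : ℕ) : D (X 2 ^ b * R ^ i) = C (b * (b - 1) : ℝ) * (X 2 ^ (b - 2) * R ^ i) +
    C (2 * i * (2 * b + 2 * i + 1) : ℝ) * (X 2 ^ b * R ^ (i - 1)) := by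
  have h : ∀ j, pderiv j R = 2 * X j := fun j => by
    fin_cases j <;> simp [R, pderiv_pow]
  have h2 : ∀ j : Fin 3, pderiv j (2 : MvPolynomial (Fin 3) ℝ) = 0 := fun j => pderiv_C (a := (2:ℝ))
  have hp : ∀ (a : MvPolynomial (Fin 3) ℝ) (n : ℕ), n * a ^ (n - 1) * a = n * a ^ n := fun a n => by
    cases n <;> simp [pow_succ, mul_assoc]
  have hc : ∀ n : ℕ, (n : MvPolynomial (Fin 3) ℝ) * (n - 1 : ℕ) = n * (n - 1) := fun n => by
    cases n <;> simp
  simp only [D, Fin.sum_univ_three, pderiv_mul, pderiv_pow, h, h2, map_add, Derivation.map_natCast,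
    pderiv_X_self, pderiv_X_of_ne (show (2 : Fin 3) ≠ 0 by decide), pderiv_X_of_ne (show (2 : Fin 3) ≠ 1 by decide),
    map_zero, mul_zero, zero_mul, zero_add, add_zero, mul_one, map_mul, map_sub, map_natCast, map_one, map_ofNat,
    show b - 1 - 1 = b - 2 from rfl, pderiv_one]
  have e : R = X 0 ^ 2 + X 1 ^ 2 + X 2 ^ 2 := rfl
  linear_combination hc b * X 2 ^ (b - 2) * R ^ i - 4 * X 2 ^ b * i * (i - 1 : ℕ) * R ^ (i - 1 - 1) * e +
    4 * X 2 ^ b * i * hp R (i - 1) + 4 * X 2 ^ b * R ^ (i - 1) * hc i + 4 * i * R ^ (i - 1) * hp (X 2) b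

lemma D_add (P Q : MvPolynomial (Fin 3) ℝ) (c : ℝ) : D (P + C c * Q) = D P + C c * D Q := by
  simp only [D, map_add, pderiv_C_mul, Finset.sum_add_distrib, Finset.mul_sum]

end mv

open Polynomial

noncomputable def L (g : ℝ[X]) : ℝ[X] := derivative ((1 - X ^ 2) * derivative g)

lemma L_add (p q : ℝ[X]) (c : ℝ) : L (p + C c * q) = L p + C c * L q := by
  simp only [L, derivative_add, derivative_C_mul, mul_add, mul_left_comm _ (C c)]

lemma L_mono (b : ℕ) : L (X ^ b) = C (b * (b - 1) : ℝ) * X ^ (b - 2) - C (b * (b + 1) : ℝ) * X ^ b := by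
  rcases b with _ | _ | b
  · simp [L]
  · simp [L]
  · simp [L, map_ofNat]; ring

lemma solid (b : ℕ) : ∀ i : ℕ, ∃ (P : MvPolynomial (Fin 3) ℝ) (p : ℝ[X]), p.degree = b ∧
    (∀ (s : ℝ) (x : E), ev P (s • x) = s ^ (b + 2 * i) * ev P x) ∧ (∀ x : E, ev R x = 1 → ev P x = p.eval (x 2)) ∧
    D P = MvPolynomial.C (2 * i * (2 * b + 2 * i + 1) : ℝ) * (MvPolynomial.X 2 ^ b * R ^ (i - 1)) ∧
    L p + C ((b + 2 * i) * (b + 2 * i + 1) : ℝ) * p = C (2 * i * (2 * b + 2 * i + 1) : ℝ) * X ^ b := by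
  have h1 : ∀ (b i : ℕ) (s : ℝ) (x : E), ev (MvPolynomial.X 2 ^ b * R ^ i) (s • x) =
      s ^ (b + 2 * i) * ev (MvPolynomial.X 2 ^ b * R ^ i) x := fun b i s x => by
    simp only [ev, R, map_mul, map_pow, map_add, MvPolynomial.eval_X, PiLp.smul_apply, smul_eq_mul, mul_pow,
      ← mul_add, pow_add, pow_mul]
    ring
  have h2 : ∀ (b i : ℕ) (x : E), ev R x = 1 → ev (MvPolynomial.X 2 ^ b * R ^ i) x = (x 2) ^ b := fun b i x hx => by
    simp only [ev] at hx
    simp [ev, hx]
  induction b using Nat.twoStepInduction with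
  | zero => exact fun i => ⟨_, X ^ 0, degree_X_pow 0, h1 0 i, by simpa using h2 0 i, by rw [D_mono]; simp,
      by rw [L_mono]; simp [map_ofNat]⟩
  | one => exact fun i => ⟨_, X ^ 1, degree_X_pow 1, h1 1 i, by simpa using h2 1 i, by rw [D_mono]; simp,
      by rw [L_mono]; simp [map_ofNat]; ring⟩
  | more b ih _ =>
    intro i
    obtain ⟨P, p, a1, a2, a3, a4, a5⟩ := ih (i + 1)
    set c : ℝ := -((b + 2) * (b + 1)) / (2 * (i + 1) * (2 * b + 2 * (i + 1) + 1))
    have hc : c * (2 * (i + 1) * (2 * b + 2 * (i + 1) + 1)) = -((b + 2) * (b + 1)) := div_mul_cancel₀ _ (by positivity)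
    refine ⟨MvPolynomial.X 2 ^ (b + 2) * R ^ i + MvPolynomial.C c * P, X ^ (b + 2) + C c * p, ?_, fun s x => ?_,
      fun x hx => ?_, ?_, ?_⟩
    · rw [degree_add_eq_left_of_degree_lt, degree_X_pow]
      rw [degree_X_pow, ← smul_eq_C_mul]
      exact (degree_smul_le _ _).trans_lt (by rw [a1]; exact_mod_cast by omega)
    · have e1 := h1 (b + 2) i s x
      have e2 := a2 s x
      simp only [ev, map_add, map_mul, MvPolynomial.eval_C] at e1 e2 ⊢
      rw [e1, e2]; ring
    · have e1 := h2 (b + 2) i x hx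
      have e2 := a3 x hx
      simp only [ev, map_add, map_mul, MvPolynomial.eval_C] at e1 e2 ⊢
      rw [e1, e2]; simp
    · rw [D_add, D_mono, a4, ← mul_assoc (MvPolynomial.C c), ← map_mul]
      push_cast
      rw [hc]
      simp only [Nat.add_sub_cancel, map_neg, show (b:ℝ) + 2 - 1 = b + 1 by ring]
      ring
    · have := congrArg C hc
      rw [L_add, L_mono]
      simp only [map_mul, map_add, map_sub, map_neg, map_natCast, map_one, map_ofNat, Nat.cast_add, Nat.cast_one,
        Nat.cast_ofNat, Nat.add_sub_cancel] at this a5 ⊢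
      linear_combination C c * a5 + X ^ b * this

def Good (k : ℕ) (g : ℝ[X]) : Prop := ∃ P : MvPolynomial (Fin 3) ℝ, D P = 0 ∧
  (∀ j < k, iteratedFDeriv ℝ j (ev P) 0 = 0) ∧ ∀ x : E, ‖x‖ = 1 / 2 → ev P x = g.eval (2 * x 2)

lemma ev_R (x : E) : ev R x = ‖x‖ ^ 2 := by
  simp [ev, R, EuclideanSpace.norm_sq_eq, Fin.sum_univ_three]

noncomputable def Op : ℕ → ℝ[X] → ℝ[X]
  | 0, g => g
  | k + 1, g => L (Op k g) + C (k * (k + 1) : ℝ) * Op k g

lemma good (k : ℕ) (g : ℝ[X]) : Good k (Op k g) := by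
  choose P p h1 h2 h3 h4 h5 using fun b => solid b 0
  simp only [Nat.cast_zero, mul_zero, zero_mul, add_zero, map_zero] at h2 h4 h5
  let W : ℕ → Submodule ℝ ℝ[X] := fun k => Submodule.span ℝ (p '' Set.Ici k)
  have w1 : Op k g ∈ W k := by
    induction k with
    | zero =>
      have := Polynomial.Sequence.span ⟨p, h1⟩ fun i => isUnit_iff_ne_zero.mpr (leadingCoeff_ne_zero.mpr
        (Polynomial.Sequence.ne_zero ⟨p, h1⟩ i))
      simp only [W, show Set.Ici 0 = (Set.univ : Set ℕ) from Set.Ici_bot, Set.image_univ]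
      exact (show Submodule.span ℝ (Set.range p) = ⊤ from this) ▸ Submodule.mem_top
    | succ k ih =>
      rw [Op]
      generalize Op k g = f at ih
      induction ih using Submodule.span_induction with
      | mem f hf =>
        obtain ⟨a, ha, rfl⟩ := hf
        have e : L (p a) + C (k * (k + 1) : ℝ) * p a = (k * (k + 1) - a * (a + 1) : ℝ) • p a := by
          rw [smul_eq_C_mul, map_sub]; linear_combination h5 a
        rw [e]
        rcases (show k ≤ a from ha).eq_or_lt with rfl | h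
        · simp
        · exact Submodule.smul_mem _ _ (Submodule.subset_span ⟨a, h, rfl⟩)
      | zero => simp [L]
      | add f f' _ _ a1 a2 =>
        have := L_add f f' 1
        simp only [map_one, one_mul] at this
        convert Submodule.add_mem _ a1 a2 using 1
        rw [this]; ring
      | smul c f _ a1 =>
        have := L_add 0 f c
        simp only [zero_add, show L 0 = 0 by simp [L]] at this
        convert Submodule.smul_mem _ c a1 using 1
        rw [smul_eq_C_mul, smul_eq_C_mul, this]; ring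
  have add : ∀ f f' (c : ℝ), Good k f → Good k f' → Good k (f + C c * f') := by
    rintro f f' c ⟨Q, a1, a2, a3⟩ ⟨Q', b1, b2, b3⟩
    have e : ev (Q + MvPolynomial.C c * Q') = ev Q + c • ev Q' := funext fun x => by simp [ev]
    refine ⟨Q + MvPolynomial.C c * Q', by rw [D_add, a1, b1]; simp, fun j hj => ?_, fun x hx => ?_⟩
    · rw [e, iteratedFDeriv_add_apply (g := c • ev Q') (ev_smooth Q).contDiffAt ((ev_smooth Q').const_smul c).contDiffAt,
        iteratedFDeriv_const_smul_apply (ev_smooth Q').contDiffAt, a2 j hj, b2 j hj]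
      simp
    · simp [e, a3 x hx, b3 x hx]
  have zero : Good k 0 := ⟨0, by simp [D], fun j _ => by
    rw [show ev 0 = fun _ => 0 from funext fun _ => map_zero _]; simp, fun x _ => by simp [ev]⟩
  generalize Op k g = f at w1
  induction w1 using Submodule.span_induction with
  | mem f hf =>
    obtain ⟨a, ha, rfl⟩ := hf
    have := D_add 0 (P a) (2 ^ a)
    rw [h4, zero_add, mul_zero, add_zero, show D 0 = 0 by simp [D]] at this
    have e : ev (MvPolynomial.C (2 ^ a) * P a) = (2 ^ a : ℝ) • ev (P a) := funext fun x => by simp [ev]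
    refine ⟨_, this, fun j hj => ?_, fun x hx => ?_⟩
    · have a1 := congrFun (iteratedFDeriv_comp_const_smul (i := j) (2:ℝ) (ev_smooth (P a))) 0
      rw [funext (h2 a 2), smul_zero] at a1
      have a2 := iteratedFDeriv_const_smul_apply (i := j) (a := (2 ^ a : ℝ)) (x := 0) (ev_smooth (P a)).contDiffAt
      have a3 : (2 ^ a - 2 ^ j : ℝ) • iteratedFDeriv ℝ j (ev (P a)) 0 = 0 := by
        rw [sub_smul, ← a1, ← a2]; exact sub_self _
      have a4 : (2:ℝ) ^ j < 2 ^ a := pow_lt_pow_right₀ one_lt_two (hj.trans_le ha)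
      rw [e, a2, (smul_eq_zero.mp a3).resolve_left (by linarith), smul_zero]
    · rw [e, Pi.smul_apply, smul_eq_mul, ← h2, h3 a _ (by rw [ev_R, norm_smul, hx]; norm_num)]
      simp
  | zero => exact zero
  | add f f' _ _ a1 a2 => simpa using add f f' 1 a1 a2
  | smul c f _ a1 => simpa [smul_eq_C_mul] using add 0 f c zero a1

def Cv (F : ℕ → ℝ[X]) (g : ℝ[X]) : Prop := ∀ i, Tendsto (fun M => (F M).coeff i) atTop (𝓝 (g.coeff i))

lemma Cv.add {F F' : ℕ → ℝ[X]} {g g' : ℝ[X]} (h : Cv F g) (h' : Cv F' g') : Cv (fun M => F M + F' M) (g + g') :=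
  fun i => by simpa only [coeff_add] using (h i).add (h' i)

lemma Cv.mul {F : ℕ → ℝ[X]} {g : ℝ[X]} (h : Cv F g) (r : ℝ[X]) : Cv (fun M => r * F M) (r * g) :=
  fun i => by simpa only [coeff_mul] using tendsto_finsetSum _ fun x _ => (h x.2).const_mul _

lemma Cv.der {F : ℕ → ℝ[X]} {g : ℝ[X]} (h : Cv F g) : Cv (fun M => derivative (F M)) (derivative g) :=
  fun i => by simpa only [coeff_derivative] using (h (i + 1)).mul_const _

lemma Cv.smul {F : ℕ → ℝ[X]} {g : ℝ[X]} (h : Cv F g) {a : ℕ → ℝ} {b : ℝ} (ha : Tendsto a atTop (𝓝 b)) :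
    Cv (fun M => C (a M) * F M) (C b * g) :=
  fun i => by simpa only [coeff_C_mul] using ha.mul (h i)

lemma asym (k : ℕ) : ∃ N : ℕ → ℝ[X], (∀ M, (N M).natDegree ≤ 3 * k) ∧ Cv N ((1 - X) ^ k) ∧
    ∀ M, k < M → Op k ((1 + X) ^ M) = C ((M:ℝ) ^ (2 * k)) * ((1 + X) ^ (M - k) * N M) := by
  induction k with
  | zero => exact ⟨fun _ => 1, by simp, fun i => by simpa using tendsto_const_nhds, fun M _ => by simp [Op]⟩
  | succ k ih =>
    obtain ⟨N, h1, h2, h3⟩ := ih
    have e0 : Tendsto (fun M : ℕ => (M:ℝ)⁻¹) atTop (𝓝 0) := tendsto_inv_atTop_nhds_zero_nat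
    have a0 : Tendsto (fun M : ℕ => 1 - k * (M:ℝ)⁻¹) atTop (𝓝 1) := by simpa using (e0.const_mul (k:ℝ)).const_sub 1
    have c1 := ((h2.smul a0).add ((h2.der.mul (1 + X)).smul e0)).mul (1 - X)
    have c2 := ((c1.smul a0).add ((c1.der.mul (1 + X)).smul e0)).add
      (((h2.mul (1 + X)).smul (tendsto_const_nhds (x := (k * (k + 1) : ℝ)))).smul (e0.mul e0))
    simp only [map_zero, zero_mul, add_zero, map_one, one_mul, ← pow_succ'] at c2
    refine ⟨_, fun M => ?_, c2, fun M hM => ?_⟩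
    · have d1 : ∀ (c : ℝ) (f : ℝ[X]) (d : ℕ), f.natDegree ≤ d → (C c * f).natDegree ≤ d := fun c f d h =>
        (natDegree_C_mul_le _ _).trans h
      have d2 : ∀ (f : ℝ[X]) (d : ℕ), f.natDegree ≤ d → ((1 + X) * f).natDegree ≤ 1 + d := fun f d h =>
        natDegree_mul_le_of_le (by compute_degree) h
      have d3 : ∀ (f : ℝ[X]) (d : ℕ), f.natDegree ≤ d → ((1 - X) * f).natDegree ≤ 1 + d := fun f d h =>
        natDegree_mul_le_of_le (by compute_degree) h
      have d4 : ∀ (f : ℝ[X]) (d : ℕ), f.natDegree ≤ d → (derivative f).natDegree ≤ d := fun f d h =>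
        (natDegree_derivative_le f).trans ((Nat.sub_le _ _).trans h)
      have d5 := d3 _ _ ((natDegree_add_le_of_le (d1 (1 - k * (M:ℝ)⁻¹) _ _ (h1 M))
        (d1 (M:ℝ)⁻¹ _ _ (d2 _ _ (d4 _ _ (h1 M))))).trans_eq (max_eq_right (by omega)))
      refine (natDegree_add_le_of_le (natDegree_add_le_of_le (d1 _ _ _ d5) (d1 _ _ _ (d2 _ _ (d4 _ _ d5))))
        (d1 _ _ _ (d1 _ _ _ (d2 _ _ (h1 M))))).trans (by omega)
    · obtain ⟨m, rfl⟩ : ∃ m, M = m + 1 + k := ⟨M - 1 - k, by omega⟩
      rw [Op, h3 _ (by omega), show m + 1 + k - k = m + 1 by omega, show m + 1 + k - (k + 1) = m by omega]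
      set y : ℝ := ((m + 1 + k : ℕ) : ℝ) with hy
      have y0 : y ≠ 0 := by positivity
      have u1 : C y * C y⁻¹ = (1 : ℝ[X]) := by rw [← map_mul, mul_inv_cancel₀ y0, map_one]
      have u2 : C y * C (1 - k * y⁻¹) = (m + 1 : ℝ[X]) := by
        rw [← map_mul, show y * (1 - k * y⁻¹) = m + 1 by field_simp; rw [hy]; push_cast; ring]; simp
      have u3 : (1 - X ^ 2) * derivative (C (y ^ (2 * k)) * ((1 + X) ^ (m + 1) * N (m + 1 + k))) =
          C (y ^ (2 * k)) * C y * ((1 + X) ^ (m + 1) * ((1 - X) * (C (1 - k * y⁻¹) * N (m + 1 + k) +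
            C y⁻¹ * ((1 + X) * derivative (N (m + 1 + k)))))) := by
        simp only [derivative_C_mul, derivative_mul, derivative_pow_succ, derivative_add, derivative_one,
          derivative_X, derivative_C, map_add, map_natCast, map_one]
        linear_combination (-C (y ^ (2 * k)) * (1 + X) ^ (m + 1) * (1 - X) * N (m + 1 + k)) * u2 -
          (C (y ^ (2 * k)) * (1 + X) ^ (m + 2) * (1 - X) * derivative (N (m + 1 + k))) * u1
      rw [L, u3]
      generalize (1 - X) * (C (1 - k * y⁻¹) * N (m + 1 + k) + C y⁻¹ * ((1 + X) * derivative (N (m + 1 + k)))) = G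
      simp only [derivative_mul, derivative_pow_succ, derivative_add, derivative_one,
          derivative_X, derivative_C]
      simp only [map_add, map_natCast, map_one, map_mul, mul_add 2, pow_add y, map_pow]
      linear_combination (-(C y) ^ (2 * k + 1) * (1 + X) ^ m * G) * u2 -
        ((C y) ^ (2 * k + 1) * (1 + X) ^ (m + 1) * derivative G +
          (C y) ^ (2 * k) * (1 + X) ^ (m + 1) * (k * (k + 1)) * N (m + 1 + k) * (C y * C y⁻¹ + 1)) * u1

open MeasureTheory in
lemma circle (t : ℝ) (ρ : NNReal) (h : 1 - t ^ 2 ≤ 4 * ρ ^ 2) :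
    μH[1] {x : E | ‖x‖ = 1 / 2 ∧ 2 * x 2 = t} ≤ ENNReal.ofReal (2 * ρ * (2 * Real.pi)) := by
  let r := √(1 - t ^ 2) / 2
  have r0 : 0 ≤ r := by positivity
  have r1 : r ≤ ρ := by
    have : √(1 - t ^ 2) ≤ 2 * ρ := Real.sqrt_le_iff.mpr ⟨by positivity, by linarith⟩
    simp only [r]; linarith
  let γ : ℝ → E := fun φ => (r * Real.cos φ) • EuclideanSpace.single 0 1 + (r * Real.sin φ) • EuclideanSpace.single 1 1 +
    (t / 2) • EuclideanSpace.single 2 1
  have lip : LipschitzWith (2 * ρ) γ := LipschitzWith.of_dist_le_mul fun a b => by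
    simp only [γ, dist_add_right]
    refine (dist_add_add_le _ _ _ _).trans ?_
    simp only [dist_eq_norm, ← sub_smul, norm_smul, PiLp.norm_single, norm_one, mul_one, ← mul_sub,
      norm_mul, Real.norm_of_nonneg r0, Real.norm_eq_abs]
    have a1 := mul_le_mul r1 (Real.abs_cos_sub_cos_le a b) (abs_nonneg _) ρ.2
    have a2 := mul_le_mul r1 (Real.abs_sin_sub_sin_le a b) (abs_nonneg _) ρ.2
    push_cast; linarith
  refine (measure_mono (t := γ '' Set.Icc (-Real.pi) Real.pi) ?_).trans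
    ((lip.hausdorffMeasure_image_le zero_le_one _).trans_eq ?_)
  · rintro x ⟨h1, h2⟩
    let z : ℂ := ⟨x 0, x 1⟩
    have e : ‖z‖ = r := by
      have := ev_R x
      simp only [ev, R, map_add, map_pow, MvPolynomial.eval_X, h1] at this
      rw [Complex.norm_eq_sqrt_sq_add_sq, show z.re ^ 2 + z.im ^ 2 = (1 - t ^ 2) / 2 ^ 2 by
          rw [← h2]; simp only [z]; linarith,
        Real.sqrt_div' _ (by positivity), Real.sqrt_sq zero_le_two]
    refine ⟨z.arg, ⟨z.neg_pi_lt_arg.le, z.arg_le_pi⟩, ?_⟩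
    simp only [γ, ← e, Complex.norm_mul_cos_arg, Complex.norm_mul_sin_arg]
    ext i
    fin_cases i <;> simp [z, ← h2]
  · rw [hausdorffMeasure_real, Real.volume_Icc, ENNReal.rpow_one, ENNReal.ofReal_mul (by positivity),
      ← ENNReal.ofReal_coe_nnreal]
    congr 2; ring

open MeasureTheory in
theorem main (k : ℕ) {ε : ℝ} (hε : 0 < ε) : ∃ u : E → ℝ, HarmonicOnNhd u (Metric.ball 0 1) ∧
    (∃ x ∈ Metric.ball (0 : E) 1, u x ≠ 0) ∧ (∀ j < k, iteratedFDeriv ℝ j u 0 = 0) ∧
    μH[1] {x : E | ‖x‖ = 1 / 2 ∧ u x = 0} ≤ ENNReal.ofReal ε := by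
  obtain ⟨N, h1, h2, h3⟩ := asym k
  have := Real.pi_pos
  obtain ⟨ρ, ρ0, ρ1, ρ2⟩ : ∃ ρ : NNReal, (0:ℝ) < ρ ∧ (ρ:ℝ) ≤ 1 ∧ (3 * k + 1) * (2 * ρ * (2 * Real.pi)) ≤ ε := by
    have p : 0 < min 1 (ε / ((3 * k + 1) * (4 * Real.pi))) := by positivity
    lift min 1 (ε / ((3 * k + 1) * (4 * Real.pi))) to NNReal using p.le with ρ hρ
    have := (le_div_iff₀ (by positivity)).mp (min_le_right 1 (ε / ((3 * k + 1) * (4 * Real.pi))))
    exact ⟨ρ, p, hρ ▸ min_le_left _ _, by rw [← hρ] at this; linarith⟩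
  have t1 : Tendsto (fun M => ∑ i ∈ Finset.range (3 * k + 1), |(N M - (1 - X) ^ k).coeff i|) atTop (𝓝 0) := by
    have := tendsto_finsetSum (Finset.range (3 * k + 1)) fun i _ =>
      ((h2 i).sub_const (((1 - X) ^ k : ℝ[X]).coeff i)).abs
    simp only [sub_self, abs_zero, Finset.sum_const_zero] at this
    simpa only [coeff_sub] using this
  obtain ⟨M, m1, m2⟩ := ((t1.eventually_lt_const (show (0:ℝ) < (ρ ^ 2) ^ k by positivity)).and
    (eventually_gt_atTop k)).exists
  have pos : ∀ t : ℝ, |t| ≤ 1 → t ≤ 1 - ρ ^ 2 → 0 < (N M).eval t := by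
    intro t a1 a2
    have d : (N M - (1 - X) ^ k).natDegree < 3 * k + 1 := by
      refine Nat.lt_succ_of_le ((natDegree_sub_le_of_le (h1 M) (natDegree_pow_le_of_le k
        (show (1 - X : ℝ[X]).natDegree ≤ 1 by compute_degree))).trans (by omega))
    have a3 : |(N M - (1 - X) ^ k).eval t| ≤ ∑ i ∈ Finset.range (3 * k + 1), |(N M - (1 - X) ^ k).coeff i| := by
      rw [eval_eq_sum_range' d]
      refine (Finset.abs_sum_le_sum_abs _ _).trans (Finset.sum_le_sum fun i _ => ?_)
      rw [abs_mul, abs_pow]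
      exact mul_le_of_le_one_right (abs_nonneg _) (pow_le_one₀ (abs_nonneg _) a1)
    have a4 : ((ρ:ℝ) ^ 2) ^ k ≤ (1 - t) ^ k := by gcongr; linarith
    simp only [eval_sub, eval_pow, eval_one, eval_X] at a3
    linarith [abs_le.mp a3]
  have r2 : (ρ:ℝ) ^ 2 ≤ 1 := pow_le_one₀ ρ0.le ρ1
  have N0 : N M ≠ 0 := fun h => by simpa [h] using pos 0 (by simp) (by linarith)
  have M0 : (0:ℝ) < M := by exact_mod_cast lt_of_le_of_lt (Nat.zero_le k) m2
  obtain ⟨P, p1, p2, p3⟩ := good k ((1 + X) ^ M)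
  simp only [h3 M m2, eval_mul, eval_C, eval_pow, eval_add, eval_one, eval_X] at p3
  refine ⟨ev P, fun x _ => ⟨(ev_smooth P).contDiffAt, by rw [lap, p1]; exact .of_forall fun y => map_zero _⟩,
    ⟨EuclideanSpace.single 0 (1 / 2), by simp; norm_num, ?_⟩, p2, ?_⟩
  · have := pos 0 (by simp) (by linarith)
    rw [p3 _ (by simp)]
    simp only [ne_eq, Fin.reduceEq, not_false_eq_true, PiLp.single_eq_of_ne, mul_zero]
    positivity
  · let T := {t ∈ insert (-1) (N M).roots.toFinset | 1 - t ^ 2 ≤ 4 * (ρ:ℝ) ^ 2}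
    have cT : T.card ≤ 3 * k + 1 := (Finset.card_filter_le _ _).trans ((Finset.card_insert_le _ _).trans
      (Nat.succ_le_succ ((Multiset.toFinset_card_le _).trans ((card_roots' _).trans (h1 M)))))
    refine (measure_mono (t := ⋃ t ∈ T, {x : E | ‖x‖ = 1 / 2 ∧ 2 * x 2 = t}) ?_).trans
      ((measure_biUnion_finset_le _ _).trans ((Finset.sum_le_card_nsmul _ _ _ fun t ht =>
        circle t ρ (Finset.mem_filter.mp ht).2).trans ?_))
    · rintro x ⟨a1, a2⟩
      refine Set.mem_biUnion (x := 2 * x 2) ?_ ⟨a1, rfl⟩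
      have a3 : |2 * x 2| ≤ 1 := by
        have := PiLp.norm_apply_le x 2
        rw [a1, Real.norm_eq_abs] at this
        rw [abs_mul, abs_two]; linarith
      rw [p3 x a1] at a2
      generalize 2 * x 2 = t at a2 a3
      simp only [T, Finset.coe_filter, Finset.mem_insert, Multiset.mem_toFinset, mem_roots N0, IsRoot.def,
        Set.mem_ofPred_eq]
      rcases mul_eq_zero.mp ((mul_eq_zero.mp a2).resolve_left (by positivity)) with h | h
      · obtain rfl : t = -1 := by linarith [pow_eq_zero_iff (M - k |>.pos_iff_ne_zero.mp (by omega)) |>.mp h]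
        exact ⟨Or.inl rfl, by norm_num⟩
      · have : 1 - ρ ^ 2 < t := not_le.mp fun h' => (pos t a3 h').ne' h
        exact ⟨Or.inr h, by nlinarith [abs_le.mp a3]⟩
    · rw [nsmul_eq_mul, ← ENNReal.ofReal_natCast, ← ENNReal.ofReal_mul (by positivity)]
      refine ENNReal.ofReal_le_ofReal (le_trans ?_ ρ2)
      gcongr
      exact_mod_cast cT

end Pool.Agent.H92.Zonal
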